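import Pool.Agent.WPE.DSD

/-! [DA2] the invariants p_2,..,p_{2l-2}, e of D_l -/

namespace WPE

open WPQ MvPolynomial

noncomputable section

/-- the orthonormal coordinates are linear forms -/
private theorem da2_eD_hom (l : ℕ) (k : Fin l) : (eD l k).IsHomogeneous 1 := by
  unfold eD
  refine IsHomogeneous.sum _ _ _ fun i _ => ?_
  have h := (isHomogeneous_C (Fin l) (mD l k i)).mul (isHomogeneous_X ℂ i)
  rwa [zero_add] at h

/-- a simple reflection permutes the coordinates up to an even number of signs -/
private theorem da2_rf (l : ℕ) (hl : 4 ≤ l) (a1 : st_DA1 l) (j : Fin l) :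
    ∃ (σ : Equiv.Perm (Fin l)) (s : Fin l → ℂ), (∀ k, s k = 1 ∨ s k = -1) ∧ ∏ k, s k = 1 ∧
      ∀ k, rfS (CartanMatrix.D l) j (eD l k) = C (s k) * eD l (σ k) := by
  have hx := a1.x j
  by_cases hj : (j : ℕ) + 1 = l
  · have e1 : ∀ k : Fin l, nD l j k = if (k : ℕ) + 2 = l ∨ (k : ℕ) + 1 = l then 1 else 0 := by
      intro k
      unfold nD
      rw [if_pos hj]
    obtain ⟨j', hj'⟩ : ∃ j' : Fin l, (j' : ℕ) + 2 = l := ⟨⟨l - 2, by omega⟩, by simp; omega⟩
    have hne : j' ≠ j := by
      intro h
      rw [h] at hj'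
      omega
    have hX : (X j : MvPolynomial (Fin l) ℂ) = eD l j' + eD l j := by
      rw [hx, Finset.sum_eq_add j' j hne]
      · rw [e1, e1, if_pos (Or.inl hj'), if_pos (Or.inr hj), C_1, one_mul, one_mul]
      · rintro k - ⟨h1, h2⟩
        rw [e1, if_neg, C_0, zero_mul]
        rintro (h | h)
        · exact h1 (Fin.ext (by omega))
        · exact h2 (Fin.ext (by omega))
      · intro h
        exact absurd (Finset.mem_univ _) h
      · intro h
        exact absurd (Finset.mem_univ _) h
    refine ⟨Equiv.swap j' j, fun k => if k = j' ∨ k = j then -1 else 1, ?_, ?_, ?_⟩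
    · intro k
      by_cases h : k = j' ∨ k = j
      · right
        exact if_pos h
      · left
        exact if_neg h
    · rw [← Finset.mul_prod_erase Finset.univ _ (Finset.mem_univ j'),
        ← Finset.mul_prod_erase (Finset.univ.erase j') _
          (Finset.mem_erase.2 ⟨hne.symm, Finset.mem_univ j⟩), Finset.prod_eq_one]
      · rw [if_pos (Or.inl rfl), if_pos (Or.inr rfl)]
        norm_num
      · intro k hk
        rw [Finset.mem_erase, Finset.mem_erase] at hk
        rw [if_neg]
        rintro (h | h)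
        · exact hk.2.1 h
        · exact hk.1 h
    · intro k
      rw [a1.rf, e1, hX]
      beta_reduce
      by_cases h1 : k = j'
      · subst h1
        rw [if_pos (Or.inl hj'), if_pos (Or.inl rfl), Equiv.swap_apply_left, C_1, C_neg, C_1]
        ring
      · by_cases h2 : k = j
        · subst h2
          rw [if_pos (Or.inr hj), if_pos (Or.inr rfl), Equiv.swap_apply_right, C_1, C_neg, C_1]
          ring
        · rw [if_neg, if_neg, Equiv.swap_apply_of_ne_of_ne h1 h2, C_0, C_1]
          · ring
          · rintro (h | h)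
            · exact h1 h
            · exact h2 h
          · rintro (h | h)
            · exact h1 (Fin.ext (by omega))
            · exact h2 (Fin.ext (by omega))
  · have hjl : (j : ℕ) + 1 < l := by
      have := j.2
      omega
    obtain ⟨j', hj'⟩ : ∃ j' : Fin l, (j' : ℕ) = j + 1 := ⟨⟨j + 1, hjl⟩, rfl⟩
    have e1 : ∀ k : Fin l, nD l j k = if k = j then 1 else if k = j' then -1 else 0 := by
      intro k
      unfold nD
      rw [if_neg hj]
      by_cases h : k = j
      · rw [if_pos h, if_pos h]
      · rw [if_neg h, if_neg h]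
        by_cases h2 : k = j'
        · rw [if_pos h2, if_pos (by rw [h2, hj'])]
        · rw [if_neg h2, if_neg]
          intro h3
          exact h2 (Fin.ext (by omega))
    have hne : j ≠ j' := by
      intro h
      rw [← h] at hj'
      omega
    have hX : (X j : MvPolynomial (Fin l) ℂ) = eD l j - eD l j' := by
      rw [hx, Finset.sum_eq_add j j' hne]
      · rw [e1, e1, if_pos rfl, if_neg hne.symm, if_pos rfl, C_1, C_neg, C_1]
        ring
      · rintro k - ⟨h1, h2⟩
        rw [e1, if_neg h1, if_neg h2, C_0, zero_mul]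
      · intro h
        exact absurd (Finset.mem_univ _) h
      · intro h
        exact absurd (Finset.mem_univ _) h
    refine ⟨Equiv.swap j j', fun k => 1, fun k => Or.inl rfl, Finset.prod_const_one, ?_⟩
    intro k
    rw [a1.rf, e1, hX]
    by_cases h1 : k = j
    · subst h1
      rw [if_pos rfl, Equiv.swap_apply_left, C_1]
      ring
    · by_cases h2 : k = j'
      · subst h2
        rw [if_neg h1, if_pos rfl, Equiv.swap_apply_right, C_1, C_neg, C_1]
        ring
      · rw [if_neg h1, if_neg h2, Equiv.swap_apply_of_ne_of_ne h1 h2, C_0, C_1]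
        ring

/-- powers of signs -/
private theorem da2_sq (s : ℂ) (h : s = 1 ∨ s = -1) (n : ℕ) : s ^ (2 * n) = 1 := by
  rcases h with rfl | rfl
  · rw [one_pow]
  · rw [pow_mul, neg_one_sq, one_pow]

/-- the invariants under a signed permutation -/
private theorem da2_perm {l : ℕ} (φ : MvPolynomial (Fin l) ℂ →ₐ[ℂ] MvPolynomial (Fin l) ℂ)
    (σ : Equiv.Perm (Fin l)) (s : Fin l → ℂ) (hs : ∀ k, s k = 1 ∨ s k = -1)
    (h : ∀ k, φ (eD l k) = C (s k) * eD l (σ k)) :
    (∀ n, φ (pwS l (2 * n)) = pwS l (2 * n)) ∧ φ (pfS l) = C (∏ k, s k) * pfS l := by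
  constructor
  · intro n
    unfold pwS
    rw [map_sum, ← Equiv.sum_comp σ (fun k => eD l k ^ (2 * n))]
    refine Finset.sum_congr rfl fun k _ => ?_
    rw [map_pow, h, mul_pow, ← C_pow, da2_sq _ (hs k), C_1, one_mul]
  · unfold pfS
    rw [map_prod, Finset.prod_congr rfl fun k _ => h k, Finset.prod_mul_distrib,
      Equiv.prod_comp σ (fun k => eD l k), map_prod]

theorem DA2 (l : ℕ) (hl : 4 ≤ l) (a1 : st_DA1 l) : st_DA2 l := by
  have hrf : ∀ j : Fin l, (∀ n, rfS (CartanMatrix.D l) j (pwS l (2 * n)) = pwS l (2 * n)) ∧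
      rfS (CartanMatrix.D l) j (pfS l) = pfS l := by
    intro j
    obtain ⟨σ, s, h1, h2, h3⟩ := da2_rf l hl a1 j
    have h4 := da2_perm (rfS (CartanMatrix.D l) j) σ s h1 h3
    rw [h2, C_1, one_mul] at h4
    exact h4
  have hth : (∀ n, rename (sgD l) (pwS l (2 * n)) = pwS l (2 * n)) ∧
      rename (sgD l) (pfS l) = -pfS l := by
    have h4 := da2_perm (rename (sgD l)) 1 (fun k => if (k : ℕ) + 1 = l then -1 else 1) ?_ ?_
    · refine ⟨h4.1, ?_⟩
      have h5 := h4.2
      have h6 : ∏ k : Fin l, (if (k : ℕ) + 1 = l then (-1 : ℂ) else 1) = -1 := by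
        obtain ⟨j, hj⟩ : ∃ j : Fin l, (j : ℕ) + 1 = l := ⟨⟨l - 1, by omega⟩, by simp; omega⟩
        rw [Finset.prod_eq_single j]
        · rw [if_pos hj]
        · intro k _ hk
          rw [if_neg]
          intro h
          exact hk (Fin.ext (by omega))
        · intro h
          exact absurd (Finset.mem_univ _) h
      rw [h6, C_neg, C_1, neg_one_mul] at h5
      exact h5
    · intro k
      by_cases h : (k : ℕ) + 1 = l
      · right
        exact if_pos h
      · left
        exact if_neg h
    · intro k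
      rw [a1.th, Equiv.Perm.one_apply]
      by_cases h : (k : ℕ) + 1 = l
      · rw [if_pos h, if_pos h, C_neg, C_1, neg_one_mul]
      · rw [if_neg h, if_neg h, C_1, one_mul]
  have hpw : ∀ n : ℕ, (pwS l n).IsHomogeneous n := by
    intro n
    unfold pwS
    refine IsHomogeneous.sum _ _ _ fun k _ => ?_
    have h := (da2_eD_hom l k).pow n
    rwa [one_mul] at h
  have hpf : (pfS l).IsHomogeneous l := by
    unfold pfS
    have h := IsHomogeneous.prod Finset.univ (fun k : Fin l => eD l k) (fun _ => 1)
      (fun k _ => da2_eD_hom l k)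
    simpa using h
  refine ⟨fun j n => (hrf j).1 n, fun j => (hrf j).2, hth.1, hth.2, hpw, hpf, ?_, ?_, ?_⟩
  · intro i j
    unfold PD
    split_ifs
    · exact (hrf j).2
    · exact (hrf j).1 _
  · intro i
    unfold PD dD
    split_ifs
    · exact hpf
    · exact hpw _
  · intro i
    unfold PD
    split_ifs
    · exact hth.2
    · exact hth.1 _

end

end WPE
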