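import Pool.Agent.WPE.DSD

/-! [DA3] the Jacobian of the invariants is not zero -/

namespace WPE

open WPQ MvPolynomial

noncomputable section

/-- The point with the orthonormal coordinates `y`. -/
def da3_pt (l : ℕ) (y : Fin l → ℂ) (i : Fin l) : ℂ := ∑ k, nD l i k * y k

theorem da3_eval (l : ℕ) (a1 : st_DA1 l) (y : Fin l → ℂ) (k : Fin l) :
    eval (da3_pt l y) (eD l k) = y k := by
  unfold eD
  rw [map_sum]
  have h1 : ∀ i, eval (da3_pt l y) (C (mD l k i) * X i) =
      ∑ k', mD l k i * nD l i k' * y k' := by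
    intro i
    rw [map_mul, eval_C, eval_X, da3_pt, Finset.mul_sum]
    exact Finset.sum_congr rfl fun k' _ => by ring
  rw [Finset.sum_congr rfl fun i _ => h1 i, Finset.sum_comm]
  have h2 : ∀ k', ∑ i, mD l k i * nD l i k' * y k' = (if k = k' then 1 else 0) * y k' := by
    intro k'
    rw [← a1.mn k k', Finset.sum_mul]
  rw [Finset.sum_congr rfl fun k' _ => h2 k']
  simp

theorem da3_pd (l : ℕ) (c k : Fin l) : pderiv c (eD l k) = C (mD l k c) := by
  unfold eD
  rw [map_sum]
  have h1 : ∀ i, pderiv c (C (mD l k i) * X i : MvPolynomial (Fin l) ℂ) =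
      if i = c then C (mD l k i) else 0 := by
    intro i
    rw [pderiv_C_mul, pderiv_X]
    by_cases h : i = c
    · subst h
      simp
    · simp [h]
  rw [Finset.sum_congr rfl fun i _ => h1 i]
  simp

theorem da3_prod (l : ℕ) (a1 : st_DA1 l) (y : Fin l → ℂ) (hy : ∀ k, y k ≠ 0) (c : Fin l)
    (s : Finset (Fin l)) : eval (da3_pt l y) (pderiv c (∏ k ∈ s, eD l k)) =
      (∏ k ∈ s, y k) * ∑ k ∈ s, (y k)⁻¹ * mD l k c := by
  induction s using Finset.induction_on with
  | empty => simp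
  | insert a s ha ih =>
    rw [Finset.prod_insert ha, Finset.prod_insert ha, Finset.sum_insert ha, Derivation.leibniz,
      smul_eq_mul, smul_eq_mul, map_add, map_mul, map_mul, ih, da3_eval l a1, da3_pd, eval_C,
      map_prod]
    have h1 : ∏ x ∈ s, eval (da3_pt l y) (eD l x) = ∏ x ∈ s, y x :=
      Finset.prod_congr rfl fun x _ => da3_eval l a1 y x
    rw [h1]
    have h2 := hy a
    field_simp
    ring

/-- The exponents and the factors of the rows. -/
def da3_c (l : ℕ) (y : Fin l → ℂ) (i : Fin l) : ℂ :=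
  if (i : ℕ) + 1 = l then ∏ k, y k else 2 * ((i : ℕ) + 1)

def da3_e (l : ℕ) (i : Fin l) : ℕ := if (i : ℕ) + 1 = l then 0 else (i : ℕ) + 1

theorem da3_entry (l : ℕ) (a1 : st_DA1 l) (y : Fin l → ℂ) (hy : ∀ k, y k ≠ 0) (i c : Fin l) :
    eval (da3_pt l y) (pderiv c (PD l i)) =
      ∑ k, (da3_c l y i * ((y k)⁻¹ * (y k ^ 2) ^ da3_e l i)) * mD l k c := by
  unfold PD da3_c da3_e
  by_cases h : (i : ℕ) + 1 = l
  · simp only [h, if_true]
    unfold pfS
    rw [da3_prod l a1 y hy c Finset.univ, Finset.mul_sum]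
    refine Finset.sum_congr rfl fun k _ => ?_
    rw [pow_zero]
    ring
  · simp only [h, if_false]
    unfold pwS
    rw [map_sum, map_sum]
    refine Finset.sum_congr rfl fun k _ => ?_
    rw [pderiv_pow, map_mul, map_mul, map_pow, da3_eval l a1, da3_pd, eval_C, map_natCast]
    have h1 : y k ^ (2 * ((i : ℕ) + 1) - 1) = (y k)⁻¹ * (y k ^ 2) ^ ((i : ℕ) + 1) := by
      have h2 := hy k
      rw [← pow_mul]
      have h3 : y k ^ (2 * ((i : ℕ) + 1)) = y k ^ (2 * ((i : ℕ) + 1) - 1) * y k := by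
        rw [← pow_succ]
        congr 1
      rw [h3]
      field_simp
    rw [h1]
    push_cast
    ring

theorem da3_det (l : ℕ) (hl : 0 < l) (y : Fin l → ℂ) (hy : ∀ k, y k ≠ 0)
    (hinj : Function.Injective fun k => y k ^ 2) :
    (Matrix.of fun i k : Fin l => da3_c l y i * ((y k)⁻¹ * (y k ^ 2) ^ da3_e l i)).det ≠ 0 := by
  obtain ⟨n, rfl⟩ : ∃ n, l = n + 1 := ⟨l - 1, by omega⟩
  have h1 : (Matrix.of fun i k : Fin (n + 1) =>
      da3_c (n + 1) y i * ((y k)⁻¹ * (y k ^ 2) ^ da3_e (n + 1) i)).det =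
      (∏ i, da3_c (n + 1) y i) * (Matrix.of fun i k : Fin (n + 1) =>
        (y k)⁻¹ * (y k ^ 2) ^ da3_e (n + 1) i).det := by
    have h := Matrix.det_mul_column (da3_c (n + 1) y)
      (Matrix.of fun i k : Fin (n + 1) => (y k)⁻¹ * (y k ^ 2) ^ da3_e (n + 1) i)
    simp only [Matrix.of_apply] at h
    exact h
  have h2 : (Matrix.of fun i k : Fin (n + 1) => (y k)⁻¹ * (y k ^ 2) ^ da3_e (n + 1) i).det =
      (∏ i, (y i)⁻¹) * (Matrix.of fun i k : Fin (n + 1) => (y k ^ 2) ^ da3_e (n + 1) i).det := by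
    have h := Matrix.det_mul_row (fun k => (y k)⁻¹)
      (Matrix.of fun i k : Fin (n + 1) => (y k ^ 2) ^ da3_e (n + 1) i)
    simp only [Matrix.of_apply] at h
    exact h
  have h3 : (Matrix.of fun i k : Fin (n + 1) => (y k ^ 2) ^ da3_e (n + 1) i) =
      ((Matrix.vandermonde fun k => y k ^ 2).transpose).submatrix (finRotate (n + 1)) id := by
    ext i k
    rw [Matrix.submatrix_apply, Matrix.transpose_apply, Matrix.vandermonde_apply, Matrix.of_apply,
      id, coe_finRotate]
    unfold da3_e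
    congr 1
    by_cases h : i = Fin.last n
    · rw [if_pos h, if_pos (by rw [h]; rfl)]
    · rw [if_neg h, if_neg]
      intro h4
      exact h (Fin.ext (by rw [Fin.val_last]; omega))
  rw [h1, h2, h3, Matrix.det_permute, Matrix.det_transpose]
  refine mul_ne_zero ?_ (mul_ne_zero ?_ (mul_ne_zero ?_ ?_))
  · refine Finset.prod_ne_zero_iff.2 fun i _ => ?_
    unfold da3_c
    split_ifs
    · exact Finset.prod_ne_zero_iff.2 fun k _ => hy k
    · refine mul_ne_zero two_ne_zero ?_
      exact_mod_cast Nat.succ_ne_zero (i : ℕ)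
  · exact Finset.prod_ne_zero_iff.2 fun i _ => inv_ne_zero (hy i)
  · rcases Int.units_eq_one_or (Equiv.Perm.sign (finRotate (n + 1))) with h | h
    · rw [h]; simp
    · rw [h]; simp
  · exact Matrix.det_vandermonde_ne_zero_iff.2 hinj

theorem DA3 (l : ℕ) (hl : 4 ≤ l) (a1 : st_DA1 l) : st_DA3 l := by
  intro h0
  let y : Fin l → ℂ := fun k => ((k : ℕ) : ℂ) + 1
  have hy : ∀ k, y k ≠ 0 := fun k => by
    have h1 : ((k : ℕ) : ℂ) + 1 ≠ 0 := by exact_mod_cast Nat.succ_ne_zero (k : ℕ)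
    exact h1
  have hinj : Function.Injective fun k => y k ^ 2 := by
    intro a b h
    have h1 : (((a : ℕ) : ℂ) + 1) ^ 2 = (((b : ℕ) : ℂ) + 1) ^ 2 := h
    have h2 : ((a : ℕ) + 1) ^ 2 = ((b : ℕ) + 1) ^ 2 := by exact_mod_cast h1
    have h3 := Nat.pow_left_injective (n := 2) (by norm_num) h2
    exact Fin.ext (by simpa using h3)
  have h1 : (eval (da3_pt l y)).mapMatrix (Jac (PD l)) =
      (Matrix.of fun i k : Fin l => da3_c l y i * ((y k)⁻¹ * (y k ^ 2) ^ da3_e l i)) *
        Matrix.of fun k c : Fin l => mD l k c := by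
    ext i c
    rw [Matrix.mul_apply]
    exact da3_entry l a1 y hy i c
  have h2 : ((eval (da3_pt l y)).mapMatrix (Jac (PD l))).det = 0 := by
    rw [← RingHom.map_det, h0, map_zero]
  rw [h1, Matrix.det_mul] at h2
  have h3 : (Matrix.of fun k c : Fin l => mD l k c).det ≠ 0 := by
    intro h4
    have h5 : (Matrix.of fun k c : Fin l => mD l k c) * (Matrix.of fun i k : Fin l => nD l i k) =
        1 := by
      ext k k'
      rw [Matrix.mul_apply, Matrix.one_apply]
      exact a1.mn k k'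
    have h6 := congrArg Matrix.det h5
    rw [Matrix.det_mul, h4, zero_mul, Matrix.det_one] at h6
    exact zero_ne_one h6
  rcases mul_eq_zero.1 h2 with h4 | h4
  · exact da3_det l (by omega) y hy hinj h4
  · exact h3 h4

end

end WPE
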