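import Pool.Agent.WPE.DSD
import Pool.Agent.WPQ.HAM

/-! [DA4] at least l(l-1) positive roots

`da4_m a b`, `da4_p a b` are the root coordinates of `e_a - e_b`, `e_a + e_b` (`a < b`); the map from the
pairs `(a, b)`, `a ≠ b`, to the positive roots is injective. -/

namespace WPE

open WPQ MvPolynomial

noncomputable section

/-- the root coordinates of `e_a - e_b` -/
private def da4_m (l : ℕ) (a b : Fin l) (i : Fin l) : ℤ := if a ≤ i ∧ i < b then 1 else 0

/-- the root coordinates of `e_a + e_b` -/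
private def da4_p (l : ℕ) (a b : Fin l) (i : Fin l) : ℤ :=
  if (i : ℕ) + 1 = l then 1 else if (i : ℕ) + 2 = l then (if (b : ℕ) + 1 = l then 0 else 1)
  else (if a ≤ i then 1 else 0) + (if b ≤ i then 1 else 0)

private theorem da4_m_eq (l : ℕ) (a b i : Fin l) (h : a < b) :
    ((da4_m l a b i : ℤ) : ℂ) = mD l a i - mD l b i := by
  have hb := b.2
  have hi := i.2
  rw [Fin.lt_def] at h
  unfold da4_m mD
  simp only [Fin.le_def, Fin.lt_def]
  split_ifs <;> first | omega | norm_num

private theorem da4_p_eq (l : ℕ) (a b i : Fin l) (h : a < b) :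
    ((da4_p l a b i : ℤ) : ℂ) = mD l a i + mD l b i := by
  have hb := b.2
  have hi := i.2
  rw [Fin.lt_def] at h
  unfold da4_p mD
  simp only [Fin.le_def]
  split_ifs <;> first | omega | norm_num

/-- the root coordinates of the pair -/
private def da4_f (l : ℕ) (x : Fin l × Fin l) : Fin l → ℤ :=
  if x.1 < x.2 then da4_m l x.1 x.2 else da4_p l x.2 x.1

/-- its orthonormal coordinates -/
private def da4_v (l : ℕ) (x : Fin l × Fin l) (k : Fin l) : ℂ :=
  if x.1 < x.2 then (if k = x.1 then 1 else 0) - (if k = x.2 then 1 else 0)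
  else (if k = x.2 then 1 else 0) + (if k = x.1 then 1 else 0)

private theorem da4_fv (l : ℕ) (a1 : st_DA1 l) (x : Fin l × Fin l) (hx : x.1 ≠ x.2) (k : Fin l) :
    ∑ i, ((da4_f l x i : ℤ) : ℂ) * nD l i k = da4_v l x k := by
  have mn : ∀ a : Fin l, ∑ i, mD l a i * nD l i k = if k = a then 1 else 0 := by
    intro a
    rw [a1.mn]
    by_cases h : a = k
    · rw [if_pos h, if_pos h.symm]
    · rw [if_neg h, if_neg (fun h' => h h'.symm)]
  unfold da4_f da4_v
  by_cases h : x.1 < x.2
  · rw [if_pos h, if_pos h]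
    rw [← mn x.1, ← mn x.2, ← Finset.sum_sub_distrib]
    exact Finset.sum_congr rfl fun i _ => by rw [da4_m_eq l _ _ i h]; ring
  · have h' : x.2 < x.1 := lt_of_le_of_ne (not_lt.1 h) hx.symm
    rw [if_neg h, if_neg h]
    rw [← mn x.1, ← mn x.2, ← Finset.sum_add_distrib]
    exact Finset.sum_congr rfl fun i _ => by rw [da4_p_eq l _ _ i h']; ring

/-- the norm -/
private theorem da4_norm (l : ℕ) (a1 : st_DA1 l) (x : Fin l × Fin l) (hx : x.1 ≠ x.2) :
    bl (CartanMatrix.D l) (da4_f l x) (da4_f l x) = 2 := by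
  have h1 : ((bl (CartanMatrix.D l) (da4_f l x) (da4_f l x) : ℤ) : ℂ) =
      ∑ k, (∑ i, ((da4_f l x i : ℤ) : ℂ) * nD l i k) ^ 2 := by
    unfold bl
    push_cast
    have e1 : ∀ i j : Fin l, ((da4_f l x i : ℤ) : ℂ) * ((CartanMatrix.D l i j : ℤ) : ℂ) *
        ((da4_f l x j : ℤ) : ℂ) = ∑ k, (((da4_f l x i : ℤ) : ℂ) * nD l i k) *
          (((da4_f l x j : ℤ) : ℂ) * nD l j k) := by
      intro i j
      rw [a1.gram, Finset.mul_sum, Finset.sum_mul]
      exact Finset.sum_congr rfl fun k _ => by ring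
    simp only [e1]
    rw [Finset.sum_congr rfl fun i _ => Finset.sum_comm, Finset.sum_comm]
    refine Finset.sum_congr rfl fun k _ => ?_
    rw [sq, Finset.sum_mul_sum]
  have h2 : ∑ k, (∑ i, ((da4_f l x i : ℤ) : ℂ) * nD l i k) ^ 2 = (2 : ℂ) := by
    have e2 : ∀ k : Fin l, (∑ i, ((da4_f l x i : ℤ) : ℂ) * nD l i k) ^ 2 =
        (if k = x.1 then 1 else 0) + (if k = x.2 then 1 else 0) := by
      intro k
      rw [da4_fv l a1 x hx]
      unfold da4_v
      by_cases h1 : k = x.1
      · have h2 : k ≠ x.2 := fun h => hx (h1.symm.trans h)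
        simp only [if_pos h1, if_neg h2]
        split_ifs <;> norm_num
      · by_cases h2 : k = x.2
        · simp only [if_neg h1, if_pos h2]
          split_ifs <;> norm_num
        · simp only [if_neg h1, if_neg h2]
          split_ifs <;> norm_num
    rw [Finset.sum_congr rfl fun k _ => e2 k, Finset.sum_add_distrib, Finset.sum_ite_eq',
      Finset.sum_ite_eq', if_pos (Finset.mem_univ _), if_pos (Finset.mem_univ _)]
    norm_num
  rw [h2] at h1
  exact_mod_cast h1

/-- the coordinates are `≥ 0` -/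
private theorem da4_nonneg (l : ℕ) (x : Fin l × Fin l) (i : Fin l) : 0 ≤ da4_f l x i := by
  unfold da4_f
  split_ifs
  · unfold da4_m
    split_ifs <;> norm_num
  · unfold da4_p
    split_ifs <;> norm_num

/-- injectivity -/
private theorem da4_inj (l : ℕ) (x y : Fin l × Fin l) (hx : x.1 ≠ x.2) (hy : y.1 ≠ y.2)
    (h : ∀ k, da4_v l x k = da4_v l y k) : x = y := by
  have hx1 := h x.1
  have hx2 := h x.2
  have hy1 := h y.1
  have hy2 := h y.2
  unfold da4_v at hx1 hx2 hy1 hy2
  by_cases c1 : x.1 < x.2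
  · by_cases c2 : y.1 < y.2
    · simp only [if_pos c1, if_pos c2, if_neg hx, if_neg hx.symm] at hx1 hx2
      have e1 : x.1 = y.1 := by
        by_contra hne
        rw [if_neg hne] at hx1
        split_ifs at hx1 <;> norm_num at hx1
      have e2 : x.2 = y.2 := by
        by_contra hne
        rw [if_neg hne] at hx2
        split_ifs at hx2 <;> norm_num at hx2
      exact Prod.ext e1 e2
    · simp only [if_pos c1, if_neg c2, if_neg hx.symm] at hx2
      split_ifs at hx2 <;> norm_num at hx2
  · by_cases c2 : y.1 < y.2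
    · simp only [if_neg c1, if_pos c2, if_neg hy.symm] at hy2
      split_ifs at hy2 <;> norm_num at hy2
    · simp only [if_neg c1, if_neg c2, if_neg hx, if_neg hx.symm] at hx1 hx2
      have e1 : x.1 = y.1 ∨ x.1 = y.2 := by
        by_contra hne
        rw [not_or] at hne
        rw [if_neg hne.1, if_neg hne.2] at hx1
        norm_num at hx1
      have e2 : x.2 = y.1 ∨ x.2 = y.2 := by
        by_contra hne
        rw [not_or] at hne
        rw [if_neg hne.1, if_neg hne.2] at hx2
        norm_num at hx2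
      rw [Fin.lt_def] at c1 c2
      have hx' : (x.1 : ℕ) ≠ x.2 := fun h => hx (Fin.ext h)
      have hy' : (y.1 : ℕ) ≠ y.2 := fun h => hy (Fin.ext h)
      rcases e1 with e1 | e1
      · rcases e2 with e2 | e2
        · exact absurd (e1.trans e2.symm) hx
        · exact Prod.ext e1 e2
      · rcases e2 with e2 | e2
        · have := congrArg Fin.val e1
          have := congrArg Fin.val e2
          omega
        · exact absurd (e1.trans e2.symm) hx

theorem DA4 (l : ℕ) (hl : 4 ≤ l) (hA : IsADE (CartanMatrix.D l)) (a1 : st_DA1 l) : st_DA4 l := by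
  unfold st_DA4
  have h1 : (Finset.univ : Finset (Fin l)).offDiag.card = l * (l - 1) := by
    rw [Finset.offDiag_card, Finset.card_univ, Fintype.card_fin, Nat.mul_sub_one]
  rw [← h1]
  refine Finset.card_le_card_of_injOn (da4_f l) ?_ ?_
  · intro x hx
    have hx' := (Finset.mem_offDiag.1 (Finset.mem_coe.1 hx)).2.2
    exact Finset.mem_coe.2 (((HA8 (Fin l)).mem _ hA _).2
      ⟨da4_nonneg l x, da4_norm l a1 x hx'⟩)
  · intro x hx y hy h
    have hx' := (Finset.mem_offDiag.1 (Finset.mem_coe.1 hx)).2.2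
    have hy' := (Finset.mem_offDiag.1 (Finset.mem_coe.1 hy)).2.2
    refine da4_inj l x y hx' hy' fun k => ?_
    rw [← da4_fv l a1 x hx', ← da4_fv l a1 y hy', h]

end

end WPE
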