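import Pool.Agent.WPE.DSD
import Pool.Agent.WPQ.HAM

/-! [DA5] Jacobians of invariants are divisible by the product of the positive roots -/

namespace WPE

open WPQ MvPolynomial

noncomputable section

/-- the determinant of the simple reflection is `-1` -/
private theorem da5_det {ι : Type} [Fintype ι] [DecidableEq ι] (A : Matrix ι ι ℤ) (hA : IsADE A)
    (j : ι) :
    (Jac (fun i : ι => (X i - C (A i j : ℂ) * X j : MvPolynomial ι ℂ))).det = -1 := by
  have h1 : Jac (fun i : ι => (X i - C (A i j : ℂ) * X j : MvPolynomial ι ℂ)) =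
      (1 : Matrix ι ι (MvPolynomial ι ℂ)).updateCol j
        (fun i => (1 : Matrix ι ι (MvPolynomial ι ℂ)) i j - C (A i j : ℂ)) := by
    refine Matrix.ext fun i k => ?_
    rw [Jac, Matrix.of_apply, Matrix.updateCol_apply]
    rw [map_sub, Derivation.leibniz, pderiv_C, pderiv_X, pderiv_X]
    by_cases h : k = j
    · subst h
      rw [if_pos rfl]
      by_cases h2 : i = k
      · subst h2
        simp
      · simp [h2]
    · rw [if_neg h]
      by_cases h2 : i = k
      · subst h2
        simp [h]
      · simp [h, h2]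
  have h2 : (C (((2 : ℤ) : ℂ)) : MvPolynomial ι ℂ) = 2 := by
    rw [show ((2 : ℤ) : ℂ) = 2 by norm_num]
    exact map_ofNat C 2
  rw [h1, ← Matrix.cramer_apply, Matrix.cramer_one, Module.End.one_apply, Matrix.one_apply_eq,
    hA.diag j, h2]
  ring

/-- the chain rule for a substitution of determinant `-1` which fixes the `P i` -/
private theorem da5_skew {ι : Type} [Fintype ι] [DecidableEq ι] (S P : ι → MvPolynomial ι ℂ)
    (hP : ∀ i, aeval S (P i) = P i) (hS : (Jac S).det = -1) :
    aeval S (Jac P).det = - (Jac P).det := by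
  have h1 : (fun i => aeval S (P i)) = P := funext hP
  have h2 := (HA5 ι).jac S P
  rw [h1] at h2
  have h3 : (Jac P).det = ((Jac P).map (aeval S)).det * (Jac S).det := by
    conv_lhs => rw [h2]
    exact Matrix.det_mul _ _
  have h4 : aeval S (Jac P).det = ((Jac P).map (aeval S)).det := by
    rw [AlgHom.map_det]
    rfl
  rw [hS] at h3
  rw [h4, h3]
  ring

theorem DA5 (ι : Type) [Fintype ι] [DecidableEq ι] : st_DA5 ι := by
  intro A hA P hP
  have hskew : ∀ j, rfS A j (Jac P).det = - (Jac P).det := fun j =>
    da5_skew _ P (fun i => hP i j) (da5_det A hA j)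
  exact (HA10 ι).dvdS A hA _ hskew fun j => (HA6 ι).skew A hA j _ (hskew j)

end

end WPE
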