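import Pool.Agent.WPE.DSD
import Pool.Agent.WPQ.HAM

/-! [DA6] PD l are basic invariants -/

namespace WPE

open WPQ MvPolynomial

noncomputable section

/-- The degrees of the invariants of `D_l` minus `1` sum to `l (l - 1)`. -/
theorem da6_sum (l : ℕ) (hl : 1 ≤ l) : ∑ i, (dD l i - 1) = l * (l - 1) := by
  obtain ⟨n, rfl⟩ : ∃ n, l = n + 1 := ⟨l - 1, by omega⟩
  rw [Fin.sum_univ_castSucc]
  have h1 : ∀ i : Fin n, dD (n + 1) i.castSucc - 1 = 2 * (i : ℕ) + 1 := by
    intro i
    have hi := i.2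
    unfold dD
    rw [if_neg (by simp only [Fin.val_castSucc]; omega)]
    simp only [Fin.val_castSucc]
    omega
  have h2 : dD (n + 1) (Fin.last n) - 1 = n := by
    unfold dD
    rw [if_pos (by simp)]
    omega
  rw [Finset.sum_congr rfl fun i _ => h1 i, h2, Fin.sum_univ_eq_sum_range (fun i => 2 * i + 1) n]
  have h3 : ∀ n : ℕ, ∑ i ∈ Finset.range n, (2 * i + 1) = n * n := by
    intro n
    induction n with
    | zero => simp
    | succ n ih => rw [Finset.sum_range_succ, ih]; ring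
  rw [h3]
  show n * n + n = (n + 1) * n
  ring

/-- The determinant of the Jacobian of homogeneous polynomials is homogeneous. -/
theorem da6_homog {ι : Type} [Fintype ι] [DecidableEq ι] (P : ι → MvPolynomial ι ℂ) (d : ι → ℕ)
    (hom : ∀ i, (P i).IsHomogeneous (d i)) :
    (Jac P).det.IsHomogeneous (∑ i, (d i - 1)) := by
  rw [Matrix.det_apply]
  refine IsHomogeneous.sum _ _ _ fun σ _ => ?_
  have h1 : (∏ i, Jac P (σ i) i).IsHomogeneous (∑ i, (d (σ i) - 1)) := by
    refine IsHomogeneous.prod _ _ _ fun i _ => ?_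
    exact (hom (σ i)).pderiv
  rw [Equiv.sum_comp σ (fun i => d i - 1)] at h1
  rcases Int.units_eq_one_or (Equiv.Perm.sign σ) with h | h
  · rw [h, one_smul]
    exact h1
  · rw [h, Units.neg_smul, one_smul]
    exact Submodule.neg_mem (homogeneousSubmodule ι ℂ _) h1

/-- The product of the positive roots is homogeneous. -/
theorem da6_PiA {ι : Type} [Fintype ι] [DecidableEq ι] (A : Matrix ι ι ℤ) :
    (PiA A).IsHomogeneous (posRoots A).card := by
  unfold PiA
  have h : ∀ c ∈ posRoots A, (lf c).IsHomogeneous 1 := by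
    intro c _
    unfold lf
    refine IsHomogeneous.sum _ _ _ fun i _ => ?_
    have := (isHomogeneous_C ι (c i : ℂ)).mul (isHomogeneous_X ℂ i)
    rwa [zero_add] at this
  have h2 := IsHomogeneous.prod (posRoots A) lf (fun _ => 1) h
  rw [Finset.sum_const, smul_eq_mul, mul_one] at h2
  exact h2

theorem DA6 (l : ℕ) (hl : 4 ≤ l) (hA : IsADE (CartanMatrix.D l)) (a2 : st_DA2 l) (a3 : st_DA3 l)
    (a4 : st_DA4 l) (a5 : st_DA5 (Fin l)) : st_DA6 l := by
  obtain ⟨q, hq⟩ := a5 _ hA (PD l) a2.inv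
  have hP0 : PiA (CartanMatrix.D l) ≠ 0 := (HA10 (Fin l)).ne _ hA
  have hq0 : q ≠ 0 := by
    rintro rfl
    rw [mul_zero] at hq
    exact a3 hq
  have h1 : (Jac (PD l)).det.totalDegree = l * (l - 1) := by
    rw [(da6_homog (PD l) (dD l) a2.hom).totalDegree a3, da6_sum l (by omega)]
  have h2 : (PiA (CartanMatrix.D l)).totalDegree = (posRoots (CartanMatrix.D l)).card :=
    (da6_PiA (CartanMatrix.D l)).totalDegree hP0
  have h3 := totalDegree_mul_of_isDomain hP0 hq0
  rw [← hq, h1, h2] at h3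
  have a4' : l * (l - 1) ≤ (posRoots (CartanMatrix.D l)).card := a4
  have h4 : q.totalDegree = 0 := by omega
  have h5 := totalDegree_eq_zero_iff_eq_C.1 h4
  refine ⟨coeff 0 q, ⟨hA, ?_, a2.hom, a2.inv, ?_, ?_⟩⟩
  · intro i
    unfold dD
    split_ifs <;> omega
  · rw [hq, mul_comm, ← h5]
  · intro h
    rw [h, C_0] at h5
    exact hq0 h5

end

end WPE
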