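import Pool.Agent.WPE.DSD
import Pool.Agent.WPQ.HAM

/-! [DA7] even invariants of small degree -/

namespace WPE

open WPQ MvPolynomial

noncomputable section

variable {l : ℕ}

/-- membership in `Ie` -/
private theorem da7_mem {ι : Type} [Fintype ι] [DecidableEq ι] {A : Matrix ι ι ℤ}
    {σ : Equiv.Perm ι} {m : ℕ} {f : MvPolynomial ι ℂ} :
    f ∈ Ie A σ m ↔ f.IsHomogeneous m ∧ (∀ j, rfS A j f = f) ∧ rename σ f = f := by
  rw [Ie, Submodule.mem_inf, Submodule.mem_inf, Submodule.mem_iInf, mem_homogeneousSubmodule,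
    LinearMap.mem_ker, LinearMap.sub_apply, and_assoc]
  refine and_congr Iff.rfl (and_congr (forall_congr' fun j => ?_) ?_)
  · rw [LinearMap.mem_ker, LinearMap.sub_apply, sub_eq_zero]
    rfl
  · rw [sub_eq_zero]
    rfl

/-- products of even invariants -/
private theorem da7_mul {ι : Type} [Fintype ι] [DecidableEq ι] {A : Matrix ι ι ℤ}
    {σ : Equiv.Perm ι} {a b : ℕ} {f g : MvPolynomial ι ℂ} (hf : f ∈ Ie A σ a)
    (hg : g ∈ Ie A σ b) : f * g ∈ Ie A σ (a + b) := by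
  rw [da7_mem] at *
  refine ⟨hf.1.mul hg.1, fun j => ?_, ?_⟩
  · rw [map_mul, hf.2.1 j, hg.2.1 j]
  · rw [map_mul, hf.2.2, hg.2.2]

/-- power sums are even invariants -/
private theorem da7_pw (a2 : st_DA2 l) (n : ℕ) :
    pwS l (2 * n) ∈ Ie (CartanMatrix.D l) (sgD l) (2 * n) :=
  da7_mem.2 ⟨a2.pw_hom _, fun j => a2.pw_inv j n, a2.pw_th n⟩

/-- the square of the Pfaffian -/
private theorem da7_pf2 (a2 : st_DA2 l) :
    pfS l ^ 2 ∈ Ie (CartanMatrix.D l) (sgD l) (2 * l) := by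
  refine da7_mem.2 ⟨?_, fun j => ?_, ?_⟩
  · rw [mul_comm]
    exact a2.pf_hom.pow 2
  · rw [map_pow, a2.pf_inv]
  · rw [map_pow, a2.pf_th, neg_sq]

/-- the generators of the even invariants -/
private def da7_S (l : ℕ) : Set (MvPolynomial (Fin l) ℂ) :=
  {f | (∃ i : ℕ, i + 1 < l ∧ f = pwS l (2 * (i + 1))) ∨ f = pfS l ^ 2}

/-- the monomials in the generators, of degree `e` -/
private structure da7_Good (l : ℕ) (μ : MvPolynomial (Fin l) ℂ) (e : ℕ) : Prop where
  ev : Even e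
  mem : μ ∈ Ie (CartanMatrix.D l) (sgD l) e
  cs : (e = 0 ∧ μ = 1) ∨ (∃ i : ℕ, i + 1 < l ∧ e = 2 * (i + 1) ∧ μ = pwS l e) ∨
    (e = 2 * l ∧ μ = pfS l ^ 2) ∨
    (∃ (a b : ℕ) (g h : MvPolynomial (Fin l) ℂ), 1 ≤ a ∧ 1 ≤ b ∧ a + b = e ∧
      g ∈ Ie (CartanMatrix.D l) (sgD l) a ∧ h ∈ Ie (CartanMatrix.D l) (sgD l) b ∧ μ = g * h)

/-- every product of generators is one of these -/
private theorem da7_closure (hl : 4 ≤ l) (a2 : st_DA2 l) (μ : MvPolynomial (Fin l) ℂ)
    (hμ : μ ∈ Submonoid.closure (da7_S l)) : ∃ e, da7_Good l μ e := by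
  induction hμ using Submonoid.closure_induction with
  | mem f hf =>
    rcases hf with ⟨i, hi, rfl⟩ | rfl
    · exact ⟨2 * (i + 1), even_two_mul _, da7_pw a2 _, Or.inr (Or.inl ⟨i, hi, rfl, rfl⟩)⟩
    · exact ⟨2 * l, even_two_mul _, da7_pf2 a2, Or.inr (Or.inr (Or.inl ⟨rfl, rfl⟩))⟩
  | one =>
    refine ⟨0, Even.zero, da7_mem.2 ⟨isHomogeneous_one _ _, fun j => map_one _, map_one _⟩,
      Or.inl ⟨rfl, rfl⟩⟩
  | mul f g _ _ hf hg =>
    obtain ⟨a, ha⟩ := hf
    obtain ⟨b, hb⟩ := hg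
    have h1 : ∀ {c : ℕ} {u : MvPolynomial (Fin l) ℂ}, da7_Good l u c → (c = 0 ∧ u = 1) ∨ 1 ≤ c := by
      intro c u hu
      rcases hu.cs with h | ⟨i, _, h, _⟩ | ⟨h, _⟩ | ⟨a, b, _, _, h, _, h2, _⟩
      · exact Or.inl h
      · exact Or.inr (by omega)
      · exact Or.inr (by omega)
      · exact Or.inr (by omega)
    rcases h1 ha with ⟨rfl, rfl⟩ | ha1
    · exact ⟨b, by rwa [one_mul]⟩
    rcases h1 hb with ⟨rfl, rfl⟩ | hb1
    · exact ⟨a, by rwa [mul_one]⟩
    exact ⟨a + b, ha.ev.add hb.ev, da7_mul ha.mem hb.mem,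
      Or.inr (Or.inr (Or.inr ⟨a, b, f, g, ha1, hb1, rfl, ha.mem, hb.mem, rfl⟩))⟩

/-- even invariants are polynomials in the power sums and the square of the Pfaffian -/
private theorem da7_adjoin (a2 : st_DA2 l) (a6 : st_DA6 l) {m : ℕ}
    {f : MvPolynomial (Fin l) ℂ} (hf : f ∈ Ie (CartanMatrix.D l) (sgD l) m) :
    f ∈ Algebra.adjoin ℂ (da7_S l) := by
  obtain ⟨c, hc⟩ := a6
  rw [da7_mem] at hf
  have h1 := HA13 (Fin l) _ _ _ _ hc f hf.2.1
  set B := Algebra.adjoin ℂ (da7_S l) with hB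
  have key : ∀ g ∈ Algebra.adjoin ℂ (Set.range (PD l)), ∃ a ∈ B, ∃ b ∈ B, g = a + pfS l * b := by
    intro g hg
    induction hg using Algebra.adjoin_induction with
    | mem g hg =>
      obtain ⟨i, rfl⟩ := hg
      by_cases h : (i : ℕ) + 1 = l
      · refine ⟨0, B.zero_mem, 1, B.one_mem, ?_⟩
        rw [PD, if_pos h, zero_add, mul_one]
      · refine ⟨pwS l (2 * ((i : ℕ) + 1)), Algebra.subset_adjoin (Or.inl ⟨i, by omega, rfl⟩), 0,
          B.zero_mem, ?_⟩
        rw [PD, if_neg h, mul_zero, add_zero]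
    | algebraMap r => exact ⟨_, B.algebraMap_mem r, 0, B.zero_mem, by rw [mul_zero, add_zero]⟩
    | add g h _ _ hg hh =>
      obtain ⟨a, ha, b, hb, rfl⟩ := hg
      obtain ⟨a', ha', b', hb', rfl⟩ := hh
      exact ⟨a + a', B.add_mem ha ha', b + b', B.add_mem hb hb', by ring⟩
    | mul g h _ _ hg hh =>
      obtain ⟨a, ha, b, hb, rfl⟩ := hg
      obtain ⟨a', ha', b', hb', rfl⟩ := hh
      have hq : pfS l ^ 2 ∈ B := Algebra.subset_adjoin (Or.inr rfl)
      exact ⟨a * a' + pfS l ^ 2 * (b * b'), B.add_mem (B.mul_mem ha ha')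
        (B.mul_mem hq (B.mul_mem hb hb')), a * b' + a' * b, B.add_mem (B.mul_mem ha hb')
        (B.mul_mem ha' hb), by ring⟩
  have hfix : ∀ g ∈ B, rename (sgD l) g = g := by
    intro g hg
    induction hg using Algebra.adjoin_induction with
    | mem g hg =>
      rcases hg with ⟨i, _, rfl⟩ | rfl
      · exact a2.pw_th _
      · rw [map_pow, a2.pf_th, neg_sq]
    | algebraMap r => exact AlgHom.commutes _ _
    | add g h _ _ hg hh => rw [map_add, hg, hh]
    | mul g h _ _ hg hh => rw [map_mul, hg, hh]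
  obtain ⟨a, ha, b, hb, hab⟩ := key f h1
  have h2 : rename (sgD l) f = a - pfS l * b := by
    rw [hab, map_add, map_mul, hfix a ha, hfix b hb, a2.pf_th]
    ring
  have h3 : pfS l * b = 0 := by
    rw [hf.2.2, hab] at h2
    have h4 : (2 : MvPolynomial (Fin l) ℂ) * (pfS l * b) = 0 := by linear_combination h2
    rcases mul_eq_zero.1 h4 with h5 | h5
    · exact absurd h5 two_ne_zero
    · exact h5
  rw [hab, h3, add_zero]
  exact ha

/-- even invariants are combinations of monomials -/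
private theorem da7_span (hl : 4 ≤ l) (a2 : st_DA2 l) (a6 : st_DA6 l) {m : ℕ}
    {f : MvPolynomial (Fin l) ℂ} (hf : f ∈ Ie (CartanMatrix.D l) (sgD l) m) :
    f ∈ Submodule.span ℂ {μ | da7_Good l μ m} := by
  have h1 := da7_adjoin a2 a6 hf
  have h2 : f ∈ Submodule.span ℂ (Submonoid.closure (da7_S l) : Set (MvPolynomial (Fin l) ℂ)) := by
    have h3 : f ∈ Subalgebra.toSubmodule (Algebra.adjoin ℂ (da7_S l)) := h1
    rwa [Algebra.adjoin_eq_span] at h3
  have h3 : Submodule.span ℂ (Submonoid.closure (da7_S l) : Set (MvPolynomial (Fin l) ℂ)) ≤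
      (Submodule.span ℂ {μ | da7_Good l μ m}).comap (homogeneousComponent m) := by
    refine Submodule.span_le.2 ?_
    intro μ hμ
    change homogeneousComponent m μ ∈ Submodule.span ℂ {μ | da7_Good l μ m}
    obtain ⟨e, he⟩ := da7_closure hl a2 μ hμ
    have he1 : μ ∈ homogeneousSubmodule (Fin l) ℂ e := (da7_mem.1 he.mem).1
    rw [homogeneousComponent_of_mem he1]
    split_ifs with h
    · subst h
      exact Submodule.subset_span he
    · exact Submodule.zero_mem _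
  have h4 : homogeneousComponent m f ∈ Submodule.span ℂ {μ | da7_Good l μ m} := h3 h2
  have h5 : f ∈ homogeneousSubmodule (Fin l) ℂ m := (da7_mem.1 hf).1
  rwa [homogeneousComponent_of_mem h5, if_pos rfl] at h4

/-- the evaluation at a point in orthonormal coordinates -/
private def da7_ev (l : ℕ) (x : Fin l → ℂ) : MvPolynomial (Fin l) ℂ →ₐ[ℂ] ℂ :=
  aeval fun i => ∑ k, nD l i k * x k

private theorem da7_ev_e (a1 : st_DA1 l) (x : Fin l → ℂ) (k : Fin l) :
    da7_ev l x (eD l k) = x k := by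
  rw [eD, map_sum]
  have h : ∀ i, da7_ev l x (C (mD l k i) * X i) = ∑ k', (mD l k i * nD l i k') * x k' := by
    intro i
    rw [map_mul, da7_ev, aeval_C, aeval_X, Finset.mul_sum]
    refine Finset.sum_congr rfl fun k' _ => ?_
    change mD l k i * (nD l i k' * x k') = _
    ring
  rw [Finset.sum_congr rfl fun i _ => h i, Finset.sum_comm]
  have h2 : ∀ k', ∑ i, (mD l k i * nD l i k') * x k' = if k = k' then x k' else 0 := by
    intro k'
    rw [← Finset.sum_mul, a1.mn]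
    split_ifs
    · rw [one_mul]
    · rw [zero_mul]
  rw [Finset.sum_congr rfl fun k' _ => h2 k', Finset.sum_ite_eq, if_pos (Finset.mem_univ _)]

private theorem da7_ev_pw (a1 : st_DA1 l) (x : Fin l → ℂ) (n : ℕ) :
    da7_ev l x (pwS l n) = ∑ k, x k ^ n := by
  rw [pwS, map_sum]
  refine Finset.sum_congr rfl fun k _ => ?_
  rw [map_pow, da7_ev_e a1]

/-- the special points -/
private theorem da7_pt (n : ℕ) (hn : 1 ≤ n) (hl : n ≤ l) : ∃ x : Fin l → ℂ,
    (∀ i : ℕ, 1 ≤ i → i < n → ∑ k, x k ^ (2 * i) = 0) ∧ ∑ k, x k ^ (2 * n) = n := by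
  have hη := Complex.isPrimitiveRoot_exp (2 * n) (by omega)
  set η := Complex.exp (2 * Real.pi * Complex.I / (2 * n : ℕ)) with hdef
  have hζ : IsPrimitiveRoot (η ^ 2) n := hη.pow (by omega) rfl
  have hsum : ∀ i : ℕ, 1 ≤ i → ∑ k : Fin l, (if (k : ℕ) < n then η ^ (k : ℕ) else 0) ^ (2 * i) =
      ∑ k ∈ Finset.range n, ((η ^ 2) ^ i) ^ k := by
    intro i hi
    rw [Fin.sum_univ_eq_sum_range (fun k => (if k < n then η ^ k else 0) ^ (2 * i)) l]
    symm
    rw [← Finset.sum_subset (Finset.range_mono hl)]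
    · refine Finset.sum_congr rfl fun k hk => ?_
      rw [if_pos (Finset.mem_range.1 hk), ← pow_mul, ← pow_mul, ← pow_mul]
      congr 1
      ring
    · intro k _ hk
      rw [Finset.mem_range, not_lt] at hk
      rw [if_neg (by omega), zero_pow (by omega)]
  refine ⟨fun k => if (k : ℕ) < n then η ^ (k : ℕ) else 0, fun i hi hin => ?_, ?_⟩
  · rw [hsum i hi]
    have h1 := geom_sum_mul ((η ^ 2) ^ i) n
    have h0 : ((η ^ 2) ^ i) ^ n = 1 := by
      rw [← pow_mul (η ^ 2) i n, mul_comm i n, pow_mul (η ^ 2) n i, hζ.pow_eq_one, one_pow]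
    rw [h0, sub_self] at h1
    rcases mul_eq_zero.1 h1 with h2 | h2
    · exact h2
    · exfalso
      exact hζ.pow_ne_one_of_pos_of_lt (by omega) hin (sub_eq_zero.1 h2)
  · rw [hsum n hn, hζ.pow_eq_one]
    simp

/-- even invariants of small degree vanish at the special points -/
private theorem da7_van (hl : 4 ≤ l) (a1 : st_DA1 l) (a2 : st_DA2 l) (a6 : st_DA6 l) {n : ℕ}
    (hn : n ≤ l) (x : Fin l → ℂ) (hx : ∀ i : ℕ, 1 ≤ i → i < n → ∑ k, x k ^ (2 * i) = 0) :
    ∀ a : ℕ, 0 < a → a < 2 * n → ∀ f ∈ Ie (CartanMatrix.D l) (sgD l) a, da7_ev l x f = 0 := by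
  intro a
  induction a using Nat.strong_induction_on with
  | _ a ih =>
    intro ha han f hf
    have h1 := da7_span hl a2 a6 hf
    have h2 : Submodule.span ℂ {μ | da7_Good l μ a} ≤ LinearMap.ker (da7_ev l x).toLinearMap := by
      refine Submodule.span_le.2 ?_
      rintro μ hμ
      change da7_ev l x μ = 0
      rcases hμ.cs with ⟨h, _⟩ | ⟨i, hi, he, rfl⟩ | ⟨h, _⟩ | ⟨b, c, g, h, hb, hc, hbc, hg, hh, rfl⟩
      · omega
      · rw [da7_ev_pw a1, he]
        exact hx (i + 1) (by omega) (by omega)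
      · omega
      · rw [map_mul, ih b (by omega) (by omega) (by omega) g hg, zero_mul]
    exact h2 h1

/-- `Dp m ≤ Ie m` -/
private theorem da7_dle {ι : Type} [Fintype ι] [DecidableEq ι] {A : Matrix ι ι ℤ}
    {σ : Equiv.Perm ι} (m : ℕ) : Dp A σ m ≤ Ie A σ m := by
  refine Submodule.span_le.2 ?_
  rintro f ⟨a, b, g, h, _, _, hab, hg, hh, rfl⟩
  rw [← hab]
  exact da7_mul hg hh

/-- there is a point where the decomposable invariants of degree `m` vanish, and the power sum does not -/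
private theorem da7_phi (hl : 4 ≤ l) (a1 : st_DA1 l) (a2 : st_DA2 l) (a6 : st_DA6 l) {n : ℕ}
    (hn : 1 ≤ n) (hnl : n ≤ l) : ∃ φ : MvPolynomial (Fin l) ℂ →ₐ[ℂ] ℂ,
      (∀ f ∈ Dp (CartanMatrix.D l) (sgD l) (2 * n), φ f = 0) ∧ φ (pwS l (2 * n)) ≠ 0 := by
  obtain ⟨x, hx, hx'⟩ := da7_pt n hn hnl
  refine ⟨da7_ev l x, ?_, ?_⟩
  · intro f hf
    have h2 : Dp (CartanMatrix.D l) (sgD l) (2 * n) ≤ LinearMap.ker (da7_ev l x).toLinearMap := by
      refine Submodule.span_le.2 ?_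
      rintro f ⟨a, b, g, h, ha, hb, hab, hg, hh, rfl⟩
      change da7_ev l x (g * h) = 0
      rw [map_mul, da7_van hl a1 a2 a6 hnl x hx a (by omega) (by omega) g hg, zero_mul]
    exact h2 hf
  · rw [da7_ev_pw a1, hx']
    exact Nat.cast_ne_zero.2 (by omega)

/-- even invariants of even degree, with the square of the Pfaffian -/
private theorem da7_even0 (hl : 4 ≤ l) (a2 : st_DA2 l) (a6 : st_DA6 l) {m : ℕ}
    (h0 : 2 ≤ m) (f : MvPolynomial (Fin l) ℂ) (hf : f ∈ Ie (CartanMatrix.D l) (sgD l) m) :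
    (m < 2 * l → f ∈ Dp (CartanMatrix.D l) (sgD l) m ⊔ Submodule.span ℂ {pwS l m}) ∧
    (m = 2 * l → f ∈ Dp (CartanMatrix.D l) (sgD l) m ⊔ Submodule.span ℂ {pfS l ^ 2}) := by
  have h1 := da7_span hl a2 a6 hf
  constructor
  · intro hm
    refine (Submodule.span_le.2 ?_ : Submodule.span ℂ {μ | da7_Good l μ m} ≤ _) h1
    intro μ hμ
    rcases hμ.cs with ⟨h, _⟩ | ⟨i, hi, he, rfl⟩ | ⟨h, _⟩ | ⟨b, c, g, h, hb, hc, hbc, hg, hh, rfl⟩
    · omega
    · exact Submodule.mem_sup_right (Submodule.mem_span_singleton_self _)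
    · omega
    · exact Submodule.mem_sup_left (Submodule.subset_span ⟨b, c, g, h, hb, hc, hbc, hg, hh, rfl⟩)
  · intro hm
    refine (Submodule.span_le.2 ?_ : Submodule.span ℂ {μ | da7_Good l μ m} ≤ _) h1
    intro μ hμ
    rcases hμ.cs with ⟨h, _⟩ | ⟨i, hi, he, rfl⟩ | ⟨h, rfl⟩ | ⟨b, c, g, h, hb, hc, hbc, hg, hh, rfl⟩
    · omega
    · omega
    · exact Submodule.mem_sup_right (Submodule.mem_span_singleton_self _)
    · exact Submodule.mem_sup_left (Submodule.subset_span ⟨b, c, g, h, hb, hc, hbc, hg, hh, rfl⟩)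

theorem DA7 (l : ℕ) (hl : 4 ≤ l) (a1 : st_DA1 l) (a2 : st_DA2 l) (a6 : st_DA6 l) : st_DA7 l where
  odd m hm := by
    rw [eq_bot_iff]
    intro f hf
    have h1 := da7_span hl a2 a6 hf
    have h2 : {μ : MvPolynomial (Fin l) ℂ | da7_Good l μ m} = ∅ := by
      ext μ
      exact ⟨fun h => (Nat.not_even_iff_odd.2 hm) h.ev, fun h => absurd h (Set.notMem_empty μ)⟩
    rwa [h2, Submodule.span_empty] at h1
  pw := da7_pw a2
  pf2 := da7_pf2 a2
  even m he h2 hml := by
    intro f hf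
    have h1 := da7_even0 hl a2 a6 h2 f hf
    rcases Nat.lt_or_eq_of_le hml with h | h
    · exact h1.1 h
    · have h3 := h1.2 h
      subst h
      obtain ⟨φ, hφ, hφ'⟩ := da7_phi hl a1 a2 a6 (n := l) (by omega) le_rfl
      have h4 := (da7_even0 hl a2 a6 h2 _ (da7_pw a2 l)).2 rfl
      obtain ⟨u, hu, v, hv, huv⟩ := Submodule.mem_sup.1 h4
      obtain ⟨c, rfl⟩ := Submodule.mem_span_singleton.1 hv
      have hc : c ≠ 0 := by
        rintro rfl
        rw [zero_smul, add_zero] at huv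
        exact hφ' (huv ▸ hφ u hu)
      have h5 : pfS l ^ 2 ∈ Dp (CartanMatrix.D l) (sgD l) (2 * l) ⊔
          Submodule.span ℂ {pwS l (2 * l)} := by
        have h6 : pfS l ^ 2 = c⁻¹ • (pwS l (2 * l) - u) := by
          rw [← huv, add_sub_cancel_left, smul_smul, inv_mul_cancel₀ hc, one_smul]
        rw [h6]
        exact Submodule.smul_mem _ _ (Submodule.sub_mem _
          (Submodule.mem_sup_right (Submodule.mem_span_singleton_self _))
          (Submodule.mem_sup_left hu))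
      refine (sup_le le_sup_left ?_ :
        Dp (CartanMatrix.D l) (sgD l) (2 * l) ⊔ Submodule.span ℂ {pfS l ^ 2} ≤ _) h3
      rw [Submodule.span_singleton_le_iff_mem]
      exact h5
  ne m he h2 hml := by
    obtain ⟨n, rfl⟩ := he
    rw [← two_mul] at *
    obtain ⟨φ, hφ, hφ'⟩ := da7_phi hl a1 a2 a6 (n := n) (by omega) (by omega)
    exact fun h => hφ' (hφ _ h)
  dle := da7_dle

end

end WPE
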