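import Pool.Agent.WPE.DSD

/-! [DA8] gradients of power sums -/

namespace WPE

open WPQ MvPolynomial

noncomputable section

/-- the form on the basis -/
theorem da8_form {ι : Type} [Fintype ι] [DecidableEq ι] (A : Matrix ι ι ℤ) (p : ℕ) (i j : ι) :
    form A p (bb i) (bb j) = p * ((A i j : ℤ) : ℂ) := by
  unfold form bb
  rw [Finset.sum_eq_single i, Finset.sum_eq_single j, Pi.single_eq_same, Pi.single_eq_same]
  · ring
  · intro k _ hk
    rw [Pi.single_eq_of_ne hk, mul_zero]
  · intro h; exact absurd (Finset.mem_univ _) h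
  · intro k _ hk
    refine Finset.sum_eq_zero fun x _ => ?_
    rw [Pi.single_eq_of_ne hk, zero_mul, zero_mul]
  · intro h; exact absurd (Finset.mem_univ _) h

/-- derivatives of the coordinates -/
theorem da8_pd (l : ℕ) (i k : Fin l) : pderiv i (eD l k) = C (mD l k i) := by
  unfold eD
  rw [map_sum, Finset.sum_eq_single i]
  · rw [pderiv_C_mul, pderiv_X_self, mul_one]
  · intro j _ hj
    rw [pderiv_C_mul, pderiv_X_of_ne hj, mul_zero]
  · intro h; exact absurd (Finset.mem_univ _) h

theorem da8_pw (l m : ℕ) (i : Fin l) :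
    pderiv i (pwS l m) = ∑ k, C ((m : ℂ) * mD l k i) * eD l k ^ (m - 1) := by
  unfold pwS
  rw [map_sum]
  refine Finset.sum_congr rfl fun k _ => ?_
  rw [Derivation.leibniz_pow, da8_pd, C_mul, map_natCast, nsmul_eq_mul, smul_eq_mul]
  ring

/-- the coefficients `∑ m_ki A_ij` -/
theorem da8_mA (l : ℕ) (a1 : st_DA1 l) (k j : Fin l) :
    ∑ i, mD l k i * ((CartanMatrix.D l i j : ℤ) : ℂ) = nD l j k := by
  have h1 : ∀ i, mD l k i * ((CartanMatrix.D l i j : ℤ) : ℂ) =
      ∑ k', (mD l k i * nD l i k') * nD l j k' := by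
    intro i
    rw [a1.gram, Finset.mul_sum]
    exact Finset.sum_congr rfl fun k' _ => by ring
  rw [Finset.sum_congr rfl fun i _ => h1 i, Finset.sum_comm]
  have h2 : ∀ k', ∑ i, (mD l k i * nD l i k') * nD l j k' = (if k = k' then 1 else 0) * nD l j k' := by
    intro k'
    rw [← Finset.sum_mul, a1.mn]
  rw [Finset.sum_congr rfl fun k' _ => h2 k', Finset.sum_eq_single k]
  · rw [if_pos rfl, one_mul]
  · intro k' _ hk'
    rw [if_neg (Ne.symm hk'), zero_mul]
  · intro h; exact absurd (Finset.mem_univ _) h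

/-- contraction of the gradient of a power sum with the Cartan matrix -/
theorem da8_con (l p m : ℕ) (a1 : st_DA1 l) (j : Fin l) :
    ∑ i, C (form (CartanMatrix.D l) p (bb i) (bb j)) * pderiv i (pwS l m) =
      C ((p : ℂ) * m) * ∑ k, C (nD l j k) * eD l k ^ (m - 1) := by
  have h1 : ∀ i, C (form (CartanMatrix.D l) p (bb i) (bb j)) * pderiv i (pwS l m) =
      ∑ k, C ((p : ℂ) * m * (mD l k i * ((CartanMatrix.D l i j : ℤ) : ℂ))) * eD l k ^ (m - 1) := by
    intro i
    rw [da8_form, da8_pw, Finset.mul_sum]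
    refine Finset.sum_congr rfl fun k _ => ?_
    rw [← mul_assoc, ← C_mul]
    congr 2
    ring
  rw [Finset.sum_congr rfl fun i _ => h1 i, Finset.sum_comm, Finset.mul_sum]
  refine Finset.sum_congr rfl fun k _ => ?_
  rw [← Finset.sum_mul, ← map_sum, ← Finset.mul_sum, da8_mA l a1, C_mul, mul_assoc]

theorem DA8 (l p : ℕ) (hl : 4 ≤ l) (a1 : st_DA1 l) : st_DA8 l p := by
  constructor
  · intro m n hm hn
    have h1 : gr (CartanMatrix.D l) p (pwS l m) (pwS l n) =
        ∑ j, (∑ i, C (form (CartanMatrix.D l) p (bb i) (bb j)) * pderiv i (pwS l m)) *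
          pderiv j (pwS l n) := by
      unfold gr
      rw [Finset.sum_comm]
      exact Finset.sum_congr rfl fun j _ => (Finset.sum_mul _ _ _).symm
    have h2 : ∀ j, (∑ i, C (form (CartanMatrix.D l) p (bb i) (bb j)) * pderiv i (pwS l m)) *
          pderiv j (pwS l n) =
        ∑ k, ∑ k', C ((p : ℂ) * m * n * (mD l k' j * nD l j k)) * (eD l k ^ (m - 1) * eD l k' ^ (n - 1)) := by
      intro j
      rw [da8_con l p m a1, da8_pw, mul_assoc, Finset.sum_mul_sum, Finset.mul_sum]
      refine Finset.sum_congr rfl fun k _ => ?_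
      rw [Finset.mul_sum]
      refine Finset.sum_congr rfl fun k' _ => ?_
      simp only [map_mul]
      ring
    rw [h1, Finset.sum_congr rfl fun j _ => h2 j, Finset.sum_comm]
    have h3 : ∀ k, ∑ j, ∑ k', C ((p : ℂ) * m * n * (mD l k' j * nD l j k)) *
        (eD l k ^ (m - 1) * eD l k' ^ (n - 1)) = C ((p : ℂ) * m * n) * eD l k ^ (m + n - 2) := by
      intro k
      rw [Finset.sum_comm, Finset.sum_eq_single k]
      · rw [← Finset.sum_mul, ← map_sum, ← Finset.mul_sum, a1.mn, if_pos rfl, mul_one, ← pow_add]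
        congr 2
        omega
      · intro k' _ hk'
        rw [← Finset.sum_mul, ← map_sum, ← Finset.mul_sum, a1.mn, if_neg hk', mul_zero, C_0, zero_mul]
      · intro h; exact absurd (Finset.mem_univ _) h
    rw [Finset.sum_congr rfl fun k _ => h3 k, ← Finset.mul_sum]
    rfl
  · intro m g hg
    have h1 : gr (CartanMatrix.D l) p (pwS l 2) g =
        ∑ j, (∑ i, C (form (CartanMatrix.D l) p (bb i) (bb j)) * pderiv i (pwS l 2)) *
          pderiv j g := by
      unfold gr
      rw [Finset.sum_comm]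
      exact Finset.sum_congr rfl fun j _ => (Finset.sum_mul _ _ _).symm
    have h2 : ∀ j, (∑ i, C (form (CartanMatrix.D l) p (bb i) (bb j)) * pderiv i (pwS l 2)) *
          pderiv j g = C (2 * (p : ℂ)) * (X j * pderiv j g) := by
      intro j
      rw [da8_con l p 2 a1]
      have e1 : ∑ k, C (nD l j k) * eD l k ^ (2 - 1) = (X j : MvPolynomial (Fin l) ℂ) := by
        rw [a1.x j]
        refine Finset.sum_congr rfl fun k _ => ?_
        norm_num
      rw [e1]
      have e2 : (2 * (p : ℂ)) = (p : ℂ) * (2 : ℕ) := by push_cast; ring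
      rw [e2, mul_assoc]
    rw [h1, Finset.sum_congr rfl fun j _ => h2 j, ← Finset.mul_sum, hg.sum_X_mul_pderiv, nsmul_eq_mul,
      ← mul_assoc]
    congr 1
    rw [C_mul (a := 2 * (p : ℂ)), map_natCast]

end

end WPE
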