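import Pool.Agent.WPE.DSD

/-! [DC] D_l is ADE; central charge -/

namespace WPE

open WPQ MvPolynomial

noncomputable section

/-- The orthonormal coordinates of the simple roots (integers). -/
def dc_n (l : ℕ) (i k : Fin l) : ℤ :=
  if (i : ℕ) + 1 < l then (if k = i then 1 else if (k : ℕ) = i + 1 then -1 else 0)
  else (if (k : ℕ) + 2 = l ∨ (k : ℕ) + 1 = l then 1 else 0)

/-- The sum over the coordinates. -/
theorem dc_row (l : ℕ) (hl : 4 ≤ l) (i : Fin l) (f : Fin l → ℤ) :
    ∑ k, dc_n l i k * f k =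
      if h : (i : ℕ) + 1 < l then f i - f ⟨i + 1, h⟩ else f ⟨l - 2, by omega⟩ + f i := by
  by_cases h : (i : ℕ) + 1 < l
  · rw [dif_pos h]
    have h1 : ∀ k : Fin l, dc_n l i k * f k =
        (if k = i then f k else 0) - (if k = ⟨i + 1, h⟩ then f k else 0) := by
      intro k
      unfold dc_n
      rw [if_pos h]
      by_cases h2 : k = i
      · rw [if_pos h2, if_pos h2, if_neg (by rw [h2, Fin.ext_iff]; simp)]
        ring
      · by_cases h3 : (k : ℕ) = i + 1
        · rw [if_neg h2, if_neg h2, if_pos h3, if_pos (Fin.ext h3)]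
          ring
        · rw [if_neg h2, if_neg h2, if_neg h3, if_neg (fun h4 => h3 (by rw [h4]))]
          ring
    rw [Finset.sum_congr rfl fun k _ => h1 k, Finset.sum_sub_distrib]
    simp
  · rw [dif_neg h]
    have h1 : ∀ k : Fin l, dc_n l i k * f k =
        (if k = ⟨l - 2, by omega⟩ then f k else 0) + (if k = i then f k else 0) := by
      intro k
      unfold dc_n
      rw [if_neg h]
      have hk := k.2
      have hi := i.2
      by_cases h2 : k = i
      · have h2' : (k : ℕ) = i := by rw [h2]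
        rw [if_pos (Or.inr (by omega)), if_neg (by rw [Fin.ext_iff]; simp; omega), if_pos h2]
        ring
      · have h2' : (k : ℕ) ≠ i := fun h4 => h2 (Fin.ext h4)
        by_cases h3 : (k : ℕ) + 2 = l
        · rw [if_pos (Or.inl h3), if_pos (by rw [Fin.ext_iff]; simp; omega), if_neg h2]
          ring
        · rw [if_neg (by omega), if_neg (by rw [Fin.ext_iff]; simp; omega), if_neg h2]
          ring
    rw [Finset.sum_congr rfl fun k _ => h1 k, Finset.sum_add_distrib]
    simp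

/-- The Gram matrix. -/
theorem dc_gram (l : ℕ) (hl : 4 ≤ l) (i j : Fin l) :
    CartanMatrix.D l i j = ∑ k, dc_n l i k * dc_n l j k := by
  rw [dc_row l hl]
  unfold CartanMatrix.D dc_n
  simp only [Matrix.of_apply, Fin.ext_iff]
  have hi := i.2
  have hj := j.2
  split_ifs <;> omega

/-- The sum over the roots. -/
theorem dc_col (l : ℕ) (hl : 4 ≤ l) (k : Fin l) (c : Fin l → ℤ) :
    ∑ i, c i * dc_n l i k = (if (k : ℕ) + 1 < l then c k else 0) -
      (if h : 1 ≤ (k : ℕ) then c ⟨k - 1, by omega⟩ else 0) +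
      (if (k : ℕ) + 2 = l ∨ (k : ℕ) + 1 = l then c ⟨l - 1, by omega⟩ else 0) := by
  have h1 : ∀ i : Fin l, c i * dc_n l i k =
      (if i = k then (if (k : ℕ) + 1 < l then c k else 0) else 0) -
      (if h : 1 ≤ (k : ℕ) then (if i = ⟨k - 1, by omega⟩ then c ⟨k - 1, by omega⟩ else 0) else 0) +
      (if i = ⟨l - 1, by omega⟩ then
        (if (k : ℕ) + 2 = l ∨ (k : ℕ) + 1 = l then c ⟨l - 1, by omega⟩ else 0) else 0) := by
    intro i
    have hi := i.2
    have hk := k.2
    unfold dc_n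
    by_cases h0 : (i : ℕ) + 1 < l
    · rw [if_pos h0, if_neg (show ¬ i = ⟨l - 1, by omega⟩ by rw [Fin.ext_iff]; simp; omega)]
      by_cases h2 : k = i
      · subst h2
        rw [if_pos rfl, if_pos rfl, if_pos h0]
        by_cases h3 : 1 ≤ (k : ℕ)
        · rw [dif_pos h3, if_neg (by rw [Fin.ext_iff]; simp; omega)]
          ring
        · rw [dif_neg h3]
          ring
      · rw [if_neg h2, if_neg (show ¬ i = k from fun h => h2 h.symm)]
        by_cases h3 : (k : ℕ) = i + 1
        · have h4 : i = ⟨k - 1, by omega⟩ := by rw [Fin.ext_iff]; simp; omega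
          rw [if_pos h3, dif_pos (show 1 ≤ (k : ℕ) by omega), if_pos h4, ← h4]
          ring
        · rw [if_neg h3]
          by_cases h5 : 1 ≤ (k : ℕ)
          · rw [dif_pos h5, if_neg (by rw [Fin.ext_iff]; simp; omega)]
            ring
          · rw [dif_neg h5]
            ring
    · have h4 : i = ⟨l - 1, by omega⟩ := by rw [Fin.ext_iff]; simp; omega
      rw [if_neg h0, if_pos h4, ← h4]
      have h5 : (if i = k then (if (k : ℕ) + 1 < l then c k else 0) else 0) = 0 := by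
        by_cases h6 : i = k
        · rw [if_pos h6, if_neg (by rw [← h6]; exact h0)]
        · rw [if_neg h6]
      have h7 : (if h : 1 ≤ (k : ℕ) then
          (if i = ⟨k - 1, by omega⟩ then c ⟨k - 1, by omega⟩ else 0) else 0) = 0 := by
        by_cases h8 : 1 ≤ (k : ℕ)
        · rw [dif_pos h8, if_neg (by rw [Fin.ext_iff]; simp; omega)]
        · rw [dif_neg h8]
      rw [h5, h7]
      by_cases h9 : (k : ℕ) + 2 = l ∨ (k : ℕ) + 1 = l
      · rw [if_pos h9, if_pos h9]; ring
      · rw [if_neg h9, if_neg h9]; ring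
  rw [Finset.sum_congr rfl fun i _ => h1 i, Finset.sum_add_distrib, Finset.sum_sub_distrib]
  congr 1
  · congr 1
    · simp
    · by_cases h : 1 ≤ (k : ℕ)
      · simp only [dif_pos h]
        simp
      · simp only [dif_neg h]
        simp
  · simp

/-- The quadratic form is a sum of squares. -/
theorem dc_sq (l : ℕ) (hl : 4 ≤ l) (c : Fin l → ℤ) :
    ∑ i, ∑ j, c i * CartanMatrix.D l i j * c j = ∑ k, (∑ i, c i * dc_n l i k) ^ 2 := by
  have h1 : ∀ i j, c i * CartanMatrix.D l i j * c j =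
      ∑ k, (c i * dc_n l i k) * (c j * dc_n l j k) := by
    intro i j
    rw [dc_gram l hl, Finset.mul_sum, Finset.sum_mul]
    exact Finset.sum_congr rfl fun k _ => by ring
  rw [Finset.sum_congr rfl fun i _ => Finset.sum_congr rfl fun j _ => h1 i j]
  rw [Finset.sum_congr rfl fun i _ => Finset.sum_comm, Finset.sum_comm]
  refine Finset.sum_congr rfl fun k _ => ?_
  rw [sq, Finset.sum_mul_sum]

/-- The coordinates determine the vector. -/
theorem dc_inj (l : ℕ) (hl : 4 ≤ l) (c : Fin l → ℤ) (h : ∀ k, ∑ i, c i * dc_n l i k = 0) :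
    c = 0 := by
  have h1 : ∀ n : ℕ, ∀ hn : n + 2 < l, c ⟨n, by omega⟩ = 0 := by
    intro n
    induction n with
    | zero =>
      intro hn
      have h2 := h ⟨0, by omega⟩
      rw [dc_col l hl, if_pos (by simp; omega), dif_neg (by simp),
        if_neg (by simp; omega)] at h2
      linarith
    | succ n ih =>
      intro hn
      have h2 := h ⟨n + 1, by omega⟩
      rw [dc_col l hl, if_pos (by simp; omega), dif_pos (by simp),
        if_neg (by simp; omega)] at h2
      have h3 := ih (by omega)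
      have h4 : (⟨((⟨n + 1, by omega⟩ : Fin l) : ℕ) - 1, by simp; omega⟩ : Fin l) =
          ⟨n, by omega⟩ := by
        rw [Fin.ext_iff]; simp
      rw [h4, h3] at h2
      linarith
  have h2 := h ⟨l - 2, by omega⟩
  have h3 := h ⟨l - 1, by omega⟩
  rw [dc_col l hl, if_pos (by simp; omega), dif_pos (by simp; omega),
    if_pos (by simp; omega)] at h2
  rw [dc_col l hl, if_neg (by simp; omega), dif_pos (by simp; omega),
    if_pos (by simp; omega)] at h3
  have h4 : (⟨((⟨l - 2, by omega⟩ : Fin l) : ℕ) - 1, by simp; omega⟩ : Fin l) =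
      ⟨l - 3, by omega⟩ := by
    rw [Fin.ext_iff]; simp; omega
  have h5 : (⟨((⟨l - 1, by omega⟩ : Fin l) : ℕ) - 1, by simp; omega⟩ : Fin l) =
      ⟨l - 2, by omega⟩ := by
    rw [Fin.ext_iff]; simp; omega
  rw [h4, h1 (l - 3) (by omega)] at h2
  rw [h5] at h3
  funext i
  rcases lt_or_ge ((i : ℕ) + 2) l with h6 | h6
  · exact h1 i h6
  · have hi := i.2
    have h7 : i = ⟨l - 2, by omega⟩ ∨ i = ⟨l - 1, by omega⟩ := by
      rw [Fin.ext_iff, Fin.ext_iff]; simp; omega
    rcases h7 with h7 | h7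
    · rw [h7, Pi.zero_apply]; linarith
    · rw [h7, Pi.zero_apply]; linarith

theorem dc_ade (l : ℕ) (hl : 4 ≤ l) : IsADE (CartanMatrix.D l) := by
  refine ⟨fun i j => ?_, fun i => CartanMatrix.D_diag l i, fun i j hij => ?_, fun c hc => ?_⟩
  · exact (CartanMatrix.D_isSymm l).apply j i
  · unfold CartanMatrix.D
    simp only [Matrix.of_apply]
    rw [if_neg hij]
    split_ifs <;> simp
  · rw [dc_sq l hl]
    refine lt_of_le_of_ne (Finset.sum_nonneg fun k _ => sq_nonneg _) fun h0 => hc ?_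
    apply dc_inj l hl
    intro k
    have h1 := (Finset.sum_eq_zero_iff_of_nonneg (fun k _ => sq_nonneg _)).1 h0.symm k
      (Finset.mem_univ k)
    exact pow_eq_zero_iff (two_ne_zero) |>.1 h1

/-- The vector `4 rho`. -/
def dc_u (l i : ℕ) : ℤ :=
  if i + 2 < l then 2 * ((i : ℤ) + 1) * (2 * l - 2 - i) else (l : ℤ) * (l - 1)

theorem dc_ucol (l : ℕ) (hl : 4 ≤ l) (k : Fin l) :
    ∑ i : Fin l, dc_u l i * dc_n l i k = 4 * ((l : ℤ) - 1 - (k : ℕ)) := by
  rw [dc_col l hl k (fun i => dc_u l i)]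
  have hk := k.2
  unfold dc_u
  simp only
  rcases lt_or_ge ((k : ℕ) + 2) l with h1 | h1
  · rw [if_pos (show (k : ℕ) + 1 < l by omega), if_pos h1,
      if_neg (show ¬ ((k : ℕ) + 2 = l ∨ (k : ℕ) + 1 = l) by omega)]
    by_cases h2 : 1 ≤ (k : ℕ)
    · rw [dif_pos h2, if_pos (show (k : ℕ) - 1 + 2 < l by omega)]
      push_cast [Nat.cast_sub h2]
      ring
    · have h3 : (k : ℕ) = 0 := by omega
      rw [dif_neg h2, h3]
      push_cast
      ring
  · rw [if_pos (show (k : ℕ) + 2 = l ∨ (k : ℕ) + 1 = l by omega),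
      dif_pos (show 1 ≤ (k : ℕ) by omega), if_neg (show ¬ (k : ℕ) + 2 < l by omega),
      if_neg (show ¬ l - 1 + 2 < l by omega)]
    rcases eq_or_lt_of_le h1 with h2 | h2
    · rw [if_pos (show (k : ℕ) + 1 < l by omega), if_pos (show (k : ℕ) - 1 + 2 < l by omega)]
      have h3 : ((k : ℕ) : ℤ) = (l : ℤ) - 2 := by omega
      have h4 : (((k : ℕ) - 1 : ℕ) : ℤ) = (l : ℤ) - 3 := by omega
      rw [h4, h3]
      ring
    · rw [if_neg (show ¬ (k : ℕ) + 1 < l by omega),
        if_neg (show ¬ (k : ℕ) - 1 + 2 < l by omega)]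
      have h3 : ((k : ℕ) : ℤ) = (l : ℤ) - 1 := by omega
      rw [h3]
      ring

theorem dc_Du (l : ℕ) (hl : 4 ≤ l) (j : Fin l) :
    ∑ i, CartanMatrix.D l j i * dc_u l i = 4 := by
  have h1 : ∀ i, CartanMatrix.D l j i * dc_u l i =
      ∑ k, dc_n l j k * (dc_u l i * dc_n l i k) := by
    intro i
    rw [dc_gram l hl, Finset.sum_mul]
    exact Finset.sum_congr rfl fun k _ => by ring
  rw [Finset.sum_congr rfl fun i _ => h1 i, Finset.sum_comm]
  have h2 : ∀ k : Fin l, ∑ i : Fin l, dc_n l j k * (dc_u l i * dc_n l i k) =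
      dc_n l j k * (4 * ((l : ℤ) - 1 - (k : ℕ))) := by
    intro k
    rw [← Finset.mul_sum, dc_ucol l hl]
  rw [Finset.sum_congr rfl fun k _ => h2 k, dc_row l hl]
  have hj := j.2
  split_ifs with h
  · push_cast
    ring
  · have h3 : ((j : ℕ) : ℤ) = (l : ℤ) - 1 := by omega
    have h4 : ((l - 2 : ℕ) : ℤ) = (l : ℤ) - 2 := by omega
    simp only [h3, h4]
    ring

theorem dc_usum (l : ℕ) (hl : 4 ≤ l) :
    3 * ∑ i : Fin l, dc_u l i = 2 * (l : ℤ) * (l - 1) * (2 * l - 1) := by
  rw [Fin.sum_univ_eq_sum_range (fun i => dc_u l i) l]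
  obtain ⟨m, rfl⟩ : ∃ m, l = m + 2 := ⟨l - 2, by omega⟩
  have h1 : ∀ (c : ℤ) (n : ℕ), 3 * ∑ i ∈ Finset.range n, 2 * ((i : ℤ) + 1) * (c - i) =
      3 * c * n * (n + 1) - 2 * (n - 1) * n * (n + 1) := by
    intro c n
    induction n with
    | zero => simp
    | succ n ih =>
      rw [Finset.sum_range_succ, mul_add, ih]
      push_cast
      ring
  have h2 : ∑ i ∈ Finset.range m, dc_u (m + 2) i =
      ∑ i ∈ Finset.range m, 2 * ((i : ℤ) + 1) * ((2 * ((m : ℤ) + 2) - 2) - i) := by
    refine Finset.sum_congr rfl fun i hi => ?_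
    rw [Finset.mem_range] at hi
    unfold dc_u
    rw [if_pos (by omega)]
    push_cast
    ring
  rw [Finset.sum_range_succ, Finset.sum_range_succ, h2, mul_add, mul_add, h1]
  unfold dc_u
  rw [if_neg (by omega), if_neg (by omega)]
  push_cast
  ring

theorem DC (l : ℕ) (hl : 4 ≤ l) : st_DC l := by
  refine ⟨dc_ade l hl, ?_⟩
  intro p hp
  unfold cc
  have h1 : (form (CartanMatrix.D l) p (bg (CartanMatrix.D l) p) (bg (CartanMatrix.D l) p)) =
      ((p : ℂ) - 1) ^ 2 / p * ((∑ i : Fin l, dc_u l i : ℤ) : ℂ) / (4 : ℤ) :=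
    AR.form_bg_bg _ (dc_ade l hl) p hp 4 (fun i => dc_u l i) (by norm_num) (dc_Du l hl)
  rw [h1, Fintype.card_fin]
  have h2 : (3 : ℂ) * ((∑ i : Fin l, dc_u l i : ℤ) : ℂ) = 2 * (l : ℂ) * (l - 1) * (2 * l - 1) := by
    exact_mod_cast congrArg (fun x : ℤ => (x : ℂ)) (dc_usum l hl)
  have h3 : ((∑ i : Fin l, dc_u l i : ℤ) : ℂ) = 2 * (l : ℂ) * (l - 1) * (2 * l - 1) / 3 := by
    rw [← h2]; ring
  rw [h3]
  have hp0 : (p : ℂ) ≠ 0 := by
    have : p ≠ 0 := by omega
    exact_mod_cast this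
  unfold wD wR
  push_cast
  field_simp
  ring

end

end WPE
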