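import Pool.Agent.WPE.DSD
import Pool.Agent.WPQ.HAM

/-! [DS1] the automorphism thF: weights, components, jets -/

set_option linter.unusedSectionVars false

namespace WPE

open WPQ MvPolynomial

noncomputable section

variable {ι : Type} [Fintype ι] [DecidableEq ι] {A : Matrix ι ι ℤ} {p : ℕ}

/-- the value on a generator -/
private theorem ds1_X (σ : Equiv.Perm ι) (x : ι × ℕ) : thF σ (X x) = X (σ x.1, x.2) := by
  unfold thF
  rw [rename_X]

/-- the value on a constant -/
private theorem ds1_C (σ : Equiv.Perm ι) (c : ℂ) : thF σ (C c) = C c := by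
  unfold thF
  rw [rename_C]

/-- weights are preserved -/
private theorem ds1_fh (σ : Equiv.Perm ι) (f : Fock ι) (n : ℕ) (hf : FH f n) : FH (thF σ f) n := by
  intro d hd
  obtain ⟨u, rfl, hu⟩ := coeff_rename_ne_zero _ _ _ hd
  rw [← hf hu, Finsupp.weight_apply, Finsupp.weight_apply,
    Finsupp.sum_mapDomain_index (h := fun (i : ι × ℕ) (c : ℕ) => c • wF i)
      (fun _ => zero_smul _ _) (fun _ _ _ => add_smul _ _ _)]
  rfl

/-- components of the polynomial degree -/
private theorem ds1_hc (σ : Equiv.Perm ι) (n : ℕ) (f : Fock ι) :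
    homogeneousComponent n (thF σ f) = thF σ (homogeneousComponent n f) :=
  (rename_homogeneousComponent n f).symm

/-- the translation operator -/
private theorem ds1_dt (σ : Equiv.Perm ι) (f : Fock ι) :
    dT ι (thF σ f) = thF σ (dT ι f) := by
  induction f using MvPolynomial.induction_on with
  | C a => rw [ds1_C, ← algebraMap_eq, Derivation.map_algebraMap, map_zero]
  | add f g hf hg => rw [map_add, map_add, map_add, map_add, hf, hg]
  | mul_X f x hf =>
    rw [map_mul, Derivation.leibniz, Derivation.leibniz, map_add, smul_eq_mul, smul_eq_mul,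
      smul_eq_mul, smul_eq_mul, map_mul, map_mul, hf, ds1_X]
    congr 2
    unfold dT
    rw [mkDerivation_X, mkDerivation_X, map_smul, ds1_X]

/-- jets -/
private theorem ds1_jt (σ : Equiv.Perm ι) (P : MvPolynomial ι ℂ) :
    ∀ k : ℕ, thF σ (jet k P) = jet k (rename σ P) := by
  have h1 := HA1 ι
  induction P using MvPolynomial.induction_on with
  | C a =>
    intro k
    rw [rename_C, h1.C_]
    split_ifs
    · exact ds1_C σ a
    · exact map_zero _
  | add f g hf hg =>
    intro k
    rw [h1.add, map_add, map_add, h1.add, hf, hg]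
  | mul_X f i hf =>
    intro k
    rw [h1.mul, map_mul, h1.mul, map_sum]
    refine Finset.sum_congr rfl fun j _ => ?_
    rw [map_mul, hf, rename_X, h1.X_, h1.X_, map_mul, ds1_C, ds1_X]

/-- the symbol -/
private theorem ds1_sy (σ : Equiv.Perm ι) (f : Fock ι) :
    syF ι (thF σ f) = rename σ (syF ι f) := by
  have h : (syF ι).comp (thF σ) = (rename (R := ℂ) σ).comp (syF ι) := by
    refine MvPolynomial.algHom_ext fun x => ?_
    rw [AlgHom.comp_apply, AlgHom.comp_apply, ds1_X]
    unfold syF
    rw [aeval_X, aeval_X]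
    by_cases hx : x.2 = 0
    · rw [if_pos hx, if_pos hx, rename_X]
    · rw [if_neg hx, if_neg hx, map_zero]
  exact DFunLike.congr_fun h f

theorem DS1 (σ : Equiv.Perm ι) (hkk : ∀ f ∈ KK A p, thF σ f ∈ KK A p) : st_DS1 A p σ where
  kk := hkk
  fh := ds1_fh σ
  hc := ds1_hc σ
  dt := ds1_dt σ
  jt := fun k P => ds1_jt σ P k
  sy := ds1_sy σ
  dl := fun n f hf m hm => by rw [ds1_hc, hf m hm, map_zero]

end

end WPE
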