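import Pool.Agent.WPE.DSD

/-! [DS1a] the automorphism preserves V^G (vertex operators) -/

namespace WPE

open WPQ MvPolynomial

noncomputable section

variable {ι : Type} [Fintype ι] [DecidableEq ι] {A : Matrix ι ι ℤ} {p : ℕ}

omit [DecidableEq ι] in
/-- oscillators -/
theorem ds1a_osc (σ : Equiv.Perm ι) (ν : ι → ℂ) (k : ℕ) :
    osc ν k = thF σ (osc (ν ∘ σ) k) := by
  unfold osc thF
  rw [map_sum, ← Equiv.sum_comp σ]
  refine Finset.sum_congr rfl fun i _ => ?_
  rw [map_mul, rename_C, rename_X]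
  rfl

omit [DecidableEq ι] in
/-- coefficients of the exponential -/
theorem ds1a_exp (σ : Equiv.Perm ι) (ν : ι → ℂ) (n : ℕ) :
    expCoeff ν n = thF σ (expCoeff (ν ∘ σ) n) := by
  induction n using Nat.strong_induction_on with
  | _ n ih =>
    cases n with
    | zero =>
      rw [expCoeff, expCoeff, map_one]
    | succ n =>
      rw [expCoeff, expCoeff, map_mul, map_sum]
      have h1 : ∀ c : ℂ, thF σ (C c : Fock ι) = C c := fun c => by
        unfold thF
        rw [rename_C]
      rw [h1]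
      congr 1
      refine Finset.sum_congr rfl fun k _ => ?_
      rw [map_mul, map_mul, h1, ← ds1a_osc, ← ih (n - k) (by omega)]

/-- the same for integral indices -/
theorem ds1a_expZ (σ : Equiv.Perm ι) (ν : ι → ℂ) (m : ℤ) :
    expCoeffZ ν m = thF σ (expCoeffZ (ν ∘ σ) m) := by
  unfold expCoeffZ
  split_ifs
  · rw [map_zero]
  · exact ds1a_exp σ ν _

/-- the form -/
theorem ds1a_form (σ : Equiv.Perm ι) (hσ : ∀ i j, A (σ i) (σ j) = A i j) (ν : ι → ℂ) (i : ι) :
    form A p (Pi.single (σ i) 1) ν = form A p (Pi.single i 1) (ν ∘ σ) := by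
  have key : ∀ (i : ι) (ν : ι → ℂ), form A p (Pi.single i 1) ν = p * ∑ j, (A i j : ℂ) * ν j := by
    intro i ν
    unfold form
    rw [Finset.sum_eq_single i]
    · simp
    · intro j _ hj
      refine Finset.sum_eq_zero fun k _ => ?_
      rw [Pi.single_eq_of_ne hj]
      ring
    · intro h
      exact absurd (Finset.mem_univ i) h
  rw [key, key, ← Equiv.sum_comp σ]
  congr 1
  refine Finset.sum_congr rfl fun j _ => ?_
  rw [hσ]
  rfl

/-- the annihilation part -/
theorem ds1a_annih (σ : Equiv.Perm ι) (hσ : ∀ i j, A (σ i) (σ j) = A i j) (ν : ι → ℂ)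
    (f : Fock ι) :
    annih A p ν (thF σ f) = (annih A p (ν ∘ σ) f).map (thF σ : Fock ι →+* Fock ι) := by
  have h : (annih A p ν).comp (thF σ) =
      (Polynomial.mapAlgHom (thF σ)).comp (annih A p (ν ∘ σ)) := by
    refine MvPolynomial.algHom_ext fun x => ?_
    rw [AlgHom.comp_apply, AlgHom.comp_apply]
    have h1 : thF σ (X x : Fock ι) = X (σ x.1, x.2) := by
      unfold thF
      rw [rename_X]
    rw [h1]
    unfold annih
    rw [aeval_X, aeval_X]
    show _ = Polynomial.mapRingHom (thF σ : Fock ι →+* Fock ι) _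
    rw [map_sub, map_mul, map_pow, Polynomial.coe_mapRingHom, Polynomial.map_C, Polynomial.map_C,
      Polynomial.map_X]
    have h2 : (thF σ : Fock ι →+* Fock ι) (X x) = X (σ x.1, x.2) := h1
    have h3 : ∀ c : ℂ, (thF σ : Fock ι →+* Fock ι) (C c) = C c := fun c => by
      show thF σ (C c) = C c
      unfold thF
      rw [rename_C]
    rw [h2, h3, ds1a_form σ hσ]
  have h' := congrArg (fun L : Fock ι →ₐ[ℂ] Polynomial (Fock ι) => L f) h
  exact h'

/-- the vertex operator -/
theorem ds1a_vop (σ : Equiv.Perm ι) (hσ : ∀ i j, A (σ i) (σ j) = A i j) (ν : ι → ℂ) (m : ℤ)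
    (f : Fock ι) : vop A p ν m (thF σ f) = thF σ (vop A p (ν ∘ σ) m f) := by
  unfold vop
  rw [LinearMap.comp_apply, LinearMap.comp_apply, AlgHom.toLinearMap_apply,
    AlgHom.toLinearMap_apply, ds1a_annih σ hσ]
  generalize annih A p (ν ∘ σ) f = P
  induction P using Polynomial.induction_on' with
  | add P Q hP hQ =>
    rw [Polynomial.map_add, map_add, map_add, map_add, hP, hQ]
  | monomial n a =>
    rw [Polynomial.map_monomial, Polynomial.lsum_apply, Polynomial.lsum_apply,
      Polynomial.sum_monomial_index _ _ (by simp),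
      Polynomial.sum_monomial_index _ _ (by simp), LinearMap.mulLeft_apply,
      LinearMap.mulLeft_apply, map_mul, ← ds1a_expZ]
    rfl

omit [Fintype ι] in
/-- charges -/
theorem ds1a_single (σ : Equiv.Perm ι) (j : ι) (c : ℂ) :
    (Pi.single j c : ι → ℂ) ∘ σ = Pi.single (σ.symm j) c := by
  funext i
  rw [Function.comp_apply]
  by_cases h : σ i = j
  · have h' : i = σ.symm j := by rw [← h, Equiv.symm_apply_apply]
    rw [h, h', Pi.single_eq_same, Pi.single_eq_same]
  · have h' : i ≠ σ.symm j := fun h2 => h (by rw [h2, Equiv.apply_symm_apply])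
    rw [Pi.single_eq_of_ne h, Pi.single_eq_of_ne h']

theorem DS1a (σ : Equiv.Perm ι) (hσ : ∀ i j, A (σ i) (σ j) = A i j) :
    ∀ f ∈ KK A p, thF σ f ∈ KK A p := by
  rintro f ⟨h1, h2⟩
  refine ⟨fun j => ?_, fun j => ?_⟩
  · rw [ds1a_vop σ hσ, ds1a_single, h1, map_zero]
  · have h3 := h2 (σ.symm j)
    unfold bb at h3 ⊢
    rw [ds1a_vop σ hσ, ds1a_single, h3, map_zero]

end

end WPE
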