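import Pool.Agent.WPE.VGD

/-! [VG3] Modes and polynomial degree, rough form. -/

namespace WPE

open WPQ MvPolynomial

noncomputable section

variable {ι : Type} [Fintype ι] [DecidableEq ι] {A : Matrix ι ι ℤ} {p : ℕ}

/-- The statement for one vector `u` of degree `≤ a`. -/
private def vg3_Q (ε : Cocycle A p) (a : ℕ) (u : Fock ι) : Prop :=
  ∀ (b : ℕ) (g : Fock ι) (n : ℤ), DLt (b + 1) g → DLt (a + b + 1) (md ε u n g)

private theorem vg3_zero (ε : Cocycle A p) (h2 : st_VG2 ε) (n : ℤ) :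
    md ε (0 : Fock ι) n = 0 := by
  have h := h2.smul 0 0 n
  rw [zero_smul, zero_smul] at h
  exact h

private theorem vg3_Q_zero (ε : Cocycle A p) (h1 : st_VG1 ι) (h2 : st_VG2 ε) (a : ℕ) :
    vg3_Q ε a 0 := by
  intro b g n hg
  rw [vg3_zero ε h2 n, LinearMap.zero_apply]
  exact h1.z0 _

private theorem vg3_Q_add (ε : Cocycle A p) (h1 : st_VG1 ι) (h2 : st_VG2 ε) (a : ℕ)
    (u v : Fock ι) (hu : vg3_Q ε a u) (hv : vg3_Q ε a v) : vg3_Q ε a (u + v) := by
  intro b g n hg
  rw [h2.add, LinearMap.add_apply]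
  exact h1.add _ _ _ (hu b g n hg) (hv b g n hg)

private theorem vg3_Q_smul (ε : Cocycle A p) (h1 : st_VG1 ι) (h2 : st_VG2 ε) (a : ℕ) (c : ℂ)
    (u : Fock ι) (hu : vg3_Q ε a u) : vg3_Q ε a (c • u) := by
  intro b g n hg
  rw [h2.smul, LinearMap.smul_apply]
  exact h1.smul _ _ _ (hu b g n hg)

private theorem vg3_Q_sum (ε : Cocycle A p) (h1 : st_VG1 ι) (h2 : st_VG2 ε) (a : ℕ) {κ : Type}
    (s : Finset κ) (F : κ → Fock ι) (hF : ∀ x ∈ s, vg3_Q ε a (F x)) :
    vg3_Q ε a (∑ x ∈ s, F x) := by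
  classical
  induction s using Finset.induction_on with
  | empty =>
    rw [Finset.sum_empty]
    exact vg3_Q_zero ε h1 h2 a
  | insert x s hx ih =>
    rw [Finset.sum_insert hx]
    exact vg3_Q_add ε h1 h2 a _ _ (hF x (Finset.mem_insert_self x s))
      (ih fun y hy => hF y (Finset.mem_insert_of_mem hy))

private theorem vg3_Q_mono (ε : Cocycle A p) (h1 : st_VG1 ι) (a a' : ℕ) (haa : a ≤ a')
    (u : Fock ι) (hu : vg3_Q ε a u) : vg3_Q ε a' u := fun b g n hg =>
  h1.mono _ _ _ (by omega) (hu b g n hg)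

private theorem vg3_Q_one (ε : Cocycle A p) (h1 : st_VG1 ι) (h2 : st_VG2 ε) :
    vg3_Q ε 0 (1 : Fock ι) := by
  intro b g n hg
  rw [h2.one]
  split_ifs
  · rw [LinearMap.id_apply, zero_add]
    exact hg
  · rw [LinearMap.zero_apply]
    exact h1.z0 _

private theorem vg3_Q_dT (ε : Cocycle A p) (h1 : st_VG1 ι) (h2 : st_VG2 ε) (a : ℕ)
    (u : Fock ι) (hu : vg3_Q ε a u) : vg3_Q ε a (dT ι u) := by
  intro b g n hg
  rw [h2.der, LinearMap.smul_apply]
  exact h1.smul _ _ _ (hu b g (n - 1) hg)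

/-- Multiplication by `X (i,0)`. -/
private theorem vg3_Q_X0 (ε : Cocycle A p) (h1 : st_VG1 ι) (h2 : st_VG2 ε) (a : ℕ) (i : ι)
    (u : Fock ι) (hu : vg3_Q ε a u) : vg3_Q ε (a + 1) (X (i, 0) * u) := by
  intro b g n hg
  obtain ⟨M0, hM⟩ := h2.nop i u n g
  rw [hM M0 le_rfl]
  refine h1.sum _ _ _ _ fun j _ => h1.add _ _ _ ?_ ?_
  · have e1 : DLt (1 + 1) (C ((j : ℂ) + 1) * X (i, j) : Fock ι) :=
      h1.hom 1 _ (isHomogeneous_C_mul_X _ _)
    have e2 := h1.mul (1 + 1) (a + b) _ _ e1 (hu b g (n + j) hg)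
    exact h1.mono _ _ _ (by omega) e2
  · have e1 := h2.low i b g j hg
    cases b with
    | zero =>
      rw [h1.zero _ e1, map_zero]
      exact h1.z0 _
    | succ b' =>
      exact h1.mono _ _ _ (by omega) (hu b' _ (n - 1 - j) e1)

/-- `dT` preserves the polynomial degree. -/
private theorem vg3_dT_hom (a : ℕ) (u : Fock ι) (hu : u.IsHomogeneous a) :
    (dT ι u).IsHomogeneous a := by
  rw [← u.support_sum_monomial_coeff, map_sum]
  refine IsHomogeneous.sum _ _ _ fun s hs => ?_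
  have hdeg : s.degree = a := by
    have h5 := hu (MvPolynomial.mem_support_iff.1 hs)
    rw [Finsupp.degree_eq_weight_one]
    exact h5
  rw [dT, mkDerivation_monomial, MvPolynomial.smul_eq_C_mul, ← zero_add a]
  refine IsHomogeneous.mul (isHomogeneous_C _ _) ?_
  unfold Finsupp.sum
  refine IsHomogeneous.sum _ _ _ fun x hx => ?_
  have hx1 : 1 ≤ s x := Nat.one_le_iff_ne_zero.2 (Finsupp.mem_support_iff.1 hx)
  have hd2 : (s - Finsupp.single x 1).degree + 1 = a := by
    have h3 : s = (s - Finsupp.single x 1) + Finsupp.single x 1 := by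
      ext y
      by_cases hy : y = x
      · subst hy
        simp
        omega
      · simp [Finsupp.single_eq_of_ne hy]
    rw [← hdeg]
    conv_rhs => rw [h3]
    rw [map_add, Finsupp.degree_single]
  change IsHomogeneous ((monomial (s - Finsupp.single x 1)) ((s x : ℕ) : ℂ) *
    (((x.2 : ℂ) + 2) • (X (x.1, x.2 + 1) : Fock ι))) a
  rw [← hd2]
  refine IsHomogeneous.mul (isHomogeneous_monomial _ rfl) ?_
  rw [MvPolynomial.smul_eq_C_mul]
  exact isHomogeneous_C_mul_X _ _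

/-- Multiplication by `X (i,k)`. -/
private theorem vg3_Q_X (ε : Cocycle A p) (h1 : st_VG1 ι) (h2 : st_VG2 ε) (a : ℕ)
    (hQ : ∀ u : Fock ι, u.IsHomogeneous a → vg3_Q ε a u) (i : ι) (k : ℕ) :
    ∀ u : Fock ι, u.IsHomogeneous a → vg3_Q ε (a + 1) (X (i, k) * u) := by
  induction k with
  | zero => exact fun u hu => vg3_Q_X0 ε h1 h2 a i u (hQ u hu)
  | succ k ih =>
    intro u hu
    have hc : ((k : ℂ) + 2) ≠ 0 := by
      have : ((k + 2 : ℕ) : ℂ) ≠ 0 := Nat.cast_ne_zero.2 (by omega)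
      push_cast at this
      exact this
    have e1 : dT ι (X (i, k) * u) = X (i, k) * dT ι u + ((k : ℂ) + 2) • (X (i, k + 1) * u) := by
      rw [Derivation.leibniz, smul_eq_mul, smul_eq_mul, dT, mkDerivation_X]
      rw [mul_smul_comm, mul_comm u]
    have e2 : X (i, k + 1) * u = ((k : ℂ) + 2)⁻¹ • (dT ι (X (i, k) * u) +
        (-1 : ℂ) • (X (i, k) * dT ι u)) := by
      rw [e1, neg_one_smul, add_right_comm, add_neg_cancel, zero_add, smul_smul,
        inv_mul_cancel₀ hc, one_smul]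
    rw [e2]
    exact vg3_Q_smul ε h1 h2 _ _ _ (vg3_Q_add ε h1 h2 _ _ _
      (vg3_Q_dT ε h1 h2 _ _ (ih u hu))
      (vg3_Q_smul ε h1 h2 _ _ _ (ih _ (vg3_dT_hom a u hu))))

/-- Homogeneous vectors. -/
private theorem vg3_hom (ε : Cocycle A p) (h1 : st_VG1 ι) (h2 : st_VG2 ε) (a : ℕ) :
    ∀ u : Fock ι, u.IsHomogeneous a → vg3_Q ε a u := by
  induction a with
  | zero =>
    intro u hu
    have e1 : u = C (coeff 0 u) := by
      refine totalDegree_eq_zero_iff_eq_C.1 ?_
      exact Nat.le_zero.1 hu.totalDegree_le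
    have e2 : u = coeff 0 u • (1 : Fock ι) := by
      rw [MvPolynomial.smul_eq_C_mul, mul_one]
      exact e1
    rw [e2]
    exact vg3_Q_smul ε h1 h2 _ _ _ (vg3_Q_one ε h1 h2)
  | succ a ih =>
    intro u hu
    rw [← u.support_sum_monomial_coeff]
    refine vg3_Q_sum ε h1 h2 _ _ _ fun s hs => ?_
    have hdeg : s.degree = a + 1 := by
      have h5 := hu (MvPolynomial.mem_support_iff.1 hs)
      rw [Finsupp.degree_eq_weight_one]
      exact h5
    have hs0 : s ≠ 0 := by
      intro h0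
      rw [h0, map_zero] at hdeg
      omega
    obtain ⟨x, hx⟩ := Finsupp.support_nonempty_iff.2 hs0
    have hx1 : 1 ≤ s x := Nat.one_le_iff_ne_zero.2 (Finsupp.mem_support_iff.1 hx)
    have h3 : s = Finsupp.single x 1 + (s - Finsupp.single x 1) := by
      ext y
      by_cases hy : y = x
      · subst hy
        simp
        omega
      · simp [Finsupp.single_eq_of_ne hy]
    have hd2 : (s - Finsupp.single x 1).degree = a := by
      have h4 := hdeg
      rw [h3, map_add, Finsupp.degree_single] at h4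
      omega
    have e1 : monomial s (coeff s u) =
        X x * (monomial (s - Finsupp.single x 1) (coeff s u) : Fock ι) := by
      rw [X, monomial_mul, one_mul, ← h3]
    rw [e1]
    exact vg3_Q_X ε h1 h2 a ih x.1 x.2 _ (isHomogeneous_monomial _ hd2)

theorem VG3 (ε : Cocycle A p) (h1 : st_VG1 ι) (h2 : st_VG2 ε) : st_VG3 ε := by
  intro a b u g n hu hg
  have hQ : vg3_Q ε a u := by
    rw [← sum_homogeneousComponent u]
    refine vg3_Q_sum ε h1 h2 _ _ _ fun i _ => ?_
    by_cases hi : i ≤ a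
    · exact vg3_Q_mono ε h1 i a hi _
        (vg3_hom ε h1 h2 i _ (homogeneousComponent_isHomogeneous i u))
    · rw [hu i (by omega)]
      exact vg3_Q_zero ε h1 h2 a
  exact hQ b g n hg

end

end WPE
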