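import Pool.Agent.WPE.DSD
import Pool.Agent.WPE.R_VG3

/-! [DS2] thF is an automorphism of the modes -/

namespace WPE

open WPQ MvPolynomial

noncomputable section

variable {ι : Type} [Fintype ι] [DecidableEq ι] {A : Matrix ι ι ℤ} {p : ℕ}

omit [Fintype ι] [DecidableEq ι] in
/-- `thF` on products with a variable. -/
private theorem ds2_X (σ : Equiv.Perm ι) (i : ι) (k : ℕ) (u : Fock ι) :
    thF σ (X (i, k) * u) = X (σ i, k) * thF σ u := by
  unfold thF
  rw [map_mul, rename_X]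

/-- The form of two basis vectors. -/
private theorem ds2_form (A : Matrix ι ι ℤ) (p : ℕ) (i j : ι) :
    form A p (bb i) (bb j) = p * (A i j : ℂ) := by
  unfold form bb
  congr 1
  simp [Pi.single_apply]

/-- The annihilation operators. -/
private theorem ds2_heis (σ : Equiv.Perm ι) (hσ : ∀ i j, A (σ i) (σ j) = A i j) (i : ι) (j : ℕ)
    (g : Fock ι) : heis A p (bb (σ i)) (j : ℤ) 0 (thF σ g) = thF σ (heis A p (bb i) (j : ℤ) 0 g) := by
  unfold heis
  have hneg : ¬ ((j : ℤ) < 0) := by omega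
  simp only [if_neg hneg]
  by_cases hj : (j : ℤ) = 0
  · simp only [if_pos hj]
    rw [LinearMap.smul_apply, LinearMap.smul_apply, map_smul,
      LinearMap.id_apply, LinearMap.id_apply]
    congr 1
    simp [form]
  · simp only [if_neg hj]
    rw [LinearMap.sum_apply, LinearMap.sum_apply, map_sum,
      ← Equiv.sum_comp σ]
    refine Finset.sum_congr rfl fun i' _ => ?_
    rw [LinearMap.smul_apply, LinearMap.smul_apply, map_smul]
    have h1 : form A p (Pi.single (σ i') 1) (bb (σ i)) = form A p (Pi.single i' 1) (bb i) := by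
      have h2 := ds2_form A p (σ i') (σ i)
      rw [hσ] at h2
      exact h2.trans (ds2_form A p i' i).symm
    have hinj : Function.Injective (fun x : ι × ℕ => (σ x.1, x.2)) := by
      rintro ⟨a, b⟩ ⟨c, d⟩ h
      have h3 : σ a = σ c := congrArg Prod.fst h
      have h4 : b = d := congrArg Prod.snd h
      rw [σ.injective h3, h4]
    have h5 : pderiv (σ i', ((j : ℤ) - 1).toNat) (thF σ g) =
        thF σ (pderiv (i', ((j : ℤ) - 1).toNat) g) :=
      pderiv_rename hinj (i', ((j : ℤ) - 1).toNat) g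
    rw [h1]
    congr 1

/-- The claim for one `u`. -/
private def ds2_Q (ε : Cocycle A p) (σ : Equiv.Perm ι) (u : Fock ι) : Prop :=
  ∀ (g : Fock ι) (n : ℤ), md ε (thF σ u) n (thF σ g) = thF σ (md ε u n g)

private theorem ds2_one (ε : Cocycle A p) (σ : Equiv.Perm ι) (v2 : st_VG2 ε) :
    ds2_Q ε σ 1 := by
  intro g n
  rw [map_one, v2.one]
  split
  · rfl
  · rw [LinearMap.zero_apply, LinearMap.zero_apply, map_zero]

private theorem ds2_add (ε : Cocycle A p) (σ : Equiv.Perm ι) (v2 : st_VG2 ε) (u v : Fock ι)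
    (hu : ds2_Q ε σ u) (hv : ds2_Q ε σ v) : ds2_Q ε σ (u + v) := by
  intro g n
  rw [map_add, v2.add, v2.add, LinearMap.add_apply, LinearMap.add_apply, map_add, hu, hv]

private theorem ds2_smul (ε : Cocycle A p) (σ : Equiv.Perm ι) (v2 : st_VG2 ε) (c : ℂ) (u : Fock ι)
    (hu : ds2_Q ε σ u) : ds2_Q ε σ (c • u) := by
  intro g n
  rw [map_smul, v2.smul, v2.smul, LinearMap.smul_apply, LinearMap.smul_apply, map_smul, hu]

private theorem ds2_dT (ε : Cocycle A p) (σ : Equiv.Perm ι) (h1 : st_DS1 A p σ) (v2 : st_VG2 ε)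
    (u : Fock ι) (hu : ds2_Q ε σ u) : ds2_Q ε σ (dT ι u) := by
  intro g n
  rw [← h1.dt, v2.der, v2.der, LinearMap.smul_apply, LinearMap.smul_apply, map_smul, hu]

private theorem ds2_X0 (ε : Cocycle A p) (σ : Equiv.Perm ι) (hσ : ∀ i j, A (σ i) (σ j) = A i j)
    (v2 : st_VG2 ε) (i : ι) (u : Fock ι) (hu : ds2_Q ε σ u) : ds2_Q ε σ (X (i, 0) * u) := by
  intro g n
  obtain ⟨M1, h1⟩ := v2.nop i u n g
  obtain ⟨M2, h2⟩ := v2.nop (σ i) (thF σ u) n (thF σ g)
  rw [ds2_X, h2 (max M1 M2) (le_max_right _ _), h1 (max M1 M2) (le_max_left _ _), map_sum]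
  refine Finset.sum_congr rfl fun j _ => ?_
  have e1 : ∀ w : Fock ι, thF σ (C ((j : ℂ) + 1) * X (i, j) * w) =
      C ((j : ℂ) + 1) * X (σ i, j) * thF σ w := by
    intro w
    unfold thF
    rw [map_mul, map_mul, rename_C, rename_X]
  have e2 := map_add (thF σ) (C ((j : ℂ) + 1) * X (i, j) * md ε u (n + j) g)
    (md ε u (n - 1 - j) (heis A p (bb i) (j : ℤ) 0 g))
  rw [e2, e1, hu, ds2_heis σ hσ, hu]

private theorem ds2_Xk (ε : Cocycle A p) (σ : Equiv.Perm ι) (hσ : ∀ i j, A (σ i) (σ j) = A i j)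
    (h1 : st_DS1 A p σ) (v2 : st_VG2 ε) (i : ι) (k : ℕ) :
    ∀ u : Fock ι, ds2_Q ε σ u → ds2_Q ε σ (X (i, k) * u) := by
  induction k with
  | zero => exact ds2_X0 ε σ hσ v2 i
  | succ k ih =>
    intro u hu
    have e1 : dT ι (X (i, k) * u) = X (i, k) * dT ι u + ((k : ℂ) + 2) • (X (i, k + 1) * u) := by
      rw [Derivation.leibniz, smul_eq_mul, smul_eq_mul, dT, mkDerivation_X]
      simp only [mul_smul_comm]
      rw [mul_comm u]
    have hk : ((k : ℂ) + 2) ≠ 0 := by exact_mod_cast (Nat.succ_ne_zero (k + 1))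
    have e2 : X (i, k + 1) * u = ((k : ℂ) + 2)⁻¹ • (dT ι (X (i, k) * u) +
        (-1 : ℂ) • (X (i, k) * dT ι u)) := by
      rw [e1, neg_one_smul, add_comm (X (i, k) * dT ι u), add_neg_cancel_right, smul_smul,
        inv_mul_cancel₀ hk, one_smul]
    rw [e2]
    exact ds2_smul ε σ v2 _ _ (ds2_add ε σ v2 _ _ (ds2_dT ε σ h1 v2 _ (ih u hu))
      (ds2_smul ε σ v2 _ _ (ih _ (ds2_dT ε σ h1 v2 u hu))))

theorem DS2 (hA : IsADE A) (hp : 1 ≤ p) (ε : Cocycle A p) (σ : Equiv.Perm ι)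
    (hσ : ∀ i j, A (σ i) (σ j) = A i j) (h1 : st_DS1 A p σ) (v2 : st_VG2 ε) : st_DS2 ε σ := by
  have key : ∀ u : Fock ι, ds2_Q ε σ u := by
    intro u
    induction u using MvPolynomial.induction_on with
    | C a =>
      have h : (C a : Fock ι) = a • (1 : Fock ι) := by
        rw [smul_eq_C_mul, mul_one]
      rw [h]
      exact ds2_smul ε σ v2 a 1 (ds2_one ε σ v2)
    | add u v hu hv => exact ds2_add ε σ v2 u v hu hv
    | mul_X u x hu =>
      obtain ⟨i, k⟩ := x
      rw [mul_comm]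
      exact ds2_Xk ε σ hσ h1 v2 i k u hu
  exact fun u g n => key u g n

end

end WPE
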