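import Pool.Agent.WPE.VGD

/-! [VG10] Freeness. -/

namespace WPE

open WPQ MvPolynomial

noncomputable section

variable {ι : Type} [Fintype ι] [DecidableEq ι] {A : Matrix ι ι ℤ} {p : ℕ}

/-- The product of jets belonging to an exponent vector is the image of the monomial. -/
theorem vg10_pj (P : ι → MvPolynomial ι ℂ) (s : (ι × ℕ) →₀ ℕ) :
    pj P (Finsupp.toMultiset s).toList = PhJ P (monomial s 1) := by
  have e1 : pj P (Finsupp.toMultiset s).toList =
      ((Finsupp.toMultiset s).map fun x : ι × ℕ => jet x.2 (P x.1)).prod := by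
    unfold pj
    exact Multiset.prod_map_toList _ _
  rw [e1, Finsupp.toMultiset_map, Finsupp.prod_toMultiset,
    Finsupp.prod_mapDomain_index (fun _ => pow_zero _) (fun _ _ _ => pow_add _ _ _)]
  unfold PhJ
  rw [aeval_monomial, map_one, one_mul]

theorem VG10 (ε : Cocycle A p) (h1 : st_VG1 ι) (h6 : st_VG6 ι) (h7 : st_VG7 ε) (ha4 : st_HA4 ι) :
    st_VG10 ε := by
  intro w P d hG hJ
  rw [linearIndependent_iff]
  intro l hl
  by_contra hne
  have hs : l.support.Nonempty := Finsupp.support_nonempty_iff.mpr hne
  obtain ⟨s0, hs0, hmax⟩ := Finset.exists_max_image l.support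
    (fun s => dgL d (Finsupp.toMultiset s).toList) hs
  set D := dgL d (Finsupp.toMultiset s0).toList with hD
  -- the component of degree `D` of a word of degree at most `D`
  have hcomp : ∀ s ∈ l.support,
      homogeneousComponent D (wo ε w (Finsupp.toMultiset s).toList) =
        if dgL d (Finsupp.toMultiset s).toList = D then PhJ P (monomial s 1) else 0 := by
    intro s hs
    have h := h7.top w P d hG (Finsupp.toMultiset s).toList D (hmax s hs)
    rw [map_sub, sub_eq_zero] at h
    rw [h, homogeneousComponent_of_mem (h6.pj_hom P d hG.hom _), vg10_pj]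
    split_ifs with h2 h3 h3
    · rfl
    · exact absurd h2.symm h3
    · exact absurd h3.symm h2
    · rfl
  have hsum : ∑ s ∈ l.support, l s •
      (if dgL d (Finsupp.toMultiset s).toList = D then PhJ P (monomial s 1) else 0) = 0 := by
    have h := congrArg (homogeneousComponent D) hl
    rw [map_zero, Finsupp.linearCombination_apply, Finsupp.sum, map_sum] at h
    refine Eq.trans (Finset.sum_congr rfl fun s hs => ?_) h
    rw [map_smul, hcomp s hs]
  have hinj := ha4.inj P hJ
  have h0 : (∑ s ∈ l.support, l s •
      (if dgL d (Finsupp.toMultiset s).toList = D then (monomial s 1 : Fock ι) else 0)) = 0 := by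
    apply hinj
    refine Eq.trans ?_ (hsum.trans (map_zero (PhJ P)).symm)
    rw [map_sum]
    refine Finset.sum_congr rfl fun s _ => ?_
    rw [map_smul]
    congr 1
    split_ifs
    · rfl
    · exact map_zero _
  have hc := congrArg (coeff s0) h0
  rw [coeff_zero, coeff_sum, Finset.sum_eq_single s0] at hc
  · rw [if_pos hD.symm, coeff_smul, coeff_monomial, if_pos rfl, smul_eq_mul, mul_one] at hc
    exact (Finsupp.mem_support_iff.mp hs0) hc
  · intro s _ hss
    rw [coeff_smul]
    split_ifs
    · rw [coeff_monomial, if_neg hss, smul_zero]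
    · rw [coeff_zero, smul_zero]
  · intro h
    exact absurd hs0 h

end

end WPE
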