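import Pool.Agent.WPE.VGD
import Pool.Agent.WPQ.VA4

/-! [VG2] The modes on M(1). -/

namespace WPE

open WPQ MvPolynomial

noncomputable section

variable {ι : Type} [Fintype ι] [DecidableEq ι] {A : Matrix ι ι ℤ} {p : ℕ}

/-- charge zero -/
private theorem vg2_toC_zero : toC (0 : ι → ℤ) = 0 := by
  funext i
  simp [toC]

/-- the oscillator of a basis vector -/
private theorem vg2_osc_bb (i : ι) (k : ℕ) : osc (bb i) k = X (i, k) := by
  unfold osc bb
  rw [Finset.sum_eq_single i]
  · rw [Pi.single_eq_same, C_1, one_mul]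
  · intro j _ hj
    rw [Pi.single_eq_of_ne hj, C_0, zero_mul]
  · intro h
    exact absurd (Finset.mem_univ i) h

/-- the Heisenberg modes on a single charge -/
private theorem vg2_heis_single (h : ι → ℂ) (n : ℤ) (η : ι → ℤ) (f : Fock ι) :
    heisMode A p h n (Finsupp.single η f) = Finsupp.single η (heis A p h n (toC η) f) := by
  unfold heisMode
  rw [Finsupp.lsum_single]
  rfl

/-- the translation operator on charge zero -/
private theorem vg2_transl (u : Fock ι) :
    transl (Finsupp.single (0 : ι → ℤ) u) = Finsupp.single 0 (dT ι u) := by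
  unfold transl
  rw [Finsupp.lsum_single]
  have h : osc (toC (0 : ι → ℤ)) 0 = (0 : Fock ι) := by
    unfold osc
    refine Finset.sum_eq_zero fun i _ => ?_
    rw [vg2_toC_zero, Pi.zero_apply, C_0, zero_mul]
  rw [LinearMap.comp_apply, LinearMap.add_apply, LinearMap.mulLeft_apply, h, zero_mul, add_zero]
  rfl

/-- the form with the zero vector -/
private theorem vg2_form_zero (ν : ι → ℂ) : form A p ν 0 = 0 := by
  unfold form
  simp

theorem VG2 (hA : IsADE A) (hp : 1 ≤ p) (ε : Cocycle A p) (h1 : st_VG1 ι) : st_VG2 ε := by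
  have hsingle : ∀ (u g : Fock ι) (n : ℤ), mode ε (Finsupp.single 0 u) n (Finsupp.single 0 g) =
      Finsupp.single 0 (md ε u n g) := by
    intro u g n
    have hu : (Finsupp.single 0 u : VL ι) ∈ Finsupp.supported (Fock ι) ℂ {(0 : ι → ℤ)} :=
      Finsupp.single_mem_supported ℂ u (Set.mem_singleton _)
    have h := mode_comp hA hp ε n (Finsupp.single 0 u) (Finsupp.single 0 g) hu 0
    rw [Finsupp.single_eq_same] at h
    rw [← h]
    rfl
  refine ⟨hsingle, ?_, ?_, ?_, ?_, ?_, ?_⟩
  · intro u v n
    unfold md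
    rw [Finsupp.single_add, mode_add hA hp]
    rfl
  · intro c u n
    unfold md
    rw [← Finsupp.smul_single, mode_smul hA hp]
    refine LinearMap.ext fun g => ?_
    simp only [LinearMap.comp_apply, LinearMap.smul_apply, map_smul]
  · intro n
    have h := mode_vac hA hp ε n
    unfold vac at h
    refine LinearMap.ext fun g => ?_
    have h2 : md ε (1 : Fock ι) n g =
        (mode ε (Finsupp.single 0 1) n (Finsupp.single 0 g)) 0 := rfl
    rw [h2, h]
    by_cases hn : n = -1
    · rw [if_pos hn, if_pos hn, LinearMap.id_apply, Finsupp.single_eq_same, LinearMap.id_apply]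
    · rw [if_neg hn, if_neg hn]
      rfl
  · intro u n
    refine LinearMap.ext fun g => ?_
    have h2 : md ε (dT ι u) n g =
        (mode ε (Finsupp.single 0 (dT ι u)) n (Finsupp.single 0 g)) 0 := rfl
    rw [h2, ← vg2_transl, mode_transl hA hp]
    rfl
  · intro i u m g
    obtain ⟨M0, hM0⟩ := mode_nop hA hp ε (Finsupp.single 0 (X (i, 0))) (Finsupp.single 0 u) m
      (Finsupp.single 0 g)
    refine ⟨M0, fun M hM => ?_⟩
    have h := hM0 M hM
    have hX : mode ε (Finsupp.single 0 (X (i, 0) : Fock ι)) = heisMode A p (bb i) := by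
      rw [← vg2_osc_bb, va4_mode_heis hA hp]
    have hu : mode ε (Finsupp.single 0 (X (i, 0) : Fock ι)) (-1) (Finsupp.single 0 u) =
        Finsupp.single 0 (X (i, 0) * u) := by
      rw [hX, vg2_heis_single]
      congr 1
      unfold heis
      rw [if_pos (by norm_num)]
      simp [vg2_osc_bb]
    rw [hu, hsingle] at h
    have h3 := congrArg (fun v : VL ι => v 0) h
    simp only [Finsupp.single_eq_same] at h3
    rw [h3, Finsupp.finset_sum_apply]
    refine Finset.sum_congr rfl fun j _ => ?_
    rw [Finsupp.add_apply, hX, hsingle, vg2_heis_single, vg2_heis_single, hsingle,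
      Finsupp.single_eq_same, Finsupp.single_eq_same, vg2_toC_zero]
    congr 1
    unfold heis
    have hj : (-1 - (j : ℤ)) < 0 := by omega
    have hj2 : (-(-1 - (j : ℤ)) - 1).toNat = j := by omega
    rw [if_pos hj, hj2, vg2_osc_bb, LinearMap.smul_apply, LinearMap.mulLeft_apply,
      MvPolynomial.smul_eq_C_mul, mul_assoc]
    congr 2
    push_cast
    ring
  · intro i b g j hg
    unfold heis
    have hj : ¬ ((j : ℤ) < 0) := by omega
    rw [if_neg hj]
    by_cases h0 : (j : ℤ) = 0
    · rw [if_pos h0, vg2_form_zero, zero_smul]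
      exact h1.z0 b
    · rw [if_neg h0, LinearMap.sum_apply]
      refine h1.sum b ι Finset.univ _ fun x _ => ?_
      rw [LinearMap.smul_apply]
      exact h1.smul b _ _ (h1.pd b g _ hg)

end

end WPE
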