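import Pool.Agent.WPE.VGD

/-! [VG4] Modes and polynomial degree, precise form. -/

namespace WPE

open WPQ MvPolynomial

noncomputable section

variable {ι : Type} [Fintype ι] [DecidableEq ι] {A : Matrix ι ι ℤ} {p : ℕ}

/-- the statement for one polynomial -/
private def vg4_Good (ε : Cocycle A p) (a : ℕ) (P : MvPolynomial ι ℂ) : Prop :=
  ∀ (b : ℕ) (g : Fock ι), DLt (b + 1) g →
    (∀ k : ℕ, DLt (a + b) (md ε (inc0 P) (-1 - (k : ℤ)) g - jet k P * g)) ∧
    (∀ n : ℕ, DLt (a + b) (md ε (inc0 P) (n : ℤ) g))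

/-- jets of zero -/
private theorem vg4_jet_zero (ha1 : st_HA1 ι) (k : ℕ) :
    jet k (0 : MvPolynomial ι ℂ) = (0 : Fock ι) := by
  have h := ha1.C_ 0 k
  rw [C_0] at h
  rw [h, C_0, ite_self]

/-- closure under sums -/
private theorem vg4_add (ε : Cocycle A p) (h1 : st_VG1 ι) (h2 : st_VG2 ε) (ha1 : st_HA1 ι) {a : ℕ}
    {P Q : MvPolynomial ι ℂ} (hP : vg4_Good ε a P) (hQ : vg4_Good ε a Q) :
    vg4_Good ε a (P + Q) := by
  intro b g hg
  obtain ⟨p1, p2⟩ := hP b g hg
  obtain ⟨q1, q2⟩ := hQ b g hg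
  refine ⟨fun k => ?_, fun n => ?_⟩
  · have h := h1.add _ _ _ (p1 k) (q1 k)
    have e : md ε (inc0 (P + Q)) (-1 - (k : ℤ)) g - jet k (P + Q) * g =
        (md ε (inc0 P) (-1 - (k : ℤ)) g - jet k P * g) +
          (md ε (inc0 Q) (-1 - (k : ℤ)) g - jet k Q * g) := by
      rw [map_add, h2.add, ha1.add, LinearMap.add_apply]
      ring
    rw [e]
    exact h
  · rw [map_add, h2.add, LinearMap.add_apply]
    exact h1.add _ _ _ (p2 n) (q2 n)

/-- the zero polynomial -/
private theorem vg4_zero (ε : Cocycle A p) (h1 : st_VG1 ι) (h2 : st_VG2 ε) (ha1 : st_HA1 ι) (a : ℕ) :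
    vg4_Good ε a (0 : MvPolynomial ι ℂ) := by
  have h0 : ∀ n : ℤ, md ε (0 : Fock ι) n = 0 := by
    intro n
    have h := h2.smul 0 (0 : Fock ι) n
    rwa [zero_smul, zero_smul] at h
  intro b g _
  refine ⟨fun k => ?_, fun n => ?_⟩
  · rw [map_zero, h0, vg4_jet_zero ha1, LinearMap.zero_apply, zero_mul, sub_zero]
    exact h1.z0 _
  · rw [map_zero, h0, LinearMap.zero_apply]
    exact h1.z0 _

/-- closure under finite sums -/
private theorem vg4_sum (ε : Cocycle A p) (h1 : st_VG1 ι) (h2 : st_VG2 ε) (ha1 : st_HA1 ι) {a : ℕ}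
    {κ : Type} (s : Finset κ) (F : κ → MvPolynomial ι ℂ) (hF : ∀ x ∈ s, vg4_Good ε a (F x)) :
    vg4_Good ε a (∑ x ∈ s, F x) := by
  classical
  induction s using Finset.induction_on with
  | empty =>
    rw [Finset.sum_empty]
    exact vg4_zero ε h1 h2 ha1 a
  | insert x s hx ih =>
    rw [Finset.sum_insert hx]
    exact vg4_add ε h1 h2 ha1 (hF x (Finset.mem_insert_self _ _))
      (ih fun y hy => hF y (Finset.mem_insert_of_mem hy))

/-- constants -/
private theorem vg4_C (ε : Cocycle A p) (h1 : st_VG1 ι) (h2 : st_VG2 ε) (ha1 : st_HA1 ι) (c : ℂ) :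
    vg4_Good ε 0 (C c : MvPolynomial ι ℂ) := by
  have hc : (inc0 (C c : MvPolynomial ι ℂ) : Fock ι) = c • (1 : Fock ι) := by
    unfold inc0
    rw [rename_C, MvPolynomial.smul_eq_C_mul, mul_one]
  intro b g _
  refine ⟨fun k => ?_, fun n => ?_⟩
  · rw [hc, h2.smul, h2.one, ha1.C_]
    by_cases hk : k = 0
    · subst hk
      have e : (-1 - ((0 : ℕ) : ℤ)) = -1 := by norm_num
      rw [if_pos e, if_pos rfl, LinearMap.smul_apply, LinearMap.id_apply,
        MvPolynomial.smul_eq_C_mul, sub_self]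
      exact h1.z0 _
    · have e : ¬ ((-1 - (k : ℤ)) = -1) := by omega
      rw [if_neg e, if_neg hk, smul_zero, LinearMap.zero_apply, zero_mul, sub_zero]
      exact h1.z0 _
  · have e : ¬ (((n : ℕ) : ℤ) = -1) := by omega
    rw [hc, h2.smul, h2.one, if_neg e, smul_zero, LinearMap.zero_apply]
    exact h1.z0 _

/-- multiplication by a variable -/
private theorem vg4_X (ε : Cocycle A p) (h1 : st_VG1 ι) (h2 : st_VG2 ε) (h3 : st_VG3 ε)
    (ha1 : st_HA1 ι) (h6 : st_VG6 ι) (i : ι) {a : ℕ} {P : MvPolynomial ι ℂ}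
    (hPh : P.IsHomogeneous a) (hP : vg4_Good ε a P) : vg4_Good ε (a + 1) (X i * P) := by
  intro b g hg
  obtain ⟨p1, p2⟩ := hP b g hg
  have hinc : (inc0 (X i * P) : Fock ι) = X (i, 0) * inc0 P := by
    rw [map_mul]
    unfold inc0
    rw [rename_X]
  -- degree of the linear factor
  have hlin : ∀ j : ℕ, DLt (1 + 1) (C ((j : ℂ) + 1) * X (i, j) : Fock ι) := by
    intro j
    have h := (isHomogeneous_C (ι × ℕ) ((j : ℂ) + 1)).mul (isHomogeneous_X ℂ (i, j))
    rw [zero_add] at h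
    exact h1.hom 1 _ h
  have hmul : ∀ (j : ℕ) (f : Fock ι), DLt (a + b) f →
      DLt (a + 1 + b) (C ((j : ℂ) + 1) * X (i, j) * f) := by
    intro j f hf
    have h := h1.mul (a + b) 1 f _ hf (hlin j)
    have e : C ((j : ℂ) + 1) * X (i, j) * f = f * (C ((j : ℂ) + 1) * X (i, j)) := mul_comm _ _
    rw [e, show a + 1 + b = a + b + 1 by omega]
    exact h
  -- the terms of the second kind
  have hsec : ∀ (n : ℤ) (j : ℕ), DLt (a + 1 + b) (md ε (inc0 P) n (heis A p (bb i) (j : ℤ) 0 g)) := by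
    intro n j
    have h := h2.low i b g j hg
    rcases Nat.eq_zero_or_pos b with hb | hb
    · subst hb
      rw [h1.zero _ h, map_zero]
      exact h1.z0 _
    · obtain ⟨b', rfl⟩ : ∃ b', b = b' + 1 := ⟨b - 1, by omega⟩
      have h4 := h3 a b' (inc0 P) _ n (h1.hom a _ (h6.inc_hom P a hPh)) h
      exact h1.mono _ _ _ (by omega) h4
  refine ⟨fun k => ?_, fun n => ?_⟩
  · obtain ⟨M0, hM0⟩ := h2.nop i (inc0 P) (-1 - (k : ℤ)) g
    have hM := hM0 (max M0 (k + 1)) (le_max_left _ _)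
    set M := max M0 (k + 1) with hMdef
    have hkM : k + 1 ≤ M := le_max_right _ _
    have hjet : (jet k (X i * P) * g : Fock ι) = ∑ j ∈ Finset.range M,
        (if j ≤ k then C ((j : ℂ) + 1) * X (i, j) * (jet (k - j) P * g) else 0) := by
      rw [ha1.mul, Finset.sum_mul]
      have e1 : ∑ j ∈ Finset.range (k + 1), jet j (X i : MvPolynomial ι ℂ) * jet (k - j) P * g =
          ∑ j ∈ Finset.range (k + 1),
            (if j ≤ k then C ((j : ℂ) + 1) * X (i, j) * (jet (k - j) P * g) else 0) := by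
        refine Finset.sum_congr rfl fun j hj => ?_
        rw [if_pos (by rw [Finset.mem_range] at hj; omega), ha1.X_]
        ring
      rw [e1]
      refine Finset.sum_subset ?_ ?_
      · intro j hj
        rw [Finset.mem_range] at hj ⊢
        omega
      · intro j _ hj
        rw [Finset.mem_range] at hj
        rw [if_neg (by omega)]
    rw [hinc, hM, hjet, ← Finset.sum_sub_distrib]
    refine h1.sum _ ℕ _ _ fun j _ => ?_
    by_cases hj : j ≤ k
    · rw [if_pos hj]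
      have e2 : (-1 - (k : ℤ)) + (j : ℤ) = -1 - ((k - j : ℕ) : ℤ) := by omega
      have h5 := hmul j _ (p1 (k - j))
      rw [e2]
      have e3 : (C ((j : ℂ) + 1) * X (i, j) * md ε (inc0 P) (-1 - ((k - j : ℕ) : ℤ)) g +
          md ε (inc0 P) (-1 - (k : ℤ) - 1 - (j : ℤ)) (heis A p (bb i) (j : ℤ) 0 g)) -
          C ((j : ℂ) + 1) * X (i, j) * (jet (k - j) P * g) =
          C ((j : ℂ) + 1) * X (i, j) *
            (md ε (inc0 P) (-1 - ((k - j : ℕ) : ℤ)) g - jet (k - j) P * g) +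
          md ε (inc0 P) (-1 - (k : ℤ) - 1 - (j : ℤ)) (heis A p (bb i) (j : ℤ) 0 g) := by
        ring
      rw [e3]
      exact h1.add _ _ _ h5 (hsec _ _)
    · rw [if_neg hj, sub_zero]
      have e2 : (-1 - (k : ℤ)) + (j : ℤ) = ((j - 1 - k : ℕ) : ℤ) := by omega
      rw [e2]
      exact h1.add _ _ _ (hmul j _ (p2 _)) (hsec _ _)
  · obtain ⟨M0, hM0⟩ := h2.nop i (inc0 P) (n : ℤ) g
    rw [hinc, hM0 M0 le_rfl]
    refine h1.sum _ ℕ _ _ fun j _ => ?_
    have e2 : ((n : ℤ)) + (j : ℤ) = ((n + j : ℕ) : ℤ) := by push_cast; ring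
    rw [e2]
    exact h1.add _ _ _ (hmul j _ (p2 _)) (hsec _ _)

/-- monomials -/
private theorem vg4_monomial (ε : Cocycle A p) (h1 : st_VG1 ι) (h2 : st_VG2 ε) (h3 : st_VG3 ε)
    (ha1 : st_HA1 ι) (h6 : st_VG6 ι) (c : ℂ) : ∀ (a : ℕ) (m : ι →₀ ℕ), m.degree = a →
    vg4_Good ε a (monomial m c) := by
  intro a
  induction a with
  | zero =>
    intro m hm
    rw [Finsupp.degree_eq_zero_iff] at hm
    subst hm
    exact vg4_C ε h1 h2 ha1 c
  | succ a ih =>
    intro m hm
    obtain ⟨i, hi⟩ : ∃ i, m i ≠ 0 := by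
      by_contra hcon
      push Not at hcon
      have : m = 0 := Finsupp.ext hcon
      rw [this, map_zero] at hm
      omega
    obtain ⟨m', hm'⟩ : ∃ m', m = Finsupp.single i 1 + m' := by
      refine ⟨m - Finsupp.single i 1, ?_⟩
      rw [add_comm]
      refine (tsub_add_cancel_of_le ?_).symm
      rw [Finsupp.single_le_iff]
      omega
    have hd : m'.degree = a := by
      rw [hm', map_add, Finsupp.degree_single] at hm
      omega
    rw [hm', monomial_single_add, pow_one]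
    refine vg4_X ε h1 h2 h3 ha1 h6 i ?_ (ih m' hd)
    exact isHomogeneous_monomial c hd

theorem VG4 (ε : Cocycle A p) (h1 : st_VG1 ι) (h2 : st_VG2 ε) (h3 : st_VG3 ε) (ha1 : st_HA1 ι) (h6 : st_VG6 ι) :
    st_VG4 ε := by
  have key : ∀ (a : ℕ) (P : MvPolynomial ι ℂ), P.IsHomogeneous a → vg4_Good ε a P := by
    intro a P hP
    rw [P.as_sum]
    refine vg4_sum ε h1 h2 ha1 _ _ fun m hm => ?_
    refine vg4_monomial ε h1 h2 h3 ha1 h6 _ a m ?_
    have h := hP (mem_support_iff.mp hm)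
    rw [← h, Finsupp.degree_eq_weight_one]
    rfl
  exact ⟨fun a b P g k hP hg => (key a P hP b g hg).1 k,
    fun a b P g n hP hg => (key a P hP b g hg).2 n⟩

end

end WPE
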