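import Pool.Agent.WPE.VGD
import Pool.Agent.WPQ.VA4

/-! [VG5] The space V^G. -/

namespace WPE

open WPQ MvPolynomial

noncomputable section

variable {ι : Type} [Fintype ι] [DecidableEq ι] {A : Matrix ι ι ℤ} {p : ℕ}

/-- the zero modes of `e^{b_j}` on `M(1)` -/
private theorem vg5_exp (ε : Cocycle A p) (j : ι) (f : Fock ι) :
    expMode ε (Pi.single j 1) 0 (Finsupp.single 0 f) =
      Finsupp.single (Pi.single j 1)
        (((ε.ε (Pi.single j 1) 0 : ℤ) : ℂ) • vop A p (bb j) (-1) f) := by
  have h1 : toC (Pi.single j 1 : ι → ℤ) = bb j := by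
    funext i
    unfold toC bb
    by_cases hij : i = j
    · subst hij
      simp
    · simp [Pi.single_eq_of_ne hij]
  have h2 : formZ A p (Pi.single j 1) 0 = 0 := by
    unfold formZ
    simp
  unfold expMode
  rw [Finsupp.lsum_single, LinearMap.comp_apply, LinearMap.smul_apply, h1, h2]
  simp

private theorem vg5_unit (ε : Cocycle A p) (j : ι) :
    ((ε.ε (Pi.single j 1) 0 : ℤ) : ℂ) ≠ 0 := by
  have h := (ε.ε (Pi.single j 1) 0).ne_zero
  exact_mod_cast h

private theorem vg5_wk (ε : Cocycle A p) (v : VL ι) :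
    v ∈ Wk ε ↔ ∃ f ∈ KK A p, v = Finsupp.single 0 f := by
  have hW : ∀ f : Fock ι, Finsupp.single 0 f ∈ W A p ↔
      ∀ j, vop A p (Pi.single j (-(p : ℂ)⁻¹)) (-1) f = 0 := by
    intro f
    rw [vp1_single_iff]
    refine forall_congr' fun j => ?_
    have : pr A j 0 - 1 = -1 := by simp [pr]
    rw [this]
  constructor
  · rintro ⟨h1, h2, h3⟩
    have hv : v = Finsupp.single 0 (v 0) := by
      ext1 γ
      by_cases hγ : γ = 0
      · subst hγ
        rw [Finsupp.single_eq_same]
      · rw [h2 γ hγ, Finsupp.single_eq_of_ne hγ]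
    refine ⟨v 0, ⟨?_, ?_⟩, hv⟩
    · rw [hv] at h1
      exact (hW _).1 h1
    · intro j
      have h4 := h3 j
      rw [hv, vg5_exp, Finsupp.single_eq_zero, smul_eq_zero] at h4
      exact h4.resolve_left (vg5_unit ε j)
  · rintro ⟨f, ⟨h1, h2⟩, rfl⟩
    refine ⟨(hW f).2 h1, fun γ hγ => Finsupp.single_eq_of_ne hγ, fun j => ?_⟩
    rw [vg5_exp, h2 j, smul_zero, Finsupp.single_zero]

theorem VG5 (hA : IsADE A) (hp : 2 ≤ p) (ε : Cocycle A p) : st_VG5 ε where
  wk := vg5_wk ε
  md_mem := by
    intro u hu g hg n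
    have hp1 : 1 ≤ p := by omega
    have hu' : (Finsupp.single 0 u : VL ι) ∈ Wk ε := (vg5_wk ε _).2 ⟨u, hu, rfl⟩
    have hg' : (Finsupp.single 0 g : VL ι) ∈ Wk ε := (vg5_wk ε _).2 ⟨g, hg, rfl⟩
    have hs : ∀ f : Fock ι, (Finsupp.single 0 f : VL ι) ∈ Finsupp.supported (Fock ι) ℂ
        ({0} : Set (ι → ℤ)) := fun f => Finsupp.single_mem_supported ℂ f (Set.mem_singleton 0)
    have hc := mode_charge hA hp1 ε 0 0 n _ _ (hs u) (hs g)
    have hmem : mode ε (Finsupp.single 0 u) n (Finsupp.single 0 g) ∈ Wk ε := by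
      refine ⟨W_closed hA hp ε _ _ hu'.1 hg'.1 n, ?_, ?_⟩
      · intro γ hγ
        rw [add_zero] at hc
        by_contra hne
        exact hγ (hc (Finsupp.mem_support_iff.2 hne))
      · intro j
        obtain ⟨M, hM⟩ := mode_trunc hA hp1 ε (Finsupp.single (Pi.single j 1) 1)
          (Finsupp.single 0 u)
        have h1 := mode_comm hA hp1 ε (Finsupp.single (Pi.single j 1) 1) (Finsupp.single 0 u) M
          (fun k hk => hM k (by exact_mod_cast hk)) 0 n
        have h2 := LinearMap.congr_fun h1 (Finsupp.single 0 g)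
        rw [mode_single hA hp1] at h2
        have h3 : (∑ k ∈ Finset.range M, ((Ring.choose (0 : ℤ) k : ℤ) : ℂ) •
            mode ε (expMode ε (Pi.single j 1) k (Finsupp.single 0 u)) (0 + n - k)) = 0 := by
          refine Finset.sum_eq_zero fun k _ => ?_
          rcases Nat.eq_zero_or_pos k with rfl | hk
          · have h4 := hu'.2.2 j
            rw [Nat.cast_zero, h4]
            rw [va3_mode_zero hA hp1, smul_zero]
          · rw [Ring.choose_zero_pos ℤ hk]
            simp
        rw [h3, LinearMap.sub_apply, LinearMap.comp_apply, LinearMap.comp_apply, hg'.2.2 j,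
          map_zero, sub_zero] at h2
        exact h2
    obtain ⟨f, hf, hff⟩ := (vg5_wk ε _).1 hmem
    have h6 : md ε u n g = f := by
      change (mode ε (Finsupp.single 0 u) n (Finsupp.single 0 g)) 0 = f
      rw [hff, Finsupp.single_eq_same]
    rw [h6]
    exact hf
  one_mem := by
    constructor
    · intro j
      rw [vop_one]
      simp [expCoeffZ]
    · intro j
      rw [vop_one]
      simp [expCoeffZ]
  comp := by
    have key : ∀ (ν : ι → ℂ) (f : Fock ι) (n : ℕ), vop A p ν (-1) f = 0 →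
        vop A p ν (-1) (weightedHomogeneousComponent (wF (ι := ι)) n f) = 0 := by
      intro ν f n hf
      rcases Nat.eq_zero_or_pos n with rfl | hn
      · refine vop_eq_zero A p ν (-1) _ 0 ?_ (by norm_num)
        exact weightedHomogeneousComponent_isWeightedHomogeneous _ _
      · rw [← vp2_comp_vop ν (-1) n (n - 1) (by omega) f, hf, map_zero]
    intro f hf n
    exact ⟨fun j => key _ f n (hf.1 j), fun j => key _ f n (hf.2 j)⟩
  wt := by
    intro a b c u g n hu hg hc
    have hp1 : 1 ≤ p := by omega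
    have h1 := mode_Vn hA hp1 ε a b n _ _
      (single_mem_Vn (A := A) (p := p) 0 u a hu a (by rw [pv2_wt0, add_zero]))
      (single_mem_Vn (A := A) (p := p) 0 g b hg b (by rw [pv2_wt0, add_zero]))
    change FH ((mode ε (Finsupp.single 0 u) n (Finsupp.single 0 g)) 0) c
    rcases Vn_comp _ _ h1 0 with h2 | ⟨d, hd, hd2⟩
    · rw [h2]
      exact isWeightedHomogeneous_zero _ _ _
    · rw [pv2_wt0] at hd2
      have : d = c := by omega
      rwa [this] at hd

end

end WPE
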