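import Pool.Agent.WPE.VGD

/-! [VG6] Jets of homogeneous polynomials. -/

namespace WPE

open WPQ MvPolynomial

noncomputable section

variable {ι : Type} [Fintype ι] [DecidableEq ι] {A : Matrix ι ι ℤ} {p : ℕ}

/-- the statement for one polynomial -/
private def vg6_Q (a : ℕ) (P : MvPolynomial ι ℂ) : Prop :=
  ∀ k : ℕ, (jet k P : Fock ι).IsHomogeneous a ∧ FH (jet k P : Fock ι) (a + k)

/-- jets of a monomial -/
private theorem vg6_monomial (ha1 : st_HA1 ι) (c : ℂ) : ∀ (a : ℕ) (m : ι →₀ ℕ), m.degree = a →
    vg6_Q a (monomial m c) := by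
  intro a
  induction a with
  | zero =>
    intro m hm
    rw [Finsupp.degree_eq_zero_iff] at hm
    subst hm
    intro k
    have h := ha1.C_ c k
    have e : (monomial 0 c : MvPolynomial ι ℂ) = C c := rfl
    rw [e, h]
    by_cases hk : k = 0
    · subst hk
      rw [if_pos rfl]
      exact ⟨isHomogeneous_C _ _, isWeightedHomogeneous_C _ _⟩
    · rw [if_neg hk]
      exact ⟨isHomogeneous_zero _ _ _, isWeightedHomogeneous_zero _ _ _⟩
  | succ a ih =>
    intro m hm
    obtain ⟨i, hi⟩ : ∃ i, m i ≠ 0 := by
      by_contra hcon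
      push Not at hcon
      have : m = 0 := Finsupp.ext hcon
      rw [this, map_zero] at hm
      omega
    obtain ⟨m', hm'⟩ : ∃ m', m = Finsupp.single i 1 + m' := by
      refine ⟨m - Finsupp.single i 1, ?_⟩
      rw [add_comm]
      refine (tsub_add_cancel_of_le ?_).symm
      rw [Finsupp.single_le_iff]
      omega
    have hd : m'.degree = a := by
      rw [hm', map_add, Finsupp.degree_single] at hm
      omega
    intro k
    rw [hm', monomial_single_add, pow_one, ha1.mul]
    have hq := ih m' hd
    refine ⟨?_, ?_⟩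
    · refine IsHomogeneous.sum _ _ _ fun j _ => ?_
      rw [ha1.X_]
      have h1 := (isHomogeneous_C (ι × ℕ) ((j : ℂ) + 1)).mul (isHomogeneous_X ℂ (i, j))
      have h2 := h1.mul (hq (k - j)).1
      rw [show a + 1 = 0 + 1 + a by omega]
      exact h2
    · refine Submodule.sum_mem (weightedHomogeneousSubmodule ℂ (wF (ι := ι)) (a + 1 + k))
        fun j hj => ?_
      rw [Finset.mem_range] at hj
      rw [ha1.X_]
      have h1 : FH (C ((j : ℂ) + 1) * X (i, j) : Fock ι) (0 + (j + 1)) :=
        (isWeightedHomogeneous_C _ _).mul (isWeightedHomogeneous_X ℂ _ (i, j))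
      have h2 := h1.mul (hq (k - j)).2
      have e : a + 1 + k = 0 + (j + 1) + (a + (k - j)) := by omega
      rw [mem_weightedHomogeneousSubmodule, e]
      exact h2

/-- jets of a homogeneous polynomial -/
private theorem vg6_jet (ha1 : st_HA1 ι) (a : ℕ) (P : MvPolynomial ι ℂ) (hP : P.IsHomogeneous a) :
    vg6_Q a P := by
  have h0 : ∀ k, jet k (0 : MvPolynomial ι ℂ) = (0 : Fock ι) := by
    intro k
    have h := ha1.C_ 0 k
    rw [C_0] at h
    rw [h, C_0, ite_self]
  have hsum : ∀ s : Finset (ι →₀ ℕ), (∀ m ∈ s, vg6_Q a (monomial m (coeff m P))) →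
      vg6_Q a (∑ m ∈ s, monomial m (coeff m P)) := by
    classical
    intro s
    induction s using Finset.induction_on with
    | empty =>
      intro _ k
      rw [Finset.sum_empty, h0]
      exact ⟨isHomogeneous_zero _ _ _, isWeightedHomogeneous_zero _ _ _⟩
    | insert x s hx ih =>
      intro h k
      rw [Finset.sum_insert hx, ha1.add]
      obtain ⟨a1, a2⟩ := h x (Finset.mem_insert_self _ _) k
      obtain ⟨b1, b2⟩ := ih (fun y hy => h y (Finset.mem_insert_of_mem hy)) k
      exact ⟨a1.add b1, a2.add b2⟩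
  rw [P.as_sum]
  refine hsum _ fun m hm => ?_
  refine vg6_monomial ha1 _ a m ?_
  have h := hP (mem_support_iff.mp hm)
  rw [← h, Finsupp.degree_eq_weight_one]
  rfl

/-- products of jets -/
private theorem vg6_pj (ha1 : st_HA1 ι) (P : ι → MvPolynomial ι ℂ) (d : ι → ℕ)
    (hP : ∀ i, (P i).IsHomogeneous (d i)) (L : List (ι × ℕ)) :
    (pj P L).IsHomogeneous (dgL d L) ∧ FH (pj P L) (wtL d L) := by
  induction L with
  | nil => exact ⟨isHomogeneous_one _ _, isWeightedHomogeneous_one _ _⟩
  | cons x L ih =>
    have e1 : pj P (x :: L) = jet x.2 (P x.1) * pj P L := by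
      unfold pj
      rw [List.map_cons, List.prod_cons]
    have e2 : dgL d (x :: L) = d x.1 + dgL d L := by
      unfold dgL
      rw [List.map_cons, List.sum_cons]
    have e3 : wtL d (x :: L) = d x.1 + x.2 + wtL d L := by
      unfold wtL
      rw [List.map_cons, List.sum_cons]
    rw [e1, e2, e3]
    obtain ⟨h1, h2⟩ := vg6_jet ha1 (d x.1) (P x.1) (hP x.1) x.2
    exact ⟨h1.mul ih.1, h2.mul ih.2⟩

/-- a list of jets is a product of jets -/
private theorem vg6_list (P : ι → MvPolynomial ι ℂ) (l : List (Fock ι))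
    (hl : ∀ y ∈ l, y ∈ {f : Fock ι | ∃ (k : ℕ) (i : ι), f = jet k (P i)}) :
    ∃ L, l.prod = pj P L := by
  induction l with
  | nil => exact ⟨[], rfl⟩
  | cons y l ih =>
    obtain ⟨k, i, hy⟩ := hl y List.mem_cons_self
    obtain ⟨L, hL⟩ := ih fun z hz => hl z (List.mem_cons_of_mem _ hz)
    refine ⟨(i, k) :: L, ?_⟩
    rw [List.prod_cons, hL, hy]
    unfold pj
    rw [List.map_cons, List.prod_cons]

theorem VG6 (ha1 : st_HA1 ι) : st_VG6 ι := by
  refine ⟨fun P a k hP => (vg6_jet ha1 a P hP k).1, fun P a k hP => (vg6_jet ha1 a P hP k).2, ?_,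
    fun P d hP L => (vg6_pj ha1 P d hP L).1, fun P d hP L => (vg6_pj ha1 P d hP L).2, ?_⟩
  · intro P a hP
    rw [← ha1.zero]
    exact (vg6_jet ha1 a P hP 0).1
  · intro P d hP f D n hf hD hn
    set T := Submodule.span ℂ {g : Fock ι | ∃ L, dgL d L = D ∧ wtL d L = n ∧ g = pj P L} with hT
    have hf' : f ∈ Submodule.span ℂ (Submonoid.closure
        {f : Fock ι | ∃ (k : ℕ) (i : ι), f = jet k (P i)} : Set (Fock ι)) := by
      rw [← Algebra.adjoin_eq_span]
      exact hf
    have key : ∀ g ∈ Submodule.span ℂ (Submonoid.closure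
        {f : Fock ι | ∃ (k : ℕ) (i : ι), f = jet k (P i)} : Set (Fock ι)),
        homogeneousComponent D (weightedHomogeneousComponent (wF (ι := ι)) n g) ∈ T := by
      intro g hg
      induction hg using Submodule.span_induction with
      | mem x hx =>
        obtain ⟨l, hl, rfl⟩ := Submonoid.exists_list_of_mem_closure hx
        obtain ⟨L, hL⟩ := vg6_list P l hl
        rw [hL]
        obtain ⟨h1, h2⟩ := vg6_pj ha1 P d hP L
        by_cases hw : n = wtL d L
        · rw [hw, h2.weightedHomogeneousComponent_same,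
            homogeneousComponent_of_mem ((mem_homogeneousSubmodule _ _).mpr h1)]
          by_cases hd : D = dgL d L
          · rw [if_pos hd]
            exact Submodule.subset_span ⟨L, hd.symm, hw.symm, rfl⟩
          · rw [if_neg hd]
            exact T.zero_mem
        · rw [h2.weightedHomogeneousComponent_ne n hw, map_zero]
          exact T.zero_mem
      | zero =>
        rw [map_zero, map_zero]
        exact T.zero_mem
      | add x y _ _ hx hy =>
        rw [map_add, map_add]
        exact T.add_mem hx hy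
      | smul c x _ hx =>
        rw [map_smul, map_smul]
        exact T.smul_mem c hx
    have h := key f hf'
    rw [IsWeightedHomogeneous.weightedHomogeneousComponent_same hn,
      homogeneousComponent_of_mem ((mem_homogeneousSubmodule _ _).mpr hD), if_pos rfl] at h
    exact h

end

end WPE
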