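import Pool.Agent.WPE.VGD

/-! [VG7] Words. -/

namespace WPE

open WPQ MvPolynomial

noncomputable section

variable {ι : Type} [Fintype ι] [DecidableEq ι] {A : Matrix ι ι ℤ} {p : ℕ}

/-- The symbol of a word, modulo lower degree. -/
private theorem vg7_top (ε : Cocycle A p) (h1 : st_VG1 ι) (h2 : st_VG2 ε) (h3 : st_VG3 ε)
    (h4 : st_VG4 ε) (h6 : st_VG6 ι) (w : ι → Fock ι) (P : ι → MvPolynomial ι ℂ) (d : ι → ℕ)
    (hG : Gens A p w P d) (L : List (ι × ℕ)) : DLt (dgL d L) (wo ε w L - pj P L) := by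
  induction L with
  | nil =>
    have e1 : wo ε w [] - pj P [] = 0 := by
      change (1 : Fock ι) - 1 = 0
      exact sub_self _
    rw [e1]
    exact h1.z0 _
  | cons x L ih =>
    have ed : dgL d (x :: L) = d x.1 + dgL d L := by
      rw [dgL, List.map_cons, List.sum_cons]
      rfl
    have ep : pj P (x :: L) = jet x.2 (P x.1) * pj P L := by
      rw [pj, List.map_cons, List.prod_cons]
      rfl
    have ew : wo ε w (x :: L) = md ε (w x.1) (-1 - (x.2 : ℤ)) (wo ε w L) := rfl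
    have hg : DLt (dgL d L + 1) (wo ε w L) := by
      have e2 : wo ε w L = (wo ε w L - pj P L) + pj P L := (sub_add_cancel _ _).symm
      rw [e2]
      exact h1.add _ _ _ (h1.mono _ _ _ (Nat.le_succ _) ih) (h1.hom _ _ (h6.pj_hom P d hG.hom L))
    obtain ⟨a', ha'⟩ : ∃ a', d x.1 = a' + 1 := ⟨d x.1 - 1, by have := hG.dpos x.1; omega⟩
    have hr : DLt (a' + 1) (w x.1 - inc0 (P x.1)) := by
      rw [← ha']
      exact hG.top x.1
    have t1 := h3 a' (dgL d L) _ _ (-1 - (x.2 : ℤ)) hr hg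
    have t2 := h4.neg (d x.1) (dgL d L) (P x.1) (wo ε w L) x.2 (hG.hom x.1) hg
    have t3 := h1.mul (dgL d L) (d x.1) (wo ε w L - pj P L) (jet x.2 (P x.1)) ih
      (h1.hom _ _ (h6.jet_hom (P x.1) (d x.1) x.2 (hG.hom x.1)))
    have e3 : md ε (w x.1) (-1 - (x.2 : ℤ)) =
        md ε (inc0 (P x.1)) (-1 - (x.2 : ℤ)) + md ε (w x.1 - inc0 (P x.1)) (-1 - (x.2 : ℤ)) := by
      rw [← h2.add, add_sub_cancel]
    have e4 : wo ε w (x :: L) - pj P (x :: L) =
        (md ε (w x.1 - inc0 (P x.1)) (-1 - (x.2 : ℤ)) (wo ε w L) +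
        (md ε (inc0 (P x.1)) (-1 - (x.2 : ℤ)) (wo ε w L) - jet x.2 (P x.1) * wo ε w L)) +
        (wo ε w L - pj P L) * jet x.2 (P x.1) := by
      rw [ew, ep, e3, LinearMap.add_apply]
      ring
    rw [ed, e4]
    refine h1.add _ _ _ (h1.add _ _ _ ?_ t2) ?_
    · refine h1.mono _ _ _ ?_ t1
      omega
    · refine h1.mono _ _ _ ?_ t3
      omega

theorem VG7 (ε : Cocycle A p) (h1 : st_VG1 ι) (h2 : st_VG2 ε) (h3 : st_VG3 ε) (h4 : st_VG4 ε)
    (h5 : st_VG5 ε) (h6 : st_VG6 ι) : st_VG7 ε := by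
  refine ⟨?_, ?_, ?_, ?_⟩
  · intro w P d hG L
    induction L with
    | nil => exact h5.one_mem
    | cons x L ih => exact h5.md_mem _ (hG.mem x.1) _ ih _
  · intro w P d hG L
    induction L with
    | nil => exact h6.pj_wt P d hG.hom []
    | cons x L ih =>
      refine h5.wt (d x.1) (wtL d L) _ _ _ _ (hG.wt x.1) ih ?_
      have e1 : wtL d (x :: L) = (d x.1 + x.2) + wtL d L := by
        rw [wtL, List.map_cons, List.sum_cons]
        rfl
      rw [e1]
      push_cast
      ring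
  · intro w P d hG L
    exact vg7_top ε h1 h2 h3 h4 h6 w P d hG L
  · intro w L
    induction L with
    | nil => exact Monomial.one
    | cons x L ih =>
      have e1 : (Finsupp.single 0 (wo ε w (x :: L)) : VL ι) =
          mode ε (Finsupp.single 0 (w x.1)) (-((x.2 + 1 : ℕ) : ℤ)) (Finsupp.single 0 (wo ε w L)) := by
        rw [h2.single]
        have e2 : (-((x.2 + 1 : ℕ) : ℤ)) = -1 - (x.2 : ℤ) := by
          push_cast
          ring
        rw [e2]
        rfl
      rw [e1]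
      have hm : (Finsupp.single 0 (w x.1) : VL ι) ∈
          Set.range fun i => (Finsupp.single 0 (w i) : VL ι) := ⟨x.1, rfl⟩
      exact Monomial.step _ hm _ (Nat.le_add_left 1 _) _ ih

end

end WPE
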