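import Pool.Agent.WPE.VGD

/-! [VG8] The main theorem. -/

namespace WPE

open WPQ MvPolynomial

noncomputable section

variable {ι : Type} [Fintype ι] [DecidableEq ι] {A : Matrix ι ι ℤ} {p : ℕ}

omit [Fintype ι] [DecidableEq ι] in
/-- Polynomial degree `< D + 1`: total degree at most `D`. -/
private theorem vg8_td (D : ℕ) (f : Fock ι) (h : DLt (D + 1) f) : f.totalDegree ≤ D := by
  classical
  refine Finset.sup_le fun s hs => ?_
  have e : (s.sum fun _ e => e) = s.degree := rfl
  rw [e]
  by_contra hcon
  push Not at hcon
  have h1 := congrArg (coeff s) (h s.degree hcon)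
  rw [coeff_homogeneousComponent, if_pos rfl, coeff_zero] at h1
  exact (mem_support_iff.1 hs) h1

/-- The components by degree of a weighted homogeneous element are weighted homogeneous. -/
private theorem vg8_fh (D n : ℕ) (f : Fock ι) (h : FH f n) : FH (homogeneousComponent D f) n := by
  classical
  intro s hs
  rw [coeff_homogeneousComponent] at hs
  by_cases h1 : s.degree = D
  · rw [if_pos h1] at hs
    exact h hs
  · rw [if_neg h1] at hs
    exact absurd rfl hs

theorem VG8 (ε : Cocycle A p) (h1 : st_VG1 ι) (h5 : st_VG5 ε) (h6 : st_VG6 ι) (h7 : st_VG7 ε)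
    (ha14 : st_HA14 ι) : st_VG8 ε := by
  intro w P d c hG hI hR
  -- homogeneous elements
  have key : ∀ (n D : ℕ) (f : Fock ι), DLt D f → f ∈ KK A p → FH f n →
      f ∈ Submodule.span ℂ {g | ∃ L, g = wo ε w L} := by
    intro n D
    induction D with
    | zero =>
      intro f hf _ _
      rw [h1.zero f hf]
      exact Submodule.zero_mem _
    | succ D ih =>
      intro f hf hK hn
      by_cases hg : homogeneousComponent D f = 0
      · refine ih f (fun m hm => ?_) hK hn
        rcases Nat.eq_or_lt_of_le hm with h | h
        · rw [← h]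
          exact hg
        · exact hf m h
      · have htd : f.totalDegree = D := by
          refine le_antisymm (vg8_td D f hf) ?_
          by_contra hcon
          push Not at hcon
          exact hg (homogeneousComponent_eq_zero D f hcon)
        have hBJ : ∀ j, homogeneousComponent D f ∈ BJ A j := by
          intro j
          have h := hR j f n hn (hK.2 j)
          rwa [htd] at h
        have hBP := ha14 A P d c hI _ hBJ
        have hsp := h6.span P d hG.hom (homogeneousComponent D f) D n hBP
          (homogeneousComponent_isHomogeneous D f) (vg8_fh D n f hn)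
        have hex : ∀ g ∈ Submodule.span ℂ {g | ∃ L, dgL d L = D ∧ wtL d L = n ∧ g = pj P L},
            ∃ f' ∈ Submodule.span ℂ {g | ∃ L, g = wo ε w L}, f' ∈ KK A p ∧ FH f' n ∧ DLt D (f' - g) := by
          intro g hg
          induction hg using Submodule.span_induction with
          | mem x hx =>
            obtain ⟨L, hL1, hL2, rfl⟩ := hx
            refine ⟨wo ε w L, Submodule.subset_span ⟨L, rfl⟩, h7.mem w P d hG L, ?_, ?_⟩
            · have h := h7.wt w P d hG L
              rwa [hL2] at h
            · have h := h7.top w P d hG L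
              rwa [hL1] at h
          | zero =>
            refine ⟨0, Submodule.zero_mem _, Submodule.zero_mem _, isWeightedHomogeneous_zero _ _ _, ?_⟩
            rw [sub_zero]
            exact h1.z0 D
          | add x y _ _ hx hy =>
            obtain ⟨a, ha1, ha2, ha3, ha4⟩ := hx
            obtain ⟨b, hb1, hb2, hb3, hb4⟩ := hy
            refine ⟨a + b, Submodule.add_mem _ ha1 hb1, Submodule.add_mem _ ha2 hb2, ha3.add hb3, ?_⟩
            have e : a + b - (x + y) = (a - x) + (b - y) := by ring
            rw [e]
            exact h1.add D _ _ ha4 hb4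
          | smul r x _ hx =>
            obtain ⟨a, ha1, ha2, ha3, ha4⟩ := hx
            refine ⟨r • a, Submodule.smul_mem _ _ ha1, Submodule.smul_mem _ _ ha2, ?_, ?_⟩
            · exact (weightedHomogeneousSubmodule ℂ (wF (ι := ι)) n).smul_mem r ha3
            · rw [← smul_sub]
              exact h1.smul D r _ ha4
        obtain ⟨f', hf1, hf2, hf3, hf4⟩ := hex _ hsp
        have h8 := ih (f - f') (by
          have e : f - f' = (f - homogeneousComponent D f) - (f' - homogeneousComponent D f) := by ring
          rw [e]
          exact h1.sub D _ _ (h1.step D f hf) hf4) (Submodule.sub_mem _ hK hf2)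
          ((weightedHomogeneousSubmodule ℂ (wF (ι := ι)) n).sub_mem hn hf3)
        have e : f = (f - f') + f' := by ring
        rw [e]
        exact Submodule.add_mem _ h8 hf1
  have hall : ∀ f ∈ KK A p, f ∈ Submodule.span ℂ {g | ∃ L, g = wo ε w L} := by
    intro f hf
    rw [← sum_weightedHomogeneousComponent (wF (ι := ι)) f]
    refine finsum_induction (p := fun x => x ∈ Submodule.span ℂ {g | ∃ L, g = wo ε w L})
      (Submodule.zero_mem _) (fun x y hx hy => Submodule.add_mem _ hx hy) fun n => ?_
    obtain ⟨D, hD⟩ := h1.ex (weightedHomogeneousComponent (wF (ι := ι)) n f)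
    exact key n D _ hD (h5.comp f hf n) (weightedHomogeneousComponent_isWeightedHomogeneous n f)
  refine ⟨hall, fun v hv => ?_⟩
  obtain ⟨f, hf, rfl⟩ := (h5.wk v).1 hv
  have h2 : Submodule.span ℂ {g | ∃ L, g = wo ε w L} ≤ Submodule.comap (Finsupp.lsingle 0)
      (Submodule.span ℂ {v | Monomial ε (Set.range fun i => (Finsupp.single 0 (w i) : VL ι)) v}) := by
    rw [Submodule.span_le]
    rintro g ⟨L, rfl⟩
    exact Submodule.subset_span (h7.monomial w L)
  exact h2 (hall f hf)

end

end WPE
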