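import Pool.Agent.WPE.VGD

/-! [VG9] Invariance of the symbols. -/

namespace WPE

open WPQ MvPolynomial

noncomputable section

variable {ι : Type} [Fintype ι] [DecidableEq ι] {A : Matrix ι ι ℤ} {p : ℕ}

omit [Fintype ι] [DecidableEq ι] in
/-- The total degree from the homogeneous components. -/
private theorem vg9_deg {f : Fock ι} {D : ℕ} (h0 : homogeneousComponent D f ≠ 0)
    (h : ∀ m, D < m → homogeneousComponent m f = 0) : f.totalDegree = D := by
  apply le_antisymm
  · unfold MvPolynomial.totalDegree
    refine Finset.sup_le fun s hs => ?_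
    by_contra hne
    rw [not_le] at hne
    have h1 : coeff s (homogeneousComponent s.degree f) = coeff s f := by
      rw [coeff_homogeneousComponent, if_pos rfl]
    have hs' : s.degree = s.sum fun _ e => e := rfl
    rw [h _ (by rw [hs']; exact hne), coeff_zero] at h1
    exact (mem_support_iff.1 hs) h1.symm
  · by_contra hne
    rw [not_le] at hne
    exact h0 (homogeneousComponent_eq_zero _ _ hne)

theorem VG9 (hA : IsADE A) (h1 : st_VG1 ι) (h6 : st_VG6 ι) (ha6 : st_HA6 ι) : st_VG9 A p := by
  intro w P d hG hR i j
  by_cases hP : P i = 0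
  · rw [hP, map_zero]
  have hinj : Function.Injective (inc0 : MvPolynomial ι ℂ →ₐ[ℂ] Fock ι) := by
    apply rename_injective
    intro a b hab
    exact (Prod.ext_iff.1 hab).1
  have hP0 : inc0 (P i) ≠ 0 := by
    intro h
    apply hP
    apply hinj
    rw [h, map_zero]
  have hhom := h6.inc_hom (P i) (d i) (hG.hom i)
  have hcomp : ∀ m, d i ≤ m → homogeneousComponent m (w i) = homogeneousComponent m (inc0 (P i)) := by
    intro m hm
    have h2 := hG.top i m hm
    rwa [map_sub, sub_eq_zero] at h2
  have h3 : homogeneousComponent (d i) (w i) = inc0 (P i) := by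
    rw [hcomp _ le_rfl, homogeneousComponent_of_mem hhom, if_pos rfl]
  have h4 : ∀ m, d i < m → homogeneousComponent m (w i) = 0 := by
    intro m hm
    rw [hcomp _ hm.le, homogeneousComponent_of_mem hhom, if_neg hm.ne']
  have h5 : (w i).totalDegree = d i := vg9_deg (by rw [h3]; exact hP0) h4
  have h7 := hR j (w i) (d i) (hG.wt i) ((hG.mem i).2 j)
  rw [h5, h3] at h7
  exact ha6.of_BJ A hA j (P i) h7

end

end WPE
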