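import Pool.Agent.WPE.R_VG1
import Pool.Agent.WPE.R_VG10
import Pool.Agent.WPE.R_VG2
import Pool.Agent.WPE.R_VG3
import Pool.Agent.WPE.R_VG4
import Pool.Agent.WPE.R_VG5
import Pool.Agent.WPE.R_VG6
import Pool.Agent.WPE.R_VG7
import Pool.Agent.WPE.R_VG8
import Pool.Agent.WPE.R_VG9
import Pool.Agent.WPQ.HAM
import Pool.Agent.WPQ.VR6

/-!
# [WPE-VG] Generation of `V^G` (assembly)
-/

namespace WPE

open WPQ MvPolynomial

noncomputable section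

variable {ι : Type} [Fintype ι] [DecidableEq ι] {A : Matrix ι ι ℤ} {p : ℕ}

theorem vg_1 : st_VG1 ι := VG1

theorem vg_6 : st_VG6 ι := VG6 (HA1 ι)

theorem vg_2 (hA : IsADE A) (hp : 1 ≤ p) (ε : Cocycle A p) : st_VG2 ε := VG2 hA hp ε vg_1

theorem vg_3 (hA : IsADE A) (hp : 1 ≤ p) (ε : Cocycle A p) : st_VG3 ε := VG3 ε vg_1 (vg_2 hA hp ε)

theorem vg_4 (hA : IsADE A) (hp : 1 ≤ p) (ε : Cocycle A p) : st_VG4 ε :=
  VG4 ε vg_1 (vg_2 hA hp ε) (vg_3 hA hp ε) (HA1 ι) vg_6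

theorem vg_5 (hA : IsADE A) (hp : 2 ≤ p) (ε : Cocycle A p) : st_VG5 ε := VG5 hA hp ε

theorem vg_7 (hA : IsADE A) (hp : 2 ≤ p) (ε : Cocycle A p) : st_VG7 ε :=
  VG7 ε vg_1 (vg_2 hA (by omega) ε) (vg_3 hA (by omega) ε) (vg_4 hA (by omega) ε) (vg_5 hA hp ε) vg_6

theorem vg_rank (hA : IsADE A) (hp : 1 ≤ p) : RankOne A p :=
  fun j f m hf hE => vr_symbol hA hp j f m hf hE

/-- The symbols `P_i` are invariant under the Weyl group. -/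
theorem vg_inv (hA : IsADE A) (hp : 1 ≤ p) (w : ι → Fock ι) (P : ι → MvPolynomial ι ℂ) (d : ι → ℕ)
    (hG : Gens A p w P d) : ∀ i j, rfS A j (P i) = P i :=
  VG9 hA vg_1 vg_6 (HA6 ι) w P d hG (vg_rank hA hp)

/-- `V^G` is spanned by the words in the modes of the `w_i`. -/
theorem vg_span (hp : 2 ≤ p) (ε : Cocycle A p) (w : ι → Fock ι)
    (P : ι → MvPolynomial ι ℂ) (d : ι → ℕ) (c : ℂ) (hG : Gens A p w P d) (hI : Inv A P d c) :
    ∀ f ∈ KK A p, f ∈ Submodule.span ℂ {g | ∃ L, g = wo ε w L} :=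
  (VG8 ε vg_1 (vg_5 hI.ade hp ε) vg_6 (vg_7 hI.ade hp ε) (HA14 ι) w P d c hG hI
    (vg_rank hI.ade (by omega))).1

/-- `Wk` is strongly generated by the `w_i`. -/
theorem vg_main (hp : 2 ≤ p) (ε : Cocycle A p) (w : ι → Fock ι)
    (P : ι → MvPolynomial ι ℂ) (d : ι → ℕ) (c : ℂ) (hG : Gens A p w P d) (hI : Inv A P d c) :
    (Wk ε : Set (VL ι)) ⊆ Submodule.span ℂ
      {v | Monomial ε (Set.range fun i => (Finsupp.single 0 (w i) : VL ι)) v} :=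
  (VG8 ε vg_1 (vg_5 hI.ade hp ε) vg_6 (vg_7 hI.ade hp ε) (HA14 ι) w P d c hG hI
    (vg_rank hI.ade (by omega))).2

/-- The sorted words are linearly independent. -/
theorem vg_free (hA : IsADE A) (hp : 2 ≤ p) (ε : Cocycle A p) (w : ι → Fock ι)
    (P : ι → MvPolynomial ι ℂ) (d : ι → ℕ) (hG : Gens A p w P d) (hJ : (Jac P).det ≠ 0) :
    LinearIndependent ℂ fun s : (ι × ℕ) →₀ ℕ => wo ε w (Finsupp.toMultiset s).toList :=
  VG10 ε vg_1 vg_6 (vg_7 hA hp ε) (HA4 ι) w P d hG hJ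

end

end WPE
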