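import Pool.Agent.WPE.DSD
import Pool.Agent.WPE.VGM

/-! [DS3] leading components: products and translation -/

namespace WPE

open WPQ MvPolynomial

noncomputable section

variable {ι : Type} [Fintype ι] [DecidableEq ι] {A : Matrix ι ι ℤ} {p : ℕ}

/-- The statement for one vector `u` of degree `≤ a`; `md ε u (-1 - k) 1` is the leading factor. -/
private def ds3_Q (ε : Cocycle A p) (a : ℕ) (u : Fock ι) : Prop :=
  ∀ (b : ℕ) (g : Fock ι), DLt (b + 1) g →
    (∀ k : ℕ, DLt (a + b) (md ε u (-1 - (k : ℤ)) g - md ε u (-1 - (k : ℤ)) 1 * g)) ∧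
    (∀ n : ℕ, DLt (a + b) (md ε u (n : ℤ) g))

private theorem ds3_md0 (ε : Cocycle A p) (h2 : st_VG2 ε) (n : ℤ) :
    md ε (0 : Fock ι) n = 0 := by
  have h := h2.smul 0 0 n
  rw [zero_smul, zero_smul] at h
  exact h

private theorem ds3_Q_zero (ε : Cocycle A p) (h1 : st_VG1 ι) (h2 : st_VG2 ε) (a : ℕ) :
    ds3_Q ε a 0 := by
  intro b g _
  refine ⟨fun k => ?_, fun n => ?_⟩
  · rw [ds3_md0 ε h2, LinearMap.zero_apply, LinearMap.zero_apply, zero_mul, sub_zero]
    exact h1.z0 _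
  · rw [ds3_md0 ε h2, LinearMap.zero_apply]
    exact h1.z0 _

private theorem ds3_Q_add (ε : Cocycle A p) (h1 : st_VG1 ι) (h2 : st_VG2 ε) (a : ℕ)
    (u v : Fock ι) (hu : ds3_Q ε a u) (hv : ds3_Q ε a v) : ds3_Q ε a (u + v) := by
  intro b g hg
  obtain ⟨p1, p2⟩ := hu b g hg
  obtain ⟨q1, q2⟩ := hv b g hg
  refine ⟨fun k => ?_, fun n => ?_⟩
  · rw [h2.add, LinearMap.add_apply, LinearMap.add_apply, add_mul, add_sub_add_comm]
    exact h1.add _ _ _ (p1 k) (q1 k)
  · rw [h2.add, LinearMap.add_apply]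
    exact h1.add _ _ _ (p2 n) (q2 n)

private theorem ds3_Q_smul (ε : Cocycle A p) (h1 : st_VG1 ι) (h2 : st_VG2 ε) (a : ℕ) (c : ℂ)
    (u : Fock ι) (hu : ds3_Q ε a u) : ds3_Q ε a (c • u) := by
  intro b g hg
  obtain ⟨p1, p2⟩ := hu b g hg
  refine ⟨fun k => ?_, fun n => ?_⟩
  · rw [h2.smul, LinearMap.smul_apply, LinearMap.smul_apply, smul_mul_assoc, ← smul_sub]
    exact h1.smul _ _ _ (p1 k)
  · rw [h2.smul, LinearMap.smul_apply]
    exact h1.smul _ _ _ (p2 n)

private theorem ds3_Q_sum (ε : Cocycle A p) (h1 : st_VG1 ι) (h2 : st_VG2 ε) (a : ℕ) {κ : Type}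
    (s : Finset κ) (F : κ → Fock ι) (hF : ∀ x ∈ s, ds3_Q ε a (F x)) :
    ds3_Q ε a (∑ x ∈ s, F x) := by
  classical
  induction s using Finset.induction_on with
  | empty =>
    rw [Finset.sum_empty]
    exact ds3_Q_zero ε h1 h2 a
  | insert x s hx ih =>
    rw [Finset.sum_insert hx]
    exact ds3_Q_add ε h1 h2 a _ _ (hF x (Finset.mem_insert_self x s))
      (ih fun y hy => hF y (Finset.mem_insert_of_mem hy))

private theorem ds3_Q_mono (ε : Cocycle A p) (h1 : st_VG1 ι) (a a' : ℕ) (haa : a ≤ a')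
    (u : Fock ι) (hu : ds3_Q ε a u) : ds3_Q ε a' u := fun b g hg =>
  ⟨fun k => h1.mono _ _ _ (by omega) ((hu b g hg).1 k),
    fun n => h1.mono _ _ _ (by omega) ((hu b g hg).2 n)⟩

private theorem ds3_Q_one (ε : Cocycle A p) (h1 : st_VG1 ι) (h2 : st_VG2 ε) :
    ds3_Q ε 0 (1 : Fock ι) := by
  intro b g _
  refine ⟨fun k => ?_, fun n => ?_⟩
  · rw [h2.one]
    split_ifs
    · rw [LinearMap.id_apply, LinearMap.id_apply, one_mul, sub_self]
      exact h1.z0 _
    · rw [LinearMap.zero_apply, LinearMap.zero_apply, zero_mul, sub_zero]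
      exact h1.z0 _
  · have e : ¬ (((n : ℕ) : ℤ) = -1) := by omega
    rw [h2.one, if_neg e, LinearMap.zero_apply]
    exact h1.z0 _

private theorem ds3_Q_dT (ε : Cocycle A p) (h1 : st_VG1 ι) (h2 : st_VG2 ε) (a : ℕ)
    (u : Fock ι) (hu : ds3_Q ε a u) : ds3_Q ε a (dT ι u) := by
  intro b g hg
  obtain ⟨p1, p2⟩ := hu b g hg
  refine ⟨fun k => ?_, fun n => ?_⟩
  · rw [h2.der, LinearMap.smul_apply, LinearMap.smul_apply, smul_mul_assoc, ← smul_sub]
    have e : (-1 - (k : ℤ)) - 1 = -1 - ((k + 1 : ℕ) : ℤ) := by push_cast; ring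
    rw [e]
    exact h1.smul _ _ _ (p1 (k + 1))
  · rw [h2.der, LinearMap.smul_apply]
    cases n with
    | zero =>
      have e : (-(((0 : ℕ) : ℤ) : ℂ)) = 0 := by norm_num
      rw [e, zero_smul]
      exact h1.z0 _
    | succ n =>
      have e : (((n + 1 : ℕ) : ℤ)) - 1 = (n : ℤ) := by push_cast; ring
      rw [e]
      exact h1.smul _ _ _ (p2 n)

/-- Multiplication by `X (i,0)`. -/
private theorem ds3_Q_X0 (ε : Cocycle A p) (h1 : st_VG1 ι) (h2 : st_VG2 ε) (h3 : st_VG3 ε) (a : ℕ)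
    (i : ι) (u : Fock ι) (hd : DLt (a + 1) u) (hu : ds3_Q ε a u) :
    ds3_Q ε (a + 1) (X (i, 0) * u) := by
  intro b g hg
  obtain ⟨p1, p2⟩ := hu b g hg
  have h10 : DLt (0 + 1) (1 : Fock ι) := h1.hom 0 _ (isHomogeneous_one _ _)
  obtain ⟨q1, q2⟩ := hu 0 1 h10
  have hlin : ∀ j : ℕ, DLt (1 + 1) (C ((j : ℂ) + 1) * X (i, j) : Fock ι) := fun j =>
    h1.hom 1 _ (isHomogeneous_C_mul_X _ _)
  have hmul : ∀ (j : ℕ) (f : Fock ι), DLt (a + b) f →
      DLt (a + 1 + b) (C ((j : ℂ) + 1) * X (i, j) * f) := by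
    intro j f hf
    have h := h1.mul (a + b) 1 f _ hf (hlin j)
    have e : C ((j : ℂ) + 1) * X (i, j) * f = f * (C ((j : ℂ) + 1) * X (i, j)) := mul_comm _ _
    rw [e, show a + 1 + b = a + b + 1 by omega]
    exact h
  have hsec : ∀ (n : ℤ) (j : ℕ), DLt (a + 1 + b) (md ε u n (heis A p (bb i) (j : ℤ) 0 g)) := by
    intro n j
    have h := h2.low i b g j hg
    rcases Nat.eq_zero_or_pos b with hb | hb
    · subst hb
      rw [h1.zero _ h, map_zero]
      exact h1.z0 _
    · obtain ⟨b', rfl⟩ : ∃ b', b = b' + 1 := ⟨b - 1, by omega⟩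
      have h4 := h3 a b' u _ n hd h
      exact h1.mono _ _ _ (by omega) h4
  have hv0 : ∀ j : ℕ, heis A p (bb i) (j : ℤ) 0 (1 : Fock ι) = 0 := fun j =>
    h1.zero _ (h2.low i 0 1 j h10)
  refine ⟨fun k => ?_, fun n => ?_⟩
  · obtain ⟨M0, hM0⟩ := h2.nop i u (-1 - (k : ℤ)) g
    obtain ⟨M1, hM1⟩ := h2.nop i u (-1 - (k : ℤ)) 1
    rw [hM0 (max M0 M1) (le_max_left _ _), hM1 (max M0 M1) (le_max_right _ _), Finset.sum_mul,
      ← Finset.sum_sub_distrib]
    refine h1.sum _ ℕ _ _ fun j _ => ?_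
    rw [hv0 j, map_zero, add_zero]
    have e3 : ∀ x y z : Fock ι, C ((j : ℂ) + 1) * X (i, j) * x + y -
        C ((j : ℂ) + 1) * X (i, j) * z * g =
        C ((j : ℂ) + 1) * X (i, j) * (x - z * g) + y := by
      intro x y z
      ring
    rw [e3]
    refine h1.add _ _ _ (hmul j _ ?_) (hsec _ _)
    by_cases hj : j ≤ k
    · have e2 : (-1 - (k : ℤ)) + (j : ℤ) = -1 - ((k - j : ℕ) : ℤ) := by omega
      rw [e2]
      exact p1 (k - j)
    · have e2 : (-1 - (k : ℤ)) + (j : ℤ) = ((j - 1 - k : ℕ) : ℤ) := by omega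
      rw [e2]
      refine h1.sub _ _ _ (p2 _) ?_
      have h := h1.mul a b _ g (q2 (j - 1 - k)) hg
      exact h
  · obtain ⟨M0, hM0⟩ := h2.nop i u (n : ℤ) g
    rw [hM0 M0 le_rfl]
    refine h1.sum _ ℕ _ _ fun j _ => ?_
    have e2 : ((n : ℤ)) + (j : ℤ) = ((n + j : ℕ) : ℤ) := by push_cast; ring
    rw [e2]
    exact h1.add _ _ _ (hmul j _ (p2 _)) (hsec _ _)

/-- `dT` preserves the polynomial degree. -/
theorem ds3_dT_hom (a : ℕ) (u : Fock ι) (hu : u.IsHomogeneous a) :
    (dT ι u).IsHomogeneous a := by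
  rw [← u.support_sum_monomial_coeff, map_sum]
  refine IsHomogeneous.sum _ _ _ fun s hs => ?_
  have hdeg : s.degree = a := by
    have h5 := hu (MvPolynomial.mem_support_iff.1 hs)
    rw [Finsupp.degree_eq_weight_one]
    exact h5
  rw [dT, mkDerivation_monomial, MvPolynomial.smul_eq_C_mul, ← zero_add a]
  refine IsHomogeneous.mul (isHomogeneous_C _ _) ?_
  unfold Finsupp.sum
  refine IsHomogeneous.sum _ _ _ fun x hx => ?_
  have hx1 : 1 ≤ s x := Nat.one_le_iff_ne_zero.2 (Finsupp.mem_support_iff.1 hx)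
  have hd2 : (s - Finsupp.single x 1).degree + 1 = a := by
    have h3 : s = (s - Finsupp.single x 1) + Finsupp.single x 1 := by
      ext y
      by_cases hy : y = x
      · subst hy
        simp
        omega
      · simp [Finsupp.single_eq_of_ne hy]
    rw [← hdeg]
    conv_rhs => rw [h3]
    rw [map_add, Finsupp.degree_single]
  change IsHomogeneous ((monomial (s - Finsupp.single x 1)) ((s x : ℕ) : ℂ) *
    (((x.2 : ℂ) + 2) • (X (x.1, x.2 + 1) : Fock ι))) a
  rw [← hd2]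
  refine IsHomogeneous.mul (isHomogeneous_monomial _ rfl) ?_
  rw [MvPolynomial.smul_eq_C_mul]
  exact isHomogeneous_C_mul_X _ _

/-- `dT` raises the weight by one. -/
theorem ds3_dT_FH (n : ℕ) (u : Fock ι) (hu : FH u n) : FH (dT ι u) (n + 1) := by
  rw [← u.support_sum_monomial_coeff, map_sum]
  refine IsWeightedHomogeneous.sum _ _ _ fun s hs => ?_
  have hwt : Finsupp.weight (wF (ι := ι)) s = n := hu (MvPolynomial.mem_support_iff.1 hs)
  rw [dT, mkDerivation_monomial, MvPolynomial.smul_eq_C_mul]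
  rw [← zero_add (n + 1)]
  refine IsWeightedHomogeneous.mul (isWeightedHomogeneous_C _ _) ?_
  unfold Finsupp.sum
  refine IsWeightedHomogeneous.sum _ _ _ fun x hx => ?_
  have hx1 : 1 ≤ s x := Nat.one_le_iff_ne_zero.2 (Finsupp.mem_support_iff.1 hx)
  have hd2 : Finsupp.weight (wF (ι := ι)) (s - Finsupp.single x 1) + (x.2 + 1) = n := by
    have h3 : s = (s - Finsupp.single x 1) + Finsupp.single x 1 := by
      ext y
      by_cases hy : y = x
      · subst hy
        simp
        omega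
      · simp [Finsupp.single_eq_of_ne hy]
    rw [← hwt]
    conv_rhs => rw [h3]
    rw [map_add, Finsupp.weight_single, one_smul]
    rfl
  change IsWeightedHomogeneous (wF (ι := ι)) ((monomial (s - Finsupp.single x 1)) ((s x : ℕ) : ℂ) *
    (((x.2 : ℂ) + 2) • (X (x.1, x.2 + 1) : Fock ι))) (n + 1)
  have e : n + 1 = Finsupp.weight (wF (ι := ι)) (s - Finsupp.single x 1) + (0 + (x.2 + 1 + 1)) := by
    omega
  rw [e]
  refine IsWeightedHomogeneous.mul (isWeightedHomogeneous_monomial _ _ _ rfl) ?_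
  rw [MvPolynomial.smul_eq_C_mul]
  refine IsWeightedHomogeneous.mul (isWeightedHomogeneous_C _ _) ?_
  exact isWeightedHomogeneous_X _ _ _

/-- Multiplication by `X (i,k)`. -/
private theorem ds3_Q_X (ε : Cocycle A p) (h1 : st_VG1 ι) (h2 : st_VG2 ε) (h3 : st_VG3 ε) (a : ℕ)
    (hQ : ∀ u : Fock ι, u.IsHomogeneous a → ds3_Q ε a u) (i : ι) (k : ℕ) :
    ∀ u : Fock ι, u.IsHomogeneous a → ds3_Q ε (a + 1) (X (i, k) * u) := by
  induction k with
  | zero => exact fun u hu => ds3_Q_X0 ε h1 h2 h3 a i u (h1.hom a u hu) (hQ u hu)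
  | succ k ih =>
    intro u hu
    have hc : ((k : ℂ) + 2) ≠ 0 := by
      have : ((k + 2 : ℕ) : ℂ) ≠ 0 := Nat.cast_ne_zero.2 (by omega)
      push_cast at this
      exact this
    have e1 : dT ι (X (i, k) * u) = X (i, k) * dT ι u + ((k : ℂ) + 2) • (X (i, k + 1) * u) := by
      rw [Derivation.leibniz, smul_eq_mul, smul_eq_mul, dT, mkDerivation_X]
      rw [mul_smul_comm, mul_comm u]
    have e2 : X (i, k + 1) * u = ((k : ℂ) + 2)⁻¹ • (dT ι (X (i, k) * u) +
        (-1 : ℂ) • (X (i, k) * dT ι u)) := by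
      rw [e1, neg_one_smul, add_right_comm, add_neg_cancel, zero_add, smul_smul,
        inv_mul_cancel₀ hc, one_smul]
    rw [e2]
    exact ds3_Q_smul ε h1 h2 _ _ _ (ds3_Q_add ε h1 h2 _ _ _
      (ds3_Q_dT ε h1 h2 _ _ (ih u hu))
      (ds3_Q_smul ε h1 h2 _ _ _ (ih _ (ds3_dT_hom a u hu))))

/-- Homogeneous vectors. -/
private theorem ds3_hom (ε : Cocycle A p) (h1 : st_VG1 ι) (h2 : st_VG2 ε) (h3 : st_VG3 ε) (a : ℕ) :
    ∀ u : Fock ι, u.IsHomogeneous a → ds3_Q ε a u := by
  induction a with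
  | zero =>
    intro u hu
    have e1 : u = C (coeff 0 u) := by
      refine totalDegree_eq_zero_iff_eq_C.1 ?_
      exact Nat.le_zero.1 hu.totalDegree_le
    have e2 : u = coeff 0 u • (1 : Fock ι) := by
      rw [MvPolynomial.smul_eq_C_mul, mul_one]
      exact e1
    rw [e2]
    exact ds3_Q_smul ε h1 h2 _ _ _ (ds3_Q_one ε h1 h2)
  | succ a ih =>
    intro u hu
    rw [← u.support_sum_monomial_coeff]
    refine ds3_Q_sum ε h1 h2 _ _ _ fun s hs => ?_
    have hdeg : s.degree = a + 1 := by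
      have h5 := hu (MvPolynomial.mem_support_iff.1 hs)
      rw [Finsupp.degree_eq_weight_one]
      exact h5
    have hs0 : s ≠ 0 := by
      intro h0
      rw [h0, map_zero] at hdeg
      omega
    obtain ⟨x, hx⟩ := Finsupp.support_nonempty_iff.2 hs0
    have hx1 : 1 ≤ s x := Nat.one_le_iff_ne_zero.2 (Finsupp.mem_support_iff.1 hx)
    have h3' : s = Finsupp.single x 1 + (s - Finsupp.single x 1) := by
      ext y
      by_cases hy : y = x
      · subst hy
        simp
        omega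
      · simp [Finsupp.single_eq_of_ne hy]
    have hd2 : (s - Finsupp.single x 1).degree = a := by
      have h4 := hdeg
      rw [h3', map_add, Finsupp.degree_single] at h4
      omega
    have e1 : monomial s (coeff s u) =
        X x * (monomial (s - Finsupp.single x 1) (coeff s u) : Fock ι) := by
      rw [X, monomial_mul, one_mul, ← h3']
    rw [e1]
    exact ds3_Q_X ε h1 h2 h3 a ih x.1 x.2 _ (isHomogeneous_monomial _ hd2)

private theorem ds3_all (ε : Cocycle A p) (h1 : st_VG1 ι) (h2 : st_VG2 ε) (h3 : st_VG3 ε) (a : ℕ)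
    (u : Fock ι) (hu : DLt (a + 1) u) : ds3_Q ε a u := by
  rw [← sum_homogeneousComponent u]
  refine ds3_Q_sum ε h1 h2 _ _ _ fun i _ => ?_
  by_cases hi : i ≤ a
  · exact ds3_Q_mono ε h1 i a hi _
      (ds3_hom ε h1 h2 h3 i _ (homogeneousComponent_isHomogeneous i u))
  · rw [hu i (by omega)]
    exact ds3_Q_zero ε h1 h2 a

private theorem ds3_hdt (n : ℕ) (f : Fock ι) :
    homogeneousComponent n (dT ι f) = dT ι (homogeneousComponent n f) := by
  have key : ∀ g : Fock ι, ∀ m, g.IsHomogeneous m →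
      homogeneousComponent n (dT ι g) = dT ι (homogeneousComponent n g) := by
    intro g m hg
    rw [homogeneousComponent_of_mem (ds3_dT_hom m g hg), homogeneousComponent_of_mem hg]
    split_ifs
    · rfl
    · rw [map_zero]
  conv_lhs => rw [← sum_homogeneousComponent f]
  conv_rhs => rw [← sum_homogeneousComponent f]
  rw [map_sum, map_sum, map_sum, map_sum]
  exact Finset.sum_congr rfl fun i _ => key _ i (homogeneousComponent_isHomogeneous i f)

/-- The derivative of a jet. -/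
private theorem ds3_jdt (ha1 : st_HA1 ι) (P : MvPolynomial ι ℂ) :
    ∀ k : ℕ, dT ι (jet k P) = C ((k : ℂ) + 1) * jet (k + 1) P := by
  induction P using MvPolynomial.induction_on with
  | C c =>
    intro k
    rw [ha1.C_, ha1.C_, if_neg (Nat.succ_ne_zero k), mul_zero]
    split_ifs
    · exact (dT ι).map_algebraMap c
    · exact map_zero _
  | add P Q hP hQ =>
    intro k
    rw [ha1.add, ha1.add, map_add, hP, hQ, mul_add]
  | mul_X P i hP =>
    intro k
    rw [ha1.mul, ha1.mul, map_sum]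
    have hX : ∀ j : ℕ, dT ι (jet j (X i : MvPolynomial ι ℂ)) =
        C ((j : ℂ) + 1) * jet (j + 1) (X i : MvPolynomial ι ℂ) := by
      intro j
      rw [ha1.X_, ha1.X_, Derivation.leibniz, smul_eq_mul, smul_eq_mul]
      have e0 : dT ι (C ((j : ℂ) + 1) : Fock ι) = 0 := (dT ι).map_algebraMap _
      rw [e0, mul_zero, add_zero]
      unfold dT
      rw [mkDerivation_X, MvPolynomial.smul_eq_C_mul]
      push_cast
      rw [show ((j : ℂ) + 1 + 1) = (j : ℂ) + 2 by ring]
    have e1 : ∀ j ∈ Finset.range (k + 1), dT ι (jet j P * jet (k - j) (X i : MvPolynomial ι ℂ)) =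
        C ((j : ℂ) + 1) * (jet (j + 1) P * jet (k - j) (X i : MvPolynomial ι ℂ)) +
        C (((k - j : ℕ) : ℂ) + 1) * (jet j P * jet (k + 1 - j) (X i : MvPolynomial ι ℂ)) := by
      intro j hj
      rw [Finset.mem_range] at hj
      rw [Derivation.leibniz, smul_eq_mul, smul_eq_mul, hP, hX,
        show k - j + 1 = k + 1 - j by omega]
      ring
    rw [Finset.sum_congr rfl e1, Finset.sum_add_distrib, Finset.mul_sum]
    -- the first sum, shifted
    have e2 : ∑ j ∈ Finset.range (k + 1),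
        C ((j : ℂ) + 1) * (jet (j + 1) P * jet (k - j) (X i : MvPolynomial ι ℂ)) =
        ∑ j ∈ Finset.range (k + 2),
          C (j : ℂ) * (jet j P * jet (k + 1 - j) (X i : MvPolynomial ι ℂ)) := by
      rw [Finset.sum_range_succ' _ (k + 1)]
      rw [Nat.cast_zero, C_0, zero_mul, add_zero]
      refine Finset.sum_congr rfl fun j _ => ?_
      rw [show k + 1 - (j + 1) = k - j by omega]
      push_cast
      ring
    have e3 : ∑ j ∈ Finset.range (k + 1),
        C (((k - j : ℕ) : ℂ) + 1) * (jet j P * jet (k + 1 - j) (X i : MvPolynomial ι ℂ)) =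
        ∑ j ∈ Finset.range (k + 2),
          C (((k + 1 - j : ℕ) : ℂ)) * (jet j P * jet (k + 1 - j) (X i : MvPolynomial ι ℂ)) := by
      rw [Finset.sum_range_succ _ (k + 1), Nat.sub_self, Nat.cast_zero, C_0, zero_mul, add_zero]
      refine Finset.sum_congr rfl fun j hj => ?_
      rw [Finset.mem_range] at hj
      rw [show k + 1 - j = k - j + 1 by omega]
      push_cast
      ring
    rw [e2, e3, ← Finset.sum_add_distrib]
    refine Finset.sum_congr rfl fun j hj => ?_
    rw [Finset.mem_range] at hj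
    rw [← add_mul, ← C_add]
    congr 2
    have : ((k + 1 - j : ℕ) : ℂ) = (k : ℂ) + 1 - j := by
      rw [Nat.cast_sub (by omega)]
      push_cast
      ring
    rw [this]
    ring

theorem DS3 (hA : IsADE A) (hp : 1 ≤ p) (ε : Cocycle A p) : st_DS3 ε := by
  have h1 := vg_1 (ι := ι)
  have h2 := vg_2 hA hp ε
  have h3 := vg_3 hA hp ε
  have ha1 := HA1 ι
  have hone : ∀ f : Fock ι, md ε f (-1) 1 = f := by
    intro f
    have h := mode_neg_one_vac hA hp ε (Finsupp.single 0 f)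
    unfold vac at h
    rw [h2.single] at h
    exact Finsupp.single_injective 0 h
  have hmdt : ∀ f : Fock ι, md ε f (-2) 1 = dT ι f := by
    intro f
    have h := congrArg (fun F : Fock ι →ₗ[ℂ] Fock ι => F 1) (h2.der f (-1))
    simp only [LinearMap.smul_apply] at h
    rw [hone] at h
    rw [h]
    norm_num
  refine ⟨?_, ?_, fun n f hf => ds3_dT_FH n f hf, ds3_hdt, fun k P => ds3_jdt ha1 P k, hmdt, ?_⟩
  · intro a b u g hu hg
    have h := ((ds3_all ε h1 h2 h3 a u hu) b g hg).1 0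
    have e : (-1 - ((0 : ℕ) : ℤ)) = -1 := by norm_num
    rw [e, hone] at h
    exact h
  · intro n f hf m hm
    rw [ds3_hdt, hf m hm, map_zero]
  · intro hp2 f hf
    have h5 := vg_5 hA hp2 ε
    rw [← hmdt]
    exact h5.md_mem f hf 1 h5.one_mem _

end

end WPE
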