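import Pool.Agent.WPE.DSD

/-! [DS4] the symbol and the modes -/

set_option linter.unusedSectionVars false

namespace WPE

open WPQ MvPolynomial

noncomputable section

variable {ι : Type} [Fintype ι] [DecidableEq ι] {A : Matrix ι ι ℤ} {p : ℕ}

/-- The symbol on the generators. -/
theorem ds4_X (x : ι × ℕ) : syF ι (X x) = if x.2 = 0 then X x.1 else 0 := by
  unfold syF
  rw [aeval_X]

theorem ds4_C (c : ℂ) : syF ι (C c) = C c := by
  unfold syF
  rw [aeval_C, algebraMap_eq]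

/-- The symbol of a derivative. -/
theorem ds4_pd (l : ι) (g : Fock ι) : syF ι (pderiv (l, 0) g) = pderiv l (syF ι g) := by
  induction g using MvPolynomial.induction_on with
  | C a => rw [pderiv_C, map_zero, ds4_C, pderiv_C]
  | add f g hf hg => rw [map_add, map_add, map_add, map_add, hf, hg]
  | mul_X f x hf =>
    rw [Derivation.leibniz, smul_eq_mul, smul_eq_mul, map_add, map_mul, map_mul, map_mul, hf,
      Derivation.leibniz, smul_eq_mul, smul_eq_mul, ds4_X]
    congr 2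
    by_cases h : x.2 = 0
    · rw [if_pos h]
      by_cases h1 : x.1 = l
      · have h2 : x = (l, 0) := Prod.ext h1 h
        rw [h2, pderiv_X_self, pderiv_X_self, map_one]
      · have h2 : x ≠ (l, 0) := fun h3 => h1 (by rw [h3])
        rw [pderiv_X_of_ne h2, pderiv_X_of_ne h1, map_zero]
    · have h2 : x ≠ (l, 0) := fun h3 => h (by rw [h3])
      rw [if_neg h, pderiv_X_of_ne h2, map_zero, map_zero]

/-- The contraction with `X i`. -/
def ds4_con (A : Matrix ι ι ℤ) (p : ℕ) (i : ι) (g : MvPolynomial ι ℂ) : MvPolynomial ι ℂ :=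
  ∑ j, C (form A p (bb i) (bb j)) * pderiv j g

theorem ds4_form (hA : IsADE A) (i j : ι) : form A p (bb i) (bb j) = form A p (bb j) (bb i) := by
  unfold form
  congr 1
  rw [Finset.sum_comm]
  refine Finset.sum_congr rfl fun a _ => Finset.sum_congr rfl fun b _ => ?_
  have h : A b a = A a b := hA.symm b a
  rw [h]
  ring

/-- The symbol of `b_i(1) g`. -/
theorem ds4_heis1 (hA : IsADE A) (i : ι) (g : Fock ι) :
    syF ι (heis A p (bb i) 1 0 g) = ds4_con A p i (syF ι g) := by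
  unfold heis ds4_con
  rw [if_neg (by norm_num), if_neg (by norm_num), LinearMap.sum_apply, map_sum]
  refine Finset.sum_congr rfl fun l _ => ?_
  have e : ((1 : ℤ) - 1).toNat = 0 := rfl
  rw [e, LinearMap.smul_apply, map_smul]
  have e2 : (pderiv (R := ℂ) (l, 0)).toLinearMap g = pderiv (l, 0) g := rfl
  have e3 : form A p (Pi.single l 1) (bb i) = form A p (bb i) (bb l) := ds4_form hA l i
  rw [e2, e3, ds4_pd, smul_eq_C_mul]

/-- `b_i(0)` is zero on charge zero. -/
theorem ds4_heis0 (i : ι) (g : Fock ι) : heis A p (bb i) 0 0 g = 0 := by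
  unfold heis
  rw [if_neg (by norm_num), if_pos rfl]
  have e : form A p (bb i) 0 = 0 := by
    unfold form
    simp
  rw [e, zero_smul, LinearMap.zero_apply]

theorem ds4_gr_zero_left (g : MvPolynomial ι ℂ) : gr A p 0 g = 0 := by
  unfold gr
  simp

theorem ds4_gr_C (c : ℂ) (g : MvPolynomial ι ℂ) : gr A p (C c) g = 0 := by
  unfold gr
  simp

theorem ds4_gr_add (f f' g : MvPolynomial ι ℂ) : gr A p (f + f') g = gr A p f g + gr A p f' g := by
  unfold gr
  rw [← Finset.sum_add_distrib]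
  refine Finset.sum_congr rfl fun i _ => ?_
  rw [← Finset.sum_add_distrib]
  refine Finset.sum_congr rfl fun j _ => ?_
  rw [map_add]
  ring

theorem ds4_gr_smul (c : ℂ) (f g : MvPolynomial ι ℂ) : gr A p (c • f) g = c • gr A p f g := by
  unfold gr
  rw [Finset.smul_sum]
  refine Finset.sum_congr rfl fun i _ => ?_
  rw [Finset.smul_sum]
  refine Finset.sum_congr rfl fun j _ => ?_
  rw [Derivation.map_smul, mul_smul_comm, smul_mul_assoc]

theorem ds4_gr_X (i : ι) (f g : MvPolynomial ι ℂ) :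
    gr A p (X i * f) g = X i * gr A p f g + f * ds4_con A p i g := by
  have e : ∀ a : ι, ∑ j, C (form A p (bb a) (bb j)) * pderiv a (X i * f) * pderiv j g =
      X i * (∑ j, C (form A p (bb a) (bb j)) * pderiv a f * pderiv j g) +
        f * (if a = i then ds4_con A p i g else 0) := by
    intro a
    by_cases h : a = i
    · subst h
      rw [if_pos rfl]
      unfold ds4_con
      rw [Finset.mul_sum, Finset.mul_sum, ← Finset.sum_add_distrib]
      refine Finset.sum_congr rfl fun j _ => ?_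
      rw [Derivation.leibniz, pderiv_X_self, smul_eq_mul, smul_eq_mul]
      ring
    · rw [if_neg h, mul_zero, add_zero, Finset.mul_sum]
      refine Finset.sum_congr rfl fun j _ => ?_
      rw [Derivation.leibniz, pderiv_X_of_ne (Ne.symm h), smul_eq_mul, smul_eq_mul]
      ring
  unfold gr
  rw [Finset.sum_congr rfl fun a _ => e a, Finset.sum_add_distrib, ← Finset.mul_sum,
    ← Finset.mul_sum, Finset.sum_ite_eq', if_pos (Finset.mem_univ _)]

/-- The statement for one vector. -/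
def ds4_Q (ε : Cocycle A p) (u : Fock ι) : Prop :=
  (∀ (g : Fock ι) (n : ℤ), n ≤ -2 → syF ι (md ε u n g) = 0) ∧
  (∀ g : Fock ι, syF ι (md ε u (-1) g) = syF ι u * syF ι g) ∧
  (∀ g : Fock ι, syF ι (md ε u 0 g) = 0) ∧
  (∀ g : Fock ι, syF ι (md ε u 1 g) = gr A p (syF ι u) (syF ι g))

theorem ds4_Q_add (ε : Cocycle A p) (v2 : st_VG2 ε) (u v : Fock ι) (hu : ds4_Q ε u)
    (hv : ds4_Q ε v) : ds4_Q ε (u + v) := by
  obtain ⟨a1, a2, a3, a4⟩ := hu
  obtain ⟨b1, b2, b3, b4⟩ := hv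
  refine ⟨fun g n hn => ?_, fun g => ?_, fun g => ?_, fun g => ?_⟩
  · rw [v2.add, LinearMap.add_apply, map_add, a1 g n hn, b1 g n hn, add_zero]
  · rw [v2.add, LinearMap.add_apply, map_add, a2, b2, map_add, add_mul]
  · rw [v2.add, LinearMap.add_apply, map_add, a3, b3, add_zero]
  · rw [v2.add, LinearMap.add_apply, map_add, a4, b4, map_add, ds4_gr_add]

theorem ds4_Q_smul (ε : Cocycle A p) (v2 : st_VG2 ε) (c : ℂ) (u : Fock ι) (hu : ds4_Q ε u) :
    ds4_Q ε (c • u) := by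
  obtain ⟨a1, a2, a3, a4⟩ := hu
  refine ⟨fun g n hn => ?_, fun g => ?_, fun g => ?_, fun g => ?_⟩
  · rw [v2.smul, LinearMap.smul_apply, map_smul, a1 g n hn, smul_zero]
  · rw [v2.smul, LinearMap.smul_apply, map_smul, a2, map_smul, smul_mul_assoc]
  · rw [v2.smul, LinearMap.smul_apply, map_smul, a3, smul_zero]
  · rw [v2.smul, LinearMap.smul_apply, map_smul, a4, map_smul, ds4_gr_smul]

theorem ds4_Q_one (ε : Cocycle A p) (v2 : st_VG2 ε) : ds4_Q ε 1 := by
  refine ⟨fun g n hn => ?_, fun g => ?_, fun g => ?_, fun g => ?_⟩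
  · rw [v2.one, if_neg (by omega), LinearMap.zero_apply, map_zero]
  · rw [v2.one, if_pos rfl, LinearMap.id_apply, map_one, one_mul]
  · rw [v2.one, if_neg (by norm_num), LinearMap.zero_apply, map_zero]
  · rw [v2.one, if_neg (by norm_num), LinearMap.zero_apply, map_zero, map_one, ← C_1, ds4_gr_C]

theorem ds4_Q_dT (ε : Cocycle A p) (v2 : st_VG2 ε) (h5 : st_DS5 ι) (u : Fock ι)
    (hu : ds4_Q ε u) : ds4_Q ε (dT ι u) := by
  obtain ⟨a1, a2, a3, a4⟩ := hu
  refine ⟨fun g n hn => ?_, fun g => ?_, fun g => ?_, fun g => ?_⟩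
  · rw [v2.der, LinearMap.smul_apply, map_smul, a1 g (n - 1) (by omega), smul_zero]
  · rw [v2.der, LinearMap.smul_apply, map_smul, a1 g (-1 - 1) (by norm_num), smul_zero, h5.dt,
      zero_mul]
  · rw [v2.der, LinearMap.smul_apply, map_smul]
    simp
  · rw [v2.der, LinearMap.smul_apply, map_smul, h5.dt, ds4_gr_zero_left]
    have e : (1 : ℤ) - 1 = 0 := by norm_num
    rw [e, a3, smul_zero]

/-- The symbol of the normal ordered product. -/
theorem ds4_nop (ε : Cocycle A p) (v2 : st_VG2 ε) (i : ι) (u g : Fock ι) (m : ℤ) (hm : m ≤ 1)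
    (hu : ds4_Q ε u) : syF ι (md ε (X (i, 0) * u) m g) = X i * syF ι (md ε u m g) +
      if m = 1 then syF ι u * syF ι (heis A p (bb i) 1 0 g) else 0 := by
  obtain ⟨a1, a2, a3, a4⟩ := hu
  obtain ⟨M0, hM0⟩ := v2.nop i u m g
  rw [hM0 (M0 + 2) (by omega), map_sum, Finset.sum_range_succ', Finset.sum_range_succ']
  have hz : ∀ j : ℕ, syF ι (C (((j + 1 + 1 : ℕ) : ℂ) + 1) * X (i, j + 1 + 1) *
      md ε u (m + ((j + 1 + 1 : ℕ) : ℤ)) g +
      md ε u (m - 1 - ((j + 1 + 1 : ℕ) : ℤ)) (heis A p (bb i) ((j + 1 + 1 : ℕ) : ℤ) 0 g)) = 0 := by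
    intro j
    rw [map_add, map_mul, map_mul, ds4_X, if_neg (by simp), mul_zero, zero_mul, zero_add]
    exact a1 _ _ (by push_cast; omega)
  rw [Finset.sum_eq_zero fun j _ => hz j, zero_add, map_add, map_mul, map_mul, ds4_X,
    if_neg (by simp), mul_zero, zero_mul, zero_add, map_add, map_mul, map_mul, ds4_X, if_pos rfl,
    ds4_C]
  have e0 : heis A p (bb i) ((0 : ℕ) : ℤ) 0 g = 0 := ds4_heis0 i g
  rw [e0, map_zero, map_zero, add_zero]
  have e1 : m + ((0 : ℕ) : ℤ) = m := by simp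
  rw [e1]
  have e2 : C (((0 : ℕ) : ℂ) + 1) = (1 : MvPolynomial ι ℂ) := by simp
  rw [e2, one_mul, add_comm]
  congr 1
  have e3 : ((0 + 1 : ℕ) : ℤ) = 1 := by norm_num
  rw [e3]
  split_ifs with h
  · have e4 : m - 1 - 1 = -1 := by omega
    rw [e4, a2]
  · exact a1 _ _ (by omega)

theorem ds4_Q_X0 (hA : IsADE A) (ε : Cocycle A p) (v2 : st_VG2 ε) (i : ι) (u : Fock ι)
    (hu : ds4_Q ε u) : ds4_Q ε (X (i, 0) * u) := by
  have hn := fun g m hm => ds4_nop ε v2 i u g m hm hu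
  obtain ⟨a1, a2, a3, a4⟩ := hu
  have ex : syF ι (X (i, 0) * u) = X i * syF ι u := by
    rw [map_mul, ds4_X, if_pos rfl]
  refine ⟨fun g n hn' => ?_, fun g => ?_, fun g => ?_, fun g => ?_⟩
  · rw [hn g n (by omega), a1 g n hn', mul_zero, if_neg (by omega), add_zero]
  · rw [hn g (-1) (by norm_num), a2, if_neg (by norm_num), add_zero, ex, mul_assoc]
  · rw [hn g 0 (by norm_num), a3, mul_zero, if_neg (by norm_num), add_zero]
  · rw [hn g 1 le_rfl, a4, if_pos rfl, ex, ds4_gr_X, ds4_heis1 hA]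

theorem ds4_dT_X (i : ι) (k : ℕ) : dT ι (X (i, k)) = ((k + 2 : ℂ)) • (X (i, k + 1) : Fock ι) := by
  unfold dT
  rw [mkDerivation_X]

theorem ds4_Q_X (hA : IsADE A) (ε : Cocycle A p) (v2 : st_VG2 ε) (h5 : st_DS5 ι) (i : ι) (k : ℕ)
    (u : Fock ι) (hu : ds4_Q ε u) : ds4_Q ε (X (i, k) * u) := by
  induction k generalizing u with
  | zero => exact ds4_Q_X0 hA ε v2 i u hu
  | succ k ih =>
    have h1 := ds4_Q_dT ε v2 h5 _ (ih u hu)
    have h2 := ds4_Q_smul ε v2 (-1) _ (ih _ (ds4_Q_dT ε v2 h5 u hu))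
    have h3 := ds4_Q_smul ε v2 ((k + 2 : ℂ))⁻¹ _ (ds4_Q_add ε v2 _ _ h1 h2)
    have hk : (k + 2 : ℂ) ≠ 0 := by exact_mod_cast (by omega : k + 2 ≠ 0)
    have e : ((k + 2 : ℂ))⁻¹ • (dT ι (X (i, k) * u) + (-1 : ℂ) • (X (i, k) * dT ι u)) =
        X (i, k + 1) * u := by
      rw [Derivation.leibniz, smul_eq_mul, smul_eq_mul, ds4_dT_X, neg_one_smul, mul_smul_comm,
        add_right_comm, add_neg_cancel, zero_add, smul_smul, inv_mul_cancel₀ hk, one_smul, mul_comm]
    rw [e] at h3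
    exact h3

theorem ds4_all (hA : IsADE A) (ε : Cocycle A p) (v2 : st_VG2 ε) (h5 : st_DS5 ι) (u : Fock ι) :
    ds4_Q ε u := by
  induction u using MvPolynomial.induction_on with
  | C a =>
    have h := ds4_Q_smul ε v2 a 1 (ds4_Q_one ε v2)
    rwa [smul_eq_C_mul, mul_one] at h
  | add f g hf hg => exact ds4_Q_add ε v2 f g hf hg
  | mul_X f x hf =>
    rw [mul_comm]
    exact ds4_Q_X hA ε v2 h5 x.1 x.2 f hf

theorem DS4 (hA : IsADE A) (ε : Cocycle A p) (v2 : st_VG2 ε) (h5 : st_DS5 ι) : st_DS4 ε where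
  m2 := fun u g n hn => (ds4_all hA ε v2 h5 u).1 g n hn
  m1 := fun u g => (ds4_all hA ε v2 h5 u).2.1 g
  z0 := fun u g => (ds4_all hA ε v2 h5 u).2.2.1 g
  p1 := fun u g => (ds4_all hA ε v2 h5 u).2.2.2 g

end

end WPE
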