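import Pool.Agent.WPE.DSD

/-! [DS5] the symbol map -/

set_option linter.unusedSectionVars false

namespace WPE

open WPQ MvPolynomial

noncomputable section

variable {ι : Type} [Fintype ι] [DecidableEq ι] {A : Matrix ι ι ℤ} {p : ℕ}

/-- The symbol on the generators. -/
theorem ds5_X (x : ι × ℕ) : syF ι (X x) = if x.2 = 0 then X x.1 else 0 := by
  unfold syF
  rw [aeval_X]

/-- The symbol of a derivative vanishes. -/
theorem ds5_dt (f : Fock ι) : syF ι (dT ι f) = 0 := by
  induction f using MvPolynomial.induction_on with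
  | C a =>
    rw [← algebraMap_eq, Derivation.map_algebraMap, map_zero]
  | add f g hf hg => rw [map_add, map_add, hf, hg, add_zero]
  | mul_X f x hf =>
    have e : syF ι (dT ι (X x)) = 0 := by
      have e1 : dT ι (X x) = ((x.2 + 2 : ℂ)) • (X (x.1, x.2 + 1) : Fock ι) := by
        unfold dT
        rw [mkDerivation_X]
      rw [e1, map_smul, ds5_X, if_neg (Nat.succ_ne_zero _), smul_zero]
    rw [Derivation.leibniz, smul_eq_mul, smul_eq_mul, map_add, map_mul, map_mul, hf, e, mul_zero,
      mul_zero, add_zero]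

/-- The symbol of a polynomial in the variables of level `0`. -/
theorem ds5_inc (P : MvPolynomial ι ℂ) : syF ι (inc0 P) = P := by
  have h : (syF ι).comp inc0 = AlgHom.id ℂ (MvPolynomial ι ℂ) := by
    refine MvPolynomial.algHom_ext fun i => ?_
    rw [AlgHom.comp_apply, AlgHom.id_apply]
    unfold inc0
    rw [rename_X, ds5_X, if_pos rfl]
  exact DFunLike.congr_fun h P

/-- The weight of a monomial. -/
theorem ds5_wt (d : ι × ℕ →₀ ℕ) : Finsupp.weight (wF (ι := ι)) d = d.degree + d.sum fun x k => k * x.2 := by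
  rw [Finsupp.weight_apply, Finsupp.degree_apply, Finsupp.sum, Finsupp.sum, ← Finset.sum_add_distrib]
  refine Finset.sum_congr rfl fun x _ => ?_
  unfold wF
  rw [smul_eq_mul]
  ring

/-- The symbol of a monomial. -/
theorem ds5_mono (d : ι × ℕ →₀ ℕ) (c : ℂ) : inc0 (syF ι (monomial d c)) =
    if (d.sum fun x k => k * x.2) = 0 then monomial d c else 0 := by
  have e1 : syF ι (monomial d c) = C c * d.prod fun x k => (if x.2 = 0 then X x.1 else 0) ^ k := by
    unfold syF
    rw [aeval_monomial, algebraMap_eq]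
  split_ifs with h
  · rw [Finsupp.sum, Finset.sum_eq_zero_iff] at h
    rw [e1, map_mul, Finsupp.prod, map_prod, monomial_eq, Finsupp.prod]
    congr 1
    · unfold inc0
      rw [rename_C]
    · refine Finset.prod_congr rfl fun x hx => ?_
      have h1 := h x hx
      have h2 : d x ≠ 0 := Finsupp.mem_support_iff.1 hx
      have h3 : x.2 = 0 := (Nat.mul_eq_zero.1 h1).resolve_left h2
      rw [if_pos h3, map_pow]
      unfold inc0
      rw [rename_X]
      congr 2
      exact Prod.ext rfl h3.symm
  · rw [e1, Finsupp.prod]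
    have h1 : ∃ x ∈ d.support, d x * x.2 ≠ 0 := by
      by_contra hcon
      push Not at hcon
      exact h (Finset.sum_eq_zero hcon)
    obtain ⟨x, hx, hx2⟩ := h1
    have h2 : x.2 ≠ 0 := fun h0 => hx2 (by rw [h0, mul_zero])
    have h3 : ∏ x ∈ d.support, (if x.2 = 0 then (X x.1 : MvPolynomial ι ℂ) else 0) ^ d x = 0 := by
      refine Finset.prod_eq_zero hx ?_
      rw [if_neg h2, zero_pow (Finsupp.mem_support_iff.1 hx)]
    rw [h3, mul_zero, map_zero]

/-- The symbol is the component of highest possible degree. -/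
theorem ds5_hc (f : Fock ι) (m : ℕ) (hf : FH f m) :
    inc0 (syF ι f) = homogeneousComponent m f := by
  rw [homogeneousComponent_apply, Finset.sum_filter]
  conv_lhs => rw [f.as_sum]
  rw [map_sum, map_sum]
  refine Finset.sum_congr rfl fun d hd => ?_
  rw [ds5_mono]
  have h1 : Finsupp.weight (wF (ι := ι)) d = m := hf (mem_support_iff.1 hd)
  rw [ds5_wt] at h1
  by_cases h2 : (d.sum fun x k => k * x.2) = 0
  · rw [if_pos h2, if_pos (by omega)]
  · rw [if_neg h2, if_neg (by omega)]

theorem ds5_dl (f : Fock ι) (m : ℕ) (hf : FH f m) : DLt (m + 1) f := by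
  intro n hn
  rw [homogeneousComponent_apply]
  refine Finset.sum_eq_zero fun d hd => ?_
  exfalso
  rw [Finset.mem_filter] at hd
  have h1 : Finsupp.weight (wF (ι := ι)) d = m := hf (mem_support_iff.1 hd.1)
  rw [ds5_wt] at h1
  omega

theorem ds5_inj : Function.Injective (inc0 : MvPolynomial ι ℂ →ₐ[ℂ] Fock ι) := by
  intro P Q h
  rw [← ds5_inc P, ← ds5_inc Q, h]

theorem DS5 : st_DS5 ι where
  dt := ds5_dt
  inc := ds5_inc
  hc := ds5_hc
  hom := by
    intro f m hf
    have h1 : (inc0 (syF ι f) : Fock ι).IsHomogeneous m := by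
      rw [ds5_hc f m hf]
      exact homogeneousComponent_isHomogeneous m f
    have h2 : Function.Injective fun i : ι => (i, 0) := fun i j h => (Prod.ext_iff.1 h).1
    exact (IsHomogeneous.rename_isHomogeneous_iff h2).1 h1
  dl := ds5_dl
  dl0 := by
    intro f m hf h0 n hn
    rcases Nat.eq_or_lt_of_le hn with rfl | hn
    · rw [← ds5_hc f m hf, h0, map_zero]
    · exact ds5_dl f m hf n hn

end

end WPE
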