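import Pool.Agent.WPE.DSD

/-! [DS7] the gradient pairing -/

namespace WPE

open WPQ MvPolynomial

noncomputable section

variable {ι : Type} [Fintype ι] [DecidableEq ι] {A : Matrix ι ι ℤ} {p : ℕ}

/-- additivity on the right -/
theorem ds7_add_r (f g h : MvPolynomial ι ℂ) : gr A p f (g + h) = gr A p f g + gr A p f h := by
  unfold gr
  rw [← Finset.sum_add_distrib]
  refine Finset.sum_congr rfl fun i _ => ?_
  rw [← Finset.sum_add_distrib]
  refine Finset.sum_congr rfl fun j _ => ?_
  rw [map_add, mul_add]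

/-- additivity on the left -/
theorem ds7_add_l (f g h : MvPolynomial ι ℂ) : gr A p (f + g) h = gr A p f h + gr A p g h := by
  unfold gr
  rw [← Finset.sum_add_distrib]
  refine Finset.sum_congr rfl fun i _ => ?_
  rw [← Finset.sum_add_distrib]
  refine Finset.sum_congr rfl fun j _ => ?_
  rw [map_add, mul_add, add_mul]

/-- scalars on the right -/
theorem ds7_smul_r (c : ℂ) (f g : MvPolynomial ι ℂ) : gr A p f (c • g) = c • gr A p f g := by
  unfold gr
  rw [Finset.smul_sum]
  refine Finset.sum_congr rfl fun i _ => ?_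
  rw [Finset.smul_sum]
  refine Finset.sum_congr rfl fun j _ => ?_
  rw [Derivation.map_smul, mul_smul_comm]

/-- scalars on the left -/
theorem ds7_smul_l (c : ℂ) (f g : MvPolynomial ι ℂ) : gr A p (c • f) g = c • gr A p f g := by
  unfold gr
  rw [Finset.smul_sum]
  refine Finset.sum_congr rfl fun i _ => ?_
  rw [Finset.smul_sum]
  refine Finset.sum_congr rfl fun j _ => ?_
  rw [Derivation.map_smul, mul_smul_comm, smul_mul_assoc]

/-- the product rule on the right -/
theorem ds7_mul_r (f g h : MvPolynomial ι ℂ) :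
    gr A p f (g * h) = gr A p f g * h + g * gr A p f h := by
  unfold gr
  rw [Finset.sum_mul, Finset.mul_sum, ← Finset.sum_add_distrib]
  refine Finset.sum_congr rfl fun i _ => ?_
  rw [Finset.sum_mul, Finset.mul_sum, ← Finset.sum_add_distrib]
  refine Finset.sum_congr rfl fun j _ => ?_
  rw [Derivation.leibniz, smul_eq_mul, smul_eq_mul]
  ring

/-- the product rule on the left -/
theorem ds7_mul_l (f g h : MvPolynomial ι ℂ) :
    gr A p (f * g) h = gr A p f h * g + f * gr A p g h := by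
  unfold gr
  rw [Finset.sum_mul, Finset.mul_sum, ← Finset.sum_add_distrib]
  refine Finset.sum_congr rfl fun i _ => ?_
  rw [Finset.sum_mul, Finset.mul_sum, ← Finset.sum_add_distrib]
  refine Finset.sum_congr rfl fun j _ => ?_
  rw [Derivation.leibniz, smul_eq_mul, smul_eq_mul]
  ring

/-- constants on the left -/
theorem ds7_C_l (c : ℂ) (g : MvPolynomial ι ℂ) : gr A p (C c) g = 0 := by
  unfold gr
  refine Finset.sum_eq_zero fun i _ => Finset.sum_eq_zero fun j _ => ?_
  rw [pderiv_C, mul_zero, zero_mul]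

/-- constants on the right -/
theorem ds7_C_r (c : ℂ) (g : MvPolynomial ι ℂ) : gr A p g (C c) = 0 := by
  unfold gr
  refine Finset.sum_eq_zero fun i _ => Finset.sum_eq_zero fun j _ => ?_
  rw [pderiv_C, mul_zero]

/-- variables -/
theorem ds7_X (i k : ι) : gr A p (X i) (X k) = C ((p : ℂ) * (A i k : ℂ)) := by
  unfold gr
  rw [Finset.sum_eq_single i, Finset.sum_eq_single k]
  · rw [pderiv_X_self, pderiv_X_self, form_bb, mul_one, mul_one]
  · intro j _ hj
    rw [pderiv_X_of_ne (Ne.symm hj), mul_zero]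
  · intro h
    exact absurd (Finset.mem_univ k) h
  · intro j _ hj
    refine Finset.sum_eq_zero fun k _ => ?_
    rw [pderiv_X_of_ne (Ne.symm hj), mul_zero, zero_mul]
  · intro h
    exact absurd (Finset.mem_univ i) h

/-- an algebra endomorphism which preserves the pairing of the variables preserves the pairing -/
theorem ds7_chain (s : MvPolynomial ι ℂ →ₐ[ℂ] MvPolynomial ι ℂ)
    (hs : ∀ i k, gr A p (s (X i)) (s (X k)) = C ((p : ℂ) * (A i k : ℂ)))
    (f g : MvPolynomial ι ℂ) : gr A p (s f) (s g) = s (gr A p f g) := by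
  have hC : ∀ c : ℂ, s (C c) = C c := fun c => s.commutes c
  have h1 : ∀ (i : ι) (g : MvPolynomial ι ℂ), gr A p (s (X i)) (s g) = s (gr A p (X i) g) := by
    intro i g
    induction g using MvPolynomial.induction_on with
    | C c => rw [hC, ds7_C_r, ds7_C_r, map_zero]
    | add f g hf hg => rw [map_add, ds7_add_r, ds7_add_r, map_add, hf, hg]
    | mul_X f k hf =>
      rw [map_mul, ds7_mul_r, ds7_mul_r, hf, hs, ds7_X, map_add, map_mul s (gr A p (X i) f),
        map_mul s f, hC]
  induction f using MvPolynomial.induction_on with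
  | C c => rw [hC, ds7_C_l, ds7_C_l, map_zero]
  | add f h hf hh => rw [map_add, ds7_add_l, ds7_add_l, map_add, hf, hh]
  | mul_X f k hf => rw [map_mul, ds7_mul_l, ds7_mul_l, hf, h1, map_add, map_mul, map_mul]

/-- the pairing of homogeneous polynomials -/
theorem ds7_hom (a b : ℕ) (f g : MvPolynomial ι ℂ) (ha : 1 ≤ a) (hb : 1 ≤ b)
    (hf : f.IsHomogeneous a) (hg : g.IsHomogeneous b) : (gr A p f g).IsHomogeneous (a + b - 2) := by
  unfold gr
  refine IsHomogeneous.sum _ _ _ fun i _ => IsHomogeneous.sum _ _ _ fun j _ => ?_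
  have h1 : (pderiv i f).IsHomogeneous (a - 1) := hf.pderiv
  have h2 : (pderiv j g).IsHomogeneous (b - 1) := hg.pderiv
  have h3 := ((isHomogeneous_C ι (form A p (bb i) (bb j))).mul h1).mul h2
  have h4 : 0 + (a - 1) + (b - 1) = a + b - 2 := by omega
  rwa [h4] at h3

/-- a simple reflection preserves the pairing -/
theorem ds7_rf (hA : IsADE A) (j : ι) (f g : MvPolynomial ι ℂ) :
    gr A p (rfS A j f) (rfS A j g) = rfS A j (gr A p f g) := by
  refine ds7_chain (rfS A j) (fun i k => ?_) f g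
  have e : ∀ i, rfS A j (X i) = X i + (-(A i j : ℂ)) • X j := by
    intro i
    unfold rfS
    rw [aeval_X, smul_eq_C_mul, C_neg, neg_mul, sub_eq_add_neg]
  rw [e, e, ds7_add_l, ds7_add_r, ds7_add_r, ds7_smul_r, ds7_smul_r, ds7_smul_l, ds7_smul_l, ds7_X,
    ds7_X, ds7_X, ds7_X, hA.diag, hA.symm j k]
  simp only [smul_eq_C_mul, ← C_mul, ← C_add]
  congr 1
  push_cast
  ring

/-- a diagram automorphism preserves the pairing -/
theorem ds7_th (σ : Equiv.Perm ι) (hσ : ∀ i j, A (σ i) (σ j) = A i j) (f g : MvPolynomial ι ℂ) :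
    gr A p (rename σ f) (rename σ g) = rename σ (gr A p f g) := by
  refine ds7_chain (rename (R := ℂ) σ) (fun i k => ?_) f g
  rw [rename_X, rename_X, ds7_X, hσ]

theorem DS7 (hA : IsADE A) (σ : Equiv.Perm ι) (hσ : ∀ i j, A (σ i) (σ j) = A i j) :
    st_DS7 A p σ := by
  refine ⟨ds7_add_r, ds7_add_l, ds7_smul_r, ds7_smul_l, ds7_mul_r, ds7_mul_l, ?_⟩
  intro a b f g ha hb hf hg
  obtain ⟨⟨hf1, hf2⟩, hf3⟩ := hf
  obtain ⟨⟨hg1, hg2⟩, hg3⟩ := hg
  have fr : ∀ (x : MvPolynomial ι ℂ),
      x ∈ (⨅ j, LinearMap.ker ((rfS A j).toLinearMap - LinearMap.id)) ↔ ∀ j, rfS A j x = x := by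
    intro x
    rw [Submodule.mem_iInf]
    refine forall_congr' fun j => ?_
    rw [LinearMap.mem_ker, LinearMap.sub_apply, LinearMap.id_apply, AlgHom.toLinearMap_apply,
      sub_eq_zero]
  have ft : ∀ (x : MvPolynomial ι ℂ),
      x ∈ LinearMap.ker ((rename (R := ℂ) σ).toLinearMap - LinearMap.id) ↔ rename σ x = x := by
    intro x
    rw [LinearMap.mem_ker, LinearMap.sub_apply, LinearMap.id_apply, AlgHom.toLinearMap_apply,
      sub_eq_zero]
  have hf2' := (fr f).1 hf2
  have hg2' := (fr g).1 hg2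
  have hf3' := (ft f).1 hf3
  have hg3' := (ft g).1 hg3
  refine ⟨⟨?_, (fr _).2 fun j => ?_⟩, (ft _).2 ?_⟩
  · exact ds7_hom a b f g ha hb hf1 hg1
  · rw [← ds7_rf hA, hf2', hg2']
  · rw [← ds7_th σ hσ, hf3', hg3']

end

end WPE
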