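import Pool.Agent.WPE.DSD

/-! [DS8] induction principle for submodules of M(1) -/

namespace WPE

open WPQ MvPolynomial

noncomputable section

variable {ι : Type} [Fintype ι] [DecidableEq ι] {A : Matrix ι ι ℤ} {p : ℕ}

omit [Fintype ι] [DecidableEq ι] in
/-- Every element of the span is the leading part of a vector of `M` and `K`. -/
private theorem ds8_span (P : ι → MvPolynomial ι ℂ) (d : ι → ℕ) (m : ℕ)
    (K M : Submodule ℂ (Fock ι)) (cls : List (ι × ℕ) → Prop) (D0 : ℕ)
    (h : ∀ L, cls L → wtL d L = m → dgL d L = D0 →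
      ∃ v, v ∈ M ∧ v ∈ K ∧ DLt (dgL d L) (v - pj P L)) (g : Fock ι)
    (hg : g ∈ Submodule.span ℂ {g | ∃ L, dgL d L = D0 ∧ wtL d L = m ∧ cls L ∧ g = pj P L}) :
    ∃ v, v ∈ M ∧ v ∈ K ∧ DLt D0 (v - g) := by
  refine Submodule.span_induction (p := fun g _ => ∃ v, v ∈ M ∧ v ∈ K ∧ DLt D0 (v - g))
    ?_ ?_ ?_ ?_ hg
  · rintro g ⟨L, h1, h2, h3, rfl⟩
    obtain ⟨v, hv, hv', hd⟩ := h L h3 h2 h1
    rw [h1] at hd
    exact ⟨v, hv, hv', hd⟩
  · refine ⟨0, M.zero_mem, K.zero_mem, fun n _ => ?_⟩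
    rw [sub_zero, map_zero]
  · rintro x y _ _ ⟨v, hv, hv', hd⟩ ⟨w, hw, hw', hd'⟩
    refine ⟨v + w, M.add_mem hv hw, K.add_mem hv' hw', fun n hn => ?_⟩
    have e : v + w - (x + y) = (v - x) + (w - y) := by abel
    rw [e, map_add, hd n hn, hd' n hn, add_zero]
  · rintro c x _ ⟨v, hv, hv', hd⟩
    refine ⟨c • v, M.smul_mem c hv, K.smul_mem c hv', fun n hn => ?_⟩
    rw [← smul_sub, map_smul, hd n hn, smul_zero]

theorem DS8 : st_DS8 ι := by
  intro P d m K M cls hK D0
  induction D0 with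
  | zero =>
    intro _ u _ hu
    have h0 : u = 0 := by
      rw [← sum_homogeneousComponent u]
      exact Finset.sum_eq_zero fun i _ => hu i (Nat.zero_le i)
    rw [h0]
    exact M.zero_mem
  | succ D0 ih =>
    intro h u hu hd
    have hg := hK u hu D0 hd
    obtain ⟨v, hv, hv', hdv⟩ := ds8_span P d m K M cls D0
      (fun L h1 h2 h3 => h L h1 h2 (by omega)) _ hg
    have h1 : DLt D0 (u - v) := by
      intro n hn
      have e : u - v = (u - homogeneousComponent D0 u) - (v - homogeneousComponent D0 u) := by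
        abel
      rw [e, map_sub, hdv n hn, sub_zero, map_sub]
      rcases Nat.lt_or_eq_of_le hn with hlt | heq
      · rw [hd n hlt, homogeneousComponent_of_mem (homogeneousComponent_mem D0 u),
          if_neg (by omega), sub_zero]
      · subst heq
        rw [homogeneousComponent_of_mem (homogeneousComponent_mem D0 u), if_pos rfl, sub_self]
    have h2 := ih (fun L h1 h2 h3 => h L h1 h2 (by omega)) (u - v) (K.sub_mem hu hv') h1
    have h3 := M.add_mem h2 hv
    rwa [sub_add_cancel] at h3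

end

end WPE
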