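import Pool.Agent.WPE.VGM

/-!
# [WPE-VG] Leading components of the vectors of `V^G`

For `u ∈ V^G` homogeneous, the component of highest polynomial degree is in `BP P`, the algebra
generated by the jets of the `P_i`, and every bihomogeneous element of `BP P` is such a component.
`BP P` is the intersection of the algebras `BJ A j`; it contains all jets of Weyl group invariant
polynomials.
-/

namespace WPE

open WPQ MvPolynomial

noncomputable section

variable {ι : Type} [Fintype ι] [DecidableEq ι] {A : Matrix ι ι ℤ} {p : ℕ}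

/-- The jets of an `s_j`-invariant polynomial are in `B_j`. -/
theorem vgl_jet_BJ (hA : IsADE A) (j : ι) (Q : MvPolynomial ι ℂ) (hQ : rfS A j Q = Q) (k : ℕ) :
    jet k Q ∈ BJ A j := by
  obtain ⟨R, hR⟩ := (HA6 ι).inv A hA j Q hQ
  rw [hR]
  exact (HA2 ι).comp (yb A j) R k

/-- `BP P` is the intersection of the `BJ A j`. -/
theorem vgl_BP {P : ι → MvPolynomial ι ℂ} {d : ι → ℕ} {c : ℂ} (hI : Inv A P d c) (f : Fock ι) :
    f ∈ BP P ↔ ∀ j, f ∈ BJ A j := by
  constructor
  · intro hf j
    have hle : BP P ≤ BJ A j := by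
      unfold BP
      rw [Algebra.adjoin_le_iff]
      rintro _ ⟨k, i, rfl⟩
      exact vgl_jet_BJ hI.ade j (P i) (hI.inv i j) k
    exact hle hf
  · exact HA14 ι A P d c hI f

/-- All jets of invariant polynomials are in `BP P`. -/
theorem vgl_jet {P : ι → MvPolynomial ι ℂ} {d : ι → ℕ} {c : ℂ} (hI : Inv A P d c)
    (Q : MvPolynomial ι ℂ) (hQ : ∀ j, rfS A j Q = Q) (k : ℕ) : jet k Q ∈ BP P :=
  (vgl_BP hI _).2 fun j => vgl_jet_BJ hI.ade j Q (hQ j) k

/-- The component of highest degree of a homogeneous vector of `V^G` is in `BP P`. -/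
theorem vgl_lead (hp : 1 ≤ p) {P : ι → MvPolynomial ι ℂ} {d : ι → ℕ} {c : ℂ} (hI : Inv A P d c)
    (u : Fock ι) (n D : ℕ) (hu : u ∈ KK A p) (hn : FH u n) (hD : DLt (D + 1) u) :
    homogeneousComponent D u ∈ BP P := by
  by_cases h0 : homogeneousComponent D u = 0
  · rw [h0]
    exact Subalgebra.zero_mem _
  have htd : u.totalDegree = D := by
    apply le_antisymm
    · by_contra hlt
      push Not at hlt
      have hu0 : u ≠ 0 := by
        rintro rfl
        exact h0 (map_zero _)
      have h2 : homogeneousComponent u.totalDegree u = 0 := hD _ hlt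
      obtain ⟨s, hs, hs2⟩ := Finset.exists_mem_eq_sup u.support
        (Finsupp.support_nonempty_iff.mpr (by simpa using hu0)) (fun s => s.sum fun _ e => e)
      have h3 := congrArg (coeff s) h2
      rw [coeff_homogeneousComponent, coeff_zero] at h3
      have h4 : s.degree = u.totalDegree := by
        rw [totalDegree, hs2]
        rfl
      rw [if_pos h4] at h3
      exact (mem_support_iff.mp hs) h3
    · by_contra hlt
      push Not at hlt
      exact h0 (homogeneousComponent_eq_zero _ _ hlt)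
  refine (vgl_BP hI _).2 fun j => ?_
  have h := vg_rank hI.ade hp j u n hn (hu.2 j)
  rwa [htd] at h

/-- Every bihomogeneous element of `BP P` is the leading component of a vector of `V^G`. -/
theorem vgl_lift (hp : 2 ≤ p) (ε : Cocycle A p) {w : ι → Fock ι} {P : ι → MvPolynomial ι ℂ}
    {d : ι → ℕ} {c : ℂ} (hG : Gens A p w P d) (hI : Inv A P d c) (g : Fock ι) (D n : ℕ)
    (hg : g ∈ BP P) (hD : g.IsHomogeneous D) (hn : FH g n) :
    ∃ u ∈ KK A p, FH u n ∧ DLt D (u - g) := by
  have hsp := (vg_6 (ι := ι)).span P d hG.hom g D n hg hD hn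
  clear hg hD hn
  induction hsp using Submodule.span_induction with
  | mem x hx =>
    obtain ⟨L, h1, h2, rfl⟩ := hx
    refine ⟨wo ε w L, (vg_7 hI.ade hp ε).mem w P d hG L, ?_, ?_⟩
    · exact h2 ▸ (vg_7 hI.ade hp ε).wt w P d hG L
    · exact h1 ▸ (vg_7 hI.ade hp ε).top w P d hG L
  | zero =>
    exact ⟨0, Submodule.zero_mem _, isWeightedHomogeneous_zero _ _ _, by
      rw [sub_zero]
      exact (vg_1 (ι := ι)).z0 D⟩
  | add x y hx hy ihx ihy =>
    obtain ⟨u, h1, h2, h3⟩ := ihx
    obtain ⟨v, k1, k2, k3⟩ := ihy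
    refine ⟨u + v, Submodule.add_mem _ h1 k1, h2.add k2, ?_⟩
    rw [add_sub_add_comm]
    exact (vg_1 (ι := ι)).add D _ _ h3 k3
  | smul a x hx ih =>
    obtain ⟨u, h1, h2, h3⟩ := ih
    refine ⟨a • u, Submodule.smul_mem _ a h1, ?_, ?_⟩
    · exact (weightedHomogeneousSubmodule ℂ wF n).smul_mem a h2
    · rw [← smul_sub]
      exact (vg_1 (ι := ι)).smul D a _ h3

end

end WPE
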