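import Pool.Agent.WPE.DSD
import Pool.Agent.WPE.VGL

/-! [DV1] lifts with parity -/

namespace WPE

open WPQ MvPolynomial

noncomputable section

/-- the diagram automorphism is an involution -/
theorem dv1_invo (l : ℕ) (a1 : st_DA1 l) (f : Fock (Fin l)) : thF (sgD l) (thF (sgD l) f) = f := by
  unfold thF
  rw [rename_rename]
  have h : ((fun x : Fin l × ℕ => ((sgD l) x.1, x.2)) ∘ fun x : Fin l × ℕ => ((sgD l) x.1, x.2)) = id := by
    funext x
    obtain ⟨i, k⟩ := x
    show ((sgD l) ((sgD l) i), k) = (i, k)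
    rw [a1.invo]
  rw [h, rename_id_apply]

/-- the lift of an element of `BP` with a given parity -/
theorem dv1_lift (l p : ℕ) (hp : 2 ≤ p) (ε : Cocycle (CartanMatrix.D l) p) (hK : KData l p)
    (a1 : st_DA1 l) (a6 : st_DA6 l) (s1 : st_DS1 (CartanMatrix.D l) p (sgD l)) (g : Fock (Fin l))
    (D n : ℕ) (s : ℂ) (hs : s * s = 1) (hg : g ∈ BP (PD l)) (hD : g.IsHomogeneous D) (hn : FH g n)
    (hth : thF (sgD l) g = s • g) :
    ∃ u ∈ KH (CartanMatrix.D l) p n, DLt D (u - g) ∧ thF (sgD l) u = s • u := by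
  obtain ⟨w, P, d, c, hG, hI⟩ := hK
  obtain ⟨c', hI'⟩ := a6
  have hgP : g ∈ BP P := (vgl_BP hI g).2 ((vgl_BP hI' g).1 hg)
  obtain ⟨u0, h1, h2, h3⟩ := vgl_lift hp ε hG hI g D n hgP hD hn
  refine ⟨(1 / 2 : ℂ) • (u0 + s • thF (sgD l) u0), ⟨?_, ?_⟩, ?_, ?_⟩
  · exact Submodule.smul_mem _ _ (Submodule.add_mem _ h1 (Submodule.smul_mem _ _ (s1.kk u0 h1)))
  · exact Submodule.smul_mem _ _ (Submodule.add_mem _ h2 (Submodule.smul_mem _ _ (s1.fh u0 n h2)))
  · have e1 : (1 / 2 : ℂ) • (u0 + s • thF (sgD l) u0) - g =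
        (1 / 2 : ℂ) • ((u0 - g) + s • thF (sgD l) (u0 - g)) := by
      rw [map_sub, hth, smul_sub, smul_smul, hs, one_smul]
      module
    rw [e1]
    exact (vg_1 (ι := Fin l)).smul D _ _ ((vg_1 (ι := Fin l)).add D _ _ h3
      ((vg_1 (ι := Fin l)).smul D _ _ (s1.dl D _ h3)))
  · rw [map_smul, map_add, map_smul, dv1_invo l a1, smul_add, smul_add, smul_add, smul_comm s,
      smul_comm s ((1 / 2 : ℂ)) (s • thF (sgD l) u0), smul_smul s s, hs, one_smul]
    exact add_comm _ _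

/-- the jets of the negative of a polynomial -/
theorem dv1_jet_neg (l k : ℕ) (P : MvPolynomial (Fin l) ℂ) : jet k (-P) = -jet k P := by
  unfold jet
  rw [map_neg, map_neg]

/-- the parity of the products of jets -/
theorem dv1_pj (l p : ℕ) (a2 : st_DA2 l) (s1 : st_DS1 (CartanMatrix.D l) p (sgD l))
    (L : List (Fin l × ℕ)) : thF (sgD l) (pj (PD l) L) = (-1 : ℂ) ^ noe l L • pj (PD l) L := by
  induction L with
  | nil =>
    unfold pj noe
    rw [List.map_nil, List.prod_nil, List.filter_nil, List.length_nil, pow_zero, one_smul, map_one]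
  | cons x L ih =>
    have e1 : pj (PD l) (x :: L) = jet x.2 (PD l x.1) * pj (PD l) L := by
      unfold pj
      rw [List.map_cons, List.prod_cons]
    rw [e1, map_mul, ih, s1.jt, a2.th]
    by_cases h : (x.1 : ℕ) + 1 = l
    · have e2 : noe l (x :: L) = noe l L + 1 := by
        unfold noe
        rw [List.filter_cons_of_pos (by simpa using h), List.length_cons]
      rw [if_pos h, dv1_jet_neg, e2, pow_succ, mul_smul_comm, neg_mul, smul_neg, mul_neg_one, neg_smul]
    · have e2 : noe l (x :: L) = noe l L := by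
        unfold noe
        rw [List.filter_cons_of_neg (by simpa using h)]
      rw [if_neg h, e2, mul_smul_comm]

/-- the products of jets are in `BP` -/
theorem dv1_pj_mem (l : ℕ) (L : List (Fin l × ℕ)) : pj (PD l) L ∈ BP (PD l) := by
  unfold pj
  refine Subalgebra.list_prod_mem _ ?_
  intro y hy
  obtain ⟨x, _, rfl⟩ := List.mem_map.1 hy
  exact Algebra.subset_adjoin ⟨x.2, x.1, rfl⟩

theorem DV1 (l p : ℕ) (hl : 4 ≤ l) (hp : 2 ≤ p) (ε : Cocycle (CartanMatrix.D l) p) (hK : KData l p)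
    (a1 : st_DA1 l) (a2 : st_DA2 l) (a6 : st_DA6 l) (s1 : st_DS1 (CartanMatrix.D l) p (sgD l))
    (s5 : st_DS5 (Fin l)) : st_DV1 l p := by
  constructor
  · intro L
    refine dv1_lift l p hp ε hK a1 a6 s1 (pj (PD l) L) (dgL (dD l) L) (wtL (dD l) L) _ ?_
      (dv1_pj_mem l L) ((vg_6 (ι := Fin l)).pj_hom _ _ a2.hom L) ((vg_6 (ι := Fin l)).pj_wt _ _ a2.hom L)
      (dv1_pj l p a2 s1 L)
    rw [← mul_pow, neg_one_mul, neg_neg, one_pow]
  · intro a g hg
    obtain ⟨⟨hg1, hg2⟩, hg3⟩ := hg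
    have hhom : g.IsHomogeneous a := hg1
    have hinv : ∀ j, rfS (CartanMatrix.D l) j g = g := by
      intro j
      have h1 := (Submodule.mem_iInf _).1 hg2 j
      rw [LinearMap.mem_ker, LinearMap.sub_apply, LinearMap.id_apply, sub_eq_zero] at h1
      exact h1
    have hren : rename (sgD l) g = g := by
      have h1 := hg3
      rw [SetLike.mem_coe, LinearMap.mem_ker, LinearMap.sub_apply, LinearMap.id_apply, sub_eq_zero] at h1
      exact h1
    have hj0 : jet 0 g = inc0 g := (HA1 (Fin l)).zero g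
    obtain ⟨c', hI'⟩ := a6
    have hBP : inc0 g ∈ BP (PD l) := by
      rw [← hj0]
      exact vgl_jet hI' g hinv 0
    have hwt : FH (inc0 g : Fock (Fin l)) a := by
      rw [← hj0]
      exact (vg_6 (ι := Fin l)).jet_wt g a 0 hhom
    have hdeg : (inc0 g : Fock (Fin l)).IsHomogeneous a := (vg_6 (ι := Fin l)).inc_hom g a hhom
    obtain ⟨u, h1, h2, h3⟩ := dv1_lift l p hp ε hK a1 ⟨c', hI'⟩ s1 (inc0 g) a a 1 (one_mul 1) hBP
      hdeg hwt (by rw [one_smul, ← hj0, s1.jt, hren])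
    refine ⟨u, ⟨h1, ?_⟩, ?_⟩
    · rw [SetLike.mem_coe, LinearMap.mem_ker, LinearMap.sub_apply, LinearMap.id_apply, sub_eq_zero]
      rw [one_smul] at h3
      exact h3
    · have h4 := s5.hc u a h1.2
      have h5 : homogeneousComponent a (u - inc0 g) = 0 := h2 a le_rfl
      rw [map_sub, sub_eq_zero, homogeneousComponent_of_mem hdeg, if_pos rfl] at h5
      rw [h5] at h4
      have h6 := congrArg (syF (Fin l)) h4
      rwa [s5.inc, s5.inc] at h6

end

end WPE
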