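import Pool.Agent.WPE.DSD
import Pool.Agent.WPE.VGM

/-! [DV10] spanning of the odd vectors

Words are moved with permutations; `dv10_mul` is the leading component of `a_(-1) b` for lifts `a`, `b`
of two words, `dv10_der` that of `dT u` for the lift `u` of one letter. -/

namespace WPE

open WPQ MvPolynomial

noncomputable section

/-- `pj` is invariant under permutations -/
private theorem dv10_pj {l : ℕ} {L L' : List (Fin l × ℕ)} (h : L.Perm L') :
    (pj (PD l) L : Fock (Fin l)) = pj (PD l) L' := by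
  unfold pj
  exact (h.map _).prod_eq

/-- `dgL` is invariant under permutations -/
private theorem dv10_dg {l : ℕ} {L L' : List (Fin l × ℕ)} (h : L.Perm L') :
    dgL (dD l) L = dgL (dD l) L' := by
  unfold dgL
  exact (h.map _).sum_eq

/-- `wtL` is invariant under permutations -/
private theorem dv10_wt {l : ℕ} {L L' : List (Fin l × ℕ)} (h : L.Perm L') :
    wtL (dD l) L = wtL (dD l) L' := by
  unfold wtL
  exact (h.map _).sum_eq

/-- `noe` is invariant under permutations -/
private theorem dv10_noe {l : ℕ} {L L' : List (Fin l × ℕ)} (h : L.Perm L') :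
    noe l L = noe l L' := by
  unfold noe
  exact (h.filter _).length_eq

/-- first letter -/
private theorem dv10_cons_eq {l : ℕ} (x : Fin l × ℕ) (L : List (Fin l × ℕ)) :
    (pj (PD l) (x :: L) : Fock (Fin l)) = pj (PD l) [x] * pj (PD l) L ∧
    dgL (dD l) (x :: L) = dgL (dD l) [x] + dgL (dD l) L ∧
    wtL (dD l) (x :: L) = wtL (dD l) [x] + wtL (dD l) L ∧
    noe l (x :: L) = noe l [x] + noe l L := by
  refine ⟨?_, ?_, ?_, ?_⟩
  · simp [pj]
  · simp [dgL]
  · simp [wtL]
  · unfold noe
    rw [← List.length_append, ← List.filter_append]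
    rfl

/-- degrees are positive -/
private theorem dv10_dpos {l : ℕ} (hl : 1 ≤ l) (i : Fin l) : 1 ≤ dD l i := by
  unfold dD
  split_ifs <;> omega

/-- weights of nonempty words are positive -/
private theorem dv10_wpos {l : ℕ} (hl : 1 ≤ l) (L : List (Fin l × ℕ)) (h : L ≠ []) :
    1 ≤ wtL (dD l) L := by
  cases L with
  | nil => exact absurd rfl h
  | cons x L =>
    rw [(dv10_cons_eq x L).2.2.1]
    have := dv10_dpos hl x.1
    simp [wtL]
    omega

/-- the degree of a vector with leading component `pj` -/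
private theorem dv10_deg {l : ℕ} (a2 : st_DA2 l) (L : List (Fin l × ℕ)) (u : Fock (Fin l))
    (h : DLt (dgL (dD l) L) (u - pj (PD l) L)) : DLt (dgL (dD l) L + 1) u := by
  have h1 : DLt (dgL (dD l) L + 1) (pj (PD l) L : Fock (Fin l)) :=
    (vg_1 (ι := Fin l)).hom _ _ ((vg_6 (ι := Fin l)).pj_hom (PD l) (dD l) a2.hom L)
  have h2 := (vg_1 (ι := Fin l)).add _ _ _
    ((vg_1 (ι := Fin l)).mono _ (dgL (dD l) L + 1) _ (by omega) h) h1
  rwa [sub_add_cancel] at h2

/-- the leading component of a product -/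
private theorem dv10_mul {l p : ℕ} {ε : Cocycle (CartanMatrix.D l) p} (a2 : st_DA2 l)
    (s3 : st_DS3 ε) (L L' : List (Fin l × ℕ)) (u g : Fock (Fin l))
    (h : DLt (dgL (dD l) L) (u - pj (PD l) L)) (h' : DLt (dgL (dD l) L') (g - pj (PD l) L')) :
    DLt (dgL (dD l) L + dgL (dD l) L') (md ε u (-1) g - pj (PD l) L * pj (PD l) L') := by
  have V := vg_1 (ι := Fin l)
  have hu := dv10_deg a2 L u h
  have hg := dv10_deg a2 L' g h'
  have h1 : DLt (dgL (dD l) L + 1) (pj (PD l) L : Fock (Fin l)) :=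
    V.hom _ _ ((vg_6 (ι := Fin l)).pj_hom (PD l) (dD l) a2.hom L)
  have e : md ε u (-1) g - pj (PD l) L * pj (PD l) L' = (md ε u (-1) g - u * g) +
      ((u - pj (PD l) L) * g + (g - pj (PD l) L') * pj (PD l) L) := by
    ring
  rw [e]
  refine V.add _ _ _ (s3.mul _ _ _ _ hu hg) (V.add _ _ _ (V.mul _ _ _ _ h hg) ?_)
  rw [add_comm]
  exact V.mul _ _ _ _ h' h1

/-- the leading component of a derivative -/
private theorem dv10_der {l p : ℕ} {ε : Cocycle (CartanMatrix.D l) p}
    (s3 : st_DS3 ε) (i : Fin l) (k : ℕ) (u : Fock (Fin l))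
    (h : DLt (dgL (dD l) [(i, k)]) (u - pj (PD l) [(i, k)])) :
    DLt (dgL (dD l) [(i, k + 1)]) (((k : ℂ) + 1)⁻¹ • dT (Fin l) u - pj (PD l) [(i, k + 1)]) := by
  have V := vg_1 (ι := Fin l)
  have hk : (k : ℂ) + 1 ≠ 0 := by exact_mod_cast Nat.succ_ne_zero k
  have h1 := V.smul _ ((k : ℂ) + 1)⁻¹ _ (s3.dt _ _ h)
  have e1 : ∀ n : ℕ, (pj (PD l) [(i, n)] : Fock (Fin l)) = jet n (PD l i) := by
    intro n
    simp [pj]
  rw [map_sub, e1, s3.jdt, ← MvPolynomial.smul_eq_C_mul, smul_sub, smul_smul,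
    inv_mul_cancel₀ hk, one_smul] at h1
  rw [e1]
  have e2 : dgL (dD l) [(i, k + 1)] = dgL (dD l) [(i, k)] := by simp [dgL]
  rw [e2]
  exact h1

/-- a letter different from `(l - 1, k)` -/
private theorem dv10_letter {l : ℕ} (L : List (Fin l × ℕ)) (h : noe l L < L.length) :
    ∃ x ∈ L, (x.1 : ℕ) + 1 ≠ l := by
  by_contra hc
  push Not at hc
  unfold noe at h
  rw [List.filter_eq_self.2 (fun x hx => by simpa using hc x hx)] at h
  omega

/-- the lift of a word with an even number of letters `(l - 1, k)` is even -/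
private theorem dv10_ev {l p : ℕ} (v1 : st_DV1 l p) (L : List (Fin l × ℕ))
    (h : Even (noe l L)) : ∃ u ∈ Kev (CartanMatrix.D l) p (sgD l) (wtL (dD l) L),
      DLt (dgL (dD l) L) (u - pj (PD l) L) := by
  obtain ⟨u, hu, h1, h2⟩ := v1.lift L
  refine ⟨u, Submodule.mem_inf.2 ⟨hu, ?_⟩, h1⟩
  rw [LinearMap.mem_ker, LinearMap.sub_apply, AlgHom.toLinearMap_apply, h2, h.neg_one_pow,
    one_smul, LinearMap.id_apply, sub_self]

/-- the lift of a word with an odd number of letters `(l - 1, k)` is odd -/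
private theorem dv10_od {l p : ℕ} (v1 : st_DV1 l p) (L : List (Fin l × ℕ))
    (h : Odd (noe l L)) : ∃ u ∈ Kod (CartanMatrix.D l) p (sgD l) (wtL (dD l) L),
      DLt (dgL (dD l) L) (u - pj (PD l) L) := by
  obtain ⟨u, hu, h1, h2⟩ := v1.lift L
  refine ⟨u, Submodule.mem_inf.2 ⟨hu, ?_⟩, h1⟩
  rw [LinearMap.mem_ker, LinearMap.add_apply, AlgHom.toLinearMap_apply, h2, h.neg_one_pow,
    neg_one_smul, LinearMap.id_apply, neg_add_cancel]

/-- products of even and odd vectors -/
private theorem dv10_comp {l p : ℕ} {ε : Cocycle (CartanMatrix.D l) p} (v3 : st_DV3 l ε) (m : ℕ) :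
    Comp ε (Kev (CartanMatrix.D l) p (sgD l)) (Kod (CartanMatrix.D l) p (sgD l)) m ≤
      Kod (CartanMatrix.D l) p (sgD l) m := by
  refine Submodule.span_le.2 ?_
  rintro f ⟨i, j, a, b, hi, hj, hm, ha, hb, rfl⟩
  exact v3.eo i j m (-1) a b ha hb (by omega)

theorem DV10 (l p : ℕ) (hl : 4 ≤ l) (ε : Cocycle (CartanMatrix.D l) p) (a2 : st_DA2 l)
    (s3 : st_DS3 ε) (s5 : st_DS5 (Fin l)) (s8 : st_DS8 (Fin l))
    (v1 : st_DV1 l p) (v2 : st_DV2 l p) (v3 : st_DV3 l ε) : st_DV10 l ε := by
  intro Pf hPf hPf2 m hm hml u hu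
  refine s8 (PD l) (dD l) m _ _ (fun L => Odd (noe l L)) (v2.od m) (m + 1) ?_ u hu
    (s5.dl _ _ (Submodule.mem_inf.1 (Submodule.mem_inf.1 hu).1).2)
  intro L hL hw _
  by_cases hc : noe l L < L.length
  · obtain ⟨x, hx, hxl⟩ := dv10_letter L hc
    have hp := List.perm_cons_erase hx
    generalize L.erase x = L' at hp
    have hnx : noe l [x] = 0 := by simp [noe, hxl]
    rw [dv10_noe hp, (dv10_cons_eq x L').2.2.2, hnx, zero_add] at hL
    rw [dv10_wt hp] at hw
    rw [dv10_dg hp, dv10_pj hp]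
    have hx0 : Even (noe l [x]) := by rw [hnx]; exact Even.zero
    have hne : L' ≠ [] := by
      rintro rfl
      simp [noe] at hL
    obtain ⟨y, hy, hy2⟩ := dv10_ev v1 [x] hx0
    obtain ⟨z, hz, hz2⟩ := dv10_od v1 L' hL
    have hwm := (dv10_cons_eq x L').2.2.1
    have hmem : md ε y (-1) z ∈ Comp ε (Kev (CartanMatrix.D l) p (sgD l))
        (Kod (CartanMatrix.D l) p (sgD l)) m :=
      Submodule.subset_span ⟨_, _, y, z, dv10_wpos (by omega) _ (by simp),
        dv10_wpos (by omega) _ hne, by rw [← hw, hwm], hy, hz, rfl⟩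
    refine ⟨md ε y (-1) z, Submodule.mem_sup_left (Submodule.mem_sup_left hmem),
      dv10_comp v3 m hmem, ?_⟩
    rw [(dv10_cons_eq x L').1, (dv10_cons_eq x L').2.1]
    exact dv10_mul a2 s3 _ _ _ _ hy2 hz2
  · have hall : ∀ x ∈ L, (x.1 : ℕ) + 1 = l := by
      by_contra hc2
      push Not at hc2
      refine hc (lt_of_le_of_ne (List.length_filter_le _ _) fun hcc => ?_)
      obtain ⟨x, hx, hxl⟩ := hc2
      have := List.length_filter_eq_length_iff.1 hcc x hx
      exact hxl (by simpa using this)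
    have hnL : noe l L = L.length := le_antisymm (List.length_filter_le _ _) (not_lt.1 hc)
    rw [hnL] at hL
    have hd : ∀ x ∈ L, dD l x.1 = l := by
      intro x hx
      unfold dD
      rw [if_pos (hall x hx)]
    match L, hall, hL, hw, hd with
    | [], _, hL, _, _ => simp at hL
    | [(i, 0)], hall, _, hw, hd =>
      have hi := hall (i, 0) (by simp)
      have hdi := hd (i, 0) (by simp)
      simp only at hi hdi
      simp only [wtL, List.map_cons, List.map_nil, List.sum_cons, List.sum_nil, hdi] at hw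
      have hml2 : m = l := by omega
      subst hml2
      refine ⟨Pf, ?_, hPf, ?_⟩
      · refine Submodule.mem_sup_right ?_
        rw [if_pos rfl]
        exact Submodule.mem_span_singleton_self _
      · have e1 : (pj (PD m) [(i, 0)] : Fock (Fin m)) = inc0 (pfS m) := by
          rw [← (HA1 (Fin m)).zero]
          simp [pj, PD, hi]
        have e2 : dgL (dD m) [(i, 0)] = m := by
          simp [dgL, hdi]
        rw [e1, e2]
        exact hPf2
    | [(i, k + 1)], hall, _, hw, hd =>
      have hi := hall (i, k + 1) (by simp)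
      have hdi := hd (i, k + 1) (by simp)
      simp only at hi hdi
      obtain ⟨y, hy, hy2⟩ := dv10_od v1 [(i, k)] (by simp [noe, hi])
      have hwm : wtL (dD l) [(i, k)] + 1 = m := by
        simp only [wtL, List.map_cons, List.map_nil, List.sum_cons, List.sum_nil] at hw ⊢
        omega
      refine ⟨((k : ℂ) + 1)⁻¹ • dT (Fin l) y, ?_, ?_, dv10_der s3 i k y hy2⟩
      · refine Submodule.mem_sup_left (Submodule.mem_sup_right (Submodule.smul_mem _ _ ⟨y, ?_, rfl⟩))
        rw [← hwm, Nat.add_sub_cancel]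
        exact hy
      · rw [← hwm]
        exact Submodule.smul_mem _ _ (v3.oT _ _ hy)
    | [x, y], _, hL, _, _ => exact absurd hL (by simp [Nat.not_odd_iff_even])
    | x :: y :: z :: L', _, _, hw, hd =>
      have h1 := hd x (by simp)
      have h2 := hd y (by simp)
      have h3 := hd z (by simp)
      simp only [wtL, List.map_cons, List.sum_cons, h1, h2, h3] at hw
      omega

end

end WPE
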