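import Pool.Agent.WPE.DSD
import Pool.Agent.WPE.VGM

/-! [DV11] generation for m > 2l-2

Words are moved with permutations; `dv11_mul` is the leading component of `a_(-1) b` for lifts `a`, `b`
of two words, `dv11_der` that of `dT u` for the lift `u` of one letter. -/

namespace WPE

open WPQ MvPolynomial

noncomputable section

/-- `pj` is invariant under permutations -/
private theorem dv11_pj {l : ℕ} {L L' : List (Fin l × ℕ)} (h : L.Perm L') :
    (pj (PD l) L : Fock (Fin l)) = pj (PD l) L' := by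
  unfold pj
  exact (h.map _).prod_eq

/-- `dgL` is invariant under permutations -/
private theorem dv11_dg {l : ℕ} {L L' : List (Fin l × ℕ)} (h : L.Perm L') :
    dgL (dD l) L = dgL (dD l) L' := by
  unfold dgL
  exact (h.map _).sum_eq

/-- `wtL` is invariant under permutations -/
private theorem dv11_wt {l : ℕ} {L L' : List (Fin l × ℕ)} (h : L.Perm L') :
    wtL (dD l) L = wtL (dD l) L' := by
  unfold wtL
  exact (h.map _).sum_eq

/-- `noe` is invariant under permutations -/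
private theorem dv11_noe {l : ℕ} {L L' : List (Fin l × ℕ)} (h : L.Perm L') :
    noe l L = noe l L' := by
  unfold noe
  exact (h.filter _).length_eq

/-- first letter -/
private theorem dv11_cons_eq {l : ℕ} (x : Fin l × ℕ) (L : List (Fin l × ℕ)) :
    (pj (PD l) (x :: L) : Fock (Fin l)) = pj (PD l) [x] * pj (PD l) L ∧
    dgL (dD l) (x :: L) = dgL (dD l) [x] + dgL (dD l) L ∧
    wtL (dD l) (x :: L) = wtL (dD l) [x] + wtL (dD l) L ∧
    noe l (x :: L) = noe l [x] + noe l L := by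
  refine ⟨?_, ?_, ?_, ?_⟩
  · simp [pj]
  · simp [dgL]
  · simp [wtL]
  · unfold noe
    rw [← List.length_append, ← List.filter_append]
    rfl

/-- degrees are positive -/
private theorem dv11_dpos {l : ℕ} (hl : 1 ≤ l) (i : Fin l) : 1 ≤ dD l i := by
  unfold dD
  split_ifs <;> omega

/-- weights of nonempty words are positive -/
private theorem dv11_wpos {l : ℕ} (hl : 1 ≤ l) (L : List (Fin l × ℕ)) (h : L ≠ []) :
    1 ≤ wtL (dD l) L := by
  cases L with
  | nil => exact absurd rfl h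
  | cons x L =>
    rw [(dv11_cons_eq x L).2.2.1]
    have := dv11_dpos hl x.1
    simp [wtL]
    omega

/-- the degree of a vector with leading component `pj` -/
private theorem dv11_deg {l : ℕ} (a2 : st_DA2 l) (L : List (Fin l × ℕ)) (u : Fock (Fin l))
    (h : DLt (dgL (dD l) L) (u - pj (PD l) L)) : DLt (dgL (dD l) L + 1) u := by
  have h1 : DLt (dgL (dD l) L + 1) (pj (PD l) L : Fock (Fin l)) :=
    (vg_1 (ι := Fin l)).hom _ _ ((vg_6 (ι := Fin l)).pj_hom (PD l) (dD l) a2.hom L)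
  have h2 := (vg_1 (ι := Fin l)).add _ _ _
    ((vg_1 (ι := Fin l)).mono _ (dgL (dD l) L + 1) _ (by omega) h) h1
  rwa [sub_add_cancel] at h2

/-- the leading component of a product -/
private theorem dv11_mul {l p : ℕ} {ε : Cocycle (CartanMatrix.D l) p} (a2 : st_DA2 l)
    (s3 : st_DS3 ε) (L L' : List (Fin l × ℕ)) (u g : Fock (Fin l))
    (h : DLt (dgL (dD l) L) (u - pj (PD l) L)) (h' : DLt (dgL (dD l) L') (g - pj (PD l) L')) :
    DLt (dgL (dD l) L + dgL (dD l) L') (md ε u (-1) g - pj (PD l) L * pj (PD l) L') := by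
  have V := vg_1 (ι := Fin l)
  have hu := dv11_deg a2 L u h
  have hg := dv11_deg a2 L' g h'
  have h1 : DLt (dgL (dD l) L + 1) (pj (PD l) L : Fock (Fin l)) :=
    V.hom _ _ ((vg_6 (ι := Fin l)).pj_hom (PD l) (dD l) a2.hom L)
  have e : md ε u (-1) g - pj (PD l) L * pj (PD l) L' = (md ε u (-1) g - u * g) +
      ((u - pj (PD l) L) * g + (g - pj (PD l) L') * pj (PD l) L) := by
    ring
  rw [e]
  refine V.add _ _ _ (s3.mul _ _ _ _ hu hg) (V.add _ _ _ (V.mul _ _ _ _ h hg) ?_)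
  rw [add_comm]
  exact V.mul _ _ _ _ h' h1

/-- the leading component of a derivative -/
private theorem dv11_der {l p : ℕ} {ε : Cocycle (CartanMatrix.D l) p}
    (s3 : st_DS3 ε) (i : Fin l) (k : ℕ) (u : Fock (Fin l))
    (h : DLt (dgL (dD l) [(i, k)]) (u - pj (PD l) [(i, k)])) :
    DLt (dgL (dD l) [(i, k + 1)]) (((k : ℂ) + 1)⁻¹ • dT (Fin l) u - pj (PD l) [(i, k + 1)]) := by
  have V := vg_1 (ι := Fin l)
  have hk : (k : ℂ) + 1 ≠ 0 := by exact_mod_cast Nat.succ_ne_zero k
  have h1 := V.smul _ ((k : ℂ) + 1)⁻¹ _ (s3.dt _ _ h)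
  have e1 : ∀ n : ℕ, (pj (PD l) [(i, n)] : Fock (Fin l)) = jet n (PD l i) := by
    intro n
    simp [pj]
  rw [map_sub, e1, s3.jdt, ← MvPolynomial.smul_eq_C_mul, smul_sub, smul_smul,
    inv_mul_cancel₀ hk, one_smul] at h1
  rw [e1]
  have e2 : dgL (dD l) [(i, k + 1)] = dgL (dD l) [(i, k)] := by simp [dgL]
  rw [e2]
  exact h1

/-- products of vectors of `V^G` -/
private theorem dv11_comp {l p : ℕ} {ε : Cocycle (CartanMatrix.D l) p} (v3 : st_DV3 l ε) (m : ℕ) :
    Comp ε (KH (CartanMatrix.D l) p) (KH (CartanMatrix.D l) p) m ≤ KH (CartanMatrix.D l) p m := by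
  refine Submodule.span_le.2 ?_
  rintro f ⟨i, j, a, b, hi, hj, hm, ha, hb, rfl⟩
  exact v3.hh i j m (-1) a b ha hb (by omega)

theorem DV11 (l p : ℕ) (hl : 4 ≤ l) (ε : Cocycle (CartanMatrix.D l) p) (a2 : st_DA2 l)
    (s3 : st_DS3 ε) (s5 : st_DS5 (Fin l)) (s8 : st_DS8 (Fin l))
    (v1 : st_DV1 l p) (v2 : st_DV2 l p) (v3 : st_DV3 l ε) : st_DV11 l ε := by
  intro m hm u hu
  refine s8 (PD l) (dD l) m _ _ (fun _ => True) (v2.all m) (m + 1) ?_ u hu
    (s5.dl _ _ (Submodule.mem_inf.1 hu).2)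
  intro L _ hw _
  match L, hw with
  | [], hw =>
    simp [wtL] at hw
    omega
  | [(i, 0)], hw =>
    simp only [wtL, List.map_cons, List.map_nil, List.sum_cons, List.sum_nil] at hw
    unfold dD at hw
    have hi := i.2
    split_ifs at hw <;> omega
  | [(i, k + 1)], hw =>
    obtain ⟨y, hy, hy2, -⟩ := v1.lift [(i, k)]
    have hwm : wtL (dD l) [(i, k)] + 1 = m := by
      simp only [wtL, List.map_cons, List.map_nil, List.sum_cons, List.sum_nil] at hw ⊢
      omega
    refine ⟨((k : ℂ) + 1)⁻¹ • dT (Fin l) y, ?_, ?_, dv11_der s3 i k y hy2⟩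
    · refine Submodule.mem_sup_right (Submodule.smul_mem _ _ ⟨y, ?_, rfl⟩)
      rw [← hwm, Nat.add_sub_cancel]
      exact hy
    · rw [← hwm]
      exact Submodule.smul_mem _ _ (v3.hT _ _ hy)
  | x :: x' :: L', hw =>
    obtain ⟨y, hy, hy2, -⟩ := v1.lift [x]
    obtain ⟨z, hz, hz2, -⟩ := v1.lift (x' :: L')
    have hwm := (dv11_cons_eq x (x' :: L')).2.2.1
    have hmem : md ε y (-1) z ∈ Comp ε (KH (CartanMatrix.D l) p) (KH (CartanMatrix.D l) p) m :=
      Submodule.subset_span ⟨_, _, y, z, dv11_wpos (by omega) _ (by simp),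
        dv11_wpos (by omega) _ (by simp), by rw [← hw, hwm], hy, hz, rfl⟩
    refine ⟨md ε y (-1) z, Submodule.mem_sup_left hmem, dv11_comp v3 m hmem, ?_⟩
    rw [(dv11_cons_eq x (x' :: L')).1, (dv11_cons_eq x (x' :: L')).2.1]
    exact dv11_mul a2 s3 _ _ _ _ hy2 hz2

end

end WPE
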