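import Pool.Agent.WPE.DSD
import Pool.Agent.WPE.VGL

/-! [DV2] leading components of even and odd vectors -/

namespace WPE

open WPQ MvPolynomial

noncomputable section

/-- The components by degree of a weighted homogeneous element are weighted homogeneous. -/
private theorem dv2_fh {ι : Type} (D n : ℕ) (f : Fock ι) (h : FH f n) :
    FH (homogeneousComponent D f) n := by
  classical
  intro s hs
  rw [coeff_homogeneousComponent] at hs
  by_cases h1 : s.degree = D
  · rw [if_pos h1] at hs
    exact h hs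
  · rw [if_neg h1] at hs
    exact absurd rfl hs

/-- The jets are odd. -/
private theorem dv2_neg {ι : Type} [Fintype ι] [DecidableEq ι] (k : ℕ) (P : MvPolynomial ι ℂ) :
    jet k (-P) = -jet k P := by
  have h1 := (HA1 ι).add P (-P) k
  have h2 := (HA1 ι).C_ 0 k
  have h3 : (if k = 0 then C 0 else 0 : Fock ι) = 0 := by
    rw [map_zero, ite_self]
  rw [map_zero] at h2
  rw [add_neg_cancel, h2, h3] at h1
  exact (neg_eq_of_add_eq_zero_right h1.symm).symm

/-- The diagram automorphism acts on the products by a sign. -/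
private theorem dv2_pj (l p : ℕ) (a2 : st_DA2 l)
    (s1 : st_DS1 (CartanMatrix.D l) p (sgD l)) (L : List (Fin l × ℕ)) :
    thF (sgD l) (pj (PD l) L) = ((-1 : ℂ) ^ noe l L) • pj (PD l) L := by
  induction L with
  | nil =>
    unfold pj noe
    simp
  | cons x L ih =>
    have e1 : pj (PD l) (x :: L) = jet x.2 (PD l x.1) * pj (PD l) L := by
      unfold pj
      rw [List.map_cons, List.prod_cons]
    rw [e1, map_mul, ih, s1.jt, a2.th]
    by_cases hx : (x.1 : ℕ) + 1 = l
    · have e2 : noe l (x :: L) = noe l L + 1 := by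
        unfold noe
        rw [List.filter_cons_of_pos (by simpa using hx), List.length_cons]
      rw [if_pos hx, e2, dv2_neg, pow_succ, mul_smul_comm, mul_neg_one, neg_smul, neg_mul, smul_neg]
    · have e2 : noe l (x :: L) = noe l L := by
        unfold noe
        rw [List.filter_cons_of_neg (by simpa using hx)]
      rw [if_neg hx, e2, mul_smul_comm]

/-- The projection to a sign keeps the terms of the right parity. -/
private theorem dv2_proj (l p D m : ℕ) (a2 : st_DA2 l)
    (s1 : st_DS1 (CartanMatrix.D l) p (sgD l)) (s : ℂ)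
    (cls : List (Fin l × ℕ) → Prop) (hc : ∀ L, ¬ cls L → s * (-1 : ℂ) ^ noe l L = -1)
    (f : Fock (Fin l)) (hf : f ∈ Submodule.span ℂ {g | ∃ L : List (Fin l × ℕ), dgL (dD l) L = D ∧
      wtL (dD l) L = m ∧ g = pj (PD l) L}) :
    f + s • thF (sgD l) f ∈ Submodule.span ℂ {g | ∃ L : List (Fin l × ℕ), dgL (dD l) L = D ∧
      wtL (dD l) L = m ∧ cls L ∧ g = pj (PD l) L} := by
  refine Submodule.span_induction (p := fun f _ => f + s • thF (sgD l) f ∈ Submodule.span ℂ
    {g | ∃ L : List (Fin l × ℕ), dgL (dD l) L = D ∧ wtL (dD l) L = m ∧ cls L ∧ g = pj (PD l) L})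
    ?_ ?_ ?_ ?_ hf
  · rintro f ⟨L, h1, h2, rfl⟩
    rw [dv2_pj l p a2 s1 L, smul_smul]
    by_cases h : cls L
    · have hm : pj (PD l) L ∈ Submodule.span ℂ {g | ∃ L : List (Fin l × ℕ), dgL (dD l) L = D ∧
          wtL (dD l) L = m ∧ cls L ∧ g = pj (PD l) L} := Submodule.subset_span ⟨L, h1, h2, h, rfl⟩
      exact Submodule.add_mem _ hm (Submodule.smul_mem _ _ hm)
    · rw [hc L h, neg_one_smul, add_neg_cancel]
      exact Submodule.zero_mem _
  · rw [map_zero, smul_zero, add_zero]
    exact Submodule.zero_mem _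
  · intro x y _ _ hx hy
    have e : x + y + s • thF (sgD l) (x + y) = (x + s • thF (sgD l) x) + (y + s • thF (sgD l) y) := by
      rw [map_add, smul_add]
      abel
    rw [e]
    exact Submodule.add_mem _ hx hy
  · intro c x _ hx
    have e : c • x + s • thF (sgD l) (c • x) = c • (x + s • thF (sgD l) x) := by
      rw [map_smul, smul_add, smul_comm s c]
    rw [e]
    exact Submodule.smul_mem _ c hx

/-- All leading components. -/
private theorem dv2_all (l p : ℕ) (hp : 1 ≤ p) (a2 : st_DA2 l) (a6 : st_DA6 l) (m : ℕ)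
    (u : Fock (Fin l)) (hu : u ∈ KH (CartanMatrix.D l) p m) (D : ℕ) (hd : DLt (D + 1) u) :
    homogeneousComponent D u ∈ Submodule.span ℂ {g | ∃ L : List (Fin l × ℕ), dgL (dD l) L = D ∧
      wtL (dD l) L = m ∧ g = pj (PD l) L} := by
  obtain ⟨c, hI⟩ := a6
  have h1 : u ∈ KK (CartanMatrix.D l) p := hu.1
  have h2 : FH u m := (mem_weightedHomogeneousSubmodule ℂ _ _ _).1 hu.2
  exact vg_6.span (PD l) (dD l) a2.hom _ D m (vgl_lead hp hI u m D h1 h2 hd)
    (homogeneousComponent_isHomogeneous D u) (dv2_fh D m u h2)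

theorem DV2 (l p : ℕ) (hl : 4 ≤ l) (hp : 1 ≤ p) (a1 : st_DA1 l) (a2 : st_DA2 l) (a6 : st_DA6 l)
    (s1 : st_DS1 (CartanMatrix.D l) p (sgD l)) : st_DV2 l p where
  all := by
    intro m u hu D hd
    refine Submodule.span_mono ?_ (dv2_all l p hp a2 a6 m u hu D hd)
    rintro g ⟨L, h1, h2, h3⟩
    exact ⟨L, h1, h2, trivial, h3⟩
  ev := by
    intro m u hu D hd
    have h1 := dv2_all l p hp a2 a6 m u hu.1 D hd
    have h2 : thF (sgD l) u = u := by
      have h := LinearMap.mem_ker.1 hu.2
      rw [LinearMap.sub_apply, sub_eq_zero] at h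
      exact h
    have h3 : thF (sgD l) (homogeneousComponent D u) = homogeneousComponent D u := by
      rw [← s1.hc, h2]
    have h4 := dv2_proj l p D m a2 s1 1 (fun L => Even (noe l L)) (fun L hL => by
      rw [Nat.not_even_iff_odd] at hL
      rw [hL.neg_one_pow, one_mul]) _ h1
    rw [h3, one_smul, ← two_smul ℂ] at h4
    have h5 := Submodule.smul_mem _ (1 / 2 : ℂ) h4
    rw [smul_smul] at h5
    norm_num at h5
    simpa using h5
  od := by
    intro m u hu D hd
    have h1 := dv2_all l p hp a2 a6 m u hu.1 D hd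
    have h2 : thF (sgD l) u = -u := by
      have h := LinearMap.mem_ker.1 hu.2
      rw [LinearMap.add_apply] at h
      exact eq_neg_of_add_eq_zero_left h
    have h3 : thF (sgD l) (homogeneousComponent D u) = -homogeneousComponent D u := by
      rw [← s1.hc, h2, map_neg]
    have h4 := dv2_proj l p D m a2 s1 (-1) (fun L => Odd (noe l L)) (fun L hL => by
      rw [Nat.not_odd_iff_even] at hL
      rw [hL.neg_one_pow, mul_one]) _ h1
    rw [h3, neg_one_smul, neg_neg, ← two_smul ℂ] at h4
    have h5 := Submodule.smul_mem _ (1 / 2 : ℂ) h4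
    rw [smul_smul] at h5
    norm_num at h5
    simpa using h5

end

end WPE
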