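import Pool.Agent.WPE.DSD
import Pool.Agent.WPE.VGM

/-! [DV3] closure properties of the even and odd vectors -/

namespace WPE

open WPQ MvPolynomial

noncomputable section

/-- Membership in the even vectors. -/
private theorem dv3_ev {l p : ℕ} (m : ℕ) (f : Fock (Fin l)) :
    f ∈ Kev (CartanMatrix.D l) p (sgD l) m ↔
      (f ∈ KK (CartanMatrix.D l) p ∧ FH f m) ∧ thF (sgD l) f = f := by
  unfold Kev KH
  rw [Submodule.mem_inf, Submodule.mem_inf, LinearMap.mem_ker, LinearMap.sub_apply, sub_eq_zero]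
  exact Iff.rfl

/-- Membership in the odd vectors. -/
private theorem dv3_od {l p : ℕ} (m : ℕ) (f : Fock (Fin l)) :
    f ∈ Kod (CartanMatrix.D l) p (sgD l) m ↔
      (f ∈ KK (CartanMatrix.D l) p ∧ FH f m) ∧ thF (sgD l) f = -f := by
  unfold Kod KH
  rw [Submodule.mem_inf, Submodule.mem_inf, LinearMap.mem_ker, LinearMap.add_apply,
    add_eq_zero_iff_eq_neg]
  exact Iff.rfl

/-- The automorphism is an involution. -/
private theorem dv3_invo {l : ℕ} (a1 : st_DA1 l) (f : Fock (Fin l)) :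
    thF (sgD l) (thF (sgD l) f) = f := by
  unfold thF
  rw [rename_rename]
  have h : ((fun x : Fin l × ℕ => (sgD l x.1, x.2)) ∘ fun x : Fin l × ℕ => (sgD l x.1, x.2)) = id := by
    funext x
    simp only [Function.comp_apply, a1.invo, id_eq]
  rw [h, rename_id]
  rfl

/-- A vector of weight `0` is a constant. -/
private theorem dv3_zero {l : ℕ} (f : Fock (Fin l)) (hf : FH f 0) : f = coeff 0 f • 1 := by
  ext s
  by_cases hs : s = 0
  · subst hs
    simp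
  · have h1 : coeff s f = 0 := by
      by_contra h
      have h2 := hf h
      apply hs
      have h3 : ∀ x, s x = 0 := by
        intro x
        have h5 : wF x ≠ 0 := by
          unfold wF
          omega
        have h4 : s x ≤ Finsupp.weight wF s := Finsupp.le_weight wF h5 s
        omega
      exact Finsupp.ext h3
    rw [h1, coeff_smul, coeff_one, if_neg (Ne.symm hs), smul_zero]

theorem DV3 (l p : ℕ) (hl : 4 ≤ l) (hp : 2 ≤ p) (hA : IsADE (CartanMatrix.D l))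
    (ε : Cocycle (CartanMatrix.D l) p) (a1 : st_DA1 l)
    (s1 : st_DS1 (CartanMatrix.D l) p (sgD l)) (s2 : st_DS2 ε (sgD l)) (s3 : st_DS3 ε) :
    st_DV3 l ε := by
  have h5 := vg_5 hA hp ε
  have h2 := vg_2 hA (by omega) ε
  have hKH : ∀ (m : ℕ) (f : Fock (Fin l)), f ∈ KH (CartanMatrix.D l) p m ↔
      f ∈ KK (CartanMatrix.D l) p ∧ FH f m := fun m f => Iff.rfl
  have hadd : ∀ (n : ℕ) (f g : Fock (Fin l)), FH f n → FH g n → FH (f + g) n := fun n f g hf hg =>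
    hf.add hg
  have hsm : ∀ (n : ℕ) (c : ℂ) (f : Fock (Fin l)), FH f n → FH (c • f) n := fun n c f hf =>
    (weightedHomogeneousSubmodule ℂ wF n).smul_mem c hf
  have hnl : ∀ (u g : Fock (Fin l)) (n : ℤ), md ε (-u) n g = -md ε u n g := by
    intro u g n
    have := h2.smul (-1) u n
    rw [neg_one_smul] at this
    rw [this, LinearMap.smul_apply, neg_one_smul]
  refine ⟨?_, ?_, ?_, ?_, ?_, ?_, ?_, ?_, ?_, ?_, ?_⟩
  · -- sup
    intro m f hf
    obtain ⟨hf1, hf2⟩ := (hKH m f).1 hf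
    have h1 : (1 / 2 : ℂ) • (f + thF (sgD l) f) ∈ Kev (CartanMatrix.D l) p (sgD l) m := by
      rw [dv3_ev]
      refine ⟨⟨Submodule.smul_mem _ _ (Submodule.add_mem _ hf1 (s1.kk f hf1)),
        hsm _ _ _ (hadd _ _ _ hf2 (s1.fh f m hf2))⟩, ?_⟩
      rw [map_smul, map_add, dv3_invo a1, add_comm f]
    have h3 : (1 / 2 : ℂ) • (f - thF (sgD l) f) ∈ Kod (CartanMatrix.D l) p (sgD l) m := by
      rw [dv3_od]
      refine ⟨⟨Submodule.smul_mem _ _ (Submodule.sub_mem _ hf1 (s1.kk f hf1)),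
        hsm _ _ _ ?_⟩, ?_⟩
      · rw [sub_eq_add_neg, ← neg_one_smul ℂ (thF (sgD l) f)]
        exact hadd _ _ _ hf2 (hsm _ _ _ (s1.fh f m hf2))
      · rw [map_smul, map_sub, dv3_invo a1, ← smul_neg, neg_sub]
    have h4 : f = (1 / 2 : ℂ) • (f + thF (sgD l) f) + (1 / 2 : ℂ) • (f - thF (sgD l) f) := by
      rw [← smul_add, add_add_sub_cancel, ← two_smul ℂ f, smul_smul]
      norm_num
    rw [h4]
    exact Submodule.add_mem_sup h1 h3
  · -- ee
    intro i j c n a b ha hb hc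
    rw [dv3_ev] at ha hb ⊢
    refine ⟨⟨h5.md_mem a ha.1.1 b hb.1.1 n, h5.wt i j c a b n ha.1.2 hb.1.2 hc⟩, ?_⟩
    rw [← s2, ha.2, hb.2]
  · -- eo
    intro i j c n a b ha hb hc
    rw [dv3_ev] at ha
    rw [dv3_od] at hb ⊢
    refine ⟨⟨h5.md_mem a ha.1.1 b hb.1.1 n, h5.wt i j c a b n ha.1.2 hb.1.2 hc⟩, ?_⟩
    rw [← s2, ha.2, hb.2, map_neg]
  · -- oe
    intro i j c n a b ha hb hc
    rw [dv3_ev] at hb
    rw [dv3_od] at ha ⊢
    refine ⟨⟨h5.md_mem a ha.1.1 b hb.1.1 n, h5.wt i j c a b n ha.1.2 hb.1.2 hc⟩, ?_⟩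
    rw [← s2, ha.2, hb.2, hnl]
  · -- oo
    intro i j c n a b ha hb hc
    rw [dv3_od] at ha hb
    rw [dv3_ev]
    refine ⟨⟨h5.md_mem a ha.1.1 b hb.1.1 n, h5.wt i j c a b n ha.1.2 hb.1.2 hc⟩, ?_⟩
    rw [← s2, ha.2, hb.2, hnl, map_neg, neg_neg]
  · -- eT
    intro m f hf
    rw [dv3_ev] at hf ⊢
    refine ⟨⟨s3.kdt hp f hf.1.1, s3.fdt m f hf.1.2⟩, ?_⟩
    rw [← s1.dt, hf.2]
  · -- oT
    intro m f hf
    rw [dv3_od] at hf ⊢
    refine ⟨⟨s3.kdt hp f hf.1.1, s3.fdt m f hf.1.2⟩, ?_⟩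
    rw [← s1.dt, hf.2, map_neg]
  · -- hT
    intro m f hf
    rw [hKH] at hf ⊢
    exact ⟨s3.kdt hp f hf.1, s3.fdt m f hf.2⟩
  · -- hh
    intro i j c n a b ha hb hc
    rw [hKH] at ha hb ⊢
    exact ⟨h5.md_mem a ha.1 b hb.1 n, h5.wt i j c a b n ha.2 hb.2 hc⟩
  · -- one
    rw [dv3_ev]
    refine ⟨⟨h5.one_mem, isWeightedHomogeneous_one _ _⟩, ?_⟩
    unfold thF
    rw [map_one]
  · -- e0
    intro f hf
    rw [dv3_ev] at hf
    rw [dv3_zero f hf.1.2]
    exact Submodule.smul_mem _ _ (Submodule.mem_span_singleton_self 1)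

end

end WPE
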