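import Pool.Agent.WPE.DSD

/-! [DV4] even vectors of weight 1, odd vectors of weight < l -/

namespace WPE

open WPQ MvPolynomial

noncomputable section

/-- Every letter of a word counts for the weight. -/
private theorem dv4_wt (l : ℕ) (L : List (Fin l × ℕ)) (x : Fin l × ℕ) (hx : x ∈ L) :
    dD l x.1 + x.2 ≤ wtL (dD l) L :=
  List.single_le_sum (fun _ _ => Nat.zero_le _) _ (List.mem_map.2 ⟨x, hx, rfl⟩)

/-- All degrees are at least two. -/
private theorem dv4_two (l : ℕ) (hl : 4 ≤ l) (i : Fin l) : 2 ≤ dD l i := by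
  unfold dD
  split <;> omega

theorem DV4 (l p : ℕ) (hl : 4 ≤ l) (v2 : st_DV2 l p) (s5 : st_DS5 (Fin l)) (s8 : st_DS8 (Fin l)) :
    st_DV4 l p := by
  refine ⟨?_, ?_⟩
  · rw [eq_bot_iff]
    intro u hu
    have hF : FH u 1 := hu.1.2
    refine s8 (PD l) (dD l) 1 (Kev (CartanMatrix.D l) p (sgD l) 1) ⊥ (fun L => Even (noe l L))
      (v2.ev 1) (1 + 1) ?_ u hu (s5.dl u 1 hF)
    intro L _ hw _
    exfalso
    cases L with
    | nil =>
      have h0 : wtL (dD l) ([] : List (Fin l × ℕ)) = 0 := rfl
      omega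
    | cons x L =>
      have h1 := dv4_wt l (x :: L) x List.mem_cons_self
      have h2 := dv4_two l hl x.1
      omega
  · intro m hm
    rw [eq_bot_iff]
    intro u hu
    have hF : FH u m := hu.1.2
    refine s8 (PD l) (dD l) m (Kod (CartanMatrix.D l) p (sgD l) m) ⊥ (fun L => Odd (noe l L))
      (v2.od m) (m + 1) ?_ u hu (s5.dl u m hF)
    intro L hodd hw _
    exfalso
    have hne : (L.filter fun x => decide ((x.1 : ℕ) + 1 = l)) ≠ [] := by
      intro h0
      have h1 : noe l L = 0 := by
        unfold noe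
        rw [h0]
        rfl
      have h2 : Odd (noe l L) := hodd
      rw [h1] at h2
      exact absurd h2 (by decide)
    obtain ⟨x, hx⟩ := List.exists_mem_of_ne_nil _ hne
    rw [List.mem_filter, decide_eq_true_eq] at hx
    have h1 := dv4_wt l L x hx.1
    have h2 : dD l x.1 = l := by
      unfold dD
      rw [if_pos hx.2]
    omega

end

end WPE
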