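import Pool.Agent.WPE.DSD
import Pool.Agent.WPE.VGM

/-! [DV5] omega and W_4 -/

namespace WPE

open WPQ MvPolynomial

noncomputable section

section gen

variable {ι : Type} [Fintype ι] [DecidableEq ι] {A : Matrix ι ι ℤ} {p : ℕ}

/-- the translation operator on charge zero -/
private theorem dv5_transl (u : Fock ι) :
    LS (Shift.zero A p) (-1) (Finsupp.single (0 : ι → ℤ) u) = Finsupp.single 0 (dT ι u) := by
  rw [LS_zero_neg_one]
  unfold transl
  rw [Finsupp.lsum_single, LinearMap.comp_apply, LinearMap.add_apply, LinearMap.mulLeft_apply]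
  have h1 : (osc (toC (0 : ι → ℤ)) 0 : Fock ι) = 0 := by
    unfold osc toC
    exact Finset.sum_eq_zero fun i _ => by rw [Pi.zero_apply, Int.cast_zero, C_0, zero_mul]
  rw [h1, zero_mul, add_zero]
  rfl

/-- the commutator of the Virasoro operators, applied -/
private theorem dv5_comm (hA : IsADE A) (hp : 1 ≤ p) (m n : ℤ) (x : VL ι) :
    LS (Shift.zero A p) m (LS (Shift.zero A p) n x) = LS (Shift.zero A p) n (LS (Shift.zero A p) m x) +
      ((m : ℂ) - n) • LS (Shift.zero A p) (m + n) x +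
      (if m + n = 0 then (cc A p / 12 * ((m : ℂ) ^ 3 - m)) else 0) • x := by
  have h := LinearMap.congr_fun (LS_comm hA hp m n) x
  rw [LinearMap.sub_apply, LinearMap.comp_apply, LinearMap.comp_apply, sub_eq_iff_eq_add] at h
  rw [h, LinearMap.add_apply, LinearMap.smul_apply]
  split_ifs with h1
  · rw [LinearMap.smul_apply, LinearMap.id_apply]
    abel
  · rw [LinearMap.zero_apply, zero_smul]
    abel

/-- the relations of the Virasoro algebra for `v = ω` -/
private theorem dv5_vir (hA : IsADE A) (hp : 1 ≤ p) (v : VL ι) (hv : v = LS (Shift.zero A p) (-2) vac) :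
    LS (Shift.zero A p) 0 v = (2 : ℂ) • v ∧ LS (Shift.zero A p) 1 v = 0 ∧
    LS (Shift.zero A p) 2 v = (cc A p / 2) • vac ∧
    LS (Shift.zero A p) 1 (LS (Shift.zero A p) (-1) (LS (Shift.zero A p) (-1) v)) =
      (10 : ℂ) • LS (Shift.zero A p) (-1) v ∧
    LS (Shift.zero A p) 2 (LS (Shift.zero A p) (-1) (LS (Shift.zero A p) (-1) v)) = (12 : ℂ) • v ∧
    LS (Shift.zero A p) 1 (LS (Shift.zero A p) (-2) v) = (3 : ℂ) • LS (Shift.zero A p) (-1) v ∧
    LS (Shift.zero A p) 2 (LS (Shift.zero A p) (-2) v) = (8 + cc A p) • v := by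
  have hz : ∀ k : ℤ, -1 ≤ k → LS (Shift.zero A p) k (vac : VL ι) = 0 := fun k hk => LS_vac k hk
  have h0 : LS (Shift.zero A p) 0 v = (2 : ℂ) • v := by
    rw [hv, dv5_comm hA hp 0 (-2), hz 0 (by norm_num), map_zero, zero_add, zero_add,
      if_neg (by norm_num), zero_smul, add_zero]
    norm_num
  have h1 : LS (Shift.zero A p) 1 v = 0 := by
    rw [hv, dv5_comm hA hp 1 (-2), hz 1 (by norm_num), map_zero, zero_add,
      if_neg (by norm_num), zero_smul, add_zero, show (1 : ℤ) + -2 = -1 by norm_num, hz (-1) le_rfl, smul_zero]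
  have h2 : LS (Shift.zero A p) 2 v = (cc A p / 2) • vac := by
    rw [hv, dv5_comm hA hp 2 (-2), hz 2 (by norm_num), map_zero, zero_add,
      if_pos (by norm_num), show (2 : ℤ) + -2 = 0 by norm_num, hz 0 (by norm_num), smul_zero, zero_add]
    congr 1
    push_cast
    ring
  have h3 : LS (Shift.zero A p) 1 (LS (Shift.zero A p) (-1) v) = (4 : ℂ) • v := by
    rw [dv5_comm hA hp 1 (-1), h1, map_zero, zero_add, if_pos (by norm_num),
      show (1 : ℤ) + -1 = 0 by norm_num, h0, smul_smul, ← add_smul]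
    congr 1
    push_cast
    ring
  have h4 : LS (Shift.zero A p) 0 (LS (Shift.zero A p) (-1) v) = (3 : ℂ) • LS (Shift.zero A p) (-1) v := by
    rw [dv5_comm hA hp 0 (-1), h0, map_smul, if_neg (by norm_num), zero_smul, add_zero, zero_add, ← add_smul]
    congr 1
    push_cast
    ring
  have h5 : LS (Shift.zero A p) 2 (LS (Shift.zero A p) (-1) v) = 0 := by
    rw [dv5_comm hA hp 2 (-1), h2, map_smul, hz (-1) le_rfl, smul_zero, zero_add, if_neg (by norm_num),
      zero_smul, add_zero, show (2 : ℤ) + -1 = 1 by norm_num, h1, smul_zero]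
  refine ⟨h0, h1, h2, ?_, ?_, ?_, ?_⟩
  · rw [dv5_comm hA hp 1 (-1), h3, map_smul, if_pos (by norm_num), show (1 : ℤ) + -1 = 0 by norm_num, h4,
      smul_smul, ← add_smul, ← add_smul]
    congr 1
    push_cast
    ring
  · rw [dv5_comm hA hp 2 (-1), h5, map_zero, zero_add, if_neg (by norm_num), zero_smul, add_zero,
      show (2 : ℤ) + -1 = 1 by norm_num, h3, smul_smul]
    congr 1
    push_cast
    ring
  · rw [dv5_comm hA hp 1 (-2), h1, map_zero, zero_add, if_neg (by norm_num), zero_smul, add_zero,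
      show (1 : ℤ) + -2 = -1 by norm_num]
    congr 1
    push_cast
    ring
  · rw [dv5_comm hA hp 2 (-2), h2, map_smul, ← hv, if_pos (by norm_num), show (2 : ℤ) + -2 = 0 by norm_num, h0,
      smul_smul, ← add_smul, ← add_smul]
    congr 1
    push_cast
    ring

/-- a homogeneous vector of `V^G` is in `Wn` -/
private theorem dv5_Wn (hA : IsADE A) (hp : 2 ≤ p) (ε : Cocycle A p) (m : ℕ) (f : Fock ι)
    (hf : f ∈ KH A p m) : (Finsupp.single 0 f : VL ι) ∈ Wn A p m := by
  have h1 := ((vg_5 hA hp ε).wk (Finsupp.single 0 f)).2 ⟨f, hf.1, rfl⟩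
  refine ⟨h1.1, ?_⟩
  refine single_mem_Vn 0 f m ?_ m ?_
  · exact (mem_weightedHomogeneousSubmodule ℂ _ m f).1 hf.2
  · rw [pv2_wt0, add_zero]

/-- the vector `o` of the conformal vector -/
private theorem dv5_omega (hA : IsADE A) (hp : 2 ≤ p) (ε : Cocycle A p) (hc : cc A p ≠ 0) :
    ∃ o : Fock ι, Finsupp.single 0 o = omegaV A p ∧ o ∈ KH A p 2 ∧ o ≠ 0 := by
  have hp1 : 1 ≤ p := by omega
  obtain ⟨o, ho⟩ : ∃ o : Fock ι, omegaV A p = Finsupp.single 0 o := ⟨_, rfl⟩
  have hov : omegaV A p = LS (Shift.zero A p) (-2) vac := omegaV_eq A p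
  have hne : o ≠ 0 := by
    rintro rfl
    rw [Finsupp.single_zero] at ho
    obtain ⟨-, -, h2, -⟩ := dv5_vir hA hp1 (omegaV A p) hov
    rw [ho, map_zero] at h2
    have h3 := congrArg (fun v : VL ι => v 0) h2
    simp only [vac, Finsupp.zero_apply, Finsupp.smul_apply, Finsupp.single_eq_same] at h3
    have h4 : (cc A p / 2) ≠ 0 := div_ne_zero hc two_ne_zero
    rcases smul_eq_zero.1 h3.symm with h5 | h5
    · exact h4 h5
    · exact one_ne_zero h5
  have hW : (Finsupp.single 0 o : VL ι) ∈ Wn A p 2 := by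
    refine ⟨ho ▸ omegaV_mem hA hp, ?_⟩
    rw [← ho, hov]
    have h := LS_Vn (A := A) (p := p) (-2) 0 vac fi2_vac
    rwa [show (0 : ℤ) - -2 = 2 by norm_num] at h
  refine ⟨o, ho.symm, ⟨⟨fun j => ?_, fun j => ?_⟩, ?_⟩, hne⟩
  · have h1 := hW.1 j 0
    rw [Finsupp.single_eq_same] at h1
    simpa using h1
  · have h1 : Ej ε (Shift.zero A p) j (Finsupp.single 0 o) = 0 := by
      rw [← ho, hov, ← LinearMap.comp_apply, ← LS_Ej hA hp1, LinearMap.comp_apply, Ej_vac, map_zero]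
    rw [Ej_single hA, fl6_zero_kappa, fl6_pr_zero, Finsupp.single_eq_zero, mul_zero, add_zero, sub_zero] at h1
    exact (smul_eq_zero.1 h1).resolve_left (fl6_unit_ne _)
  · obtain ⟨d, hd, hd2⟩ := pv2_deg 2 0 o hne hW
    rw [pv2_wt0, add_zero] at hd2
    have hd3 : d = 2 := by exact_mod_cast hd2
    rw [hd3] at hd
    exact (mem_weightedHomogeneousSubmodule ℂ _ 2 o).2 hd

end gen

/-- the words of small weight -/
private theorem dv5_wt (l : ℕ) (hl : 4 ≤ l) (L : List (Fin l × ℕ)) : 2 * L.length ≤ dgL (dD l) L ∧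
    dgL (dD l) L ≤ wtL (dD l) L := by
  induction L with
  | nil => exact ⟨le_rfl, le_rfl⟩
  | cons x L ih =>
    have h1 : dgL (dD l) (x :: L) = dD l x.1 + dgL (dD l) L := by
      unfold dgL
      rw [List.map_cons, List.sum_cons]
    have h2 : wtL (dD l) (x :: L) = dD l x.1 + x.2 + wtL (dD l) L := by
      unfold wtL
      rw [List.map_cons, List.sum_cons]
    have h3 : 2 ≤ dD l x.1 := by
      unfold dD
      split_ifs <;> omega
    rw [h1, h2, List.length_cons]
    omega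

theorem DV5 (l p : ℕ) (hl : 4 ≤ l) (hp : 2 ≤ p) (ε : Cocycle (CartanMatrix.D l) p) (dc : st_DC l)
    (a2 : st_DA2 l) (a7 : st_DA7 l) (s1 : st_DS1 (CartanMatrix.D l) p (sgD l)) (s3 : st_DS3 ε)
    (s4 : st_DS4 ε) (s5 : st_DS5 (Fin l)) (s6 : st_DS6 (CartanMatrix.D l) p (sgD l))
    (s8 : st_DS8 (Fin l)) (v1 : st_DV1 l p) (v2 : st_DV2 l p) (v3 : st_DV3 l ε) (v4 : st_DV4 l p) :
    ∃ o W : Fock (Fin l), st_DV5 l ε o W := by
  have hA := dc.ade
  have hp1 : 1 ≤ p := by omega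
  have hw6 := (nd_pos l p hl hp).1
  have hcc := dc.cc p hp1
  have hc0 : cc (CartanMatrix.D l) p ≠ 0 := by
    rw [hcc]
    exact_mod_cast (by linarith : (1 - 6 * wD l p : ℚ) < 0).ne
  obtain ⟨o, ho, hoK, hone⟩ := dv5_omega hA hp ε hc0
  have hFH : ∀ m (f : Fock (Fin l)), f ∈ KH (CartanMatrix.D l) p m → FH f m := fun m f hf =>
    (mem_weightedHomogeneousSubmodule ℂ _ m f).1 hf.2
  have ho2 : o ∈ Kev (CartanMatrix.D l) p (sgD l) 2 := by
    have h1 := v3.sup 2 hoK
    rwa [v4.o0 2 (by omega), sup_bot_eq] at h1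
  -- `Ie 2 = ℂ pwS 2`
  have hIe2 : ∀ g ∈ Ie (CartanMatrix.D l) (sgD l) 2, ∃ c : ℂ, g = c • pwS l 2 := by
    intro g hg
    have h1 := a7.even 2 (by decide) le_rfl (by omega) hg
    have h2 : Dp (CartanMatrix.D l) (sgD l) 2 = ⊥ := by
      unfold Dp
      rw [Submodule.span_eq_bot]
      rintro _ ⟨a, b, g, h, ha, hb, hab, hg, -, rfl⟩
      have ha1 : a = 1 := by omega
      rw [ha1, a7.odd 1 (by decide), Submodule.mem_bot] at hg
      rw [hg, zero_mul]
    rw [h2, bot_sup_eq, Submodule.mem_span_singleton] at h1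
    obtain ⟨c, hc⟩ := h1
    exact ⟨c, hc.symm⟩
  -- vectors of weight `2` without symbol
  have hz2 : ∀ f ∈ Kev (CartanMatrix.D l) p (sgD l) 2, syF (Fin l) f = 0 → f = 0 := by
    intro f hf h0
    have h1 := s8 (PD l) (dD l) 2 (Kev (CartanMatrix.D l) p (sgD l) 2) ⊥ (fun L => Even (noe l L))
      (v2.ev 2) 2 ?_ f hf (s5.dl0 f 2 (hFH 2 f hf.1) h0)
    · exact (Submodule.mem_bot ℂ).1 h1
    · intro L _ hL1 hL2
      exfalso
      obtain ⟨h2, -⟩ := dv5_wt l hl L
      have h3 : L = [] := List.length_eq_zero_iff.1 (by omega)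
      rw [h3] at hL1
      exact absurd hL1 (by unfold wtL; simp)
  obtain ⟨c, hc⟩ := hIe2 _ (s6.even 2 o ho2)
  have hc' : c ≠ 0 := by
    rintro rfl
    rw [zero_smul] at hc
    exact hone (hz2 o ho2 hc)
  -- weight `2`
  have hK2 : ∀ f ∈ Kev (CartanMatrix.D l) p (sgD l) 2, ∃ y : ℂ, f = y • o := by
    intro f hf
    obtain ⟨c2, hc2⟩ := hIe2 _ (s6.even 2 f hf)
    refine ⟨c2 / c, ?_⟩
    rw [← sub_eq_zero]
    apply hz2 _ (Submodule.sub_mem _ hf (Submodule.smul_mem _ _ ho2))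
    rw [map_sub, map_smul, hc, hc2, smul_smul, div_mul_cancel₀ _ hc', sub_self]
  -- weight `3`
  have hdT3 : dT (Fin l) o ∈ Kev (CartanMatrix.D l) p (sgD l) 3 := v3.eT 2 o ho2
  have hlead : DLt 2 (dT (Fin l) o - c • jet 1 (pwS l 2)) := by
    have h1 : DLt 2 (o - homogeneousComponent 2 o) := vg_1.step 2 o (s5.dl o 2 (hFH 2 o hoK))
    rw [← s5.hc o 2 (hFH 2 o hoK), hc] at h1
    have h2 := s3.dt 2 _ h1
    have h3 : dT (Fin l) (inc0 (c • pwS l 2) : Fock (Fin l)) = c • jet 1 (pwS l 2) := by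
      rw [map_smul, Derivation.map_smul, ← (HA1 (Fin l)).zero, s3.jdt]
      rw [Nat.cast_zero, zero_add, C_1, one_mul]
    rw [map_sub, h3] at h2
    exact h2
  have hK3 : ∀ f ∈ Kev (CartanMatrix.D l) p (sgD l) 3, ∃ y : ℂ, f = y • dT (Fin l) o := by
    intro f hf
    have h1 := s8 (PD l) (dD l) 3 (Kev (CartanMatrix.D l) p (sgD l) 3)
      (Submodule.span ℂ {dT (Fin l) o}) (fun L => Even (noe l L))
      (v2.ev 3) 4 ?_ f hf (s5.dl f 3 (hFH 3 f hf.1))
    · obtain ⟨y, hy⟩ := Submodule.mem_span_singleton.1 h1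
      exact ⟨y, hy.symm⟩
    · intro L _ hL1 hL2
      obtain ⟨h2, h3⟩ := dv5_wt l hl L
      match L with
      | [] => exact absurd hL1 (by unfold wtL; simp)
      | [x] =>
        have h4 : dD l x.1 + x.2 = 3 := by
          rw [← hL1]
          unfold wtL
          simp
        have h5 : (x.1 : ℕ) = 0 := by
          unfold dD at h4
          split_ifs at h4 <;> omega
        have h6 : dD l x.1 = 2 := by
          unfold dD
          rw [h5, if_neg (by omega)]
        have h7 : x.2 = 1 := by omega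
        have h8 : PD l x.1 = pwS l 2 := by
          unfold PD
          rw [h5, if_neg (by omega)]
        refine ⟨c⁻¹ • dT (Fin l) o, Submodule.smul_mem _ _ (Submodule.mem_span_singleton_self _),
          Submodule.smul_mem _ _ hdT3, ?_⟩
        have h9 : dgL (dD l) [x] = 2 := by
          unfold dgL
          simp [h6]
        have h10 : pj (PD l) [x] = jet 1 (pwS l 2) := by
          unfold pj
          simp [h7, h8]
        rw [h9, h10]
        have h11 := vg_1.smul 2 c⁻¹ _ hlead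
        rwa [smul_sub, smul_smul, inv_mul_cancel₀ hc', one_smul] at h11
      | x :: y :: L => 
        rw [List.length_cons, List.length_cons] at h2
        omega
  -- the vector with symbol `pwS 4`
  obtain ⟨u, hu, hus⟩ := v1.inv 4 (pwS l 4) (a7.pw 2)
  have hov : omegaV (CartanMatrix.D l) p = LS (Shift.zero (CartanMatrix.D l) p) (-2) vac :=
    omegaV_eq _ p
  obtain ⟨-, -, -, g1, g2, g3, g4⟩ := dv5_vir hA hp1 _ hov
  have hL : ∀ (k : ℤ) (g : Fock (Fin l)), LS (Shift.zero (CartanMatrix.D l) p) k (Finsupp.single 0 g) =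
      Finsupp.single 0 (md ε o (k + 1) g) := by
    intro k g
    have h1 := mode_omega hA hp1 ε (k + 1)
    rw [add_sub_cancel_right] at h1
    rw [← h1, ← (vg_2 hA hp1 ε).single, ho, omegaV_eq]
  obtain ⟨x, hx⟩ := hK3 _ (v3.ee 2 4 3 2 o u ho2 hu (by norm_num))
  obtain ⟨y, hy⟩ := hK2 _ (v3.ee 2 4 2 3 o u ho2 hu (by norm_num))
  have hx' : LS (Shift.zero (CartanMatrix.D l) p) 1 (Finsupp.single 0 u) =
      x • LS (Shift.zero (CartanMatrix.D l) p) (-1) (omegaV (CartanMatrix.D l) p) := by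
    rw [hL 1, ← ho, dv5_transl, Finsupp.smul_single, show (1 : ℤ) + 1 = 2 by norm_num, hx]
  have hy' : LS (Shift.zero (CartanMatrix.D l) p) 2 (Finsupp.single 0 u) =
      y • omegaV (CartanMatrix.D l) p := by
    rw [hL 2, ← ho, Finsupp.smul_single, show (2 : ℤ) + 1 = 3 by norm_num, hy]
  have hoo : (Finsupp.single 0 (md ε o (-1) o) : VL (Fin l)) =
      LS (Shift.zero (CartanMatrix.D l) p) (-2) (omegaV (CartanMatrix.D l) p) := by
    rw [← ho, hL (-2), show (-2 : ℤ) + 1 = -1 by norm_num]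
  have hTT : (Finsupp.single 0 (dT (Fin l) (dT (Fin l) o)) : VL (Fin l)) =
      LS (Shift.zero (CartanMatrix.D l) p) (-1) (LS (Shift.zero (CartanMatrix.D l) p) (-1)
        (omegaV (CartanMatrix.D l) p)) := by
    rw [← ho, dv5_transl, dv5_transl]
  -- the determinant
  obtain ⟨cq, hcq⟩ : ∃ cq : ℂ, cq = cc (CartanMatrix.D l) p := ⟨_, rfl⟩
  have hdet : (44 : ℂ) + 10 * cq ≠ 0 := by
    rw [hcq, hcc]
    have h1 : (44 + 10 * (1 - 6 * wD l p) : ℚ) ≠ 0 := by
      have : (44 + 10 * (1 - 6 * wD l p) : ℚ) < 0 := by linarith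
      exact this.ne
    exact_mod_cast h1
  rw [← hcq] at g4
  -- `x + 3 a + 10 b = 0`, `y + (8 + c) a + 12 b = 0`
  obtain ⟨a, b, e1, e2⟩ : ∃ a b : ℂ, x + 3 * a + 10 * b = 0 ∧ y + (8 + cq) * a + 12 * b = 0 := by
    have hi : (44 + 10 * cq) * (44 + 10 * cq)⁻¹ = 1 := mul_inv_cancel₀ hdet
    refine ⟨(12 * x - 10 * y) * (44 + 10 * cq)⁻¹, (3 * y - (8 + cq) * x) * (44 + 10 * cq)⁻¹, ?_, ?_⟩
    · linear_combination (-x) * hi
    · linear_combination (-y) * hi
  refine ⟨o, u + a • md ε o (-1) o + b • dT (Fin l) (dT (Fin l) o), ?_⟩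
  have hWe : u + a • md ε o (-1) o + b • dT (Fin l) (dT (Fin l) o) ∈
      Kev (CartanMatrix.D l) p (sgD l) 4 := by
    refine Submodule.add_mem _ (Submodule.add_mem _ hu (Submodule.smul_mem _ _ ?_))
      (Submodule.smul_mem _ _ (v3.eT 3 _ hdT3))
    exact v3.ee 2 2 4 (-1) o o ho2 ho2 (by norm_num)
  refine ⟨ho, ho2, ⟨c, hc', hc⟩, hWe, ?_, ?_⟩
  · refine ⟨(pv4_mem 4 _).2 ⟨?_, ?_, ?_⟩, ?_⟩
    · exact dv5_Wn hA hp ε 4 _ hWe.1
    · rw [Finsupp.single_add, Finsupp.single_add, ← Finsupp.smul_single, ← Finsupp.smul_single, hoo, hTT, map_add,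
        map_add, map_smul, map_smul, hx', g1, g3, smul_smul, smul_smul, ← add_smul, ← add_smul]
      rw [show x + a * 3 + b * 10 = x + 3 * a + 10 * b by ring, e1, zero_smul]
    · rw [Finsupp.single_add, Finsupp.single_add, ← Finsupp.smul_single, ← Finsupp.smul_single, hoo, hTT, map_add,
        map_add, map_smul, map_smul, hy', g2, g4, smul_smul, smul_smul, ← add_smul, ← add_smul]
      rw [show y + a * (8 + cq) + b * 12 = y + (8 + cq) * a + 12 * b by ring, e2, zero_smul]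
    · exact Finsupp.single_mem_supported ℂ _ (Set.mem_singleton 0)
  · refine ⟨a * c ^ 2, ?_⟩
    rw [map_add, map_add, map_smul, map_smul, hus, s5.dt, smul_zero, add_zero, s4.m1, hc, smul_mul_smul_comm,
      smul_smul]
    congr 1
    rw [sq, sq]

end

end WPE
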