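import Pool.Agent.WPE.DSD

/-! [DV6] the symbols of the U_m -/

namespace WPE

open WPQ MvPolynomial

noncomputable section

theorem DV6 (l p : ℕ) (hl : 4 ≤ l) (hp : 2 ≤ p) (ε : Cocycle (CartanMatrix.D l) p)
    (a7 : st_DA7 l) (a8 : st_DA8 l p) (s4 : st_DS4 ε) (s7 : st_DS7 (CartanMatrix.D l) p (sgD l))
    (v3 : st_DV3 l ε) : st_DV6 l ε := by
  -- the power sums are even invariants
  have hpw : ∀ m, Even m → pwS l m ∈ Ie (CartanMatrix.D l) (sgD l) m := by
    rintro m ⟨n, rfl⟩
    have h := a7.pw n
    rwa [two_mul] at h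
  have hus : ∀ (o W : Fock (Fin l)) (m : ℕ), 4 ≤ m →
      UD ε o W (m + 2) = md ε W 1 (UD ε o W m) := by
    intro o W m hm
    obtain ⟨k, rfl⟩ := Nat.exists_eq_add_of_le' hm
    rfl
  have hmul : ∀ (a b : ℕ) (g h : MvPolynomial (Fin l) ℂ), 1 ≤ a → 1 ≤ b →
      g ∈ Ie (CartanMatrix.D l) (sgD l) a → h ∈ Ie (CartanMatrix.D l) (sgD l) b →
      g * h ∈ Dp (CartanMatrix.D l) (sgD l) (a + b) := fun a b g h ha hb hg hh =>
    Submodule.subset_span ⟨a, b, g, h, ha, hb, rfl, hg, hh, rfl⟩
  -- the pairing with `p_4` preserves decomposable elements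
  have h4 : ∀ (m : ℕ) (d : MvPolynomial (Fin l) ℂ), d ∈ Dp (CartanMatrix.D l) (sgD l) m →
      gr (CartanMatrix.D l) p (pwS l 4) d ∈ Dp (CartanMatrix.D l) (sgD l) (m + 2) := by
    intro m d hd
    have hd' : d ∈ Submodule.span ℂ {f | ∃ (a b : ℕ) (g h : MvPolynomial (Fin l) ℂ), 1 ≤ a ∧
      1 ≤ b ∧ a + b = m ∧ g ∈ Ie (CartanMatrix.D l) (sgD l) a ∧
      h ∈ Ie (CartanMatrix.D l) (sgD l) b ∧ f = g * h} := hd
    induction hd' using Submodule.span_induction with
    | mem x hx =>
      obtain ⟨a, b, g, h, ha, hb, hab, hg, hh, rfl⟩ := hx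
      rw [s7.mul_r]
      refine add_mem ?_ ?_
      · have h1 := s7.ie 4 a (pwS l 4) g (by norm_num) ha (hpw 4 (by decide)) hg
        rw [show 4 + a - 2 = a + 2 by omega] at h1
        have h2 := hmul (a + 2) b _ _ (by omega) hb h1 hh
        rwa [show a + 2 + b = m + 2 by omega] at h2
      · have h1 := s7.ie 4 b (pwS l 4) h (by norm_num) hb (hpw 4 (by decide)) hh
        rw [show 4 + b - 2 = b + 2 by omega] at h1
        have h2 := hmul a (b + 2) _ _ ha (by omega) hg h1
        rwa [show a + (b + 2) = m + 2 by omega] at h2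
    | zero =>
      have h1 := s7.smul_r 0 (pwS l 4) 0
      rw [zero_smul, zero_smul] at h1
      rw [h1]
      exact zero_mem _
    | add x y hx hy h h' =>
      rw [s7.add_r]
      exact add_mem (h hx) (h' hy)
    | smul c x hx h =>
      rw [s7.smul_r]
      exact Submodule.smul_mem _ _ (h hx)
  refine ⟨?_, ?_, ?_⟩
  · intro o W h5 m
    induction m using Nat.strong_induction_on with
    | _ m ih =>
      intro hm h2
      rcases Nat.lt_or_ge m 6 with h6 | h6
      · have h7 : m = 2 ∨ m = 4 := by
          obtain ⟨n, rfl⟩ := hm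
          omega
        rcases h7 with rfl | rfl
        · exact h5.o2
        · exact h5.w4
      · obtain ⟨k, rfl⟩ := Nat.exists_eq_add_of_le' (show 2 ≤ m by omega)
        have hk : Even k := by
          obtain ⟨n, hn⟩ := hm
          exact ⟨n - 1, by omega⟩
        rw [hus o W k (by omega)]
        exact v3.ee 4 k (k + 2) 1 W _ h5.w4 (ih k (by omega) hk (by omega)) (by push_cast; ring)
  · intro o W h5 m
    induction m using Nat.strong_induction_on with
    | _ m ih =>
      intro hm h2 hml
      rcases Nat.lt_or_ge m 6 with h6 | h6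
      · have h7 : m = 2 ∨ m = 4 := by
          obtain ⟨n, rfl⟩ := hm
          omega
        rcases h7 with rfl | rfl
        · obtain ⟨c, hc, hs⟩ := h5.so
          refine ⟨c, hc, ?_⟩
          have h8 : UD ε o W 2 = o := rfl
          rw [h8, hs, sub_self]
          exact zero_mem _
        · obtain ⟨b, hs⟩ := h5.sw
          refine ⟨1, one_ne_zero, ?_⟩
          have h8 : UD ε o W 4 = W := rfl
          rw [h8, hs, one_smul, add_sub_cancel_left, sq]
          exact Submodule.smul_mem _ _ (hmul 2 2 _ _ (by norm_num) (by norm_num)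
            (hpw 2 (by decide)) (hpw 2 (by decide)))
      · obtain ⟨k, rfl⟩ := Nat.exists_eq_add_of_le' (show 2 ≤ m by omega)
        have hk : Even k := by
          obtain ⟨n, hn⟩ := hm
          exact ⟨n - 1, by omega⟩
        obtain ⟨c, hc, hd⟩ := ih k (by omega) hk (by omega) (by omega)
        obtain ⟨b, hs⟩ := h5.sw
        obtain ⟨g, hg⟩ : ∃ g, g = syF (Fin l) (UD ε o W k) := ⟨_, rfl⟩
        obtain ⟨d, hd'⟩ : ∃ d, d = g - c • pwS l k := ⟨_, rfl⟩
        rw [← hg, ← hd'] at hd
        have hgd : g = c • pwS l k + d := by rw [hd']; abel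
        have hgI : g ∈ Ie (CartanMatrix.D l) (sgD l) k := by
          rw [hgd]
          exact add_mem (Submodule.smul_mem _ _ (hpw k hk)) (a7.dle k hd)
        have hgh : g.IsHomogeneous k :=
          (mem_homogeneousSubmodule k g).1 (Submodule.mem_inf.1 (Submodule.mem_inf.1 hgI).1).1
        refine ⟨c * ((p : ℂ) * 4 * k), ?_, ?_⟩
        · have hp0 : (p : ℂ) ≠ 0 := by
            have : p ≠ 0 := by omega
            exact_mod_cast this
          have hk0 : (k : ℂ) ≠ 0 := by
            have : k ≠ 0 := by omega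
            exact_mod_cast this
          exact mul_ne_zero hc (mul_ne_zero (mul_ne_zero hp0 (by norm_num)) hk0)
        · rw [hus o W k (by omega), s4.p1, hs, ← hg, s7.add_l, s7.smul_l, sq, s7.mul_l,
            a8.euler k g hgh]
          have e1 : gr (CartanMatrix.D l) p (pwS l 4) g =
              (c * ((p : ℂ) * 4 * k)) • pwS l (k + 2) + gr (CartanMatrix.D l) p (pwS l 4) d := by
            conv_lhs => rw [hgd, s7.add_r, s7.smul_r, a8.pp 4 k (by norm_num) (by omega)]
            rw [show 4 + k - 2 = k + 2 by omega, mul_smul, C_mul']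
            push_cast
            rfl
          rw [e1]
          have e2 : C (2 * (p : ℂ) * k) * g * pwS l 2 + pwS l 2 * (C (2 * (p : ℂ) * k) * g) =
              (2 * (2 * (p : ℂ) * k)) • (pwS l 2 * g) := by
            rw [← C_mul', C_mul (a := 2)]
            have e3 : (C (2 : ℂ) : MvPolynomial (Fin l) ℂ) = 2 := map_ofNat C 2
            rw [e3]
            ring
          rw [e2]
          have e4 : (c * ((p : ℂ) * 4 * k)) • pwS l (k + 2) +
              gr (CartanMatrix.D l) p (pwS l 4) d + b • (2 * (2 * (p : ℂ) * k)) • (pwS l 2 * g) -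
              (c * ((p : ℂ) * 4 * k)) • pwS l (k + 2) =
              gr (CartanMatrix.D l) p (pwS l 4) d +
                b • (2 * (2 * (p : ℂ) * k)) • (pwS l 2 * g) := by
            abel
          rw [e4]
          refine add_mem (h4 k d hd) (Submodule.smul_mem _ _ (Submodule.smul_mem _ _ ?_))
          have h9 := hmul 2 k _ _ (by norm_num) (by omega) (hpw 2 (by decide)) hgI
          rwa [add_comm 2 k] at h9
  · exact hus

end

end WPE
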