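import Pool.Agent.WPE.DSD
import Pool.Agent.WPE.VGM

/-! [DV7] the vector Pf -/

namespace WPE

open WPQ MvPolynomial

noncomputable section

/-- `L(k)` on `M(1)` is the mode `k + 1` of `ω`. -/
private theorem dv7_LS {ι : Type} [Fintype ι] [DecidableEq ι] {A : Matrix ι ι ℤ} {p : ℕ}
    (hA : IsADE A) (hp : 1 ≤ p) (ε : Cocycle A p) (o f : Fock ι)
    (ho : Finsupp.single 0 o = omegaV A p) (n : ℤ) :
    LS (Shift.zero A p) (n - 1) (Finsupp.single 0 f) = Finsupp.single 0 (md ε o n f) := by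
  rw [← mode_omega hA hp ε n, ← omegaV_eq, ← ho]
  exact (vg_2 hA hp ε).single o f n

theorem DV7 (l p : ℕ) (hl : 4 ≤ l) (hp : 2 ≤ p) (ε : Cocycle (CartanMatrix.D l) p) (dc : st_DC l)
    (v1 : st_DV1 l p) (v3 : st_DV3 l ε) (v4 : st_DV4 l p) (o W : Fock (Fin l))
    (v5 : st_DV5 l ε o W) : st_DV7 l p := by
  have hA := dc.ade
  have hp1 : 1 ≤ p := by omega
  let i0 : Fin l := ⟨l - 1, by omega⟩
  have hi0 : (i0 : ℕ) + 1 = l := by
    change l - 1 + 1 = l
    omega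
  obtain ⟨u, hu, hd, ht⟩ := v1.lift [(i0, 0)]
  have hdl : dD l i0 = l := by rw [dD, if_pos hi0]
  have hw : wtL (dD l) [(i0, 0)] = l := by
    rw [wtL, List.map_cons, List.map_nil, List.sum_cons, List.sum_nil, hdl, add_zero, add_zero]
  have hg : dgL (dD l) [(i0, 0)] = l := by
    rw [dgL, List.map_cons, List.map_nil, List.sum_cons, List.sum_nil, hdl, add_zero]
  have hn : noe l [(i0, 0)] = 1 := by
    rw [noe, List.filter_cons_of_pos (by simpa using hi0), List.filter_nil, List.length_singleton]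
  have hp0 : pj (PD l) [(i0, 0)] = inc0 (pfS l) := by
    rw [pj, List.map_cons, List.map_nil, List.prod_cons, List.prod_nil, mul_one,
      (HA1 (Fin l)).zero, PD, if_pos hi0]
  rw [hw] at hu
  rw [hg, hp0] at hd
  rw [hn, pow_one, neg_one_smul] at ht
  have hK : u ∈ Kod (CartanMatrix.D l) p (sgD l) l := by
    refine ⟨hu, ?_⟩
    change thF (sgD l) u + u = 0
    rw [ht, neg_add_cancel]
  have hk : ∀ (c : ℕ) (n : ℤ), c < l → (c : ℤ) = (2 : ℕ) + l - n - 1 →
      LS (Shift.zero (CartanMatrix.D l) p) (n - 1) (Finsupp.single 0 u) = 0 := by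
    intro c n hc hcn
    have h1 := v3.eo 2 l c n o u v5.o2 hK hcn
    rw [v4.o0 c hc, Submodule.mem_bot] at h1
    rw [dv7_LS hA hp1 ε o u v5.om, h1, Finsupp.single_zero]
  have hWk : (Finsupp.single 0 u : VL (Fin l)) ∈ Wk ε := ((vg_5 hA hp ε).wk _).2 ⟨u, hu.1, rfl⟩
  have hwt : wtExp (CartanMatrix.D l) p (0 : Fin l → ℤ) = 0 := by
    simp [wtExp, formZ]
  have hV : (Finsupp.single 0 u : VL (Fin l)) ∈ Vn (CartanMatrix.D l) p l :=
    single_mem_Vn (A := CartanMatrix.D l) (p := p) 0 u l hu.2 (l : ℤ) (by rw [hwt, add_zero])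
  refine ⟨u, hK, ⟨⟨⟨hWk.1, hV⟩, ?_, ?_⟩, Finsupp.single_mem_supported ℂ u rfl⟩, hd⟩
  · have := hk (l - 1) 2 (by omega) (by push_cast; omega)
    exact this
  · have := hk (l - 2) 3 (by omega) (by push_cast; omega)
    exact this

end

end WPE
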