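import Pool.Agent.WPE.DSD

/-! [DV8] decomposable symbols -/

namespace WPE

open WPQ MvPolynomial

noncomputable section

theorem DV8 (l p : ℕ) (hl : 4 ≤ l) (ε : Cocycle (CartanMatrix.D l) p) (a7 : st_DA7 l)
    (s4 : st_DS4 ε) (s5 : st_DS5 (Fin l)) (s6 : st_DS6 (CartanMatrix.D l) p (sgD l))
    (v3 : st_DV3 l ε) (v6 : st_DV6 l ε) : st_DV8 l ε := by
  refine ⟨?_, ?_, ?_, ?_, ?_⟩
  · intro i j c a b hi hj hc ha hb
    refine Submodule.mem_inf.2 ⟨v3.ee i j c 0 a b ha hb (by push_cast; omega), ?_⟩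
    rw [Submodule.mem_comap, AlgHom.toLinearMap_apply, s4.z0]
    exact Submodule.zero_mem _
  · intro i j a b hi hj ha hb
    refine Submodule.mem_inf.2 ⟨v3.ee i j (i + j) (-1) a b ha hb (by push_cast; omega), ?_⟩
    rw [Submodule.mem_comap, AlgHom.toLinearMap_apply, s4.m1]
    exact Submodule.subset_span ⟨i, j, _, _, hi, hj, rfl, s6.even i a ha, s6.even j b hb, rfl⟩
  · intro m f hf
    refine Submodule.mem_inf.2 ⟨v3.eT m f hf, ?_⟩
    rw [Submodule.mem_comap, AlgHom.toLinearMap_apply, s5.dt]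
    exact Submodule.zero_mem _
  · intro m hm f hf
    refine Submodule.mem_inf.2 ⟨hf, ?_⟩
    have h1 := s6.even m f hf
    rw [a7.odd m hm, Submodule.mem_bot] at h1
    rw [Submodule.mem_comap, AlgHom.toLinearMap_apply, h1]
    exact Submodule.zero_mem _
  · intro o W h5 m hm h2 hml f hf
    obtain ⟨d, hd, e, he, hde⟩ := Submodule.mem_sup.1 (a7.even m hm h2 hml (s6.even m f hf))
    obtain ⟨a, rfl⟩ := Submodule.mem_span_singleton.1 he
    obtain ⟨c, hc, hcd⟩ := v6.sy o W h5 m hm h2 hml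
    have hU := v6.mem o W h5 m hm h2
    refine Submodule.mem_sup.2 ⟨f - (a / c) • UD ε o W m, ?_, (a / c) • UD ε o W m,
      Submodule.smul_mem _ _ (Submodule.mem_span_singleton_self _), sub_add_cancel _ _⟩
    refine Submodule.mem_inf.2 ⟨Submodule.sub_mem _ hf (Submodule.smul_mem _ _ hU), ?_⟩
    rw [Submodule.mem_comap, AlgHom.toLinearMap_apply, map_sub, map_smul, ← hde]
    have e1 : d + a • pwS l m - (a / c) • syF (Fin l) (UD ε o W m) =
        d - (a / c) • (syF (Fin l) (UD ε o W m) - c • pwS l m) := by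
      rw [smul_sub, smul_smul, div_mul_cancel₀ a hc]
      abel
    rw [e1]
    exact Submodule.sub_mem _ hd (Submodule.smul_mem _ _ hcd)

end

end WPE
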