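import Pool.Agent.WPE.DSD
import Pool.Agent.WPE.VGM

/-! [DV9] spanning of the even vectors

Words are moved with permutations; `dv9_cons` is the leading component of `a_(-1) b` for lifts `a`, `b`
of two words, `dv9_der` that of `dT u` for the lift `u` of one letter. -/

namespace WPE

open WPQ MvPolynomial

noncomputable section

/-- `pj` is invariant under permutations -/
private theorem dv9_pj {l : ℕ} {L L' : List (Fin l × ℕ)} (h : L.Perm L') :
    (pj (PD l) L : Fock (Fin l)) = pj (PD l) L' := by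
  unfold pj
  exact (h.map _).prod_eq

/-- `dgL` is invariant under permutations -/
private theorem dv9_dg {l : ℕ} {L L' : List (Fin l × ℕ)} (h : L.Perm L') :
    dgL (dD l) L = dgL (dD l) L' := by
  unfold dgL
  exact (h.map _).sum_eq

/-- `wtL` is invariant under permutations -/
private theorem dv9_wt {l : ℕ} {L L' : List (Fin l × ℕ)} (h : L.Perm L') :
    wtL (dD l) L = wtL (dD l) L' := by
  unfold wtL
  exact (h.map _).sum_eq

/-- `noe` is invariant under permutations -/
private theorem dv9_noe {l : ℕ} {L L' : List (Fin l × ℕ)} (h : L.Perm L') :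
    noe l L = noe l L' := by
  unfold noe
  exact (h.filter _).length_eq

/-- first letter -/
private theorem dv9_cons_eq {l : ℕ} (x : Fin l × ℕ) (L : List (Fin l × ℕ)) :
    (pj (PD l) (x :: L) : Fock (Fin l)) = pj (PD l) [x] * pj (PD l) L ∧
    dgL (dD l) (x :: L) = dgL (dD l) [x] + dgL (dD l) L ∧
    wtL (dD l) (x :: L) = wtL (dD l) [x] + wtL (dD l) L ∧
    noe l (x :: L) = noe l [x] + noe l L := by
  refine ⟨?_, ?_, ?_, ?_⟩
  · simp [pj]
  · simp [dgL]
  · simp [wtL]
  · unfold noe
    rw [← List.length_append, ← List.filter_append]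
    rfl

/-- degrees are positive -/
private theorem dv9_dpos {l : ℕ} (hl : 1 ≤ l) (i : Fin l) : 1 ≤ dD l i := by
  unfold dD
  split_ifs <;> omega

/-- weights of nonempty words are positive -/
private theorem dv9_wpos {l : ℕ} (hl : 1 ≤ l) (L : List (Fin l × ℕ)) (h : L ≠ []) :
    1 ≤ wtL (dD l) L := by
  cases L with
  | nil => exact absurd rfl h
  | cons x L =>
    rw [(dv9_cons_eq x L).2.2.1]
    have := dv9_dpos hl x.1
    simp [wtL]
    omega

/-- the degree of a vector with leading component `pj` -/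
private theorem dv9_deg {l : ℕ} (a2 : st_DA2 l) (L : List (Fin l × ℕ)) (u : Fock (Fin l))
    (h : DLt (dgL (dD l) L) (u - pj (PD l) L)) : DLt (dgL (dD l) L + 1) u := by
  have h1 : DLt (dgL (dD l) L + 1) (pj (PD l) L : Fock (Fin l)) :=
    (vg_1 (ι := Fin l)).hom _ _ ((vg_6 (ι := Fin l)).pj_hom (PD l) (dD l) a2.hom L)
  have h2 := (vg_1 (ι := Fin l)).add _ _ _
    ((vg_1 (ι := Fin l)).mono _ (dgL (dD l) L + 1) _ (by omega) h) h1
  rwa [sub_add_cancel] at h2

/-- the leading component of a product -/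
private theorem dv9_mul {l p : ℕ} {ε : Cocycle (CartanMatrix.D l) p} (a2 : st_DA2 l)
    (s3 : st_DS3 ε) (L L' : List (Fin l × ℕ)) (u g : Fock (Fin l))
    (h : DLt (dgL (dD l) L) (u - pj (PD l) L)) (h' : DLt (dgL (dD l) L') (g - pj (PD l) L')) :
    DLt (dgL (dD l) L + dgL (dD l) L') (md ε u (-1) g - pj (PD l) L * pj (PD l) L') := by
  have V := vg_1 (ι := Fin l)
  have hu := dv9_deg a2 L u h
  have hg := dv9_deg a2 L' g h'
  have h1 : DLt (dgL (dD l) L + 1) (pj (PD l) L : Fock (Fin l)) :=
    V.hom _ _ ((vg_6 (ι := Fin l)).pj_hom (PD l) (dD l) a2.hom L)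
  have e : md ε u (-1) g - pj (PD l) L * pj (PD l) L' = (md ε u (-1) g - u * g) +
      ((u - pj (PD l) L) * g + (g - pj (PD l) L') * pj (PD l) L) := by
    ring
  rw [e]
  refine V.add _ _ _ (s3.mul _ _ _ _ hu hg) (V.add _ _ _ (V.mul _ _ _ _ h hg) ?_)
  rw [add_comm]
  exact V.mul _ _ _ _ h' h1

/-- the leading component of a derivative -/
private theorem dv9_der {l p : ℕ} {ε : Cocycle (CartanMatrix.D l) p}
    (s3 : st_DS3 ε) (i : Fin l) (k : ℕ) (u : Fock (Fin l))
    (h : DLt (dgL (dD l) [(i, k)]) (u - pj (PD l) [(i, k)])) :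
    DLt (dgL (dD l) [(i, k + 1)]) (((k : ℂ) + 1)⁻¹ • dT (Fin l) u - pj (PD l) [(i, k + 1)]) := by
  have V := vg_1 (ι := Fin l)
  have hk : (k : ℂ) + 1 ≠ 0 := by exact_mod_cast Nat.succ_ne_zero k
  have h1 := V.smul _ ((k : ℂ) + 1)⁻¹ _ (s3.dt _ _ h)
  have e1 : ∀ n : ℕ, (pj (PD l) [(i, n)] : Fock (Fin l)) = jet n (PD l i) := by
    intro n
    simp [pj]
  rw [map_sub, e1, s3.jdt, ← MvPolynomial.smul_eq_C_mul, smul_sub, smul_smul,
    inv_mul_cancel₀ hk, one_smul] at h1
  rw [e1]
  have e2 : dgL (dD l) [(i, k + 1)] = dgL (dD l) [(i, k)] := by simp [dgL]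
  rw [e2]
  exact h1

/-- the lift of a word with an even number of letters `(l - 1, k)` is even -/
private theorem dv9_ev {l p : ℕ} (v1 : st_DV1 l p) (L : List (Fin l × ℕ))
    (h : Even (noe l L)) : ∃ u ∈ Kev (CartanMatrix.D l) p (sgD l) (wtL (dD l) L),
      DLt (dgL (dD l) L) (u - pj (PD l) L) := by
  obtain ⟨u, hu, h1, h2⟩ := v1.lift L
  refine ⟨u, Submodule.mem_inf.2 ⟨hu, ?_⟩, h1⟩
  rw [LinearMap.mem_ker, LinearMap.sub_apply, AlgHom.toLinearMap_apply, h2, h.neg_one_pow,
    one_smul, LinearMap.id_apply, sub_self]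

/-- products of even vectors -/
private theorem dv9_comp {l p : ℕ} {ε : Cocycle (CartanMatrix.D l) p} (v3 : st_DV3 l ε) (m : ℕ) :
    Comp ε (Kev (CartanMatrix.D l) p (sgD l)) (Kev (CartanMatrix.D l) p (sgD l)) m ≤
      Kev (CartanMatrix.D l) p (sgD l) m := by
  refine Submodule.span_le.2 ?_
  rintro f ⟨i, j, a, b, hi, hj, hm, ha, hb, rfl⟩
  exact v3.ee i j m (-1) a b ha hb (by omega)

/-- a letter different from `(l - 1, k)` -/
private theorem dv9_letter {l : ℕ} (L : List (Fin l × ℕ)) (h : noe l L < L.length) :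
    ∃ x ∈ L, (x.1 : ℕ) + 1 ≠ l := by
  by_contra hc
  push Not at hc
  unfold noe at h
  rw [List.filter_eq_self.2 (fun x hx => by simpa using hc x hx)] at h
  omega

/-- the derivative of the square of a lift -/
private theorem dv9_sq {l p : ℕ} {ε : Cocycle (CartanMatrix.D l) p}
    (s3 : st_DS3 ε) (i : Fin l) (u : Fock (Fin l))
    (h : DLt (dgL (dD l) [(i, 0), (i, 0)]) (u - pj (PD l) [(i, 0), (i, 0)])) :
    DLt (dgL (dD l) [(i, 0), (i, 0)])
      ((2 : ℂ)⁻¹ • dT (Fin l) u - pj (PD l) [(i, 0), (i, 1)]) := by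
  have V := vg_1 (ι := Fin l)
  have h1 := V.smul _ (2 : ℂ)⁻¹ _ (s3.dt _ _ h)
  have e1 : ∀ m n : ℕ, (pj (PD l) [(i, m), (i, n)] : Fock (Fin l)) =
      jet m (PD l i) * jet n (PD l i) := by
    intro m n
    simp [pj]
  have e2 : dT (Fin l) (jet 0 (PD l i)) = (jet 1 (PD l i) : Fock (Fin l)) := by
    rw [s3.jdt]
    simp
  have e3 : dT (Fin l) (jet 0 (PD l i) * jet 0 (PD l i)) =
      (2 : ℂ) • (jet 0 (PD l i) * jet 1 (PD l i) : Fock (Fin l)) := by
    rw [Derivation.leibniz, e2, smul_eq_mul, two_smul]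
  rw [map_sub, e1, e3, smul_sub, smul_smul, inv_mul_cancel₀ two_ne_zero, one_smul] at h1
  rw [e1]
  exact h1

theorem DV9 (l p : ℕ) (hl : 4 ≤ l) (ε : Cocycle (CartanMatrix.D l) p) (a2 : st_DA2 l)
    (a7 : st_DA7 l) (s3 : st_DS3 ε) (s4 : st_DS4 ε) (s5 : st_DS5 (Fin l)) (s8 : st_DS8 (Fin l))
    (v1 : st_DV1 l p) (v2 : st_DV2 l p) (v3 : st_DV3 l ε) : st_DV9 l ε := by
  intro m hm hml u hu
  obtain ⟨huK, huD⟩ := Submodule.mem_inf.1 hu
  rw [Submodule.mem_comap, AlgHom.toLinearMap_apply] at huD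
  -- step 1: the symbol
  have step1 : ∀ f ∈ Dp (CartanMatrix.D l) (sgD l) m, ∃ v ∈ Comp ε
      (Kev (CartanMatrix.D l) p (sgD l)) (Kev (CartanMatrix.D l) p (sgD l)) m,
      syF (Fin l) v = f := by
    intro f hf
    refine Submodule.span_induction ?_ ?_ ?_ ?_ hf
    · rintro f ⟨a, b, g, h, ha, hb, hab, hg, hh, rfl⟩
      obtain ⟨u1, hu1, rfl⟩ := v1.inv a g hg
      obtain ⟨u2, hu2, rfl⟩ := v1.inv b h hh
      exact ⟨md ε u1 (-1) u2, Submodule.subset_span ⟨a, b, u1, u2, ha, hb, hab, hu1, hu2, rfl⟩,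
        s4.m1 u1 u2⟩
    · exact ⟨0, Submodule.zero_mem _, map_zero _⟩
    · rintro f g _ _ ⟨v, hv, rfl⟩ ⟨w, hw, rfl⟩
      exact ⟨v + w, Submodule.add_mem _ hv hw, map_add _ _ _⟩
    · rintro c f _ ⟨v, hv, rfl⟩
      exact ⟨c • v, Submodule.smul_mem _ _ hv, map_smul _ _ _⟩
  obtain ⟨v, hv, hvu⟩ := step1 _ huD
  have hvK := dv9_comp v3 m hv
  have huv : u - v ∈ Kev (CartanMatrix.D l) p (sgD l) m := Submodule.sub_mem _ huK hvK
  have hd : DLt m (u - v) := by
    refine s5.dl0 _ _ (Submodule.mem_inf.1 (Submodule.mem_inf.1 huv).1).2 ?_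
    rw [map_sub, hvu, sub_self]
  -- step 2: words of small degree
  have step2 : ∀ L, Even (noe l L) → wtL (dD l) L = m → dgL (dD l) L < m →
      ∃ v, v ∈ Comp ε (Kev (CartanMatrix.D l) p (sgD l)) (Kev (CartanMatrix.D l) p (sgD l)) m ⊔
        (Kev (CartanMatrix.D l) p (sgD l) (m - 1)).map (dT (Fin l)).toLinearMap ∧
        v ∈ Kev (CartanMatrix.D l) p (sgD l) m ∧ DLt (dgL (dD l) L) (v - pj (PD l) L) := by
    intro L hL hw hdg
    by_cases hc : noe l L < L.length
    · obtain ⟨x, hx, hxl⟩ := dv9_letter L hc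
      have hp := List.perm_cons_erase hx
      generalize L.erase x = L' at hp
      have hnx : noe l [x] = 0 := by simp [noe, hxl]
      rw [dv9_noe hp, (dv9_cons_eq x L').2.2.2, hnx, zero_add] at hL
      rw [dv9_wt hp] at hw
      rw [dv9_dg hp] at hdg ⊢
      rw [dv9_pj hp]
      have hx0 : Even (noe l [x]) := by rw [hnx]; exact Even.zero
      cases L' with
      | nil =>
        obtain ⟨i, k⟩ := x
        cases k with
        | zero =>
          simp [wtL] at hw
          simp [dgL] at hdg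
          omega
        | succ k =>
          have hik : Even (noe l [(i, k)]) := by
            have : noe l [(i, k)] = 0 := by
              simp only at hxl
              simp [noe, hxl]
            rw [this]
            exact Even.zero
          obtain ⟨y, hy, hy2⟩ := dv9_ev v1 [(i, k)] hik
          have hwm : wtL (dD l) [(i, k)] + 1 = m := by
            simp only [wtL, List.map_cons, List.map_nil, List.sum_cons, List.sum_nil] at hw ⊢
            omega
          refine ⟨((k : ℂ) + 1)⁻¹ • dT (Fin l) y, ?_, ?_, dv9_der s3 i k y hy2⟩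
          · refine Submodule.mem_sup_right (Submodule.smul_mem _ _ ⟨y, ?_, rfl⟩)
            rw [← hwm, Nat.add_sub_cancel]
            exact hy
          · rw [← hwm]
            exact Submodule.smul_mem _ _ (v3.eT _ _ hy)
      | cons x' L' =>
        obtain ⟨y, hy, hy2⟩ := dv9_ev v1 [x] hx0
        obtain ⟨z, hz, hz2⟩ := dv9_ev v1 (x' :: L') hL
        have hwm := (dv9_cons_eq x (x' :: L')).2.2.1
        have hmem : md ε y (-1) z ∈ Comp ε (Kev (CartanMatrix.D l) p (sgD l))
            (Kev (CartanMatrix.D l) p (sgD l)) m :=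
          Submodule.subset_span ⟨_, _, y, z, dv9_wpos (by omega) _ (by simp),
            dv9_wpos (by omega) _ (by simp), by rw [← hw, hwm], hy, hz, rfl⟩
        refine ⟨md ε y (-1) z, Submodule.mem_sup_left hmem, dv9_comp v3 m hmem, ?_⟩
        rw [(dv9_cons_eq x (x' :: L')).1, (dv9_cons_eq x (x' :: L')).2.1]
        exact dv9_mul a2 s3 _ _ _ _ hy2 hz2
    · have hall : ∀ x ∈ L, (x.1 : ℕ) + 1 = l := by
        by_contra hc2
        push Not at hc2
        refine hc (lt_of_le_of_ne (List.length_filter_le _ _) fun hcc => ?_)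
        obtain ⟨x, hx, hxl⟩ := hc2
        have := List.length_filter_eq_length_iff.1 hcc x hx
        exact hxl (by simpa using this)
      have hnL : noe l L = L.length := le_antisymm (List.length_filter_le _ _) (not_lt.1 hc)
      rw [hnL] at hL
      have hdgl : dgL (dD l) L = l * L.length := by
        unfold dgL
        rw [List.map_congr_left (g := fun _ => l) (fun x hx => by
          unfold dD
          rw [if_pos (hall x hx)])]
        simp [mul_comm]
      rw [hdgl] at hdg
      match L, hall, hL, hw, hdg with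
      | [], _, _, hw, _ =>
        simp [wtL] at hw
        omega
      | [x], _, hL, _, _ => simp at hL
      | x :: y :: z :: L', _, hL, _, hdg =>
        simp only [List.length_cons] at hL hdg
        have : l * 4 ≤ l * (L'.length + 1 + 1 + 1) := by
          refine Nat.mul_le_mul_left l ?_
          rcases Nat.eq_zero_or_pos L'.length with h0 | h0
          · rw [h0] at hL
            exact absurd hL (by decide)
          · omega
        omega
      | [(i, a), (j, b)], hall, _, hw, hdg =>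
        have hi := hall (i, a) (by simp)
        have hj := hall (j, b) (by simp)
        simp only at hi hj
        obtain rfl : i = j := Fin.ext (by omega)
        have hdl : dD l i = l := by
          unfold dD
          rw [if_pos hi]
        simp only [wtL, List.map_cons, List.map_nil, List.sum_cons, List.sum_nil, hdl] at hw
        simp only [List.length_cons, List.length_nil] at hdg
        obtain ⟨y, hy, hy2⟩ := dv9_ev v1 [(i, 0), (i, 0)] (by simp [noe, hi])
        have h6 := dv9_sq s3 i y hy2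
        have hwy : wtL (dD l) [(i, 0), (i, 0)] + 1 = m := by
          simp only [wtL, List.map_cons, List.map_nil, List.sum_cons, List.sum_nil, hdl]
          omega
        have hdg2 : dgL (dD l) [(i, 0), (i, 0)] = dgL (dD l) [(i, a), (i, b)] := by
          simp [dgL]
        have hpj : (pj (PD l) [(i, a), (i, b)] : Fock (Fin l)) = pj (PD l) [(i, 0), (i, 1)] := by
          have hab : (a = 0 ∧ b = 1) ∨ (a = 1 ∧ b = 0) := by omega
          rcases hab with ⟨rfl, rfl⟩ | ⟨rfl, rfl⟩
          · rfl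
          · exact dv9_pj (List.Perm.swap _ _ _)
        refine ⟨(2 : ℂ)⁻¹ • dT (Fin l) y, ?_, ?_, ?_⟩
        · refine Submodule.mem_sup_right (Submodule.smul_mem _ _ ⟨y, ?_, rfl⟩)
          rw [← hwy, Nat.add_sub_cancel]
          exact hy
        · rw [← hwy]
          exact Submodule.smul_mem _ _ (v3.eT _ _ hy)
        · rw [hpj, ← hdg2]
          exact h6
  have h3 := s8 (PD l) (dD l) m _ _ (fun L => Even (noe l L)) (v2.ev m) m step2 (u - v) huv hd
  rw [← sub_add_cancel u v]
  exact Submodule.add_mem _ h3 (Submodule.mem_sup_left hv)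

end

end WPE
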