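import Pool.Agent.WPE.R_DA1
import Pool.Agent.WPE.R_DA2
import Pool.Agent.WPE.R_DA3
import Pool.Agent.WPE.R_DA4
import Pool.Agent.WPE.R_DA5
import Pool.Agent.WPE.R_DA6
import Pool.Agent.WPE.R_DA7
import Pool.Agent.WPE.R_DA8
import Pool.Agent.WPE.R_DC
import Pool.Agent.WPE.R_DS1
import Pool.Agent.WPE.R_DS1a
import Pool.Agent.WPE.R_DS2
import Pool.Agent.WPE.R_DS3
import Pool.Agent.WPE.R_DS4
import Pool.Agent.WPE.R_DS5
import Pool.Agent.WPE.R_DS6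
import Pool.Agent.WPE.R_DS7
import Pool.Agent.WPE.R_DS8
import Pool.Agent.WPE.R_DV1
import Pool.Agent.WPE.R_DV10
import Pool.Agent.WPE.R_DV11
import Pool.Agent.WPE.R_DV2
import Pool.Agent.WPE.R_DV3
import Pool.Agent.WPE.R_DV4
import Pool.Agent.WPE.R_DV5
import Pool.Agent.WPE.R_DV6
import Pool.Agent.WPE.R_DV7
import Pool.Agent.WPE.R_DV8
import Pool.Agent.WPE.R_DV9

/-!
# [WPE-DS] Type `D`, symbol part: assembly (`ds_D3 : st_D3`)
-/

namespace WPE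

open WPQ MvPolynomial

noncomputable section

theorem ds_EO (l p : ℕ) (hl : 4 ≤ l) (ε : Cocycle (CartanMatrix.D l) p)
    (o W : Fock (Fin l)) (h5 : st_DV5 l ε o W) (a7 : st_DA7 l) (v3 : st_DV3 l ε) (v4 : st_DV4 l p)
    (v6 : st_DV6 l ε) (v8 : st_DV8 l ε) (v9 : st_DV9 l ε) (v10 : st_DV10 l ε) (v11 : st_DV11 l ε)
    (Pf : Fock (Fin l)) (hPf : Pf ∈ Kod (CartanMatrix.D l) p (sgD l) l)
    (hPp : (Finsupp.single 0 Pf : VL (Fin l)) ∈ Prim0 (CartanMatrix.D l) p l)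
    (hPd : DLt l (Pf - inc0 (pfS l))) :
    EO l ε (Kev (CartanMatrix.D l) p (sgD l)) (Kod (CartanMatrix.D l) p (sgD l))
      (decD (CartanMatrix.D l) p (sgD l)) (UD ε o W) Pf where
  le_e := fun m => inf_le_left
  le_o := fun m => inf_le_left
  sup := v3.sup
  ee := v3.ee
  eo := v3.eo
  oe := v3.oe
  oo := v3.oo
  eT := v3.eT
  oT := v3.oT
  one := v3.one
  e0 := v3.e0
  e1 := v4.e1
  o0 := v4.o0
  u2 := h5.o2
  om := h5.om
  u4 := h5.w4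
  u4ne := by
    intro h0
    have h0' : W = 0 := h0
    obtain ⟨b, hb⟩ := h5.sw
    rw [h0', map_zero] at hb
    apply a7.ne 4 (by decide) (by omega) (by omega)
    have e : pwS l 4 = (-b) • (pwS l 2 * pwS l 2) := by
      rw [neg_smul, ← sq, eq_neg_iff_add_eq_zero, ← hb]
    rw [e]
    refine Submodule.smul_mem _ _ (Submodule.subset_span ⟨2, 2, pwS l 2, pwS l 2, by omega,
      by omega, by omega, ?_, ?_, rfl⟩)
    · exact a7.pw 1
    · exact a7.pw 1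
  u4p := h5.wp
  us := fun m h1 _ _ => v6.us o W m h1
  pf := hPf
  pfp := hPp
  d_le := fun m => inf_le_left
  d0 := v8.d0
  d1 := v8.d1
  dd := v8.dd
  odd := v8.odd
  even := v8.even o W h5
  span_e := v9
  span_o := v10 Pf hPf hPd
  gen := v11


theorem ds_D3 : st_D3 := by
  intro l hl p hp ε hK
  have hK' : KData l p := hK
  have dc := DC l hl
  have hA := dc.ade
  have a1 := DA1 l hl
  have a2 := DA2 l hl a1
  have a3 := DA3 l hl a1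
  have a4 := DA4 l hl hA a1
  have a6 := DA6 l hl hA a2 a3 a4 (DA5 (Fin l))
  have a7 := DA7 l hl a1 a2 a6
  have a8 := DA8 l p hl a1
  have hsg : ∀ i j, CartanMatrix.D l (sgD l i) (sgD l j) = CartanMatrix.D l i j := a1.sg
  have s1 : st_DS1 (CartanMatrix.D l) p (sgD l) := DS1 (sgD l) (DS1a (sgD l) hsg)
  have s2 : st_DS2 ε (sgD l) := DS2 hA (by omega) ε (sgD l) hsg s1 (vg_2 hA (by omega) ε)
  have s3 : st_DS3 ε := DS3 hA (by omega) ε
  have s5 : st_DS5 (Fin l) := DS5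
  have s4 : st_DS4 ε := DS4 hA ε (vg_2 hA (by omega) ε) s5
  have s6 : st_DS6 (CartanMatrix.D l) p (sgD l) := DS6 hA (by omega) (sgD l) s1 s5
  have s7 : st_DS7 (CartanMatrix.D l) p (sgD l) := DS7 hA (sgD l) hsg
  have s8 : st_DS8 (Fin l) := DS8
  have v1 := DV1 l p hl hp ε hK' a1 a2 a6 s1 s5
  have v2 := DV2 l p hl (by omega) a1 a2 a6 s1
  have v3 := DV3 l p hl hp hA ε a1 s1 s2 s3
  have v4 := DV4 l p hl v2 s5 s8
  obtain ⟨o, W, v5⟩ := DV5 l p hl hp ε dc a2 a7 s1 s3 s4 s5 s6 s8 v1 v2 v3 v4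
  have v6 := DV6 l p hl hp ε a7 a8 s4 s7 v3
  obtain ⟨Pf, hPf, hPp, hPd⟩ := DV7 l p hl hp ε dc v1 v3 v4 o W v5
  have v8 := DV8 l p hl ε a7 s4 s5 s6 v3 v6
  have v9 := DV9 l p hl ε a2 a7 s3 s4 s5 s8 v1 v2 v3
  have v10 := DV10 l p hl ε a2 s3 s5 s8 v1 v2 v3
  have v11 := DV11 l p hl ε a2 s3 s5 s8 v1 v2 v3
  exact ⟨_, _, _, _, Pf, ds_EO l p hl ε o W v5 a7 v3 v4 v6 v8 v9 v10 v11 Pf hPf hPp hPd⟩

end

end WPE
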