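import Pool.Agent.WPQ.HAD
import Pool.Agent.WPQ.LWD

/-!
# [WPE-VG] Generation of `V^G`: definitions and statements

`V^G ⊆ M(1) = Fock ι` is the kernel `KK A p` of all short and all long screenings. If `w_i ∈ V^G` is
homogeneous of weight `d_i` with component of highest polynomial degree `P_i(x(0))`, `P_i` a polynomial
of degree `d_i` on the Cartan algebra, and the Jacobian of the `P_i` is a multiple `≠ 0` of the product
of the positive roots, then `V^G` is spanned by the words in the modes `(w_i)_{-1-k}`, `k ≥ 0`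
(`st_VG8`).

The statements are the propositions `st_VG..`; the rows prove them from the ones named in the row.
-/

namespace WPE

open WPQ MvPolynomial

noncomputable section

variable {ι : Type} [Fintype ι] [DecidableEq ι] {A : Matrix ι ι ℤ} {p : ℕ}

/-- `f` has polynomial degree `< n`. -/
def DLt (n : ℕ) (f : Fock ι) : Prop := ∀ m, n ≤ m → homogeneousComponent m f = 0

/-- The translation operator on `M(1)`. -/
def dT (ι : Type) : Derivation ℂ (Fock ι) (Fock ι) :=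
  mkDerivation ℂ fun x : ι × ℕ => ((x.2 + 2 : ℂ)) • (X (x.1, x.2 + 1) : Fock ι)

/-- The modes `u_n` on `M(1)`. -/
def md (ε : Cocycle A p) (u : Fock ι) (n : ℤ) : Fock ι →ₗ[ℂ] Fock ι :=
  Finsupp.lapply 0 ∘ₗ mode ε (Finsupp.single 0 u) n ∘ₗ Finsupp.lsingle 0

/-- `V^G`: the vectors of `M(1)` killed by all short and all long screenings. -/
def KK (A : Matrix ι ι ℤ) (p : ℕ) : Submodule ℂ (Fock ι) where
  carrier := {f | (∀ j, vop A p (Pi.single j (-(p : ℂ)⁻¹)) (-1) f = 0) ∧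
    ∀ j, vop A p (bb j) (-1) f = 0}
  add_mem' := by
    rintro f g ⟨h1, h2⟩ ⟨k1, k2⟩
    exact ⟨fun j => by rw [map_add, h1 j, k1 j, add_zero],
      fun j => by rw [map_add, h2 j, k2 j, add_zero]⟩
  zero_mem' := ⟨fun _ => map_zero _, fun _ => map_zero _⟩
  smul_mem' := by
    rintro c f ⟨h1, h2⟩
    exact ⟨fun j => by rw [map_smul, h1 j, smul_zero], fun j => by rw [map_smul, h2 j, smul_zero]⟩

/-- The words `(w_{i_1})_{-1-k_1} ⋯ (w_{i_r})_{-1-k_r} 1`. -/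
def wo (ε : Cocycle A p) (w : ι → Fock ι) : List (ι × ℕ) → Fock ι
  | [] => 1
  | x :: L => md ε (w x.1) (-1 - (x.2 : ℤ)) (wo ε w L)

/-- The products `P_{i_1}^[k_1] ⋯ P_{i_r}^[k_r]`. -/
def pj (P : ι → MvPolynomial ι ℂ) (L : List (ι × ℕ)) : Fock ι :=
  (L.map fun x => jet x.2 (P x.1)).prod

/-- The degree of a word. -/
def dgL (d : ι → ℕ) (L : List (ι × ℕ)) : ℕ := (L.map fun x => d x.1).sum

/-- The weight of a word. -/
def wtL (d : ι → ℕ) (L : List (ι × ℕ)) : ℕ := (L.map fun x => d x.1 + x.2).sum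

/-- The generators `w_i` with symbols `P_i`. -/
structure Gens (A : Matrix ι ι ℤ) (p : ℕ) (w : ι → Fock ι) (P : ι → MvPolynomial ι ℂ) (d : ι → ℕ) :
    Prop where
  mem : ∀ i, w i ∈ KK A p
  wt : ∀ i, FH (w i) (d i)
  hom : ∀ i, (P i).IsHomogeneous (d i)
  top : ∀ i, DLt (d i) (w i - inc0 (P i))
  dpos : ∀ i, 1 ≤ d i

/-- The rank one theorem: the component of highest polynomial degree of a homogeneous vector killed by
the long screening `E_j` is in `B_j` (`vr_symbol` of block VR). -/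
def RankOne (A : Matrix ι ι ℤ) (p : ℕ) : Prop :=
  ∀ (j : ι) (f : Fock ι) (m : ℕ), FH f m → vop A p (bb j) (-1) f = 0 →
    homogeneousComponent f.totalDegree f ∈ BJ A j

end

/-! ### statements -/

section

variable {ι : Type} [Fintype ι] [DecidableEq ι] {A : Matrix ι ι ℤ} {p : ℕ}

/-- [VG1] Polynomial degree. -/
structure st_VG1 (ι : Type) [Fintype ι] [DecidableEq ι] : Prop where
  zero : ∀ f : Fock ι, DLt 0 f → f = 0
  z0 : ∀ n, DLt n (0 : Fock ι)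
  add : ∀ (n : ℕ) (f g : Fock ι), DLt n f → DLt n g → DLt n (f + g)
  sub : ∀ (n : ℕ) (f g : Fock ι), DLt n f → DLt n g → DLt n (f - g)
  smul : ∀ (n : ℕ) (c : ℂ) (f : Fock ι), DLt n f → DLt n (c • f)
  sum : ∀ (n : ℕ) (κ : Type) (s : Finset κ) (F : κ → Fock ι), (∀ x ∈ s, DLt n (F x)) →
    DLt n (∑ x ∈ s, F x)
  mono : ∀ (n m : ℕ) (f : Fock ι), n ≤ m → DLt n f → DLt m f
  hom : ∀ (a : ℕ) (f : Fock ι), f.IsHomogeneous a → DLt (a + 1) f
  mul : ∀ (a b : ℕ) (f g : Fock ι), DLt a f → DLt (b + 1) g → DLt (a + b) (f * g)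
  pd : ∀ (b : ℕ) (g : Fock ι) (x : ι × ℕ), DLt (b + 1) g → DLt b (pderiv x g)
  step : ∀ (n : ℕ) (f : Fock ι), DLt (n + 1) f → DLt n (f - homogeneousComponent n f)
  ex : ∀ f : Fock ι, ∃ n, DLt n f

/-- [VG2] The modes on `M(1)`. -/
structure st_VG2 (ε : Cocycle A p) : Prop where
  single : ∀ (u g : Fock ι) (n : ℤ),
    mode ε (Finsupp.single 0 u) n (Finsupp.single 0 g) = Finsupp.single 0 (md ε u n g)
  add : ∀ (u v : Fock ι) (n : ℤ), md ε (u + v) n = md ε u n + md ε v n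
  smul : ∀ (c : ℂ) (u : Fock ι) (n : ℤ), md ε (c • u) n = c • md ε u n
  one : ∀ n : ℤ, md ε (1 : Fock ι) n = if n = -1 then LinearMap.id else 0
  der : ∀ (u : Fock ι) (n : ℤ), md ε (dT ι u) n = (-n : ℂ) • md ε u (n - 1)
  nop : ∀ (i : ι) (u : Fock ι) (m : ℤ) (g : Fock ι), ∃ M0 : ℕ, ∀ M ≥ M0,
    md ε (X (i, 0) * u) m g = ∑ j ∈ Finset.range M,
      (C ((j : ℂ) + 1) * X (i, j) * md ε u (m + j) g +
        md ε u (m - 1 - j) (heis A p (bb i) (j : ℤ) 0 g))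
  low : ∀ (i : ι) (b : ℕ) (g : Fock ι) (j : ℕ), DLt (b + 1) g → DLt b (heis A p (bb i) (j : ℤ) 0 g)

/-- [VG3] The modes and the polynomial degree, rough form. -/
def st_VG3 (ε : Cocycle A p) : Prop :=
  ∀ (a b : ℕ) (u g : Fock ι) (n : ℤ), DLt (a + 1) u → DLt (b + 1) g → DLt (a + b + 1) (md ε u n g)

/-- [VG4] The modes and the polynomial degree, precise form. -/
structure st_VG4 (ε : Cocycle A p) : Prop where
  neg : ∀ (a b : ℕ) (P : MvPolynomial ι ℂ) (g : Fock ι) (k : ℕ), P.IsHomogeneous a → DLt (b + 1) g →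
    DLt (a + b) (md ε (inc0 P) (-1 - (k : ℤ)) g - jet k P * g)
  pos : ∀ (a b : ℕ) (P : MvPolynomial ι ℂ) (g : Fock ι) (n : ℕ), P.IsHomogeneous a → DLt (b + 1) g →
    DLt (a + b) (md ε (inc0 P) (n : ℤ) g)

/-- [VG5] The space `V^G`. -/
structure st_VG5 (ε : Cocycle A p) : Prop where
  wk : ∀ v : VL ι, v ∈ Wk ε ↔ ∃ f ∈ KK A p, v = Finsupp.single 0 f
  md_mem : ∀ u ∈ KK A p, ∀ g ∈ KK A p, ∀ n : ℤ, md ε u n g ∈ KK A p
  one_mem : (1 : Fock ι) ∈ KK A p
  comp : ∀ f ∈ KK A p, ∀ n : ℕ, weightedHomogeneousComponent (wF (ι := ι)) n f ∈ KK A p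
  wt : ∀ (a b c : ℕ) (u g : Fock ι) (n : ℤ), FH u a → FH g b → (c : ℤ) = a + b - n - 1 →
    FH (md ε u n g) c

/-- [VG6] The jets of homogeneous polynomials; products of jets. -/
structure st_VG6 (ι : Type) [Fintype ι] [DecidableEq ι] : Prop where
  jet_hom : ∀ (P : MvPolynomial ι ℂ) (a k : ℕ), P.IsHomogeneous a → (jet k P).IsHomogeneous a
  jet_wt : ∀ (P : MvPolynomial ι ℂ) (a k : ℕ), P.IsHomogeneous a → FH (jet k P) (a + k)
  inc_hom : ∀ (P : MvPolynomial ι ℂ) (a : ℕ), P.IsHomogeneous a → (inc0 P : Fock ι).IsHomogeneous a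
  pj_hom : ∀ (P : ι → MvPolynomial ι ℂ) (d : ι → ℕ), (∀ i, (P i).IsHomogeneous (d i)) →
    ∀ L, (pj P L).IsHomogeneous (dgL d L)
  pj_wt : ∀ (P : ι → MvPolynomial ι ℂ) (d : ι → ℕ), (∀ i, (P i).IsHomogeneous (d i)) →
    ∀ L, FH (pj P L) (wtL d L)
  span : ∀ (P : ι → MvPolynomial ι ℂ) (d : ι → ℕ), (∀ i, (P i).IsHomogeneous (d i)) →
    ∀ (f : Fock ι) (D n : ℕ), f ∈ BP P → f.IsHomogeneous D → FH f n →
      f ∈ Submodule.span ℂ {g | ∃ L, dgL d L = D ∧ wtL d L = n ∧ g = pj P L}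

/-- [VG7] Words. -/
structure st_VG7 (ε : Cocycle A p) : Prop where
  mem : ∀ (w : ι → Fock ι) (P : ι → MvPolynomial ι ℂ) (d : ι → ℕ), Gens A p w P d →
    ∀ L, wo ε w L ∈ KK A p
  wt : ∀ (w : ι → Fock ι) (P : ι → MvPolynomial ι ℂ) (d : ι → ℕ), Gens A p w P d →
    ∀ L, FH (wo ε w L) (wtL d L)
  top : ∀ (w : ι → Fock ι) (P : ι → MvPolynomial ι ℂ) (d : ι → ℕ), Gens A p w P d →
    ∀ L, DLt (dgL d L) (wo ε w L - pj P L)
  monomial : ∀ (w : ι → Fock ι) (L : List (ι × ℕ)),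
    Monomial ε (Set.range fun i => (Finsupp.single 0 (w i) : VL ι)) (Finsupp.single 0 (wo ε w L))

/-- [VG8] The main theorem: `V^G` is strongly generated by the `w_i`. -/
def st_VG8 (ε : Cocycle A p) : Prop :=
  ∀ (w : ι → Fock ι) (P : ι → MvPolynomial ι ℂ) (d : ι → ℕ) (c : ℂ), Gens A p w P d → Inv A P d c →
    RankOne A p →
    (∀ f ∈ KK A p, f ∈ Submodule.span ℂ {g | ∃ L, g = wo ε w L}) ∧
    (Wk ε : Set (VL ι)) ⊆ Submodule.span ℂ
      {v | Monomial ε (Set.range fun i => (Finsupp.single 0 (w i) : VL ι)) v}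

/-- [VG9] Invariance of the symbols. -/
def st_VG9 (A : Matrix ι ι ℤ) (p : ℕ) : Prop :=
  ∀ (w : ι → Fock ι) (P : ι → MvPolynomial ι ℂ) (d : ι → ℕ), Gens A p w P d → RankOne A p →
    ∀ i j, rfS A j (P i) = P i

/-- [VG10] The words are free: sorted words are linearly independent. -/
def st_VG10 (ε : Cocycle A p) : Prop :=
  ∀ (w : ι → Fock ι) (P : ι → MvPolynomial ι ℂ) (d : ι → ℕ), Gens A p w P d → (Jac P).det ≠ 0 →
    LinearIndependent ℂ fun s : (ι × ℕ) →₀ ℕ => wo ε w (Finsupp.toMultiset s).toList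

end

end WPE
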