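import Pool.Agent.WPE.FND
import Pool.Agent.WPE.VGD

/-! # The output of the block KDS: the generators of the kernel of the screenings in `M(1)` -/

namespace WPE

open WPQ MvPolynomial

noncomputable section

variable {ι : Type} [Fintype ι] [DecidableEq ι]

/-- `V^G` contains vectors whose symbols are basic invariants; their weights are given by the heights
of the positive roots. -/
def KDSOut (A : Matrix ι ι ℤ) (p : ℕ) : Prop :=
  ∃ (w : ι → Fock ι) (P : ι → MvPolynomial ι ℂ) (d : ι → ℕ) (c : ℂ),
    Gens A p w P d ∧ Inv A P d c ∧ Exponents A d

end

end WPE
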