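import Pool.Agent.WPE.DF
import Pool.Agent.WPE.DSM
import Pool.Agent.WPE.KDSO

/-! # Type `D`: `PrimaryGenerated (CartanMatrix.D l) p` for all `l ≥ 4`, `p ≥ 2`, from the output of KDS -/

namespace WPE

open WPQ MvPolynomial

/-- Type `D`. -/
theorem pgD (hK : ∀ l : ℕ, 4 ≤ l → ∀ p : ℕ, 2 ≤ p → KDSOut (CartanMatrix.D l) p) :
    ∀ l : ℕ, 4 ≤ l → ∀ p : ℕ, 2 ≤ p → PrimaryGenerated (CartanMatrix.D l) p := by
  intro l hl p hp
  refine pgD' ds_D3 l p hl hp fun l hl p hp => ?_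
  obtain ⟨w, P, d, c, hG, hI, -⟩ := hK l hl p hp
  exact ⟨w, P, d, c, hG, hI⟩

theorem adeD (l : ℕ) (hl : 4 ≤ l) : IsADE (CartanMatrix.D l) := (df_R l 1 hl).ade

end WPE
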