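import Pool.Agent.WPE.KPH
import Pool.Agent.WPQ.HAM

/-! [KPL] WPE: the Killing form is `2 h^∨ ( , )`. -/

namespace WPE

open WPQ

noncomputable section

section roots

variable {ι : Type} [Fintype ι] [DecidableEq ι] {A : Matrix ι ι ℤ}

/-- The Dynkin diagram is connected. -/
def Conn (A : Matrix ι ι ℤ) : Prop :=
  ∀ P : ι → Prop, (∀ i j, A i j ≠ 0 → P i → P j) → ∀ i j, P i → P j

namespace KPI

theorem pr_lin (i j : ι) (γ : ι → ℤ) (c : ℤ) :
    WPQ.pr A i (γ - c • rt j) = WPQ.pr A i γ - c * A i j := by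
  unfold WPQ.pr
  have h : ∀ k, A i k * (γ - c • rt j) k = A i k * γ k - c * (A i k * rt j k) := by
    intro k
    rw [Pi.sub_apply, Pi.smul_apply, smul_eq_mul]
    ring
  rw [Finset.sum_congr rfl fun k _ => h k, Finset.sum_sub_distrib, ← Finset.mul_sum]
  congr 2
  rw [Finset.sum_eq_single j]
  · rw [rt, Pi.single_eq_same, mul_one]
  · intro k _ hk
    rw [rt, Pi.single_eq_of_ne hk, mul_zero]
  · intro h
    exact absurd (Finset.mem_univ j) h

theorem pr_rt (i j : ι) : WPQ.pr A i (rt j) = A i j := by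
  have h := pr_lin (A := A) i j 0 (-1)
  rw [zero_sub, neg_smul, neg_neg, one_smul] at h
  rw [h]
  have h0 : WPQ.pr A i 0 = 0 := by
    unfold WPQ.pr
    simp
  rw [h0]
  ring

theorem pr_refl (i j : ι) (γ : ι → ℤ) :
    WPQ.pr A i (refl A j γ) = WPQ.pr A i γ - WPQ.pr A j γ * A i j := pr_lin i j γ _

theorem pr_refl_self (hA : IsADE A) (j : ι) (γ : ι → ℤ) :
    WPQ.pr A j (refl A j γ) = -WPQ.pr A j γ := by
  rw [pr_refl, hA.diag]
  ring

/-- The positive roots other than `α_j` are permuted by `s_j`. -/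
theorem refl_mem (hA : IsADE A) (j : ι) (γ : ι → ℤ) (hγ : γ ∈ (posRoots A).erase (rt j)) :
    refl A j γ ∈ (posRoots A).erase (rt j) := by
  have hm := (HA8 ι).mem A hA
  obtain ⟨hne, hγ⟩ := Finset.mem_erase.1 hγ
  have h1 := (hm γ).1 hγ
  have h2 : bl A (refl A j γ) (refl A j γ) = 2 := by
    rw [bl_refl hA]
    exact h1.2
  rw [Finset.mem_erase]
  constructor
  · intro h
    have h3 : refl A j (rt j) = γ := by
      rw [← h, refl_refl hA]
    have h4 : refl A j (rt j) = -rt j := by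
      unfold WPQ.refl
      rw [pr_rt, hA.diag]
      module
    have h5 := h1.1 j
    rw [← h3, h4, Pi.neg_apply, rt, Pi.single_eq_same] at h5
    omega
  · rcases sign_coh hA _ h2 with h3 | h3
    · exact (hm _).2 ⟨h3, h2⟩
    · exfalso
      apply hne
      have h4 : ∀ i, i ≠ j → γ i = 0 := by
        intro i hi
        have h5 := h3 i
        unfold WPQ.refl at h5
        rw [Pi.sub_apply, Pi.smul_apply, rt, Pi.single_eq_of_ne hi, smul_zero, sub_zero] at h5
        have h6 := h1.1 i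
        omega
      have h5 : γ = γ j • rt j := by
        funext i
        rw [Pi.smul_apply, smul_eq_mul]
        by_cases hi : i = j
        · rw [hi, rt, Pi.single_eq_same, mul_one]
        · rw [h4 i hi, rt, Pi.single_eq_of_ne hi, mul_zero]
      have h6 := h1.2
      rw [h5, bl_smul_left, bl_symm hA, bl_smul_left, jj1_rt_rt hA] at h6
      have h7 := h1.1 j
      have h8 : γ j * γ j = 1 := by linarith
      have h9 : γ j = 1 := by nlinarith
      rw [h5, h9, one_smul]

/-- The sum over the positive roots other than `α_j`. -/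
theorem sum_erase (hA : IsADE A) (i j : ι) :
    2 * ∑ γ ∈ (posRoots A).erase (rt j), WPQ.pr A j γ * WPQ.pr A i γ =
      A i j * ∑ γ ∈ (posRoots A).erase (rt j), WPQ.pr A j γ * WPQ.pr A j γ := by
  have h1 : ∑ γ ∈ (posRoots A).erase (rt j), WPQ.pr A j γ * WPQ.pr A i γ =
      ∑ γ ∈ (posRoots A).erase (rt j), WPQ.pr A j (refl A j γ) * WPQ.pr A i (refl A j γ) := by
    refine Finset.sum_nbij' (refl A j) (refl A j) (refl_mem hA j) (refl_mem hA j)
      (fun γ _ => refl_refl hA j γ) (fun γ _ => refl_refl hA j γ) ?_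
    intro γ _
    rw [refl_refl hA]
  have h2 : ∀ γ, WPQ.pr A j (refl A j γ) * WPQ.pr A i (refl A j γ) =
      A i j * (WPQ.pr A j γ * WPQ.pr A j γ) - WPQ.pr A j γ * WPQ.pr A i γ := by
    intro γ
    rw [pr_refl_self hA, pr_refl]
    ring
  rw [Finset.sum_congr rfl fun γ _ => h2 γ, Finset.sum_sub_distrib, ← Finset.mul_sum] at h1
  linarith

/-- The number `4 + ∑ (γ, α_j)²`. -/
def cox (A : Matrix ι ι ℤ) (j : ι) : ℤ :=
  4 + ∑ γ ∈ (posRoots A).erase (rt j), WPQ.pr A j γ * WPQ.pr A j γ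

theorem sum_cox (hA : IsADE A) (i j : ι) :
    2 * ∑ γ ∈ posRoots A, WPQ.pr A j γ * WPQ.pr A i γ = A i j * cox A j := by
  rw [← Finset.add_sum_erase _ _ ((HA8 ι).simple A hA j), mul_add, sum_erase hA, pr_rt, pr_rt,
    hA.diag]
  unfold cox
  ring

end KPI

/-- `∑_{γ > 0} (γ, α_i)(γ, α_j) = h^∨ (α_i, α_j)` if the diagram is connected. -/
theorem exists_cox (hA : IsADE A) (hc : Conn A) : ∃ c : ℤ, ∀ i j,
    2 * ∑ γ ∈ posRoots A, WPQ.pr A i γ * WPQ.pr A j γ = c * A i j := by
  rcases isEmpty_or_nonempty ι with h | ⟨⟨i0⟩⟩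
  · exact ⟨0, fun i => (h.false i).elim⟩
  · refine ⟨KPI.cox A i0, fun i j => ?_⟩
    have h1 : ∀ i j, A i j ≠ 0 → KPI.cox A i = KPI.cox A j := by
      intro i j hij
      have h2 := KPI.sum_cox hA i j
      have h3 := KPI.sum_cox hA j i
      have h4 : ∑ γ ∈ posRoots A, WPQ.pr A j γ * WPQ.pr A i γ =
          ∑ γ ∈ posRoots A, WPQ.pr A i γ * WPQ.pr A j γ :=
        Finset.sum_congr rfl fun γ _ => mul_comm _ _
      rw [h4, h3, hA.symm j i] at h2
      exact mul_left_cancel₀ hij h2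
    have h2 : KPI.cox A i0 = KPI.cox A i := by
      refine (hc (fun j => KPI.cox A i0 = KPI.cox A j) ?_ i0 i rfl)
      intro a b hab h
      exact h.trans (h1 a b hab)
    rw [h2, KPI.sum_cox hA j i, hA.symm j i, mul_comm]

omit [Fintype ι] [DecidableEq ι] in
/-- A criterion for connectedness. -/
theorem conn_of (hs : ∀ i j, A i j = A j i) (i0 : ι) (r : ι → ℕ)
    (h : ∀ j, j = i0 ∨ ∃ i, r i < r j ∧ A i j ≠ 0) : Conn A := by
  intro P hP
  have key : ∀ (n : ℕ) (j : ι), r j < n → (P i0 ↔ P j) := by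
    intro n
    induction n with
    | zero => intro j hj; omega
    | succ n ih =>
      intro j hj
      rcases h j with rfl | ⟨i, hi, hij⟩
      · exact Iff.rfl
      · exact (ih i (by omega)).trans ⟨hP _ _ hij, hP _ _ (by rwa [hs j i])⟩
  intro i j hi
  exact (key (r j + 1) j (by omega)).1 ((key (r i + 1) i (by omega)).2 hi)

theorem conn_A (l : ℕ) (hl : 1 ≤ l) : Conn (CartanMatrix.A l) := by
  refine conn_of (fun i j => (CartanMatrix.A_isSymm l).apply j i) ⟨0, by omega⟩
    (fun i => (i : ℕ)) ?_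
  intro j
  by_cases hj : (j : ℕ) = 0
  · exact Or.inl (Fin.ext hj)
  · refine Or.inr ⟨⟨j - 1, by omega⟩, by show (j : ℕ) - 1 < j; omega, ?_⟩
    unfold CartanMatrix.A
    rw [Matrix.of_apply, if_neg (by intro h; have := congrArg Fin.val h; simp at this; omega),
      if_pos (Or.inl (by show (j : ℕ) - 1 + 1 = j; omega))]
    norm_num

theorem conn_D (l : ℕ) (hl : 4 ≤ l) : Conn (CartanMatrix.D l) := by
  refine conn_of (fun i j => (CartanMatrix.D_isSymm l).apply j i) ⟨0, by omega⟩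
    (fun i => (i : ℕ)) ?_
  intro j
  by_cases hj : (j : ℕ) = 0
  · exact Or.inl (Fin.ext hj)
  · right
    by_cases hj2 : (j : ℕ) = l - 1
    · refine ⟨⟨j - 2, by omega⟩, by show (j : ℕ) - 2 < j; omega, ?_⟩
      unfold CartanMatrix.D
      rw [Matrix.of_apply]
      have h1 : (⟨(j : ℕ) - 2, by omega⟩ : Fin l) ≠ j := by
        intro h
        have := congrArg Fin.val h
        simp at this
        omega
      simp only [h1, if_false]
      split_ifs <;> first | (exfalso; omega) | norm_num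
    · refine ⟨⟨j - 1, by omega⟩, by show (j : ℕ) - 1 < j; omega, ?_⟩
      unfold CartanMatrix.D
      rw [Matrix.of_apply]
      have h1 : (⟨(j : ℕ) - 1, by omega⟩ : Fin l) ≠ j := by
        intro h
        have := congrArg Fin.val h
        simp at this
        omega
      simp only [h1, if_false]
      split_ifs <;> first | (exfalso; omega) | norm_num

theorem conn_E6 : Conn CartanMatrix.E₆ :=
  conn_of (fun i j => CartanMatrix.E₆_isSymm.apply j i) 0 ![0, 3, 1, 2, 3, 4] (by decide)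

theorem conn_E7 : Conn CartanMatrix.E₇ :=
  conn_of (fun i j => CartanMatrix.E₇_isSymm.apply j i) 0 ![0, 3, 1, 2, 3, 4, 5] (by decide)

theorem conn_E8 : Conn CartanMatrix.E₈ :=
  conn_of (fun i j => CartanMatrix.E₈_isSymm.apply j i) 0 ![0, 3, 1, 2, 3, 4, 5, 6] (by decide)

end roots

section killing

variable {g β η : Type} [LieRing g] [LieAlgebra ℂ g] [Fintype β] [DecidableEq β] [Fintype η]
  [DecidableEq η]

namespace LD

variable (L : LD g β η)

/-- The trace form on the Cartan subalgebra. -/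
theorem trf_hs (a b : g) (ha : a ∈ L.hs) (hb : b ∈ L.hs) : L.trf a b = 2 * L.tau a b := by
  have hG := la_G L
  have h1 : ∑ i, L.form ⁅a, ⁅b, L.h i⁆⁆ (L.h' i) = 0 := by
    refine Finset.sum_eq_zero fun i _ => ?_
    rw [hG.hs_hs b hb (L.h i) (L.h_mem_hs i), lie_zero, map_zero, LinearMap.zero_apply]
  have h2 : ∑ c, L.form ⁅a, ⁅b, L.f c⁆⁆ (L.e c) = L.tau a b := by
    unfold tau
    refine Finset.sum_congr rfl fun c _ => ?_
    rw [L.symm, ← L.inv, ← L.inv]
    have h3 : ⁅⁅L.e c, a⁆, b⁆ = ⁅a, ⁅b, L.e c⁆⁆ := by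
      rw [← lie_skew ⁅L.e c, a⁆ b, ← lie_skew (L.e c) a, lie_neg, neg_neg, leibniz_lie b a (L.e c),
        hG.hs_hs b hb a ha, zero_lie, zero_add]
    rw [h3]
  unfold trf
  rw [h1, add_zero, h2]
  have h4 : ∑ c, L.form ⁅a, ⁅b, L.e c⁆⁆ (L.f c) = L.tau a b := rfl
  rw [h4]
  ring

theorem trf_gr (c d : ℤ) (hcd : c + d ≠ 0) (x y : g) (hx : x ∈ L.gr c) (hy : y ∈ L.gr d) :
    L.trf x y = 0 := by
  have hG := la_G L
  have hP := la_P L
  have key : ∀ (e : ℤ) (v w : g), v ∈ L.gr e → w ∈ L.gr (-e) → L.form ⁅x, ⁅y, v⁆⁆ w = 0 := by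
    intro e v w hv hw
    refine hG.form_gr (c + (d + e)) (-e) (by intro h; apply hcd; omega) _ ?_ _ hw
    exact hG.lie_gr _ _ _ hx _ (hG.lie_gr _ _ _ hy _ hv)
  unfold trf
  rw [Finset.sum_eq_zero fun b _ => key _ _ _ (hG.e_gr b) (hG.f_gr b),
    Finset.sum_eq_zero fun i _ => key 0 _ _ (by rw [hG.gr_zero]; exact L.h_mem_hs i)
      (by rw [neg_zero, hG.gr_zero]; exact hP.h'_mem i),
    Finset.sum_eq_zero fun b _ => key (-(L.ht b : ℤ)) _ _ (hG.f_gr b)
      (by rw [neg_neg]; exact hG.e_gr b)]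
  ring

/-- The Killing form from the weights of the root vectors. -/
theorem trf_of_weights (w : β → η → ℂ) (hw : ∀ b i, ⁅L.h i, L.e b⁆ = w b i • L.e b) (hv : ℂ)
    (hS : ∀ i j, ∑ b, w b i * w b j = hv * L.form (L.h i) (L.h j)) (x y : g) :
    L.trf x y = 2 * hv * L.form x y := by
  have hG := la_G L
  have hP := la_P L
  have htau : ∀ i j, L.tau (L.h i) (L.h j) = hv * L.form (L.h i) (L.h j) := by
    intro i j
    rw [← hS]
    unfold tau
    refine Finset.sum_congr rfl fun b _ => ?_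
    rw [hw, lie_smul, hw, smul_smul, map_smul, LinearMap.smul_apply, L.ef, if_pos rfl, smul_eq_mul,
      mul_one, mul_comm]
  -- the difference of the two forms
  let B : g →ₗ[ℂ] g →ₗ[ℂ] ℂ := killingForm ℂ g - (2 * hv) • L.form
  have hB : ∀ x y, B x y = L.trf x y - 2 * hv * L.form x y := by
    intro x y
    show killingForm ℂ g x y - (2 * hv) • L.form x y = _
    rw [L.killing_eq, smul_eq_mul]
  have hBinv : ∀ x y z, B ⁅x, y⁆ z = B x ⁅y, z⁆ := by
    intro x y z
    show killingForm ℂ g ⁅x, y⁆ z - (2 * hv) • L.form ⁅x, y⁆ z =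
      killingForm ℂ g x ⁅y, z⁆ - (2 * hv) • L.form x ⁅y, z⁆
    rw [LieModule.traceForm_apply_lie_apply, L.inv]
  have hBh : ∀ a ∈ L.hs, ∀ b ∈ L.hs, B a b = 0 := by
    have h1 : ∀ i j, B (L.h i) (L.h j) = 0 := by
      intro i j
      rw [hB, L.trf_hs _ _ (L.h_mem_hs i) (L.h_mem_hs j), htau]
      ring
    intro a ha b hb
    rw [hP.hs_exp a ha, hP.hs_exp b hb]
    simp only [map_sum, map_smul, LinearMap.sum_apply, LinearMap.smul_apply, h1, smul_zero,
      Finset.sum_const_zero]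
  have hBg : ∀ c d : ℤ, c + d ≠ 0 → ∀ x ∈ L.gr c, ∀ y ∈ L.gr d, B x y = 0 := by
    intro c d hcd x hx y hy
    rw [hB, L.trf_gr c d hcd x y hx hy, hG.form_gr c d hcd x hx y hy]
    ring
  have hBef : ∀ b c, B (L.e b) (L.f c) = 0 := by
    intro b c
    have h1 := hBinv (L.e b) (L.f c) L.rho
    have h2 : ⁅L.f c, L.rho⁆ = (L.ht c : ℂ) • L.f c := by
      rw [← lie_skew, L.rho_f, neg_smul, neg_neg]
    rw [h2, map_smul, smul_eq_mul] at h1
    have h3 : (L.ht c : ℂ) ≠ 0 := by
      have := L.ht_pos c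
      exact_mod_cast (by omega : L.ht c ≠ 0)
    have h4 : B ⁅L.e b, L.f c⁆ L.rho = 0 := by
      have h5 : ⁅L.e b, L.f c⁆ ∈ L.gr ((L.ht b : ℤ) + -(L.ht c : ℤ)) :=
        hG.lie_gr _ _ _ (hG.e_gr b) _ (hG.f_gr c)
      have h6 : L.rho ∈ L.gr 0 := by
        rw [hG.gr_zero]
        exact L.rho_mem
      by_cases h7 : (L.ht b : ℤ) + -(L.ht c : ℤ) = 0
      · rw [h7, hG.gr_zero] at h5
        exact hBh _ h5 _ L.rho_mem
      · exact hBg _ 0 (by rwa [add_zero]) _ h5 _ h6
    rw [h4] at h1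
    exact (mul_eq_zero.1 h1.symm).resolve_left h3
  have hBs : ∀ x y, B x y = B y x := by
    intro x y
    show killingForm ℂ g x y - (2 * hv) • L.form x y = killingForm ℂ g y x - (2 * hv) • L.form y x
    rw [LieModule.traceForm_comm, L.symm]
  have hh0 : ∀ i, L.h i ∈ L.gr 0 := fun i => by
    rw [hG.gr_zero]
    exact L.h_mem_hs i
  have hpos := L.ht_pos
  have key : B = 0 := by
    have he : ∀ b, B (L.e b) = 0 := by
      intro b
      refine LinearMap.ext fun y => ?_
      rw [L.decomp y]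
      have h1 : ∀ c, B (L.e b) (L.e c) = 0 := fun c =>
        hBg _ _ (by have := hpos b; have := hpos c; omega) _ (hG.e_gr b) _ (hG.e_gr c)
      have h2 : ∀ i, B (L.e b) (L.h i) = 0 := fun i =>
        hBg _ _ (by have := hpos b; omega) _ (hG.e_gr b) _ (hh0 i)
      simp only [map_add, map_sum, map_smul, h1, h2, hBef, smul_zero, Finset.sum_const_zero,
        add_zero, LinearMap.zero_apply]
    have hf : ∀ b, B (L.f b) = 0 := by
      intro b
      refine LinearMap.ext fun y => ?_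
      rw [L.decomp y]
      have h1 : ∀ c, B (L.f b) (L.f c) = 0 := fun c =>
        hBg _ _ (by have := hpos b; have := hpos c; omega) _ (hG.f_gr b) _ (hG.f_gr c)
      have h2 : ∀ i, B (L.f b) (L.h i) = 0 := fun i =>
        hBg _ _ (by have := hpos b; omega) _ (hG.f_gr b) _ (hh0 i)
      have h3 : ∀ c, B (L.f b) (L.e c) = 0 := fun c => by
        rw [hBs]
        exact hBef c b
      simp only [map_add, map_sum, map_smul, h1, h2, h3, smul_zero, Finset.sum_const_zero,
        add_zero, LinearMap.zero_apply]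
    have hh : ∀ i, B (L.h i) = 0 := by
      intro i
      refine LinearMap.ext fun y => ?_
      rw [L.decomp y]
      have h1 : ∀ j, B (L.h i) (L.h j) = 0 := fun j =>
        hBh _ (L.h_mem_hs i) _ (L.h_mem_hs j)
      have h2 : ∀ c, B (L.h i) (L.e c) = 0 := fun c => by
        rw [hBs, he, LinearMap.zero_apply]
      have h3 : ∀ c, B (L.h i) (L.f c) = 0 := fun c => by
        rw [hBs, hf, LinearMap.zero_apply]
      simp only [map_add, map_sum, map_smul, h1, h2, h3, smul_zero, Finset.sum_const_zero,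
        add_zero, LinearMap.zero_apply]
    refine LinearMap.ext fun x => ?_
    rw [L.decomp x]
    simp only [map_add, map_sum, map_smul, he, hf, hh, smul_zero, Finset.sum_const_zero,
      add_zero, LinearMap.zero_apply]
  have h1 := hB x y
  rw [key, LinearMap.zero_apply, LinearMap.zero_apply] at h1
  exact (sub_eq_zero.1 h1.symm)

end LD

end killing

end

end WPE
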