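import Pool.Agent.WPE.KGF

/-! [WPE-KG4] The inverse matrix. -/

set_option linter.unusedSectionVars false

namespace WPE

open WPQ MvPolynomial AF

noncomputable section

variable {ι : Type} [Fintype ι] [DecidableEq ι] {A : Matrix ι ι ℤ}

namespace KG4

theorem det_ne (hA : IsADE A) : (A.map (Int.cast : ℤ → ℂ)).det ≠ 0 := by
  have h := jj1_det hA
  have h1 : (A.map (Int.cast : ℤ → ℂ)).det = ((A.det : ℤ) : ℂ) := by
    have h2 := (RingHom.map_det (Int.castRingHom ℂ) A).symm
    exact h2
  rw [h1, Int.cast_ne_zero]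
  exact h

theorem mi (hA : IsADE A) : A.map (Int.cast : ℤ → ℂ) * (A.map (Int.cast : ℤ → ℂ))⁻¹ = 1 :=
  Matrix.mul_nonsing_inv _ (isUnit_iff_ne_zero.2 (det_ne hA))

theorem im (hA : IsADE A) : (A.map (Int.cast : ℤ → ℂ))⁻¹ * A.map (Int.cast : ℤ → ℂ) = 1 :=
  Matrix.nonsing_inv_mul _ (isUnit_iff_ne_zero.2 (det_ne hA))

theorem mul_inv (hA : IsADE A) (i j : ι) :
    ∑ k, (A i k : ℂ) * invA A k j = if i = j then 1 else 0 := by
  have h := congrFun (congrFun (mi hA) i) j
  rw [Matrix.mul_apply, Matrix.one_apply] at h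
  exact h

theorem inv_mul (hA : IsADE A) (i j : ι) :
    ∑ k, invA A i k * (A k j : ℂ) = if i = j then 1 else 0 := by
  have h := congrFun (congrFun (im hA) i) j
  rw [Matrix.mul_apply, Matrix.one_apply] at h
  exact h

theorem inv_symm (hA : IsADE A) (i j : ι) : invA A i j = invA A j i := by
  have h1 : (A.map (Int.cast : ℤ → ℂ)).transpose = A.map (Int.cast : ℤ → ℂ) := by
    ext a b
    rw [Matrix.transpose_apply, Matrix.map_apply, Matrix.map_apply, hA.symm]
  have h2 := Matrix.transpose_nonsing_inv (A.map (Int.cast : ℤ → ℂ))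
  rw [h1] at h2
  have h3 := congrFun (congrFun h2 j) i
  rw [Matrix.transpose_apply] at h3
  exact h3

theorem form_eq (ν μ : ι → ℂ) : form A 1 ν μ = ∑ i, ν i * ∑ j, (A i j : ℂ) * μ j := by
  unfold form
  rw [Nat.cast_one, one_mul]
  refine Finset.sum_congr rfl fun i _ => ?_
  rw [Finset.mul_sum]
  exact Finset.sum_congr rfl fun j _ => by ring

theorem form_bb_left (i : ι) (μ : ι → ℂ) : form A 1 (bb i) μ = ∑ j, (A i j : ℂ) * μ j := by
  rw [form_eq, Finset.sum_eq_single i]
  · simp [bb]
  · intro k _ hk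
    simp [bb, Pi.single_eq_of_ne hk]
  · intro h
    exact absurd (Finset.mem_univ i) h

end KG4

/-- [KG4] -/
theorem kg_K4 (hA : IsADE A) : FactsK4 A where
  mul_inv := KG4.mul_inv hA
  inv_mul := KG4.inv_mul hA
  inv_symm := KG4.inv_symm hA
  form_dual i j := by
    rw [KG4.form_bb_left]
    have h := KG4.mul_inv hA i j
    rw [← h]
    exact Finset.sum_congr rfl fun k _ => by rw [KG4.inv_symm hA j k]
  form_bb i j := by
    rw [KG4.form_bb_left, Finset.sum_eq_single j]
    · simp [bb]
    · intro k _ hk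
      simp [bb, Pi.single_eq_of_ne hk]
    · intro h
      exact absurd (Finset.mem_univ j) h
  form_bb_toC i γ := by
    rw [KG4.form_bb_left]
    unfold pr toC
    push_cast
    rfl
  form_rho γ := by
    rw [KG4.form_eq]
    have h1 : ∀ i, rho A i = ∑ k, invA A k i := by
      intro i
      unfold rho Matrix.mulVec dotProduct
      refine Finset.sum_congr rfl fun k _ => ?_
      rw [mul_one]
      exact KG4.inv_symm hA i k
    simp only [h1, Finset.sum_mul]
    rw [Finset.sum_comm]
    have h2 : ∀ k, ∑ i, invA A k i * ∑ j, (A i j : ℂ) * toC γ j = (γ k : ℂ) := by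
      intro k
      simp only [Finset.mul_sum]
      rw [Finset.sum_comm]
      have h3 : ∀ j, ∑ i, invA A k i * ((A i j : ℂ) * toC γ j) =
          (if k = j then 1 else 0) * toC γ j := by
        intro j
        rw [← KG4.inv_mul hA k j, Finset.sum_mul]
        exact Finset.sum_congr rfl fun i _ => by ring
      simp only [h3, ite_mul, one_mul, zero_mul]
      rw [Finset.sum_ite_eq Finset.univ k, if_pos (Finset.mem_univ _)]
      rfl
    rw [Finset.sum_congr rfl fun k _ => h2 k]
    unfold ht
    push_cast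
    rfl
  form_bl γ δ := by
    rw [KG4.form_eq]
    unfold bl toC
    push_cast
    refine Finset.sum_congr rfl fun i _ => ?_
    rw [Finset.mul_sum]
    exact Finset.sum_congr rfl fun j _ => by ring
  form_symm ν μ := by
    rw [KG4.form_eq, KG4.form_eq]
    simp only [Finset.mul_sum]
    rw [Finset.sum_comm]
    refine Finset.sum_congr rfl fun i _ => Finset.sum_congr rfl fun j _ => ?_
    rw [hA.symm j i]
    ring

end

end WPE
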