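import Mathlib

/-! [WPE-KG6] `F : M_{c+1} → M_c` is onto for `c < 0`. -/

namespace WPE

namespace KG6

variable {M : Type} [AddCommGroup M] [Module ℂ M]

/-- `[E^k, F] = k (2 c + k - 1) E^{k-1}` on `M_c`. -/
theorem pow_comm (E F : M →ₗ[ℂ] M) (wt : ℤ → Submodule ℂ M)
    (hE : ∀ c, ∀ x ∈ wt c, E x ∈ wt (c + 1))
    (hH : ∀ c, ∀ x ∈ wt c, E (F x) - F (E x) = (2 * (c : ℂ)) • x) (k : ℕ) (c : ℤ) (x : M)
    (hx : x ∈ wt c) :
    (E ^ (k + 1)) (F x) = F ((E ^ (k + 1)) x) +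
      (((k : ℂ) + 1) * (2 * (c : ℂ) + k)) • (E ^ k) x := by
  induction k generalizing c x with
  | zero =>
    rw [zero_add, pow_one, pow_zero, Module.End.one_apply, ← sub_eq_iff_eq_add', hH c x hx]
    congr 1
    push_cast
    ring
  | succ k ih =>
    have h1 : E (F x) = F (E x) + (2 * (c : ℂ)) • x := by
      rw [← hH c x hx]
      abel
    have h2 := ih (c + 1) (E x) (hE c x hx)
    rw [pow_succ E (k + 1), Module.End.mul_apply, h1, map_add, map_smul, h2]
    have h3 : (E ^ (k + 1)) (E x) = (E ^ (k + 1) * E) x := rfl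
    have h4 : (E ^ k) (E x) = (E ^ (k + 1)) x := by
      rw [pow_succ]
      rfl
    rw [h4, h3, add_assoc, ← add_smul]
    congr 2
    push_cast
    ring

theorem pow_mem (E : M →ₗ[ℂ] M) (wt : ℤ → Submodule ℂ M)
    (hE : ∀ c, ∀ x ∈ wt c, E x ∈ wt (c + 1)) (k : ℕ) (c : ℤ) (x : M) (hx : x ∈ wt c) :
    (E ^ k) x ∈ wt (c + k) := by
  induction k with
  | zero =>
    rw [pow_zero, Module.End.one_apply, Nat.cast_zero, add_zero]
    exact hx
  | succ k ih =>
    rw [pow_succ', Module.End.mul_apply]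
    have := hE _ _ ih
    push_cast
    rw [← add_assoc]
    exact this

end KG6

/-- [KG6] `F : M_{c+1} → M_c` is onto for `c < 0` (`sl₂`). -/
theorem kg_sl2 {M : Type} [AddCommGroup M] [Module ℂ M] (E F : M →ₗ[ℂ] M)
    (wt : ℤ → Submodule ℂ M) (hE : ∀ c, ∀ x ∈ wt c, E x ∈ wt (c + 1))
    (hF : ∀ c, ∀ x ∈ wt c, F x ∈ wt (c - 1))
    (hH : ∀ c, ∀ x ∈ wt c, E (F x) - F (E x) = (2 * (c : ℂ)) • x)
    (B : ℤ) (bdd : ∀ c < B, wt c = ⊥) (c : ℤ) (hc : c < 0) (x : M) (hx : x ∈ wt c) :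
    ∃ y ∈ wt (c + 1), F y = x := by
  have key : ∀ n : ℕ, ∀ K : ℕ, K + n = (c - B).toNat + 1 → ∀ y ∈ wt (c - K),
      ∃ z ∈ wt (c + 1), F z = (E ^ K) y := by
    intro n
    induction n with
    | zero =>
      intro K hK y hy
      have h1 : c - K < B := by
        have := Int.self_le_toNat (c - B)
        omega
      rw [bdd _ h1, Submodule.mem_bot] at hy
      refine ⟨0, zero_mem _, ?_⟩
      rw [hy, map_zero, map_zero]
    | succ n ih =>
      intro K hK y hy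
      obtain ⟨z1, hz1, h1⟩ := ih (K + 1) (by omega) (F y) (by
        have := hF _ _ hy
        rw [show c - ((K + 1 : ℕ) : ℤ) = c - K - 1 by push_cast; ring]
        exact this)
      have h2 := KG6.pow_comm E F wt hE hH K (c - K) y hy
      have h3 : (E ^ (K + 1)) y ∈ wt (c + 1) := by
        have := KG6.pow_mem E wt hE (K + 1) _ y hy
        rw [show c - (K : ℤ) + ((K + 1 : ℕ) : ℤ) = c + 1 by push_cast; ring] at this
        exact this
      have h4 : (((K : ℂ) + 1) * (2 * ((c - K : ℤ) : ℂ) + K)) ≠ 0 := by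
        have h5 : (((K : ℂ) + 1) * (2 * ((c - K : ℤ) : ℂ) + K)) =
            ((((K : ℤ) + 1) * (2 * (c - K) + K) : ℤ) : ℂ) := by
          push_cast
          ring
        rw [h5, Int.cast_ne_zero]
        refine mul_ne_zero (by omega) (by omega)
      refine ⟨(((K : ℂ) + 1) * (2 * ((c - K : ℤ) : ℂ) + K))⁻¹ • (z1 - (E ^ (K + 1)) y),
        Submodule.smul_mem _ _ (sub_mem hz1 h3), ?_⟩
      rw [map_smul, map_sub, h1, h2, add_sub_cancel_left, smul_smul, inv_mul_cancel₀ h4, one_smul]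
  obtain ⟨z, hz, h⟩ := key ((c - B).toNat + 1) 0 (by omega) x (by
    rw [Nat.cast_zero, sub_zero]
    exact hx)
  exact ⟨z, hz, by rw [h, pow_zero, Module.End.one_apply]⟩

end WPE
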