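import Pool.Agent.WPE.IND4

/-! WPE, block MI: maps between complexes over different Lie algebras. -/

namespace WPE

open scoped TensorProduct

noncomputable section

section comap

variable {B B' : Type} [LieRing B] [LieAlgebra ℂ B] [LieRing B'] [LieAlgebra ℂ B']
variable {κ : B →ₗ[ℂ] B →ₗ[ℂ] ℂ} {κ' : B' →ₗ[ℂ] B' →ₗ[ℂ] ℂ}
variable {E : Type} [AddCommGroup E] [Module ℂ E]

/-- Restriction of a module along a homomorphism of Lie algebras. -/
def BMod.comap (X : BMod κ' E) (f : B →ₗ⁅ℂ⁆ B') (hf : ∀ a b, κ' (f a) (f b) = κ a b) :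
    BMod κ E where
  J m := X.J m ∘ₗ (f : B →ₗ[ℂ] B')
  comm := by
    intro m n a b x
    have h := X.comm m n (f a) (f b) x
    have h1 : coc κ' m n (f a) (f b) = coc κ m n a b := by
      unfold coc
      rw [hf]
    rw [h1, ← LieHom.map_lie] at h
    exact h

theorem BMod.comap_J (X : BMod κ' E) (f : B →ₗ⁅ℂ⁆ B') (hf : ∀ a b, κ' (f a) (f b) = κ a b)
    (m : ℤ) (a : B) : (X.comap f hf).J m a = X.J m (f a) := rfl

end comap

section chom

variable {B B' : Type} [LieRing B] [LieAlgebra ℂ B] [LieRing B'] [LieAlgebra ℂ B']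
variable (κ : B →ₗ[ℂ] B →ₗ[ℂ] ℂ) (κ' : B' →ₗ[ℂ] B' →ₗ[ℂ] ℂ)
variable (Y : Type) [AddCommGroup Y] [Module ℂ Y] [LieRingModule B Y] [LieModule ℂ B Y]
variable (Y' : Type) [AddCommGroup Y'] [Module ℂ Y'] [LieRingModule B' Y'] [LieModule ℂ B' Y']
variable {N N' : Type} [AddCommGroup N] [Module ℂ N] [AddCommGroup N'] [Module ℂ N']
variable (T : TMod B N) (T' : TMod B' N')

/-- Data for a map of complexes over different Lie algebras. -/
structure CHom where
  f : B →ₗ⁅ℂ⁆ B'
  u : Y →ₗ[ℂ] Y'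
  φ : N →ₗ[ℂ] N'
  hκ : ∀ a b, κ' (f a) (f b) = κ a b
  hu : ∀ (a : B) (y : Y), u ⁅a, y⁆ = ⁅f a, u y⁆
  hφ : ∀ (m : ℕ) (a : B) (v : N), φ (T.act m a v) = T'.act m (f a) (φ v)

/-- The map of the ghost spaces. -/
def Gm {Y Y' : Type} [AddCommGroup Y] [Module ℂ Y] [AddCommGroup Y'] [Module ℂ Y']
    (u : Y →ₗ[ℂ] Y') : Gh Y →ₗ[ℂ] Gh Y' := Finsupp.mapRange.linearMap u

theorem Gm_single {Y Y' : Type} [AddCommGroup Y] [Module ℂ Y] [AddCommGroup Y'] [Module ℂ Y']
    (u : Y →ₗ[ℂ] Y') (k : ℕ) (y : Y) : Gm u (Finsupp.single k y) = Finsupp.single k (u y) := by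
  unfold Gm
  rw [Finsupp.mapRange.linearMap_apply, Finsupp.mapRange_single]

/-- The map of the generating spaces. -/
def KNmap {Y Y' N N' : Type} [AddCommGroup Y] [Module ℂ Y] [AddCommGroup Y'] [Module ℂ Y']
    [AddCommGroup N] [Module ℂ N] [AddCommGroup N'] [Module ℂ N'] (u : Y →ₗ[ℂ] Y')
    (φ : N →ₗ[ℂ] N') : KN Y N →ₗ[ℂ] KN Y' N' :=
  φ.prodMap ((TensorProduct.map (Gm u) φ).prodMap
    (TensorProduct.map (Gm u) (TensorProduct.map (Gm u) φ)))

theorem KNmap_apply {Y Y' N N' : Type} [AddCommGroup Y] [Module ℂ Y] [AddCommGroup Y']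
    [Module ℂ Y'] [AddCommGroup N] [Module ℂ N] [AddCommGroup N'] [Module ℂ N']
    (u : Y →ₗ[ℂ] Y') (φ : N →ₗ[ℂ] N') (v : KN Y N) : KNmap u φ v =
      (φ v.1, TensorProduct.map (Gm u) φ v.2.1,
        TensorProduct.map (Gm u) (TensorProduct.map (Gm u) φ) v.2.2) := rfl

variable {κ κ' Y Y' T T'}

namespace CHom

variable (H : CHom κ κ' Y Y' T T')

theorem gh (m : ℕ) (a : B) (g : Gh Y) : Gm H.u (ghAct m a g) = ghAct m (H.f a) (Gm H.u g) := by
  induction g using Finsupp.induction_linear with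
  | zero => simp
  | add g g' h h' => simp only [map_add]; rw [h, h']
  | single k y =>
    rw [ghAct_single, Gm_single, ghAct_single]
    split_ifs
    · rw [Gm_single, H.hu]
    · exact map_zero _

theorem t1 (m : ℕ) (a : B) (w : Gh Y ⊗[ℂ] N) : TensorProduct.map (Gm H.u) H.φ
    (((TMod.ghost B Y).tensor T).act m a w) =
      ((TMod.ghost B' Y').tensor T').act m (H.f a) (TensorProduct.map (Gm H.u) H.φ w) := by
  induction w using TensorProduct.induction_on with
  | zero => simp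
  | add x y hx hy => simp only [map_add]; rw [hx, hy]
  | tmul g v =>
    rw [TMod.tensor_act, map_add, TensorProduct.map_tmul, TensorProduct.map_tmul,
      TensorProduct.map_tmul, TMod.tensor_act, H.hφ]
    congr 1
    exact congrArg (· ⊗ₜ[ℂ] H.φ v) (H.gh m a g)

theorem t2 (m : ℕ) (a : B) (w : Gh Y ⊗[ℂ] (Gh Y ⊗[ℂ] N)) :
    TensorProduct.map (Gm H.u) (TensorProduct.map (Gm H.u) H.φ)
      (((TMod.ghost B Y).tensor ((TMod.ghost B Y).tensor T)).act m a w) =
      ((TMod.ghost B' Y').tensor ((TMod.ghost B' Y').tensor T')).act m (H.f a)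
        (TensorProduct.map (Gm H.u) (TensorProduct.map (Gm H.u) H.φ) w) := by
  induction w using TensorProduct.induction_on with
  | zero => simp
  | add x y hx hy => simp only [map_add]; rw [hx, hy]
  | tmul g v =>
    rw [TMod.tensor_act, map_add, TensorProduct.map_tmul, TensorProduct.map_tmul,
      TensorProduct.map_tmul, TMod.tensor_act, H.t1]
    congr 1
    exact congrArg (· ⊗ₜ[ℂ] TensorProduct.map (Gm H.u) H.φ v) (H.gh m a g)

theorem kn (m : ℕ) (a : B) (v : KN Y N) :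
    KNmap H.u H.φ ((TMod.gt Y T).toTMod.act m a v) =
      (TMod.gt Y' T').toTMod.act m (H.f a) (KNmap H.u H.φ v) := by
  rw [gt_act, gt_act, KNmap_apply, KNmap_apply]
  exact Prod.ext (H.hφ m a v.1) (Prod.ext (H.t1 m a v.2.1) (H.t2 m a v.2.2))

/-- The map of complexes. -/
def cmap : CC κ Y T →ₗ[ℂ] CC κ' Y' T' :=
  Ind.lift (BMod.comap (Ind.mod κ' (TMod.gt Y' T').toTMod) H.f H.hκ)
    (Ind.incl κ' (TMod.gt Y' T').toTMod ∘ₗ KNmap H.u H.φ) (by
      intro m a v
      rw [LinearMap.comp_apply, LinearMap.comp_apply, H.kn]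
      exact Ind.J_incl m (H.f a) _)

theorem cmap_incl (v : KN Y N) : H.cmap (Ind.incl κ _ v) = Ind.incl κ' _ (KNmap H.u H.φ v) :=
  Ind.lift_incl _ v

theorem cmap_J (m : ℤ) (a : B) (x : CC κ Y T) :
    H.cmap ((cmod κ Y T).J m a x) = (cmod κ' Y' T').J m (H.f a) (H.cmap x) :=
  Ind.lift_J _ m a x

theorem cmap_psi (m : ℤ) (y : Y) (x : CC κ Y T) :
    H.cmap ((cmod κ Y T).ψ m y x) = (cmod κ' Y' T').ψ m (H.u y) (H.cmap x) := by
  let W : Submodule ℂ (CC κ Y T) :=
    { carrier := {x | ∀ (m : ℤ) (y : Y),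
        H.cmap ((cmod κ Y T).ψ m y x) = (cmod κ' Y' T').ψ m (H.u y) (H.cmap x)}
      add_mem' := by
        intro x x' hx hx' m y
        rw [map_add, map_add, map_add, map_add, hx, hx']
      zero_mem' := by
        intro m y
        simp
      smul_mem' := by
        intro c x hx m y
        rw [map_smul, map_smul, map_smul, map_smul, hx] }
  have hW : x ∈ W := by
    refine Ind.induction_sub W ?_ ?_ x
    · intro v m y
      by_cases hm : m < 0
      · obtain ⟨k, rfl⟩ : ∃ k : ℕ, m = -(k : ℤ) - 1 := ⟨(-m - 1).toNat, by omega⟩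
        have e : (cmod κ Y T).ψ (-(k : ℤ) - 1) y (Ind.incl κ _ v) =
            Ind.incl κ _ (ghOm Y (Finsupp.single k y) v) :=
          Ind.psi_incl_neg κ (TMod.gt Y T) k y v
        have e' : (cmod κ' Y' T').ψ (-(k : ℤ) - 1) (H.u y)
            (Ind.incl κ' _ (KNmap H.u H.φ v)) =
            Ind.incl κ' _ (ghOm Y' (Finsupp.single k (H.u y)) (KNmap H.u H.φ v)) :=
          Ind.psi_incl_neg κ' (TMod.gt Y' T') k (H.u y) _
        rw [e, cmap_incl, cmap_incl, e']
        congr 1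
        rw [ghOm_apply, ghOm_apply, KNmap_apply, KNmap_apply]
        refine Prod.ext (map_zero _) (Prod.ext ?_ ?_)
        · show TensorProduct.map (Gm H.u) H.φ (Finsupp.single k y ⊗ₜ v.1) = _
          rw [TensorProduct.map_tmul, Gm_single]
        · show TensorProduct.map (Gm H.u) (TensorProduct.map (Gm H.u) H.φ)
            (Finsupp.single k y ⊗ₜ v.2.1 -
              TensorProduct.leftComm ℂ (Gh Y) (Gh Y) N (Finsupp.single k y ⊗ₜ v.2.1)) = _
          rw [map_sub]
          congr 1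
          · rw [TensorProduct.map_tmul, Gm_single]
          · show _ = TensorProduct.leftComm ℂ (Gh Y') (Gh Y') N'
              (Finsupp.single k (H.u y) ⊗ₜ TensorProduct.map (Gm H.u) H.φ v.2.1)
            induction v.2.1 using TensorProduct.induction_on with
            | zero => simp
            | add a b ha hb =>
              simp only [TensorProduct.tmul_add, map_add]
              rw [ha, hb]
            | tmul g n =>
              rw [TensorProduct.leftComm_tmul, TensorProduct.map_tmul, TensorProduct.map_tmul,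
                TensorProduct.map_tmul, TensorProduct.leftComm_tmul, Gm_single]
      · have e : (cmod κ Y T).ψ m y (Ind.incl κ _ v) = 0 :=
          Ind.psi_incl_nonneg κ (TMod.gt Y T) m (by omega) y v
        have e' : (cmod κ' Y' T').ψ m (H.u y) (Ind.incl κ' _ (KNmap H.u H.φ v)) = 0 :=
          Ind.psi_incl_nonneg κ' (TMod.gt Y' T') m (by omega) (H.u y) _
        rw [e, cmap_incl, e', map_zero]
    · intro k a x hx m y
      have h1 := (cmod κ Y T).commψ k m a y x
      have h2 := (cmod κ' Y' T').commψ k m (H.f a) (H.u y) (H.cmap x)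
      have h3 : (cmod κ Y T).ψ m y ((cmod κ Y T).J k a x) =
          (cmod κ Y T).J k a ((cmod κ Y T).ψ m y x) - (cmod κ Y T).ψ (k + m) ⁅a, y⁆ x := by
        rw [← h1]; abel
      have h4 : (cmod κ' Y' T').ψ m (H.u y) ((cmod κ' Y' T').J k (H.f a) (H.cmap x)) =
          (cmod κ' Y' T').J k (H.f a) ((cmod κ' Y' T').ψ m (H.u y) (H.cmap x)) -
            (cmod κ' Y' T').ψ (k + m) ⁅H.f a, H.u y⁆ (H.cmap x) := by
        rw [← h2]; abel
      show H.cmap ((cmod κ Y T).ψ m y ((cmod κ Y T).J k a x)) =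
        (cmod κ' Y' T').ψ m (H.u y) (H.cmap ((cmod κ Y T).J k a x))
      rw [cmap_J, h4, h3, map_sub, cmap_J, hx, hx, H.hu]
  exact hW m y

end CHom

end chom

end

end WPE
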