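import Pool.Agent.WPE.LAD

/-! WPE: `b₋` as a Lie algebra, `n₋` as a Lie module over it, and the tensors of block LA as elements
of `b₋ ⊗ n₋`, `n₋ ⊗ n₋`. -/

open scoped TensorProduct

namespace WPE

noncomputable section

variable {g β η : Type} [LieRing g] [LieAlgebra ℂ g] [Fintype β] [DecidableEq β] [Fintype η]
  [DecidableEq η]

namespace LD

variable (L : LD g β η)

theorem lie_mem_span2 {A B : Set g} {U : Submodule ℂ g} (h : ∀ a ∈ A, ∀ b ∈ B, ⁅a, b⁆ ∈ U)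
    {x y : g} (hx : x ∈ Submodule.span ℂ A) (hy : y ∈ Submodule.span ℂ B) : ⁅x, y⁆ ∈ U := by
  induction hx using Submodule.span_induction with
  | mem a ha =>
    induction hy using Submodule.span_induction with
    | mem b hb => exact h a ha b hb
    | zero => rw [lie_zero]; exact zero_mem _
    | add y z _ _ hy hz => rw [lie_add]; exact add_mem hy hz
    | smul c y _ hy => rw [lie_smul]; exact Submodule.smul_mem _ _ hy
  | zero => rw [zero_lie]; exact zero_mem _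
  | add y z _ _ hy hz => rw [add_lie]; exact add_mem hy hz
  | smul c y _ hy => rw [smul_lie]; exact Submodule.smul_mem _ _ hy

theorem f_mem_nm (b : β) : L.f b ∈ L.nm := Submodule.subset_span ⟨b, rfl⟩

theorem h_mem_hs (i : η) : L.h i ∈ L.hs := Submodule.subset_span ⟨i, rfl⟩

theorem nm_le_bm : L.nm ≤ L.bm := le_sup_right

theorem hs_le_bm : L.hs ≤ L.bm := le_sup_left

theorem mem_nm_iff (x : g) :
    x ∈ L.nm ↔ (∀ c, L.form x (L.f c) = 0) ∧ ∀ i, L.form x (L.h' i) = 0 := by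
  constructor
  · intro hx
    constructor
    · intro c
      induction hx using Submodule.span_induction with
      | mem y hy => obtain ⟨b, rfl⟩ := hy; exact L.ff b c
      | zero => rw [map_zero, LinearMap.zero_apply]
      | add y z _ _ hy hz => rw [map_add, LinearMap.add_apply, hy, hz, add_zero]
      | smul a y _ hy => rw [map_smul, LinearMap.smul_apply, hy, smul_zero]
    · intro i
      have key : ∀ z ∈ L.hs, L.form x z = 0 := by
        intro z hz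
        induction hz using Submodule.span_induction with
        | mem y hy =>
          obtain ⟨j, rfl⟩ := hy
          induction hx using Submodule.span_induction with
          | mem y hy => obtain ⟨b, rfl⟩ := hy; exact L.fh b j
          | zero => rw [map_zero, LinearMap.zero_apply]
          | add y z _ _ hy hz => rw [map_add, LinearMap.add_apply, hy, hz, add_zero]
          | smul a y _ hy => rw [map_smul, LinearMap.smul_apply, hy, smul_zero]
        | zero => rw [map_zero]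
        | add y z _ _ hy hz => rw [map_add, hy, hz, add_zero]
        | smul a y _ hy => rw [map_smul, hy, smul_zero]
      exact key _ (L.h'_mem i)
  · rintro ⟨h1, h2⟩
    rw [L.decomp x]
    simp only [h1, h2, zero_smul, Finset.sum_const_zero, zero_add]
    exact Submodule.sum_mem _ fun b _ => Submodule.smul_mem _ _ (L.f_mem_nm b)

theorem mem_bm_iff (x : g) : x ∈ L.bm ↔ ∀ c, L.form x (L.f c) = 0 := by
  constructor
  · intro hx c
    obtain ⟨y, hy, z, hz, rfl⟩ := Submodule.mem_sup.1 hx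
    clear hx
    rw [map_add, LinearMap.add_apply, ((L.mem_nm_iff z).1 hz).1 c, add_zero]
    induction hy using Submodule.span_induction with
    | mem y hy => obtain ⟨i, rfl⟩ := hy; rw [L.symm]; exact L.fh c i
    | zero => rw [map_zero, LinearMap.zero_apply]
    | add y z _ _ hy hz => rw [map_add, LinearMap.add_apply, hy, hz, add_zero]
    | smul a y _ hy => rw [map_smul, LinearMap.smul_apply, hy, smul_zero]
  · intro h1
    rw [L.decomp x]
    simp only [h1, zero_smul, Finset.sum_const_zero, zero_add]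
    exact add_mem (Submodule.sum_mem _ fun b _ => Submodule.smul_mem _ _
      (L.hs_le_bm (L.h_mem_hs b)))
      (Submodule.sum_mem _ fun b _ => Submodule.smul_mem _ _ (L.nm_le_bm (L.f_mem_nm b)))

theorem rho_hs (x : g) (hx : x ∈ L.hs) : ⁅L.rho, x⁆ = 0 := by
  have key : ∀ r ∈ L.hs, ∀ i, ⁅r, L.h i⁆ = 0 := by
    intro r hr i
    induction hr using Submodule.span_induction with
    | mem y hy => obtain ⟨j, rfl⟩ := hy; exact L.comm_h j i
    | zero => rw [zero_lie]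
    | add y z _ _ hy hz => rw [add_lie, hy, hz, add_zero]
    | smul a y _ hy => rw [smul_lie, hy, smul_zero]
  induction hx using Submodule.span_induction with
  | mem y hy => obtain ⟨j, rfl⟩ := hy; exact key _ L.rho_mem j
  | zero => rw [lie_zero]
  | add y z _ _ hy hz => rw [lie_add, hy, hz, add_zero]
  | smul a y _ hy => rw [lie_smul, hy, smul_zero]

/-- Homogeneous elements of different degrees are orthogonal. -/
theorem form_eq_zero_of (x y : g) (c d : ℂ) (hx : ⁅L.rho, x⁆ = c • x) (hy : ⁅L.rho, y⁆ = d • y)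
    (hcd : c + d ≠ 0) : L.form x y = 0 := by
  have h1 : L.form ⁅L.rho, x⁆ y + L.form x ⁅L.rho, y⁆ = 0 := by
    rw [L.symm x, L.inv L.rho y x, L.symm L.rho]
    have h2 : L.form ⁅L.rho, x⁆ y = L.form L.rho ⁅x, y⁆ := L.inv _ _ _
    rw [h2, L.symm ⁅y, x⁆, ← lie_skew x y, map_neg]
    ring
  rw [hx, hy, map_smul, map_smul, LinearMap.smul_apply, smul_eq_mul, smul_eq_mul, ← add_mul] at h1
  exact (mul_eq_zero.1 h1).resolve_left hcd

theorem rho_lie (x y : g) (c d : ℂ) (hx : ⁅L.rho, x⁆ = c • x) (hy : ⁅L.rho, y⁆ = d • y) :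
    ⁅L.rho, ⁅x, y⁆⁆ = (c + d) • ⁅x, y⁆ := by
  rw [leibniz_lie, hx, hy, smul_lie, lie_smul, add_smul]

theorem h_f_mem (i : η) (b : β) : ⁅L.h i, L.f b⁆ ∈ L.nm := by
  have h0 : ⁅L.rho, ⁅L.h i, L.f b⁆⁆ = (0 + (-(L.ht b : ℂ))) • ⁅L.h i, L.f b⁆ :=
    L.rho_lie _ _ _ _ (by rw [zero_smul]; exact L.rho_hs _ (L.h_mem_hs i)) (L.rho_f b)
  rw [L.mem_nm_iff]
  have hb : 1 ≤ L.ht b := L.ht_pos b
  constructor
  · intro c
    refine L.form_eq_zero_of _ _ _ _ h0 (L.rho_f c) ?_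
    intro h
    have : ((L.ht b + L.ht c : ℕ) : ℂ) = 0 := by push_cast; linear_combination -h
    rw [Nat.cast_eq_zero] at this
    omega
  · intro j
    refine L.form_eq_zero_of _ _ _ 0 h0 (by rw [zero_smul]; exact L.rho_hs _ (L.h'_mem j)) ?_
    intro h
    have : ((L.ht b : ℕ) : ℂ) = 0 := by linear_combination -h
    rw [Nat.cast_eq_zero] at this
    omega

theorem f_f_mem (a b : β) : ⁅L.f a, L.f b⁆ ∈ L.nm := by
  have h0 : ⁅L.rho, ⁅L.f a, L.f b⁆⁆ = (-(L.ht a : ℂ) + (-(L.ht b : ℂ))) • ⁅L.f a, L.f b⁆ :=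
    L.rho_lie _ _ _ _ (L.rho_f a) (L.rho_f b)
  rw [L.mem_nm_iff]
  have hb : 1 ≤ L.ht b := L.ht_pos b
  constructor
  · intro c
    refine L.form_eq_zero_of _ _ _ _ h0 (L.rho_f c) ?_
    intro h
    have : ((L.ht a + L.ht b + L.ht c : ℕ) : ℂ) = 0 := by push_cast; linear_combination -h
    rw [Nat.cast_eq_zero] at this
    omega
  · intro j
    refine L.form_eq_zero_of _ _ _ 0 h0 (by rw [zero_smul]; exact L.rho_hs _ (L.h'_mem j)) ?_
    intro h
    have : ((L.ht a + L.ht b : ℕ) : ℂ) = 0 := by push_cast; linear_combination -h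
    rw [Nat.cast_eq_zero] at this
    omega

theorem bm_nm (x : g) (hx : x ∈ L.bm) (y : g) (hy : y ∈ L.nm) : ⁅x, y⁆ ∈ L.nm := by
  obtain ⟨u, hu, v, hv, rfl⟩ := Submodule.mem_sup.1 hx
  rw [add_lie]
  refine add_mem (lie_mem_span2 ?_ hu hy) (lie_mem_span2 ?_ hv hy)
  · rintro _ ⟨i, rfl⟩ _ ⟨b, rfl⟩
    exact L.h_f_mem i b
  · rintro _ ⟨i, rfl⟩ _ ⟨b, rfl⟩
    exact L.f_f_mem i b

theorem bm_bm (x : g) (hx : x ∈ L.bm) (y : g) (hy : y ∈ L.bm) : ⁅x, y⁆ ∈ L.bm := by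
  obtain ⟨u, hu, v, hv, rfl⟩ := Submodule.mem_sup.1 hy
  rw [lie_add]
  refine add_mem ?_ (L.nm_le_bm (L.bm_nm x hx v hv))
  obtain ⟨w, hw, z, hz, rfl⟩ := Submodule.mem_sup.1 hx
  rw [add_lie]
  refine add_mem (lie_mem_span2 ?_ hw hu) ?_
  · rintro _ ⟨i, rfl⟩ _ ⟨j, rfl⟩
    rw [L.comm_h]
    exact zero_mem _
  · rw [← lie_skew]
    exact neg_mem (L.nm_le_bm (L.bm_nm u (L.hs_le_bm hu) z hz))

/-- The Lie algebra `b₋`. -/
def bL : LieSubalgebra ℂ g where
  toSubmodule := L.bm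
  lie_mem' := fun {x y} hx hy => L.bm_bm x hx y hy

theorem mem_bL (x : g) : x ∈ L.bL ↔ x ∈ L.bm := Iff.rfl

/-- `n₋`, an ideal of `b₋`. -/
def nL : LieIdeal ℂ L.bL where
  toSubmodule := L.nm.comap L.bL.toSubmodule.subtype
  lie_mem := by
    intro x y hy
    exact L.bm_nm x.1 x.2 _ hy

theorem mem_nL (x : L.bL) : x ∈ L.nL ↔ (x : g) ∈ L.nm := Iff.rfl

/-- `κ ( , )` on `b₋`. -/
def kb (κ : ℂ) : L.bL →ₗ[ℂ] L.bL →ₗ[ℂ] ℂ :=
  κ • (L.form.compl₁₂ L.bL.toSubmodule.subtype L.bL.toSubmodule.subtype)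

theorem kb_apply (κ : ℂ) (x y : L.bL) : L.kb κ x y = κ * L.form (x : g) (y : g) := rfl

theorem kb_symm (κ : ℂ) (x y : L.bL) : L.kb κ x y = L.kb κ y x := by
  rw [kb_apply, kb_apply, L.symm]

theorem kb_inv (κ : ℂ) (x y z : L.bL) : L.kb κ ⁅x, y⁆ z = L.kb κ x ⁅y, z⁆ := by
  rw [kb_apply, kb_apply, LieSubalgebra.coe_bracket, LieSubalgebra.coe_bracket, L.inv]

theorem Pb_mem' (x : g) : L.Pb x ∈ L.bm := by
  unfold Pb Ph Pn
  rw [LinearMap.add_apply, LinearMap.sum_apply, LinearMap.sum_apply]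
  refine add_mem (Submodule.sum_mem _ fun i _ => ?_) (Submodule.sum_mem _ fun i _ => ?_)
  · exact Submodule.smul_mem _ _ (L.hs_le_bm (L.h_mem_hs i))
  · exact Submodule.smul_mem _ _ (L.nm_le_bm (L.f_mem_nm i))

theorem Pn_mem' (x : g) : L.Pn x ∈ L.nm := by
  unfold Pn
  rw [LinearMap.sum_apply]
  exact Submodule.sum_mem _ fun i _ => Submodule.smul_mem _ _ (L.f_mem_nm i)

/-- `π : g → b₋` -/
def pib : g →ₗ[ℂ] L.bL := LinearMap.codRestrict L.bL.toSubmodule L.Pb L.Pb_mem'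

theorem coe_pib (x : g) : (L.pib x : g) = L.Pb x := rfl

/-- `f b ∈ b₋` -/
def fB (b : β) : L.bL := ⟨L.f b, L.nm_le_bm (L.f_mem_nm b)⟩

/-- `h i ∈ b₋` -/
def hB (i : η) : L.bL := ⟨L.h i, L.hs_le_bm (L.h_mem_hs i)⟩

/-- `f b ∈ n₋` -/
def fN (b : β) : L.nL := ⟨L.fB b, L.f_mem_nm b⟩

/-- `π_n : g → n₋` -/
def pin : g →ₗ[ℂ] L.nL where
  toFun x := ⟨⟨L.Pn x, L.nm_le_bm (L.Pn_mem' x)⟩, L.Pn_mem' x⟩
  map_add' x y := by
    apply Subtype.ext; apply Subtype.ext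
    exact map_add L.Pn x y
  map_smul' c x := by
    apply Subtype.ext; apply Subtype.ext
    exact map_smul L.Pn c x

/-- The inclusion `b₋ → g`. -/
def jb : L.bL →ₗ[ℂ] g := L.bL.toSubmodule.subtype

/-- The inclusion `n₋ → b₋`. -/
def jn : L.nL →ₗ[ℂ] L.bL := L.nL.toSubmodule.subtype

/-- The inclusion `n₋ → g`. -/
def jng : L.nL →ₗ[ℂ] g := L.jb ∘ₗ L.jn

theorem jb_apply (x : L.bL) : L.jb x = (x : g) := rfl

theorem jn_apply (x : L.nL) : L.jn x = (x : L.bL) := rfl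

theorem jng_apply (x : L.nL) : L.jng x = ((x : L.bL) : g) := rfl

theorem jng_pin (x : g) : L.jng (L.pin x) = L.Pn x := rfl

theorem jb_pib (x : g) : L.jb (L.pib x) = L.Pb x := rfl

theorem jng_fN (b : β) : L.jng (L.fN b) = L.f b := rfl

/-- `Ω(a) = ∑_b π[e_b, a] ⊗ e^b ∈ b₋ ⊗ n₋` -/
def OmB : L.bL →ₗ[ℂ] L.bL ⊗[ℂ] L.nL :=
  ∑ b, (TensorProduct.mk ℂ L.bL L.nL).flip (L.fN b) ∘ₗ L.pib ∘ₗ adl (L.e b) ∘ₗ L.jb

/-- `Z(y) = ∑_b π_n[e_b, y] ⊗ e^b ∈ n₋ ⊗ n₋` -/
def ZtN : L.nL →ₗ[ℂ] L.nL ⊗[ℂ] L.nL :=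
  ∑ b, (TensorProduct.mk ℂ L.nL L.nL).flip (L.fN b) ∘ₗ L.pin ∘ₗ adl (L.e b) ∘ₗ L.jng

/-- `L(a) = κ y + R(y)`, `y = π_n a`, as element of `n₋`. -/
def LkN (κ : ℂ) : L.bL →ₗ[ℂ] L.nL := L.pin ∘ₗ L.Lk κ ∘ₗ L.jb

/-- `Y(a, y) = ∑_b [π[e_b, a], y] ⊗ e^b ∈ n₋ ⊗ n₋` -/
def YtN (a : L.bL) (y : L.nL) : L.nL ⊗[ℂ] L.nL :=
  ∑ b, ⁅L.pib ⁅L.e b, (a : g)⁆, y⁆ ⊗ₜ[ℂ] L.fN b

theorem OmB_apply (a : L.bL) : L.OmB a = ∑ b, L.pib ⁅L.e b, (a : g)⁆ ⊗ₜ[ℂ] L.fN b := by
  unfold OmB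
  rw [LinearMap.sum_apply]
  rfl

theorem ZtN_apply (y : L.nL) :
    L.ZtN y = ∑ b, L.pin ⁅L.e b, ((y : L.bL) : g)⁆ ⊗ₜ[ℂ] L.fN b := by
  unfold ZtN
  rw [LinearMap.sum_apply]
  rfl

theorem Om_apply' (a : g) : L.Om a = ∑ b, L.Pb ⁅L.e b, a⁆ ⊗ₜ[ℂ] L.f b := by
  unfold Om
  rw [LinearMap.sum_apply]
  rfl

theorem Zt_apply' (a : g) : L.Zt a = ∑ b, L.Pn ⁅L.e b, a⁆ ⊗ₜ[ℂ] L.f b := by
  unfold Zt
  rw [LinearMap.sum_apply]
  rfl

/-- The coercions. -/
theorem coe_OmB (a : L.bL) :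
    TensorProduct.map L.jb L.jng (L.OmB a) = L.Om (a : g) := by
  rw [OmB_apply, Om_apply', map_sum]
  exact Finset.sum_congr rfl fun b _ => TensorProduct.map_tmul _ _ _ _

theorem coe_ZtN (y : L.nL) :
    TensorProduct.map L.jng L.jng (L.ZtN y) = L.Zt ((y : L.bL) : g) := by
  rw [ZtN_apply, Zt_apply', map_sum]
  exact Finset.sum_congr rfl fun b _ => TensorProduct.map_tmul _ _ _ _

theorem coe_YtN (a : L.bL) (y : L.nL) :
    TensorProduct.map L.jng L.jng (L.YtN a y) = L.Yt (a : g) ((y : L.bL) : g) := by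
  unfold YtN Yt
  rw [map_sum]
  exact Finset.sum_congr rfl fun b _ => TensorProduct.map_tmul _ _ _ _

theorem jb_inj : Function.Injective L.jb := Subtype.val_injective

theorem jng_inj : Function.Injective L.jng :=
  fun _ _ h => Subtype.ext (Subtype.ext h)

/-- Identities in `g ⊗ g` give identities in `b₋ ⊗ n₋`. -/
theorem map_bn_inj : Function.Injective (TensorProduct.map L.jb L.jng) := by
  obtain ⟨u, hu⟩ := LinearMap.exists_leftInverse_of_injective L.jb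
    (LinearMap.ker_eq_bot.2 L.jb_inj)
  obtain ⟨v, hv⟩ := LinearMap.exists_leftInverse_of_injective L.jng
    (LinearMap.ker_eq_bot.2 L.jng_inj)
  refine Function.LeftInverse.injective (g := TensorProduct.map u v) fun x => ?_
  have : (TensorProduct.map u v ∘ₗ TensorProduct.map L.jb L.jng) x = x := by
    rw [← TensorProduct.map_comp, hu, hv, TensorProduct.map_id]
    rfl
  exact this

/-- Identities in `g ⊗ g` give identities in `n₋ ⊗ n₋`. -/
theorem map_nn_inj : Function.Injective (TensorProduct.map L.jng L.jng) := by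
  obtain ⟨v, hv⟩ := LinearMap.exists_leftInverse_of_injective L.jng
    (LinearMap.ker_eq_bot.2 L.jng_inj)
  refine Function.LeftInverse.injective (g := TensorProduct.map v v) fun x => ?_
  have : (TensorProduct.map v v ∘ₗ TensorProduct.map L.jng L.jng) x = x := by
    rw [← TensorProduct.map_comp, hv, TensorProduct.map_id]
    rfl
  exact this

end LD

end

end WPE
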