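import Pool.Agent.WPE.IND
import Pool.Agent.WPE.LDB
import Pool.Agent.WPQ.FW11
import Pool.Agent.WPQ.FW5

/-! WPE, block MI, part A: the Fock spaces as modules over the affinization of `b₋`.

`J_h(m)` acts on `M(1) ⊗ e^s` as `-(1/√p) h(m)`, that is `heis A p (-(1/p) c) m s` if
`h = ∑ c_i h_i` (the charges of block WPQ are written in the basis `b_i = √p α_i`); `n₋` acts by `0`. -/

namespace WPE

open MvPolynomial WPQ

noncomputable section

section heis

variable {ι : Type} [Fintype ι] [DecidableEq ι]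

theorem mi_osc_add (h h' : ι → ℂ) (k : ℕ) : osc (h + h') k = osc h k + osc h' k := fw1_osc_add h h' k

theorem mi_osc_smul (c : ℂ) (h : ι → ℂ) (k : ℕ) : osc (c • h) k = c • osc h k := by
  rw [fw5_osc_smul, smul_eq_C_mul]

theorem mi_form_add_left (A : Matrix ι ι ℤ) (p : ℕ) (h h' s : ι → ℂ) :
    form A p (h + h') s = form A p h s + form A p h' s := by
  simp only [form, Pi.add_apply, add_mul, Finset.sum_add_distrib, mul_add]

theorem mi_form_smul_left (A : Matrix ι ι ℤ) (p : ℕ) (c : ℂ) (h s : ι → ℂ) :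
    form A p (c • h) s = c * form A p h s := by
  simp only [form, Pi.smul_apply, smul_eq_mul]
  simp only [mul_assoc, ← Finset.mul_sum]
  ring

theorem mi_form_add_right (A : Matrix ι ι ℤ) (p : ℕ) (h s s' : ι → ℂ) :
    form A p h (s + s') = form A p h s + form A p h s' := by
  simp only [form, Pi.add_apply, Finset.sum_add_distrib, mul_add]

theorem mi_form_smul_right (A : Matrix ι ι ℤ) (p : ℕ) (c : ℂ) (h s : ι → ℂ) :
    form A p h (c • s) = c * form A p h s := by
  simp only [form, Pi.smul_apply, smul_eq_mul]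
  rw [Finset.mul_sum, Finset.mul_sum, Finset.mul_sum]
  refine Finset.sum_congr rfl fun i _ => ?_
  rw [Finset.mul_sum, Finset.mul_sum, Finset.mul_sum]
  refine Finset.sum_congr rfl fun j _ => ?_
  ring

theorem mi_heis_add (A : Matrix ι ι ℤ) (p : ℕ) (h h' : ι → ℂ) (n : ℤ) (s : ι → ℂ) :
    heis A p (h + h') n s = heis A p h n s + heis A p h' n s := by
  unfold heis
  split_ifs
  · rw [mi_osc_add]
    refine LinearMap.ext fun f => ?_
    simp only [LinearMap.smul_apply, LinearMap.add_apply, LinearMap.mulLeft_apply, add_mul,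
      smul_add]
  · rw [mi_form_add_left, add_smul]
  · rw [← Finset.sum_add_distrib]
    refine Finset.sum_congr rfl fun i _ => ?_
    rw [mi_form_add_right, add_smul]

theorem mi_heis_smul (A : Matrix ι ι ℤ) (p : ℕ) (c : ℂ) (h : ι → ℂ) (n : ℤ) (s : ι → ℂ) :
    heis A p (c • h) n s = c • heis A p h n s := by
  unfold heis
  split_ifs
  · rw [mi_osc_smul]
    refine LinearMap.ext fun f => ?_
    simp only [LinearMap.smul_apply, LinearMap.mulLeft_apply, smul_mul_assoc]
    rw [smul_comm]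
  · rw [mi_form_smul_left, mul_smul]
  · rw [Finset.smul_sum]
    refine Finset.sum_congr rfl fun i _ => ?_
    rw [mi_form_smul_right, mul_smul]

/-- `h ↦ h(n)` as a linear map. -/
def heisL (A : Matrix ι ι ℤ) (p : ℕ) (n : ℤ) (s : ι → ℂ) :
    (ι → ℂ) →ₗ[ℂ] Fock ι →ₗ[ℂ] Fock ι where
  toFun h := heis A p h n s
  map_add' h h' := mi_heis_add A p h h' n s
  map_smul' c h := mi_heis_smul A p c h n s

end heis

variable {g β ι : Type} [LieRing g] [LieAlgebra ℂ g] [Fintype β] [DecidableEq β] [Fintype ι]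
  [DecidableEq ι]

namespace LD

variable (L : LD g β ι)

/-- The coordinates of `-(1/√p) h` in the basis `b_i`, `h = π_h a`. -/
def cf (p : ℕ) : L.bL →ₗ[ℂ] ι → ℂ :=
  LinearMap.pi fun i => (-(p : ℂ)⁻¹) • ((L.form.flip (L.h' i)) ∘ₗ L.jb)

theorem cf_apply (p : ℕ) (a : L.bL) (i : ι) :
    L.cf p a i = -(p : ℂ)⁻¹ * L.form (a : g) (L.h' i) := rfl

/-- `[b₋, b₋] ⊆ n₋` -/
theorem lie_bL_mem (a b : L.bL) : ((⁅a, b⁆ : L.bL) : g) ∈ L.nm := by
  rw [LieSubalgebra.coe_bracket]
  obtain ⟨u, hu, v, hv, huv⟩ := Submodule.mem_sup.1 b.2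
  rw [← huv, lie_add]
  refine add_mem ?_ (L.bm_nm _ a.2 v hv)
  obtain ⟨w, hw, z, hz, hwz⟩ := Submodule.mem_sup.1 a.2
  rw [← hwz, add_lie]
  refine add_mem ?_ ?_
  · have : ⁅w, u⁆ ∈ (⊥ : Submodule ℂ g) := by
      refine lie_mem_span2 ?_ hw hu
      rintro _ ⟨i, rfl⟩ _ ⟨j, rfl⟩
      rw [L.comm_h]
      exact zero_mem _
    rw [(Submodule.mem_bot ℂ).1 this]
    exact zero_mem _
  · rw [← lie_skew]
    exact neg_mem (L.bm_nm u (L.hs_le_bm hu) z hz)

theorem cf_nm (p : ℕ) (a : L.bL) (ha : (a : g) ∈ L.nm) : L.cf p a = 0 := by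
  funext i
  rw [cf_apply, ((L.mem_nm_iff _).1 ha).2 i, mul_zero]
  rfl

theorem cf_lie (p : ℕ) (a b : L.bL) : L.cf p ⁅a, b⁆ = 0 := L.cf_nm p _ (L.lie_bL_mem a b)

/-- The form on `b₋` in coordinates. -/
theorem form_bL (A : Matrix ι ι ℤ) (hh : ∀ i j, L.form (L.h i) (L.h j) = (A i j : ℂ))
    (a b : L.bL) : L.form (a : g) (b : g) =
      ∑ i, ∑ j, L.form (a : g) (L.h' i) * (A i j : ℂ) * L.form (b : g) (L.h' j) := by
  have key : ∀ a : L.bL, ∃ u ∈ L.nm, (a : g) = ∑ i, L.form (a : g) (L.h' i) • L.h i + u := by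
    intro a
    refine ⟨∑ c, L.form (a : g) (L.e c) • L.f c, Submodule.sum_mem _ fun c _ =>
      Submodule.smul_mem _ _ (L.f_mem_nm c), ?_⟩
    have h1 := L.decomp (a : g)
    simp only [(L.mem_bm_iff _).1 a.2, zero_smul, Finset.sum_const_zero, zero_add] at h1
    exact h1
  have hn : ∀ u ∈ L.nm, ∀ b : L.bL, L.form u (b : g) = 0 := by
    intro u hu b
    obtain ⟨v, hv, hb⟩ := key b
    rw [hb, map_add, map_sum]
    have h2 : L.form u v = 0 := by
      rw [L.symm]
      clear hb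
      induction hv using Submodule.span_induction with
      | mem y hy => obtain ⟨c, rfl⟩ := hy; rw [L.symm]; exact ((L.mem_nm_iff u).1 hu).1 c
      | zero => rw [map_zero, LinearMap.zero_apply]
      | add y z _ _ hy hz => rw [map_add, LinearMap.add_apply, hy, hz, add_zero]
      | smul a y _ hy => rw [map_smul, LinearMap.smul_apply, hy, smul_zero]
    rw [h2, add_zero]
    refine Finset.sum_eq_zero fun i _ => ?_
    rw [map_smul]
    have h3 : L.form u (L.h i) = 0 := by
      clear hb h2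
      induction hu using Submodule.span_induction with
      | mem y hy => obtain ⟨c, rfl⟩ := hy; exact L.fh c i
      | zero => rw [map_zero, LinearMap.zero_apply]
      | add y z _ _ hy hz => rw [map_add, LinearMap.add_apply, hy, hz, add_zero]
      | smul a y _ hy => rw [map_smul, LinearMap.smul_apply, hy, smul_zero]
    rw [h3, smul_zero]
  obtain ⟨u, hu, ha⟩ := key a
  obtain ⟨v, hv, hb⟩ := key b
  have h1 : L.form (a : g) (b : g) =
      L.form (∑ i, L.form (a : g) (L.h' i) • L.h i) (b : g) := by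
    conv_lhs => rw [ha]
    rw [map_add, LinearMap.add_apply, hn u hu b, add_zero]
  have h2 : ∀ i, L.form (L.h i) (b : g) =
      ∑ j, (A i j : ℂ) * L.form (b : g) (L.h' j) := by
    intro i
    conv_lhs => rw [hb]
    have h4 : L.form (L.h i) v = 0 := by
      rw [L.symm]
      exact hn v hv (L.hB i)
    rw [map_add, h4, add_zero, map_sum]
    refine Finset.sum_congr rfl fun j _ => ?_
    rw [map_smul, hh, smul_eq_mul, mul_comm]
  rw [h1, map_sum, LinearMap.sum_apply]
  refine Finset.sum_congr rfl fun i _ => ?_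
  rw [map_smul, LinearMap.smul_apply, h2, smul_eq_mul, Finset.mul_sum]
  refine Finset.sum_congr rfl fun j _ => ?_
  ring

theorem form_cf (A : Matrix ι ι ℤ) (p : ℕ) (hp : 1 ≤ p)
    (hh : ∀ i j, L.form (L.h i) (L.h j) = (A i j : ℂ)) (a b : L.bL) :
    WPQ.form A p (L.cf p a) (L.cf p b) = (p : ℂ)⁻¹ * L.form (a : g) (b : g) := by
  have hp0 : (p : ℂ) ≠ 0 := by
    have : p ≠ 0 := by omega
    exact_mod_cast this
  rw [L.form_bL A hh a b]
  unfold WPQ.form
  rw [Finset.mul_sum, Finset.mul_sum]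
  refine Finset.sum_congr rfl fun i _ => ?_
  rw [Finset.mul_sum, Finset.mul_sum]
  refine Finset.sum_congr rfl fun j _ => ?_
  rw [cf_apply, cf_apply]
  field_simp

/-- The Fock space of charge `s` as a module over the affinization of `b₋` (level `1/p`). -/
def fockB (A : Matrix ι ι ℤ) (hA : ∀ i j, A i j = A j i) (p : ℕ) (hp : 1 ≤ p)
    (hh : ∀ i j, L.form (L.h i) (L.h j) = (A i j : ℂ)) (s : ι → ℂ) :
    BMod (L.kb (p : ℂ)⁻¹) (Fock ι) where
  J m := heisL A p m s ∘ₗ L.cf p
  comm := by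
    intro m n a b x
    show heis A p (L.cf p a) m s (heis A p (L.cf p b) n s x) -
      heis A p (L.cf p b) n s (heis A p (L.cf p a) m s x) =
      heis A p (L.cf p ⁅a, b⁆) (m + n) s x + coc (L.kb (p : ℂ)⁻¹) m n a b • x
    have h1 := LinearMap.congr_fun (heis_heis A hA p (L.cf p a) (L.cf p b) s m n) x
    rw [LinearMap.sub_apply, LinearMap.comp_apply, LinearMap.comp_apply] at h1
    have h2 : heis A p (0 : ι → ℂ) (m + n) s = 0 := by
      have := mi_heis_smul A p 0 (0 : ι → ℂ) (m + n) s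
      rwa [zero_smul, zero_smul] at this
    rw [h1, cf_lie, h2, LinearMap.zero_apply, zero_add, coc, L.form_cf A p hp hh, kb_apply]
    split_ifs
    · rw [LinearMap.smul_apply, LinearMap.id_apply]
    · rw [LinearMap.zero_apply, zero_smul]

theorem fockB_J (A : Matrix ι ι ℤ) (hA : ∀ i j, A i j = A j i) (p : ℕ) (hp : 1 ≤ p)
    (hh : ∀ i j, L.form (L.h i) (L.h j) = (A i j : ℂ)) (s : ι → ℂ) (m : ℤ) (a : L.bL) :
    (L.fockB A hA p hp hh s).J m a = heis A p (L.cf p a) m s := rfl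

theorem fockB_nm (A : Matrix ι ι ℤ) (hA : ∀ i j, A i j = A j i) (p : ℕ) (hp : 1 ≤ p)
    (hh : ∀ i j, L.form (L.h i) (L.h j) = (A i j : ℂ)) (s : ι → ℂ) (m : ℤ) (a : L.bL)
    (ha : (a : g) ∈ L.nm) : (L.fockB A hA p hp hh s).J m a = 0 := by
  have h2 : heis A p (0 : ι → ℂ) m s = 0 := by
    have := mi_heis_smul A p 0 (0 : ι → ℂ) m s
    rwa [zero_smul, zero_smul] at this
  rw [fockB_J, L.cf_nm p a ha, h2]

end LD

end

end WPE
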