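import Pool.Agent.WPE.IND4
import Pool.Agent.WPE.MIA

/-! WPE, block MI, part C: the Miura map `Υ : C(N) → M(1) ⊗ e^s`. -/

namespace WPE

open scoped TensorProduct
open MvPolynomial WPQ

noncomputable section

variable {g β ι : Type} [LieRing g] [LieAlgebra ℂ g] [Fintype β] [DecidableEq β] [Fintype ι]
  [DecidableEq ι]

theorem mi_heis_smooth (A : Matrix ι ι ℤ) (p : ℕ) (s : ι → ℂ) (f : Fock ι) :
    ∃ M : ℤ, ∀ m ≥ M, ∀ h : ι → ℂ, heis A p h m s f = 0 := by
  classical
  refine ⟨(f.vars.sup fun x => x.2 : ℕ) + 2, fun m hm h => ?_⟩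
  have h0 : ¬ m < 0 := by omega
  have h1 : ¬ m = 0 := by omega
  unfold heis
  rw [if_neg h0, if_neg h1, LinearMap.sum_apply]
  refine Finset.sum_eq_zero fun i _ => ?_
  rw [LinearMap.smul_apply]
  have h2 : pderiv (R := ℂ) (i, (m - 1).toNat) f = 0 := by
    refine pderiv_eq_zero_of_notMem_vars fun hc => ?_
    have h3 := Finset.le_sup (f := fun x : ι × ℕ => x.2) hc
    simp only at h3
    omega
  show _ • pderiv (R := ℂ) (i, (m - 1).toNat) f = 0
  rw [h2, smul_zero]

namespace LD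

variable (L : LD g β ι)

/-- The setting of block MI: `A` is an ADE matrix, `(h_i, h_j) = A_ij`. -/
structure Car (L : LD g β ι) (A : Matrix ι ι ℤ) (p : ℕ) : Prop where
  ade : IsADE A
  hp : 1 ≤ p
  hh : ∀ i j, L.form (L.h i) (L.h j) = (A i j : ℂ)

variable {L} {A : Matrix ι ι ℤ} {p : ℕ} (K : L.Car A p)

/-- The Fock space of charge `s` with the currents (`n₋` acts by zero) and zero ghosts. -/
def fockG (K : L.Car A p) (s : ι → ℂ) : GMod L.bL L.nL (L.kb (p : ℂ)⁻¹) (Fock ι) where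
  toBMod := L.fockB A K.ade.symm p K.hp K.hh s
  ψ := 0
  commψ := by
    intro m n a y x
    simp
  anti := by
    intro m n y z x
    simp
  smooth := by
    intro f
    obtain ⟨M, hM⟩ := mi_heis_smooth A p s f
    exact ⟨M, fun m hm a => hM m hm _⟩
  smoothψ := fun x => ⟨0, fun m _ y => rfl⟩

theorem fockG_J (s : ι → ℂ) (m : ℤ) (a : L.bL) (f : Fock ι) :
    (fockG K s).J m a f = heis A p (L.cf p a) m s f := rfl

theorem fockG_ψ (s : ι → ℂ) (m : ℤ) (y : L.nL) (f : Fock ι) : (fockG K s).ψ m y f = 0 := rfl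

/-- A character of the `b₋`-module `N`: `l(a v) = (a acting on e^s) l(v)`. -/
structure Chr (K : L.Car A p) (s : ι → ℂ) {N : Type} [AddCommGroup N] [Module ℂ N]
    (R : LRep L.bL N) where
  l : N →ₗ[ℂ] ℂ
  hl : ∀ (a : L.bL) (v : N), l (R.ρ a v) = WPQ.form A p (L.cf p a) s * l v

variable {K} {s : ι → ℂ} {N : Type} [AddCommGroup N] [Module ℂ N] {R : LRep L.bL N}

/-- The generating map `(v, w, t) ↦ l(v) 1`. -/
def Chr.gen (c : Chr K s R) : KN L.nL N →ₗ[ℂ] Fock ι :=
  (LinearMap.toSpanSingleton ℂ (Fock ι) 1) ∘ₗ c.l ∘ₗ LinearMap.fst ℂ _ _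

theorem Chr.gen_apply (c : Chr K s R) (v : KN L.nL N) : c.gen v = c.l v.1 • (1 : Fock ι) := rfl

theorem Chr.gen_equi (c : Chr K s R) (m : ℕ) (a : L.bL) (v : KN L.nL N) :
    (fockG K s).J m a (c.gen v) = c.gen ((TMod.gt L.nL (TMod.ofRep R)).toTMod.act m a v) := by
  rw [fockG_J, gt_act, c.gen_apply, c.gen_apply, map_smul]
  by_cases hm : m = 0
  · subst hm
    have h1 : heis A p (L.cf p a) ((0 : ℕ) : ℤ) s (1 : Fock ι) =
        WPQ.form A p (L.cf p a) s • (1 : Fock ι) := by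
      unfold heis
      rw [if_neg (by simp), if_pos (by simp), LinearMap.smul_apply, LinearMap.id_apply]
    rw [h1, smul_smul]
    show _ = c.l ((TMod.ofRep R).act 0 a v.1) • (1 : Fock ι)
    rw [TMod.ofRep_zero, c.hl, mul_comm]
  · have h1 : heis A p (L.cf p a) (m : ℤ) s (1 : Fock ι) = 0 := by
      unfold heis
      rw [if_neg (by omega), if_neg (by omega), LinearMap.sum_apply]
      refine Finset.sum_eq_zero fun i _ => ?_
      rw [LinearMap.smul_apply]
      show _ • pderiv (R := ℂ) _ (1 : Fock ι) = 0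
      rw [Derivation.map_one_eq_zero, smul_zero]
    rw [h1, smul_zero]
    show _ = c.l ((TMod.ofRep R).act m a v.1) • (1 : Fock ι)
    rw [TMod.ofRep_pos _ _ hm, map_zero, zero_smul]

/-- The Miura map `Υ`. -/
def Ups (c : Chr K s R) : CC (L.kb (p : ℂ)⁻¹) L.nL (TMod.ofRep R) →ₗ[ℂ] Fock ι :=
  Ind.lift (fockG K s).toBMod c.gen c.gen_equi

theorem Internal.Ups_incl (c : Chr K s R) (v : KN L.nL N) :
    Ups c (Ind.incl _ _ v) = c.l v.1 • (1 : Fock ι) := Ind.lift_incl _ v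

export Internal (Ups_incl)

theorem Internal.Ups_J (c : Chr K s R) (m : ℤ) (a : L.bL)
    (x : CC (L.kb (p : ℂ)⁻¹) L.nL (TMod.ofRep R)) :
    Ups c ((cmod (L.kb (p : ℂ)⁻¹) L.nL (TMod.ofRep R)).J m a x) =
      heis A p (L.cf p a) m s (Ups c x) := Ind.lift_J _ m a x

export Internal (Ups_J)

/-- The trivial character. -/
def chr0 (K : L.Car A p) : Chr K 0 (LRep.triv L.bL) where
  l := LinearMap.id
  hl := by
    intro a v
    have h : WPQ.form A p (L.cf p a) 0 = 0 := by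
      have := mi_form_smul_right A p 0 (L.cf p a) 0
      rwa [zero_smul, zero_mul] at this
    rw [h, zero_mul]
    rfl

end LD

end

end WPE
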