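import Pool.Agent.WPE.MIM

/-! WPE, block MI: the quotient `N^(j) = N / I_j N` as a module over the Levi subalgebra. -/

namespace WPE

open scoped TensorProduct

noncomputable section

variable {g β η : Type} [LieRing g] [LieAlgebra ℂ g] [Fintype β] [DecidableEq β] [Fintype η]
  [DecidableEq η]

namespace LD

variable {L : LD g β η} {j : β} {al : η → ℂ} (S : Simp L j al)
variable (N : Type) [AddCommGroup N] [Module ℂ N] [LieRingModule g N] [LieModule ℂ g N]

/-- The subspace `I_j N`. -/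
def IN (L : LD g β η) (j : β) (N : Type) [AddCommGroup N] [Module ℂ N] [LieRingModule g N] :
    Submodule ℂ N := Submodule.span ℂ {x | ∃ b, b ≠ j ∧ ∃ v : N, x = ⁅L.f b, v⁆}

variable {N}

theorem IN_f (L : LD g β η) (j : β) {b : β} (hb : b ≠ j) (v : N) : ⁅L.f b, v⁆ ∈ IN L j N :=
  Submodule.subset_span ⟨b, hb, v, rfl⟩

/-- An element of `n₋` without `f_j` component maps `N` to `I_j N`. -/
theorem IN_nm (L : LD g β η) (j : β) {y : g} (hy : y ∈ L.nm) (hj : L.form y (L.e j) = 0) (v : N) :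
    ⁅y, v⁆ ∈ IN L j N := by
  have h1 : y = ∑ b, L.form y (L.e b) • L.f b := by
    conv_lhs => rw [L.decomp y]
    simp only [((L.mem_nm_iff y).1 hy).1, ((L.mem_nm_iff y).1 hy).2, zero_smul,
      Finset.sum_const_zero, zero_add]
  rw [h1, sum_lie]
  refine Submodule.sum_mem _ fun b _ => ?_
  rw [smul_lie]
  by_cases hb : b = j
  · subst hb
    rw [hj, zero_smul]
    exact zero_mem _
  · exact Submodule.smul_mem _ _ (L.IN_f j hb v)

include S in
theorem IN_stable {x : g} (hx : x ∈ L.levS j) {v : N} (hv : v ∈ IN L j N) :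
    ⁅x, v⁆ ∈ IN L j N := by
  have hj := S.ht
  have key : ∀ (b : β), b ≠ j → ∀ v : N, (∀ i, ⁅L.h i, ⁅L.f b, v⁆⁆ ∈ IN L j N) ∧
      ⁅L.e j, ⁅L.f b, v⁆⁆ ∈ IN L j N ∧ ⁅L.f j, ⁅L.f b, v⁆⁆ ∈ IN L j N := by
    intro b hb v
    have hbp := L.ht_pos b
    refine ⟨fun i => ?_, ?_, ?_⟩
    · rw [leibniz_lie]
      refine add_mem (IN_nm L j (L.h_f_mem i b) ?_ _) (L.IN_f j hb _)
      rw [← lie_skew, map_neg, LinearMap.neg_apply, L.inv, S.he, map_smul, L.symm, L.ef,
        if_neg (Ne.symm hb), smul_zero, neg_zero]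
    · rw [leibniz_lie]
      refine add_mem (IN_nm L j ?_ ?_ _) (L.IN_f j hb _)
      · rw [L.mem_nm_iff]
        have h0 : ⁅L.rho, ⁅L.e j, L.f b⁆⁆ =
            ((L.ht j : ℂ) + (-(L.ht b : ℂ))) • ⁅L.e j, L.f b⁆ :=
          L.rho_lie _ _ _ _ (L.rho_e j) (L.rho_f b)
        constructor
        · intro c
          have hc := L.ht_pos c
          refine L.form_eq_zero_of _ _ _ _ h0 (L.rho_f c) ?_
          intro h
          have h3 : ((L.ht j : ℕ) : ℂ) = ((L.ht b + L.ht c : ℕ) : ℂ) := by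
            push_cast
            linear_combination h
          have h4 : L.ht j = L.ht b + L.ht c := by exact_mod_cast h3
          omega
        · intro i
          have hi : ∀ y ∈ L.hs, L.form ⁅L.e j, L.f b⁆ y = 0 := by
            intro y hy
            rw [L.symm, ← L.inv, al_e S hy, map_smul, LinearMap.smul_apply, L.ef,
              if_neg (Ne.symm hb), smul_zero]
          exact hi _ (L.h'_mem i)
      · have h0 : ⁅L.rho, ⁅L.e j, L.f b⁆⁆ =
            ((L.ht j : ℂ) + (-(L.ht b : ℂ))) • ⁅L.e j, L.f b⁆ :=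
          L.rho_lie _ _ _ _ (L.rho_e j) (L.rho_f b)
        rw [← lie_skew, map_neg, LinearMap.neg_apply, L.inv, lie_self, map_zero, neg_zero]
    · rw [leibniz_lie]
      refine add_mem (IN_nm L j (L.f_f_mem j b) ?_ _) (L.IN_f j hb _)
      refine L.form_eq_zero_of _ _ _ _ (L.rho_lie _ _ _ _ (L.rho_f j) (L.rho_f b)) (L.rho_e j) ?_
      intro h
      have h3 : ((L.ht b : ℕ) : ℂ) = 0 := by linear_combination -h
      rw [Nat.cast_eq_zero] at h3
      omega
  let U : Submodule ℂ N :=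
    { carrier := {v | ∀ x ∈ L.levS j, ⁅x, v⁆ ∈ IN L j N}
      add_mem' := by
        intro a b ha hb x hx
        rw [lie_add]; exact add_mem (ha x hx) (hb x hx)
      zero_mem' := by
        intro x _
        rw [lie_zero]; exact zero_mem _
      smul_mem' := by
        intro c a ha x hx
        rw [lie_smul]; exact Submodule.smul_mem _ _ (ha x hx) }
  have hU : IN L j N ≤ U := by
    refine Submodule.span_le.2 ?_
    rintro _ ⟨b, hb, v, rfl⟩ x hx
    let V : Submodule ℂ g :=
      { carrier := {x | ⁅x, ⁅L.f b, v⁆⁆ ∈ IN L j N}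
        add_mem' := by
          intro a c ha hc
          show ⁅a + c, ⁅L.f b, v⁆⁆ ∈ IN L j N
          rw [add_lie]; exact add_mem ha hc
        zero_mem' := by
          show ⁅(0 : g), ⁅L.f b, v⁆⁆ ∈ IN L j N
          rw [zero_lie]; exact zero_mem _
        smul_mem' := by
          intro c a ha
          show ⁅c • a, ⁅L.f b, v⁆⁆ ∈ IN L j N
          rw [smul_lie]; exact Submodule.smul_mem _ _ ha }
    have hV : L.levS j ≤ V := L.levS_ind j (key b hb v).1 (key b hb v).2.1 (key b hb v).2.2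
    exact hV hx
  exact hU hv x hx

/-- `I_j N` as a submodule for the Levi subalgebra. -/
def INl (S : Simp L j al) (N : Type) [AddCommGroup N] [Module ℂ N] [LieRingModule g N]
    [LieModule ℂ g N] : LieSubmodule ℂ (lev S) N where
  toSubmodule := IN L j N
  lie_mem := by
    intro x v hv
    exact IN_stable S x.2 hv

/-- `N^(j) = N / I_j N`. -/
abbrev NQ (S : Simp L j al) (N : Type) [AddCommGroup N] [Module ℂ N] [LieRingModule g N]
    [LieModule ℂ g N] : Type := N ⧸ INl S N

/-- The projection `N → N^(j)`. -/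
def nq (S : Simp L j al) (N : Type) [AddCommGroup N] [Module ℂ N] [LieRingModule g N]
    [LieModule ℂ g N] : N →ₗ[ℂ] NQ S N := (INl S N).toSubmodule.mkQ

theorem nq_surj : Function.Surjective (nq S N) := Submodule.mkQ_surjective _

theorem nq_eq_zero {v : N} (hv : v ∈ IN L j N) : nq S N v = 0 :=
  (Submodule.Quotient.mk_eq_zero _).2 hv

theorem nq_lie (x : lev S) (v : N) : nq S N ⁅(x : g), v⁆ = ⁅x, nq S N v⁆ := rfl

/-- `π(a v) = fb(a) π(v)` for `a ∈ b₋`. -/
theorem nq_fb (a : L.bL) (v : N) : nq S N ⁅(a : g), v⁆ = ⁅(fb S a : lev S), nq S N v⁆ := by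
  rw [← nq_lie, coe_fb]
  obtain ⟨u, hu, w, hw, ha⟩ := Submodule.mem_sup.1 a.2
  have h1 : L.Ph (a : g) = u := by
    rw [← ha, map_add, mi_Ph_hs L hu, mi_Ph_nm L hw, add_zero]
  have h2 : L.form (a : g) (L.e j) = L.form w (L.e j) := by
    rw [← ha, map_add, LinearMap.add_apply, mi_form_he L j hu, zero_add]
  rw [h1, h2, ← sub_eq_zero, ← map_sub]
  refine nq_eq_zero S ?_
  rw [← sub_lie, ← ha]
  have h3 : u + w - (u + L.form w (L.e j) • L.f j) = w - L.form w (L.e j) • L.f j := by abel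
  rw [h3]
  refine IN_nm L j (sub_mem hw (Submodule.smul_mem _ _ (L.f_mem_nm j))) ?_ v
  rw [map_sub, LinearMap.sub_apply, map_smul, LinearMap.smul_apply, L.symm (L.f j), L.ef,
    if_pos rfl, smul_eq_mul, mul_one, sub_self]

/-- `∑_b fy(f_b) ⊗ π(e_b v) = f_j ⊗ e_j π(v)` -/
theorem nq_e (v : N) : ∑ b, fy S (L.fN b) ⊗ₜ[ℂ] nq S N ⁅L.e b, v⁆ =
    ∑ b : Unit, (levi S).fN b ⊗ₜ[ℂ] ⁅(levi S).e b, nq S N v⁆ := by
  rw [Finset.sum_eq_single j, Finset.univ_unique, Finset.sum_singleton, fy_fN, if_pos rfl]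
  · rfl
  · intro b _ hb
    rw [fy_fN, if_neg hb, TensorProduct.zero_tmul]
  · intro h
    exact absurd (Finset.mem_univ _) h

/-- Highest weight modules: `N^(j)` is a highest weight module of the Levi subalgebra. -/
theorem nq_HW {v0 : N} {lam : η → ℂ} (H : L.HW N v0 lam) :
    (levi S).HW (NQ S N) (nq S N v0) lam where
  e_v0 b := by
    show ⁅levE S, nq S N v0⁆ = 0
    rw [← nq_lie]
    show nq S N ⁅L.e j, v0⁆ = 0
    rw [H.e_v0, map_zero]
  h_v0 i := by
    show ⁅levH S i, nq S N v0⁆ = _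
    rw [← nq_lie]
    show nq S N ⁅L.h i, v0⁆ = _
    rw [H.h_v0, map_smul]
  gen U h0 hf := by
    have h1 : U.comap (nq S N) = ⊤ := by
      refine H.gen _ h0 fun b x hx => ?_
      rw [Submodule.mem_comap] at hx ⊢
      by_cases hb : b = j
      · subst hb
        exact hf () _ hx
      · rw [nq_eq_zero S (L.IN_f j hb x)]
        exact zero_mem _
    rw [eq_top_iff]
    intro x _
    obtain ⟨y, rfl⟩ := nq_surj S x
    have h2 : y ∈ U.comap (nq S N) := by rw [h1]; trivial
    exact h2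

end LD

end

end WPE
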