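import Pool.Agent.WPE.BRL
import Pool.Agent.WPE.MIB
import Pool.Agent.WPE.MIC
import Pool.Agent.WPE.MIN

/-! WPE, block MI: definitions. -/

namespace WPE

open scoped TensorProduct
open MvPolynomial WPQ

noncomputable section

section general

variable {g β η : Type} [LieRing g] [LieAlgebra ℂ g] [Fintype β] [DecidableEq β] [Fintype η]
  [DecidableEq η]

namespace LD

variable (L : LD g β η)

theorem F_nm : L.F ∈ L.nm := by
  have h0 : ⁅L.rho, L.F⁆ = (-1 : ℂ) • L.F := L.rho_F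
  rw [L.mem_nm_iff]
  constructor
  · intro c
    have hc := L.ht_pos c
    refine L.form_eq_zero_of _ _ _ _ h0 (L.rho_f c) ?_
    intro h
    have h3 : ((L.ht c + 1 : ℕ) : ℂ) = 0 := by
      push_cast
      linear_combination -h
    rw [Nat.cast_eq_zero] at h3
    omega
  · intro i
    refine L.form_eq_zero_of _ _ _ 0 h0 (by rw [zero_smul]; exact L.rho_hs _ (L.h'_mem i)) ?_
    norm_num

/-- `F`, `rho`, `h'_i` as elements of `b₋`. -/
def FB : L.bL := ⟨L.F, L.nm_le_bm L.F_nm⟩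

/-- see `FB` -/
def rhoB : L.bL := ⟨L.rho, L.hs_le_bm L.rho_mem⟩

/-- see `FB` -/
def hB' (i : η) : L.bL := ⟨L.h' i, L.hs_le_bm (L.h'_mem i)⟩

/-- The vector `w₀ = J_F(-1)1 - (1/2) ∑ J_{h_i}(-1) J_{h'_i}(-1)1 + (1-κ) J_rho(-2)1`. -/
def w0 (κ : ℂ) : VC (L.kb κ) L.nL :=
  (cmod (L.kb κ) L.nL (TMod.triv L.bL)).J (-1) L.FB (cvac _ _) -
    (1 / 2 : ℂ) • ∑ i, (cmod (L.kb κ) L.nL (TMod.triv L.bL)).J (-1) (L.hB i)
      ((cmod (L.kb κ) L.nL (TMod.triv L.bL)).J (-1) (L.hB' i) (cvac _ _)) +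
    (1 - κ) • (cmod (L.kb κ) L.nL (TMod.triv L.bL)).J (-2) L.rhoB (cvac _ _)

end LD

end general

namespace LD

section levi

variable {g β η : Type} [LieRing g] [LieAlgebra ℂ g] [Fintype β] [DecidableEq β] [Fintype η]
  [DecidableEq η] {L : LD g β η} {j : β} {al : η → ℂ}

/-- The map of complexes `C(N) → C(N^(j))`. -/
def toLev (S : Simp L j al) (κ : ℂ) (N : Type) [AddCommGroup N] [Module ℂ N] [LieRingModule g N]
    [LieModule ℂ g N] : CHom (L.kb κ) ((levi S).kb κ) L.nL (levi S).nL (TMod.ofRep (L.rep N))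
      (TMod.ofRep ((levi S).rep (NQ S N))) where
  f := fb S
  u := fy S
  φ := nq S N
  hκ a b := by
    rw [kb_apply, kb_apply, fb_form]
  hu a y := fy_lie S a y
  hφ m a v := by
    by_cases hm : m = 0
    · subst hm
      rw [TMod.ofRep_zero, TMod.ofRep_zero]
      exact nq_fb S a v
    · rw [TMod.ofRep_pos _ _ hm, TMod.ofRep_pos _ _ hm, map_zero]

end levi

variable {g β ι : Type} [LieRing g] [LieAlgebra ℂ g] [Fintype β] [DecidableEq β] [Fintype ι]
  [DecidableEq ι]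

/-- The setting: `(h_i, h_j) = A_ij`, `rho = ∑ (A⁻¹ 1)_i h_i`. -/
structure Car' (L : LD g β ι) (A : Matrix ι ι ℤ) (p : ℕ) : Prop extends Car L A p where
  hr : ∀ i, L.form L.rho (L.h' i) = WPQ.rho A i

/-- The setting for the whole Lie algebra: simple roots `sr j`, `F = ∑ f_j`. -/
structure CarF (L : LD g β ι) (A : Matrix ι ι ℤ) (p : ℕ) (sr : ι → β) : Prop
    extends Car' L A p where
  simp : ∀ j, Simp L (sr j) (fun i => (A i j : ℂ))
  inj : Function.Injective sr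
  F_eq : L.F = ∑ j, L.f (sr j)

end LD

/-- The vectors `f` such that `f ⊗ e^{-ν}` is killed by the short screening of `α_j` and by
`E_j^{m_j+1}`. -/
def MJ {ι : Type} [Fintype ι] [DecidableEq ι] {A : Matrix ι ι ℤ} {p : ℕ} (ε : Cocycle A p)
    (j : ι) (ν : ι → ℤ) : Submodule ℂ (Fock ι) where
  carrier := {f | vop A p (Pi.single j (-(p : ℂ)⁻¹)) ((∑ i, A j i * (-ν) i) - 1) f = 0 ∧
    (Ej ε (Shift.zero A p) j ^ ((pr A j ν).toNat + 1)) (Finsupp.single (-ν) f) = 0}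
  add_mem' := by
    rintro f f' ⟨h1, h2⟩ ⟨k1, k2⟩
    exact ⟨by rw [map_add, h1, k1, add_zero], by rw [Finsupp.single_add, map_add, h2, k2, add_zero]⟩
  zero_mem' := ⟨map_zero _, by rw [Finsupp.single_zero, map_zero]⟩
  smul_mem' := by
    rintro c f ⟨h1, h2⟩
    exact ⟨by rw [map_smul, h1, smul_zero], by rw [← Finsupp.smul_single, map_smul, h2, smul_zero]⟩

end

end WPE
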