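import Pool.Agent.WPQ.HAD

/-! WPE, block MZ: the simple Lie algebra of type `A`, `D`, `E`, with root vectors (`posRoots`). -/

namespace WPE

open WPQ MvPolynomial

noncomputable section

variable {ι : Type} [Fintype ι] [DecidableEq ι] {A : Matrix ι ι ℤ}

/-- `g` is the simple Lie algebra with Cartan matrix `A` of type `A`, `D`, `E`: `h_i` are the simple
coroots, `e_γ` and `f_γ` are root vectors of the positive root `γ` and of `-γ`, `form` is the
invariant form with `(α, α) = 2` for all roots, and `(e_γ, f_γ) = 1`. -/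
structure Chevalley (A : Matrix ι ι ℤ) (g : Type) [LieRing g] [LieAlgebra ℂ g] where
  form : g →ₗ[ℂ] g →ₗ[ℂ] ℂ
  h : ι → g
  e : {γ // γ ∈ posRoots A} → g
  f : {γ // γ ∈ posRoots A} → g
  symm : ∀ x y, form x y = form y x
  inv : ∀ x y z, form ⁅x, y⁆ z = form x ⁅y, z⁆
  span : Submodule.span ℂ (Set.range h ∪ (Set.range e ∪ Set.range f)) = ⊤
  h_h : ∀ i j, ⁅h i, h j⁆ = 0
  h_e : ∀ i γ, ⁅h i, e γ⁆ = ((∑ j, A i j * γ.1 j : ℤ) : ℂ) • e γ
  h_f : ∀ i γ, ⁅h i, f γ⁆ = (-((∑ j, A i j * γ.1 j : ℤ) : ℂ)) • f γ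
  hh : ∀ i j, form (h i) (h j) = (A i j : ℂ)
  ef : ∀ γ δ, form (e γ) (f δ) = if γ = δ then 1 else 0

namespace Chevalley

variable {g : Type} [LieRing g] [LieAlgebra ℂ g] (G : Chevalley A g)

/-- `b₋ = h ⊕ n₋` -/
def bm : Submodule ℂ g := Submodule.span ℂ (Set.range G.h ∪ Set.range G.f)

/-- The principal nilpotent element: the sum of the `f_γ`, `γ` simple (of height `1`). -/
def F : g := ∑ γ : {γ // γ ∈ posRoots A}, if ∑ i, γ.1 i = 1 then G.f γ else 0

end Chevalley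

variable {g : Type} [LieRing g] [LieAlgebra ℂ g]

namespace Chevalley

variable (G : Chevalley A g) {M : Type} [AddCommGroup M] [Module ℂ M]

/-- Linear maps which agree on `h_i`, `e_γ`, `f_γ` are equal. -/
theorem hom_ext {D D' : g →ₗ[ℂ] M} (hh : ∀ i, D (G.h i) = D' (G.h i))
    (he : ∀ γ, D (G.e γ) = D' (G.e γ)) (hf : ∀ γ, D (G.f γ) = D' (G.f γ)) : D = D' := by
  refine LinearMap.ext_on G.span ?_
  rintro _ (⟨i, rfl⟩ | ⟨γ, rfl⟩ | ⟨γ, rfl⟩)
  · exact hh i
  · exact he γ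
  · exact hf γ

end Chevalley

end

end WPE
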