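import Pool.Agent.WPE.KG3
import Pool.Agent.WPE.KG4
import Pool.Agent.WPE.KG6
import Pool.Agent.WPE.MID
import Pool.Agent.WPE.MZF

/-! WPE, block MZ: the Lie data `LD` of a simple Lie algebra given by `Chevalley A g`. -/

set_option linter.unusedSectionVars false

namespace WPE

open WPQ MvPolynomial

noncomputable section

variable {ι : Type} [Fintype ι] [DecidableEq ι] {A : Matrix ι ι ℤ}
variable {g : Type} [LieRing g] [LieAlgebra ℂ g]

namespace Chevalley

variable (G : Chevalley A g)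

/-- Cartan elements, in the basis `h_i`. -/
def H : (ι → ℂ) →ₗ[ℂ] g := ∑ i, (LinearMap.proj i : (ι → ℂ) →ₗ[ℂ] ℂ).smulRight (G.h i)

theorem H_apply (ν : ι → ℂ) : G.H ν = ∑ i, ν i • G.h i := by
  unfold H
  rw [LinearMap.sum_apply]
  rfl

theorem H_bb (i : ι) : G.H (bb i) = G.h i := by
  rw [H_apply, Finset.sum_eq_single i]
  · rw [bb, Pi.single_eq_same, one_smul]
  · intro j _ hj
    rw [bb, Pi.single_eq_of_ne hj, zero_smul]
  · intro h
    exact absurd (Finset.mem_univ i) h

theorem form_toC (ν : ι → ℂ) (γ : ι → ℤ) :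
    WPQ.form A 1 ν (toC γ) = ∑ i, ν i * ((∑ j, A i j * γ j : ℤ) : ℂ) := by
  unfold WPQ.form toC
  rw [Nat.cast_one, one_mul]
  refine Finset.sum_congr rfl fun i _ => ?_
  push_cast
  rw [Finset.mul_sum]
  exact Finset.sum_congr rfl fun j _ => by ring

theorem H_e (ν : ι → ℂ) (γ : Rt A) : ⁅G.H ν, G.e γ⁆ = WPQ.form A 1 ν (toC γ.1) • G.e γ := by
  rw [H_apply, sum_lie, form_toC, Finset.sum_smul]
  refine Finset.sum_congr rfl fun i _ => ?_
  rw [smul_lie, G.h_e, smul_smul]

theorem H_f (ν : ι → ℂ) (γ : Rt A) : ⁅G.H ν, G.f γ⁆ = (-WPQ.form A 1 ν (toC γ.1)) • G.f γ := by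
  rw [H_apply, sum_lie, form_toC, ← Finset.sum_neg_distrib, Finset.sum_smul]
  refine Finset.sum_congr rfl fun i _ => ?_
  rw [smul_lie, G.h_f, smul_smul, mul_neg]

theorem H_H (ν μ : ι → ℂ) : ⁅G.H ν, G.H μ⁆ = 0 := by
  rw [H_apply, H_apply, sum_lie]
  refine Finset.sum_eq_zero fun i _ => ?_
  rw [lie_sum]
  refine Finset.sum_eq_zero fun j _ => ?_
  rw [smul_lie, lie_smul, G.h_h, smul_zero, smul_zero]

theorem form_H_H (ν μ : ι → ℂ) : G.form (G.H ν) (G.H μ) = WPQ.form A 1 ν μ := by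
  rw [H_apply, H_apply]
  unfold WPQ.form
  simp only [map_sum, LinearMap.sum_apply, map_smul, LinearMap.smul_apply, G.hh, smul_eq_mul,
    Nat.cast_one, one_mul]
  rw [Finset.sum_comm]
  refine Finset.sum_congr rfl fun i _ => ?_
  rw [Finset.mul_sum]
  exact Finset.sum_congr rfl fun j _ => by ring

/-- `ρ` -/
def rho : g := G.H (WPQ.rho A)

/-- The dual basis. -/
def h' (i : ι) : g := G.H (fun j => invA A i j)

/-- Vectors of different weights are orthogonal. -/
theorem pair_z {x y z : g} {c d : ℂ} (hx : ⁅z, x⁆ = c • x) (hy : ⁅z, y⁆ = d • y)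
    (hcd : c + d ≠ 0) : G.form x y = 0 := by
  have h1 := G.inv x z y
  rw [← lie_skew, hx, hy, map_neg, map_smul, map_smul, LinearMap.neg_apply,
    LinearMap.smul_apply, smul_eq_mul, smul_eq_mul] at h1
  have h2 : (c + d) * G.form x y = 0 := by
    rw [add_mul, ← h1]
    ring
  exact (mul_eq_zero.1 h2).resolve_left hcd

/-- Vectors of different degrees are orthogonal. -/
theorem pair {x y : g} {c d : ℂ} (hx : ⁅G.rho, x⁆ = c • x) (hy : ⁅G.rho, y⁆ = d • y)
    (hcd : c + d ≠ 0) : G.form x y = 0 := G.pair_z hx hy hcd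

theorem lie_wt {x y z : g} {c d : ℂ} (hx : ⁅z, x⁆ = c • x) (hy : ⁅z, y⁆ = d • y) :
    ⁅z, ⁅x, y⁆⁆ = (c + d) • ⁅x, y⁆ := by
  rw [leibniz_lie, hx, hy, smul_lie, lie_smul, add_smul]

theorem rho_H (ν : ι → ℂ) : ⁅G.rho, G.H ν⁆ = (0 : ℂ) • G.H ν := by
  rw [zero_smul]
  exact G.H_H _ _

section ade

variable (hA : IsADE A)

include hA

theorem ht_cast (b : Rt A) : (htR b : ℂ) = (ht b.1 : ℂ) := by
  have h1 := (kg_K3 hA).ht_pos b.1 b.2
  have h2 : ((htR b : ℕ) : ℤ) = ht b.1 := by
    unfold htR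
    exact Int.toNat_of_nonneg (by omega)
  rw [← h2, Int.cast_natCast]

theorem ht_pos' (b : Rt A) : 1 ≤ htR b := by
  have h1 := (kg_K3 hA).ht_pos b.1 b.2
  unfold htR
  omega

theorem rho_e (b : Rt A) : ⁅G.rho, G.e b⁆ = (htR b : ℂ) • G.e b := by
  unfold rho
  rw [H_e, (kg_K4 hA).form_rho, ht_cast hA]

theorem rho_f (b : Rt A) : ⁅G.rho, G.f b⁆ = (-(htR b : ℂ)) • G.f b := by
  unfold rho
  rw [H_f, (kg_K4 hA).form_rho, ht_cast hA]

theorem ee (b c : Rt A) : G.form (G.e b) (G.e c) = 0 := by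
  refine G.pair (G.rho_e hA b) (G.rho_e hA c) ?_
  have := ht_pos' hA b
  have h2 : htR b + htR c ≠ 0 := by omega
  exact_mod_cast h2

theorem ff (b c : Rt A) : G.form (G.f b) (G.f c) = 0 := by
  refine G.pair (G.rho_f hA b) (G.rho_f hA c) ?_
  have := ht_pos' hA b
  have h2 : htR b + htR c ≠ 0 := by omega
  intro h
  apply h2
  have h3 : ((htR b + htR c : ℕ) : ℂ) = 0 := by
    push_cast
    linear_combination -h
  exact_mod_cast h3

theorem eH (b : Rt A) (ν : ι → ℂ) : G.form (G.e b) (G.H ν) = 0 := by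
  refine G.pair (G.rho_e hA b) (G.rho_H ν) ?_
  have := ht_pos' hA b
  have h2 : htR b ≠ 0 := by omega
  rw [add_zero]
  exact_mod_cast h2

theorem fH (b : Rt A) (ν : ι → ℂ) : G.form (G.f b) (G.H ν) = 0 := by
  refine G.pair (G.rho_f hA b) (G.rho_H ν) ?_
  have := ht_pos' hA b
  have h2 : htR b ≠ 0 := by omega
  rw [add_zero, neg_ne_zero]
  exact_mod_cast h2

theorem hh' (i j : ι) : G.form (G.h i) (G.h' j) = if i = j then 1 else 0 := by
  rw [← H_bb, h', form_H_H]
  exact (kg_K4 hA).form_dual i j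

omit hA in
theorem H_mem (ν : ι → ℂ) : G.H ν ∈ Submodule.span ℂ (Set.range G.h) := by
  rw [H_apply]
  exact Submodule.sum_mem _ fun i _ => Submodule.smul_mem _ _ (Submodule.subset_span ⟨i, rfl⟩)

/-- The decomposition as a linear map. -/
def T : g →ₗ[ℂ] g :=
  ∑ b, ((G.form).flip (G.f b)).smulRight (G.e b) +
    ∑ i, ((G.form).flip (G.h' i)).smulRight (G.h i) +
    ∑ b, ((G.form).flip (G.e b)).smulRight (G.f b)

omit hA in
theorem T_apply (x : g) : G.T x = ∑ b, G.form x (G.f b) • G.e b +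
    ∑ i, G.form x (G.h' i) • G.h i + ∑ b, G.form x (G.e b) • G.f b := by
  unfold T
  simp only [LinearMap.add_apply, LinearMap.sum_apply, LinearMap.smulRight_apply,
    LinearMap.flip_apply]

theorem T_h (k : ι) : G.T (G.h k) = G.h k := by
  rw [T_apply, Finset.sum_eq_zero, Finset.sum_eq_single k, Finset.sum_eq_zero]
  · rw [G.hh' hA, if_pos rfl, one_smul, zero_add, add_zero]
  · intro b _
    rw [G.symm, ← H_bb, G.eH hA, zero_smul]
  · intro i _ hi
    rw [G.hh' hA, if_neg hi.symm, zero_smul]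
  · intro h
    exact absurd (Finset.mem_univ k) h
  · intro b _
    rw [G.symm, ← H_bb, G.fH hA, zero_smul]

theorem T_e (c : Rt A) : G.T (G.e c) = G.e c := by
  rw [T_apply, Finset.sum_eq_single c, Finset.sum_eq_zero, Finset.sum_eq_zero]
  · rw [G.ef, if_pos rfl, one_smul, add_zero, add_zero]
  · intro b _
    rw [G.ee hA, zero_smul]
  · intro i _
    rw [h', G.eH hA, zero_smul]
  · intro b _ hb
    rw [G.ef, if_neg hb.symm, zero_smul]
  · intro h
    exact absurd (Finset.mem_univ c) h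

theorem T_f (c : Rt A) : G.T (G.f c) = G.f c := by
  rw [T_apply, Finset.sum_eq_zero, Finset.sum_eq_zero, Finset.sum_eq_single c]
  · rw [G.symm, G.ef, if_pos rfl, one_smul, zero_add, zero_add]
  · intro b _ hb
    rw [G.symm, G.ef, if_neg hb, zero_smul]
  · intro h
    exact absurd (Finset.mem_univ c) h
  · intro i _
    rw [h', G.fH hA, zero_smul]
  · intro b _
    rw [G.ff hA, zero_smul]

theorem decomp (x : g) : x = ∑ b, G.form x (G.f b) • G.e b +
    ∑ i, G.form x (G.h' i) • G.h i + ∑ b, G.form x (G.e b) • G.f b := by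
  rw [← T_apply]
  have h : G.T = LinearMap.id := G.hom_ext (fun i => G.T_h hA i) (fun c => G.T_e hA c)
    (fun c => G.T_f hA c)
  rw [h]
  rfl

theorem zero_of {x : g} (h1 : ∀ b, G.form x (G.f b) = 0) (h2 : ∀ i, G.form x (G.h' i) = 0)
    (h3 : ∀ b, G.form x (G.e b) = 0) : x = 0 := by
  rw [G.decomp hA x]
  simp [h1, h2, h3]

theorem form_inv (μ : ι → ℂ) (i : ι) : WPQ.form A 1 μ (fun j => invA A i j) = μ i := by
  rw [KG4.form_eq, Finset.sum_eq_single i]
  · rw [← KG4.form_bb_left, (kg_K4 hA).form_dual, if_pos rfl, mul_one]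
  · intro k _ hk
    rw [← KG4.form_bb_left, (kg_K4 hA).form_dual, if_neg hk, mul_zero]
  · intro h
    exact absurd (Finset.mem_univ i) h

theorem h'_e (i : ι) (γ : Rt A) : ⁅G.h' i, G.e γ⁆ = (γ.1 i : ℂ) • G.e γ := by
  rw [h', H_e, (kg_K4 hA).form_symm, form_inv hA]
  rfl

theorem h'_f (i : ι) (γ : Rt A) : ⁅G.h' i, G.f γ⁆ = (-(γ.1 i : ℂ)) • G.f γ := by
  rw [h', H_f, (kg_K4 hA).form_symm, form_inv hA]
  rfl

omit hA in
theorem h'_H (i : ι) (ν : ι → ℂ) : ⁅G.h' i, G.H ν⁆ = (0 : ℂ) • G.H ν := by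
  rw [zero_smul]
  exact G.H_H _ _

theorem form_H_h' (ν : ι → ℂ) (i : ι) : G.form (G.H ν) (G.h' i) = ν i := by
  rw [h', form_H_H, form_inv hA]

/-- `[e_γ, f_δ]` for roots of the same height. -/
theorem e_f (γ δ : Rt A) (h : htR γ = htR δ) :
    ⁅G.e γ, G.f δ⁆ = if γ = δ then G.H (toC γ.1) else 0 := by
  have hw : ⁅G.rho, ⁅G.e γ, G.f δ⁆⁆ = ((htR γ : ℂ) + (-(htR δ : ℂ))) • ⁅G.e γ, G.f δ⁆ :=
    lie_wt (G.rho_e hA γ) (G.rho_f hA δ)
  rw [h, add_neg_cancel] at hw
  have e1 : ∀ b, G.form ⁅G.e γ, G.f δ⁆ (G.f b) = 0 := by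
    intro b
    refine G.pair hw (G.rho_f hA b) ?_
    have := ht_pos' hA b
    have h2 : htR b ≠ 0 := by omega
    rw [zero_add, neg_ne_zero]
    exact_mod_cast h2
  have e2 : ∀ b, G.form ⁅G.e γ, G.f δ⁆ (G.e b) = 0 := by
    intro b
    refine G.pair hw (G.rho_e hA b) ?_
    have := ht_pos' hA b
    have h2 : htR b ≠ 0 := by omega
    rw [zero_add]
    exact_mod_cast h2
  have e3 : ∀ i, G.form ⁅G.e γ, G.f δ⁆ (G.h' i) = (δ.1 i : ℂ) * if γ = δ then 1 else 0 := by
    intro i
    rw [G.inv, ← lie_skew, G.h'_f hA, ← neg_smul, neg_neg, map_smul, G.ef, smul_eq_mul]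
  rw [← sub_eq_zero]
  split_ifs with hγ
  · subst hγ
    refine G.zero_of hA (fun b => ?_) (fun i => ?_) (fun b => ?_)
    · rw [map_sub, LinearMap.sub_apply, e1, G.symm, G.fH hA, sub_zero]
    · rw [map_sub, LinearMap.sub_apply, e3, if_pos rfl, mul_one, form_H_h' G hA]
      exact sub_self _
    · rw [map_sub, LinearMap.sub_apply, e2, G.symm, G.eH hA, sub_zero]
  · rw [sub_zero]
    refine G.zero_of hA e1 (fun i => ?_) e2
    rw [e3, if_neg hγ, mul_zero]

omit hA in
theorem ht_rt (j : ι) : ht (rt j : ι → ℤ) = 1 := by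
  unfold ht rt
  rw [Finset.sum_eq_single j]
  · rw [Pi.single_eq_same]
  · intro i _ hi
    exact Pi.single_eq_of_ne hi 1
  · intro h
    exact absurd (Finset.mem_univ j) h

omit hA in
theorem toC_rt (j : ι) : toC (rt j : ι → ℤ) = bb j := by
  funext i
  show ((rt j i : ℤ) : ℂ) = bb j i
  unfold rt bb
  by_cases hi : i = j
  · subst hi
    simp
  · simp [Pi.single_eq_of_ne hi]

theorem htR_sr (j : ι) : htR (sr hA j) = 1 := by
  unfold htR sr
  show (ht (rt j : ι → ℤ)).toNat = 1
  rw [ht_rt]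
  rfl

theorem sr_inj : Function.Injective (sr hA) := by
  intro i j h
  have h1 : (rt i : ι → ℤ) = rt j := congrArg Subtype.val h
  by_contra hij
  have h2 := congrFun h1 i
  unfold rt at h2
  rw [Pi.single_eq_same, Pi.single_eq_of_ne hij] at h2
  exact one_ne_zero h2

theorem F_eq : G.F = ∑ j, G.f (sr hA j) := by
  unfold F
  rw [← Finset.sum_filter]
  refine (Finset.sum_nbij (fun j => sr hA j) ?_ ?_ ?_ ?_).symm
  · intro j _
    rw [Finset.mem_filter]
    exact ⟨Finset.mem_univ _, ht_rt j⟩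
  · intro i _ j _ h
    exact sr_inj hA h
  · intro γ hγ
    rw [Finset.mem_coe, Finset.mem_filter] at hγ
    obtain ⟨j, hj⟩ := (kg_K3 hA).ht_one γ.1 γ.2 hγ.2
    exact ⟨j, Finset.mem_coe.2 (Finset.mem_univ _), Subtype.ext hj.symm⟩
  · intro j _
    rfl

theorem rho_F : ⁅G.rho, G.F⁆ = (-1 : ℂ) • G.F := by
  rw [G.F_eq hA, lie_sum, Finset.smul_sum]
  refine Finset.sum_congr rfl fun i _ => ?_
  rw [G.rho_f hA, htR_sr hA, Nat.cast_one]

/-- `E = ∑ 2 ρ_i e_i` -/
def E : g := ∑ i, (2 * WPQ.rho A i) • G.e (sr hA i)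

theorem rho_E : ⁅G.rho, G.E hA⁆ = G.E hA := by
  unfold E
  rw [lie_sum]
  refine Finset.sum_congr rfl fun i _ => ?_
  rw [lie_smul, G.rho_e hA, htR_sr hA, Nat.cast_one, one_smul]

theorem E_F : ⁅G.E hA, G.F⁆ = (2 : ℂ) • G.rho := by
  rw [G.F_eq hA]
  unfold E
  rw [sum_lie]
  have h1 : ∀ i, ⁅(2 * WPQ.rho A i) • G.e (sr hA i), ∑ j, G.f (sr hA j)⁆ =
      (2 : ℂ) • (WPQ.rho A i • G.h i) := by
    intro i
    rw [smul_lie, lie_sum, Finset.sum_eq_single i]
    · rw [G.e_f hA _ _ rfl, if_pos rfl]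
      show _ • G.H (toC (rt i)) = _
      rw [toC_rt, H_bb, smul_smul]
    · intro k _ hk
      rw [G.e_f hA _ _ (by rw [htR_sr, htR_sr]), if_neg]
      intro h
      exact hk (sr_inj hA h).symm
    · intro h
      exact absurd (Finset.mem_univ i) h
  rw [Finset.sum_congr rfl fun i _ => h1 i, ← Finset.smul_sum, ← H_apply]
  rfl

/-- Weight spaces of `ad ρ`. -/
def wt (c : ℤ) : Submodule ℂ g where
  carrier := {x | ⁅G.rho, x⁆ = (c : ℂ) • x}
  add_mem' := by
    intro x y hx hy
    show ⁅G.rho, x + y⁆ = (c : ℂ) • (x + y)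
    rw [lie_add, hx, hy, smul_add]
  zero_mem' := by
    show ⁅G.rho, (0 : g)⁆ = (c : ℂ) • (0 : g)
    rw [lie_zero, smul_zero]
  smul_mem' := by
    intro a x hx
    show ⁅G.rho, a • x⁆ = (c : ℂ) • (a • x)
    rw [lie_smul, hx, smul_comm]

/-- `ad F : b₋ → n₋` is onto. -/
theorem surj (b : Rt A) : ∃ x : g, (∀ c, G.form x (G.f c) = 0) ∧ ⁅G.F, x⁆ = G.f b := by
  classical
  have hE : ∀ c, ∀ x ∈ G.wt c, LieAlgebra.ad ℂ g (G.E hA) x ∈ G.wt (c + 1) := by
    intro c x hx
    have hx' : ⁅G.rho, x⁆ = (c : ℂ) • x := hx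
    show ⁅G.rho, ⁅G.E hA, x⁆⁆ = ((c + 1 : ℤ) : ℂ) • ⁅G.E hA, x⁆
    rw [leibniz_lie, G.rho_E hA, hx', lie_smul]
    push_cast
    rw [add_smul, one_smul, add_comm]
  have hF : ∀ c, ∀ x ∈ G.wt c, LieAlgebra.ad ℂ g G.F x ∈ G.wt (c - 1) := by
    intro c x hx
    have hx' : ⁅G.rho, x⁆ = (c : ℂ) • x := hx
    show ⁅G.rho, ⁅G.F, x⁆⁆ = ((c - 1 : ℤ) : ℂ) • ⁅G.F, x⁆
    rw [leibniz_lie, G.rho_F hA, hx', lie_smul, smul_lie]
    push_cast
    rw [sub_smul, one_smul, neg_one_smul]
    abel
  have hH : ∀ c, ∀ x ∈ G.wt c,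
      LieAlgebra.ad ℂ g (G.E hA) (LieAlgebra.ad ℂ g G.F x) -
        LieAlgebra.ad ℂ g G.F (LieAlgebra.ad ℂ g (G.E hA) x) = (2 * (c : ℂ)) • x := by
    intro c x hx
    have hx' : ⁅G.rho, x⁆ = (c : ℂ) • x := hx
    show ⁅G.E hA, ⁅G.F, x⁆⁆ - ⁅G.F, ⁅G.E hA, x⁆⁆ = (2 * (c : ℂ)) • x
    rw [leibniz_lie, G.E_F hA, add_sub_cancel_right, smul_lie, hx', smul_smul]
  have hbdd : ∀ c < -(∑ b : Rt A, (htR b : ℤ)), G.wt c = ⊥ := by
    intro c hc
    rw [Submodule.eq_bot_iff]
    intro x hx
    have hx' : ⁅G.rho, x⁆ = (c : ℂ) • x := hx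
    have hs : (0 : ℤ) ≤ ∑ b : Rt A, (htR b : ℤ) := Finset.sum_nonneg fun b _ => by positivity
    refine G.zero_of hA (fun d => ?_) (fun i => ?_) (fun d => ?_)
    · refine G.pair hx' (G.rho_f hA d) ?_
      have h2 : c - (htR d : ℤ) ≠ 0 := by omega
      rw [← sub_eq_add_neg]
      exact_mod_cast h2
    · refine G.pair hx' (G.rho_H _) ?_
      rw [add_zero]
      have h2 : c ≠ 0 := by omega
      exact_mod_cast h2
    · refine G.pair hx' (G.rho_e hA d) ?_
      have h1 : (htR d : ℤ) ≤ ∑ b : Rt A, (htR b : ℤ) :=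
        Finset.single_le_sum (f := fun b : Rt A => (htR b : ℤ)) (fun b _ => by positivity)
          (Finset.mem_univ d)
      have h2 : c + (htR d : ℤ) ≠ 0 := by omega
      exact_mod_cast h2
  have hfb : G.f b ∈ G.wt (-(htR b : ℤ)) := by
    show ⁅G.rho, G.f b⁆ = ((-(htR b : ℤ) : ℤ) : ℂ) • G.f b
    rw [G.rho_f hA]
    push_cast
    rfl
  have hb := ht_pos' hA b
  obtain ⟨y, hy, hFy⟩ := kg_sl2 _ _ G.wt hE hF hH _ hbdd (-(htR b : ℤ)) (by omega)
    _ hfb
  have hy' : ⁅G.rho, y⁆ = ((-(htR b : ℤ) + 1 : ℤ) : ℂ) • y := hy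
  refine ⟨y, fun c => ?_, hFy⟩
  refine G.pair hy' (G.rho_f hA c) ?_
  have hc := ht_pos' hA c
  have h2 : -(htR b : ℤ) + 1 - (htR c : ℤ) ≠ 0 := by omega
  rw [← sub_eq_add_neg]
  exact_mod_cast h2

theorem f_ne (b : Rt A) : G.f b ≠ 0 := by
  intro h
  have h1 := G.ef b b
  rw [h, map_zero, if_pos rfl] at h1
  exact zero_ne_one h1

/-- `[e_j, f_γ] = 0` if `(α_j, γ) = -1`. -/
theorem e_f_zero (γ : Rt A) (j : ι) (h : bl A γ.1 (rt j) = -1) :
    ⁅G.e (sr hA j), G.f γ⁆ = 0 := by
  have hne : sr hA j ≠ γ := by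
    intro h1
    have h2 := (rt_pos hA (sr hA j)).2
    have h3 : bl A (rt j) (rt j) = 2 := h2
    rw [← h1] at h
    have h4 : bl A (rt j) (rt j) = -1 := h
    omega
  refine G.zero_of hA (fun d => ?_) (fun i => ?_) (fun d => ?_)
  · refine G.pair (lie_wt (G.rho_e hA _) (G.rho_f hA γ)) (G.rho_f hA d) ?_
    rw [htR_sr hA]
    have h1 := ht_pos' hA γ
    have h2 := ht_pos' hA d
    have h3 : (1 : ℤ) - (htR γ : ℤ) - (htR d : ℤ) ≠ 0 := by omega
    intro h4
    apply h3
    have h5 : ((1 - (htR γ : ℤ) - (htR d : ℤ) : ℤ) : ℂ) = 0 := by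
      push_cast
      push_cast at h4
      linear_combination h4
    exact_mod_cast h5
  · rw [G.inv, ← lie_skew, G.h'_f hA, ← neg_smul, neg_neg, map_smul, G.ef, if_neg hne,
      smul_zero]
  · by_contra h0
    have h1 : ∀ i, (rt j i : ℤ) - γ.1 i + d.1 i = 0 := by
      intro i
      by_contra h2
      apply h0
      refine G.pair_z (lie_wt (G.h'_e hA i _) (G.h'_f hA i γ)) (G.h'_e hA i d) ?_
      intro h3
      apply h2
      have h5 : (((rt j i : ℤ) - γ.1 i + d.1 i : ℤ) : ℂ) = 0 := by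
        push_cast
        have h6 : (sr hA j).1 i = rt j i := rfl
        rw [h6] at h3
        linear_combination h3
      exact_mod_cast h5
    have h2 : d.1 = γ.1 - rt j := by
      funext i
      have := h1 i
      rw [Pi.sub_apply]
      omega
    have h3 := (rt_pos hA d).2
    have h4 := (rt_pos hA γ).2
    have h5 : bl A (rt j) (rt j) = 2 := (rt_pos hA (sr hA j)).2
    rw [h2] at h3
    have h6 : bl A (γ.1 - rt j) (γ.1 - rt j) =
        bl A γ.1 γ.1 - 2 * bl A γ.1 (rt j) + bl A (rt j) (rt j) := by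
      have hs : bl A (rt j) γ.1 = bl A γ.1 (rt j) := by
        unfold bl
        rw [Finset.sum_comm]
        refine Finset.sum_congr rfl fun a _ => Finset.sum_congr rfl fun b _ => ?_
        rw [hA.symm]
        ring
      have : bl A (γ.1 - rt j) (γ.1 - rt j) =
          bl A γ.1 γ.1 - bl A γ.1 (rt j) - bl A (rt j) γ.1 + bl A (rt j) (rt j) := by
        unfold bl
        simp only [Pi.sub_apply, ← Finset.sum_sub_distrib, ← Finset.sum_add_distrib]
        refine Finset.sum_congr rfl fun a _ => Finset.sum_congr rfl fun b _ => ?_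
        ring
      rw [this, hs]
      ring
    rw [h6, h4, h5, h] at h3
    omega

/-- `n₋` is generated by the simple root vectors. -/
theorem gen (S : Submodule ℂ g) (h1 : ∀ b : Rt A, htR b = 1 → G.f b ∈ S)
    (h2 : ∀ x ∈ S, ∀ y ∈ S, ⁅x, y⁆ ∈ S) (b : Rt A) : G.f b ∈ S := by
  have K3 := kg_K3 hA
  induction hn : htR b using Nat.strong_induction_on generalizing b with
  | _ n ih =>
    rcases K3.step b.1 b.2 with ⟨j, hj⟩ | ⟨j, hj, hbl⟩
    · apply h1
      unfold htR
      rw [hj, ht_rt]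
      rfl
    · have hb : 1 ≤ ht b.1 := K3.ht_pos b.1 b.2
      have hg : 1 ≤ ht (b.1 - rt j) := K3.ht_pos _ hj
      have hsub : ht (b.1 - rt j) = ht b.1 - 1 := by
        rw [← ht_rt j]
        unfold ht
        rw [← Finset.sum_sub_distrib]
        rfl
      let b' : Rt A := ⟨b.1 - rt j, hj⟩
      have hlt : htR b' < n := by
        rw [← hn]
        unfold htR
        change (ht (b.1 - rt j)).toNat < (ht b.1).toNat
        omega
      have hS1 := ih _ hlt b' rfl
      have hS2 : G.f (sr hA j) ∈ S := h1 _ (htR_sr hA j)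
      have hS := h2 _ hS1 _ hS2
      set x := ⁅G.f b', G.f (sr hA j)⁆ with hx
      -- `x = c f_b`
      have hw : ∀ i, ⁅G.h' i, x⁆ = (-(b.1 i : ℂ)) • x := by
        intro i
        rw [hx, lie_wt (G.h'_f hA i b') (G.h'_f hA i (sr hA j))]
        congr 1
        show -((b.1 - rt j : ι → ℤ) i : ℂ) + -((rt j i : ℤ) : ℂ) = _
        rw [Pi.sub_apply]
        push_cast
        ring
      have hr : ⁅G.rho, x⁆ = (-(htR b' : ℂ) + -(htR (sr hA j) : ℂ)) • x :=
        lie_wt (G.rho_f hA b') (G.rho_f hA (sr hA j))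
      have hr' : (-(htR b' : ℂ) + -(htR (sr hA j) : ℂ)) = (-(htR b' + 1 : ℕ) : ℂ) := by
        rw [htR_sr hA]
        push_cast
        ring
      have key : x = G.form x (G.e b) • G.f b := by
        rw [← sub_eq_zero]
        refine G.zero_of hA (fun d => ?_) (fun i => ?_) (fun d => ?_)
        · rw [map_sub, LinearMap.sub_apply, map_smul, LinearMap.smul_apply, G.ff hA, smul_zero,
            sub_zero]
          refine G.pair hr (G.rho_f hA d) ?_
          rw [hr']
          intro h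
          have h3 : ((htR b' + 1 + htR d : ℕ) : ℂ) = 0 := by
            push_cast
            push_cast at h
            linear_combination -h
          have h4 : htR b' + 1 + htR d = 0 := by exact_mod_cast h3
          omega
        · rw [map_sub, LinearMap.sub_apply, map_smul, LinearMap.smul_apply, h', G.fH hA,
            smul_zero, sub_zero]
          refine G.pair hr (G.rho_H _) ?_
          rw [hr', add_zero]
          intro h
          have h3 : ((htR b' + 1 : ℕ) : ℂ) = 0 := by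
            push_cast
            push_cast at h
            linear_combination -h
          have h4 : htR b' + 1 = 0 := by exact_mod_cast h3
          omega
        · rw [map_sub, LinearMap.sub_apply, map_smul, LinearMap.smul_apply, G.symm (G.f b),
            G.ef, smul_eq_mul]
          by_cases hd : d = b
          · subst hd
            rw [if_pos rfl, mul_one, sub_self]
          · rw [if_neg hd, mul_zero, sub_zero]
            have h3 : ∃ i, d.1 i ≠ b.1 i := by
              by_contra h4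
              push Not at h4
              exact hd (Subtype.ext (funext h4))
            obtain ⟨i, hi⟩ := h3
            refine G.pair_z (hw i) (G.h'_e hA i d) ?_
            intro h
            apply hi
            have h5 : ((d.1 i : ℤ) : ℂ) = ((b.1 i : ℤ) : ℂ) := by linear_combination h
            exact_mod_cast h5
      have hc : G.form x (G.e b) ≠ 0 := by
        intro h0
        rw [h0, zero_smul] at key
        have h3 : ⁅G.e (sr hA j), x⁆ = -G.f b' := by
          rw [hx, leibniz_lie, G.e_f_zero hA b' j hbl, zero_lie, zero_add,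
            G.e_f hA _ _ rfl, if_pos rfl]
          show ⁅G.f b', G.H (toC (rt j))⁆ = _
          rw [toC_rt, H_bb, ← lie_skew, G.h_f, ← neg_smul, neg_neg]
          have h4 : (∑ k, A j k * b'.1 k : ℤ) = -1 := by
            rw [← hbl]
            unfold bl
            have h5 : ∀ a, ∑ k, (b.1 - rt j) a * A a k * rt j k =
                (b.1 - rt j) a * A a j := by
              intro a
              rw [Finset.sum_eq_single j]
              · unfold rt
                rw [Pi.single_eq_same, mul_one]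
              · intro k _ hk
                unfold rt
                rw [Pi.single_eq_of_ne hk, mul_zero]
              · intro h
                exact absurd (Finset.mem_univ j) h
            rw [Finset.sum_congr rfl fun a _ => h5 a]
            refine Finset.sum_congr rfl fun a _ => ?_
            rw [hA.symm j a]
            show A a j * (b.1 - rt j) a = _
            ring
          rw [h4]
          push_cast
          rw [neg_smul, one_smul]
        rw [key, lie_zero] at h3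
        exact G.f_ne hA b' (neg_eq_zero.1 h3.symm)
      rw [key] at hS
      exact (Submodule.smul_mem_iff S hc).1 hS

/-- The Lie data. -/
def toLD : LD g (Rt A) ι where
  form := G.form
  e := G.e
  f := G.f
  h := G.h
  h' := G.h'
  rho := G.rho
  F := G.F
  ht := htR
  symm := G.symm
  inv := G.inv
  ef := G.ef
  ee := G.ee hA
  ff := G.ff hA
  eh b i := by
    rw [← H_bb]
    exact G.eH hA b _
  fh b i := by
    rw [← H_bb]
    exact G.fH hA b _
  hh' := G.hh' hA
  h'_mem i := G.H_mem _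
  decomp := G.decomp hA
  comm_h := G.h_h
  rho_mem := G.H_mem _
  ht_pos := ht_pos' hA
  rho_e := G.rho_e hA
  rho_f := G.rho_f hA
  rho_F := G.rho_F hA
  surj := G.surj hA
  gen_f := G.gen hA

/-- The Cartan data. -/
theorem carF {p : ℕ} (hp : 1 ≤ p) : (G.toLD hA).CarF A p (sr hA) where
  ade := hA
  hp := hp
  hh := G.hh
  hr i := G.form_H_h' hA (WPQ.rho A) i
  simp j := by
    refine ⟨htR_sr hA j, fun i => ?_, fun i => ?_⟩
    · refine (G.h_e i (sr hA j)).trans ?_
      congr 1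
      have h : (∑ k, A i k * (sr hA j).1 k : ℤ) = A i j := by
        show (∑ k, A i k * (rt j : ι → ℤ) k : ℤ) = A i j
        rw [Finset.sum_eq_single j]
        · unfold rt
          rw [Pi.single_eq_same, mul_one]
        · intro k _ hk
          unfold rt
          rw [Pi.single_eq_of_ne hk, mul_zero]
        · intro h
          exact absurd (Finset.mem_univ j) h
      rw [h]
    · refine (G.h_f i (sr hA j)).trans ?_
      congr 2
      have h : (∑ k, A i k * (sr hA j).1 k : ℤ) = A i j := by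
        show (∑ k, A i k * (rt j : ι → ℤ) k : ℤ) = A i j
        rw [Finset.sum_eq_single j]
        · unfold rt
          rw [Pi.single_eq_same, mul_one]
        · intro k _ hk
          unfold rt
          rw [Pi.single_eq_of_ne hk, mul_zero]
        · intro h
          exact absurd (Finset.mem_univ j) h
      rw [h]
  inj := sr_inj hA
  F_eq := G.F_eq hA

theorem card_Rt : Fintype.card (Rt A) = (posRoots A).card := Fintype.card_coe _

end ade

end Chevalley

end

end WPE
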