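import Pool.Agent.WPE.KPC
import Pool.Agent.WPE.KPI
import Pool.Agent.WPE.MZJ

/-! WPE, block MZ: `b₋`, the action of the currents on `M(1)`, the dual Coxeter number. -/

set_option linter.unusedSectionVars false

namespace WPE

open WPQ MvPolynomial

noncomputable section

namespace MZH

variable {ι : Type} [Fintype ι] [DecidableEq ι] {A : Matrix ι ι ℤ}
variable {g : Type} [LieRing g] [LieAlgebra ℂ g] (hA : IsADE A) (G : Chevalley A g)

theorem bm_eq : G.bm = (G.toLD hA).bm := Submodule.span_union _ _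

theorem Pb_bm (a : g) (ha : a ∈ G.bm) : (G.toLD hA).Pb a = a := by
  rw [bm_eq hA G] at ha
  exact (la_P (G.toLD hA)).Pb_bm a ha

theorem Pb_e (γ : Rt A) : (G.toLD hA).Pb (G.e γ) = 0 :=
  (la_P (G.toLD hA)).Pb_np _ (Submodule.subset_span ⟨γ, rfl⟩)

theorem pib_mk (a : g) (ha : a ∈ G.bm) (ha' : a ∈ (G.toLD hA).bL) :
    (G.toLD hA).pib a = ⟨a, ha'⟩ := Subtype.ext (Pb_bm hA G a ha)

theorem bL_mem (a : g) (ha : a ∈ G.bm) : a ∈ (G.toLD hA).bL := by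
  rw [bm_eq hA G] at ha
  exact ha

theorem mem_bm (a : (G.toLD hA).bL) : (a : g) ∈ G.bm := by
  rw [bm_eq hA G]
  exact a.2

theorem pib_coe (a : (G.toLD hA).bL) : (G.toLD hA).pib (a : g) = a :=
  pib_mk hA G a (mem_bm hA G a) a.2

theorem pib_e (γ : Rt A) : (G.toLD hA).pib (G.e γ) = 0 := Subtype.ext (Pb_e hA G γ)

end MZH

variable {ι : Type} [Fintype ι] [DecidableEq ι] {A : Matrix ι ι ℤ} {p : ℕ}
variable {g : Type} [LieRing g] [LieAlgebra ℂ g]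

namespace MZL

/-- The action of the currents on `M(1)`. -/
def JM (hA : IsADE A) (hp : 1 ≤ p) (G : Chevalley A g) (m : ℤ) : g →ₗ[ℂ] Fock ι →ₗ[ℂ] Fock ι :=
  ((G.toLD hA).fockBp A hA.symm p (G.carF hA hp).hh).J m ∘ₗ (G.toLD hA).pib

variable (hA : IsADE A) (hp : 1 ≤ p) (G : Chevalley A g)

theorem JM_apply (m : ℤ) (a : g) : JM hA hp G m a =
    heis A p ((G.toLD hA).cfp ((G.toLD hA).pib a)) m 0 := rfl

theorem JM_coe (m : ℤ) (a : (G.toLD hA).bL) : JM hA hp G m (a : g) =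
    heis A p ((G.toLD hA).cfp a) m 0 := by
  rw [JM_apply, MZH.pib_coe]

theorem JM_e (m : ℤ) (γ) : JM hA hp G m (G.e γ) = 0 := by
  show ((G.toLD hA).fockBp A hA.symm p (G.carF hA hp).hh).J m ((G.toLD hA).pib (G.e γ)) = 0
  rw [MZH.pib_e, map_zero]

theorem JM_h (m : ℤ) (i : ι) : JM hA hp G m (G.h i) = heis A p (Pi.single i 1) m 0 := by
  have h : JM hA hp G m (G.h i) = heis A p ((G.toLD hA).cfp ((G.toLD hA).hB i)) m 0 :=
    JM_coe hA hp G m ((G.toLD hA).hB i)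
  rw [h, KPC.cfp_hB]

theorem JM_f (m : ℤ) (γ) : JM hA hp G m (G.f γ) = 0 := by
  have h : JM hA hp G m (G.f γ) = heis A p ((G.toLD hA).cfp ((G.toLD hA).fB γ)) m 0 :=
    JM_coe hA hp G m ((G.toLD hA).fB γ)
  rw [h, (G.toLD hA).cfp_nm ((G.toLD hA).fB γ) ((G.toLD hA).f_mem_nm γ)]
  have := mi_heis_smul A p 0 (0 : ι → ℂ) m 0
  rwa [zero_smul, zero_smul] at this

end MZL

/-- The dual Coxeter number. -/
theorem exists_hv (hA : IsADE A) (hc : Conn A) : ∃ hv : ℂ, ∀ (g : Type) [LieRing g]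
    [LieAlgebra ℂ g] (G : Chevalley A g) (x y : g), killingForm ℂ g x y = 2 * hv * G.form x y := by
  obtain ⟨c, hcox⟩ := exists_cox hA hc
  refine ⟨(c : ℂ) / 2, fun g _ _ G x y => ?_⟩
  have h1 := (G.toLD hA).trf_of_weights
    (fun γ i => ((∑ j, A i j * γ.1 j : ℤ) : ℂ)) (fun γ i => G.h_e i γ) ((c : ℂ) / 2) ?_ x y
  · rw [(G.toLD hA).killing_eq, h1]
    rfl
  · intro i j
    show _ = _ * G.form (G.h i) (G.h j)
    rw [G.hh]
    have h2 := hcox i j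
    have h3 : ∑ γ : Rt A, ((∑ k, A i k * γ.1 k : ℤ) : ℂ) * ((∑ k, A j k * γ.1 k : ℤ) : ℂ) =
        ((∑ γ ∈ posRoots A, WPQ.pr A i γ * WPQ.pr A j γ : ℤ) : ℂ) := by
      push_cast
      rw [← Finset.sum_coe_sort (posRoots A)]
      refine Finset.sum_congr rfl fun γ _ => ?_
      unfold WPQ.pr
      push_cast
      rfl
    rw [h3]
    have h4 : (2 : ℂ) * ((∑ γ ∈ posRoots A, WPQ.pr A i γ * WPQ.pr A j γ : ℤ) : ℂ) =
        (c : ℂ) * (A i j : ℂ) := by exact_mod_cast h2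
    linear_combination (1 / 2 : ℂ) * h4

end

end WPE
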