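import Pool.Agent.WPE.MZK
import Pool.Agent.WPE.MZP
import Pool.Agent.WPE.RDC

/-! WPE, block MZ: transfer from the definitions of `MZF` to those of `RDC`. -/

namespace WPE.RD

open WPQ MvPolynomial

noncomputable section

variable {ι : Type} [Fintype ι] [DecidableEq ι] {A : Matrix ι ι ℤ}

/-- The positive roots. -/
def sg (hA : IsADE A) : Rt A ≃ PosRoots A where
  toFun γ := ⟨γ.1, ((HA8 ι).mem A hA γ.1).1 γ.2⟩
  invFun γ := ⟨γ.1, ((HA8 ι).mem A hA γ.1).2 γ.2⟩
  left_inv _ := rfl
  right_inv _ := rfl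

theorem fsum (hA : IsADE A) {M : Type*} [AddCommMonoid M] (F : PosRoots A → M) :
    ∑ᶠ γ, F γ = ∑ γ : Rt A, F (sg hA γ) := by
  rw [← finsum_comp_equiv (sg hA), finsum_eq_sum_of_fintype]

variable {g : Type} [LieRing g] [LieAlgebra ℂ g]

omit [LieRing g] [LieAlgebra ℂ g] in
theorem range_sg (hA : IsADE A) (F : PosRoots A → g) :
    Set.range (fun γ : Rt A => F (sg hA γ)) = Set.range F :=
  (sg hA).surjective.range_comp F

/-- The same data, for the definitions of `MZF`. -/
def Chevalley.old (hA : IsADE A) (G : Chevalley A g) : WPE.Chevalley A g where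
  form := G.form
  h := G.h
  e γ := G.e (sg hA γ)
  f γ := G.f (sg hA γ)
  symm := G.symm
  inv := G.inv
  span := by
    rw [range_sg hA, range_sg hA]
    exact G.span
  h_h := G.h_h
  h_e i γ := G.h_e i (sg hA γ)
  h_f i γ := G.h_f i (sg hA γ)
  hh := G.hh
  ef γ δ := by
    rw [G.ef]
    by_cases h : γ = δ
    · rw [if_pos h, if_pos (congrArg _ h)]
    · rw [if_neg h, if_neg fun h' => h ((sg hA).injective h')]

/-- The converse. -/
def Chevalley.new (hA : IsADE A) (G : WPE.Chevalley A g) : Chevalley A g where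
  form := G.form
  h := G.h
  e γ := G.e ((sg hA).symm γ)
  f γ := G.f ((sg hA).symm γ)
  symm := G.symm
  inv := G.inv
  span := by
    have h1 : ∀ F : Rt A → g, Set.range (fun γ => F ((sg hA).symm γ)) = Set.range F := fun F =>
      (sg hA).symm.surjective.range_comp F
    rw [h1, h1]
    exact G.span
  h_h := G.h_h
  h_e i γ := G.h_e i ((sg hA).symm γ)
  h_f i γ := G.h_f i ((sg hA).symm γ)
  hh := G.hh
  ef γ δ := by
    rw [G.ef]
    by_cases h : γ = δ
    · rw [if_pos h, if_pos (congrArg _ h)]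
    · rw [if_neg h, if_neg fun h' => h ((sg hA).symm.injective h')]

variable (hA : IsADE A) (G : Chevalley A g)

theorem old_bm : (G.old hA).bm = G.bm := by
  show Submodule.span ℂ (Set.range G.h ∪ Set.range fun γ : Rt A => G.f (sg hA γ)) = _
  rw [range_sg hA]
  rfl

theorem old_F : (G.old hA).F = G.F := by
  unfold WPE.Chevalley.F Chevalley.F
  rw [fsum hA]
  rfl

theorem forall_sg {P : PosRoots A → Prop} : (∀ γ, P γ) ↔ ∀ γ : Rt A, P (sg hA γ) :=
  ⟨fun h γ => h _, fun h γ => by
    have := h ((sg hA).symm γ)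
    rwa [Equiv.apply_symm_apply] at this⟩

include hA

/-- The simple Lie algebra exists. -/
theorem chevalley_exists : ∃ (g : Type) (_ : LieRing g) (_ : LieAlgebra ℂ g),
    Nonempty (Chevalley A g) := by
  obtain ⟨g, i1, i2, ⟨G⟩⟩ := WPE.chevalley_exists hA
  exact ⟨g, i1, i2, ⟨Chevalley.new hA G⟩⟩

/-- The dual Coxeter number. -/
theorem exists_hv (hc : Conn A) : ∃ hv : ℂ, ∀ (g : Type) [LieRing g] [LieAlgebra ℂ g]
    (G : Chevalley A g) (x y : g), killingForm ℂ g x y = 2 * hv * G.form x y := by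
  obtain ⟨hv, h⟩ := WPE.exists_hv hA hc
  exact ⟨hv, fun g _ _ G x y => h g (G.old hA) x y⟩

end

end WPE.RD
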