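import Pool.Agent.WPE.RDC

/-!
# The BRST complex of the principal `W`-algebra: definitions for the reader

`Chevalley A g` (`RDC.lean`) is the simple Lie algebra `g` of type `A`, `D`, `E` with its root vectors
`e_γ`, `f_γ` and its normalised form.  All fields are written `a(z) = ∑ a(n) z^(-n-1)`.

`Brst G k C`: `C` is the complex of the quantum Drinfeld-Sokolov reduction of the affine Lie algebra
of `g` of level `k` for the principal nilpotent element `F` (Feigin and Frenkel; Kac, Roan and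
Wakimoto): `C = V^k(g) ⊗ Λ`, with the currents `J_x(n)`, `x ∈ g`, and the charged fermions
`b_γ(n)`, `c_γ(n)` (`γ` a positive root; `b_γ` corresponds to `e_γ ∈ n₊`, `c_γ` to the dual element of
`(n₊)^*`), and with the differential
`Q = ∑_γ ∑_m J_{e_γ}(-1-m) c_γ(m) - ½ ∑_{γ,δ,ν} ([e_γ, e_δ], f_ν) ∑_{m,n} b_ν(-2-m-n) c_γ(m) c_δ(n)
  + ∑_γ (F, e_γ) c_γ(0)`.
-/

namespace WPE.RD

open WPQ MvPolynomial

noncomputable section

variable {ι : Type} [Fintype ι] [DecidableEq ι] {A : Matrix ι ι ℤ}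
variable {g : Type} [LieRing g] [LieAlgebra ℂ g]

/-- Currents of `g` of level `k` and charged fermions acting on `C`, with a vacuum vector. -/
structure BrstFields (G : Chevalley A g) (k : ℂ) (C : Type) [AddCommGroup C] [Module ℂ C] where
  vac : C
  J : ℤ → g →ₗ[ℂ] C →ₗ[ℂ] C
  b : ℤ → PosRoots A → C →ₗ[ℂ] C
  c : ℤ → PosRoots A → C →ₗ[ℂ] C
  J_J : ∀ m n x y v, J m x (J n y v) - J n y (J m x v) =
    J (m + n) ⁅x, y⁆ v + (if m + n = 0 then (m : ℂ) * (k * G.form x y) else 0) • v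
  b_b : ∀ m n γ δ v, b m γ (b n δ v) + b n δ (b m γ v) = 0
  c_c : ∀ m n γ δ v, c m γ (c n δ v) + c n δ (c m γ v) = 0
  b_c : ∀ m n γ δ v, b m γ (c n δ v) + c n δ (b m γ v) =
    if γ = δ ∧ m + n + 1 = 0 then v else 0
  J_b : ∀ m n x γ v, J m x (b n γ v) = b n γ (J m x v)
  J_c : ∀ m n x γ v, J m x (c n γ v) = c n γ (J m x v)
  J_vac : ∀ m x, 0 ≤ m → J m x vac = 0
  b_vac : ∀ m γ, 0 ≤ m → b m γ vac = 0
  c_vac : ∀ m γ, 0 ≤ m → c m γ vac = 0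

/-- Homomorphisms. -/
structure BrstFields.Hom {G : Chevalley A g} {k : ℂ} {C : Type} [AddCommGroup C] [Module ℂ C]
    {E : Type} [AddCommGroup E] [Module ℂ E] (X : BrstFields G k C) (Y : BrstFields G k E)
    (φ : C →ₗ[ℂ] E) : Prop where
  vac : φ X.vac = Y.vac
  J : ∀ m x v, φ (X.J m x v) = Y.J m x (φ v)
  b : ∀ m γ v, φ (X.b m γ v) = Y.b m γ (φ v)
  c : ∀ m γ v, φ (X.c m γ v) = Y.c m γ (φ v)

/-- The complex of level `k`: `C = V^k(g) ⊗ Λ` (`univ`: it is generated by the vacuum with the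
relations of `BrstFields` as defining relations), the differential `Q`, and the currents
`Ĵ_a(m) = J_a(m) + ∑_{γ,δ} ([a, e_δ], f_γ) ∑_r :b_γ(m-1-r) c_δ(r):`.  The sums are finite on every
vector; `Q_eq` and `Jh_eq` determine `Q` and `Jh`. -/
structure Brst (G : Chevalley A g) (k : ℂ) (C : Type) [AddCommGroup C] [Module ℂ C] extends
    BrstFields G k C where
  univ : ∀ (E : Type) [AddCommGroup E] [Module ℂ E] (Y : BrstFields G k E),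
    ∃! φ : C →ₗ[ℂ] E, toBrstFields.Hom Y φ
  Q : C →ₗ[ℂ] C
  Q_eq : ∀ v, ∃ M0 : ℤ, ∀ M ≥ M0, Q v =
    ∑ᶠ γ, ∑ m ∈ Finset.Ico (-M) M, J (-1 - m) (G.e γ) (c m γ v) -
      (1 / 2 : ℂ) • ∑ᶠ γ, ∑ᶠ δ, ∑ᶠ ν, ∑ m ∈ Finset.Ico (-M) M, ∑ n ∈ Finset.Ico (-M) M,
        G.form ⁅G.e γ, G.e δ⁆ (G.f ν) • b (-2 - m - n) ν (c m γ (c n δ v)) +
      ∑ᶠ γ, G.form G.F (G.e γ) • c 0 γ v
  Jh : ℤ → g →ₗ[ℂ] C →ₗ[ℂ] C
  Jh_eq : ∀ m a v, ∃ M0 : ℤ, ∀ M ≥ M0, Jh m a v = J m a v +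
    ∑ᶠ γ, ∑ᶠ δ, G.form ⁅a, G.e δ⁆ (G.f γ) • (∑ r ∈ Finset.Ico 0 M, b (m - 1 - r) γ (c r δ v) -
      ∑ r ∈ Finset.Ico (-M) 0, c r δ (b (m - 1 - r) γ v))

namespace Brst

variable {G : Chevalley A g} {k : ℂ} {C : Type} [AddCommGroup C] [Module ℂ C] (X : Brst G k C)

/-- The grading of `C` by ghost number: `Ghost q v` means `v ∈ C^q`. -/
inductive Ghost : ℤ → C → Prop
  | vac : Ghost 0 X.vac
  | J {q : ℤ} {v : C} (m : ℤ) (x : g) : Ghost q v → Ghost q (X.J m x v)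
  | b {q : ℤ} {v : C} (m : ℤ) (γ : PosRoots A) : Ghost q v → Ghost (q - 1) (X.b m γ v)
  | c {q : ℤ} {v : C} (m : ℤ) (γ : PosRoots A) : Ghost q v → Ghost (q + 1) (X.c m γ v)
  | zero (q : ℤ) : Ghost q 0
  | add {q : ℤ} {v w : C} : Ghost q v → Ghost q w → Ghost q (v + w)
  | smul {q : ℤ} {v : C} (r : ℂ) : Ghost q v → Ghost q (r • v)

/-- The subspace generated from the vacuum by the currents `Ĵ_a(m)`, `a ∈ b₋`. -/
def V : Submodule ℂ C :=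
  sInf {W | X.vac ∈ W ∧ ∀ m, ∀ a ∈ G.bm, ∀ v ∈ W, X.Jh m a v ∈ W}

/-- `Φ : C → M(1)` is a Miura map (`k + h^∨ = p`): it kills `Q C^{-1}`, and on `V` it is the free
field realisation: `Φ 1 = 1`, `Ĵ_{h_i}(m)` acts as `√p α_i(m)` and `Ĵ_f(m)` as `0`, `f ∈ n₋`. -/
structure IsMiura (p : ℕ) (Φ : C →ₗ[ℂ] Fock ι) : Prop where
  Q : ∀ y, X.Ghost (-1) y → Φ (X.Q y) = 0
  vac : Φ X.vac = 1
  f : ∀ m γ, ∀ v ∈ X.V, Φ (X.Jh m (G.f γ) v) = 0
  h : ∀ m i, ∀ v ∈ X.V, Φ (X.Jh m (G.h i) v) = heis A p (Pi.single i 1) m 0 (Φ v)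

end Brst

end

end WPE.RD
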