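import Pool.Agent.WPE.FBY
import Pool.Agent.WPE.MZQ
import Pool.Agent.WPE.RDB

/-! WPE, block FB: the theorem of `FBY` for the definitions of `RDB`. -/

set_option linter.unusedSectionVars false

namespace WPE.RD

open WPQ MvPolynomial

noncomputable section

variable {ι : Type} [Fintype ι] [DecidableEq ι] {A : Matrix ι ι ℤ}
variable {g : Type} [LieRing g] [LieAlgebra ℂ g]
variable (hA : IsADE A) {G : Chevalley A g} {k : ℂ}
variable {C : Type} [AddCommGroup C] [Module ℂ C] {E : Type} [AddCommGroup E] [Module ℂ E]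

/-- The same fields, for the definitions of `FBR`. -/
def BrstFields.old (X : BrstFields G k C) : WPE.BrstFields (G.old hA) k C where
  vac := X.vac
  J := X.J
  b m γ := X.b m (sg hA γ)
  c m γ := X.c m (sg hA γ)
  J_J := X.J_J
  b_b m n γ δ v := X.b_b m n _ _ v
  c_c m n γ δ v := X.c_c m n _ _ v
  b_c m n γ δ v := by
    rw [X.b_c m n _ _ v]
    by_cases h : γ = δ
    · rw [h]
      simp only [true_and]
    · rw [if_neg fun h' => h ((sg hA).injective h'.1), if_neg fun h' => h h'.1]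
  J_b m n x γ v := X.J_b m n x _ v
  J_c m n x γ v := X.J_c m n x _ v
  J_vac := X.J_vac
  b_vac m γ h := X.b_vac m _ h
  c_vac m γ h := X.c_vac m _ h

/-- The converse. -/
def BrstFields.new (X : WPE.BrstFields (G.old hA) k C) : BrstFields G k C where
  vac := X.vac
  J := X.J
  b m γ := X.b m ((sg hA).symm γ)
  c m γ := X.c m ((sg hA).symm γ)
  J_J := X.J_J
  b_b m n γ δ v := X.b_b m n _ _ v
  c_c m n γ δ v := X.c_c m n _ _ v
  b_c m n γ δ v := by
    rw [X.b_c m n _ _ v]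
    by_cases h : γ = δ
    · rw [h]
      simp only [true_and]
    · rw [if_neg fun h' => h ((sg hA).symm.injective h'.1), if_neg fun h' => h h'.1]
  J_b m n x γ v := X.J_b m n x _ v
  J_c m n x γ v := X.J_c m n x _ v
  J_vac := X.J_vac
  b_vac m γ h := X.b_vac m _ h
  c_vac m γ h := X.c_vac m _ h

theorem BrstFields.hom_old (X : BrstFields G k C) (Y : BrstFields G k E) (φ : C →ₗ[ℂ] E) :
    (X.old hA).Hom (Y.old hA) φ ↔ X.Hom Y φ :=
  ⟨fun h => ⟨h.vac, h.J,
    fun m => (forall_sg hA (P := fun γ => ∀ v, φ (X.b m γ v) = Y.b m γ (φ v))).2 fun γ v => h.b m γ v,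
    fun m => (forall_sg hA (P := fun γ => ∀ v, φ (X.c m γ v) = Y.c m γ (φ v))).2 fun γ v =>
      h.c m γ v⟩,
  fun h => ⟨h.vac, h.J, fun m _ v => h.b m _ v, fun m _ v => h.c m _ v⟩⟩

theorem BrstFields.old_new (X : WPE.BrstFields (G.old hA) k C) :
    (BrstFields.new hA X).old hA = X := by
  unfold BrstFields.new BrstFields.old
  simp only [Equiv.symm_apply_apply]

theorem BrstFields.new_old (X : BrstFields G k C) : BrstFields.new hA (X.old hA) = X := by
  unfold BrstFields.new BrstFields.old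
  simp only [Equiv.apply_symm_apply]

/-- The same complex, for the definitions of `FBR`. -/
def Brst.old (X : Brst G k C) : WPE.Brst (G.old hA) k C where
  toBrstFields := X.toBrstFields.old hA
  univ E _ _ Y := by
    obtain ⟨φ, h, hu⟩ := X.univ E (BrstFields.new hA Y)
    have key : ∀ ψ : C →ₗ[ℂ] E, (X.toBrstFields.old hA).Hom Y ψ ↔
        X.toBrstFields.Hom (BrstFields.new hA Y) ψ := fun ψ => by
      rw [← BrstFields.hom_old hA, BrstFields.old_new]
    exact ⟨φ, (key φ).2 h, fun ψ h' => hu ψ ((key ψ).1 h')⟩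
  Q := X.Q
  Q_eq v := by
    obtain ⟨M0, h⟩ := X.Q_eq v
    refine ⟨M0, fun M hM => ?_⟩
    rw [h M hM, old_F hA G]
    simp only [fsum hA]
    rfl
  Jh := X.Jh
  Jh_eq m a v := by
    obtain ⟨M0, h⟩ := X.Jh_eq m a v
    refine ⟨M0, fun M hM => ?_⟩
    rw [h M hM]
    simp only [fsum hA]
    rfl

/-- The converse. -/
def Brst.new (X : WPE.Brst (G.old hA) k C) : Brst G k C where
  toBrstFields := BrstFields.new hA X.toBrstFields
  univ E _ _ Y := by
    obtain ⟨φ, h, hu⟩ := X.univ E (Y.old hA)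
    have key : ∀ ψ : C →ₗ[ℂ] E, (BrstFields.new hA X.toBrstFields).Hom Y ψ ↔
        X.toBrstFields.Hom (Y.old hA) ψ := fun ψ => by
      rw [← BrstFields.hom_old hA, BrstFields.old_new]
    exact ⟨φ, (key φ).2 h, fun ψ h' => hu ψ ((key ψ).1 h')⟩
  Q := X.Q
  Q_eq v := by
    obtain ⟨M0, h⟩ := X.Q_eq v
    refine ⟨M0, fun M hM => ?_⟩
    rw [h M hM, old_F hA G]
    simp only [fsum hA]
    unfold BrstFields.new
    simp only [Equiv.symm_apply_apply]
    rfl
  Jh := X.Jh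
  Jh_eq m a v := by
    obtain ⟨M0, h⟩ := X.Jh_eq m a v
    refine ⟨M0, fun M hM => ?_⟩
    rw [h M hM]
    simp only [fsum hA]
    unfold BrstFields.new
    simp only [Equiv.symm_apply_apply]
    rfl

variable (X : Brst G k C)

theorem Brst.ghost_old (q : ℤ) (v : C) : (X.old hA).Ghost q v ↔ X.Ghost q v := by
  constructor
  · intro h
    induction h with
    | vac => exact Ghost.vac
    | J m x _ ih => exact Ghost.J m x ih
    | b m γ _ ih => exact Ghost.b m (sg hA γ) ih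
    | c m γ _ ih => exact Ghost.c m (sg hA γ) ih
    | zero q => exact Ghost.zero q
    | add _ _ ih1 ih2 => exact Ghost.add ih1 ih2
    | smul r _ ih => exact Ghost.smul r ih
  · intro h
    induction h with
    | vac => exact WPE.Brst.Ghost.vac
    | J m x _ ih => exact WPE.Brst.Ghost.J m x ih
    | b m γ _ ih =>
      have := WPE.Brst.Ghost.b m ((sg hA).symm γ) ih
      have e : (X.old hA).b m ((sg hA).symm γ) = X.b m γ := by
        show X.b m (sg hA ((sg hA).symm γ)) = _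
        rw [Equiv.apply_symm_apply]
      rwa [e] at this
    | c m γ _ ih =>
      have := WPE.Brst.Ghost.c m ((sg hA).symm γ) ih
      have e : (X.old hA).c m ((sg hA).symm γ) = X.c m γ := by
        show X.c m (sg hA ((sg hA).symm γ)) = _
        rw [Equiv.apply_symm_apply]
      rwa [e] at this
    | zero q => exact WPE.Brst.Ghost.zero q
    | add _ _ ih1 ih2 => exact WPE.Brst.Ghost.add ih1 ih2
    | smul r _ ih => exact WPE.Brst.Ghost.smul r ih

theorem Brst.V_old : (X.old hA).V = X.V := by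
  unfold WPE.Brst.V Brst.V
  rw [old_bm hA G]
  rfl

theorem Brst.isMiura_old (p : ℕ) (Φ : C →ₗ[ℂ] Fock ι) :
    (X.old hA).IsMiura p Φ ↔ X.IsMiura p Φ := by
  constructor
  · intro h
    refine ⟨fun y hy => h.Q y ((Brst.ghost_old hA X _ _).2 hy), h.vac, fun m => ?_,
      fun m i v hv => h.h m i v (by rwa [Brst.V_old hA])⟩
    exact (forall_sg hA (P := fun γ => ∀ v ∈ X.V, Φ (X.Jh m (G.f γ) v) = 0)).2 fun γ v hv =>
      h.f m γ v (by rwa [Brst.V_old hA])
  · intro h
    exact ⟨fun y hy => h.Q y ((Brst.ghost_old hA X _ _).1 hy), h.vac,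
      fun m γ v hv => h.f m (sg hA γ) v (by rwa [Brst.V_old hA] at hv),
      fun m i v hv => h.h m i v (by rwa [Brst.V_old hA] at hv)⟩

include hA

/-- The principal `W`-algebra as the cohomology of the BRST complex. -/
theorem brst (G : Chevalley A g) {p : ℕ} (hp : 2 ≤ p) (hv : ℂ)
    (hK : ∀ x y, killingForm ℂ g x y = 2 * hv * G.form x y) :
    (∃ (C : Type) (_ : AddCommGroup C) (_ : Module ℂ C), Nonempty (Brst G ((p : ℂ) - hv) C)) ∧
    ∀ (C : Type) [AddCommGroup C] [Module ℂ C] (X : Brst G ((p : ℂ) - hv) C),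
      (∀ v, X.Q (X.Q v) = 0) ∧ ∃ Φ : C →ₗ[ℂ] Fock ι, X.IsMiura p Φ ∧
        (∀ Φ' : C →ₗ[ℂ] Fock ι, X.IsMiura p Φ' → ∀ z, X.Ghost 0 z → X.Q z = 0 → Φ' z = Φ z) ∧
        ∀ ε : Cocycle A p,
          (∀ f : VL ι, f ∈ Wk ε ↔
            ∃ z, X.Ghost 0 z ∧ X.Q z = 0 ∧ (Finsupp.single 0 (Φ z) : VL ι) = f) ∧
          ∀ z, X.Ghost 0 z → X.Q z = 0 → Φ z = 0 → ∃ y, X.Ghost (-1) y ∧ z = X.Q y := by
  obtain ⟨⟨C, i1, i2, ⟨X⟩⟩, h⟩ := brst_main hA hp (G.old hA) hv hK
  refine ⟨⟨C, i1, i2, ⟨Brst.new hA X⟩⟩, fun C _ _ X => ?_⟩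
  obtain ⟨h1, Φ, h2, h3, h4⟩ := h C (X.old hA)
  refine ⟨h1, Φ, (Brst.isMiura_old hA X p Φ).1 h2, fun Φ' h' z hz hz' => ?_, fun ε => ?_⟩
  · exact h3 Φ' ((Brst.isMiura_old hA X p Φ').2 h') z ((Brst.ghost_old hA X _ _).2 hz) hz'
  · obtain ⟨h5, h6⟩ := h4 ε
    refine ⟨fun f => (h5 f).trans ?_, fun z hz hz' h0 => ?_⟩
    · exact exists_congr fun z => and_congr_left' (Brst.ghost_old hA X 0 z)
    · obtain ⟨y, hy, hzy⟩ := h6 z ((Brst.ghost_old hA X _ _).2 hz) hz' h0
      exact ⟨y, (Brst.ghost_old hA X _ _).1 hy, hzy⟩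

end

end WPE.RD
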