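import Pool.Agent.WPE.RDB

/-!
# Vertex operators on the BRST complex: definitions for the reader

`C = V^k(g) ⊗ Λ` is a vertex (super)algebra, generated by the fields `J_y(z)`, `b_γ(z)`, `c_γ(z)`.
-/

namespace WPE.RD.Brst

open WPQ MvPolynomial

noncomputable section

variable {ι : Type} [Fintype ι] [DecidableEq ι] {A : Matrix ι ι ℤ}
variable {g : Type} [LieRing g] [LieAlgebra ℂ g]
variable {G : Chevalley A g} {k : ℂ} {C : Type} [AddCommGroup C] [Module ℂ C] (X : Brst G k C)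

/-- Mutual locality `(z-w)^N [a(z), b(w)] = 0`. -/
def Local (a b : ℤ → C →ₗ[ℂ] C) : Prop :=
  ∃ N : ℕ, ∀ m n : ℤ, ∑ r ∈ Finset.range (N + 1), ((-1 : ℂ) ^ r * (N.choose r : ℂ)) •
    (a (m + N - r) ∘ₗ b (n + r) - b (n + r) ∘ₗ a (m + N - r)) = 0

/-- Translation covariance `[T, a(z)] = a'(z)`. -/
def Covariant (T : C →ₗ[ℂ] C) (a : ℤ → C →ₗ[ℂ] C) : Prop :=
  ∀ n : ℤ, T ∘ₗ a n - a n ∘ₗ T = (-n : ℂ) • a (n - 1)

/-- `a(z) = ∑ a(n) z^(-n-1)` is the vertex operator `Y(x, z)` of the (even) vector `x` of `C`: it is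
a field, it is local with the generating fields, it is covariant for the translation operator `T`
of `C`, and it creates `x` from the vacuum. -/
structure IsVertexOperator (x : C) (a : ℤ → C →ₗ[ℂ] C) : Prop where
  field : ∀ v, ∃ N : ℤ, ∀ n ≥ N, a n v = 0
  local_J : ∀ y, Local a fun n => X.J n y
  local_b : ∀ γ, Local a fun n => X.b n γ
  local_c : ∀ γ, Local a fun n => X.c n γ
  translation : ∃ T : C →ₗ[ℂ] C, T X.vac = 0 ∧ (∀ y, Covariant T fun n => X.J n y) ∧
    (∀ γ, Covariant T fun n => X.b n γ) ∧ (∀ γ, Covariant T fun n => X.c n γ) ∧ Covariant T a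
  vacuum : ∀ n : ℤ, 0 ≤ n → a n X.vac = 0
  creation : a (-1) X.vac = x

end

end WPE.RD.Brst
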