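import Pool.Agent.WPE.FBV5
import Pool.Agent.WPE.FBZ
import Pool.Agent.WPE.RDV

/-! WPE, block FB: the vertex operators of the cocycles in `V`, for the definitions of `RDV`. -/

set_option linter.unusedSectionVars false

namespace WPE.RD

open WPQ MvPolynomial

noncomputable section

variable {ι : Type} [Fintype ι] [DecidableEq ι] {A : Matrix ι ι ℤ}
variable {g : Type} [LieRing g] [LieAlgebra ℂ g]
variable (hA : IsADE A) {G : Chevalley A g} {k : ℂ}
variable {C : Type} [AddCommGroup C] [Module ℂ C]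

/-- The translation operators. -/
theorem Brst.isTr_iff (X : Brst G k C) {Y : FVac ((G.old hA).toLD hA) k C} (hJ : Y.J = X.J)
    (hb : Y.b = (X.old hA).b) (hc : Y.c = (X.old hA).c) (hv : Y.vac = X.vac) (T : C →ₗ[ℂ] C) :
    (T X.vac = 0 ∧ (∀ y, Covariant T fun n => X.J n y) ∧ (∀ γ, Covariant T fun n => X.b n γ) ∧
      ∀ γ, Covariant T fun n => X.c n γ) ↔ Y.IsTr T := by
  have key : ∀ a : ℤ → C →ₗ[ℂ] C, Covariant T a ↔
      ∀ n v, T (a n v) = a n (T v) + (-(n : ℂ)) • a (n - 1) v := by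
    intro a
    constructor
    · intro h n v
      have h1 := LinearMap.congr_fun (h n) v
      rw [LinearMap.sub_apply, LinearMap.comp_apply, LinearMap.comp_apply,
        LinearMap.smul_apply] at h1
      rw [← h1]
      abel
    · intro h n
      ext v
      rw [LinearMap.sub_apply, LinearMap.comp_apply, LinearMap.comp_apply,
        LinearMap.smul_apply, h]
      abel
  constructor
  · rintro ⟨h0, h1, h2, h3⟩
    refine ⟨by rw [hv]; exact h0, fun n x v => ?_, fun n s v => ?_, fun n s v => ?_⟩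
    · rw [hJ]
      exact (key _).1 (h1 x) n v
    · rw [hb]
      exact (key _).1 (h2 (sg hA s)) n v
    · rw [hc]
      exact (key _).1 (h3 (sg hA s)) n v
  · rintro ⟨h0, h1, h2, h3⟩
    rw [hv] at h0
    rw [hJ] at h1
    rw [hb] at h2
    rw [hc] at h3
    refine ⟨h0, fun y => (key _).2 fun n v => h1 n y v, ?_, ?_⟩
    · exact (forall_sg hA (P := fun γ => Covariant T fun n => X.b n γ)).2 fun γ =>
        (key _).2 fun n v => h2 n γ v
    · exact (forall_sg hA (P := fun γ => Covariant T fun n => X.c n γ)).2 fun γ =>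
        (key _).2 fun n v => h3 n γ v

/-- The vertex operators. -/
theorem Brst.isVO_iff (X : Brst G k C) {Y : FVac ((G.old hA).toLD hA) k C} (hJ : Y.J = X.J)
    (hb : Y.b = (X.old hA).b) (hc : Y.c = (X.old hA).c) (hv : Y.vac = X.vac) (x : C)
    (a : ℤ → C →ₗ[ℂ] C) :
    X.IsVertexOperator x a ↔ ∃ T, Y.IsTr T ∧ Y.IsVO T x a := by
  constructor
  · rintro ⟨h1, h2, h3, h4, ⟨T, t0, t1, t2, t3, t4⟩, h6, h7⟩
    refine ⟨T, (X.isTr_iff hA hJ hb hc hv T).1 ⟨t0, t1, t2, t3⟩, h1, ?_, ?_, ?_, t4, ?_, ?_⟩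
    · rw [hJ]
      exact h2
    · rw [hb]
      exact fun s => h3 (sg hA s)
    · rw [hc]
      exact fun s => h4 (sg hA s)
    · rw [hv]
      exact h6
    · rw [hv]
      exact h7
  · rintro ⟨T, hT, h⟩
    obtain ⟨h1, h2, h3, h4, h5, h6, h7⟩ := h
    obtain ⟨t0, t1, t2, t3⟩ := (X.isTr_iff hA hJ hb hc hv T).2 hT
    rw [hJ] at h2
    rw [hb] at h3
    rw [hc] at h4
    rw [hv] at h6 h7
    exact ⟨h1, h2, (forall_sg hA (P := fun γ => Local a fun n => X.b n γ)).2 h3,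
      (forall_sg hA (P := fun γ => Local a fun n => X.c n γ)).2 h4, ⟨T, t0, t1, t2, t3, h5⟩, h6, h7⟩

include hA

/-- The products on the cohomology of the BRST complex. -/
theorem brst_vo (G : Chevalley A g) {p : ℕ} (hp : 2 ≤ p) (hv : ℂ)
    (hK : ∀ x y, killingForm ℂ g x y = 2 * hv * G.form x y) (X : Brst G ((p : ℂ) - hv) C)
    {Φ : C →ₗ[ℂ] Fock ι} (hΦ : X.IsMiura p Φ) (ε : Cocycle A p) :
    (∀ z, X.Ghost 0 z → X.Q z = 0 →
      ∃ x ∈ X.V, X.Q x = 0 ∧ ∃ y, X.Ghost (-1) y ∧ z = x + X.Q y) ∧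
    ∀ x ∈ X.V, X.Q x = 0 → ∃ a : ℤ → C →ₗ[ℂ] C, X.IsVertexOperator x a ∧
      (∀ a', X.IsVertexOperator x a' → a' = a) ∧ (∀ n v, X.Q (a n v) = a n (X.Q v)) ∧
      (∀ n q v, X.Ghost q v → X.Ghost q (a n v)) ∧
      ∀ n z, X.Ghost 0 z → X.Q z = 0 → (Finsupp.single 0 (Φ (a n z)) : VL ι) =
        mode ε (Finsupp.single 0 (Φ x)) n (Finsupp.single 0 (Φ z)) := by
  obtain ⟨Y, hS, hJ, hb, hc, hvac, hQ, hJh⟩ := (X.old hA).exists_FV hA
  have hg := fun q v => Brst.ghost_old hA X q v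
  obtain ⟨h1, h2⟩ := WPE.brst_vo hA hp (G.old hA) hv hK (X.old hA)
    ((Brst.isMiura_old hA X p Φ).2 hΦ) ε hS hJ hb hc hvac hQ hJh
  refine ⟨fun z hz hz' => ?_, fun x hx hx0 => ?_⟩
  · obtain ⟨x, hx, hx0, y, hy, hzy⟩ := h1 z ((hg _ _).2 hz) hz'
    rw [Brst.V_old hA] at hx
    exact ⟨x, hx, hx0, y, (hg _ _).1 hy, hzy⟩
  obtain ⟨a, ha, hau, haQ, hag, haz⟩ := h2 x (by rw [Brst.V_old hA]; exact hx) hx0
  exact ⟨a, (X.isVO_iff hA hJ hb hc hvac x a).2 ha,
    fun a' h => hau a' ((X.isVO_iff hA hJ hb hc hvac x a').1 h), haQ,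
    fun n q v h => (hg _ _).1 (hag n q v ((hg _ _).2 h)),
    fun n z h h' => haz n z ((hg _ _).2 h) h'⟩

end

end WPE.RD
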