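import Pool.Agent.WPE.KGL

/-! WPE, block KG: summary. -/

set_option linter.unusedSectionVars false

namespace WPE

open WPQ MvPolynomial AF

noncomputable section

variable {ι : Type} [Fintype ι] [DecidableEq ι] {A : Matrix ι ι ℤ}

theorem ldG_F (hA : IsADE A) (ε : Cocycle A 1) :
    (ldG hA ε).F = ∑ j, (ldG hA ε).f (sr hA j) := rfl

theorem pr_sr (hA : IsADE A) (i j : ι) : pr A i (sr hA j).1 = A i j := by
  show ∑ k, A i k * rt j k = A i j
  rw [Finset.sum_eq_single j]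
  · unfold rt
    rw [Pi.single_eq_same, mul_one]
  · intro k _ hk
    unfold rt
    rw [Pi.single_eq_of_ne hk, mul_zero]
  · intro h
    exact absurd (Finset.mem_univ j) h

theorem ldG_hh (hA : IsADE A) (ε : Cocycle A 1) (i k : ι) :
    (ldG hA ε).form ((ldG hA ε).h i) ((ldG hA ε).h k) = (A i k : ℂ) := by
  show G1.frm hA ε (G1.gh hA ε (bb i)) (G1.gh hA ε (bb k)) = _
  rw [(kg_K1 hA ε).frm_gh_gh, (kg_K4 hA).form_bb]

theorem ldG_h_e (hA : IsADE A) (ε : Cocycle A 1) (i : ι) (b : Rt A) :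
    ⁅(ldG hA ε).h i, (ldG hA ε).e b⁆ = (pr A i b.1 : ℂ) • (ldG hA ε).e b := by
  show ⁅G1.gh hA ε (bb i), G1.ge hA ε b⁆ = _
  rw [(kg_K5 hA ε).gh_e, (kg_K4 hA).form_bb_toC]
  rfl

theorem ldG_h_f (hA : IsADE A) (ε : Cocycle A 1) (i : ι) (b : Rt A) :
    ⁅(ldG hA ε).h i, (ldG hA ε).f b⁆ = (-(pr A i b.1 : ℂ)) • (ldG hA ε).f b := by
  show ⁅G1.gh hA ε (bb i), G1.gf hA ε b⁆ = _
  rw [(kg_K5 hA ε).gh_f, (kg_K4 hA).form_bb_toC]
  rfl

theorem sr_inj (hA : IsADE A) : Function.Injective (sr hA : ι → Rt A) := by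
  intro i j h
  have h1 : rt i = rt j := congrArg Subtype.val h
  by_contra hne
  have h2 := congrFun h1 i
  unfold rt at h2
  rw [Pi.single_eq_same, Pi.single_eq_of_ne hne] at h2
  exact one_ne_zero h2

theorem ldG_ht_sr (hA : IsADE A) (ε : Cocycle A 1) (j : ι) : (ldG hA ε).ht (sr hA j) = 1 :=
  lv_htR hA j

theorem ldG_ht (hA : IsADE A) (ε : Cocycle A 1) (b : Rt A) :
    (((ldG hA ε).ht b : ℕ) : ℤ) = ht b.1 := by
  have h := (kg_K3 hA).ht_pos b.1 b.2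
  show (((ht b.1).toNat : ℕ) : ℤ) = ht b.1
  exact Int.toNat_of_nonneg (by omega)

theorem ldG_ht_one (hA : IsADE A) (ε : Cocycle A 1) (b : Rt A) (h : (ldG hA ε).ht b = 1) :
    ∃ j, b = sr hA j := by
  have h1 := ldG_ht hA ε b
  rw [h] at h1
  obtain ⟨j, hj⟩ := (kg_K3 hA).ht_one b.1 b.2 (by rw [← h1]; norm_num)
  exact ⟨j, Subtype.ext hj⟩

end

end WPE
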