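import Pool.Agent.WPE.LA1

open scoped TensorProduct

namespace WPE

variable {g β η : Type} [LieRing g] [LieAlgebra ℂ g] [Fintype β] [DecidableEq β] [Fintype η]
  [DecidableEq η]

namespace LA3

/-- Linear independence from dual vectors. -/
theorem li_of_dual {V κ : Type} [AddCommGroup V] [Module ℂ V] [Fintype κ] [DecidableEq κ]
    (v : κ → V) (φ : κ → V →ₗ[ℂ] ℂ) (h : ∀ i j, φ i (v j) = if i = j then 1 else 0) :
    LinearIndependent ℂ v := by
  rw [Fintype.linearIndependent_iff]
  intro c hc i
  have h1 := congrArg (φ i) hc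
  rw [map_sum, map_zero, Finset.sum_eq_single i] at h1
  · rw [map_smul, h, if_pos rfl, smul_eq_mul, mul_one] at h1
    exact h1
  · intro j _ hj
    rw [map_smul, h, if_neg (Ne.symm hj), smul_zero]
  · intro hi
    exact absurd (Finset.mem_univ i) hi

end LA3

theorem la_B (L : LD g β η) : LD.FactsB L := by
  have hP := la_P L
  have he : ∀ b, L.e b ∈ L.np := fun b => Submodule.subset_span ⟨b, rfl⟩
  have hf : ∀ b, L.f b ∈ L.nm := fun b => Submodule.subset_span ⟨b, rfl⟩
  have hh : ∀ i, L.h i ∈ L.hs := fun i => Submodule.subset_span ⟨i, rfl⟩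
  have hbb : LinearIndependent ℂ L.bb := by
    refine LA3.li_of_dual L.bb (Sum.elim (fun b => L.form (L.e b)) (fun i => L.form (L.h' i))) ?_
    rintro (b | i) (c | j)
    · show L.form (L.e b) (L.f c) = _
      rw [L.ef]
      simp only [Sum.inl.injEq]
    · show L.form (L.e b) (L.h j) = _
      rw [L.eh, if_neg Sum.inl_ne_inr]
    · show L.form (L.h' i) (L.f c) = _
      rw [L.symm, hP.form_nm_bm _ (hf c) _ (hP.hs_le (hP.h'_mem i)), if_neg Sum.inr_ne_inl]
    · show L.form (L.h' i) (L.h j) = _
      rw [L.symm, L.hh']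
      simp only [Sum.inr.injEq]
      by_cases hij : i = j
      · rw [if_pos hij, if_pos hij.symm]
      · rw [if_neg hij, if_neg (Ne.symm hij)]
  refine ⟨?_, ?_, hbb, ?_, ?_, ?_, ?_⟩
  · refine Module.finite_def.2 (Submodule.fg_def.2
      ⟨Set.range L.e ∪ Set.range L.h ∪ Set.range L.f,
        ((Set.finite_range _).union (Set.finite_range _)).union (Set.finite_range _), ?_⟩)
    rw [eq_top_iff]
    intro x _
    rw [L.decomp x]
    refine Submodule.add_mem _ (Submodule.add_mem _ ?_ ?_) ?_
    · exact Submodule.sum_mem _ fun b _ => Submodule.smul_mem _ _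
        (Submodule.subset_span (Or.inl (Or.inl ⟨b, rfl⟩)))
    · exact Submodule.sum_mem _ fun b _ => Submodule.smul_mem _ _
        (Submodule.subset_span (Or.inl (Or.inr ⟨b, rfl⟩)))
    · exact Submodule.sum_mem _ fun b _ => Submodule.smul_mem _ _
        (Submodule.subset_span (Or.inr ⟨b, rfl⟩))
  · rintro (b | i)
    · exact hP.nm_le (hf b)
    · exact hP.hs_le (hh i)
  · show Submodule.span ℂ (Set.range (Sum.elim L.f L.h)) = L.hs ⊔ L.nm
    rw [Set.Sum.elim_range, Submodule.span_union, sup_comm]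
    rfl
  · exact hbb.comp Sum.inl Sum.inl_injective
  · refine LA3.li_of_dual L.e (fun b => L.form (L.f b)) fun b c => ?_
    rw [L.symm, L.ef]
    by_cases hij : b = c
    · rw [if_pos hij, if_pos hij.symm]
    · rw [if_neg hij, if_neg (Ne.symm hij)]
  · exact hbb.comp Sum.inr Sum.inr_injective

end WPE
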