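import Pool.Agent.WPE.LA2
import Pool.Agent.WPE.LA3

open scoped TensorProduct

namespace WPE

variable {g β η : Type} [LieRing g] [LieAlgebra ℂ g] [Fintype β] [DecidableEq β] [Fintype η]
  [DecidableEq η]

namespace LA11

/-- coefficients of an element of `b₋` in the basis `bb` -/
noncomputable def coef (L : LD g β η) (x : g) : β ⊕ η → ℂ :=
  Sum.elim (fun c => L.form x (L.e c)) (fun i => L.form x (L.h' i))

theorem expand (L : LD g β η) (x : g) (hx : ∀ c, L.form x (L.f c) = 0) :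
    x = ∑ s, coef L x s • L.bb s := by
  have h1 := L.decomp x
  have h2 : ∑ b, L.form x (L.f b) • L.e b = 0 :=
    Finset.sum_eq_zero fun b _ => by rw [hx b, zero_smul]
  rw [h2, zero_add] at h1
  rw [Fintype.sum_sum_type]
  unfold coef LD.bb
  simp only [Sum.elim_inl, Sum.elim_inr]
  rw [add_comm]
  exact h1

/-- homogeneous solution -/
theorem sol (L : LD g β η) (b : β) :
    ∃ t : g, t ∈ L.bm ∧ ⁅L.F, t⁆ = L.f b ∧ t ∈ L.gr (1 - (L.ht b : ℤ)) := by
  classical
  have hP := la_P L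
  have hG := la_G L
  have hB := la_B L
  obtain ⟨x, hx, hFx⟩ := L.surj b
  have hexp := expand L x hx
  set t : g := ∑ s ∈ Finset.univ.filter (fun s => L.cb s = 1 - (L.ht b : ℤ)),
    coef L x s • L.bb s with ht
  set y : g := ∑ s ∈ Finset.univ.filter (fun s => ¬ L.cb s = 1 - (L.ht b : ℤ)),
    coef L x s • L.bb s with hy
  have hxty : x = t + y := by
    rw [ht, hy, Finset.sum_filter_add_sum_filter_not]
    exact hexp
  have htb : t ∈ L.bm := Submodule.sum_mem _ fun s _ => Submodule.smul_mem _ _ (hB.bb_mem s)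
  have htg : t ∈ L.gr (1 - (L.ht b : ℤ)) := by
    refine Submodule.sum_mem _ fun s hs => Submodule.smul_mem _ _ ?_
    have h1 := hG.bb_gr s
    rw [(Finset.mem_filter.1 hs).2] at h1
    exact h1
  have hFt : ⁅L.F, t⁆ ∈ L.gr (-(L.ht b : ℤ)) := by
    have h1 := hG.lie_gr _ _ _ hG.F_gr _ htg
    have h2 : (-1 : ℤ) + (1 - (L.ht b : ℤ)) = -(L.ht b : ℤ) := by ring
    rwa [h2] at h1
  have hFy : ⁅L.F, y⁆ = L.f b - ⁅L.F, t⁆ := by
    rw [← hFx, hxty, lie_add]
    abel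
  have hFyg : ⁅L.F, y⁆ ∈ L.gr (-(L.ht b : ℤ)) := by
    rw [hFy]
    exact Submodule.sub_mem _ (hG.f_gr b) hFt
  -- pairing with homogeneous elements
  have hpair : ∀ (c : ℤ) (w : g), w ∈ L.gr c → L.form ⁅L.F, y⁆ w = 0 := by
    intro c w hw
    by_cases hc : c = (L.ht b : ℤ)
    · rw [hy, lie_sum, map_sum, LinearMap.sum_apply]
      refine Finset.sum_eq_zero fun s hs => ?_
      rw [lie_smul, map_smul, LinearMap.smul_apply]
      have h1 := hG.lie_gr _ _ _ hG.F_gr _ (hG.bb_gr s)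
      have h2 := (Finset.mem_filter.1 hs).2
      rw [hG.form_gr (-1 + L.cb s) c (by omega) _ h1 w hw, smul_zero]
    · exact hG.form_gr _ c (by omega) _ hFyg w hw
  have hy0 : ⁅L.F, y⁆ = 0 := by
    refine hP.nondeg _ fun w => ?_
    rw [L.decomp w, map_add, map_add, map_sum, map_sum, map_sum]
    have hh : ∀ i, L.h i ∈ L.gr 0 := by
      intro i
      rw [hG.gr_zero]
      exact Submodule.subset_span ⟨i, rfl⟩
    rw [Finset.sum_eq_zero, Finset.sum_eq_zero, Finset.sum_eq_zero, add_zero, add_zero]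
    · intro c _
      rw [map_smul, hpair _ _ (hG.f_gr c), smul_zero]
    · intro i _
      rw [map_smul, hpair _ _ (hh i), smul_zero]
    · intro c _
      rw [map_smul, hpair _ _ (hG.e_gr c), smul_zero]
  refine ⟨t, htb, ?_, htg⟩
  have h3 : ⁅L.F, x⁆ = ⁅L.F, t⁆ + ⁅L.F, y⁆ := by rw [hxty, lie_add]
  rw [hy0, add_zero, hFx] at h3
  exact h3.symm

end LA11

theorem la_surj (L : LD g β η) : ∃ t : β → g, (∀ b, t b ∈ L.bm) ∧ (∀ b, ⁅L.F, t b⁆ = L.f b) ∧
    (∀ b, t b ∈ L.gr (1 - (L.ht b : ℤ))) ∧ LinearIndependent ℂ t ∧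
    (∀ x ∈ L.bm, ∃ z ∈ L.zc, x - z ∈ Submodule.span ℂ (Set.range t)) := by
  have hP := la_P L
  have hG := la_G L
  have hB := la_B L
  choose t h1 h2 h3 using LA11.sol L
  refine ⟨t, h1, h2, h3, ?_, ?_⟩
  · have h4 : LinearIndependent ℂ (LD.adl L.F ∘ t) := by
      have h5 : LD.adl L.F ∘ t = L.f := funext fun b => h2 b
      rw [h5]
      exact hB.f_li
    exact LinearIndependent.of_comp _ h4
  · intro x hx
    have hnm : ⁅L.F, x⁆ ∈ L.nm := by
      rw [← lie_skew]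
      exact Submodule.neg_mem _ (hG.bm_nm x hx _ hG.F_nm)
    have hexp := hP.nm_exp _ hnm
    refine ⟨x - ∑ b, L.form ⁅L.F, x⁆ (L.e b) • t b, ⟨?_, ?_⟩, ?_⟩
    · exact Submodule.sub_mem _ hx (Submodule.sum_mem _ fun b _ => Submodule.smul_mem _ _ (h1 b))
    · rw [lie_sub, lie_sum]
      have h6 : ∑ b, ⁅L.F, L.form ⁅L.F, x⁆ (L.e b) • t b⁆ =
          ∑ b, L.form ⁅L.F, x⁆ (L.e b) • L.f b :=
        Finset.sum_congr rfl fun b _ => by rw [lie_smul, h2]
      rw [h6, ← hexp, sub_self]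
    · rw [sub_sub_cancel]
      exact Submodule.sum_mem _ fun b _ =>
        Submodule.smul_mem _ _ (Submodule.subset_span ⟨b, rfl⟩)

end WPE
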