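import Pool.Agent.WPE.FND
import Pool.Agent.WPE.KGA
import Pool.Agent.WPE.LA11

/-! [WPE-KDS] The exponents and the heights of the positive roots (Kostant). -/

set_option autoImplicit false

namespace WPE

open WPQ

noncomputable section

namespace KDX

/-- The number of vectors of degree `a` in a homogeneous basis. -/
theorem count {g κ : Type} [AddCommGroup g] [Module ℂ g] [Fintype κ] (T : Module.End ℂ g)
    (v : κ → g) (c : κ → ℤ) (hv : ∀ k, T (v k) = (c k : ℂ) • v k) (hli : LinearIndependent ℂ v)
    (a : ℤ) : (Finset.univ.filter fun k => c k = a).card =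
      Module.finrank ℂ ↥(Submodule.span ℂ (Set.range v) ⊓ Module.End.eigenspace T (a : ℂ)) := by
  classical
  have h1 : Submodule.span ℂ (Set.range v) ⊓ Module.End.eigenspace T (a : ℂ) =
      Submodule.span ℂ (Set.range fun k : {k // c k = a} => v k.1) := by
    apply le_antisymm
    · rintro x ⟨hx, hx2⟩
      obtain ⟨r, rfl⟩ := (Submodule.mem_span_range_iff_exists_fun ℂ).1 hx
      rw [SetLike.mem_coe, Module.End.mem_eigenspace_iff, map_sum, Finset.smul_sum] at hx2
      have h2 : ∑ k, (r k * ((c k : ℂ) - a)) • v k = 0 := by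
        have h3 : ∀ k, (r k * ((c k : ℂ) - a)) • v k = T (r k • v k) - (a : ℂ) • (r k • v k) := by
          intro k
          rw [map_smul, hv, smul_smul, smul_smul, ← sub_smul]
          congr 1
          ring
        rw [Finset.sum_congr rfl fun k _ => h3 k, Finset.sum_sub_distrib, hx2, sub_self]
      have h3 := Fintype.linearIndependent_iff.1 hli _ h2
      refine Submodule.sum_mem _ fun k _ => ?_
      by_cases hk : c k = a
      · exact Submodule.smul_mem _ _ (Submodule.subset_span ⟨⟨k, hk⟩, rfl⟩)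
      · have h4 : r k = 0 := by
          rcases mul_eq_zero.1 (h3 k) with h | h
          · exact h
          · exfalso
            apply hk
            have h5 : (c k : ℂ) = (a : ℂ) := sub_eq_zero.1 h
            exact_mod_cast h5
        rw [h4, zero_smul]
        exact zero_mem _
    · rw [Submodule.span_le]
      rintro _ ⟨⟨k, hk⟩, rfl⟩
      refine ⟨Submodule.subset_span ⟨k, rfl⟩, ?_⟩
      rw [SetLike.mem_coe, Module.End.mem_eigenspace_iff]
      rw [hv, hk]
  have h2 : Module.finrank ℂ ↥(Submodule.span ℂ (Set.range fun k : {k // c k = a} => v k.1)) =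
      Fintype.card {k // c k = a} :=
    finrank_span_eq_card (hli.comp (fun k : {k // c k = a} => k.1) Subtype.val_injective)
  rw [h1, h2, Fintype.card_subtype]

/-- Two homogeneous bases of the same space. -/
theorem count_eq {g κ κ' : Type} [AddCommGroup g] [Module ℂ g] [Fintype κ] [Fintype κ']
    (T : Module.End ℂ g) (v : κ → g) (c : κ → ℤ) (hv : ∀ k, T (v k) = (c k : ℂ) • v k)
    (hli : LinearIndependent ℂ v) (v' : κ' → g) (c' : κ' → ℤ)
    (hv' : ∀ k, T (v' k) = (c' k : ℂ) • v' k) (hli' : LinearIndependent ℂ v')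
    (h : Submodule.span ℂ (Set.range v) = Submodule.span ℂ (Set.range v')) (a : ℤ) :
    (Finset.univ.filter fun k => c k = a).card = (Finset.univ.filter fun k => c' k = a).card := by
  rw [count T v c hv hli, count T v' c' hv' hli', h]

variable {g β η : Type} [LieRing g] [LieAlgebra ℂ g] [Fintype β] [DecidableEq β] [Fintype η]
  [DecidableEq η]

/-- Kostant: exponents and heights, for Lie data. -/
theorem exps (L : LD g β η) (z : η → g) (m : η → ℕ) (hz : ∀ i, z i ∈ L.gr (-(m i : ℤ)))
    (hli : LinearIndependent ℂ z) (hsp : Submodule.span ℂ (Set.range z) = L.zc) (k : ℕ) :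
    (Finset.univ.filter fun i => m i = k).card +
      (Finset.univ.filter fun b => L.ht b = k + 1).card =
    (Finset.univ.filter fun s => L.cb s = -(k : ℤ)).card := by
  classical
  have hB := la_B L
  have hG := la_G L
  have hP := la_P L
  obtain ⟨t, ht1, ht2, ht3, ht4, ht5⟩ := la_surj L
  have hsum : LinearIndependent ℂ (Sum.elim z t) := by
    refine hli.sum_type ht4 ?_
    rw [Submodule.disjoint_def, hsp]
    intro x hx hx'
    obtain ⟨r, rfl⟩ := (Submodule.mem_span_range_iff_exists_fun ℂ).1 hx'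
    have h1 : ⁅L.F, ∑ k, r k • t k⁆ = 0 := hx.2
    have h2 : ∑ k, r k • L.f k = 0 := by
      rw [← h1, lie_sum]
      exact Finset.sum_congr rfl fun k _ => by rw [lie_smul, ht2]
    have h3 := Fintype.linearIndependent_iff.1 hB.f_li _ h2
    exact Finset.sum_eq_zero fun k _ => by rw [h3 k, zero_smul]
  have hspan : Submodule.span ℂ (Set.range (Sum.elim z t)) = L.bm := by
    apply le_antisymm
    · rw [Submodule.span_le]
      rintro _ ⟨i | b, rfl⟩
      · have h : z i ∈ L.zc := by
          rw [← hsp]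
          exact Submodule.subset_span ⟨i, rfl⟩
        exact h.1
      · exact ht1 b
    · intro x hx
      obtain ⟨y, hy, hy2⟩ := ht5 x hx
      have e : x = y + (x - y) := by abel
      rw [e]
      refine add_mem ?_ ?_
      · rw [← hsp] at hy
        exact Submodule.span_mono (by rintro _ ⟨i, rfl⟩; exact ⟨Sum.inl i, rfl⟩) hy
      · exact Submodule.span_mono (by rintro _ ⟨i, rfl⟩; exact ⟨Sum.inr i, rfl⟩) hy2
  have key := count_eq (LD.adl L.rho) (Sum.elim z t)
    (Sum.elim (fun i => -(m i : ℤ)) (fun b => 1 - (L.ht b : ℤ))) (by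
      rintro (i | b)
      · exact hz i
      · exact ht3 b) hsum L.bb L.cb (fun s => hG.bb_gr s) hB.bb_li
      (by rw [hspan, hB.bb_span]) (-(k : ℤ))
  rw [← key, ← Fintype.card_subtype, ← Fintype.card_subtype, ← Fintype.card_subtype]
  rw [Fintype.card_congr (Equiv.subtypeSum (p := fun k_1 : η ⊕ β =>
    Sum.elim (fun i => -(m i : ℤ)) (fun b => 1 - (L.ht b : ℤ)) k_1 = -(k : ℤ)))]
  rw [Fintype.card_sum]
  congr 1
  · refine Fintype.card_congr (Equiv.subtypeEquivRight fun i => ?_)
    show m i = k ↔ -(m i : ℤ) = -(k : ℤ)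
    omega
  · refine Fintype.card_congr (Equiv.subtypeEquivRight fun b => ?_)
    show L.ht b = k + 1 ↔ 1 - (L.ht b : ℤ) = -(k : ℤ)
    omega

/-- The number of basis elements of `b₋` of degree `-k`. -/
theorem cb_count (L : LD g β η) (k : ℕ) (hk : 1 ≤ k) :
    (Finset.univ.filter fun s => L.cb s = -(k : ℤ)).card =
      (Finset.univ.filter fun b => L.ht b = k).card := by
  classical
  rw [← Fintype.card_subtype, ← Fintype.card_subtype]
  rw [Fintype.card_congr (Equiv.subtypeSum (p := fun s : β ⊕ η => L.cb s = -(k : ℤ))),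
    Fintype.card_sum]
  have h1 : Fintype.card {a : η // L.cb (Sum.inr a) = -(k : ℤ)} = 0 := by
    rw [Fintype.card_eq_zero_iff]
    refine ⟨fun a => ?_⟩
    have h : (0 : ℤ) = -(k : ℤ) := a.2
    omega
  rw [h1, add_zero]
  refine Fintype.card_congr (Equiv.subtypeEquivRight fun b => ?_)
  show -(L.ht b : ℤ) = -(k : ℤ) ↔ L.ht b = k
  omega

/-- The number of basis elements of `b₋` of degree `0`. -/
theorem cb_count0 (L : LD g β η) :
    (Finset.univ.filter fun s => L.cb s = -((0 : ℕ) : ℤ)).card = Fintype.card η := by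
  classical
  rw [← Fintype.card_subtype]
  rw [Fintype.card_congr (Equiv.subtypeSum (p := fun s : β ⊕ η => L.cb s = -((0 : ℕ) : ℤ))),
    Fintype.card_sum]
  have h1 : Fintype.card {a : β // L.cb (Sum.inl a) = -((0 : ℕ) : ℤ)} = 0 := by
    rw [Fintype.card_eq_zero_iff]
    refine ⟨fun a => ?_⟩
    have h : -(L.ht a.1 : ℤ) = -((0 : ℕ) : ℤ) := a.2
    have := L.ht_pos a.1
    omega
  rw [h1, zero_add]
  refine Fintype.card_congr (Equiv.subtypeUnivEquiv fun a => ?_)
  show (0 : ℤ) = -((0 : ℕ) : ℤ)
  norm_num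

variable {ι : Type} [Fintype ι] [DecidableEq ι] {A : Matrix ι ι ℤ}

/-- The exponents of the root lattice. -/
theorem expsG (hA : IsADE A) (ε : Cocycle A 1) (z : ι → G1 hA ε) (m : ι → ℕ)
    (hz : ∀ i, z i ∈ (ldG hA ε).gr (-(m i : ℤ))) (hli : LinearIndependent ℂ z)
    (hsp : Submodule.span ℂ (Set.range z) = (ldG hA ε).zc) :
    Exponents A fun i => m i + 1 := by
  classical
  have hr : ∀ k : ℕ, (Finset.univ.filter fun b => (ldG hA ε).ht b = k).card =
      ((posRoots A).filter fun γ => ∑ i, γ i = (k : ℤ)).card := by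
    intro k
    rw [← Finset.card_map (Function.Embedding.subtype _)]
    congr 1
    ext γ
    simp only [Finset.mem_map, Finset.mem_filter, Finset.mem_univ, true_and,
      Function.Embedding.coe_subtype]
    constructor
    · rintro ⟨b, hb, rfl⟩
      refine ⟨b.2, ?_⟩
      have h := ldG_ht hA ε b
      rw [hb] at h
      exact h.symm
    · rintro ⟨h1, h2⟩
      refine ⟨⟨γ, h1⟩, ?_, rfl⟩
      have h := ldG_ht hA ε ⟨γ, h1⟩
      have h3 : (((ldG hA ε).ht ⟨γ, h1⟩ : ℕ) : ℤ) = (k : ℤ) := h.trans h2
      exact_mod_cast h3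
  have h1 : (Finset.univ.filter fun b => (ldG hA ε).ht b = 1).card = Fintype.card ι := by
    rw [← Fintype.card_subtype]
    symm
    refine Fintype.card_of_bijective (f := fun j : ι => (⟨sr hA j, ldG_ht_sr hA ε j⟩ :
      {b // (ldG hA ε).ht b = 1})) ⟨?_, ?_⟩
    · intro i j h
      exact sr_inj hA (congrArg Subtype.val h)
    · rintro ⟨b, hb⟩
      obtain ⟨j, hj⟩ := ldG_ht_one hA ε b hb
      exact ⟨j, Subtype.ext hj.symm⟩
  have h0 := exps (ldG hA ε) z m hz hli hsp 0
  rw [cb_count0, h1] at h0
  have h2 : (Finset.univ.filter fun i => m i = 0).card = 0 := by omega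
  rw [Finset.card_eq_zero, Finset.filter_eq_empty_iff] at h2
  refine ⟨fun i => ?_, fun k hk => ?_⟩
  · have := h2 (Finset.mem_univ i)
    show 2 ≤ m i + 1
    omega
  · have h3 := exps (ldG hA ε) z m hz hli hsp k
    rw [cb_count _ k hk, hr, hr] at h3
    rw [← h3]
    congr 1
    · congr 1
      ext i
      simp only [Finset.mem_filter, Finset.mem_univ, true_and]
      omega

omit [DecidableEq ι] in
/-- The number of positive roots. -/
theorem card_Rt (A : Matrix ι ι ℤ) : Fintype.card (Rt A) = (posRoots A).card :=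
  Fintype.card_coe _

end KDX

end

end WPE
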