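import Pool.Agent.WPE.MID

/-! WPE, block MI: the Levi data in the setting of block MI. -/

namespace WPE

open scoped TensorProduct
open MvPolynomial WPQ

noncomputable section

namespace LD

variable {g β ι : Type} [LieRing g] [LieAlgebra ℂ g] [Fintype β] [DecidableEq β] [Fintype ι]
  [DecidableEq ι] {L : LD g β ι} {A : Matrix ι ι ℤ} {p : ℕ} {j : β} {al : ι → ℂ}

/-- The Levi data satisfy `Car`. -/
theorem Car.levi (K : L.Car A p) (S : Simp L j al) : (levi S).Car A p where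
  ade := K.ade
  hp := K.hp
  hh i k := by
    rw [levi_form, levi_h, levi_h]
    exact K.hh i k

/-- The Levi data satisfy `Car'`. -/
theorem Car'.levi (K : L.Car' A p) (S : Simp L j al) : (levi S).Car' A p where
  toCar := K.toCar.levi S
  hr i := by
    rw [levi_form, levi_rho, levi_h']
    exact K.hr i

theorem cf_fb (S : Simp L j al) (p : ℕ) (a : L.bL) : (levi S).cf p (fb S a) = L.cf p a := by
  funext i
  rw [cf_apply, cf_apply, fb_form_h']

theorem mi_levi_bm {S : Simp L j al} {x : lev S} (hx : x ∈ (levi S).bm) : (x : g) ∈ L.bm := by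
  rw [mem_bm_iff]
  intro c
  by_cases hc : c = j
  · subst hc
    exact ((levi S).mem_bm_iff x).1 hx ()
  · exact (levS_form L j x.2 c hc).1

theorem fb_surj (S : Simp L j al) (a : (levi S).bL) : ∃ b : L.bL, fb S b = a := by
  refine ⟨⟨((a : lev S) : g), mi_levi_bm a.2⟩, ?_⟩
  apply Subtype.ext
  apply Subtype.ext
  rw [coe_fb]
  show L.Ph ((a : lev S) : g) + L.form ((a : lev S) : g) (L.e j) • L.f j = ((a : lev S) : g)
  conv_rhs => rw [levS_decomp L j (a : lev S).2]
  have h1 : L.form ((a : lev S) : g) (L.f j) = 0 := ((levi S).mem_bm_iff (a : lev S)).1 a.2 ()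
  rw [h1, zero_smul, zero_add]
  congr 1
  unfold Ph
  rw [LinearMap.sum_apply]
  rfl

end LD

section NU

variable {g β ι : Type} [LieRing g] [LieAlgebra ℂ g] [Fintype β] [DecidableEq β] [Fintype ι]
  [DecidableEq ι] {L : LD g β ι} {A : Matrix ι ι ℤ} {p : ℕ}

/-- The module `N_ν` for the charge `-ν`: a highest weight module of highest weight `ν` with the
projection `l` to the highest weight line. -/
structure LD.NU (K : L.Car A p) (ν : ι → ℤ) (N : Type) [AddCommGroup N] [Module ℂ N]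
    [LieRingModule g N] [LieModule ℂ g N] where
  v0 : N
  hw : L.HW N v0 (fun i => ((pr A i ν : ℤ) : ℂ))
  c : LD.Chr K (toC (-ν)) (L.rep N)
  c0 : c.l v0 = 1

variable {K : L.Car A p} {ν : ι → ℤ} {N : Type} [AddCommGroup N] [Module ℂ N] [LieRingModule g N]
  [LieModule ℂ g N] {j : β} {al : ι → ℂ}

theorem mi_form_zero_left (A : Matrix ι ι ℤ) (p : ℕ) (s : ι → ℂ) : WPQ.form A p 0 s = 0 := by
  have := mi_form_smul_left A p 0 0 s
  rwa [zero_smul, zero_mul] at this

theorem LD.Chr.l_f {s : ι → ℂ} (c : LD.Chr K s (L.rep N)) (b : β) (v : N) :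
    c.l ⁅L.f b, v⁆ = 0 := by
  have h := c.hl (L.fB b) v
  rw [L.cf_nm p (L.fB b) (L.f_mem_nm b), mi_form_zero_left, zero_mul] at h
  exact h

theorem LD.Chr.l_IN {s : ι → ℂ} (c : LD.Chr K s (L.rep N)) (v : N) (hv : v ∈ LD.IN L j N) :
    c.l v = 0 := by
  unfold LD.IN at hv
  induction hv using Submodule.span_induction with
  | mem x hx =>
    obtain ⟨b, _, w, rfl⟩ := hx
    exact c.l_f b w
  | zero => exact map_zero _
  | add x y _ _ hx hy => rw [map_add, hx, hy, add_zero]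
  | smul a x _ hx => rw [map_smul, hx, smul_zero]

/-- The character of `N^(j)`. -/
def LD.Chr.levi {s : ι → ℂ} (c : LD.Chr K s (L.rep N)) (S : LD.Simp L j al) :
    LD.Chr (K.levi S) s ((LD.levi S).rep (LD.NQ S N)) where
  l := (LD.INl S N).toSubmodule.liftQ c.l fun v hv => c.l_IN v hv
  hl := by
    intro a v
    obtain ⟨b, rfl⟩ := LD.fb_surj S a
    obtain ⟨w, rfl⟩ := LD.nq_surj S v
    have h : ((LD.levi S).rep (LD.NQ S N)).ρ (LD.fb S b) (LD.nq S N w) =
        LD.nq S N ⁅(b : g), w⁆ := (LD.nq_fb S b w).symm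
    rw [h, LD.cf_fb]
    show c.l ⁅(b : g), w⁆ = WPQ.form A p (L.cf p b) s * c.l w
    exact c.hl b w

theorem LD.Chr.levi_nq {s : ι → ℂ} (c : LD.Chr K s (L.rep N)) (S : LD.Simp L j al) (v : N) :
    (c.levi S).l (LD.nq S N v) = c.l v := rfl

/-- The module `N_ν^(j)`. -/
def LD.NU.levi (M : LD.NU K ν N) (S : LD.Simp L j al) : LD.NU (K.levi S) ν (LD.NQ S N) where
  v0 := LD.nq S N M.v0
  hw := LD.nq_HW S M.hw
  c := M.c.levi S
  c0 := M.c0

/-- `Υ' ∘ cmap = Υ`. -/
theorem LD.Internal.Ups_cmap {s : ι → ℂ} (c : LD.Chr K s (L.rep N)) (S : LD.Simp L j al)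
    (x : CC (L.kb (p : ℂ)⁻¹) L.nL (TMod.ofRep (L.rep N))) :
    LD.Ups (c.levi S) ((LD.toLev S (p : ℂ)⁻¹ N).cmap x) = LD.Ups c x := by
  have h : LD.Ups (c.levi S) ∘ₗ (LD.toLev S (p : ℂ)⁻¹ N).cmap = LD.Ups c := by
    refine Ind.hom_ext (X := (LD.fockG K s).toBMod) ?_ (LD.Ups_J c) ?_
    · intro m a x
      exact ((congrArg (LD.Ups (c.levi S)) ((LD.toLev S (p : ℂ)⁻¹ N).cmap_J m a x)).trans
        (LD.Ups_J (c.levi S) m (LD.fb S a) ((LD.toLev S (p : ℂ)⁻¹ N).cmap x))).trans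
          (congrArg (fun t : ι → ℂ => heis A p t m s
            (LD.Ups (c.levi S) ((LD.toLev S (p : ℂ)⁻¹ N).cmap x))) (LD.cf_fb S p a))
    · intro v
      exact ((congrArg (LD.Ups (c.levi S)) (CHom.cmap_incl (LD.toLev S (p : ℂ)⁻¹ N) v)).trans
        (LD.Ups_incl _ _)).trans (LD.Ups_incl c v).symm
  exact LinearMap.congr_fun h x

namespace LD

export Internal (Ups_cmap)

end LD

end NU

end

end WPE
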