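import Pool.Agent.WPE.KG12
import Pool.Agent.WPE.KGA
import Pool.Agent.WPE.MIE

/-! WPE, block MI: the instance `g = V_Q(1)`, `N_ν`. -/

namespace WPE

open scoped TensorProduct
open MvPolynomial WPQ

noncomputable section

namespace LD

variable {g β ι : Type} [LieRing g] [LieAlgebra ℂ g] [Fintype β] [DecidableEq β] [Fintype ι]
  [DecidableEq ι] {L : LD g β ι} {A : Matrix ι ι ℤ} {p : ℕ}

theorem mi_form_cf (K : L.Car A p) (ν : ι → ℤ) (a : L.bL) :
    WPQ.form A p (L.cf p a) (toC (-ν)) =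
      ∑ i, L.form (a : g) (L.h' i) * ((pr A i ν : ℤ) : ℂ) := by
  have hp0 : (p : ℂ) ≠ 0 := by
    have h1 := K.hp
    have : p ≠ 0 := by omega
    exact_mod_cast this
  unfold WPQ.form pr
  rw [Finset.mul_sum]
  refine Finset.sum_congr rfl fun i _ => ?_
  push_cast
  rw [Finset.mul_sum, Finset.mul_sum]
  refine Finset.sum_congr rfl fun j _ => ?_
  rw [cf_apply]
  unfold toC
  rw [Pi.neg_apply]
  push_cast
  field_simp

/-- A character from its values on `h` and `n₋`. -/
def chrOf (K : L.Car A p) (ν : ι → ℤ) {N : Type} [AddCommGroup N] [Module ℂ N]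
    [LieRingModule g N] [LieModule ℂ g N] (l : N →ₗ[ℂ] ℂ) (hf : ∀ b v, l ⁅L.f b, v⁆ = 0)
    (hh : ∀ i v, l ⁅L.h i, v⁆ = ((pr A i ν : ℤ) : ℂ) * l v) : Chr K (toC (-ν)) (L.rep N) where
  l := l
  hl := by
    intro a v
    have h1 : (a : g) = ∑ i, L.form (a : g) (L.h' i) • L.h i +
        ∑ b, L.form (a : g) (L.e b) • L.f b := by
      conv_lhs => rw [L.decomp (a : g)]
      have h2 := (L.mem_bm_iff (a : g)).1 a.2
      simp only [h2, zero_smul, Finset.sum_const_zero, zero_add]
    have h3 : (L.rep N).ρ a v = ⁅(a : g), v⁆ := rfl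
    rw [h3, mi_form_cf K, Finset.sum_mul]
    conv_lhs => rw [h1]
    rw [add_lie, sum_lie, sum_lie, map_add, map_sum, map_sum]
    have h4 : ∑ b, l ⁅L.form (a : g) (L.e b) • L.f b, v⁆ = 0 := by
      refine Finset.sum_eq_zero fun b _ => ?_
      rw [smul_lie, map_smul, hf, smul_zero]
    rw [h4, add_zero]
    refine Finset.sum_congr rfl fun i _ => ?_
    rw [smul_lie, map_smul, hh, smul_eq_mul, mul_assoc]

end LD

section inst

variable {ι : Type} [Fintype ι] [DecidableEq ι] {A : Matrix ι ι ℤ}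

theorem ldG_car (hA : IsADE A) (e : Cocycle A 1) {p : ℕ} (hp : 1 ≤ p) :
    (ldG hA e).CarF A p (sr hA) where
  ade := hA
  hp := hp
  hh := ldG_hh hA e
  hr i := by
    show G1.frm hA e (G1.gh hA e (WPQ.rho A)) (G1.ghd hA e i) = WPQ.rho A i
    have h1 : WPQ.rho A = ∑ k, WPQ.rho A k • (bb k : ι → ℂ) := by
      funext j
      rw [Finset.sum_apply]
      rw [Finset.sum_eq_single j]
      · unfold bb
        rw [Pi.smul_apply, Pi.single_eq_same, smul_eq_mul, mul_one]
      · intro k _ hk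
        unfold bb
        rw [Pi.smul_apply, Pi.single_eq_of_ne (Ne.symm hk), smul_zero]
      · intro h
        exact absurd (Finset.mem_univ j) h
    have h2 : ∀ k, G1.frm hA e (G1.gh hA e (bb k)) (G1.ghd hA e i) = if k = i then 1 else 0 :=
      fun k => (kg_K5 hA e).hh' k i
    conv_lhs => rw [h1]
    rw [map_sum, map_sum, LinearMap.sum_apply]
    rw [Finset.sum_eq_single i]
    · rw [map_smul, map_smul, LinearMap.smul_apply, h2, if_pos rfl, smul_eq_mul, mul_one]
    · intro k _ hk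
      rw [map_smul, map_smul, LinearMap.smul_apply, h2, if_neg hk, smul_zero]
    · intro h
      exact absurd (Finset.mem_univ i) h
  simp j :=
    { ht := ldG_ht_sr hA e j
      he := fun i => by rw [ldG_h_e, pr_sr]
      hf := fun i => by rw [ldG_h_f, pr_sr] }
  inj := sr_inj hA
  F_eq := ldG_F hA e

/-- `N_ν` with the projection to the highest weight line. -/
def nuNN (hA : IsADE A) (e : Cocycle A 1) {p : ℕ} (hp : 1 ≤ p) (ν : ι → ℤ) (hν : Dom A ν) :
    LD.NU (ldG_car hA e hp).toCar ν (NN hA e ν) where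
  v0 := nv hA e ν
  hw := (kg_N1 hA e ν hν).hw
  c := LD.chrOf _ ν (kg_l hA e ν hν).choose (kg_l hA e ν hν).choose_spec.f_
    (kg_l hA e ν hν).choose_spec.h_
  c0 := (kg_l hA e ν hν).choose_spec.nv_

end inst

end

end WPE
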