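import Pool.Agent.WPE.MID
import Pool.Agent.WPE.VGD
import Pool.Agent.WPQ.CY0
set_option linter.unusedSectionVars false
namespace WPE
open scoped TensorProduct
open MvPolynomial WPQ

section MJ

variable {ι : Type} [Fintype ι] [DecidableEq ι] {A : Matrix ι ι ℤ} {p : ℕ}

namespace MIR10

theorem mem_MJ (ε : Cocycle A p) (j : ι) (ν : ι → ℤ) (f : Fock ι) :
    f ∈ MJ ε j ν ↔ vop A p (Pi.single j (-(p : ℂ)⁻¹)) (pr A j (-ν) - 1) f = 0 ∧
      (Ej ε (Shift.zero A p) j ^ ((pr A j ν).toNat + 1)) (Finsupp.single (-ν) f) = 0 := Iff.rfl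

theorem unit_ne (u : ℤˣ) : ((u : ℤ) : ℂ) ≠ 0 := by
  have h := u.ne_zero
  exact_mod_cast h

end MIR10

/-- [MI11] -/
theorem mi_MJ_Mn (ε : Cocycle A p) (ν : ι → ℤ) (v : VL ι) :
    v ∈ Mn ε ν ↔ ∃ f : Fock ι, (∀ j, f ∈ MJ ε j ν) ∧ v = Finsupp.single (-ν) f := by
  rw [mem_Mn]
  constructor
  · rintro ⟨h1, h2, h3⟩
    have hv : v = Finsupp.single (-ν) (v (-ν)) := by
      ext1 γ
      by_cases hγ : γ = -ν
      · subst hγ
        rw [Finsupp.single_eq_same]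
      · rw [Finsupp.single_eq_of_ne hγ]
        by_contra hne
        exact hγ (h2 (Finsupp.mem_support_iff.2 hne))
    refine ⟨v (-ν), fun j => ?_, hv⟩
    rw [MIR10.mem_MJ]
    refine ⟨?_, ?_⟩
    · rw [hv] at h1
      exact (vp1_single_iff _ _).1 h1 j
    · rw [← hv]
      exact h3 j
  · rintro ⟨f, hf, rfl⟩
    refine ⟨(vp1_single_iff _ _).2 fun j => (hf j).1, ?_, fun j => (hf j).2⟩
    exact Finsupp.single_mem_supported ℂ f (Set.mem_singleton _)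

/-- [MI11] -/
theorem mi_MJ_KK (hA : IsADE A) (ε : Cocycle A p) (f : Fock ι) :
    f ∈ KK A p ↔ ∀ j, f ∈ MJ ε j 0 := by
  have h0 : ∀ j, f ∈ MJ ε j 0 ↔ vop A p (Pi.single j (-(p : ℂ)⁻¹)) (-1) f = 0 ∧
      vop A p (bb j) (-1) f = 0 := by
    intro j
    rw [MIR10.mem_MJ, neg_zero, vp1_pr_zero, Int.toNat_zero, zero_add, pow_one, Ej_single hA,
      vp1_pr_zero, mul_zero, add_zero, fl6_zero_kappa, sub_zero, Finsupp.single_eq_zero,
      smul_eq_zero, zero_sub]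
    constructor
    · rintro ⟨h1, h2⟩
      exact ⟨h1, h2.resolve_left (MIR10.unit_ne _)⟩
    · rintro ⟨h1, h2⟩
      exact ⟨h1, Or.inr h2⟩
  constructor
  · rintro ⟨h1, h2⟩ j
    exact (h0 j).2 ⟨h1 j, h2 j⟩
  · intro h
    exact ⟨fun j => ((h0 j).1 (h j)).1, fun j => ((h0 j).1 (h j)).2⟩

/-- [MI10] -/
theorem mi_MJ_one (hA : IsADE A) (hp : 2 ≤ p) (ε : Cocycle A p) (ν : ι → ℤ) (hν : Dom A ν)
    (j : ι) : (1 : Fock ι) ∈ MJ ε j ν := by
  obtain ⟨f, hf, h⟩ := (mi_MJ_Mn ε ν (lwv ν)).1 (lwv_Mn hA hp ε ν hν)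
  have h1 : (1 : Fock ι) = f := Finsupp.single_injective (-ν) h
  rw [h1]
  exact hf j

end MJ

end WPE
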