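import Pool.Agent.WPE.LA7

/-! WPE, block LA, row LA8: the anomaly term. -/

open scoped TensorProduct

namespace WPE

variable {g β η : Type} [LieRing g] [LieAlgebra ℂ g] [Fintype β] [DecidableEq β] [Fintype η] [DecidableEq η]

namespace LA8

/-- The bracket on pure tensors. -/
theorem brk_tmul (x y : g) : LD.brk (x ⊗ₜ[ℂ] y) = ⁅x, y⁆ := by
  unfold LD.brk
  rw [TensorProduct.lift.tmul]
  rfl

theorem adl_apply (x y : g) : LD.adl x y = ⁅x, y⁆ := rfl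

/-- `Sp` on pure tensors. -/
theorem Sp_tmul (L : LD g β η) (κ : ℂ) (a c z : g) :
    L.Sp κ a (c ⊗ₜ[ℂ] z) = ⁅⁅a, c⁆, z⁆ + κ • L.form a c • z := by
  unfold LD.Sp
  rw [LinearMap.add_apply, LinearMap.comp_apply, TensorProduct.map_tmul, brk_tmul, adl_apply, LinearMap.smul_apply,
    TensorProduct.lift.tmul]
  rfl

theorem Sp_add (L : LD g β η) (κ : ℂ) (a a' : g) (t : g ⊗[ℂ] g) :
    L.Sp κ (a + a') t = L.Sp κ a t + L.Sp κ a' t := by
  induction t using TensorProduct.induction_on with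
  | zero => rw [map_zero, map_zero, map_zero, add_zero]
  | tmul x y =>
    rw [Sp_tmul, Sp_tmul, Sp_tmul, add_lie, add_lie, map_add, LinearMap.add_apply, add_smul, smul_add]
    abel
  | add x y hx hy =>
    rw [map_add, map_add, map_add, hx, hy]
    abel

/-- Leibniz rule for the bracket. -/
theorem brk_leib (b : g) (t : g ⊗[ℂ] g) :
    LD.brk (TensorProduct.map (LD.adl b) LinearMap.id t) + LD.brk (TensorProduct.map LinearMap.id (LD.adl b) t) =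
      ⁅b, LD.brk t⁆ := by
  induction t using TensorProduct.induction_on with
  | zero => simp only [map_zero, lie_zero, add_zero]
  | tmul x y =>
    rw [TensorProduct.map_tmul, TensorProduct.map_tmul, brk_tmul, brk_tmul, brk_tmul, adl_apply, adl_apply,
      LinearMap.id_apply, LinearMap.id_apply, leibniz_lie b x y]
  | add x y hx hy =>
    rw [map_add, map_add, map_add, map_add, map_add, lie_add, ← hx, ← hy]
    abel

/-- Antisymmetry of the bracket. -/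
theorem brk_comm (t : g ⊗[ℂ] g) : LD.brk (TensorProduct.comm ℂ g g t) = -LD.brk t := by
  induction t using TensorProduct.induction_on with
  | zero => simp only [map_zero, neg_zero]
  | tmul x y => rw [TensorProduct.comm_tmul, brk_tmul, brk_tmul, lie_skew]
  | add x y hx hy =>
    rw [map_add, map_add, map_add, hx, hy]
    abel

/-- The two slots. -/
theorem map_comm (b : g) (t : g ⊗[ℂ] g) :
    TensorProduct.map LinearMap.id (LD.adl b) (TensorProduct.comm ℂ g g t) =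
      TensorProduct.comm ℂ g g (TensorProduct.map (LD.adl b) LinearMap.id t) := by
  induction t using TensorProduct.induction_on with
  | zero => simp only [map_zero]
  | tmul x y =>
    rw [TensorProduct.comm_tmul, TensorProduct.map_tmul, TensorProduct.map_tmul, TensorProduct.comm_tmul]
  | add x y hx hy =>
    rw [map_add, map_add, map_add, map_add, hx, hy]

/-- The bracket of `b` acting on the first slot of an antisymmetric tensor. -/
theorem brk_anti (b : g) (t : g ⊗[ℂ] g) (ht : TensorProduct.comm ℂ g g t = -t) :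
    (2 : ℂ) • LD.brk (TensorProduct.map (LD.adl b) LinearMap.id t) = ⁅b, LD.brk t⁆ := by
  have h1 := brk_leib b t
  have h2 := brk_comm (TensorProduct.map (LD.adl b) LinearMap.id t)
  rw [← map_comm, ht, map_neg, map_neg, neg_inj] at h2
  rw [h2] at h1
  rw [two_smul]
  exact h1

/-- The bracket of `Z(y)`. -/
theorem brk_Zt (L : LD g β η) (y : g) : LD.brk (L.Zt y) = (-2 : ℂ) • L.R y := by
  unfold LD.R
  rw [LinearMap.smul_apply, LinearMap.comp_apply, smul_smul]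
  norm_num

/-- The value of `Sp` on `Z(y)`. -/
theorem Sp_Zt (L : LD g β η) (κ : ℂ) (b y : g) (hb : b ∈ L.bm) (hy : y ∈ L.nm) :
    L.Sp κ b (L.Zt y) = -⁅b, L.R y⁆ := by
  have hP := la_P L
  have hO := la_O L
  have h1 : L.Sp κ b (L.Zt y) = LD.brk (TensorProduct.map (LD.adl b) LinearMap.id (L.Zt y)) := by
    rw [hO.Zt_apply, map_sum, map_sum, map_sum]
    refine Finset.sum_congr rfl fun c _ => ?_
    have h2 : L.form b (L.Pn ⁅L.e c, y⁆) = 0 := by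
      rw [L.symm]
      exact hP.form_nm_bm _ (hP.Pn_mem _) b hb
    rw [Sp_tmul, TensorProduct.map_tmul, brk_tmul, adl_apply, LinearMap.id_apply, h2, zero_smul, smul_zero, add_zero]
  have h3 := brk_anti b (L.Zt y) (hO.Zt_comm y hy)
  rw [brk_Zt, lie_smul] at h3
  rw [h1]
  have h4 : (2 : ℂ) • LD.brk (TensorProduct.map (LD.adl b) LinearMap.id (L.Zt y)) = (2 : ℂ) • -⁅b, L.R y⁆ := by
    rw [h3, smul_neg, neg_smul]
  exact smul_right_injective g (two_ne_zero (α := ℂ)) h4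

/-- The value of `Sp` on `Ω(y)`, `y` in `n₋`. -/
theorem Sp_Om (L : LD g β η) (κ : ℂ) (b y : g) (hb : b ∈ L.bm) (hy : y ∈ L.nm) :
    L.Sp κ b (L.Om y) = -⁅b, L.R y⁆ - ∑ i, (⁅⁅b, L.h i⁆, ⁅L.h' i, y⁆⁆ + κ • L.form b (L.h i) • ⁅L.h' i, y⁆) := by
  rw [(la_O L).Om_nm y hy, map_sub, Sp_Zt L κ b y hb hy, map_sum,
    Finset.sum_congr rfl fun i _ => Sp_tmul L κ _ _ _]

/-- The canonical element of `h` is symmetric. -/
theorem can_symm (L : LD g β η) (a b : g) :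
    ∑ i, ⁅⁅L.h' i, a⁆, ⁅L.h i, b⁆⁆ = ∑ i, ⁅⁅L.h i, a⁆, ⁅L.h' i, b⁆⁆ := by
  have hP := la_P L
  have h1 : ∀ i, L.h' i = ∑ j, L.form (L.h' i) (L.h' j) • L.h j := fun i => hP.hs_exp _ (hP.h'_mem i)
  have h2 : ∀ i, ⁅⁅L.h' i, a⁆, ⁅L.h i, b⁆⁆ = ∑ j, L.form (L.h' i) (L.h' j) • ⁅⁅L.h j, a⁆, ⁅L.h i, b⁆⁆ := by
    intro i
    conv_lhs => rw [h1 i]
    rw [sum_lie, sum_lie]
    refine Finset.sum_congr rfl fun j _ => ?_
    rw [smul_lie, smul_lie]
  have h3 : ∀ i, ⁅⁅L.h i, a⁆, ⁅L.h' i, b⁆⁆ = ∑ j, L.form (L.h' i) (L.h' j) • ⁅⁅L.h i, a⁆, ⁅L.h j, b⁆⁆ := by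
    intro i
    conv_lhs => rw [h1 i]
    rw [sum_lie, lie_sum]
    refine Finset.sum_congr rfl fun j _ => ?_
    rw [smul_lie, lie_smul]
  rw [Finset.sum_congr rfl fun i _ => h2 i, Finset.sum_congr rfl fun i _ => h3 i, Finset.sum_comm]
  refine Finset.sum_congr rfl fun i _ => Finset.sum_congr rfl fun j _ => ?_
  rw [L.symm]

end LA8

open LA8

theorem la_L (L : LD g β η) (κ : ℂ) (a b : g) (ha : a ∈ L.bm) (hb : b ∈ L.bm) :
    L.Sp κ b (L.Om a) + ⁅a, L.Lk κ b⁆ = L.Lk κ ⁅a, b⁆ := by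
  have hP := la_P L
  have hG := la_G L
  have hO := la_O L
  -- the four cases
  have c1 : ∀ a ∈ L.hs, ∀ b ∈ L.hs, L.Sp κ b (L.Om a) + ⁅a, L.Lk κ b⁆ = L.Lk κ ⁅a, b⁆ := by
    intro a ha b hb
    rw [hO.Om_hs a ha, map_zero, hO.Lk_hs κ b hb, lie_zero, hG.hs_hs a ha b hb, map_zero, add_zero]
  have c2 : ∀ a ∈ L.hs, ∀ b ∈ L.nm, L.Sp κ b (L.Om a) + ⁅a, L.Lk κ b⁆ = L.Lk κ ⁅a, b⁆ := by
    intro a ha b hb
    rw [hO.Om_hs a ha, map_zero, hO.Lk_nm κ b hb, hO.Lk_nm κ _ (hG.bm_nm a (hP.hs_le ha) b hb), zero_add, lie_add,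
      lie_smul, hO.R_hs a ha]
  have c3 : ∀ a ∈ L.nm, ∀ b ∈ L.hs, L.Sp κ b (L.Om a) + ⁅a, L.Lk κ b⁆ = L.Lk κ ⁅a, b⁆ := by
    intro a ha b hb
    have hab : ⁅a, b⁆ = -⁅b, a⁆ := (lie_skew a b).symm
    have hba : ⁅b, a⁆ ∈ L.nm := hG.bm_nm b (hP.hs_le hb) a ha
    have e1 : ∑ i, (⁅⁅b, L.h i⁆, ⁅L.h' i, a⁆⁆ + κ • L.form b (L.h i) • ⁅L.h' i, a⁆) = κ • ⁅b, a⁆ := by
      have e2 : ∀ i, ⁅⁅b, L.h i⁆, ⁅L.h' i, a⁆⁆ + κ • L.form b (L.h i) • ⁅L.h' i, a⁆ =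
          κ • ⁅L.form b (L.h i) • L.h' i, a⁆ := by
        intro i
        rw [hG.hs_hs b hb (L.h i) (Submodule.subset_span ⟨i, rfl⟩), zero_lie, zero_add, smul_lie]
      rw [Finset.sum_congr rfl fun i _ => e2 i, ← Finset.smul_sum, ← sum_lie, ← hP.hs_exp' b hb]
    rw [Sp_Om L κ b a (hP.hs_le hb) ha, e1, hO.Lk_hs κ b hb, lie_zero, add_zero, hab, map_neg, hO.Lk_nm κ _ hba,
      hO.R_hs b hb]
    abel
  have c4 : ∀ a ∈ L.nm, ∀ b ∈ L.nm, L.Sp κ b (L.Om a) + ⁅a, L.Lk κ b⁆ = L.Lk κ ⁅a, b⁆ := by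
    intro a ha b hb
    have e1 : ∑ i, (⁅⁅b, L.h i⁆, ⁅L.h' i, a⁆⁆ + κ • L.form b (L.h i) • ⁅L.h' i, a⁆) =
        ∑ i, ⁅⁅L.h i, a⁆, ⁅L.h' i, b⁆⁆ := by
      rw [← can_symm]
      refine Finset.sum_congr rfl fun i _ => ?_
      have e2 : L.form b (L.h i) = 0 := hP.form_nm_bm b hb _ (hP.hs_le (Submodule.subset_span ⟨i, rfl⟩))
      rw [e2, zero_smul, smul_zero, add_zero, ← lie_skew b (L.h i), neg_lie, lie_skew]
    rw [Sp_Om L κ b a (hP.nm_le hb) ha, e1, hO.Lk_nm κ b hb, hO.Lk_nm κ _ (hG.bm_nm a (hP.nm_le ha) b hb),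
      la_R L a b ha hb, lie_add, lie_smul, ← lie_skew b (L.R a)]
    abel
  -- bilinearity
  obtain ⟨a1, ha1, a2, ha2, rfl⟩ := Submodule.mem_sup.1 ha
  obtain ⟨b1, hb1, b2, hb2, rfl⟩ := Submodule.mem_sup.1 hb
  have h1 := c1 a1 ha1 b1 hb1
  have h2 := c2 a1 ha1 b2 hb2
  have h3 := c3 a2 ha2 b1 hb1
  have h4 := c4 a2 ha2 b2 hb2
  rw [map_add, map_add, Sp_add, Sp_add, map_add, add_lie, lie_add, lie_add, add_lie, lie_add, lie_add, map_add,
    map_add, map_add, ← h1, ← h2, ← h3, ← h4]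
  abel

end WPE
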