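import Pool.Agent.WPE.LA5

open scoped TensorProduct

namespace WPE

variable {g β η : Type} [LieRing g] [LieAlgebra ℂ g] [Fintype β] [DecidableEq β] [Fintype η]
  [DecidableEq η]

namespace LA9

/-- pairing of both slots -/
noncomputable def E (L : LD g β η) (u w : g) : g ⊗[ℂ] g →ₗ[ℂ] ℂ :=
  TensorProduct.lift ((LinearMap.mul ℂ ℂ).compl₁₂ (L.form.flip u) (L.form.flip w))

theorem E_tmul (L : LD g β η) (u w x y : g) : E L u w (x ⊗ₜ[ℂ] y) = L.form x u * L.form y w := rfl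

/-- `n₋ ⊗ n₋` -/
def NN (L : LD g β η) : Submodule ℂ (g ⊗[ℂ] g) :=
  Submodule.span ℂ {t | ∃ u ∈ L.nm, ∃ v ∈ L.nm, t = u ⊗ₜ[ℂ] v}

theorem tmul_mem (L : LD g β η) {u v : g} (hu : u ∈ L.nm) (hv : v ∈ L.nm) :
    u ⊗ₜ[ℂ] v ∈ NN L := Submodule.subset_span ⟨u, hu, v, hv, rfl⟩

theorem f_mem (L : LD g β η) (b : β) : L.f b ∈ L.nm := Submodule.subset_span ⟨b, rfl⟩

theorem e_mem (L : LD g β η) (b : β) : L.e b ∈ L.np := Submodule.subset_span ⟨b, rfl⟩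

theorem NN_exp (L : LD g β η) (T : g ⊗[ℂ] g) (hT : T ∈ NN L) :
    T = ∑ c, ∑ b, E L (L.e c) (L.e b) T • (L.f c ⊗ₜ[ℂ] L.f b) := by
  have hP := la_P L
  induction hT using Submodule.span_induction with
  | mem t ht =>
    obtain ⟨u, hu, v, hv, rfl⟩ := ht
    have h1 : u ⊗ₜ[ℂ] v = (∑ c, L.form u (L.e c) • L.f c) ⊗ₜ[ℂ] (∑ b, L.form v (L.e b) • L.f b) := by
      rw [← hP.nm_exp u hu, ← hP.nm_exp v hv]
    refine h1.trans ?_
    rw [TensorProduct.sum_tmul]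
    refine Finset.sum_congr rfl fun c _ => ?_
    rw [TensorProduct.tmul_sum]
    refine Finset.sum_congr rfl fun b _ => ?_
    rw [E_tmul, TensorProduct.smul_tmul_smul]
  | zero => simp
  | add s t _ _ hs ht =>
    conv_lhs => rw [hs, ht]
    rw [← Finset.sum_add_distrib]
    refine Finset.sum_congr rfl fun c _ => ?_
    rw [← Finset.sum_add_distrib]
    refine Finset.sum_congr rfl fun b _ => ?_
    rw [map_add, add_smul]
  | smul a t _ ht =>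
    conv_lhs => rw [ht]
    rw [Finset.smul_sum]
    refine Finset.sum_congr rfl fun c _ => ?_
    rw [Finset.smul_sum]
    refine Finset.sum_congr rfl fun b _ => ?_
    rw [map_smul, smul_assoc]

theorem NN_ext (L : LD g β η) (S T : g ⊗[ℂ] g) (hS : S ∈ NN L) (hT : T ∈ NN L)
    (h : ∀ c b, E L (L.e c) (L.e b) S = E L (L.e c) (L.e b) T) : S = T := by
  rw [NN_exp L S hS, NN_exp L T hT]
  refine Finset.sum_congr rfl fun c _ => Finset.sum_congr rfl fun b _ => ?_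
  rw [h]

theorem skew (L : LD g β η) (x y z : g) : L.form ⁅x, y⁆ z = -L.form y ⁅x, z⁆ := by
  rw [← lie_skew, map_neg, LinearMap.neg_apply, L.inv]

/-- contraction of the second slot -/
theorem E_sum (L : LD g β η) (φ : g →ₗ[ℂ] g) (e e1 : g) (he1 : e1 ∈ L.np) :
    E L e e1 (∑ b, φ (L.e b) ⊗ₜ[ℂ] L.f b) = L.form (φ e1) e := by
  have hP := la_P L
  rw [map_sum]
  have h1 : φ e1 = ∑ b, L.form e1 (L.f b) • φ (L.e b) := by
    conv_lhs => rw [hP.np_exp e1 he1]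
    rw [map_sum]
    exact Finset.sum_congr rfl fun b _ => by rw [map_smul]
  rw [h1, map_sum, LinearMap.sum_apply]
  refine Finset.sum_congr rfl fun b _ => ?_
  rw [E_tmul, map_smul, LinearMap.smul_apply, smul_eq_mul, L.symm (L.f b) e1, mul_comm]

theorem E_Zt (L : LD g β η) (w e e1 : g) (he : e ∈ L.np) (he1 : e1 ∈ L.np) :
    E L e e1 (L.Zt w) = L.form w ⁅e, e1⁆ := by
  have hP := la_P L
  have hO := la_O L
  have h1 : L.Zt w = ∑ b, (L.Pn ∘ₗ (LD.ad2.flip w)) (L.e b) ⊗ₜ[ℂ] L.f b := by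
    rw [hO.Zt_apply]
    rfl
  rw [h1, E_sum L _ e e1 he1]
  show L.form (L.Pn ⁅e1, w⁆) e = L.form w ⁅e, e1⁆
  rw [hP.form_Pn _ e he, skew, ← lie_skew, map_neg, neg_neg]

theorem E_Yt (L : LD g β η) (a y e e1 : g) (he1 : e1 ∈ L.np) :
    E L e e1 (L.Yt a y) = L.form ⁅L.Pb ⁅e1, a⁆, y⁆ e := by
  have h1 : L.Yt a y = ∑ b, ((LD.ad2.flip y) ∘ₗ L.Pb ∘ₗ (LD.ad2.flip a)) (L.e b) ⊗ₜ[ℂ] L.f b := rfl
  rw [h1, E_sum L _ e e1 he1]
  rfl

theorem E_comm (L : LD g β η) (e e1 : g) (T : g ⊗[ℂ] g) :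
    E L e e1 (TensorProduct.comm ℂ g g T) = E L e1 e T := by
  induction T using TensorProduct.induction_on with
  | zero => simp
  | tmul x y => rw [TensorProduct.comm_tmul, E_tmul, E_tmul, mul_comm]
  | add s t hs ht => rw [map_add, map_add, map_add, hs, ht]

theorem comm_mem (L : LD g β η) (T : g ⊗[ℂ] g) (hT : T ∈ NN L) :
    TensorProduct.comm ℂ g g T ∈ NN L := by
  induction hT using Submodule.span_induction with
  | mem t ht =>
    obtain ⟨u, hu, v, hv, rfl⟩ := ht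
    rw [TensorProduct.comm_tmul]
    exact tmul_mem L hv hu
  | zero => rw [map_zero]; exact Submodule.zero_mem _
  | add s t _ _ hs ht => rw [map_add]; exact Submodule.add_mem _ hs ht
  | smul a t _ ht => rw [map_smul]; exact Submodule.smul_mem _ a ht

theorem lie_mem (L : LD g β η) (a : g) (ha : a ∈ L.bm) (T : g ⊗[ℂ] g) (hT : T ∈ NN L) :
    ⁅a, T⁆ ∈ NN L := by
  have hG := la_G L
  induction hT using Submodule.span_induction with
  | mem t ht =>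
    obtain ⟨u, hu, v, hv, rfl⟩ := ht
    rw [TensorProduct.LieModule.lie_tmul_right]
    exact Submodule.add_mem _ (tmul_mem L (hG.bm_nm a ha u hu) hv)
      (tmul_mem L hu (hG.bm_nm a ha v hv))
  | zero => rw [lie_zero]; exact Submodule.zero_mem _
  | add s t _ _ hs ht => rw [lie_add]; exact Submodule.add_mem _ hs ht
  | smul c t _ ht => rw [lie_smul]; exact Submodule.smul_mem _ c ht

/-- pairing of `n₋` with an arbitrary element -/
theorem form_nm (L : LD g β η) (u : g) (hu : u ∈ L.nm) (x : g) :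
    L.form u x = L.form u (L.Pp x) := by
  have hP := la_P L
  have h1 : x = L.Pp x + L.Pb x := by rw [hP.Pb_eq]; abel
  conv_lhs => rw [h1]
  rw [map_add, hP.form_nm_bm u hu _ (hP.Pb_mem x), add_zero]

theorem E_lie (L : LD g β η) (a e e1 : g) (T : g ⊗[ℂ] g) (hT : T ∈ NN L) :
    E L e e1 ⁅a, T⁆ = -E L (L.Pp ⁅a, e⁆) e1 T - E L e (L.Pp ⁅a, e1⁆) T := by
  induction hT using Submodule.span_induction with
  | mem t ht =>
    obtain ⟨u, hu, v, hv, rfl⟩ := ht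
    rw [TensorProduct.LieModule.lie_tmul_right, map_add, E_tmul, E_tmul, E_tmul, E_tmul, skew L a u,
      skew L a v, form_nm L u hu ⁅a, e⁆, form_nm L v hv ⁅a, e1⁆]
    ring
  | zero => rw [lie_zero, map_zero, map_zero, map_zero]; ring
  | add s t _ _ hs ht => rw [lie_add, map_add, map_add, map_add, hs, ht]; ring
  | smul c t _ ht =>
    rw [lie_smul, map_smul, map_smul, map_smul, ht, smul_eq_mul, smul_eq_mul, smul_eq_mul]
    ring

theorem Zt_mem (L : LD g β η) (w : g) : L.Zt w ∈ NN L := by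
  rw [(la_O L).Zt_apply]
  exact Submodule.sum_mem _ fun b _ => tmul_mem L ((la_P L).Pn_mem _) (f_mem L b)

theorem Yt_mem (L : LD g β η) (a y : g) (hy : y ∈ L.nm) : L.Yt a y ∈ NN L := by
  refine Submodule.sum_mem _ fun b _ => tmul_mem L ?_ (f_mem L b)
  exact (la_G L).bm_nm _ ((la_P L).Pb_mem _) y hy

end LA9

theorem la_Y (L : LD g β η) (a y : g) (ha : a ∈ L.bm) (hy : y ∈ L.nm) :
    L.Zt ⁅a, y⁆ - ⁅a, L.Zt y⁆ = L.Yt a y - TensorProduct.comm ℂ g g (L.Yt a y) := by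
  have hP := la_P L
  refine LA9.NN_ext L _ _ ?_ ?_ ?_
  · exact Submodule.sub_mem _ (LA9.Zt_mem L _) (LA9.lie_mem L a ha _ (LA9.Zt_mem L y))
  · exact Submodule.sub_mem _ (LA9.Yt_mem L a y hy) (LA9.comm_mem L _ (LA9.Yt_mem L a y hy))
  · intro c b
    have he := LA9.e_mem L c
    have he1 := LA9.e_mem L b
    rw [map_sub, map_sub, LA9.E_lie L a _ _ _ (LA9.Zt_mem L y), LA9.E_Zt L _ _ _ he he1,
      LA9.E_Zt L _ _ _ (hP.Pp_mem _) he1, LA9.E_Zt L _ _ _ he (hP.Pp_mem _),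
      LA9.E_comm, LA9.E_Yt L a y _ _ he1, LA9.E_Yt L a y _ _ he]
    have h1 : L.form ⁅a, y⁆ ⁅L.e c, L.e b⁆ =
        -L.form y (⁅⁅a, L.e c⁆, L.e b⁆ + ⁅L.e c, ⁅a, L.e b⁆⁆) := by
      rw [LA9.skew, leibniz_lie]
    have h2 : ⁅a, L.e c⁆ = L.Pp ⁅a, L.e c⁆ + L.Pb ⁅a, L.e c⁆ := by rw [hP.Pb_eq]; abel
    have h3 : ⁅a, L.e b⁆ = L.Pp ⁅a, L.e b⁆ + L.Pb ⁅a, L.e b⁆ := by rw [hP.Pb_eq]; abel
    have h4 : ⁅⁅a, L.e c⁆, L.e b⁆ = ⁅L.Pp ⁅a, L.e c⁆, L.e b⁆ + ⁅L.Pb ⁅a, L.e c⁆, L.e b⁆ := by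
      conv_lhs => rw [h2]
      rw [add_lie]
    have h5 : ⁅L.e c, ⁅a, L.e b⁆⁆ = ⁅L.e c, L.Pp ⁅a, L.e b⁆⁆ + ⁅L.e c, L.Pb ⁅a, L.e b⁆⁆ := by
      conv_lhs => rw [h3]
      rw [lie_add]
    have h6 : L.form ⁅L.Pb ⁅L.e b, a⁆, y⁆ (L.e c) = -L.form y ⁅L.e c, L.Pb ⁅a, L.e b⁆⁆ := by
      rw [LA9.skew, ← lie_skew (L.e b) a, map_neg, neg_lie, ← lie_skew (L.e c) (L.Pb ⁅a, L.e b⁆)]
    have h7 : L.form ⁅L.Pb ⁅L.e c, a⁆, y⁆ (L.e b) = L.form y ⁅L.Pb ⁅a, L.e c⁆, L.e b⁆ := by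
      rw [LA9.skew, ← lie_skew (L.e c) a, map_neg, neg_lie, map_neg, neg_neg]
    rw [h1, h4, h5, h6, h7, map_add, map_add, map_add]
    ring

end WPE
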