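import Pool.Agent.WPE.BRL
import Pool.Agent.WPE.LA8
import Pool.Agent.WPE.LA9

set_option linter.unusedSectionVars false

open scoped TensorProduct
open WPQ.AF (IsFld)

namespace WPE

variable {g β η : Type} [LieRing g] [LieAlgebra ℂ g] [Fintype β] [DecidableEq β] [Fintype η]
  [DecidableEq η]

namespace BR17

/-- The inclusion of `n₋` is equivariant. -/
theorem jng_lie (L : LD g β η) (a : L.bL) (y : L.nL) : L.jng ⁅a, y⁆ = ⁅(a : g), L.jng y⁆ := rfl

theorem jb_lie (L : LD g β η) (a b : L.bL) : L.jb ⁅a, b⁆ = ⁅(a : g), L.jb b⁆ := rfl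

/-- The inclusion of `b₋ ⊗ n₋` is equivariant. -/
theorem map_bn_lie (L : LD g β η) (a : L.bL) (t : L.bL ⊗[ℂ] L.nL) :
    TensorProduct.map L.jb L.jng ⁅a, t⁆ = ⁅(a : g), TensorProduct.map L.jb L.jng t⁆ := by
  induction t using TensorProduct.induction_on with
  | zero => rw [lie_zero, map_zero, lie_zero]
  | add x y hx hy => rw [lie_add, map_add, hx, hy, map_add, lie_add]
  | tmul c z =>
    rw [TensorProduct.LieModule.lie_tmul_right, map_add, TensorProduct.map_tmul,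
      TensorProduct.map_tmul, TensorProduct.map_tmul, TensorProduct.LieModule.lie_tmul_right]
    rfl

theorem map_nn_lie (L : LD g β η) (a : L.bL) (t : L.nL ⊗[ℂ] L.nL) :
    TensorProduct.map L.jng L.jng ⁅a, t⁆ = ⁅(a : g), TensorProduct.map L.jng L.jng t⁆ := by
  induction t using TensorProduct.induction_on with
  | zero => rw [lie_zero, map_zero, lie_zero]
  | add x y hx hy => rw [lie_add, map_add, hx, hy, map_add, lie_add]
  | tmul c z =>
    rw [TensorProduct.LieModule.lie_tmul_right, map_add, TensorProduct.map_tmul,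
      TensorProduct.map_tmul, TensorProduct.map_tmul, TensorProduct.LieModule.lie_tmul_right]
    rfl

theorem map_comm (L : LD g β η) (t : L.nL ⊗[ℂ] L.nL) :
    TensorProduct.map L.jng L.jng (TensorProduct.comm ℂ L.nL L.nL t) =
      TensorProduct.comm ℂ g g (TensorProduct.map L.jng L.jng t) := by
  induction t using TensorProduct.induction_on with
  | zero => simp
  | add x y hx hy => rw [map_add, map_add, hx, hy, map_add, map_add]
  | tmul c z => rfl

/-- The maps `L` agree. -/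
theorem coe_LkN (L : LD g β η) (c : ℂ) (a : L.bL) : L.jng (L.LkN c a) = L.Lk c (a : g) :=
  (la_P L).Pn_nm _ ((la_O L).Lk_mem c (a : g))

/-- The bracket map. -/
theorem coe_brk (L : LD g β η) (c : ℂ) (b : L.bL) (t : L.bL ⊗[ℂ] L.nL) :
    L.jng (GMod.brk (L.kb c) L.nL b t) = L.Sp c (b : g) (TensorProduct.map L.jb L.jng t) := by
  induction t using TensorProduct.induction_on with
  | zero => simp
  | add x y hx hy => rw [map_add, map_add, hx, hy, map_add, map_add]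
  | tmul x z =>
    rw [GMod.brk_tmul, map_add, map_smul, TensorProduct.map_tmul, LD.kb_apply]
    unfold LD.Sp LD.brk
    rw [LinearMap.add_apply, LinearMap.comp_apply, TensorProduct.map_tmul,
      TensorProduct.lift.tmul, LinearMap.smul_apply, TensorProduct.lift.tmul, mul_smul]
    rfl

/-- `lieL` of `Ω` is `Y`. -/
theorem lieL_Om (L : LD g β η) (a : L.bL) (y : L.nL) :
    GMod.lieL L.bL y (L.OmB a) = L.YtN a y := by
  rw [LD.OmB_apply, map_sum]
  rfl

/-- `Ω`, `L` vanish on `h`. -/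
theorem Om_hs (L : LD g β η) (a : L.bL) (ha : (a : g) ∈ L.hs) : L.OmB a = 0 := by
  apply L.map_bn_inj
  rw [LD.coe_OmB, map_zero]
  exact (la_O L).Om_hs _ ha

theorem Lk_hs (L : LD g β η) (c : ℂ) (a : L.bL) (ha : (a : g) ∈ L.hs) : L.LkN c a = 0 := by
  apply L.jng_inj
  rw [coe_LkN, map_zero]
  exact (la_O L).Lk_hs c _ ha

/-- `Z` vanishes in degree `-1`. -/
theorem Zt_one (L : LD g β η) (y : L.nL) (hy : L.jng y ∈ L.gr (-1)) : L.ZtN y = 0 := by
  apply L.map_nn_inj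
  rw [LD.coe_ZtN, map_zero]
  exact (la_O L).Zt_one _ hy

/-- The generators of degree `-1`. -/
theorem Om_f (L : LD g β η) (c : ℂ) (b : β) (hb : L.ht b = 1) : L.OmB (L.fB b) ∈
    Submodule.span ℂ {t | ∃ (x : L.bL) (z : L.nL), L.OmB x = 0 ∧ L.LkN c x = 0 ∧
      L.ZtN z = 0 ∧ t = x ⊗ₜ[ℂ] z} := by
  rw [LD.OmB_apply]
  refine Submodule.sum_mem _ fun d _ => ?_
  have hg : ⁅L.e d, L.f b⁆ ∈ L.gr ((L.ht d : ℤ) + -(L.ht b : ℤ)) :=
    (la_G L).lie_gr _ _ _ ((la_G L).e_gr d) _ ((la_G L).f_gr b)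
  rcases Nat.eq_or_lt_of_le (L.ht_pos d) with hd | hd
  · have h0 : ⁅L.e d, L.f b⁆ ∈ L.hs := by
      rw [← (la_G L).gr_zero]
      rwa [← hd, hb, show ((1 : ℕ) : ℤ) + -((1 : ℕ) : ℤ) = 0 by norm_num] at hg
    have h1 : ((L.pib ⁅L.e d, ((L.fB b : L.bL) : g)⁆ : L.bL) : g) ∈ L.hs := by
      rw [LD.coe_pib]
      change L.Pb ⁅L.e d, L.f b⁆ ∈ L.hs
      rw [(la_P L).Pb_bm _ ((la_P L).hs_le h0)]
      exact h0
    refine Submodule.subset_span ⟨_, _, Om_hs L _ h1, Lk_hs L c _ h1, Zt_one L _ ?_, rfl⟩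
    rw [LD.jng_fN]
    have h2 := (la_G L).f_gr d
    rwa [← hd] at h2
  · have h0 : ⁅L.e d, L.f b⁆ ∈ L.np := (la_G L).gr_pos _ (by rw [hb]; omega) hg
    have h1 : L.pib ⁅L.e d, ((L.fB b : L.bL) : g)⁆ = 0 := by
      apply L.jb_inj
      rw [LD.jb_pib, map_zero]
      exact (la_P L).Pb_np _ h0
    rw [h1, TensorProduct.zero_tmul]
    exact Submodule.zero_mem _

end BR17

/-- [BR17] The identities of block LA for `b₋`, `n₋`. -/
theorem br_qd (L : LD g β η) (c : ℂ) : (L.qd c).Ok (L.kb c) where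
  inv := ⟨L.kb_symm c, L.kb_inv c⟩
  om_lie := by
    intro a b
    apply L.map_bn_inj
    change TensorProduct.map L.jb L.jng (⁅a, L.OmB b⁆ - ⁅b, L.OmB a⁆) =
      TensorProduct.map L.jb L.jng (L.OmB ⁅a, b⁆)
    rw [map_sub, BR17.map_bn_lie, BR17.map_bn_lie, LD.coe_OmB, LD.coe_OmB, LD.coe_OmB]
    exact la_cocycle L a b a.2 b.2
  lk_lie := by
    intro a b
    apply L.jng_inj
    change L.jng (GMod.brk (L.kb c) L.nL b (L.OmB a) + ⁅a, L.LkN c b⁆) = L.jng (L.LkN c ⁅a, b⁆)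
    rw [map_add, BR17.coe_brk, BR17.jng_lie, BR17.coe_LkN, BR17.coe_LkN, LD.coe_OmB]
    exact la_L L c a b a.2 b.2
  zt_lie := by
    intro a y
    apply L.map_nn_inj
    change TensorProduct.map L.jng L.jng (L.ZtN ⁅a, y⁆ - ⁅a, L.ZtN y⁆) =
      TensorProduct.map L.jng L.jng (GMod.lieL L.bL y (L.OmB a) -
        TensorProduct.comm ℂ L.nL L.nL (GMod.lieL L.bL y (L.OmB a)))
    rw [map_sub, map_sub, BR17.map_nn_lie, BR17.map_comm, BR17.lieL_Om, LD.coe_ZtN, LD.coe_ZtN,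
      LD.coe_YtN]
    exact la_Y L a ((y : L.bL) : g) a.2 y.2
  gen := by
    intro S hS1 hS2
    have hf1 : ∀ b, L.ht b = 1 → L.fB b ∈ S := by
      intro b hb
      refine hS1 _ (BR17.Om_f L c b hb) ?_
      refine BR17.Zt_one L _ ?_
      change L.jng (L.LkN c (L.fB b)) ∈ L.gr (-1)
      rw [BR17.coe_LkN]
      refine (la_O L).Lk_gr c (-1) _ ?_
      have h2 := (la_G L).f_gr b
      rwa [hb] at h2
    have hh : ∀ i, L.hB i ∈ S := by
      intro i
      refine hS1 _ ?_ ?_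
      · change L.OmB (L.hB i) ∈ _
        rw [BR17.Om_hs L (L.hB i) (L.h_mem_hs i)]
        exact Submodule.zero_mem _
      · change L.ZtN (L.LkN c (L.hB i)) = 0
        rw [BR17.Lk_hs L c (L.hB i) (L.h_mem_hs i), map_zero]
    have hf : ∀ b, L.f b ∈ S.map L.jb := by
      refine L.gen_f (S.map L.jb) ?_ ?_
      · intro b hb
        exact ⟨L.fB b, hf1 b hb, rfl⟩
      · rintro _ ⟨x, hx, rfl⟩ _ ⟨y, hy, rfl⟩
        exact ⟨⁅x, y⁆, hS2 x hx y hy, rfl⟩
    rw [eq_top_iff]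
    intro x _
    have hx : (x : g) ∈ S.map L.jb := by
      have hle : L.bm ≤ S.map L.jb := by
        refine sup_le (Submodule.span_le.2 ?_) (Submodule.span_le.2 ?_)
        · rintro _ ⟨i, rfl⟩
          exact ⟨L.hB i, hh i, rfl⟩
        · rintro _ ⟨b, rfl⟩
          exact hf b
      exact hle x.2
    obtain ⟨y, hy, hyx⟩ := hx
    rwa [← L.jb_inj hyx]
  zt_F := by
    apply L.map_nn_inj
    change TensorProduct.map L.jng L.jng (L.ZtN (L.pin L.F)) = TensorProduct.map L.jng L.jng 0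
    rw [LD.coe_ZtN, map_zero]
    change L.Zt (L.Pn L.F) = 0
    rw [(la_P L).Pn_nm _ (la_G L).F_nm]
    exact (la_O L).Zt_F

end WPE
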