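import Pool.Agent.WPE.LA2

open scoped TensorProduct

namespace WPE

variable {g β η : Type} [LieRing g] [LieAlgebra ℂ g] [Fintype β] [DecidableEq β] [Fintype η]
  [DecidableEq η]

namespace LA4

/-- The coefficients of the two sums are opposite. -/
theorem coef (L : LD g β η) (a : g) (b c : β) :
    L.form ⁅a, L.e b⁆ (L.f c) = -L.form ⁅a, L.f c⁆ (L.e b) := by
  rw [← lie_skew, map_neg, LinearMap.neg_apply, L.inv, L.symm (L.e b)]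

/-- Both sums in the basis `e c ⊗ f b`. -/
theorem zero_sum (L : LD g β η) (a : g) :
    ∑ b, (∑ c, L.form ⁅a, L.e b⁆ (L.f c) • L.e c) ⊗ₜ[ℂ] L.f b +
      ∑ b, L.e b ⊗ₜ[ℂ] (∑ c, L.form ⁅a, L.f b⁆ (L.e c) • L.f c) = 0 := by
  have h1 : ∑ b, (∑ c, L.form ⁅a, L.e b⁆ (L.f c) • L.e c) ⊗ₜ[ℂ] L.f b =
      ∑ b, ∑ c, L.form ⁅a, L.e b⁆ (L.f c) • (L.e c ⊗ₜ[ℂ] L.f b) := by
    refine Finset.sum_congr rfl fun b _ => ?_
    rw [TensorProduct.sum_tmul]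
    exact Finset.sum_congr rfl fun c _ => (TensorProduct.smul_tmul' _ _ _).symm
  have h2 : ∑ b, L.e b ⊗ₜ[ℂ] (∑ c, L.form ⁅a, L.f b⁆ (L.e c) • L.f c) =
      ∑ b, ∑ c, L.form ⁅a, L.f b⁆ (L.e c) • (L.e b ⊗ₜ[ℂ] L.f c) := by
    refine Finset.sum_congr rfl fun b _ => ?_
    rw [TensorProduct.tmul_sum]
    exact Finset.sum_congr rfl fun c _ => TensorProduct.tmul_smul _ _ _
  rw [h1, h2, Finset.sum_comm (f := fun b c => L.form ⁅a, L.f b⁆ (L.e c) • (L.e b ⊗ₜ[ℂ] L.f c)),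
    ← Finset.sum_add_distrib]
  refine Finset.sum_eq_zero fun b _ => ?_
  rw [← Finset.sum_add_distrib]
  refine Finset.sum_eq_zero fun c _ => ?_
  rw [coef, neg_smul, neg_add_cancel]

end LA4

theorem la_can (L : LD g β η) :
    (∀ a ∈ L.bm, ∑ b, L.Pp ⁅a, L.e b⁆ ⊗ₜ[ℂ] L.f b + ∑ b, L.e b ⊗ₜ[ℂ] ⁅a, L.f b⁆ = 0) ∧
    (∀ x ∈ L.np, ∑ b, ⁅x, L.e b⁆ ⊗ₜ[ℂ] L.f b + ∑ b, L.e b ⊗ₜ[ℂ] L.Pn ⁅x, L.f b⁆ = 0) := by
  have hP := la_P L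
  have hG := la_G L
  have he : ∀ b, L.e b ∈ L.np := fun b => Submodule.subset_span ⟨b, rfl⟩
  have hf : ∀ b, L.f b ∈ L.nm := fun b => Submodule.subset_span ⟨b, rfl⟩
  constructor
  · intro a ha
    have h := LA4.zero_sum L a
    have h1 : ∀ b, L.Pp ⁅a, L.e b⁆ = ∑ c, L.form ⁅a, L.e b⁆ (L.f c) • L.e c :=
      fun b => hP.Pp_apply _
    have h2 : ∀ b, ⁅a, L.f b⁆ = ∑ c, L.form ⁅a, L.f b⁆ (L.e c) • L.f c :=
      fun b => hP.nm_exp _ (hG.bm_nm a ha _ (hf b))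
    rw [Finset.sum_congr rfl fun b _ => congrArg (· ⊗ₜ[ℂ] L.f b) (h1 b),
      Finset.sum_congr rfl fun b _ => congrArg (L.e b ⊗ₜ[ℂ] ·) (h2 b)]
    exact h
  · intro x hx
    have h := LA4.zero_sum L x
    have h1 : ∀ b, ⁅x, L.e b⁆ = ∑ c, L.form ⁅x, L.e b⁆ (L.f c) • L.e c :=
      fun b => hP.np_exp _ (hG.np_np x hx _ (he b))
    have h2 : ∀ b, L.Pn ⁅x, L.f b⁆ = ∑ c, L.form ⁅x, L.f b⁆ (L.e c) • L.f c :=
      fun b => hP.Pn_apply _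
    rw [Finset.sum_congr rfl fun b _ => congrArg (· ⊗ₜ[ℂ] L.f b) (h1 b),
      Finset.sum_congr rfl fun b _ => congrArg (L.e b ⊗ₜ[ℂ] ·) (h2 b)]
    exact h

end WPE
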