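import Pool.Agent.WPE.BRL
import Pool.Agent.WPE.LA4

set_option linter.unusedSectionVars false

open scoped TensorProduct
open WPQ.AF (IsFld)

namespace WPE

variable {g β η : Type} [LieRing g] [LieAlgebra ℂ g] [Fintype β] [DecidableEq β] [Fintype η]
  [DecidableEq η]

namespace BR18

theorem pin_f (L : LD g β η) (b : β) : L.pin (L.f b) = L.fN b := by
  apply L.jng_inj
  rw [LD.jng_pin, LD.jng_fN]
  exact (la_P L).Pn_nm _ (L.f_mem_nm b)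

theorem pin_Pn (L : LD g β η) (x : g) : L.pin (L.Pn x) = L.pin x := by
  apply L.jng_inj
  rw [LD.jng_pin, LD.jng_pin]
  exact (la_P L).Pn_nm _ ((la_P L).Pn_mem x)

theorem pin_lie (L : LD g β η) (a : L.bL) (b : β) : L.pin ⁅(a : g), L.f b⁆ = ⁅a, L.fN b⁆ := by
  apply L.jng_inj
  rw [LD.jng_pin]
  exact (la_P L).Pn_nm _ (L.bm_nm (a : g) a.2 _ (L.f_mem_nm b))

/-- The map `x ⊗ y ↦ π_n y ⊗ x v`. -/
noncomputable def Ph (L : LD g β η) (N : Type) [AddCommGroup N] [Module ℂ N] [LieRingModule g N]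
    [LieModule ℂ g N] (v : N) : g ⊗[ℂ] g →ₗ[ℂ] L.nL ⊗[ℂ] N :=
  (TensorProduct.comm ℂ N L.nL).toLinearMap ∘ₗ
    TensorProduct.map ((LieModule.toEnd ℂ g N : g →ₗ[ℂ] Module.End ℂ N).flip v) L.pin

theorem Ph_tmul (L : LD g β η) (N : Type) [AddCommGroup N] [Module ℂ N] [LieRingModule g N]
    [LieModule ℂ g N] (v : N) (x y : g) : Ph L N v (x ⊗ₜ y) = L.pin y ⊗ₜ[ℂ] ⁅x, v⁆ := rfl

/-- First consequence of the invariance of the canonical element. -/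
theorem key1 (L : LD g β η) (N : Type) [AddCommGroup N] [Module ℂ N] [LieRingModule g N]
    [LieModule ℂ g N] (a : L.bL) (v : N) :
    ∑ b, ⁅a, L.fN b⁆ ⊗ₜ[ℂ] ⁅L.e b, v⁆ = ∑ b, L.fN b ⊗ₜ[ℂ] ⁅L.Pp ⁅L.e b, (a : g)⁆, v⁆ := by
  have h := congrArg (Ph L N v) ((la_can L).1 (a : g) a.2)
  rw [map_add, map_sum, map_sum, map_zero] at h
  simp only [Ph_tmul, pin_f, pin_lie] at h
  rw [add_comm, add_eq_zero_iff_eq_neg, ← Finset.sum_neg_distrib] at h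
  rw [h]
  refine Finset.sum_congr rfl fun b _ => ?_
  rw [← lie_skew (L.e b) (a : g), map_neg, neg_lie, TensorProduct.tmul_neg]

/-- Second consequence. -/
theorem key2 (L : LD g β η) (N : Type) [AddCommGroup N] [Module ℂ N] [LieRingModule g N]
    [LieModule ℂ g N] (b : β) (v : N) :
    ∑ c, L.pin ⁅L.e b, L.f c⁆ ⊗ₜ[ℂ] ⁅L.e c, v⁆ = -∑ c, L.fN c ⊗ₜ[ℂ] ⁅⁅L.e b, L.e c⁆, v⁆ := by
  have h := congrArg (Ph L N v) ((la_can L).2 (L.e b) (Submodule.subset_span ⟨b, rfl⟩))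
  rw [map_add, map_sum, map_sum, map_zero] at h
  simp only [Ph_tmul, pin_f, pin_Pn] at h
  rw [add_comm, add_eq_zero_iff_eq_neg] at h
  exact h

theorem key3 (L : LD g β η) (N : Type) [AddCommGroup N] [Module ℂ N] [LieRingModule g N]
    [LieModule ℂ g N] (b : β) (v : N) :
    ∑ c, L.pin ⁅L.e b, L.f c⁆ ⊗ₜ[ℂ] (L.fN b ⊗ₜ[ℂ] ⁅L.e c, v⁆) =
      -∑ c, L.fN c ⊗ₜ[ℂ] (L.fN b ⊗ₜ[ℂ] ⁅⁅L.e b, L.e c⁆, v⁆) := by
  have h := congrArg (LinearMap.lTensor L.nL (TensorProduct.mk ℂ L.nL N (L.fN b)))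
    (key2 L N b v)
  rw [map_neg, map_sum, map_sum] at h
  exact h

end BR18

/-- [BR18] -/
theorem br_qn (L : LD g β η) (c : ℂ) (N : Type) [AddCommGroup N] [Module ℂ N]
    [LieRingModule g N] [LieModule ℂ g N] : (L.qn N c).Ok where
  d_lie := by
    intro a v
    have h1 : (L.qn N c).d ((L.qn N c).R.ρ a v) = ∑ b, L.fN b ⊗ₜ[ℂ] ⁅L.e b, ⁅(a : g), v⁆⁆ := by
      rw [LD.qn_d]
      rfl
    have h2 : actYN L.nL (L.qn N c).R a ((L.qn N c).d v) =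
        ∑ b, (⁅a, L.fN b⁆ ⊗ₜ[ℂ] ⁅L.e b, v⁆ + L.fN b ⊗ₜ[ℂ] ⁅(a : g), ⁅L.e b, v⁆⁆) := by
      rw [LD.qn_d, map_sum]
      rfl
    have h3 : omN L.nL (L.qn N c).R ((L.qd c).Om a) v =
        ∑ b, L.fN b ⊗ₜ[ℂ] ⁅L.Pb ⁅L.e b, (a : g)⁆, v⁆ := by
      show omN L.nL (L.qn N c).R (L.OmB a) v = _
      rw [LD.OmB_apply, map_sum, LinearMap.sum_apply]
      refine Finset.sum_congr rfl fun b _ => ?_
      rw [omN_tmul]
      rfl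
    rw [h1, h2, h3, Finset.sum_add_distrib, BR18.key1, ← Finset.sum_add_distrib,
      ← Finset.sum_add_distrib]
    refine Finset.sum_congr rfl fun b _ => ?_
    rw [leibniz_lie (L.e b) (a : g) v, ← TensorProduct.tmul_add, ← TensorProduct.tmul_add]
    congr 1
    have h4 := (la_P L).Pb_eq ⁅L.e b, (a : g)⁆
    rw [h4, sub_lie]
    abel
  d_sq := by
    intro v
    have h1 : ztYN N (L.qd c) ((L.qn N c).d v) =
        ∑ b, ∑ c, L.pin ⁅L.e b, L.f c⁆ ⊗ₜ[ℂ] (L.fN b ⊗ₜ[ℂ] ⁅L.e c, v⁆) := by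
      rw [LD.qn_d, map_sum, Finset.sum_comm]
      refine Finset.sum_congr rfl fun c' _ => ?_
      show (TensorProduct.assoc ℂ L.nL L.nL N) ((L.ZtN (L.fN c')) ⊗ₜ[ℂ] ⁅L.e c', v⁆) = _
      rw [LD.ZtN_apply, TensorProduct.sum_tmul, map_sum]
      rfl
    have h2 : LinearMap.lTensor L.nL (L.qn N c).d ((L.qn N c).d v) =
        ∑ b, ∑ c, L.fN c ⊗ₜ[ℂ] (L.fN b ⊗ₜ[ℂ] ⁅L.e b, ⁅L.e c, v⁆⁆) := by
      rw [LD.qn_d, map_sum, Finset.sum_comm]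
      refine Finset.sum_congr rfl fun c' _ => ?_
      rw [LinearMap.lTensor_tmul, LD.qn_d, TensorProduct.tmul_sum]
    have h3 : (1 / 2 : ℂ) • ztYN N (L.qd c) ((L.qn N c).d v) +
        LinearMap.lTensor L.nL (L.qn N c).d ((L.qn N c).d v) =
        ∑ b, ∑ c, L.fN c ⊗ₜ[ℂ] (L.fN b ⊗ₜ[ℂ]
          (⁅L.e b, ⁅L.e c, v⁆⁆ - (1 / 2 : ℂ) • ⁅⁅L.e b, L.e c⁆, v⁆)) := by
      rw [h1, h2, Finset.smul_sum, ← Finset.sum_add_distrib]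
      refine Finset.sum_congr rfl fun b _ => ?_
      rw [BR18.key3, smul_neg, Finset.smul_sum, ← sub_eq_neg_add, ← Finset.sum_sub_distrib]
      refine Finset.sum_congr rfl fun c' _ => ?_
      rw [TensorProduct.tmul_sub, TensorProduct.tmul_sub, TensorProduct.tmul_smul,
        TensorProduct.tmul_smul]
    rw [h3, map_sum]
    have h4 : ∀ b : β, altYN L.nL N (∑ c, L.fN c ⊗ₜ[ℂ] (L.fN b ⊗ₜ[ℂ]
        (⁅L.e b, ⁅L.e c, v⁆⁆ - (1 / 2 : ℂ) • ⁅⁅L.e b, L.e c⁆, v⁆))) =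
        ∑ c, L.fN c ⊗ₜ[ℂ] (L.fN b ⊗ₜ[ℂ] (⁅L.e b, ⁅L.e c, v⁆⁆ - (1 / 2 : ℂ) • ⁅⁅L.e b, L.e c⁆, v⁆)) -
        ∑ c, L.fN b ⊗ₜ[ℂ] (L.fN c ⊗ₜ[ℂ]
          (⁅L.e b, ⁅L.e c, v⁆⁆ - (1 / 2 : ℂ) • ⁅⁅L.e b, L.e c⁆, v⁆)) := by
      intro b
      rw [map_sum, ← Finset.sum_sub_distrib]
      exact Finset.sum_congr rfl fun c' _ => altYN_tmul _ _ _
    rw [Finset.sum_congr rfl fun b _ => h4 b, Finset.sum_sub_distrib, sub_eq_zero]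
    conv_rhs => rw [Finset.sum_comm]
    refine Finset.sum_congr rfl fun b _ => Finset.sum_congr rfl fun c' _ => ?_
    congr 2
    have h5 : ⁅⁅L.e b, L.e c'⁆, v⁆ = ⁅L.e b, ⁅L.e c', v⁆⁆ - ⁅L.e c', ⁅L.e b, v⁆⁆ := lie_lie _ _ _
    have h6 : ⁅⁅L.e c', L.e b⁆, v⁆ = ⁅L.e c', ⁅L.e b, v⁆⁆ - ⁅L.e b, ⁅L.e c', v⁆⁆ := lie_lie _ _ _
    rw [h5, h6]
    module

end WPE
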