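import Mathlib

/-! WPE, common definitions: Lie data (W_DE_KDS.md, LA0, LA11, LA12).

`g` is a Lie algebra over `ℂ` with a symmetric invariant form, a triangular decomposition
`g = n₊ ⊕ h ⊕ n₋` given by dual bases `e b ∈ n₊`, `f b ∈ n₋` and `h i`, `h' i ∈ h`, a grading element
`rho ∈ h` (eigenvalue `ht b ≥ 1` on `e b`, `- ht b` on `f b`, `0` on `h`), and an element `F` of
degree `-1` such that `ad F : b₋ → n₋` is surjective; `n₋` is generated by its elements of degree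
`-1` (`gen_f`).  All other facts (`n₊`, `n₋`, `b₋` subalgebras,
`[h, n₋] ⊆ n₋`, nondegeneracy) follow from these axioms. -/

namespace WPE

noncomputable section

/-- Lie data. -/
structure LD (g β η : Type) [LieRing g] [LieAlgebra ℂ g] [Fintype β] [DecidableEq β] [Fintype η]
    [DecidableEq η] where
  form : g →ₗ[ℂ] g →ₗ[ℂ] ℂ
  e : β → g
  f : β → g
  h : η → g
  h' : η → g
  rho : g
  F : g
  ht : β → ℕ
  symm : ∀ x y, form x y = form y x
  inv : ∀ x y z, form ⁅x, y⁆ z = form x ⁅y, z⁆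
  ef : ∀ b c, form (e b) (f c) = if b = c then 1 else 0
  ee : ∀ b c, form (e b) (e c) = 0
  ff : ∀ b c, form (f b) (f c) = 0
  eh : ∀ b i, form (e b) (h i) = 0
  fh : ∀ b i, form (f b) (h i) = 0
  hh' : ∀ i j, form (h i) (h' j) = if i = j then 1 else 0
  h'_mem : ∀ i, h' i ∈ Submodule.span ℂ (Set.range h)
  decomp : ∀ x, x = ∑ b, form x (f b) • e b + ∑ i, form x (h' i) • h i + ∑ b, form x (e b) • f b
  comm_h : ∀ i j, ⁅h i, h j⁆ = 0
  rho_mem : rho ∈ Submodule.span ℂ (Set.range h)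
  ht_pos : ∀ b, 1 ≤ ht b
  rho_e : ∀ b, ⁅rho, e b⁆ = (ht b : ℂ) • e b
  rho_f : ∀ b, ⁅rho, f b⁆ = (-(ht b : ℂ)) • f b
  rho_F : ⁅rho, F⁆ = (-1 : ℂ) • F
  surj : ∀ b, ∃ x : g, (∀ c, form x (f c) = 0) ∧ ⁅F, x⁆ = f b
  gen_f : ∀ S : Submodule ℂ g, (∀ b, ht b = 1 → f b ∈ S) → (∀ x ∈ S, ∀ y ∈ S, ⁅x, y⁆ ∈ S) →
    ∀ b, f b ∈ S

variable {g β η : Type} [LieRing g] [LieAlgebra ℂ g] [Fintype β] [DecidableEq β] [Fintype η]
  [DecidableEq η]

namespace LD

variable (L : LD g β η)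

/-- The projection `π₊ : g → n₊`. -/
def Pp : g →ₗ[ℂ] g := ∑ b, (L.form.flip (L.f b)).smulRight (L.e b)

/-- The projection `π_h : g → h`. -/
def Ph : g →ₗ[ℂ] g := ∑ i, (L.form.flip (L.h' i)).smulRight (L.h i)

/-- The projection `π_n : g → n₋`. -/
def Pn : g →ₗ[ℂ] g := ∑ b, (L.form.flip (L.e b)).smulRight (L.f b)

/-- The projection `π : g → b₋ = h ⊕ n₋`. -/
def Pb : g →ₗ[ℂ] g := L.Ph + L.Pn

/-- `n₊` -/
def np : Submodule ℂ g := Submodule.span ℂ (Set.range L.e)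

/-- `n₋` -/
def nm : Submodule ℂ g := Submodule.span ℂ (Set.range L.f)

/-- `h` -/
def hs : Submodule ℂ g := Submodule.span ℂ (Set.range L.h)

/-- `b₋ = h ⊕ n₋` -/
def bm : Submodule ℂ g := L.hs ⊔ L.nm

/-- The homogeneous component of degree `c` of `g` (eigenspace of `ad rho`). -/
def gr (c : ℤ) : Submodule ℂ g where
  carrier := {x | ⁅L.rho, x⁆ = (c : ℂ) • x}
  add_mem' := by
    intro x y hx hy
    show ⁅L.rho, x + y⁆ = (c : ℂ) • (x + y)
    rw [lie_add, hx, hy, smul_add]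
  zero_mem' := by
    show ⁅L.rho, (0 : g)⁆ = (c : ℂ) • (0 : g)
    rw [lie_zero, smul_zero]
  smul_mem' := by
    intro a x hx
    show ⁅L.rho, a • x⁆ = (c : ℂ) • (a • x)
    rw [lie_smul, hx, smul_comm]

/-- `z = ker (ad F : b₋ → n₋)`. -/
def zc : Submodule ℂ g where
  carrier := {x | x ∈ L.bm ∧ ⁅L.F, x⁆ = 0}
  add_mem' := by
    rintro x y ⟨hx, hx'⟩ ⟨hy, hy'⟩
    exact ⟨add_mem hx hy, by rw [lie_add, hx', hy', add_zero]⟩
  zero_mem' := ⟨zero_mem _, lie_zero _⟩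
  smul_mem' := by
    rintro a x ⟨hx, hx'⟩
    exact ⟨Submodule.smul_mem _ a hx, by rw [lie_smul, hx', smul_zero]⟩

/-- The `β ⊕ η` indexed basis of `b₋`: `f b`, `h i`. -/
def bb : β ⊕ η → g := Sum.elim L.f L.h

/-- The degree of the basis elements of `b₋`: `- ht b`, `0`. -/
def cb : β ⊕ η → ℤ := Sum.elim (fun b => -(L.ht b : ℤ)) (fun _ => 0)

/-- The weight space `N_c` of a module. -/
def wsp (N : Type) [AddCommGroup N] [Module ℂ N] [LieRingModule g N] [LieModule ℂ g N] (c : ℤ) :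
    Submodule ℂ N where
  carrier := {x | ⁅L.rho, x⁆ = (c : ℂ) • x}
  add_mem' := by
    intro x y hx hy
    show ⁅L.rho, x + y⁆ = (c : ℂ) • (x + y)
    rw [lie_add, hx, hy, smul_add]
  zero_mem' := by
    show ⁅L.rho, (0 : N)⁆ = (c : ℂ) • (0 : N)
    rw [lie_zero, smul_zero]
  smul_mem' := by
    intro a x hx
    show ⁅L.rho, a • x⁆ = (c : ℂ) • (a • x)
    rw [lie_smul, hx, smul_comm]

/-- Graded modules: spanned by eigenvectors of `rho` with integral eigenvalues `≤ top`. -/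
def Gr (N : Type) [AddCommGroup N] [Module ℂ N] [LieRingModule g N] [LieModule ℂ g N]
    (top : ℤ) : Prop :=
  ∀ v : N, v ∈ Submodule.span ℂ {w : N | ∃ c : ℤ, c ≤ top ∧ w ∈ L.wsp N c}

/-- Highest weight modules: `N = U(n₋) v₀`, `e_b v₀ = 0`, `v₀` of weight `lam`. -/
structure HW (L : LD g β η) (N : Type) [AddCommGroup N] [Module ℂ N] [LieRingModule g N]
    [LieModule ℂ g N] (v0 : N) (lam : η → ℂ) : Prop where
  e_v0 : ∀ b, ⁅L.e b, v0⁆ = 0
  h_v0 : ∀ i, ⁅L.h i, v0⁆ = lam i • v0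
  gen : ∀ S : Submodule ℂ N, v0 ∈ S → (∀ b, ∀ x ∈ S, ⁅L.f b, x⁆ ∈ S) → S = ⊤

end LD

end

end WPE
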