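import Pool.Agent.WPE.FDE
import Pool.Agent.WPE.LD
import Pool.Agent.WPE.MIB

/-! WPE, block MI, row MI12: maps of complexes and the operators `t[m]`, `q(a)(m)`, the parts. -/

set_option linter.unusedSectionVars false

namespace WPE

open scoped TensorProduct
open MvPolynomial WPQ

noncomputable section

section cmap

variable {B B' : Type} [LieRing B] [LieAlgebra ℂ B] [LieRing B'] [LieAlgebra ℂ B']
variable {κ : B →ₗ[ℂ] B →ₗ[ℂ] ℂ} {κ' : B' →ₗ[ℂ] B' →ₗ[ℂ] ℂ}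
variable {Y : Type} [AddCommGroup Y] [Module ℂ Y] [LieRingModule B Y] [LieModule ℂ B Y]
variable {Y' : Type} [AddCommGroup Y'] [Module ℂ Y'] [LieRingModule B' Y'] [LieModule ℂ B' Y']
variable {N N' : Type} [AddCommGroup N] [Module ℂ N] [AddCommGroup N'] [Module ℂ N']
variable {T : TMod B N} {T' : TMod B' N'}

/-- [MI12] -/
theorem mi_cmap_nop (H : CHom κ κ' Y Y' T T') (m : ℤ) (t : B ⊗[ℂ] Y) (x : CC κ Y T) :
    H.cmap ((cmod κ Y T).nop m t x) =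
      (cmod κ' Y' T').nop m (TensorProduct.map (H.f : B →ₗ[ℂ] B') H.u t) (H.cmap x) := by
  classical
  induction t using TensorProduct.induction_on with
  | zero => simp
  | add t t' ht ht' =>
    rw [map_add, map_add, map_add, LinearMap.add_apply, LinearMap.add_apply, map_add, ht, ht']
  | tmul c z =>
    rw [TensorProduct.map_tmul, GMod.nop_tmul, GMod.nop_tmul]
    obtain ⟨s, hs⟩ := ((cmod κ Y T).lf_nopF m c z).exists_finset x
    obtain ⟨s', hs'⟩ := ((cmod κ' Y' T').lf_nopF m (H.f c) (H.u z)).exists_finset (H.cmap x)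
    have e1 : psum ((cmod κ Y T).nopF m c z) x = ∑ k ∈ s ∪ s', (cmod κ Y T).nopF m c z k x :=
      psum_eq_sum ((cmod κ Y T).lf_nopF m c z) x (s ∪ s')
        (fun k hk => hs k (fun hc => hk (Finset.mem_union_left _ hc)))
    have e2 : psum ((cmod κ' Y' T').nopF m (H.f c) (H.u z)) (H.cmap x) =
        ∑ k ∈ s ∪ s', (cmod κ' Y' T').nopF m (H.f c) (H.u z) k (H.cmap x) :=
      psum_eq_sum ((cmod κ' Y' T').lf_nopF m (H.f c) (H.u z)) (H.cmap x) (s ∪ s')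
        (fun k hk => hs' k (fun hc => hk (Finset.mem_union_right _ hc)))
    rw [e1, map_sum]
    refine Eq.trans ?_ e2.symm
    refine Finset.sum_congr rfl fun k _ => ?_
    unfold GMod.nopF
    by_cases hk : k < 0
    · rw [if_pos hk, if_pos hk, LinearMap.comp_apply, LinearMap.comp_apply, H.cmap_J,
        H.cmap_psi]
    · rw [if_neg hk, if_neg hk, LinearMap.comp_apply, LinearMap.comp_apply, H.cmap_psi,
        H.cmap_J]

/-- [MI12] -/
theorem mi_cmap_qq (H : CHom κ κ' Y Y' T T') (Om : B →ₗ[ℂ] B ⊗[ℂ] Y) (Lm Fm : B →ₗ[ℂ] Y)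
    (Om' : B' →ₗ[ℂ] B' ⊗[ℂ] Y') (Lm' Fm' : B' →ₗ[ℂ] Y')
    (h1 : ∀ a, TensorProduct.map (H.f : B →ₗ[ℂ] B') H.u (Om a) = Om' (H.f a))
    (h2 : ∀ a, H.u (Lm a) = Lm' (H.f a)) (h3 : ∀ a, H.u (Fm a) = Fm' (H.f a)) (m : ℤ) (a : B)
    (x : CC κ Y T) : H.cmap ((cmod κ Y T).qq Om Lm Fm m a x) =
      (cmod κ' Y' T').qq Om' Lm' Fm' m (H.f a) (H.cmap x) := by
  rw [GMod.qq_apply, GMod.qq_apply, map_add, map_sub, map_smul, mi_cmap_nop H m (Om a) x, h1,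
    H.cmap_psi, H.cmap_psi, h2, h3]

theorem MIR12.pr (u : Y →ₗ[ℂ] Y') (φ : N →ₗ[ℂ] N') (i : Fin 3) (v : KN Y N) :
    KNmap u φ (KNpr Y N i v) = KNpr Y' N' i (KNmap u φ v) := by
  fin_cases i
  · show KNmap u φ (KNpr Y N 0 v) = KNpr Y' N' 0 (KNmap u φ v)
    rw [KNpr_zero, KNpr_zero, KNmap_apply, KNmap_apply, map_zero, map_zero]
  · show KNmap u φ (KNpr Y N 1 v) = KNpr Y' N' 1 (KNmap u φ v)
    rw [KNpr_one, KNpr_one, KNmap_apply, KNmap_apply, map_zero, map_zero]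
  · show KNmap u φ (KNpr Y N 2 v) = KNpr Y' N' 2 (KNmap u φ v)
    rw [KNpr_two, KNpr_two, KNmap_apply, KNmap_apply, map_zero, map_zero]

theorem MIR12.cmap_cpr_eq (H : CHom κ κ' Y Y' T T') (i : Fin 3) (x : CC κ Y T) :
    H.cmap (cpr κ Y T i x) = cpr κ' Y' T' i (H.cmap x) := by
  let W : Submodule ℂ (CC κ Y T) :=
    LinearMap.eqLocus (H.cmap ∘ₗ cpr κ Y T i) (cpr κ' Y' T' i ∘ₗ H.cmap)
  have hW : x ∈ W := by
    refine Ind.induction_sub W ?_ ?_ x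
    · intro v
      show H.cmap (cpr κ Y T i (Ind.incl κ _ v)) = cpr κ' Y' T' i (H.cmap (Ind.incl κ _ v))
      rw [cpr_incl, H.cmap_incl, H.cmap_incl, cpr_incl, MIR12.pr]
    · intro m a y hy
      have hy' : H.cmap (cpr κ Y T i y) = cpr κ' Y' T' i (H.cmap y) := hy
      show H.cmap (cpr κ Y T i ((cmod κ Y T).J m a y)) =
        cpr κ' Y' T' i (H.cmap ((cmod κ Y T).J m a y))
      rw [cpr_J, H.cmap_J, H.cmap_J, cpr_J, hy']
  exact hW

/-- [MI12] -/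
theorem mi_cmap_cpart (H : CHom κ κ' Y Y' T T') (i : Fin 3) (x : CC κ Y T)
    (hx : x ∈ cpart κ Y T i) : H.cmap x ∈ cpart κ' Y' T' i := by
  obtain ⟨y, rfl⟩ := hx
  exact ⟨H.cmap y, (MIR12.cmap_cpr_eq H i y).symm⟩

end cmap

end

end WPE
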