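import Pool.Agent.WPE.LA4

open scoped TensorProduct

namespace WPE

variable {g β η : Type} [LieRing g] [LieAlgebra ℂ g] [Fintype β] [DecidableEq β] [Fintype η]
  [DecidableEq η]

namespace LA5

/-- The map `z ⊗ w ↦ Pn [z, y] ⊗ w`. -/
noncomputable def T (L : LD g β η) (y : g) : g ⊗[ℂ] g →ₗ[ℂ] g ⊗[ℂ] g :=
  TensorProduct.map (L.Pn ∘ₗ (-(LD.adl y))) LinearMap.id

theorem T_apply (L : LD g β η) (y z w : g) : T L y (z ⊗ₜ[ℂ] w) = L.Pn ⁅z, y⁆ ⊗ₜ[ℂ] w := by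
  unfold T
  rw [TensorProduct.map_tmul, LinearMap.id_apply, LinearMap.comp_apply, LinearMap.neg_apply]
  congr 2
  show -⁅y, z⁆ = ⁅z, y⁆
  exact lie_skew z y

theorem brk_tmul (x y : g) : LD.brk (x ⊗ₜ[ℂ] y) = ⁅x, y⁆ := rfl

theorem brk_lie (a : g) (t : g ⊗[ℂ] g) : LD.brk ⁅a, t⁆ = ⁅a, LD.brk t⁆ := by
  induction t using TensorProduct.induction_on with
  | zero => rw [lie_zero, map_zero, lie_zero]
  | tmul x y =>
    rw [TensorProduct.LieModule.lie_tmul_right, map_add, brk_tmul, brk_tmul, brk_tmul]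
    exact (leibniz_lie a x y).symm
  | add s t hs ht => rw [lie_add, map_add, hs, ht, map_add, lie_add]

end LA5

theorem la_O (L : LD g β η) : LD.FactsO L := by
  have hP := la_P L
  have hG := la_G L
  obtain ⟨hcan1, hcan2⟩ := la_can L
  have he : ∀ b, L.e b ∈ L.np := fun b => Submodule.subset_span ⟨b, rfl⟩
  have hf : ∀ b, L.f b ∈ L.nm := fun b => Submodule.subset_span ⟨b, rfl⟩
  have hOm : ∀ a, L.Om a = ∑ b, L.Pb ⁅L.e b, a⁆ ⊗ₜ[ℂ] L.f b := by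
    intro a
    unfold LD.Om
    rw [LinearMap.sum_apply]
    rfl
  have hZt : ∀ a, L.Zt a = ∑ b, L.Pn ⁅L.e b, a⁆ ⊗ₜ[ℂ] L.f b := by
    intro a
    unfold LD.Zt
    rw [LinearMap.sum_apply]
    rfl
  have hZt_hs : ∀ a ∈ L.hs, ∀ y, L.Zt ⁅a, y⁆ = ⁅a, L.Zt y⁆ := by
    intro a ha y
    have h1 := congrArg (LA5.T L y) (hcan1 a (hP.hs_le ha))
    rw [map_add, map_sum, map_sum, map_zero] at h1
    simp only [LA5.T_apply] at h1
    have h2 : ∀ b, L.Pp ⁅a, L.e b⁆ = ⁅a, L.e b⁆ := fun b =>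
      hP.Pp_np _ (hG.hs_np a ha _ (he b))
    simp only [h2] at h1
    rw [hZt, hZt, lie_sum, ← sub_eq_zero, ← Finset.sum_sub_distrib]
    rw [← Finset.sum_add_distrib] at h1
    rw [← neg_eq_zero, ← Finset.sum_neg_distrib]
    rw [← h1]
    refine Finset.sum_congr rfl fun b _ => ?_
    rw [TensorProduct.LieModule.lie_tmul_right, ← hG.Pn_hs a ha, leibniz_lie (L.e b) a y,
      map_add, TensorProduct.add_tmul]
    have h3 : (⁅⁅L.e b, a⁆, y⁆ : g) = -⁅⁅a, L.e b⁆, y⁆ := by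
      rw [← lie_skew a (L.e b), neg_lie, neg_neg]
    rw [h3, map_neg, TensorProduct.neg_tmul]
    abel
  have hZt_np : ∀ x ∈ L.np, ∀ y ∈ L.nm,
      TensorProduct.map L.Pn L.Pn ⁅x, L.Zt y⁆ = L.Zt (L.Pn ⁅x, y⁆) := by
    intro x hx y hy
    have h1 := congrArg (LA5.T L y) (hcan2 x hx)
    rw [map_add, map_sum, map_sum, map_zero] at h1
    simp only [LA5.T_apply] at h1
    -- `Pn [x, Pn z] = Pn [x, z]`
    have h2 : ∀ x ∈ L.np, ∀ z, L.Pn ⁅x, L.Pn z⁆ = L.Pn ⁅x, z⁆ := by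
      intro x hx z
      have h3 := hP.sum z
      conv_rhs => rw [← h3]
      rw [lie_add, lie_add, map_add, map_add, hP.Pn_np _ (hG.np_np x hx _ (hP.Pp_mem z)), zero_add]
      have h4 : L.Pn ⁅x, L.Ph z⁆ = 0 := by
        rw [← lie_skew, map_neg, hP.Pn_np _ (hG.hs_np _ (hP.Ph_mem z) x hx), neg_zero]
      rw [h4, zero_add]
    rw [hZt, hZt, lie_sum, map_sum, ← sub_eq_zero, ← Finset.sum_sub_distrib]
    rw [← Finset.sum_add_distrib] at h1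
    rw [← h1]
    refine Finset.sum_congr rfl fun b _ => ?_
    rw [TensorProduct.LieModule.lie_tmul_right, map_add, TensorProduct.map_tmul,
      TensorProduct.map_tmul, hP.Pn_nm _ (hf b), h2 x hx, h2 (L.e b) (he b),
      hP.Pn_nm _ (hP.Pn_mem _), leibniz_lie x (L.e b) y, map_add, TensorProduct.add_tmul]
    abel
  have hR : ∀ a, L.R a = (-(1 / 2 : ℂ)) • ∑ b, ⁅L.Pn ⁅L.e b, a⁆, L.f b⁆ := by
    intro a
    show (-(1 / 2 : ℂ)) • LD.brk (L.Zt a) = _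
    rw [hZt, map_sum]
    rfl
  have hRb : ∀ a, L.R a = (-(1 / 2 : ℂ)) • LD.brk (L.Zt a) := fun a => rfl
  have hR_mem : ∀ a, L.R a ∈ L.nm := by
    intro a
    rw [hR]
    exact Submodule.smul_mem _ _ (Submodule.sum_mem _ fun b _ =>
      hG.bm_nm _ (hP.nm_le (hP.Pn_mem _)) _ (hf b))
  have hLk : ∀ (κ : ℂ) (a : g), L.Lk κ a = κ • L.Pn a + L.R (L.Pn a) := fun κ a => rfl
  have hZt_one : ∀ y ∈ L.gr (-1), L.Zt y = 0 := by
    intro y hy
    rw [hZt]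
    refine Finset.sum_eq_zero fun b _ => ?_
    have h1 : ⁅L.e b, y⁆ ∈ L.gr ((L.ht b : ℤ) + -1) := hG.lie_gr _ _ _ (hG.e_gr b) _ hy
    have h2 := L.ht_pos b
    have h3 : L.Pn ⁅L.e b, y⁆ = 0 := by
      by_cases h4 : L.ht b = 1
      · rw [h4] at h1
        have h5 : (((1 : ℕ) : ℤ) + -1) = 0 := by norm_num
        rw [h5, hG.gr_zero] at h1
        exact hP.Pn_hs _ h1
      · exact hP.Pn_np _ (hG.gr_pos _ (by omega) h1)
    rw [h3, TensorProduct.zero_tmul]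
  refine ⟨hOm, hZt, ?_, ?_, ?_, hZt_hs, hZt_np, hZt_one, hZt_one _ hG.F_gr, hR, hR_mem, ?_, ?_,
    ?_, ?_, ?_, ?_⟩
  · -- Om_hs
    intro a ha
    rw [hOm]
    refine Finset.sum_eq_zero fun b _ => ?_
    have h1 : ⁅L.e b, a⁆ ∈ L.np := by
      rw [← lie_skew]
      exact Submodule.neg_mem _ (hG.hs_np a ha _ (he b))
    rw [hP.Pb_np _ h1, TensorProduct.zero_tmul]
  · -- Om_nm
    intro y hy
    have h1 : ∀ b, L.Pb ⁅L.e b, y⁆ ⊗ₜ[ℂ] L.f b =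
        L.Pn ⁅L.e b, y⁆ ⊗ₜ[ℂ] L.f b + L.Ph ⁅L.e b, y⁆ ⊗ₜ[ℂ] L.f b := by
      intro b
      have : L.Pb ⁅L.e b, y⁆ = L.Pn ⁅L.e b, y⁆ + L.Ph ⁅L.e b, y⁆ := by
        show L.Ph ⁅L.e b, y⁆ + L.Pn ⁅L.e b, y⁆ = _
        rw [add_comm]
      rw [this, TensorProduct.add_tmul]
    rw [hOm, hZt, Finset.sum_congr rfl fun b _ => h1 b, Finset.sum_add_distrib, sub_eq_add_neg]
    congr 1
    have h2 : ∀ b, L.Ph ⁅L.e b, y⁆ ⊗ₜ[ℂ] L.f b =
        ∑ i, L.form ⁅L.e b, y⁆ (L.h' i) • (L.h i ⊗ₜ[ℂ] L.f b) := by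
      intro b
      rw [hP.Ph_apply, TensorProduct.sum_tmul]
      exact Finset.sum_congr rfl fun c _ => (TensorProduct.smul_tmul' _ _ _).symm
    have h3 : ∀ i, L.h i ⊗ₜ[ℂ] ⁅L.h' i, y⁆ =
        ∑ b, L.form ⁅L.h' i, y⁆ (L.e b) • (L.h i ⊗ₜ[ℂ] L.f b) := by
      intro i
      conv_lhs => rw [hP.nm_exp _ (hG.bm_nm _ (hP.hs_le (hP.h'_mem i)) y hy)]
      rw [TensorProduct.tmul_sum]
      exact Finset.sum_congr rfl fun c _ => TensorProduct.tmul_smul _ _ _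
    rw [Finset.sum_congr rfl fun b _ => h2 b, Finset.sum_congr rfl fun i _ => h3 i,
      Finset.sum_comm, ← Finset.sum_neg_distrib]
    refine Finset.sum_congr rfl fun i _ => ?_
    rw [← Finset.sum_neg_distrib]
    refine Finset.sum_congr rfl fun b _ => ?_
    have h4 : L.form ⁅L.e b, y⁆ (L.h' i) = -L.form ⁅L.h' i, y⁆ (L.e b) := by
      rw [L.inv, ← lie_skew, map_neg, L.symm]
    rw [h4, neg_smul]
  · -- Zt_comm
    intro y hy
    have h1 : L.Zt y = ∑ b, ∑ c, L.form ⁅L.e b, y⁆ (L.e c) • (L.f c ⊗ₜ[ℂ] L.f b) := by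
      rw [hZt]
      refine Finset.sum_congr rfl fun b _ => ?_
      rw [hP.Pn_apply, TensorProduct.sum_tmul]
      exact Finset.sum_congr rfl fun c _ => (TensorProduct.smul_tmul' _ _ _).symm
    have h2 : TensorProduct.comm ℂ g g (L.Zt y) =
        ∑ b, ∑ c, L.form ⁅L.e b, y⁆ (L.e c) • (L.f b ⊗ₜ[ℂ] L.f c) := by
      rw [h1, map_sum]
      refine Finset.sum_congr rfl fun b _ => ?_
      rw [map_sum]
      refine Finset.sum_congr rfl fun c _ => ?_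
      rw [map_smul, TensorProduct.comm_tmul]
    rw [h2, h1, Finset.sum_comm, ← Finset.sum_neg_distrib]
    refine Finset.sum_congr rfl fun c _ => ?_
    rw [← Finset.sum_neg_distrib]
    refine Finset.sum_congr rfl fun b _ => ?_
    have h4 : L.form ⁅L.e b, y⁆ (L.e c) = -L.form ⁅L.e c, y⁆ (L.e b) := by
      rw [L.inv, ← lie_skew, map_neg, L.symm]
    rw [h4, neg_smul]
  · -- R_hs
    intro a ha y
    rw [hRb, hRb, hZt_hs a ha, LA5.brk_lie, lie_smul]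
  · -- R_zero
    intro y hy
    rw [hRb, hy, map_zero, smul_zero]
  · -- Lk_mem
    intro κ a
    rw [hLk]
    exact Submodule.add_mem _ (Submodule.smul_mem _ _ (hP.Pn_mem a)) (hR_mem _)
  · -- Lk_hs
    intro κ a ha
    rw [hLk, hP.Pn_hs a ha, smul_zero, map_zero, add_zero]
  · -- Lk_nm
    intro κ y hy
    rw [hLk, hP.Pn_nm y hy]
  · -- Lk_gr
    intro κ c a ha
    have hz := hG.Pn_gr c a ha
    rw [hLk]
    refine Submodule.add_mem _ (Submodule.smul_mem _ _ hz) ?_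
    rw [hR]
    refine Submodule.smul_mem _ _ (Submodule.sum_mem _ fun b _ => ?_)
    have h1 := hG.lie_gr _ _ _ (hG.Pn_gr _ _ (hG.lie_gr _ _ _ (hG.e_gr b) _ hz)) _ (hG.f_gr b)
    have h2 : (L.ht b : ℤ) + c + -(L.ht b : ℤ) = c := by ring
    rw [h2] at h1
    exact h1

end WPE
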