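import Pool.Agent.WPE.MIL

/-! WPE, block MI: the projection of `b₋` onto the `b₋` of the Levi subalgebra. -/

namespace WPE

open scoped TensorProduct

noncomputable section

variable {g β η : Type} [LieRing g] [LieAlgebra ℂ g] [Fintype β] [DecidableEq β] [Fintype η]
  [DecidableEq η]

namespace LD

variable {L : LD g β η} {j : β} {al : η → ℂ} (S : Simp L j al)

theorem mi_Ph_mem (L : LD g β η) (x : g) : L.Ph x ∈ L.hs := by
  unfold Ph
  rw [LinearMap.sum_apply]
  exact Submodule.sum_mem _ fun i _ => Submodule.smul_mem _ _ (L.h_mem_hs i)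

/-- `x ↦ π_h x + (x, e_j) f_j` -/
def prj (S : Simp L j al) : g →ₗ[ℂ] lev S where
  toFun x := ⟨L.Ph x + L.form x (L.e j) • L.f j, add_mem (L.mem_levS_h j (mi_Ph_mem L x))
    (Submodule.smul_mem _ _ (L.mem_levS_f j))⟩
  map_add' x y := by
    apply Subtype.ext
    show L.Ph (x + y) + L.form (x + y) (L.e j) • L.f j = L.Ph x + L.form x (L.e j) • L.f j +
      (L.Ph y + L.form y (L.e j) • L.f j)
    rw [map_add, map_add, LinearMap.add_apply, add_smul]
    abel
  map_smul' c x := by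
    apply Subtype.ext
    show L.Ph (c • x) + L.form (c • x) (L.e j) • L.f j =
      c • (L.Ph x + L.form x (L.e j) • L.f j)
    rw [map_smul, map_smul, LinearMap.smul_apply, smul_add, smul_smul]
    rfl

theorem coe_prj (x : g) : ((prj S x : lev S) : g) = L.Ph x + L.form x (L.e j) • L.f j := rfl

/-- The weight `al` as a linear functional. -/
def alL (L : LD g β η) (al : η → ℂ) : g →ₗ[ℂ] ℂ := ∑ i, al i • L.form.flip (L.h' i)

theorem alL_apply (L : LD g β η) (al : η → ℂ) (x : g) :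
    alL L al x = ∑ i, al i * L.form x (L.h' i) := by
  unfold alL
  rw [LinearMap.sum_apply]
  rfl

theorem mi_hs_exp (L : LD g β η) {x : g} (hx : x ∈ L.hs) :
    x = ∑ i, L.form x (L.h' i) • L.h i := by
  have key : ∀ y ∈ L.hs, (∀ c, L.form y (L.f c) = 0) ∧ ∀ c, L.form y (L.e c) = 0 := by
    intro y hy
    constructor
    · intro c
      exact (L.mem_bm_iff y).1 (L.hs_le_bm hy) c
    · intro c
      induction hy using Submodule.span_induction with
      | mem y hy => obtain ⟨i, rfl⟩ := hy; rw [L.symm]; exact L.eh c i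
      | zero => rw [map_zero, LinearMap.zero_apply]
      | add y z _ _ hy hz => rw [map_add, LinearMap.add_apply, hy, hz, add_zero]
      | smul a y _ hy => rw [map_smul, LinearMap.smul_apply, hy, smul_zero]
  obtain ⟨h1, h2⟩ := key x hx
  conv_lhs => rw [L.decomp x]
  simp only [h1, h2, zero_smul, Finset.sum_const_zero, zero_add, add_zero]

theorem mi_Ph_hs (L : LD g β η) {x : g} (hx : x ∈ L.hs) : L.Ph x = x := by
  conv_rhs => rw [mi_hs_exp L hx]
  unfold Ph
  rw [LinearMap.sum_apply]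
  rfl

theorem mi_Ph_nm (L : LD g β η) {x : g} (hx : x ∈ L.nm) : L.Ph x = 0 := by
  unfold Ph
  rw [LinearMap.sum_apply]
  refine Finset.sum_eq_zero fun i _ => ?_
  show L.form x (L.h' i) • L.h i = 0
  rw [((L.mem_nm_iff x).1 hx).2 i, zero_smul]

include S in
theorem al_e {x : g} (hx : x ∈ L.hs) : ⁅x, L.e j⁆ = alL L al x • L.e j := by
  conv_lhs => rw [mi_hs_exp L hx]
  rw [sum_lie, alL_apply, Finset.sum_smul]
  refine Finset.sum_congr rfl fun i _ => ?_
  rw [smul_lie, S.he, smul_smul, mul_comm]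

include S in
theorem al_f {x : g} (hx : x ∈ L.hs) : ⁅x, L.f j⁆ = (-alL L al x) • L.f j := by
  conv_lhs => rw [mi_hs_exp L hx]
  rw [sum_lie, alL_apply, neg_smul, Finset.sum_smul, ← Finset.sum_neg_distrib]
  refine Finset.sum_congr rfl fun i _ => ?_
  rw [smul_lie, S.hf, smul_smul, ← neg_smul]
  congr 1
  ring

theorem alL_nm (L : LD g β η) (al : η → ℂ) {x : g} (hx : x ∈ L.nm) : alL L al x = 0 := by
  rw [alL_apply]
  refine Finset.sum_eq_zero fun i _ => ?_
  rw [((L.mem_nm_iff x).1 hx).2 i, mul_zero]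

/-- `(x, e_j) = 0` for `x ∈ h`. -/
theorem mi_form_he (L : LD g β η) (j : β) {x : g} (hx : x ∈ L.hs) : L.form x (L.e j) = 0 := by
  induction hx using Submodule.span_induction with
  | mem y hy => obtain ⟨i, rfl⟩ := hy; rw [L.symm]; exact L.eh j i
  | zero => rw [map_zero, LinearMap.zero_apply]
  | add y z _ _ hy hz => rw [map_add, LinearMap.add_apply, hy, hz, add_zero]
  | smul a y _ hy => rw [map_smul, LinearMap.smul_apply, hy, smul_zero]

include S in
/-- The coefficient of `f_j` in a bracket. -/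
theorem form_lie_e {a b : g} (ha : a ∈ L.bm) (hb : b ∈ L.bm) :
    L.form ⁅a, b⁆ (L.e j) = alL L al b * L.form a (L.e j) - alL L al a * L.form b (L.e j) := by
  obtain ⟨u, hu, v, hv, rfl⟩ := Submodule.mem_sup.1 ha
  obtain ⟨w, hw, z, hz, rfl⟩ := Submodule.mem_sup.1 hb
  have h1 : L.form ⁅u, w⁆ (L.e j) = 0 := by
    have : ⁅u, w⁆ ∈ (⊥ : Submodule ℂ g) := by
      refine lie_mem_span2 ?_ hu hw
      rintro _ ⟨i, rfl⟩ _ ⟨k, rfl⟩
      rw [L.comm_h]
      exact zero_mem _
    rw [(Submodule.mem_bot ℂ).1 this, map_zero, LinearMap.zero_apply]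
  have h2 : ∀ x ∈ L.hs, ∀ y : g, L.form ⁅x, y⁆ (L.e j) = -(alL L al x * L.form y (L.e j)) := by
    intro x hx y
    rw [← lie_skew, map_neg, LinearMap.neg_apply, L.inv, al_e S hx, map_smul, smul_eq_mul]
  have h3 : L.form ⁅v, z⁆ (L.e j) = 0 := by
    have key : ⁅v, z⁆ ∈ LinearMap.ker (L.form.flip (L.e j)) := by
      refine lie_mem_span2 ?_ hv hz
      rintro _ ⟨c, rfl⟩ _ ⟨d, rfl⟩
      rw [LinearMap.mem_ker]
      show L.form ⁅L.f c, L.f d⁆ (L.e j) = 0
      refine L.form_eq_zero_of _ _ _ _ (L.rho_lie _ _ _ _ (L.rho_f c) (L.rho_f d)) (L.rho_e j) ?_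
      intro h
      have hc := L.ht_pos c
      have hd := L.ht_pos d
      have h4 := S.ht
      have : ((L.ht c + L.ht d : ℕ) : ℂ) = ((L.ht j : ℕ) : ℂ) := by
        push_cast
        linear_combination -h
      have h5 : L.ht c + L.ht d = L.ht j := by exact_mod_cast this
      omega
    exact LinearMap.mem_ker.1 key
  have k1 : alL L al (u + v) = alL L al u := by
    rw [map_add, alL_nm L al hv, add_zero]
  have k2 : alL L al (w + z) = alL L al w := by
    rw [map_add, alL_nm L al hz, add_zero]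
  have k3 : L.form (u + v) (L.e j) = L.form v (L.e j) := by
    rw [map_add, LinearMap.add_apply, mi_form_he L j hu, zero_add]
  have k4 : L.form (w + z) (L.e j) = L.form z (L.e j) := by
    rw [map_add, LinearMap.add_apply, mi_form_he L j hw, zero_add]
  rw [k1, k2, k3, k4, add_lie, lie_add, lie_add, map_add, map_add, map_add, LinearMap.add_apply,
    LinearMap.add_apply, LinearMap.add_apply, h1, h3, h2 u hu z, ← lie_skew v w, map_neg,
    LinearMap.neg_apply, h2 w hw v]
  ring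

theorem prj_mem (x : g) : prj S x ∈ (levi S).bm := by
  rw [mem_bm_iff]
  intro c
  show L.form (L.Ph x + L.form x (L.e j) • L.f j) (L.f j) = 0
  rw [map_add, LinearMap.add_apply, map_smul, LinearMap.smul_apply, L.ff, smul_zero, add_zero]
  exact (L.mem_bm_iff _).1 (L.hs_le_bm (mi_Ph_mem L x)) j

/-- The projection of `b₋` onto the `b₋` of the Levi subalgebra. -/
def fb (S : Simp L j al) : L.bL →ₗ⁅ℂ⁆ (levi S).bL where
  toFun a := ⟨prj S (a : g), prj_mem S _⟩
  map_add' a b := Subtype.ext (map_add (prj S) (a : g) (b : g))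
  map_smul' c a := Subtype.ext (map_smul (prj S) c (a : g))
  map_lie' := by
    intro a b
    apply Subtype.ext
    apply Subtype.ext
    show L.Ph ⁅(a : g), (b : g)⁆ + L.form ⁅(a : g), (b : g)⁆ (L.e j) • L.f j =
      ⁅L.Ph (a : g) + L.form (a : g) (L.e j) • L.f j, L.Ph (b : g) + L.form (b : g) (L.e j) • L.f j⁆
    have h1 : ⁅(a : g), (b : g)⁆ ∈ L.nm := by
      obtain ⟨u, hu, v, hv, huv⟩ := Submodule.mem_sup.1 b.2
      rw [← huv, lie_add]
      refine add_mem ?_ (L.bm_nm _ a.2 v hv)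
      obtain ⟨w, hw, z, hz, hwz⟩ := Submodule.mem_sup.1 a.2
      rw [← hwz, add_lie]
      refine add_mem ?_ ?_
      · have : ⁅w, u⁆ ∈ (⊥ : Submodule ℂ g) := by
          refine lie_mem_span2 ?_ hw hu
          rintro _ ⟨i, rfl⟩ _ ⟨j, rfl⟩
          rw [L.comm_h]
          exact zero_mem _
        rw [(Submodule.mem_bot ℂ).1 this]
        exact zero_mem _
      · rw [← lie_skew]
        exact neg_mem (L.bm_nm u (L.hs_le_bm hu) z hz)
    have h2 : ∀ x ∈ L.bm, alL L al (L.Ph x) = alL L al x := by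
      intro x hx
      obtain ⟨u, hu, v, hv, rfl⟩ := Submodule.mem_sup.1 hx
      rw [map_add, mi_Ph_hs L hu, mi_Ph_nm L hv, add_zero, map_add, alL_nm L al hv, add_zero]
    have h3 : ⁅L.Ph (a : g), L.Ph (b : g)⁆ = 0 := by
      have : ⁅L.Ph (a : g), L.Ph (b : g)⁆ ∈ (⊥ : Submodule ℂ g) := by
        refine lie_mem_span2 ?_ (mi_Ph_mem L _) (mi_Ph_mem L _)
        rintro _ ⟨i, rfl⟩ _ ⟨j, rfl⟩
        rw [L.comm_h]
        exact zero_mem _
      exact (Submodule.mem_bot ℂ).1 this
    rw [mi_Ph_nm L h1, zero_add, form_lie_e S a.2 b.2, lie_add, add_lie, add_lie, h3, zero_add,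
      smul_lie, lie_smul, smul_lie, lie_smul, lie_self, smul_zero, smul_zero, add_zero,
      ← lie_skew (L.f j), al_f S (mi_Ph_mem L _), al_f S (mi_Ph_mem L _), h2 _ a.2, h2 _ b.2,
      sub_smul, mul_comm, mul_smul, mul_comm (alL L al (a : g)), mul_smul]
    simp only [neg_smul, smul_neg, neg_neg]
    abel

theorem coe_fb (a : L.bL) : (((fb S a : (levi S).bL) : lev S) : g) =
    L.Ph (a : g) + L.form (a : g) (L.e j) • L.f j := rfl

theorem fb_nm {a : L.bL} (ha : (a : g) ∈ L.nm) : fb S a ∈ (levi S).nL := by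
  show prj S (a : g) ∈ (levi S).nm
  have : prj S (a : g) = L.form (a : g) (L.e j) • (levi S).f () := by
    apply Subtype.ext
    show L.Ph (a : g) + L.form (a : g) (L.e j) • L.f j = L.form (a : g) (L.e j) • L.f j
    rw [mi_Ph_nm L ha, zero_add]
  rw [this]
  exact Submodule.smul_mem _ _ ((levi S).f_mem_nm ())

/-- The projection of `n₋` onto `ℂ f_j`. -/
def fy (S : Simp L j al) : L.nL →ₗ[ℂ] (levi S).nL where
  toFun y := ⟨fb S (y : L.bL), fb_nm S y.2⟩
  map_add' a b := Subtype.ext (map_add (fb S) (a : L.bL) (b : L.bL))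
  map_smul' c a := Subtype.ext (map_smul (fb S) c (a : L.bL))

theorem coe_fy (y : L.nL) : ((fy S y : (levi S).nL) : (levi S).bL) = fb S (y : L.bL) := rfl

theorem fy_lie (a : L.bL) (y : L.nL) : fy S ⁅a, y⁆ = ⁅fb S a, fy S y⁆ := by
  apply Subtype.ext
  rw [coe_fy, LieSubmodule.coe_bracket, LieSubmodule.coe_bracket, LieHom.map_lie]
  rfl

theorem fb_form (a b : L.bL) :
    (levi S).form (fb S a : lev S) (fb S b : lev S) = L.form (a : g) (b : g) := by
  rw [levi_form, coe_fb, coe_fb]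
  obtain ⟨u, hu, v, hv, ha⟩ := Submodule.mem_sup.1 a.2
  obtain ⟨w, hw, z, hz, hb⟩ := Submodule.mem_sup.1 b.2
  have hn : ∀ x ∈ L.nm, ∀ y ∈ L.bm, L.form x y = 0 := by
    intro x hx y hy
    rw [L.symm]
    induction hx using Submodule.span_induction with
    | mem x hx => obtain ⟨c, rfl⟩ := hx; exact (L.mem_bm_iff y).1 hy c
    | zero => rw [map_zero]
    | add x z _ _ hx hz => rw [map_add, hx, hz, add_zero]
    | smul c x _ hx => rw [map_smul, hx, smul_zero]
  have hn' : ∀ x ∈ L.nm, ∀ y ∈ L.bm, L.form y x = 0 := fun x hx y hy => by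
    rw [L.symm]; exact hn x hx y hy
  have k1 : L.Ph (u + v) = u := by
    rw [map_add, mi_Ph_hs L hu, mi_Ph_nm L hv, add_zero]
  have k2 : L.Ph (w + z) = w := by
    rw [map_add, mi_Ph_hs L hw, mi_Ph_nm L hz, add_zero]
  rw [← ha, ← hb, k1, k2]
  have hf := L.f_mem_nm j
  generalize L.form (u + v) (L.e j) = r
  generalize L.form (w + z) (L.e j) = t
  simp only [map_add, map_smul, LinearMap.add_apply, LinearMap.smul_apply, smul_eq_mul]
  rw [hn' _ hf _ (L.hs_le_bm hu), hn _ hf _ (L.hs_le_bm hw), L.ff, hn _ hv _ (L.hs_le_bm hw),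
    hn' _ hz _ (L.hs_le_bm hu), hn _ hv _ (L.nm_le_bm hz)]
  ring

/-- `π_{h}` commutes with the projection. -/
theorem fb_form_h' (a : L.bL) (i : η) :
    (levi S).form (fb S a : lev S) ((levi S).h' i) = L.form (a : g) (L.h' i) := by
  have hm : L.h' i ∈ L.hs := L.h'_mem i
  have h1 := fb_form S a ⟨L.h' i, L.hs_le_bm hm⟩
  have h2 : ((fb S ⟨L.h' i, L.hs_le_bm hm⟩ : (levi S).bL) : lev S) = (levi S).h' i := by
    apply Subtype.ext
    rw [coe_fb, levi_h']
    show L.Ph (L.h' i) + L.form (L.h' i) (L.e j) • L.f j = L.h' i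
    rw [mi_Ph_hs L hm, mi_form_he L j hm, zero_smul, add_zero]
  rw [h2] at h1
  exact h1

theorem fy_fN (b : β) : fy S (L.fN b) = if b = j then (levi S).fN () else 0 := by
  apply Subtype.ext
  apply Subtype.ext
  apply Subtype.ext
  rw [coe_fy, coe_fb]
  show L.Ph (L.f b) + L.form (L.f b) (L.e j) • L.f j = _
  rw [mi_Ph_nm L (L.f_mem_nm b), zero_add, L.symm, L.ef]
  by_cases h : b = j
  · rw [if_pos h, if_pos h.symm, one_smul]
    rfl
  · rw [if_neg h, if_neg (Ne.symm h), zero_smul]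
    rfl

end LD

end

end WPE
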