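import Pool.Agent.WPE.BRL
import Pool.Agent.WPE.LA5
import Pool.Agent.WPE.MIM

/-! WPE, block MI: row MI13, Levi tensors. -/

set_option linter.unusedSectionVars false

namespace WPE

open scoped TensorProduct
open MvPolynomial WPQ
open WPE.LD (Simp levi)

section levi

variable {g β η : Type} [LieRing g] [LieAlgebra ℂ g] [Fintype β] [DecidableEq β] [Fintype η]
  [DecidableEq η] {L : LD g β η} {j : β} {al : η → ℂ}

namespace MIR13

theorem form_Pn_e (L : LD g β η) (j : β) (x : g) : L.form (L.Pn x) (L.e j) = L.form x (L.e j) := by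
  rw [(la_P L).form_Pn]
  exact Submodule.subset_span ⟨j, rfl⟩

theorem form_Pb_e (L : LD g β η) (j : β) (x : g) : L.form (L.Pb x) (L.e j) = L.form x (L.e j) := by
  show L.form (L.Ph x + L.Pn x) (L.e j) = _
  rw [map_add, LinearMap.add_apply, form_Pn_e, LD.mi_form_he L j (LD.mi_Ph_mem L x), zero_add]

theorem Ph_Pb (L : LD g β η) (x : g) : L.Ph (L.Pb x) = L.Ph x := by
  show L.Ph (L.Ph x + L.Pn x) = _
  rw [map_add, LD.mi_Ph_hs L (LD.mi_Ph_mem L x), LD.mi_Ph_nm L (L.Pn_mem' x), add_zero]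

theorem coe_fb_pib (S : Simp L j al) (x : g) :
    (((LD.fb S (L.pib x) : (levi S).bL) : LD.lev S) : g) =
      L.Ph x + L.form x (L.e j) • L.f j := by
  rw [LD.coe_fb, LD.coe_pib, form_Pb_e, Ph_Pb]

theorem coe_levi_Ph (S : Simp L j al) (z : LD.lev S) :
    (((levi S).Ph z : LD.lev S) : g) = L.Ph (z : g) := by
  rw [(la_P (levi S)).Ph_apply, (la_P L).Ph_apply, AddSubmonoidClass.coe_finsetSum]
  rfl

theorem coe_levi_Pn (S : Simp L j al) (z : LD.lev S) :
    (((levi S).Pn z : LD.lev S) : g) = L.form (z : g) (L.e j) • L.f j := by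
  rw [(la_P (levi S)).Pn_apply, Finset.univ_unique, Finset.sum_singleton]
  rfl

theorem coe_levi_Pb (S : Simp L j al) (z : LD.lev S) :
    (((levi S).Pb z : LD.lev S) : g) = L.Ph (z : g) + L.form (z : g) (L.e j) • L.f j := by
  show (((levi S).Ph z + (levi S).Pn z : LD.lev S) : g) = _
  rw [← coe_levi_Ph, ← coe_levi_Pn]
  rfl

theorem form_e_lie_e (L : LD g β η) (j : β) (x : g) : L.form ⁅L.e j, x⁆ (L.e j) = 0 := by
  rw [← lie_skew, map_neg, LinearMap.neg_apply, L.inv, lie_self, map_zero, neg_zero]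

theorem form_e_lie_h (S : Simp L j al) (x : g) (i : η) :
    L.form ⁅L.e j, x⁆ (L.h' i) = LD.alL L al (L.h' i) * L.form x (L.e j) := by
  rw [L.symm, ← L.inv, LD.al_e S (L.h'_mem i), map_smul, LinearMap.smul_apply, smul_eq_mul,
    L.symm (L.e j) x]

theorem pib_eq (S : Simp L j al) (a : L.bL) :
    LD.fb S (L.pib ⁅L.e j, (a : g)⁆) =
      (levi S).pib ⁅(levi S).e (), ((LD.fb S a : (levi S).bL) : LD.lev S)⁆ := by
  apply Subtype.ext
  apply Subtype.ext
  rw [coe_fb_pib]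
  show _ = (((levi S).Pb ⁅(levi S).e (), ((LD.fb S a : (levi S).bL) : LD.lev S)⁆ : LD.lev S) : g)
  rw [coe_levi_Pb]
  have hc : ((⁅(levi S).e (), ((LD.fb S a : (levi S).bL) : LD.lev S)⁆ : LD.lev S) : g) =
      ⁅L.e j, L.Ph (a : g) + L.form (a : g) (L.e j) • L.f j⁆ := rfl
  rw [hc, form_e_lie_e, form_e_lie_e, (la_P L).Ph_apply, (la_P L).Ph_apply]
  congr 1
  refine Finset.sum_congr rfl fun i _ => ?_
  rw [form_e_lie_h S, form_e_lie_h S]
  congr 2
  rw [map_add, LinearMap.add_apply, LD.mi_form_he L j (LD.mi_Ph_mem L _), map_smul,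
    LinearMap.smul_apply, L.symm (L.f j), L.ef, if_pos rfl, smul_eq_mul, mul_one, zero_add]

theorem coe_fy_pin (S : Simp L j al) (x : g) :
    ((((LD.fy S (L.pin x) : (levi S).nL) : (levi S).bL) : LD.lev S) : g) =
      L.form x (L.e j) • L.f j := by
  rw [LD.coe_fy, LD.coe_fb]
  show L.Ph (L.Pn x) + L.form (L.Pn x) (L.e j) • L.f j = _
  rw [form_Pn_e, LD.mi_Ph_nm L (L.Pn_mem' x), zero_add]

theorem form_R_e (S : Simp L j al) (y : g) : L.form (L.R y) (L.e j) = 0 := by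
  rw [(la_O L).R_apply, map_smul, LinearMap.smul_apply, map_sum, LinearMap.sum_apply]
  rw [Finset.sum_eq_zero, smul_zero]
  intro b _
  rw [LD.form_lie_e S (L.nm_le_bm (L.Pn_mem' _)) (L.nm_le_bm (L.f_mem_nm b)),
    LD.alL_nm L al (L.f_mem_nm b), LD.alL_nm L al (L.Pn_mem' _), zero_mul, zero_mul, sub_zero]

theorem form_Lk_e (S : Simp L j al) (κ : ℂ) (a : g) :
    L.form (L.Lk κ a) (L.e j) = κ * L.form a (L.e j) := by
  show L.form (κ • L.Pn a + L.R (L.Pn a)) (L.e j) = _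
  rw [map_add, LinearMap.add_apply, form_R_e S, add_zero, map_smul, LinearMap.smul_apply,
    form_Pn_e, smul_eq_mul]

theorem levi_R (S : Simp L j al) (y : LD.lev S) (hy : y ∈ (levi S).nm) : (levi S).R y = 0 := by
  refine (la_O (levi S)).R_zero y ((la_O (levi S)).Zt_one y ?_)
  have h : (levi S).nm ≤ (levi S).gr (-1) := by
    refine Submodule.span_le.2 ?_
    rintro _ ⟨u, rfl⟩
    exact (la_G (levi S)).f_gr u
  exact h hy

end MIR13

/-- [MI13] -/
theorem mi_lev_Om (S : Simp L j al) (a : L.bL) :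
    TensorProduct.map (LD.fb S : L.bL →ₗ[ℂ] (levi S).bL) (LD.fy S) (L.OmB a) =
      (levi S).OmB (LD.fb S a) := by
  rw [LD.OmB_apply, LD.OmB_apply, map_sum, Finset.sum_eq_single j, Finset.univ_unique,
    Finset.sum_singleton]
  · rw [TensorProduct.map_tmul, LD.fy_fN, if_pos rfl]
    congr 1
    exact MIR13.pib_eq S a
  · intro b _ hb
    rw [TensorProduct.map_tmul, LD.fy_fN, if_neg hb, TensorProduct.tmul_zero]
  · intro h
    exact absurd (Finset.mem_univ _) h

/-- [MI13] -/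
theorem mi_lev_Lk (S : Simp L j al) (κ : ℂ) (a : L.bL) :
    LD.fy S (L.LkN κ a) = (levi S).LkN κ (LD.fb S a) := by
  apply Subtype.ext
  apply Subtype.ext
  apply Subtype.ext
  have h1 : LD.fy S (L.LkN κ a) = LD.fy S (L.pin (L.Lk κ (a : g))) := rfl
  rw [h1, MIR13.coe_fy_pin]
  show _ = (((levi S).Pn ((levi S).Lk κ ((LD.fb S a : (levi S).bL) : LD.lev S)) : LD.lev S) : g)
  rw [MIR13.coe_levi_Pn]
  congr 1
  rw [MIR13.form_Lk_e S]
  have h2 : (levi S).Lk κ ((LD.fb S a : (levi S).bL) : LD.lev S) =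
      κ • (levi S).Pn ((LD.fb S a : (levi S).bL) : LD.lev S) := by
    show κ • (levi S).Pn ((LD.fb S a : (levi S).bL) : LD.lev S) +
      (levi S).R ((levi S).Pn ((LD.fb S a : (levi S).bL) : LD.lev S)) = _
    rw [MIR13.levi_R S _ ((levi S).Pn_mem' _), add_zero]
  have h3 : ∀ (c : ℂ) (z : LD.lev S), ((c • z : LD.lev S) : g) = c • (z : g) := fun _ _ => rfl
  rw [h2, h3, MIR13.coe_levi_Pn, map_smul, LinearMap.smul_apply, map_smul, LinearMap.smul_apply,
    L.symm (L.f j), L.ef, if_pos rfl, LD.coe_fb, map_add, LinearMap.add_apply,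
    LD.mi_form_he L j (LD.mi_Ph_mem L _), map_smul, LinearMap.smul_apply, L.symm (L.f j), L.ef,
    if_pos rfl]
  simp only [smul_eq_mul, mul_one, zero_add]

/-- [MI13] -/
theorem mi_lev_F (S : Simp L j al) (κ : ℂ) (hF : L.form L.F (L.e j) = 1) :
    LD.fy S (L.qd κ).F = ((levi S).qd κ).F ∧
    ∀ a : L.bL, LD.fy S ((L.qd κ).Fm a) = ((levi S).qd κ).Fm (LD.fb S a) := by
  have h : LD.fy S (L.qd κ).F = ((levi S).qd κ).F := by
    apply Subtype.ext
    apply Subtype.ext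
    apply Subtype.ext
    have h1 : LD.fy S (L.qd κ).F = LD.fy S (L.pin L.F) := rfl
    rw [h1, MIR13.coe_fy_pin]
    show _ = (((levi S).Pn (levi S).F : LD.lev S) : g)
    rw [MIR13.coe_levi_Pn, LD.levi_F, L.symm (L.f j), L.ef, if_pos rfl, hF]
  refine ⟨h, fun a => ?_⟩
  rw [QD.Fm_apply, QD.Fm_apply, map_neg, LD.fy_lie, h]

end levi

end WPE
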