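import Pool.Agent.WPE.BR14
import Pool.Agent.WPE.BR17
import Pool.Agent.WPE.BR18
import Pool.Agent.WPE.MID
import Pool.Agent.WPE.MIR12
import Pool.Agent.WPE.MIR13

/-! WPE, block MI: row MI14, the map of complexes commutes with the differentials. -/

set_option linter.unusedSectionVars false

namespace WPE

open scoped TensorProduct
open MvPolynomial WPQ
open WPE.LD (Simp levi toLev NQ nq)

section levi

variable {g β η : Type} [LieRing g] [LieAlgebra ℂ g] [Fintype β] [DecidableEq β] [Fintype η]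
  [DecidableEq η] {L : LD g β η} {j : β} {al : η → ℂ}

namespace MIR14

theorem Internal.cmap_i0 (S : Simp L j al) (κ : ℂ) {N : Type} [AddCommGroup N] [Module ℂ N]
    [LieRingModule g N] [LieModule ℂ g N] (v : N) :
    (toLev S κ N).cmap (i0 (L.kb κ) L.nL (L.rep N) v) =
      i0 ((levi S).kb κ) (levi S).nL ((levi S).rep (NQ S N)) (nq S N v) := by
  have h : i0 (L.kb κ) L.nL (L.rep N) v = Ind.incl (L.kb κ) _ ((v, 0, 0) : KN L.nL N) := rfl
  rw [h, CHom.cmap_incl, KNmap_apply]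
  simp only [map_zero]
  rfl

export Internal (cmap_i0)

theorem Internal.cmap_i1 (S : Simp L j al) (κ : ℂ) {N : Type} [AddCommGroup N] [Module ℂ N]
    [LieRingModule g N] [LieModule ℂ g N] (t : Gh L.nL ⊗[ℂ] N) :
    (toLev S κ N).cmap (i1 (L.kb κ) L.nL (L.rep N) t) =
      i1 ((levi S).kb κ) (levi S).nL ((levi S).rep (NQ S N))
        (TensorProduct.map (Gm (LD.fy S)) (nq S N) t) := by
  have h : i1 (L.kb κ) L.nL (L.rep N) t = Ind.incl (L.kb κ) _ ((0, t, 0) : KN L.nL N) := rfl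
  rw [h, CHom.cmap_incl, KNmap_apply]
  simp only [map_zero]
  rfl

export Internal (cmap_i1)

theorem base (S : Simp L j al) (κ : ℂ) {N : Type} [AddCommGroup N] [Module ℂ N]
    [LieRingModule g N] [LieModule ℂ g N] (v : N) :
    TensorProduct.map (Gm (LD.fy S)) (nq S N)
      (LinearMap.rTensor N (Finsupp.lsingle 0 : L.nL →ₗ[ℂ] Gh L.nL) ((L.qn N κ).d v)) =
    LinearMap.rTensor (NQ S N) (Finsupp.lsingle 0 : (levi S).nL →ₗ[ℂ] Gh (levi S).nL)
      (((levi S).qn (NQ S N) κ).d (nq S N v)) := by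
  rw [LD.qn_d, LD.qn_d, ← LD.nq_e S v]
  simp only [map_sum]
  refine Finset.sum_congr rfl fun b _ => ?_
  rw [LinearMap.rTensor_tmul, TensorProduct.map_tmul, LinearMap.rTensor_tmul,
    Finsupp.lsingle_apply, Finsupp.lsingle_apply, Gm_single]

theorem ind {B Y N E : Type} [LieRing B] [LieAlgebra ℂ B] {κ : B →ₗ[ℂ] B →ₗ[ℂ] ℂ}
    [AddCommGroup Y] [Module ℂ Y] [LieRingModule B Y] [LieModule ℂ B Y] [AddCommGroup N]
    [Module ℂ N] {R : LRep B N} [AddCommGroup E] [Module ℂ E]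
    (f g : CC κ Y (TMod.ofRep R) →ₗ[ℂ] E) (h0 : ∀ v : N, f (i0 κ Y R v) = g (i0 κ Y R v))
    (h1 : ∀ m a x, f x = g x → f ((cmod κ Y (TMod.ofRep R)).J m a x) =
      g ((cmod κ Y (TMod.ofRep R)).J m a x)) (x : CC κ Y (TMod.ofRep R))
    (hx : x ∈ cpart κ Y (TMod.ofRep R) 0) : f x = g x := by
  have hle : cpart κ Y (TMod.ofRep R) 0 ≤ LinearMap.ker (f - g) := by
    refine cpart_induction _ ?_ ?_
    · intro v
      have h2 : Ind.incl κ _ (KNpr Y N 0 v) = i0 κ Y R v.1 := rfl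
      rw [LinearMap.mem_ker, LinearMap.sub_apply, h2, h0, sub_self]
    · intro m a x _ hx
      rw [LinearMap.mem_ker, LinearMap.sub_apply, sub_eq_zero] at hx ⊢
      exact h1 m a x hx
  have h3 := hle hx
  rw [LinearMap.mem_ker, LinearMap.sub_apply, sub_eq_zero] at h3
  exact h3

theorem Internal.Qd_i0 (L : LD g β η) (κ : ℂ) {N : Type} [AddCommGroup N] [Module ℂ N]
    [LieRingModule g N] [LieModule ℂ g N]
    {Q0 : CC (L.kb κ) L.nL (TMod.ofRep (L.rep N)) →ₗ[ℂ]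
      CC (L.kb κ) L.nL (TMod.ofRep (L.rep N))} (h0 : IsQ0 (L.kb κ) (L.qn N κ) Q0) (v : N) :
    (L.qd κ).Qd Q0 (i0 (L.kb κ) L.nL (L.rep N) v) =
      i1 (L.kb κ) L.nL (L.rep N) (LinearMap.rTensor N
        (Finsupp.lsingle 0 : L.nL →ₗ[ℂ] Gh L.nL) ((L.qn N κ).d v)) := by
  show Q0 (i0 (L.kb κ) L.nL (L.rep N) v) +
    (cmod (L.kb κ) L.nL (TMod.ofRep (L.rep N))).ψ 0 (L.qd κ).F
      (i0 (L.kb κ) L.nL (L.rep N) v) = _
  rw [(br_C (L.kb κ) L.nL (L.rep N)).psi_i0_nonneg 0 _ _ le_rfl, add_zero]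
  exact h0.n0 v

export Internal (Qd_i0)

theorem Internal.Qd_J (L : LD g β η) (κ : ℂ) {N : Type} [AddCommGroup N] [Module ℂ N]
    [LieRingModule g N] [LieModule ℂ g N]
    {Q0 : CC (L.kb κ) L.nL (TMod.ofRep (L.rep N)) →ₗ[ℂ]
      CC (L.kb κ) L.nL (TMod.ofRep (L.rep N))} (h0 : IsQ0 (L.kb κ) (L.qn N κ) Q0) (m : ℤ)
    (a : L.bL) (x : CC (L.kb κ) L.nL (TMod.ofRep (L.rep N))) :
    (L.qd κ).Qd Q0 ((cmod (L.kb κ) L.nL (TMod.ofRep (L.rep N))).J m a x) =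
      (cmod (L.kb κ) L.nL (TMod.ofRep (L.rep N))).J m a ((L.qd κ).Qd Q0 x) +
        (cmod (L.kb κ) L.nL (TMod.ofRep (L.rep N))).qq (L.qd κ).Om (L.qd κ).Lk (L.qd κ).Fm
          m a x :=
  (br_Q (br_qd L κ) (L.qn N κ) (br_qn L κ N) h0).2.2.2.1 m a x

export Internal (Qd_J)

end MIR14

/-- [MI14] The map of complexes commutes with the differentials on `C⁰`. -/
theorem Internal.mi_lev_Q (S : Simp L j al) (κ : ℂ) (hF : L.form L.F (L.e j) = 1) {N : Type}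
    [AddCommGroup N] [Module ℂ N] [LieRingModule g N] [LieModule ℂ g N]
    {Q0 : CC (L.kb κ) L.nL (TMod.ofRep (L.rep N)) →ₗ[ℂ]
      CC (L.kb κ) L.nL (TMod.ofRep (L.rep N))} (h0 : IsQ0 (L.kb κ) (L.qn N κ) Q0)
    {Q0' : CC ((levi S).kb κ) (levi S).nL (TMod.ofRep ((levi S).rep (NQ S N))) →ₗ[ℂ]
      CC ((levi S).kb κ) (levi S).nL (TMod.ofRep ((levi S).rep (NQ S N)))}
    (h0' : IsQ0 ((levi S).kb κ) ((levi S).qn (NQ S N) κ) Q0')
    (x : CC (L.kb κ) L.nL (TMod.ofRep (L.rep N)))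
    (hx : x ∈ cpart (L.kb κ) L.nL (TMod.ofRep (L.rep N)) 0) :
    (toLev S κ N).cmap ((L.qd κ).Qd Q0 x) =
      ((levi S).qd κ).Qd Q0' ((toLev S κ N).cmap x) := by
  have key := MIR14.ind ((toLev S κ N).cmap ∘ₗ (L.qd κ).Qd Q0)
    (((levi S).qd κ).Qd Q0' ∘ₗ (toLev S κ N).cmap) ?_ ?_ x hx
  · exact key
  · intro v
    have e1 := MIR14.Qd_i0 L κ h0 v
    have e2 := MIR14.Qd_i0 (levi S) κ h0' (nq S N v)
    have e3 := (congrArg (toLev S κ N).cmap e1).trans (MIR14.cmap_i1 S κ _)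
    have e4 := congrArg (i1 ((levi S).kb κ) (levi S).nL ((levi S).rep (NQ S N)))
      (MIR14.base S κ v)
    have e5 := congrArg (((levi S).qd κ).Qd Q0') (MIR14.cmap_i0 S κ v)
    exact (e3.trans e4).trans (e5.trans e2).symm
  · intro m a x hx
    have k1 := MIR14.Qd_J L κ h0 m a x
    have k2 := MIR14.Qd_J (levi S) κ h0' m (LD.fb S a) ((toLev S κ N).cmap x)
    have k3 := (toLev S κ N).cmap_J m a ((L.qd κ).Qd Q0 x)
    have k4 := (toLev S κ N).cmap_J m a x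
    have k5 := mi_cmap_qq (toLev S κ N) (L.qd κ).Om (L.qd κ).Lk (L.qd κ).Fm
      ((levi S).qd κ).Om ((levi S).qd κ).Lk ((levi S).qd κ).Fm (mi_lev_Om S)
      (mi_lev_Lk S κ) (mi_lev_F S κ hF).2 m a x
    have k6 := (congrArg (toLev S κ N).cmap k1).trans (map_add _ _ _)
    have k7 := congrArg₂ (· + ·) (k3.trans (congrArg _ hx)) k5
    have k8 := congrArg (((levi S).qd κ).Qd Q0') k4
    exact ((k6.trans k7).trans k2.symm).trans k8.symm

export Internal (mi_lev_Q)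

end levi

end WPE
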