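import Pool.Agent.WPE.KO10

set_option autoImplicit false

namespace WPE

open MvPolynomial (X pderiv)

namespace KO13

variable {Λ ι V : Type} [AddCommGroup V] [Module ℂ V] (J : Λ → V →ₗ[ℂ] V)

theorem word (R : V →ₗ[ℂ] V) (cl : Λ → ℤ)
    (hR : ∀ a x, R (J a x) = J a (R x) + (cl a : ℂ) • J a x) (x : V) (c : ℤ)
    (hx : x ∈ egr R c) (l : List Λ) : wd J l x ∈ egr R ((l.map cl).sum + c) := by
  induction l with
  | nil =>
    rw [List.map_nil, List.sum_nil, zero_add]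
    exact hx
  | cons a l ih =>
    have h1 := ko_egr_map (J a) (cl a) (hR a) _ _ ih
    have h2 : ((a :: l).map cl).sum + c = (l.map cl).sum + c + cl a := by
      rw [List.map_cons, List.sum_cons]
      ring
    rw [h2]
    exact h1

theorem sum_le (cl : Λ → ℤ) (hcl : ∀ a, cl a ≤ 0) (l : List Λ) : (l.map cl).sum ≤ 0 := by
  induction l with
  | nil => exact le_refl 0
  | cons a l ih =>
    rw [List.map_cons, List.sum_cons]
    have h1 := hcl a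
    linarith

theorem spanTop (x : ι → V) (R S : V →ₗ[ℂ] V) (cl dl : Λ → ℤ)
    (hR : ∀ a x, R (J a x) = J a (R x) + (cl a : ℂ) • J a x)
    (hS : ∀ a x, S (J a x) = J a (S x) + (dl a : ℂ) • J a x) (hcl : ∀ a, cl a ≤ 0) (m : ℤ)
    (hx : ∀ i, ∃ a b : ℤ, a ≤ m ∧ x i ∈ egr R a ∧ x i ∈ egr S b)
    (hsp : ∀ y, ∃ k, y ∈ FS J x k) :
    Submodule.span ℂ {y : V | ∃ a b : ℤ, a ≤ m ∧ y ∈ egr R a ∧ y ∈ egr S b} = ⊤ := by
  refine eq_top_iff.2 fun y _ => ?_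
  obtain ⟨k, hk⟩ := hsp y
  have h1 : FS J x k ≤ Submodule.span ℂ {y : V | ∃ a b : ℤ, a ≤ m ∧ y ∈ egr R a ∧ y ∈ egr S b} := by
    refine iSup_le fun i => Submodule.span_le.2 ?_
    rintro z ⟨l, _, rfl⟩
    obtain ⟨a, b, ha, hRa, hSb⟩ := hx i
    refine Submodule.subset_span ⟨_, _, ?_, word J R cl hR _ a hRa l, word J S dl hS _ b hSb l⟩
    have h2 := sum_le cl hcl l
    linarith
  exact h1 hk

theorem eigR {R S : V →ₗ[ℂ] V} {m : ℤ}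
    (h : Submodule.span ℂ {y : V | ∃ a b : ℤ, a ≤ m ∧ y ∈ egr R a ∧ y ∈ egr S b} = ⊤) : IsEig R := by
  unfold IsEig
  rw [eq_top_iff, ← h]
  refine Submodule.span_le.2 ?_
  rintro y ⟨a, b, _, ha, _⟩
  exact Submodule.mem_iSup_of_mem a ha

theorem eigS {R S : V →ₗ[ℂ] V} {m : ℤ}
    (h : Submodule.span ℂ {y : V | ∃ a b : ℤ, a ≤ m ∧ y ∈ egr R a ∧ y ∈ egr S b} = ⊤) : IsEig S := by
  unfold IsEig
  rw [eq_top_iff, ← h]
  refine Submodule.span_le.2 ?_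
  rintro y ⟨a, b, _, _, hb⟩
  exact Submodule.mem_iSup_of_mem b hb

theorem comm {R S : V →ₗ[ℂ] V} {m : ℤ}
    (h : Submodule.span ℂ {y : V | ∃ a b : ℤ, a ≤ m ∧ y ∈ egr R a ∧ y ∈ egr S b} = ⊤) (x : V) :
    R (S x) = S (R x) := by
  have h1 : (⊤ : Submodule ℂ V) ≤ LinearMap.ker (R ∘ₗ S - S ∘ₗ R) := by
    rw [← h]
    refine Submodule.span_le.2 ?_
    rintro y ⟨a, b, _, ha, hb⟩
    rw [ko_mem_egr] at ha hb
    refine LinearMap.mem_ker.2 ?_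
    rw [LinearMap.sub_apply, LinearMap.comp_apply, LinearMap.comp_apply, ha, hb, map_smul, map_smul,
      ha, hb, smul_comm, sub_self]
  have h2 := LinearMap.mem_ker.1 (h1 (Submodule.mem_top (x := x)))
  rw [LinearMap.sub_apply, LinearMap.comp_apply, LinearMap.comp_apply] at h2
  exact sub_eq_zero.1 h2

theorem bot {R S : V →ₗ[ℂ] V} {m : ℤ}
    (h : Submodule.span ℂ {y : V | ∃ a b : ℤ, a ≤ m ∧ y ∈ egr R a ∧ y ∈ egr S b} = ⊤) (c : ℤ)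
    (hc : m < c) : GE R c = ⊥ := by
  refine ko_GE_bot m ?_ c hc
  rw [eq_top_iff, ← h]
  refine Submodule.span_mono ?_
  rintro y ⟨a, b, ha, hRa, _⟩
  exact ⟨a, ha, hRa⟩

end KO13

section sys

variable {T Z ν C0 C1 C2 : Type} [AddCommGroup C0] [Module ℂ C0] [AddCommGroup C1] [Module ℂ C1]
  [AddCommGroup C2] [Module ℂ C2]

theorem KO13.top0 (K : KG T Z ν C0 C1 C2) :
    Submodule.span ℂ {y : C0 | ∃ a b : ℤ, a ≤ K.top ∧ y ∈ egr K.R0 a ∧ y ∈ egr K.S0 b} = ⊤ :=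
  KO13.spanTop K.J0 K.n K.R0 K.S0 K.cl K.dl K.R0J K.S0J K.cl_le K.top
    (fun i => ⟨K.cn i, K.top - K.cn i, K.cn_le i, (ko_mem_egr _ _).2 (K.R0n i),
      (ko_mem_egr _ _).2 (K.S0n i)⟩) K.sp0

theorem KO13.top1 (K : KG T Z ν C0 C1 C2) :
    Submodule.span ℂ {y : C1 | ∃ a b : ℤ, a ≤ K.top ∧ y ∈ egr K.R1 a ∧ y ∈ egr K.S1 b} = ⊤ := by
  refine KO13.spanTop K.J1 (fun i : T × ν => K.p0 i.1 (K.n i.2)) K.R1 K.S1 K.cl K.dl K.R1J K.S1J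
    K.cl_le K.top (fun i => ⟨K.cn i.2 + K.cp i.1, K.top - K.cn i.2 + K.dp i.1, ?_, ?_, ?_⟩) K.sp1
  · have h1 := K.cn_le i.2
    have h2 := K.cp_le i.1
    linarith
  · rw [ko_mem_egr, K.R1p, K.R0n, map_smul, ← add_smul, ← Int.cast_add]
  · rw [ko_mem_egr, K.S1p, K.S0n, map_smul, ← add_smul, ← Int.cast_add]

variable (K : KG T Z ν C0 C1 C2)

theorem ko_eR0 : IsEig K.R0 := KO13.eigR (KO13.top0 K)
theorem ko_eS0 : IsEig K.S0 := KO13.eigS (KO13.top0 K)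
theorem ko_eR1 : IsEig K.R1 := KO13.eigR (KO13.top1 K)
theorem ko_eS1 : IsEig K.S1 := KO13.eigS (KO13.top1 K)
theorem ko_RS0 (x : C0) : K.R0 (K.S0 x) = K.S0 (K.R0 x) := KO13.comm (KO13.top0 K) x
theorem ko_RS1 (x : C1) : K.R1 (K.S1 x) = K.S1 (K.R1 x) := KO13.comm (KO13.top1 K) x
theorem ko_bot0 (c : ℤ) (hc : K.top < c) : GE K.R0 c = ⊥ := KO13.bot (KO13.top0 K) c hc
theorem ko_bot1 (c : ℤ) (hc : K.top < c) : GE K.R1 c = ⊥ := KO13.bot (KO13.top1 K) c hc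

theorem ko_SQ (d : ℤ) (x : C0) (hx : x ∈ egr K.S0 d) : K.Q x ∈ egr K.S1 d := by
  rw [ko_mem_egr] at hx ⊢
  change K.S1 (K.Q0 x + K.D0 x) = _ • (K.Q0 x + K.D0 x)
  rw [map_add, K.S1Q, K.S1D, hx, map_smul, map_smul, smul_add]

theorem ko_QGE (c : ℤ) (x : C0) (hx : x ∈ GE K.R0 c) : K.Q x ∈ GE K.R1 (c - 1) := by
  change K.Q0 x + K.D0 x ∈ GE K.R1 (c - 1)
  refine Submodule.add_mem _ ?_ ?_
  · have h1 := ko_GE_map K.Q0 0 (fun x => by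
      rw [K.R1Q, Int.cast_zero, zero_smul, add_zero]) c x hx
    exact ko_GE_mono (c - 1) (c + 0) (by linarith) h1
  · exact ko_GE_map K.D0 (-1) K.R1D c x hx

theorem ko_prS (c d : ℤ) (x : C0) (hx : x ∈ egr K.S0 d) : pr K.R0 c x ∈ egr K.S0 d := by
  have h1 := ko_pr_map (ko_eR0 K) (ko_eR0 K) K.S0 0 (fun x => by
    rw [ko_RS0, Int.cast_zero, zero_smul, add_zero]) c x
  rw [ko_mem_egr] at hx ⊢
  rw [← h1, hx, map_smul, add_zero]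

end sys

end WPE
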