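import Pool.Agent.WPE.KO12
import Pool.Agent.WPE.KO13

/-! WPE, block KO, row KO14: the lifting of the lowest component. -/

set_option autoImplicit false

namespace WPE

open MvPolynomial (X pderiv)

section sys

variable {T Z ν C0 C1 C2 : Type} [AddCommGroup C0] [Module ℂ C0] [AddCommGroup C1] [Module ℂ C1]
  [AddCommGroup C2] [Module ℂ C2]

variable (K : KG T Z ν C0 C1 C2)

theorem ko_K1h (c d : ℤ) (u : C1) (hc : u ∈ egr K.R1 c) (hd : u ∈ egr K.S1 d)
    (h : K.D1 u = 0) : ∃ y, y ∈ egr K.R0 (c + 1) ∧ y ∈ egr K.S0 d ∧ K.D0 y = u := by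
  obtain ⟨y0, hy0⟩ := ko_K1 K.toKS u h
  have hR0 := ko_eR0 K
  have hS0 := ko_eS0 K
  have hR1 := ko_eR1 K
  have hS1 := ko_eS1 K
  refine ⟨pr K.R0 (c + 1) (pr K.S0 d y0), ko_pr_mem hR0 _ _, ?_, ?_⟩
  · exact ko_prS K (c + 1) d _ (ko_pr_mem hS0 _ _)
  · have h1 := ko_pr_map hR0 hR1 K.D0 (-1) K.R1D (c + 1) (pr K.S0 d y0)
    rw [add_neg_cancel_right] at h1
    rw [← h1]
    have h2 := ko_pr_map hS0 hS1 K.D0 0 (fun x => by
      rw [K.S1D x, Int.cast_zero, zero_smul, add_zero]) d y0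
    rw [add_zero] at h2
    rw [← h2, hy0, ko_pr_self hS1 d u hd, ko_pr_self hR1 c u hc]

theorem ko_low (c : ℤ) (x : C0) (hc : x ∈ GE K.R0 c) (h : K.Q x = 0) :
    K.D0 (pr K.R0 c x) = 0 := by
  have hR0 := ko_eR0 K
  have hg := ko_pr_mem hR0 c x
  have h1 := ko_egr_map K.D0 (-1) K.R1D c _ hg
  have h2 : K.D0 (pr K.R0 c x) = - K.Q0 x - K.D0 (x - pr K.R0 c x) := by
    have h3 : K.Q0 x + K.D0 x = 0 := h
    rw [map_sub, ← sub_eq_zero]
    rw [← h3]
    abel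
  refine ko_egr_inf (A := K.R1) (c + -1) c (by omega) _ h1 ?_
  rw [h2]
  refine Submodule.sub_mem _ (Submodule.neg_mem _ ?_) ?_
  · have h4 := ko_GE_map (B := K.R1) K.Q0 0 (fun x => by
      rw [K.R1Q x, Int.cast_zero, zero_smul, add_zero]) c x hc
    rwa [add_zero] at h4
  · have h4 := ko_GE_map (B := K.R1) K.D0 (-1) K.R1D (c + 1) _ (ko_GE_step hR0 c x hc)
    rwa [add_neg_cancel_right] at h4

namespace KO14

theorem step (c d : ℤ) (g : C0) (hd : g ∈ egr K.S0 d) (hc : g ∈ egr K.R0 c) (h : K.D0 g = 0) (j : ℕ) :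
    ∃ x, x ∈ egr K.S0 d ∧ x - g ∈ GE K.R0 (c + 1) ∧ K.Q x ∈ GE K.R1 (c + j) := by
  have hR1 := ko_eR1 K
  have hS1 := ko_eS1 K
  induction j with
  | zero =>
    refine ⟨g, hd, ?_, ?_⟩
    · rw [sub_self]
      exact Submodule.zero_mem _
    · have h1 : K.Q g = K.Q0 g := by
        change K.Q0 g + K.D0 g = _
        rw [h, add_zero]
      rw [h1]
      have h2 := ko_egr_map (B := K.R1) K.Q0 0 (fun x => by
        rw [K.R1Q x, Int.cast_zero, zero_smul, add_zero]) c g hc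
      rw [Nat.cast_zero]
      exact ko_egr_GE _ _ le_rfl h2
  | succ j ih =>
    obtain ⟨x, hx1, hx2, hx3⟩ := ih
    obtain ⟨c', hc'⟩ : ∃ c' : ℤ, c' = c + j := ⟨_, rfl⟩
    rw [← hc'] at hx3
    obtain ⟨u, hu⟩ : ∃ u, u = pr K.R1 c' (K.Q x) := ⟨_, rfl⟩
    have hu1 : u ∈ egr K.R1 c' := hu ▸ ko_pr_mem hR1 _ _
    have hQx : K.Q x ∈ egr K.S1 d := ko_SQ K d x hx1
    have hu2 : u ∈ egr K.S1 d := by
      rw [ko_mem_egr] at hQx ⊢
      have h1 := ko_pr_map hR1 hR1 (K.S1) 0 (fun x => by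
        rw [ko_RS1 K x, Int.cast_zero, zero_smul, add_zero]) c' (K.Q x)
      rw [add_zero, hQx, map_smul] at h1
      rw [hu]
      exact h1.symm
    have hD1 : K.D1 u = 0 := by
      have h1 := ko_egr_map K.D1 (-1) K.R2D c' _ hu1
      have h2 : K.Q1 (K.Q x) + K.D1 (K.Q x) = 0 := by
        have h3 : K.Q x = K.Q0 x + K.D0 x := rfl
        rw [h3, map_add, map_add, K.QQ, K.DD, zero_add, add_zero]
        exact K.QD x
      have h3 : K.D1 u = - K.Q1 (K.Q x) - K.D1 (K.Q x - u) := by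
        rw [map_sub, ← sub_eq_zero]
        rw [← h2]
        abel
      refine ko_egr_inf (A := K.R2) (c' + -1) c' (by omega) _ h1 ?_
      rw [h3]
      refine Submodule.sub_mem _ (Submodule.neg_mem _ ?_) ?_
      · have h4 := ko_GE_map (B := K.R2) K.Q1 0 (fun x => by
          rw [K.R2Q x, Int.cast_zero, zero_smul, add_zero]) c' _ hx3
        rwa [add_zero] at h4
      · have h4 := ko_GE_map (B := K.R2) K.D1 (-1) K.R2D (c' + 1) _ (ko_GE_step hR1 c' _ hx3)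
        rw [← hu, add_neg_cancel_right] at h4
        exact h4
    obtain ⟨y, hy1, hy2, hy3⟩ := ko_K1h K c' d u hu1 hu2 hD1
    refine ⟨x - y, Submodule.sub_mem _ hx1 hy2, ?_, ?_⟩
    · have e : x - y - g = (x - g) - y := by abel
      rw [e]
      refine Submodule.sub_mem _ hx2 (ko_egr_GE (c + 1) (c' + 1) ?_ hy1)
      rw [hc']
      omega
    · have e : K.Q (x - y) = (K.Q x - u) - K.Q0 y := by
        rw [map_sub]
        have h3 : K.Q y = K.Q0 y + K.D0 y := rfl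
        rw [h3, hy3]
        abel
      have e2 : c + ((j + 1 : ℕ) : ℤ) = c' + 1 := by
        rw [hc']
        push_cast
        ring
      rw [e, e2]
      refine Submodule.sub_mem _ (hu ▸ ko_GE_step hR1 c' _ hx3) ?_
      have h2 := ko_egr_map (B := K.R1) K.Q0 0 (fun x => by
        rw [K.R1Q x, Int.cast_zero, zero_smul, add_zero]) (c' + 1) y hy1
      rw [add_zero] at h2
      exact ko_egr_GE _ _ le_rfl h2

end KO14

theorem ko_lift (c d : ℤ) (g : C0) (hc : g ∈ egr K.R0 c) (hd : g ∈ egr K.S0 d)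
    (h : K.D0 g = 0) : ∃ x, K.Lft c d g x := by
  obtain ⟨j, hj⟩ : ∃ j : ℕ, K.top < c + j := by
    refine ⟨(K.top - c).toNat + 1, ?_⟩
    push_cast
    have := Int.self_le_toNat (K.top - c)
    omega
  obtain ⟨x, h1, h2, h3⟩ := KO14.step K c d g hd hc h j
  rw [ko_bot1 K _ hj, Submodule.mem_bot] at h3
  exact ⟨x, h3, h1, h2⟩

end sys

end WPE
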