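import Pool.Agent.WPE.KJ2
import Pool.Agent.WPE.KO14

/-! WPE, block KJ, row KJ8: lifting. -/

set_option linter.unusedSectionVars false

namespace WPE

open scoped TensorProduct

section kin

variable {B : Type} [LieRing B] [LieAlgebra ℂ B] {κ : B →ₗ[ℂ] B →ₗ[ℂ] ℂ}
  {Y : Type} [AddCommGroup Y] [Module ℂ Y] [LieRingModule B Y] [LieModule ℂ B Y]
  {N : Type} [AddCommGroup N] [Module ℂ N] {R : LRep B N} {β ζ ν : Type}
  (I : KIn κ Y R β ζ ν)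

namespace KJr8

theorem lft (c d : ℤ) (g : I.Cp 0) (hc : g ∈ egr I.kg.R0 c) (hd : g ∈ egr I.kg.S0 d)
    (h : I.kg.D0 g = 0) : ∃ x : I.Cx, x ∈ I.Cp 0 ∧ I.QQ x = 0 ∧ x ∈ egr I.S d ∧
    x - (g : I.Cx) ∈ GE (I.J 0 I.rho) (c + 1) := by
  obtain ⟨x, hx⟩ := ko_lift I.kg c d g hc hd h
  refine ⟨x, x.2, (kj_Q I x).1 hx.ker, (kj_egr_S I 0 d x).1 hx.deg, ?_⟩
  have h1 := (kj_GE_R I 0 (c + 1) (x - g)).1 hx.low
  exact h1

end KJr8

/-- [KJ8] Lifting. -/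
theorem kj_lift (i : ν) : ∃ x : I.Cx, x ∈ I.Cp 0 ∧ I.QQ x = 0 ∧ x ∈ egr I.S (I.top - I.cn i) ∧
    x - I.nn i ∈ GE (I.J 0 I.rho) (I.cn i + 1) :=
  KJr8.lft I (I.cn i) (I.top - I.cn i) (I.nr i) ((ko_mem_egr _ _).2 (I.kg.R0n i))
    ((ko_mem_egr _ _).2 (I.kg.S0n i)) (I.kg.D0n i)

/-- [KJ8] Lifting of `J_a(-1) n_i`. -/
theorem kj_lift1 (a : B) (d : ℤ) (haF : ⁅a, I.F⁆ = 0) (ha : ⁅I.rho, a⁆ = (d : ℂ) • a) (i : ν) :
    ∃ x : I.Cx, x ∈ I.Cp 0 ∧ I.QQ x = 0 ∧ x ∈ egr I.S (I.top - I.cn i + 1 - d) ∧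
      x - I.J (-1) a (I.nn i) ∈ GE (I.J 0 I.rho) (I.cn i + d + 1) := by
  have hmem : I.J (-1) a (I.nn i) ∈ I.Cp 0 := I.J_mem 0 _ _ _ (I.nn_mem i)
  set g : I.Cp 0 := ⟨I.J (-1) a (I.nn i), hmem⟩ with hg
  have hR : I.J 0 I.rho (I.nn i) = (I.cn i : ℂ) • I.nn i := congrArg Subtype.val (I.kg.R0n i)
  have hS : I.S (I.nn i) = ((I.top - I.cn i : ℤ) : ℂ) • I.nn i := congrArg Subtype.val (I.kg.S0n i)
  have hD : I.ps 0 I.F (I.nn i) = 0 := congrArg Subtype.val (I.kg.D0n i)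
  have hcomm : I.J 0 I.rho (I.J (-1) a (I.nn i)) =
      ((I.cn i + d : ℤ) : ℂ) • I.J (-1) a (I.nn i) := by
    have h := (cmod κ Y (TMod.ofRep R)).comm 0 (-1) I.rho a (I.nn i)
    have h1 : coc κ 0 (-1) I.rho a = 0 := by
      unfold coc
      rw [if_neg (by norm_num)]
    rw [h1, zero_smul, add_zero, ha, map_smul] at h
    have h2 : I.J 0 I.rho (I.J (-1) a (I.nn i)) - I.J (-1) a (I.J 0 I.rho (I.nn i)) =
        (d : ℂ) • I.J (-1) a (I.nn i) := h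
    rw [hR, map_smul, sub_eq_iff_eq_add] at h2
    rw [h2, ← add_smul]
    congr 1
    push_cast
    ring
  have h1 : g ∈ egr I.kg.R0 (I.cn i + d) := (ko_mem_egr _ _).2 (Subtype.ext hcomm)
  have h2 : g ∈ egr I.kg.S0 (I.top - I.cn i + 1 - d) := by
    refine (ko_mem_egr _ _).2 (Subtype.ext ?_)
    show I.S (I.J (-1) a (I.nn i)) = ((I.top - I.cn i + 1 - d : ℤ) : ℂ) • I.J (-1) a (I.nn i)
    have e1 : I.en (I.J (-1) a (I.nn i)) = I.J (-1) a (I.en (I.nn i)) + I.J (-1) a (I.nn i) := by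
      have h := cen_J (κ := κ) (Y := Y) 0 (isEnergy_zero R) (-1) a (I.nn i)
      have h' : I.en (I.J (-1) a (I.nn i)) = I.J (-1) a (I.en (I.nn i)) -
          (((-1 : ℤ)) : ℂ) • I.J (-1) a (I.nn i) := h
      rw [h']
      push_cast
      rw [neg_smul, one_smul, sub_neg_eq_add]
    have e2 : I.en (I.nn i) = I.S (I.nn i) + I.J 0 I.rho (I.nn i) - (I.top : ℂ) • I.nn i := by
      unfold KIn.S
      rw [LinearMap.add_apply, LinearMap.sub_apply, LinearMap.smul_apply, LinearMap.id_apply]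
      abel
    rw [hS, hR] at e2
    have e3 : I.S (I.J (-1) a (I.nn i)) = I.en (I.J (-1) a (I.nn i)) -
        I.J 0 I.rho (I.J (-1) a (I.nn i)) + (I.top : ℂ) • I.J (-1) a (I.nn i) := rfl
    rw [e3, e1, e2, hcomm, map_sub, map_add, map_smul, map_smul, map_smul]
    module
  have h3 : I.kg.D0 g = 0 := by
    refine Subtype.ext ?_
    show I.ps 0 I.F (I.J (-1) a (I.nn i)) = 0
    have h := (cmod κ Y (TMod.ofRep R)).commψ (-1) 0 a I.F (I.nn i)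
    rw [haF, map_zero, LinearMap.zero_apply] at h
    have h' : I.J (-1) a (I.ps 0 I.F (I.nn i)) - I.ps 0 I.F (I.J (-1) a (I.nn i)) = 0 := h
    rw [hD, map_zero, zero_sub, neg_eq_zero] at h'
    exact h'
  exact KJr8.lft I _ _ _ h1 h2 h3

end kin

end WPE
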