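import Pool.Agent.WPE.LA2
import Pool.Agent.WPE.LA3

/-! WPE, block LA, row LA10: the exponents.

`z = ker (ad F : b₋ → n₋)` is stable under `ad rho`, so it is spanned by homogeneous elements; choose a basis of
such elements (containing `F` if `F ≠ 0`).  Together with preimages `t b` of the `f b` it is a basis of `b₋`.
The trace of `ad rho` on `b₋` is computed in this basis and in the basis `f b`, `h i`. -/

open scoped TensorProduct

namespace WPE

variable {g β η : Type} [LieRing g] [LieAlgebra ℂ g] [Fintype β] [DecidableEq β] [Fintype η] [DecidableEq η]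

namespace LA10

/-- The trace in a basis of eigenvectors up to other basis vectors. -/
theorem tr_diag {V K : Type} [AddCommGroup V] [Module ℂ V] [Fintype K] (B : Module.Basis K ℂ V) (φ : V →ₗ[ℂ] V)
    (μ : K → ℂ) (h : ∀ k, ∃ c : K → ℂ, c k = 0 ∧ φ (B k) = μ k • B k + ∑ l, c l • B l) :
    LinearMap.trace ℂ V φ = ∑ k, μ k := by
  classical
  rw [LinearMap.trace_eq_matrix_trace ℂ B φ, Matrix.trace]
  refine Finset.sum_congr rfl fun k _ => ?_
  obtain ⟨c, hc, h1⟩ := h k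
  rw [Matrix.diag_apply, LinearMap.toMatrix_apply, h1, map_add, map_smul, Finsupp.add_apply, Finsupp.smul_apply,
    Module.Basis.repr_self, Finsupp.single_eq_same]
  have h2 : B.repr (∑ l, c l • B l) k = c k := by
    rw [map_sum, Finsupp.finsetSum_apply, Finset.sum_eq_single k]
    · rw [map_smul, Module.Basis.repr_self, Finsupp.smul_apply, Finsupp.single_eq_same, smul_eq_mul, mul_one]
    · intro l _ hl
      rw [map_smul, Module.Basis.repr_self, Finsupp.smul_apply, Finsupp.single_eq_of_ne (Ne.symm hl), smul_zero]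
    · intro h
      exact absurd (Finset.mem_univ k) h
  rw [h2, hc, smul_eq_mul, mul_one, add_zero]

/-- The same for a subspace. -/
theorem tr_sub {K : Type} [Fintype K] (W : Submodule ℂ g) (φ : W →ₗ[ℂ] W) (v : K → g) (hv : ∀ k, v k ∈ W)
    (hli : LinearIndependent ℂ v) (hsp : W ≤ Submodule.span ℂ (Set.range v)) (μ : K → ℂ)
    (h : ∀ k, ∃ c : K → ℂ, c k = 0 ∧ (φ ⟨v k, hv k⟩ : g) = μ k • v k + ∑ l, c l • v l) :
    LinearMap.trace ℂ W φ = ∑ k, μ k := by
  have hli' : LinearIndependent ℂ (fun k => (⟨v k, hv k⟩ : W)) := by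
    apply LinearIndependent.of_comp W.subtype
    exact hli
  have hsp' : ⊤ ≤ Submodule.span ℂ (Set.range fun k => (⟨v k, hv k⟩ : W)) := by
    rintro ⟨x, hx⟩ -
    obtain ⟨c, hc⟩ := (Submodule.mem_span_range_iff_exists_fun ℂ).1 (hsp hx)
    refine (Submodule.mem_span_range_iff_exists_fun ℂ).2 ⟨c, ?_⟩
    apply Subtype.ext
    refine Eq.trans ?_ hc
    simp
  refine tr_diag (Module.Basis.mk hli' hsp') φ μ fun k => ?_
  obtain ⟨c, hc, h1⟩ := h k
  refine ⟨c, hc, ?_⟩
  simp only [Module.Basis.mk_apply]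
  apply Subtype.ext
  rw [h1]
  simp

/-- `ad rho` preserves `b₋`. -/
theorem rho_bm (L : LD g β η) : ∀ x ∈ L.bm, ⁅L.rho, x⁆ ∈ L.bm := fun x hx =>
  (la_G L).bm_bm _ ((la_P L).hs_le L.rho_mem) x hx

/-- `ad rho` and `ad F`. -/
theorem rho_F (L : LD g β η) (x : g) : ⁅L.F, ⁅L.rho, x⁆⁆ = ⁅L.F, x⁆ + ⁅L.rho, ⁅L.F, x⁆⁆ := by
  have h1 := leibniz_lie L.rho L.F x
  rw [L.rho_F, smul_lie] at h1
  rw [h1]
  module

/-- `z` is stable under `ad rho`. -/
theorem rho_zc (L : LD g β η) : ∀ x ∈ L.zc, ⁅L.rho, x⁆ ∈ L.zc := by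
  rintro x ⟨hx, hx'⟩
  refine ⟨rho_bm L x hx, ?_⟩
  rw [rho_F, hx', lie_zero, add_zero]

/-- An eigenvector of `ad rho` in `b₋` is homogeneous. -/
theorem eig (L : LD g β η) (x : g) (hx : x ∈ L.bm) (μ : ℂ) (h : ⁅L.rho, x⁆ = μ • x) (h0 : x ≠ 0) :
    ∃ m : ℕ, μ = -(m : ℂ) := by
  have hP := la_P L
  have hG := la_G L
  by_contra hcon
  push Not at hcon
  apply h0
  have h1 : ∀ y : g, ∀ r : ℂ, ⁅L.rho, y⁆ = r • y → (μ + r) * L.form x y = 0 := by
    intro y r hy
    have h2 : L.form ⁅L.rho, x⁆ y = -(L.form x ⁅L.rho, y⁆) := by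
      rw [← lie_skew, map_neg, LinearMap.neg_apply, L.inv]
    rw [h, hy, map_smul, LinearMap.smul_apply, map_smul, smul_eq_mul, smul_eq_mul] at h2
    linear_combination h2
  have h2 : ∀ b, L.form x (L.e b) = 0 := by
    intro b
    have h3 := h1 (L.e b) (L.ht b) (L.rho_e b)
    rcases mul_eq_zero.1 h3 with h4 | h4
    · exact absurd (by linear_combination h4) (hcon (L.ht b))
    · exact h4
  have h3 : ∀ i, L.form x (L.h' i) = 0 := by
    intro i
    have h4 : ⁅L.rho, L.h' i⁆ = (0 : ℂ) • L.h' i := by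
      rw [hG.hs_hs _ L.rho_mem _ (hP.h'_mem i), zero_smul]
    have h5 := h1 (L.h' i) 0 h4
    rcases mul_eq_zero.1 h5 with h6 | h6
    · exact absurd (by rw [Nat.cast_zero, neg_zero]; linear_combination h6) (hcon 0)
    · exact h6
  have h4 : ∀ b, L.form x (L.f b) = 0 := by
    intro b
    rw [L.symm]
    exact hP.form_nm_bm _ (Submodule.subset_span ⟨b, rfl⟩) x hx
  rw [L.decomp x]
  simp only [h2, h3, h4, zero_smul, Finset.sum_const_zero, add_zero]

/-- `z` is spanned by homogeneous elements. -/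
theorem zc_span (L : LD g β η) :
    L.zc ≤ Submodule.span ℂ {x | x ∈ L.zc ∧ ∃ m : ℕ, x ∈ L.gr (-(m : ℤ))} := by
  have hG := la_G L
  have hfin : FiniteDimensional ℂ g := (la_B L).fin
  set φ : Module.End ℂ g := LD.adl L.rho with hφ
  have happ : ∀ x, φ x = ⁅L.rho, x⁆ := fun _ => rfl
  have h1 : L.bm ≤ ⨆ μ, φ.genEigenspace μ 1 := by
    intro x hx
    have h2 : Submodule.span ℂ {y | ∃ c : ℤ, c ≤ 0 ∧ y ∈ L.gr c ∧ y ∈ L.bm} ≤ ⨆ μ, φ.genEigenspace μ 1 := by
      rw [Submodule.span_le]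
      rintro y ⟨c, -, hy, -⟩
      have h3 : y ∈ φ.genEigenspace (c : ℂ) 1 := Module.End.mem_eigenspace_iff.2 hy
      exact (le_iSup (fun μ => φ.genEigenspace μ 1) (c : ℂ)) h3
    exact h2 (hG.gr_span x hx)
  have h2 : L.zc = ⨆ μ, L.zc ⊓ φ.genEigenspace μ 1 := by
    rw [← Submodule.inf_iSup_genEigenspace (rho_zc L) 1, left_eq_inf]
    exact fun x hx => h1 hx.1
  refine h2.le.trans (iSup_le fun μ => ?_)
  rintro x ⟨hx, hx'⟩
  by_cases h0 : x = 0
  · rw [h0]
    exact Submodule.zero_mem _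
  have h3 : ⁅L.rho, x⁆ = μ • x := Module.End.mem_eigenspace_iff.1 hx'
  obtain ⟨m, hm⟩ := eig L x hx.1 μ h3 h0
  refine Submodule.subset_span ⟨hx, m, ?_⟩
  show ⁅L.rho, x⁆ = ((-(m : ℤ) : ℤ) : ℂ) • x
  rw [h3, hm]
  push_cast
  rfl

end LA10

open LA10

theorem la_exp (L : LD g β η) : ∃ (z : η → g) (m : η → ℕ),
    (∀ i, z i ∈ L.zc) ∧ (∀ i, z i ∈ L.gr (-(m i : ℤ))) ∧ LinearIndependent ℂ z ∧
    Submodule.span ℂ (Set.range z) = L.zc ∧ ∑ i, m i = Fintype.card β ∧
    (L.F ≠ 0 → ∃ i, z i = L.F ∧ m i = 1) := by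
  classical
  have hP := la_P L
  have hG := la_G L
  have hB := la_B L
  have hfin : FiniteDimensional ℂ g := hB.fin
  set S : Set g := {x | x ∈ L.zc ∧ ∃ m : ℕ, x ∈ L.gr (-(m : ℤ))} with hS
  have hFm : L.F ∈ S := ⟨⟨hP.nm_le hG.F_nm, lie_self _⟩, 1, hG.F_gr⟩
  -- a homogeneous basis
  obtain ⟨b, hbS, hFb, hSb, hbi⟩ : ∃ b ⊆ S, (L.F ≠ 0 → L.F ∈ b) ∧ S ⊆ Submodule.span ℂ b ∧
      LinearIndepOn ℂ id b := by
    by_cases h0 : L.F = 0
    · obtain ⟨b, h1, -, h3, h4⟩ := exists_linearIndepOn_id_extension (K := ℂ) (linearIndepOn_empty ℂ (id : g → g))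
        (Set.empty_subset S)
      exact ⟨b, h1, fun h => absurd h0 h, h3, h4⟩
    · obtain ⟨b, h1, h2, h3, h4⟩ := exists_linearIndepOn_id_extension (K := ℂ) (s := {L.F}) (t := S)
        ((linearIndepOn_singleton_iff ℂ).2 h0) (Set.singleton_subset_iff.2 hFm)
      exact ⟨b, h1, fun _ => h2 rfl, h3, h4⟩
  have hspan : Submodule.span ℂ b = L.zc := by
    apply le_antisymm
    · rw [Submodule.span_le]
      exact fun x hx => (hbS hx).1
    · exact (zc_span L).trans (Submodule.span_le.2 hSb)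
  have hbi' : LinearIndependent ℂ (fun x : b => (x : g)) := hbi
  have hbf : Fintype b := by
    have : Finite b := hbi'.finite
    exact Fintype.ofFinite b
  have hr : Set.range (fun x : b => (x : g)) = b := Subtype.range_coe
  -- preimages of the `f b`
  have ht : ∀ c, ∃ x ∈ L.bm, ⁅L.F, x⁆ = L.f c := by
    intro c
    obtain ⟨x, hx, hx'⟩ := L.surj c
    refine ⟨x, hP.mem_bm x ?_, hx'⟩
    rw [hP.Pp_apply]
    exact Finset.sum_eq_zero fun d _ => by rw [hx d, zero_smul]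
  choose t htm htF using ht
  have htli : LinearIndependent ℂ t := by
    apply LinearIndependent.of_comp (LD.adl L.F)
    have e : (LD.adl L.F : g → g) ∘ t = L.f := funext fun c => htF c
    rw [e]
    exact hB.f_li
  have hFt : ∀ c : β → ℂ, ⁅L.F, ∑ k, c k • t k⁆ = ∑ k, c k • L.f k := by
    intro c
    rw [lie_sum]
    exact Finset.sum_congr rfl fun k _ => by rw [lie_smul, htF]
  have hvli : LinearIndependent ℂ (Sum.elim (fun x : b => (x : g)) t) := by
    refine hbi'.sum_type htli ?_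
    rw [Submodule.disjoint_def, hr, hspan]
    intro x hx hx'
    obtain ⟨c, hc⟩ := (Submodule.mem_span_range_iff_exists_fun ℂ).1 hx'
    have h1 := hx.2
    rw [← hc, hFt] at h1
    have h2 := Fintype.linearIndependent_iff.1 hB.f_li c h1
    rw [← hc]
    exact Finset.sum_eq_zero fun k _ => by rw [h2 k, zero_smul]
  have hvm : ∀ k, Sum.elim (fun x : b => (x : g)) t k ∈ L.bm := by
    rintro (k | k)
    · exact (hbS k.2).1.1
    · exact htm k
  have hnm : ∀ x ∈ L.bm, ∃ c : β → ℂ, x - ∑ k, c k • t k ∈ L.zc := by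
    intro x hx
    have h1 : ⁅L.F, x⁆ ∈ L.nm := by
      rw [← lie_skew]
      exact neg_mem (hG.bm_nm x hx _ hG.F_nm)
    obtain ⟨c, hc⟩ := (Submodule.mem_span_range_iff_exists_fun ℂ).1 h1
    refine ⟨c, ⟨sub_mem hx (sum_mem fun k _ => Submodule.smul_mem _ _ (htm k)), ?_⟩⟩
    rw [lie_sub, hFt, hc, sub_self]
  have hvsp : L.bm ≤ Submodule.span ℂ (Set.range (Sum.elim (fun x : b => (x : g)) t)) := by
    intro x hx
    obtain ⟨c, hc⟩ := hnm x hx
    have e : x = (x - ∑ k, c k • t k) + ∑ k, c k • t k := by abel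
    rw [e]
    refine add_mem ?_ (sum_mem fun k _ => Submodule.smul_mem _ _ (Submodule.subset_span ⟨Sum.inr k, rfl⟩))
    rw [← hspan] at hc
    have hsub : b ⊆ Set.range (Sum.elim (fun x : b => (x : g)) t) := fun y hy => ⟨Sum.inl ⟨y, hy⟩, rfl⟩
    exact Submodule.span_mono hsub hc
  -- the number of elements
  have hcard : Fintype.card b = Fintype.card η := by
    have h1 := finrank_span_eq_card hvli
    have h2 := finrank_span_eq_card hB.bb_li
    have h3 : Submodule.span ℂ (Set.range (Sum.elim (fun x : b => (x : g)) t)) = Submodule.span ℂ (Set.range L.bb) := by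
      rw [hB.bb_span]
      refine le_antisymm ?_ hvsp
      rw [Submodule.span_le]
      rintro _ ⟨k, rfl⟩
      exact hvm k
    rw [h3, h2, Fintype.card_sum, Fintype.card_sum] at h1
    omega
  -- the degrees
  choose md hmd using fun x : b => (hbS x.2).2
  have hmd' : ∀ x : b, ⁅L.rho, (x : g)⁆ = (-(md x : ℂ)) • (x : g) := by
    intro x
    have h1 : ⁅L.rho, (x : g)⁆ = ((-(md x : ℤ) : ℤ) : ℂ) • (x : g) := hmd x
    rw [h1]
    push_cast
    rfl
  -- the traces
  set φ : L.bm →ₗ[ℂ] L.bm := (LD.adl L.rho).restrict (rho_bm L) with hφ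
  have happ : ∀ (x : g) (hx : x ∈ L.bm), ((φ (⟨x, hx⟩ : L.bm) : L.bm) : g) = ⁅L.rho, x⁆ := fun _ _ => rfl
  have t1 := tr_sub L.bm φ L.bb hB.bb_mem hB.bb_li hB.bb_span.ge (fun s => (L.cb s : ℂ)) (by
      intro s
      refine ⟨0, rfl, ?_⟩
      rw [happ]
      have h1 : ⁅L.rho, L.bb s⁆ = (L.cb s : ℂ) • L.bb s := hG.bb_gr s
      rw [h1]
      simp)
  have t2 := tr_sub L.bm φ (Sum.elim (fun x : b => (x : g)) t) hvm hvli hvsp
    (Sum.elim (fun x : b => -(md x : ℂ)) fun c => 1 - (L.ht c : ℂ)) (by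
      rintro (x | c)
      · refine ⟨0, rfl, ?_⟩
        rw [happ]
        show ⁅L.rho, (x : g)⁆ = (-(md x : ℂ)) • (x : g) + _
        rw [hmd']
        simp
      · have h1 : ⁅L.rho, t c⁆ - (1 - (L.ht c : ℂ)) • t c ∈ L.zc := by
          refine ⟨sub_mem (rho_bm L _ (htm c)) (Submodule.smul_mem _ _ (htm c)), ?_⟩
          rw [lie_sub, rho_F, lie_smul, htF, L.rho_f]
          module
        rw [← hspan, ← hr] at h1
        obtain ⟨d, hd⟩ := (Submodule.mem_span_range_iff_exists_fun ℂ).1 h1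
        refine ⟨Sum.elim d 0, rfl, ?_⟩
        rw [happ]
        show ⁅L.rho, t c⁆ = (1 - (L.ht c : ℂ)) • t c + _
        rw [Fintype.sum_sum_type]
        simp only [Sum.elim_inl, Sum.elim_inr, Pi.zero_apply, zero_smul, Finset.sum_const_zero, add_zero]
        rw [hd]
        abel)
  rw [t1, Fintype.sum_sum_type, Fintype.sum_sum_type] at t2
  have hsum : ∑ x : b, md x = Fintype.card β := by
    have h1 : ∀ c : β, ((L.cb (Sum.inl c) : ℤ) : ℂ) = -(L.ht c : ℂ) := fun c => by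
      show ((-(L.ht c : ℤ) : ℤ) : ℂ) = _
      push_cast
      rfl
    have h2 : ∀ i : η, ((L.cb (Sum.inr i) : ℤ) : ℂ) = 0 := fun i => by
      show (((0 : ℤ) : ℤ) : ℂ) = _
      push_cast
      rfl
    simp only [Sum.elim_inl, Sum.elim_inr, h1, h2, Finset.sum_const_zero, add_zero, Finset.sum_neg_distrib,
      Finset.sum_sub_distrib, Finset.sum_const, Finset.card_univ, nsmul_eq_mul, mul_one] at t2
    have h3 : ((∑ x : b, md x : ℕ) : ℂ) = (Fintype.card β : ℂ) := by
      push_cast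
      linear_combination t2
    exact_mod_cast h3
  -- reindex
  obtain ⟨e⟩ : Nonempty (η ≃ b) := ⟨Fintype.equivOfCardEq hcard.symm⟩
  refine ⟨fun i => (e i : g), fun i => md (e i), fun i => (hbS (e i).2).1, fun i => hmd (e i), ?_, ?_, ?_, ?_⟩
  · exact hbi'.comp e e.injective
  · have h1 : Set.range (fun i => (e i : g)) = b := by
      ext x
      constructor
      · rintro ⟨i, rfl⟩
        exact (e i).2
      · intro hx
        exact ⟨e.symm ⟨x, hx⟩, by simp⟩
    rw [h1, hspan]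
  · rw [← hsum]
    exact Equiv.sum_comp e md
  · intro h0
    refine ⟨e.symm ⟨L.F, hFb h0⟩, by simp, ?_⟩
    show md (e (e.symm ⟨L.F, hFb h0⟩)) = 1
    rw [Equiv.apply_symm_apply]
    have h1 := hmd' ⟨L.F, hFb h0⟩
    have h2 : ⁅L.rho, L.F⁆ = (-1 : ℂ) • L.F := L.rho_F
    have h3 : (-1 : ℂ) • L.F = (-(md ⟨L.F, hFb h0⟩ : ℂ)) • L.F := by
      rw [← h2]
      exact h1
    have h4 := smul_left_injective ℂ h0 h3
    have h5 : (md ⟨L.F, hFb h0⟩ : ℂ) = 1 := by
      linear_combination h4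
    exact_mod_cast h5

end WPE
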