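import Pool.Agent.WPE.KJ11
import Pool.Agent.WPE.KJ8
import Pool.Agent.WPE.LA10

/-! WPE, block KJ, [KJ12]: existence of the lifts. -/

set_option linter.unusedSectionVars false

namespace WPE

open scoped TensorProduct

variable {g β η : Type} [LieRing g] [LieAlgebra ℂ g] [Fintype β] [DecidableEq β] [Fintype η]
  [DecidableEq η] (L : LD g β η) (c : ℂ)

/-- [KJ12] [KO-E] Existence of the lifts. -/
theorem Internal.kj_exists {Q1 : VC (L.kb c) L.nL →ₗ[ℂ] VC (L.kb c) L.nL}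
    (h1 : IsQ0 (L.kb c) (QN.one (L.qd c)) Q1) (z : L.bL) (m : ℕ) (hz : ⁅L.F, (z : g)⁆ = 0)
    (hg : (z : g) ∈ L.gr (-(m : ℤ))) : ∃ w, L.IsW c Q1 z m w := by
  obtain ⟨z', m', hz1, hz2, hz3, hz4, -, -⟩ := la_exp L
  obtain ⟨K, -, -⟩ := kj_KB L z' m' hz1 hz2 hz3 hz4
  set I := LD.kin K c (QN.one (L.qd c)) (QN.one_ok (L.qd c)) Q1 h1
    (Module.Basis.singleton Unit ℂ) (fun _ => 0) 0 (fun _ => le_rfl)
    (fun i => by
      rw [Int.cast_zero, zero_smul]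
      rfl) with hI
  have hF : ⁅z, I.F⁆ = 0 := by
    apply Subtype.ext
    apply Subtype.ext
    show ⁅(z : g), ((L.pin L.F : L.bL) : g)⁆ = 0
    rw [LD.pin_F_coe, ← lie_skew, hz, neg_zero]
  have hr : ⁅I.rho, z⁆ = ((-(m : ℤ) : ℤ) : ℂ) • z := Subtype.ext hg
  obtain ⟨x, hx0, hx1, hx2, hx3⟩ := kj_lift1 I z (-(m : ℤ)) hF hr ()
  have e1 : I.nn () = cvac (L.kb c) L.nL := by
    show Ind.incl _ _ ((Module.Basis.singleton Unit ℂ) (), 0, 0) = Ind.incl _ _ ((1 : ℂ), 0, 0)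
    rw [Module.Basis.singleton_apply]
  refine ⟨x, hx0, hx1, ?_, ?_⟩
  · have h2 := Module.End.mem_eigenspace_iff.1 hx2
    have e2 : ((I.top - I.cn () + 1 - -(m : ℤ) : ℤ) : ℂ) = (m : ℂ) + 1 := by
      show (((0 : ℤ) - 0 + 1 - -(m : ℤ) : ℤ) : ℂ) = (m : ℂ) + 1
      push_cast
      ring
    rw [e2] at h2
    exact h2
  · have e3 : I.cn () + -(m : ℤ) + 1 = -(m : ℤ) + 1 := by
      show (0 : ℤ) + -(m : ℤ) + 1 = -(m : ℤ) + 1
      ring
    rw [e3, e1] at hx3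
    exact hx3

export Internal (kj_exists)

end WPE
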