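import Pool.Agent.WPE.IND4

/-! WPE, block IN: the energy operator of an induced module. -/

namespace WPE

open scoped TensorProduct

noncomputable section

variable {B : Type} [LieRing B] [LieAlgebra ℂ B] {κ : B →ₗ[ℂ] B →ₗ[ℂ] ℂ}

section twist

variable {E : Type} [AddCommGroup E] [Module ℂ E]

/-- The module `E ⊕ E` with `a t^m` acting by `(x, y) ↦ (J x, J y - m J x)`. -/
def BMod.tw (X : BMod κ E) : BMod κ (E × E) where
  J m :=
    { toFun := fun a => (X.J m a).prodMap (X.J m a) -
        (m : ℂ) • (LinearMap.inr ℂ E E ∘ₗ X.J m a ∘ₗ LinearMap.fst ℂ E E)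
      map_add' := by
        intro a b
        ext x <;> simp
        abel
      map_smul' := by
        intro c a
        ext x <;> simp [smul_smul, mul_comm] }
  comm := by
    intro m n a b x
    have h1 := X.comm m n a b x.1
    have h2 := X.comm m n a b x.2
    refine Prod.ext ?_ ?_
    · simp only [LinearMap.coe_mk, AddHom.coe_mk, LinearMap.sub_apply, LinearMap.prodMap_apply,
        LinearMap.smul_apply, LinearMap.comp_apply, LinearMap.fst_apply, LinearMap.inr_apply,
        Prod.fst_sub, Prod.smul_fst, smul_zero, sub_zero, Prod.fst_add]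
      exact h1
    · simp only [LinearMap.coe_mk, AddHom.coe_mk, LinearMap.sub_apply, LinearMap.prodMap_apply,
        LinearMap.smul_apply, LinearMap.comp_apply, LinearMap.fst_apply, LinearMap.inr_apply,
        Prod.fst_sub, Prod.snd_sub, Prod.smul_fst, Prod.smul_snd, smul_zero, sub_zero,
        Prod.snd_add, map_sub, map_smul]
      have h3 : (m : ℂ) • coc κ m n a b • x.1 + (n : ℂ) • coc κ m n a b • x.1 = 0 := by
        rw [← add_smul]
        unfold coc
        by_cases hmn : m + n = 0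
        · have : (m : ℂ) + n = 0 := by exact_mod_cast hmn
          rw [this, zero_smul]
        · rw [if_neg hmn, zero_smul, smul_zero]
      have h4 : ((m + n : ℤ) : ℂ) • X.J (m + n) ⁅a, b⁆ x.1 =
          (m : ℂ) • (X.J m a (X.J n b x.1) - X.J n b (X.J m a x.1)) +
          (n : ℂ) • (X.J m a (X.J n b x.1) - X.J n b (X.J m a x.1)) := by
        rw [h1, smul_add, smul_add]
        push_cast
        rw [add_smul]
        have e : ∀ p q r s : E, r + s = 0 → p + q = p + r + (q + s) := by
          intro p q r s h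
          rw [add_add_add_comm, h, add_zero]
        exact e _ _ _ _ h3
      rw [h4]
      have h5 : X.J (m + n) ⁅a, b⁆ x.2 + coc κ m n a b • x.2 =
          X.J m a (X.J n b x.2) - X.J n b (X.J m a x.2) := h2.symm
      rw [sub_add_eq_add_sub, h5]
      simp only [smul_sub, map_zero, smul_zero]
      abel

theorem BMod.tw_J (X : BMod κ E) (m : ℤ) (a : B) (x : E × E) :
    X.tw.J m a x = (X.J m a x.1, X.J m a x.2 - (m : ℂ) • X.J m a x.1) := by
  refine Prod.ext ?_ ?_
  · show (((X.J m a).prodMap (X.J m a) - (m : ℂ) • (LinearMap.inr ℂ E E ∘ₗ X.J m a ∘ₗ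
      LinearMap.fst ℂ E E)) x).1 = _
    simp
  · rfl

end twist

section energy

variable {N : Type} [AddCommGroup N] [Module ℂ N] {T : TMod B N} (e : N →ₗ[ℂ] N)

/-- `e` is an energy operator of the `B[t]`-module `N`: `[e, a t^m] = -m a t^m`. -/
def TMod.IsEnergy (T : TMod B N) (e : N →ₗ[ℂ] N) : Prop :=
  ∀ (m : ℕ) (a : B) (v : N), e (T.act m a v) = T.act m a (e v) - (m : ℂ) • T.act m a v

namespace Ind

variable (he : T.IsEnergy e)

/-- The pair `(id, energy)`. -/
def energy2 : Ind κ T →ₗ[ℂ] Ind κ T × Ind κ T :=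
  lift (mod κ T).tw ((incl κ T).prod (incl κ T ∘ₗ e)) (by
    intro m a v
    rw [BMod.tw_J]
    refine Prod.ext ?_ ?_
    · exact J_incl m a v
    · show (mod κ T).J m a (incl κ T (e v)) - ((m : ℤ) : ℂ) • (mod κ T).J m a (incl κ T v) =
        incl κ T (e (T.act m a v))
      rw [J_incl, J_incl, he, map_sub, map_smul]
      push_cast
      rfl)

/-- The energy operator of the induced module. -/
def energy : Ind κ T →ₗ[ℂ] Ind κ T := LinearMap.snd ℂ _ _ ∘ₗ energy2 e he

theorem energy2_fst (x : Ind κ T) : (energy2 (κ := κ) e he x).1 = x := by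
  have h : LinearMap.fst ℂ _ _ ∘ₗ energy2 (κ := κ) e he = LinearMap.id := by
    refine hom_ext (X := mod κ T) ?_ (fun m a x => rfl) ?_
    · intro m a x
      show (energy2 e he ((mod κ T).J m a x)).1 = (mod κ T).J m a (energy2 e he x).1
      unfold energy2
      rw [lift_J, BMod.tw_J]
    · intro v
      show (energy2 e he (incl κ T v)).1 = _
      unfold energy2
      rw [lift_incl]
      rfl
  exact LinearMap.congr_fun h x

theorem energy_incl (v : N) : energy e he (incl κ T v) = incl κ T (e v) := by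
  show (energy2 e he (incl κ T v)).2 = _
  unfold energy2
  rw [lift_incl]
  rfl

theorem energy_J (m : ℤ) (a : B) (x : Ind κ T) : energy e he ((mod κ T).J m a x) =
    (mod κ T).J m a (energy e he x) - (m : ℂ) • (mod κ T).J m a x := by
  have h : energy2 e he ((mod κ T).J m a x) = (mod κ T).tw.J m a (energy2 e he x) := by
    unfold energy2
    rw [lift_J]
  have h2 := congrArg Prod.snd h
  rw [BMod.tw_J, energy2_fst] at h2
  exact h2

end Ind

end energy

section ghost

variable {Y : Type} [AddCommGroup Y] [Module ℂ Y] [LieRingModule B Y] [LieModule ℂ B Y]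

/-- The energy of ghosts: `y t^(-k-1)` has energy `k`. -/
def ghE (Y : Type) [AddCommGroup Y] [Module ℂ Y] : Gh Y →ₗ[ℂ] Gh Y :=
  Finsupp.lsum ℂ fun k => (k : ℂ) • Finsupp.lsingle k

theorem ghE_single (k : ℕ) (y : Y) :
    ghE Y (Finsupp.single k y) = (k : ℂ) • Finsupp.single k y := by
  unfold ghE
  rw [Finsupp.lsum_single]
  rfl

variable (B Y) in
theorem ghE_isEnergy : (TMod.ghost B Y).IsEnergy (ghE Y) := by
  intro m a v
  show ghE Y (ghAct m a v) = ghAct m a (ghE Y v) - (m : ℂ) • ghAct m a v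
  induction v using Finsupp.induction_linear with
  | zero => simp
  | add f g hf hg =>
    simp only [map_add, smul_add]
    rw [hf, hg]
    abel
  | single k y =>
    rw [ghE_single, map_smul, ghAct_single]
    by_cases hm : m ≤ k
    · rw [if_pos hm, ghE_single, ← sub_smul]
      congr 1
      push_cast [Nat.cast_sub hm]
      ring
    · rw [if_neg hm, map_zero, smul_zero, smul_zero, sub_zero]

variable {N N' : Type} [AddCommGroup N] [Module ℂ N] [AddCommGroup N'] [Module ℂ N']

theorem TMod.IsEnergy.tensor {T : TMod B N} {T' : TMod B N'} {e : N →ₗ[ℂ] N}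
    {e' : N' →ₗ[ℂ] N'} (he : T.IsEnergy e) (he' : T'.IsEnergy e') :
    (T.tensor T').IsEnergy (LinearMap.rTensor N' e + LinearMap.lTensor N e') := by
  intro m a v
  induction v using TensorProduct.induction_on with
  | zero => simp
  | add x y hx hy =>
    simp only [map_add, smul_add]
    rw [hx, hy]
    abel
  | tmul x y =>
    rw [TMod.tensor_act]
    simp only [LinearMap.add_apply, map_add, LinearMap.rTensor_tmul, LinearMap.lTensor_tmul]
    rw [he, he', TMod.tensor_act, TMod.tensor_act]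
    simp only [TensorProduct.sub_tmul, TensorProduct.tmul_sub, smul_add,
      ← TensorProduct.smul_tmul', TensorProduct.tmul_smul]
    abel

theorem TMod.IsEnergy.prod {T : TMod B N} {T' : TMod B N'} {e : N →ₗ[ℂ] N}
    {e' : N' →ₗ[ℂ] N'} (he : T.IsEnergy e) (he' : T'.IsEnergy e') :
    (T.prod T').IsEnergy (e.prodMap e') := by
  intro m a v
  exact Prod.ext (he m a v.1) (he' m a v.2)

/-- The energy on `N ⊕ (M ⊗ N) ⊕ (M ⊗ M ⊗ N)` for an energy operator `e` on `N`. -/
def KNE (Y : Type) [AddCommGroup Y] [Module ℂ Y] (e : N →ₗ[ℂ] N) : KN Y N →ₗ[ℂ] KN Y N :=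
  e.prodMap ((LinearMap.rTensor N (ghE Y) + LinearMap.lTensor (Gh Y) e).prodMap
    (LinearMap.rTensor (Gh Y ⊗[ℂ] N) (ghE Y) + LinearMap.lTensor (Gh Y)
      (LinearMap.rTensor N (ghE Y) + LinearMap.lTensor (Gh Y) e)))

theorem KNE_isEnergy {T : TMod B N} {e : N →ₗ[ℂ] N} (he : T.IsEnergy e) :
    (TMod.gt Y T).toTMod.IsEnergy (KNE Y e) :=
  he.prod (((ghE_isEnergy B Y).tensor he).prod
    ((ghE_isEnergy B Y).tensor ((ghE_isEnergy B Y).tensor he)))

theorem KNE_ghOm (e : N →ₗ[ℂ] N) (k : ℕ) (y : Y) (x : KN Y N) :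
    KNE Y e (ghOm Y (Finsupp.single k y) x) =
      ghOm Y (Finsupp.single k y) (KNE Y e x) + (k : ℂ) • ghOm Y (Finsupp.single k y) x := by
  have h : ∀ z : Gh Y ⊗[ℂ] (Gh Y ⊗[ℂ] N),
      (LinearMap.rTensor (Gh Y ⊗[ℂ] N) (ghE Y) + LinearMap.lTensor (Gh Y)
        (LinearMap.rTensor N (ghE Y) + LinearMap.lTensor (Gh Y) e))
        (TensorProduct.leftComm ℂ (Gh Y) (Gh Y) N z) =
      TensorProduct.leftComm ℂ (Gh Y) (Gh Y) N
        ((LinearMap.rTensor (Gh Y ⊗[ℂ] N) (ghE Y) + LinearMap.lTensor (Gh Y)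
        (LinearMap.rTensor N (ghE Y) + LinearMap.lTensor (Gh Y) e)) z) := by
    intro z
    induction z using TensorProduct.induction_on with
    | zero => simp
    | add x y hx hy =>
      simp only [map_add] at hx hy ⊢
      rw [hx, hy]
    | tmul g w =>
      induction w using TensorProduct.induction_on with
      | zero => simp
      | add x y hx hy => simp only [TensorProduct.tmul_add, map_add] at hx hy ⊢; rw [hx, hy]
      | tmul g' v =>
        simp only [TensorProduct.leftComm_tmul, LinearMap.add_apply, LinearMap.rTensor_tmul,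
          LinearMap.lTensor_tmul, TensorProduct.tmul_add, map_add]
        abel
  rw [ghOm_apply, ghOm_apply]
  refine Prod.ext ?_ (Prod.ext ?_ ?_)
  · show e 0 = (0 : N) + (k : ℂ) • (0 : N)
    simp
  · show (LinearMap.rTensor N (ghE Y) + LinearMap.lTensor (Gh Y) e)
        (Finsupp.single k y ⊗ₜ x.1) = Finsupp.single k y ⊗ₜ (e x.1) +
        (k : ℂ) • (Finsupp.single k y ⊗ₜ[ℂ] x.1)
    simp only [LinearMap.add_apply, LinearMap.rTensor_tmul, LinearMap.lTensor_tmul, ghE_single,
      TensorProduct.smul_tmul']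
    abel
  · show (LinearMap.rTensor (Gh Y ⊗[ℂ] N) (ghE Y) + LinearMap.lTensor (Gh Y)
        (LinearMap.rTensor N (ghE Y) + LinearMap.lTensor (Gh Y) e))
        (Finsupp.single k y ⊗ₜ x.2.1 - TensorProduct.leftComm ℂ (Gh Y) (Gh Y) N
          (Finsupp.single k y ⊗ₜ x.2.1)) =
        (Finsupp.single k y ⊗ₜ (LinearMap.rTensor N (ghE Y) + LinearMap.lTensor (Gh Y) e) x.2.1 -
          TensorProduct.leftComm ℂ (Gh Y) (Gh Y) N (Finsupp.single k y ⊗ₜ
            (LinearMap.rTensor N (ghE Y) + LinearMap.lTensor (Gh Y) e) x.2.1)) +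
        (k : ℂ) • (Finsupp.single k y ⊗ₜ x.2.1 - TensorProduct.leftComm ℂ (Gh Y) (Gh Y) N
          (Finsupp.single k y ⊗ₜ x.2.1))
    have h2 : (LinearMap.rTensor (Gh Y ⊗[ℂ] N) (ghE Y) + LinearMap.lTensor (Gh Y)
        (LinearMap.rTensor N (ghE Y) + LinearMap.lTensor (Gh Y) e))
        (Finsupp.single k y ⊗ₜ[ℂ] x.2.1) =
        Finsupp.single k y ⊗ₜ (LinearMap.rTensor N (ghE Y) + LinearMap.lTensor (Gh Y) e) x.2.1 +
        (k : ℂ) • (Finsupp.single k y ⊗ₜ[ℂ] x.2.1) := by
      rw [LinearMap.add_apply, LinearMap.rTensor_tmul, LinearMap.lTensor_tmul, ghE_single,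
        TensorProduct.smul_tmul', add_comm]
    rw [map_sub, h, h2, map_add, map_smul, smul_sub]
    abel

end ghost

section complex

variable {Y : Type} [AddCommGroup Y] [Module ℂ Y] [LieRingModule B Y] [LieModule ℂ B Y]
variable {N : Type} [AddCommGroup N] [Module ℂ N] {T : TMod B N} (e : N →ₗ[ℂ] N)
  (he : T.IsEnergy e)

/-- The energy operator on the complex (for an energy operator `e` of `N`). -/
def cen : CC κ Y T →ₗ[ℂ] CC κ Y T := Ind.energy (KNE Y e) (KNE_isEnergy he)

theorem cen_incl (v : KN Y N) : cen (κ := κ) e he (Ind.incl κ _ v) =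
    Ind.incl κ _ (KNE Y e v) := Ind.energy_incl _ _ v

theorem cen_J (m : ℤ) (a : B) (x : CC κ Y T) : cen e he ((cmod κ Y T).J m a x) =
    (cmod κ Y T).J m a (cen e he x) - (m : ℂ) • (cmod κ Y T).J m a x :=
  Ind.energy_J _ _ m a x

theorem cen_aux {E : Type} [AddCommGroup E] [Module ℂ E] (d J ψ ψ' : E →ₗ[ℂ] E) (c m c' : ℂ)
    (hψ : ∀ x, ψ (J x) = J (ψ x) - ψ' x) (hJ : ∀ x, d (J x) = J (d x) - m • J x) (x : E)
    (h1 : d (ψ x) = ψ (d x) - c • ψ x) (h2 : d (ψ' x) = ψ' (d x) - c' • ψ' x)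
    (hc : c' = m + c) : d (ψ (J x)) = ψ (d (J x)) - c • ψ (J x) := by
  rw [hψ, map_sub, hJ, hJ, h1, h2, map_sub, map_sub, map_smul, map_smul, hψ, hψ, hc]
  simp only [smul_sub, add_smul]
  abel

theorem cen_psi (m : ℤ) (y : Y) (x : CC κ Y T) : cen e he ((cmod κ Y T).ψ m y x) =
    (cmod κ Y T).ψ m y (cen e he x) - ((m : ℂ) + 1) • (cmod κ Y T).ψ m y x := by
  let W : Submodule ℂ (CC κ Y T) :=
    { carrier := {x | ∀ (m : ℤ) (y : Y), cen e he ((cmod κ Y T).ψ m y x) =
        (cmod κ Y T).ψ m y (cen e he x) - ((m : ℂ) + 1) • (cmod κ Y T).ψ m y x}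
      add_mem' := by
        intro x x' hx hx' m y
        simp only [map_add, smul_add]
        rw [hx m y, hx' m y]
        abel
      zero_mem' := by
        intro m y
        simp
      smul_mem' := by
        intro c x hx m y
        simp only [map_smul]
        rw [hx m y, smul_sub, smul_comm] }
  have hW : x ∈ W := by
    refine Ind.induction_sub W ?_ ?_ x
    · intro v m y
      by_cases hm : m < 0
      · obtain ⟨k, rfl⟩ : ∃ k : ℕ, m = -(k : ℤ) - 1 := ⟨(-m - 1).toNat, by omega⟩
        have e1 : ∀ v : KN Y N, (cmod κ Y T).ψ (-(k : ℤ) - 1) y (Ind.incl κ _ v) =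
            Ind.incl κ _ (ghOm Y (Finsupp.single k y) v) := fun v =>
          Ind.psi_incl_neg κ (TMod.gt Y T) k y v
        rw [e1, cen_incl, cen_incl, e1, KNE_ghOm, map_add, map_smul]
        push_cast
        rw [show (-(k : ℂ) - 1 + 1) = -k by ring, neg_smul, sub_neg_eq_add]
      · have e1 : ∀ v : KN Y N, (cmod κ Y T).ψ m y (Ind.incl κ _ v) = 0 := fun v =>
          Ind.psi_incl_nonneg κ (TMod.gt Y T) m (by omega) y v
        rw [e1, cen_incl, e1, map_zero, smul_zero, sub_zero]
    · intro k a x hx m y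
      refine cen_aux (cen e he) ((cmod κ Y T).J k a) ((cmod κ Y T).ψ m y)
        ((cmod κ Y T).ψ (k + m) ⁅a, y⁆) ((m : ℂ) + 1) k (((k + m : ℤ) : ℂ) + 1) ?_
        (cen_J e he k a) x (hx m y) (hx (k + m) ⁅a, y⁆) ?_
      · intro x
        rw [← (cmod κ Y T).commψ]
        abel
      · push_cast
        ring
  exact hW m y

end complex

end

end WPE
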