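import Pool.Agent.WPE.BR6
import Pool.Agent.WPE.IND5

set_option linter.unusedSectionVars false
open scoped TensorProduct
open WPQ.AF (IsFld)
namespace WPE

section q0

variable {B : Type} [LieRing B] [LieAlgebra ℂ B] {κ : B →ₗ[ℂ] B →ₗ[ℂ] ℂ}
variable {Y : Type} [AddCommGroup Y] [Module ℂ Y] [LieRingModule B Y] [LieModule ℂ B Y]
variable {D : QD B Y} {N : Type} [AddCommGroup N] [Module ℂ N]

namespace BR16

variable {T : TMod B N} (e : N →ₗ[ℂ] N) (he : T.IsEnergy e)

/-- The energy operator and the normally ordered products. -/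
theorem nop (m : ℤ) (t : B ⊗[ℂ] Y) (x : CC κ Y T) :
    cen e he ((cmod κ Y T).nop m t x) =
      (cmod κ Y T).nop m t (cen e he x) - (m : ℂ) • (cmod κ Y T).nop m t x := by
  induction t using TensorProduct.induction_on with
  | zero =>
    simp only [map_zero, LinearMap.zero_apply, smul_zero, sub_zero]
  | add s t hs ht =>
    simp only [map_add, LinearMap.add_apply, smul_add]
    rw [hs, ht]
    abel
  | tmul c z =>
    have h1 : (fun k => cen e he ∘ₗ (cmod κ Y T).nopF m c z k) =
        fun k => (cmod κ Y T).nopF m c z k ∘ₗ cen e he - (m : ℂ) • (cmod κ Y T).nopF m c z k := by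
      funext k
      ext x
      rw [LinearMap.sub_apply, LinearMap.smul_apply, LinearMap.comp_apply, LinearMap.comp_apply]
      unfold GMod.nopF
      by_cases hk : k < 0
      · rw [if_pos hk, LinearMap.comp_apply, LinearMap.comp_apply, cen_J, cen_psi, map_sub,
          map_smul, sub_sub, ← add_smul]
        congr 2
        push_cast
        ring
      · rw [if_neg hk, LinearMap.comp_apply, LinearMap.comp_apply, cen_psi, cen_J, map_sub,
          map_smul, sub_sub, ← add_smul]
        congr 2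
        push_cast
        ring
    have hl := (cmod κ Y T).lf_nopF m c z
    have h2 : cen e he ∘ₗ (cmod κ Y T).nop m (c ⊗ₜ[ℂ] z) =
        (cmod κ Y T).nop m (c ⊗ₜ[ℂ] z) ∘ₗ cen e he - (m : ℂ) • (cmod κ Y T).nop m (c ⊗ₜ[ℂ] z) := by
      rw [GMod.nop_tmul, comp_psum hl, h1, psum_sub (hl.comp_right _) (hl.smul _),
        psum_comp hl, psum_smul _ hl]
    exact LinearMap.congr_fun h2 x

/-- The energy operator and the products of two ghosts. -/
theorem pp (m : ℤ) (t : Y ⊗[ℂ] Y) (x : CC κ Y T) :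
    cen e he ((cmod κ Y T).pp m t x) =
      (cmod κ Y T).pp m t (cen e he x) - ((m : ℂ) + 1) • (cmod κ Y T).pp m t x := by
  induction t using TensorProduct.induction_on with
  | zero =>
    simp only [map_zero, LinearMap.zero_apply, smul_zero, sub_zero]
  | add s t hs ht =>
    simp only [map_add, LinearMap.add_apply, smul_add]
    rw [hs, ht]
    abel
  | tmul u w =>
    have h1 : (fun k => cen e he ∘ₗ (cmod κ Y T).ppF m u w k) =
        fun k => (cmod κ Y T).ppF m u w k ∘ₗ cen e he -
          ((m : ℂ) + 1) • (cmod κ Y T).ppF m u w k := by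
      funext k
      ext x
      rw [LinearMap.sub_apply, LinearMap.smul_apply, LinearMap.comp_apply, LinearMap.comp_apply]
      unfold GMod.ppF
      rw [LinearMap.comp_apply, LinearMap.comp_apply, cen_psi, cen_psi, map_sub,
        map_smul, sub_sub, ← add_smul]
      congr 2
      push_cast
      ring
    have hl := (cmod κ Y T).lf_ppF m u w
    have h2 : cen e he ∘ₗ (cmod κ Y T).pp m (u ⊗ₜ[ℂ] w) =
        (cmod κ Y T).pp m (u ⊗ₜ[ℂ] w) ∘ₗ cen e he -
          ((m : ℂ) + 1) • (cmod κ Y T).pp m (u ⊗ₜ[ℂ] w) := by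
      rw [GMod.pp_tmul, comp_psum hl, h1, psum_sub (hl.comp_right _) (hl.smul _),
        psum_comp hl, psum_smul _ hl]
    exact LinearMap.congr_fun h2 x

theorem q (D : QD B Y) (m : ℤ) (a : B) (x : CC κ Y T) :
    cen e he (D.q (cmod κ Y T) m a x) =
      D.q (cmod κ Y T) m a (cen e he x) - (m : ℂ) • D.q (cmod κ Y T) m a x := by
  rw [GMod.qq_apply, GMod.qq_apply]
  simp only [LinearMap.zero_apply, map_zero, add_zero]
  rw [map_sub, map_smul, nop, cen_psi]
  push_cast
  rw [show (m : ℂ) - 1 + 1 = m by ring]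
  simp only [smul_sub]
  abel

theorem qp (D : QD B Y) (m : ℤ) (y : Y) (x : CC κ Y T) :
    cen e he (D.qp (cmod κ Y T) m y x) =
      D.qp (cmod κ Y T) m y (cen e he x) - ((m : ℂ) + 1) • D.qp (cmod κ Y T) m y x := by
  unfold QD.qp
  rw [LinearMap.smul_apply, LinearMap.smul_apply, map_smul, pp, smul_sub, smul_comm]

end BR16

set_option linter.unusedVariables false in
/-- [BR16] The energy operator commutes with `Q₀`. -/
theorem br_deg (hD : D.Ok κ) (M : QN D N) (hM : M.Ok)
    {Q0 : CC κ Y (TMod.ofRep M.R) →ₗ[ℂ] CC κ Y (TMod.ofRep M.R)} (h : IsQ0 κ M Q0)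
    (he : (TMod.ofRep M.R).IsEnergy (0 : N →ₗ[ℂ] N)) (x : CC κ Y (TMod.ofRep M.R)) :
    cen 0 he (Q0 x) = Q0 (cen 0 he x) := by
  have hC := br_C κ Y M.R
  -- the generators of degree zero
  have c0 : ∀ v : N, cen (κ := κ) (Y := Y) 0 he (i0 κ Y M.R v) = 0 := by
    intro v
    have h1 : KNE Y (0 : N →ₗ[ℂ] N) (v, 0, 0) = 0 := by
      simp [KNE]
    have h2 := cen_incl (κ := κ) (Y := Y) (0 : N →ₗ[ℂ] N) he (v, 0, 0)
    rw [h1, map_zero] at h2
    exact h2
  have c1 : ∀ (s : ℕ) (y : Y) (v : N), cen (κ := κ) (Y := Y) 0 he (i1 κ Y M.R (Finsupp.single s y ⊗ₜ[ℂ] v)) =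
      (s : ℂ) • i1 κ Y M.R (Finsupp.single s y ⊗ₜ[ℂ] v) := by
    intro s y v
    rw [← hC.psi_i0, cen_psi, c0, map_zero, zero_sub, ← neg_smul]
    congr 1
    push_cast
    ring
  have cd : ∀ v : N, cen (κ := κ) (Y := Y) 0 he (Q0 (i0 κ Y M.R v)) = 0 := by
    intro v
    rw [h.n0]
    have h1 : ∀ t : Y ⊗[ℂ] N, cen (κ := κ) (Y := Y) 0 he (i1 κ Y M.R
        (LinearMap.rTensor N (Finsupp.lsingle 0 : Y →ₗ[ℂ] Gh Y) t)) = 0 := by
      intro t
      induction t using TensorProduct.induction_on with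
      | zero => simp only [map_zero]
      | add s t hs ht => simp only [map_add, hs, ht, add_zero]
      | tmul y v' =>
        rw [LinearMap.rTensor_tmul]
        have h2 := c1 0 y v'
        rw [Nat.cast_zero, zero_smul] at h2
        exact h2
    exact h1 _
  have key : ∀ x, x ∈ LinearMap.ker (cen (κ := κ) (Y := Y) 0 he ∘ₗ Q0 - Q0 ∘ₗ cen (κ := κ) (Y := Y) 0 he) := by
    refine hC.ind _ ?_ ?_ ?_ ?_
    · intro v
      rw [LinearMap.mem_ker, LinearMap.sub_apply, LinearMap.comp_apply, LinearMap.comp_apply,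
        cd, c0, map_zero, sub_zero]
    · intro t
      have h1 := hC.ind1 t
      induction h1 using Submodule.span_induction with
      | mem u hu =>
        obtain ⟨s, y, v, rfl⟩ := hu
        rw [LinearMap.mem_ker, LinearMap.sub_apply, LinearMap.comp_apply, LinearMap.comp_apply,
          c1, map_smul, h.n1, map_sub, BR16.qp, cen_psi, c0, cd, map_zero, map_zero, zero_sub,
          zero_sub, ← neg_smul, ← neg_smul]
        have e1 : -(((-(s : ℤ) - 1 : ℤ) : ℂ) + 1) = (s : ℂ) := by
          push_cast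
          ring
        rw [e1, ← smul_sub, sub_self]
      | zero => rw [map_zero]; exact Submodule.zero_mem _
      | add a b _ _ ha hb => rw [map_add]; exact Submodule.add_mem _ ha hb
      | smul c a _ ha => rw [map_smul]; exact Submodule.smul_mem _ c ha
    · intro w
      have h1 : ∃ w', cen (κ := κ) (Y := Y) 0 he (i2 κ Y M.R w) = i2 κ Y M.R w' := by
        have h2 := cen_incl (κ := κ) (Y := Y) (0 : N →ₗ[ℂ] N) he (0, 0, w)
        refine ⟨(KNE Y (0 : N →ₗ[ℂ] N) (0, 0, w)).2.2, ?_⟩
        have h3 : KNE Y (0 : N →ₗ[ℂ] N) (0, 0, w) =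
            (0, 0, (KNE Y (0 : N →ₗ[ℂ] N) (0, 0, w)).2.2) := by
          simp [KNE]
        rw [h3] at h2
        exact h2
      obtain ⟨w', hw'⟩ := h1
      rw [LinearMap.mem_ker, LinearMap.sub_apply, LinearMap.comp_apply, LinearMap.comp_apply,
        hw', h.n2, h.n2, map_zero, sub_zero]
    · intro m a x hx
      rw [LinearMap.mem_ker, LinearMap.sub_apply, LinearMap.comp_apply, LinearMap.comp_apply,
        sub_eq_zero] at hx ⊢
      rw [h.comm, map_add, cen_J, BR16.q, cen_J, map_sub, map_smul, h.comm, h.comm, hx]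
      simp only [smul_add]
      abel
  have h1 := key x
  rw [LinearMap.mem_ker, LinearMap.sub_apply, LinearMap.comp_apply, LinearMap.comp_apply,
    sub_eq_zero] at h1
  exact h1

end q0

end WPE
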