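import Pool.Agent.WPE.KJD
import Pool.Agent.WPE.LA5

/-! WPE, block KJ, row KJ10: `Q₀` commutes with `J_rho(0)`. -/

set_option linter.unusedSectionVars false

namespace WPE

open scoped TensorProduct

variable {g β η : Type} [LieRing g] [LieAlgebra ℂ g] [Fintype β] [DecidableEq β] [Fintype η]
  [DecidableEq η] (L : LD g β η)

/-- [KJ10] -/
theorem Internal.kj_Q0rho (c : ℂ) {N : Type} [AddCommGroup N] [Module ℂ N] (M : QN (L.qd c) N)
    {Q0 : CC (L.kb c) L.nL (TMod.ofRep M.R) →ₗ[ℂ] CC (L.kb c) L.nL (TMod.ofRep M.R)}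
    (h : IsQ0 (L.kb c) M Q0) (x : CC (L.kb c) L.nL (TMod.ofRep M.R)) :
    Q0 ((cmod (L.kb c) L.nL (TMod.ofRep M.R)).J 0 L.krho x) =
      (cmod (L.kb c) L.nL (TMod.ofRep M.R)).J 0 L.krho (Q0 x) := by
  have hO := la_O L
  have hr : ((L.krho : L.bL) : g) ∈ L.hs := L.rho_mem
  have h1 : (L.qd c).Om L.krho = 0 := by
    apply L.map_bn_inj
    show TensorProduct.map L.jb L.jng (L.OmB L.krho) = _
    rw [L.coe_OmB, hO.Om_hs _ hr, map_zero]
  have h2 : (L.qd c).Lk L.krho = 0 := by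
    show L.pin (L.Lk c (L.krho : g)) = 0
    rw [hO.Lk_hs c _ hr, map_zero]
  have h4 : (L.qd c).q (cmod (L.kb c) L.nL (TMod.ofRep M.R)) 0 L.krho x = 0 := by
    show (cmod (L.kb c) L.nL (TMod.ofRep M.R)).qq (L.qd c).Om (L.qd c).Lk 0 0 L.krho x = 0
    rw [GMod.qq_apply, h1, h2]
    simp
  rw [h.comm, h4, add_zero]

export Internal (kj_Q0rho)

end WPE
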