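import Pool.Agent.WPE.BR14
import Pool.Agent.WPE.BR16
import Pool.Agent.WPE.BR17
import Pool.Agent.WPE.KJ10

/-! WPE, block KJ: the instance `KIn` for the Lie data `LD`. -/

set_option linter.unusedSectionVars false

namespace WPE

open scoped TensorProduct

noncomputable section

variable {g β η : Type} [LieRing g] [LieAlgebra ℂ g] [Fintype β] [DecidableEq β] [Fintype η]
  [DecidableEq η]

namespace LD

variable (L : LD g β η)

/-- The bases used in block KJ. -/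
structure KB where
  t : β → g
  z : η → g
  m : η → ℤ
  b : Module.Basis (β ⊕ η) ℂ L.bL
  y : Module.Basis β ℂ L.nL
  ht2 : ∀ s, ⁅L.F, t s⁆ = L.f s
  ht3 : ∀ s, t s ∈ L.gr (1 - (L.ht s : ℤ))
  hz1 : ∀ i, z i ∈ L.zc
  hz2 : ∀ i, z i ∈ L.gr (-(m i))
  hm : ∀ i, 0 ≤ m i
  hb1 : ∀ s, ((b (Sum.inl s) : L.bL) : g) = t s
  hb2 : ∀ i, ((b (Sum.inr i) : L.bL) : g) = z i
  hy : ∀ s, y s = L.fN s

variable {L}

theorem pin_F_coe (L : LD g β η) : ((L.pin L.F : L.bL) : g) = L.F :=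
  (la_P L).Pn_nm _ (la_G L).F_nm

/-- The instance. -/
def kin (K : L.KB) (c : ℂ) {N : Type} [AddCommGroup N] [Module ℂ N] (M : QN (L.qd c) N)
    (hM : M.Ok) (Q0 : CC (L.kb c) L.nL (TMod.ofRep M.R) →ₗ[ℂ] CC (L.kb c) L.nL (TMod.ofRep M.R))
    (hQ : IsQ0 (L.kb c) M Q0) {ν : Type} (n : Module.Basis ν ℂ N) (cn : ν → ℤ) (top : ℤ)
    (hcn : ∀ i, cn i ≤ top) (hn : ∀ i, M.R.ρ L.krho (n i) = (cn i : ℂ) • n i) :
    KIn (L.kb c) L.nL M.R β η ν where
  hκ := (br_qd L c).inv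
  b := K.b
  y := K.y
  n := n
  F := L.pin L.F
  rho := L.krho
  cb := Sum.elim (fun s => 1 - (L.ht s : ℤ)) (fun i => -K.m i)
  ht s := (L.ht s : ℤ)
  cn := cn
  top := top
  cb_le a := by
    rcases a with s | i
    · show 1 - (L.ht s : ℤ) ≤ 0
      have := L.ht_pos s
      omega
    · show -K.m i ≤ 0
      have := K.hm i
      omega
  ht_pos s := by
    have := L.ht_pos s
    omega
  cn_le := hcn
  xF s := by
    apply Subtype.ext
    apply Subtype.ext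
    rw [K.hy]
    show ⁅((K.b (Sum.inl s) : L.bL) : g), ((L.pin L.F : L.bL) : g)⁆ = -L.f s
    rw [K.hb1, pin_F_coe, ← lie_skew, K.ht2]
  zF i := by
    apply Subtype.ext
    apply Subtype.ext
    show ⁅((K.b (Sum.inr i) : L.bL) : g), ((L.pin L.F : L.bL) : g)⁆ = 0
    rw [K.hb2, pin_F_coe, ← lie_skew, (K.hz1 i).2, neg_zero]
  rho_b a := by
    apply Subtype.ext
    rcases a with s | i
    · show ⁅L.rho, ((K.b (Sum.inl s) : L.bL) : g)⁆ =
        (((1 - (L.ht s : ℤ) : ℤ)) : ℂ) • ((K.b (Sum.inl s) : L.bL) : g)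
      rw [K.hb1]
      exact K.ht3 s
    · show ⁅L.rho, ((K.b (Sum.inr i) : L.bL) : g)⁆ =
        (((-K.m i : ℤ)) : ℂ) • ((K.b (Sum.inr i) : L.bL) : g)
      rw [K.hb2]
      exact K.hz2 i
  rho_y s := by
    apply Subtype.ext
    apply Subtype.ext
    rw [K.hy]
    show ⁅L.rho, L.f s⁆ = (-(((L.ht s : ℤ)) : ℂ)) • L.f s
    rw [L.rho_f, Int.cast_natCast]
  rho_F := by
    apply Subtype.ext
    apply Subtype.ext
    show ⁅L.rho, ((L.pin L.F : L.bL) : g)⁆ = -((L.pin L.F : L.bL) : g)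
    rw [pin_F_coe, L.rho_F, neg_smul, one_smul]
  rho_n := hn
  Q0 := Q0
  Q0_0 := (br_Q0_unique M hQ).1.1
  Q0_1 := (br_Q0_unique M hQ).1.2.1
  Q0Q0 x _ := (br_Q (br_qd L c) M hM hQ).1 x
  Q0F x _ := (br_Q (br_qd L c) M hM hQ).2.1 x
  Q0rho := kj_Q0rho L c M hQ
  Q0en x _ := (br_deg (br_qd L c) M hM hQ (isEnergy_zero M.R) x).symm

end LD

end

end WPE
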