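import Pool.Agent.WPE.KJ9
import Pool.Agent.WPE.KJG
import Pool.Agent.WPE.LA11

set_option linter.unusedSectionVars false

namespace WPE

open scoped TensorProduct

variable {g β η : Type} [LieRing g] [LieAlgebra ℂ g] [Fintype β] [DecidableEq β] [Fintype η]
  [DecidableEq η] (L : LD g β η) (c : ℂ)

/-- [KJ11] The bases. -/
theorem kj_KB (z : η → g) (m : η → ℕ) (hz1 : ∀ i, z i ∈ L.zc) (hz2 : ∀ i, z i ∈ L.gr (-(m i : ℤ)))
    (hz3 : LinearIndependent ℂ z) (hz4 : Submodule.span ℂ (Set.range z) = L.zc) :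
    ∃ K : L.KB, K.z = z ∧ ∀ i, K.m i = m i := by
  obtain ⟨t, h1, h2, h3, h4, h5⟩ := la_surj L
  obtain ⟨b, hb1, hb2⟩ := kj_basis L t h1 h2 h4 h5 z hz1 hz3 hz4
  obtain ⟨y, hy⟩ := kj_y L
  exact ⟨⟨t, z, fun i => (m i : ℤ), b, y, h2, h3, hz1, hz2, fun i => Int.natCast_nonneg _, hb1,
    hb2, hy⟩, rfl, fun i => rfl⟩

end WPE
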