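import Pool.Agent.WPE.KO16

set_option autoImplicit false

namespace WPE

open MvPolynomial (X pderiv)

section sys

variable {T Z ν C0 C1 C2 : Type} [AddCommGroup C0] [Module ℂ C0] [AddCommGroup C1] [Module ℂ C1]
  [AddCommGroup C2] [Module ℂ C2]

variable {K : KG T Z ν C0 C1 C2} {W : Z → C0 →ₗ[ℂ] C0} (hW : K.Wop W) {φ : ν → C0} (hφ : K.IsPhi φ)

include hW hφ

theorem ko_ker (U : Submodule ℂ C0) (hU : ∀ (l : List Z) (i : ν), wd W l (φ i) ∈ U)
    (x : C0) (hx : K.Q x = 0) : x ∈ U := by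
  obtain ⟨s, _, hs⟩ := ko_pr_sum (ko_eS0 K) x
  rw [hs]
  refine Submodule.sum_mem _ fun d _ => ?_
  have hQ : K.Q (pr K.S0 d x) = 0 := by
    have h := ko_pr_map (ko_eS0 K) (ko_eS1 K) K.Q 0 (by
      intro x
      rw [Int.cast_zero, zero_smul, add_zero]
      show K.S1 (K.Q0 x + K.D0 x) = K.Q0 (K.S0 x) + K.D0 (K.S0 x)
      rw [map_add, K.S1Q, K.S1D]) d x
    rw [← h, hx, map_zero]
  obtain ⟨c, hc⟩ := ko_GE_ex (ko_eR0 K) (pr K.S0 d x)
  exact ko_span hW hφ c d U (fun l i _ _ => hU l i) _ hQ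
    (ko_pr_mem (ko_eS0 K) d x) hc

omit hW hφ in
theorem KO17.cons_mem (hW : K.Wop W) (hφ : K.IsPhi φ) (z : Z) (l : List Z) (i : ν) (d : ℤ)
    (hd : K.ddg (z :: l) i = d) :
    wd W (z :: l) (φ i) ∈ K.WK W d := by
  have e0 : wd W (z :: l) (φ i) = W z (wd W l (φ i)) := rfl
  rw [e0]
  have h := ko_ww hW hφ l i
  have e2 : K.ddg (z :: l) i = K.ddg l i + K.dl (Sum.inr z) := by
    simp [KG.ddg]; ring
  have e3 : K.ddg l i = d - K.dl (Sum.inr z) := by omega
  have hdeg := h.deg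
  rw [e3] at hdeg
  refine (le_iSup (fun z => (K.KQ (d - K.dl (Sum.inr z))).map (W z)) z) ?_
  exact Submodule.mem_map_of_mem ⟨LinearMap.mem_ker.2 h.ker, hdeg⟩

theorem ko_WK (c d : ℤ) (h : K.top < c + d) (x : C0) (hx : x ∈ K.KQ d) (hc : x ∈ GE K.R0 c) :
    x ∈ K.WK W d := by
  refine ko_span hW hφ c d (K.WK W d) ?_ x (LinearMap.mem_ker.1 hx.1) hx.2 hc
  intro l i h1 h2
  cases l with
  | nil =>
    exfalso
    have e1 : K.cdg [] i = K.cn i := by simp [KG.cdg]
    have e2 : K.ddg [] i = K.top - K.cn i := by simp [KG.ddg]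
    omega
  | cons z l => exact KO17.cons_mem hW hφ z l i d h2

theorem ko_F {JF WF : C0 →ₗ[ℂ] C0} (hF : K.Fop JF WF) (c : ℤ) (b a : ν →₀ ℂ)
    (hb : ∀ j ∈ b.support, K.cn j = c)
    (h : JF (b.sum fun j r => r • K.n j) = a.sum fun j r => r • K.n j) :
    WF (b.sum fun j r => r • φ j) - (a.sum fun j r => r • φ j) ∈ K.WK W (K.top - c + 1) := by
  have hbn : (b.sum fun j r => r • K.n j) ∈ egr K.R0 c := by
    refine Submodule.sum_mem _ fun j hj => Submodule.smul_mem _ _ ?_
    rw [← hb j hj]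
    exact (ko_mem_egr _ _).2 (K.R0n j)
  have hJ : (a.sum fun j r => r • K.n j) ∈ egr K.R0 (c + -1) := by
    rw [← h]
    exact ko_egr_map JF (-1) hF.JR c _ hbn
  have ha : ∀ k ∈ a.support, K.cn k = c - 1 := by
    have h1 := (ko_mem_egr _ _).1 hJ
    have h2 : K.R0 (a.sum fun j r => r • K.n j) = a.sum fun j r => (r * (K.cn j : ℂ)) • K.n j := by
      rw [Finsupp.sum, map_sum]
      refine Finset.sum_congr rfl fun j _ => ?_
      rw [map_smul, K.R0n, smul_smul]
    have h3 := (linearIndependent_iff'.1 (ko_n_li K.toKS)) a.support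
      (fun j => a j * (K.cn j : ℂ) - ((c + -1 : ℤ) : ℂ) * a j) (by
        rw [h2] at h1
        rw [Finsupp.sum, Finsupp.sum, Finset.smul_sum] at h1
        rw [← sub_eq_zero.2 h1, ← Finset.sum_sub_distrib]
        refine Finset.sum_congr rfl fun j _ => ?_
        rw [sub_smul, smul_smul])
    intro k hk
    have h4 := h3 k hk
    have h5 : a k * ((K.cn k : ℂ) - ((c + -1 : ℤ) : ℂ)) = 0 := by
      rw [← h4]; ring
    rcases mul_eq_zero.1 h5 with h6 | h6
    · exact absurd h6 (Finsupp.mem_support_iff.1 hk)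
    · have h7 : (K.cn k : ℂ) = ((c + -1 : ℤ) : ℂ) := sub_eq_zero.1 h6
      have h8 : K.cn k = c + -1 := by exact_mod_cast h7
      omega
  have hφb : ∀ (b : ν →₀ ℂ) (c : ℤ), (∀ j ∈ b.support, K.cn j = c) →
      K.Q (b.sum fun j r => r • φ j) = 0 ∧ (b.sum fun j r => r • φ j) ∈ egr K.S0 (K.top - c) ∧
      (b.sum fun j r => r • φ j) - (b.sum fun j r => r • K.n j) ∈ GE K.R0 (c + 1) := by
    intro b c hb
    refine ⟨?_, ?_, ?_⟩
    · rw [Finsupp.sum, map_sum]
      refine Finset.sum_eq_zero fun j _ => ?_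
      rw [map_smul, (hφ j).ker, smul_zero]
    · refine Submodule.sum_mem _ fun j hj => Submodule.smul_mem _ _ ?_
      rw [← hb j hj]
      exact (hφ j).deg
    · rw [Finsupp.sum, Finsupp.sum, ← Finset.sum_sub_distrib]
      refine Submodule.sum_mem _ fun j hj => ?_
      rw [← smul_sub]
      refine Submodule.smul_mem _ _ ?_
      rw [← hb j hj]
      exact (hφ j).low
  obtain ⟨b1, b2, b3⟩ := hφb b c hb
  obtain ⟨a1, a2, a3⟩ := hφb a (c - 1) ha
  refine ko_WK hW hφ c (K.top - c + 1) (by omega) _ ⟨LinearMap.mem_ker.2 ?_, ?_⟩ ?_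
  · rw [map_sub, hF.ker _ b1, a1, sub_zero]
  · refine Submodule.sub_mem _ (ko_egr_map WF 1 hF.deg _ _ b2) ?_
    have e : K.top - (c - 1) = K.top - c + 1 := by ring
    rw [e] at a2
    exact a2
  · have g1 := ko_GE_lead (A := K.R0) (B := K.R0) WF JF (-1) hF.JR (by
      intro c x hx
      have e : c + -1 + 1 = c := by ring
      rw [e]
      exact hF.lead c x hx) _ _ b3
    have g2 := hF.lead c _ hbn
    have e1 : c + 1 + -1 = c := by ring
    rw [e1] at g1
    have e2 : c - 1 + 1 = c := by ring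
    rw [e2] at a3
    have g3 := Submodule.sub_mem _ (Submodule.add_mem _ g1 g2) a3
    have e3 : WF ((b.sum fun j r => r • φ j) - (b.sum fun j r => r • K.n j)) +
        (WF (b.sum fun j r => r • K.n j) - JF (b.sum fun j r => r • K.n j)) -
        ((a.sum fun j r => r • φ j) - (a.sum fun j r => r • K.n j)) =
        WF (b.sum fun j r => r • φ j) - (a.sum fun j r => r • φ j) := by
      rw [map_sub, h]; abel
    rw [e3] at g3
    exact g3

/-- The recursion for `ker Q` in `D`-degree `d`. -/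
theorem ko_R {JF WF : C0 →ₗ[ℂ] C0} (hF : K.Fop JF WF) (d : ℤ)
    (hN : ∀ i, K.cn i = K.top - d → ∃ b : ν →₀ ℂ, (∀ j ∈ b.support, K.cn j = K.top - d + 1) ∧
      JF (b.sum fun j r => r • K.n j) = K.n i)
    (x : C0) (hx : x ∈ K.KQ d) : ∃ y ∈ K.KQ (d - 1), x - WF y ∈ K.WK W d := by
  have hle : x ∈ (K.KQ (d - 1)).map WF ⊔ K.WK W d := by
    obtain ⟨c, hc⟩ := ko_GE_ex (ko_eR0 K) x
    refine ko_span hW hφ c d _ ?_ x (LinearMap.mem_ker.1 hx.1) hx.2 hc
    intro l i _ h2
    cases l with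
    | nil =>
      have e2 : K.ddg [] i = K.top - K.cn i := by simp [KG.ddg]
      obtain ⟨b, hb, hbn⟩ := hN i (by omega)
      have h3 := ko_F hW hφ hF (K.top - d + 1) b (Finsupp.single i 1) hb (by
        rw [hbn, Finsupp.sum_single_index (by exact zero_smul _ _), one_smul])
      rw [Finsupp.sum_single_index (by exact zero_smul _ _), one_smul] at h3
      have e3 : K.top - (K.top - d + 1) + 1 = d := by ring
      rw [e3] at h3
      have e4 : wd W [] (φ i) = WF (b.sum fun j r => r • φ j) -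
          (WF (b.sum fun j r => r • φ j) - φ i) := by
        rw [sub_sub_cancel]; rfl
      rw [e4]
      refine Submodule.sub_mem _ (Submodule.mem_sup_left ?_) (Submodule.mem_sup_right h3)
      refine Submodule.mem_map_of_mem ⟨LinearMap.mem_ker.2 ?_, ?_⟩
      · rw [Finsupp.sum, map_sum]
        refine Finset.sum_eq_zero fun j _ => ?_
        rw [map_smul, (hφ j).ker, smul_zero]
      · refine Submodule.sum_mem _ fun j hj => Submodule.smul_mem _ _ ?_
        have h5 := (hφ j).deg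
        have e5 : K.top - K.cn j = d - 1 := by
          rw [hb j hj]; ring
        rw [e5] at h5
        exact h5
    | cons z l => exact Submodule.mem_sup_right (KO17.cons_mem hW hφ z l i d h2)
  obtain ⟨u, hu, w, hw, huw⟩ := Submodule.mem_sup.1 hle
  obtain ⟨y, hy, rfl⟩ := hu
  refine ⟨y, hy, ?_⟩
  rw [← huw, add_sub_cancel_left]
  exact hw

end sys

end WPE
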