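import Pool.Agent.WPE.KJ5
import Pool.Agent.WPE.KO17

/-! WPE, block KJ, row KJ6: the recursion. -/

set_option linter.unusedSectionVars false

namespace WPE

open scoped TensorProduct

section kin

variable {B : Type} [LieRing B] [LieAlgebra ℂ B] {κ : B →ₗ[ℂ] B →ₗ[ℂ] ℂ}
  {Y : Type} [AddCommGroup Y] [Module ℂ Y] [LieRingModule B Y] [LieModule ℂ B Y]
  {N : Type} [AddCommGroup N] [Module ℂ N] {R : LRep B N} {β ζ ν : Type}
  (I : KIn κ Y R β ζ ν)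

namespace KJr6

theorem J_i0 (a : B) (v : N) : I.J 0 a (WPE.i0 κ Y R v) = WPE.i0 κ Y R (R.ρ a v) := by
  have h := Ind.J_incl (κ := κ) (T := (TMod.gt Y (TMod.ofRep R)).toTMod) 0 a (v, 0, 0)
  rw [gt_act, map_zero, map_zero, TMod.ofRep_zero] at h
  exact h

theorem nn_eq (i : ν) : I.nn i = WPE.i0 κ Y R (I.n i) := rfl

theorem repr_rho (u : N) (j : ν) :
    I.n.repr (R.ρ I.rho u) j = (I.cn j : ℂ) * I.n.repr u j := by
  have h : (I.n.coord j) ∘ₗ R.ρ I.rho = (I.cn j : ℂ) • I.n.coord j := by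
    refine I.n.ext fun k => ?_
    rw [LinearMap.comp_apply, I.rho_n, map_smul, LinearMap.smul_apply]
    simp only [Module.Basis.coord_apply, Module.Basis.repr_self, smul_eq_mul]
    by_cases hjk : k = j
    · subst hjk; rfl
    · rw [Finsupp.single_eq_of_ne (Ne.symm hjk)]
      simp
  have h2 := LinearMap.congr_fun h u
  simpa using h2

end KJr6

open KJr6 in
/-- [KJ6] The recursion, for `KIn`. -/
theorem kj_rec (w : ζ → VC κ Y)
    (hw : ∀ i, I.IsWv (I.b (Sum.inr i)) (I.cb (Sum.inr i)) (w i)) (a : B)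
    (ha : ⁅I.rho, a⁆ = -a) (wF : VC κ Y) (hwF : I.IsWv a (-1) wF) (d : ℤ)
    (hF : ∀ v : N, R.ρ I.rho v = ((I.top - d : ℤ) : ℂ) • v →
      ∃ u : N, R.ρ I.rho u = ((I.top - d + 1 : ℤ) : ℂ) • u ∧ R.ρ a u = v)
    (x : I.Cx) (hx : x ∈ I.Cp 0 ⊓ LinearMap.ker I.QQ ⊓ egr I.S d) :
    ∃ y ∈ I.Cp 0 ⊓ LinearMap.ker I.QQ ⊓ egr I.S (d - 1),
      x - ((cmod κ Y (TMod.ofRep R)).Yh wF).1 0 y ∈
        ⨆ p : ℕ × ζ, (I.Cp 0 ⊓ LinearMap.ker I.QQ ⊓
          egr I.S (d - ((p.1 : ℤ) + 1 - I.cb (Sum.inr p.2)))).map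
            (((cmod κ Y (TMod.ofRep R)).Yh (w p.2)).1 (-1 - (p.1 : ℤ))) := by
  obtain ⟨⟨hx1, hx2⟩, hx3⟩ := hx
  have hW := kj_Wop I w hw
  have hWF := kj_Fop I a ha wF hwF
  have hφ0 : ∀ i, ∃ y, I.kg.Lft (I.kg.cn i) (I.kg.top - I.kg.cn i) (I.kg.n i) y := fun i =>
    ko_lift I.kg _ _ _ ((ko_mem_egr _ _).2 (I.kg.R0n i)) ((ko_mem_egr _ _).2 (I.kg.S0n i))
      (I.kg.D0n i)
  choose φ hφ using hφ0
  have hφ' : I.kg.IsPhi φ := hφ
  -- membership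
  have key : ∀ (e : ℤ) (y : I.Cp 0), y ∈ I.kg.KQ e ↔
      (y : I.Cx) ∈ I.Cp 0 ⊓ LinearMap.ker I.QQ ⊓ egr I.S e := by
    intro e y
    have h1 := kj_Q I y
    have h2 := kj_egr_S I 0 e y
    constructor
    · rintro ⟨h3, h4⟩
      exact ⟨⟨y.2, h1.1 h3⟩, h2.1 h4⟩
    · rintro ⟨⟨_, h3⟩, h4⟩
      exact ⟨h1.2 h3, h2.2 h4⟩
  have hN : ∀ i, I.kg.cn i = I.kg.top - d → ∃ b : ν →₀ ℂ,
      (∀ j ∈ b.support, I.kg.cn j = I.kg.top - d + 1) ∧
      ((I.J 0 a).restrict (I.J_mem 0 _ _)) (b.sum fun j r => r • I.kg.n j) =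
        I.kg.n i := by
    intro i hci
    obtain ⟨u, hu1, hu2⟩ := hF (I.n i) (by
      rw [I.rho_n]
      congr 2)
    refine ⟨I.n.repr u, fun j hj => ?_, ?_⟩
    · have h1 := repr_rho I u j
      rw [hu1, map_smul, Finsupp.smul_apply, smul_eq_mul] at h1
      have h2 : I.n.repr u j ≠ 0 := Finsupp.mem_support_iff.1 hj
      have h3 := mul_right_cancel₀ h2 h1
      exact (Int.cast_injective h3).symm
    · apply Subtype.ext
      have h1 : (((I.n.repr u).sum fun j r => r • I.kg.n j : I.Cp 0) : I.Cx) =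
          WPE.i0 κ Y R u := by
        rw [Finsupp.sum, AddSubmonoidClass.coe_finsetSum]
        have e1 : ∀ j ∈ (I.n.repr u).support, ((I.n.repr u j • I.kg.n j : I.Cp 0) : I.Cx) =
            WPE.i0 κ Y R (I.n.repr u j • I.n j) := by
          intro j _
          rw [Submodule.coe_smul, map_smul, ← nn_eq I j]
          rfl
        rw [Finset.sum_congr rfl e1, ← map_sum]
        congr 1
        have := I.n.linearCombination_repr u
        rw [Finsupp.linearCombination_apply, Finsupp.sum] at this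
        exact this
      rw [LinearMap.restrict_apply]
      show I.J 0 a _ = I.nn i
      rw [h1, J_i0, hu2]
      exact (nn_eq I i).symm
  obtain ⟨y, hy1, hy2⟩ := ko_R hW hφ' hWF d hN ⟨x, hx1⟩ ((key d ⟨x, hx1⟩).2 ⟨⟨hx1, hx2⟩, hx3⟩)
  refine ⟨y, (key _ y).1 hy1, ?_⟩
  have h1 : ∀ v ∈ I.kg.WK (fun p : ℕ × ζ =>
      (((cmod κ Y (TMod.ofRep R)).Yh (w p.2)).1 (-1 - (p.1 : ℤ))).restrict
      (kj_Yh_mem I 0 (w p.2) (hw p.2).mem _)) d, (v : I.Cx) ∈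
        ⨆ p : ℕ × ζ, (I.Cp 0 ⊓ LinearMap.ker I.QQ ⊓
          egr I.S (d - ((p.1 : ℤ) + 1 - I.cb (Sum.inr p.2)))).map
            (((cmod κ Y (TMod.ofRep R)).Yh (w p.2)).1 (-1 - (p.1 : ℤ))) := by
    intro v hv
    unfold KG.WK at hv
    induction hv using Submodule.iSup_induction' with
    | mem p v hv =>
      obtain ⟨y, hy, rfl⟩ := hv
      refine Submodule.mem_iSup_of_mem p ⟨y, (key _ y).1 hy, rfl⟩
    | zero => exact Submodule.zero_mem _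
    | add v v' _ _ h1 h2 => exact Submodule.add_mem _ h1 h2
  exact h1 _ hy2

end kin

end WPE
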