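import Pool.Agent.WPE.BR15
import Pool.Agent.WPE.KJ11
import Pool.Agent.WPE.KJ6

/-! WPE, block KJ, row KJ13: the recursion. -/

set_option linter.unusedSectionVars false

namespace WPE

open scoped TensorProduct

variable {g β η : Type} [LieRing g] [LieAlgebra ℂ g] [Fintype β] [DecidableEq β] [Fintype η]
  [DecidableEq η] (L : LD g β η) (c : ℂ)

variable {N : Type} [AddCommGroup N] [Module ℂ N] (M : QN (L.qd c) N) (hM : M.Ok)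
  {Q0 : CC (L.kb c) L.nL (TMod.ofRep M.R) →ₗ[ℂ] CC (L.kb c) L.nL (TMod.ofRep M.R)}
  (h : IsQ0 (L.kb c) M Q0)
  {Q1 : VC (L.kb c) L.nL →ₗ[ℂ] VC (L.kb c) L.nL}
  (h1 : IsQ0 (L.kb c) (QN.one (L.qd c)) Q1)

namespace KJr13

include hM h in
/-- The instance of block KI. -/
theorem Internal.exists_kin (z : η → L.bL) (m : η → ℕ) (hz1 : ∀ i, (z i : g) ∈ L.zc)
    (hz2 : ∀ i, (z i : g) ∈ L.gr (-(m i : ℤ))) (hz3 : LinearIndependent ℂ fun i => (z i : g))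
    (hz4 : Submodule.span ℂ (Set.range fun i => (z i : g)) = L.zc) (top : ℤ)
    (hG : L.KGr M.R top) :
    ∃ (ν : Type) (I : KIn (L.kb c) L.nL M.R β η ν), I.Q0 = Q0 ∧ I.F = (L.qd c).F ∧
      I.rho = L.krho ∧ I.top = top ∧ (∀ i, I.b (Sum.inr i) = z i) ∧
      ∀ i, I.cb (Sum.inr i) = -(m i : ℤ) := by
  obtain ⟨K, hKz, hKm⟩ := kj_KB L (fun i => (z i : g)) m hz1 hz2 hz3 hz4
  obtain ⟨ν, n, cn, hcn, hn⟩ := kj_nbasis L M.R top hG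
  have hb : ∀ i, K.b (Sum.inr i) = z i := by
    intro i
    apply Subtype.ext
    rw [K.hb2, hKz]
  have hc : ∀ i, -K.m i = -(m i : ℤ) := by
    intro i
    rw [hKm]
  exact ⟨ν, LD.kin K c M hM Q0 h n cn top hcn hn, rfl, rfl, rfl, rfl, hb, hc⟩

export Internal (exists_kin)

theorem Internal.QQ_eq {ν : Type} (I : KIn (L.kb c) L.nL M.R β η ν) (e1 : I.Q0 = Q0)
    (e2 : I.F = (L.qd c).F) : (L.qd c).Qd Q0 = I.QQ :=
  congrArg₂ (fun (q : CC (L.kb c) L.nL (TMod.ofRep M.R) →ₗ[ℂ] CC (L.kb c) L.nL (TMod.ofRep M.R))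
    (f : L.nL) => q + (cmod (L.kb c) L.nL (TMod.ofRep M.R)).ψ 0 f) e1.symm e2.symm

export Internal (QQ_eq)

theorem Internal.KQ_eq {ν : Type} (I : KIn (L.kb c) L.nL M.R β η ν) (e1 : I.Q0 = Q0)
    (e2 : I.F = (L.qd c).F) (e3 : I.rho = L.krho) {top : ℤ} (e4 : I.top = top) (d : ℤ) :
    L.KQ c M.R Q0 top d = I.Cp 0 ⊓ LinearMap.ker I.QQ ⊓ egr I.S d := by
  have h5 : L.kS c M.R top = I.S :=
    congrArg₂ (fun (r : L.bL) (t : ℤ) => (cen 0 (isEnergy_zero M.R) -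
      (cmod (L.kb c) L.nL (TMod.ofRep M.R)).J 0 r + (t : ℂ) • LinearMap.id :
        CC (L.kb c) L.nL (TMod.ofRep M.R) →ₗ[ℂ] CC (L.kb c) L.nL (TMod.ofRep M.R)))
      e3.symm e4.symm
  exact congrArg₂ (fun q s : CC (L.kb c) L.nL (TMod.ofRep M.R) →ₗ[ℂ]
      CC (L.kb c) L.nL (TMod.ofRep M.R) => cpart (L.kb c) L.nL (TMod.ofRep M.R) 0 ⊓
        LinearMap.ker q ⊓ egr s d) (QQ_eq L c M I e1 e2) h5

export Internal (KQ_eq)

include hM h h1 in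
theorem Internal.ker1 (z : L.bL) (m : ℕ) (w : VC (L.kb c) L.nL) (hw : L.IsW c Q1 z m w) (k : ℤ)
    (x : CC (L.kb c) L.nL (TMod.ofRep M.R)) (hQ : (L.qd c).Qd Q0 x = 0) :
    (L.qd c).Qd Q0 (((cmod (L.kb c) L.nL (TMod.ofRep M.R)).Yh w).1 k x) = 0 :=
  (br_main (br_qd L c) M hM h h1 w hw.mem hw.ker k x).trans
    ((congrArg (((cmod (L.kb c) L.nL (TMod.ofRep M.R)).Yh w).1 k) hQ).trans (map_zero _))

export Internal (ker1)

theorem add_z {V : Type} [AddCommGroup V] [Module ℂ V] (a w : V) :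
    a = a + ((0 : ℤ) : ℂ) • w := by
  rw [Int.cast_zero, zero_smul, add_zero]

theorem Internal.deg1 (z : L.bL) (m : ℕ) (w : VC (L.kb c) L.nL) (hw : L.IsW c Q1 z m w) :
    cen 0 (isEnergy_zero (LRep.triv L.bL)) w -
      (cmod (L.kb c) L.nL (TMod.triv L.bL)).J 0 L.krho w = ((1 - -(m : ℤ) : ℤ) : ℂ) • w := by
  have h2 : cen 0 (isEnergy_zero (LRep.triv L.bL)) w -
      (cmod (L.kb c) L.nL (TMod.triv L.bL)).J 0 L.krho w + ((0 : ℤ) : ℂ) • w =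
        ((m : ℂ) + 1) • w := hw.deg
  have h4 : (((1 - -(m : ℤ) : ℤ)) : ℂ) = (m : ℂ) + 1 := by push_cast; ring
  exact (add_z _ w).trans (h2.trans (congrArg (fun r : ℂ => r • w) h4.symm))

export Internal (deg1)

include hM h h1 in
theorem Internal.isWv {ν : Type} (I : KIn (L.kb c) L.nL M.R β η ν) (e1 : I.Q0 = Q0)
    (e2 : I.F = (L.qd c).F) (e3 : I.rho = L.krho)
    (z : L.bL) (m : ℕ) (w : VC (L.kb c) L.nL) (hw : L.IsW c Q1 z m w) :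
    I.IsWv z (-(m : ℤ)) w where
  mem := hw.mem
  ker k x _ hQ := (LinearMap.congr_fun (QQ_eq L c M I e1 e2) _).symm.trans
    (ker1 L c M hM h h1 z m w hw k x
      ((LinearMap.congr_fun (QQ_eq L c M I e1 e2) x).trans hQ))
  deg := (congrArg (fun r => cen 0 (isEnergy_zero (LRep.triv L.bL)) w -
      (cmod (L.kb c) L.nL (TMod.triv L.bL)).J 0 r w = ((1 - -(m : ℤ) : ℤ) : ℂ) • w) e3).mpr
    (deg1 L c z m w hw)
  low := (congrArg (fun r => w - (cmod (L.kb c) L.nL (TMod.triv L.bL)).J (-1) z (cvac _ _) ∈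
      GE ((cmod (L.kb c) L.nL (TMod.triv L.bL)).J 0 r) (-(m : ℤ) + 1)) e3).mpr hw.low

export Internal (isWv)

include hM h h1 in
theorem Internal.main1 {ν : Type} (I : KIn (L.kb c) L.nL M.R β η ν) (e1 : I.Q0 = Q0)
    (e2 : I.F = (L.qd c).F) (e3 : I.rho = L.krho) (z : η → L.bL) (m : η → ℕ)
    (top : ℤ) (e4 : I.top = top) (e5 : ∀ i, I.b (Sum.inr i) = z i)
    (e6 : ∀ i, I.cb (Sum.inr i) = -(m i : ℤ))
    (w : η → VC (L.kb c) L.nL) (hw : ∀ i, L.IsW c Q1 (z i) (m i) (w i))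
    (wF : VC (L.kb c) L.nL) (hwF : L.IsW c Q1 (L.pib L.F) 1 wF) (d : ℤ)
    (hF : ∀ v : N, M.R.ρ L.krho v = ((top - d : ℤ) : ℂ) • v →
      ∃ u : N, M.R.ρ L.krho u = ((top - d + 1 : ℤ) : ℂ) • u ∧ M.R.ρ (L.pib L.F) u = v)
    (x : CC (L.kb c) L.nL (TMod.ofRep M.R)) (hx : x ∈ L.KQ c M.R Q0 top d) :
    ∃ y ∈ I.Cp 0 ⊓ LinearMap.ker I.QQ ⊓ egr I.S (d - 1),
      x - ((cmod (L.kb c) L.nL (TMod.ofRep M.R)).Yh wF).1 0 y ∈
        ⨆ p : ℕ × η, (I.Cp 0 ⊓ LinearMap.ker I.QQ ⊓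
          egr I.S (d - ((p.1 : ℤ) + 1 - I.cb (Sum.inr p.2)))).map
            (((cmod (L.kb c) L.nL (TMod.ofRep M.R)).Yh (w p.2)).1 (-1 - (p.1 : ℤ))) := by
  have hw' : ∀ i, I.IsWv (I.b (Sum.inr i)) (I.cb (Sum.inr i)) (w i) := by
    intro i
    rw [e5, e6]
    exact KJr13.isWv L c M hM h h1 I e1 e2 e3 (z i) (m i) (w i) (hw i)
  have hwF' : I.IsWv (L.pib L.F) (-1) wF :=
    KJr13.isWv L c M hM h h1 I e1 e2 e3 (L.pib L.F) 1 wF hwF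
  have hFm : L.F ∈ L.bm := L.nm_le_bm (la_G L).F_nm
  have hpF : ((L.pib L.F : L.bL) : g) = L.F := (la_P L).Pb_bm _ hFm
  have ha : ⁅I.rho, L.pib L.F⁆ = -L.pib L.F := by
    rw [e3]
    apply Subtype.ext
    show ⁅L.rho, ((L.pib L.F : L.bL) : g)⁆ = -((L.pib L.F : L.bL) : g)
    rw [hpF, L.rho_F, neg_smul, one_smul]
  have hF' : ∀ v : N, M.R.ρ I.rho v = ((I.top - d : ℤ) : ℂ) • v →
      ∃ u : N, M.R.ρ I.rho u = ((I.top - d + 1 : ℤ) : ℂ) • u ∧ M.R.ρ (L.pib L.F) u = v := by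
    rw [e3, e4]
    exact hF
  have hx1 : x ∈ I.Cp 0 ⊓ LinearMap.ker I.QQ ⊓ egr I.S d :=
    (congrArg (fun U => x ∈ U) (KJr13.KQ_eq L c M I e1 e2 e3 e4 d)).mp hx
  exact kj_rec I w hw' (L.pib L.F) ha wF hwF' d hF' x hx1

export Internal (main1)

theorem Internal.main2 {ν : Type} (I : KIn (L.kb c) L.nL M.R β η ν) (e1 : I.Q0 = Q0)
    (e2 : I.F = (L.qd c).F) (e3 : I.rho = L.krho) (m : η → ℕ)
    (top : ℤ) (e4 : I.top = top) (e6 : ∀ i, I.cb (Sum.inr i) = -(m i : ℤ))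
    (w : η → VC (L.kb c) L.nL) (d : ℤ) :
    (⨆ p : ℕ × η, (I.Cp 0 ⊓ LinearMap.ker I.QQ ⊓
          egr I.S (d - ((p.1 : ℤ) + 1 - I.cb (Sum.inr p.2)))).map
            (((cmod (L.kb c) L.nL (TMod.ofRep M.R)).Yh (w p.2)).1 (-1 - (p.1 : ℤ)))) =
        ⨆ p : ℕ × η, (L.KQ c M.R Q0 top (d - ((m p.2 : ℤ) + 1) - p.1)).map
          (((cmod (L.kb c) L.nL (TMod.ofRep M.R)).Yh (w p.2)).1 (-1 - (p.1 : ℤ))) := by
  refine iSup_congr fun p => congrArg (Submodule.map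
      (((cmod (L.kb c) L.nL (TMod.ofRep M.R)).Yh (w p.2)).1 (-1 - (p.1 : ℤ)))) ?_
  have e7 : d - ((p.1 : ℤ) + 1 - I.cb (Sum.inr p.2)) = d - ((m p.2 : ℤ) + 1) - p.1 := by
    rw [e6]
    ring
  exact (congrArg (fun r : ℤ => I.Cp 0 ⊓ LinearMap.ker I.QQ ⊓ egr I.S r) e7).trans
    (KJr13.KQ_eq L c M I e1 e2 e3 e4 _).symm

export Internal (main2)

end KJr13

include hM h h1 in
/-- [KJ13] [KO-R] The recursion. -/
theorem Internal.kj_R (z : η → L.bL) (m : η → ℕ) (hz1 : ∀ i, (z i : g) ∈ L.zc)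
    (hz2 : ∀ i, (z i : g) ∈ L.gr (-(m i : ℤ))) (hz3 : LinearIndependent ℂ fun i => (z i : g))
    (hz4 : Submodule.span ℂ (Set.range fun i => (z i : g)) = L.zc)
    (w : η → VC (L.kb c) L.nL) (hw : ∀ i, L.IsW c Q1 (z i) (m i) (w i))
    (wF : VC (L.kb c) L.nL) (hwF : L.IsW c Q1 (L.pib L.F) 1 wF)
    (top : ℤ) (hG : L.KGr M.R top) (d : ℤ)
    (hF : ∀ v : N, M.R.ρ L.krho v = ((top - d : ℤ) : ℂ) • v →
      ∃ u : N, M.R.ρ L.krho u = ((top - d + 1 : ℤ) : ℂ) • u ∧ M.R.ρ (L.pib L.F) u = v)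
    (x : CC (L.kb c) L.nL (TMod.ofRep M.R)) (hx : x ∈ L.KQ c M.R Q0 top d) :
    ∃ y ∈ L.KQ c M.R Q0 top (d - 1),
      x - ((cmod (L.kb c) L.nL (TMod.ofRep M.R)).Yh wF).1 0 y ∈
        ⨆ p : ℕ × η, (L.KQ c M.R Q0 top (d - ((m p.2 : ℤ) + 1) - p.1)).map
          (((cmod (L.kb c) L.nL (TMod.ofRep M.R)).Yh (w p.2)).1 (-1 - (p.1 : ℤ))) :=
  Exists.elim (KJr13.exists_kin L c M hM h z m hz1 hz2 hz3 hz4 top hG) fun _ h2 =>
    Exists.elim h2 fun I h3 =>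
      Exists.elim (KJr13.main1 L c M hM h h1 I h3.1 h3.2.1 h3.2.2.1 z m top h3.2.2.2.1
          h3.2.2.2.2.1 h3.2.2.2.2.2 w hw wF hwF d hF x hx) fun y hy =>
        ⟨y, (congrArg (fun U => y ∈ U)
            (KJr13.KQ_eq L c M I h3.1 h3.2.1 h3.2.2.1 h3.2.2.2.1 (d - 1))).mpr hy.1,
          (congrArg (fun U => x - ((cmod (L.kb c) L.nL (TMod.ofRep M.R)).Yh wF).1 0 y ∈ U)
            (KJr13.main2 L c M I h3.1 h3.2.1 h3.2.2.1 m top h3.2.2.2.1 h3.2.2.2.2.2 w d)).mp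
              hy.2⟩

export Internal (kj_R)

end WPE
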