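import Pool.Agent.WPE.IND3
import Pool.Agent.WPQ.AFD

/-! WPE, block IN: the parts `C⁰, C¹, C²` of the induced module, the trivial module. -/

namespace WPE

open scoped TensorProduct
open WPQ.AF (IsFld)

noncomputable section

section parts

variable {B : Type} [LieRing B] [LieAlgebra ℂ B] (κ : B →ₗ[ℂ] B →ₗ[ℂ] ℂ)
variable (Y : Type) [AddCommGroup Y] [Module ℂ Y] [LieRingModule B Y] [LieModule ℂ B Y]
variable {N : Type} [AddCommGroup N] [Module ℂ N] (T : TMod B N)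

/-- The projections of `N ⊕ (M ⊗ N) ⊕ (M ⊗ M ⊗ N)` (number of ghosts `0`, `1`, `2`). -/
def KNpr (Y N : Type) [AddCommGroup Y] [Module ℂ Y] [AddCommGroup N] [Module ℂ N] (i : Fin 3) :
    KN Y N →ₗ[ℂ] KN Y N :=
  match i with
  | 0 => LinearMap.inl ℂ _ _ ∘ₗ LinearMap.fst ℂ _ _
  | 1 => LinearMap.inr ℂ _ _ ∘ₗ LinearMap.inl ℂ _ _ ∘ₗ LinearMap.fst ℂ _ _ ∘ₗ
      LinearMap.snd ℂ _ _
  | 2 => LinearMap.inr ℂ _ _ ∘ₗ LinearMap.inr ℂ _ _ ∘ₗ LinearMap.snd ℂ _ _ ∘ₗ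
      LinearMap.snd ℂ _ _

theorem KNpr_zero (x : KN Y N) : KNpr Y N 0 x = (x.1, 0, 0) := rfl

theorem KNpr_one (x : KN Y N) : KNpr Y N 1 x = (0, x.2.1, 0) := rfl

theorem KNpr_two (x : KN Y N) : KNpr Y N 2 x = (0, 0, x.2.2) := rfl

theorem KNpr_sum (x : KN Y N) : KNpr Y N 0 x + KNpr Y N 1 x + KNpr Y N 2 x = x := by
  rw [KNpr_zero, KNpr_one, KNpr_two]
  ext <;> simp

theorem gt_act (m : ℕ) (a : B) (v : KN Y N) : (TMod.gt Y T).toTMod.act m a v =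
    (T.act m a v.1, ((TMod.ghost B Y).tensor T).act m a v.2.1,
      ((TMod.ghost B Y).tensor ((TMod.ghost B Y).tensor T)).act m a v.2.2) := rfl

theorem KNpr_isHom (i : Fin 3) :
    (TMod.gt Y T).toTMod.IsHom (TMod.gt Y T).toTMod (KNpr Y N i) := by
  intro m a v
  fin_cases i
  · show KNpr Y N 0 _ = (TMod.gt Y T).toTMod.act m a (KNpr Y N 0 v)
    rw [KNpr_zero, KNpr_zero, gt_act, gt_act, map_zero, map_zero]
  · show KNpr Y N 1 _ = (TMod.gt Y T).toTMod.act m a (KNpr Y N 1 v)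
    rw [KNpr_one, KNpr_one, gt_act, gt_act, map_zero, map_zero]
  · show KNpr Y N 2 _ = (TMod.gt Y T).toTMod.act m a (KNpr Y N 2 v)
    rw [KNpr_two, KNpr_two, gt_act, gt_act, map_zero, map_zero]

/-- The complex with coefficients in `T`: `C⁰ ⊕ C¹ ⊕ C²`. -/
abbrev CC : Type := Ind κ (TMod.gt Y T).toTMod

/-- The projection of the complex to the part with `i` ghosts. -/
def cpr (i : Fin 3) : CC κ Y T →ₗ[ℂ] CC κ Y T := Ind.map (KNpr Y N i) (KNpr_isHom Y T i)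

/-- The part `Cⁱ`. -/
def cpart (i : Fin 3) : Submodule ℂ (CC κ Y T) := LinearMap.range (cpr κ Y T i)

/-- The currents and the ghosts on the complex. -/
abbrev cmod : GMod B Y κ (CC κ Y T) := Ind.gmod κ (TMod.gt Y T)

variable {κ Y T}

theorem cpr_incl (i : Fin 3) (v : KN Y N) :
    cpr κ Y T i (Ind.incl κ _ v) = Ind.incl κ _ (KNpr Y N i v) := Ind.map_incl _ _ v

theorem cpr_J (i : Fin 3) (m : ℤ) (a : B) (x : CC κ Y T) :
    cpr κ Y T i ((cmod κ Y T).J m a x) = (cmod κ Y T).J m a (cpr κ Y T i x) :=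
  Ind.map_J _ _ m a x

theorem cpr_cpr (i : Fin 3) (x : CC κ Y T) : cpr κ Y T i (cpr κ Y T i x) = cpr κ Y T i x := by
  have h : cpr κ Y T i ∘ₗ cpr κ Y T i = cpr κ Y T i := by
    refine Ind.hom_ext (X := Ind.mod κ _) ?_ (Ind.map_isHom _ _) ?_
    · intro m a x
      rw [LinearMap.comp_apply, LinearMap.comp_apply]
      exact (congrArg _ (cpr_J i m a x)).trans (cpr_J i m a _)
    · intro v
      rw [LinearMap.comp_apply, cpr_incl, cpr_incl]
      congr 1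
      fin_cases i <;> rfl
  exact LinearMap.congr_fun h x

theorem mem_cpart_iff {i : Fin 3} {x : CC κ Y T} : x ∈ cpart κ Y T i ↔ cpr κ Y T i x = x := by
  constructor
  · rintro ⟨y, rfl⟩
    exact cpr_cpr i y
  · intro h
    exact ⟨x, h⟩

theorem cpr_sum (x : CC κ Y T) : cpr κ Y T 0 x + cpr κ Y T 1 x + cpr κ Y T 2 x = x := by
  have h : cpr κ Y T 0 + cpr κ Y T 1 + cpr κ Y T 2 = LinearMap.id := by
    refine Ind.hom_ext (X := Ind.mod κ _) ?_ (fun m a x => rfl) ?_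
    · intro m a x
      simp only [LinearMap.add_apply]
      have h0 := cpr_J 0 m a x
      have h1 := cpr_J 1 m a x
      have h2 := cpr_J 2 m a x
      show cpr κ Y T 0 ((cmod κ Y T).J m a x) + cpr κ Y T 1 ((cmod κ Y T).J m a x) +
        cpr κ Y T 2 ((cmod κ Y T).J m a x) = (cmod κ Y T).J m a _
      rw [h0, h1, h2, map_add, map_add]
    · intro v
      simp only [LinearMap.add_apply, LinearMap.id_apply]
      rw [cpr_incl, cpr_incl, cpr_incl, ← map_add, ← map_add, KNpr_sum]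
  exact LinearMap.congr_fun h x

theorem cpart_J {i : Fin 3} (m : ℤ) (a : B) {x : CC κ Y T} (hx : x ∈ cpart κ Y T i) :
    (cmod κ Y T).J m a x ∈ cpart κ Y T i := by
  rw [mem_cpart_iff] at hx ⊢
  rw [cpr_J, hx]

theorem cpart_incl (i : Fin 3) (v : KN Y N) :
    Ind.incl κ (TMod.gt Y T).toTMod (KNpr Y N i v) ∈ cpart κ Y T i :=
  ⟨Ind.incl κ _ v, cpr_incl i v⟩

/-- Induction principle for `Cⁱ`. -/
theorem cpart_induction {i : Fin 3} (W : Submodule ℂ (CC κ Y T))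
    (h0 : ∀ v : KN Y N, Ind.incl κ _ (KNpr Y N i v) ∈ W)
    (h1 : ∀ m a x, x ∈ cpart κ Y T i → x ∈ W → (cmod κ Y T).J m a x ∈ W) :
    cpart κ Y T i ≤ W := by
  rintro x ⟨y, rfl⟩
  have h := Ind.induction_sub (W.comap (cpr κ Y T i)) (fun v => ?_) (fun m a x hx => ?_) y
  · exact h
  · rw [Submodule.mem_comap, cpr_incl]
    exact h0 v
  · rw [Submodule.mem_comap] at hx ⊢
    have h2 := cpr_J i m a x
    have h3 := h1 m a _ ⟨x, rfl⟩ hx
    rw [← h2] at h3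
    exact h3

omit [LieRingModule B Y] [LieModule ℂ B Y] [Module ℂ Y] [AddCommGroup Y] in
theorem cpr_aux {E : Type} [AddCommGroup E] [Module ℂ E] (J ψ ψ' P0 P1 P2 : E →ₗ[ℂ] E)
    (hψ : ∀ x, ψ (J x) = J (ψ x) - ψ' x) (hP0 : ∀ x, P0 (J x) = J (P0 x))
    (hP1 : ∀ x, P1 (J x) = J (P1 x)) (hP2 : ∀ x, P2 (J x) = J (P2 x)) (x : E)
    (h1 : P0 (ψ x) = 0) (h2 : P1 (ψ x) = ψ (P0 x)) (h3 : P2 (ψ x) = ψ (P1 x))
    (h4 : ψ (P2 x) = 0) (g1 : P0 (ψ' x) = 0) (g2 : P1 (ψ' x) = ψ' (P0 x))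
    (g3 : P2 (ψ' x) = ψ' (P1 x)) (g4 : ψ' (P2 x) = 0) :
    P0 (ψ (J x)) = 0 ∧ P1 (ψ (J x)) = ψ (P0 (J x)) ∧ P2 (ψ (J x)) = ψ (P1 (J x)) ∧
      ψ (P2 (J x)) = 0 := by
  rw [hP0, hP1, hP2, hψ, hψ, hψ, hψ, map_sub, map_sub, map_sub, hP0, hP1, hP2, h1, h2, h3, h4,
    g1, g2, g3, g4, map_zero, sub_zero]
  exact ⟨rfl, rfl, rfl, rfl⟩

theorem cpr_psi (m : ℤ) (y : Y) (x : CC κ Y T) :
    cpr κ Y T 0 ((cmod κ Y T).ψ m y x) = 0 ∧
    cpr κ Y T 1 ((cmod κ Y T).ψ m y x) = (cmod κ Y T).ψ m y (cpr κ Y T 0 x) ∧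
    cpr κ Y T 2 ((cmod κ Y T).ψ m y x) = (cmod κ Y T).ψ m y (cpr κ Y T 1 x) ∧
    (cmod κ Y T).ψ m y (cpr κ Y T 2 x) = 0 := by
  let W : Submodule ℂ (CC κ Y T) :=
    { carrier := {x | ∀ (m : ℤ) (y : Y),
        cpr κ Y T 0 ((cmod κ Y T).ψ m y x) = 0 ∧
        cpr κ Y T 1 ((cmod κ Y T).ψ m y x) = (cmod κ Y T).ψ m y (cpr κ Y T 0 x) ∧
        cpr κ Y T 2 ((cmod κ Y T).ψ m y x) = (cmod κ Y T).ψ m y (cpr κ Y T 1 x) ∧
        (cmod κ Y T).ψ m y (cpr κ Y T 2 x) = 0}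
      add_mem' := by
        intro x x' hx hx' m y
        obtain ⟨h1, h2, h3, h4⟩ := hx m y
        obtain ⟨g1, g2, g3, g4⟩ := hx' m y
        simp only [map_add]
        rw [h1, g1, h2, g2, h3, g3, h4, g4]
        simp
      zero_mem' := by
        intro m y
        simp
      smul_mem' := by
        intro c x hx m y
        obtain ⟨h1, h2, h3, h4⟩ := hx m y
        simp only [map_smul]
        rw [h1, h2, h3, h4]
        simp }
  have hW : x ∈ W := by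
    refine Ind.induction_sub W ?_ ?_ x
    · intro v m y
      by_cases hm : m < 0
      · obtain ⟨k, rfl⟩ : ∃ k : ℕ, m = -(k : ℤ) - 1 := ⟨(-m - 1).toNat, by omega⟩
        have e : ∀ v : KN Y N, (cmod κ Y T).ψ (-(k : ℤ) - 1) y (Ind.incl κ _ v) =
            Ind.incl κ _ (ghOm Y (Finsupp.single k y) v) := fun v =>
          Ind.psi_incl_neg κ (TMod.gt Y T) k y v
        rw [e, cpr_incl, cpr_incl, cpr_incl, cpr_incl, cpr_incl, cpr_incl, e, e, e]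
        refine ⟨?_, ?_, ?_, ?_⟩
        · rw [KNpr_zero, ghOm_apply]
          exact map_zero _
        · congr 1
          rw [KNpr_one, KNpr_zero, ghOm_apply, ghOm_apply]
          simp
        · congr 1
          rw [KNpr_two, KNpr_one, ghOm_apply, ghOm_apply]
          simp
        · rw [KNpr_two, ghOm_apply, TensorProduct.tmul_zero, TensorProduct.tmul_zero, map_zero,
            sub_zero]
          exact map_zero _
      · have e : ∀ v : KN Y N, (cmod κ Y T).ψ m y (Ind.incl κ _ v) = 0 := fun v =>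
          Ind.psi_incl_nonneg κ (TMod.gt Y T) m (by omega) y v
        rw [e, cpr_incl, cpr_incl, cpr_incl, e, e, e]
        simp
    · intro k a x hx m y
      obtain ⟨h1, h2, h3, h4⟩ := hx m y
      obtain ⟨g1, g2, g3, g4⟩ := hx (k + m) ⁅a, y⁆
      refine cpr_aux ((cmod κ Y T).J k a) ((cmod κ Y T).ψ m y) ((cmod κ Y T).ψ (k + m) ⁅a, y⁆)
        (cpr κ Y T 0) (cpr κ Y T 1) (cpr κ Y T 2) ?_ (cpr_J 0 k a) (cpr_J 1 k a) (cpr_J 2 k a) x
        h1 h2 h3 h4 g1 g2 g3 g4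
      intro x
      rw [← (cmod κ Y T).commψ]
      abel
  exact hW m y

theorem cpart_psi0 (m : ℤ) (y : Y) {x : CC κ Y T} (hx : x ∈ cpart κ Y T 0) :
    (cmod κ Y T).ψ m y x ∈ cpart κ Y T 1 := by
  rw [mem_cpart_iff] at hx ⊢
  rw [(cpr_psi m y x).2.1, hx]

theorem cpart_psi1 (m : ℤ) (y : Y) {x : CC κ Y T} (hx : x ∈ cpart κ Y T 1) :
    (cmod κ Y T).ψ m y x ∈ cpart κ Y T 2 := by
  rw [mem_cpart_iff] at hx ⊢
  rw [(cpr_psi m y x).2.2.1, hx]

theorem cpart_psi2 (m : ℤ) (y : Y) {x : CC κ Y T} (hx : x ∈ cpart κ Y T 2) :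
    (cmod κ Y T).ψ m y x = 0 := by
  rw [mem_cpart_iff] at hx
  rw [← hx, (cpr_psi m y x).2.2.2]

end parts

section trivial

variable (B : Type) [LieRing B] [LieAlgebra ℂ B]

/-- The trivial representation. -/
def LRep.triv : LRep B ℂ where
  ρ := 0
  lie := fun a b v => by simp

/-- The trivial `B[t]`-module. -/
abbrev TMod.triv : TMod B ℂ := TMod.ofRep (LRep.triv B)

theorem TMod.triv_act (m : ℕ) (a : B) (v : ℂ) : (TMod.triv B).act m a v = 0 := by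
  by_cases hm : m = 0
  · subst hm
    rfl
  · exact TMod.ofRep_pos _ m hm a v

variable {B}
variable (κ : B →ₗ[ℂ] B →ₗ[ℂ] ℂ)
variable (Y : Type) [AddCommGroup Y] [Module ℂ Y] [LieRingModule B Y] [LieModule ℂ B Y]

/-- The vacuum complex. -/
abbrev VC : Type := CC κ Y (TMod.triv B)

/-- The vacuum vector. -/
def cvac : VC κ Y := Ind.incl κ _ ((1 : ℂ), 0, 0)

theorem cvac_mem : cvac κ Y ∈ cpart κ Y (TMod.triv B) 0 :=
  cpart_incl (κ := κ) (T := TMod.triv B) 0 ((1 : ℂ), 0, 0)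

theorem J_cvac (m : ℤ) (hm : 0 ≤ m) (a : B) : (cmod κ Y (TMod.triv B)).J m a (cvac κ Y) = 0 := by
  obtain ⟨k, rfl⟩ := Int.eq_ofNat_of_zero_le hm
  have h := Ind.J_incl (κ := κ) (T := (TMod.gt Y (TMod.triv B)).toTMod) k a ((1 : ℂ), 0, 0)
  refine h.trans ?_
  have h2 : (TMod.gt Y (TMod.triv B)).toTMod.act k a ((1 : ℂ), 0, 0) = 0 := by
    show (((TMod.triv B).act k a 1 : ℂ), _, _) = (0 : KN Y ℂ)
    rw [TMod.triv_act]
    refine Prod.ext rfl (Prod.ext ?_ ?_)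
    · exact map_zero _
    · exact map_zero _
  rw [h2, map_zero]

theorem psi_cvac (m : ℤ) (hm : 0 ≤ m) (y : Y) :
    (cmod κ Y (TMod.triv B)).ψ m y (cvac κ Y) = 0 :=
  Ind.psi_incl_nonneg κ (TMod.gt Y (TMod.triv B)) m hm y _

end trivial

end

end WPE
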