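import Pool.Agent.WPE.FDE
import Pool.Agent.WPE.IND4

/-! WPE, block FD: definitions of the statements. -/

namespace WPE

open scoped TensorProduct
open WPQ.AF (IsFld)

noncomputable section

namespace GMod

variable {B : Type} [LieRing B] [LieAlgebra ℂ B] {κ : B →ₗ[ℂ] B →ₗ[ℂ] ℂ}
variable {Y : Type} [AddCommGroup Y] [Module ℂ Y] [LieRingModule B Y] [LieModule ℂ B Y]
variable {E : Type} [AddCommGroup E] [Module ℂ E]

open Classical in
/-- The state-field correspondence `C(ℂ) → Fld E`. -/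
def Yh (X : GMod B Y κ E) : VC κ Y →ₗ[ℂ] Fld E :=
  if h : ∀ (m : ℕ) (a : B) (v : KN Y ℂ), (BMod.fld X.smooth).J m a (X.phiS v) =
      X.phiS ((TMod.gt Y (TMod.triv B)).toTMod.act m a v) then Ind.lift _ X.phiS h else 0

end GMod


/-- `b_k` maps the piece of degree `d` into the piece of degree `d + σ - (k+1) τ`. -/
def HasDeg {E : Type} [AddCommGroup E] [Module ℂ E] {Γ : Type} [AddCommGroup Γ]
    (gr : Γ → Submodule ℂ E) (τ σ : Γ) (b : ℤ → E →ₗ[ℂ] E) : Prop :=
  ∀ (k : ℤ) (d : Γ), ∀ x ∈ gr d, b k x ∈ gr (d + σ - (k + 1) • τ)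


end

end WPE
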