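import Pool.Agent.WPE.IND5

/-! WPE, block KI: the Koszul system of block KO for the complex `CC κ Y (TMod.ofRep R)`:
definitions. -/

namespace WPE

open scoped TensorProduct

noncomputable section

/-- The zero operator is an energy operator for `B[t] → B`. -/
theorem isEnergy_zero {B : Type} [LieRing B] [LieAlgebra ℂ B] {N : Type} [AddCommGroup N]
    [Module ℂ N] (R : LRep B N) : (TMod.ofRep R).IsEnergy (0 : N →ₗ[ℂ] N) := by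
  intro m a v
  by_cases hm : m = 0
  · subst hm
    simp
  · rw [TMod.ofRep_pos R m hm]
    simp

/-- Data for block KO: homogeneous bases `b` of `B`, `y` of `Y`, `n` of `N`, the element `F` of `Y`, the
grading element `rho`, and the operator `Q0`. -/
structure KIn {B : Type} [LieRing B] [LieAlgebra ℂ B] (κ : B →ₗ[ℂ] B →ₗ[ℂ] ℂ)
    (Y : Type) [AddCommGroup Y] [Module ℂ Y] [LieRingModule B Y] [LieModule ℂ B Y]
    {N : Type} [AddCommGroup N] [Module ℂ N] (R : LRep B N) (β ζ ν : Type) where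
  hκ : IsInvForm κ
  b : Module.Basis (β ⊕ ζ) ℂ B
  y : Module.Basis β ℂ Y
  n : Module.Basis ν ℂ N
  F : Y
  rho : B
  cb : β ⊕ ζ → ℤ
  ht : β → ℤ
  cn : ν → ℤ
  top : ℤ
  cb_le : ∀ a, cb a ≤ 0
  ht_pos : ∀ s, 1 ≤ ht s
  cn_le : ∀ i, cn i ≤ top
  xF : ∀ s, ⁅b (Sum.inl s), F⁆ = -y s
  zF : ∀ i, ⁅b (Sum.inr i), F⁆ = 0
  rho_b : ∀ a, ⁅rho, b a⁆ = (cb a : ℂ) • b a
  rho_y : ∀ s, ⁅rho, y s⁆ = (-(ht s : ℂ)) • y s
  rho_F : ⁅rho, F⁆ = -F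
  rho_n : ∀ i, R.ρ rho (n i) = (cn i : ℂ) • n i
  Q0 : CC κ Y (TMod.ofRep R) →ₗ[ℂ] CC κ Y (TMod.ofRep R)
  Q0_0 : ∀ x ∈ cpart κ Y (TMod.ofRep R) 0, Q0 x ∈ cpart κ Y (TMod.ofRep R) 1
  Q0_1 : ∀ x ∈ cpart κ Y (TMod.ofRep R) 1, Q0 x ∈ cpart κ Y (TMod.ofRep R) 2
  Q0Q0 : ∀ x ∈ cpart κ Y (TMod.ofRep R) 0, Q0 (Q0 x) = 0
  Q0F : ∀ x ∈ cpart κ Y (TMod.ofRep R) 0,
    Q0 ((cmod κ Y (TMod.ofRep R)).ψ 0 F x) + (cmod κ Y (TMod.ofRep R)).ψ 0 F (Q0 x) = 0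
  Q0rho : ∀ x, Q0 ((cmod κ Y (TMod.ofRep R)).J 0 rho x) =
    (cmod κ Y (TMod.ofRep R)).J 0 rho (Q0 x)
  Q0en : ∀ x ∈ cpart κ Y (TMod.ofRep R) 0,
    Q0 (cen 0 (isEnergy_zero R) x) = cen 0 (isEnergy_zero R) (Q0 x)

namespace KIn

variable {B : Type} [LieRing B] [LieAlgebra ℂ B] {κ : B →ₗ[ℂ] B →ₗ[ℂ] ℂ}
  {Y : Type} [AddCommGroup Y] [Module ℂ Y] [LieRingModule B Y] [LieModule ℂ B Y]
  {N : Type} [AddCommGroup N] [Module ℂ N] {R : LRep B N} {β ζ ν : Type}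
  (I : KIn κ Y R β ζ ν)

/-- The complex. -/
abbrev Cx (_ : KIn κ Y R β ζ ν) : Type := CC κ Y (TMod.ofRep R)

/-- The parts of the complex. -/
abbrev Cp (_ : KIn κ Y R β ζ ν) (i : Fin 3) : Submodule ℂ (CC κ Y (TMod.ofRep R)) :=
  cpart κ Y (TMod.ofRep R) i

/-- The modes of the currents. -/
def J (m : ℤ) (a : B) : I.Cx →ₗ[ℂ] I.Cx := (cmod κ Y (TMod.ofRep R)).J m a

/-- The modes of the ghosts. -/
def ps (m : ℤ) (u : Y) : I.Cx →ₗ[ℂ] I.Cx := (cmod κ Y (TMod.ofRep R)).ψ m u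

/-- Energy. -/
def en : I.Cx →ₗ[ℂ] I.Cx := cen 0 (isEnergy_zero R)

/-- The operator of the `D`-degree. -/
def S : I.Cx →ₗ[ℂ] I.Cx := I.en - I.J 0 I.rho + (I.top : ℂ) • LinearMap.id

/-- The letters as pairs. -/
def lt : (ℕ × β) ⊕ (ℕ × ζ) ≃ ℕ × (β ⊕ ζ) := (Equiv.prodSumDistrib ℕ β ζ).symm

/-- The letters as operators on the complex. -/
def Jl (a : (ℕ × β) ⊕ (ℕ × ζ)) : I.Cx →ₗ[ℂ] I.Cx := I.J (-((lt a).1 : ℤ) - 1) (I.b (lt a).2)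

/-- The ghost letters. -/
def pl (t : ℕ × β) : I.Cx →ₗ[ℂ] I.Cx := I.ps (-(t.1 : ℤ) - 1) (I.y t.2)

/-- Structure constants of the letters. -/
def br (a a' : (ℕ × β) ⊕ (ℕ × ζ)) : (ℕ × β) ⊕ (ℕ × ζ) →₀ ℂ :=
  (I.b.repr ⁅I.b (lt a).2, I.b (lt a').2⁆).mapDomain
    (fun c => lt.symm ((lt a).1 + (lt a').1 + 1, c))

/-- Structure constants of letters and ghosts. -/
def bp (a : (ℕ × β) ⊕ (ℕ × ζ)) (t : ℕ × β) : ℕ × β →₀ ℂ :=
  (I.y.repr ⁅I.b (lt a).2, I.y t.2⁆).mapDomain (fun c => ((lt a).1 + t.1 + 1, c))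

/-- The basis of `N` inside `C⁰`. -/
def nn (i : ν) : I.Cx := Ind.incl κ _ (I.n i, 0, 0)

theorem J_mem (i : Fin 3) (m : ℤ) (a : B) (x : I.Cx) (hx : x ∈ I.Cp i) : I.J m a x ∈ I.Cp i :=
  cpart_J m a hx

theorem Jl_mem (i : Fin 3) (a : (ℕ × β) ⊕ (ℕ × ζ)) (x : I.Cx) (hx : x ∈ I.Cp i) :
    I.Jl a x ∈ I.Cp i := I.J_mem i _ _ x hx

theorem ps_mem0 (m : ℤ) (u : Y) (x : I.Cx) (hx : x ∈ I.Cp 0) : I.ps m u x ∈ I.Cp 1 :=
  cpart_psi0 m u hx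

theorem ps_mem1 (m : ℤ) (u : Y) (x : I.Cx) (hx : x ∈ I.Cp 1) : I.ps m u x ∈ I.Cp 2 :=
  cpart_psi1 m u hx

theorem en_cpr (i : Fin 3) (x : I.Cx) :
    cpr κ Y (TMod.ofRep R) i (I.en x) = I.en (cpr κ Y (TMod.ofRep R) i x) := by
  have key : ∀ x, x ∈ (LinearMap.eqLocus (cpr κ Y (TMod.ofRep R) i ∘ₗ I.en)
      (I.en ∘ₗ cpr κ Y (TMod.ofRep R) i) : Submodule ℂ (CC κ Y (TMod.ofRep R))) := by
    intro x
    refine Ind.induction_sub _ ?_ ?_ x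
    · intro v
      show cpr κ Y (TMod.ofRep R) i (cen 0 (isEnergy_zero R) (Ind.incl κ _ v)) =
        cen 0 (isEnergy_zero R) (cpr κ Y (TMod.ofRep R) i (Ind.incl κ _ v))
      rw [cen_incl, cpr_incl, cpr_incl, cen_incl]
      congr 1
      fin_cases i
      · show KNpr Y N 0 _ = KNE Y 0 (KNpr Y N 0 v)
        rw [KNpr_zero, KNpr_zero]
        unfold KNE
        simp
      · show KNpr Y N 1 _ = KNE Y 0 (KNpr Y N 1 v)
        rw [KNpr_one, KNpr_one]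
        unfold KNE
        simp
      · show KNpr Y N 2 _ = KNE Y 0 (KNpr Y N 2 v)
        rw [KNpr_two, KNpr_two]
        unfold KNE
        simp
    · intro m a x hx
      have hx' : cpr κ Y (TMod.ofRep R) i (cen 0 (isEnergy_zero R) x) =
        cen 0 (isEnergy_zero R) (cpr κ Y (TMod.ofRep R) i x) := hx
      show cpr κ Y (TMod.ofRep R) i (cen 0 (isEnergy_zero R) ((cmod κ Y (TMod.ofRep R)).J m a x)) =
        cen 0 (isEnergy_zero R) (cpr κ Y (TMod.ofRep R) i ((cmod κ Y (TMod.ofRep R)).J m a x))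
      rw [cen_J, cpr_J, cen_J, map_sub, map_smul, cpr_J, cpr_J, hx']
  exact key x

theorem en_mem (i : Fin 3) (x : I.Cx) (hx : x ∈ I.Cp i) : I.en x ∈ I.Cp i := by
  have h := mem_cpart_iff.1 hx
  refine mem_cpart_iff.2 ?_
  rw [I.en_cpr, h]

theorem S_mem (i : Fin 3) (x : I.Cx) (hx : x ∈ I.Cp i) : I.S x ∈ I.Cp i := by
  unfold S
  rw [LinearMap.add_apply, LinearMap.sub_apply, LinearMap.smul_apply, LinearMap.id_apply]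
  exact add_mem (sub_mem (I.en_mem i x hx) (I.J_mem i _ _ x hx)) (Submodule.smul_mem _ _ hx)

theorem nn_mem (i : ν) : I.nn i ∈ I.Cp 0 := by
  have h := cpart_incl (κ := κ) (T := TMod.ofRep R) (Y := Y) 0 (I.n i, 0, 0)
  exact h

/-- The letters on the parts. -/
def Jr (i : Fin 3) (a : (ℕ × β) ⊕ (ℕ × ζ)) : I.Cp i →ₗ[ℂ] I.Cp i :=
  (I.Jl a).restrict (I.Jl_mem i a)

/-- The ghost letters on the parts. -/
def pr0 (t : ℕ × β) : I.Cp 0 →ₗ[ℂ] I.Cp 1 := (I.pl t).restrict (I.ps_mem0 _ _)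

/-- The ghost letters on the parts. -/
def pr1 (t : ℕ × β) : I.Cp 1 →ₗ[ℂ] I.Cp 2 := (I.pl t).restrict (I.ps_mem1 _ _)

/-- `ψ_F(0)` on the parts. -/
def Dr0 : I.Cp 0 →ₗ[ℂ] I.Cp 1 := (I.ps 0 I.F).restrict (I.ps_mem0 _ _)

/-- `ψ_F(0)` on the parts. -/
def Dr1 : I.Cp 1 →ₗ[ℂ] I.Cp 2 := (I.ps 0 I.F).restrict (I.ps_mem1 _ _)

/-- The basis of `N` in `C⁰`. -/
def nr (i : ν) : I.Cp 0 := ⟨I.nn i, I.nn_mem i⟩

/-- The operator of the `c`-degree on the parts. -/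
def Rr (i : Fin 3) : I.Cp i →ₗ[ℂ] I.Cp i := (I.J 0 I.rho).restrict (I.J_mem i _ _)

/-- The operator of the `D`-degree on the parts. -/
def Sr (i : Fin 3) : I.Cp i →ₗ[ℂ] I.Cp i := I.S.restrict (I.S_mem i)

/-- `Q₀` on the parts. -/
def Qr0 : I.Cp 0 →ₗ[ℂ] I.Cp 1 := I.Q0.restrict I.Q0_0

/-- `Q₀` on the parts. -/
def Qr1 : I.Cp 1 →ₗ[ℂ] I.Cp 2 := I.Q0.restrict I.Q0_1

/-- The degree of the letters. -/
def cl (a : (ℕ × β) ⊕ (ℕ × ζ)) : ℤ := I.cb (lt a).2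

/-- The `D`-degree of the letters. -/
def dl (a : (ℕ × β) ⊕ (ℕ × ζ)) : ℤ := (lt a).1 + 1 - I.cb (lt a).2

/-- The degree of the ghost letters. -/
def cp (t : ℕ × β) : ℤ := -I.ht t.2

/-- The `D`-degree of the ghost letters. -/
def dp (t : ℕ × β) : ℤ := t.1 + I.ht t.2

end KIn

end

end WPE
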