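import Mathlib

/-! WPE, block KO: definitions (abstract form of KO1-KO6 of W_DE_KDS.md).

Letters `T ⊕ Z`: `inl t` is a letter `J_{x_b}(-1-s)` (`[F, x_b] = f_b`, `t = (s, b)`), `inr z` is a letter
`J_{z_i}(-1-s)` (`[F, z_i] = 0`, `z = (s, i)`).  `p t` is `psi_{f_b}(-1-s)`. -/

set_option autoImplicit false

namespace WPE

noncomputable section

section words

variable {Λ ι V : Type} [AddCommGroup V] [Module ℂ V]

/-- The word `J_{a_1} ... J_{a_k} x`. -/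
def wd (J : Λ → V →ₗ[ℂ] V) (l : List Λ) (x : V) : V :=
  l.foldr (fun a y => J a y) x

/-- The span of the words of length `< k` on `x`. -/
def Fx (J : Λ → V →ₗ[ℂ] V) (x : V) (k : ℕ) : Submodule ℂ V :=
  Submodule.span ℂ {y | ∃ l : List Λ, l.length < k ∧ y = wd J l x}

/-- The span of the words of length `< k` on the `x i`. -/
def FS (J : Λ → V →ₗ[ℂ] V) (x : ι → V) (k : ℕ) : Submodule ℂ V := ⨆ i, Fx J (x i) k

/-- The commutative monomial of a word. -/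
def mn (l : List Λ) : MvPolynomial Λ ℂ := (l.map MvPolynomial.X).prod

/-- The linear map `X^m ↦ word in the letters of m (some order)`. -/
def TH (J : Λ → V →ₗ[ℂ] V) (x : V) : MvPolynomial Λ ℂ →ₗ[ℂ] V :=
  (MvPolynomial.basisMonomials Λ ℂ).constr ℂ
    (fun m => wd J (Finsupp.toMultiset m).toList x)

/-- The same for families of polynomials. -/
def TS (J : Λ → V →ₗ[ℂ] V) (x : ι → V) : (ι →₀ MvPolynomial Λ ℂ) →ₗ[ℂ] V :=
  Finsupp.lsum ℂ (fun i => TH J (x i))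

/-- `J` is closed under commutators (structure constants `br`). -/
def IsLieFam (J : Λ → V →ₗ[ℂ] V) (br : Λ → Λ → (Λ →₀ ℂ)) : Prop :=
  ∀ (a b : Λ) (x : V), J a (J b x) = J b (J a x) + (br a b).sum fun c r => r • J c x

end words

/-- The derivatives with respect to the letters `inl t`. -/
def dTk {T Z : Type} : MvPolynomial (T ⊕ Z) ℂ →ₗ[ℂ] (T →₀ MvPolynomial (T ⊕ Z) ℂ) where
  toFun q := Finsupp.ofSupportFinite (fun t => MvPolynomial.pderiv (Sum.inl t) q) (by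
    classical
    refine Set.Finite.subset (q.vars.finite_toSet.preimage Sum.inl_injective.injOn) ?_
    intro t ht
    by_contra h
    exact ht (MvPolynomial.pderiv_eq_zero_of_notMem_vars h))
  map_add' p q := Finsupp.ext fun t => map_add (MvPolynomial.pderiv (Sum.inl t)) p q
  map_smul' c q := Finsupp.ext fun t => (MvPolynomial.pderiv (Sum.inl t)).map_smul c q

theorem dT_apply {T Z : Type} (q : MvPolynomial (T ⊕ Z) ℂ) (t : T) :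
    dTk q t = MvPolynomial.pderiv (Sum.inl t) q := rfl

/-- A differential `D` with `[D, J (inl t)] = P t`, `[D, J (inr z)] = 0`. -/
structure KD {T Z V V' : Type} [AddCommGroup V] [Module ℂ V] [AddCommGroup V'] [Module ℂ V']
    (J : T ⊕ Z → V →ₗ[ℂ] V) (J' : T ⊕ Z → V' →ₗ[ℂ] V') (P : T → V →ₗ[ℂ] V') (D : V →ₗ[ℂ] V')
    (br : T ⊕ Z → T ⊕ Z → (T ⊕ Z →₀ ℂ)) (bp : T ⊕ Z → T → (T →₀ ℂ)) : Prop where
  fam : IsLieFam J br
  fam' : IsLieFam J' br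
  Jp : ∀ a t x, J' a (P t x) = P t (J a x) + (bp a t).sum fun c r => r • P c x
  DT : ∀ t x, D (J (Sum.inl t) x) = J' (Sum.inl t) (D x) + P t x
  DZ : ∀ z x, D (J (Sum.inr z) x) = J' (Sum.inr z) (D x)

section eig

variable {V : Type} [AddCommGroup V] [Module ℂ V]

/-- The eigenspace of the integer `c`. -/
def egr (A : V →ₗ[ℂ] V) (c : ℤ) : Submodule ℂ V :=
  Module.End.eigenspace A (c : ℂ)

/-- The sum of the eigenspaces of the integers `≥ c`. -/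
def GE (A : V →ₗ[ℂ] V) (c : ℤ) : Submodule ℂ V :=
  ⨆ c' : {c' : ℤ // c ≤ c'}, egr A c'.1

/-- `V` is spanned by eigenvectors with integral eigenvalues. -/
def IsEig (A : V →ₗ[ℂ] V) : Prop := ⨆ c : ℤ, egr A c = ⊤

open Classical in
/-- The component of degree `c`. -/
def pr (A : V →ₗ[ℂ] V) (c : ℤ) : V →ₗ[ℂ] V :=
  if h : DirectSum.IsInternal (egr A) then
    (egr A c).subtype ∘ₗ DirectSum.component ℂ ℤ (fun i => egr A i) c ∘ₗ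
      (LinearEquiv.ofBijective (DirectSum.coeLinearMap (egr A)) h).symm.toLinearMap
  else 0

end eig

section sys

variable (T Z ν C0 C1 C2 : Type) [AddCommGroup C0] [Module ℂ C0] [AddCommGroup C1] [Module ℂ C1]
  [AddCommGroup C2] [Module ℂ C2]

/-- Koszul system: the modules `C^0, C^1, C^2` with the negative modes, the ghosts and `D = psi_F(0)`. -/
structure KS where
  J0 : T ⊕ Z → C0 →ₗ[ℂ] C0
  J1 : T ⊕ Z → C1 →ₗ[ℂ] C1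
  J2 : T ⊕ Z → C2 →ₗ[ℂ] C2
  p0 : T → C0 →ₗ[ℂ] C1
  p1 : T → C1 →ₗ[ℂ] C2
  n : ν → C0
  D0 : C0 →ₗ[ℂ] C1
  D1 : C1 →ₗ[ℂ] C2
  br : T ⊕ Z → T ⊕ Z → (T ⊕ Z →₀ ℂ)
  bp : T ⊕ Z → T → (T →₀ ℂ)
  kd0 : KD J0 J1 p0 D0 br bp
  kd1 : KD J1 J2 p1 D1 br bp
  pp : ∀ s t x, p1 s (p0 t x) = - p1 t (p0 s x)
  D0n : ∀ i, D0 (n i) = 0
  D1p : ∀ t x, D1 (p0 t x) = - p1 t (D0 x)
  DD : ∀ x, D1 (D0 x) = 0
  sp0 : ∀ x, ∃ k, x ∈ FS J0 n k
  sp1 : ∀ x, ∃ k, x ∈ FS J1 (fun i : T × ν => p0 i.1 (n i.2)) k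
  gr0 : ∀ (k : ℕ) (q : ν →₀ MvPolynomial (T ⊕ Z) ℂ), (∀ i, (q i).IsHomogeneous k) →
    TS J0 n q ∈ FS J0 n k → q = 0
  gr1 : ∀ (k : ℕ) (q : T × ν →₀ MvPolynomial (T ⊕ Z) ℂ), (∀ i, (q i).IsHomogeneous k) →
    TS J1 (fun i : T × ν => p0 i.1 (n i.2)) q ∈ FS J1 (fun i : T × ν => p0 i.1 (n i.2)) k → q = 0
  gr2 : ∀ (k : ℕ) (q : (T × T) × ν →₀ MvPolynomial (T ⊕ Z) ℂ), (∀ i, (q i).IsHomogeneous k) →
    TS J2 (fun i : (T × T) × ν => p1 i.1.1 (p0 i.1.2 (n i.2))) q ∈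
      FS J2 (fun i : (T × T) × ν => p1 i.1.1 (p0 i.1.2 (n i.2))) k →
    ∀ s t i, q ((s, t), i) = q ((t, s), i)

variable {T Z ν C0 C1 C2}

namespace KS

variable (K : KS T Z ν C0 C1 C2)

/-- The word in the letters `inr z`. -/
def zw (l : List Z) (i : ν) : C0 := wd K.J0 (l.map Sum.inr) (K.n i)

/-- `G_N`: the span of the words in the `Z` letters. -/
def G : Submodule ℂ C0 :=
  Submodule.span ℂ {y | ∃ (l : List Z) (i : ν), y = K.zw l i}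

end KS

variable (T Z ν C0 C1 C2)

/-- Koszul system with `Q_0` and gradings: `R` = operator of the `c`-degree, `S` = operator of the
`D`-degree; `cl`, `dl` the degrees of the letters, `cn` the `c`-degree of `n i`. -/
structure KG extends KS T Z ν C0 C1 C2 where
  Q0 : C0 →ₗ[ℂ] C1
  Q1 : C1 →ₗ[ℂ] C2
  QQ : ∀ x, Q1 (Q0 x) = 0
  QD : ∀ x, Q1 (D0 x) + D1 (Q0 x) = 0
  R0 : C0 →ₗ[ℂ] C0
  R1 : C1 →ₗ[ℂ] C1
  R2 : C2 →ₗ[ℂ] C2
  S0 : C0 →ₗ[ℂ] C0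
  S1 : C1 →ₗ[ℂ] C1
  top : ℤ
  cl : T ⊕ Z → ℤ
  dl : T ⊕ Z → ℤ
  cp : T → ℤ
  dp : T → ℤ
  cn : ν → ℤ
  cl_le : ∀ a, cl a ≤ 0
  cd_pos : ∀ a, 1 ≤ cl a + dl a
  cp_le : ∀ t, cp t ≤ 0
  dp_pos : ∀ t, 1 ≤ dp t
  cn_le : ∀ i, cn i ≤ top
  R0J : ∀ a x, R0 (J0 a x) = J0 a (R0 x) + (cl a : ℂ) • J0 a x
  R1J : ∀ a x, R1 (J1 a x) = J1 a (R1 x) + (cl a : ℂ) • J1 a x
  S0J : ∀ a x, S0 (J0 a x) = J0 a (S0 x) + (dl a : ℂ) • J0 a x
  S1J : ∀ a x, S1 (J1 a x) = J1 a (S1 x) + (dl a : ℂ) • J1 a x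
  R0n : ∀ i, R0 (n i) = (cn i : ℂ) • n i
  S0n : ∀ i, S0 (n i) = ((top - cn i : ℤ) : ℂ) • n i
  R1p : ∀ t x, R1 (p0 t x) = p0 t (R0 x) + (cp t : ℂ) • p0 t x
  S1p : ∀ t x, S1 (p0 t x) = p0 t (S0 x) + (dp t : ℂ) • p0 t x
  R1D : ∀ x, R1 (D0 x) = D0 (R0 x) + ((-1 : ℤ) : ℂ) • D0 x
  R1Q : ∀ x, R1 (Q0 x) = Q0 (R0 x)
  R2D : ∀ x, R2 (D1 x) = D1 (R1 x) + ((-1 : ℤ) : ℂ) • D1 x
  R2Q : ∀ x, R2 (Q1 x) = Q1 (R1 x)
  S1D : ∀ x, S1 (D0 x) = D0 (S0 x)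
  S1Q : ∀ x, S1 (Q0 x) = Q0 (S0 x)

variable {T Z ν C0 C1 C2}

namespace KG

variable (K : KG T Z ν C0 C1 C2)

/-- `Q = Q_0 + D`. -/
def Q : C0 →ₗ[ℂ] C1 := K.Q0 + K.D0

/-- The `c`-degree of a `Z`-word. -/
def cdg (l : List Z) (i : ν) : ℤ := (l.map fun z => K.cl (Sum.inr z)).sum + K.cn i

/-- The `D`-degree of a `Z`-word. -/
def ddg (l : List Z) (i : ν) : ℤ := (l.map fun z => K.dl (Sum.inr z)).sum + (K.top - K.cn i)

/-- `x` is in `ker Q`, of `D`-degree `d`, with lowest component `g` of `c`-degree `c`. -/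
structure Lft (c d : ℤ) (g x : C0) : Prop where
  ker : K.Q x = 0
  deg : x ∈ egr K.S0 d
  low : x - g ∈ GE K.R0 (c + 1)

/-- A family of operators like `(w_z)_(-1-s)`: preserves `ker Q`, has the `D`-degree of the letter, and
equals the letter up to operators which raise the `c`-degree more. -/
structure Wop (W : Z → C0 →ₗ[ℂ] C0) : Prop where
  ker : ∀ z x, K.Q x = 0 → K.Q (W z x) = 0
  deg : ∀ z x, K.S0 (W z x) = W z (K.S0 x) + (K.dl (Sum.inr z) : ℂ) • W z x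
  lead : ∀ z c, ∀ x ∈ egr K.R0 c,
    W z x - K.J0 (Sum.inr z) x ∈ GE K.R0 (c + K.cl (Sum.inr z) + 1)

/-- An operator like `(w_F)_(0)`, with leading part `JF = J_F(0)`. -/
structure Fop (JF : C0 →ₗ[ℂ] C0) (WF : C0 →ₗ[ℂ] C0) : Prop where
  JR : ∀ x, K.R0 (JF x) = JF (K.R0 x) + ((-1 : ℤ) : ℂ) • JF x
  ker : ∀ x, K.Q x = 0 → K.Q (WF x) = 0
  deg : ∀ x, K.S0 (WF x) = WF (K.S0 x) + ((1 : ℤ) : ℂ) • WF x
  lead : ∀ c, ∀ x ∈ egr K.R0 c, WF x - JF x ∈ GE K.R0 c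

/-- Lifts of the `n i`. -/
def IsPhi (φ : ν → C0) : Prop := ∀ i, K.Lft (K.cn i) (K.top - K.cn i) (K.n i) (φ i)

/-- The part of `ker Q` of `D`-degree `d`. -/
def KQ (d : ℤ) : Submodule ℂ C0 := LinearMap.ker K.Q ⊓ egr K.S0 d

/-- `∑_z W_z (ker Q)` in `D`-degree `d`. -/
def WK (W : Z → C0 →ₗ[ℂ] C0) (d : ℤ) : Submodule ℂ C0 :=
  ⨆ z, (K.KQ (d - K.dl (Sum.inr z))).map (W z)

end KG

end sys

end

end WPE
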