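import Pool.Agent.WPE.BRL
import Pool.Agent.WPE.FDS0
import Pool.Agent.WPE.KID
import Pool.Agent.WPE.KOD

/-! WPE, block KJ: `ker Q` for the Lie data `LD`: definitions. -/

set_option linter.unusedSectionVars false

namespace WPE

open scoped TensorProduct

noncomputable section

section kin

variable {B : Type} [LieRing B] [LieAlgebra ℂ B] {κ : B →ₗ[ℂ] B →ₗ[ℂ] ℂ}
  {Y : Type} [AddCommGroup Y] [Module ℂ Y] [LieRingModule B Y] [LieModule ℂ B Y]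
  {N : Type} [AddCommGroup N] [Module ℂ N] {R : LRep B N} {β ζ ν : Type}

/-- `Q = Q₀ + ψ_F(0)` -/
def KIn.QQ (I : KIn κ Y R β ζ ν) : I.Cx →ₗ[ℂ] I.Cx := I.Q0 + I.ps 0 I.F

/-- The properties of the vectors `w`: lowest component `J_a(-1)1`, `a` of degree `d`. -/
structure KIn.IsWv (I : KIn κ Y R β ζ ν) (a : B) (d : ℤ) (w : VC κ Y) : Prop where
  mem : w ∈ cpart κ Y (TMod.triv B) 0
  ker : ∀ (k : ℤ) (x : I.Cx), x ∈ I.Cp 0 → I.QQ x = 0 →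
    I.QQ (((cmod κ Y (TMod.ofRep R)).Yh w).1 k x) = 0
  deg : cen 0 (isEnergy_zero (LRep.triv B)) w - (cmod κ Y (TMod.triv B)).J 0 I.rho w =
    ((1 - d : ℤ) : ℂ) • w
  low : w - (cmod κ Y (TMod.triv B)).J (-1) a (cvac κ Y) ∈
    GE ((cmod κ Y (TMod.triv B)).J 0 I.rho) (d + 1)

end kin

variable {g β η : Type} [LieRing g] [LieAlgebra ℂ g] [Fintype β] [DecidableEq β] [Fintype η]
  [DecidableEq η]

namespace LD

variable (L : LD g β η)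

/-- `rho ∈ b₋` -/
def krho : L.bL := ⟨L.rho, L.hs_le_bm L.rho_mem⟩

variable (c : ℂ) {N : Type} [AddCommGroup N] [Module ℂ N] (R : LRep L.bL N)

/-- The operator of the `c`-degree. -/
def kR : CC (L.kb c) L.nL (TMod.ofRep R) →ₗ[ℂ] CC (L.kb c) L.nL (TMod.ofRep R) :=
  (cmod (L.kb c) L.nL (TMod.ofRep R)).J 0 L.krho

/-- The operator of the `D`-degree. -/
def kS (top : ℤ) : CC (L.kb c) L.nL (TMod.ofRep R) →ₗ[ℂ] CC (L.kb c) L.nL (TMod.ofRep R) :=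
  cen 0 (isEnergy_zero R) - L.kR c R + (top : ℂ) • LinearMap.id

/-- `ker Q ∩ C⁰` in `D`-degree `d`. -/
def KQ (Q0 : CC (L.kb c) L.nL (TMod.ofRep R) →ₗ[ℂ] CC (L.kb c) L.nL (TMod.ofRep R))
    (top d : ℤ) : Submodule ℂ (CC (L.kb c) L.nL (TMod.ofRep R)) :=
  cpart (L.kb c) L.nL (TMod.ofRep R) 0 ⊓ LinearMap.ker ((L.qd c).Qd Q0) ⊓
    egr (L.kS c R top) d

/-- `N` is spanned by weight vectors of integral degree `≤ top`. -/
def KGr (top : ℤ) : Prop := ∀ v : N,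
  v ∈ Submodule.span ℂ {w : N | ∃ d : ℤ, d ≤ top ∧ R.ρ L.krho w = (d : ℂ) • w}

/-- `w` is in `ker Q`, of `D`-degree `m + 1`, with lowest component `J_z(-1)1` of degree `-m`. -/
structure IsW (Q1 : VC (L.kb c) L.nL →ₗ[ℂ] VC (L.kb c) L.nL) (z : L.bL) (m : ℕ)
    (w : VC (L.kb c) L.nL) : Prop where
  mem : w ∈ cpart (L.kb c) L.nL (TMod.triv L.bL) 0
  ker : (L.qd c).Qd (R := LRep.triv L.bL) Q1 w = 0
  deg : L.kS c (LRep.triv L.bL) 0 w = ((m : ℂ) + 1) • w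
  low : w - (cmod (L.kb c) L.nL (TMod.triv L.bL)).J (-1) z (cvac (L.kb c) L.nL) ∈
    GE (L.kR c (LRep.triv L.bL)) (-(m : ℤ) + 1)

end LD

end

end WPE
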