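import Pool.Agent.WPE.KOD
set_option autoImplicit false
namespace WPE
open MvPolynomial (X pderiv)

section eig

variable {V W : Type} [AddCommGroup V] [Module ℂ V] [AddCommGroup W] [Module ℂ W]
  {A : V →ₗ[ℂ] V} {B : W →ₗ[ℂ] W}

theorem ko_mem_egr (c : ℤ) (x : V) : x ∈ egr A c ↔ A x = (c : ℂ) • x :=
  Module.End.mem_eigenspace_iff

theorem ko_internal (h : IsEig A) : DirectSum.IsInternal (egr A) := by
  refine DirectSum.isInternal_submodule_of_iSupIndep_of_iSup_eq_top ?_ h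
  exact (Module.End.eigenspaces_iSupIndep A).comp (f := fun c : ℤ => (c : ℂ)) Int.cast_injective

theorem KO9.pr_def (h : IsEig A) (c : ℤ) (x : V) :
    pr A c x = ((LinearEquiv.ofBijective (DirectSum.coeLinearMap (egr A))
      (ko_internal h)).symm x) c := by
  unfold pr
  rw [dif_pos (ko_internal h)]
  rfl

theorem ko_pr_mem (h : IsEig A) (c : ℤ) (x : V) : pr A c x ∈ egr A c := by
  rw [KO9.pr_def h]
  exact Subtype.property _

theorem KO9.symm_of (h : IsEig A) (c : ℤ) (x : V) (hx : x ∈ egr A c) :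
    (LinearEquiv.ofBijective (DirectSum.coeLinearMap (egr A)) (ko_internal h)).symm x =
      DirectSum.lof ℂ ℤ (fun i => egr A i) c ⟨x, hx⟩ := by
  rw [LinearEquiv.symm_apply_eq]
  exact (DirectSum.coeLinearMap_lof (egr A) c ⟨x, hx⟩).symm

theorem ko_pr_self (h : IsEig A) (c : ℤ) (x : V) (hx : x ∈ egr A c) : pr A c x = x := by
  rw [KO9.pr_def h, KO9.symm_of h c x hx]
  simp [DirectSum.lof_eq_of, DirectSum.of_eq_same]

theorem ko_pr_ne (h : IsEig A) (c c' : ℤ) (hc : c ≠ c') (x : V) (hx : x ∈ egr A c') :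
    pr A c x = 0 := by
  rw [KO9.pr_def h, KO9.symm_of h c' x hx, DirectSum.lof_eq_of,
    DirectSum.of_eq_of_ne _ _ _ hc]
  rfl

theorem ko_pr_sum (h : IsEig A) (x : V) :
    ∃ s : Finset ℤ, (∀ c, c ∉ s → pr A c x = 0) ∧ x = ∑ c ∈ s, pr A c x := by
  classical
  set y := (LinearEquiv.ofBijective (DirectSum.coeLinearMap (egr A)) (ko_internal h)).symm x
    with hy
  have hx : DirectSum.coeLinearMap (egr A) y = x :=
    (LinearEquiv.ofBijective (DirectSum.coeLinearMap (egr A)) (ko_internal h)).apply_symm_apply x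
  refine ⟨DFinsupp.support y, ?_, ?_⟩
  · intro c hc
    rw [KO9.pr_def h, ← hy]
    have : y c = 0 := by
      by_contra h0
      exact hc (DFinsupp.mem_support_iff.2 h0)
    rw [this]
    rfl
  · conv_lhs => rw [← hx, DirectSum.coeLinearMap_eq_dfinsuppSum]
    refine Finset.sum_congr rfl fun c _ => ?_
    rw [KO9.pr_def h, ← hy]

theorem ko_egr_map (G : V →ₗ[ℂ] W) (k : ℤ) (hG : ∀ x, B (G x) = G (A x) + (k : ℂ) • G x)
    (c : ℤ) (x : V) (hx : x ∈ egr A c) : G x ∈ egr B (c + k) := by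
  rw [ko_mem_egr] at hx ⊢
  rw [hG, hx, map_smul, ← add_smul]
  push_cast
  rfl

theorem ko_pr_map (hA : IsEig A) (hB : IsEig B) (G : V →ₗ[ℂ] W) (k : ℤ)
    (hG : ∀ x, B (G x) = G (A x) + (k : ℂ) • G x) (c : ℤ) (x : V) :
    pr B (c + k) (G x) = G (pr A c x) := by
  have key : (⨆ c' : ℤ, egr A c') ≤
      LinearMap.eqLocus ((pr B (c + k)) ∘ₗ G) (G ∘ₗ (pr A c)) := by
    refine iSup_le fun c' => ?_
    intro y hy
    rw [LinearMap.mem_eqLocus, LinearMap.comp_apply, LinearMap.comp_apply]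
    have h1 := ko_egr_map G k hG c' y hy
    by_cases hc : c = c'
    · subst hc
      rw [ko_pr_self hB _ _ h1, ko_pr_self hA _ _ hy]
    · rw [ko_pr_ne hB (c + k) (c' + k) (fun h => hc (by linarith)) _ h1,
        ko_pr_ne hA c c' hc y hy, map_zero]
  have hx : x ∈ (⨆ c' : ℤ, egr A c') := by
    rw [show (⨆ c' : ℤ, egr A c') = ⊤ from hA]
    trivial
  exact key hx

end eig

end WPE
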