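import Pool.Agent.WPE.KIG
import Pool.Agent.WPE.KJD
import Pool.Agent.WPE.KO9

/-! [KJ2] The degrees and `Q` on the parts. -/

set_option linter.unusedSectionVars false

namespace WPE

open scoped TensorProduct

section kin

variable {B : Type} [LieRing B] [LieAlgebra ℂ B] {κ : B →ₗ[ℂ] B →ₗ[ℂ] ℂ}
  {Y : Type} [AddCommGroup Y] [Module ℂ Y] [LieRingModule B Y] [LieModule ℂ B Y]
  {N : Type} [AddCommGroup N] [Module ℂ N] {R : LRep B N} {β ζ ν : Type}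
  (I : KIn κ Y R β ζ ν)

/-- [KJ2] -/
theorem kj_egr_R (i : Fin 3) (c : ℤ) (x : I.Cp i) :
    x ∈ egr (I.Rr i) c ↔ (x : I.Cx) ∈ egr (I.J 0 I.rho) c := by
  rw [ko_mem_egr, ko_mem_egr, Subtype.ext_iff]
  rfl

/-- [KJ2] -/
theorem kj_egr_S (i : Fin 3) (c : ℤ) (x : I.Cp i) :
    x ∈ egr (I.Sr i) c ↔ (x : I.Cx) ∈ egr I.S c := by
  rw [ko_mem_egr, ko_mem_egr, Subtype.ext_iff]
  rfl

/-- [KJ2] -/
theorem kj_GE_R (i : Fin 3) (c : ℤ) (x : I.Cp i) :
    x ∈ GE (I.Rr i) c ↔ (x : I.Cx) ∈ GE (I.J 0 I.rho) c := by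
  constructor
  · intro hx
    have h : GE (I.Rr i) c ≤ (GE (I.J 0 I.rho) c).comap (I.Cp i).subtype := by
      refine iSup_le fun c' y hy => ?_
      rw [Submodule.mem_comap, Submodule.subtype_apply]
      exact le_iSup (fun c' : {c' : ℤ // c ≤ c'} => egr (I.J 0 I.rho) c'.1) c'
        ((kj_egr_R I i c'.1 y).1 hy)
    exact h hx
  · intro hx
    let G : I.Cx →ₗ[ℂ] I.Cp i :=
      LinearMap.codRestrict (I.Cp i) (cpr κ Y (TMod.ofRep R) i) (fun y => ⟨y, rfl⟩)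
    have hG : ∀ y, ((G y : I.Cp i) : I.Cx) = cpr κ Y (TMod.ofRep R) i y := fun y => rfl
    have h : GE (I.J 0 I.rho) c ≤ (GE (I.Rr i) c).comap G := by
      refine iSup_le fun c' y hy => ?_
      rw [Submodule.mem_comap]
      refine le_iSup (fun c' : {c' : ℤ // c ≤ c'} => egr (I.Rr i) c'.1) c' ?_
      rw [kj_egr_R, hG]
      rw [ko_mem_egr] at hy ⊢
      have h1 := cpr_J (κ := κ) (Y := Y) (T := TMod.ofRep R) i 0 I.rho y
      have h2 : (cmod κ Y (TMod.ofRep R)).J 0 I.rho y = ((c'.1 : ℤ) : ℂ) • y := hy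
      show (cmod κ Y (TMod.ofRep R)).J 0 I.rho (cpr κ Y (TMod.ofRep R) i y) = _
      rw [← h1, h2, map_smul]
    have h3 := h hx
    have h4 : G (x : I.Cx) = x := by
      refine Subtype.ext ?_
      rw [hG]
      exact mem_cpart_iff.1 x.2
    rw [Submodule.mem_comap, h4] at h3
    exact h3

/-- [KJ2] -/
theorem kj_Q (x : I.Cp 0) : I.kg.Q x = 0 ↔ I.QQ (x : I.Cx) = 0 := by
  rw [Subtype.ext_iff]
  rfl

end kin

end WPE
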