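import Pool.Agent.WPE.KOD

/-! WPE, block KO, row KO3: words and their filtration. -/

set_option autoImplicit false

namespace WPE

open MvPolynomial (X pderiv)

section words

variable {Λ ι V : Type} [AddCommGroup V] [Module ℂ V] (J : Λ → V →ₗ[ℂ] V)

theorem ko_Fx_mono (x : V) {k k' : ℕ} (h : k ≤ k') : Fx J x k ≤ Fx J x k' := by
  unfold Fx
  refine Submodule.span_mono ?_
  rintro y ⟨l, hl, rfl⟩
  exact ⟨l, lt_of_lt_of_le hl h, rfl⟩

theorem ko_FS_mono (x : ι → V) {k k' : ℕ} (h : k ≤ k') : FS J x k ≤ FS J x k' :=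
  iSup_mono fun i => ko_Fx_mono J (x i) h

theorem ko_Fx_zero (x : V) : Fx J x 0 = ⊥ := by
  unfold Fx
  rw [Submodule.span_eq_bot]
  rintro y ⟨l, hl, -⟩
  exact absurd hl (Nat.not_lt_zero _)

theorem ko_FS_zero (x : ι → V) : FS J x 0 = ⊥ := by
  unfold FS
  rw [iSup_eq_bot]
  exact fun i => ko_Fx_zero J (x i)

theorem ko_Fx_FS (x : ι → V) (i : ι) (k : ℕ) : Fx J (x i) k ≤ FS J x k :=
  le_iSup (fun i => Fx J (x i) k) i

theorem ko_wd_cons (a : Λ) (l : List Λ) (x : V) : wd J (a :: l) x = J a (wd J l x) := rfl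

theorem ko_wd_append (l l' : List Λ) (x : V) : wd J (l ++ l') x = wd J l (wd J l' x) := by
  unfold wd
  rw [List.foldr_append]

theorem ko_wd_mem (l : List Λ) (x : V) (k : ℕ) (h : l.length < k) : wd J l x ∈ Fx J x k :=
  Submodule.subset_span ⟨l, h, rfl⟩

theorem ko_J_Fx (a : Λ) (x : V) (k : ℕ) (y : V) (hy : y ∈ Fx J x k) :
    J a y ∈ Fx J x (k + 1) := by
  unfold Fx at hy
  induction hy using Submodule.span_induction with
  | mem y h =>
    obtain ⟨l, hl, rfl⟩ := h
    rw [← ko_wd_cons]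
    refine ko_wd_mem J _ x _ ?_
    rw [List.length_cons]
    omega
  | zero => rw [map_zero]; exact zero_mem _
  | add y z _ _ hy hz => rw [map_add]; exact add_mem hy hz
  | smul c y _ hy => rw [map_smul]; exact Submodule.smul_mem _ _ hy

theorem ko_J_FS (a : Λ) (x : ι → V) (k : ℕ) (y : V) (hy : y ∈ FS J x k) :
    J a y ∈ FS J x (k + 1) := by
  unfold FS at hy
  induction hy using Submodule.iSup_induction' with
  | mem i y h => exact ko_Fx_FS J x i _ (ko_J_Fx J a (x i) k y h)
  | zero => rw [map_zero]; exact zero_mem _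
  | add y z _ _ hy hz => rw [map_add]; exact add_mem hy hz

variable {J} {br : Λ → Λ → (Λ →₀ ℂ)} (hJ : IsLieFam J br)

include hJ

theorem ko_perm (x : V) (l l' : List Λ) (h : l.Perm l') :
    wd J l x - wd J l' x ∈ Fx J x l.length := by
  induction h with
  | nil => rw [sub_self]; exact zero_mem _
  | cons a _ ih =>
    rw [ko_wd_cons, ko_wd_cons, ← map_sub, List.length_cons]
    exact ko_J_Fx J a x _ _ ih
  | swap a b l =>
    rw [ko_wd_cons, ko_wd_cons, ko_wd_cons, ko_wd_cons, hJ b a, add_sub_cancel_left,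
      List.length_cons, List.length_cons]
    refine Submodule.sum_mem _ fun c _ => Submodule.smul_mem _ _ ?_
    rw [← ko_wd_cons]
    refine ko_wd_mem J _ x _ ?_
    rw [List.length_cons]
    omega
  | trans h1 _ ih1 ih2 =>
    have h3 := add_mem ih1 (by rw [h1.length_eq]; exact ih2 :
      _ ∈ Fx J x (List.length _))
    rwa [sub_add_sub_cancel] at h3

end words

end WPE
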