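import Pool.Agent.WPE.KO13
import Pool.Agent.WPE.KO3
set_option autoImplicit false
namespace WPE
open MvPolynomial (X pderiv)

namespace KO18

theorem gen {V : Type} [AddCommGroup V] [Module ℂ V] {A : V →ₗ[ℂ] V} (hA : IsEig A)
    {S : Set V} (hS : ∀ x, x ∈ Submodule.span ℂ S) (c : ℤ) (U : Submodule ℂ V)
    (hU : ∀ y ∈ S, ∃ c' : ℤ, y ∈ egr A c' ∧ (c' = c → y ∈ U)) : egr A c ≤ U := by
  intro x hx
  have key : ∀ z, pr A c z ∈ U := by
    intro z
    refine Submodule.span_induction (p := fun z _ => pr A c z ∈ U) ?_ ?_ ?_ ?_ (hS z)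
    · intro y hy
      obtain ⟨c', h1, h2⟩ := hU y hy
      by_cases hc : c' = c
      · subst hc
        rw [ko_pr_self hA _ _ h1]
        exact h2 rfl
      · rw [ko_pr_ne hA c c' (fun h => hc h.symm) y h1]
        exact U.zero_mem
    · simp
    · intro a b _ _ ha hb
      rw [map_add]
      exact U.add_mem ha hb
    · intro r a _ ha
      rw [map_smul]
      exact U.smul_mem r ha
  have := key x
  rwa [ko_pr_self hA c x hx] at this

theorem mem_span_of_FS {Λ ι V : Type} [AddCommGroup V] [Module ℂ V] (J : Λ → V →ₗ[ℂ] V)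
    (x : ι → V) (k : ℕ) (y : V) (hy : y ∈ FS J x k) :
    y ∈ Submodule.span ℂ {y | ∃ (l : List Λ) (i : ι), y = wd J l (x i)} := by
  have h : FS J x k ≤ Submodule.span ℂ {y | ∃ (l : List Λ) (i : ι), y = wd J l (x i)} := by
    unfold FS
    refine iSup_le fun i => ?_
    unfold Fx
    refine Submodule.span_mono ?_
    rintro y ⟨l, _, rfl⟩
    exact ⟨l, i, rfl⟩
  exact h hy

theorem egr_mem {V : Type} [AddCommGroup V] [Module ℂ V] {A : V →ₗ[ℂ] V} {c : ℤ} {x : V} :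
    x ∈ egr A c ↔ A x = (c : ℂ) • x := ko_mem_egr c x

theorem wd_egr {Λ V : Type} [AddCommGroup V] [Module ℂ V] (J : Λ → V →ₗ[ℂ] V)
    (A : V →ₗ[ℂ] V) (dl : Λ → ℤ) (hA : ∀ a x, A (J a x) = J a (A x) + (dl a : ℂ) • J a x)
    (x : V) (c : ℤ) (hx : x ∈ egr A c) (l : List Λ) :
    wd J l x ∈ egr A ((l.map dl).sum + c) := by
  induction l with
  | nil => simpa [wd] using hx
  | cons a l ih =>
    rw [ko_wd_cons]
    rw [egr_mem] at ih ⊢
    rw [hA, ih, map_smul, ← add_smul]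
    congr 1
    push_cast [List.map_cons, List.sum_cons]
    ring

theorem sum_ge {Λ : Type} (dl : Λ → ℤ) (h : ∀ a, 1 ≤ dl a) (l : List Λ) :
    (l.length : ℤ) ≤ (l.map dl).sum := by
  induction l with
  | nil => simp
  | cons a l ih =>
    have := h a
    simp only [List.map_cons, List.sum_cons, List.length_cons]
    push_cast
    linarith

end KO18

section deg

variable {T Z ν C0 C1 C2 : Type} [AddCommGroup C0] [Module ℂ C0] [AddCommGroup C1] [Module ℂ C1]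
  [AddCommGroup C2] [Module ℂ C2] (K : KG T Z ν C0 C1 C2)

theorem KO18.dl_pos (a : T ⊕ Z) : 1 ≤ K.dl a := by
  have h1 := K.cl_le a
  have h2 := K.cd_pos a
  linarith

theorem KO18.span0 (x : C0) :
    x ∈ Submodule.span ℂ {y | ∃ (l : List (T ⊕ Z)) (i : ν), y = wd K.J0 l (K.n i)} := by
  obtain ⟨k, hk⟩ := K.sp0 x
  exact KO18.mem_span_of_FS _ _ k x hk

theorem KO18.span1 (x : C1) :
    x ∈ Submodule.span ℂ {y | ∃ (l : List (T ⊕ Z)) (i : T × ν),
      y = wd K.J1 l (K.p0 i.1 (K.n i.2))} := by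
  obtain ⟨k, hk⟩ := K.sp1 x
  exact KO18.mem_span_of_FS _ _ k x hk

theorem KO18.deg0 (l : List (T ⊕ Z)) (i : ν) :
    wd K.J0 l (K.n i) ∈ egr K.S0 ((l.map K.dl).sum + (K.top - K.cn i)) :=
  KO18.wd_egr K.J0 K.S0 K.dl K.S0J _ _ (KO18.egr_mem.2 (K.S0n i)) l

theorem KO18.deg1 (l : List (T ⊕ Z)) (t : T) (i : ν) :
    wd K.J1 l (K.p0 t (K.n i)) ∈
      egr K.S1 ((l.map K.dl).sum + (K.dp t + (K.top - K.cn i))) := by
  refine KO18.wd_egr K.J1 K.S1 K.dl K.S1J _ _ ?_ l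
  rw [KO18.egr_mem, K.S1p, K.S0n, map_smul, ← add_smul]
  congr 1
  push_cast
  ring

theorem ko_Sneg (d : ℤ) (hd : d < 0) : egr K.S0 d = ⊥ := by
  rw [eq_bot_iff]
  refine KO18.gen (ko_eS0 K) (KO18.span0 K) d ⊥ ?_
  rintro y ⟨l, i, rfl⟩
  refine ⟨_, KO18.deg0 K l i, fun h => ?_⟩
  exfalso
  have h1 := KO18.sum_ge K.dl (KO18.dl_pos K) l
  have h2 := K.cn_le i
  have h3 : (0 : ℤ) ≤ l.length := Int.natCast_nonneg _
  linarith

theorem ko_S0 : egr K.S0 0 = Submodule.span ℂ {y | ∃ i, K.cn i = K.top ∧ y = K.n i} := by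
  refine le_antisymm ?_ ?_
  · refine KO18.gen (ko_eS0 K) (KO18.span0 K) 0 _ ?_
    rintro y ⟨l, i, rfl⟩
    refine ⟨_, KO18.deg0 K l i, fun h => ?_⟩
    have h1 := KO18.sum_ge K.dl (KO18.dl_pos K) l
    have h2 := K.cn_le i
    have h3 : (0 : ℤ) ≤ l.length := Int.natCast_nonneg _
    have h4 : l.length = 0 := by
      have : (l.length : ℤ) ≤ 0 := by linarith
      omega
    have h5 : l = [] := List.length_eq_zero_iff.1 h4
    subst h5
    refine Submodule.subset_span ⟨i, ?_, rfl⟩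
    simp only [List.map_nil, List.sum_nil] at h
    linarith
  · rw [Submodule.span_le]
    rintro y ⟨i, hi, rfl⟩
    have := K.S0n i
    rw [hi, sub_self] at this
    exact KO18.egr_mem.2 this

theorem ko_S10 (d : ℤ) (hd : d ≤ 0) : egr K.S1 d = ⊥ := by
  rw [eq_bot_iff]
  refine KO18.gen (ko_eS1 K) (KO18.span1 K) d ⊥ ?_
  rintro y ⟨l, ⟨t, i⟩, rfl⟩
  refine ⟨_, KO18.deg1 K l t i, fun h => ?_⟩
  exfalso
  have h1 := KO18.sum_ge K.dl (KO18.dl_pos K) l
  have h2 := K.cn_le i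
  have h3 : (0 : ℤ) ≤ l.length := Int.natCast_nonneg _
  have h4 := K.dp_pos t
  linarith

theorem ko_KQ0 : K.KQ 0 = Submodule.span ℂ {y | ∃ i, K.cn i = K.top ∧ y = K.n i} := by
  rw [← ko_S0 K]
  unfold KG.KQ
  refine le_antisymm inf_le_right (le_inf ?_ le_rfl)
  intro x hx
  have h := ko_SQ K 0 x hx
  rw [ko_S10 K 0 le_rfl, Submodule.mem_bot] at h
  exact LinearMap.mem_ker.2 h

theorem ko_KQ_sum (x : C0) (hx : K.Q x = 0) :
    ∃ s : Finset ℕ, (∀ d, pr K.S0 (d : ℤ) x ∈ K.KQ d) ∧ x = ∑ d ∈ s, pr K.S0 (d : ℤ) x := by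
  classical
  obtain ⟨s, h1, h2⟩ := ko_pr_sum (ko_eS0 K) x
  have hpos : ∀ c : ℤ, c < 0 → pr K.S0 c x = 0 := by
    intro c hc
    have := ko_pr_mem (ko_eS0 K) c x
    rw [ko_Sneg K c hc, Submodule.mem_bot] at this
    exact this
  refine ⟨(s.filter (fun c => 0 ≤ c)).image Int.toNat, ?_, ?_⟩
  · intro d
    refine Submodule.mem_inf.2 ⟨LinearMap.mem_ker.2 ?_, ko_pr_mem (ko_eS0 K) d x⟩
    have h := ko_pr_map (ko_eS0 K) (ko_eS1 K) K.Q 0 (by
      intro y
      simp only [KG.Q, LinearMap.add_apply, map_add, K.S1D, K.S1Q]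
      simp) (d : ℤ) x
    rw [← h, hx, map_zero]
  · rw [Finset.sum_image]
    · have h3 : ∀ c ∈ s.filter (fun c : ℤ => 0 ≤ c),
          pr K.S0 ((c.toNat : ℕ) : ℤ) x = pr K.S0 c x := by
        intro c hc
        rw [Int.toNat_of_nonneg (Finset.mem_filter.1 hc).2]
      rw [Finset.sum_congr rfl h3, Finset.sum_filter]
      conv_lhs => rw [h2]
      refine Finset.sum_congr rfl fun c _ => ?_
      by_cases hc : 0 ≤ c
      · rw [if_pos hc]
      · rw [if_neg hc]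
        exact hpos c (not_le.1 hc)
    · intro a ha b hb hab
      have ha' := (Finset.mem_filter.1 ha).2
      have hb' := (Finset.mem_filter.1 hb).2
      have := congrArg (fun n : ℕ => (n : ℤ)) hab
      simpa [Int.toNat_of_nonneg ha', Int.toNat_of_nonneg hb'] using this

end deg

end WPE
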