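import Pool.Agent.WPE.BR6
import Pool.Agent.WPE.KJ2
import Pool.Agent.WPE.KO18

/-! WPE, block KJ: row KJ7, degree zero, negative degrees, sum of the homogeneous parts. -/

set_option linter.unusedSectionVars false

namespace WPE

open scoped TensorProduct

section kin

variable {B : Type} [LieRing B] [LieAlgebra ℂ B] {κ : B →ₗ[ℂ] B →ₗ[ℂ] ℂ}
  {Y : Type} [AddCommGroup Y] [Module ℂ Y] [LieRingModule B Y] [LieModule ℂ B Y]
  {N : Type} [AddCommGroup N] [Module ℂ N] {R : LRep B N} {β ζ ν : Type}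
  (I : KIn κ Y R β ζ ν)

namespace KJr7

theorem mem_KQ (d : ℤ) (x : I.Cp 0) : x ∈ I.kg.KQ d ↔
    (x : I.Cx) ∈ I.Cp 0 ⊓ LinearMap.ker I.QQ ⊓ egr I.S d := by
  constructor
  · rintro ⟨h1, h2⟩
    exact ⟨⟨x.2, LinearMap.mem_ker.2 ((kj_Q I x).1 (LinearMap.mem_ker.1 h1))⟩,
      (kj_egr_S I 0 d x).1 h2⟩
  · rintro ⟨⟨_, h1⟩, h2⟩
    exact ⟨LinearMap.mem_ker.2 ((kj_Q I x).2 (LinearMap.mem_ker.1 h1)),
      (kj_egr_S I 0 d x).2 h2⟩

end KJr7

/-- [KJ7] Degree `0`. -/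
theorem kj_zero (x : I.Cx) (hx : x ∈ I.Cp 0 ⊓ LinearMap.ker I.QQ ⊓ egr I.S 0) :
    ∃ v : N, R.ρ I.rho v = (I.top : ℂ) • v ∧ x = i0 κ Y R v := by
  have h1 : (⟨x, hx.1.1⟩ : I.Cp 0) ∈ I.kg.KQ 0 := (KJr7.mem_KQ I 0 ⟨x, hx.1.1⟩).2 hx
  rw [ko_KQ0] at h1
  have key : ∀ y : I.Cp 0, y ∈ Submodule.span ℂ {y | ∃ i, I.kg.cn i = I.kg.top ∧ y = I.kg.n i} →
      ∃ v : N, R.ρ I.rho v = (I.top : ℂ) • v ∧ (y : I.Cx) = i0 κ Y R v := by
    intro y hy
    induction hy using Submodule.span_induction with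
    | mem y hy =>
      obtain ⟨i, hi, rfl⟩ := hy
      have hi' : I.cn i = I.top := hi
      refine ⟨I.n i, ?_, rfl⟩
      rw [I.rho_n, hi']
    | zero => exact ⟨0, by rw [map_zero, smul_zero], by rw [map_zero]; rfl⟩
    | add y z _ _ hy hz =>
      obtain ⟨v, hv, hyv⟩ := hy
      obtain ⟨w, hw, hzw⟩ := hz
      refine ⟨v + w, by rw [map_add, hv, hw, smul_add], ?_⟩
      rw [map_add, ← hyv, ← hzw]
      rfl
    | smul a y _ hy =>
      obtain ⟨v, hv, hyv⟩ := hy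
      refine ⟨a • v, by rw [map_smul, hv, smul_comm], ?_⟩
      rw [map_smul, ← hyv]
      rfl
  exact key _ h1

/-- [KJ7] -/
theorem kj_zero' (v : N) (hv : R.ρ I.rho v = (I.top : ℂ) • v) :
    i0 κ Y R v ∈ I.Cp 0 ⊓ LinearMap.ker I.QQ ⊓ egr I.S 0 := by
  have hmem : i0 κ Y R v ∈ I.Cp 0 := (br_C κ Y R).i0_mem v
  have h1 : ∀ i, I.n.repr v i ≠ 0 → I.cn i = I.top := by
    intro i hi
    have h2 : R.ρ I.rho v = (I.n.repr v).sum fun i a => (a * (I.cn i : ℂ)) • I.n i := by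
      conv_lhs => rw [← I.n.linearCombination_repr v, Finsupp.linearCombination_apply]
      unfold Finsupp.sum
      rw [map_sum]
      exact Finset.sum_congr rfl fun i _ => by rw [map_smul, I.rho_n, smul_smul]
    have h3 : I.n.repr (R.ρ I.rho v) i = I.n.repr v i * (I.cn i : ℂ) := by
      rw [h2]
      unfold Finsupp.sum
      rw [map_sum, Finsupp.finsetSum_apply, Finset.sum_eq_single i]
      · rw [map_smul, Finsupp.smul_apply, Module.Basis.repr_self, Finsupp.single_eq_same,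
          smul_eq_mul, mul_one]
      · intro k _ hk
        rw [map_smul, Finsupp.smul_apply, Module.Basis.repr_self,
          Finsupp.single_eq_of_ne (Ne.symm hk), smul_zero]
      · intro hk
        rw [Finsupp.notMem_support_iff.1 hk]
        simp
    rw [hv, map_smul, Finsupp.smul_apply, smul_eq_mul, mul_comm] at h3
    have h4 := mul_left_cancel₀ hi h3
    exact_mod_cast h4.symm
  have h5 : (⟨i0 κ Y R v, hmem⟩ : I.Cp 0) ∈ I.kg.KQ 0 := by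
    rw [ko_KQ0]
    have h6 : (⟨i0 κ Y R v, hmem⟩ : I.Cp 0) = ∑ i ∈ (I.n.repr v).support,
        I.n.repr v i • I.nr i := by
      apply Subtype.ext
      rw [AddSubmonoidClass.coe_finsetSum]
      show i0 κ Y R v = ∑ i ∈ (I.n.repr v).support, I.n.repr v i • i0 κ Y R (I.n i)
      conv_lhs => rw [← I.n.linearCombination_repr v, Finsupp.linearCombination_apply]
      unfold Finsupp.sum
      rw [map_sum]
      exact Finset.sum_congr rfl fun i _ => map_smul _ _ _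
    rw [h6]
    refine Submodule.sum_mem _ fun i hi => Submodule.smul_mem _ _ (Submodule.subset_span ?_)
    exact ⟨i, h1 i (Finsupp.mem_support_iff.1 hi), rfl⟩
  exact (KJr7.mem_KQ I 0 ⟨i0 κ Y R v, hmem⟩).1 h5

/-- [KJ7] -/
theorem kj_neg (d : ℤ) (hd : d < 0) (x : I.Cx) (hx : x ∈ I.Cp 0) (hx' : x ∈ egr I.S d) :
    x = 0 := by
  have h1 : (⟨x, hx⟩ : I.Cp 0) ∈ egr I.kg.S0 d := (kj_egr_S I 0 d ⟨x, hx⟩).2 hx'
  rw [ko_Sneg I.kg d hd, Submodule.mem_bot] at h1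
  exact congrArg Subtype.val h1

/-- [KJ7] -/
theorem kj_sum (x : I.Cx) (hx : x ∈ I.Cp 0) (hQ : I.QQ x = 0) :
    ∃ (s : Finset ℕ) (f : ℕ → I.Cx),
      (∀ d : ℕ, f d ∈ I.Cp 0 ⊓ LinearMap.ker I.QQ ⊓ egr I.S (d : ℤ)) ∧ x = ∑ d ∈ s, f d := by
  obtain ⟨s, h1, h2⟩ := ko_KQ_sum I.kg ⟨x, hx⟩ ((kj_Q I ⟨x, hx⟩).2 hQ)
  refine ⟨s, fun d => ((pr I.kg.S0 (d : ℤ) ⟨x, hx⟩ : I.Cp 0) : I.Cx),
    fun d => (KJr7.mem_KQ I d _).1 (h1 d), ?_⟩
  have h3 := congrArg Subtype.val h2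
  rw [AddSubmonoidClass.coe_finsetSum] at h3
  exact h3

end kin

end WPE
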