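import Pool.Agent.WPE.KJ11
import Pool.Agent.WPE.KJ7
import Pool.Agent.WPE.LA10

/-! WPE, block KJ: row KJ14, degree zero and the sum of the homogeneous parts for Lie data. -/

set_option linter.unusedSectionVars false

namespace WPE

open scoped TensorProduct

variable {g β η : Type} [LieRing g] [LieAlgebra ℂ g] [Fintype β] [DecidableEq β] [Fintype η]
  [DecidableEq η] (L : LD g β η) (c : ℂ)

variable {N : Type} [AddCommGroup N] [Module ℂ N] (M : QN (L.qd c) N) (hM : M.Ok)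
  {Q0 : CC (L.kb c) L.nL (TMod.ofRep M.R) →ₗ[ℂ] CC (L.kb c) L.nL (TMod.ofRep M.R)}
  (h : IsQ0 (L.kb c) M Q0)

namespace KJr14

include hM h in
/-- The instance of block KI. -/
theorem Internal.exists_kin (top : ℤ) (hG : L.KGr M.R top) :
    ∃ (ν : Type) (I : KIn (L.kb c) L.nL M.R β η ν), I.Q0 = Q0 ∧ I.F = (L.qd c).F ∧
      I.rho = L.krho ∧ I.top = top := by
  obtain ⟨z, m, hz1, hz2, hz3, hz4, _, _⟩ := la_exp L
  obtain ⟨K, _, _⟩ := kj_KB L z m hz1 hz2 hz3 hz4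
  obtain ⟨ν, n, cn, hcn, hn⟩ := kj_nbasis L M.R top hG
  exact ⟨ν, LD.kin K c M hM Q0 h n cn top hcn hn, rfl, rfl, rfl, rfl⟩

export Internal (exists_kin)

theorem QQ_eq {ν : Type} (I : KIn (L.kb c) L.nL M.R β η ν) (e1 : I.Q0 = Q0)
    (e2 : I.F = (L.qd c).F) : (L.qd c).Qd Q0 = I.QQ :=
  congrArg₂ (fun (q : CC (L.kb c) L.nL (TMod.ofRep M.R) →ₗ[ℂ] CC (L.kb c) L.nL (TMod.ofRep M.R))
    (f : L.nL) => q + (cmod (L.kb c) L.nL (TMod.ofRep M.R)).ψ 0 f) e1.symm e2.symm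

theorem Internal.KQ_eq {ν : Type} (I : KIn (L.kb c) L.nL M.R β η ν) (h1 : I.Q0 = Q0)
    (h2 : I.F = (L.qd c).F) (h3 : I.rho = L.krho) {top : ℤ} (h4 : I.top = top) (d : ℤ) :
    L.KQ c M.R Q0 top d = I.Cp 0 ⊓ LinearMap.ker I.QQ ⊓ egr I.S d := by
  have h5 : L.kS c M.R top = I.S :=
    congrArg₂ (fun (r : L.bL) (t : ℤ) => (cen 0 (isEnergy_zero M.R) -
      (cmod (L.kb c) L.nL (TMod.ofRep M.R)).J 0 r + (t : ℂ) • LinearMap.id :
        CC (L.kb c) L.nL (TMod.ofRep M.R) →ₗ[ℂ] CC (L.kb c) L.nL (TMod.ofRep M.R)))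
      h3.symm h4.symm
  exact congrArg₂ (fun q s : CC (L.kb c) L.nL (TMod.ofRep M.R) →ₗ[ℂ]
      CC (L.kb c) L.nL (TMod.ofRep M.R) => cpart (L.kb c) L.nL (TMod.ofRep M.R) 0 ⊓
        LinearMap.ker q ⊓ egr s d) (KJr14.QQ_eq L c M I h1 h2) h5

export Internal (KQ_eq)

end KJr14

include hM h in
/-- [KJ14] [KO-0] Degree `0`. -/
theorem Internal.kj_KQ0 (top : ℤ) (hG : L.KGr M.R top) (x : CC (L.kb c) L.nL (TMod.ofRep M.R)) :
    x ∈ L.KQ c M.R Q0 top 0 ↔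
      ∃ v : N, M.R.ρ L.krho v = (top : ℂ) • v ∧ x = i0 (L.kb c) L.nL M.R v := by
  obtain ⟨ν, I, h1, h2, h3, h4⟩ := KJr14.exists_kin L c M hM h top hG
  rw [KJr14.KQ_eq L c M I h1 h2 h3 h4, ← h3, ← h4]
  constructor
  · exact fun hx => kj_zero I x hx
  · rintro ⟨v, hv, rfl⟩
    exact kj_zero' I v hv

export Internal (kj_KQ0)

include hM h in
/-- [KJ14] Negative degrees. -/
theorem Internal.kj_KQneg (top : ℤ) (hG : L.KGr M.R top) (d : ℤ) (hd : d < 0) :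
    L.KQ c M.R Q0 top d = ⊥ := by
  obtain ⟨ν, I, h1, h2, h3, h4⟩ := KJr14.exists_kin L c M hM h top hG
  rw [KJr14.KQ_eq L c M I h1 h2 h3 h4, eq_bot_iff]
  intro x hx
  exact (Submodule.mem_bot ℂ).2 (kj_neg I d hd x hx.1.1 hx.2)

export Internal (kj_KQneg)

include hM h in
/-- [KJ14] [KO-S] `ker Q ∩ C⁰` is the sum of its homogeneous parts. -/
theorem Internal.kj_KQsum (top : ℤ) (hG : L.KGr M.R top) (x : CC (L.kb c) L.nL (TMod.ofRep M.R))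
    (hx : x ∈ cpart (L.kb c) L.nL (TMod.ofRep M.R) 0) (hQ : (L.qd c).Qd Q0 x = 0) :
    ∃ (s : Finset ℕ) (f : ℕ → CC (L.kb c) L.nL (TMod.ofRep M.R)),
      (∀ d : ℕ, f d ∈ L.KQ c M.R Q0 top (d : ℤ)) ∧ x = ∑ d ∈ s, f d := by
  obtain ⟨ν, I, h1, h2, h3, h4⟩ := KJr14.exists_kin L c M hM h top hG
  have e1 : (L.qd c).Qd Q0 = I.QQ := KJr14.QQ_eq L c M I h1 h2
  rw [e1] at hQ
  obtain ⟨s, f, hf, hs⟩ := kj_sum I x hx hQ
  refine ⟨s, f, fun d => ?_, hs⟩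
  rw [KJr14.KQ_eq L c M I h1 h2 h3 h4]
  exact hf d

export Internal (kj_KQsum)

end WPE
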