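import Pool.Agent.WPE.KID
import Pool.Agent.WPE.KOD
import Pool.Agent.WPE.MID

/-! WPE, block MI: degree parts of `ker Q`, lifts. -/

namespace WPE

open scoped TensorProduct

noncomputable section

namespace LD

variable {g β η : Type} [LieRing g] [LieAlgebra ℂ g] [Fintype β] [DecidableEq β] [Fintype η]
  [DecidableEq η] (L : LD g β η)

/-- The operator of the degree: `cen - J_rho(0) + top`. -/
def Dop (κ : ℂ) {N : Type} [AddCommGroup N] [Module ℂ N] (R : LRep L.bL N) (top : ℤ) :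
    CC (L.kb κ) L.nL (TMod.ofRep R) →ₗ[ℂ] CC (L.kb κ) L.nL (TMod.ofRep R) :=
  cen 0 (isEnergy_zero R) - (cmod (L.kb κ) L.nL (TMod.ofRep R)).J 0 L.rhoB +
    (top : ℂ) • LinearMap.id

/-- The part of degree `D` of `ker Q ∩ C⁰`. -/
def KD (κ : ℂ) {N : Type} [AddCommGroup N] [Module ℂ N] (R : LRep L.bL N) (top : ℤ)
    (Q : CC (L.kb κ) L.nL (TMod.ofRep R) →ₗ[ℂ] CC (L.kb κ) L.nL (TMod.ofRep R)) (D : ℤ) :
    Submodule ℂ (CC (L.kb κ) L.nL (TMod.ofRep R)) :=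
  cpart (L.kb κ) L.nL (TMod.ofRep R) 0 ⊓ LinearMap.ker Q ⊓ egr (L.Dop κ R top) D

/-- `w ∈ ker Q` is homogeneous of degree `m + 1` with lowest component `J_z(-1) 1`. -/
structure Lift (κ : ℂ)
    (Q : VC (L.kb κ) L.nL →ₗ[ℂ] VC (L.kb κ) L.nL) (z : L.bL) (m : ℕ)
    (w : VC (L.kb κ) L.nL) : Prop where
  mem : w ∈ cpart (L.kb κ) L.nL (TMod.triv L.bL) 0
  ker : Q w = 0
  deg : L.Dop κ (LRep.triv L.bL) 0 w = ((m : ℂ) + 1) • w
  low : w - (cmod (L.kb κ) L.nL (TMod.triv L.bL)).J (-1) z (cvac _ _) ∈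
    GE ((cmod (L.kb κ) L.nL (TMod.triv L.bL)).J 0 L.rhoB) (-(m : ℤ) + 1)

end LD

end

end WPE
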