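import Pool.Agent.WPE.BR18
import Pool.Agent.WPE.KJ12
import Pool.Agent.WPE.KJ13
import Pool.Agent.WPE.KJ14
import Pool.Agent.WPE.MIG

/-! WPE, block MI: the results on `ker Q` of block KJ in the form used in block MI. -/

set_option linter.unusedSectionVars false

namespace WPE

open scoped TensorProduct

variable {g β η : Type} [LieRing g] [LieAlgebra ℂ g] [Fintype β] [DecidableEq β] [Fintype η]
  [DecidableEq η] (L : LD g β η) (κ : ℂ)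

theorem MIK.pibF : L.pib L.F = L.FB := by
  apply Subtype.ext
  exact (la_P L).Pb_bm _ (L.nm_le_bm L.F_nm)

theorem MIK.Internal.lift {Q1 : VC (L.kb κ) L.nL →ₗ[ℂ] VC (L.kb κ) L.nL} {z : L.bL} {m : ℕ}
    {w : VC (L.kb κ) L.nL} (h : L.IsW κ Q1 z m w) :
    L.Lift κ ((L.qd κ).Qd (R := LRep.triv L.bL) Q1) z m w where
  mem := h.mem
  ker := h.ker
  deg := h.deg
  low := h.low

namespace MIK

export Internal (lift)

end MIK

theorem MIK.Internal.isW {Q1 : VC (L.kb κ) L.nL →ₗ[ℂ] VC (L.kb κ) L.nL} {z : L.bL} {m : ℕ}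
    {w : VC (L.kb κ) L.nL}
    (h : L.Lift κ ((L.qd κ).Qd (R := LRep.triv L.bL) Q1) z m w) : L.IsW κ Q1 z m w where
  mem := h.mem
  ker := h.ker
  deg := h.deg
  low := h.low

namespace MIK

export Internal (isW)

end MIK

/-- [MK1] Lifts exist. -/
theorem Internal.mk_lift {Q1 : VC (L.kb κ) L.nL →ₗ[ℂ] VC (L.kb κ) L.nL}
    (h1 : IsQ0 (L.kb κ) (QN.one (L.qd κ)) Q1) (z : L.bL) (m : ℕ) (hz : ⁅L.F, (z : g)⁆ = 0)
    (hg : (z : g) ∈ L.gr (-(m : ℤ))) :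
    ∃ w, L.Lift κ ((L.qd κ).Qd (R := LRep.triv L.bL) Q1) z m w := by
  obtain ⟨w, hw⟩ := kj_exists L κ h1 z m hz hg
  exact ⟨w, MIK.lift L κ hw⟩

export Internal (mk_lift)

variable {N : Type} [AddCommGroup N] [Module ℂ N] [LieRingModule g N] [LieModule ℂ g N]

theorem MIK.gr {top : ℤ} (hgr : L.Gr N top) : L.KGr (L.rep N) top := hgr

theorem MIK.Internal.KD_eq (top : ℤ) (Q0 : CC (L.kb κ) L.nL (TMod.ofRep (L.rep N)) →ₗ[ℂ]
      CC (L.kb κ) L.nL (TMod.ofRep (L.rep N))) (D : ℤ) :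
    L.KD κ (L.rep N) top ((L.qd κ).Qd Q0) D = L.KQ κ (L.rep N) Q0 top D := rfl

namespace MIK

export Internal (KD_eq)

end MIK

/-- [MK2] `ker Q ∩ C⁰` is the sum of its homogeneous parts. -/
theorem Internal.mk_sum (top : ℤ) (hgr : L.Gr N top)
    {Q0 : CC (L.kb κ) L.nL (TMod.ofRep (L.rep N)) →ₗ[ℂ]
      CC (L.kb κ) L.nL (TMod.ofRep (L.rep N))} (h0 : IsQ0 (L.kb κ) (L.qn N κ) Q0)
    (x : CC (L.kb κ) L.nL (TMod.ofRep (L.rep N)))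
    (hx : x ∈ cpart (L.kb κ) L.nL (TMod.ofRep (L.rep N)) 0) (hQ : (L.qd κ).Qd Q0 x = 0) :
    x ∈ ⨆ D : ℕ, L.KD κ (L.rep N) top ((L.qd κ).Qd Q0) D := by
  obtain ⟨s, f, hf, rfl⟩ := kj_KQsum L κ (L.qn N κ) (br_qn L κ N) h0 top hgr x hx hQ
  exact Submodule.sum_mem _ fun d _ => Submodule.mem_iSup_of_mem d (hf d)

export Internal (mk_sum)

/-- [MK3] The part of degree `0`. -/
theorem Internal.mk_zero (top : ℤ) (hgr : L.Gr N top)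
    {Q0 : CC (L.kb κ) L.nL (TMod.ofRep (L.rep N)) →ₗ[ℂ]
      CC (L.kb κ) L.nL (TMod.ofRep (L.rep N))} (h0 : IsQ0 (L.kb κ) (L.qn N κ) Q0) :
    L.KD κ (L.rep N) top ((L.qd κ).Qd Q0) 0 ≤
      (L.wsp N top).map (i0 (L.kb κ) L.nL (L.rep N)) := by
  intro x hx
  obtain ⟨v, hv, hxv⟩ :=
    (kj_KQ0 L κ (L.qn N κ) (br_qn L κ N) h0 top hgr x).1 hx
  exact ⟨v, hv, hxv.symm⟩

export Internal (mk_zero)

/-- The supremum of the images is contained in the span. -/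
theorem MIK.span_le {V : Type} [AddCommGroup V] [Module ℂ V] {η : Type}
    (K : ℕ × η → Submodule ℂ V) (f : ℕ × η → V →ₗ[ℂ] V) {x : V}
    (hx : x ∈ ⨆ p : ℕ × η, (K p).map (f p)) :
    x ∈ Submodule.span ℂ {v | ∃ (i : η) (s : ℕ), ∃ u ∈ K (s, i), v = f (s, i) u} := by
  refine (iSup_le ?_ : (⨆ p : ℕ × η, (K p).map (f p)) ≤ _) hx
  rintro ⟨s, i⟩ _ ⟨u, hu, rfl⟩
  exact Submodule.subset_span ⟨i, s, u, hu, rfl⟩

/-- [MK4] The recursion. -/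
theorem Internal.mk_rec (top : ℤ) (hgr : L.Gr N top)
    {Q0 : CC (L.kb κ) L.nL (TMod.ofRep (L.rep N)) →ₗ[ℂ]
      CC (L.kb κ) L.nL (TMod.ofRep (L.rep N))} (h0 : IsQ0 (L.kb κ) (L.qn N κ) Q0)
    {Q1 : VC (L.kb κ) L.nL →ₗ[ℂ] VC (L.kb κ) L.nL}
    (h1 : IsQ0 (L.kb κ) (QN.one (L.qd κ)) Q1)
    (z : η → L.bL) (m : η → ℕ) (hz : ∀ i, (z i : g) ∈ L.zc)
    (hg : ∀ i, (z i : g) ∈ L.gr (-(m i : ℤ)))
    (hli : LinearIndependent ℂ fun i => (z i : g))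
    (hsp : Submodule.span ℂ (Set.range fun i => (z i : g)) = L.zc)
    (w : η → VC (L.kb κ) L.nL)
    (hw : ∀ i, L.Lift κ ((L.qd κ).Qd (R := LRep.triv L.bL) Q1) (z i) (m i) (w i))
    (wF : VC (L.kb κ) L.nL)
    (hwF : L.Lift κ ((L.qd κ).Qd (R := LRep.triv L.bL) Q1) L.FB 1 wF) (D : ℕ) (hD : 1 ≤ D)
    (hs : ∀ y ∈ L.wsp N (top - D), ∃ x ∈ L.wsp N (top - D + 1), ⁅L.F, x⁆ = y)
    (x : CC (L.kb κ) L.nL (TMod.ofRep (L.rep N)))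
    (hx : x ∈ L.KD κ (L.rep N) top ((L.qd κ).Qd Q0) D) :
    ∃ y ∈ L.KD κ (L.rep N) top ((L.qd κ).Qd Q0) ((D : ℤ) - 1),
      x - ((cmod (L.kb κ) L.nL (TMod.ofRep (L.rep N))).Yh wF).1 0 y ∈ Submodule.span ℂ
        {v | ∃ (i : η) (s : ℕ), ∃ u ∈ L.KD κ (L.rep N) top ((L.qd κ).Qd Q0)
          ((D : ℤ) - (m i + 1) - s),
          v = ((cmod (L.kb κ) L.nL (TMod.ofRep (L.rep N))).Yh (w i)).1 (-1 - (s : ℤ)) u} := by
  have hWF : L.IsW κ Q1 (L.pib L.F) 1 wF := by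
    rw [MIK.pibF]
    exact MIK.isW L κ hwF
  have hs' : ∀ v : N, (L.rep N).ρ L.krho v = ((top - (D : ℤ) : ℤ) : ℂ) • v →
      ∃ u : N, (L.rep N).ρ L.krho u = ((top - (D : ℤ) + 1 : ℤ) : ℂ) • u ∧
        (L.rep N).ρ (L.pib L.F) u = v := fun v hv =>
    Exists.elim (hs v hv) fun u hu => ⟨u, hu.1, by
      rw [MIK.pibF]
      exact hu.2⟩
  exact Exists.elim (kj_R L κ (L.qn N κ) (br_qn L κ N) h0 h1 z m hz hg hli hsp w
    (fun i => MIK.isW L κ (hw i)) wF hWF top hgr (D : ℤ) hs' x hx) fun y hy =>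
      ⟨y, hy.1, MIK.span_le (fun p => L.KQ κ (L.rep N) Q0 top ((D : ℤ) - ((m p.2 : ℤ) + 1) - p.1))
        (fun p => ((cmod (L.kb κ) L.nL (TMod.ofRep (L.rep N))).Yh (w p.2)).1 (-1 - (p.1 : ℤ)))
        hy.2⟩

export Internal (mk_rec)

end WPE
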