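import Pool.Agent.WPE.LDB
import Pool.Agent.WPQ.AFD
set_option linter.unusedSectionVars false
namespace WPE
open scoped TensorProduct
open MvPolynomial WPQ

namespace MIR15

section
variable {g η : Type} [LieRing g] [LieAlgebra ℂ g] [Fintype η] [DecidableEq η] (L : LD g Unit η)
variable (N : Type) [AddCommGroup N] [Module ℂ N] [LieRingModule g N] [LieModule ℂ g N]

/-- `F^i v₀` -/
def u (v0 : N) : ℕ → N
  | 0 => v0
  | i + 1 => ⁅L.F, u v0 i⁆

theorem rho_u (v0 : N) (top : ℤ) (ht : ⁅L.rho, v0⁆ = (top : ℂ) • v0) (i : ℕ) :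
    ⁅L.rho, u L N v0 i⁆ = ((top - i : ℤ) : ℂ) • u L N v0 i := by
  induction i with
  | zero => simpa [u] using ht
  | succ i ih =>
    show ⁅L.rho, ⁅L.F, u L N v0 i⁆⁆ = _ • ⁅L.F, u L N v0 i⁆
    rw [leibniz_lie, L.rho_F, ih, smul_lie, lie_smul, ← add_smul]
    congr 1
    push_cast
    ring

theorem u_span (hF : L.F = L.f ()) (v0 : N) (lam : η → ℂ) (H : L.HW N v0 lam) :
    Submodule.span ℂ (Set.range (u L N v0)) = ⊤ := by
  refine H.gen _ (Submodule.subset_span ⟨0, rfl⟩) ?_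
  rintro ⟨⟩ x hx
  induction hx using Submodule.span_induction with
  | mem x hx =>
    obtain ⟨i, rfl⟩ := hx
    refine Submodule.subset_span ⟨i + 1, ?_⟩
    show ⁅L.F, u L N v0 i⁆ = _
    rw [hF]
  | zero => rw [lie_zero]; exact zero_mem _
  | add y z _ _ hy hz => rw [lie_add]; exact add_mem hy hz
  | smul a y _ hy => rw [lie_smul]; exact Submodule.smul_mem _ _ hy

/-- An element of weight `c` is a combination of the `F^i v₀` of weight `c`. -/
theorem wsp_span (hF : L.F = L.f ()) (v0 : N) (lam : η → ℂ) (H : L.HW N v0 lam) (top : ℤ)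
    (ht : ⁅L.rho, v0⁆ = (top : ℂ) • v0) (c : ℤ) (y : N) (hy : y ∈ L.wsp N c) :
    y ∈ Submodule.span ℂ {x | ∃ i : ℕ, top - i = c ∧ x = u L N v0 i} := by
  let T : Module.End ℂ N :=
    { toFun := fun x => ⁅L.rho, x⁆
      map_add' := fun x y => lie_add _ _ _
      map_smul' := fun a x => lie_smul _ _ _ }
  have hT : ∀ (d : ℂ) (x : N), x ∈ Module.End.eigenspace T d ↔ ⁅L.rho, x⁆ = d • x := by
    intro d x
    rw [Module.End.mem_eigenspace_iff]
    rfl
  have hind := Module.End.eigenspaces_iSupIndep T (c : ℂ)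
  have hyt : y ∈ Submodule.span ℂ {x | ∃ i : ℕ, top - i = c ∧ x = u L N v0 i} ⊔
      (⨆ (d : ℂ), ⨆ (_ : d ≠ (c : ℂ)), Module.End.eigenspace T d) := by
    have h1 : Submodule.span ℂ (Set.range (u L N v0)) ≤
        Submodule.span ℂ {x | ∃ i : ℕ, top - i = c ∧ x = u L N v0 i} ⊔
      (⨆ (d : ℂ), ⨆ (_ : d ≠ (c : ℂ)), Module.End.eigenspace T d) := by
      rw [Submodule.span_le]
      rintro _ ⟨i, rfl⟩
      by_cases hi : top - i = c
      · exact Submodule.mem_sup_left (Submodule.subset_span ⟨i, hi, rfl⟩)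
      · refine Submodule.mem_sup_right ?_
        refine Submodule.mem_iSup_of_mem (((top - i : ℤ)) : ℂ) ?_
        refine Submodule.mem_iSup_of_mem (by exact_mod_cast hi) ?_
        rw [hT]
        exact rho_u L N v0 top ht i
    rw [u_span L N hF v0 lam H] at h1
    exact h1 Submodule.mem_top
  obtain ⟨a, ha, b, hb, rfl⟩ := Submodule.mem_sup.1 hyt
  have ha' : a ∈ Module.End.eigenspace T (c : ℂ) := by
    have h1 : Submodule.span ℂ {x | ∃ i : ℕ, top - i = c ∧ x = u L N v0 i} ≤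
        Module.End.eigenspace T (c : ℂ) := by
      rw [Submodule.span_le]
      rintro _ ⟨i, hi, rfl⟩
      rw [SetLike.mem_coe, hT, ← hi]
      exact rho_u L N v0 top ht i
    exact h1 ha
  have hb' : b ∈ Module.End.eigenspace T (c : ℂ) := by
    have h2 : a + b ∈ Module.End.eigenspace T (c : ℂ) := (hT _ _).2 hy
    have h3 := sub_mem h2 ha'
    rwa [add_sub_cancel_left] at h3
  have hb0 : b = 0 := by
    have := Submodule.disjoint_def.1 hind b hb' hb
    exact this
  rw [hb0, add_zero]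
  exact ha

end

end MIR15

section rank1

variable {g η : Type} [LieRing g] [LieAlgebra ℂ g] [Fintype η] [DecidableEq η] (L : LD g Unit η)

/-- [MI15] Highest weight modules in rank one. -/
theorem mi_r1_mod (hF : L.F = L.f ()) (N : Type) [AddCommGroup N] [Module ℂ N]
    [LieRingModule g N] [LieModule ℂ g N] (v0 : N) (lam : η → ℂ) (H : L.HW N v0 lam) (top : ℤ)
    (ht : ⁅L.rho, v0⁆ = (top : ℂ) • v0) :
    L.Gr N top ∧ (∀ c < top, ∀ y ∈ L.wsp N c, ∃ x ∈ L.wsp N (c + 1), ⁅L.F, x⁆ = y) ∧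
      L.wsp N top ≤ Submodule.span ℂ {v0} := by
  refine ⟨?_, ?_, ?_⟩
  · intro v
    have h1 : Submodule.span ℂ (Set.range (MIR15.u L N v0)) ≤
        Submodule.span ℂ {w : N | ∃ c : ℤ, c ≤ top ∧ w ∈ L.wsp N c} := by
      rw [Submodule.span_le]
      rintro _ ⟨i, rfl⟩
      refine Submodule.subset_span ⟨top - i, by omega, ?_⟩
      exact MIR15.rho_u L N v0 top ht i
    rw [MIR15.u_span L N hF v0 lam H] at h1
    exact h1 Submodule.mem_top
  · intro c hc y hy
    have h1 := MIR15.wsp_span L N hF v0 lam H top ht c y hy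
    induction h1 using Submodule.span_induction with
    | mem x hx =>
      obtain ⟨i, hi, rfl⟩ := hx
      obtain ⟨k, rfl⟩ : ∃ k, i = k + 1 := ⟨i - 1, by omega⟩
      refine ⟨MIR15.u L N v0 k, ?_, rfl⟩
      have := MIR15.rho_u L N v0 top ht k
      show ⁅L.rho, _⁆ = _
      rw [this]
      congr 2
      push_cast at hi
      omega
    | zero => exact ⟨0, zero_mem _, lie_zero _⟩
    | add y z hys hzs hy1 hz1 =>
      have hw : ∀ x ∈ Submodule.span ℂ {x | ∃ i : ℕ, top - i = c ∧ x = MIR15.u L N v0 i},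
          x ∈ L.wsp N c := by
        intro x hx
        refine (Submodule.span_le (p := L.wsp N c)).2 ?_ hx
        rintro _ ⟨i, hi, rfl⟩
        rw [← hi]
        exact MIR15.rho_u L N v0 top ht i
      obtain ⟨a, ha, rfl⟩ := hy1 (hw _ hys)
      obtain ⟨b, hb, rfl⟩ := hz1 (hw _ hzs)
      exact ⟨a + b, add_mem ha hb, lie_add _ _ _⟩
    | smul a y hys hy1 =>
      have hw : ∀ x ∈ Submodule.span ℂ {x | ∃ i : ℕ, top - i = c ∧ x = MIR15.u L N v0 i},
          x ∈ L.wsp N c := by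
        intro x hx
        refine (Submodule.span_le (p := L.wsp N c)).2 ?_ hx
        rintro _ ⟨i, hi, rfl⟩
        rw [← hi]
        exact MIR15.rho_u L N v0 top ht i
      obtain ⟨b, hb, rfl⟩ := hy1 (hw _ hys)
      exact ⟨a • b, Submodule.smul_mem _ _ hb, lie_smul _ _ _⟩
  · intro y hy
    have h1 := MIR15.wsp_span L N hF v0 lam H top ht top y hy
    refine (Submodule.span_le (p := Submodule.span ℂ {v0})).2 ?_ h1
    rintro _ ⟨i, hi, rfl⟩
    have hi0 : i = 0 := by omega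
    subst hi0
    exact Submodule.subset_span rfl

/-- [MI16] The homogeneous elements of `z` in rank one. -/
theorem mi_r1_z (hF : L.F = L.f ()) (z : g) (m : ℕ) (hz : z ∈ L.zc) (hg : z ∈ L.gr (-(m : ℤ)))
    (hz0 : z ≠ 0) : (m = 0 ∧ z ∈ L.hs) ∨ (m = 1 ∧ ∃ c : ℂ, z = c • L.F) := by
  obtain ⟨x, hx, y, hy, rfl⟩ := Submodule.mem_sup.1 hz.1
  have hyc : ∃ c : ℂ, y = c • L.F := by
    unfold LD.nm at hy
    have hr : Set.range L.f = {L.F} := by
      ext w
      constructor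
      · rintro ⟨⟨⟩, rfl⟩
        exact hF.symm
      · intro hw
        exact ⟨(), by rw [Set.mem_singleton_iff.1 hw, hF]⟩
    rw [hr] at hy
    obtain ⟨c, hc⟩ := Submodule.mem_span_singleton.1 hy
    exact ⟨c, hc.symm⟩
  obtain ⟨c, rfl⟩ := hyc
  have h1 : ⁅L.rho, x + c • L.F⁆ = ((-(m : ℤ) : ℤ) : ℂ) • (x + c • L.F) := hg
  rw [lie_add, L.rho_hs x hx, lie_smul, L.rho_F, zero_add] at h1
  push_cast at h1
  -- `m x = (1 - m) c F`
  have h2 : (m : ℂ) • x = ((1 - m) * c) • L.F := by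
    have h3 : c • (-1 : ℂ) • L.F = -(m : ℂ) • x + (-(m : ℂ)) • c • L.F := by
      rw [h1, smul_add]
    have h4 : (m : ℂ) • x = -(c • (-1 : ℂ) • L.F) + (-(m : ℂ)) • c • L.F := by
      rw [h3]
      module
    rw [h4]
    module
  have h3 : ((1 - m) * c) • L.F = 0 := by
    have h4 : ⁅L.rho, (m : ℂ) • x⁆ = ⁅L.rho, ((1 - m) * c) • L.F⁆ := by rw [h2]
    rw [lie_smul, L.rho_hs x hx, smul_zero, lie_smul, L.rho_F] at h4
    have h5 : ((1 - m) * c) • L.F = -(((1 - (m : ℂ)) * c) • (-1 : ℂ) • L.F) := by module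
    rw [h5, ← h4, neg_zero]
  rw [h3] at h2
  by_cases hm : m = 0
  · left
    refine ⟨hm, ?_⟩
    subst hm
    rw [Nat.cast_zero, sub_zero, one_mul] at h3
    rw [h3, add_zero]
    exact hx
  · right
    have hm' : (m : ℂ) ≠ 0 := Nat.cast_ne_zero.2 hm
    have hx0 : x = 0 := (smul_eq_zero.1 h2).resolve_left hm'
    subst hx0
    rw [zero_add] at hz0
    have hm1 : (1 - (m : ℂ)) = 0 := by
      rw [mul_smul] at h3
      exact (smul_eq_zero.1 h3).resolve_right hz0
    have hm2 : (m : ℂ) = 1 := (sub_eq_zero.1 hm1).symm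
    refine ⟨by exact_mod_cast hm2, c, ?_⟩
    rw [zero_add]

end rank1

end WPE
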