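import Pool.Agent.WPE.BR14
import Pool.Agent.WPE.BR17
import Pool.Agent.WPE.MID

/-! WPE, block MI: row MI6, `Q w₀ = 0`. -/

set_option linter.unusedSectionVars false

namespace WPE

open scoped TensorProduct
open MvPolynomial WPQ

section w0

variable {g β η : Type} [LieRing g] [LieAlgebra ℂ g] [Fintype β] [DecidableEq β] [Fintype η]
  [DecidableEq η] (L : LD g β η)

namespace MIR6

theorem Internal.Qd_J (κ : ℂ) {Q1 : VC (L.kb κ) L.nL →ₗ[ℂ] VC (L.kb κ) L.nL}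
    (h1 : IsQ0 (L.kb κ) (QN.one (L.qd κ)) Q1) (m : ℤ) (a : L.bL) (x : VC (L.kb κ) L.nL) :
    (L.qd κ).Qd (R := LRep.triv L.bL) Q1 ((cmod (L.kb κ) L.nL (TMod.triv L.bL)).J m a x) =
      (cmod (L.kb κ) L.nL (TMod.triv L.bL)).J m a
        ((L.qd κ).Qd (R := LRep.triv L.bL) Q1 x) +
      (cmod (L.kb κ) L.nL (TMod.triv L.bL)).qq (L.qd κ).Om (L.qd κ).Lk (L.qd κ).Fm m a x :=
  (br_Q (br_qd L κ) (QN.one (L.qd κ)) (QN.one_ok (L.qd κ)) h1).2.2.2.1 m a x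

export Internal (Qd_J)

theorem Internal.Qd_vac (κ : ℂ) {Q1 : VC (L.kb κ) L.nL →ₗ[ℂ] VC (L.kb κ) L.nL}
    (h1 : IsQ0 (L.kb κ) (QN.one (L.qd κ)) Q1) :
    (L.qd κ).Qd (R := LRep.triv L.bL) Q1 (cvac _ _) = 0 := by
  show Q1 (cvac _ _) + (cmod (L.kb κ) L.nL (TMod.triv L.bL)).ψ 0 (L.qd κ).F (cvac _ _) = 0
  rw [psi_cvac _ _ 0 le_rfl, add_zero]
  have h := h1.n0 1
  have h2 : (QN.one (L.qd κ)).d (1 : ℂ) = 0 := rfl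
  rw [h2, map_zero, map_zero] at h
  exact h

export Internal (Qd_vac)

/-- Normally ordered product on the vacuum. -/
theorem nop_vac {B Y : Type} [LieRing B] [LieAlgebra ℂ B] (κ : B →ₗ[ℂ] B →ₗ[ℂ] ℂ)
    [AddCommGroup Y] [Module ℂ Y] [LieRingModule B Y] [LieModule ℂ B Y] (c : B) (z : Y) :
    (cmod κ Y (TMod.triv B)).nop (-1) (c ⊗ₜ z) (cvac κ Y) =
      (cmod κ Y (TMod.triv B)).J (-1) c ((cmod κ Y (TMod.triv B)).ψ (-1) z (cvac κ Y)) := by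
  rw [GMod.nop_tmul, psum_eq_sum (GMod.lf_nopF _ (-1) c z) (cvac κ Y) {-1}, Finset.sum_singleton]
  · unfold GMod.nopF
    rw [if_pos (by norm_num), LinearMap.comp_apply]
    norm_num
  · intro k hk
    rw [Finset.mem_singleton] at hk
    unfold GMod.nopF
    by_cases h : k < 0
    · rw [if_pos h, LinearMap.comp_apply, psi_cvac κ Y _ (by omega), map_zero]
    · rw [if_neg h, LinearMap.comp_apply, J_cvac κ Y k (by omega), map_zero]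

theorem OmB_hs (a : L.bL) (ha : (a : g) ∈ L.hs) : L.OmB a = 0 := by
  apply L.map_bn_inj
  rw [L.coe_OmB, (la_O L).Om_hs _ ha, map_zero]

theorem LkN_hs (κ : ℂ) (a : L.bL) (ha : (a : g) ∈ L.hs) : L.LkN κ a = 0 := by
  have h : L.LkN κ a = L.pin (L.Lk κ (a : g)) := rfl
  rw [h, (la_O L).Lk_hs κ _ ha, map_zero]

/-- `qq` if `Om` and `Lk` vanish. -/
theorem qq_zero {B : Type} [LieRing B] [LieAlgebra ℂ B] {κ : B →ₗ[ℂ] B →ₗ[ℂ] ℂ}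
    {Y : Type} [AddCommGroup Y] [Module ℂ Y] [LieRingModule B Y] [LieModule ℂ B Y]
    {E : Type} [AddCommGroup E] [Module ℂ E] (X : GMod B Y κ E) (Om : B →ₗ[ℂ] B ⊗[ℂ] Y)
    (Lm Fm : B →ₗ[ℂ] Y) (m : ℤ) (a : B) (x : E) (h1 : Om a = 0) (h2 : Lm a = 0) {y : Y}
    (h3 : Fm a = -y) : X.qq Om Lm Fm m a x = -X.ψ m y x := by
  rw [GMod.qq_apply, h1, h2, h3]
  simp only [map_zero, LinearMap.zero_apply, smul_zero, sub_zero, zero_add, map_neg,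
    LinearMap.neg_apply]

/-- `qq` for elements of `h`. -/
theorem Internal.qq_hs (κ : ℂ) (m : ℤ) (a : L.bL) (ha : (a : g) ∈ L.hs) (x : VC (L.kb κ) L.nL) :
    (cmod (L.kb κ) L.nL (TMod.triv L.bL)).qq (L.qd κ).Om (L.qd κ).Lk (L.qd κ).Fm m a x =
      -(cmod (L.kb κ) L.nL (TMod.triv L.bL)).ψ m ⁅a, (L.qd κ).F⁆ x := by
  exact qq_zero (cmod (L.kb κ) L.nL (TMod.triv L.bL)) (L.qd κ).Om (L.qd κ).Lk (L.qd κ).Fm m a x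
    (OmB_hs L a ha) (LkN_hs L κ a ha) (QD.Fm_apply (L.qd κ) a)

export Internal (qq_hs)

theorem coe_F (κ : ℂ) : (((L.qd κ).F : L.bL) : g) = L.F := by
  show L.Pn L.F = L.F
  exact (la_P L).Pn_nm _ L.F_nm

theorem lie_FB_F (κ : ℂ) : ⁅L.FB, (L.qd κ).F⁆ = 0 := by
  apply Subtype.ext
  apply Subtype.ext
  show ⁅L.F, (((L.qd κ).F : L.bL) : g)⁆ = 0
  rw [coe_F, lie_self]

theorem LkN_F (κ : ℂ) : L.LkN κ L.FB = κ • (L.qd κ).F := by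
  apply Subtype.ext
  apply Subtype.ext
  show L.Pn (L.Lk κ L.F) = κ • (((L.qd κ).F : L.bL) : g)
  rw [coe_F, (la_O L).Lk_nm κ _ L.F_nm, (la_O L).R_zero _ (la_O L).Zt_F, add_zero, map_smul,
    (la_P L).Pn_nm _ L.F_nm]

theorem OmB_F (κ : ℂ) : L.OmB L.FB = -∑ i, L.hB i ⊗ₜ[ℂ] ⁅L.hB' i, (L.qd κ).F⁆ := by
  apply L.map_bn_inj
  rw [L.coe_OmB]
  show L.Om L.F = _
  rw [(la_O L).Om_nm _ L.F_nm, (la_O L).Zt_F, zero_sub, map_neg, map_sum]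
  congr 1
  refine Finset.sum_congr rfl fun i _ => ?_
  rw [TensorProduct.map_tmul]
  have h : L.jng ⁅L.hB' i, (L.qd κ).F⁆ = ⁅L.h' i, (((L.qd κ).F : L.bL) : g)⁆ := rfl
  rw [h, coe_F]
  rfl

theorem hB'_exp (i : η) : L.hB' i = ∑ k, L.form (L.h' i) (L.h' k) • L.hB k := by
  apply Subtype.ext
  rw [AddSubmonoidClass.coe_finsetSum]
  exact LD.mi_hs_exp L (L.h'_mem i)

/-- The canonical element `∑ h_i ⊗ h'_i` is symmetric. -/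
theorem can_symm {E : Type} [AddCommGroup E] [Module ℂ E] (T : L.bL →ₗ[ℂ] L.bL →ₗ[ℂ] E) :
    ∑ i, T (L.hB' i) (L.hB i) = ∑ i, T (L.hB i) (L.hB' i) := by
  have h1 : ∀ i, T (L.hB' i) (L.hB i) =
      ∑ k, L.form (L.h' i) (L.h' k) • T (L.hB k) (L.hB i) := by
    intro i
    rw [hB'_exp, map_sum, LinearMap.sum_apply]
    refine Finset.sum_congr rfl fun k _ => ?_
    rw [map_smul, LinearMap.smul_apply]
  have h2 : ∀ i, T (L.hB i) (L.hB' i) =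
      ∑ k, L.form (L.h' i) (L.h' k) • T (L.hB i) (L.hB k) := by
    intro i
    rw [hB'_exp, map_sum]
    refine Finset.sum_congr rfl fun k _ => ?_
    rw [map_smul]
  rw [Finset.sum_congr rfl fun i _ => h1 i, Finset.sum_congr rfl fun i _ => h2 i,
    Finset.sum_comm]
  refine Finset.sum_congr rfl fun i _ => Finset.sum_congr rfl fun k _ => ?_
  rw [L.symm]

theorem sum_lie2 (κ : ℂ) (hF : ∑ i, ⁅L.h i, ⁅L.h' i, L.F⁆⁆ = (2 : ℂ) • L.F) :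
    ∑ i, ⁅L.hB' i, ⁅L.hB i, (L.qd κ).F⁆⁆ = (2 : ℂ) • (L.qd κ).F := by
  apply L.jng_inj
  rw [map_sum, map_smul]
  have h1 : L.jng (L.qd κ).F = L.F := coe_F L κ
  have h2 : ∀ i, L.jng ⁅L.hB' i, ⁅L.hB i, (L.qd κ).F⁆⁆ = ⁅L.h i, ⁅L.h' i, L.F⁆⁆ := by
    intro i
    have h3 : L.jng ⁅L.hB' i, ⁅L.hB i, (L.qd κ).F⁆⁆ =
        ⁅L.h' i, ⁅L.h i, (((L.qd κ).F : L.bL) : g)⁆⁆ := rfl
    rw [h3, coe_F, leibniz_lie, (la_G L).hs_hs _ (L.h'_mem i) _ (L.h_mem_hs i), zero_lie,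
      zero_add]
  rw [Finset.sum_congr rfl fun i _ => h2 i, hF, h1]

theorem lie_rho (κ : ℂ) : ⁅L.rhoB, (L.qd κ).F⁆ = -(L.qd κ).F := by
  apply L.jng_inj
  rw [map_neg]
  have h1 : L.jng (L.qd κ).F = L.F := coe_F L κ
  have h3 : L.jng ⁅L.rhoB, (L.qd κ).F⁆ = ⁅L.rho, (((L.qd κ).F : L.bL) : g)⁆ := rfl
  rw [h3, h1, coe_F, L.rho_F, neg_one_smul]

theorem core {B Y E η : Type} [LieRing B] [LieAlgebra ℂ B] {κ : B →ₗ[ℂ] B →ₗ[ℂ] ℂ}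
    [AddCommGroup Y] [Module ℂ Y] [LieRingModule B Y] [LieModule ℂ B Y] [AddCommGroup E]
    [Module ℂ E] [Fintype η] (X : GMod B Y κ E) (Q : E →ₗ[ℂ] E) (v : E) (F : Y) (FB rhoB : B)
    (hB hB' : η → B) (c : ℂ) (Om : B →ₗ[ℂ] B ⊗[ℂ] Y) (Lk Fm : B →ₗ[ℂ] Y)
    (QJ : ∀ m a x, Q (X.J m a x) = X.J m a (Q x) + X.qq Om Lk Fm m a x) (Qv : Q v = 0)
    (nopv : ∀ c z, X.nop (-1) (c ⊗ₜ z) v = X.J (-1) c (X.ψ (-1) z v))
    (OmF : Om FB = -∑ i, hB i ⊗ₜ[ℂ] ⁅hB' i, F⁆) (LkF : Lk FB = c • F) (FmF : Fm FB = 0)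
    (qh : ∀ m i x, X.qq Om Lk Fm m (hB i) x = -X.ψ m ⁅hB i, F⁆ x)
    (qh' : ∀ m i x, X.qq Om Lk Fm m (hB' i) x = -X.ψ m ⁅hB' i, F⁆ x)
    (qr : ∀ m x, X.qq Om Lk Fm m rhoB x = -X.ψ m ⁅rhoB, F⁆ x)
    (sym : ∀ T : B →ₗ[ℂ] B →ₗ[ℂ] E, ∑ i, T (hB' i) (hB i) = ∑ i, T (hB i) (hB' i))
    (lie2 : ∑ i, ⁅hB' i, ⁅hB i, F⁆⁆ = (2 : ℂ) • F) (lrho : ⁅rhoB, F⁆ = -F) :
    Q (X.J (-1) FB v - (1 / 2 : ℂ) • ∑ i, X.J (-1) (hB i) (X.J (-1) (hB' i) v) +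
      (1 - c) • X.J (-2) rhoB v) = 0 := by
  have t1 : Q (X.J (-1) FB v) =
      -∑ i, X.J (-1) (hB i) (X.ψ (-1) ⁅hB' i, F⁆ v) + c • X.ψ (-2) F v := by
    rw [QJ, Qv, map_zero, zero_add, GMod.qq_apply]
    have e4 : X.nop (-1) (-∑ i, hB i ⊗ₜ[ℂ] ⁅hB' i, F⁆) v =
        -∑ i, X.J (-1) (hB i) (X.ψ (-1) ⁅hB' i, F⁆ v) := by
      rw [map_neg, map_sum, LinearMap.neg_apply, LinearMap.sum_apply]
      congr 1
      exact Finset.sum_congr rfl fun i _ => nopv _ _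
    rw [OmF, LkF, FmF, e4, map_zero, LinearMap.zero_apply, add_zero, map_smul,
      LinearMap.smul_apply]
    have e5 : ((-1 : ℤ) : ℂ) = -1 := by norm_num
    have e6 : ((-1 : ℤ) - 1) = -2 := by norm_num
    rw [e5, e6, neg_one_smul, sub_neg_eq_add]
  have t2 : ∀ i, Q (X.J (-1) (hB i) (X.J (-1) (hB' i) v)) =
      -X.J (-1) (hB i) (X.ψ (-1) ⁅hB' i, F⁆ v) -
        X.J (-1) (hB' i) (X.ψ (-1) ⁅hB i, F⁆ v) + X.ψ (-2) ⁅hB' i, ⁅hB i, F⁆⁆ v := by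
    intro i
    rw [QJ, QJ, Qv, map_zero, zero_add, qh', qh, map_neg]
    have h2 := X.commψ (-1) (-1) (hB' i) ⁅hB i, F⁆ v
    have e6 : ((-1 : ℤ) + -1) = -2 := by norm_num
    rw [e6] at h2
    rw [← h2]
    abel
  have t3 : Q (X.J (-2) rhoB v) = X.ψ (-2) F v := by
    rw [QJ, Qv, map_zero, zero_add, qr, lrho, map_neg, LinearMap.neg_apply, neg_neg]
  have s1 : ∑ i, X.J (-1) (hB' i) (X.ψ (-1) ⁅hB i, F⁆ v) =
      ∑ i, X.J (-1) (hB i) (X.ψ (-1) ⁅hB' i, F⁆ v) := by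
    let ψv : Y →ₗ[ℂ] E := LinearMap.flip (X.ψ (-1)) v
    let adF : B →ₗ[ℂ] Y := (LieModule.toEnd ℂ B Y : B →ₗ[ℂ] Module.End ℂ Y).flip F
    exact sym (LinearMap.flip ((LinearMap.flip (X.J (-1))) ∘ₗ ψv ∘ₗ adF))
  have s2 : ∑ i, X.ψ (-2) ⁅hB' i, ⁅hB i, F⁆⁆ v = (2 : ℂ) • X.ψ (-2) F v := by
    have h3 := congrArg (fun y => X.ψ (-2) y v) lie2
    simp only [map_sum, LinearMap.sum_apply, map_smul, LinearMap.smul_apply] at h3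
    exact h3
  rw [map_add, map_sub, map_smul, map_smul, map_sum, t1, t3,
    Finset.sum_congr rfl fun i _ => t2 i, Finset.sum_add_distrib, Finset.sum_sub_distrib,
    Finset.sum_neg_distrib, s1, s2]
  generalize ∑ i, X.J (-1) (hB i) (X.ψ (-1) ⁅hB' i, F⁆ v) = P
  generalize X.ψ (-2) F v = R
  module

end MIR6

/-- [MI6] `Q w₀ = 0`. -/
theorem Internal.mi_w0_Q (κ : ℂ) (hF : ∑ i, ⁅L.h i, ⁅L.h' i, L.F⁆⁆ = (2 : ℂ) • L.F)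
    {Q1 : VC (L.kb κ) L.nL →ₗ[ℂ] VC (L.kb κ) L.nL}
    (h1 : IsQ0 (L.kb κ) (QN.one (L.qd κ)) Q1) :
    (L.qd κ).Qd (R := LRep.triv L.bL) Q1 (L.w0 κ) = 0 := by
  exact MIR6.core (cmod (L.kb κ) L.nL (TMod.triv L.bL))
    ((L.qd κ).Qd (R := LRep.triv L.bL) Q1) (cvac _ _) (L.qd κ).F L.FB L.rhoB L.hB L.hB' κ
    (L.qd κ).Om (L.qd κ).Lk (L.qd κ).Fm (MIR6.Qd_J L κ h1) (MIR6.Qd_vac L κ h1)
    (MIR6.nop_vac (L.kb κ)) (MIR6.OmB_F L κ) (MIR6.LkN_F L κ)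
    (by rw [QD.Fm_apply, MIR6.lie_FB_F, neg_zero])
    (fun m i x => MIR6.qq_hs L κ m _ (L.h_mem_hs i) x)
    (fun m i x => MIR6.qq_hs L κ m (L.hB' i) (L.h'_mem i) x)
    (fun m x => MIR6.qq_hs L κ m L.rhoB L.rho_mem x) (MIR6.can_symm L) (MIR6.sum_lie2 L κ hF)
    (MIR6.lie_rho L κ)

export Internal (mi_w0_Q)

end w0

end WPE
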