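import Pool.Agent.WPE.BR14
import Pool.Agent.WPE.BR17
import Pool.Agent.WPE.IND5
import Pool.Agent.WPE.MID

/-! WPE, block MI: row MI7. -/

set_option linter.unusedSectionVars false

namespace WPE

open scoped TensorProduct
open MvPolynomial WPQ

variable {g β η : Type} [LieRing g] [LieAlgebra ℂ g] [Fintype β] [DecidableEq β] [Fintype η]
  [DecidableEq η] (L : LD g β η)

namespace MIR7

theorem qq_zero {B : Type} [LieRing B] [LieAlgebra ℂ B] {κ : B →ₗ[ℂ] B →ₗ[ℂ] ℂ}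
    {Y : Type} [AddCommGroup Y] [Module ℂ Y] [LieRingModule B Y] [LieModule ℂ B Y]
    {E : Type} [AddCommGroup E] [Module ℂ E] (X : GMod B Y κ E)
    (Om : B →ₗ[ℂ] B ⊗[ℂ] Y) (Lm Fm : B →ₗ[ℂ] Y) (m : ℤ) (a : B) (x : E)
    (h1 : Om a = 0) (h2 : Lm a = 0) (h3 : Fm a = 0) : X.qq Om Lm Fm m a x = 0 := by
  rw [GMod.qq_apply, h1, h2, h3, map_zero, map_zero, map_zero, LinearMap.zero_apply, smul_zero,
    sub_zero, zero_add]

theorem fin {E : Type} [AddCommGroup E] [Module ℂ E] (Q J q : E →ₗ[ℂ] E) (v : E)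
    (h : Q (J v) = J (Q v) + q v) (hQ : Q v = 0) (hq : q v = 0) : Q (J v) = 0 := by
  rw [h, hQ, hq, map_zero, add_zero]

variable (κ : ℂ)

theorem cen_cvac (he : (TMod.triv L.bL).IsEnergy (0 : ℂ →ₗ[ℂ] ℂ)) :
    cen 0 he (cvac (L.kb κ) L.nL) = 0 := by
  have h := cen_incl (κ := L.kb κ) (Y := L.nL) (T := TMod.triv L.bL) (0 : ℂ →ₗ[ℂ] ℂ) he
    ((1 : ℂ), 0, 0)
  refine h.trans ?_
  have h2 : KNE L.nL (0 : ℂ →ₗ[ℂ] ℂ) ((1 : ℂ), 0, 0) = 0 := by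
    refine Prod.ext rfl (Prod.ext ?_ ?_)
    · exact map_zero _
    · exact map_zero _
  rw [h2, map_zero]

theorem rho_comm {E : Type} [AddCommGroup E] [Module ℂ E] (X : GMod L.bL L.nL (L.kb κ) E)
    (m : ℤ) (a : L.bL) (x : E) :
    X.J 0 L.rhoB (X.J m a x) = X.J m a (X.J 0 L.rhoB x) + X.J m ⁅L.rhoB, a⁆ x := by
  have h := X.comm 0 m L.rhoB a x
  have h0 : coc (L.kb κ) 0 m L.rhoB a = 0 := by
    unfold coc
    split_ifs
    · simp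
    · rfl
  rw [h0, zero_smul, add_zero, zero_add, sub_eq_iff_eq_add] at h
  rw [h, add_comm]

theorem rhoB_FB : ⁅L.rhoB, L.FB⁆ = -L.FB := by
  apply Subtype.ext
  show ⁅L.rho, L.F⁆ = -L.F
  rw [L.rho_F, neg_one_smul]

theorem rhoB_hB (i : η) : ⁅L.rhoB, L.hB i⁆ = 0 := by
  apply Subtype.ext
  show ⁅L.rho, L.h i⁆ = 0
  exact L.rho_hs _ (L.h_mem_hs i)

theorem rhoB_hB' (i : η) : ⁅L.rhoB, L.hB' i⁆ = 0 := by
  apply Subtype.ext
  show ⁅L.rho, L.h' i⁆ = 0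
  exact L.rho_hs _ (L.h'_mem i)

theorem rhoB_rhoB : ⁅L.rhoB, L.rhoB⁆ = 0 := lie_self _

section abs

variable {E : Type} [AddCommGroup E] [Module ℂ E] (X : GMod L.bL L.nL (L.kb κ) E) (v : E)

theorem rho_kill (a : L.bL) (ha : ⁅L.rhoB, a⁆ = 0) (m : ℤ) (x : E)
    (hx : X.J 0 L.rhoB x = 0) : X.J 0 L.rhoB (X.J m a x) = 0 := by
  rw [rho_comm L κ X m a x, hx, ha, map_zero, zero_add, map_zero]
  rfl

theorem rho_F' (x : E) (hx : X.J 0 L.rhoB x = 0) :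
    X.J 0 L.rhoB (X.J (-1) L.FB x) = -X.J (-1) L.FB x := by
  rw [rho_comm L κ X (-1) L.FB x, hx, rhoB_FB, map_zero, zero_add, map_neg]
  rfl

/-- The vector `w₀` in an abstract module. -/
noncomputable def w : E :=
  X.J (-1) L.FB v - (1 / 2 : ℂ) • ∑ i, X.J (-1) (L.hB i) (X.J (-1) (L.hB' i) v) +
    (1 - κ) • X.J (-2) L.rhoB v

theorem rho_w (hv : X.J 0 L.rhoB v = 0) :
    X.J 0 L.rhoB (w L κ X v) = -X.J (-1) L.FB v := by
  have h1 : ∑ i, X.J 0 L.rhoB (X.J (-1) (L.hB i) (X.J (-1) (L.hB' i) v)) = 0 :=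
    Finset.sum_eq_zero fun i _ => rho_kill L κ X _ (rhoB_hB L i) _ _
      (rho_kill L κ X _ (rhoB_hB' L i) _ _ hv)
  have h2 := rho_kill L κ X _ (rhoB_rhoB L) (-2) v hv
  unfold w
  rw [map_add, map_sub, map_smul, map_smul, map_sum, h1, h2, rho_F' L κ X v hv, smul_zero,
    smul_zero, sub_zero, add_zero]

theorem en_w (en : E →ₗ[ℂ] E) (hen : ∀ (m : ℤ) (a : L.bL) (x : E), en (X.J m a x) =
    X.J m a (en x) - (m : ℂ) • X.J m a x) (hv : en v = 0) :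
    en (w L κ X v) = X.J (-1) L.FB v -
      (1 / 2 : ℂ) • ∑ i, (2 : ℂ) • X.J (-1) (L.hB i) (X.J (-1) (L.hB' i) v) +
      (1 - κ) • (2 : ℂ) • X.J (-2) L.rhoB v := by
  have h1 : ∀ a : L.bL, en (X.J (-1) a v) = X.J (-1) a v := by
    intro a
    rw [hen, hv, map_zero, zero_sub]
    push_cast
    rw [neg_smul, one_smul, neg_neg]
  have h2 : ∀ a b : L.bL, en (X.J (-1) a (X.J (-1) b v)) =
      (2 : ℂ) • X.J (-1) a (X.J (-1) b v) := by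
    intro a b
    rw [hen, h1]
    push_cast
    rw [neg_smul, one_smul, sub_neg_eq_add, two_smul]
  have h3 : en (X.J (-2) L.rhoB v) = (2 : ℂ) • X.J (-2) L.rhoB v := by
    rw [hen, hv, map_zero, zero_sub]
    push_cast
    rw [neg_smul, neg_neg]
  unfold w
  rw [map_add, map_sub, map_smul, map_smul, map_sum, h1, h3]
  simp only [h2]

theorem main (hv : X.J 0 L.rhoB v = 0) (en : E →ₗ[ℂ] E)
    (hen : ∀ (m : ℤ) (a : L.bL) (x : E), en (X.J m a x) =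
      X.J m a (en x) - (m : ℂ) • X.J m a x) (hv' : en v = 0) :
    en (w L κ X v) - X.J 0 L.rhoB (w L κ X v) = (2 : ℂ) • w L κ X v ∧
    X.J 0 L.rhoB (w L κ X v - X.J (-1) L.FB v) = 0 := by
  constructor
  · rw [en_w L κ X v en hen hv', rho_w L κ X v hv, ← Finset.smul_sum]
    unfold w
    module
  · rw [map_sub, rho_w L κ X v hv, rho_F' L κ X v hv, sub_self]

end abs

end MIR7

open MIR7 in
/-- [MI7] `w₀ ∈ C⁰`, degree two, leading part `J_F(-1)1`. -/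
theorem Internal.mi_w0_deg (κ : ℂ) (he : (TMod.triv L.bL).IsEnergy (0 : ℂ →ₗ[ℂ] ℂ)) :
    L.w0 κ ∈ cpart (L.kb κ) L.nL (TMod.triv L.bL) 0 ∧
    cen 0 he (L.w0 κ) - (cmod (L.kb κ) L.nL (TMod.triv L.bL)).J 0 L.rhoB (L.w0 κ) =
      (2 : ℂ) • L.w0 κ ∧
    (cmod (L.kb κ) L.nL (TMod.triv L.bL)).J 0 L.rhoB
      (L.w0 κ - (cmod (L.kb κ) L.nL (TMod.triv L.bL)).J (-1) L.FB (cvac _ _)) = 0 := by
  have hm := main L κ (cmod (L.kb κ) L.nL (TMod.triv L.bL)) (cvac (L.kb κ) L.nL)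
    (J_cvac (L.kb κ) L.nL 0 le_rfl L.rhoB) (cen 0 he)
    (fun m a x => cen_J 0 he m a x) (cen_cvac L κ he)
  refine ⟨?_, hm.1, hm.2⟩
  have hv := cvac_mem (L.kb κ) L.nL
  unfold LD.w0
  exact Submodule.add_mem _ (Submodule.sub_mem _ (cpart_J _ _ hv) (Submodule.smul_mem _ _
      (Submodule.sum_mem _ fun i _ => cpart_J _ _ (cpart_J _ _ hv)))) (Submodule.smul_mem _ _
      (cpart_J _ _ hv))

export Internal (mi_w0_deg)

/-- [MI7] `Q (J_a(-1)1) = 0` if `a ∈ h`, `[F, a] = 0`. -/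
theorem Internal.mi_h_Q (κ : ℂ) {Q1 : VC (L.kb κ) L.nL →ₗ[ℂ] VC (L.kb κ) L.nL}
    (h1 : IsQ0 (L.kb κ) (QN.one (L.qd κ)) Q1) (a : L.bL) (ha : (a : g) ∈ L.hs)
    (hF : ⁅L.F, (a : g)⁆ = 0) :
    (L.qd κ).Qd (R := LRep.triv L.bL) Q1
      ((cmod (L.kb κ) L.nL (TMod.triv L.bL)).J (-1) a (cvac _ _)) = 0 := by
  have hb := (br_Q (br_qd L κ) (QN.one (L.qd κ)) (QN.one_ok _) h1).2.2.2.1 (-1) a
    (cvac _ _)
  have hQv : (L.qd κ).Qd (R := LRep.triv L.bL) Q1 (cvac (L.kb κ) L.nL) = 0 := by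
    have h2 := psi_cvac (L.kb κ) L.nL 0 le_rfl (L.qd κ).F
    have h3 := h1.n0 (1 : ℂ)
    have h4 : Q1 (cvac (L.kb κ) L.nL) = 0 := by
      refine h3.trans ?_
      show i1 (L.kb κ) L.nL (LRep.triv L.bL) (LinearMap.rTensor ℂ
        (Finsupp.lsingle 0 : L.nL →ₗ[ℂ] Gh L.nL) ((0 : ℂ →ₗ[ℂ] L.nL ⊗[ℂ] ℂ) 1)) = 0
      rw [LinearMap.zero_apply, map_zero, map_zero]
    show Q1 (cvac (L.kb κ) L.nL) + (cmod (L.kb κ) L.nL (TMod.triv L.bL)).ψ 0 (L.qd κ).F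
      (cvac (L.kb κ) L.nL) = 0
    rw [h4, h2, add_zero]
  have hOm : (L.qd κ).Om a = 0 := by
    apply L.map_bn_inj
    show TensorProduct.map L.jb L.jng (L.OmB a) = TensorProduct.map L.jb L.jng 0
    rw [L.coe_OmB, map_zero]
    exact (la_O L).Om_hs _ ha
  have hLk : (L.qd κ).Lk a = 0 := by
    apply L.jng_inj
    show L.Pn (L.Lk κ (a : g)) = L.jng 0
    rw [(la_O L).Lk_hs κ _ ha, map_zero, map_zero]
  have hFm : (L.qd κ).Fm a = 0 := by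
    rw [QD.Fm_apply, neg_eq_zero]
    apply L.jng_inj
    show ⁅(a : g), L.Pn L.F⁆ = L.jng 0
    rw [(la_P L).Pn_nm _ L.F_nm, map_zero, ← lie_skew, hF, neg_zero]
  exact MIR7.fin ((L.qd κ).Qd (R := LRep.triv L.bL) Q1)
    ((cmod (L.kb κ) L.nL (TMod.triv L.bL)).J (-1) a)
    ((cmod (L.kb κ) L.nL (TMod.triv L.bL)).qq (L.qd κ).Om (L.qd κ).Lk (L.qd κ).Fm (-1) a)
    (cvac (L.kb κ) L.nL) hb hQv
    (MIR7.qq_zero _ _ _ _ _ _ _ hOm hLk hFm)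

export Internal (mi_h_Q)

end WPE
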