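import Pool.Agent.WPE.BR9
import Pool.Agent.WPE.MIK
import Pool.Agent.WPE.MIR15
import Pool.Agent.WPE.MIR6
import Pool.Agent.WPE.MIR7

/-! WPE, block MI, [MI17]: rank one. -/

set_option linter.unusedSectionVars false

namespace WPE

open scoped TensorProduct
open MvPolynomial WPQ

namespace MIR17

section gen

variable {g β η : Type} [LieRing g] [LieAlgebra ℂ g] [Fintype β] [DecidableEq β] [Fintype η]
  [DecidableEq η] (L : LD g β η)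

/-- The energy kills the vacuum. -/
theorem cen_cvac (κ : ℂ) :
    cen 0 (isEnergy_zero (LRep.triv L.bL)) (cvac (L.kb κ) L.nL) = 0 := by
  have h := cen_incl (κ := L.kb κ) (Y := L.nL) (0 : ℂ →ₗ[ℂ] ℂ)
    (isEnergy_zero (LRep.triv L.bL)) ((1 : ℂ), 0, 0)
  have h1 : KNE L.nL (0 : ℂ →ₗ[ℂ] ℂ) ((1 : ℂ), 0, 0) = 0 := by
    refine Prod.ext rfl (Prod.ext ?_ ?_)
    · exact map_zero _
    · exact map_zero _
  rw [h1, map_zero] at h
  exact h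

/-- Independence of the eigenspaces. -/
theorem egr_indep {V : Type} [AddCommGroup V] [Module ℂ V] (T : V →ₗ[ℂ] V) :
    iSupIndep (egr T) :=
  (Module.End.eigenspaces_iSupIndep T).comp (f := fun n : ℤ => (n : ℂ)) Int.cast_injective

/-- A vector of negative degree which is a sum of vectors of natural degrees is zero. -/
theorem egr_neg {V : Type} [AddCommGroup V] [Module ℂ V] (T : V →ₗ[ℂ] V) (d : ℤ) (hd : d < 0)
    (u : V) (hu : u ∈ egr T d) (hs : u ∈ ⨆ D : ℕ, egr T (D : ℤ)) : u = 0 := by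
  have h1 := (egr_indep T) d
  have h2 : ⨆ D : ℕ, egr T (D : ℤ) ≤ ⨆ (j : ℤ) (_ : j ≠ d), egr T j := by
    refine iSup_le fun D => ?_
    refine le_iSup₂_of_le (D : ℤ) (by omega) le_rfl
  exact Submodule.disjoint_def.1 h1 u hu (h2 hs)

/-- `J_a(0) J_b(-1) v = 0` if `[a, b] = 0` and `J_a(0) v = 0`. -/
theorem J0_comm {B Y E : Type} [LieRing B] [LieAlgebra ℂ B] {κ : B →ₗ[ℂ] B →ₗ[ℂ] ℂ}
    [AddCommGroup Y] [Module ℂ Y] [LieRingModule B Y] [LieModule ℂ B Y] [AddCommGroup E]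
    [Module ℂ E] (X : GMod B Y κ E) (a b : B) (v : E) (h : ⁅a, b⁆ = 0) (h0 : X.J 0 a v = 0) :
    X.J 0 a (X.J (-1) b v) = 0 := by
  have e := X.comm 0 (-1) a b v
  have e5 : coc κ 0 (-1) a b = 0 := by
    unfold coc
    rw [if_neg (by norm_num)]
  rw [h0, h, e5, map_zero, map_zero, sub_zero, zero_smul, LinearMap.zero_apply, add_zero] at e
  exact e

/-- The degree operator and the energy. -/
theorem D_eq {V : Type} [AddCommGroup V] [Module ℂ V] (C J : V →ₗ[ℂ] V) (x : V) (t : ℤ)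
    {s c c' : ℂ} (hs : s = -(t : ℂ)) (hc : c = c')
    (h : (C - J + (t : ℂ) • LinearMap.id : V →ₗ[ℂ] V) x = c' • x) : C x - J x - s • x = c • x := by
  rw [hs, hc, ← h, LinearMap.add_apply, LinearMap.sub_apply, LinearMap.smul_apply,
    LinearMap.id_apply, neg_smul, sub_neg_eq_add]

/-- The degree of a current applied to a vector of degree `0`. -/
theorem deg_val {V : Type} [AddCommGroup V] [Module ℂ V] (C J J1 : V →ₗ[ℂ] V) (v : V)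
    (h1 : C (J1 v) = J1 (C v) - ((-1 : ℤ) : ℂ) • J1 v) (h0 : C v = 0) (h2 : J (J1 v) = 0) :
    (C - J + ((0 : ℤ) : ℂ) • LinearMap.id : V →ₗ[ℂ] V) (J1 v) = (((0 : ℕ) : ℂ) + 1) • J1 v := by
  rw [LinearMap.add_apply, LinearMap.sub_apply, h1, h0, h2, map_zero]
  simp

/-- Scalar multiples. -/
theorem smul_low {B V : Type} [AddCommGroup B] [Module ℂ B] [AddCommGroup V] [Module ℂ V]
    (J : B →ₗ[ℂ] V →ₗ[ℂ] V) (b : B) (w v : V) (c : ℂ) (U : Submodule ℂ V) (h : w - J b v ∈ U) :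
    c • w - J (c • b) v ∈ U := by
  rw [map_smul, LinearMap.smul_apply, ← smul_sub]
  exact Submodule.smul_mem _ c h

/-- Vectors of degree `0` have degree `≥ -1 + 1`. -/
theorem mem_GE0 {V : Type} [AddCommGroup V] [Module ℂ V] (T : V →ₗ[ℂ] V) (x : V)
    (h : T x = 0) : x ∈ GE T (-((1 : ℕ) : ℤ) + 1) := by
  unfold GE
  refine Submodule.mem_iSup_of_mem (⟨0, by norm_num⟩ : {c' : ℤ // -((1 : ℕ) : ℤ) + 1 ≤ c'}) ?_
  unfold egr
  rw [Module.End.mem_eigenspace_iff, h]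
  simp

/-- The value of the degree operator, scalar multiples. -/
theorem D_val2 {V : Type} [AddCommGroup V] [Module ℂ V] (C J : V →ₗ[ℂ] V) (x : V) (c : ℂ)
    (h : C x - J x = (2 : ℂ) • x) :
    (C - J + ((0 : ℤ) : ℂ) • LinearMap.id : V →ₗ[ℂ] V) (c • x) =
      (((1 : ℕ) : ℂ) + 1) • c • x := by
  rw [map_smul, LinearMap.add_apply, LinearMap.sub_apply, h, Int.cast_zero, zero_smul,
    LinearMap.zero_apply, add_zero, smul_comm]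
  norm_num

/-- The value of the degree operator. -/
theorem D_val {V : Type} [AddCommGroup V] [Module ℂ V] (C J : V →ₗ[ℂ] V) (t c d : ℂ) (x : V)
    (h : C x - J x = c • x) (hd : d = c + t) :
    (C - J + t • LinearMap.id : V →ₗ[ℂ] V) x = d • x := by
  rw [LinearMap.add_apply, LinearMap.sub_apply, h, LinearMap.smul_apply, LinearMap.id_apply, hd,
    add_smul]

/-- Induction over the degree. -/
theorem core {V η : Type} [AddCommGroup V] [Module ℂ V] (U : Submodule ℂ V)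
    (K : ℤ → Submodule ℂ V) (hneg : ∀ d < 0, ∀ u ∈ K d, u = 0) (h0 : K 0 ≤ U) (m : η → ℕ)
    (W : η → ℤ → V →ₗ[ℂ] V) (W0 : ℤ → V →ₗ[ℂ] V) (hW : ∀ i k, ∀ x ∈ U, W i k x ∈ U)
    (hW0 : ∀ k, ∀ x ∈ U, W0 k x ∈ U)
    (hrec : ∀ D : ℕ, 1 ≤ D → ∀ x ∈ K D, ∃ y ∈ K ((D : ℤ) - 1), x - W0 0 y ∈
      Submodule.span ℂ {v | ∃ (i : η) (s : ℕ), ∃ u ∈ K ((D : ℤ) - (m i + 1) - s),
        v = W i (-1 - (s : ℤ)) u}) (n : ℕ) : K n ≤ U := by
  induction n using Nat.strong_induction_on with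
  | _ n ih =>
    rcases Nat.eq_zero_or_pos n with hn | hn
    · subst hn
      exact h0
    · intro y hy
      obtain ⟨y', hy', hspan⟩ := hrec n hn y hy
      have hy'U : y' ∈ U := by
        have h3 := ih (n - 1) (by omega)
        have h4 : (((n - 1 : ℕ) : ℕ) : ℤ) = (n : ℤ) - 1 := by omega
        rw [h4] at h3
        exact h3 hy'
      have h5 : y - W0 0 y' ∈ U := by
        refine Submodule.span_le.2 ?_ hspan
        rintro _ ⟨i, s, u, hu, rfl⟩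
        refine hW i _ u ?_
        by_cases hd : (n : ℤ) - (m i + 1) - s < 0
        · rw [hneg _ hd u hu]
          exact zero_mem U
        · have h6 : (n : ℤ) - (m i + 1) - s = (((n : ℤ) - (m i + 1) - s).toNat : ℕ) :=
            (Int.toNat_of_nonneg (by omega)).symm
          have h7 := ih ((n : ℤ) - (m i + 1) - s).toNat (by omega)
          rw [← h6] at h7
          exact h7 hu
      have h8 := U.add_mem h5 (hW0 0 y' hy'U)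
      rwa [sub_add_cancel] at h8

/-- The lift of an element of the centralizer in `h`. -/
theorem Internal.lift_h (κ : ℂ) {Q1 : VC (L.kb κ) L.nL →ₗ[ℂ] VC (L.kb κ) L.nL}
    (h1 : IsQ0 (L.kb κ) (QN.one (L.qd κ)) Q1) (a : L.bL) (ha : (a : g) ∈ L.hs)
    (hF : ⁅L.F, (a : g)⁆ = 0) :
    L.Lift κ ((L.qd κ).Qd (R := LRep.triv L.bL) Q1) a 0
      ((cmod (L.kb κ) L.nL (TMod.triv L.bL)).J (-1) a (cvac _ _)) where
  mem := cpart_J _ _ (cvac_mem _ _)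
  ker := mi_h_Q L κ h1 a ha hF
  deg := deg_val _ _ ((cmod (L.kb κ) L.nL (TMod.triv L.bL)).J (-1) a) (cvac (L.kb κ) L.nL)
    (cen_J (κ := L.kb κ) (Y := L.nL) (0 : ℂ →ₗ[ℂ] ℂ) (isEnergy_zero (LRep.triv L.bL))
      (-1) a (cvac (L.kb κ) L.nL)) (cen_cvac L κ)
    (J0_comm (cmod (L.kb κ) L.nL (TMod.triv L.bL)) L.rhoB a (cvac (L.kb κ) L.nL)
      (Subtype.ext (L.rho_hs _ ha)) (J_cvac (κ := L.kb κ) (Y := L.nL) 0 le_rfl L.rhoB))
  low := (congrArg (fun t => t ∈ GE ((cmod (L.kb κ) L.nL (TMod.triv L.bL)).J 0 L.rhoB)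
    (-((0 : ℕ) : ℤ) + 1)) (sub_self ((cmod (L.kb κ) L.nL (TMod.triv L.bL)).J (-1) a
      (cvac _ _)))).mpr (zero_mem _)

export Internal (lift_h)

/-- The lift of a multiple of `F`. -/
theorem Internal.lift_F (κ : ℂ) (h2 : ∑ i, ⁅L.h i, ⁅L.h' i, L.F⁆⁆ = (2 : ℂ) • L.F)
    {Q1 : VC (L.kb κ) L.nL →ₗ[ℂ] VC (L.kb κ) L.nL}
    (h1 : IsQ0 (L.kb κ) (QN.one (L.qd κ)) Q1) (c : ℂ) :
    L.Lift κ ((L.qd κ).Qd (R := LRep.triv L.bL) Q1) (c • L.FB) 1 (c • L.w0 κ) := by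
  obtain ⟨d1, d2, d3⟩ := mi_w0_deg L κ (isEnergy_zero (LRep.triv L.bL))
  have hQ := mi_w0_Q L κ h2 h1
  refine ⟨Submodule.smul_mem _ c d1, ?_, ?_, ?_⟩
  · exact (map_smul ((L.qd κ).Qd (R := LRep.triv L.bL) Q1) c (L.w0 κ)).trans
      ((congrArg (fun t => c • t) hQ).trans (smul_zero c))
  · exact D_val2 _ _ (L.w0 κ) c d2
  · exact smul_low ((cmod (L.kb κ) L.nL (TMod.triv L.bL)).J (-1)) L.FB (L.w0 κ) (cvac _ _) c _
      (mem_GE0 _ _ d3)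

export Internal (lift_F)

end gen

end MIR17

section rank1

variable {g η : Type} [LieRing g] [LieAlgebra ℂ g] [Fintype η] [DecidableEq η] (L : LD g Unit η)

/-- The lift of an element of the centralizer in `h`, which is stable. -/
theorem MIR17.Internal.lift_h' (κ : ℂ)
    {Q1 : VC (L.kb κ) L.nL →ₗ[ℂ] VC (L.kb κ) L.nL}
    (h1 : IsQ0 (L.kb κ) (QN.one (L.qd κ)) Q1) (N : Type) [AddCommGroup N]
    [Module ℂ N] [LieRingModule g N] [LieModule ℂ g N]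
    (U : Submodule ℂ (CC (L.kb κ) L.nL (TMod.ofRep (L.rep N))))
    (hUh : ∀ (k : ℤ) (a : L.bL), (a : g) ∈ L.hs → ⁅L.F, (a : g)⁆ = 0 → ∀ x ∈ U,
      (cmod (L.kb κ) L.nL (TMod.ofRep (L.rep N))).J k a x ∈ U)
    (a : L.bL) (ha : (a : g) ∈ L.hs) (hF : ⁅L.F, (a : g)⁆ = 0) :
    ∃ w : VC (L.kb κ) L.nL, L.Lift κ ((L.qd κ).Qd (R := LRep.triv L.bL) Q1) a 0 w ∧
      ∀ (k : ℤ), ∀ x ∈ U, ((cmod (L.kb κ) L.nL (TMod.ofRep (L.rep N))).Yh w).1 k x ∈ U :=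
  ⟨(cmod (L.kb κ) L.nL (TMod.triv L.bL)).J (-1) a (cvac _ _),
    MIR17.Internal.lift_h L κ h1 a ha hF, fun k x hx =>
      (congrArg (fun F => F k x ∈ U)
        (Yh_cur (cmod (L.kb κ) L.nL (TMod.ofRep (L.rep N))) a)).mpr (hUh k a ha hF x hx)⟩

/-- The lift of a multiple of `F`, which is stable. -/
theorem MIR17.Internal.lift_F' (κ : ℂ)
    (h2 : ∑ i, ⁅L.h i, ⁅L.h' i, L.F⁆⁆ = (2 : ℂ) • L.F)
    {Q1 : VC (L.kb κ) L.nL →ₗ[ℂ] VC (L.kb κ) L.nL}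
    (h1 : IsQ0 (L.kb κ) (QN.one (L.qd κ)) Q1) (N : Type) [AddCommGroup N]
    [Module ℂ N] [LieRingModule g N] [LieModule ℂ g N]
    (U : Submodule ℂ (CC (L.kb κ) L.nL (TMod.ofRep (L.rep N))))
    (hUw : ∀ (k : ℤ), ∀ x ∈ U,
      ((cmod (L.kb κ) L.nL (TMod.ofRep (L.rep N))).Yh (L.w0 κ)).1 k x ∈ U)
    (a : L.bL) (c : ℂ) (ha : (a : g) = c • L.F) :
    ∃ w : VC (L.kb κ) L.nL, L.Lift κ ((L.qd κ).Qd (R := LRep.triv L.bL) Q1) a 1 w ∧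
      ∀ (k : ℤ), ∀ x ∈ U, ((cmod (L.kb κ) L.nL (TMod.ofRep (L.rep N))).Yh w).1 k x ∈ U :=
  ⟨c • L.w0 κ, (congrArg (fun b : L.bL => L.Lift κ ((L.qd κ).Qd (R := LRep.triv L.bL) Q1) b 1
      (c • L.w0 κ)) (Subtype.ext ha : a = c • L.FB)).mpr (MIR17.Internal.lift_F L κ h2 h1 c),
    fun k x hx => (congrArg (fun F => F.1 k x ∈ U)
      (((cmod (L.kb κ) L.nL (TMod.ofRep (L.rep N))).Yh).map_smul c (L.w0 κ))).mpr
        (Submodule.smul_mem U c (hUw k x hx))⟩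

/-- The lift of one element. -/
theorem MIR17.Internal.lift1 (hF : L.F = L.f ()) (κ : ℂ)
    (h2 : ∑ i, ⁅L.h i, ⁅L.h' i, L.F⁆⁆ = (2 : ℂ) • L.F)
    {Q1 : VC (L.kb κ) L.nL →ₗ[ℂ] VC (L.kb κ) L.nL}
    (h1 : IsQ0 (L.kb κ) (QN.one (L.qd κ)) Q1) (N : Type) [AddCommGroup N]
    [Module ℂ N] [LieRingModule g N] [LieModule ℂ g N]
    (U : Submodule ℂ (CC (L.kb κ) L.nL (TMod.ofRep (L.rep N))))
    (hUw : ∀ (k : ℤ), ∀ x ∈ U,
      ((cmod (L.kb κ) L.nL (TMod.ofRep (L.rep N))).Yh (L.w0 κ)).1 k x ∈ U)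
    (hUh : ∀ (k : ℤ) (a : L.bL), (a : g) ∈ L.hs → ⁅L.F, (a : g)⁆ = 0 → ∀ x ∈ U,
      (cmod (L.kb κ) L.nL (TMod.ofRep (L.rep N))).J k a x ∈ U)
    (a : L.bL) (m : ℕ) (hz : (a : g) ∈ L.zc) (hg : (a : g) ∈ L.gr (-(m : ℤ)))
    (hne : (a : g) ≠ 0) :
    ∃ w : VC (L.kb κ) L.nL, L.Lift κ ((L.qd κ).Qd (R := LRep.triv L.bL) Q1) a m w ∧
      ∀ (k : ℤ), ∀ x ∈ U, ((cmod (L.kb κ) L.nL (TMod.ofRep (L.rep N))).Yh w).1 k x ∈ U :=
  (mi_r1_z L hF (a : g) m hz hg hne).elim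
    (fun hr => Eq.subst (motive := fun m : ℕ => ∃ w : VC (L.kb κ) L.nL,
        L.Lift κ ((L.qd κ).Qd (R := LRep.triv L.bL) Q1) a m w ∧ ∀ (k : ℤ), ∀ x ∈ U,
          ((cmod (L.kb κ) L.nL (TMod.ofRep (L.rep N))).Yh w).1 k x ∈ U) hr.1.symm
      (MIR17.Internal.lift_h' L κ h1 N U hUh a hr.2 hz.2))
    (fun hr => Exists.elim hr.2 fun c hc =>
      Eq.subst (motive := fun m : ℕ => ∃ w : VC (L.kb κ) L.nL,
        L.Lift κ ((L.qd κ).Qd (R := LRep.triv L.bL) Q1) a m w ∧ ∀ (k : ℤ), ∀ x ∈ U,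
          ((cmod (L.kb κ) L.nL (TMod.ofRep (L.rep N))).Yh w).1 k x ∈ U) hr.1.symm
      (MIR17.Internal.lift_F' L κ h2 h1 N U hUw a c hc))

/-- The lifts of a homogeneous basis of the centralizer. -/
theorem MIR17.Internal.lifts (hF : L.F = L.f ()) (κ : ℂ)
    (h2 : ∑ i, ⁅L.h i, ⁅L.h' i, L.F⁆⁆ = (2 : ℂ) • L.F)
    {Q1 : VC (L.kb κ) L.nL →ₗ[ℂ] VC (L.kb κ) L.nL}
    (h1 : IsQ0 (L.kb κ) (QN.one (L.qd κ)) Q1) (N : Type) [AddCommGroup N]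
    [Module ℂ N] [LieRingModule g N] [LieModule ℂ g N]
    (U : Submodule ℂ (CC (L.kb κ) L.nL (TMod.ofRep (L.rep N))))
    (hUw : ∀ (k : ℤ), ∀ x ∈ U,
      ((cmod (L.kb κ) L.nL (TMod.ofRep (L.rep N))).Yh (L.w0 κ)).1 k x ∈ U)
    (hUh : ∀ (k : ℤ) (a : L.bL), (a : g) ∈ L.hs → ⁅L.F, (a : g)⁆ = 0 → ∀ x ∈ U,
      (cmod (L.kb κ) L.nL (TMod.ofRep (L.rep N))).J k a x ∈ U) :
    ∃ (z : η → L.bL) (m : η → ℕ) (w : η → VC (L.kb κ) L.nL), (∀ i, (z i : g) ∈ L.zc) ∧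
      (∀ i, (z i : g) ∈ L.gr (-(m i : ℤ))) ∧ (LinearIndependent ℂ fun i => (z i : g)) ∧
      Submodule.span ℂ (Set.range fun i => (z i : g)) = L.zc ∧
      (∀ i, L.Lift κ ((L.qd κ).Qd (R := LRep.triv L.bL) Q1) (z i) (m i) (w i)) ∧
      ∀ i (k : ℤ), ∀ x ∈ U,
        ((cmod (L.kb κ) L.nL (TMod.ofRep (L.rep N))).Yh (w i)).1 k x ∈ U :=
  Exists.elim (la_exp L) fun z' e1 => Exists.elim e1 fun m e2 =>
    Exists.elim (Classical.skolem.1 fun i : η => MIR17.Internal.lift1 L hF κ h2 h1 N U hUw hUh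
      (⟨z' i, (e2.1 i).1⟩ : L.bL) (m i) (e2.1 i) (e2.2.1 i) (e2.2.2.1.ne_zero i)) fun w hw =>
        ⟨fun i => ⟨z' i, (e2.1 i).1⟩, m, w, e2.1, e2.2.1, e2.2.2.1, e2.2.2.2.1,
          fun i => (hw i).1, fun i => (hw i).2⟩

namespace MIR17

export Internal (lifts)

end MIR17

open MIR17 in
/-- [MI17] Rank one: `ker Q ∩ C⁰` is generated by the highest weight vector under the modes of `w₀`
and of the currents `J_a`, `a ∈ h`, `[F, a] = 0`. -/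
theorem Internal.mi_rank1 (hF : L.F = L.f ()) (κ : ℂ)
    (h2 : ∑ i, ⁅L.h i, ⁅L.h' i, L.F⁆⁆ = (2 : ℂ) • L.F) (N : Type) [AddCommGroup N] [Module ℂ N]
    [LieRingModule g N] [LieModule ℂ g N] (v0 : N) (lam : η → ℂ) (H : L.HW N v0 lam) (top : ℤ)
    (ht : ⁅L.rho, v0⁆ = (top : ℂ) • v0)
    {Q0 : CC (L.kb κ) L.nL (TMod.ofRep (L.rep N)) →ₗ[ℂ]
      CC (L.kb κ) L.nL (TMod.ofRep (L.rep N))} (h0 : IsQ0 (L.kb κ) (L.qn N κ) Q0)
    (U : Submodule ℂ (CC (L.kb κ) L.nL (TMod.ofRep (L.rep N))))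
    (hU0 : i0 (L.kb κ) L.nL (L.rep N) v0 ∈ U)
    (hUw : ∀ (k : ℤ), ∀ x ∈ U,
      ((cmod (L.kb κ) L.nL (TMod.ofRep (L.rep N))).Yh (L.w0 κ)).1 k x ∈ U)
    (hUh : ∀ (k : ℤ) (a : L.bL), (a : g) ∈ L.hs → ⁅L.F, (a : g)⁆ = 0 → ∀ x ∈ U,
      (cmod (L.kb κ) L.nL (TMod.ofRep (L.rep N))).J k a x ∈ U)
    (x : CC (L.kb κ) L.nL (TMod.ofRep (L.rep N)))
    (hx : x ∈ cpart (L.kb κ) L.nL (TMod.ofRep (L.rep N)) 0) (hQ : (L.qd κ).Qd Q0 x = 0) :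
    x ∈ U := by
  obtain ⟨hgr, hFs, htop⟩ := mi_r1_mod L hF N v0 lam H top ht
  obtain ⟨Q1, h1⟩ := br_Q0 (br_qd L κ) (QN.one (L.qd κ)) (QN.one_ok (L.qd κ))
  obtain ⟨z, m, w, hz, hg, hli, hsp, hw, hwU⟩ := lifts L hF κ h2 h1 N U hUw hUh
  have hwF : L.Lift κ ((L.qd κ).Qd (R := LRep.triv L.bL) Q1) L.FB 1 (L.w0 κ) := by
    have h := lift_F L κ h2 h1 1
    rwa [one_smul, one_smul] at h
  have hFne : L.F ≠ 0 := by
    rw [hF]
    intro h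
    have h3 := L.ef () ()
    rw [h, map_zero, if_pos rfl] at h3
    exact zero_ne_one h3
  have hneg : ∀ d : ℤ, d < 0 → ∀ u ∈ L.KD κ (L.rep N) top ((L.qd κ).Qd Q0) d, u = 0 := by
    intro d hd u hu
    have hs := mk_sum L κ top hgr h0 u hu.1.1 hu.1.2
    have hle : ⨆ D : ℕ, L.KD κ (L.rep N) top ((L.qd κ).Qd Q0) D ≤
        ⨆ D : ℕ, egr (L.Dop κ (L.rep N) top) (D : ℤ) := iSup_mono fun D => inf_le_right
    exact egr_neg _ d hd u hu.2 (hle hs)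
  have hzero : L.KD κ (L.rep N) top ((L.qd κ).Qd Q0) 0 ≤ U := by
    refine le_trans (mk_zero L κ top hgr h0) ?_
    rw [Submodule.map_le_iff_le_comap]
    refine le_trans htop ?_
    rw [Submodule.span_singleton_le_iff_mem]
    exact hU0
  have key : ∀ n : ℕ, L.KD κ (L.rep N) top ((L.qd κ).Qd Q0) (n : ℤ) ≤ U :=
    core U (L.KD κ (L.rep N) top ((L.qd κ).Qd Q0)) hneg hzero m
      (fun i => ((cmod (L.kb κ) L.nL (TMod.ofRep (L.rep N))).Yh (w i)).1)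
      ((cmod (L.kb κ) L.nL (TMod.ofRep (L.rep N))).Yh (L.w0 κ)).1 hwU hUw
      (fun D hD y hy => mk_rec L κ top hgr h0 h1 z m hz hg hli hsp w hw (L.w0 κ) hwF D hD
        (fun y hy => hFs (top - D) (by omega) y hy) y hy)
  exact (iSup_le key) (mk_sum L κ top hgr h0 x hx hQ)

export Internal (mi_rank1)

end rank1

end WPE
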