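import Pool.Agent.WPE.FD8
import Pool.Agent.WPE.FDS0

/-! WPE, block FD, row 9: the field of the vacuum, of a current applied to a state, of a current. -/

open scoped TensorProduct
open WPQ.AF (IsFld)

namespace WPE

noncomputable section

section state

variable {B : Type} [LieRing B] [LieAlgebra ℂ B] {κ : B →ₗ[ℂ] B →ₗ[ℂ] ℂ}
variable {Y : Type} [AddCommGroup Y] [Module ℂ Y] [LieRingModule B Y] [LieModule ℂ B Y]
variable {E : Type} [AddCommGroup E] [Module ℂ E] (X : GMod B Y κ E)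

theorem FD9.Yh_eq : X.Yh = Ind.lift (κ := κ) (T := (TMod.gt Y (TMod.triv B)).toTMod)
    (BMod.fld X.smooth) X.phiS (fun m a v => fd_phi_equi X m a v) :=
  dif_pos (fun m a v => fd_phi_equi X m a v)

theorem Yh_vac : (X.Yh (cvac κ Y)).1 = idFld E := by
  have h : X.Yh (cvac κ Y) = X.phiS ((1 : ℂ), 0, 0) := by
    rw [FD9.Yh_eq]
    exact Ind.lift_incl _ _
  rw [h, GMod.phiS_apply]
  show (((1 : ℂ) • (⟨idFld E, isFld_id⟩ : Fld E) +
    X.psiS (TensorProduct.rid ℂ (Gh Y) 0)) : Fld E).1 = idFld E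
  rw [map_zero, map_zero, add_zero, one_smul]

theorem Yh_J (m : ℤ) (a : B) (w : VC κ Y) :
    (X.Yh ((cmod κ Y (TMod.triv B)).J m a w)).1 = nprod m (X.toBMod.cur a) (X.Yh w).1 := by
  have h : X.Yh ((cmod κ Y (TMod.triv B)).J m a w) = (BMod.fld X.smooth).J m a (X.Yh w) := by
    rw [FD9.Yh_eq]
    exact Ind.lift_J _ m a w
  rw [h, BMod.fld_J]

theorem Yh_cur (a : B) :
    (X.Yh ((cmod κ Y (TMod.triv B)).J (-1) a (cvac κ Y))).1 = X.toBMod.cur a := by
  rw [Yh_J, Yh_vac]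
  exact fd_id_neg_one (BMod.Smooth.isFld X.smooth a)

end state

end

end WPE
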