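import Pool.Agent.WPE.FD2
import Pool.Agent.WPQ.VA3

/-! WPE, block MI, row MI1: `Y(u_(n) v) = Y(u)_(n) Y(v)` for all integers `n`. -/

set_option linter.unusedSectionVars false

namespace WPE

open scoped TensorProduct
open MvPolynomial WPQ
open WPQ.AF (IsFld prodN IsNop)

noncomputable section

namespace MIR1

variable {E : Type} [AddCommGroup E] [Module ℂ E]

theorem cf_nat (n j : ℕ) : cf (n : ℤ) j = (-1 : ℂ) ^ j * (n.choose j : ℂ) := by
  unfold cf
  rw [Ring.choose_natCast]
  push_cast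
  rfl

theorem cf_neg_one (j : ℕ) : cf (-1) j = 1 := by
  unfold cf
  rw [WPQ.va3_choose]
  push_cast
  rw [← mul_pow]
  norm_num

theorem nprod_nat (n : ℕ) {a b : ℤ → E →ₗ[ℂ] E} (ha : IsFld a) (hb : IsFld b) :
    nprod (n : ℤ) a b = prodN n a b := by
  funext k
  refine LinearMap.ext fun x => ?_
  unfold nprod nL nR prodN
  rw [LinearMap.sub_apply, psum_eq_sum (lf_tL (n : ℤ) a hb k) x (Finset.range (n + 1)),
    psum_eq_sum (lf_tR (n : ℤ) ha b k) x (Finset.range (n + 1)),
    LinearMap.sum_apply, ← Finset.sum_flip (fun j => tR (n : ℤ) a b k j x),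
    ← Finset.sum_sub_distrib]
  · refine Finset.sum_congr rfl fun i hi => ?_
    have hi' : i ≤ n := by
      have := Finset.mem_range.1 hi
      omega
    unfold tL tR
    simp only [LinearMap.smul_apply, LinearMap.sub_apply, LinearMap.comp_apply]
    rw [cf_nat, cf_nat, smul_sub]
    have h1 : (((n - i : ℕ) : ℤ)) = (n : ℤ) - i := by omega
    rw [h1]
    have h2 : (n : ℤ) + k - (n - i) = k + i := by ring
    rw [h2]
    congr 1
    congr 1
    rw [Nat.choose_symm hi', ← mul_assoc, zpow_natCast, ← pow_add]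
    congr 1
    have h3 : n + (n - i) = i + 2 * (n - i) := by omega
    rw [h3, pow_add, pow_mul]
    norm_num
  · intro j hj
    rw [Finset.mem_range, not_lt] at hj
    unfold tR
    rw [cf_nat, Nat.choose_eq_zero_of_lt (by omega)]
    simp
  · intro j hj
    rw [Finset.mem_range, not_lt] at hj
    unfold tL
    rw [cf_nat, Nat.choose_eq_zero_of_lt (by omega)]
    simp

theorem nprod_neg_one {a b c : ℤ → E →ₗ[ℂ] E} (ha : IsFld a) (hb : IsFld b)
    (hc : IsNop a b c) : nprod (-1) a b = c := by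
  funext k
  refine LinearMap.ext fun x => ?_
  obtain ⟨N0, _, h0⟩ := nL_eq (-1) a hb x
  obtain ⟨N1, h1⟩ := nR_eq (-1) ha b x
  obtain ⟨M0, hM⟩ := hc k x
  unfold nprod
  rw [LinearMap.sub_apply, h0 k (max (N0 - k).toNat (max N1 M0)) (by
      have := Int.self_le_toNat (N0 - k)
      have := le_max_left (N0 - k).toNat (max N1 M0)
      omega),
    h1 k (max (N0 - k).toNat (max N1 M0)) (le_trans (le_max_left _ _) (le_max_right _ _)),
    hM (max (N0 - k).toNat (max N1 M0)) (le_trans (le_max_right _ _) (le_max_right _ _)),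
    ← Finset.sum_sub_distrib]
  refine Finset.sum_congr rfl fun j _ => ?_
  rw [cf_neg_one, one_smul, mul_one, zpow_neg_one]
  have h2 : (-1 : ℤ) + k - j = k - 1 - j := by ring
  rw [h2]
  norm_num

end MIR1

section fields

variable {ι : Type} [Fintype ι] [DecidableEq ι] {A : Matrix ι ι ℤ} {p : ℕ}

theorem MIR1.neg (hA : IsADE A) (hp : 1 ≤ p) (ε : Cocycle A p) (v : VL ι) (k : ℕ) :
    ∀ u : VL ι, mode ε (mode ε u (-1 - (k : ℤ)) v) = nprod (-1 - (k : ℤ)) (mode ε u) (mode ε v) := by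
  induction k with
  | zero =>
    intro u
    rw [Nat.cast_zero, sub_zero]
    exact (MIR1.nprod_neg_one (mode_spec hA hp ε u).field (mode_spec hA hp ε v).field
      (mode_nop hA hp ε u v)).symm
  | succ k ih =>
    intro u
    have hk : ((k : ℂ) + 1) ≠ 0 := by exact_mod_cast Nat.succ_ne_zero k
    have h1 : mode ε (transl u) = dz (mode ε u) := by
      funext n
      exact mode_transl hA hp ε u n
    have h2 : mode ε (transl u) (-1 - (k : ℤ)) = ((k : ℂ) + 1) • mode ε u (-1 - ((k + 1 : ℕ) : ℤ)) := by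
      rw [mode_transl hA hp ε u]
      have e1 : (-1 - (k : ℤ)) - 1 = -1 - ((k + 1 : ℕ) : ℤ) := by push_cast; ring
      rw [e1]
      congr 1
      push_cast
      ring
    have h3 := ih (transl u)
    have e2 : (-1 - (k : ℤ)) - 1 = -1 - ((k + 1 : ℕ) : ℤ) := by push_cast; ring
    have e3 : (-((-1 - (k : ℤ) : ℤ) : ℂ)) = (k : ℂ) + 1 := by push_cast; ring
    have h4 : mode ε (((k : ℂ) + 1) • (mode ε u (-1 - ((k + 1 : ℕ) : ℤ)) v)) =
        ((k : ℂ) + 1) • mode ε (mode ε u (-1 - ((k + 1 : ℕ) : ℤ)) v) := by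
      funext n
      exact mode_smul hA hp ε _ _ n
    rw [h2, h1, fd_dz_left (-1 - (k : ℤ)) (mode_spec hA hp ε u).field
      (mode_spec hA hp ε v).field, e2, e3, LinearMap.smul_apply, h4] at h3
    exact smul_right_injective _ hk h3

/-- [MI1] `Y(u_(n) v) = Y(u)_(n) Y(v)` for all `n ∈ ℤ`. -/
theorem mi_nprod (hA : IsADE A) (hp : 1 ≤ p) (ε : Cocycle A p) (u v : VL ι) (n : ℤ) :
    mode ε (mode ε u n v) = nprod n (mode ε u) (mode ε v) := by
  by_cases hn : 0 ≤ n
  · obtain ⟨m, rfl⟩ := Int.eq_ofNat_of_zero_le hn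
    rw [MIR1.nprod_nat m (mode_spec hA hp ε u).field (mode_spec hA hp ε v).field]
    exact mode_prodN hA hp ε u v m
  · obtain ⟨k, hk⟩ : ∃ k : ℕ, n = -1 - (k : ℤ) := ⟨(-1 - n).toNat, by omega⟩
    rw [hk]
    exact MIR1.neg hA hp ε v k u

end fields

end

end WPE
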