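import Pool.Agent.WPE.FD14
import Pool.Agent.WPE.MIR2

/-! WPE, block MI, row MI3: the Miura map intertwines the fields. -/

set_option linter.unusedSectionVars false

namespace WPE

open scoped TensorProduct
open MvPolynomial WPQ
open WPE.LD (Car Chr fockG Ups chr0)

variable {g β ι : Type} [LieRing g] [LieAlgebra ℂ g] [Fintype β] [DecidableEq β] [Fintype ι]
  [DecidableEq ι] {L : LD g β ι} {A : Matrix ι ι ℤ} {p : ℕ}

/-- [MI3] -/
theorem Internal.mi_YU (K : L.Car A p) (ε : Cocycle A p) {γ : ι → ℤ} {s : ι → ℂ} (hs : s = toC γ)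
    {N : Type} [AddCommGroup N] [Module ℂ N] {R : LRep L.bL N} (c : Chr K s R)
    (w : VC (L.kb (p : ℂ)⁻¹) L.nL)
    (hw : w ∈ cpart (L.kb (p : ℂ)⁻¹) L.nL (TMod.triv L.bL) 0) (k : ℤ)
    (x : CC (L.kb (p : ℂ)⁻¹) L.nL (TMod.ofRep R)) :
    Finsupp.single γ (Ups c (((cmod (L.kb (p : ℂ)⁻¹) L.nL (TMod.ofRep R)).Yh w).1 k x)) =
      mode ε (Finsupp.single 0 (Ups (chr0 K) w)) k (Finsupp.single γ (Ups c x)) := by
  subst hs
  refine Eq.trans (congrArg (Finsupp.single γ) ?_) (mi_Y K ε w k γ (Ups c x)).symm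
  exact Yh_hom (cmod (L.kb (p : ℂ)⁻¹) L.nL (TMod.ofRep R)) (fockG K (toC γ)) (Ups c)
    (fun m a y => LD.Ups_J c m a y) w hw k x

export Internal (mi_YU)

end WPE
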