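import Pool.Agent.WPE.MID
import Pool.Agent.WPQ.DefsB

/-! WPE, block MI, [MI4]: the image of `w₀` and of `J_a(-1)1` under `Υ`. -/

set_option linter.unusedSectionVars false

namespace WPE

open scoped TensorProduct
open MvPolynomial WPQ
open WPE.LD (Car Car' Ups chr0)

variable {g β ι : Type} [LieRing g] [LieAlgebra ℂ g] [Fintype β] [DecidableEq β] [Fintype ι]
  [DecidableEq ι] {L : LD g β ι} {A : Matrix ι ι ℤ} {p : ℕ}

namespace MIR4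

/-- `h(-1)` is the multiplication by `osc h 0`. -/
theorem heis_one (A : Matrix ι ι ℤ) (p : ℕ) (h s : ι → ℂ) (f : Fock ι) :
    heis A p h (-1) s f = osc h 0 * f := by
  unfold heis
  rw [if_pos (by norm_num), LinearMap.smul_apply, LinearMap.mulLeft_apply]
  norm_num

/-- `h(-2)` is the multiplication by `2 osc h 1`. -/
theorem heis_two (A : Matrix ι ι ℤ) (p : ℕ) (h s : ι → ℂ) (f : Fock ι) :
    heis A p h (-2) s f = (2 : ℂ) • (osc h 1 * f) := by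
  unfold heis
  rw [if_pos (by norm_num), LinearMap.smul_apply, LinearMap.mulLeft_apply]
  norm_num

/-- `Υ` of the vacuum. -/
theorem Ups_cvac (K : L.Car A p) : Ups (chr0 K) (cvac _ _) = 1 := by
  have h := LD.Ups_incl (chr0 K) ((1 : ℂ), 0, 0)
  have h1 : (chr0 K).l ((1 : ℂ), (0 : Gh L.nL ⊗[ℂ] ℂ), (0 : Gh L.nL ⊗[ℂ] (Gh L.nL ⊗[ℂ] ℂ))).1 =
      (1 : ℂ) := rfl
  rw [h1, one_smul] at h
  exact h

/-- `Υ (J_a(-1) x)` -/
theorem Internal.Ups_J1 (K : L.Car A p) (a : L.bL) (x : VC (L.kb (p : ℂ)⁻¹) L.nL) :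
    Ups (chr0 K) ((cmod (L.kb (p : ℂ)⁻¹) L.nL (TMod.triv L.bL)).J (-1) a x) =
      osc (L.cf p a) 0 * Ups (chr0 K) x := by
  rw [← heis_one A p (L.cf p a) 0]
  exact LD.Ups_J (chr0 K) (-1) a x

export Internal (Ups_J1)

/-- `Υ (J_a(-2) x)` -/
theorem Internal.Ups_J2 (K : L.Car A p) (a : L.bL) (x : VC (L.kb (p : ℂ)⁻¹) L.nL) :
    Ups (chr0 K) ((cmod (L.kb (p : ℂ)⁻¹) L.nL (TMod.triv L.bL)).J (-2) a x) =
      (2 : ℂ) • (osc (L.cf p a) 1 * Ups (chr0 K) x) := by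
  rw [← heis_two A p (L.cf p a) 0]
  exact LD.Ups_J (chr0 K) (-2) a x

export Internal (Ups_J2)

/-- The Gram matrix of the `h'_i` is the inverse of `A`. -/
theorem gram_inv (K : L.Car A p) (i j : ι) : L.form (L.h' i) (L.h' j) = invA A i j := by
  have h1 : Matrix.of (fun i j => L.form (L.h' i) (L.h' j)) * A.map (Int.cast : ℤ → ℂ) = 1 := by
    ext a b
    rw [Matrix.mul_apply, Matrix.one_apply]
    have h2 := LD.mi_hs_exp L (L.h'_mem a)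
    have h3 : L.form (L.h' a) (L.h b) = if a = b then 1 else 0 := by
      rw [L.symm, L.hh']
      simp only [eq_comm]
    rw [← h3]
    conv_rhs => rw [h2]
    rw [map_sum, LinearMap.sum_apply]
    refine Finset.sum_congr rfl fun k _ => ?_
    rw [map_smul, LinearMap.smul_apply, K.hh, smul_eq_mul]
    rfl
  have h2 := Matrix.inv_eq_left_inv h1
  unfold invA
  rw [h2]
  rfl

/-- Linearity. -/
theorem lin_w0 {V W ι : Type} [Fintype ι] [AddCommGroup V] [Module ℂ V] [AddCommGroup W]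
    [Module ℂ W] (f : V →ₗ[ℂ] W) (a c : V) (b : ι → V) (r s : ℂ) (a' c' : W) (b' : ι → W)
    (e1 : f a = a') (e2 : ∀ i, f (b i) = b' i) (e3 : f c = c') :
    f (a - r • ∑ i, b i + s • c) = a' - r • ∑ i, b' i + s • c' := by
  rw [map_add, map_sub, map_smul, map_smul, map_sum, e1, e3]
  simp only [e2]

/-- `Υ` of `w₀` -/
theorem Ups_w0 (K : L.Car A p) : Ups (chr0 K) (L.w0 (p : ℂ)⁻¹) =
    osc (L.cf p L.FB) 0 - (1 / 2 : ℂ) • ∑ i, osc (L.cf p (L.hB i)) 0 * osc (L.cf p (L.hB' i)) 0 +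
      (1 - (p : ℂ)⁻¹) • (2 : ℂ) • osc (L.cf p L.rhoB) 1 := by
  have e1 : Ups (chr0 K) ((cmod (L.kb (p : ℂ)⁻¹) L.nL (TMod.triv L.bL)).J (-1) L.FB (cvac _ _)) =
      osc (L.cf p L.FB) 0 := by
    rw [Ups_J1, Ups_cvac, mul_one]
  have e2 : ∀ i, Ups (chr0 K) ((cmod (L.kb (p : ℂ)⁻¹) L.nL (TMod.triv L.bL)).J (-1) (L.hB i)
      ((cmod (L.kb (p : ℂ)⁻¹) L.nL (TMod.triv L.bL)).J (-1) (L.hB' i) (cvac _ _))) =
      osc (L.cf p (L.hB i)) 0 * osc (L.cf p (L.hB' i)) 0 := by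
    intro i
    rw [Ups_J1, Ups_J1, Ups_cvac, mul_one]
  have e3 : Ups (chr0 K) ((cmod (L.kb (p : ℂ)⁻¹) L.nL (TMod.triv L.bL)).J (-2) L.rhoB
      (cvac _ _)) = (2 : ℂ) • osc (L.cf p L.rhoB) 1 := by
    rw [Ups_J2, Ups_cvac, mul_one]
  exact lin_w0 (Ups (chr0 K)) _ _ _ _ _ _ _ _ e1 e2 e3

theorem cf_hB (p : ℕ) (i : ι) : L.cf p (L.hB i) = (-(p : ℂ)⁻¹) • (Pi.single i 1 : ι → ℂ) := by
  funext j
  rw [LD.cf_apply, Pi.smul_apply, smul_eq_mul]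
  have h1 : ((L.hB i : L.bL) : g) = L.h i := rfl
  rw [h1, L.hh', Pi.single_apply]
  simp only [eq_comm]

theorem cf_hB' (K : L.Car A p) (i : ι) : L.cf p (L.hB' i) = -dualVec A p i := by
  funext j
  rw [LD.cf_apply, Pi.neg_apply]
  have h1 : ((L.hB' i : L.bL) : g) = L.h' i := rfl
  rw [h1, gram_inv K]
  unfold dualVec
  ring

theorem cf_rhoB (K : L.Car' A p) (hp0 : (p : ℂ) ≠ 0) :
    ((1 : ℂ) - (p : ℂ)⁻¹) • L.cf p L.rhoB = (-(p : ℂ)⁻¹) • bgVec A p := by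
  funext j
  rw [Pi.smul_apply, Pi.smul_apply, LD.cf_apply, smul_eq_mul, smul_eq_mul]
  have h1 : ((L.rhoB : L.bL) : g) = L.rho := rfl
  rw [h1, K.hr]
  have h2 : WPQ.rho A j = ∑ k, invA A j k := by
    unfold WPQ.rho invA
    simp [Matrix.mulVec, dotProduct]
  rw [h2]
  unfold bgVec
  field_simp

end MIR4

open MIR4 in
/-- [MI4] `Υ(w₀) = -(1/p) ω`. -/
theorem mi_w0_Ups (K : L.Car' A p) :
    (Finsupp.single 0 (Ups (chr0 K.toCar) (L.w0 (p : ℂ)⁻¹)) : VL ι) =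
      (-(p : ℂ)⁻¹) • omegaV A p := by
  have hp0 : (p : ℂ) ≠ 0 := by
    have h1 := K.hp
    have h2 : p ≠ 0 := by omega
    exact_mod_cast h2
  have hF : L.cf p L.FB = 0 := L.cf_nm p L.FB L.F_nm
  have h0 : osc (0 : ι → ℂ) 0 = 0 := by
    have := mi_osc_smul (0 : ℂ) (0 : ι → ℂ) 0
    rwa [zero_smul, zero_smul] at this
  have h1 : ∑ i, osc (L.cf p (L.hB i)) 0 * osc (L.cf p (L.hB' i)) 0 =
      (p : ℂ)⁻¹ • ∑ i, osc (dualVec A p i) 0 * osc (Pi.single i 1) 0 := by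
    rw [Finset.smul_sum]
    refine Finset.sum_congr rfl fun i _ => ?_
    rw [cf_hB, cf_hB' K.toCar, mi_osc_smul]
    have h2 : osc (-dualVec A p i) 0 = -osc (dualVec A p i) 0 := by
      have := mi_osc_smul (-1 : ℂ) (dualVec A p i) 0
      rwa [neg_one_smul, neg_one_smul] at this
    rw [h2, smul_mul_assoc, mul_neg, smul_neg, neg_smul, neg_neg, mul_comm]
  have h3 : ((1 : ℂ) - (p : ℂ)⁻¹) • (2 : ℂ) • osc (L.cf p L.rhoB) 1 =
      (-(p : ℂ)⁻¹) • (C (2 : ℂ) * osc (bgVec A p) 1) := by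
    rw [smul_comm, ← mi_osc_smul, cf_rhoB K hp0, mi_osc_smul, smul_comm, smul_eq_C_mul _ (2 : ℂ)]
  unfold omegaV
  rw [Ups_w0, Finsupp.smul_single, hF, h0, zero_sub, h1, h3, smul_add, ← smul_eq_C_mul _ (1 / 2 : ℂ),
    smul_smul, smul_smul, ← neg_smul]
  have h4 : -((1 / 2 : ℂ) * (p : ℂ)⁻¹) = -(p : ℂ)⁻¹ * (1 / 2) := by ring
  rw [h4]

open MIR4 in
/-- [MI4] `Υ(J_a(-1)1) = a(-1)1`. -/
theorem Internal.mi_J_Ups (K : L.Car A p) (a : L.bL) :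
    Ups (chr0 K) ((cmod (L.kb (p : ℂ)⁻¹) L.nL (TMod.triv L.bL)).J (-1) a (cvac _ _)) =
      osc (L.cf p a) 0 := by
  rw [Ups_J1, Ups_cvac, mul_one]

export Internal (mi_J_Ups)

end WPE
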