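import Pool.Agent.WPE.MID

set_option linter.unusedSectionVars false

/-! WPE, block MI, row MI8: `∑ [h_i, [h'_i, F]] = 2 F`. -/

namespace WPE

open scoped TensorProduct
open MvPolynomial WPQ
open WPE.LD (Car CarF Simp levi)

section F2

variable {g β ι : Type} [LieRing g] [LieAlgebra ℂ g] [Fintype β] [DecidableEq β] [Fintype ι]
  [DecidableEq ι] {L : LD g β ι} {A : Matrix ι ι ℤ} {p : ℕ}

namespace MIR8

/-- `α_j(h'_i) = δ_ij`. -/
theorem al_h' (K : L.Car A p) (i j : ι) :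
    LD.alL L (fun i => (A i j : ℂ)) (L.h' i) = if i = j then 1 else 0 := by
  have h1 : L.form (L.h' i) (L.h j) = if i = j then 1 else 0 := by
    rw [L.symm, L.hh']
    by_cases h : i = j
    · rw [if_pos h, if_pos h.symm]
    · rw [if_neg h, if_neg fun h' => h h'.symm]
  rw [← h1, LD.alL_apply]
  have h2 := LD.mi_hs_exp L (L.h'_mem i)
  have h3 : L.form (L.h' i) (L.h j) = ∑ k, L.form (L.h' i) (L.h' k) * (A k j : ℂ) := by
    conv_lhs => rw [h2]
    rw [map_sum, LinearMap.sum_apply]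
    refine Finset.sum_congr rfl fun k _ => ?_
    rw [map_smul, LinearMap.smul_apply, K.hh, smul_eq_mul]
  rw [h3]
  exact Finset.sum_congr rfl fun k _ => mul_comm _ _

theorem simple (K : L.Car A p) (j : ι) (b : β) (S : Simp L b (fun i => (A i j : ℂ))) :
    ∑ i, ⁅L.h i, ⁅L.h' i, L.f b⁆⁆ = (2 : ℂ) • L.f b := by
  have h1 : ∀ i, ⁅L.h i, ⁅L.h' i, L.f b⁆⁆ = if i = j then (2 : ℂ) • L.f b else 0 := by
    intro i
    rw [LD.al_f S (L.h'_mem i), al_h' K i j]
    by_cases h : i = j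
    · rw [if_pos h, if_pos h, h, neg_smul, one_smul, lie_neg, S.hf, neg_smul, neg_neg,
        K.ade.diag j]
      norm_num
    · rw [if_neg h, if_neg h, neg_zero, zero_smul, lie_zero]
  rw [Finset.sum_congr rfl fun i _ => h1 i, Finset.sum_ite_eq' Finset.univ j,
    if_pos (Finset.mem_univ j)]

end MIR8

theorem mi_F2 {sr : ι → β} (K : L.CarF A p sr) :
    ∑ i, ⁅L.h i, ⁅L.h' i, L.F⁆⁆ = (2 : ℂ) • L.F := by
  rw [K.F_eq, Finset.smul_sum]
  have h1 : ∀ i, ⁅L.h i, ⁅L.h' i, ∑ j, L.f (sr j)⁆⁆ = ∑ j, ⁅L.h i, ⁅L.h' i, L.f (sr j)⁆⁆ := by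
    intro i
    rw [lie_sum, lie_sum]
  rw [Finset.sum_congr rfl fun i _ => h1 i, Finset.sum_comm]
  exact Finset.sum_congr rfl fun j _ => MIR8.simple K.toCar j (sr j) (K.simp j)

theorem mi_F2_levi (K : L.Car A p) (j : ι) (b : β) (S : Simp L b (fun i => (A i j : ℂ))) :
    ∑ i, ⁅(levi S).h i, ⁅(levi S).h' i, (levi S).F⁆⁆ = (2 : ℂ) • (levi S).F := by
  refine Subtype.ext ?_
  rw [AddSubmonoidClass.coe_finsetSum]
  exact MIR8.simple K j b S

end F2

end WPE
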