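import Pool.Agent.WPE.MID
import Pool.Agent.WPQ.FL5
import Pool.Agent.WPQ.VP1

set_option linter.unusedSectionVars false

namespace WPE

open scoped TensorProduct
open MvPolynomial WPQ

section MJ

variable {ι : Type} [Fintype ι] [DecidableEq ι] {A : Matrix ι ι ℤ} {p : ℕ}

namespace MIR9

/-- a power commutes with an operator which commutes -/
theorem pow_comm {V : Type} [AddCommGroup V] [Module ℂ V] (E T : V →ₗ[ℂ] V)
    (h : ∀ v, T (E v) = E (T v)) (n : ℕ) (v : V) : T ((E ^ n) v) = (E ^ n) (T v) := by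
  induction n generalizing v with
  | zero => rfl
  | succ n ih =>
    rw [pow_succ', Module.End.mul_apply, Module.End.mul_apply, h, ih]

end MIR9

theorem mi_MJ_L (hA : IsADE A) (hp : 1 ≤ p) (ε : Cocycle A p) (j : ι) (ν : ι → ℤ) (k : ℤ)
    (f : Fock ι) (hf : f ∈ MJ ε j ν) : Lop A p (toC (-ν)) k f ∈ MJ ε j ν := by
  obtain ⟨h1, h2⟩ := hf
  refine ⟨?_, ?_⟩
  · have h := congrArg (fun F => F f) (Lop_vop A hA p hp (toC (-ν)) (Pi.single j (-(p : ℂ)⁻¹)) k
      ((∑ i, A j i * (-ν) i) - 1))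
    have h3 : Lop A p (toC (-ν) + Pi.single j (-(p : ℂ)⁻¹)) k
        (vop A p (Pi.single j (-(p : ℂ)⁻¹)) ((∑ i, A j i * (-ν) i) - 1) f) -
        vop A p (Pi.single j (-(p : ℂ)⁻¹)) ((∑ i, A j i * (-ν) i) - 1) (Lop A p (toC (-ν)) k f) =
        (((((∑ i, A j i * (-ν) i) - 1 : ℤ) : ℂ) - k +
          form A p (Pi.single j (-(p : ℂ)⁻¹)) (toC (-ν)) + ((k : ℂ) + 1) *
          ((1 / 2 : ℂ) * form A p (Pi.single j (-(p : ℂ)⁻¹)) (Pi.single j (-(p : ℂ)⁻¹)) -
            form A p (bg A p) (Pi.single j (-(p : ℂ)⁻¹)))) •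
          vop A p (Pi.single j (-(p : ℂ)⁻¹)) ((∑ i, A j i * (-ν) i) - 1 - k)) f := h
    have h4 : ((((∑ i, A j i * (-ν) i) - 1 : ℤ) : ℂ) - k +
          form A p (Pi.single j (-(p : ℂ)⁻¹)) (toC (-ν)) + ((k : ℂ) + 1) *
          ((1 / 2 : ℂ) * form A p (Pi.single j (-(p : ℂ)⁻¹)) (Pi.single j (-(p : ℂ)⁻¹)) -
            form A p (bg A p) (Pi.single j (-(p : ℂ)⁻¹)))) = 0 := by
      rw [vp1_delta hA hp j, vp1_form hp j (-ν)]
      unfold pr
      push_cast
      ring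
    rw [h4, h1, map_zero, zero_sub, zero_smul, LinearMap.zero_apply, neg_eq_zero] at h3
    exact h3
  · have h3 : Finsupp.single (-ν) (Lop A p (toC (-ν)) k f) =
        LS (Shift.zero A p) k (Finsupp.single (-ν) f) := by
      have e : (Shift.zero A p).s + toC (-ν) = toC (-ν) := zero_add _
      rw [fl5_LS_single, e]
    show (Ej ε (Shift.zero A p) j ^ ((pr A j ν).toNat + 1))
      (Finsupp.single (-ν) (Lop A p (toC (-ν)) k f)) = 0
    rw [h3, ← MIR9.pow_comm _ _ (fun v => congrArg (fun F => F v)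
      (LS_Ej hA hp ε (Shift.zero A p) j k)), h2, map_zero]

theorem mi_MJ_h (hA : IsADE A) (hp : 1 ≤ p) (ε : Cocycle A p) (j : ι) (ν : ι → ℤ) (h : ι → ℂ)
    (hh : form A p h (bb j) = 0) (k : ℤ) (f : Fock ι) (hf : f ∈ MJ ε j ν) :
    heis A p h k (toC (-ν)) f ∈ MJ ε j ν := by
  obtain ⟨h1, h2⟩ := hf
  have hsym : ∀ i j, A i j = A j i := hA.symm
  have h0 : form A p h (Pi.single j (-(p : ℂ)⁻¹)) = 0 := by
    rw [form_symm A hsym, vp1_nu, fw9_form_smul, form_symm A hsym, hh, mul_zero]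
  refine ⟨?_, ?_⟩
  · have h3 := congrArg (fun F => F f) (heis_vop A hsym p h (Pi.single j (-(p : ℂ)⁻¹))
      (toC (-ν)) k ((∑ i, A j i * (-ν) i) - 1))
    have h4 : heis A p h k (toC (-ν) + Pi.single j (-(p : ℂ)⁻¹))
        (vop A p (Pi.single j (-(p : ℂ)⁻¹)) ((∑ i, A j i * (-ν) i) - 1) f) -
        vop A p (Pi.single j (-(p : ℂ)⁻¹)) ((∑ i, A j i * (-ν) i) - 1)
          (heis A p h k (toC (-ν)) f) =
        (form A p h (Pi.single j (-(p : ℂ)⁻¹)) •
          vop A p (Pi.single j (-(p : ℂ)⁻¹)) ((∑ i, A j i * (-ν) i) - 1 - k)) f := h3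
    rw [h0, h1, map_zero, zero_sub, zero_smul, LinearMap.zero_apply, neg_eq_zero] at h4
    exact h4
  · have h3 : Finsupp.single (-ν) (heis A p h k (toC (-ν)) f) =
        hS (Shift.zero A p) h k (Finsupp.single (-ν) f) := by
      have e : (Shift.zero A p).s + toC (-ν) = toC (-ν) := zero_add _
      unfold hS
      rw [Finsupp.lsum_single, e]
      rfl
    have hc : ∀ v, hS (Shift.zero A p) h k (Ej ε (Shift.zero A p) j v) =
        Ej ε (Shift.zero A p) j (hS (Shift.zero A p) h k v) := by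
      intro v
      have h5 := congrArg (fun F => F v) (hS_expS hsym ε (Shift.zero A p) h (rt j) k 0)
      have h6 : hS (Shift.zero A p) h k (expS ε (Shift.zero A p) (rt j) 0 v) -
          expS ε (Shift.zero A p) (rt j) 0 (hS (Shift.zero A p) h k v) =
          (form A p h (toC (rt j)) • expS ε (Shift.zero A p) (rt j) (k + 0)) v := h5
      rw [vp1_toC_rt, hh, zero_smul, LinearMap.zero_apply, sub_eq_zero] at h6
      exact h6
    show (Ej ε (Shift.zero A p) j ^ ((pr A j ν).toNat + 1))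
      (Finsupp.single (-ν) (heis A p h k (toC (-ν)) f)) = 0
    rw [h3, ← MIR9.pow_comm _ _ hc, h2, map_zero]

end MJ

end WPE
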