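import Pool.Agent.WPE.MIE
import Pool.Agent.WPE.MIR10
import Pool.Agent.WPE.MIR14
import Pool.Agent.WPE.MIR17
import Pool.Agent.WPE.MIR3
import Pool.Agent.WPE.MIR4
import Pool.Agent.WPE.MIR8
import Pool.Agent.WPE.MIR9

set_option linter.unusedSectionVars false

/-! WPE, block MI, row MI18: `Υ(ker Q) ⊆ M^j`. -/

namespace WPE

open scoped TensorProduct
open MvPolynomial WPQ
open WPE.LD (Car Car' Simp Chr NU Ups chr0 levi toLev NQ)

section main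

namespace MIR18

/-- The trivial module has energy `0`. -/
theorem energy (B : Type) [LieRing B] [LieAlgebra ℂ B] :
    (TMod.triv B).IsEnergy (0 : ℂ →ₗ[ℂ] ℂ) := by
  intro m a v
  rw [TMod.triv_act, LinearMap.zero_apply, LinearMap.zero_apply, map_zero, smul_zero, sub_zero]

/-- `∑ rho_i (α_i, ν) = ∑ ν_i`. -/
theorem rho_sum {ι : Type} [Fintype ι] [DecidableEq ι] {A : Matrix ι ι ℤ} (hA : IsADE A)
    (ν : ι → ℤ) : ∑ i, WPQ.rho A i * ((WPQ.pr A i ν : ℤ) : ℂ) = ((∑ i, ν i : ℤ) : ℂ) := by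
  have h1 : (A.map (Int.cast : ℤ → ℂ)).mulVec (WPQ.rho A) = fun _ => 1 := by
    unfold WPQ.rho
    rw [Matrix.mulVec_mulVec, Matrix.mul_nonsing_inv _ (det_ne_zero A hA), Matrix.one_mulVec]
  have h2 : ∀ k, ∑ i, WPQ.rho A i * (A i k : ℂ) = 1 := by
    intro k
    have h3 := congrFun h1 k
    simp only [Matrix.mulVec, dotProduct, Matrix.map_apply] at h3
    rw [← h3]
    refine Finset.sum_congr rfl fun i _ => ?_
    rw [hA.symm i k, mul_comm]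
  unfold WPQ.pr
  push_cast
  have h4 : ∀ i, WPQ.rho A i * ∑ k, (A i k : ℂ) * (ν k : ℂ) =
      ∑ k, WPQ.rho A i * (A i k : ℂ) * (ν k : ℂ) := by
    intro i
    rw [Finset.mul_sum]
    exact Finset.sum_congr rfl fun k _ => (mul_assoc _ _ _).symm
  rw [Finset.sum_congr rfl fun i _ => h4 i, Finset.sum_comm]
  refine Finset.sum_congr rfl fun k _ => ?_
  rw [← Finset.sum_mul, h2, one_mul]

/-- The pure lattice part of `w0_stable`. -/
theorem w0_aux {ι : Type} [Fintype ι] [DecidableEq ι] {A : Matrix ι ι ℤ} {p : ℕ} (hA : IsADE A)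
    (hp : 1 ≤ p) (ε : Cocycle A p) (j : ι) (ν : ι → ℤ) (k : ℤ) (y z : Fock ι)
    (h1 : Finsupp.single (-ν) y =
      mode ε ((-(p : ℂ)⁻¹) • omegaV A p) k (Finsupp.single (-ν) z)) (hz : z ∈ MJ ε j ν) :
    y ∈ MJ ε j ν := by
  rw [mode_smul hA hp, omegaV_eq, mode_omega hA hp,
    LinearMap.smul_apply, fl2_LS_single, fl2_zero_s, zero_add, Finsupp.smul_single] at h1
  have h2 := Finsupp.single_injective (-ν) h1
  rw [h2]
  exact Submodule.smul_mem _ _ (mi_MJ_L hA hp ε j ν (k - 1) _ hz)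

variable {g β ι : Type} [LieRing g] [LieAlgebra ℂ g] [Fintype β] [DecidableEq β] [Fintype ι]
  [DecidableEq ι] {L : LD g β ι} {A : Matrix ι ι ℤ} {p : ℕ}
variable {N : Type} [AddCommGroup N] [Module ℂ N] [LieRingModule g N] [LieModule ℂ g N]

/-- `rho v₀ = (∑ ν_i) v₀`. -/
theorem rho_v0 (K : L.Car' A p) {ν : ι → ℤ} {v0 : N}
    (H : L.HW N v0 (fun i => ((WPQ.pr A i ν : ℤ) : ℂ))) :
    ⁅L.rho, v0⁆ = ((∑ i, ν i : ℤ) : ℂ) • v0 := by
  have h1 := LD.mi_hs_exp L L.rho_mem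
  conv_lhs => rw [h1]
  rw [sum_lie, ← rho_sum K.ade ν, Finset.sum_smul]
  refine Finset.sum_congr rfl fun i _ => ?_
  rw [smul_lie, H.h_v0, smul_smul, K.hr]

/-- The Cartan subalgebra of the Levi data. -/
theorem hs_coe {b : β} {al : ι → ℂ} (S : Simp L b al) {x : LD.lev S} (hx : x ∈ (levi S).hs) :
    (x : g) ∈ L.hs := by
  have h : (levi S).hs ≤ L.hs.comap (LD.lev S).toSubmodule.subtype := by
    refine Submodule.span_le.2 ?_
    rintro _ ⟨i, rfl⟩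
    exact L.h_mem_hs i
  exact h hx

/-- `(cf a, b_j) = 0` if `[F, a] = 0`. -/
theorem form_zero (K : L.Car A p) (j : ι) (b : β) (S : Simp L b (fun i => (A i j : ℂ)))
    (a : (levi S).bL) (ha : (a : LD.lev S) ∈ (levi S).hs)
    (hF : ⁅(levi S).F, (a : LD.lev S)⁆ = 0) : WPQ.form A p ((levi S).cf p a) (bb j) = 0 := by
  have hp0 : (p : ℂ) ≠ 0 := by
    have h := K.hp
    have : p ≠ 0 := by omega
    exact_mod_cast this
  have h1 : (((a : LD.lev S) : g)) ∈ L.hs := hs_coe S ha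
  have h2 : ⁅L.f b, ((a : LD.lev S) : g)⁆ = 0 := congrArg Subtype.val hF
  have h3 : ⁅((a : LD.lev S) : g), L.f b⁆ = 0 := by
    rw [← lie_skew, h2, neg_zero]
  rw [LD.al_f S h1] at h3
  have hf : L.f b ≠ 0 := by
    intro h
    have h4 := L.ef b b
    rw [h, map_zero, if_pos rfl] at h4
    exact zero_ne_one h4
  have h4 : LD.alL L (fun i => (A i j : ℂ)) ((a : LD.lev S) : g) = 0 := by
    rcases smul_eq_zero.1 h3 with h5 | h5
    · exact neg_eq_zero.1 h5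
    · exact absurd h5 hf
  rw [LD.alL_apply] at h4
  unfold WPQ.form bb
  have h5 : ∀ i, ∑ k, (levi S).cf p a i * (A i k : ℂ) * (Pi.single j 1 : ι → ℂ) k =
      -(p : ℂ)⁻¹ * ((A i j : ℂ) * L.form ((a : LD.lev S) : g) (L.h' i)) := by
    intro i
    rw [Finset.sum_eq_single j]
    · rw [Pi.single_eq_same, mul_one]
      have h6 : (levi S).cf p a i = -(p : ℂ)⁻¹ * L.form ((a : LD.lev S) : g) (L.h' i) := rfl
      rw [h6]
      ring
    · intro k _ hk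
      rw [Pi.single_eq_of_ne hk, mul_zero]
    · intro h
      exact absurd (Finset.mem_univ j) h
  rw [Finset.sum_congr rfl fun i _ => h5 i, ← Finset.mul_sum, h4, mul_zero, mul_zero]

/-- The Virasoro part. -/
theorem Internal.w0_stable (K : L.Car' A p) (ε : Cocycle A p) (j : ι) (ν : ι → ℤ) {R : LRep L.bL N}
    (c : Chr K.toCar (toC (-ν)) R) (k : ℤ) (x : CC (L.kb (p : ℂ)⁻¹) L.nL (TMod.ofRep R))
    (hx : Ups c x ∈ MJ ε j ν) :
    Ups c (((cmod (L.kb (p : ℂ)⁻¹) L.nL (TMod.ofRep R)).Yh (L.w0 (p : ℂ)⁻¹)).1 k x) ∈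
      MJ ε j ν := by
  have hd : L.w0 (p : ℂ)⁻¹ ∈ cpart (L.kb (p : ℂ)⁻¹) L.nL (TMod.triv L.bL) 0 :=
    (mi_w0_deg L (p : ℂ)⁻¹ (energy L.bL)).1
  have h1 := mi_YU K.toCar ε (γ := -ν) (s := toC (-ν)) rfl c (L.w0 (p : ℂ)⁻¹) hd k x
  have h0 : (Finsupp.single 0 (Ups (chr0 K.toCar) (L.w0 (p : ℂ)⁻¹)) : VL ι) =
      (-(p : ℂ)⁻¹) • omegaV A p := mi_w0_Ups K
  exact w0_aux K.ade K.hp ε j ν k _ _
    (h1.trans (congrArg (fun u => mode ε u k (Finsupp.single (-ν) (Ups c x))) h0)) hx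

export Internal (w0_stable)

end MIR18

variable {g β ι : Type} [LieRing g] [LieAlgebra ℂ g] [Fintype β] [DecidableEq β] [Fintype ι]
  [DecidableEq ι] {L : LD g β ι} {A : Matrix ι ι ℤ} {p : ℕ}
variable {N : Type} [AddCommGroup N] [Module ℂ N] [LieRingModule g N] [LieModule ℂ g N]

/-- [MI18] `Υ(ker Q) ⊆ M^j`. -/
theorem Internal.mi_Ups_MJ (hp : 2 ≤ p) (K : L.Car' A p) (ε : Cocycle A p) (j : ι) (b : β)
    (S : Simp L b (fun i => (A i j : ℂ))) (hF : L.form L.F (L.e b) = 1) {ν : ι → ℤ}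
    (hν : Dom A ν) (M : NU K.toCar ν N)
    {Q0 : CC (L.kb (p : ℂ)⁻¹) L.nL (TMod.ofRep (L.rep N)) →ₗ[ℂ]
      CC (L.kb (p : ℂ)⁻¹) L.nL (TMod.ofRep (L.rep N))}
    (h0 : IsQ0 (L.kb (p : ℂ)⁻¹) (L.qn N (p : ℂ)⁻¹) Q0)
    (x : CC (L.kb (p : ℂ)⁻¹) L.nL (TMod.ofRep (L.rep N)))
    (hx : x ∈ cpart (L.kb (p : ℂ)⁻¹) L.nL (TMod.ofRep (L.rep N)) 0)
    (hQ : (L.qd (p : ℂ)⁻¹).Qd Q0 x = 0) : Ups M.c x ∈ MJ ε j ν := by
  obtain ⟨Q0', h0'⟩ := br_Q0 (br_qd (levi S) (p : ℂ)⁻¹)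
    ((levi S).qn (NQ S N) (p : ℂ)⁻¹) (br_qn (levi S) (p : ℂ)⁻¹ (NQ S N))
  have hy := mi_cmap_cpart (toLev S (p : ℂ)⁻¹ N) 0 x hx
  have hQy := ((congrArg (fun t => (toLev S (p : ℂ)⁻¹ N).cmap t) hQ).trans
    (map_zero _)).symm.trans (mi_lev_Q S (p : ℂ)⁻¹ hF h0 h0' x hx)
  have K' : (levi S).Car' A p := K.levi S
  have key := mi_rank1 (levi S) rfl (p : ℂ)⁻¹ (mi_F2_levi K.toCar j b S) (NQ S N)
    (M.levi S).v0 _ (M.levi S).hw (∑ i, ν i) (MIR18.rho_v0 K' (M.levi S).hw) h0'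
    ((MJ ε j ν).comap (Ups (M.levi S).c)) ?_ ?_ ?_ ((toLev S (p : ℂ)⁻¹ N).cmap x) hy hQy.symm
  · have h1 : Ups (M.levi S).c ((toLev S (p : ℂ)⁻¹ N).cmap x) = Ups M.c x :=
      LD.Ups_cmap M.c S x
    rw [Submodule.mem_comap, h1] at key
    exact key
  · rw [Submodule.mem_comap]
    have h1 : Ups (M.levi S).c (i0 ((levi S).kb (p : ℂ)⁻¹) (levi S).nL
        ((levi S).rep (NQ S N)) (M.levi S).v0) = (M.levi S).c.l (M.levi S).v0 • (1 : Fock ι) :=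
      LD.Ups_incl _ _
    rw [h1, (M.levi S).c0, one_smul]
    exact mi_MJ_one K.ade hp ε ν hν j
  · intro k z hz
    exact MIR18.w0_stable K' ε j ν (M.levi S).c k z hz
  · intro k a ha hFa z hz
    rw [Submodule.mem_comap] at hz ⊢
    rw [LD.Ups_J]
    exact mi_MJ_h K.ade K.hp ε j ν _ (MIR18.form_zero K.toCar j b S a ha hFa) k _ hz

export Internal (mi_Ups_MJ)

end main

end WPE
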