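import Pool.Agent.WPE.MIF
import Pool.Agent.WPE.MIR18

/-! WPE, block MI: row MI19. -/

set_option linter.unusedSectionVars false

namespace WPE

open scoped TensorProduct
open MvPolynomial WPQ
open WPE.LD (Car CarF NU fockG Ups chr0)

variable {g β ι : Type} [LieRing g] [LieAlgebra ℂ g] [Fintype β] [DecidableEq β] [Fintype ι]
  [DecidableEq ι] {L : LD g β ι} {A : Matrix ι ι ℤ} {p : ℕ}

namespace MIR19

theorem step {E E' : Type} [AddCommGroup E] [Module ℂ E] [AddCommGroup E'] [Module ℂ E']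
    (Q : E →ₗ[ℂ] E) (Q' : E' →ₗ[ℂ] E') (G : E →ₗ[ℂ] E') (J q : E →ₗ[ℂ] E)
    (J' q' : E' →ₗ[ℂ] E') (x : E) (h1 : Q (J x) = J (Q x) + q x)
    (h2 : Q' (J' (G x)) = J' (Q' (G x)) + q' (G x)) (h3 : ∀ y, G (J y) = J' (G y))
    (h4 : G (q x) = q' (G x)) (hx : G (Q x) = Q' (G x)) : G (Q (J x)) = Q' (G (J x)) := by
  rw [h1, h3, h2, map_add, h3, h4, hx]

theorem Q_i0 {B : Type} [LieRing B] [LieAlgebra ℂ B] {κ : B →ₗ[ℂ] B →ₗ[ℂ] ℂ}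
    {Y : Type} [AddCommGroup Y] [Module ℂ Y] [LieRingModule B Y] [LieModule ℂ B Y]
    {D : QD B Y} {N : Type} [AddCommGroup N] [Module ℂ N] (M : QN D N)
    {Q0 : CC κ Y (TMod.ofRep M.R) →ₗ[ℂ] CC κ Y (TMod.ofRep M.R)} (h : IsQ0 κ M Q0) (v : N)
    (hv : M.d v = 0) : D.Qd Q0 (i0 κ Y M.R v) = 0 := by
  have h1 := h.n0 v
  have h2 : (cmod κ Y (TMod.ofRep M.R)).ψ 0 D.F (i0 κ Y M.R v) = 0 :=
    Ind.psi_incl_nonneg κ (TMod.gt Y (TMod.ofRep M.R)) 0 le_rfl D.F _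
  show Q0 (i0 κ Y M.R v) + (cmod κ Y (TMod.ofRep M.R)).ψ 0 D.F (i0 κ Y M.R v) = 0
  rw [h1, h2, hv, map_zero, map_zero, add_zero]

theorem Internal.tv_Q (L : LD g β ι) (κ : ℂ)
    {Q1 : VC (L.kb κ) L.nL →ₗ[ℂ] VC (L.kb κ) L.nL}
    (h1 : IsQ0 (L.kb κ) (QN.one (L.qd κ)) Q1)
    {Q0 : CC (L.kb κ) L.nL (TMod.ofRep (L.rep (TrivialLieModule ℂ g ℂ))) →ₗ[ℂ]
      CC (L.kb κ) L.nL (TMod.ofRep (L.rep (TrivialLieModule ℂ g ℂ)))}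
    (h0 : IsQ0 (L.kb κ) (L.qn (TrivialLieModule ℂ g ℂ) κ) Q0)
    (x : VC (L.kb κ) L.nL)
    (hx : x ∈ cpart (L.kb κ) L.nL (TMod.triv L.bL) 0) :
    (L.tv κ).cmap ((L.qd κ).Qd (R := LRep.triv L.bL) Q1 x) =
      (L.qd κ).Qd Q0 ((L.tv κ).cmap x) := by
  have hb1 := (br_Q (br_qd L κ) (QN.one (L.qd κ)) (QN.one_ok _) h1).2.2.2.1
  have hb0 := (br_Q (br_qd L κ) (L.qn (TrivialLieModule ℂ g ℂ) κ)
    (br_qn L κ (TrivialLieModule ℂ g ℂ)) h0).2.2.2.1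
  have hq := fun (m : ℤ) (a : L.bL) (y : VC (L.kb κ) L.nL) =>
    mi_cmap_qq (L.tv κ) (L.qd κ).Om (L.qd κ).Lk (L.qd κ).Fm (L.qd κ).Om (L.qd κ).Lk
    (L.qd κ).Fm
    (fun a => LinearMap.congr_fun (TensorProduct.map_id (R := ℂ) (M := L.bL) (N := L.nL)) _)
    (fun a => rfl) (fun a => rfl) m a y
  refine cpart_induction (LinearMap.eqLocus ((L.tv κ).cmap ∘ₗ
    (L.qd κ).Qd (R := LRep.triv L.bL) Q1) ((L.qd κ).Qd Q0 ∘ₗ (L.tv κ).cmap)) ?_ ?_ hx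
  · intro v
    have e1 := Q_i0 (QN.one (L.qd κ)) h1 v.1 rfl
    have e0 := Q_i0 (L.qn (TrivialLieModule ℂ g ℂ) κ) h0
      ((TrivialLieModule.equiv ℂ g ℂ).symm v.1) (by
        rw [LD.qn_d]
        refine Finset.sum_eq_zero fun b _ => ?_
        rw [trivial_lie_zero, TensorProduct.tmul_zero])
    have e2 : (L.tv κ).cmap (Ind.incl (L.kb κ) _ (KNpr L.nL ℂ 0 v)) =
        i0 (L.kb κ) L.nL (L.rep (TrivialLieModule ℂ g ℂ))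
          ((TrivialLieModule.equiv ℂ g ℂ).symm v.1) := by
      rw [CHom.cmap_incl, KNpr_zero, KNmap_apply]
      show Ind.incl _ _ (_, TensorProduct.map _ _ 0, TensorProduct.map _ _ 0) = _
      rw [map_zero, map_zero]
      rfl
    show (L.tv κ).cmap ((L.qd κ).Qd (R := LRep.triv L.bL) Q1
      (Ind.incl (L.kb κ) _ (KNpr L.nL ℂ 0 v))) =
      (L.qd κ).Qd Q0 ((L.tv κ).cmap (Ind.incl (L.kb κ) _ (KNpr L.nL ℂ 0 v)))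
    rw [e2]
    refine Eq.trans ?_ e0.symm
    exact (congrArg (L.tv κ).cmap e1).trans (map_zero _)
  · intro m a y _ hy
    exact step _ _ _ _ _ _ _ y (hb1 m a y) (hb0 m a _) (fun z => (L.tv κ).cmap_J m a z)
      (hq m a y) hy

export Internal (tv_Q)

end MIR19

open MIR19

/-- [MI19] The trivial module: `ker Q` in `X_ℂ` and in the complex of the trivial `g`-module. -/
theorem Internal.mi_tv (K : L.Car A p) {Q1 : VC (L.kb (p : ℂ)⁻¹) L.nL →ₗ[ℂ] VC (L.kb (p : ℂ)⁻¹) L.nL}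
    (h1 : IsQ0 (L.kb (p : ℂ)⁻¹) (QN.one (L.qd (p : ℂ)⁻¹)) Q1)
    {Q0 : CC (L.kb (p : ℂ)⁻¹) L.nL (TMod.ofRep (L.rep (TrivialLieModule ℂ g ℂ))) →ₗ[ℂ]
      CC (L.kb (p : ℂ)⁻¹) L.nL (TMod.ofRep (L.rep (TrivialLieModule ℂ g ℂ)))}
    (h0 : IsQ0 (L.kb (p : ℂ)⁻¹) (L.qn (TrivialLieModule ℂ g ℂ) (p : ℂ)⁻¹) Q0)
    (x : VC (L.kb (p : ℂ)⁻¹) L.nL)
    (hx : x ∈ cpart (L.kb (p : ℂ)⁻¹) L.nL (TMod.triv L.bL) 0) :
    (L.tv (p : ℂ)⁻¹).cmap x ∈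
      cpart (L.kb (p : ℂ)⁻¹) L.nL (TMod.ofRep (L.rep (TrivialLieModule ℂ g ℂ))) 0 ∧
    (L.tv (p : ℂ)⁻¹).cmap ((L.qd (p : ℂ)⁻¹).Qd (R := LRep.triv L.bL) Q1 x) =
      (L.qd (p : ℂ)⁻¹).Qd Q0 ((L.tv (p : ℂ)⁻¹).cmap x) ∧
    Ups (NU.zero K).c ((L.tv (p : ℂ)⁻¹).cmap x) = Ups (chr0 K) x := by
  refine ⟨mi_cmap_cpart _ 0 x hx, tv_Q L _ h1 h0 x hx, ?_⟩
  have h : Ups (NU.zero K).c ∘ₗ (L.tv (p : ℂ)⁻¹).cmap = Ups (chr0 K) := by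
    refine Ind.hom_ext (X := (fockG K 0).toBMod) ?_ (LD.Ups_J (chr0 K)) ?_
    · intro m a y
      rw [LinearMap.comp_apply, LinearMap.comp_apply]
      refine (congrArg (Ups (NU.zero K).c) ((L.tv (p : ℂ)⁻¹).cmap_J m a y)).trans ?_
      refine (LD.Ups_J (NU.zero K).c m a ((L.tv (p : ℂ)⁻¹).cmap y)).trans ?_
      have h2 : toC (-(0 : ι → ℤ)) = (0 : ι → ℂ) := by
        funext i
        simp [toC]
      exact congrArg (fun s : ι → ℂ => heis A p (L.cf p a) m s (Ups (NU.zero K).c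
        ((L.tv (p : ℂ)⁻¹).cmap y))) h2
    · intro v
      rw [LinearMap.comp_apply, CHom.cmap_incl, LD.Ups_incl]
      exact (LD.Ups_incl (chr0 K) v).symm
  exact LinearMap.congr_fun h x

export Internal (mi_tv)

/-- [MI19] `Υ(ker Q ∩ X_ℂ) ⊆ V^G`. -/
theorem Internal.mi_W (hp : 2 ≤ p) {sr : ι → β} (K : L.CarF A p sr) (ε : Cocycle A p)
    {Q1 : VC (L.kb (p : ℂ)⁻¹) L.nL →ₗ[ℂ] VC (L.kb (p : ℂ)⁻¹) L.nL}
    (h1 : IsQ0 (L.kb (p : ℂ)⁻¹) (QN.one (L.qd (p : ℂ)⁻¹)) Q1)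
    (u : VC (L.kb (p : ℂ)⁻¹) L.nL)
    (hu : u ∈ cpart (L.kb (p : ℂ)⁻¹) L.nL (TMod.triv L.bL) 0)
    (hQ : (L.qd (p : ℂ)⁻¹).Qd (R := LRep.triv L.bL) Q1 u = 0) :
    Ups (chr0 K.toCar) u ∈ KK A p := by
  obtain ⟨Q0, h0⟩ := br_Q0 (br_qd L (p : ℂ)⁻¹)
    (L.qn (TrivialLieModule ℂ g ℂ) (p : ℂ)⁻¹)
    (br_qn L (p : ℂ)⁻¹ (TrivialLieModule ℂ g ℂ))
  obtain ⟨ha, hb, hc⟩ := mi_tv K.toCar h1 h0 u hu
  rw [mi_MJ_KK K.ade ε]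
  intro j
  rw [← hc]
  have hF : L.form L.F (L.e (sr j)) = 1 := by
    rw [K.F_eq, map_sum, LinearMap.sum_apply, Finset.sum_eq_single j]
    · rw [L.symm, L.ef, if_pos rfl]
    · intro k _ hk
      rw [L.symm, L.ef, if_neg]
      intro h
      exact hk (K.inj h.symm)
    · intro h
      exact absurd (Finset.mem_univ j) h
  have hν : Dom A (0 : ι → ℤ) := by
    intro i
    have h : WPQ.pr A i 0 = 0 := by
      unfold WPQ.pr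
      simp
    rw [h]
  refine mi_Ups_MJ hp K.toCar' ε j (sr j) (K.simp j) hF hν (NU.zero K.toCar) h0 _ ha ?_
  rw [← hb, hQ, map_zero]

export Internal (mi_W)

end WPE
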