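import Pool.Agent.WPE.CL5
import Pool.Agent.WPE.KDSO
import Pool.Agent.WPE.KDX
import Pool.Agent.WPE.MIH
import Pool.Agent.WPE.MIR19

/-! [WPE-KDS] The generators of `V^G`: the lifts `w_i ∈ ker Q` of `J_{z_i}(-1) 1` are mapped by the Miura
map to vectors with symbols which are basic invariants. -/

set_option autoImplicit false
set_option linter.unusedSectionVars false

namespace WPE

open MvPolynomial WPQ
open scoped TensorProduct
open WPE.LD (CarF Ups chr0)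

noncomputable section

namespace KDS

section abs

variable {B : Type} [LieRing B] [LieAlgebra ℂ B] {κ : B →ₗ[ℂ] B →ₗ[ℂ] ℂ}
variable {Y : Type} [AddCommGroup Y] [Module ℂ Y] [LieRingModule B Y] [LieModule ℂ B Y]
variable {E : Type} [AddCommGroup E] [Module ℂ E]

/-- Zero modes and homogeneous elements. -/
theorem X_rho (X : GMod B Y κ E) (m : ℤ) (r a : B) (c : ℂ) (h : ⁅r, a⁆ = c • a) (x : E) :
    X.J 0 r (X.J m a x) = X.J m a (X.J 0 r x) + c • X.J m a x := by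
  have h1 := X.comm 0 m r a x
  have h2 : coc κ 0 m r a = 0 := by
    unfold coc
    simp
  rw [h2, zero_smul, add_zero, zero_add, h, map_smul, LinearMap.smul_apply] at h1
  rw [← h1]
  abel

/-- The operators `q(a)(-s-1)`. -/
theorem X_qq (X : GMod B Y κ E) (Om : B →ₗ[ℂ] B ⊗[ℂ] Y) (Lm Fm : B →ₗ[ℂ] Y) (s : ℕ) (a : B)
    (x : E) : X.qq Om Lm Fm (-(s : ℤ) - 1) a x = X.nop (-(s : ℤ) - 1) (Om a) x +
      ((s : ℂ) + 1) • X.ψ (-((s + 1 : ℕ) : ℤ) - 1) (Lm a) x + X.ψ (-(s : ℤ) - 1) (Fm a) x := by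
  rw [GMod.qq_apply]
  have e1 : (-(s : ℤ) - 1 - 1) = -((s + 1 : ℕ) : ℤ) - 1 := by push_cast; ring
  have e2 : ((-(s : ℤ) - 1 : ℤ) : ℂ) = -((s : ℂ) + 1) := by push_cast; ring
  rw [e1, e2, neg_smul, sub_neg_eq_add]

/-- Currents are linear. -/
theorem X_sum {κ' : Type} [Fintype κ'] (X : GMod B Y κ E) (D : E →ₗ[ℂ] E) (m : ℤ) (r : κ' → ℂ)
    (v : κ' → B) (x : E) : D (X.J m (∑ s, r s • v s) x) = ∑ s, r s • D (X.J m (v s) x) := by
  rw [map_sum, LinearMap.sum_apply, map_sum]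
  refine Finset.sum_congr rfl fun s _ => ?_
  rw [map_smul, LinearMap.smul_apply, map_smul]

variable {N : Type} [AddCommGroup N] [Module ℂ N]

/-- The degree operator and homogeneous currents. -/
theorem X_deg (κ : B →ₗ[ℂ] B →ₗ[ℂ] ℂ) (R : LRep B N) (rho a : B) (c : ℂ) (h : ⁅rho, a⁆ = c • a)
    (k : ℕ) (x : CC κ Y (TMod.ofRep R)) :
    cen 0 (isEnergy_zero R) ((cmod κ Y (TMod.ofRep R)).J (-(k : ℤ) - 1) a x) -
      (cmod κ Y (TMod.ofRep R)).J 0 rho ((cmod κ Y (TMod.ofRep R)).J (-(k : ℤ) - 1) a x) =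
    (cmod κ Y (TMod.ofRep R)).J (-(k : ℤ) - 1) a (cen 0 (isEnergy_zero R) x -
      (cmod κ Y (TMod.ofRep R)).J 0 rho x) +
        ((k : ℂ) + (1 - c)) • (cmod κ Y (TMod.ofRep R)).J (-(k : ℤ) - 1) a x := by
  rw [X_rho _ _ _ _ _ h, cen_J, map_sub]
  push_cast
  module

/-- The degree operator, applied. -/
theorem D_app {V : Type} [AddCommGroup V] [Module ℂ V] (C J : V →ₗ[ℂ] V) (x : V) :
    (C - J + ((0 : ℤ) : ℂ) • LinearMap.id : V →ₗ[ℂ] V) x = C x - J x := by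
  rw [LinearMap.add_apply, LinearMap.smul_apply, Int.cast_zero, zero_smul, add_zero,
    LinearMap.sub_apply]

/-- The degree operator and a current. -/
theorem D_J {V : Type} [AddCommGroup V] [Module ℂ V] (C J0 J : V →ₗ[ℂ] V) {c c' : ℂ} (x : V)
    (hc : c' = c) (h : C (J x) - J0 (J x) = J (C x - J0 x) + c • J x) :
    (C - J0 + ((0 : ℤ) : ℂ) • LinearMap.id : V →ₗ[ℂ] V) (J x) =
      J ((C - J0 + ((0 : ℤ) : ℂ) • LinearMap.id : V →ₗ[ℂ] V) x) + c' • J x := by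
  rw [D_app, D_app, hc]
  exact h

/-- Sums. -/
theorem add4 {V : Type} [AddCommGroup V] {q j r n l f f' : V} (h : q = j + r)
    (h3 : r = n + l + f) (h2 : f = f') : q = j + n + l + f' := by
  rw [h, h3, h2, ← add_assoc, ← add_assoc]

/-- The energy of the vacuum. -/
theorem cen_v (κ : B →ₗ[ℂ] B →ₗ[ℂ] ℂ) :
    cen 0 (isEnergy_zero (LRep.triv B)) (cvac κ Y) = 0 := by
  have h1 : cen (κ := κ) 0 (isEnergy_zero (LRep.triv B)) (cvac κ Y) =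
      Ind.incl κ _ (KNE Y (0 : ℂ →ₗ[ℂ] ℂ) ((1 : ℂ), 0, 0)) :=
    cen_incl 0 (isEnergy_zero (LRep.triv B)) ((1 : ℂ), 0, 0)
  have h2 : KNE Y (0 : ℂ →ₗ[ℂ] ℂ) ((1 : ℂ), 0, 0) = 0 := by
    unfold KNE
    simp
  rw [h1, h2, map_zero]

end abs

section gen

variable {g β η : Type} [LieRing g] [LieAlgebra ℂ g] [Fintype β] [DecidableEq β] [Fintype η]
  [DecidableEq η] (L : LD g β η) (κ : ℂ)

/-- `[rho, a]` in `b₋`. -/
theorem rho_lie (s : β ⊕ η) (a : L.bL) (ha : (a : g) = L.bb s) :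
    ⁅L.rhoB, a⁆ = (L.cb s : ℂ) • a := by
  apply Subtype.ext
  have h1 : ⁅L.rho, L.bb s⁆ = (L.cb s : ℂ) • L.bb s := (la_G L).bb_gr s
  show ⁅L.rho, (a : g)⁆ = (L.cb s : ℂ) • (a : g)
  rw [ha]
  exact h1

/-- `J_rho(0)` and the currents. -/
theorem Internal.rho_J (s : β ⊕ η) (a : L.bL) (ha : (a : g) = L.bb s) (m : ℤ) (x : L.VX κ) :
    (L.vmod κ).J 0 L.rhoB ((L.vmod κ).J m a x) =
      (L.vmod κ).J m a ((L.vmod κ).J 0 L.rhoB x) + (L.cb s : ℂ) • (L.vmod κ).J m a x :=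
  X_rho (L.vmod κ) m L.rhoB a _ (rho_lie L s a ha) x

export Internal (rho_J)

/-- `J_rho(0) 1 = 0` -/
theorem Internal.rho_v : (L.vmod κ).J 0 L.rhoB (cvac (L.kb κ) L.nL) = 0 :=
  J_cvac (L.kb κ) L.nL 0 (le_refl 0) L.rhoB

export Internal (rho_v)

/-- The degree operator, applied. -/
theorem Internal.Dop_apply (x : L.VX κ) : L.Dop κ (LRep.triv L.bL) 0 x =
    cen 0 (isEnergy_zero (LRep.triv L.bL)) x - (L.vmod κ).J 0 L.rhoB x :=
  D_app (cen 0 (isEnergy_zero (LRep.triv L.bL))) ((L.vmod κ).J 0 L.rhoB) x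

export Internal (Dop_apply)

/-- The degree operator and the currents. -/
theorem Internal.Dop_J (s : β ⊕ η) (a : L.bL) (ha : (a : g) = L.bb s) (k : ℕ) (x : L.VX κ) :
    L.Dop κ (LRep.triv L.bL) 0 ((L.vmod κ).J (-(k : ℤ) - 1) a x) =
      (L.vmod κ).J (-(k : ℤ) - 1) a (L.Dop κ (LRep.triv L.bL) 0 x) +
        ((k : ℂ) + (L.wD s : ℂ)) • (L.vmod κ).J (-(k : ℤ) - 1) a x := by
  have h2 : ((L.wD s : ℕ) : ℂ) = 1 - (L.cb s : ℂ) := by
    have h := L.wD_cb s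
    exact_mod_cast congrArg (fun n : ℤ => (n : ℂ)) h
  exact D_J (cen 0 (isEnergy_zero (LRep.triv L.bL))) ((L.vmod κ).J 0 L.rhoB)
    ((L.vmod κ).J (-(k : ℤ) - 1) a) x (congrArg (fun t : ℂ => (k : ℂ) + t) h2)
    (X_deg (L.kb κ) (LRep.triv L.bL) L.rhoB a _ (rho_lie L s a ha) k x)

export Internal (Dop_J)

/-- The degree operator kills the vacuum. -/
theorem Internal.Dop_v : L.Dop κ (LRep.triv L.bL) 0 (cvac (L.kb κ) L.nL) = 0 := by
  rw [Dop_apply, rho_v, sub_zero]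
  exact cen_v (L.kb κ)

export Internal (Dop_v)

/-- The degree operator preserves `C⁰`. -/
theorem Internal.Dop_mem (x : L.VX κ) (hx : x ∈ cpart (L.kb κ) L.nL (TMod.triv L.bL) 0) :
    L.Dop κ (LRep.triv L.bL) 0 x ∈ cpart (L.kb κ) L.nL (TMod.triv L.bL) 0 := by
  refine L.c0_ind κ ((cpart (L.kb κ) L.nL (TMod.triv L.bL) 0).comap
    (L.Dop κ (LRep.triv L.bL) 0)) ?_ ?_ hx
  · rw [Submodule.mem_comap, Dop_v]
    exact zero_mem _
  · intro k a x hx0 hx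
    rw [Submodule.mem_comap] at hx ⊢
    -- expand `a` in the basis
    have key : ∀ a : g, ∀ ha : a ∈ L.bm, L.Dop κ (LRep.triv L.bL) 0
        ((L.vmod κ).J (-(k : ℤ) - 1) ⟨a, ha⟩ x) ∈ cpart (L.kb κ) L.nL (TMod.triv L.bL) 0 := by
      intro a ha
      have hm := ha
      rw [← (la_B L).bb_span] at hm
      obtain ⟨r, hr⟩ := (Submodule.mem_span_range_iff_exists_fun ℂ).1 hm
      have e : (⟨a, ha⟩ : L.bL) = ∑ s, r s • (⟨L.bb s, (la_B L).bb_mem s⟩ : L.bL) := by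
        apply Subtype.ext
        have : ((∑ s, r s • (⟨L.bb s, (la_B L).bb_mem s⟩ : L.bL) : L.bL) : g) =
            ∑ s, r s • L.bb s := by
          have h := map_sum L.jb (fun s => r s • (⟨L.bb s, (la_B L).bb_mem s⟩ : L.bL)) Finset.univ
          exact h
        rw [this, hr]
      rw [e]
      have h5 := X_sum (L.vmod κ) (L.Dop κ (LRep.triv L.bL) 0) (-(k : ℤ) - 1) r
        (fun s => (⟨L.bb s, (la_B L).bb_mem s⟩ : L.bL)) x
      rw [h5]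
      refine Submodule.sum_mem _ fun s _ => ?_
      refine Submodule.smul_mem _ _ ?_
      rw [Dop_J L κ s _ rfl]
      exact add_mem (cpart_J _ _ hx) (Submodule.smul_mem _ _ (cpart_J _ _ hx0))
    exact key a.1 a.2

export Internal (Dop_mem)

/-- Vectors of `C⁰` of higher degree. -/
theorem Internal.ge_span (m : ℕ) (x : L.VX κ) (hx : x ∈ cpart (L.kb κ) L.nL (TMod.triv L.bL) 0)
    (h : x ∈ GE ((L.vmod κ).J 0 L.rhoB) (-(m : ℤ) + 1)) :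
    x ∈ Submodule.span ℂ {y : L.VX κ | y ∈ cpart (L.kb κ) L.nL (TMod.triv L.bL) 0 ∧
        ∃ c : ℤ, -(m : ℤ) < c ∧ (L.vmod κ).J 0 L.rhoB y = (c : ℂ) • y} := by
  have h1 : GE ((L.vmod κ).J 0 L.rhoB) (-(m : ℤ) + 1) ≤ (Submodule.span ℂ {y : L.VX κ |
      y ∈ cpart (L.kb κ) L.nL (TMod.triv L.bL) 0 ∧
        ∃ c : ℤ, -(m : ℤ) < c ∧ (L.vmod κ).J 0 L.rhoB y = (c : ℂ) • y}).comap
          (cpr (L.kb κ) L.nL (TMod.triv L.bL) 0) := by
    unfold GE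
    refine iSup_le fun c => ?_
    intro y hy
    rw [Submodule.mem_comap]
    refine Submodule.subset_span ⟨⟨y, rfl⟩, c.1, by have := c.2; omega, ?_⟩
    have hy2 : (L.vmod κ).J 0 L.rhoB y = (c.1 : ℂ) • y := Module.End.mem_eigenspace_iff.1 hy
    have h3 := cpr_J (κ := L.kb κ) (Y := L.nL) (T := TMod.triv L.bL) 0 0 L.rhoB y
    exact h3.symm.trans ((congrArg (cpr (L.kb κ) L.nL (TMod.triv L.bL) 0) hy2).trans
      (map_smul _ _ _))
  have h2 := h1 h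
  exact (congrArg (fun t => t ∈ Submodule.span ℂ {y : L.VX κ |
    y ∈ cpart (L.kb κ) L.nL (TMod.triv L.bL) 0 ∧
      ∃ c : ℤ, -(m : ℤ) < c ∧ (L.vmod κ).J 0 L.rhoB y = (c : ℂ) • y}) (mem_cpart_iff.1 hx)).mp h2

export Internal (ge_span)

/-- `[F, a]` in `n₋`. -/
theorem F_lie (a : L.bL) : -⁅a, L.pin L.F⁆ = L.pin ⁅L.F, (a : g)⁆ := by
  apply L.jng_inj
  have hP := la_P L
  have hG := la_G L
  have h1 : L.jng (-⁅a, L.pin L.F⁆) = -⁅(a : g), L.Pn L.F⁆ := by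
    rw [map_neg]
    rfl
  rw [h1, L.jng_pin, hP.Pn_nm _ hG.F_nm, lie_skew]
  refine (hP.Pn_nm _ ?_).symm
  rw [← lie_skew]
  exact neg_mem (L.bm_nm a.1 a.2 _ hG.F_nm)

/-- The differential on the currents. -/
theorem Internal.Q_J {Q1 : VC (L.kb κ) L.nL →ₗ[ℂ] VC (L.kb κ) L.nL}
    (h1 : IsQ0 (L.kb κ) (QN.one (L.qd κ)) Q1) (s : ℕ) (a : L.bL) (x : L.VX κ) :
    (L.qd κ).Qd (R := LRep.triv L.bL) Q1 ((L.vmod κ).J (-(s : ℤ) - 1) a x) =
      (L.vmod κ).J (-(s : ℤ) - 1) a ((L.qd κ).Qd (R := LRep.triv L.bL) Q1 x) +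
        (L.vmod κ).nop (-(s : ℤ) - 1) (L.OmB a) x +
        ((s : ℂ) + 1) • (L.vmod κ).ψ (-((s + 1 : ℕ) : ℤ) - 1) (L.LkN κ a) x +
          (L.vmod κ).ψ (-(s : ℤ) - 1) (L.pin ⁅L.F, (a : g)⁆) x := by
  have h := (br_Q (br_qd L κ) (QN.one (L.qd κ)) (QN.one_ok _) h1).2.2.2.1
    (-(s : ℤ) - 1) a x
  have h3 := X_qq (L.vmod κ) (L.qd κ).Om (L.qd κ).Lk (L.qd κ).Fm s a x
  exact add4 h h3 (congrArg (fun y => (L.vmod κ).ψ (-(s : ℤ) - 1) y x) (F_lie L a))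

export Internal (Q_J)

/-- `Q 1 = 0` -/
theorem Internal.Q_v {Q1 : VC (L.kb κ) L.nL →ₗ[ℂ] VC (L.kb κ) L.nL}
    (h1 : IsQ0 (L.kb κ) (QN.one (L.qd κ)) Q1) :
    (L.qd κ).Qd (R := LRep.triv L.bL) Q1 (cvac (L.kb κ) L.nL) = 0 := by
  have h2 : Q1 (cvac (L.kb κ) L.nL) = 0 := by
    have h := h1.n0 (1 : ℂ)
    have h3 : (QN.one (L.qd κ)).d (1 : ℂ) = 0 := rfl
    rw [h3, map_zero, map_zero] at h
    exact h
  have h3 : (cmod (L.kb κ) L.nL (TMod.ofRep (LRep.triv L.bL))).ψ 0 (L.qd κ).F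
      (cvac (L.kb κ) L.nL) = 0 :=
    (br_C (L.kb κ) L.nL (LRep.triv L.bL)).psi_i0_nonneg 0 (L.qd κ).F (1 : ℂ) (le_refl 0)
  unfold QD.Qd
  rw [LinearMap.add_apply, h2, zero_add]
  exact h3

export Internal (Q_v)

end gen

section heis

variable {ι : Type} [Fintype ι] [DecidableEq ι]

/-- The negative modes of the current of a basis vector. -/
theorem heis_single (A : Matrix ι ι ℤ) (p : ℕ) (i : ι) (c : ℂ) (s : ℕ) (η : ι → ℂ) (f : Fock ι) :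
    heis A p (Pi.single i c) (-(s : ℤ) - 1) η f = C (c * ((s : ℂ) + 1)) * X (i, s) * f := by
  unfold heis
  rw [if_pos (by omega)]
  have e1 : (-(-(s : ℤ) - 1) - 1).toNat = s := by omega
  have e2 : osc (Pi.single i c) s = C c * X (i, s) := by
    unfold osc
    rw [Finset.sum_eq_single i]
    · rw [Pi.single_eq_same]
    · intro k _ hk
      rw [Pi.single_eq_of_ne hk, C_0, zero_mul]
    · intro h
      exact absurd (Finset.mem_univ i) h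
  rw [e1, e2, LinearMap.smul_apply, LinearMap.mulLeft_apply, smul_eq_C_mul]
  have e3 : (-((-(s : ℤ) - 1 : ℤ) : ℂ)) = (s : ℂ) + 1 := by push_cast; ring
  rw [e3, C_mul]
  ring

/-- The negative modes of the current `0`. -/
theorem heis_zero (A : Matrix ι ι ℤ) (p : ℕ) (s : ℕ) (η : ι → ℂ) (f : Fock ι) :
    heis A p 0 (-(s : ℤ) - 1) η f = 0 := by
  unfold heis
  rw [if_pos (by omega)]
  have e2 : osc (0 : ι → ℂ) (-(-(s : ℤ) - 1) - 1).toNat = 0 := by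
    unfold osc
    refine Finset.sum_eq_zero fun k _ => ?_
    rw [Pi.zero_apply, C_0, zero_mul]
  rw [e2, LinearMap.smul_apply, LinearMap.mulLeft_apply, zero_mul, smul_zero]

end heis

section main

variable {g β ι : Type} [LieRing g] [LieAlgebra ℂ g] [Fintype β] [DecidableEq β] [Fintype ι]
  [DecidableEq ι] {L : LD g β ι} {A : Matrix ι ι ℤ} {p : ℕ}

/-- [KDS] Lifts `w_i` of the `J_{z_i}(-1) 1` give generators of `V^G`. -/
theorem Internal.kds_gens (hp : 2 ≤ p) {sr : ι → β} (K : L.CarF A p sr) (ε : Cocycle A p)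
    (hcard : Fintype.card β = (posRoots A).card)
    {Q1 : VC (L.kb (p : ℂ)⁻¹) L.nL →ₗ[ℂ] VC (L.kb (p : ℂ)⁻¹) L.nL}
    (h1 : IsQ0 (L.kb (p : ℂ)⁻¹) (QN.one (L.qd (p : ℂ)⁻¹)) Q1)
    (z : ι → L.bL) (m : ι → ℕ) (hg : ∀ i, (z i : g) ∈ L.gr (-(m i : ℤ)))
    (hli : LinearIndependent ℂ fun i => (z i : g)) (hm : ∑ i, m i = Fintype.card β)
    (w : ι → VC (L.kb (p : ℂ)⁻¹) L.nL)
    (hw : ∀ i, L.Lift (p : ℂ)⁻¹ ((L.qd (p : ℂ)⁻¹).Qd (R := LRep.triv L.bL) Q1) (z i) (m i) (w i)) :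
    Gens A p (fun i => Ups (chr0 K.toCar) (w i)) (fun i => ro ι (Ups (chr0 K.toCar) (w i)))
      (fun i => m i + 1) ∧
      ∃ c, Inv A (fun i => ro ι (Ups (chr0 K.toCar) (w i))) (fun i => m i + 1) c := by
  have hp0 : (p : ℂ) ≠ 0 := by
    have : p ≠ 0 := by omega
    exact_mod_cast this
  refine cl_gens K.ade (by omega) L (p : ℂ)⁻¹ ((L.qd (p : ℂ)⁻¹).Qd (R := LRep.triv L.bL) Q1)
    (L.Dop (p : ℂ)⁻¹ (LRep.triv L.bL) 0) ((L.vmod (p : ℂ)⁻¹).J 0 L.rhoB)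
    (Q_v L _ h1) (fun s a x _ => Q_J L _ h1 s a x) (fun x hx => Dop_mem L _ x hx) (Dop_v L _)
    (fun i a ha s x _ => Dop_J L _ i a ha s x) (rho_v L _)
    (fun i a ha s x _ => rho_J L _ i a ha _ x) m z hg hli (hm.trans hcard) w
    (fun i => (hw i).mem) (fun i => (hw i).ker) ?_ ?_ (Ups (chr0 K.toCar)) (-(p : ℂ)⁻¹)
    (neg_ne_zero.2 (inv_ne_zero hp0)) ?_ ?_ ?_ (fun i => mi_W hp K ε h1 (w i) (hw i).mem
      (hw i).ker)
  · intro i
    have h := (hw i).deg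
    push_cast
    exact h
  · intro i
    refine ge_span L _ (m i) _ (sub_mem (hw i).mem (cpart_J _ _ (cvac_mem _ _))) (hw i).low
  · have h := LD.Ups_incl (chr0 K.toCar) ((1 : ℂ), 0, 0)
    refine h.trans ?_
    show (1 : ℂ) • (1 : Fock ι) = 1
    rw [one_smul]
  · intro i s x _
    have h := LD.Ups_J (chr0 K.toCar) (-(s : ℤ) - 1) (L.hB i) x
    refine h.trans ?_
    have e2 : L.cf p (L.hB i) = Pi.single i (-(p : ℂ)⁻¹) := by
      funext k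
      rw [LD.cf_apply]
      show -(p : ℂ)⁻¹ * L.form (L.h i) (L.h' k) = _
      rw [L.hh']
      by_cases h : i = k
      · subst h
        rw [if_pos rfl, mul_one, Pi.single_eq_same]
      · rw [if_neg h, mul_zero, Pi.single_eq_of_ne (Ne.symm h)]
    rw [e2]
    exact heis_single A p i _ s _ _
  · intro b s x _
    have h := LD.Ups_J (chr0 K.toCar) (-(s : ℤ) - 1) (L.fB b) x
    refine h.trans ?_
    rw [L.cf_nm p (L.fB b) (L.f_mem_nm b)]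
    exact heis_zero A p s _ _

export Internal (kds_gens)

end main

end KDS

section final

variable {ι : Type} [Fintype ι] [DecidableEq ι] {A : Matrix ι ι ℤ} {p : ℕ}

/-- [KDS] Generators of `V^G`, with the vectors of `ker Q`. -/
theorem Internal.kds_ex (hA : IsADE A) (hp : 2 ≤ p) (hp' : 1 ≤ p) (e : Cocycle A 1)
    {Q1 : VC ((ldG hA e).kb (p : ℂ)⁻¹) (ldG hA e).nL →ₗ[ℂ]
      VC ((ldG hA e).kb (p : ℂ)⁻¹) (ldG hA e).nL}
    (h1 : IsQ0 ((ldG hA e).kb (p : ℂ)⁻¹) (QN.one ((ldG hA e).qd (p : ℂ)⁻¹)) Q1) :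
    ∃ (w : ι → VC ((ldG hA e).kb (p : ℂ)⁻¹) (ldG hA e).nL) (P : ι → MvPolynomial ι ℂ)
      (d : ι → ℕ) (c : ℂ),
      (∀ i, w i ∈ cpart ((ldG hA e).kb (p : ℂ)⁻¹) (ldG hA e).nL
        (TMod.triv (ldG hA e).bL) 0) ∧
      (∀ i, ((ldG hA e).qd (p : ℂ)⁻¹).Qd (R := LRep.triv (ldG hA e).bL) Q1 (w i) = 0) ∧
      Gens A p (fun i => Ups (chr0 (ldG_car hA e hp').toCar) (w i)) P d ∧
      Inv A P d c ∧ Exponents A d := by
  obtain ⟨ε⟩ := cocycle_exists A hA p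
  obtain ⟨z, m, hz, hg, hli, hsp, hm, -⟩ := la_exp (ldG hA e)
  have hex := KDX.expsG hA e z m hg hli hsp
  choose w hw using fun i => mk_lift (ldG hA e) (p : ℂ)⁻¹ h1 ⟨z i, (hz i).1⟩ (m i)
    (hz i).2 (hg i)
  obtain ⟨hG, c, hI⟩ := KDS.kds_gens hp (ldG_car hA e hp') ε (KDX.card_Rt A) h1
    (fun i => ⟨z i, (hz i).1⟩) m hg hli hm w hw
  exact ⟨w, _, _, c, fun i => (hw i).mem, fun i => (hw i).ker, hG, hI, hex⟩

export Internal (kds_ex)

/-- [KDS] -/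
theorem kds (hA : IsADE A) (hp : 2 ≤ p) : KDSOut A p := by
  obtain ⟨e⟩ := cocycle_exists A hA 1
  obtain ⟨Q1, h1⟩ := br_Q0 (br_qd (ldG hA e) (p : ℂ)⁻¹)
    (QN.one ((ldG hA e).qd (p : ℂ)⁻¹)) (QN.one_ok _)
  obtain ⟨w, P, d, c, -, -, hG, hI, hE⟩ := kds_ex hA hp (by omega) e h1
  exact ⟨_, P, d, c, hG, hI, hE⟩

end final

end

end WPE
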