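import Pool.Agent.WPE.IND5
import Pool.Agent.WPE.MID

/-! WPE, block MI, [MI5]: degrees under the Miura map. -/

set_option linter.unusedSectionVars false

namespace WPE

open scoped TensorProduct
open MvPolynomial WPQ
open WPE.LD (Car Car' Chr Ups)

variable {g β ι : Type} [LieRing g] [LieAlgebra ℂ g] [Fintype β] [DecidableEq β] [Fintype ι]
  [DecidableEq ι] {L : LD g β ι} {A : Matrix ι ι ℤ} {p : ℕ}

namespace MIR5

/-- `A ρ = 1`. -/
theorem A_rho (hA : IsADE A) (j : ι) : ∑ i, (A j i : ℂ) * WPQ.rho A i = 1 := by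
  have h1 : (A.map (Int.cast : ℤ → ℂ)).mulVec (WPQ.rho A) = fun _ => 1 := by
    unfold WPQ.rho
    rw [Matrix.mulVec_mulVec, Matrix.mul_nonsing_inv _ (WPQ.det_ne_zero A hA), Matrix.one_mulVec]
  exact congrFun h1 j

/-- `⟨-(1/√p) rho, s⟩ = -∑ s_i` -/
theorem form_rho (K : L.Car' A p) (s : ι → ℂ) :
    WPQ.form A p (L.cf p L.rhoB) s = -∑ i, s i := by
  have hp0 : (p : ℂ) ≠ 0 := by
    have h1 := K.hp
    have h2 : p ≠ 0 := by omega
    exact_mod_cast h2
  have h1 : ∀ i, L.cf p L.rhoB i = -(p : ℂ)⁻¹ * WPQ.rho A i := by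
    intro i
    rw [LD.cf_apply]
    have h2 : ((L.rhoB : L.bL) : g) = L.rho := rfl
    rw [h2, K.hr]
  unfold WPQ.form
  rw [Finset.sum_comm, Finset.mul_sum, ← Finset.sum_neg_distrib]
  refine Finset.sum_congr rfl fun j _ => ?_
  have h2 : ∑ i, L.cf p L.rhoB i * (A i j : ℂ) * s j =
      -(p : ℂ)⁻¹ * (∑ i, (A j i : ℂ) * WPQ.rho A i) * s j := by
    rw [Finset.mul_sum, Finset.sum_mul]
    refine Finset.sum_congr rfl fun i _ => ?_
    rw [h1, K.ade.symm i j]
    ring
  rw [h2, A_rho K.ade]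
  field_simp

/-- The abstract step. -/
theorem cen_abs {V W : Type} [AddCommGroup V] [Module ℂ V] [AddCommGroup W] [Module ℂ W]
    (f : V →ₗ[ℂ] W) (C J : V →ₗ[ℂ] V) (E : W → W) (x : V) (m : ℂ) {y z : W}
    (h : C (J x) = J (C x) - m • J x) (e1 : f (J x) = y) (e2 : f (J (C x)) = z)
    (h2 : z - m • y = E y) : f (C (J x)) = E (f (J x)) := by
  rw [h, map_sub, map_smul, e1, e2]
  exact h2

/-- The abstract step. -/
theorem deg_abs {V W : Type} [AddCommGroup V] [Module ℂ V] [AddCommGroup W] [Module ℂ W]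
    (f : V →ₗ[ℂ] W) (C J : V →ₗ[ℂ] V) (x : V) (s d : ℂ) {y z : W} (h : C x - J x - s • x = d • x)
    (e1 : f (C x) = y) (e2 : f (J x) = z) (h2 : z = (-s) • f x) : y = d • f x := by
  have h1 := congrArg f h
  rw [map_sub, map_sub, map_smul, map_smul, e1, e2, h2, neg_smul, sub_neg_eq_add,
    add_sub_cancel_right] at h1
  exact h1

/-- `Υ` transports the energy operator to the Euler operator. -/
theorem Internal.Ups_cen (K : L.Car A p) {s : ι → ℂ} {N : Type} [AddCommGroup N] [Module ℂ N]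
    {R : LRep L.bL N} (c : Chr K s R) (he : (TMod.ofRep R).IsEnergy (0 : N →ₗ[ℂ] N))
    (x : CC (L.kb (p : ℂ)⁻¹) L.nL (TMod.ofRep R)) :
    Ups c (cen 0 he x) = fw8_eul (Ups c x) := by
  let W : Submodule ℂ (CC (L.kb (p : ℂ)⁻¹) L.nL (TMod.ofRep R)) :=
    { carrier := {x | Ups c (cen 0 he x) = fw8_eul (Ups c x)}
      add_mem' := by
        intro x y hx hy
        show Ups c (cen 0 he (x + y)) = fw8_eul (Ups c (x + y))
        rw [map_add, map_add, hx, hy, map_add, map_add]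
      zero_mem' := by
        show Ups c (cen 0 he 0) = fw8_eul (Ups c 0)
        rw [map_zero, map_zero, map_zero]
      smul_mem' := by
        intro a x hx
        show Ups c (cen 0 he (a • x)) = fw8_eul (Ups c (a • x))
        rw [map_smul, map_smul, hx, map_smul, Derivation.map_smul] }
  have hW : x ∈ W := by
    refine Ind.induction_sub W ?_ ?_ x
    · intro v
      show Ups c (cen 0 he (Ind.incl _ _ v)) = fw8_eul (Ups c (Ind.incl _ _ v))
      rw [cen_incl, LD.Ups_incl, LD.Ups_incl]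
      have h1 : (KNE L.nL (0 : N →ₗ[ℂ] N) v).1 = 0 := rfl
      rw [h1, map_zero, zero_smul, Derivation.map_smul, Derivation.map_one_eq_zero, smul_zero]
    · intro m a x hx
      have hx' : Ups c (cen 0 he x) = fw8_eul (Ups c x) := hx
      show Ups c (cen 0 he ((cmod (L.kb (p : ℂ)⁻¹) L.nL (TMod.ofRep R)).J m a x)) =
        fw8_eul (Ups c ((cmod (L.kb (p : ℂ)⁻¹) L.nL (TMod.ofRep R)).J m a x))
      have e1 := LD.Ups_J c m a x
      have e2 := LD.Ups_J c m a (cen 0 he x)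
      refine cen_abs (Ups c) (cen 0 he)
        ((cmod (L.kb (p : ℂ)⁻¹) L.nL (TMod.ofRep R)).J m a) fw8_eul x (m : ℂ)
        (cen_J 0 he m a x) e1 e2 (hx' ▸ ?_)
      rw [fw8_deg_heis]
      push_cast
      rw [neg_smul, sub_eq_add_neg]
  exact hW

export Internal (Ups_cen)

end MIR5

open MIR5 in
/-- [MI5] Degrees: `cen - J_rho(0)` becomes the degree (`X (i, k)` has degree `k + 1`). -/
theorem Internal.mi_deg (K : L.Car' A p) {s : ι → ℂ} {N : Type} [AddCommGroup N] [Module ℂ N]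
    {R : LRep L.bL N} (c : Chr K.toCar s R)
    (he : (TMod.ofRep R).IsEnergy (0 : N →ₗ[ℂ] N)) (D : ℕ)
    (x : CC (L.kb (p : ℂ)⁻¹) L.nL (TMod.ofRep R))
    (hx : cen 0 he x - (cmod (L.kb (p : ℂ)⁻¹) L.nL (TMod.ofRep R)).J 0 L.rhoB x -
      (∑ i, s i) • x = (D : ℂ) • x) : FH (Ups c x) D := by
  refine fw8_FH_of_eul _ _ ?_
  have h2 : heis A p (L.cf p L.rhoB) 0 s (Ups c x) = (-∑ i, s i) • Ups c x := by
    unfold heis
    rw [if_neg (lt_irrefl _), if_pos rfl, LinearMap.smul_apply, LinearMap.id_apply, form_rho K]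
  exact deg_abs (Ups c) _ _ x _ _ hx (Ups_cen K.toCar c he x) (LD.Ups_J c 0 L.rhoB x) h2

export Internal (mi_deg)

end WPE
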