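import Pool.Agent.WPE.MIR21
import Pool.Agent.WPE.MIR5
import Pool.Agent.WPQ.CYM

/-! WPE, block MI, row MI22. -/

set_option linter.unusedSectionVars false

namespace WPE

open scoped TensorProduct
open MvPolynomial WPQ
open WPE.LD (CarF NU Ups chr0)

section main

variable {g β ι : Type} [LieRing g] [LieAlgebra ℂ g] [Fintype β] [DecidableEq β] [Fintype ι]
  [DecidableEq ι] {L : LD g β ι} {A : Matrix ι ι ℤ} {p : ℕ}
variable {N : Type} [AddCommGroup N] [Module ℂ N] [LieRingModule g N] [LieModule ℂ g N]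

namespace MIR22

/-- Elements of `KD D` are sent to homogeneous polynomials. -/
theorem Internal.fh {sr : ι → β} (K : L.CarF A p sr) {ν : ι → ℤ} (M : NU K.toCar ν N)
    (Q : CC (L.kb (p : ℂ)⁻¹) L.nL (TMod.ofRep (L.rep N)) →ₗ[ℂ]
      CC (L.kb (p : ℂ)⁻¹) L.nL (TMod.ofRep (L.rep N))) (n : ℕ)
    (x : CC (L.kb (p : ℂ)⁻¹) L.nL (TMod.ofRep (L.rep N)))
    (hx : x ∈ L.KD (p : ℂ)⁻¹ (L.rep N) (∑ i, ν i) Q n) : FH (Ups M.c x) n := by
  refine mi_deg K.toCar' M.c (isEnergy_zero _) n x ?_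
  have h := Module.End.mem_eigenspace_iff.1 hx.2
  have hs : ∑ i, toC (-ν) i = -((∑ i, ν i : ℤ) : ℂ) := by
    rw [Int.cast_sum, ← Finset.sum_neg_distrib]
    refine Finset.sum_congr rfl fun i _ => ?_
    simp [toC]
  exact MIR17.D_eq _ _ x (∑ i, ν i) hs (Int.cast_natCast n).symm h

export Internal (fh)

/-- There are no vectors of negative degree. -/
theorem Internal.neg {κ : ℂ} {top : ℤ} (hgr : L.Gr N top)
    {Q0 : CC (L.kb κ) L.nL (TMod.ofRep (L.rep N)) →ₗ[ℂ]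
      CC (L.kb κ) L.nL (TMod.ofRep (L.rep N))} (h0 : IsQ0 (L.kb κ) (L.qn N κ) Q0)
    (D : ℤ) (hD : D < 0) (x : CC (L.kb κ) L.nL (TMod.ofRep (L.rep N)))
    (hx : x ∈ L.KD κ (L.rep N) top ((L.qd κ).Qd Q0) D) : x = 0 := by
  have h1 := mk_sum L κ top hgr h0 x hx.1.1 hx.1.2
  have h2 : x ∈ ⨆ (μ : ℂ) (_ : μ ≠ (D : ℂ)), Module.End.eigenspace (L.Dop κ (L.rep N) top) μ := by
    refine (iSup_le fun n => ?_ : (⨆ D : ℕ, L.KD κ (L.rep N) top ((L.qd κ).Qd Q0) D) ≤ _) h1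
    intro y hy
    have hne : ((n : ℤ) : ℂ) ≠ (D : ℂ) := by
      intro h
      have := Int.cast_injective h
      omega
    exact Submodule.mem_iSup_of_mem ((n : ℤ) : ℂ) (Submodule.mem_iSup_of_mem hne hy.2)
  have h3 := (Module.End.eigenspaces_iSupIndep (L.Dop κ (L.rep N) top)) (D : ℂ)
  exact Submodule.disjoint_def.1 h3 x hx.2 h2

export Internal (neg)

end MIR22

/-- [MI22] The same with degrees. -/
theorem Internal.mi_MNU (hp : 2 ≤ p) {sr : ι → β} (K : L.CarF A p sr) (ε : Cocycle A p) {ν : ι → ℤ}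
    (hν : Dom A ν) (M : NU K.toCar ν N) (hgr : L.Gr N (∑ i, ν i))
    {Q0 : CC (L.kb (p : ℂ)⁻¹) L.nL (TMod.ofRep (L.rep N)) →ₗ[ℂ]
      CC (L.kb (p : ℂ)⁻¹) L.nL (TMod.ofRep (L.rep N))}
    (h0 : IsQ0 (L.kb (p : ℂ)⁻¹) (L.qn N (p : ℂ)⁻¹) Q0)
    {Q1 : VC (L.kb (p : ℂ)⁻¹) L.nL →ₗ[ℂ] VC (L.kb (p : ℂ)⁻¹) L.nL}
    (h1 : IsQ0 (L.kb (p : ℂ)⁻¹) (QN.one (L.qd (p : ℂ)⁻¹)) Q1)
    (hKK : ∀ f ∈ KK A p, ∃ u ∈ cpart (L.kb (p : ℂ)⁻¹) L.nL (TMod.triv L.bL) 0,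
      (L.qd (p : ℂ)⁻¹).Qd (R := LRep.triv L.bL) Q1 u = 0 ∧ Ups (chr0 K.toCar) u = f)
    (D : ℤ) (v : VL ι) : v ∈ MNU ε ν (D + wtExp A p (-ν)) ↔
      ∃ x ∈ L.KD (p : ℂ)⁻¹ (L.rep N) (∑ i, ν i) ((L.qd (p : ℂ)⁻¹).Qd Q0) D,
        v = Finsupp.single (-ν) (Ups M.c x) := by
  classical
  rw [mem_MNU_iff, mi_Mn hp K ε hν M h0 h1 hKK v]
  constructor
  · rintro ⟨⟨x, hx, hQ, hv⟩, hV⟩
    have h2 := mk_sum L (p : ℂ)⁻¹ _ hgr h0 x hx hQ
    obtain ⟨f, hf, hfx⟩ := (Submodule.mem_iSup_iff_exists_finsupp _ _).1 h2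
    rcases Vn_comp _ v hV (-ν) with h3 | ⟨d, h3, h4⟩
    · rw [hv, Finsupp.single_eq_same] at h3
      refine ⟨0, Submodule.zero_mem _, ?_⟩
      rw [hv, h3, map_zero]
    · have hd : D = (d : ℤ) := by omega
      subst hd
      rw [hv, Finsupp.single_eq_same] at h3
      refine ⟨f d, hf d, ?_⟩
      rw [hv]
      congr 1
      have h5 : weightedHomogeneousComponent (wF (ι := ι)) d (Ups M.c x) = Ups M.c x :=
        h3.weightedHomogeneousComponent_same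
      rw [← h5, ← hfx, Finsupp.sum, map_sum, map_sum]
      rw [Finset.sum_eq_single d]
      · exact (MIR22.fh K M _ d _ (hf d)).weightedHomogeneousComponent_same
      · intro n _ hn
        exact (MIR22.fh K M _ n _ (hf n)).weightedHomogeneousComponent_ne _ hn.symm
      · intro h
        rw [Finsupp.notMem_support_iff.1 h, map_zero, map_zero]
  · rintro ⟨x, hx, hv⟩
    refine ⟨⟨x, hx.1.1, hx.1.2, hv⟩, ?_⟩
    rcases lt_or_ge D 0 with hD | hD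
    · rw [hv, MIR22.neg hgr h0 D hD x hx, map_zero, Finsupp.single_zero]
      exact Submodule.zero_mem _
    · obtain ⟨n, rfl⟩ := Int.eq_ofNat_of_zero_le hD
      rw [hv]
      exact single_mem_Vn _ _ n (MIR22.fh K M _ n x hx) _ rfl

export Internal (mi_MNU)

end main

end WPE
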