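import Pool.Agent.WPE.MIR19
import Pool.Agent.WPE.MIR22
import Pool.Agent.WPQ.TLD

set_option linter.unusedSectionVars false

namespace WPE

open scoped TensorProduct
open MvPolynomial WPQ
open WPE.LD (CarF NU Ups chr0)

namespace MIR23

section lib

variable {ι : Type} [Fintype ι] [DecidableEq ι] {A : Matrix ι ι ℤ} {p : ℕ}

theorem qN_eq (hA : IsADE A) (ν : ι → ℤ) :
    (p : ℤ) * qN A ν = wtExp A p (-ν) + ∑ i, ν i := by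
  obtain ⟨k, hk⟩ := two_dvd_formZ (p := 1) hA ν
  have h1 : formZ A p (-ν) (-ν) = (p : ℤ) * formZ A 1 ν ν := by
    unfold formZ
    simp only [Pi.neg_apply]
    push_cast
    rw [one_mul]
    congr 1
    refine Finset.sum_congr rfl fun i _ => Finset.sum_congr rfl fun j _ => ?_
    ring
  unfold qN wtExp
  rw [h1, hk]
  have h2 : (p : ℤ) * (2 * k) / 2 = p * k := by
    rw [show (p : ℤ) * (2 * k) = 2 * (p * k) by ring]
    exact Int.mul_ediv_cancel_left _ (by norm_num)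
  have h3 : 2 * k / 2 = k := Int.mul_ediv_cancel_left _ (by norm_num)
  rw [h2, h3]
  simp only [Pi.neg_apply, Finset.sum_neg_distrib]
  ring

theorem Wk_iff (hA : IsADE A) (hp : 2 ≤ p) (ε : Cocycle A p) (v : VL ι) :
    v ∈ Wk ε ↔ v ∈ Mn ε 0 := by
  rw [(vg_5 hA hp ε).wk, mi_MJ_Mn]
  constructor
  · rintro ⟨f, hf, rfl⟩
    exact ⟨f, (mi_MJ_KK hA ε f).1 hf, by rw [neg_zero]⟩
  · rintro ⟨f, hf, rfl⟩
    exact ⟨f, (mi_MJ_KK hA ε f).2 hf, by rw [neg_zero]⟩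

theorem transl_Wk (hA : IsADE A) (hp : 2 ≤ p) (ε : Cocycle A p) (v : VL ι) (hv : v ∈ Wk ε) :
    transl v ∈ Wk ε := by
  rw [Wk_iff hA hp] at hv ⊢
  exact Mn_transl hA hp ε 0 v hv

theorem transl_Vn (n : ℤ) (v : VL ι) (hv : v ∈ Vn A p n) : transl v ∈ Vn A p (n + 1) := by
  have h1 := LS_Vn (A := A) (p := p) (-1) n v hv
  rw [LS_zero_neg_one] at h1
  have e : n - (-1) = n + 1 := by ring
  rwa [e] at h1

theorem pow_transl (hA : IsADE A) (hp : 2 ≤ p) (ε : Cocycle A p) (s : ℕ) :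
    ∀ (n : ℤ) (v : VL ι), v ∈ Wk ε → v ∈ Vn A p n →
      ∃ b ∈ Wk ε, b ∈ Vn A p (n + s) ∧ mode ε b (-1) = mode ε v (-1 - (s : ℤ)) := by
  induction s with
  | zero =>
    intro n v hv hn
    refine ⟨v, hv, ?_, ?_⟩
    · rw [Nat.cast_zero, add_zero]; exact hn
    · rw [Nat.cast_zero, sub_zero]
  | succ s ih =>
    intro n v hv hn
    obtain ⟨b, hb, hbn, hbm⟩ := ih (n + 1) (transl v) (transl_Wk hA hp ε v hv)
      (transl_Vn n v hn)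
    have hs : ((s : ℂ) + 1) ≠ 0 := by
      have : ((s + 1 : ℕ) : ℂ) ≠ 0 := by exact_mod_cast Nat.succ_ne_zero s
      push_cast at this
      exact this
    refine ⟨((s : ℂ) + 1)⁻¹ • b, Submodule.smul_mem _ _ hb, ?_, ?_⟩
    · have e : n + ((s + 1 : ℕ) : ℤ) = n + 1 + s := by push_cast; ring
      rw [e]
      exact Submodule.smul_mem _ _ hbn
    · rw [mode_smul hA (by omega), hbm, mode_transl hA (by omega), smul_smul]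
      have e : (-1 - (s : ℤ) - 1) = -1 - ((s + 1 : ℕ) : ℤ) := by push_cast; ring
      have e2 : (((s : ℂ) + 1)⁻¹ * -(((-1 - (s : ℤ) : ℤ)) : ℂ)) = 1 := by
        push_cast
        rw [show -(-1 - (s : ℂ)) = (s : ℂ) + 1 by ring]
        exact inv_mul_cancel₀ hs
      rw [e2, one_smul, e]

theorem core (hA : IsADE A) (hp : 2 ≤ p) (ε : Cocycle A p) (ν : ι → ℤ) {X : Type}
    [AddCommGroup X] [Module ℂ X] (Φ : X →ₗ[ℂ] VL ι) (KDs : ℤ → Submodule ℂ X)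
    (T : X →ₗ[ℂ] X) (Yw : ι → ℤ → X →ₗ[ℂ] X) (W : ι → VL ι) (m : ι → ℕ) (c : ℂ)
    (hKD : ∀ (D : ℤ) (u : X), u ∈ KDs D → Φ u ∈ MNU ε ν (D + wtExp A p (-ν)))
    (hT : ∀ y, Φ (T y) = c • LS (Shift.zero A p) (-1) (Φ y))
    (hY : ∀ i k u, Φ (Yw i k u) = mode ε (W i) k (Φ u))
    (hW : ∀ i, W i ∈ Wk ε ∧ W i ∈ Vn A p ((m i : ℤ) + 1)) (D h : ℤ)
    (hh : h = D + wtExp A p (-ν)) (x y : X) (hy : y ∈ KDs (D - 1))
    (hxy : x - T y ∈ Submodule.span ℂ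
      {v | ∃ (i : ι) (s : ℕ), ∃ u ∈ KDs (D - (m i + 1) - s), v = Yw i (-1 - (s : ℤ)) u}) :
    Φ x ∈ Submodule.span ℂ {v | ∃ (m : ℤ) (b a : VL ι), 1 ≤ m ∧ b ∈ Wk ε ∧ b ∈ Vn A p m ∧
      a ∈ MNU ε ν (h - m) ∧ v = mode ε b (-1) a} ⊔
      (MNU ε ν (h - 1)).map (LS (Shift.zero A p) (-1)) := by
  have hfirst : Φ (T y) ∈ (MNU ε ν (h - 1)).map (LS (Shift.zero A p) (-1)) := by
    rw [hT]
    refine Submodule.smul_mem _ _ ⟨Φ y, ?_, rfl⟩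
    have := hKD _ y hy
    rw [hh]
    rwa [show D + wtExp A p (-ν) - 1 = D - 1 + wtExp A p (-ν) by ring]
  have hsecond : ∀ t ∈ Submodule.span ℂ
      {v | ∃ (i : ι) (s : ℕ), ∃ u ∈ KDs (D - (m i + 1) - s), v = Yw i (-1 - (s : ℤ)) u},
      Φ t ∈ Submodule.span ℂ {v | ∃ (m : ℤ) (b a : VL ι), 1 ≤ m ∧
        b ∈ Wk ε ∧ b ∈ Vn A p m ∧ a ∈ MNU ε ν (h - m) ∧ v = mode ε b (-1) a} := by
    intro t ht
    induction ht using Submodule.span_induction with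
    | mem t ht =>
      obtain ⟨i, s, u, hu, rfl⟩ := ht
      obtain ⟨b, hb, hbn, hbm⟩ := pow_transl hA hp ε s _ _ (hW i).1 (hW i).2
      refine Submodule.subset_span ⟨(m i : ℤ) + 1 + s, b, Φ u, by omega, hb, hbn, ?_, ?_⟩
      · have := hKD _ u hu
        rw [hh]
        rwa [show D + wtExp A p (-ν) - ((m i : ℤ) + 1 + s) =
          D - (m i + 1) - s + wtExp A p (-ν) by ring]
      · rw [hbm]
        exact hY i _ u
    | zero => rw [map_zero]; exact zero_mem _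
    | add a b _ _ ha hb => rw [map_add]; exact add_mem ha hb
    | smul c a _ ha => rw [map_smul]; exact Submodule.smul_mem _ _ ha
  have hfin : Φ x = Φ (x - T y) + Φ (T y) := by
    rw [← map_add, sub_add_cancel]
  rw [hfin]
  exact add_mem (Submodule.mem_sup_left (hsecond _ hxy)) (Submodule.mem_sup_right hfirst)

theorem omega0 (hA : IsADE A) (hp : 2 ≤ p) (ε : Cocycle A p) (c : ℂ) (f : VL ι)
    (hf : f = c • omegaV A p) (v : VL ι) :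
    mode ε f 0 v = c • LS (Shift.zero A p) (-1) v := by
  rw [hf, mode_smul hA (by omega), omegaV_eq, mode_omega hA (by omega),
    LinearMap.smul_apply, zero_sub]

end lib

end MIR23

section main

variable {g β ι : Type} [LieRing g] [LieAlgebra ℂ g] [Fintype β] [DecidableEq β] [Fintype ι]
  [DecidableEq ι] {L : LD g β ι} {A : Matrix ι ι ℤ} {p : ℕ}
variable {N : Type} [AddCommGroup N] [Module ℂ N] [LieRingModule g N] [LieModule ℂ g N]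

theorem MIR23.Internal.lift0 {sr : ι → β} (K : L.CarF A p sr)
    {Q1 : VC (L.kb (p : ℂ)⁻¹) L.nL →ₗ[ℂ] VC (L.kb (p : ℂ)⁻¹) L.nL}
    (h1 : IsQ0 (L.kb (p : ℂ)⁻¹) (QN.one (L.qd (p : ℂ)⁻¹)) Q1) :
    L.Lift (p : ℂ)⁻¹ ((L.qd (p : ℂ)⁻¹).Qd (R := LRep.triv L.bL) Q1) L.FB 1
      (L.w0 (p : ℂ)⁻¹) where
  mem := (mi_w0_deg L _ (isEnergy_zero _)).1
  ker := mi_w0_Q L _ (mi_F2 K) h1
  deg := MIR17.D_val _ _ _ 2 _ _ (mi_w0_deg L (p : ℂ)⁻¹ (isEnergy_zero _)).2.1 (by norm_num)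
  low := MIR17.mem_GE0 _ _ (mi_w0_deg L (p : ℂ)⁻¹ (isEnergy_zero _)).2.2

namespace MIR23

export Internal (lift0)

end MIR23

theorem MIR23.Internal.lift_mem (hp : 2 ≤ p) {sr : ι → β} (K : L.CarF A p sr) (ε : Cocycle A p)
    {Q1 : VC (L.kb (p : ℂ)⁻¹) L.nL →ₗ[ℂ] VC (L.kb (p : ℂ)⁻¹) L.nL}
    (h1 : IsQ0 (L.kb (p : ℂ)⁻¹) (QN.one (L.qd (p : ℂ)⁻¹)) Q1) (z : L.bL) (m : ℕ)
    (w : VC (L.kb (p : ℂ)⁻¹) L.nL)
    (hw : L.Lift (p : ℂ)⁻¹ ((L.qd (p : ℂ)⁻¹).Qd (R := LRep.triv L.bL) Q1) z m w) :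
    (Finsupp.single 0 (Ups (chr0 K.toCar) w) : VL ι) ∈ Wk ε ∧
      (Finsupp.single 0 (Ups (chr0 K.toCar) w) : VL ι) ∈ Vn A p ((m : ℤ) + 1) := by
  constructor
  · exact ((vg_5 K.ade hp ε).wk _).2 ⟨_, mi_W hp K ε h1 w hw.mem hw.ker, rfl⟩
  · have h2 : FH (Ups (chr0 K.toCar) w) (m + 1) := by
      refine mi_deg K.toCar' (chr0 K.toCar) (isEnergy_zero _) (m + 1) w ?_
      have h4 : (∑ i : ι, (0 : ι → ℂ) i) = -((0 : ℤ) : ℂ) := by simp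
      exact MIR17.D_eq _ _ w 0 h4 (by push_cast; rfl) hw.deg
    refine single_mem_Vn 0 _ (m + 1) h2 _ ?_
    rw [pv2_wt0]
    push_cast
    ring

namespace MIR23

export Internal (lift_mem)

end MIR23

/-- [MI23] The property (A*). -/
theorem Internal.mi_astar (hp : 2 ≤ p) {sr : ι → β} (K : L.CarF A p sr) (ε : Cocycle A p) {ν : ι → ℤ}
    (hν : Dom A ν) (M : NU K.toCar ν N) (hgr : L.Gr N (∑ i, ν i))
    (hFs : ∀ c < 0, ∀ y ∈ L.wsp N c, ∃ x ∈ L.wsp N (c + 1), ⁅L.F, x⁆ = y)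
    {Q0 : CC (L.kb (p : ℂ)⁻¹) L.nL (TMod.ofRep (L.rep N)) →ₗ[ℂ]
      CC (L.kb (p : ℂ)⁻¹) L.nL (TMod.ofRep (L.rep N))}
    (h0 : IsQ0 (L.kb (p : ℂ)⁻¹) (L.qn N (p : ℂ)⁻¹) Q0)
    {Q1 : VC (L.kb (p : ℂ)⁻¹) L.nL →ₗ[ℂ] VC (L.kb (p : ℂ)⁻¹) L.nL}
    (h1 : IsQ0 (L.kb (p : ℂ)⁻¹) (QN.one (L.qd (p : ℂ)⁻¹)) Q1)
    (hKK : ∀ f ∈ KK A p, ∃ u ∈ cpart (L.kb (p : ℂ)⁻¹) L.nL (TMod.triv L.bL) 0,
      (L.qd (p : ℂ)⁻¹).Qd (R := LRep.triv L.bL) Q1 u = 0 ∧ Ups (chr0 K.toCar) u = f) :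
    AStar ε ν := by
  have hA := K.ade
  intro h hh v hv
  rw [MIR23.qN_eq hA] at hh
  have hsum : 0 ≤ ∑ i, ν i := Finset.sum_nonneg fun i _ => dom_nonneg hA ν hν i
  obtain ⟨D, hD⟩ : ∃ D : ℕ, (D : ℤ) = h - wtExp A p (-ν) :=
    ⟨(h - wtExp A p (-ν)).toNat, Int.toNat_of_nonneg (by omega)⟩
  have hD1 : 1 ≤ D := by omega
  have hh2 : h = (D : ℤ) + wtExp A p (-ν) := by omega
  rw [hh2] at hv
  obtain ⟨x, hx, hvx⟩ := (mi_MNU hp K ε hν M hgr h0 h1 hKK (D : ℤ) v).1 hv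
  obtain ⟨z, m, hz, hg, hli, hsp, -, -⟩ := la_exp L
  have hlift : ∀ i, ∃ w, L.Lift (p : ℂ)⁻¹
      ((L.qd (p : ℂ)⁻¹).Qd (R := LRep.triv L.bL) Q1) (⟨z i, (hz i).1⟩ : L.bL) (m i) w :=
    fun i => mk_lift L _ h1 _ (m i) (hz i).2 (hg i)
  choose w hw using hlift
  obtain ⟨y, hy, hxy⟩ := mk_rec L (p : ℂ)⁻¹ (∑ i, ν i) hgr h0 h1
    (fun i => (⟨z i, (hz i).1⟩ : L.bL)) m hz hg hli hsp w hw _ (MIR23.lift0 K h1) D hD1
    (fun y hy => hFs _ (by omega) y hy) x hx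
  have hres := MIR23.core hA hp ε ν (Finsupp.lsingle (-ν) ∘ₗ Ups M.c)
    (fun D' => L.KD (p : ℂ)⁻¹ (L.rep N) (∑ i, ν i) ((L.qd (p : ℂ)⁻¹).Qd Q0) D')
    (((cmod (L.kb (p : ℂ)⁻¹) L.nL (TMod.ofRep (L.rep N))).Yh (L.w0 (p : ℂ)⁻¹)).1 0)
    (fun i k => ((cmod (L.kb (p : ℂ)⁻¹) L.nL (TMod.ofRep (L.rep N))).Yh (w i)).1 k)
    (fun i => Finsupp.single 0 (Ups (chr0 K.toCar) (w i))) m _
    (fun D' u hu => (mi_MNU hp K ε hν M hgr h0 h1 hKK D' _).2 ⟨u, hu, rfl⟩)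
    (fun y => (mi_YU K.toCar ε rfl M.c _ (MIR23.lift0 K h1).mem 0 y).trans
      (MIR23.omega0 hA hp ε _ _ (mi_w0_Ups K.toCar') _))
    (fun i k u => mi_YU K.toCar ε rfl M.c (w i) (hw i).mem k u)
    (fun i => MIR23.lift_mem hp K ε h1 _ _ _ (hw i)) (D : ℤ) h hh2 x y hy hxy
  rw [hvx]
  exact hres

export Internal (mi_astar)

end main

end WPE
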