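import Pool.Agent.WPE.KDS
import Pool.Agent.WPE.MIR20
import Pool.Agent.WPE.MIR23

/-! WPE, block MI: the property (A*) for all dominant weights. -/

set_option linter.unusedSectionVars false

namespace WPE

open scoped TensorProduct
open MvPolynomial WPQ
open WPE.LD (Ups chr0)

section

variable {ι : Type} [Fintype ι] [DecidableEq ι] {A : Matrix ι ι ℤ} {p : ℕ}

/-- `V^G = Υ(ker Q)` for `g = V_Q(1)`. -/
theorem Internal.mi_KKG (hA : IsADE A) (hp : 2 ≤ p) (hp' : 1 ≤ p) (e : Cocycle A 1) (ε : Cocycle A p)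
    {Q1 : VC ((ldG hA e).kb (p : ℂ)⁻¹) (ldG hA e).nL →ₗ[ℂ]
      VC ((ldG hA e).kb (p : ℂ)⁻¹) (ldG hA e).nL}
    (h1 : IsQ0 ((ldG hA e).kb (p : ℂ)⁻¹) (QN.one ((ldG hA e).qd (p : ℂ)⁻¹)) Q1) (f : Fock ι) :
    f ∈ KK A p ↔ ∃ u ∈ cpart ((ldG hA e).kb (p : ℂ)⁻¹) (ldG hA e).nL
      (TMod.triv (ldG hA e).bL) 0,
      ((ldG hA e).qd (p : ℂ)⁻¹).Qd (R := LRep.triv (ldG hA e).bL) Q1 u = 0 ∧
        Ups (chr0 (ldG_car hA e hp').toCar) u = f := by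
  constructor
  · intro hf
    obtain ⟨w, P, d, c, hw, hQ, hG, hI, -⟩ := kds_ex hA hp hp' e h1
    exact mi_KK hp (ldG_car hA e hp').toCar ε h1 w hw hQ P d c hG hI f hf
  · rintro ⟨u, hu, hQ, rfl⟩
    exact mi_W hp (ldG_car hA e hp') ε h1 u hu hQ

export Internal (mi_KKG)

/-- The property (A*) for every dominant weight. -/
theorem astar' (hA : IsADE A) (hp : 2 ≤ p) (ε : Cocycle A p) (lam : ι → ℤ) (hd : Dom A lam) :
    AStar ε lam := by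
  obtain ⟨e⟩ := cocycle_exists A hA 1
  have hp' : 1 ≤ p := by omega
  obtain ⟨Q1, h1⟩ := br_Q0 (br_qd (ldG hA e) (p : ℂ)⁻¹)
    (QN.one ((ldG hA e).qd (p : ℂ)⁻¹)) (QN.one_ok _)
  obtain ⟨Q0, h0⟩ := br_Q0 (br_qd (ldG hA e) (p : ℂ)⁻¹)
    ((ldG hA e).qn (NN hA e lam) (p : ℂ)⁻¹) (br_qn (ldG hA e) (p : ℂ)⁻¹ (NN hA e lam))
  exact mi_astar hp (ldG_car hA e hp') ε hd (nuNN hA e hp' lam hd) (kg_N2 hA e lam hd).gr
    (kg_N2 hA e lam hd).Fsurj h0 h1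
    (fun f hf => (mi_KKG hA hp hp' e ε h1 f).1 hf)

theorem astar (hA : IsADE A) (hp : 2 ≤ p) (ε : Cocycle A p) (lam : ι → ℤ) (_h0 : lam ≠ 0)
    (hd : Dom A lam) : AStar ε lam := astar' hA hp ε lam hd

end

end WPE
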