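import Pool.Agent.WPE.KG3

/-! [WPE-KG14] The number of positive roots of `E₇` of height `≤ 7`. -/

set_option linter.unusedSectionVars false

namespace WPE

open WPQ

namespace KG14

/-- The positive roots of `E₇` of height `k`, `1 ≤ k ≤ 7`. -/
def L : ℕ → List (Fin 7 → ℤ)
  | 1 => [![1, 0, 0, 0, 0, 0, 0], ![0, 1, 0, 0, 0, 0, 0], ![0, 0, 1, 0, 0, 0, 0], ![0, 0, 0, 1, 0, 0, 0], ![0, 0, 0, 0, 1, 0, 0], ![0, 0, 0, 0, 0, 1, 0], ![0, 0, 0, 0, 0, 0, 1]]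
  | 2 => [![1, 0, 1, 0, 0, 0, 0], ![0, 1, 0, 1, 0, 0, 0], ![0, 0, 1, 1, 0, 0, 0], ![0, 0, 0, 1, 1, 0, 0], ![0, 0, 0, 0, 1, 1, 0], ![0, 0, 0, 0, 0, 1, 1]]
  | 3 => [![1, 0, 1, 1, 0, 0, 0], ![0, 1, 1, 1, 0, 0, 0], ![0, 1, 0, 1, 1, 0, 0], ![0, 0, 1, 1, 1, 0, 0], ![0, 0, 0, 1, 1, 1, 0], ![0, 0, 0, 0, 1, 1, 1]]
  | 4 => [![1, 1, 1, 1, 0, 0, 0], ![1, 0, 1, 1, 1, 0, 0], ![0, 1, 1, 1, 1, 0, 0], ![0, 1, 0, 1, 1, 1, 0], ![0, 0, 1, 1, 1, 1, 0], ![0, 0, 0, 1, 1, 1, 1]]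
  | 5 => [![1, 1, 1, 1, 1, 0, 0], ![1, 0, 1, 1, 1, 1, 0], ![0, 1, 1, 2, 1, 0, 0], ![0, 1, 1, 1, 1, 1, 0], ![0, 1, 0, 1, 1, 1, 1], ![0, 0, 1, 1, 1, 1, 1]]
  | 6 => [![1, 1, 1, 2, 1, 0, 0], ![1, 1, 1, 1, 1, 1, 0], ![1, 0, 1, 1, 1, 1, 1], ![0, 1, 1, 2, 1, 1, 0], ![0, 1, 1, 1, 1, 1, 1]]
  | 7 => [![1, 1, 2, 2, 1, 0, 0], ![1, 1, 1, 2, 1, 1, 0], ![1, 1, 1, 1, 1, 1, 1], ![0, 1, 1, 2, 2, 1, 0], ![0, 1, 1, 2, 1, 1, 1]]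
  | _ => []

/-- The bilinear form, for computations. -/
def b7 (x y : Fin 7 → ℤ) : ℤ := ∑ i, ∑ j, x i * CartanMatrix.E₇ i j * y j

theorem b7_eq (x y : Fin 7 → ℤ) : bl CartanMatrix.E₇ x y = b7 x y := rfl

/-- The unit vectors, for computations. -/
def r7 (j : Fin 7) : Fin 7 → ℤ := fun i => if i = j then 1 else 0

theorem r7_eq (j : Fin 7) : (rt j : Fin 7 → ℤ) = r7 j := by
  funext i
  unfold rt r7
  rw [Pi.single_apply]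

theorem st1 : ∀ v ∈ L 1, ∀ j : Fin 7, b7 v (r7 j) = -1 → v + r7 j ∈ L 2 := by decide +kernel

theorem st2 : ∀ v ∈ L 2, ∀ j : Fin 7, b7 v (r7 j) = -1 → v + r7 j ∈ L 3 := by decide +kernel

theorem st3 : ∀ v ∈ L 3, ∀ j : Fin 7, b7 v (r7 j) = -1 → v + r7 j ∈ L 4 := by decide +kernel

theorem st4 : ∀ v ∈ L 4, ∀ j : Fin 7, b7 v (r7 j) = -1 → v + r7 j ∈ L 5 := by decide +kernel

theorem st5 : ∀ v ∈ L 5, ∀ j : Fin 7, b7 v (r7 j) = -1 → v + r7 j ∈ L 6 := by decide +kernel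

theorem st6 : ∀ v ∈ L 6, ∀ j : Fin 7, b7 v (r7 j) = -1 → v + r7 j ∈ L 7 := by decide +kernel

theorem nd1 : (L 1).Nodup ∧ (∀ v ∈ L 1, (∀ i, 0 ≤ v i) ∧ b7 v v = 2 ∧ ∑ i, v i = 1) := by decide +kernel

theorem nd2 : (L 2).Nodup ∧ (∀ v ∈ L 2, (∀ i, 0 ≤ v i) ∧ b7 v v = 2 ∧ ∑ i, v i = 2) := by decide +kernel

theorem nd3 : (L 3).Nodup ∧ (∀ v ∈ L 3, (∀ i, 0 ≤ v i) ∧ b7 v v = 2 ∧ ∑ i, v i = 3) := by decide +kernel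

theorem nd4 : (L 4).Nodup ∧ (∀ v ∈ L 4, (∀ i, 0 ≤ v i) ∧ b7 v v = 2 ∧ ∑ i, v i = 4) := by decide +kernel

theorem nd5 : (L 5).Nodup ∧ (∀ v ∈ L 5, (∀ i, 0 ≤ v i) ∧ b7 v v = 2 ∧ ∑ i, v i = 5) := by decide +kernel

theorem nd6 : (L 6).Nodup ∧ (∀ v ∈ L 6, (∀ i, 0 ≤ v i) ∧ b7 v v = 2 ∧ ∑ i, v i = 6) := by decide +kernel

theorem nd7 : (L 7).Nodup ∧ (∀ v ∈ L 7, (∀ i, 0 ≤ v i) ∧ b7 v v = 2 ∧ ∑ i, v i = 7) := by decide +kernel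


theorem step (hA : IsADE CartanMatrix.E₇) (k : ℕ)
    (h : ∀ γ ∈ posRoots CartanMatrix.E₇, ht γ = (k : ℤ) → γ ∈ L k) (hk : 1 ≤ k)
    (hst : ∀ v ∈ L k, ∀ j : Fin 7, b7 v (r7 j) = -1 → v + r7 j ∈ L (k + 1)) :
    ∀ γ ∈ posRoots CartanMatrix.E₇, ht γ = ((k + 1 : ℕ) : ℤ) → γ ∈ L (k + 1) := by
  intro γ hγ hht
  rcases (kg_K3 hA).step γ hγ with ⟨j, rfl⟩ | ⟨j, hj, hb⟩
  · exfalso
    have h1 : ht (rt j : Fin 7 → ℤ) = 1 := by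
      unfold ht rt
      simp
    rw [h1] at hht
    push_cast at hht
    omega
  · have h1 : ht (γ - rt j) = (k : ℤ) := by
      have h2 : ht (γ - rt j) = ht γ - 1 := by
        have h3 : ∑ i, (rt j : Fin 7 → ℤ) i = 1 := by
          unfold rt
          simp
        unfold ht
        rw [← h3, ← Finset.sum_sub_distrib]
        rfl
      rw [h2, hht]
      push_cast
      ring
    have h4 := hst _ (h _ hj h1) j (by rw [← b7_eq, ← r7_eq]; exact hb)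
    rw [← r7_eq, sub_add_cancel] at h4
    exact h4

theorem base0 : ∀ j : Fin 7, r7 j ∈ L 1 := by decide +kernel

theorem base (hA : IsADE CartanMatrix.E₇) :
    ∀ γ ∈ posRoots CartanMatrix.E₇, ht γ = ((1 : ℕ) : ℤ) → γ ∈ L 1 := by
  intro γ hγ h
  obtain ⟨j, rfl⟩ := (kg_K3 hA).ht_one γ hγ (by rw [h]; norm_num)
  rw [r7_eq]
  exact base0 j

theorem conv (hA : IsADE CartanMatrix.E₇) (k : ℕ)
    (h : ∀ v ∈ L k, (∀ i, 0 ≤ v i) ∧ b7 v v = 2 ∧ ∑ i, v i = (k : ℤ)) (γ : Fin 7 → ℤ)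
    (hγ : γ ∈ L k) : γ ∈ posRoots CartanMatrix.E₇ ∧ ht γ = (k : ℤ) := by
  obtain ⟨h1, h2, h3⟩ := h γ hγ
  exact ⟨((R_HA8 (Fin 7)).mem _ hA γ).2 ⟨h1, h2⟩, h3⟩

theorem card_of (k : ℕ) (hnd : (L k).Nodup)
    (h1 : ∀ γ ∈ posRoots CartanMatrix.E₇, ht γ = (k : ℤ) → γ ∈ L k)
    (h2 : ∀ γ ∈ L k, γ ∈ posRoots CartanMatrix.E₇ ∧ ht γ = (k : ℤ)) :
    ((posRoots CartanMatrix.E₇).filter fun γ => ht γ = (k : ℤ)).card = (L k).length := by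
  have h3 : ((posRoots CartanMatrix.E₇).filter fun γ => ht γ = (k : ℤ)) = (L k).toFinset := by
    ext γ
    rw [Finset.mem_filter, List.mem_toFinset]
    exact ⟨fun h => h1 γ h.1 h.2, fun h => h2 γ h⟩
  rw [h3, List.toFinset_card_of_nodup hnd]

end KG14

open KG14 in
/-- The number of positive roots of `E₇` of height `1, ..., 7`: `7, 6, 6, 6, 6, 5, 5`. -/
theorem kg_E7 (hA : IsADE CartanMatrix.E₇) :
    ((posRoots CartanMatrix.E₇).filter fun γ => ht γ = 1).card = 7 ∧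
    ((posRoots CartanMatrix.E₇).filter fun γ => ht γ = 2).card = 6 ∧
    ((posRoots CartanMatrix.E₇).filter fun γ => ht γ = 3).card = 6 ∧
    ((posRoots CartanMatrix.E₇).filter fun γ => ht γ = 4).card = 6 ∧
    ((posRoots CartanMatrix.E₇).filter fun γ => ht γ = 5).card = 6 ∧
    ((posRoots CartanMatrix.E₇).filter fun γ => ht γ = 6).card = 5 ∧
    ((posRoots CartanMatrix.E₇).filter fun γ => ht γ = 7).card = 5 := by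
  have m1 := base hA
  have m2 := step hA 1 m1 (by norm_num) st1
  have m3 := step hA 2 m2 (by norm_num) st2
  have m4 := step hA 3 m3 (by norm_num) st3
  have m5 := step hA 4 m4 (by norm_num) st4
  have m6 := step hA 5 m5 (by norm_num) st5
  have m7 := step hA 6 m6 (by norm_num) st6
  refine ⟨?_, ?_, ?_, ?_, ?_, ?_, ?_⟩
  · exact card_of 1 nd1.1 m1 (conv hA 1 nd1.2)
  · exact card_of 2 nd2.1 m2 (conv hA 2 nd2.2)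
  · exact card_of 3 nd3.1 m3 (conv hA 3 nd3.2)
  · exact card_of 4 nd4.1 m4 (conv hA 4 nd4.2)
  · exact card_of 5 nd5.1 m5 (conv hA 5 nd5.2)
  · exact card_of 6 nd6.1 m6 (conv hA 6 nd6.2)
  · exact card_of 7 nd7.1 m7 (conv hA 7 nd7.2)

end WPE
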