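import Pool.Agent.WPE.IND3
import Pool.Agent.WPQ.AFD

set_option linter.unusedSectionVars false
open scoped TensorProduct
open WPQ.AF (IsFld)
namespace WPE

section bil

variable {B : Type} [LieRing B] [LieAlgebra ℂ B] {κ : B →ₗ[ℂ] B →ₗ[ℂ] ℂ}
variable {Y : Type} [AddCommGroup Y] [Module ℂ Y] [LieRingModule B Y] [LieModule ℂ B Y]
variable {E : Type} [AddCommGroup E] [Module ℂ E]

/-- The anticommutator of one term of the normally ordered product with a ghost. -/
theorem BR1.term (X : GMod B Y κ E) (m n : ℤ) (c : B) (z y : Y) (k : ℤ) :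
    X.nopF m c z k ∘ₗ X.ψ n y + X.ψ n y ∘ₗ X.nopF m c z k = -X.ppF (m + n) ⁅c, y⁆ z (k + n) := by
  ext x
  rw [LinearMap.add_apply, LinearMap.comp_apply, LinearMap.comp_apply, LinearMap.neg_apply]
  unfold GMod.nopF GMod.ppF
  rw [show m + n - 1 - (k + n) = m - 1 - k by ring]
  by_cases hk : k < 0
  · rw [if_pos hk, LinearMap.comp_apply, LinearMap.comp_apply, LinearMap.comp_apply]
    have h1 := X.anti (m - 1 - k) n z y x
    have h2 := X.commψ k n c y (X.ψ (m - 1 - k) z x)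
    rw [add_eq_zero_iff_eq_neg] at h1
    rw [h1, map_neg, ← h2]
    abel
  · rw [if_neg hk, LinearMap.comp_apply, LinearMap.comp_apply, LinearMap.comp_apply]
    have h1 := X.anti n (m - 1 - k) y z (X.J k c x)
    have h2 := X.commψ k n c y x
    have h3 := X.anti (k + n) (m - 1 - k) ⁅c, y⁆ z x
    rw [add_eq_zero_iff_eq_neg] at h1 h3
    rw [h1, h3, neg_neg, ← h2, map_sub]
    abel

theorem BR1.lf_left (X : GMod B Y κ E) (m n : ℤ) (c : B) (z y : Y) :
    LF (fun k => X.nopF m c z k ∘ₗ X.ψ n y) := (X.lf_nopF m c z).comp_right _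

theorem BR1.lf_right (X : GMod B Y κ E) (m n : ℤ) (c : B) (z y : Y) :
    LF (fun k => X.ψ n y ∘ₗ X.nopF m c z k) := (X.lf_nopF m c z).comp_left _

theorem BR1.tmul (X : GMod B Y κ E) (m n : ℤ) (c : B) (z y : Y) :
    X.nop m (c ⊗ₜ[ℂ] z) ∘ₗ X.ψ n y + X.ψ n y ∘ₗ X.nop m (c ⊗ₜ[ℂ] z) =
      -X.pp (m + n) (⁅c, y⁆ ⊗ₜ[ℂ] z) := by
  have h1 : (fun k => X.nopF m c z k ∘ₗ X.ψ n y + X.ψ n y ∘ₗ X.nopF m c z k) =
      fun k => -X.ppF (m + n) ⁅c, y⁆ z (Equiv.addRight n k) := by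
    funext k
    exact BR1.term X m n c z y k
  have hl : LF (fun k => X.ppF (m + n) ⁅c, y⁆ z (Equiv.addRight n k)) :=
    (X.lf_ppF (m + n) ⁅c, y⁆ z).comp_equiv (Equiv.addRight n)
  rw [GMod.nop_tmul, GMod.pp_tmul, psum_comp (X.lf_nopF m c z), comp_psum (X.lf_nopF m c z),
    ← psum_add (BR1.lf_left X m n c z y) (BR1.lf_right X m n c z y), h1, psum_neg hl,
    psum_equiv (X.lf_ppF (m + n) ⁅c, y⁆ z) (Equiv.addRight n)]

theorem br_nop_psi (X : GMod B Y κ E) (m n : ℤ) (t : B ⊗[ℂ] Y) (y : Y) (x : E) :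
    X.nop m t (X.ψ n y x) + X.ψ n y (X.nop m t x) = -X.pp (m + n) (GMod.lieL B y t) x := by
  induction t using TensorProduct.induction_on with
  | zero =>
    simp only [map_zero, LinearMap.zero_apply, add_zero, neg_zero]
  | tmul c z =>
    rw [GMod.lieL_tmul]
    exact LinearMap.congr_fun (BR1.tmul X m n c z y) x
  | add s t hs ht =>
    simp only [map_add, LinearMap.add_apply]
    rw [neg_add, ← hs, ← ht]
    abel

end bil

end WPE
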