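import Pool.Agent.WPE.BRD

/-! [WPE-BR7] The ghost degree. -/

set_option linter.unusedSectionVars false

open scoped TensorProduct
open WPQ.AF (IsFld)

namespace WPE

namespace BR7

variable {B : Type} [LieRing B] [LieAlgebra ℂ B] {κ : B →ₗ[ℂ] B →ₗ[ℂ] ℂ}
variable {Y : Type} [AddCommGroup Y] [Module ℂ Y] [LieRingModule B Y] [LieModule ℂ B Y]
variable {E : Type} [AddCommGroup E] [Module ℂ E]

/-- Normally ordered products map `P` to `P'`. -/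
theorem nop_mem (X : GMod B Y κ E) (P P' : Submodule ℂ E) (hJ : ∀ m a x, x ∈ P → X.J m a x ∈ P)
    (hJ' : ∀ m a x, x ∈ P' → X.J m a x ∈ P') (hψ : ∀ m y x, x ∈ P → X.ψ m y x ∈ P')
    (m : ℤ) (t : B ⊗[ℂ] Y) (x : E) (hx : x ∈ P) : X.nop m t x ∈ P' := by
  induction t using TensorProduct.induction_on with
  | zero =>
    rw [map_zero, LinearMap.zero_apply]
    exact P'.zero_mem
  | add s t hs ht =>
    rw [map_add, LinearMap.add_apply]
    exact P'.add_mem hs ht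
  | tmul c z =>
    rw [GMod.nop_tmul]
    obtain ⟨s, hs⟩ := (X.lf_nopF m c z).exists_finset x
    rw [psum_eq_sum (X.lf_nopF m c z) x s hs]
    refine Submodule.sum_mem _ fun k _ => ?_
    unfold GMod.nopF
    split_ifs
    · rw [LinearMap.comp_apply]
      exact hJ' _ _ _ (hψ _ _ _ hx)
    · rw [LinearMap.comp_apply]
      exact hψ _ _ _ (hJ _ _ _ hx)

/-- Products of two ghosts map `P` to `P''`. -/
theorem pp_mem (X : GMod B Y κ E) (P P' P'' : Submodule ℂ E)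
    (hψ : ∀ m y x, x ∈ P → X.ψ m y x ∈ P') (hψ' : ∀ m y x, x ∈ P' → X.ψ m y x ∈ P'')
    (m : ℤ) (t : Y ⊗[ℂ] Y) (x : E) (hx : x ∈ P) : X.pp m t x ∈ P'' := by
  induction t using TensorProduct.induction_on with
  | zero =>
    rw [map_zero, LinearMap.zero_apply]
    exact P''.zero_mem
  | add s t hs ht =>
    rw [map_add, LinearMap.add_apply]
    exact P''.add_mem hs ht
  | tmul u w =>
    rw [GMod.pp_tmul]
    obtain ⟨s, hs⟩ := (X.lf_ppF m u w).exists_finset x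
    rw [psum_eq_sum (X.lf_ppF m u w) x s hs]
    refine Submodule.sum_mem _ fun k _ => ?_
    unfold GMod.ppF
    rw [LinearMap.comp_apply]
    exact hψ' _ _ _ (hψ _ _ _ hx)

end BR7

section cplx

variable {B : Type} [LieRing B] [LieAlgebra ℂ B] (κ : B →ₗ[ℂ] B →ₗ[ℂ] ℂ)
variable (Y : Type) [AddCommGroup Y] [Module ℂ Y] [LieRingModule B Y] [LieModule ℂ B Y]
variable {N : Type} [AddCommGroup N] [Module ℂ N] (R : LRep B N)

/-- [BR7] Ghost degree. -/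
theorem br_gd :
    (∀ m y, GD1 κ Y R ((cmod κ Y (TMod.ofRep R)).ψ m y)) ∧
    (∀ m t, GD1 κ Y R ((cmod κ Y (TMod.ofRep R)).nop m t)) ∧
    (∀ (D : QD B Y) m a, GD1 κ Y R (D.q (cmod κ Y (TMod.ofRep R)) m a)) ∧
    (∀ T T', GD1 κ Y R T → GD1 κ Y R T' → GD1 κ Y R (T + T')) ∧
    (∀ m t, (∀ x ∈ cpart κ Y (TMod.ofRep R) 0,
        (cmod κ Y (TMod.ofRep R)).pp m t x ∈ cpart κ Y (TMod.ofRep R) 2) ∧
      (∀ x ∈ cpart κ Y (TMod.ofRep R) 1, (cmod κ Y (TMod.ofRep R)).pp m t x = 0) ∧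
      (∀ x ∈ cpart κ Y (TMod.ofRep R) 2, (cmod κ Y (TMod.ofRep R)).pp m t x = 0)) := by
  have hψ : ∀ m y, GD1 κ Y R ((cmod κ Y (TMod.ofRep R)).ψ m y) := fun m y =>
    ⟨fun x hx => cpart_psi0 m y hx, fun x hx => cpart_psi1 m y hx, fun x hx => cpart_psi2 m y hx⟩
  have hJ : ∀ (i : Fin 3) (m : ℤ) (a : B) (x : CC κ Y (TMod.ofRep R)),
      x ∈ cpart κ Y (TMod.ofRep R) i →
      (cmod κ Y (TMod.ofRep R)).J m a x ∈ cpart κ Y (TMod.ofRep R) i :=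
    fun i m a x hx => cpart_J m a hx
  have hJ0 : ∀ (m : ℤ) (a : B) (x : CC κ Y (TMod.ofRep R)),
      x ∈ (⊥ : Submodule ℂ (CC κ Y (TMod.ofRep R))) →
      (cmod κ Y (TMod.ofRep R)).J m a x ∈ (⊥ : Submodule ℂ (CC κ Y (TMod.ofRep R))) := by
    intro m a x hx
    rw [Submodule.mem_bot] at hx ⊢
    rw [hx, map_zero]
  have hψ0 : ∀ (m : ℤ) (y : Y) (x : CC κ Y (TMod.ofRep R)),
      x ∈ (⊥ : Submodule ℂ (CC κ Y (TMod.ofRep R))) →
      (cmod κ Y (TMod.ofRep R)).ψ m y x ∈ (⊥ : Submodule ℂ (CC κ Y (TMod.ofRep R))) := by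
    intro m y x hx
    rw [Submodule.mem_bot] at hx ⊢
    rw [hx, map_zero]
  have hψ2 : ∀ (m : ℤ) (y : Y) (x : CC κ Y (TMod.ofRep R)), x ∈ cpart κ Y (TMod.ofRep R) 2 →
      (cmod κ Y (TMod.ofRep R)).ψ m y x ∈ (⊥ : Submodule ℂ (CC κ Y (TMod.ofRep R))) := by
    intro m y x hx
    rw [Submodule.mem_bot]
    exact (hψ m y).2.2 x hx
  have hnop : ∀ m t, GD1 κ Y R ((cmod κ Y (TMod.ofRep R)).nop m t) := by
    intro m t
    refine ⟨fun x hx => ?_, fun x hx => ?_, fun x hx => ?_⟩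
    · exact BR7.nop_mem _ _ _ (hJ 0) (hJ 1) (fun m y => (hψ m y).1) m t x hx
    · exact BR7.nop_mem _ _ _ (hJ 1) (hJ 2) (fun m y => (hψ m y).2.1) m t x hx
    · exact (Submodule.mem_bot ℂ).1 (BR7.nop_mem _ _ _ (hJ 2) hJ0 hψ2 m t x hx)
  refine ⟨hψ, hnop, fun D m a => ⟨fun x hx => ?_, fun x hx => ?_, fun x hx => ?_⟩,
    fun T T' hT hT' => ⟨fun x hx => ?_, fun x hx => ?_, fun x hx => ?_⟩,
    fun m t => ⟨fun x hx => ?_, fun x hx => ?_, fun x hx => ?_⟩⟩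
  · rw [GMod.qq_apply]
    exact Submodule.add_mem _ (Submodule.sub_mem _ ((hnop m _).1 x hx)
      (Submodule.smul_mem _ _ ((hψ _ _).1 x hx))) ((hψ _ _).1 x hx)
  · rw [GMod.qq_apply]
    exact Submodule.add_mem _ (Submodule.sub_mem _ ((hnop m _).2.1 x hx)
      (Submodule.smul_mem _ _ ((hψ _ _).2.1 x hx))) ((hψ _ _).2.1 x hx)
  · rw [GMod.qq_apply, (hnop m _).2.2 x hx, (hψ _ _).2.2 x hx, (hψ _ _).2.2 x hx, smul_zero,
      sub_zero, add_zero]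
  · rw [LinearMap.add_apply]
    exact Submodule.add_mem _ (hT.1 x hx) (hT'.1 x hx)
  · rw [LinearMap.add_apply]
    exact Submodule.add_mem _ (hT.2.1 x hx) (hT'.2.1 x hx)
  · rw [LinearMap.add_apply, hT.2.2 x hx, hT'.2.2 x hx, add_zero]
  · exact BR7.pp_mem _ _ _ _ (fun m y => (hψ m y).1) (fun m y => (hψ m y).2.1) m t x hx
  · exact (Submodule.mem_bot ℂ).1 (BR7.pp_mem _ _ _ _ (fun m y => (hψ m y).2.1) hψ2 m t x hx)
  · exact (Submodule.mem_bot ℂ).1 (BR7.pp_mem _ _ _ _ hψ2 hψ0 m t x hx)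

end cplx

end WPE
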