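import Pool.Agent.WPE.BR6
import Pool.Agent.WPE.BR7

set_option linter.unusedSectionVars false

open scoped TensorProduct
open WPQ.AF (IsFld)

namespace WPE

section q0

variable {B : Type} [LieRing B] [LieAlgebra ℂ B] {κ : B →ₗ[ℂ] B →ₗ[ℂ] ℂ}
variable {Y : Type} [AddCommGroup Y] [Module ℂ Y] [LieRingModule B Y] [LieModule ℂ B Y]
variable {D : QD B Y} {N : Type} [AddCommGroup N] [Module ℂ N]

/-- `i0` on the projection. -/
theorem BR10.incl0 (κ : B →ₗ[ℂ] B →ₗ[ℂ] ℂ) (R : LRep B N) (v : KN Y N) :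
    Ind.incl κ (TMod.gt Y (TMod.ofRep R)).toTMod (KNpr Y N 0 v) = i0 κ Y R v.1 := rfl

/-- `i1` on the projection. -/
theorem BR10.incl1 (κ : B →ₗ[ℂ] B →ₗ[ℂ] ℂ) (R : LRep B N) (v : KN Y N) :
    Ind.incl κ (TMod.gt Y (TMod.ofRep R)).toTMod (KNpr Y N 1 v) = i1 κ Y R v.2.1 := rfl

/-- `i2` on the projection. -/
theorem BR10.incl2 (κ : B →ₗ[ℂ] B →ₗ[ℂ] ℂ) (R : LRep B N) (v : KN Y N) :
    Ind.incl κ (TMod.gt Y (TMod.ofRep R)).toTMod (KNpr Y N 2 v) = i2 κ Y R v.2.2 := rfl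

/-- [BR10] Uniqueness of `Q₀`, and its ghost degree. -/
theorem br_Q0_unique (M : QN D N)
    {Q0 : CC κ Y (TMod.ofRep M.R) →ₗ[ℂ] CC κ Y (TMod.ofRep M.R)} (h : IsQ0 κ M Q0) :
    GD1 κ Y M.R Q0 ∧ ∀ Q0', IsQ0 κ M Q0' → Q0' = Q0 := by
  have hC := br_C κ Y M.R
  obtain ⟨gpsi, -, gq, -, gpp⟩ := br_gd κ Y M.R
  refine ⟨⟨?_, ?_, ?_⟩, ?_⟩
  · -- `C⁰ → C¹`
    have key : cpart κ Y (TMod.ofRep M.R) 0 ≤ (cpart κ Y (TMod.ofRep M.R) 1).comap Q0 := by
      refine cpart_induction _ ?_ ?_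
      · intro v
        rw [Submodule.mem_comap, BR10.incl0, h.n0]
        exact hC.i1_mem _
      · intro m a x hx hW
        rw [Submodule.mem_comap] at hW ⊢
        rw [h.comm]
        exact Submodule.add_mem _ (cpart_J m a hW) ((gq D m a).1 x hx)
    exact fun x hx => key hx
  · -- `C¹ → C²`
    have key : cpart κ Y (TMod.ofRep M.R) 1 ≤ (cpart κ Y (TMod.ofRep M.R) 2).comap Q0 := by
      refine cpart_induction _ ?_ ?_
      · intro v
        rw [BR10.incl1]
        have hs := hC.ind1 v.2.1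
        have hle : Submodule.span ℂ {u | ∃ (s : ℕ) (y : Y) (v : N), u = Finsupp.single s y ⊗ₜ[ℂ] v} ≤
            ((cpart κ Y (TMod.ofRep M.R) 2).comap Q0).comap (i1 κ Y M.R) := by
          rw [Submodule.span_le]
          rintro _ ⟨s, y, v, rfl⟩
          rw [SetLike.mem_coe, Submodule.mem_comap, Submodule.mem_comap, h.n1, h.n0]
          refine Submodule.sub_mem _ ?_ ?_
          · unfold QD.qp
            rw [LinearMap.smul_apply]
            exact Submodule.smul_mem _ _ ((gpp _ _).1 _ (hC.i0_mem v))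
          · exact cpart_psi1 _ _ (hC.i1_mem _)
        exact hle hs
      · intro m a x hx hW
        rw [Submodule.mem_comap] at hW ⊢
        rw [h.comm]
        exact Submodule.add_mem _ (cpart_J m a hW) ((gq D m a).2.1 x hx)
    exact fun x hx => key hx
  · -- `C² → 0`
    have key : cpart κ Y (TMod.ofRep M.R) 2 ≤ LinearMap.ker Q0 := by
      refine cpart_induction _ ?_ ?_
      · intro v
        rw [LinearMap.mem_ker, BR10.incl2, h.n2]
      · intro m a x hx hW
        rw [LinearMap.mem_ker] at hW ⊢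
        rw [h.comm, hW, map_zero, zero_add]
        exact (gq D m a).2.2 x hx
    exact fun x hx => LinearMap.mem_ker.1 (key hx)
  · -- uniqueness
    intro Q0' h'
    have e0 : ∀ v, Q0' (i0 κ Y M.R v) = Q0 (i0 κ Y M.R v) := fun v => by rw [h.n0, h'.n0]
    refine LinearMap.ext fun x => ?_
    refine hC.ind (LinearMap.eqLocus Q0' Q0) ?_ ?_ ?_ ?_ x
    · exact e0
    · intro t
      have hle : Submodule.span ℂ {u | ∃ (s : ℕ) (y : Y) (v : N), u = Finsupp.single s y ⊗ₜ[ℂ] v} ≤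
          (LinearMap.eqLocus Q0' Q0).comap (i1 κ Y M.R) := by
        rw [Submodule.span_le]
        rintro _ ⟨s, y, v, rfl⟩
        show Q0' _ = Q0 _
        rw [h.n1, h'.n1, e0]
      exact hle (hC.ind1 t)
    · intro t
      show Q0' _ = Q0 _
      rw [h.n2, h'.n2]
    · intro m a x hx
      have hx' : Q0' x = Q0 x := hx
      show Q0' _ = Q0 _
      rw [h.comm, h'.comm, hx']

end q0

end WPE
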