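import Pool.Agent.WPE.IND3
import Pool.Agent.WPQ.AFD

/-! WPE, block BR, row BR2. -/

set_option linter.unusedSectionVars false

open scoped TensorProduct
open WPQ.AF (IsFld)

namespace WPE

section bil

variable {B : Type} [LieRing B] [LieAlgebra ℂ B] {κ : B →ₗ[ℂ] B →ₗ[ℂ] ℂ}
variable {Y : Type} [AddCommGroup Y] [Module ℂ Y] [LieRingModule B Y] [LieModule ℂ B Y]
variable {E : Type} [AddCommGroup E] [Module ℂ E]

theorem BR2.term (X : GMod B Y κ E) (m n : ℤ) (a : B) (u w : Y) (k : ℤ) :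
    X.J m a ∘ₗ X.ppF n u w k + -(X.ppF n u w k ∘ₗ X.J m a) =
      X.ppF (m + n) ⁅a, u⁆ w (Equiv.addRight m k) + X.ppF (m + n) u ⁅a, w⁆ k := by
  ext x
  rw [LinearMap.add_apply, LinearMap.add_apply, LinearMap.neg_apply, LinearMap.comp_apply,
    LinearMap.comp_apply]
  unfold GMod.ppF
  rw [Equiv.coe_addRight, show m + n - 1 - (k + m) = n - 1 - k by ring]
  simp only [LinearMap.comp_apply]
  have h1 := X.commψ m k a u (X.ψ (n - 1 - k) w x)
  have h2 := X.commψ m (n - 1 - k) a w x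
  rw [show m + (n - 1 - k) = m + n - 1 - k by ring] at h2
  rw [show k + m = m + k by ring, ← h1, ← h2, map_sub]
  abel

theorem BR2.tmul (X : GMod B Y κ E) (m n : ℤ) (a : B) (u w : Y) :
    X.J m a ∘ₗ X.pp n (u ⊗ₜ[ℂ] w) + -(X.pp n (u ⊗ₜ[ℂ] w) ∘ₗ X.J m a) =
      X.pp (m + n) (⁅a, u⁆ ⊗ₜ[ℂ] w) + X.pp (m + n) (u ⊗ₜ[ℂ] ⁅a, w⁆) := by
  have h1 : (fun k => X.J m a ∘ₗ X.ppF n u w k + -(X.ppF n u w k ∘ₗ X.J m a)) =
      fun k => X.ppF (m + n) ⁅a, u⁆ w (Equiv.addRight m k) + X.ppF (m + n) u ⁅a, w⁆ k := by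
    funext k
    exact BR2.term X m n a u w k
  have hl : LF (fun k => X.ppF (m + n) ⁅a, u⁆ w (Equiv.addRight m k)) :=
    (X.lf_ppF (m + n) ⁅a, u⁆ w).comp_equiv (Equiv.addRight m)
  have hL : LF (fun k => X.J m a ∘ₗ X.ppF n u w k) := (X.lf_ppF n u w).comp_left _
  have hR : LF (fun k => X.ppF n u w k ∘ₗ X.J m a) := (X.lf_ppF n u w).comp_right _
  rw [GMod.pp_tmul, GMod.pp_tmul, GMod.pp_tmul, comp_psum (X.lf_ppF n u w),
    psum_comp (X.lf_ppF n u w), ← psum_neg hR, ← psum_add hL hR.neg, h1,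
    psum_add hl (X.lf_ppF (m + n) u ⁅a, w⁆),
    psum_equiv (X.lf_ppF (m + n) ⁅a, u⁆ w) (Equiv.addRight m)]

/-- [BR2] -/
theorem br_J_pp (X : GMod B Y κ E) (m n : ℤ) (a : B) (t : Y ⊗[ℂ] Y) (x : E) :
    X.J m a (X.pp n t x) - X.pp n t (X.J m a x) = X.pp (m + n) ⁅a, t⁆ x := by
  induction t using TensorProduct.induction_on with
  | zero => simp only [map_zero, LinearMap.zero_apply, lie_zero, sub_zero]
  | tmul u w =>
    have h := LinearMap.congr_fun (BR2.tmul X m n a u w) x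
    rw [LinearMap.add_apply, LinearMap.neg_apply, LinearMap.comp_apply, LinearMap.comp_apply,
      ← sub_eq_add_neg] at h
    rw [h, TensorProduct.LieModule.lie_tmul_right, map_add]
  | add s t hs ht =>
    rw [lie_add, map_add, map_add, LinearMap.add_apply, LinearMap.add_apply, LinearMap.add_apply,
      map_add, ← hs, ← ht]
    abel

end bil

end WPE
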