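import Pool.Agent.WPE.IND3
import Pool.Agent.WPQ.AFD

/-! WPE, block BR, row BR3. -/

set_option linter.unusedSectionVars false

open scoped TensorProduct
open WPQ.AF (IsFld)

namespace WPE

section bil

variable {B : Type} [LieRing B] [LieAlgebra ℂ B] {κ : B →ₗ[ℂ] B →ₗ[ℂ] ℂ}
variable {Y : Type} [AddCommGroup Y] [Module ℂ Y] [LieRingModule B Y] [LieModule ℂ B Y]
variable {E : Type} [AddCommGroup E] [Module ℂ E]

theorem BR3.pure (X : GMod B Y κ E) (m : ℤ) (u w : Y) :
    psum (X.ppF m w u) = -psum (X.ppF m u w) := by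
  have h1 : (X.ppF m w u) = fun k => -(X.ppF m u w (Equiv.subLeft (m - 1) k)) := by
    funext k
    ext x
    have h := X.anti k (m - 1 - k) w u x
    show X.ψ k w (X.ψ (m - 1 - k) u x) = -(X.ψ (m - 1 - k) u (X.ψ (m - 1 - (m - 1 - k)) w x))
    rw [show m - 1 - (m - 1 - k) = k by ring]
    exact eq_neg_of_add_eq_zero_left h
  rw [h1, psum_neg ((X.lf_ppF m u w).comp_equiv (Equiv.subLeft (m - 1))),
    psum_equiv (X.lf_ppF m u w) (Equiv.subLeft (m - 1))]

/-- [BR3] -/
theorem br_pp_comm (X : GMod B Y κ E) (m : ℤ) (t : Y ⊗[ℂ] Y) :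
    X.pp m (TensorProduct.comm ℂ Y Y t) = -X.pp m t := by
  induction t using TensorProduct.induction_on with
  | zero => rw [map_zero, map_zero, neg_zero]
  | add t t' h h' => rw [map_add, map_add, map_add, h, h', neg_add]
  | tmul u w => rw [TensorProduct.comm_tmul, GMod.pp_tmul, GMod.pp_tmul, BR3.pure]

end bil

end WPE
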