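import Pool.Agent.WPE.FDE
import Pool.Agent.WPE.IND4

/-! WPE, block BR: definitions (W_DE_KDS.md, BR0-BR10), abstract form.

`B` is a Lie algebra with form `κ`, `Y` a `B`-module.  `QD B Y` are the data of the differential
(`Ω`, `Z`, `L`, the element `F`), `QN D N` the data of a module `N` (`d v = ∑_b e^b ⊗ e_b v`).
The complex `C⁰ ⊕ C¹ ⊕ C²` with coefficients in `N` is the one space `CC κ Y R`. -/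

set_option linter.unusedSectionVars false

namespace WPE

open scoped TensorProduct
open WPQ.AF (IsFld)

noncomputable section

section data

variable (B : Type) [LieRing B] [LieAlgebra ℂ B]
variable (Y : Type) [AddCommGroup Y] [Module ℂ Y] [LieRingModule B Y] [LieModule ℂ B Y]

/-- The data of the differential. -/
structure QD where
  Om : B →ₗ[ℂ] B ⊗[ℂ] Y
  Zt : Y →ₗ[ℂ] Y ⊗[ℂ] Y
  Lk : B →ₗ[ℂ] Y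
  F : Y

variable {B Y}

/-- The identities of block LA (LA4, LA5, LA8, LA10, and generation by degree `-1`). -/
structure QD.Ok (κ : B →ₗ[ℂ] B →ₗ[ℂ] ℂ) (D : QD B Y) : Prop where
  inv : IsInvForm κ
  om_lie : ∀ a b : B, ⁅a, D.Om b⁆ - ⁅b, D.Om a⁆ = D.Om ⁅a, b⁆
  lk_lie : ∀ a b : B, GMod.brk κ Y b (D.Om a) + ⁅a, D.Lk b⁆ = D.Lk ⁅a, b⁆
  zt_lie : ∀ (a : B) (y : Y), D.Zt ⁅a, y⁆ - ⁅a, D.Zt y⁆ =
    GMod.lieL B y (D.Om a) - TensorProduct.comm ℂ Y Y (GMod.lieL B y (D.Om a))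
  gen : ∀ S : Submodule ℂ B,
    (∀ a, D.Om a ∈ Submodule.span ℂ {t | ∃ (c : B) (z : Y), D.Om c = 0 ∧ D.Lk c = 0 ∧
      D.Zt z = 0 ∧ t = c ⊗ₜ[ℂ] z} → D.Zt (D.Lk a) = 0 → a ∈ S) →
    (∀ x ∈ S, ∀ y ∈ S, ⁅x, y⁆ ∈ S) → S = ⊤
  zt_F : D.Zt D.F = 0

variable {N : Type} [AddCommGroup N] [Module ℂ N]

/-- `c ⊗ z ↦ (v ↦ z ⊗ c v)`. -/
def omN (Y : Type) [AddCommGroup Y] [Module ℂ Y] (R : LRep B N) :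
    B ⊗[ℂ] Y →ₗ[ℂ] N →ₗ[ℂ] Y ⊗[ℂ] N :=
  TensorProduct.lift (LinearMap.mk₂ ℂ (fun (c : B) (z : Y) => TensorProduct.mk ℂ Y N z ∘ₗ R.ρ c)
    (by
      intro c c' z
      rw [map_add, LinearMap.comp_add])
    (by
      intro r c z
      rw [map_smul, LinearMap.comp_smul])
    (by
      intro c z z'
      rw [map_add, LinearMap.add_comp])
    (by
      intro r c z
      rw [map_smul, LinearMap.smul_comp]))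

theorem omN_tmul (R : LRep B N) (c : B) (z : Y) (v : N) :
    omN Y R (c ⊗ₜ z) v = z ⊗ₜ[ℂ] R.ρ c v := by
  unfold omN
  rw [TensorProduct.lift.tmul]
  rfl

/-- The action of `a` on `Y ⊗ N`. -/
def actYN (Y : Type) [AddCommGroup Y] [Module ℂ Y] [LieRingModule B Y] [LieModule ℂ B Y]
    (R : LRep B N) (a : B) : Y ⊗[ℂ] N →ₗ[ℂ] Y ⊗[ℂ] N :=
  LinearMap.rTensor N (LieModule.toEnd ℂ B Y a) + LinearMap.lTensor Y (R.ρ a)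

theorem actYN_tmul (R : LRep B N) (a : B) (y : Y) (v : N) :
    actYN Y R a (y ⊗ₜ v) = ⁅a, y⁆ ⊗ₜ[ℂ] v + y ⊗ₜ[ℂ] R.ρ a v := rfl

/-- Antisymmetrization `Y ⊗ (Y ⊗ N) → Y ⊗ (Y ⊗ N)`. -/
def altYN (Y N : Type) [AddCommGroup Y] [Module ℂ Y] [AddCommGroup N] [Module ℂ N] :
    Y ⊗[ℂ] (Y ⊗[ℂ] N) →ₗ[ℂ] Y ⊗[ℂ] (Y ⊗[ℂ] N) :=
  LinearMap.id - (TensorProduct.leftComm ℂ Y Y N).toLinearMap

theorem altYN_tmul (u w : Y) (v : N) :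
    altYN Y N (u ⊗ₜ (w ⊗ₜ v)) = u ⊗ₜ[ℂ] (w ⊗ₜ[ℂ] v) - w ⊗ₜ[ℂ] (u ⊗ₜ[ℂ] v) := rfl

/-- `y ⊗ v ↦ Z(y) ⊗ v`. -/
def ztYN (N : Type) [AddCommGroup N] [Module ℂ N] (D : QD B Y) :
    Y ⊗[ℂ] N →ₗ[ℂ] Y ⊗[ℂ] (Y ⊗[ℂ] N) :=
  (TensorProduct.assoc ℂ Y Y N).toLinearMap ∘ₗ LinearMap.rTensor N D.Zt

/-- The data of a module: `d v = ∑_b e^b ⊗ e_b v`. -/
structure QN (D : QD B Y) (N : Type) [AddCommGroup N] [Module ℂ N] where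
  R : LRep B N
  d : N →ₗ[ℂ] Y ⊗[ℂ] N

/-- The identities for the module data. -/
structure QN.Ok {D : QD B Y} (M : QN D N) : Prop where
  d_lie : ∀ (a : B) (v : N), M.d (M.R.ρ a v) = actYN Y M.R a (M.d v) + omN Y M.R (D.Om a) v
  d_sq : ∀ v : N,
    altYN Y N ((1 / 2 : ℂ) • ztYN N D (M.d v) + LinearMap.lTensor Y M.d (M.d v)) = 0

/-- The trivial module `ℂ`. -/
def QN.one (D : QD B Y) : QN D ℂ where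
  R := LRep.triv B
  d := 0

theorem QN.one_ok (D : QD B Y) : (QN.one D).Ok where
  d_lie := by
    intro a v
    have h : ∀ t : B ⊗[ℂ] Y, omN Y (LRep.triv B) t = 0 := by
      intro t
      induction t using TensorProduct.induction_on with
      | zero => rw [map_zero]
      | add x y hx hy => rw [map_add, hx, hy, add_zero]
      | tmul c z =>
        ext
        rw [omN_tmul]
        simp [LRep.triv]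
    show (0 : ℂ →ₗ[ℂ] Y ⊗[ℂ] ℂ) _ = actYN Y (LRep.triv B) a ((0 : ℂ →ₗ[ℂ] Y ⊗[ℂ] ℂ) v) +
      omN Y (LRep.triv B) (D.Om a) v
    rw [h]
    simp
  d_sq := by
    intro v
    show altYN Y ℂ ((1 / 2 : ℂ) • ztYN ℂ D ((0 : ℂ →ₗ[ℂ] Y ⊗[ℂ] ℂ) v) +
      LinearMap.lTensor Y (0 : ℂ →ₗ[ℂ] Y ⊗[ℂ] ℂ) ((0 : ℂ →ₗ[ℂ] Y ⊗[ℂ] ℂ) v)) = 0
    simp

end data

section cplx

variable {B : Type} [LieRing B] [LieAlgebra ℂ B]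
variable (κ : B →ₗ[ℂ] B →ₗ[ℂ] ℂ)
variable (Y : Type) [AddCommGroup Y] [Module ℂ Y] [LieRingModule B Y] [LieModule ℂ B Y]
variable {N : Type} [AddCommGroup N] [Module ℂ N] (R : LRep B N)

/-- `N → C⁰(N)` -/
def i0 : N →ₗ[ℂ] CC κ Y (TMod.ofRep R) :=
  Ind.incl κ (TMod.gt Y (TMod.ofRep R)).toTMod ∘ₗ LinearMap.inl ℂ N _

/-- `M ⊗ N → C¹(N)` -/
def i1 : Gh Y ⊗[ℂ] N →ₗ[ℂ] CC κ Y (TMod.ofRep R) :=
  Ind.incl κ (TMod.gt Y (TMod.ofRep R)).toTMod ∘ₗ LinearMap.inr ℂ N _ ∘ₗ LinearMap.inl ℂ _ _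

/-- `M ⊗ (M ⊗ N) → C²(N)` -/
def i2 : Gh Y ⊗[ℂ] (Gh Y ⊗[ℂ] N) →ₗ[ℂ] CC κ Y (TMod.ofRep R) :=
  Ind.incl κ (TMod.gt Y (TMod.ofRep R)).toTMod ∘ₗ LinearMap.inr ℂ N _ ∘ₗ LinearMap.inr ℂ _ _

/-- Basic facts on `C(N)`. -/
structure FactsC : Prop where
  J_i0_zero : ∀ (a : B) (v : N), (cmod κ Y (TMod.ofRep R)).J 0 a (i0 κ Y R v) =
    i0 κ Y R (R.ρ a v)
  J_i0_pos : ∀ (m : ℤ) (a : B) (v : N), 0 < m →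
    (cmod κ Y (TMod.ofRep R)).J m a (i0 κ Y R v) = 0
  J_i1 : ∀ (m : ℕ) (a : B) (t : Gh Y ⊗[ℂ] N),
    (cmod κ Y (TMod.ofRep R)).J m a (i1 κ Y R t) =
    i1 κ Y R (((TMod.ghost B Y).tensor (TMod.ofRep R)).act m a t)
  J_i2 : ∀ (m : ℕ) (a : B) (t : Gh Y ⊗[ℂ] (Gh Y ⊗[ℂ] N)),
    (cmod κ Y (TMod.ofRep R)).J m a (i2 κ Y R t) =
    i2 κ Y R (((TMod.ghost B Y).tensor ((TMod.ghost B Y).tensor (TMod.ofRep R))).act m a t)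
  psi_i0 : ∀ (s : ℕ) (y : Y) (v : N),
    (cmod κ Y (TMod.ofRep R)).ψ (-(s : ℤ) - 1) y (i0 κ Y R v) =
    i1 κ Y R (Finsupp.single s y ⊗ₜ[ℂ] v)
  psi_i0_nonneg : ∀ (n : ℤ) (y : Y) (v : N), 0 ≤ n →
    (cmod κ Y (TMod.ofRep R)).ψ n y (i0 κ Y R v) = 0
  psi_i1 : ∀ (s : ℕ) (y : Y) (t : Gh Y ⊗[ℂ] N),
    (cmod κ Y (TMod.ofRep R)).ψ (-(s : ℤ) - 1) y (i1 κ Y R t) =
    i2 κ Y R (Finsupp.single s y ⊗ₜ[ℂ] t -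
      TensorProduct.leftComm ℂ (Gh Y) (Gh Y) N (Finsupp.single s y ⊗ₜ[ℂ] t))
  psi_i1_nonneg : ∀ (n : ℤ) (y : Y) (t : Gh Y ⊗[ℂ] N), 0 ≤ n →
    (cmod κ Y (TMod.ofRep R)).ψ n y (i1 κ Y R t) = 0
  psi_i2 : ∀ (n : ℤ) (y : Y) (t : Gh Y ⊗[ℂ] (Gh Y ⊗[ℂ] N)),
    (cmod κ Y (TMod.ofRep R)).ψ n y (i2 κ Y R t) = 0
  i0_mem : ∀ v, i0 κ Y R v ∈ cpart κ Y (TMod.ofRep R) 0
  i1_mem : ∀ t, i1 κ Y R t ∈ cpart κ Y (TMod.ofRep R) 1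
  i2_mem : ∀ t, i2 κ Y R t ∈ cpart κ Y (TMod.ofRep R) 2
  ind : ∀ W : Submodule ℂ (CC κ Y (TMod.ofRep R)), (∀ v, i0 κ Y R v ∈ W) →
    (∀ t, i1 κ Y R t ∈ W) → (∀ t, i2 κ Y R t ∈ W) →
    (∀ m a x, x ∈ W → (cmod κ Y (TMod.ofRep R)).J m a x ∈ W) → ∀ x, x ∈ W
  ind1 : ∀ t : Gh Y ⊗[ℂ] N, t ∈ Submodule.span ℂ
    {u | ∃ (s : ℕ) (y : Y) (v : N), u = Finsupp.single s y ⊗ₜ[ℂ] v}

/-- Operators of ghost degree one. -/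
def GD1 (T : CC κ Y (TMod.ofRep R) →ₗ[ℂ] CC κ Y (TMod.ofRep R)) : Prop :=
  (∀ x ∈ cpart κ Y (TMod.ofRep R) 0, T x ∈ cpart κ Y (TMod.ofRep R) 1) ∧
  (∀ x ∈ cpart κ Y (TMod.ofRep R) 1, T x ∈ cpart κ Y (TMod.ofRep R) 2) ∧
  ∀ x ∈ cpart κ Y (TMod.ofRep R) 2, T x = 0

end cplx

section ops

variable {B : Type} [LieRing B] [LieAlgebra ℂ B] {κ : B →ₗ[ℂ] B →ₗ[ℂ] ℂ}
variable {Y : Type} [AddCommGroup Y] [Module ℂ Y] [LieRingModule B Y] [LieModule ℂ B Y]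
variable {E : Type} [AddCommGroup E] [Module ℂ E]

/-- `q(a)(m) = Ω(a)[m] - m ψ_{La}(m-1)` -/
abbrev QD.q (D : QD B Y) (X : GMod B Y κ E) (m : ℤ) (a : B) : E →ₗ[ℂ] E :=
  X.qq D.Om D.Lk 0 m a

/-- `q(ψ_y)(m) = -(1/2) Z(y){m}` -/
def QD.qp (D : QD B Y) (X : GMod B Y κ E) (m : ℤ) (y : Y) : E →ₗ[ℂ] E :=
  (-(1 / 2 : ℂ)) • X.pp m (D.Zt y)

/-- `a ↦ [F, a]` -/
def QD.Fm (D : QD B Y) : B →ₗ[ℂ] Y :=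
  -((LieModule.toEnd ℂ B Y : B →ₗ[ℂ] Module.End ℂ Y).flip D.F)

theorem QD.Fm_apply (D : QD B Y) (a : B) : D.Fm a = -⁅a, D.F⁆ := rfl

variable {D : QD B Y} {N : Type} [AddCommGroup N] [Module ℂ N]

/-- The properties of `Q₀`. -/
structure IsQ0 (κ : B →ₗ[ℂ] B →ₗ[ℂ] ℂ) (M : QN D N)
    (Q0 : CC κ Y (TMod.ofRep M.R) →ₗ[ℂ] CC κ Y (TMod.ofRep M.R)) : Prop where
  comm : ∀ (m : ℤ) (a : B) (x : CC κ Y (TMod.ofRep M.R)),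
    Q0 ((cmod κ Y (TMod.ofRep M.R)).J m a x) =
      (cmod κ Y (TMod.ofRep M.R)).J m a (Q0 x) + D.q (cmod κ Y (TMod.ofRep M.R)) m a x
  n0 : ∀ v : N, Q0 (i0 κ Y M.R v) =
    i1 κ Y M.R (LinearMap.rTensor N (Finsupp.lsingle 0 : Y →ₗ[ℂ] Gh Y) (M.d v))
  n1 : ∀ (s : ℕ) (y : Y) (v : N), Q0 (i1 κ Y M.R (Finsupp.single s y ⊗ₜ v)) =
    D.qp (cmod κ Y (TMod.ofRep M.R)) (-(s : ℤ) - 1) y (i0 κ Y M.R v) -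
      (cmod κ Y (TMod.ofRep M.R)).ψ (-(s : ℤ) - 1) y (Q0 (i0 κ Y M.R v))
  n2 : ∀ w, Q0 (i2 κ Y M.R w) = 0

/-- `Q = Q₀ + ψ_F(0)` -/
def QD.Qd (D : QD B Y) {N : Type} [AddCommGroup N] [Module ℂ N] {R : LRep B N}
    (Q0 : CC κ Y (TMod.ofRep R) →ₗ[ℂ] CC κ Y (TMod.ofRep R)) :
    CC κ Y (TMod.ofRep R) →ₗ[ℂ] CC κ Y (TMod.ofRep R) :=
  Q0 + (cmod κ Y (TMod.ofRep R)).ψ 0 D.F

end ops

end

end WPE
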