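import Pool.Agent.WPE.BR1
import Pool.Agent.WPE.BR2
import Pool.Agent.WPE.BR3
import Pool.Agent.WPE.BRD

set_option linter.unusedSectionVars false
open scoped TensorProduct
open WPQ.AF (IsFld)
namespace WPE

variable {B : Type} [LieRing B] [LieAlgebra ℂ B] {κ : B →ₗ[ℂ] B →ₗ[ℂ] ℂ}
variable {Y : Type} [AddCommGroup Y] [Module ℂ Y] [LieRingModule B Y] [LieModule ℂ B Y]
variable {E : Type} [AddCommGroup E] [Module ℂ E]

/-- [BR5] (BR3 of the paper) -/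
theorem br_q_psi (X : GMod B Y κ E) {D : QD B Y} (hD : D.Ok κ) (m n : ℤ) (a : B) (y : Y)
    (x : E) : (X.J m a (D.qp X n y x) - D.qp X n y (X.J m a x)) +
      (D.q X m a (X.ψ n y x) + X.ψ n y (D.q X m a x)) = D.qp X (m + n) ⁅a, y⁆ x := by
  have e1 : ∀ (k : ℤ) (z : Y) (w : E), D.qp X k z w = (-(1 / 2 : ℂ)) • X.pp k (D.Zt z) w := by
    intro k z w
    rfl
  have e2 : ∀ w : E, D.q X m a w = X.nop m (D.Om a) w - (m : ℂ) • X.ψ (m - 1) (D.Lk a) w := by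
    intro w
    have h := GMod.qq_apply X D.Om D.Lk 0 m a w
    have h2 : (X.ψ m ((0 : B →ₗ[ℂ] Y) a)) w = 0 := by
      rw [LinearMap.zero_apply, map_zero, LinearMap.zero_apply]
    rw [h2, add_zero] at h
    exact h
  have f1 := br_J_pp X m n a (D.Zt y) x
  have f2 := br_nop_psi X m n (D.Om a) y x
  have f3 := X.anti (m - 1) n (D.Lk a) y x
  have f4 : X.pp (m + n) (TensorProduct.comm ℂ Y Y (GMod.lieL B y (D.Om a))) x =
      -X.pp (m + n) (GMod.lieL B y (D.Om a)) x := by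
    rw [br_pp_comm]
    rfl
  have f5 := hD.zt_lie a y
  have f6 : X.pp (m + n) (D.Zt ⁅a, y⁆) x = X.pp (m + n) ⁅a, D.Zt y⁆ x +
      (2 : ℂ) • X.pp (m + n) (GMod.lieL B y (D.Om a)) x := by
    have h1 : D.Zt ⁅a, y⁆ = ⁅a, D.Zt y⁆ + (GMod.lieL B y (D.Om a) -
        TensorProduct.comm ℂ Y Y (GMod.lieL B y (D.Om a))) := by
      rw [← f5]; abel
    rw [h1, map_add, map_sub, LinearMap.add_apply, LinearMap.sub_apply, f4, sub_neg_eq_add,
      two_smul]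
  rw [e1, e1, e1, e2, e2, map_smul, map_sub, map_smul, f6]
  have g1 : (-(1 / 2 : ℂ)) • X.J m a (X.pp n (D.Zt y) x) -
      (-(1 / 2 : ℂ)) • X.pp n (D.Zt y) (X.J m a x) = (-(1 / 2 : ℂ)) • X.pp (m + n) ⁅a, D.Zt y⁆ x := by
    rw [← smul_sub, f1]
  have g2 : X.nop m (D.Om a) (X.ψ n y x) - (m : ℂ) • X.ψ (m - 1) (D.Lk a) (X.ψ n y x) +
      (X.ψ n y (X.nop m (D.Om a) x) - (m : ℂ) • X.ψ n y (X.ψ (m - 1) (D.Lk a) x)) =
      -X.pp (m + n) (GMod.lieL B y (D.Om a)) x := by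
    rw [← f2]
    have f7 : (m : ℂ) • X.ψ (m - 1) (D.Lk a) (X.ψ n y x) + (m : ℂ) • X.ψ n y (X.ψ (m - 1) (D.Lk a) x) =
        0 := by
      rw [← smul_add, f3, smul_zero]
    have f8 : ∀ p q r s : E, q + s = 0 → p - q + (r - s) = p + r := by
      intro p q r s h
      have : p - q + (r - s) = p + r - (q + s) := by abel
      rw [this, h, sub_zero]
    exact f8 _ _ _ _ f7
  rw [g1, g2, smul_add, smul_smul]
  norm_num

end WPE
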