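import Pool.Agent.WPE.BR6

/-! WPE, block BR, row 8: values of the operators on the generators of the complex. -/

set_option linter.unusedSectionVars false

open scoped TensorProduct
open WPQ.AF (IsFld)

namespace WPE

section q0

variable {B : Type} [LieRing B] [LieAlgebra ℂ B] {κ : B →ₗ[ℂ] B →ₗ[ℂ] ℂ}
variable {Y : Type} [AddCommGroup Y] [Module ℂ Y] [LieRingModule B Y] [LieModule ℂ B Y]
variable {D : QD B Y} {N : Type} [AddCommGroup N] [Module ℂ N]

theorem BR8.nop_pos (κ : B →ₗ[ℂ] B →ₗ[ℂ] ℂ) (R : LRep B N) (v : N) (m : ℤ) (hm : 0 < m)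
    (t : B ⊗[ℂ] Y) : (cmod κ Y (TMod.ofRep R)).nop m t (i0 κ Y R v) = 0 := by
  have F := br_C κ Y R
  induction t using TensorProduct.induction_on with
  | zero => rw [map_zero, LinearMap.zero_apply]
  | add x y hx hy => rw [map_add, LinearMap.add_apply, hx, hy, add_zero]
  | tmul c z =>
    rw [GMod.nop_tmul, psum_eq_sum ((cmod κ Y (TMod.ofRep R)).lf_nopF m c z) _ ∅,
      Finset.sum_empty]
    intro k _
    unfold GMod.nopF
    by_cases hk : k < 0
    · rw [if_pos hk, LinearMap.comp_apply, F.psi_i0_nonneg _ z v (by omega), map_zero]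
    · rw [if_neg hk, LinearMap.comp_apply]
      by_cases hk0 : k = 0
      · subst hk0
        rw [F.J_i0_zero, F.psi_i0_nonneg _ z _ (by omega)]
      · rw [F.J_i0_pos k c v (by omega), map_zero]

theorem BR8.nop_zero (κ : B →ₗ[ℂ] B →ₗ[ℂ] ℂ) (R : LRep B N) (v : N) (t : B ⊗[ℂ] Y) :
    (cmod κ Y (TMod.ofRep R)).nop 0 t (i0 κ Y R v) =
      i1 κ Y R (LinearMap.rTensor N (Finsupp.lsingle 0 : Y →ₗ[ℂ] Gh Y) (omN Y R t v)) := by
  have F := br_C κ Y R
  induction t using TensorProduct.induction_on with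
  | zero => simp only [map_zero, LinearMap.zero_apply]
  | add x y hx hy =>
    rw [map_add, LinearMap.add_apply, hx, hy, map_add, LinearMap.add_apply, map_add, map_add]
  | tmul c z =>
    rw [GMod.nop_tmul, psum_eq_sum ((cmod κ Y (TMod.ofRep R)).lf_nopF 0 c z) _ {0},
      Finset.sum_singleton, omN_tmul, LinearMap.rTensor_tmul]
    · unfold GMod.nopF
      rw [if_neg (lt_irrefl _), LinearMap.comp_apply, F.J_i0_zero]
      exact F.psi_i0 0 z (R.ρ c v)
    · intro k hk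
      rw [Finset.mem_singleton] at hk
      unfold GMod.nopF
      by_cases hk' : k < 0
      · rw [if_pos hk', LinearMap.comp_apply, F.psi_i0_nonneg _ z v (by omega), map_zero]
      · rw [if_neg hk', LinearMap.comp_apply, F.J_i0_pos k c v (by omega), map_zero]

theorem BR8.pp_nonneg (κ : B →ₗ[ℂ] B →ₗ[ℂ] ℂ) (R : LRep B N) (v : N) (m : ℤ) (hm : 0 ≤ m)
    (t : Y ⊗[ℂ] Y) : (cmod κ Y (TMod.ofRep R)).pp m t (i0 κ Y R v) = 0 := by
  have F := br_C κ Y R
  induction t using TensorProduct.induction_on with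
  | zero => rw [map_zero, LinearMap.zero_apply]
  | add x y hx hy => rw [map_add, LinearMap.add_apply, hx, hy, add_zero]
  | tmul u w =>
    rw [GMod.pp_tmul, psum_eq_sum ((cmod κ Y (TMod.ofRep R)).lf_ppF m u w) _ ∅,
      Finset.sum_empty]
    intro k _
    unfold GMod.ppF
    rw [LinearMap.comp_apply]
    by_cases hk : 0 ≤ m - 1 - k
    · rw [F.psi_i0_nonneg _ w v hk, map_zero]
    · have h := (cmod κ Y (TMod.ofRep R)).anti k (m - 1 - k) u w (i0 κ Y R v)
      rw [F.psi_i0_nonneg k u v (by omega), map_zero, add_zero] at h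
      exact h

theorem BR8.pp_neg_one (κ : B →ₗ[ℂ] B →ₗ[ℂ] ℂ) (R : LRep B N) (v : N) (t : Y ⊗[ℂ] Y) :
    (cmod κ Y (TMod.ofRep R)).pp (-1) t (i0 κ Y R v) =
      i2 κ Y R (TensorProduct.map (Finsupp.lsingle 0 : Y →ₗ[ℂ] Gh Y)
        (LinearMap.rTensor N (Finsupp.lsingle 0 : Y →ₗ[ℂ] Gh Y))
          (altYN Y N (TensorProduct.assoc ℂ Y Y N (t ⊗ₜ v)))) := by
  have F := br_C κ Y R
  induction t using TensorProduct.induction_on with
  | zero => simp only [map_zero, LinearMap.zero_apply, TensorProduct.zero_tmul]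
  | add x y hx hy =>
    rw [map_add, LinearMap.add_apply, hx, hy, TensorProduct.add_tmul, map_add, map_add, map_add,
      map_add]
  | tmul u w =>
    rw [GMod.pp_tmul, psum_eq_sum ((cmod κ Y (TMod.ofRep R)).lf_ppF (-1) u w) _ {-1},
      Finset.sum_singleton, TensorProduct.assoc_tmul, altYN_tmul]
    · unfold GMod.ppF
      rw [LinearMap.comp_apply]
      have e1 := F.psi_i0 0 w v
      have e2 := F.psi_i1 0 u (Finsupp.single 0 w ⊗ₜ v)
      have e3 : (-((0 : ℕ) : ℤ) - 1) = -1 := by norm_num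
      have e4 : ((-1 : ℤ) - 1 - -1) = -1 := by norm_num
      rw [e3] at e1 e2
      rw [e4, e1, e2, TensorProduct.leftComm_tmul, map_sub (TensorProduct.map _ _)]
      rfl
    · intro k hk
      rw [Finset.mem_singleton] at hk
      unfold GMod.ppF
      rw [LinearMap.comp_apply]
      by_cases hk' : 0 ≤ (-1 : ℤ) - 1 - k
      · rw [F.psi_i0_nonneg _ w v hk', map_zero]
      · have h := (cmod κ Y (TMod.ofRep R)).anti k (-1 - 1 - k) u w (i0 κ Y R v)
        rw [F.psi_i0_nonneg k u v (by omega), map_zero, add_zero] at h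
        exact h

/-- [BR8] Values on the generators. -/
theorem br_val (κ : B →ₗ[ℂ] B →ₗ[ℂ] ℂ) (M : QN D N) (v : N) :
    (∀ (m : ℤ) (a : B), 0 < m →
      D.q (cmod κ Y (TMod.ofRep M.R)) m a (i0 κ Y M.R v) = 0) ∧
    (∀ a : B, D.q (cmod κ Y (TMod.ofRep M.R)) 0 a (i0 κ Y M.R v) =
      i1 κ Y M.R (LinearMap.rTensor N (Finsupp.lsingle 0 : Y →ₗ[ℂ] Gh Y)
        (omN Y M.R (D.Om a) v))) ∧
    (∀ (m : ℤ) (y : Y), 0 ≤ m →
      D.qp (cmod κ Y (TMod.ofRep M.R)) m y (i0 κ Y M.R v) = 0) ∧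
    (∀ y : Y, D.qp (cmod κ Y (TMod.ofRep M.R)) (-1) y (i0 κ Y M.R v) =
      (-(1 / 2 : ℂ)) • i2 κ Y M.R (TensorProduct.map (Finsupp.lsingle 0 : Y →ₗ[ℂ] Gh Y)
        (LinearMap.rTensor N (Finsupp.lsingle 0 : Y →ₗ[ℂ] Gh Y))
          (altYN Y N (ztYN N D (y ⊗ₜ v))))) ∧
    (∀ (m : ℤ) (y : Y) (t : Y ⊗[ℂ] N), 0 ≤ m → (cmod κ Y (TMod.ofRep M.R)).ψ m y
      (i1 κ Y M.R (LinearMap.rTensor N (Finsupp.lsingle 0 : Y →ₗ[ℂ] Gh Y) t)) = 0) := by
  have F := br_C κ Y M.R
  refine ⟨?_, ?_, ?_, ?_, ?_⟩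
  · intro m a hm
    rw [GMod.qq_apply, BR8.nop_pos κ M.R v m hm, F.psi_i0_nonneg _ _ v (by omega),
      F.psi_i0_nonneg _ _ v (by omega), smul_zero, sub_zero, add_zero]
  · intro a
    rw [GMod.qq_apply, BR8.nop_zero κ M.R v, Int.cast_zero, zero_smul, sub_zero,
      F.psi_i0_nonneg _ _ v le_rfl, add_zero]
  · intro m y hm
    unfold QD.qp
    rw [LinearMap.smul_apply, BR8.pp_nonneg κ M.R v m hm, smul_zero]
  · intro y
    unfold QD.qp
    rw [LinearMap.smul_apply, BR8.pp_neg_one κ M.R v]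
    rfl
  · intro m y t hm
    exact F.psi_i1_nonneg m y _ hm

end q0

end WPE
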