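import Pool.Agent.WPE.BR10
import Pool.Agent.WPE.BR5
import Pool.Agent.WPE.BR8

set_option linter.unusedSectionVars false

open scoped TensorProduct
open WPQ.AF (IsFld)

namespace WPE

section q0

variable {B : Type} [LieRing B] [LieAlgebra ℂ B] {κ : B →ₗ[ℂ] B →ₗ[ℂ] ℂ}
variable {Y : Type} [AddCommGroup Y] [Module ℂ Y] [LieRingModule B Y] [LieModule ℂ B Y]
variable {D : QD B Y} {N : Type} [AddCommGroup N] [Module ℂ N]

/-- The algebra of one step. -/
theorem BR11.step {E : Type} [AddCommGroup E] [Module ℂ E] (Q J p p' q r r' : E →ₗ[ℂ] E)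
    (hQ : ∀ x, Q (J x) = J (Q x) + q x) (hp : ∀ x, J (p x) - p (J x) = p' x)
    (hr : ∀ x, (J (r x) - r (J x)) + (q (p x) + p (q x)) = r' x) (x : E)
    (h1 : Q (p x) + p (Q x) = r x) (h2 : Q (p' x) + p' (Q x) = r' x) :
    Q (p (J x)) + p (Q (J x)) = r (J x) := by
  have e1 : p (J x) = J (p x) - p' x := by
    rw [← hp x]
    abel
  have e2 : p (J (Q x)) = J (p (Q x)) - p' (Q x) := by
    rw [← hp (Q x)]
    abel
  have e3 := hr x
  rw [← h1, ← h2, map_add] at e3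
  rw [e1, map_sub, hQ, hQ, map_add, e2]
  have e4 : r (J x) = J (Q (p x)) + J (p (Q x)) + (q (p x) + p (q x)) - (Q (p' x) + p' (Q x)) := by
    rw [← e3]
    abel
  rw [e4]
  abel

/-- [BR11] (BR5 of the paper) -/
theorem br_Q0_psi (hD : D.Ok κ) (M : QN D N) (hM : M.Ok)
    {Q0 : CC κ Y (TMod.ofRep M.R) →ₗ[ℂ] CC κ Y (TMod.ofRep M.R)} (h : IsQ0 κ M Q0)
    (m : ℤ) (y : Y) (x : CC κ Y (TMod.ofRep M.R)) :
    Q0 ((cmod κ Y (TMod.ofRep M.R)).ψ m y x) + (cmod κ Y (TMod.ofRep M.R)).ψ m y (Q0 x) =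
      D.qp (cmod κ Y (TMod.ofRep M.R)) m y x := by
  have hC := br_C κ Y M.R
  obtain ⟨-, -, -, -, gpp⟩ := br_gd κ Y M.R
  obtain ⟨⟨g0, g1, g2⟩, -⟩ := br_Q0_unique M h
  let S : Submodule ℂ (CC κ Y (TMod.ofRep M.R)) :=
    { carrier := {x | ∀ (m : ℤ) (y : Y),
        Q0 ((cmod κ Y (TMod.ofRep M.R)).ψ m y x) + (cmod κ Y (TMod.ofRep M.R)).ψ m y (Q0 x) =
          D.qp (cmod κ Y (TMod.ofRep M.R)) m y x}
      add_mem' := by
        intro a b ha hb m y
        rw [map_add, map_add, map_add, map_add, map_add, ← ha m y, ← hb m y]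
        abel
      zero_mem' := by
        intro m y
        rw [map_zero, map_zero, map_zero, map_zero, add_zero]
      smul_mem' := by
        intro c a ha m y
        rw [map_smul, map_smul, map_smul, map_smul, map_smul, ← ha m y, smul_add] }
  have key : x ∈ S := by
    refine hC.ind S ?_ ?_ ?_ ?_ x
    · intro v m y
      rcases lt_or_ge m 0 with hm | hm
      · obtain ⟨s, rfl⟩ : ∃ s : ℕ, m = -(s : ℤ) - 1 := ⟨(-m - 1).toNat, by omega⟩
        rw [hC.psi_i0, h.n1]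
        abel
      · rw [hC.psi_i0_nonneg m y v hm, map_zero, zero_add, h.n0,
          (br_val κ M v).2.2.2.2 m y _ hm, (br_val κ M v).2.2.1 m y hm]
    · intro t m y
      have e1 : Q0 ((cmod κ Y (TMod.ofRep M.R)).ψ m y (i1 κ Y M.R t)) = 0 :=
        g2 _ (cpart_psi1 m y (hC.i1_mem t))
      have e2 : (cmod κ Y (TMod.ofRep M.R)).ψ m y (Q0 (i1 κ Y M.R t)) = 0 :=
        cpart_psi2 m y (g1 _ (hC.i1_mem t))
      have e3 : D.qp (cmod κ Y (TMod.ofRep M.R)) m y (i1 κ Y M.R t) = 0 := by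
        unfold QD.qp
        rw [LinearMap.smul_apply, (gpp m _).2.1 _ (hC.i1_mem t), smul_zero]
      rw [e1, e2, e3, add_zero]
    · intro t m y
      have e3 : D.qp (cmod κ Y (TMod.ofRep M.R)) m y (i2 κ Y M.R t) = 0 := by
        unfold QD.qp
        rw [LinearMap.smul_apply, (gpp m _).2.2 _ (hC.i2_mem t), smul_zero]
      rw [hC.psi_i2, h.n2, e3, map_zero, map_zero, add_zero]
    · intro n a x hx m y
      exact BR11.step Q0 ((cmod κ Y (TMod.ofRep M.R)).J n a) ((cmod κ Y (TMod.ofRep M.R)).ψ m y)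
        ((cmod κ Y (TMod.ofRep M.R)).ψ (n + m) ⁅a, y⁆) (D.q (cmod κ Y (TMod.ofRep M.R)) n a)
        (D.qp (cmod κ Y (TMod.ofRep M.R)) m y) (D.qp (cmod κ Y (TMod.ofRep M.R)) (n + m) ⁅a, y⁆)
        (fun x => h.comm n a x) (fun x => (cmod κ Y (TMod.ofRep M.R)).commψ n m a y x)
        (fun x => br_q_psi (cmod κ Y (TMod.ofRep M.R)) hD n m a y x) x (hx m y)
        (hx (n + m) ⁅a, y⁆)
  exact key m y

end q0

end WPE
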