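import Pool.Agent.WPE.BR11

set_option linter.unusedSectionVars false

open scoped TensorProduct
open WPQ.AF (IsFld)

namespace WPE

section q0

variable {B : Type} [LieRing B] [LieAlgebra ℂ B] {κ : B →ₗ[ℂ] B →ₗ[ℂ] ℂ}
variable {Y : Type} [AddCommGroup Y] [Module ℂ Y] [LieRingModule B Y] [LieModule ℂ B Y]
variable {D : QD B Y} {N : Type} [AddCommGroup N] [Module ℂ N]

/-- Anticommutation with a locally finite sum. -/
theorem BR12.psum_anti {K E : Type} [AddCommGroup E] [Module ℂ E] {f : K → E →ₗ[ℂ] E} (hf : LF f)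
    (Q : E →ₗ[ℂ] E) (h : ∀ k x, Q (f k x) + f k (Q x) = 0) (x : E) :
    Q (psum f x) + psum f (Q x) = 0 := by
  have e1 : Q ∘ₗ psum f + psum f ∘ₗ Q = 0 := by
    rw [comp_psum hf Q, psum_comp hf Q, ← psum_add (hf.comp_left Q) (hf.comp_right Q)]
    have e2 : (fun k => Q ∘ₗ f k + f k ∘ₗ Q) = fun _ : K => (0 : E →ₗ[ℂ] E) := by
      funext k
      refine LinearMap.ext fun x => ?_
      exact h k x
    rw [e2, psum_zero]
  exact LinearMap.congr_fun e1 x

/-- [BR12] (BR7 of the paper) `Q₀²` commutes with the `J m a`. -/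
theorem br_QQ_J (hD : D.Ok κ) (M : QN D N) (hM : M.Ok)
    {Q0 : CC κ Y (TMod.ofRep M.R) →ₗ[ℂ] CC κ Y (TMod.ofRep M.R)} (h : IsQ0 κ M Q0)
    (m : ℤ) (a : B) (x : CC κ Y (TMod.ofRep M.R)) :
    Q0 (Q0 ((cmod κ Y (TMod.ofRep M.R)).J m a x)) =
      (cmod κ Y (TMod.ofRep M.R)).J m a (Q0 (Q0 x)) := by
  have hpsi := fun l z x => br_Q0_psi hD M hM h l z x
  -- `{Q₀, ψ_z} = 0` if `Z z = 0`
  have hz : ∀ (l : ℤ) (z : Y) (x : CC κ Y (TMod.ofRep M.R)), D.Zt z = 0 →
      Q0 ((cmod κ Y (TMod.ofRep M.R)).ψ l z x) +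
        (cmod κ Y (TMod.ofRep M.R)).ψ l z (Q0 x) = 0 := by
    intro l z x hz
    rw [hpsi l z x]
    unfold QD.qp
    rw [hz, map_zero, smul_zero, LinearMap.zero_apply]
  -- `[Q₀, J_c] = 0` if `Ω c = 0`, `L c = 0`
  have hc : ∀ (k : ℤ) (c : B) (x : CC κ Y (TMod.ofRep M.R)), D.Om c = 0 → D.Lk c = 0 →
      Q0 ((cmod κ Y (TMod.ofRep M.R)).J k c x) =
        (cmod κ Y (TMod.ofRep M.R)).J k c (Q0 x) := by
    intro k c x h1 h2
    rw [h.comm]
    have e : D.q (cmod κ Y (TMod.ofRep M.R)) k c x = 0 := by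
      rw [QD.q, GMod.qq_apply, h1, h2]
      simp
    rw [e, add_zero]
  -- the normal ordered products of such letters
  have hnop : ∀ (m : ℤ) (t : B ⊗[ℂ] Y), t ∈ Submodule.span ℂ {t | ∃ (c : B) (z : Y), D.Om c = 0 ∧
      D.Lk c = 0 ∧ D.Zt z = 0 ∧ t = c ⊗ₜ[ℂ] z} → ∀ x,
      Q0 ((cmod κ Y (TMod.ofRep M.R)).nop m t x) +
        (cmod κ Y (TMod.ofRep M.R)).nop m t (Q0 x) = 0 := by
    intro m t ht
    induction ht using Submodule.span_induction with
    | mem t ht =>
      obtain ⟨c, z, h1, h2, h3, rfl⟩ := ht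
      intro x
      rw [GMod.nop_tmul]
      refine BR12.psum_anti (GMod.lf_nopF _ m c z) Q0 (fun k x => ?_) x
      unfold GMod.nopF
      split_ifs
      · rw [LinearMap.comp_apply, LinearMap.comp_apply, hc k c _ h1 h2, ← map_add, hz _ z x h3,
          map_zero]
      · rw [LinearMap.comp_apply, LinearMap.comp_apply, ← hc k c _ h1 h2]
        exact hz _ z _ h3
    | zero =>
      intro x
      rw [map_zero, LinearMap.zero_apply, LinearMap.zero_apply, map_zero, add_zero]
    | add s t _ _ hs ht =>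
      intro x
      rw [map_add, LinearMap.add_apply, LinearMap.add_apply, map_add]
      have e := congrArg₂ (· + ·) (hs x) (ht x)
      simp only [add_zero] at e
      rw [← e]
      abel
    | smul r t _ ht =>
      intro x
      rw [map_smul, LinearMap.smul_apply, LinearMap.smul_apply, map_smul, ← smul_add, ht x,
        smul_zero]
  -- the subspace of the good letters
  let S : Submodule ℂ B :=
    { carrier := {a | ∀ (m : ℤ) (x : CC κ Y (TMod.ofRep M.R)),
        Q0 (Q0 ((cmod κ Y (TMod.ofRep M.R)).J m a x)) =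
          (cmod κ Y (TMod.ofRep M.R)).J m a (Q0 (Q0 x))}
      add_mem' := by
        intro a b ha hb m x
        rw [map_add, LinearMap.add_apply, LinearMap.add_apply, map_add, map_add, ha m x, hb m x]
      zero_mem' := by
        intro m x
        rw [map_zero, LinearMap.zero_apply, LinearMap.zero_apply, map_zero, map_zero]
      smul_mem' := by
        intro c a ha m x
        rw [map_smul, LinearMap.smul_apply, LinearMap.smul_apply, map_smul, map_smul, ha m x] }
  have hS : S = ⊤ := by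
    refine hD.gen S ?_ ?_
    · intro a h1 h2 m x
      rw [h.comm, map_add, h.comm]
      have e : Q0 (D.q (cmod κ Y (TMod.ofRep M.R)) m a x) +
          D.q (cmod κ Y (TMod.ofRep M.R)) m a (Q0 x) = 0 := by
        rw [QD.q, GMod.qq_apply, GMod.qq_apply, LinearMap.zero_apply, map_zero,
          LinearMap.zero_apply, LinearMap.zero_apply, add_zero, add_zero, map_sub, map_smul]
        have e1 := hnop m (D.Om a) h1 x
        have e2 := hz (m - 1) (D.Lk a) x h2
        have e3 : Q0 ((cmod κ Y (TMod.ofRep M.R)).nop m (D.Om a) x) -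
            (m : ℂ) • Q0 ((cmod κ Y (TMod.ofRep M.R)).ψ (m - 1) (D.Lk a) x) +
            ((cmod κ Y (TMod.ofRep M.R)).nop m (D.Om a) (Q0 x) -
            (m : ℂ) • (cmod κ Y (TMod.ofRep M.R)).ψ (m - 1) (D.Lk a) (Q0 x)) =
            (Q0 ((cmod κ Y (TMod.ofRep M.R)).nop m (D.Om a) x) +
            (cmod κ Y (TMod.ofRep M.R)).nop m (D.Om a) (Q0 x)) -
            (m : ℂ) • (Q0 ((cmod κ Y (TMod.ofRep M.R)).ψ (m - 1) (D.Lk a) x) +
            (cmod κ Y (TMod.ofRep M.R)).ψ (m - 1) (D.Lk a) (Q0 x)) := by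
          rw [smul_add]
          abel
        rw [e3, e1, e2, smul_zero, sub_zero]
      rw [add_assoc, add_comm (D.q (cmod κ Y (TMod.ofRep M.R)) m a (Q0 x)), e, add_zero]
    · intro a ha b hb m x
      have hcomm := fun x => (cmod κ Y (TMod.ofRep M.R)).comm m 0 a b x
      have e : ∀ x, (cmod κ Y (TMod.ofRep M.R)).J m ⁅a, b⁆ x =
          (cmod κ Y (TMod.ofRep M.R)).J m a ((cmod κ Y (TMod.ofRep M.R)).J 0 b x) -
            (cmod κ Y (TMod.ofRep M.R)).J 0 b ((cmod κ Y (TMod.ofRep M.R)).J m a x) -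
              coc κ m 0 a b • x := by
        intro x
        rw [hcomm x, add_zero, add_sub_cancel_right]
      have ha' : ∀ (m : ℤ) (x : CC κ Y (TMod.ofRep M.R)),
        Q0 (Q0 ((cmod κ Y (TMod.ofRep M.R)).J m a x)) =
          (cmod κ Y (TMod.ofRep M.R)).J m a (Q0 (Q0 x)) := ha
      have hb' : ∀ (m : ℤ) (x : CC κ Y (TMod.ofRep M.R)),
        Q0 (Q0 ((cmod κ Y (TMod.ofRep M.R)).J m b x)) =
          (cmod κ Y (TMod.ofRep M.R)).J m b (Q0 (Q0 x)) := hb
      rw [e, e, map_sub, map_sub, map_sub, map_sub, map_smul, map_smul, ha' m _, hb' 0 x,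
        hb' 0 _, ha' m x]
  have ha : a ∈ S := by
    rw [hS]
    exact Submodule.mem_top
  exact ha m x

end q0

end WPE
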