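import Pool.Agent.WPE.BR8

set_option linter.unusedSectionVars false

open scoped TensorProduct
open WPQ.AF (IsFld)

namespace WPE

section q0

variable {B : Type} [LieRing B] [LieAlgebra ℂ B] {κ : B →ₗ[ℂ] B →ₗ[ℂ] ℂ}
variable {Y : Type} [AddCommGroup Y] [Module ℂ Y] [LieRingModule B Y] [LieModule ℂ B Y]
variable {D : QD B Y} {N : Type} [AddCommGroup N] [Module ℂ N]

namespace BR13

omit [LieRingModule B Y] [LieModule ℂ B Y] in
theorem nat (f : Y →ₗ[ℂ] Gh Y) (y : Y) (t : Y ⊗[ℂ] N) :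
    TensorProduct.map f (LinearMap.rTensor N f) (altYN Y N (y ⊗ₜ[ℂ] t)) =
      f y ⊗ₜ[ℂ] LinearMap.rTensor N f t -
        TensorProduct.leftComm ℂ (Gh Y) (Gh Y) N (f y ⊗ₜ[ℂ] LinearMap.rTensor N f t) := by
  induction t using TensorProduct.induction_on with
  | zero => simp
  | add a b ha hb =>
    rw [TensorProduct.tmul_add, map_add, map_add, ha, hb, map_add, TensorProduct.tmul_add, map_add]
    abel
  | tmul w v =>
    rw [altYN_tmul, map_sub, TensorProduct.map_tmul, TensorProduct.map_tmul,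
      LinearMap.rTensor_tmul, LinearMap.rTensor_tmul, TensorProduct.leftComm_tmul]

theorem key (hD : D.Ok κ) (M : QN D N)
    {Q0 : CC κ Y (TMod.ofRep M.R) →ₗ[ℂ] CC κ Y (TMod.ofRep M.R)} (h : IsQ0 κ M Q0)
    (t : Y ⊗[ℂ] N) :
    Q0 (i1 κ Y M.R (LinearMap.rTensor N (Finsupp.lsingle 0 : Y →ₗ[ℂ] Gh Y) t)) =
      -i2 κ Y M.R (TensorProduct.map (Finsupp.lsingle 0 : Y →ₗ[ℂ] Gh Y)
        (LinearMap.rTensor N (Finsupp.lsingle 0 : Y →ₗ[ℂ] Gh Y))
        (altYN Y N ((1 / 2 : ℂ) • ztYN N D t + LinearMap.lTensor Y M.d t))) := by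
  induction t using TensorProduct.induction_on with
  | zero => simp
  | add a b ha hb =>
    rw [map_add, map_add, map_add, ha, hb, ← neg_add, ← map_add, ← map_add, ← map_add]
    congr 4
    rw [map_add, map_add, smul_add]
    abel
  | tmul y v =>
    have h1 := (br_val κ M v).2.2.2.1 y
    have h2 := (br_C κ Y M.R).psi_i1 0 y
      (LinearMap.rTensor N (Finsupp.lsingle 0 : Y →ₗ[ℂ] Gh Y) (M.d v))
    have h3 := h.n1 0 y v
    have e : (-((0 : ℕ) : ℤ) - 1) = -1 := by simp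
    rw [e] at h2 h3
    rw [h1, h.n0 v, h2] at h3
    have h4 := nat (N := N) (Finsupp.lsingle 0 : Y →ₗ[ℂ] Gh Y) y (M.d v)
    rw [LinearMap.rTensor_tmul, LinearMap.lTensor_tmul]
    show Q0 (i1 κ Y M.R (Finsupp.single 0 y ⊗ₜ[ℂ] v)) = _
    rw [h3]
    have h5 : (Finsupp.single 0 y : Gh Y) = (Finsupp.lsingle 0 : Y →ₗ[ℂ] Gh Y) y := rfl
    rw [h5, ← h4, map_add, map_add, map_add, map_smul, map_smul, map_smul, neg_add, neg_smul,
      sub_eq_add_neg]

end BR13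

theorem br_QQ_i0 (hD : D.Ok κ) (M : QN D N) (hM : M.Ok)
    {Q0 : CC κ Y (TMod.ofRep M.R) →ₗ[ℂ] CC κ Y (TMod.ofRep M.R)} (h : IsQ0 κ M Q0) (v : N) :
    Q0 (Q0 (i0 κ Y M.R v)) = 0 := by
  rw [h.n0 v, BR13.key hD M h, hM.d_sq v, map_zero, map_zero, neg_zero]

end q0

end WPE
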