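import Pool.Agent.WPE.BR12
import Pool.Agent.WPE.BR13

/-! WPE, block BR, row BR14: the operator `Q`. -/

set_option linter.unusedSectionVars false

open scoped TensorProduct
open WPQ.AF (IsFld)

namespace WPE

section q0

variable {B : Type} [LieRing B] [LieAlgebra ℂ B] {κ : B →ₗ[ℂ] B →ₗ[ℂ] ℂ}
variable {Y : Type} [AddCommGroup Y] [Module ℂ Y] [LieRingModule B Y] [LieModule ℂ B Y]
variable {D : QD B Y} {N : Type} [AddCommGroup N] [Module ℂ N]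

namespace BR14

theorem sq (hD : D.Ok κ) (M : QN D N) (hM : M.Ok)
    {Q0 : CC κ Y (TMod.ofRep M.R) →ₗ[ℂ] CC κ Y (TMod.ofRep M.R)} (h : IsQ0 κ M Q0)
    (x : CC κ Y (TMod.ofRep M.R)) : Q0 (Q0 x) = 0 := by
  have hg := (br_Q0_unique M h).1
  have hC := br_C κ Y M.R
  have hx : x ∈ LinearMap.ker (Q0 ∘ₗ Q0) := by
    refine hC.ind _ ?_ ?_ ?_ ?_ x
    · intro v
      exact LinearMap.mem_ker.2 (br_QQ_i0 hD M hM h v)
    · intro t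
      exact LinearMap.mem_ker.2 (hg.2.2 _ (hg.2.1 _ (hC.i1_mem t)))
    · intro t
      refine LinearMap.mem_ker.2 ?_
      rw [LinearMap.comp_apply, h.n2, map_zero]
    · intro m a y hy
      refine LinearMap.mem_ker.2 ?_
      have h1 : Q0 (Q0 y) = 0 := LinearMap.mem_ker.1 hy
      rw [LinearMap.comp_apply, br_QQ_J hD M hM h m a y, h1, map_zero]
  exact LinearMap.mem_ker.1 hx

theorem anti (hD : D.Ok κ) (M : QN D N) (hM : M.Ok)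
    {Q0 : CC κ Y (TMod.ofRep M.R) →ₗ[ℂ] CC κ Y (TMod.ofRep M.R)} (h : IsQ0 κ M Q0)
    (x : CC κ Y (TMod.ofRep M.R)) : Q0 ((cmod κ Y (TMod.ofRep M.R)).ψ 0 D.F x) +
      (cmod κ Y (TMod.ofRep M.R)).ψ 0 D.F (Q0 x) = 0 := by
  rw [br_Q0_psi hD M hM h 0 D.F x]
  unfold QD.qp
  rw [hD.zt_F, map_zero, smul_zero, LinearMap.zero_apply]

theorem psi_sq (M : QN D N) (x : CC κ Y (TMod.ofRep M.R)) :
    (cmod κ Y (TMod.ofRep M.R)).ψ 0 D.F ((cmod κ Y (TMod.ofRep M.R)).ψ 0 D.F x) = 0 := by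
  have h1 := (cmod κ Y (TMod.ofRep M.R)).anti 0 0 D.F D.F x
  rw [← two_smul ℂ] at h1
  exact (smul_eq_zero.1 h1).resolve_left (by norm_num)

end BR14

/-- [BR14] (BR8, BR9 of the paper) `Q = Q₀ + ψ_F(0)`. -/
theorem br_Q (hD : D.Ok κ) (M : QN D N) (hM : M.Ok)
    {Q0 : CC κ Y (TMod.ofRep M.R) →ₗ[ℂ] CC κ Y (TMod.ofRep M.R)} (h : IsQ0 κ M Q0) :
    (∀ x, Q0 (Q0 x) = 0) ∧
    (∀ x, Q0 ((cmod κ Y (TMod.ofRep M.R)).ψ 0 D.F x) +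
      (cmod κ Y (TMod.ofRep M.R)).ψ 0 D.F (Q0 x) = 0) ∧
    (∀ x, D.Qd Q0 (D.Qd Q0 x) = 0) ∧
    (∀ m a x, D.Qd Q0 ((cmod κ Y (TMod.ofRep M.R)).J m a x) =
      (cmod κ Y (TMod.ofRep M.R)).J m a (D.Qd Q0 x) +
        (cmod κ Y (TMod.ofRep M.R)).qq D.Om D.Lk D.Fm m a x) ∧
    GD1 κ Y M.R (D.Qd Q0) := by
  have h1 := BR14.sq hD M hM h
  have h2 := BR14.anti hD M hM h
  refine ⟨h1, h2, ?_, ?_, ?_⟩
  · intro x
    show Q0 (Q0 x + (cmod κ Y (TMod.ofRep M.R)).ψ 0 D.F x) +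
      (cmod κ Y (TMod.ofRep M.R)).ψ 0 D.F (Q0 x + (cmod κ Y (TMod.ofRep M.R)).ψ 0 D.F x) = 0
    rw [map_add, map_add, h1, zero_add, BR14.psi_sq, add_zero, h2]
  · intro m a x
    have h3 := (cmod κ Y (TMod.ofRep M.R)).commψ m 0 a D.F x
    have h4 : (cmod κ Y (TMod.ofRep M.R)).ψ 0 D.F ((cmod κ Y (TMod.ofRep M.R)).J m a x) =
        (cmod κ Y (TMod.ofRep M.R)).J m a ((cmod κ Y (TMod.ofRep M.R)).ψ 0 D.F x) -
          (cmod κ Y (TMod.ofRep M.R)).ψ m ⁅a, D.F⁆ x := by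
      rw [add_zero] at h3
      rw [← h3]
      abel
    have h5 := (cmod κ Y (TMod.ofRep M.R)).qq_apply D.Om D.Lk D.Fm m a x
    have h6 := (cmod κ Y (TMod.ofRep M.R)).qq_apply D.Om D.Lk 0 m a x
    rw [LinearMap.zero_apply, map_zero, LinearMap.zero_apply, add_zero] at h6
    have h7 : (cmod κ Y (TMod.ofRep M.R)).ψ m (D.Fm a) x =
        -(cmod κ Y (TMod.ofRep M.R)).ψ m ⁅a, D.F⁆ x := by
      rw [QD.Fm_apply, map_neg, LinearMap.neg_apply]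
    rw [← h6, h7] at h5
    show Q0 ((cmod κ Y (TMod.ofRep M.R)).J m a x) +
      (cmod κ Y (TMod.ofRep M.R)).ψ 0 D.F ((cmod κ Y (TMod.ofRep M.R)).J m a x) =
      (cmod κ Y (TMod.ofRep M.R)).J m a (Q0 x + (cmod κ Y (TMod.ofRep M.R)).ψ 0 D.F x) + _
    rw [h.comm, h4, h5, map_add]
    abel
  · exact (br_gd κ Y M.R).2.2.2.1 _ _ (br_Q0_unique M h).1
      ((br_gd κ Y M.R).1 0 D.F)

end q0

end WPE
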