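import Pool.Agent.WPE.FDE

/-! WPE, block FD, row FD4. -/

namespace WPE

open scoped TensorProduct
open WPQ.AF (IsFld)

noncomputable section

namespace FD4

variable {E : Type} [AddCommGroup E] [Module ℂ E]

theorem isFld_brD (D : E →ₗ[ℂ] E) {b : ℤ → E →ₗ[ℂ] E} (hb : IsFld b) : IsFld (brD D b) := by
  intro x
  obtain ⟨N, hN⟩ := hb x
  obtain ⟨N', hN'⟩ := hb (D x)
  refine ⟨max N N', fun n hn => ?_⟩
  unfold brD
  rw [LinearMap.sub_apply, LinearMap.comp_apply, LinearMap.comp_apply,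
    hN n (le_trans (le_max_left _ _) hn), hN' n (le_trans (le_max_right _ _) hn), map_zero,
    sub_zero]

theorem brD_nL (D : E →ₗ[ℂ] E) (n : ℤ) (a : ℤ → E →ₗ[ℂ] E) {b : ℤ → E →ₗ[ℂ] E}
    (hb : IsFld b) (k : ℤ) : D ∘ₗ nL n a b k - nL n a b k ∘ₗ D =
      nL n (brD D a) b k + nL n a (brD D b) k := by
  unfold nL
  rw [comp_psum (lf_tL n a hb k), psum_comp (lf_tL n a hb k),
    ← psum_sub ((lf_tL n a hb k).comp_left D) ((lf_tL n a hb k).comp_right D),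
    ← psum_add (lf_tL n (brD D a) hb k) (lf_tL n a (isFld_brD D hb) k)]
  congr 1
  funext j
  ext x
  simp only [tL, brD, LinearMap.sub_apply, LinearMap.add_apply, LinearMap.comp_apply,
    LinearMap.smul_apply, map_smul, map_sub, smul_sub]
  abel

theorem brD_nR (D : E →ₗ[ℂ] E) (n : ℤ) {a : ℤ → E →ₗ[ℂ] E} (ha : IsFld a)
    (b : ℤ → E →ₗ[ℂ] E) (k : ℤ) : D ∘ₗ nR n a b k - nR n a b k ∘ₗ D =
      nR n (brD D a) b k + nR n a (brD D b) k := by
  unfold nR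
  rw [comp_psum (lf_tR n ha b k), psum_comp (lf_tR n ha b k),
    ← psum_sub ((lf_tR n ha b k).comp_left D) ((lf_tR n ha b k).comp_right D),
    ← psum_add (lf_tR n (isFld_brD D ha) b k) (lf_tR n ha (brD D b) k)]
  congr 1
  funext j
  ext x
  simp only [tR, brD, LinearMap.sub_apply, LinearMap.add_apply, LinearMap.comp_apply,
    LinearMap.smul_apply, map_smul, map_sub, smul_sub]
  abel

end FD4

section general

variable {E : Type} [AddCommGroup E] [Module ℂ E]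

theorem fd_brD (D : E →ₗ[ℂ] E) (n : ℤ) {a b : ℤ → E →ₗ[ℂ] E} (ha : IsFld a) (hb : IsFld b) :
    brD D (nprod n a b) = nprod n (brD D a) b + nprod n a (brD D b) := by
  funext k
  have h1 := FD4.brD_nL D n a hb k
  have h2 := FD4.brD_nR D n ha b k
  show D ∘ₗ (nL n a b k - nR n a b k) - (nL n a b k - nR n a b k) ∘ₗ D =
    (nL n (brD D a) b k - nR n (brD D a) b k) + (nL n a (brD D b) k - nR n a (brD D b) k)
  rw [LinearMap.comp_sub, LinearMap.sub_comp]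
  have h3 : D ∘ₗ nL n a b k - D ∘ₗ nR n a b k - (nL n a b k ∘ₗ D - nR n a b k ∘ₗ D) =
      (D ∘ₗ nL n a b k - nL n a b k ∘ₗ D) - (D ∘ₗ nR n a b k - nR n a b k ∘ₗ D) := by
    abel
  rw [h3, h1, h2]
  abel

theorem fd_hom {E' : Type} [AddCommGroup E'] [Module ℂ E'] (G : E →ₗ[ℂ] E') (n : ℤ)
    {a b : ℤ → E →ₗ[ℂ] E} {a' b' : ℤ → E' →ₗ[ℂ] E'} (ha : IsFld a) (hb : IsFld b)
    (ha' : IsFld a') (hb' : IsFld b') (hGa : ∀ n x, G (a n x) = a' n (G x))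
    (hGb : ∀ n x, G (b n x) = b' n (G x)) (k : ℤ) (x : E) :
    G (nprod n a b k x) = nprod n a' b' k (G x) := by
  obtain ⟨N1, -, h1⟩ := nL_eq n a hb x
  obtain ⟨N2, h2⟩ := nR_eq n ha b x
  obtain ⟨N3, -, h3⟩ := nL_eq n a' hb' (G x)
  obtain ⟨N4, h4⟩ := nR_eq n ha' b' (G x)
  obtain ⟨N, hN⟩ : ∃ N : ℕ, N = max (max (N1 - k).toNat N2) (max (N3 - k).toNat N4) := ⟨_, rfl⟩
  show G (nL n a b k x - nR n a b k x) = nL n a' b' k (G x) - nR n a' b' k (G x)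
  rw [h1 k N (by omega), h2 k N (by omega), h3 k N (by omega), h4 k N (by omega), map_sub,
    map_sum, map_sum]
  congr 1
  · refine Finset.sum_congr rfl fun j _ => ?_
    rw [map_smul, hGa, hGb]
  · refine Finset.sum_congr rfl fun j _ => ?_
    rw [map_smul, hGb, hGa]

theorem fd_stable (W : Submodule ℂ E) (n : ℤ) {a b : ℤ → E →ₗ[ℂ] E} (ha : IsFld a)
    (hb : IsFld b) (hWa : ∀ n, ∀ x ∈ W, a n x ∈ W) (hWb : ∀ n, ∀ x ∈ W, b n x ∈ W) (k : ℤ) :
    ∀ x ∈ W, nprod n a b k x ∈ W := by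
  intro x hx
  obtain ⟨N1, -, h1⟩ := nL_eq n a hb x
  obtain ⟨N2, h2⟩ := nR_eq n ha b x
  show nL n a b k x - nR n a b k x ∈ W
  rw [h1 k (N1 - k).toNat (by omega), h2 k N2 le_rfl]
  refine W.sub_mem (W.sum_mem fun j _ => W.smul_mem _ (hWa _ _ (hWb _ _ hx)))
    (W.sum_mem fun j _ => W.smul_mem _ (hWb _ _ (hWa _ _ hx)))

end general

end

end WPE
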