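import Pool.Agent.WPE.FD12
import Pool.Agent.WPE.FD4

open scoped TensorProduct
open WPQ.AF (IsFld)

namespace WPE

noncomputable section

variable {B : Type} [LieRing B] [LieAlgebra ℂ B] {κ : B →ₗ[ℂ] B →ₗ[ℂ] ℂ}
variable {Y : Type} [AddCommGroup Y] [Module ℂ Y] [LieRingModule B Y] [LieModule ℂ B Y]
variable {E : Type} [AddCommGroup E] [Module ℂ E] (X : GMod B Y κ E)

namespace FD13

/-- The vectors on which the derivation property holds. -/
def good (Q : E →ₗ[ℂ] E) (Qv : VC κ Y →ₗ[ℂ] VC κ Y) : Submodule ℂ (VC κ Y) where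
  carrier := {w | ∀ (k : ℤ) (x : E),
    Q ((X.Yh w).1 k x) = (X.Yh w).1 k (Q x) + (X.Yh (Qv w)).1 k x}
  add_mem' := by
    intro w w' hw hw' k x
    have h1 : (X.Yh (w + w')).1 = (X.Yh w).1 + (X.Yh w').1 := by rw [map_add]; rfl
    have h2 : (X.Yh (Qv (w + w'))).1 = (X.Yh (Qv w)).1 + (X.Yh (Qv w')).1 := by
      rw [map_add, map_add]; rfl
    rw [h1, h2]
    simp only [Pi.add_apply, LinearMap.add_apply, map_add]
    rw [hw k x, hw' k x]
    abel
  zero_mem' := by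
    intro k x
    have h1 : (X.Yh 0).1 = 0 := by rw [map_zero]; rfl
    have h2 : (X.Yh (Qv 0)).1 = 0 := by rw [map_zero, map_zero]; rfl
    rw [h1, h2]
    simp only [Pi.zero_apply, LinearMap.zero_apply, map_zero, add_zero]
  smul_mem' := by
    intro c w hw k x
    have h1 : (X.Yh (c • w)).1 = c • (X.Yh w).1 := by rw [map_smul]; rfl
    have h2 : (X.Yh (Qv (c • w))).1 = c • (X.Yh (Qv w)).1 := by
      rw [map_smul, map_smul]; rfl
    rw [h1, h2]
    simp only [Pi.smul_apply, LinearMap.smul_apply, map_smul]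
    rw [hw k x, smul_add]

theorem main (Om : B →ₗ[ℂ] B ⊗[ℂ] Y) (Lm Fm : B →ₗ[ℂ] Y) (Q : E →ₗ[ℂ] E)
    (hQ : ∀ (m : ℤ) (a : B) (x : E), Q (X.J m a x) = X.J m a (Q x) + X.qq Om Lm Fm m a x)
    (Qv : VC κ Y →ₗ[ℂ] VC κ Y)
    (hQv : ∀ (m : ℤ) (a : B) (w : VC κ Y), Qv ((cmod κ Y (TMod.triv B)).J m a w) =
      (cmod κ Y (TMod.triv B)).J m a (Qv w) + (cmod κ Y (TMod.triv B)).qq Om Lm Fm m a w)
    (hvac : Qv (cvac κ Y) = 0) : cpart κ Y (TMod.triv B) 0 ≤ good X Q Qv := by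
  refine cpart_induction (good X Q Qv) (fun v => ?_) (fun m a w hw ih => ?_)
  · have h : Ind.incl κ ((TMod.gt Y (TMod.triv B)).toTMod) (KNpr Y ℂ 0 v) = v.1 • cvac κ Y := by
      unfold cvac
      rw [← map_smul]
      congr 1
      rw [KNpr_zero]
      ext <;> simp
    have h3 : cvac κ Y ∈ good X Q Qv := by
      intro k x
      rw [hvac, Yh_vac]
      have h2 : (X.Yh 0).1 = 0 := by rw [map_zero]; rfl
      rw [h2]
      unfold idFld
      by_cases hk : k = -1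
      · rw [if_pos hk]; simp
      · rw [if_neg hk]; simp
    have h4 := (good X Q Qv).smul_mem v.1 h3
    rw [← h] at h4
    exact h4
  · intro k x
    have hc : brD Q (X.toBMod.cur a) = fun m => X.qq Om Lm Fm m a := by
      funext n
      ext y
      show Q (X.J n a y) - X.J n a (Q y) = X.qq Om Lm Fm n a y
      rw [hQ, add_sub_cancel_left]
    have hi : brD Q (X.Yh w).1 = (X.Yh (Qv w)).1 := by
      funext n
      ext y
      show Q ((X.Yh w).1 n y) - (X.Yh w).1 n (Q y) = (X.Yh (Qv w)).1 n y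
      rw [ih n y, add_sub_cancel_left]
    have h1 := fd_brD Q m (X.smooth.isFld a) (X.Yh w).2
    rw [hc, hi, ← Yh_qq X Om Lm Fm m a w hw, ← Yh_J X m a (Qv w),
      ← Yh_J X m a w] at h1
    have h2 := congrArg (fun f => f x) (congrFun h1 k)
    have h3 : Q ((X.Yh ((cmod κ Y (TMod.triv B)).J m a w)).1 k x) -
        (X.Yh ((cmod κ Y (TMod.triv B)).J m a w)).1 k (Q x) =
        (X.Yh ((cmod κ Y (TMod.triv B)).qq Om Lm Fm m a w)).1 k x +
        (X.Yh ((cmod κ Y (TMod.triv B)).J m a (Qv w))).1 k x := h2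
    have h4 : (X.Yh (Qv ((cmod κ Y (TMod.triv B)).J m a w))).1 k x =
        (X.Yh ((cmod κ Y (TMod.triv B)).J m a (Qv w))).1 k x +
        (X.Yh ((cmod κ Y (TMod.triv B)).qq Om Lm Fm m a w)).1 k x := by
      rw [hQv, map_add]; rfl
    rw [h4]
    rw [sub_eq_iff_eq_add] at h3
    rw [h3]
    abel

end FD13

theorem fd_derivation (Om : B →ₗ[ℂ] B ⊗[ℂ] Y) (Lm Fm : B →ₗ[ℂ] Y) (Q : E →ₗ[ℂ] E)
    (hQ : ∀ (m : ℤ) (a : B) (x : E), Q (X.J m a x) = X.J m a (Q x) + X.qq Om Lm Fm m a x)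
    (Qv : VC κ Y →ₗ[ℂ] VC κ Y)
    (hQv : ∀ (m : ℤ) (a : B) (w : VC κ Y), Qv ((cmod κ Y (TMod.triv B)).J m a w) =
      (cmod κ Y (TMod.triv B)).J m a (Qv w) + (cmod κ Y (TMod.triv B)).qq Om Lm Fm m a w)
    (hvac : Qv (cvac κ Y) = 0) (w : VC κ Y) (hw : w ∈ cpart κ Y (TMod.triv B) 0) (k : ℤ)
    (x : E) : Q ((X.Yh w).1 k x) = (X.Yh w).1 k (Q x) + (X.Yh (Qv w)).1 k x :=
  FD13.main X Om Lm Fm Q hQ Qv hQv hvac hw k x

end

end WPE
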