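import Pool.Agent.WPE.BR14
import Pool.Agent.WPE.FD13

set_option linter.unusedSectionVars false

/-! WPE, block BR, row BR15: vertex operators of elements of `ker Q` commute with `Q`. -/

open scoped TensorProduct
open WPQ.AF (IsFld)

namespace WPE

variable {B : Type} [LieRing B] [LieAlgebra ℂ B] {κ : B →ₗ[ℂ] B →ₗ[ℂ] ℂ}
variable {Y : Type} [AddCommGroup Y] [Module ℂ Y] [LieRingModule B Y] [LieModule ℂ B Y]
variable {D : QD B Y} {N : Type} [AddCommGroup N] [Module ℂ N]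

/-- `Q` kills the vacuum vector. -/
theorem BR15.Qvac {Q1 : VC κ Y →ₗ[ℂ] VC κ Y} (h1 : IsQ0 κ (QN.one D) Q1) :
    D.Qd (R := LRep.triv B) Q1 (cvac κ Y) = 0 := by
  have e0 : Q1 (cvac κ Y) = 0 := by
    have h2 := h1.n0 (1 : ℂ)
    have h3 : (QN.one D).d = 0 := rfl
    rw [h3, LinearMap.zero_apply, map_zero, map_zero] at h2
    exact h2
  have e1 : D.Qd (R := LRep.triv B) Q1 (cvac κ Y) =
      Q1 (cvac κ Y) + (cmod κ Y (TMod.triv B)).ψ 0 D.F (cvac κ Y) := rfl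
  rw [e1, e0, psi_cvac κ Y 0 le_rfl, add_zero]

theorem br_main (hD : D.Ok κ) (M : QN D N) (hM : M.Ok)
    {Q0 : CC κ Y (TMod.ofRep M.R) →ₗ[ℂ] CC κ Y (TMod.ofRep M.R)} (h : IsQ0 κ M Q0)
    {Q1 : VC κ Y →ₗ[ℂ] VC κ Y} (h1 : IsQ0 κ (QN.one D) Q1) (w : VC κ Y)
    (hw0 : w ∈ cpart κ Y (TMod.triv B) 0) (hw : D.Qd (R := LRep.triv B) Q1 w = 0) (k : ℤ)
    (x : CC κ Y (TMod.ofRep M.R)) :
    D.Qd Q0 (((cmod κ Y (TMod.ofRep M.R)).Yh w).1 k x) =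
      ((cmod κ Y (TMod.ofRep M.R)).Yh w).1 k (D.Qd Q0 x) := by
  have hQ := (br_Q hD M hM h).2.2.2.1
  have hQv := (br_Q hD (QN.one D) (QN.one_ok D) h1).2.2.2.1
  have h2 := fd_derivation (cmod κ Y (TMod.ofRep M.R)) D.Om D.Lk D.Fm (D.Qd Q0) hQ
    (D.Qd (R := LRep.triv B) Q1) hQv (BR15.Qvac h1) w hw0 k x
  rw [h2, hw, map_zero]
  exact add_zero _

end WPE
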