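import Pool.Agent.WPE.BRL
import Pool.Agent.WPE.LA5

/-! WPE, block BR, row BR19: `Q₀` commutes with `J_h(m)`, `h ∈ h`. -/

set_option linter.unusedSectionVars false

open scoped TensorProduct
open WPQ.AF (IsFld)

namespace WPE

variable {g β η : Type} [LieRing g] [LieAlgebra ℂ g] [Fintype β] [DecidableEq β] [Fintype η]
  [DecidableEq η]

/-- [BR19] `Q₀` commutes with all `J_h(m)`, `h ∈ h` (in particular with `J_rho(0)`). -/
theorem Internal.br_rho (L : LD g β η) (c : ℂ) (N : Type) [AddCommGroup N] [Module ℂ N]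
    [LieRingModule g N] [LieModule ℂ g N]
    {Q0 : CC (L.kb c) L.nL (TMod.ofRep (L.rep N)) →ₗ[ℂ]
      CC (L.kb c) L.nL (TMod.ofRep (L.rep N))}
    (h : IsQ0 (L.kb c) (L.qn N c) Q0) (m : ℤ) (a : L.bL) (ha : (a : g) ∈ L.hs)
    (x : CC (L.kb c) L.nL (TMod.ofRep (L.rep N))) :
    Q0 ((cmod (L.kb c) L.nL (TMod.ofRep (L.rep N))).J m a x) =
      (cmod (L.kb c) L.nL (TMod.ofRep (L.rep N))).J m a (Q0 x) := by
  have hO := la_O L
  have h1 : (L.qd c).Om a = 0 := by
    apply L.map_bn_inj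
    show TensorProduct.map L.jb L.jng (L.OmB a) = _
    rw [L.coe_OmB, hO.Om_hs _ ha, map_zero]
  have h2 : (L.qd c).Lk a = 0 := by
    show L.pin (L.Lk c (a : g)) = 0
    rw [hO.Lk_hs c _ ha, map_zero]
  have h4 : (L.qd c).q (cmod (L.kb c) L.nL (TMod.ofRep (L.rep N))) m a x = 0 := by
    show (cmod (L.kb c) L.nL (TMod.ofRep (L.rep N))).qq (L.qd c).Om (L.qd c).Lk 0 m a x = 0
    rw [GMod.qq_apply, h1, h2]
    simp
  have h3 := h.comm m a x
  exact h3.trans (by
    show (cmod (L.kb c) L.nL (TMod.ofRep (L.rep N))).J m a (Q0 x) + _ = _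
    erw [h4]
    rw [add_zero])

export Internal (br_rho)

end WPE
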