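import Pool.Agent.WPE.IND3
import Pool.Agent.WPQ.AFD

open scoped TensorProduct
open WPQ.AF (IsFld)

namespace WPE

noncomputable section

variable {B : Type} [LieRing B] [LieAlgebra ℂ B] {κ : B →ₗ[ℂ] B →ₗ[ℂ] ℂ}
variable {Y : Type} [AddCommGroup Y] [Module ℂ Y] [LieRingModule B Y] [LieModule ℂ B Y]
variable {E : Type} [AddCommGroup E] [Module ℂ E] (X : GMod B Y κ E)

namespace FD7

/-- The coefficients of the correction term. -/
def cc (m l : ℤ) : ℂ := if 0 ≤ l ∧ l < m then 1 else if m ≤ l ∧ l < 0 then -1 else 0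

/-- The correction terms. -/
def gg (m : ℤ) (T : E →ₗ[ℂ] E) (l : ℤ) : E →ₗ[ℂ] E := cc m l • T

theorem gg_zero (m : ℤ) (T : E →ₗ[ℂ] E) (l : ℤ) (hl : l ∉ Finset.Ico (min 0 m) (max 0 m)) (x : E) :
    gg m T l x = 0 := by
  unfold gg cc
  rw [Finset.mem_Ico, not_and_or, not_le, not_lt] at hl
  rw [if_neg (by
    rcases hl with h | h
    · have := min_le_left (0 : ℤ) m
      omega
    · have := le_max_right (0 : ℤ) m
      omega), if_neg (by
    rcases hl with h | h
    · have := min_le_right (0 : ℤ) m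
      omega
    · have := le_max_left (0 : ℤ) m
      omega), zero_smul]
  rfl

theorem lf_gg (m : ℤ) (T : E →ₗ[ℂ] E) : LF (gg m T) :=
  LF.of_finset fun x => ⟨Finset.Ico (min 0 m) (max 0 m), fun l hl => gg_zero m T l hl x⟩

theorem sum_cc (m : ℤ) : ∑ l ∈ Finset.Ico (min 0 m) (max 0 m), cc m l = (m : ℂ) := by
  rcases le_total 0 m with h | h
  · rw [min_eq_left h, max_eq_right h]
    have h1 : ∀ l ∈ Finset.Ico 0 m, cc m l = 1 := by
      intro l hl
      rw [Finset.mem_Ico] at hl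
      unfold cc
      rw [if_pos hl]
    rw [Finset.sum_congr rfl h1, Finset.sum_const, Int.card_Ico, nsmul_eq_mul, mul_one, sub_zero]
    have h2 : ((m.toNat : ℤ) : ℂ) = (m : ℂ) := by rw [Int.toNat_of_nonneg h]
    exact_mod_cast h2
  · rw [min_eq_right h, max_eq_left h]
    have h1 : ∀ l ∈ Finset.Ico m 0, cc m l = -1 := by
      intro l hl
      rw [Finset.mem_Ico] at hl
      unfold cc
      rw [if_neg (by omega), if_pos hl]
    rw [Finset.sum_congr rfl h1, Finset.sum_const, Int.card_Ico, nsmul_eq_mul, zero_sub]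
    have h2 : (((-m).toNat : ℤ) : ℂ) = ((-m : ℤ) : ℂ) := by
      rw [Int.toNat_of_nonneg (by omega)]
    push_cast at h2
    rw [h2]
    ring

theorem psum_gg (m : ℤ) (T : E →ₗ[ℂ] E) : psum (gg m T) = (m : ℂ) • T := by
  ext x
  rw [psum_eq_sum (lf_gg m T) x _ (fun l hl => gg_zero m T l hl x), LinearMap.smul_apply]
  unfold gg
  simp only [LinearMap.smul_apply]
  rw [← Finset.sum_smul, sum_cc]

/-- The commutator of a current with one term. -/
theorem term (m n : ℤ) (a c : B) (z : Y) (k : ℤ) :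
    X.J m a ∘ₗ X.nopF n c z k - X.nopF n c z k ∘ₗ X.J m a =
      (X.nopF (m + n) c ⁅a, z⁆ k + (if k = -m then ((m : ℂ) * κ a c) • X.ψ (m + n - 1) z else 0)) +
      (X.nopF (m + n) ⁅a, c⁆ z (k + m) + gg m (X.ψ (m + n - 1) ⁅⁅a, c⁆, z⁆) (k + m)) := by
  ext x
  have hcoc : ∀ y : E, coc κ m k a c • X.ψ (n - 1 - k) z y =
      (if k = -m then ((m : ℂ) * κ a c) • X.ψ (m + n - 1) z else 0 : E →ₗ[ℂ] E) y := by
    intro y
    unfold coc
    by_cases h : k = -m
    · have e : n - 1 - -m = m + n - 1 := by ring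
      rw [if_pos (by omega), if_pos h, LinearMap.smul_apply, h, e]
    · rw [if_neg (by omega), if_neg h, zero_smul]
      rfl
  simp only [LinearMap.sub_apply, LinearMap.comp_apply, LinearMap.add_apply]
  rw [← hcoc]
  unfold GMod.nopF gg cc
  have e1 : m + (n - 1 - k) = m + n - 1 - k := by ring
  have e2 : m + n - 1 - (k + m) = n - 1 - k := by ring
  have e3 : k + m + (n - 1 - k) = m + n - 1 := by ring
  by_cases hk : k < 0
  · rw [if_pos hk, if_pos hk, LinearMap.comp_apply, LinearMap.comp_apply]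
    have h1 := X.comm m k a c (X.ψ (n - 1 - k) z x)
    have h2 := X.commψ m (n - 1 - k) a z x
    rw [e1] at h2
    have h3 : X.J m a (X.J k c (X.ψ (n - 1 - k) z x)) - X.J k c (X.ψ (n - 1 - k) z (X.J m a x)) =
        X.J (m + k) ⁅a, c⁆ (X.ψ (n - 1 - k) z x) + coc κ m k a c • X.ψ (n - 1 - k) z x +
        X.J k c (X.ψ (m + n - 1 - k) ⁅a, z⁆ x) := by
      rw [← h1, ← h2, map_sub]
      abel
    rw [h3, add_comm m k]
    by_cases hl : k + m < 0
    · rw [if_pos hl, if_neg (by omega), if_neg (by omega), LinearMap.comp_apply,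
        LinearMap.comp_apply, e2, zero_smul, LinearMap.zero_apply]
      abel
    · rw [if_neg hl, if_pos (by omega), LinearMap.comp_apply, LinearMap.comp_apply, e2, one_smul]
      have h4 := X.commψ (k + m) (n - 1 - k) ⁅a, c⁆ z x
      rw [e3] at h4
      rw [← h4]
      abel
  · rw [if_neg hk, if_neg hk, LinearMap.comp_apply, LinearMap.comp_apply]
    have h1 := X.comm m k a c x
    have h2 := X.commψ m (n - 1 - k) a z (X.J k c x)
    rw [e1] at h2
    have h3 : X.J m a (X.ψ (n - 1 - k) z (X.J k c x)) - X.ψ (n - 1 - k) z (X.J k c (X.J m a x)) =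
        X.ψ (n - 1 - k) z (X.J (m + k) ⁅a, c⁆ x) + coc κ m k a c • X.ψ (n - 1 - k) z x +
        X.ψ (m + n - 1 - k) ⁅a, z⁆ (X.J k c x) := by
      rw [← h2, ← map_smul, ← map_add, ← h1, map_sub]
      abel
    rw [h3, add_comm m k]
    by_cases hl : k + m < 0
    · rw [if_pos hl, if_neg (by omega), if_pos (by omega), LinearMap.comp_apply,
        LinearMap.comp_apply, e2, neg_smul, one_smul, LinearMap.neg_apply]
      have h4 := X.commψ (k + m) (n - 1 - k) ⁅a, c⁆ z x
      rw [e3] at h4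
      rw [← h4]
      abel
    · rw [if_neg hl, if_neg (by omega), if_neg (by omega), LinearMap.comp_apply,
        LinearMap.comp_apply, e2, zero_smul, LinearMap.zero_apply]
      abel

theorem main (m n : ℤ) (a c : B) (z : Y) :
    X.J m a ∘ₗ X.nop n (c ⊗ₜ z) - X.nop n (c ⊗ₜ z) ∘ₗ X.J m a =
      X.nop (m + n) ⁅a, (c ⊗ₜ[ℂ] z : B ⊗[ℂ] Y)⁆ + (m : ℂ) • X.ψ (m + n - 1) (GMod.brk κ Y a (c ⊗ₜ z)) := by
  have hs : LF (fun k : ℤ => (if k = -m then ((m : ℂ) * κ a c) • X.ψ (m + n - 1) z else 0 :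
      E →ₗ[ℂ] E)) := by
    refine LF.of_finset fun x => ⟨{-m}, fun k hk => ?_⟩
    rw [Finset.mem_singleton] at hk
    rw [if_neg hk]
    rfl
  have hG := (X.lf_nopF (m + n) ⁅a, c⁆ z).comp_equiv (Equiv.addRight m)
  have hg := (lf_gg m (X.ψ (m + n - 1) ⁅⁅a, c⁆, z⁆)).comp_equiv (Equiv.addRight m)
  rw [GMod.nop_tmul, comp_psum (X.lf_nopF n c z), psum_comp (X.lf_nopF n c z),
    ← psum_sub ((X.lf_nopF n c z).comp_left _) ((X.lf_nopF n c z).comp_right _)]
  have e : (fun k => X.J m a ∘ₗ X.nopF n c z k - X.nopF n c z k ∘ₗ X.J m a) = fun k =>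
      (X.nopF (m + n) c ⁅a, z⁆ k + (if k = -m then ((m : ℂ) * κ a c) • X.ψ (m + n - 1) z else 0)) +
      (X.nopF (m + n) ⁅a, c⁆ z (Equiv.addRight m k) +
        gg m (X.ψ (m + n - 1) ⁅⁅a, c⁆, z⁆) (Equiv.addRight m k)) := by
    funext k
    exact term X m n a c z k
  rw [e, psum_add ((X.lf_nopF (m + n) c ⁅a, z⁆).add hs) (hG.add hg),
    psum_add (X.lf_nopF (m + n) c ⁅a, z⁆) hs, psum_add hG hg, psum_single,
    psum_equiv (X.lf_nopF (m + n) ⁅a, c⁆ z) (Equiv.addRight m),
    psum_equiv (lf_gg m (X.ψ (m + n - 1) ⁅⁅a, c⁆, z⁆)) (Equiv.addRight m), psum_gg,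
    TensorProduct.LieModule.lie_tmul_right, map_add, GMod.nop_tmul, GMod.nop_tmul, GMod.brk_tmul,
    map_add, map_smul, smul_add, smul_smul]
  abel

end FD7

/-- FD-7 = BR1 -/
theorem fd_nop_comm (m n : ℤ) (a : B) (t : B ⊗[ℂ] Y) (x : E) :
    X.J m a (X.nop n t x) - X.nop n t (X.J m a x) =
      X.nop (m + n) ⁅a, t⁆ x + (m : ℂ) • X.ψ (m + n - 1) (GMod.brk κ Y a t) x := by
  induction t using TensorProduct.induction_on with
  | zero =>
    simp only [map_zero, LinearMap.zero_apply, lie_zero, smul_zero, sub_zero, add_zero]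
  | tmul c z =>
    have h := LinearMap.congr_fun (FD7.main X m n a c z) x
    exact h
  | add t t' ht ht' =>
    simp only [map_add, LinearMap.add_apply, lie_add, smul_add]
    rw [add_sub_add_comm, ht, ht']
    abel

end

end WPE
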