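import Pool.Agent.WPE.BRD
import Pool.Agent.WPE.FD7

set_option linter.unusedSectionVars false

open scoped TensorProduct
open WPQ.AF (IsFld)

namespace WPE

variable {B : Type} [LieRing B] [LieAlgebra ℂ B] {κ : B →ₗ[ℂ] B →ₗ[ℂ] ℂ}
variable {Y : Type} [AddCommGroup Y] [Module ℂ Y] [LieRingModule B Y] [LieModule ℂ B Y]
variable {E : Type} [AddCommGroup E] [Module ℂ E]

/-- The commutator of a current and `q`. -/
theorem BR4.J_q (X : GMod B Y κ E) (D : QD B Y) (m n : ℤ) (a b : B) (x : E) :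
    X.J m a (D.q X n b x) - D.q X n b (X.J m a x) =
      X.nop (m + n) ⁅a, D.Om b⁆ x + (m : ℂ) • X.ψ (m + n - 1) (GMod.brk κ Y a (D.Om b)) x -
        (n : ℂ) • X.ψ (m + n - 1) ⁅a, D.Lk b⁆ x := by
  have h1 := fd_nop_comm X m n a (D.Om b) x
  have h2 := X.commψ m (n - 1) a (D.Lk b) x
  rw [show m + (n - 1) = m + n - 1 by ring] at h2
  unfold QD.q
  rw [GMod.qq_apply, GMod.qq_apply]
  simp only [LinearMap.zero_apply, map_zero, add_zero]
  rw [map_sub, map_smul, ← h1, ← h2, smul_sub]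
  abel

/-- [BR4] (BR2 of the paper) -/
theorem br_q_lie (X : GMod B Y κ E) {D : QD B Y} (hD : D.Ok κ) (m n : ℤ) (a b : B) (x : E) :
    (X.J m a (D.q X n b x) - D.q X n b (X.J m a x)) +
      (D.q X m a (X.J n b x) - X.J n b (D.q X m a x)) = D.q X (m + n) ⁅a, b⁆ x := by
  have h1 := BR4.J_q X D m n a b x
  have h2 := BR4.J_q X D n m b a x
  rw [add_comm n m] at h2
  have h3 : D.q X m a (X.J n b x) - X.J n b (D.q X m a x) =
      -(X.J n b (D.q X m a x) - D.q X m a (X.J n b x)) := by abel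
  rw [h3, h1, h2]
  have e1 : X.nop (m + n) ⁅a, D.Om b⁆ x - X.nop (m + n) ⁅b, D.Om a⁆ x =
      X.nop (m + n) (D.Om ⁅a, b⁆) x := by
    rw [← hD.om_lie a b, map_sub, LinearMap.sub_apply]
  have e2 : X.ψ (m + n - 1) (GMod.brk κ Y b (D.Om a)) x + X.ψ (m + n - 1) ⁅a, D.Lk b⁆ x =
      X.ψ (m + n - 1) (D.Lk ⁅a, b⁆) x := by
    rw [← hD.lk_lie a b, map_add, LinearMap.add_apply]
  have e3 : X.ψ (m + n - 1) (GMod.brk κ Y a (D.Om b)) x + X.ψ (m + n - 1) ⁅b, D.Lk a⁆ x =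
      -X.ψ (m + n - 1) (D.Lk ⁅a, b⁆) x := by
    rw [← lie_skew, map_neg, map_neg, LinearMap.neg_apply, neg_neg, ← hD.lk_lie b a, map_add,
      LinearMap.add_apply]
  unfold QD.q
  rw [GMod.qq_apply]
  simp only [LinearMap.zero_apply, map_zero, add_zero]
  rw [← e1]
  have e4 : (((m + n : ℤ) : ℂ)) • X.ψ (m + n - 1) (D.Lk ⁅a, b⁆) x =
      -((m : ℂ) • (X.ψ (m + n - 1) (GMod.brk κ Y a (D.Om b)) x + X.ψ (m + n - 1) ⁅b, D.Lk a⁆ x)) +
        (n : ℂ) • (X.ψ (m + n - 1) (GMod.brk κ Y b (D.Om a)) x +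
          X.ψ (m + n - 1) ⁅a, D.Lk b⁆ x) := by
    rw [e2, e3, smul_neg, neg_neg]
    push_cast
    rw [add_smul]
  rw [e4, smul_add, smul_add]
  abel

end WPE
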