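import Pool.Agent.WPE.BRD

/-! WPE, block BR, row BR6: basic facts on the complex. -/

set_option linter.unusedSectionVars false

open scoped TensorProduct
open WPQ.AF (IsFld)

namespace WPE

section cplx

variable {B : Type} [LieRing B] [LieAlgebra ℂ B] (κ : B →ₗ[ℂ] B →ₗ[ℂ] ℂ)
variable (Y : Type) [AddCommGroup Y] [Module ℂ Y] [LieRingModule B Y] [LieModule ℂ B Y]
variable {N : Type} [AddCommGroup N] [Module ℂ N] (R : LRep B N)

namespace BR6

theorem J_incl (m : ℕ) (a : B) (v : KN Y N) :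
    (cmod κ Y (TMod.ofRep R)).J m a (Ind.incl κ (TMod.gt Y (TMod.ofRep R)).toTMod v) =
      Ind.incl κ _ ((TMod.gt Y (TMod.ofRep R)).toTMod.act m a v) :=
  Ind.J_incl m a v

theorem psi_neg (s : ℕ) (y : Y) (v : KN Y N) :
    (cmod κ Y (TMod.ofRep R)).ψ (-(s : ℤ) - 1) y
      (Ind.incl κ (TMod.gt Y (TMod.ofRep R)).toTMod v) =
      Ind.incl κ _ (ghOm Y (Finsupp.single s y) v) :=
  Ind.psi_incl_neg κ (TMod.gt Y (TMod.ofRep R)) s y v

theorem psi_nonneg (n : ℤ) (hn : 0 ≤ n) (y : Y) (v : KN Y N) :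
    (cmod κ Y (TMod.ofRep R)).ψ n y
      (Ind.incl κ (TMod.gt Y (TMod.ofRep R)).toTMod v) = 0 :=
  Ind.psi_incl_nonneg κ (TMod.gt Y (TMod.ofRep R)) n hn y v

theorem span1 (t : Gh Y ⊗[ℂ] N) : t ∈ Submodule.span ℂ
    {u | ∃ (s : ℕ) (y : Y) (v : N), u = Finsupp.single s y ⊗ₜ[ℂ] v} := by
  induction t using TensorProduct.induction_on with
  | zero => exact Submodule.zero_mem _
  | add t t' h h' => exact Submodule.add_mem _ h h'
  | tmul g v =>
    induction g using Finsupp.induction_linear with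
    | zero => rw [TensorProduct.zero_tmul]; exact Submodule.zero_mem _
    | add g g' h h' => rw [TensorProduct.add_tmul]; exact Submodule.add_mem _ h h'
    | single s y => exact Submodule.subset_span ⟨s, y, v, rfl⟩

end BR6

/-- [BR6] -/
theorem br_C : FactsC κ Y R where
  J_i0_zero a v := by
    have h := BR6.J_incl κ Y R 0 a (v, 0, 0)
    rw [Nat.cast_zero, gt_act] at h
    refine h.trans ?_
    show Ind.incl κ (TMod.gt Y (TMod.ofRep R)).toTMod _ =
      Ind.incl κ (TMod.gt Y (TMod.ofRep R)).toTMod (R.ρ a v, 0, 0)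
    refine congrArg _ (Prod.ext rfl (Prod.ext ?_ ?_))
    · exact map_zero _
    · exact map_zero _
  J_i0_pos m a v hm := by
    obtain ⟨k, rfl⟩ := Int.eq_ofNat_of_zero_le hm.le
    have h := BR6.J_incl κ Y R k a (v, 0, 0)
    rw [gt_act] at h
    refine h.trans ?_
    have h0 : ((TMod.ofRep R).act k a v, ((TMod.ghost B Y).tensor (TMod.ofRep R)).act k a
        (0 : Gh Y ⊗[ℂ] N), ((TMod.ghost B Y).tensor ((TMod.ghost B Y).tensor
          (TMod.ofRep R))).act k a (0 : Gh Y ⊗[ℂ] (Gh Y ⊗[ℂ] N))) = (0 : KN Y N) := by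
      refine Prod.ext ?_ (Prod.ext ?_ ?_)
      · exact TMod.ofRep_pos R k (by omega) a v
      · exact map_zero _
      · exact map_zero _
    exact (congrArg _ h0).trans (map_zero _)
  J_i1 m a t := by
    have h := BR6.J_incl κ Y R m a (0, t, 0)
    rw [gt_act] at h
    refine h.trans ?_
    show Ind.incl κ (TMod.gt Y (TMod.ofRep R)).toTMod _ =
      Ind.incl κ (TMod.gt Y (TMod.ofRep R)).toTMod
        (0, ((TMod.ghost B Y).tensor (TMod.ofRep R)).act m a t, 0)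
    refine congrArg _ ?_
    refine Prod.ext ?_ (Prod.ext rfl ?_)
    · exact map_zero _
    · exact map_zero _
  J_i2 m a t := by
    have h := BR6.J_incl κ Y R m a (0, 0, t)
    rw [gt_act] at h
    refine h.trans ?_
    show Ind.incl κ (TMod.gt Y (TMod.ofRep R)).toTMod _ =
      Ind.incl κ (TMod.gt Y (TMod.ofRep R)).toTMod
        (0, 0, ((TMod.ghost B Y).tensor ((TMod.ghost B Y).tensor (TMod.ofRep R))).act m a t)
    refine congrArg _ ?_
    refine Prod.ext ?_ (Prod.ext ?_ rfl)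
    · exact map_zero _
    · exact map_zero _
  psi_i0 s y v := by
    have h := BR6.psi_neg κ Y R s y (v, 0, 0)
    rw [ghOm_apply] at h
    refine h.trans ?_
    show Ind.incl κ (TMod.gt Y (TMod.ofRep R)).toTMod _ =
      Ind.incl κ (TMod.gt Y (TMod.ofRep R)).toTMod (0, Finsupp.single s y ⊗ₜ[ℂ] v, 0)
    refine congrArg _ ?_
    refine Prod.ext rfl (Prod.ext rfl ?_)
    show Finsupp.single s y ⊗ₜ[ℂ] (0 : Gh Y ⊗[ℂ] N) -
      TensorProduct.leftComm ℂ (Gh Y) (Gh Y) N (Finsupp.single s y ⊗ₜ[ℂ] (0 : Gh Y ⊗[ℂ] N)) = 0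
    rw [TensorProduct.tmul_zero, map_zero, sub_zero]
  psi_i0_nonneg n y v hn := BR6.psi_nonneg κ Y R n hn y _
  psi_i1 s y t := by
    have h := BR6.psi_neg κ Y R s y (0, t, 0)
    rw [ghOm_apply] at h
    refine h.trans ?_
    show Ind.incl κ (TMod.gt Y (TMod.ofRep R)).toTMod _ =
      Ind.incl κ (TMod.gt Y (TMod.ofRep R)).toTMod (0, 0, Finsupp.single s y ⊗ₜ[ℂ] t -
        TensorProduct.leftComm ℂ (Gh Y) (Gh Y) N (Finsupp.single s y ⊗ₜ[ℂ] t))
    refine congrArg _ ?_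
    refine Prod.ext rfl (Prod.ext ?_ rfl)
    exact TensorProduct.tmul_zero _ _
  psi_i1_nonneg n y t hn := BR6.psi_nonneg κ Y R n hn y _
  psi_i2 n y t := by
    by_cases hn : 0 ≤ n
    · exact BR6.psi_nonneg κ Y R n hn y _
    · obtain ⟨s, rfl⟩ : ∃ s : ℕ, n = -(s : ℤ) - 1 := ⟨(-n - 1).toNat, by omega⟩
      have h := BR6.psi_neg κ Y R s y (0, 0, t)
      rw [ghOm_apply] at h
      refine h.trans ?_
      have h0 : ((0 : N), Finsupp.single s y ⊗ₜ[ℂ] (0 : N),
          Finsupp.single s y ⊗ₜ[ℂ] (0 : Gh Y ⊗[ℂ] N) -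
            TensorProduct.leftComm ℂ (Gh Y) (Gh Y) N
              (Finsupp.single s y ⊗ₜ[ℂ] (0 : Gh Y ⊗[ℂ] N))) = (0 : KN Y N) := by
        refine Prod.ext rfl (Prod.ext ?_ ?_)
        · exact TensorProduct.tmul_zero _ _
        · show Finsupp.single s y ⊗ₜ[ℂ] (0 : Gh Y ⊗[ℂ] N) -
            TensorProduct.leftComm ℂ (Gh Y) (Gh Y) N
              (Finsupp.single s y ⊗ₜ[ℂ] (0 : Gh Y ⊗[ℂ] N)) = 0
          rw [TensorProduct.tmul_zero, map_zero, sub_zero]
      exact (congrArg _ h0).trans (map_zero _)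
  i0_mem v := cpart_incl (κ := κ) (T := TMod.ofRep R) 0 ((v, 0, 0) : KN Y N)
  i1_mem t := cpart_incl (κ := κ) (T := TMod.ofRep R) 1 ((0, t, 0) : KN Y N)
  i2_mem t := cpart_incl (κ := κ) (T := TMod.ofRep R) 2 ((0, 0, t) : KN Y N)
  ind W h0 h1 h2 h3 x := by
    refine Ind.induction_sub W (fun v => ?_) h3 x
    have e : v = (v.1, 0, 0) + ((0, v.2.1, 0) + (0, 0, v.2.2)) := by
      refine Prod.ext ?_ (Prod.ext ?_ ?_)
      · show v.1 = v.1 + (0 + 0)
        rw [add_zero, add_zero]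
      · show v.2.1 = 0 + (v.2.1 + 0)
        rw [add_zero, zero_add]
      · show v.2.2 = 0 + (0 + v.2.2)
        rw [zero_add, zero_add]
    rw [e, map_add, map_add]
    exact W.add_mem (h0 v.1) (W.add_mem (h1 v.2.1) (h2 v.2.2))
  ind1 := BR6.span1 Y

end cplx

end WPE
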