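import Pool.Agent.WPE.BR4
import Pool.Agent.WPE.BR5
import Pool.Agent.WPE.BR7
import Pool.Agent.WPE.BR8

set_option linter.unusedSectionVars false

open scoped TensorProduct
open WPQ.AF (IsFld)

namespace WPE

noncomputable section

namespace BR9

section tw

variable {B : Type} [LieRing B] [LieAlgebra ℂ B] {κ : B →ₗ[ℂ] B →ₗ[ℂ] ℂ}
variable {E : Type} [AddCommGroup E] [Module ℂ E]

/-- The twisted module on `E × E`. -/
def tw (X : BMod κ E) (q : ℤ → B →ₗ[ℂ] E →ₗ[ℂ] E)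
    (hq : ∀ (m n : ℤ) (a b : B) (x : E), (X.J m a (q n b x) - q n b (X.J m a x)) +
      (q m a (X.J n b x) - X.J n b (q m a x)) = q (m + n) ⁅a, b⁆ x) : BMod κ (E × E) where
  J m :=
    { toFun := fun a => ((X.J m a) ∘ₗ LinearMap.fst ℂ E E).prod
        ((X.J m a) ∘ₗ LinearMap.snd ℂ E E + (q m a) ∘ₗ LinearMap.fst ℂ E E)
      map_add' := by
        intro a b
        refine LinearMap.ext fun x => Prod.ext ?_ ?_
        · show X.J m (a + b) x.1 = X.J m a x.1 + X.J m b x.1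
          rw [map_add, LinearMap.add_apply]
        · show X.J m (a + b) x.2 + q m (a + b) x.1 =
            (X.J m a x.2 + q m a x.1) + (X.J m b x.2 + q m b x.1)
          rw [map_add, map_add, LinearMap.add_apply, LinearMap.add_apply]
          abel
      map_smul' := by
        intro c a
        refine LinearMap.ext fun x => Prod.ext ?_ ?_
        · show X.J m (c • a) x.1 = c • X.J m a x.1
          rw [map_smul, LinearMap.smul_apply]
        · show X.J m (c • a) x.2 + q m (c • a) x.1 = c • (X.J m a x.2 + q m a x.1)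
          rw [map_smul, map_smul, LinearMap.smul_apply, LinearMap.smul_apply, smul_add] }
  comm := by
    intro m n a b x
    have h1 := X.comm m n a b x.1
    have h2 := X.comm m n a b x.2
    have h3 := hq m n a b x.1
    refine Prod.ext h1 ?_
    show X.J m a (X.J n b x.2 + q n b x.1) + q m a (X.J n b x.1) -
      (X.J n b (X.J m a x.2 + q m a x.1) + q n b (X.J m a x.1)) =
      (X.J (m + n) ⁅a, b⁆ x.2 + q (m + n) ⁅a, b⁆ x.1) + coc κ m n a b • x.2
    rw [map_add, map_add, ← h3]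
    have h4 : X.J (m + n) ⁅a, b⁆ x.2 + ((X.J m a (q n b x.1) - q n b (X.J m a x.1)) +
        (q m a (X.J n b x.1) - X.J n b (q m a x.1))) + coc κ m n a b • x.2 =
        (X.J (m + n) ⁅a, b⁆ x.2 + coc κ m n a b • x.2) +
        ((X.J m a (q n b x.1) - q n b (X.J m a x.1)) +
        (q m a (X.J n b x.1) - X.J n b (q m a x.1))) := by abel
    rw [h4, ← h2]
    abel

theorem tw_J (X : BMod κ E) (q : ℤ → B →ₗ[ℂ] E →ₗ[ℂ] E)
    (hq : ∀ (m n : ℤ) (a b : B) (x : E), (X.J m a (q n b x) - q n b (X.J m a x)) +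
      (q m a (X.J n b x) - X.J n b (q m a x)) = q (m + n) ⁅a, b⁆ x) (m : ℤ) (a : B) (x : E × E) :
    (tw X q hq).J m a x = (X.J m a x.1, X.J m a x.2 + q m a x.1) := rfl

end tw

section q0

variable {B : Type} [LieRing B] [LieAlgebra ℂ B] {κ : B →ₗ[ℂ] B →ₗ[ℂ] ℂ}
variable {Y : Type} [AddCommGroup Y] [Module ℂ Y] [LieRingModule B Y] [LieModule ℂ B Y]
variable {D : QD B Y} {N : Type} [AddCommGroup N] [Module ℂ N]

/-- `v ↦ i1 (d v)` -/
def d0 (κ : B →ₗ[ℂ] B →ₗ[ℂ] ℂ) (M : QN D N) : N →ₗ[ℂ] CC κ Y (TMod.ofRep M.R) :=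
  i1 κ Y M.R ∘ₗ LinearMap.rTensor N (Finsupp.lsingle 0 : Y →ₗ[ℂ] Gh Y) ∘ₗ M.d

theorem d0_apply (M : QN D N) (v : N) : d0 κ M v =
    i1 κ Y M.R (LinearMap.rTensor N (Finsupp.lsingle 0 : Y →ₗ[ℂ] Gh Y) (M.d v)) := rfl

/-- The bilinear map `(y, v) ↦ qp(m) y (i0 v) - ψ(m) y (d0 v)`. -/
def d1s (κ : B →ₗ[ℂ] B →ₗ[ℂ] ℂ) (M : QN D N) (m : ℤ) :
    Y →ₗ[ℂ] N →ₗ[ℂ] CC κ Y (TMod.ofRep M.R) :=
  LinearMap.mk₂ ℂ (fun y v => D.qp (cmod κ Y (TMod.ofRep M.R)) m y (i0 κ Y M.R v) -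
      (cmod κ Y (TMod.ofRep M.R)).ψ m y (d0 κ M v))
    (by
      intro y y' v
      unfold QD.qp
      rw [map_add, map_add, map_add, smul_add, LinearMap.add_apply, LinearMap.add_apply]
      abel)
    (by
      intro c y v
      unfold QD.qp
      rw [map_smul, map_smul, map_smul, smul_comm, LinearMap.smul_apply, LinearMap.smul_apply,
        LinearMap.smul_apply, smul_sub])
    (by
      intro y v v'
      rw [map_add, map_add, map_add, map_add]
      abel)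
    (by
      intro c y v
      rw [map_smul, map_smul, map_smul, map_smul, smul_sub])

theorem d1s_apply (M : QN D N) (m : ℤ) (y : Y) (v : N) : d1s κ M m y v =
    D.qp (cmod κ Y (TMod.ofRep M.R)) m y (i0 κ Y M.R v) -
      (cmod κ Y (TMod.ofRep M.R)).ψ m y (d0 κ M v) := rfl

/-- `δ₁` -/
def d1 (κ : B →ₗ[ℂ] B →ₗ[ℂ] ℂ) (M : QN D N) :
    Gh Y ⊗[ℂ] N →ₗ[ℂ] CC κ Y (TMod.ofRep M.R) :=
  TensorProduct.lift (Finsupp.lsum ℂ fun s : ℕ => d1s κ M (-(s : ℤ) - 1))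

theorem d1_single (M : QN D N) (s : ℕ) (y : Y) (v : N) :
    d1 κ M (Finsupp.single s y ⊗ₜ[ℂ] v) = d1s κ M (-(s : ℤ) - 1) y v := by
  unfold d1
  rw [TensorProduct.lift.tmul, Finsupp.lsum_single]

/-- `δ` -/
def dl (κ : B →ₗ[ℂ] B →ₗ[ℂ] ℂ) (M : QN D N) : KN Y N →ₗ[ℂ] CC κ Y (TMod.ofRep M.R) :=
  d0 κ M ∘ₗ LinearMap.fst ℂ _ _ + d1 κ M ∘ₗ LinearMap.fst ℂ _ _ ∘ₗ LinearMap.snd ℂ _ _

theorem dl_apply (M : QN D N) (v : KN Y N) : dl κ M v = d0 κ M v.1 + d1 κ M v.2.1 := rfl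

theorem incl_eq (M : QN D N) (v : KN Y N) :
    Ind.incl κ (TMod.gt Y (TMod.ofRep M.R)).toTMod v =
      i0 κ Y M.R v.1 + i1 κ Y M.R v.2.1 + i2 κ Y M.R v.2.2 := by
  show _ = Ind.incl κ (TMod.gt Y (TMod.ofRep M.R)).toTMod (v.1, 0) +
    Ind.incl κ (TMod.gt Y (TMod.ofRep M.R)).toTMod (0, (v.2.1, 0)) +
    Ind.incl κ (TMod.gt Y (TMod.ofRep M.R)).toTMod (0, (0, v.2.2))
  rw [← map_add, ← map_add]
  congr 1
  refine Prod.ext ?_ (Prod.ext ?_ ?_)
  · show v.1 = v.1 + 0 + 0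
    rw [add_zero, add_zero]
  · show v.2.1 = 0 + v.2.1 + 0
    rw [zero_add, add_zero]
  · show v.2.2 = 0 + 0 + v.2.2
    rw [add_zero, zero_add]

/-- `J 0 a` on `i0 v` and `J m a`, `m > 0`, in one formula. -/
theorem J_i0 (M : QN D N) (m : ℕ) (a : B) (v : N) :
    (cmod κ Y (TMod.ofRep M.R)).J m a (i0 κ Y M.R v) =
      i0 κ Y M.R ((TMod.ofRep M.R).act m a v) := by
  have hC := br_C κ Y M.R
  by_cases hm : m = 0
  · subst hm
    exact hC.J_i0_zero a v
  · rw [TMod.ofRep_pos _ m hm, map_zero]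
    exact hC.J_i0_pos m a v (by omega)

/-- (A) the equivariance on `N`. -/
theorem eqA (M : QN D N) (hM : M.Ok) (m : ℕ) (a : B) (v : N) :
    (cmod κ Y (TMod.ofRep M.R)).J m a (d0 κ M v) +
      D.q (cmod κ Y (TMod.ofRep M.R)) m a (i0 κ Y M.R v) =
      d0 κ M ((TMod.ofRep M.R).act m a v) := by
  have hC := br_C κ Y M.R
  have hV := br_val κ M v
  rw [d0_apply, hC.J_i1]
  by_cases hm : m = 0
  · subst hm
    have h1 : ∀ t : Y ⊗[ℂ] N, ((TMod.ghost B Y).tensor (TMod.ofRep M.R)).act 0 a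
        (LinearMap.rTensor N (Finsupp.lsingle 0 : Y →ₗ[ℂ] Gh Y) t) =
        LinearMap.rTensor N (Finsupp.lsingle 0 : Y →ₗ[ℂ] Gh Y) (actYN Y M.R a t) := by
      intro t
      induction t using TensorProduct.induction_on with
      | zero => simp only [map_zero]
      | add x y hx hy => simp only [map_add]; rw [hx, hy]
      | tmul y v =>
        rw [actYN_tmul, map_add, LinearMap.rTensor_tmul, LinearMap.rTensor_tmul,
          LinearMap.rTensor_tmul, TMod.tensor_act, TMod.ofRep_zero]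
        congr 2
        show ghAct 0 a (Finsupp.single 0 y) = _
        rw [ghAct_single, if_pos le_rfl]
        rfl
    have h2 := hV.2.1 a
    rw [h1]
    show _ + D.q (cmod κ Y (TMod.ofRep M.R)) 0 a (i0 κ Y M.R v) = _
    rw [h2, ← map_add, ← map_add, TMod.ofRep_zero, d0_apply, hM.d_lie]
  · have h1 : ∀ t : Y ⊗[ℂ] N, ((TMod.ghost B Y).tensor (TMod.ofRep M.R)).act m a
        (LinearMap.rTensor N (Finsupp.lsingle 0 : Y →ₗ[ℂ] Gh Y) t) = 0 := by
      intro t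
      induction t using TensorProduct.induction_on with
      | zero => simp only [map_zero]
      | add x y hx hy => simp only [map_add]; rw [hx, hy, add_zero]
      | tmul y v =>
        rw [LinearMap.rTensor_tmul, TMod.tensor_act, TMod.ofRep_pos _ m hm,
          TensorProduct.tmul_zero, add_zero]
        have h3 : (TMod.ghost B Y).act m a ((Finsupp.lsingle 0 : Y →ₗ[ℂ] Gh Y) y) = 0 := by
          show ghAct m a (Finsupp.single 0 y) = _
          rw [ghAct_single, if_neg (by omega)]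
        rw [h3, TensorProduct.zero_tmul]
    have h2 := hV.1 m a (by omega)
    rw [h1, map_zero, h2, add_zero, TMod.ofRep_pos _ m hm, map_zero]

/-- (B) the equivariance on `M ⊗ N`. -/
theorem eqB (hD : D.Ok κ) (M : QN D N) (hM : M.Ok) (m : ℕ) (a : B) (t : Gh Y ⊗[ℂ] N) :
    (cmod κ Y (TMod.ofRep M.R)).J m a (d1 κ M t) +
      D.q (cmod κ Y (TMod.ofRep M.R)) m a (i1 κ Y M.R t) =
      d1 κ M (((TMod.ghost B Y).tensor (TMod.ofRep M.R)).act m a t) := by
  have hC := br_C κ Y M.R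
  have key : ∀ (s : ℕ) (y : Y) (v : N), (cmod κ Y (TMod.ofRep M.R)).J m a
      (d1 κ M (Finsupp.single s y ⊗ₜ[ℂ] v)) +
      D.q (cmod κ Y (TMod.ofRep M.R)) m a (i1 κ Y M.R (Finsupp.single s y ⊗ₜ[ℂ] v)) =
      d1 κ M (((TMod.ghost B Y).tensor (TMod.ofRep M.R)).act m a
        (Finsupp.single s y ⊗ₜ[ℂ] v)) := by
    intro s y v
    have hV := br_val κ M v
    have h1 := br_q_psi (cmod κ Y (TMod.ofRep M.R)) hD m (-(s : ℤ) - 1) a y (i0 κ Y M.R v)
    have h2 := (cmod κ Y (TMod.ofRep M.R)).commψ m (-(s : ℤ) - 1) a y (d0 κ M v)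
    have h3 := eqA (κ := κ) M hM m a v
    have h4 : d1 κ M (ghAct m a (Finsupp.single s y) ⊗ₜ[ℂ] v) =
        D.qp (cmod κ Y (TMod.ofRep M.R)) (m + (-(s : ℤ) - 1)) ⁅a, y⁆ (i0 κ Y M.R v) -
        (cmod κ Y (TMod.ofRep M.R)).ψ (m + (-(s : ℤ) - 1)) ⁅a, y⁆ (d0 κ M v) := by
      rw [ghAct_single]
      by_cases hm : m ≤ s
      · have e : (m : ℤ) + (-(s : ℤ) - 1) = -((s - m : ℕ) : ℤ) - 1 := by omega
        rw [if_pos hm, e, d1_single, d1s_apply]
      · rw [if_neg hm, TensorProduct.zero_tmul, map_zero,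
          hV.2.2.1 _ _ (by omega), d0_apply, hV.2.2.2.2 _ _ _ (by omega), sub_zero]
    rw [TMod.tensor_act, map_add, d1_single, d1_single, d1s_apply, d1s_apply]
    show _ = d1 κ M (ghAct m a (Finsupp.single s y) ⊗ₜ[ℂ] v) + _
    rw [h4, ← J_i0, ← h3, ← h1, ← h2, ← hC.psi_i0, map_sub, map_add]
    abel
  have hmem : t ∈ LinearMap.eqLocus ((cmod κ Y (TMod.ofRep M.R)).J m a ∘ₗ d1 κ M +
      D.q (cmod κ Y (TMod.ofRep M.R)) m a ∘ₗ i1 κ Y M.R)
      (d1 κ M ∘ₗ ((TMod.ghost B Y).tensor (TMod.ofRep M.R)).act m a) := by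
    have h5 := hC.ind1 t
    refine (Submodule.span_le.2 ?_) h5
    rintro u ⟨s, y, v, rfl⟩
    exact key s y v
  exact hmem

/-- The equivariance of `δ`. -/
theorem eqD (hD : D.Ok κ) (M : QN D N) (hM : M.Ok) (m : ℕ) (a : B) (v : KN Y N) :
    (cmod κ Y (TMod.ofRep M.R)).J m a (dl κ M v) +
      D.q (cmod κ Y (TMod.ofRep M.R)) m a (Ind.incl κ _ v) =
      dl κ M ((TMod.gt Y (TMod.ofRep M.R)).toTMod.act m a v) := by
  have hC := br_C κ Y M.R
  have h1 := eqA (κ := κ) M hM m a v.1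
  have h2 := eqB hD M hM m a v.2.1
  have h3 : D.q (cmod κ Y (TMod.ofRep M.R)) m a (i2 κ Y M.R v.2.2) = 0 :=
    ((br_gd κ Y M.R).2.2.1 D m a).2.2 _ (hC.i2_mem _)
  rw [incl_eq, map_add, map_add, h3, add_zero, gt_act, dl_apply, dl_apply]
  show _ = d0 κ M ((TMod.ofRep M.R).act m a v.1) +
    d1 κ M (((TMod.ghost B Y).tensor (TMod.ofRep M.R)).act m a v.2.1)
  rw [← h1, ← h2, map_add]
  abel

end q0

end BR9

section q0

variable {B : Type} [LieRing B] [LieAlgebra ℂ B] {κ : B →ₗ[ℂ] B →ₗ[ℂ] ℂ}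
variable {Y : Type} [AddCommGroup Y] [Module ℂ Y] [LieRingModule B Y] [LieModule ℂ B Y]
variable {D : QD B Y} {N : Type} [AddCommGroup N] [Module ℂ N]

/-- [BR9] Existence of `Q₀`. -/
theorem br_Q0 (hD : D.Ok κ) (M : QN D N) (hM : M.Ok) :
    ∃ Q0 : CC κ Y (TMod.ofRep M.R) →ₗ[ℂ] CC κ Y (TMod.ofRep M.R), IsQ0 κ M Q0 := by
  let X := cmod κ Y (TMod.ofRep M.R)
  let W : BMod κ (CC κ Y (TMod.ofRep M.R) × CC κ Y (TMod.ofRep M.R)) :=
    BR9.tw X.toBMod (fun m => X.qq D.Om D.Lk 0 m)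
      (fun m n a b x => br_q_lie X hD m n a b x)
  let φ : KN Y N →ₗ[ℂ] CC κ Y (TMod.ofRep M.R) × CC κ Y (TMod.ofRep M.R) :=
    (Ind.incl κ (TMod.gt Y (TMod.ofRep M.R)).toTMod).prod (BR9.dl κ M)
  have hφ : ∀ (m : ℕ) (a : B) (v : KN Y N), W.J m a (φ v) =
      φ ((TMod.gt Y (TMod.ofRep M.R)).toTMod.act m a v) := by
    intro m a v
    refine Prod.ext ?_ ?_
    · exact Ind.J_incl m a v
    · exact BR9.eqD hD M hM m a v
  let L := Ind.lift W φ hφ
  have hL1 : ∀ x, (L x).1 = x := by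
    have h : LinearMap.fst ℂ _ _ ∘ₗ L = LinearMap.id := by
      refine Ind.hom_ext (X := Ind.mod κ (TMod.gt Y (TMod.ofRep M.R)).toTMod) ?_
        (fun m a x => rfl) ?_
      · intro m a x
        have h1 := Ind.lift_J hφ m a x
        have h2 := congrArg Prod.fst h1
        exact h2
      · intro v
        have h1 := Ind.lift_incl hφ v
        have h2 := congrArg Prod.fst h1
        exact h2
    intro x
    exact LinearMap.congr_fun h x
  have hL2 : ∀ v, (L (Ind.incl κ _ v)).2 = BR9.dl κ M v := by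
    intro v
    have h1 := Ind.lift_incl hφ v
    exact congrArg Prod.snd h1
  refine ⟨LinearMap.snd ℂ _ _ ∘ₗ L, ?_, ?_, ?_, ?_⟩
  · intro m a x
    have h1 := Ind.lift_J hφ m a x
    have h2 := congrArg Prod.snd h1
    have h3 : (L x).1 = x := hL1 x
    have h4 : (W.J m a (L x)).2 = X.J m a (L x).2 + X.qq D.Om D.Lk 0 m a (L x).1 := rfl
    rw [h3] at h4
    exact h2.trans h4
  · intro v
    have h1 := hL2 (v, 0)
    refine h1.trans ?_
    rw [BR9.dl_apply]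
    show BR9.d0 κ M v + BR9.d1 κ M 0 = _
    rw [map_zero, add_zero]
    rfl
  · intro s y v
    have h1 := hL2 (0, (Finsupp.single s y ⊗ₜ[ℂ] v, 0))
    have h0 := hL2 (v, 0)
    have h0' : (LinearMap.snd ℂ _ _ ∘ₗ L) (i0 κ Y M.R v) = BR9.d0 κ M v := by
      refine h0.trans ?_
      rw [BR9.dl_apply]
      show BR9.d0 κ M v + BR9.d1 κ M 0 = _
      rw [map_zero, add_zero]
    rw [h0']
    refine h1.trans ?_
    rw [BR9.dl_apply]
    show BR9.d0 κ M 0 + BR9.d1 κ M (Finsupp.single s y ⊗ₜ[ℂ] v) = _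
    rw [map_zero, zero_add, BR9.d1_single, BR9.d1s_apply]
  · intro w
    have h1 := hL2 (0, (0, w))
    refine h1.trans ?_
    rw [BR9.dl_apply]
    show BR9.d0 κ M 0 + BR9.d1 κ M 0 = 0
    rw [map_zero, map_zero, add_zero]

end q0

end

end WPE
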