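import Pool.Agent.WPE.BRD
import Pool.Agent.WPE.LDB

/-! WPE, block BR: the data `QD`, `QN` of the Lie data `LD`. -/

set_option linter.unusedSectionVars false

namespace WPE

open scoped TensorProduct

noncomputable section

variable {g β η : Type} [LieRing g] [LieAlgebra ℂ g] [Fintype β] [DecidableEq β] [Fintype η]
  [DecidableEq η]

namespace LD

variable (L : LD g β η)

/-- The data of the differential. -/
def qd (c : ℂ) : QD L.bL L.nL where
  Om := L.OmB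
  Zt := L.ZtN
  Lk := L.LkN c
  F := L.pin L.F

variable (N : Type) [AddCommGroup N] [Module ℂ N] [LieRingModule g N] [LieModule ℂ g N]

/-- A `g`-module as a representation of `b₋`. -/
def rep : LRep L.bL N where
  ρ := (LieModule.toEnd ℂ g N : g →ₗ[ℂ] Module.End ℂ N) ∘ₗ L.jb
  lie := by
    intro a b v
    show ⁅((⁅a, b⁆ : L.bL) : g), v⁆ = ⁅(a : g), ⁅(b : g), v⁆⁆ - ⁅(b : g), ⁅(a : g), v⁆⁆
    rw [LieSubalgebra.coe_bracket, lie_lie]

theorem rep_apply (a : L.bL) (v : N) : (L.rep N).ρ a v = ⁅(a : g), v⁆ := rfl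

/-- The module data: `d v = ∑_b f_b ⊗ e_b v`. -/
def qn (c : ℂ) : QN (L.qd c) N where
  R := L.rep N
  d := ∑ b, TensorProduct.mk ℂ L.nL N (L.fN b) ∘ₗ (LieModule.toEnd ℂ g N (L.e b))

theorem qn_d (c : ℂ) (v : N) : (L.qn N c).d v = ∑ b, L.fN b ⊗ₜ[ℂ] ⁅L.e b, v⁆ := by
  show (∑ b, TensorProduct.mk ℂ L.nL N (L.fN b) ∘ₗ (LieModule.toEnd ℂ g N (L.e b)) :
    N →ₗ[ℂ] L.nL ⊗[ℂ] N) v = _
  rw [LinearMap.sum_apply]
  rfl

end LD

end

end WPE
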