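import Pool.Agent.WPE.FD4
import Pool.Agent.WPE.FD9

/-! WPE, block FD, row FD-14: homomorphisms and stable subspaces. -/

open scoped TensorProduct
open WPQ.AF (IsFld)

namespace WPE

noncomputable section

variable {B : Type} [LieRing B] [LieAlgebra ℂ B] {κ : B →ₗ[ℂ] B →ₗ[ℂ] ℂ}
variable {Y : Type} [AddCommGroup Y] [Module ℂ Y] [LieRingModule B Y] [LieModule ℂ B Y]
variable {E : Type} [AddCommGroup E] [Module ℂ E] (X : GMod B Y κ E)

namespace FD14

theorem incl_zero (v : KN Y ℂ) : (Ind.incl κ (TMod.gt Y (TMod.triv B)).toTMod (KNpr Y ℂ 0 v) :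
    VC κ Y) = v.1 • cvac κ Y := by
  unfold cvac
  rw [← map_smul, KNpr_zero]
  congr 1
  refine Prod.ext ?_ (Prod.ext ?_ ?_)
  · simp
  · simp
  · simp

theorem Yh_incl (v : KN Y ℂ) :
    (X.Yh (Ind.incl κ (TMod.gt Y (TMod.triv B)).toTMod (KNpr Y ℂ 0 v))).1 = v.1 • idFld E := by
  rw [incl_zero, map_smul]
  show v.1 • (X.Yh (cvac κ Y)).1 = _
  rw [Yh_vac]

theorem idFld_apply (k : ℤ) (x : E) : idFld E k x = if k = -1 then x else 0 := by
  unfold idFld
  split <;> rfl

end FD14

/-- FD-14 (FD4) -/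
theorem Yh_hom
    {E' : Type} [AddCommGroup E'] [Module ℂ E'] (X' : GMod B Y κ E')
    (G : E →ₗ[ℂ] E') (hG : X.toBMod.IsHom X'.toBMod G) (w : VC κ Y)
    (hw : w ∈ cpart κ Y (TMod.triv B) 0) (k : ℤ) (x : E) :
    G ((X.Yh w).1 k x) = (X'.Yh w).1 k (G x) := by
  let W : Submodule ℂ (VC κ Y) :=
    { carrier := {w | ∀ (k : ℤ) (x : E), G ((X.Yh w).1 k x) = (X'.Yh w).1 k (G x)}
      add_mem' := by
        intro a b ha hb k x
        have h1 := ha k x
        have h2 := hb k x
        rw [map_add, map_add]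
        show G ((X.Yh a).1 k x + (X.Yh b).1 k x) = (X'.Yh a).1 k (G x) + (X'.Yh b).1 k (G x)
        rw [map_add, h1, h2]
      zero_mem' := by
        intro k x
        rw [map_zero, map_zero]
        show G 0 = 0
        exact map_zero G
      smul_mem' := by
        intro c a ha k x
        have h1 := ha k x
        rw [map_smul, map_smul]
        show G (c • (X.Yh a).1 k x) = c • (X'.Yh a).1 k (G x)
        rw [map_smul, h1] }
  have h := cpart_induction (κ := κ) (T := TMod.triv B) (i := 0) W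
    (fun v => by
      intro k x
      rw [FD14.Yh_incl, FD14.Yh_incl]
      show G (v.1 • idFld E k x) = v.1 • idFld E' k (G x)
      rw [map_smul, FD14.idFld_apply, FD14.idFld_apply]
      congr 1
      split
      · rfl
      · exact map_zero G)
    (fun m a w _ ih => by
      intro k x
      rw [Yh_J, Yh_J]
      exact fd_hom G m (X.smooth.isFld a) (X.Yh w).2 (X'.smooth.isFld a) (X'.Yh w).2
        (fun n x => hG n a x) ih k x)
  exact h hw k x

/-- FD-14 -/
theorem Yh_stable (W : Submodule ℂ E) (hW : ∀ (m : ℤ) (a : B), ∀ x ∈ W, X.J m a x ∈ W)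
    (w : VC κ Y) (hw : w ∈ cpart κ Y (TMod.triv B) 0) (k : ℤ) :
    ∀ x ∈ W, (X.Yh w).1 k x ∈ W := by
  let V : Submodule ℂ (VC κ Y) :=
    { carrier := {w | ∀ (k : ℤ), ∀ x ∈ W, (X.Yh w).1 k x ∈ W}
      add_mem' := by
        intro a b ha hb k x hx
        rw [map_add]
        show (X.Yh a).1 k x + (X.Yh b).1 k x ∈ W
        exact W.add_mem (ha k x hx) (hb k x hx)
      zero_mem' := by
        intro k x hx
        rw [map_zero]
        show (0 : E) ∈ W
        exact W.zero_mem
      smul_mem' := by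
        intro c a ha k x hx
        rw [map_smul]
        show c • (X.Yh a).1 k x ∈ W
        exact W.smul_mem c (ha k x hx) }
  have h := cpart_induction (κ := κ) (T := TMod.triv B) (i := 0) V
    (fun v => by
      intro k x hx
      rw [FD14.Yh_incl]
      show v.1 • idFld E k x ∈ W
      rw [FD14.idFld_apply]
      refine W.smul_mem _ ?_
      split
      · exact hx
      · exact W.zero_mem)
    (fun m a w _ ih => by
      intro k
      rw [Yh_J]
      exact fd_stable W m (X.smooth.isFld a) (X.Yh w).2 (fun n x hx => hW n a x hx) ih k)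
  exact h hw k

end

end WPE
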