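import Pool.Agent.WPE.FDS0

/-! [WPE-FD5] The degree of the products of fields. -/

open scoped TensorProduct
open WPQ.AF (IsFld)

namespace WPE

/-- [FD5] -/
theorem fd_deg {E : Type} [AddCommGroup E] [Module ℂ E] {Γ : Type} [AddCommGroup Γ]
    (gr : Γ → Submodule ℂ E) (τ σ σ' : Γ) (n : ℤ) {a b : ℤ → E →ₗ[ℂ] E} (ha : IsFld a)
    (hb : IsFld b) (hda : HasDeg gr τ σ a) (hdb : HasDeg gr τ σ' b) :
    HasDeg gr τ (σ + σ' - (n + 1) • τ) (nprod n a b) := by
  intro k d x hx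
  obtain ⟨N0, -, hL⟩ := nL_eq n a hb x
  obtain ⟨N1, hR⟩ := nR_eq n ha b x
  have hLx := hL k (N0 - k).toNat (Int.self_le_toNat _)
  have hRx := hR k N1 le_rfl
  have h1 : nL n a b k x ∈ gr (d + (σ + σ' - (n + 1) • τ) - (k + 1) • τ) := by
    rw [hLx]
    refine Submodule.sum_mem _ fun j _ => Submodule.smul_mem _ _ ?_
    have h2 := hda (n - j) _ _ (hdb (k + j) d x hx)
    have e : d + σ' - (k + (j : ℤ) + 1) • τ + σ - (n - (j : ℤ) + 1) • τ =
        d + (σ + σ' - (n + 1) • τ) - (k + 1) • τ := by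
      module
    rwa [e] at h2
  have h2 : nR n a b k x ∈ gr (d + (σ + σ' - (n + 1) • τ) - (k + 1) • τ) := by
    rw [hRx]
    refine Submodule.sum_mem _ fun j _ => Submodule.smul_mem _ _ ?_
    have h3 := hdb (n + k - j) _ _ (hda j d x hx)
    have e : d + σ - ((j : ℤ) + 1) • τ + σ' - (n + k - (j : ℤ) + 1) • τ =
        d + (σ + σ' - (n + 1) • τ) - (k + 1) • τ := by
      module
    rwa [e] at h3
  exact Submodule.sub_mem _ h1 h2

end WPE
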