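import Pool.Agent.MP_35f30a_al.C74.PBW3

/-!
# Induced modules and the Poincare-Birkhoff-Witt theorem

`L` a Lie algebra with basis `b` indexed by `La ⊕ₗ Mu`, `P` a subalgebra with basis
`b (inr j)`. For a representation `V` of `P` the induced representation of `L` lives on
`sorted lists in La →₀ V`.
-/

set_option autoImplicit false
set_option linter.unusedSectionVars false

open Finsupp

namespace WPE

open C74

/-- sorted lists -/
abbrev SL (La : Type) [LinearOrder La] : Type := {w : List La // w.Pairwise (· ≤ ·)}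

/-- the empty list -/
def SL.nil (La : Type) [LinearOrder La] : SL La := ⟨[], List.Pairwise.nil⟩

section splitting

variable {La Mu : Type} [LinearOrder La] [LinearOrder Mu]

/-- concatenation of a list on the left and a list on the right -/
def cat (w : List La) (u : List Mu) : List (La ⊕ₗ Mu) :=
  w.map (fun i => toLex (Sum.inl i)) ++ u.map (fun j => toLex (Sum.inr j))

theorem cat_sorted {w : List La} {u : List Mu} (hw : w.Pairwise (· ≤ ·)) (hu : u.Pairwise (· ≤ ·)) :
    (cat w u).Pairwise (· ≤ ·) := by
  unfold cat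
  rw [List.pairwise_append]
  refine ⟨?_, ?_, ?_⟩
  · rw [List.pairwise_map]
    exact hw.imp fun h => Sum.Lex.inl_le_inl_iff.2 h
  · rw [List.pairwise_map]
    exact hu.imp fun h => Sum.Lex.inr_le_inr_iff.2 h
  · intro a ha c hc
    rw [List.mem_map] at ha hc
    obtain ⟨i, -, rfl⟩ := ha
    obtain ⟨j, -, rfl⟩ := hc
    exact Sum.Lex.inl_le_inr i j

/-- left part -/
def lp (l : List (La ⊕ₗ Mu)) : List La := l.filterMap fun x => (ofLex x).getLeft?

/-- right part -/
def rp (l : List (La ⊕ₗ Mu)) : List Mu := l.filterMap fun x => (ofLex x).getRight?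

theorem lp_cat (w : List La) (u : List Mu) : lp (cat w u) = w := by
  unfold lp cat
  rw [List.filterMap_append, List.filterMap_map, List.filterMap_map]
  have h1 : List.filterMap ((fun x : La ⊕ₗ Mu => (ofLex x).getLeft?) ∘
      fun i : La => toLex (Sum.inl i)) w = w := by
    have : ((fun x : La ⊕ₗ Mu => (ofLex x).getLeft?) ∘
      fun i : La => toLex (Sum.inl i)) = some := by
      funext i; rfl
    rw [this, List.filterMap_some]
  have h2 : List.filterMap ((fun x : La ⊕ₗ Mu => (ofLex x).getLeft?) ∘
      fun i : Mu => toLex (Sum.inr i)) u = [] := by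
    rw [List.filterMap_eq_nil_iff]
    intro a _; rfl
  rw [h1, h2, List.append_nil]

theorem rp_cat (w : List La) (u : List Mu) : rp (cat w u) = u := by
  unfold rp cat
  rw [List.filterMap_append, List.filterMap_map, List.filterMap_map]
  have h1 : List.filterMap ((fun x : La ⊕ₗ Mu => (ofLex x).getRight?) ∘
      fun i : Mu => toLex (Sum.inr i)) u = u := by
    have : ((fun x : La ⊕ₗ Mu => (ofLex x).getRight?) ∘
      fun i : Mu => toLex (Sum.inr i)) = some := by
      funext i; rfl
    rw [this, List.filterMap_some]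
  have h2 : List.filterMap ((fun x : La ⊕ₗ Mu => (ofLex x).getRight?) ∘
      fun i : La => toLex (Sum.inl i)) w = [] := by
    rw [List.filterMap_eq_nil_iff]
    intro a _; rfl
  rw [h1, h2, List.nil_append]

/-- a sorted list of the sum is a concatenation -/
theorem exists_cat (l : List (La ⊕ₗ Mu)) (hl : l.Pairwise (· ≤ ·)) :
    ∃ (w : List La) (u : List Mu), w.Pairwise (· ≤ ·) ∧ u.Pairwise (· ≤ ·) ∧ l = cat w u := by
  induction l with
  | nil => exact ⟨[], [], List.Pairwise.nil, List.Pairwise.nil, rfl⟩
  | cons a l ih =>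
    rw [List.pairwise_cons] at hl
    obtain ⟨w, u, hw, hu, rfl⟩ := ih hl.2
    rcases h : ofLex a with i | j
    · have ha : a = toLex (Sum.inl i) := by rw [← h]; rfl
      refine ⟨i :: w, u, ?_, hu, ?_⟩
      · rw [List.pairwise_cons]
        refine ⟨fun x hx => ?_, hw⟩
        have := hl.1 (toLex (Sum.inl x)) (by
          unfold cat
          rw [List.mem_append]
          exact Or.inl (List.mem_map.2 ⟨x, hx, rfl⟩))
        rw [ha] at this
        exact Sum.Lex.inl_le_inl_iff.1 this
      · rw [ha]; rfl
    · have ha : a = toLex (Sum.inr j) := by rw [← h]; rfl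
      have hw0 : w = [] := by
        rcases w with _ | ⟨x, w⟩
        · rfl
        · exfalso
          have := hl.1 (toLex (Sum.inl x)) (by
            unfold cat
            rw [List.mem_append]
            exact Or.inl (List.mem_map.2 ⟨x, List.mem_cons_self, rfl⟩))
          rw [ha] at this
          exact absurd this (Sum.Lex.not_inr_le_inl)
      subst hw0
      refine ⟨[], j :: u, List.Pairwise.nil, ?_, ?_⟩
      · rw [List.pairwise_cons]
        refine ⟨fun x hx => ?_, hu⟩
        have := hl.1 (toLex (Sum.inr x)) (by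
          unfold cat
          rw [List.mem_append]
          exact Or.inr (List.mem_map.2 ⟨x, hx, rfl⟩))
        rw [ha] at this
        exact Sum.Lex.inr_le_inr_iff.1 this
      · rw [ha]; rfl

end splitting

section free

attribute [local instance 100] LieRing.ofAssociativeRing

variable {K L : Type} [CommRing K] [LieRing L] [LieAlgebra K L] {P : LieSubalgebra K L}
  {La Mu : Type} [LinearOrder La] [LinearOrder Mu] (b : Module.Basis (La ⊕ₗ Mu) K L)
  (bP : Module.Basis Mu K P)

variable (K L P) in
/-- the map of the enveloping algebras -/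
noncomputable def inj : UniversalEnvelopingAlgebra K P →ₐ[K] UniversalEnvelopingAlgebra K L :=
  UniversalEnvelopingAlgebra.lift K ((UniversalEnvelopingAlgebra.ι K).comp P.incl)

theorem inj_ι (p : P) : inj K L P (UniversalEnvelopingAlgebra.ι K p) =
    UniversalEnvelopingAlgebra.ι K (p : L) := by
  unfold inj
  rw [UniversalEnvelopingAlgebra.lift_ι_apply]
  rfl

/-- the ordered monomials in the complement -/
noncomputable def nm (w : List La) : UniversalEnvelopingAlgebra K L :=
  (w.map fun i => UniversalEnvelopingAlgebra.ι K (b (toLex (Sum.inl i)))).prod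

theorem nm_nil : nm b [] = 1 := by
  unfold nm; rw [List.map_nil, List.prod_nil]

theorem nm_cons (i : La) (w : List La) : nm b (i :: w) =
    UniversalEnvelopingAlgebra.ι K (b (toLex (Sum.inl i))) * nm b w := by
  unfold nm; rw [List.map_cons, List.prod_cons]

theorem inj_mon (hb : ∀ j, b (toLex (Sum.inr j)) = (bP j : L)) (u : List Mu) :
    inj K L P (pbwMon K P bP u) =
      (u.map fun j => UniversalEnvelopingAlgebra.ι K (b (toLex (Sum.inr j)))).prod := by
  unfold pbwMon
  rw [map_list_prod, List.map_map]
  congr 1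
  refine List.map_congr_left fun j _ => ?_
  rw [Function.comp_apply, inj_ι, hb]

theorem mon_cat (hb : ∀ j, b (toLex (Sum.inr j)) = (bP j : L)) (w : List La) (u : List Mu) :
    pbwMon K L b (cat w u) = nm b w * inj K L P (pbwMon K P bP u) := by
  rw [inj_mon b bP hb]
  unfold pbwMon cat nm
  rw [List.map_append, List.prod_append, List.map_map, List.map_map]
  rfl

/-- the splitting map on lists -/
noncomputable def sp : (List (La ⊕ₗ Mu) →₀ K) →ₗ[K] (SL La →₀ UniversalEnvelopingAlgebra K P) :=
  Finsupp.linearCombination K fun l : List (La ⊕ₗ Mu) =>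
    open Classical in
    if h : (lp l).Pairwise (· ≤ ·) then Finsupp.single (⟨lp l, h⟩ : SL La) (pbwMon K P bP (rp l))
    else 0

theorem sp_single (w : List La) (hw : w.Pairwise (· ≤ ·)) (u : List Mu) :
    sp bP (Finsupp.single (cat w u) 1) =
      Finsupp.single (⟨w, hw⟩ : SL La) (pbwMon K P bP u) := by
  unfold sp
  rw [Finsupp.linearCombination_single, one_smul]
  have h1 : (lp (cat w u)).Pairwise (· ≤ ·) := by rw [lp_cat]; exact hw
  rw [dif_pos h1]
  have h2 : (⟨lp (cat w u), h1⟩ : SL La) = ⟨w, hw⟩ := Subtype.ext (lp_cat w u)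
  rw [h2, rp_cat]

/-- **The enveloping algebra is a free right module over the enveloping algebra of `P`.** -/
theorem exists_coord (hb : ∀ j, b (toLex (Sum.inr j)) = (bP j : L)) :
    ∃ c : UniversalEnvelopingAlgebra K L →ₗ[K] (SL La →₀ UniversalEnvelopingAlgebra K P),
      (∀ (w : SL La) (x : UniversalEnvelopingAlgebra K P),
        c (nm b w.1 * inj K L P x) = Finsupp.single w x) ∧
      ∀ y : UniversalEnvelopingAlgebra K L, ((c y).sum fun w x => nm b w.1 * inj K L P x) = y := by
  obtain ⟨N, hN⟩ := pbw_indep K L b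
  have h1 : ∀ (w : SL La) (x : UniversalEnvelopingAlgebra K P),
      (sp bP ∘ₗ N) (nm b w.1 * inj K L P x) = Finsupp.single w x := by
    intro w x
    have hx : x ∈ Submodule.span K {u | ∃ l : List Mu, l.Pairwise (· ≤ ·) ∧ u = pbwMon K P bP l} := by
      rw [pbw_span K P bP]; exact Submodule.mem_top
    induction hx using Submodule.span_induction with
    | mem x h =>
      obtain ⟨u, hu, rfl⟩ := h
      rw [← mon_cat b bP hb, LinearMap.comp_apply, hN _ (cat_sorted w.2 hu)]
      exact sp_single bP w.1 w.2 u
    | zero => rw [map_zero, mul_zero, map_zero, Finsupp.single_zero]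
    | add x y _ _ hx hy => rw [map_add, mul_add, map_add, hx, hy, Finsupp.single_add]
    | smul r x _ hx => rw [map_smul, mul_smul_comm, map_smul, hx, Finsupp.smul_single]
  refine ⟨sp bP ∘ₗ N, h1, fun y => ?_⟩
  have hy : y ∈ Submodule.span K {u | ∃ l : List (La ⊕ₗ Mu), l.Pairwise (· ≤ ·) ∧
      u = pbwMon K L b l} := by
    rw [pbw_span K L b]; exact Submodule.mem_top
  have hadd : ∀ w : SL La, ∀ x x' : UniversalEnvelopingAlgebra K P,
      nm b w.1 * inj K L P (x + x') = nm b w.1 * inj K L P x + nm b w.1 * inj K L P x' := by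
    intro w x x'
    rw [map_add, mul_add]
  have h0 : ∀ w : SL La, nm b w.1 * inj K L P 0 = 0 := by
    intro w
    rw [map_zero, mul_zero]
  induction hy using Submodule.span_induction with
  | mem y h =>
    obtain ⟨l, hl, rfl⟩ := h
    obtain ⟨w, u, hw, hu, rfl⟩ := exists_cat l hl
    rw [mon_cat b bP hb, h1 ⟨w, hw⟩, Finsupp.sum_single_index (h0 _)]
  | zero => rw [map_zero, Finsupp.sum_zero_index]
  | add x y _ _ hx hy =>
    rw [map_add, Finsupp.sum_add_index' h0 hadd, hx, hy]
  | smul r x _ hx =>
    rw [map_smul, Finsupp.sum_smul_index' h0]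
    conv_rhs => rw [← hx]
    rw [Finsupp.smul_sum]
    refine Finsupp.sum_congr fun w _ => ?_
    rw [map_smul, mul_smul_comm]

end free

section induced

attribute [local instance 100] LieRing.ofAssociativeRing

variable {K L : Type} [CommRing K] [LieRing L] [LieAlgebra K L] {P : LieSubalgebra K L}
  {La Mu : Type} [LinearOrder La] [LinearOrder Mu] (b : Module.Basis (La ⊕ₗ Mu) K L)
  (bP : Module.Basis Mu K P) (hb : ∀ j, b (toLex (Sum.inr j)) = (bP j : L))
  {V : Type} [AddCommGroup V] [Module K V] (ρ : P →ₗ⁅K⁆ Module.End K V)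

/-- the coordinates -/
noncomputable def coord : UniversalEnvelopingAlgebra K L →ₗ[K]
    (SL La →₀ UniversalEnvelopingAlgebra K P) :=
  (exists_coord b bP hb).choose

theorem coord_nm (w : SL La) (x : UniversalEnvelopingAlgebra K P) :
    coord b bP hb (nm b w.1 * inj K L P x) = Finsupp.single w x :=
  (exists_coord b bP hb).choose_spec.1 w x

theorem coord_sum (y : UniversalEnvelopingAlgebra K L) :
    ((coord b bP hb y).sum fun w x => nm b w.1 * inj K L P x) = y :=
  (exists_coord b bP hb).choose_spec.2 y

include bP hb in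
/-- induction: every element is a sum of `nm w * x` -/
theorem U_ind {p : UniversalEnvelopingAlgebra K L → Prop} (h0 : p 0)
    (ha : ∀ x y, p x → p y → p (x + y))
    (hs : ∀ (w : SL La) (x : UniversalEnvelopingAlgebra K P), p (nm b w.1 * inj K L P x))
    (y : UniversalEnvelopingAlgebra K L) : p y := by
  obtain ⟨c, -, hc⟩ := exists_coord b bP hb
  rw [← hc y, Finsupp.sum]
  exact Finset.sum_induction _ p ha h0 fun w _ => hs w _

/-- the representation of the enveloping algebra of `P` -/
noncomputable def rhoU : UniversalEnvelopingAlgebra K P →ₐ[K] Module.End K V :=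
  UniversalEnvelopingAlgebra.lift K ρ

theorem rhoU_ι (p : P) : rhoU ρ (UniversalEnvelopingAlgebra.ι K p) = ρ p := by
  unfold rhoU
  rw [UniversalEnvelopingAlgebra.lift_ι_apply]

/-- `u ↦ [u ⊗ v]` -/
noncomputable def Psi (v : V) : UniversalEnvelopingAlgebra K L →ₗ[K] (SL La →₀ V) :=
  (Finsupp.mapRange.linearMap ((rhoU ρ).toLinearMap.flip v)) ∘ₗ coord b bP hb

theorem Psi_nm (v : V) (w : SL La) (x : UniversalEnvelopingAlgebra K P) :
    Psi b bP hb ρ v (nm b w.1 * inj K L P x) = Finsupp.single w (rhoU ρ x v) := by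
  unfold Psi
  rw [LinearMap.comp_apply, coord_nm, Finsupp.mapRange.linearMap_apply,
    Finsupp.mapRange_single]
  rfl

theorem Psi_nm_one (v : V) (w : SL La) : Psi b bP hb ρ v (nm b w.1) = Finsupp.single w v := by
  have h := Psi_nm b bP hb ρ v w 1
  rw [map_one, mul_one, map_one] at h
  exact h

theorem Psi_mul (v : V) (y : UniversalEnvelopingAlgebra K L) (x : UniversalEnvelopingAlgebra K P) :
    Psi b bP hb ρ v (y * inj K L P x) = Psi b bP hb ρ (rhoU ρ x v) y := by
  revert y
  refine U_ind b bP hb ?_ ?_ ?_
  · rw [zero_mul, map_zero, map_zero]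
  · intro y z hy hz
    rw [add_mul, map_add, map_add, hy, hz]
  · intro w z
    rw [mul_assoc, ← map_mul, Psi_nm, Psi_nm, map_mul]
    rfl

theorem Psi_add (v v' : V) (y : UniversalEnvelopingAlgebra K L) :
    Psi b bP hb ρ (v + v') y = Psi b bP hb ρ v y + Psi b bP hb ρ v' y := by
  revert y
  refine U_ind b bP hb ?_ ?_ ?_
  · rw [map_zero, map_zero, map_zero, add_zero]
  · intro y z hy hz
    rw [map_add, hy, hz, map_add, map_add]; abel
  · intro w z
    rw [Psi_nm, Psi_nm, Psi_nm, map_add, Finsupp.single_add]

theorem Psi_smul (r : K) (v : V) (y : UniversalEnvelopingAlgebra K L) :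
    Psi b bP hb ρ (r • v) y = r • Psi b bP hb ρ v y := by
  revert y
  refine U_ind b bP hb ?_ ?_ ?_
  · rw [map_zero, map_zero, smul_zero]
  · intro y z hy hz
    rw [map_add, hy, hz, map_add, smul_add]
  · intro w z
    rw [Psi_nm, Psi_nm, map_smul, Finsupp.smul_single]

/-- the bilinear map `(y, v) ↦ [y ⊗ v]` -/
noncomputable def PsiL (y : UniversalEnvelopingAlgebra K L) : V →ₗ[K] (SL La →₀ V) where
  toFun v := Psi b bP hb ρ v y
  map_add' v v' := Psi_add b bP hb ρ v v' y
  map_smul' r v := Psi_smul b bP hb ρ r v y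

/-- the action of an element of the enveloping algebra -/
noncomputable def actU (x : UniversalEnvelopingAlgebra K L) : Module.End K (SL La →₀ V) :=
  Finsupp.lsum K fun w : SL La => PsiL b bP hb ρ (x * nm b w.1)

theorem actU_single (x : UniversalEnvelopingAlgebra K L) (w : SL La) (v : V) :
    actU b bP hb ρ x (Finsupp.single w v) = Psi b bP hb ρ v (x * nm b w.1) := by
  unfold actU
  rw [Finsupp.lsum_single]
  rfl

theorem actU_Psi (x y : UniversalEnvelopingAlgebra K L) (v : V) :
    actU b bP hb ρ x (Psi b bP hb ρ v y) = Psi b bP hb ρ v (x * y) := by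
  revert y
  refine U_ind b bP hb ?_ ?_ ?_
  · rw [map_zero, mul_zero, map_zero, map_zero]
  · intro y z hy hz
    rw [map_add, map_add, hy, hz, mul_add, map_add]
  · intro w z
    rw [Psi_nm, actU_single, ← mul_assoc, Psi_mul]

/-- the algebra homomorphism -/
noncomputable def actA : UniversalEnvelopingAlgebra K L →ₐ[K] Module.End K (SL La →₀ V) :=
  AlgHom.ofLinearMap
    { toFun := actU b bP hb ρ
      map_add' := fun x y => by
        refine Finsupp.lhom_ext fun w v => ?_
        rw [LinearMap.add_apply, actU_single, actU_single, actU_single, add_mul, map_add]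
      map_smul' := fun r x => by
        refine Finsupp.lhom_ext fun w v => ?_
        rw [LinearMap.smul_apply, actU_single, RingHom.id_apply, actU_single, smul_mul_assoc,
          map_smul] }
    (by
      refine Finsupp.lhom_ext fun w v => ?_
      change actU b bP hb ρ 1 _ = _
      rw [actU_single, one_mul, Psi_nm_one]
      rfl)
    (by
      intro x y
      refine Finsupp.lhom_ext fun w v => ?_
      change actU b bP hb ρ (x * y) _ = actU b bP hb ρ x (actU b bP hb ρ y _)
      rw [actU_single, actU_single, actU_Psi, mul_assoc])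

/-- **The induced representation.** -/
noncomputable def indRep : L →ₗ⁅K⁆ Module.End K (SL La →₀ V) :=
  (actA b bP hb ρ : UniversalEnvelopingAlgebra K L →ₗ⁅K⁆ Module.End K (SL La →₀ V)).comp
    (UniversalEnvelopingAlgebra.ι K)

theorem indRep_apply (x : L) : indRep b bP hb ρ x =
    actU b bP hb ρ (UniversalEnvelopingAlgebra.ι K x) := rfl

/-- the inclusion of the module -/
noncomputable def inc : V →ₗ[K] (SL La →₀ V) := Finsupp.lsingle (SL.nil La)

theorem inc_apply (v : V) : inc (La := La) (K := K) v = Finsupp.single (SL.nil La) v := rfl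

theorem Psi_one (v : V) : Psi b bP hb ρ v 1 = inc (La := La) (K := K) v := by
  have h := Psi_nm_one b bP hb ρ v (SL.nil La)
  have h2 : nm b (SL.nil La).1 = 1 := nm_nil b
  rw [h2] at h
  exact h

theorem indRep_inc (p : P) (v : V) : indRep b bP hb ρ (p : L) (inc (La := La) (K := K) v) =
    inc (La := La) (K := K) (ρ p v) := by
  rw [indRep_apply, ← Psi_one b bP hb ρ v, actU_Psi, mul_one, ← inj_ι]
  have h := Psi_mul b bP hb ρ v 1 (UniversalEnvelopingAlgebra.ι K p)
  rw [one_mul, rhoU_ι] at h
  rw [h, Psi_one]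

/-- the ordered monomials applied to the module are the coordinates -/
theorem indRep_mon (w : SL La) (v : V) :
    (w.1.map fun i => indRep b bP hb ρ (b (toLex (Sum.inl i)))).prod
      (inc (La := La) (K := K) v) = Finsupp.single w v := by
  have h1 : (w.1.map fun i => indRep b bP hb ρ (b (toLex (Sum.inl i)))).prod =
      actA b bP hb ρ (nm b w.1) := by
    unfold nm
    rw [map_list_prod, List.map_map]
    rfl
  rw [h1]
  change actU b bP hb ρ (nm b w.1) _ = _
  rw [← Psi_one b bP hb ρ v, actU_Psi, mul_one, Psi_nm_one]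

section universal

variable {E : Type} [AddCommGroup E] [Module K E] (σ : L →ₗ⁅K⁆ Module.End K E)

/-- the representation of the enveloping algebra of `L` -/
noncomputable def sigU : UniversalEnvelopingAlgebra K L →ₐ[K] Module.End K E :=
  UniversalEnvelopingAlgebra.lift K σ

theorem sigU_ι (x : L) : sigU σ (UniversalEnvelopingAlgebra.ι K x) = σ x := by
  unfold sigU
  rw [UniversalEnvelopingAlgebra.lift_ι_apply]

include bP in
/-- an equivariant map is equivariant for the enveloping algebra -/
theorem equiv_U (φ : V →ₗ[K] E) (hφ : ∀ (p : P) (v : V), φ (ρ p v) = σ (p : L) (φ v))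
    (x : UniversalEnvelopingAlgebra K P) (v : V) :
    φ (rhoU ρ x v) = sigU σ (inj K L P x) (φ v) := by
  have hx : x ∈ Submodule.span K {u | ∃ l : List Mu, l.Pairwise (· ≤ ·) ∧ u = pbwMon K P bP l} := by
    rw [pbw_span K P bP]; exact Submodule.mem_top
  induction hx using Submodule.span_induction with
  | mem x h =>
    obtain ⟨u, -, rfl⟩ := h
    induction u with
    | nil =>
      have : pbwMon K P bP [] = 1 := by unfold pbwMon; rw [List.map_nil, List.prod_nil]
      rw [this, map_one, map_one, map_one]
      rfl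
    | cons j u ih =>
      have : pbwMon K P bP (j :: u) = UniversalEnvelopingAlgebra.ι K (bP j) * pbwMon K P bP u := by
        unfold pbwMon; rw [List.map_cons, List.prod_cons]
      rw [this, map_mul, map_mul, map_mul, Module.End.mul_apply, Module.End.mul_apply, ← ih,
        rhoU_ι, inj_ι, sigU_ι, hφ]
  | zero => rw [map_zero, map_zero, map_zero, LinearMap.zero_apply, LinearMap.zero_apply, map_zero]
  | add x y _ _ hx hy =>
    rw [map_add, map_add, map_add, LinearMap.add_apply, LinearMap.add_apply, map_add, hx, hy]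
  | smul r x _ hx =>
    rw [map_smul, map_smul, map_smul, LinearMap.smul_apply, LinearMap.smul_apply, map_smul, hx]

/-- the extension of an equivariant map -/
noncomputable def ext (φ : V →ₗ[K] E) : (SL La →₀ V) →ₗ[K] E :=
  Finsupp.lsum K fun w : SL La => (sigU σ (nm b w.1)) ∘ₗ φ

theorem ext_single (φ : V →ₗ[K] E) (w : SL La) (v : V) :
    ext b σ φ (Finsupp.single w v) = sigU σ (nm b w.1) (φ v) := by
  unfold ext
  rw [Finsupp.lsum_single]
  rfl

theorem ext_inc (φ : V →ₗ[K] E) (v : V) : ext b σ φ (inc (La := La) (K := K) v) = φ v := by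
  rw [inc_apply, ext_single]
  have h2 : nm b (SL.nil La).1 = 1 := nm_nil b
  rw [h2, map_one]
  rfl

theorem ext_Psi (φ : V →ₗ[K] E) (hφ : ∀ (p : P) (v : V), φ (ρ p v) = σ (p : L) (φ v)) (v : V)
    (y : UniversalEnvelopingAlgebra K L) :
    ext b σ φ (Psi b bP hb ρ v y) = sigU σ y (φ v) := by
  revert y
  refine U_ind b bP hb ?_ ?_ ?_
  · rw [map_zero, map_zero, map_zero, LinearMap.zero_apply]
  · intro y z hy hz
    rw [map_add, map_add, hy, hz, map_add, LinearMap.add_apply]
  · intro w z
    rw [Psi_nm, ext_single, equiv_U bP ρ σ φ hφ, map_mul, Module.End.mul_apply]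

theorem ext_indRep (φ : V →ₗ[K] E) (hφ : ∀ (p : P) (v : V), φ (ρ p v) = σ (p : L) (φ v)) (x : L)
    (m : SL La →₀ V) : ext b σ φ (indRep b bP hb ρ x m) = σ x (ext b σ φ m) := by
  induction m using Finsupp.induction_linear with
  | zero => rw [map_zero, map_zero, map_zero]
  | add m n hm hn => rw [map_add, map_add, hm, hn, map_add, map_add]
  | single w v =>
    rw [indRep_apply, actU_single, ext_Psi b bP hb ρ σ φ hφ, ext_single, map_mul,
      Module.End.mul_apply, sigU_ι]

/-- **The universal property.** -/
theorem indRep_universal (φ : V →ₗ[K] E) (hφ : ∀ (p : P) (v : V), φ (ρ p v) = σ (p : L) (φ v)) :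
    ∃! Φ : (SL La →₀ V) →ₗ[K] E, (∀ v, Φ (inc (La := La) (K := K) v) = φ v) ∧
      ∀ (x : L) (m : SL La →₀ V), Φ (indRep b bP hb ρ x m) = σ x (Φ m) := by
  refine ⟨ext b σ φ, ⟨ext_inc b σ φ, ext_indRep b bP hb ρ σ φ hφ⟩, ?_⟩
  rintro Φ ⟨h1, h2⟩
  refine Finsupp.lhom_ext fun w v => ?_
  have h3 : ∀ (l : List La) (m : SL La →₀ V),
      Φ ((l.map fun i => indRep b bP hb ρ (b (toLex (Sum.inl i)))).prod m) =
        sigU σ (nm b l) (Φ m) := by
    intro l
    induction l with
    | nil =>
      intro m
      rw [List.map_nil, List.prod_nil, nm_nil, map_one]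
      rfl
    | cons i l ih =>
      intro m
      rw [List.map_cons, List.prod_cons, Module.End.mul_apply, h2, ih, nm_cons, map_mul,
        Module.End.mul_apply, sigU_ι]
  rw [ext_single, ← indRep_mon b bP hb ρ w v, h3, h1]

end universal

end induced

end WPE
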