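import Pool.Agent.WPE.IND
import Pool.Agent.WPE.IndP

/-! WPE, block IN: PBW for the induced modules. -/

set_option autoImplicit false
set_option linter.unusedSectionVars false
set_option linter.unusedVariables false

namespace WPE

noncomputable section

namespace PB

variable {B : Type} [LieRing B] [LieAlgebra ℂ B] (κ : B →ₗ[ℂ] B →ₗ[ℂ] ℂ)

/-- The underlying space of the affinization. -/
def Bh (_ : B →ₗ[ℂ] B →ₗ[ℂ] ℂ) : Type := (ℤ →₀ B) × ℂ

instance : AddCommGroup (Bh κ) := inferInstanceAs (AddCommGroup ((ℤ →₀ B) × ℂ))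

instance : Module ℂ (Bh κ) := inferInstanceAs (Module ℂ ((ℤ →₀ B) × ℂ))

/-- constructor -/
def mk' : ((ℤ →₀ B) × ℂ) ≃ₗ[ℂ] Bh κ := LinearEquiv.refl ℂ _

theorem coc_symm (hk : IsInvForm κ) (m n : ℤ) (a b : B) : coc κ m n a b = -coc κ n m b a := by
  unfold coc
  by_cases h : m + n = 0
  · rw [if_pos h, if_pos (by omega), hk.symm b a]
    have : (n : ℂ) = -(m : ℂ) := by
      have h1 : n = -m := by omega
      rw [h1, Int.cast_neg]
    rw [this]
    ring
  · rw [if_neg h, if_neg (by omega), neg_zero]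

theorem coc_jac (hk : IsInvForm κ) (m n p : ℤ) (a b c : B) :
    coc κ m (n + p) a ⁅b, c⁆ = coc κ (m + n) p ⁅a, b⁆ c + coc κ n (m + p) b ⁅a, c⁆ := by
  unfold coc
  by_cases h : m + (n + p) = 0
  · rw [if_pos h, if_pos (by omega), if_pos (by omega), hk.inv a b c]
    have h1 : κ b ⁅a, c⁆ = -κ a ⁅b, c⁆ := by
      rw [← hk.inv b a c, ← lie_skew b a, map_neg, LinearMap.neg_apply, hk.inv a b c]
    rw [h1, Int.cast_add]
    ring
  · rw [if_neg h, if_neg (by omega), if_neg (by omega), add_zero]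

/-- The bracket of two letters. -/
def cb (m n : ℤ) : B →ₗ[ℂ] B →ₗ[ℂ] Bh κ :=
  LinearMap.mk₂ ℂ (fun a b => mk' κ (Finsupp.single (m + n) ⁅a, b⁆, coc κ m n a b))
    (by
      intro a a' b
      rw [← map_add, Prod.mk_add_mk, add_lie, Finsupp.single_add]
      unfold coc
      rw [map_add, LinearMap.add_apply]
      congr 2
      split_ifs
      · ring
      · rw [add_zero])
    (by
      intro c a b
      rw [← map_smul, Prod.smul_mk, smul_lie, Finsupp.smul_single]
      unfold coc
      rw [map_smul, LinearMap.smul_apply]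
      congr 2
      split_ifs
      · simp only [smul_eq_mul]; ring
      · rw [smul_zero])
    (by
      intro a b b'
      rw [← map_add, Prod.mk_add_mk, lie_add, Finsupp.single_add]
      unfold coc
      rw [map_add]
      congr 2
      split_ifs
      · ring
      · rw [add_zero])
    (by
      intro c a b
      rw [← map_smul, Prod.smul_mk, lie_smul, Finsupp.smul_single]
      unfold coc
      rw [map_smul]
      congr 2
      split_ifs
      · simp only [smul_eq_mul]; ring
      · rw [smul_zero])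

theorem cb_apply (m n : ℤ) (a b : B) :
    cb κ m n a b = mk' κ (Finsupp.single (m + n) ⁅a, b⁆, coc κ m n a b) := rfl

/-- The bracket on the loops. -/
def br : (ℤ →₀ B) →ₗ[ℂ] (ℤ →₀ B) →ₗ[ℂ] Bh κ :=
  Finsupp.lsum ℂ fun m => (Finsupp.lsum ℂ).toLinearMap ∘ₗ LinearMap.pi fun n => cb κ m n

theorem br_single (m n : ℤ) (a b : B) : br κ (Finsupp.single m a) (Finsupp.single n b) =
    mk' κ (Finsupp.single (m + n) ⁅a, b⁆, coc κ m n a b) := by
  unfold br
  rw [Finsupp.lsum_single, LinearMap.comp_apply, LinearEquiv.coe_coe, Finsupp.lsum_single]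
  rfl

theorem br_skew (hk : IsInvForm κ) (x y : ℤ →₀ B) : br κ x y = -br κ y x := by
  induction x using Finsupp.induction_linear with
  | zero => rw [map_zero, map_zero, LinearMap.zero_apply, neg_zero]
  | add x x' hx hx' => rw [map_add, map_add, LinearMap.add_apply, hx, hx', neg_add]
  | single m a =>
    induction y using Finsupp.induction_linear with
    | zero => rw [map_zero, map_zero, LinearMap.zero_apply, neg_zero]
    | add y y' hy hy' => rw [map_add, map_add, LinearMap.add_apply, hy, hy', neg_add]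
    | single n b =>
      rw [br_single, br_single, ← map_neg, Prod.neg_mk, coc_symm κ hk m n a b, ← lie_skew a b,
        Finsupp.single_neg, add_comm m n]

theorem br_jac (hk : IsInvForm κ) (x y z : ℤ →₀ B) :
    br κ x ((mk' κ).symm (br κ y z)).1 =
      br κ ((mk' κ).symm (br κ x y)).1 z + br κ y ((mk' κ).symm (br κ x z)).1 := by
  induction x using Finsupp.induction_linear with
  | zero => simp
  | add x x' hx hx' =>
    simp only [map_add, LinearMap.add_apply, Prod.fst_add, hx, hx']
    abel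
  | single m a =>
    induction y using Finsupp.induction_linear with
    | zero => simp
    | add y y' hy hy' =>
      simp only [map_add, LinearMap.add_apply, Prod.fst_add, hy, hy']
      abel
    | single n b =>
      induction z using Finsupp.induction_linear with
      | zero => simp
      | add z z' hz hz' =>
        simp only [map_add, Prod.fst_add, hz, hz']
        abel
      | single p c =>
        rw [br_single, br_single, br_single]
        simp only [LinearEquiv.symm_apply_apply]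
        rw [br_single, br_single, br_single, ← map_add, Prod.mk_add_mk, coc_jac κ hk,
          leibniz_lie a b c, Finsupp.single_add, add_assoc m n p, add_left_comm n m p]

variable [hk : Fact (IsInvForm κ)]

instance : LieRing (Bh κ) where
  bracket x y := br κ ((mk' κ).symm x).1 ((mk' κ).symm y).1
  add_lie x y z := by
    change br κ _ _ = br κ _ _ + br κ _ _
    rw [map_add, Prod.fst_add, map_add, LinearMap.add_apply]
  lie_add x y z := by
    change br κ _ _ = br κ _ _ + br κ _ _
    rw [map_add, Prod.fst_add, map_add]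
  lie_self x := by
    change br κ _ _ = 0
    have h := br_skew κ hk.out ((mk' κ).symm x).1 ((mk' κ).symm x).1
    rw [eq_neg_iff_add_eq_zero, ← two_smul ℂ] at h
    rcases smul_eq_zero.1 h with h1 | h1
    · exact absurd h1 two_ne_zero
    · exact h1
  leibniz_lie x y z := by
    change br κ _ _ = br κ _ _ + br κ _ _
    exact br_jac κ hk.out _ _ _

theorem lie_def (x y : Bh κ) : ⁅x, y⁆ = br κ ((mk' κ).symm x).1 ((mk' κ).symm y).1 := rfl

instance : LieAlgebra ℂ (Bh κ) where
  lie_smul c x y := by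
    rw [lie_def, lie_def, map_smul, Prod.smul_fst, map_smul]

/-- The letters. -/
def io (m : ℤ) : B →ₗ[ℂ] Bh κ :=
  (mk' κ).toLinearMap ∘ₗ LinearMap.inl ℂ (ℤ →₀ B) ℂ ∘ₗ Finsupp.lsingle m

theorem io_apply (m : ℤ) (a : B) : io κ m a = mk' κ (Finsupp.single m a, 0) := rfl

/-- The central element. -/
def cen : Bh κ := mk' κ (0, 1)

theorem lie_io (m n : ℤ) (a b : B) :
    ⁅io κ m a, io κ n b⁆ = io κ (m + n) ⁅a, b⁆ + coc κ m n a b • cen κ := by
  rw [lie_def, io_apply, io_apply, LinearEquiv.symm_apply_apply, LinearEquiv.symm_apply_apply,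
    br_single, io_apply, cen, ← map_smul, ← map_add, Prod.smul_mk, Prod.mk_add_mk, smul_zero,
    add_zero, smul_eq_mul, mul_one, zero_add]

theorem lie_cen (x : Bh κ) : ⁅x, cen κ⁆ = 0 := by
  rw [lie_def, cen, LinearEquiv.symm_apply_apply, map_zero]

/-! ### the subalgebra -/

variable {N : Type} [AddCommGroup N] [Module ℂ N] (T : TMod B N)

/-- the embedding of the nonnegative part -/
def pos : (ℕ →₀ B) →ₗ[ℂ] (ℤ →₀ B) := Finsupp.lmapDomain B ℂ (fun n : ℕ => (n : ℤ))

theorem pos_single (n : ℕ) (a : B) : pos (Finsupp.single n a) = Finsupp.single (n : ℤ) a := by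
  unfold pos
  rw [Finsupp.lmapDomain_apply, Finsupp.mapDomain_single]

/-- the negative part -/
def neg : (ℕ →₀ B) →ₗ[ℂ] (ℤ →₀ B) := Finsupp.lmapDomain B ℂ (fun n : ℕ => -(n : ℤ) - 1)

theorem neg_single (n : ℕ) (a : B) : neg (Finsupp.single n a) = Finsupp.single (-(n : ℤ) - 1) a := by
  unfold neg
  rw [Finsupp.lmapDomain_apply, Finsupp.mapDomain_single]

/-- the embedding of the nonnegative part and the centre -/
def jj : ((ℕ →₀ B) × ℂ) →ₗ[ℂ] Bh κ :=
  (mk' κ).toLinearMap ∘ₗ LinearMap.prodMap pos LinearMap.id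

theorem jj_apply (x : ℕ →₀ B) (c : ℂ) : jj κ (x, c) = mk' κ (pos x, c) := rfl

theorem pos_apply_nat (x : ℕ →₀ B) (n : ℕ) : pos x (n : ℤ) = x n := by
  unfold pos
  rw [Finsupp.lmapDomain_apply]
  exact Finsupp.mapDomain_apply (fun a b h => by exact_mod_cast h) x n

theorem pos_apply_neg (x : ℕ →₀ B) (n : ℕ) : pos x (-(n : ℤ) - 1) = 0 := by
  unfold pos
  rw [Finsupp.lmapDomain_apply]
  refine Finsupp.mapDomain_of_notMem_range _ _ ?_
  rintro ⟨k, hk⟩
  have : (k : ℤ) = -(n : ℤ) - 1 := hk
  omega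

theorem neg_apply_neg (x : ℕ →₀ B) (n : ℕ) : neg x (-(n : ℤ) - 1) = x n := by
  unfold neg
  rw [Finsupp.lmapDomain_apply]
  exact Finsupp.mapDomain_apply (f := fun n : ℕ => -(n : ℤ) - 1) (fun a b h => by
    have h1 : -(a : ℤ) - 1 = -(b : ℤ) - 1 := h
    omega) x n

theorem neg_apply_nat (x : ℕ →₀ B) (n : ℕ) : neg x (n : ℤ) = 0 := by
  unfold neg
  rw [Finsupp.lmapDomain_apply]
  refine Finsupp.mapDomain_of_notMem_range _ _ ?_
  rintro ⟨k, hk⟩
  have : -(k : ℤ) - 1 = (n : ℤ) := hk
  omega

/-- the bracket of the nonnegative part, with the action on `N` -/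
theorem key (x y : ℕ →₀ B) : ∃ z : ℕ →₀ B, br κ (pos x) (pos y) = jj κ (z, 0) ∧
    Finsupp.lsum ℂ T.act z = (Finsupp.lsum ℂ T.act x) ∘ₗ (Finsupp.lsum ℂ T.act y) -
      (Finsupp.lsum ℂ T.act y) ∘ₗ (Finsupp.lsum ℂ T.act x) := by
  induction x using Finsupp.induction_linear with
  | zero =>
    refine ⟨0, ?_, ?_⟩
    · rw [map_zero, map_zero, LinearMap.zero_apply, ← Prod.zero_eq_mk, map_zero]
    · rw [map_zero, LinearMap.zero_comp, LinearMap.comp_zero, sub_zero]
  | add x x' hx hx' =>
    obtain ⟨z, h1, h2⟩ := hx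
    obtain ⟨z', h1', h2'⟩ := hx'
    refine ⟨z + z', ?_, ?_⟩
    · rw [map_add, map_add, LinearMap.add_apply, h1, h1', ← map_add, Prod.mk_add_mk, add_zero]
    · rw [map_add, map_add, h2, h2', LinearMap.add_comp, LinearMap.comp_add]
      abel
  | single m a =>
    induction y using Finsupp.induction_linear with
    | zero =>
      refine ⟨0, ?_, ?_⟩
      · rw [map_zero, map_zero, ← Prod.zero_eq_mk, map_zero]
      · rw [map_zero, LinearMap.zero_comp, LinearMap.comp_zero, sub_zero]
    | add y y' hy hy' =>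
      obtain ⟨z, h1, h2⟩ := hy
      obtain ⟨z', h1', h2'⟩ := hy'
      refine ⟨z + z', ?_, ?_⟩
      · rw [map_add, map_add, h1, h1', ← map_add, Prod.mk_add_mk, add_zero]
      · rw [map_add, map_add, h2, h2', LinearMap.add_comp, LinearMap.comp_add]
        abel
    | single n b =>
      refine ⟨Finsupp.single (m + n) ⁅a, b⁆, ?_, ?_⟩
      · rw [pos_single, pos_single, br_single, jj_apply, pos_single]
        congr 2
        unfold coc
        split_ifs with h
        · have h1 : m = 0 := by omega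
          rw [h1]
          simp
        · rfl
      · rw [Finsupp.lsum_single, Finsupp.lsum_single, Finsupp.lsum_single]
        refine LinearMap.ext fun v => ?_
        rw [LinearMap.sub_apply, LinearMap.comp_apply, LinearMap.comp_apply, T.comm]

/-- The subalgebra of the nonnegative part and the centre. -/
def PP : LieSubalgebra ℂ (Bh κ) where
  toSubmodule := LinearMap.range (jj κ)
  lie_mem' := by
    rintro _ _ ⟨⟨x, c⟩, rfl⟩ ⟨⟨y, d⟩, rfl⟩
    obtain ⟨z, h1, -⟩ := key κ (N := PUnit) ⟨0, by intros; rfl, fun v => ⟨0, fun _ _ _ => rfl⟩⟩ x y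
    exact ⟨(z, 0), h1.symm⟩

/-- the parametrization of the subalgebra -/
def jP : ((ℕ →₀ B) × ℂ) →ₗ[ℂ] PP κ where
  toFun x := ⟨jj κ x, ⟨x, rfl⟩⟩
  map_add' x y := Subtype.ext (map_add _ _ _)
  map_smul' c x := Subtype.ext (map_smul _ _ _)

theorem jP_coe (x : (ℕ →₀ B) × ℂ) : ((jP κ x : PP κ) : Bh κ) = jj κ x := rfl

theorem jj_inj : Function.Injective (jj κ) := by
  rintro ⟨x, c⟩ ⟨y, d⟩ h
  rw [jj_apply, jj_apply] at h
  have h1 := (mk' κ).injective h
  rw [Prod.mk.injEq] at h1
  obtain ⟨h2, h3⟩ := h1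
  rw [h3]
  congr 1
  refine Finsupp.ext fun n => ?_
  rw [← pos_apply_nat x n, ← pos_apply_nat y n, h2]

/-- the parametrization of the subalgebra -/
def eP : ((ℕ →₀ B) × ℂ) ≃ₗ[ℂ] PP κ := LinearEquiv.ofBijective (jP κ) (by
  constructor
  · intro x y h
    exact jj_inj κ (congrArg Subtype.val h)
  · rintro ⟨_, ⟨x, rfl⟩⟩
    exact ⟨x, rfl⟩)

theorem eP_coe (x : (ℕ →₀ B) × ℂ) : ((eP κ x : PP κ) : Bh κ) = jj κ x := rfl

/-- the representation of the subalgebra, on the parameters -/
def r0 : ((ℕ →₀ B) × ℂ) →ₗ[ℂ] Module.End ℂ N :=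
  LinearMap.coprod (Finsupp.lsum ℂ T.act) (LinearMap.toSpanSingleton ℂ _ (1 : Module.End ℂ N))

theorem r0_apply (x : ℕ →₀ B) (c : ℂ) : r0 T (x, c) = Finsupp.lsum ℂ T.act x +
    c • (1 : Module.End ℂ N) := by
  unfold r0
  rw [LinearMap.coprod_apply, LinearMap.toSpanSingleton_apply]

attribute [local instance 100] LieRing.ofAssociativeRing

/-- The representation of the subalgebra. -/
def rho : PP κ →ₗ⁅ℂ⁆ Module.End ℂ N :=
  { (r0 T) ∘ₗ (eP κ).symm.toLinearMap with
    map_lie' := by
      intro p q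
      obtain ⟨⟨x, c⟩, rfl⟩ := (eP κ).surjective p
      obtain ⟨⟨y, d⟩, rfl⟩ := (eP κ).surjective q
      obtain ⟨z, h1, h2⟩ := key κ T x y
      have h3 : ⁅eP κ (x, c), eP κ (y, d)⁆ = eP κ (z, 0) := Subtype.ext h1
      change r0 T ((eP κ).symm _) = ⁅r0 T ((eP κ).symm _), r0 T ((eP κ).symm _)⁆
      rw [h3, LinearEquiv.symm_apply_apply, LinearEquiv.symm_apply_apply,
        LinearEquiv.symm_apply_apply, r0_apply, r0_apply, r0_apply, h2, zero_smul, add_zero]
      rw [LieRing.of_associative_ring_bracket]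
      refine LinearMap.ext fun v => ?_
      simp only [LinearMap.sub_apply, LinearMap.comp_apply, LinearMap.add_apply,
        LinearMap.smul_apply, Module.End.mul_apply, Module.End.one_apply, map_add, map_smul,
        smul_add]
      rw [smul_comm d c v]
      abel }

theorem rho_eP (x : ℕ →₀ B) (c : ℂ) : rho κ T (eP κ (x, c)) =
    Finsupp.lsum ℂ T.act x + c • (1 : Module.End ℂ N) := by
  change r0 T ((eP κ).symm _) = _
  rw [LinearEquiv.symm_apply_apply, r0_apply]

/-! ### the bases -/

variable {La : Type} (b : Module.Basis La ℂ B)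

/-- the index set of the basis of the subalgebra -/
def Mu (La : Type) : Type := (ℕ × La) ⊕ Unit

/-- the basis of the half loops -/
def bN : Module.Basis (ℕ × La) ℂ (ℕ →₀ B) :=
  (Finsupp.basis fun _ : ℕ => b).reindex (Equiv.sigmaEquivProd ℕ La)

theorem bN_apply (s : ℕ) (i : La) : bN b (s, i) = Finsupp.single s (b i) := by
  unfold bN
  rw [Module.Basis.reindex_apply, Finsupp.coe_basis]
  rfl

/-- the basis of the parameters of the subalgebra -/
def bM : Module.Basis (Mu La) ℂ ((ℕ →₀ B) × ℂ) := (bN b).prod (Module.Basis.singleton Unit ℂ)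

/-- the basis of the subalgebra -/
def bP : Module.Basis (Mu La) ℂ (PP κ) := (bM b).map (eP κ)

/-- the splitting of the affinization -/
def sp0 : ((ℕ →₀ B) × ((ℕ →₀ B) × ℂ)) →ₗ[ℂ] Bh κ :=
  LinearMap.coprod ((mk' κ).toLinearMap ∘ₗ LinearMap.inl ℂ (ℤ →₀ B) ℂ ∘ₗ neg) (jj κ)

theorem sp0_apply (x y : ℕ →₀ B) (c : ℂ) : sp0 κ (x, (y, c)) = mk' κ (neg x + pos y, c) := by
  unfold sp0
  rw [LinearMap.coprod_apply, jj_apply]
  change mk' κ (neg x, 0) + mk' κ (pos y, c) = _
  rw [← map_add, Prod.mk_add_mk, zero_add]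

theorem sp0_inj : Function.Injective (sp0 κ) := by
  rw [← LinearMap.ker_eq_bot, LinearMap.ker_eq_bot']
  rintro ⟨x, y, c⟩ h
  rw [sp0_apply] at h
  have h1 := (mk' κ).map_eq_zero_iff.1 h
  rw [Prod.mk_eq_zero] at h1
  obtain ⟨h2, h3⟩ := h1
  have h4 : x = 0 := by
    refine Finsupp.ext fun n => ?_
    have h5 := DFunLike.congr_fun h2 (-(n : ℤ) - 1)
    rw [Finsupp.add_apply, neg_apply_neg, pos_apply_neg, add_zero] at h5
    exact h5
  have h5 : y = 0 := by
    refine Finsupp.ext fun n => ?_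
    have h5 := DFunLike.congr_fun h2 (n : ℤ)
    rw [Finsupp.add_apply, neg_apply_nat, pos_apply_nat, zero_add] at h5
    exact h5
  rw [h3, h4, h5]
  rfl

theorem sp0_surj : Function.Surjective (sp0 κ) := by
  intro u
  obtain ⟨⟨f, c⟩, rfl⟩ := (mk' κ).surjective u
  suffices h : ∃ x y : ℕ →₀ B, neg x + pos y = f by
    obtain ⟨x, y, rfl⟩ := h
    exact ⟨(x, (y, c)), sp0_apply κ x y c⟩
  induction f using Finsupp.induction_linear with
  | zero => exact ⟨0, 0, by rw [map_zero, map_zero, add_zero]⟩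
  | add f g hf hg =>
    obtain ⟨x, y, rfl⟩ := hf
    obtain ⟨x', y', rfl⟩ := hg
    refine ⟨x + x', y + y', ?_⟩
    rw [map_add, map_add]
    abel
  | single m a =>
    rcases lt_or_ge m 0 with h | h
    · obtain ⟨k, hk⟩ := Int.eq_ofNat_of_zero_le (show 0 ≤ -m - 1 by omega)
      refine ⟨Finsupp.single k a, 0, ?_⟩
      rw [map_zero, add_zero, neg_single]
      congr 1
      omega
    · obtain ⟨k, rfl⟩ := Int.eq_ofNat_of_zero_le h
      refine ⟨0, Finsupp.single k a, ?_⟩
      rw [map_zero, zero_add, pos_single]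

/-- the splitting of the affinization -/
def spl : ((ℕ →₀ B) × ((ℕ →₀ B) × ℂ)) ≃ₗ[ℂ] Bh κ :=
  LinearEquiv.ofBijective (sp0 κ) ⟨sp0_inj κ, sp0_surj κ⟩

theorem spl_apply (x : (ℕ →₀ B) × ((ℕ →₀ B) × ℂ)) : spl κ x = sp0 κ x := rfl

variable {K : Type} (e : K ≃ ℕ × La)

/-- the basis of the affinization -/
def bB : Module.Basis (K ⊕ₗ Mu La) ℂ (Bh κ) :=
  ((((bN b).reindex e.symm).prod (bM b)).map (spl κ)).reindex toLex

theorem bB_inl (i : K) : bB κ b e (toLex (Sum.inl i)) = io κ (-((e i).1 : ℤ) - 1) (b (e i).2) := by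
  unfold bB
  rw [Module.Basis.reindex_apply, Module.Basis.map_apply]
  change spl κ (((bN b).reindex e.symm).prod (bM b) (Sum.inl i)) = _
  have h : ((bN b).reindex e.symm).prod (bM b) (Sum.inl i) =
      (Finsupp.single (e i).1 (b (e i).2), (0, 0)) := by
    rw [Prod.ext_iff]
    refine ⟨?_, ?_⟩
    · rw [Module.Basis.prod_apply_inl_fst, Module.Basis.reindex_apply, Equiv.symm_symm]
      exact bN_apply b (e i).1 (e i).2
    · exact Module.Basis.prod_apply_inl_snd _ _ _
  rw [h, spl_apply, sp0_apply, map_zero, add_zero, neg_single]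
  rfl

theorem bB_inr (j : Mu La) : bB κ b e (toLex (Sum.inr j)) = (bP κ b j : Bh κ) := by
  unfold bB bP
  rw [Module.Basis.reindex_apply, Module.Basis.map_apply, Module.Basis.map_apply, eP_coe]
  change spl κ (((bN b).reindex e.symm).prod (bM b) (Sum.inr j)) = _
  have h : ((bN b).reindex e.symm).prod (bM b) (Sum.inr j) = (0, bM b j) := by
    rw [Prod.ext_iff]
    exact ⟨Module.Basis.prod_apply_inr_fst _ _ _, Module.Basis.prod_apply_inr_snd _ _ _⟩
  rw [h, spl_apply]
  unfold sp0
  rw [LinearMap.coprod_apply, map_zero, zero_add]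

/-! ### the induced representation -/

variable [LinearOrder K] [LinearOrder (Mu La)]

/-- the induced representation of the affinization -/
def iR : Bh κ →ₗ⁅ℂ⁆ Module.End ℂ (SL K →₀ N) :=
  indRep (bB κ b e) (bP κ b) (bB_inr κ b e) (rho κ T)

theorem iR_inc (x : ℕ →₀ B) (c : ℂ) (v : N) :
    iR κ T b e (jj κ (x, c)) (inc (La := K) (K := ℂ) v) =
      inc (La := K) (K := ℂ) (Finsupp.lsum ℂ T.act x v + c • v) := by
  have h := indRep_inc (bB κ b e) (bP κ b) (bB_inr κ b e) (rho κ T) (eP κ (x, c)) v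
  rw [rho_eP] at h
  exact h

theorem iR_mon (w : SL K) (v : N) :
    (w.1.map fun i => iR κ T b e (bB κ b e (toLex (Sum.inl i)))).prod
      (inc (La := K) (K := ℂ) v) = Finsupp.single w v :=
  indRep_mon (bB κ b e) (bP κ b) (bB_inr κ b e) (rho κ T) w v

/-- the central element acts by `1` -/
theorem iR_cen : iR κ T b e (cen κ) = 1 := by
  have hcomm : ∀ x : Bh κ, ∀ m : SL K →₀ N,
      iR κ T b e x (iR κ T b e (cen κ) m) = iR κ T b e (cen κ) (iR κ T b e x m) := by
    intro x m
    have h := (iR κ T b e).map_lie x (cen κ)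
    rw [lie_cen, map_zero, LieRing.of_associative_ring_bracket, eq_comm, sub_eq_zero] at h
    exact LinearMap.congr_fun h m
  have h0 : ∀ v : N, iR κ T b e (cen κ) (inc (La := K) (K := ℂ) v) =
      inc (La := K) (K := ℂ) v := by
    intro v
    have h := iR_inc κ T b e 0 1 v
    rw [map_zero, LinearMap.zero_apply, zero_add, one_smul, jj_apply, map_zero] at h
    exact h
  refine Finsupp.lhom_ext fun w v => ?_
  rw [← iR_mon κ T b e w v]
  have h2 : ∀ l : List K, ∀ m : SL K →₀ N, iR κ T b e (cen κ) m = m →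
      iR κ T b e (cen κ) ((l.map fun i => iR κ T b e (bB κ b e (toLex (Sum.inl i)))).prod m) =
        (l.map fun i => iR κ T b e (bB κ b e (toLex (Sum.inl i)))).prod m := by
    intro l
    induction l with
    | nil =>
      intro m hm
      rw [List.map_nil, List.prod_nil, Module.End.one_apply, hm]
    | cons i l ih =>
      intro m hm
      rw [List.map_cons, List.prod_cons, Module.End.mul_apply, ← hcomm, ih m hm]
  rw [h2 w.1 _ (h0 v)]
  rfl

/-- the module structure -/
def XX : BMod κ (SL K →₀ N) where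
  J := fun m => (iR κ T b e).toLinearMap ∘ₗ io κ m
  comm := by
    intro m n a c x
    change iR κ T b e (io κ m a) (iR κ T b e (io κ n c) x) -
      iR κ T b e (io κ n c) (iR κ T b e (io κ m a) x) = iR κ T b e (io κ (m + n) ⁅a, c⁆) x +
        coc κ m n a c • x
    have h := (iR κ T b e).map_lie (io κ m a) (io κ n c)
    rw [lie_io, map_add, map_smul, iR_cen, LieRing.of_associative_ring_bracket] at h
    have h2 := LinearMap.congr_fun h x
    exact h2.symm

theorem XX_J (m : ℤ) (a : B) (x : SL K →₀ N) : (XX κ T b e).J m a x = iR κ T b e (io κ m a) x :=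
  rfl

theorem XX_inc (m : ℕ) (a : B) (v : N) : (XX κ T b e).J (m : ℤ) a (inc (La := K) (K := ℂ) v) =
    inc (La := K) (K := ℂ) (T.act m a v) := by
  have h := iR_inc κ T b e (Finsupp.single m a) 0 v
  rw [jj_apply, pos_single, zero_smul, add_zero, Finsupp.lsum_single] at h
  exact h

/-- the map to the coordinates -/
def GG : Ind κ T →ₗ[ℂ] (SL K →₀ N) :=
  Ind.lift (XX κ T b e) (inc (La := K) (K := ℂ)) (XX_inc κ T b e)

end PB

variable {B : Type} [LieRing B] [LieAlgebra ℂ B] (κ : B →ₗ[ℂ] B →ₗ[ℂ] ℂ)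
variable {N : Type} [AddCommGroup N] [Module ℂ N] (T : TMod B N)
variable {La : Type} (b : Module.Basis La ℂ B)

/-- the word with the letters `(s, i) ↦ J (-s-1) (b i)` applied to `N` -/
def Ind.wordB : List (ℕ × La) → (N →ₗ[ℂ] Ind κ T)
  | [] => Ind.incl κ T
  | p :: l => (Ind.mod κ T).J (-(p.1 : ℤ) - 1) (b p.2) ∘ₗ Ind.wordB l

/-- the map of the ordered words -/
def Ind.sortedMapB {K : Type} [LinearOrder K] (e : K ≃ ℕ × La) : (SL K →₀ N) →ₗ[ℂ] Ind κ T :=
  Finsupp.lsum ℂ fun w : SL K => Ind.wordB κ T b (w.1.map e)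

namespace PB

variable [hk : Fact (IsInvForm κ)]
variable {K : Type} (e : K ≃ ℕ × La)
variable [LinearOrder K] [LinearOrder (Mu La)]

attribute [local instance 100] LieRing.ofAssociativeRing

theorem GG_word (l : List K) (v : N) : GG κ T b e (Ind.wordB κ T b (l.map e) v) =
    (l.map fun i => iR κ T b e (bB κ b e (toLex (Sum.inl i)))).prod
      (inc (La := K) (K := ℂ) v) := by
  induction l with
  | nil =>
    rw [List.map_nil, List.map_nil, List.prod_nil, Module.End.one_apply]
    exact Ind.lift_incl _ v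
  | cons i l ih =>
    rw [List.map_cons, List.map_cons, List.prod_cons, Module.End.mul_apply, ← ih, bB_inl]
    exact Ind.lift_J (XX_inc κ T b e) _ _ _

theorem GG_sortedMap (x : SL K →₀ N) : GG κ T b e (Ind.sortedMapB κ T b e x) = x := by
  have h : GG κ T b e ∘ₗ Ind.sortedMapB κ T b e = LinearMap.id := by
    refine Finsupp.lhom_ext fun w v => ?_
    rw [LinearMap.comp_apply, LinearMap.id_apply]
    unfold Ind.sortedMapB
    rw [Finsupp.lsum_single, GG_word, iR_mon]
  exact LinearMap.congr_fun h x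

/-! ### surjectivity -/

/-- the representation of the affinization on the induced module -/
def s0 : Bh κ →ₗ[ℂ] Module.End ℂ (Ind κ T) :=
  LinearMap.coprod (Finsupp.lsum ℂ (Ind.mod κ T).J)
    (LinearMap.toSpanSingleton ℂ _ (1 : Module.End ℂ (Ind κ T))) ∘ₗ (mk' κ).symm.toLinearMap

theorem s0_apply (x : ℤ →₀ B) (c : ℂ) : s0 κ T (mk' κ (x, c)) =
    Finsupp.lsum ℂ (Ind.mod κ T).J x + c • (1 : Module.End ℂ (Ind κ T)) := by
  unfold s0
  rw [LinearMap.comp_apply, LinearEquiv.coe_coe, LinearEquiv.symm_apply_apply,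
    LinearMap.coprod_apply, LinearMap.toSpanSingleton_apply]

theorem s0_br (x y : ℤ →₀ B) : s0 κ T (br κ x y) =
    (Finsupp.lsum ℂ (Ind.mod κ T).J x) ∘ₗ (Finsupp.lsum ℂ (Ind.mod κ T).J y) -
      (Finsupp.lsum ℂ (Ind.mod κ T).J y) ∘ₗ (Finsupp.lsum ℂ (Ind.mod κ T).J x) := by
  induction x using Finsupp.induction_linear with
  | zero =>
    rw [map_zero, LinearMap.zero_apply, map_zero, map_zero, LinearMap.zero_comp,
      LinearMap.comp_zero, sub_zero]
  | add x x' hx hx' =>
    rw [map_add, LinearMap.add_apply, map_add, hx, hx', map_add, LinearMap.add_comp,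
      LinearMap.comp_add]
    abel
  | single m a =>
    induction y using Finsupp.induction_linear with
    | zero =>
      rw [map_zero, map_zero, map_zero, LinearMap.zero_comp, LinearMap.comp_zero, sub_zero]
    | add y y' hy hy' =>
      rw [map_add, map_add, hy, hy', map_add, LinearMap.add_comp, LinearMap.comp_add]
      abel
    | single n c =>
      rw [br_single, s0_apply, Finsupp.lsum_single, Finsupp.lsum_single, Finsupp.lsum_single]
      refine LinearMap.ext fun u => ?_
      rw [LinearMap.sub_apply, LinearMap.comp_apply, LinearMap.comp_apply,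
        (Ind.mod κ T).comm m n a c u]
      rfl

/-- the representation of the affinization on the induced module -/
def sig : Bh κ →ₗ⁅ℂ⁆ Module.End ℂ (Ind κ T) :=
  { s0 κ T with
    map_lie' := by
      intro p q
      obtain ⟨⟨x, c⟩, rfl⟩ := (mk' κ).surjective p
      obtain ⟨⟨y, d⟩, rfl⟩ := (mk' κ).surjective q
      change s0 κ T (br κ x y) = ⁅s0 κ T _, s0 κ T _⁆
      rw [s0_br, s0_apply, s0_apply, LieRing.of_associative_ring_bracket]
      refine LinearMap.ext fun v => ?_
      simp only [LinearMap.sub_apply, LinearMap.comp_apply, LinearMap.add_apply,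
        LinearMap.smul_apply, Module.End.mul_apply, Module.End.one_apply, map_add, map_smul,
        smul_add]
      rw [smul_comm d c v]
      abel }

theorem sig_apply (x : ℤ →₀ B) (c : ℂ) (u : Ind κ T) : sig κ T (mk' κ (x, c)) u =
    Finsupp.lsum ℂ (Ind.mod κ T).J x u + c • u := by
  change s0 κ T (mk' κ (x, c)) u = _
  rw [s0_apply]
  rfl

theorem sig_io (m : ℤ) (a : B) (u : Ind κ T) : sig κ T (io κ m a) u = (Ind.mod κ T).J m a u := by
  rw [io_apply, sig_apply, Finsupp.lsum_single, zero_smul, add_zero]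

theorem sig_incl (p : PP κ) (v : N) : Ind.incl κ T (rho κ T p v) =
    sig κ T (p : Bh κ) (Ind.incl κ T v) := by
  obtain ⟨⟨x, c⟩, rfl⟩ := (eP κ).surjective p
  rw [rho_eP, eP_coe, jj_apply, sig_apply, LinearMap.add_apply, map_add, LinearMap.smul_apply,
    Module.End.one_apply, map_smul]
  congr 1
  induction x using Finsupp.induction_linear with
  | zero => rw [map_zero, map_zero, map_zero, LinearMap.zero_apply, LinearMap.zero_apply, map_zero]
  | add x x' hx hx' =>
    rw [map_add, map_add, map_add, LinearMap.add_apply, LinearMap.add_apply, map_add, hx, hx']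
  | single m a =>
    rw [Finsupp.lsum_single, pos_single, Finsupp.lsum_single, Ind.J_incl]

theorem sig_word (l : List K) (v : N) :
    sigU (sig κ T) (nm (bB κ b e) l) (Ind.incl κ T v) = Ind.wordB κ T b (l.map e) v := by
  induction l with
  | nil => rw [nm_nil, map_one, Module.End.one_apply]; rfl
  | cons i l ih =>
    rw [nm_cons, map_mul, Module.End.mul_apply, sigU_ι, ih, bB_inl, sig_io]
    rfl

theorem ext_eq : ext (bB κ b e) (sig κ T) (Ind.incl κ T) = Ind.sortedMapB κ T b e := by
  refine Finsupp.lhom_ext fun w v => ?_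
  rw [ext_single, sig_word]
  unfold Ind.sortedMapB
  rw [Finsupp.lsum_single]

theorem sortedMap_surj : Function.Surjective (Ind.sortedMapB κ T b e) := by
  rw [← LinearMap.range_eq_top]
  rw [eq_top_iff]
  intro u _
  refine Ind.induction_sub (LinearMap.range (Ind.sortedMapB κ T b e)) ?_ ?_ u
  · intro v
    refine ⟨inc (La := K) (K := ℂ) v, ?_⟩
    rw [← ext_eq, ext_inc]
  · rintro m a _ ⟨x, rfl⟩
    refine ⟨iR κ T b e (io κ m a) x, ?_⟩
    rw [← ext_eq, ← sig_io]
    exact ext_indRep (bB κ b e) (bP κ b) (bB_inr κ b e) (rho κ T) (sig κ T) (Ind.incl κ T)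
      (sig_incl κ T) (io κ m a) x

theorem sortedMap_inj : Function.Injective (Ind.sortedMapB κ T b e) :=
  Function.LeftInverse.injective (GG_sortedMap κ T b e)

end PB

/-- **PBW for the induced modules.** -/
theorem Ind.sortedMapB_bijective (hk : IsInvForm κ) {K : Type} [LinearOrder K] (e : K ≃ ℕ × La) :
    Function.Bijective (Ind.sortedMapB κ T b e) := by
  have : Fact (IsInvForm κ) := ⟨hk⟩
  obtain ⟨inst, -⟩ := exists_wellFoundedLT (PB.Mu La)
  exact ⟨PB.sortedMap_inj κ T b e, PB.sortedMap_surj κ T b e⟩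

end

end WPE
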