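import Pool.Agent.WPE.IND3
import Pool.Agent.WPE.PBW

/-! WPE, block IN: PBW, the form used in block KO. -/

namespace WPE

noncomputable section

variable {B : Type} [LieRing B] [LieAlgebra ℂ B] {κ : B →ₗ[ℂ] B →ₗ[ℂ] ℂ}
variable {N : Type} [AddCommGroup N] [Module ℂ N] {T : TMod B N}
variable {La : Type} (b : Module.Basis La ℂ B)

theorem Ind.wordB_eq (l : List (ℕ × La)) :
    Ind.wordB κ T b l = Ind.word (κ := κ) (T := T) (fun i => b i) l := by
  induction l with
  | nil => rfl
  | cons p l ih =>
    show (Ind.mod κ T).J (-(p.1 : ℤ) - 1) (b p.2) ∘ₗ Ind.wordB κ T b l = _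
    rw [ih]
    rfl

theorem Ind.sortedMapB_single {K : Type} [LinearOrder K] (e : K ≃ ℕ × La) (w : SL K) (v : N) :
    Ind.sortedMapB κ T b e (Finsupp.single w v) =
      Ind.word (κ := κ) (T := T) (fun i => b i) (w.1.map e) v := by
  unfold Ind.sortedMapB
  rw [Finsupp.lsum_single, Ind.wordB_eq]

/-- The ordered monomials applied to a basis of `N` are linearly independent. -/
theorem Ind.sorted_linearIndependent (hk : IsInvForm κ) {K : Type} [LinearOrder K]
    (e : K ≃ ℕ × La) {I : Type} {x : I → N} (hx : LinearIndependent ℂ x) :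
    LinearIndependent ℂ (fun p : SL K × I =>
      Ind.word (κ := κ) (T := T) (fun i => b i) (p.1.1.map e) (x p.2)) := by
  have h1 := (Ind.sortedMapB_bijective κ T b hk e).1
  have h2 : LinearIndependent ℂ (fun p : SL K × I =>
      (Finsupp.single p.1 (x p.2) : SL K →₀ N)) := by
    have h3 := Finsupp.linearIndependent_single (R := ℂ) (φ := fun _ : SL K => I)
      (f := fun _ => x) (fun _ => hx)
    exact h3.comp (Equiv.sigmaEquivProd (SL K) I).symm (Equiv.injective _)
  have h4 := h2.map' (Ind.sortedMapB κ T b e) (LinearMap.ker_eq_bot.2 h1)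
  have h5 : (fun p : SL K × I => Ind.word (κ := κ) (T := T) (fun i => b i) (p.1.1.map e) (x p.2)) =
      (Ind.sortedMapB κ T b e) ∘ (fun p : SL K × I => (Finsupp.single p.1 (x p.2) : SL K →₀ N)) := by
    funext p
    exact (Ind.sortedMapB_single b e p.1 (x p.2)).symm
  rw [h5]
  exact h4

/-- The ordered monomials applied to a spanning family of `N` span. -/
theorem Ind.sorted_span (hk : IsInvForm κ) {K : Type} [LinearOrder K]
    (e : K ≃ ℕ × La) {I : Type} {x : I → N} (hx : Submodule.span ℂ (Set.range x) = ⊤) :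
    Submodule.span ℂ (Set.range fun p : SL K × I =>
      Ind.word (κ := κ) (T := T) (fun i => b i) (p.1.1.map e) (x p.2)) = ⊤ := by
  rw [Submodule.eq_top_iff']
  intro u
  obtain ⟨f, rfl⟩ := (Ind.sortedMapB_bijective κ T b hk e).2 u
  induction f using Finsupp.induction_linear with
  | zero => rw [map_zero]; exact zero_mem _
  | add f g hf hg => rw [map_add]; exact add_mem hf hg
  | single w v =>
    rw [Ind.sortedMapB_single]
    have h1 : v ∈ Submodule.span ℂ (Set.range x) := by rw [hx]; trivial
    induction h1 using Submodule.span_induction with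
    | mem v hv =>
      obtain ⟨i, rfl⟩ := hv
      exact Submodule.subset_span ⟨(w, i), rfl⟩
    | zero => rw [map_zero]; exact zero_mem _
    | add v v' _ _ h h' => rw [map_add]; exact add_mem h h'
    | smul c v _ h => rw [map_smul]; exact Submodule.smul_mem _ _ h

end

end WPE
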