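import Pool.Agent.WPE.FD13
import Pool.Agent.WPE.FD14
import Pool.Agent.WPE.FD5
import Pool.Agent.WPE.IND5
import Pool.Agent.WPE.PBW2

/-! WPE, blocks IN and FD: everything. -/
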