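import Pool.Agent.WPE.BR15
import Pool.Agent.WPE.BR16
import Pool.Agent.WPE.BR17
import Pool.Agent.WPE.BR18
import Pool.Agent.WPE.BR19
import Pool.Agent.WPE.BR9
import Pool.Agent.WPE.FDM

/-! WPE, block BR: everything. -/
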