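import Pool.Agent.WPE.PBW

/-! [WPE-CL0] PBW in the form used in block CL. -/

set_option autoImplicit false

namespace WPE

noncomputable section

variable {B : Type} [LieRing B] [LieAlgebra ℂ B] {κ : B →ₗ[ℂ] B →ₗ[ℂ] ℂ}
variable {N : Type} [AddCommGroup N] [Module ℂ N] {T : TMod B N}
variable {La : Type}

/-- The word with the letters `(s, i) ↦ J (-s-1) (b i)` applied to `N`. -/
def cword (κ : B →ₗ[ℂ] B →ₗ[ℂ] ℂ) (T : TMod B N) (b : Module.Basis La ℂ B) :
    List (ℕ × La) → (N →ₗ[ℂ] Ind κ T)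
  | [] => Ind.incl κ T
  | p :: l => (Ind.mod κ T).J (-(p.1 : ℤ) - 1) (b p.2) ∘ₗ cword κ T b l

theorem cword_eq (b : Module.Basis La ℂ B) (l : List (ℕ × La)) :
    cword κ T b l = Ind.wordB κ T b l := by
  induction l with
  | nil => rfl
  | cons p l ih =>
    show (Ind.mod κ T).J (-(p.1 : ℤ) - 1) (b p.2) ∘ₗ cword κ T b l = _
    rw [ih]
    rfl

/-- PBW. -/
theorem cl_pbw (hk : IsInvForm κ) (b : Module.Basis La ℂ B) :
    ∃ ord : LinearOrder (ℕ × La), Function.Bijective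
      (Finsupp.lsum ℂ fun w : {l : List (ℕ × La) // l.Pairwise ord.le} => cword κ T b w.1) := by
  classical
  obtain ⟨ord⟩ : Nonempty (LinearOrder (ℕ × La)) := ⟨linearOrderOfSTO (WellOrderingRel)⟩
  refine ⟨ord, ?_⟩
  have h := Ind.sortedMapB_bijective κ T b hk (K := ℕ × La) (Equiv.refl _)
  have e : (Finsupp.lsum ℂ fun w : {l : List (ℕ × La) // l.Pairwise ord.le} =>
      cword κ T b w.1) = Ind.sortedMapB κ T b (K := ℕ × La) (Equiv.refl _) := by
    refine Finsupp.lhom_ext fun w v => ?_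
    unfold Ind.sortedMapB
    rw [Finsupp.lsum_single, Finsupp.lsum_single, cword_eq]
    have h2 : (w.1.map (Equiv.refl (ℕ × La))) = w.1 := List.map_id _
    rw [h2]
  rw [e]
  exact h

end

end WPE
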