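import Pool.Agent.WPE.CL0

/-! [WPE-CL1] Characters: linear maps on induced modules which kill `J (-s-1)`, `s ≥ 1`, and are
multiplicative in `J (-1)`. -/

set_option autoImplicit false

namespace WPE

noncomputable section

variable {B : Type} [LieRing B] [LieAlgebra ℂ B] {κ : B →ₗ[ℂ] B →ₗ[ℂ] ℂ}
variable {N : Type} [AddCommGroup N] [Module ℂ N] {T : TMod B N}
variable {La : Type} (b : Module.Basis La ℂ B)
variable {R V : Type} [CommRing R] [Algebra ℂ R] [AddCommGroup V] [Module ℂ V] [Module R V]
  [IsScalarTower ℂ R V]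

/-- The value of the letter `(s, i)`. -/
def chL (lam : B →ₗ[ℂ] R) (x : ℕ × La) : R := if x.1 = 0 then lam (b x.2) else 0

/-- The letters. -/
def cJ (κ : B →ₗ[ℂ] B →ₗ[ℂ] ℂ) (T : TMod B N) (b : Module.Basis La ℂ B) (x : ℕ × La) :
    Ind κ T →ₗ[ℂ] Ind κ T :=
  (Ind.mod κ T).J (-(x.1 : ℤ) - 1) (b x.2)

/-- The word `l` applied to `y`. -/
def cW (κ : B →ₗ[ℂ] B →ₗ[ℂ] ℂ) (T : TMod B N) (b : Module.Basis La ℂ B) :
    List (ℕ × La) → Ind κ T → Ind κ T
  | [], y => y
  | x :: l, y => cJ κ T b x (cW κ T b l y)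

theorem cW_append (l l' : List (ℕ × La)) (y : Ind κ T) :
    cW κ T b (l ++ l') y = cW κ T b l (cW κ T b l' y) := by
  induction l with
  | nil => rfl
  | cons x l ih =>
    rw [List.cons_append]
    show cJ κ T b x (cW κ T b (l ++ l') y) = cJ κ T b x (cW κ T b l (cW κ T b l' y))
    rw [ih]

theorem cW_sub (l : List (ℕ × La)) (y z : Ind κ T) :
    cW κ T b l (y - z) = cW κ T b l y - cW κ T b l z := by
  induction l with
  | nil => rfl
  | cons x l ih =>
    show cJ κ T b x (cW κ T b l (y - z)) = cJ κ T b x (cW κ T b l y) - cJ κ T b x (cW κ T b l z)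
    rw [ih, map_sub]

theorem cW_sum {α : Type} (s : Finset α) (l : List (ℕ × La)) (y : α → Ind κ T) :
    cW κ T b l (∑ a ∈ s, y a) = ∑ a ∈ s, cW κ T b l (y a) := by
  induction l with
  | nil => rfl
  | cons x l ih =>
    show cJ κ T b x (cW κ T b l (∑ a ∈ s, y a)) = ∑ a ∈ s, cJ κ T b x (cW κ T b l (y a))
    rw [ih, map_sum]

theorem cW_smul (l : List (ℕ × La)) (c : ℂ) (y : Ind κ T) :
    cW κ T b l (c • y) = c • cW κ T b l y := by
  induction l with
  | nil => rfl
  | cons x l ih =>
    show cJ κ T b x (cW κ T b l (c • y)) = c • cJ κ T b x (cW κ T b l y)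
    rw [ih, map_smul]

theorem cW_word (l : List (ℕ × La)) (v : N) :
    cW κ T b l (Ind.incl κ T v) = cword κ T b l v := by
  induction l with
  | nil => rfl
  | cons x l ih =>
    show cJ κ T b x (cW κ T b l (Ind.incl κ T v)) = cJ κ T b x (cword κ T b l v)
    rw [ih]

/-- The commutator of two letters. -/
theorem cJ_comm (x y : ℕ × La) (z : Ind κ T) :
    cJ κ T b x (cJ κ T b y z) - cJ κ T b y (cJ κ T b x z) =
      ∑ k ∈ (b.repr ⁅b x.2, b y.2⁆).support,
        b.repr ⁅b x.2, b y.2⁆ k • cJ κ T b (x.1 + y.1 + 1, k) z := by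
  have h := (Ind.mod κ T).comm (-(x.1 : ℤ) - 1) (-(y.1 : ℤ) - 1) (b x.2) (b y.2) z
  have h0 : coc κ (-(x.1 : ℤ) - 1) (-(y.1 : ℤ) - 1) (b x.2) (b y.2) = 0 := by
    unfold coc
    rw [if_neg (by omega)]
  have h1 : (-(x.1 : ℤ) - 1) + (-(y.1 : ℤ) - 1) = -((x.1 + y.1 + 1 : ℕ) : ℤ) - 1 := by
    push_cast
    ring
  rw [h0, zero_smul, add_zero, h1] at h
  unfold cJ
  rw [h]
  conv_lhs => rw [← b.linearCombination_repr ⁅b x.2, b y.2⁆]
  rw [Finsupp.linearCombination_apply, Finsupp.sum, map_sum, LinearMap.sum_apply]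
  refine Finset.sum_congr rfl fun k _ => ?_
  rw [map_smul, LinearMap.smul_apply]

/-- The value of a word. -/
def chW (lam : B →ₗ[ℂ] R) (l : List (ℕ × La)) : R := (l.map (chL b lam)).prod

include b in
/-- Characters of induced modules (with a basis of `B`). -/
theorem exists_char_aux (hk : IsInvForm κ) (lam : B →ₗ[ℂ] R) (φ : N →ₗ[ℂ] V) :
    ∃ Φ : Ind κ T →ₗ[ℂ] V, (∀ v, Φ (Ind.incl κ T v) = φ v) ∧
      (∀ a x, Φ ((Ind.mod κ T).J (-1) a x) = lam a • Φ x) ∧
      ∀ (s : ℕ) a x, 1 ≤ s → Φ ((Ind.mod κ T).J (-(s : ℤ) - 1) a x) = 0 := by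
  classical
  -- a linear order on the letters
  obtain ⟨ord, hbij⟩ := cl_pbw (κ := κ) (T := T) hk b
  let _ := ord
  let S := LinearEquiv.ofBijective _ hbij
  let G : ({l : List (ℕ × La) // l.Pairwise (· ≤ ·)} →₀ N) →ₗ[ℂ] V :=
    Finsupp.lsum ℂ fun w => (LinearMap.lsmul R V (chW b lam w.1)).restrictScalars ℂ ∘ₗ φ
  let Φ : Ind κ T →ₗ[ℂ] V := G ∘ₗ S.symm.toLinearMap
  have hsort : ∀ (w : {l : List (ℕ × La) // l.Pairwise (· ≤ ·)}) (v : N), Φ (cword κ T b w.1 v) = chW b lam w.1 • φ v := by
    intro w v
    have h1 : S (Finsupp.single w v) = cword κ T b w.1 v := by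
      show (Finsupp.lsum ℂ _) (Finsupp.single w v) = _
      rw [Finsupp.lsum_single]
    rw [← h1]
    show G (S.symm (S (Finsupp.single w v))) = _
    rw [S.symm_apply_apply]
    show (Finsupp.lsum ℂ _) (Finsupp.single w v) = _
    rw [Finsupp.lsum_single]
    rfl
  have key : ∀ (n : ℕ) (l : List (ℕ × La)), l.length = n → ∀ v : N,
      Φ (cword κ T b l v) = chW b lam l • φ v := by
    intro n
    induction n using Nat.strong_induction_on with
    | _ n ih =>
      have swap : ∀ (l1 l2 : List (ℕ × La)) (x y : ℕ × La), (l1 ++ x :: y :: l2).length = n →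
          ∀ v, Φ (cword κ T b (l1 ++ x :: y :: l2) v) =
            Φ (cword κ T b (l1 ++ y :: x :: l2) v) := by
        intro l1 l2 x y hl v
        rw [← cW_word, ← cW_word, cW_append, cW_append, ← sub_eq_zero, ← map_sub, ← cW_sub]
        show Φ (cW κ T b l1 (cJ κ T b x (cJ κ T b y _) - cJ κ T b y (cJ κ T b x _))) = 0
        rw [cJ_comm, cW_sum, map_sum]
        refine Finset.sum_eq_zero fun k _ => ?_
        rw [cW_smul, map_smul]
        have h1 : cW κ T b l1 (cJ κ T b (x.1 + y.1 + 1, k) (cW κ T b l2 (Ind.incl κ T v))) =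
            cword κ T b (l1 ++ (x.1 + y.1 + 1, k) :: l2) v := by
          rw [← cW_word, cW_append]
          rfl
        rw [h1, ih (n - 1) (by
          rw [List.length_append, List.length_cons, List.length_cons] at hl
          omega) (l1 ++ (x.1 + y.1 + 1, k) :: l2) (by
          rw [List.length_append, List.length_cons] at hl ⊢
          rw [List.length_cons] at hl
          omega)]
        have h2 : chW b lam (l1 ++ (x.1 + y.1 + 1, k) :: l2) = 0 := by
          unfold chW
          rw [List.map_append, List.prod_append, List.map_cons, List.prod_cons]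
          have h3 : chL b lam (x.1 + y.1 + 1, k) = 0 := by
            unfold chL
            rw [if_neg (Nat.succ_ne_zero _)]
          rw [h3, zero_mul, mul_zero]
        rw [h2, zero_smul, smul_zero]
      have perm : ∀ (l l' : List (ℕ × La)), l.Perm l' → ∀ l1 : List (ℕ × La),
          (l1 ++ l).length = n → ∀ v, Φ (cword κ T b (l1 ++ l) v) =
            Φ (cword κ T b (l1 ++ l') v) := by
        intro l l' h
        induction h with
        | nil => intro l1 _ v; rfl
        | cons x h ih2 =>
          intro l1 hl v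
          have := ih2 (l1 ++ [x]) (by rw [List.append_assoc]; exact hl) v
          rw [List.append_assoc, List.append_assoc] at this
          exact this
        | swap x y l => intro l1 hl v; exact swap l1 l y x hl v
        | trans h1 h2 ih1 ih2 =>
          intro l1 hl v
          rw [ih1 l1 hl v, ih2 l1 (by
            rw [List.length_append, ← h1.length_eq, ← List.length_append]
            exact hl) v]
      intro l hl v
      have hp : (l.mergeSort (fun a b => decide (a ≤ b))).Perm l := List.mergeSort_perm l _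
      have hs : (l.mergeSort (fun a b => decide (a ≤ b))).Pairwise (· ≤ ·) := by
        have := List.pairwise_mergeSort (le := fun a b : ℕ × La => decide (a ≤ b))
          (fun a b c h1 h2 => by
            simp only [decide_eq_true_eq] at h1 h2 ⊢
            exact le_trans h1 h2)
          (fun a b => by
            simp only [Bool.or_eq_true, decide_eq_true_eq]
            exact le_total a b) l
        exact this.imp fun h => by simpa using h
      have h1 := perm _ _ hp.symm [] (by rw [List.nil_append]; exact hl) v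
      rw [List.nil_append, List.nil_append] at h1
      rw [h1, hsort ⟨_, hs⟩ v]
      congr 1
      unfold chW
      exact (hp.map _).prod_eq
  have hword : ∀ (l : List (ℕ × La)) (v : N),
      Φ (cword κ T b l v) = chW b lam l • φ v := fun l v => key _ l rfl v
  have hletter : ∀ (x : ℕ × La) (z : Ind κ T), Φ (cJ κ T b x z) = chL b lam x • Φ z := by
    intro x z
    obtain ⟨y, rfl⟩ := hbij.2 z
    induction y using Finsupp.induction_linear with
    | zero => rw [map_zero, map_zero, map_zero, smul_zero]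
    | add y z hy hz => rw [map_add, map_add, map_add, map_add, hy, hz, smul_add]
    | single w v =>
      rw [Finsupp.lsum_single]
      have h2 : cJ κ T b x (cword κ T b w.1 v) = cword κ T b (x :: w.1) v := rfl
      rw [h2, hword, hword, smul_smul]
      rfl
  refine ⟨Φ, fun v => ?_, fun a x => ?_, fun s a x hs => ?_⟩
  · have := hword [] v
    rw [show chW b lam [] = 1 from rfl, one_smul] at this
    exact this
  · have h1 : ∀ a, Φ ((Ind.mod κ T).J (-1) a x) = lam a • Φ x := by
      intro a
      rw [← b.linearCombination_repr a, Finsupp.linearCombination_apply, Finsupp.sum, map_sum,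
        map_sum, LinearMap.sum_apply, map_sum, Finset.sum_smul]
      refine Finset.sum_congr rfl fun k _ => ?_
      rw [map_smul, map_smul, LinearMap.smul_apply, map_smul]
      have h2 := hletter (0, k) x
      have h3 : cJ κ T b (0, k) x = (Ind.mod κ T).J (-1) (b k) x := by
        unfold cJ
        norm_num
      rw [h3] at h2
      rw [h2, smul_assoc]
      rfl
    exact h1 a
  · rw [← b.linearCombination_repr a, Finsupp.linearCombination_apply, Finsupp.sum, map_sum,
      LinearMap.sum_apply, map_sum]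
    refine Finset.sum_eq_zero fun k _ => ?_
    rw [map_smul, LinearMap.smul_apply, map_smul]
    have h2 := hletter (s, k) x
    have h4 : chL b lam (s, k) = 0 := by
      unfold chL
      rw [if_neg (by simp only; omega)]
    rw [h4, zero_smul] at h2
    have h3 : cJ κ T b (s, k) x = (Ind.mod κ T).J (-(s : ℤ) - 1) (b k) x := rfl
    rw [← h3, h2, smul_zero]

/-- **Characters of induced modules.** -/
theorem exists_char (hk : IsInvForm κ) (lam : B →ₗ[ℂ] R) (φ : N →ₗ[ℂ] V) :
    ∃ Φ : Ind κ T →ₗ[ℂ] V, (∀ v, Φ (Ind.incl κ T v) = φ v) ∧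
      (∀ a x, Φ ((Ind.mod κ T).J (-1) a x) = lam a • Φ x) ∧
      ∀ (s : ℕ) a x, 1 ≤ s → Φ ((Ind.mod κ T).J (-(s : ℤ) - 1) a x) = 0 :=
  exists_char_aux (Module.Basis.ofVectorSpace ℂ B) hk lam φ

/-- Induction over the negative modes. -/
theorem neg_induction (hk : IsInvForm κ) (W : Submodule ℂ (Ind κ T))
    (h0 : ∀ v, Ind.incl κ T v ∈ W)
    (h1 : ∀ (s : ℕ) (a : B) (x : Ind κ T), x ∈ W → (Ind.mod κ T).J (-(s : ℤ) - 1) a x ∈ W)
    (x : Ind κ T) : x ∈ W := by
  classical
  let b := Module.Basis.ofVectorSpace ℂ B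
  obtain ⟨ord, hbij⟩ := cl_pbw (κ := κ) (T := T) hk b
  obtain ⟨y, rfl⟩ := hbij.2 x
  induction y using Finsupp.induction_linear with
  | zero => rw [map_zero]; exact zero_mem _
  | add y z hy hz => rw [map_add]; exact add_mem hy hz
  | single w v =>
    rw [Finsupp.lsum_single]
    have h3 : ∀ l, cword κ T b l v ∈ W := by
      intro l
      induction l with
      | nil => exact h0 v
      | cons x l ih => exact h1 _ _ _ ih
    exact h3 _

end

end WPE
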