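import Pool.Agent.WPE.LD

/-! [WPE-JA1] The Jacobian of the restrictions to `h` of the invariants.

`S(b₋) = MvPolynomial (β ⊕ η) ℂ`, `X (inl b) = f_b`, `X (inr i) = h_i`; `lamS a` is the element `a ∈ b₋`
of `S(b₋)`; `DQ b` is the derivation `a ↦ π[e_b,a] + ([F,a],e_b)`, the classical limit of the
differential.  Theorem `ja_det`: if `p_i` (`i ∈ η`) are killed by all `DQ b`, weighted homogeneous of weight
`m_i + 1` and their linear parts are `z_i ∈ b₋` of degree `-m_i`, linearly independent, then the Jacobian of the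
restrictions of the `p_i` to `h` is not zero. -/

namespace WPE

open MvPolynomial

noncomputable section

variable {g β η : Type} [LieRing g] [LieAlgebra ℂ g] [Fintype β] [DecidableEq β] [Fintype η]
  [DecidableEq η]

namespace LD

variable (L : LD g β η)

/-- The element `a ∈ b₋` of `S(b₋)`. -/
def lamS : g →ₗ[ℂ] MvPolynomial (β ⊕ η) ℂ :=
  ∑ b, (L.form.flip (L.e b)).smulRight (X (Sum.inl b) : MvPolynomial (β ⊕ η) ℂ) +
    ∑ i, (L.form.flip (L.h' i)).smulRight (X (Sum.inr i) : MvPolynomial (β ⊕ η) ℂ)

/-- The derivation `a ↦ π[e_b,a] + ([F,a],e_b)`. -/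
def DQ (b : β) : Derivation ℂ (MvPolynomial (β ⊕ η) ℂ) (MvPolynomial (β ⊕ η) ℂ) :=
  mkDerivation ℂ fun s => L.lamS (L.Pb ⁅L.e b, L.bb s⁆) + C (L.form ⁅L.F, L.bb s⁆ (L.e b))

/-- The weights: `f_b` has weight `ht b + 1`, `h_i` has weight `1`. -/
def wD : β ⊕ η → ℕ := Sum.elim (fun b => L.ht b + 1) fun _ => 1

/-- The restriction `S(b₋) → S(h)`. -/
def res : MvPolynomial (β ⊕ η) ℂ →ₐ[ℂ] MvPolynomial η ℂ :=
  aeval (Sum.elim (fun _ : β => (0 : MvPolynomial η ℂ)) fun i => X i)

/-- The coefficient of `bb s` of an element of `b₋`. -/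
def cfs (s : β ⊕ η) : g →ₗ[ℂ] ℂ :=
  Sum.elim (fun b => L.form.flip (L.e b)) (fun i => L.form.flip (L.h' i)) s

/-- The point `rho`. -/
def pt : β ⊕ η → ℂ := Sum.elim (fun _ => 0) fun i => L.form L.rho (L.h i)

variable {L}

theorem lamS_apply (a : g) : L.lamS a = ∑ s, C (L.cfs s a) * X s := by
  unfold lamS cfs
  rw [Fintype.sum_sum_type, LinearMap.add_apply, LinearMap.sum_apply, LinearMap.sum_apply]
  congr 1
  · refine Finset.sum_congr rfl fun b _ => ?_
    rw [LinearMap.smulRight_apply, smul_eq_C_mul]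
    rfl
  · refine Finset.sum_congr rfl fun b _ => ?_
    rw [LinearMap.smulRight_apply, smul_eq_C_mul]
    rfl

theorem coeff_lamS (a : g) (s : β ⊕ η) :
    coeff (Finsupp.single s 1) (L.lamS a) = L.cfs s a := by
  rw [lamS_apply, coeff_sum, Finset.sum_eq_single s]
  · rw [coeff_C_mul, coeff_X, if_pos rfl, mul_one]
  · intro t _ ht
    rw [coeff_C_mul, coeff_X, if_neg, mul_zero]
    intro h
    exact ht (Finsupp.single_left_injective one_ne_zero h)
  · intro h
    exact absurd (Finset.mem_univ s) h

theorem form_rho_e (b : β) : L.form L.rho (L.e b) = 0 := by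
  have h : ∀ x ∈ Submodule.span ℂ (Set.range L.h), L.form x (L.e b) = 0 := by
    intro x hx
    induction hx using Submodule.span_induction with
    | mem x h =>
      obtain ⟨i, rfl⟩ := h
      rw [L.symm, L.eh]
    | zero => rw [map_zero, LinearMap.zero_apply]
    | add x y _ _ hx hy => rw [map_add, LinearMap.add_apply, hx, hy, add_zero]
    | smul c x _ hx => rw [map_smul, LinearMap.smul_apply, hx, smul_zero]
  exact h _ L.rho_mem

theorem form_rho_f (b : β) : L.form L.rho (L.f b) = 0 := by
  have h : ∀ x ∈ Submodule.span ℂ (Set.range L.h), L.form x (L.f b) = 0 := by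
    intro x hx
    induction hx using Submodule.span_induction with
    | mem x h =>
      obtain ⟨i, rfl⟩ := h
      rw [L.symm, L.fh]
    | zero => rw [map_zero, LinearMap.zero_apply]
    | add x y _ _ hx hy => rw [map_add, LinearMap.add_apply, hx, hy, add_zero]
    | smul c x _ hx => rw [map_smul, LinearMap.smul_apply, hx, smul_zero]
  exact h _ L.rho_mem

/-- The value of `a ∈ b₋` at the point `rho`. -/
theorem eval_lamS (a : g) : eval L.pt (L.lamS a) = L.form a L.rho := by
  rw [lamS_apply, map_sum, Fintype.sum_sum_type]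
  have h1 : ∀ b : β, eval L.pt (C (L.cfs (Sum.inl b) a) * X (Sum.inl b)) = 0 := by
    intro b
    rw [map_mul, eval_X]
    exact mul_zero _
  have h2 : ∀ i : η, eval L.pt (C (L.cfs (Sum.inr i) a) * X (Sum.inr i)) =
      L.form a (L.h' i) * L.form L.rho (L.h i) := by
    intro i
    rw [map_mul, eval_X, eval_C]
    rfl
  rw [Finset.sum_congr rfl fun b _ => h1 b, Finset.sum_const_zero, zero_add,
    Finset.sum_congr rfl fun i _ => h2 i]
  conv_rhs => rw [L.symm a L.rho, L.decomp a]
  rw [map_add, map_add, map_sum, map_sum, map_sum]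
  have h3 : ∀ b, L.form L.rho (L.form a (L.f b) • L.e b) = 0 := by
    intro b
    rw [map_smul, form_rho_e, smul_zero]
  have h4 : ∀ b, L.form L.rho (L.form a (L.e b) • L.f b) = 0 := by
    intro b
    rw [map_smul, form_rho_f, smul_zero]
  rw [Finset.sum_congr rfl fun b _ => h3 b, Finset.sum_congr rfl fun b _ => h4 b,
    Finset.sum_const_zero, zero_add, add_zero]
  refine Finset.sum_congr rfl fun i _ => ?_
  rw [map_smul, smul_eq_mul]

theorem form_Pb_rho (x : g) : L.form (L.Pb x) L.rho = L.form x L.rho := by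
  conv_rhs => rw [L.decomp x]
  unfold Pb Ph Pn
  simp only [LinearMap.add_apply, LinearMap.sum_apply, LinearMap.smulRight_apply, map_add, map_sum,
    map_smul, LinearMap.flip_apply, LinearMap.smul_apply, smul_eq_mul]
  have h3 : ∀ b, L.form x (L.f b) * L.form (L.e b) L.rho = 0 := by
    intro b
    rw [L.symm (L.e b), form_rho_e, mul_zero]
  rw [Finset.sum_congr rfl fun b _ => h3 b, Finset.sum_const_zero, zero_add]

/-- Degrees. -/
theorem form_Ff (b b' : β) (h : L.ht b ≠ L.ht b' + 1) : L.form ⁅L.F, L.f b'⁆ (L.e b) = 0 := by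
  have h1 : ⁅L.rho, ⁅L.F, L.f b'⁆⁆ = (-(1 + L.ht b') : ℂ) • ⁅L.F, L.f b'⁆ := by
    rw [leibniz_lie, L.rho_F, L.rho_f, smul_lie, lie_smul, ← add_smul]
    congr 1
    ring
  have h2 : L.form ⁅⁅L.F, L.f b'⁆, L.rho⁆ (L.e b) = L.form ⁅L.F, L.f b'⁆ ⁅L.rho, L.e b⁆ := L.inv _ _ _
  rw [← lie_skew, h1, L.rho_e, map_neg, map_smul, LinearMap.neg_apply, LinearMap.smul_apply, map_smul,
    smul_eq_mul, smul_eq_mul] at h2
  have h3 : ((L.ht b' : ℂ) + 1 - L.ht b) * L.form ⁅L.F, L.f b'⁆ (L.e b) = 0 := by
    linear_combination h2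
  rcases mul_eq_zero.1 h3 with h4 | h4
  · exfalso
    apply h
    have : (L.ht b : ℂ) = ((L.ht b' + 1 : ℕ) : ℂ) := by
      push_cast
      linear_combination -h4
    exact_mod_cast this
  · exact h4

theorem cfs_gr (s : β ⊕ η) (a : g) (m : ℕ) (ha : a ∈ L.gr (-(m : ℤ))) (hs : L.wD s ≠ m + 1) :
    L.cfs s a = 0 := by
  have ha' : ⁅L.rho, a⁆ = (((-(m : ℤ)) : ℤ) : ℂ) • a := ha
  rcases s with b | i
  · have h2 : L.form ⁅a, L.rho⁆ (L.e b) = L.form a ⁅L.rho, L.e b⁆ := L.inv _ _ _
    rw [← lie_skew, ha', L.rho_e, map_neg, map_smul, LinearMap.neg_apply, LinearMap.smul_apply,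
      map_smul, smul_eq_mul, smul_eq_mul] at h2
    have h3 : ((m : ℂ) - L.ht b) * L.form a (L.e b) = 0 := by
      push_cast at h2
      linear_combination h2
    rcases mul_eq_zero.1 h3 with h4 | h4
    · exfalso
      apply hs
      have : (L.ht b : ℂ) = (m : ℂ) := by linear_combination -h4
      have h5 : L.ht b = m := by exact_mod_cast this
      show L.ht b + 1 = m + 1
      rw [h5]
    · exact h4
  · have hm : m ≠ 0 := by
      rintro rfl
      exact hs rfl
    have h2 : L.form ⁅a, L.rho⁆ (L.h' i) = L.form a ⁅L.rho, L.h' i⁆ := L.inv _ _ _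
    have hc : ∀ x ∈ Submodule.span ℂ (Set.range L.h), ∀ y ∈ Submodule.span ℂ (Set.range L.h),
        ⁅x, y⁆ = 0 := by
      intro x hx y hy
      induction hx using Submodule.span_induction with
      | mem x h =>
        obtain ⟨j, rfl⟩ := h
        induction hy using Submodule.span_induction with
        | mem y h =>
          obtain ⟨k, rfl⟩ := h
          exact L.comm_h j k
        | zero => exact lie_zero _
        | add y z _ _ hy hz => rw [lie_add, hy, hz, add_zero]
        | smul c y _ hy => rw [lie_smul, hy, smul_zero]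
      | zero => exact zero_lie _
      | add y z _ _ hy hz => rw [add_lie, hy, hz, add_zero]
      | smul c y _ hy => rw [smul_lie, hy, smul_zero]
    rw [hc _ L.rho_mem _ (L.h'_mem i), ← lie_skew, ha', map_zero, map_neg, map_smul,
      LinearMap.neg_apply, LinearMap.smul_apply, smul_eq_mul] at h2
    have h3 : (m : ℂ) * L.form a (L.h' i) = 0 := by
      push_cast at h2
      linear_combination h2
    exact (mul_eq_zero.1 h3).resolve_left (by exact_mod_cast hm)

/-- Elements of `b₋` are determined by their coefficients. -/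
theorem eq_zero_of_cfs (a : g) (ha : ∀ b, L.form a (L.f b) = 0) (h : ∀ s, L.cfs s a = 0) :
    a = 0 := by
  rw [L.decomp a]
  have h1 : ∀ b, L.form a (L.e b) = 0 := fun b => h (Sum.inl b)
  have h2 : ∀ i, L.form a (L.h' i) = 0 := fun i => h (Sum.inr i)
  simp only [ha, h1, h2, zero_smul, Finset.sum_const_zero, add_zero]

/-- A derivation is the combination of the partial derivatives. -/
theorem der_apply (D : Derivation ℂ (MvPolynomial (β ⊕ η) ℂ) (MvPolynomial (β ⊕ η) ℂ))
    (p : MvPolynomial (β ⊕ η) ℂ) : D p = ∑ s, D (X s) * pderiv s p := by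
  induction p using MvPolynomial.induction_on with
  | C a =>
    have h : D (C a) = 0 := D.map_algebraMap a
    rw [h]
    symm
    refine Finset.sum_eq_zero fun s _ => ?_
    rw [pderiv_C, mul_zero]
  | add p q hp hq =>
    rw [map_add, hp, hq, ← Finset.sum_add_distrib]
    refine Finset.sum_congr rfl fun s _ => ?_
    rw [map_add, mul_add]
  | mul_X p t hp =>
    rw [Derivation.leibniz, hp]
    have h : ∀ s, D (X s) * pderiv s (p * X t) =
        D (X s) * (p * (Pi.single s 1 : β ⊕ η → MvPolynomial (β ⊕ η) ℂ) t) +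
          X t * (D (X s) * pderiv s p) := by
      intro s
      rw [Derivation.leibniz, pderiv_X, smul_eq_mul, smul_eq_mul]
      ring
    rw [Finset.sum_congr rfl fun s _ => h s, Finset.sum_add_distrib, ← Finset.mul_sum]
    have h2 : ∑ s, D (X s) * (p * (Pi.single s 1 : β ⊕ η → MvPolynomial (β ⊕ η) ℂ) t) =
        D (X t) * p := by
      rw [Finset.sum_eq_single t]
      · rw [Pi.single_eq_same, mul_one]
      · intro s _ hs
        rw [Pi.single_eq_of_ne (Ne.symm hs), mul_zero, mul_zero]
      · intro h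
        exact absurd (Finset.mem_univ t) h
    rw [h2, smul_eq_mul, smul_eq_mul]
    ring

theorem eval_res (p : MvPolynomial (β ⊕ η) ℂ) :
    eval (fun i => L.form L.rho (L.h i)) (res p) = eval L.pt p := by
  induction p using MvPolynomial.induction_on with
  | C a =>
    unfold res
    rw [aeval_C, eval_C]
    exact eval_C _
  | add p q hp hq => rw [map_add, map_add, map_add, hp, hq]
  | mul_X p s hp =>
    rw [map_mul, map_mul, map_mul, hp, eval_X]
    congr 1
    unfold res
    rw [aeval_X]
    rcases s with b | i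
    · exact map_zero _
    · exact eval_X _

theorem pderiv_res (k : η) (p : MvPolynomial (β ⊕ η) ℂ) :
    pderiv k (res p) = res (pderiv (Sum.inr k) p) := by
  induction p using MvPolynomial.induction_on with
  | C a =>
    rw [pderiv_C, map_zero]
    unfold res
    rw [aeval_C]
    exact pderiv_C
  | add p q hp hq => rw [map_add, map_add, map_add, map_add, hp, hq]
  | mul_X p s hp =>
    rw [map_mul, Derivation.leibniz, Derivation.leibniz, hp, smul_eq_mul, smul_eq_mul, smul_eq_mul,
      smul_eq_mul, map_add, map_mul, map_mul]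
    congr 1
    congr 1
    unfold res
    rw [aeval_X]
    rcases s with b | i
    · rw [pderiv_X_of_ne (by simp), map_zero]
      exact map_zero _
    · show pderiv k (X i) = _
      rw [pderiv_X, pderiv_X]
      by_cases h : i = k
      · subst h
        rw [Pi.single_eq_same, Pi.single_eq_same, map_one]
      · rw [Pi.single_eq_of_ne h, Pi.single_eq_of_ne (by simpa using h), map_zero]

theorem wD_pos (s : β ⊕ η) : L.wD s ≠ 0 := by
  rcases s with b | i
  · exact Nat.succ_ne_zero _
  · exact one_ne_zero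

theorem weight_split (u : β ⊕ η →₀ ℕ) (s : β ⊕ η) (h : u s ≠ 0) :
    Finsupp.weight L.wD u = L.wD s + Finsupp.weight L.wD (u - Finsupp.single s 1) := by
  have h1 : Finsupp.single s 1 + (u - Finsupp.single s 1) = u := by
    apply add_tsub_cancel_of_le
    rw [Finsupp.single_le_iff]
    omega
  conv_lhs => rw [← h1]
  rw [map_add, Finsupp.weight_single, one_smul]

theorem weight_zero (u : β ⊕ η →₀ ℕ) (h : Finsupp.weight L.wD u = 0) : u = 0 := by
  ext s
  by_contra hs
  have h1 := weight_split (L := L) u s hs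
  have h2 := wD_pos (L := L) s
  omega

/-- The gradient of `p` at `rho` vanishes on `n₊` if it vanishes on `h`. -/
theorem grad_zero (q : β ⊕ η → ℂ)
    (hQ : ∀ b, ∑ s, eval L.pt (L.DQ b (X s)) * q s = 0) (hq : ∀ i, q (Sum.inr i) = 0) (s : β ⊕ η) :
    q s = 0 := by
  rcases s with b | i
  · induction hn : L.ht b using Nat.strong_induction_on generalizing b with
    | _ n ih =>
      have h1 := hQ b
      rw [Fintype.sum_sum_type] at h1
      have h2 : ∀ i, eval L.pt (L.DQ b (X (Sum.inr i))) * q (Sum.inr i) = 0 := by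
        intro i
        rw [hq, mul_zero]
      rw [Finset.sum_congr rfl fun i _ => h2 i, Finset.sum_const_zero, add_zero] at h1
      have h3 : ∀ b', eval L.pt (L.DQ b (X (Sum.inl b'))) * q (Sum.inl b') =
          if b = b' then (L.ht b : ℂ) * q (Sum.inl b) else 0 := by
        intro b'
        have e1 : eval L.pt (L.DQ b (X (Sum.inl b'))) =
            (L.ht b : ℂ) * (if b = b' then 1 else 0) + L.form ⁅L.F, L.f b'⁆ (L.e b) := by
          unfold DQ
          rw [mkDerivation_X, map_add, eval_C, eval_lamS, form_Pb_rho]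
          congr 1
          rw [L.symm]
          show L.form L.rho ⁅L.e b, L.f b'⁆ = _
          rw [← L.inv, L.rho_e, map_smul, LinearMap.smul_apply, L.ef, smul_eq_mul]
        rw [e1]
        by_cases hb : L.ht b = L.ht b' + 1
        · rw [ih (L.ht b') (by omega) b' rfl, mul_zero, if_neg]
          rintro rfl
          omega
        · rw [form_Ff b b' hb, add_zero]
          split_ifs with h
          · subst h
            ring
          · ring
      rw [Finset.sum_congr rfl fun b' _ => h3 b', Finset.sum_ite_eq, if_pos (Finset.mem_univ b)] at h1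
      have h4 : (L.ht b : ℂ) ≠ 0 := by
        have := L.ht_pos b
        have h5 : L.ht b ≠ 0 := by omega
        exact_mod_cast h5
      exact (mul_eq_zero.1 h1).resolve_left h4
  · exact hq i

/-- The gradient of `p` at any point: it vanishes in weights above the weight of `p`, and is the
linear part of `p` in the weight of `p`. -/
theorem grad_hi (p : MvPolynomial (β ⊕ η) ℂ) (m : ℕ) (hp : IsWeightedHomogeneous L.wD p (m + 1))
    (x : β ⊕ η → ℂ) (s : β ⊕ η) (hs : m + 1 < L.wD s) : eval x (pderiv s p) = 0 := by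
  rw [p.as_sum, map_sum, map_sum]
  refine Finset.sum_eq_zero fun u hu => ?_
  have h1 : Finsupp.weight L.wD u = m + 1 := hp (mem_support_iff.1 hu)
  have h2 : u s = 0 := by
    by_contra h
    have := weight_split (L := L) u s h
    omega
  rw [pderiv_monomial, h2, Nat.cast_zero, mul_zero, monomial_zero, map_zero]

theorem grad_eq (p : MvPolynomial (β ⊕ η) ℂ) (m : ℕ) (hp : IsWeightedHomogeneous L.wD p (m + 1))
    (x : β ⊕ η → ℂ) (s : β ⊕ η) (hs : m + 1 = L.wD s) :
    eval x (pderiv s p) = coeff (Finsupp.single s 1) p := by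
  conv_lhs => rw [p.as_sum, map_sum, map_sum]
  have h0 : ∀ u ∈ p.support, u ≠ Finsupp.single s 1 →
      eval x (pderiv s (monomial u (coeff u p))) = 0 := by
    intro u hu hne
    have h1 : Finsupp.weight L.wD u = m + 1 := hp (mem_support_iff.1 hu)
    have h2 : u s = 0 := by
      by_contra h
      have h3 := weight_split (L := L) u s h
      have h4 := weight_zero (L := L) (u - Finsupp.single s 1) (by omega)
      apply hne
      have h5 : Finsupp.single s 1 + (u - Finsupp.single s 1) = u := by
        apply add_tsub_cancel_of_le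
        rw [Finsupp.single_le_iff]
        omega
      rw [← h5, h4, add_zero]
    rw [pderiv_monomial, h2, Nat.cast_zero, mul_zero, monomial_zero, map_zero]
  rw [Finset.sum_eq_single (Finsupp.single s 1) h0]
  · rw [pderiv_monomial, tsub_self, Finsupp.single_eq_same, Nat.cast_one, mul_one]
    exact eval_C _
  · intro h
    rw [notMem_support_iff.1 h, monomial_zero, map_zero, map_zero]

/-- [JA] The Jacobian of the restrictions to `h` is not zero. -/
theorem ja_det (p : η → MvPolynomial (β ⊕ η) ℂ) (m : η → ℕ) (z : η → g)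
    (hz : ∀ i, L.Pp (z i) = 0) (hzm : ∀ i, z i ∈ L.gr (-(m i : ℤ))) (hli : LinearIndependent ℂ z)
    (hQ : ∀ i b, L.DQ b (p i) = 0)
    (hp : ∀ i, IsWeightedHomogeneous L.wD (p i) (m i + 1))
    (hlin : ∀ i s, coeff (Finsupp.single s 1) (p i) = L.cfs s (z i)) :
    (Matrix.of fun i k => pderiv k (res (p i)) : Matrix η η (MvPolynomial η ℂ)).det ≠ 0 := by
  intro hdet
  set x0 : η → ℂ := fun i => L.form L.rho (L.h i) with hx0
  set M : Matrix η η ℂ := Matrix.of fun i k => eval x0 (pderiv k (res (p i))) with hM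
  have hMdet : M.det = 0 := by
    have h1 : M = (eval x0).mapMatrix (Matrix.of fun i k => pderiv k (res (p i))) := by
      ext i k
      rfl
    rw [h1, ← RingHom.map_det, hdet, map_zero]
  obtain ⟨c, hc0, hc⟩ := Matrix.exists_vecMul_eq_zero_iff.2 hMdet
  have hcol : ∀ k, ∑ i, c i * eval L.pt (pderiv (Sum.inr k) (p i)) = 0 := by
    intro k
    have h1 := congrFun hc k
    rw [Matrix.vecMul, dotProduct] at h1
    have h0 : (0 : η → ℂ) k = 0 := rfl
    rw [← h0, ← h1]
    refine Finset.sum_congr rfl fun i _ => ?_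
    rw [hM, Matrix.of_apply, pderiv_res, hx0, eval_res]
  have hgrad : ∀ s, ∑ i, c i * eval L.pt (pderiv s (p i)) = 0 := by
    intro s
    refine grad_zero (L := L) (fun s => ∑ i, c i * eval L.pt (pderiv s (p i))) ?_ hcol s
    intro b
    have h1 : ∑ i, c i * eval L.pt (L.DQ b (p i)) = 0 := by
      refine Finset.sum_eq_zero fun i _ => ?_
      rw [hQ, map_zero, mul_zero]
    rw [← h1]
    simp only [Finset.mul_sum]
    rw [Finset.sum_comm]
    refine Finset.sum_congr rfl fun i _ => ?_
    rw [der_apply, map_sum, Finset.mul_sum]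
    refine Finset.sum_congr rfl fun s _ => ?_
    rw [map_mul]
    ring
  obtain ⟨i0, hi0⟩ : ∃ i, c i ≠ 0 := by
    by_contra h
    exact hc0 (funext fun i => by_contra fun hi => h ⟨i, hi⟩)
  obtain ⟨i1, hi1, hmax⟩ := Finset.exists_max_image (Finset.univ.filter fun i => c i ≠ 0) m
    ⟨i0, Finset.mem_filter.2 ⟨Finset.mem_univ _, hi0⟩⟩
  have hi1' : c i1 ≠ 0 := (Finset.mem_filter.1 hi1).2
  have hs : ∀ s, L.cfs s (∑ i ∈ Finset.univ.filter (fun i => m i = m i1), c i • z i) = 0 := by
    intro s
    rw [map_sum]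
    by_cases hs : L.wD s = m i1 + 1
    · rw [← hgrad s, Finset.sum_filter]
      refine Finset.sum_congr rfl fun i _ => ?_
      by_cases hi : m i = m i1
      · rw [if_pos hi, grad_eq (p i) (m i) (hp i) L.pt s (by omega), hlin, map_smul, smul_eq_mul]
      · rw [if_neg hi]
        by_cases hci : c i = 0
        · rw [hci, zero_mul]
        · have h1 := hmax i (Finset.mem_filter.2 ⟨Finset.mem_univ _, hci⟩)
          rw [grad_hi (p i) (m i) (hp i) L.pt s (by omega), mul_zero]
    · refine Finset.sum_eq_zero fun i hi => ?_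
      have h1 : m i = m i1 := (Finset.mem_filter.1 hi).2
      rw [map_smul, cfs_gr s (z i) (m i) (hzm i) (by omega), smul_zero]
  have hz0 : ∑ i ∈ Finset.univ.filter (fun i => m i = m i1), c i • z i = 0 := by
    apply eq_zero_of_cfs _ _ hs
    intro b
    have hf : ∀ i, L.form (z i) (L.f b) = 0 := by
      intro i
      have h1 : L.form (L.Pp (z i)) (L.f b) = L.form (z i) (L.f b) := by
        conv_rhs => rw [L.decomp (z i)]
        unfold Pp
        simp only [LinearMap.add_apply, LinearMap.sum_apply, LinearMap.smulRight_apply, map_add,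
          map_sum, map_smul, LinearMap.flip_apply, LinearMap.smul_apply, smul_eq_mul, L.ff,
          mul_zero, Finset.sum_const_zero, add_zero]
        have h4 : ∀ i', L.form (z i) (L.h' i') * L.form (L.h i') (L.f b) = 0 := by
          intro i'
          rw [L.symm (L.h i'), L.fh, mul_zero]
        rw [Finset.sum_congr rfl fun i' _ => h4 i', Finset.sum_const_zero, add_zero]
      rw [← h1, hz, map_zero, LinearMap.zero_apply]
    rw [map_sum, LinearMap.sum_apply]
    refine Finset.sum_eq_zero fun i _ => ?_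
    rw [map_smul, LinearMap.smul_apply, hf, smul_zero]
  have := (linearIndependent_iff'.1 hli) _ _ hz0 i1 (Finset.mem_filter.2 ⟨Finset.mem_univ _, rfl⟩)
  exact hi1' this

end LD

end

end WPE
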