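import Pool.Agent.WPE.IND3
import Pool.Agent.WPE.JA1
import Pool.Agent.WPE.LDB

/-! [WPE-CL2] The classical limit of the differential, abstract form. -/

set_option autoImplicit false

namespace WPE

open MvPolynomial
open scoped TensorProduct

noncomputable section

variable {g β η : Type} [LieRing g] [LieAlgebra ℂ g] [Fintype β] [DecidableEq β] [Fintype η]
  [DecidableEq η]

/-- The target of the classical limit. -/
abbrev CV (β η : Type) : Type := MvPolynomial (β ⊕ η) ℂ × (β → MvPolynomial (β ⊕ η) ℂ)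

namespace LD

variable (L : LD g β η) (κ : ℂ)
variable {E : Type} [AddCommGroup E] [Module ℂ E]

/-- `Φ` is a classical limit map. -/
structure IsCL (X : GMod L.bL L.nL (L.kb κ) E) (Φ : E →ₗ[ℂ] CV β η) : Prop where
  J1 : ∀ (a : L.bL) (x : E), Φ (X.J (-1) a x) = L.lamS (a : g) • Φ x
  Jn : ∀ (s : ℕ), 1 ≤ s → ∀ (a : L.bL) (x : E), Φ (X.J (-(s : ℤ) - 1) a x) = 0
  psi : ∀ (k : ℕ) (y : L.nL) (x : E) (b : β), (Φ (X.ψ (-(k : ℤ) - 1) y x)).2 b =
    if k = 0 then C (L.form (L.jng y) (L.e b)) * (Φ x).1 else 0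

variable {L κ}

/-- The property `psi` follows from the generators. -/
theorem IsCL.of_gen {K : Type} (X : GMod L.bL L.nL (L.kb κ) E) (Φ : E →ₗ[ℂ] CV β η)
    (incl : K → E)
    (ind : ∀ W : Submodule ℂ E, (∀ v, incl v ∈ W) →
      (∀ (s : ℕ) (a : L.bL) (x : E), x ∈ W → X.J (-(s : ℤ) - 1) a x ∈ W) → ∀ x, x ∈ W)
    (J1 : ∀ (a : L.bL) (x : E), Φ (X.J (-1) a x) = L.lamS (a : g) • Φ x)
    (Jn : ∀ (s : ℕ), 1 ≤ s → ∀ (a : L.bL) (x : E), Φ (X.J (-(s : ℤ) - 1) a x) = 0)
    (hpsi : ∀ (k : ℕ) (y : L.nL) (v : K) (b : β), (Φ (X.ψ (-(k : ℤ) - 1) y (incl v))).2 b =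
      if k = 0 then C (L.form (L.jng y) (L.e b)) * (Φ (incl v)).1 else 0) :
    IsCL L κ X Φ := by
  refine ⟨J1, Jn, ?_⟩
  let W : Submodule ℂ E :=
    { carrier := {x | ∀ (k : ℕ) (y : L.nL) (b : β), (Φ (X.ψ (-(k : ℤ) - 1) y x)).2 b =
          if k = 0 then C (L.form (L.jng y) (L.e b)) * (Φ x).1 else 0}
      add_mem' := by
        intro x x' hx hx' k y b
        rw [map_add, map_add, Prod.snd_add, Pi.add_apply, hx, hx', map_add, Prod.fst_add]
        split_ifs
        · rw [mul_add]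
        · rw [add_zero]
      zero_mem' := by
        intro k y b
        rw [map_zero, map_zero]
        simp
      smul_mem' := by
        intro c x hx k y b
        rw [map_smul, map_smul, Prod.smul_snd, Pi.smul_apply, hx, map_smul, Prod.smul_fst]
        split_ifs
        · rw [mul_smul_comm]
        · rw [smul_zero] }
  have hW : ∀ x, x ∈ W := by
    refine ind W ?_ ?_
    · intro v k y b
      exact hpsi k y v b
    · intro s a x hx k y b
      have h1 := X.commψ (-(s : ℤ) - 1) (-(k : ℤ) - 1) a y x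
      have h3 : (-(s : ℤ) - 1) + (-(k : ℤ) - 1) = -((s + k + 1 : ℕ) : ℤ) - 1 := by
        push_cast
        ring
      rw [h3] at h1
      have h2 : X.ψ (-(k : ℤ) - 1) y (X.J (-(s : ℤ) - 1) a x) =
          X.J (-(s : ℤ) - 1) a (X.ψ (-(k : ℤ) - 1) y x) -
            X.ψ (-((s + k + 1 : ℕ) : ℤ) - 1) ⁅a, y⁆ x := by
        rw [← h1]
        abel
      have h4 : (Φ (X.ψ (-((s + k + 1 : ℕ) : ℤ) - 1) ⁅a, y⁆ x)).2 b = 0 := by
        rw [hx, if_neg (Nat.succ_ne_zero _)]
      rw [h2, map_sub, Prod.snd_sub, Pi.sub_apply, h4, sub_zero]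
      rcases Nat.eq_zero_or_pos s with rfl | hs
      · have e0 : (-((0 : ℕ) : ℤ) - 1) = -1 := by norm_num
        rw [e0, J1, J1, Prod.smul_snd, Pi.smul_apply, hx, Prod.smul_fst, smul_eq_mul,
          smul_eq_mul]
        split_ifs
        · ring
        · rw [mul_zero]
      · rw [Jn s hs, Jn s hs]
        split_ifs
        · exact (mul_zero _).symm
        · rfl
  exact fun k y x b => hW x k y b

variable {X : GMod L.bL L.nL (L.kb κ) E} {Φ : E →ₗ[ℂ] CV β η}

/-- Normally ordered products in the classical limit. -/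
theorem IsCL.nop (h : IsCL L κ X Φ) (s : ℕ) (c : L.bL) (z : L.nL) (x : E) (b : β) :
    (Φ (X.nop (-(s : ℤ) - 1) (c ⊗ₜ[ℂ] z) x)).2 b =
      if s = 0 then L.lamS (c : g) * (C (L.form (L.jng z) (L.e b)) * (Φ x).1) else 0 := by
  rw [GMod.nop_tmul]
  have hlf := X.lf_nopF (-(s : ℤ) - 1) c z
  obtain ⟨S, hS⟩ := hlf.exists_finset x
  rw [psum_eq_sum hlf x (insert (-1) S) (fun k hk => hS k fun h => hk (Finset.mem_insert_of_mem h)),
    map_sum, Prod.snd_sum, Finset.sum_apply, Finset.sum_eq_single (-1 : ℤ)]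
  · unfold GMod.nopF
    rw [if_pos (by norm_num), LinearMap.comp_apply, h.J1, Prod.smul_snd, Pi.smul_apply, smul_eq_mul]
    have e : (-(s : ℤ) - 1) - 1 - (-1) = -(s : ℤ) - 1 := by ring
    rw [e, h.psi]
    split_ifs
    · rfl
    · rw [mul_zero]
  · intro k _ hk
    unfold GMod.nopF
    by_cases hk0 : k < 0
    · rw [if_pos hk0, LinearMap.comp_apply]
      obtain ⟨t, ht, rfl⟩ : ∃ t : ℕ, 1 ≤ t ∧ k = -(t : ℤ) - 1 :=
        ⟨(-k - 1).toNat, by omega, by omega⟩
      rw [h.Jn t ht]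
      rfl
    · rw [if_neg hk0, LinearMap.comp_apply]
      obtain ⟨t, ht, e⟩ : ∃ t : ℕ, t ≠ 0 ∧ (-(s : ℤ) - 1) - 1 - k = -(t : ℤ) - 1 :=
        ⟨(s + 1 + k).toNat, by omega, by omega⟩
      rw [e, h.psi, if_neg ht]
  · intro hk
    exact absurd (Finset.mem_insert_self _ _) hk

/-- The tensor `Ω(a)` in the classical limit. -/
theorem IsCL.nop_Om (h : IsCL L κ X Φ) (s : ℕ) (a : L.bL) (x : E) (b : β) :
    (Φ (X.nop (-(s : ℤ) - 1) (L.OmB a) x)).2 b =
      if s = 0 then L.lamS (L.Pb ⁅L.e b, (a : g)⁆) * (Φ x).1 else 0 := by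
  rw [OmB_apply, map_sum, LinearMap.sum_apply, map_sum, Prod.snd_sum, Finset.sum_apply,
    Finset.sum_eq_single b]
  · rw [h.nop, jng_fN, L.symm, L.ef, if_pos rfl, C_1, one_mul]
    rfl
  · intro b' _ hb
    rw [h.nop, jng_fN, L.symm, L.ef, if_neg (Ne.symm hb), C_0, zero_mul, mul_zero]
    split_ifs <;> rfl
  · intro hb
    exact absurd (Finset.mem_univ b) hb

theorem cfs_sum (a : g) (ha : a ∈ L.bm) : ∑ s, L.cfs s a • L.bb s = a := by
  conv_rhs => rw [L.decomp a]
  have h1 := (L.mem_bm_iff a).1 ha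
  simp only [h1, zero_smul, Finset.sum_const_zero, zero_add]
  rw [Fintype.sum_sum_type, add_comm]
  rfl

theorem form_Pn_e (x : g) (b : β) : L.form (L.Pn x) (L.e b) = L.form x (L.e b) := by
  unfold Pn
  simp only [LinearMap.sum_apply, LinearMap.smulRight_apply, map_sum, map_smul,
    LinearMap.flip_apply, LinearMap.smul_apply, smul_eq_mul]
  rw [Finset.sum_eq_single b]
  · rw [L.symm (L.f b), L.ef, if_pos rfl, mul_one]
  · intro c _ hc
    rw [L.symm (L.f c), L.ef, if_neg (Ne.symm hc), mul_zero]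
  · intro h
    exact absurd (Finset.mem_univ b) h

theorem DQ_lamS (a : g) (ha : a ∈ L.bm) (b : β) : L.DQ b (L.lamS a) =
    L.lamS (L.Pb ⁅L.e b, a⁆) + C (L.form ⁅L.F, a⁆ (L.e b)) := by
  conv_rhs => rw [← cfs_sum a ha]
  rw [lamS_apply, map_sum, lie_sum, lie_sum, map_sum, map_sum, map_sum, LinearMap.sum_apply,
    map_sum, ← Finset.sum_add_distrib]
  refine Finset.sum_congr rfl fun s _ => ?_
  rw [← smul_eq_C_mul, Derivation.map_smul]
  unfold DQ
  rw [mkDerivation_X, lie_smul, lie_smul, map_smul, map_smul, map_smul, LinearMap.smul_apply,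
    smul_add, smul_eq_mul, C_mul, smul_eq_C_mul (C _) (L.cfs s a)]

/-- [CL] The classical limit of the differential is `DQ`. -/
theorem IsCL.main (h : IsCL L κ X Φ) (Q : E →ₗ[ℂ] E) (P : Submodule ℂ E) (vac : E)
    (ind : ∀ W : Submodule ℂ E, vac ∈ W →
      (∀ (s : ℕ) (a : L.bL) (x : E), x ∈ P → x ∈ W → X.J (-(s : ℤ) - 1) a x ∈ W) → P ≤ W)
    (hv : (Φ vac).1 = 1) (hQv : Q vac = 0)
    (hQ : ∀ (s : ℕ) (a : L.bL) (x : E), x ∈ P → Q (X.J (-(s : ℤ) - 1) a x) =
      X.J (-(s : ℤ) - 1) a (Q x) + X.nop (-(s : ℤ) - 1) (L.OmB a) x +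
        ((s : ℂ) + 1) • X.ψ (-((s + 1 : ℕ) : ℤ) - 1) (L.LkN κ a) x +
          X.ψ (-(s : ℤ) - 1) (L.pin ⁅L.F, (a : g)⁆) x)
    (x : E) (hx : x ∈ P) (b : β) : (Φ (Q x)).2 b = L.DQ b (Φ x).1 := by
  let W : Submodule ℂ E :=
    { carrier := {x | ∀ b : β, (Φ (Q x)).2 b = L.DQ b (Φ x).1}
      add_mem' := by
        intro x x' hx hx' b
        rw [map_add, map_add, Prod.snd_add, Pi.add_apply, hx, hx', map_add, Prod.fst_add, map_add]
      zero_mem' := by
        intro b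
        rw [map_zero, map_zero]
        simp
      smul_mem' := by
        intro c x hx b
        rw [map_smul, map_smul, Prod.smul_snd, Pi.smul_apply, hx, map_smul, Prod.smul_fst,
          Derivation.map_smul] }
  have hW : P ≤ W := by
    refine ind W ?_ ?_
    · intro b
      rw [hQv, map_zero, hv, Derivation.map_one_eq_zero]
      rfl
    · intro s a x hxP hx b
      have hLk : (Φ (X.ψ (-((s + 1 : ℕ) : ℤ) - 1) (L.LkN κ a) x)).2 b = 0 := by
        rw [h.psi, if_neg (Nat.succ_ne_zero _)]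
      rw [hQ s a x hxP, map_add, map_add, map_add, Prod.snd_add, Prod.snd_add, Prod.snd_add,
        Pi.add_apply, Pi.add_apply, Pi.add_apply, map_smul, Prod.smul_snd, Pi.smul_apply, hLk,
        smul_zero, add_zero, h.nop_Om, h.psi]
      rcases Nat.eq_zero_or_pos s with rfl | hs
      · have e0 : (-((0 : ℕ) : ℤ) - 1) = -1 := by norm_num
        rw [e0, h.J1, h.J1, Prod.smul_snd, Pi.smul_apply, hx, Prod.smul_fst, smul_eq_mul,
          smul_eq_mul, Derivation.leibniz, smul_eq_mul, smul_eq_mul, if_pos rfl, if_pos rfl]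
        have h1 : L.DQ b (L.lamS (a : g)) = L.lamS (L.Pb ⁅L.e b, (a : g)⁆) +
            C (L.form (L.jng (L.pin ⁅L.F, (a : g)⁆)) (L.e b)) := by
          rw [DQ_lamS (a : g) a.2 b, jng_pin, form_Pn_e]
        rw [h1]
        ring
      · rw [h.Jn s hs, h.Jn s hs, if_neg (by omega), if_neg (by omega)]
        simp
  exact hW hx b

end LD

end

end WPE
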