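import Pool.Agent.WPE.CL2

/-! [WPE-CL3] Gradings in the classical limit; the Jacobian of the symbols of the generators. -/

set_option autoImplicit false

namespace WPE

open MvPolynomial
open scoped TensorProduct

noncomputable section

variable {g β η : Type} [LieRing g] [LieAlgebra ℂ g] [Fintype β] [DecidableEq β] [Fintype η]
  [DecidableEq η]

section euler

variable {σ : Type}

/-- The Euler derivation of the weights `w`. -/
def eul (w : σ → ℂ) : Derivation ℂ (MvPolynomial σ ℂ) (MvPolynomial σ ℂ) :=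
  mkDerivation ℂ fun s => C (w s) * X s

theorem eul_X (w : σ → ℂ) (s : σ) : eul w (X s) = C (w s) * X s := by
  unfold eul
  rw [mkDerivation_X]

theorem eul_monomial (w : σ → ℂ) (u : σ →₀ ℕ) (c : ℂ) :
    eul w (monomial u c) = (u.sum fun s n => (n : ℂ) * w s) • monomial u c := by
  have h1 : ∀ u : σ →₀ ℕ, eul w (monomial u 1) =
      (u.sum fun s n => (n : ℂ) * w s) • monomial u (1 : ℂ) := by
    intro u
    induction u using Finsupp.induction with
    | zero =>
      rw [Finsupp.sum_zero_index, zero_smul]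
      exact Derivation.map_one_eq_zero _
    | single_add s n u hs hn ih =>
      have e : (monomial (Finsupp.single s n + u) (1 : ℂ) : MvPolynomial σ ℂ) =
          X s ^ n * monomial u 1 := by
        rw [X_pow_eq_monomial, monomial_mul, one_mul]
      classical
      rw [e, Derivation.leibniz, ih, Derivation.leibniz_pow, Finsupp.sum_add_index'
        (fun _ => by simp) (fun _ _ _ => by push_cast; ring), Finsupp.sum_single_index (by simp)]
      have e3 : (X s : MvPolynomial σ ℂ) ^ n = X s ^ (n - 1) * X s := by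
        rw [← pow_succ]
        congr 1
        omega
      rw [eul_X, e3, smul_eq_C_mul, smul_eq_C_mul, C_add, C_mul, smul_eq_mul, smul_eq_mul,
        nsmul_eq_mul, smul_eq_mul]
      have e4 : (C (n : ℂ) : MvPolynomial σ ℂ) = n := map_natCast C n
      rw [e4]
      ring
  have e : (monomial u c : MvPolynomial σ ℂ) = c • monomial u 1 := by
    rw [smul_monomial, smul_eq_mul, mul_one]
  rw [e, Derivation.map_smul, h1, smul_comm]

/-- Coefficients of eigenvectors. -/
theorem eul_eig (w : σ → ℂ) (p : MvPolynomial σ ℂ) (d : ℂ) (h : eul w p = d • p)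
    (u : σ →₀ ℕ) (hu : coeff u p ≠ 0) : (u.sum fun s n => (n : ℂ) * w s) = d := by
  classical
  have h1 : coeff u (eul w p) = (u.sum fun s n => (n : ℂ) * w s) * coeff u p := by
    conv_lhs => rw [p.as_sum, map_sum, coeff_sum]
    rw [Finset.sum_eq_single u]
    · rw [eul_monomial, coeff_smul, coeff_monomial, if_pos rfl, smul_eq_mul]
    · intro v _ hv
      rw [eul_monomial, coeff_smul, coeff_monomial, if_neg hv, smul_zero]
    · intro hn
      exact absurd (mem_support_iff.2 hu) hn
  rw [h, coeff_smul, smul_eq_mul] at h1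
  exact (mul_right_cancel₀ hu h1).symm

theorem weight_cast (w : σ → ℕ) (u : σ →₀ ℕ) :
    ((Finsupp.weight w u : ℕ) : ℂ) = u.sum fun s n => (n : ℂ) * (w s : ℂ) := by
  rw [Finsupp.weight_apply, Finsupp.sum, Finsupp.sum, Nat.cast_sum]
  refine Finset.sum_congr rfl fun s _ => ?_
  rw [smul_eq_mul, Nat.cast_mul]

/-- Eigenvectors of the Euler derivation are weighted homogeneous. -/
theorem wh_of_eul (w : σ → ℕ) (p : MvPolynomial σ ℂ) (d : ℕ)
    (h : eul (fun s => (w s : ℂ)) p = (d : ℂ) • p) : IsWeightedHomogeneous w p d := by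
  intro u hu
  have h1 := eul_eig _ p d h u hu
  have h3 : ((Finsupp.weight w u : ℕ) : ℂ) = d := by
    rw [weight_cast]
    exact h1
  exact_mod_cast h3

end euler

namespace LD

variable (L : LD g β η) {κ : ℂ}
variable {E : Type} [AddCommGroup E] [Module ℂ E]

/-- The complex weights of the `D`-degree. -/
def wS : β ⊕ η → ℂ := fun s => (L.wD s : ℂ)

/-- The complex weights of the `c`-degree. -/
def wR : β ⊕ η → ℂ := fun s => (L.cb s : ℂ)

variable {L}

theorem bb_bm (i : β ⊕ η) : L.bb i ∈ L.bm := by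
  rcases i with b | i
  · exact L.nm_le_bm (L.f_mem_nm b)
  · exact L.hs_le_bm (L.h_mem_hs i)

theorem cfs_bb (s i : β ⊕ η) : L.cfs s (L.bb i) = if s = i then 1 else 0 := by
  rcases i with b | i
  · rcases s with c | j
    · show L.form (L.f b) (L.e c) = _
      rw [L.symm, L.ef]
      by_cases h : c = b
      · rw [if_pos h, if_pos (by rw [h])]
      · rw [if_neg h, if_neg (by simpa using h)]
    · show L.form (L.f b) (L.h' j) = _
      rw [((L.mem_nm_iff _).1 (L.f_mem_nm b)).2 j, if_neg (by simp)]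
  · rcases s with c | j
    · show L.form (L.h i) (L.e c) = _
      rw [L.symm, L.eh, if_neg (by simp)]
    · show L.form (L.h i) (L.h' j) = _
      rw [L.hh']
      by_cases h : i = j
      · rw [if_pos h, if_pos (by rw [h])]
      · rw [if_neg h, if_neg (by simpa using (Ne.symm h))]

theorem lamS_bb (i : β ⊕ η) : L.lamS (L.bb i) = MvPolynomial.X i := by
  rw [lamS_apply, Finset.sum_eq_single i]
  · rw [cfs_bb, if_pos rfl, C_1, one_mul]
  · intro s _ hs
    rw [cfs_bb, if_neg hs, C_0, zero_mul]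
  · intro h
    exact absurd (Finset.mem_univ i) h

/-- Compatibility of an operator on `E` with an Euler derivation. -/
theorem IsCL.eulC {X : GMod L.bL L.nL (L.kb κ) E} {Φ : E →ₗ[ℂ] CV β η} (h : IsCL L κ X Φ)
    (w : β ⊕ η → ℂ) (S : E →ₗ[ℂ] E) (P : Submodule ℂ E) (vac : E)
    (ind : ∀ W : Submodule ℂ E, vac ∈ W →
      (∀ (s : ℕ) (a : L.bL) (x : E), x ∈ P → x ∈ W → X.J (-(s : ℤ) - 1) a x ∈ W) → P ≤ W)
    (hv : (Φ vac).1 = 1) (hSv : S vac = 0)
    (hS : ∀ (i : β ⊕ η) (a : L.bL), (a : g) = L.bb i → ∀ (s : ℕ) (x : E), x ∈ P →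
      ∃ r : ℂ, (s = 0 → r = w i) ∧
      S (X.J (-(s : ℤ) - 1) a x) = X.J (-(s : ℤ) - 1) a (S x) + r • X.J (-(s : ℤ) - 1) a x)
    (x : E) (hx : x ∈ P) : (Φ (S x)).1 = eul w (Φ x).1 := by
  let W : Submodule ℂ E :=
    { carrier := {x | (Φ (S x)).1 = eul w (Φ x).1}
      add_mem' := by
        intro x x' hx hx'
        show (Φ (S (x + x'))).1 = _
        rw [map_add, map_add, Prod.fst_add, hx, hx', map_add, Prod.fst_add, map_add]
      zero_mem' := by
        show (Φ (S 0)).1 = _
        rw [map_zero, map_zero]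
        simp
      smul_mem' := by
        intro c x hx
        show (Φ (S (c • x))).1 = _
        rw [map_smul, map_smul, Prod.smul_fst, hx, map_smul, Prod.smul_fst, Derivation.map_smul] }
  have hW : P ≤ W := by
    refine ind W ?_ ?_
    · show (Φ (S vac)).1 = eul w (Φ vac).1
      rw [hSv, map_zero, hv, Derivation.map_one_eq_zero]
      rfl
    · intro s a x hxP hx
      have hx' : (Φ (S x)).1 = eul w (Φ x).1 := hx
      have hb : ∀ (i : β ⊕ η) (a : L.bL), (a : g) = L.bb i → X.J (-(s : ℤ) - 1) a x ∈ W := by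
        intro i a ha
        obtain ⟨r, hr, hr2⟩ := hS i a ha s x hxP
        show (Φ (S (X.J (-(s : ℤ) - 1) a x))).1 = eul w (Φ (X.J (-(s : ℤ) - 1) a x)).1
        rw [hr2, map_add, Prod.fst_add, map_smul, Prod.smul_fst]
        rcases Nat.eq_zero_or_pos s with rfl | hs
        · have e0 : (-((0 : ℕ) : ℤ) - 1) = -1 := by norm_num
          rw [e0, h.J1, h.J1, Prod.smul_fst, Prod.smul_fst, hx', smul_eq_mul, smul_eq_mul,
            Derivation.leibniz, smul_eq_mul, smul_eq_mul, hr rfl, ha]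
          have h1 := lamS_bb (L := L) i
          have h2 : eul w (MvPolynomial.X i) = C (w i) * MvPolynomial.X i := eul_X w i
          rw [h1, h2, smul_eq_C_mul]
          ring
        · rw [h.Jn s hs, h.Jn s hs]
          simp
      have ha := cfs_sum (a : g) a.2
      have ha2 : a = ∑ i, L.cfs i (a : g) • (⟨L.bb i, bb_bm i⟩ : L.bL) := by
        apply Subtype.ext
        rw [AddSubmonoidClass.coe_finsetSum]
        exact ha.symm
      rw [ha2, map_sum, LinearMap.sum_apply]
      refine Submodule.sum_mem _ fun i _ => ?_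
      rw [map_smul, LinearMap.smul_apply]
      exact Submodule.smul_mem _ _ (hb i _ rfl)
  exact hW hx

theorem wD_cb (s : β ⊕ η) : (L.wD s : ℤ) = 1 - L.cb s := by
  rcases s with b | i
  · show ((L.ht b + 1 : ℕ) : ℤ) = 1 - -(L.ht b : ℤ)
    push_cast
    ring
  · rfl

/-- [CL-JA] The Jacobian of the restrictions to `h` of the symbols of the generators is not zero. -/
theorem IsCL.det_ne {X : GMod L.bL L.nL (L.kb κ) E} {Φ : E →ₗ[ℂ] CV β η} (h : IsCL L κ X Φ)
    (Q S R : E →ₗ[ℂ] E) (P : Submodule ℂ E) (vac : E)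
    (ind : ∀ W : Submodule ℂ E, vac ∈ W →
      (∀ (s : ℕ) (a : L.bL) (x : E), x ∈ P → x ∈ W → X.J (-(s : ℤ) - 1) a x ∈ W) → P ≤ W)
    (hv : (Φ vac).1 = 1)
    (hQv : Q vac = 0)
    (hQ : ∀ (s : ℕ) (a : L.bL) (x : E), x ∈ P → Q (X.J (-(s : ℤ) - 1) a x) =
      X.J (-(s : ℤ) - 1) a (Q x) + X.nop (-(s : ℤ) - 1) (L.OmB a) x +
        ((s : ℂ) + 1) • X.ψ (-((s + 1 : ℕ) : ℤ) - 1) (L.LkN κ a) x +
          X.ψ (-(s : ℤ) - 1) (L.pin ⁅L.F, (a : g)⁆) x)
    (hSv : S vac = 0)
    (hS : ∀ (i : β ⊕ η) (a : L.bL), (a : g) = L.bb i → ∀ (s : ℕ) (x : E), x ∈ P →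
      S (X.J (-(s : ℤ) - 1) a x) =
        X.J (-(s : ℤ) - 1) a (S x) + ((s : ℂ) + (L.wD i : ℂ)) • X.J (-(s : ℤ) - 1) a x)
    (hRv : R vac = 0)
    (hR : ∀ (i : β ⊕ η) (a : L.bL), (a : g) = L.bb i → ∀ (s : ℕ) (x : E), x ∈ P →
      R (X.J (-(s : ℤ) - 1) a x) =
        X.J (-(s : ℤ) - 1) a (R x) + (L.cb i : ℂ) • X.J (-(s : ℤ) - 1) a x)
    (m : η → ℕ) (z : η → L.bL) (hzm : ∀ i, (z i : g) ∈ L.gr (-(m i : ℤ)))
    (hli : LinearIndependent ℂ fun i => (z i : g))
    (w : η → E) (hwP : ∀ i, w i ∈ P) (hwQ : ∀ i, Q (w i) = 0)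
    (hwS : ∀ i, S (w i) = ((m i + 1 : ℕ) : ℂ) • w i)
    (hwR : ∀ i, w i - X.J (-1) (z i) vac ∈
      Submodule.span ℂ {y : E | y ∈ P ∧ ∃ c : ℤ, -(m i : ℤ) < c ∧ R y = (c : ℂ) • y}) :
    (∀ i, IsWeightedHomogeneous L.wD (Φ (w i)).1 (m i + 1)) ∧
    (Matrix.of fun i k => pderiv k (res (Φ (w i)).1) :
      Matrix η η (MvPolynomial η ℂ)).det ≠ 0 := by
  have hp : ∀ i, IsWeightedHomogeneous L.wD (Φ (w i)).1 (m i + 1) := by
    intro i
    apply wh_of_eul
    have := h.eulC L.wS S P vac ind hv hSv (fun i a ha s x hx =>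
      ⟨(s : ℂ) + (L.wD i : ℂ), fun hs => by rw [hs, Nat.cast_zero, zero_add]; rfl,
        hS i a ha s x hx⟩) (w i) (hwP i)
    rw [hwS, map_smul, Prod.smul_fst] at this
    exact this.symm
  refine ⟨hp, ja_det (fun i => (Φ (w i)).1) m (fun i => (z i : g)) ?_ hzm hli ?_ hp ?_⟩
  · intro i
    have h1 := (L.mem_bm_iff (z i : g)).1 (z i).2
    unfold Pp
    simp only [LinearMap.sum_apply, LinearMap.smulRight_apply, LinearMap.flip_apply, h1, zero_smul,
      Finset.sum_const_zero]
  · intro i b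
    rw [← h.main Q P vac ind hv hQv hQ (w i) (hwP i) b, hwQ, map_zero]
    rfl
  · intro i s
    by_cases hs : L.wD s = m i + 1
    · have h1 : (Φ (w i)).1 = L.lamS (z i : g) + (Φ (w i - X.J (-1) (z i) vac)).1 := by
        rw [map_sub, Prod.fst_sub, h.J1, Prod.smul_fst, hv, smul_eq_mul, mul_one]
        ring
      have h2 : ∀ y ∈ Submodule.span ℂ {y : E | y ∈ P ∧ ∃ c : ℤ, -(m i : ℤ) < c ∧
          R y = (c : ℂ) • y}, coeff (Finsupp.single s 1) (Φ y).1 = 0 := by
        intro y hy
        induction hy using Submodule.span_induction with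
        | mem y hy =>
          obtain ⟨hyP, c, hc, hRy⟩ := hy
          by_contra hne
          have h3 : eul L.wR (Φ y).1 = (c : ℂ) • (Φ y).1 := by
            have := h.eulC L.wR R P vac ind hv hRv (fun i a ha s x hx =>
              ⟨(L.cb i : ℂ), fun _ => rfl, hR i a ha s x hx⟩) y hyP
            rw [hRy, map_smul, Prod.smul_fst] at this
            exact this.symm
          have h4 := eul_eig L.wR _ _ h3 _ hne
          rw [Finsupp.sum_single_index (by simp)] at h4
          have h5 : (L.cb s : ℂ) = c := by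
            rw [← h4]
            show (L.cb s : ℂ) = ((1 : ℕ) : ℂ) * (L.cb s : ℂ)
            push_cast
            ring
          have h6 : L.cb s = c := by exact_mod_cast h5
          have h7 := wD_cb (L := L) s
          omega
        | zero => rw [map_zero]; rfl
        | add x y _ _ hx hy => rw [map_add, Prod.fst_add, coeff_add, hx, hy, add_zero]
        | smul r x _ hx => rw [map_smul, Prod.smul_fst, coeff_smul, hx, smul_zero]
      show coeff (Finsupp.single s 1) (Φ (w i)).1 = _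
      rw [h1, coeff_add, h2 _ (hwR i), add_zero, coeff_lamS]
    · rw [cfs_gr s (z i : g) (m i) (hzm i) hs]
      by_contra hne
      have h1 : Finsupp.weight L.wD (Finsupp.single s 1) = m i + 1 := hp i hne
      rw [Finsupp.weight_single, one_smul] at h1
      exact hs h1

end LD

end

end WPE
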