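import Pool.Agent.WPQ.HAM

/-! [WPE-JA2] Basic invariants from the nonvanishing of the Jacobian. -/

namespace WPQ

open MvPolynomial

noncomputable section

variable {ι : Type} [Fintype ι] [DecidableEq ι] {A : Matrix ι ι ℤ}

/-- The linear forms of `rfS A j`. -/
def ja2L (A : Matrix ι ι ℤ) (j i : ι) : MvPolynomial ι ℂ := X i - C (A i j : ℂ) * X j

theorem ja2_rfS (A : Matrix ι ι ℤ) (j : ι) : rfS A j = aeval (ja2L A j) := rfl

theorem ja2_detL (hA : IsADE A) (j : ι) : (Jac (ja2L A j)).det = -1 := by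
  have h1 : Jac (ja2L A j) = 1 - (Matrix.of fun (i : ι) (_ : Unit) => (C (A i j : ℂ) : MvPolynomial ι ℂ)) *
      (Matrix.of fun (_ : Unit) (k : ι) => if k = j then (1 : MvPolynomial ι ℂ) else 0) := by
    ext1 i k
    rw [Matrix.sub_apply, Matrix.mul_apply, Matrix.one_apply]
    unfold Jac ja2L
    rw [Matrix.of_apply, map_sub, pderiv_C_mul, pderiv_X, pderiv_X, Fintype.sum_unique]
    simp only [Matrix.of_apply]
    by_cases h : k = j
    · subst h
      rw [Pi.single_eq_same, if_pos rfl]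
      by_cases h2 : i = k
      · subst h2
        rw [Pi.single_eq_same, if_pos rfl]
      · rw [Pi.single_eq_of_ne h2, if_neg h2]
    · rw [if_neg h, mul_zero, Pi.single_eq_of_ne (Ne.symm h), mul_zero]
      by_cases h2 : i = k
      · subst h2
        rw [Pi.single_eq_same, if_pos rfl]
      · rw [Pi.single_eq_of_ne h2, if_neg h2]
  rw [h1, Matrix.det_one_sub_mul_comm, Matrix.det_unique, Matrix.sub_apply, Matrix.mul_apply,
    Matrix.one_apply_eq, Finset.sum_eq_single j]
  · show (1 : MvPolynomial ι ℂ) - (if j = j then 1 else 0) * C ((A j j : ℤ) : ℂ) = -1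
    rw [if_pos rfl, one_mul, hA.diag]
    have : (C ((2 : ℤ) : ℂ) : MvPolynomial ι ℂ) = 2 := by
      push_cast
      exact map_ofNat C 2
    rw [this]
    ring
  · intro b _ hb
    simp only [Matrix.of_apply]
    rw [if_neg hb, zero_mul]
  · intro h
    exact absurd (Finset.mem_univ j) h

theorem ja2_map_det (f : MvPolynomial ι ℂ →ₐ[ℂ] MvPolynomial ι ℂ)
    (M : Matrix ι ι (MvPolynomial ι ℂ)) : (M.map f).det = f M.det := by
  rw [AlgHom.map_det, AlgHom.mapMatrix_apply]

theorem ja2_skew (hA : IsADE A) (P : ι → MvPolynomial ι ℂ) (j : ι)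
    (inv : ∀ i, rfS A j (P i) = P i) : rfS A j (Jac P).det = -(Jac P).det := by
  have h1 : Jac (fun i => rfS A j (P i)) = (Jac P).map (rfS A j) * Jac (ja2L A j) :=
    (HA5 ι).jac (ja2L A j) P
  have h2 : (fun i => rfS A j (P i)) = P := by
    funext i
    exact inv i
  rw [h2] at h1
  have h3 : (Jac P).det = rfS A j (Jac P).det * (-1) := by
    calc (Jac P).det = ((Jac P).map (rfS A j) * Jac (ja2L A j)).det := by rw [← h1]
      _ = ((Jac P).map (rfS A j)).det * (Jac (ja2L A j)).det := Matrix.det_mul _ _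
      _ = rfS A j (Jac P).det * (-1) := by rw [ja2_map_det, ja2_detL hA j]
  have h4 := congrArg Neg.neg h3
  rw [mul_neg, neg_neg, mul_one] at h4
  exact h4.symm

theorem ja2_homog (P : ι → MvPolynomial ι ℂ) (d : ι → ℕ) (hom : ∀ i, (P i).IsHomogeneous (d i)) :
    (Jac P).det.IsHomogeneous (∑ i, (d i - 1)) := by
  rw [Matrix.det_apply]
  refine IsHomogeneous.sum _ _ _ fun σ _ => ?_
  have h1 : (∏ i, Jac P (σ i) i).IsHomogeneous (∑ i, (d (σ i) - 1)) := by
    refine IsHomogeneous.prod _ _ _ fun i _ => ?_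
    exact (hom (σ i)).pderiv
  rw [Equiv.sum_comp σ (fun i => d i - 1)] at h1
  rcases Int.units_eq_one_or (Equiv.Perm.sign σ) with h | h
  · rw [h, one_smul]
    exact h1
  · rw [h, Units.neg_smul, one_smul]
    exact Submodule.neg_mem (homogeneousSubmodule ι ℂ _) h1

theorem ja2_PiA_homog (A : Matrix ι ι ℤ) : (PiA A).IsHomogeneous (posRoots A).card := by
  unfold PiA
  have h : ∀ c ∈ posRoots A, (lf c).IsHomogeneous 1 := by
    intro c _
    unfold lf
    refine IsHomogeneous.sum _ _ _ fun i _ => ?_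
    have := (isHomogeneous_C ι (c i : ℂ)).mul (isHomogeneous_X ℂ i)
    rwa [zero_add] at this
  have h2 := IsHomogeneous.prod (posRoots A) lf (fun _ => 1) h
  rw [Finset.sum_const, smul_eq_mul, mul_one] at h2
  exact h2

/-- [JA] Invariants with nonvanishing Jacobian and the right degrees are basic invariants. -/
theorem ja_inv (hA : IsADE A) (P : ι → MvPolynomial ι ℂ) (d : ι → ℕ) (hd : ∀ i, 1 ≤ d i)
    (hom : ∀ i, (P i).IsHomogeneous (d i)) (inv : ∀ i j, rfS A j (P i) = P i)
    (hdet : (Jac P).det ≠ 0) (hsum : ∑ i, (d i - 1) = (posRoots A).card) :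
    ∃ c, Inv A P d c := by
  have hs : ∀ j, rfS A j (Jac P).det = -(Jac P).det := fun j => ja2_skew hA P j fun i => inv i j
  obtain ⟨q, hq⟩ := (HA10 ι).dvdS A hA _ hs fun j => (HA6 ι).skew A hA j _ (hs j)
  have hP0 : PiA A ≠ 0 := (HA10 ι).ne A hA
  have hq0 : q ≠ 0 := by
    rintro rfl
    rw [mul_zero] at hq
    exact hdet hq
  have h1 : (Jac P).det.totalDegree = (posRoots A).card := by
    rw [(ja2_homog P d hom).totalDegree hdet, hsum]
  have h2 : (PiA A).totalDegree = (posRoots A).card := (ja2_PiA_homog A).totalDegree hP0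
  have h3 := totalDegree_mul_of_isDomain hP0 hq0
  rw [← hq, h1, h2] at h3
  have h4 : q.totalDegree = 0 := by omega
  have h5 := totalDegree_eq_zero_iff_eq_C.1 h4
  refine ⟨coeff 0 q, ⟨hA, hd, hom, inv, ?_, ?_⟩⟩
  · rw [hq, mul_comm, ← h5]
  · intro h
    rw [h, C_0] at h5
    exact hq0 h5

end

end WPQ
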