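import Pool.Agent.WPE.CL3
import Pool.Agent.WPE.JA2
import Pool.Agent.WPE.VGD

/-! [WPE-CL4] The symbols of the images of the generators under the Miura map. -/

set_option autoImplicit false

namespace WPE

open MvPolynomial WPQ
open scoped TensorProduct

noncomputable section

section symbols

variable {ι : Type} [Fintype ι] [DecidableEq ι]

/-- The part of `f` with the variables `X (i,0)` only. -/
def ro (ι : Type) : Fock ι →ₐ[ℂ] MvPolynomial ι ℂ :=
  aeval fun x : ι × ℕ => if x.2 = 0 then X x.1 else 0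

/-- The substitution `X i ↦ c X i`. -/
def sg (ι : Type) (c : ℂ) : MvPolynomial ι ℂ →ₐ[ℂ] MvPolynomial ι ℂ := aeval fun i => C c * X i

omit [Fintype ι] [DecidableEq ι] in
theorem ro_monomial (u : ι × ℕ →₀ ℕ) (c : ℂ) (d : ℕ) (hu : Finsupp.weight (wF (ι := ι)) u = d) :
    (ro ι (monomial u c)).IsHomogeneous d ∧
      DLt d ((monomial u c : Fock ι) - inc0 (ro ι (monomial u c))) := by
  classical
  by_cases h : ∀ x ∈ u.support, x.2 = 0
  · have e : inc0 (ro ι (monomial u c)) = (monomial u c : Fock ι) := by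
      rw [monomial_eq, map_mul, map_mul, Finsupp.prod, map_prod, map_prod]
      unfold ro inc0
      rw [algHom_C, algebraMap_eq, rename_C]
      congr 1
      refine Finset.prod_congr rfl fun x hx => ?_
      rw [map_pow, map_pow, aeval_X, if_pos (h x hx), rename_X]
      congr 2
      exact Prod.ext rfl (h x hx).symm
    constructor
    · have e2 : ro ι (monomial u c) = C c * ∏ x ∈ u.support, X x.1 ^ u x := by
        rw [monomial_eq, map_mul, Finsupp.prod, map_prod]
        unfold ro
        rw [algHom_C, algebraMap_eq]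
        congr 1
        refine Finset.prod_congr rfl fun x hx => ?_
        rw [map_pow, aeval_X, if_pos (h x hx)]
      have e3 : d = 0 + ∑ x ∈ u.support, u x := by
        rw [← hu, Finsupp.weight_apply, Finsupp.sum, zero_add]
        refine Finset.sum_congr rfl fun x hx => ?_
        show u x * (x.2 + 1) = u x
        rw [h x hx, zero_add, mul_one]
      rw [e2, e3]
      refine (isHomogeneous_C _ _).mul (IsHomogeneous.prod _ _ _ fun x _ => ?_)
      have := (isHomogeneous_X ℂ x.1).pow (u x)
      rwa [one_mul] at this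
    · rw [e, sub_self]
      intro m _
      exact map_zero _
  · push Not at h
    obtain ⟨x, hx, hx2⟩ := h
    have e : ro ι (monomial u c) = 0 := by
      rw [monomial_eq, map_mul, Finsupp.prod, map_prod]
      unfold ro
      rw [Finset.prod_eq_zero hx, mul_zero]
      rw [map_pow, aeval_X, if_neg hx2, zero_pow (Finsupp.mem_support_iff.1 hx)]
    rw [e, map_zero, sub_zero]
    refine ⟨isHomogeneous_zero _ _ _, fun m hm => ?_⟩
    apply homogeneousComponent_eq_zero'
    intro v hv
    have hv2 : v = u := by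
      by_contra hne
      rw [mem_support_iff, coeff_monomial, if_neg (Ne.symm hne)] at hv
      exact hv rfl
    subst hv2
    have h1 : Finsupp.degree v < Finsupp.weight (wF (ι := ι)) v := by
      rw [Finsupp.weight_apply, Finsupp.degree_apply, Finsupp.sum]
      refine Finset.sum_lt_sum (fun y _ => ?_) ⟨x, hx, ?_⟩
      · show v y ≤ v y * (y.2 + 1)
        exact Nat.le_mul_of_pos_right _ (Nat.succ_pos _)
      · show v x < v x * (x.2 + 1)
        have h3 : 1 ≤ v x := Nat.one_le_iff_ne_zero.2 (Finsupp.mem_support_iff.1 hx)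
        have h4 : 1 ≤ x.2 := Nat.one_le_iff_ne_zero.2 hx2
        nlinarith
    omega

omit [Fintype ι] [DecidableEq ι] in
theorem ro_spec (f : Fock ι) (d : ℕ) (hf : FH f d) :
    (ro ι f).IsHomogeneous d ∧ DLt d (f - inc0 (ro ι f)) := by
  have h : ∀ u ∈ f.support, Finsupp.weight (wF (ι := ι)) u = d := fun u hu =>
    hf (mem_support_iff.1 hu)
  constructor
  · rw [f.as_sum, map_sum]
    exact IsHomogeneous.sum _ _ _ fun u hu => (ro_monomial u _ d (h u hu)).1
  · intro m hm
    have e : f - inc0 (ro ι f) = ∑ u ∈ f.support, ((monomial u (coeff u f) : Fock ι) -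
        inc0 (ro ι (monomial u (coeff u f)))) := by
      conv_lhs => rw [f.as_sum]
      rw [map_sum, map_sum, ← Finset.sum_sub_distrib]
    rw [e, map_sum]
    exact Finset.sum_eq_zero fun u hu => (ro_monomial u _ d (h u hu)).2 m hm

omit [Fintype ι] in
theorem pderiv_sg (c : ℂ) (k : ι) (q : MvPolynomial ι ℂ) :
    pderiv k (sg ι c q) = C c * sg ι c (pderiv k q) := by
  induction q using MvPolynomial.induction_on with
  | C a =>
    unfold sg
    rw [aeval_C, pderiv_C, map_zero, mul_zero]
    exact pderiv_C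
  | add p q hp hq => rw [map_add, map_add, map_add, map_add, hp, hq, mul_add]
  | mul_X q i hq =>
    have e : sg ι c (X i) = C c * X i := by
      unfold sg
      rw [aeval_X]
    rw [map_mul, Derivation.leibniz, Derivation.leibniz, hq, e, pderiv_C_mul, smul_eq_mul,
      smul_eq_mul, smul_eq_mul, smul_eq_mul, map_add, map_mul, map_mul, e, pderiv_X]
    by_cases h : i = k
    · subst h
      rw [Pi.single_eq_same, map_one]
      ring
    · rw [Pi.single_eq_of_ne h, map_zero]
      ring

omit [Fintype ι] [DecidableEq ι] in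
theorem sg_inj (c : ℂ) (hc : c ≠ 0) (q : MvPolynomial ι ℂ) (h : sg ι c q = 0) : q = 0 := by
  have e : sg ι c⁻¹ (sg ι c q) = q := by
    unfold sg
    rw [← AlgHom.comp_apply, comp_aeval]
    have : (fun i => (aeval fun i => C c⁻¹ * X i) (C c * X i)) =
        (X : ι → MvPolynomial ι ℂ) := by
      funext i
      rw [map_mul, aeval_X, algHom_C, algebraMap_eq, ← mul_assoc, ← C_mul, mul_inv_cancel₀ hc, C_1,
        one_mul]
    rw [this, aeval_X_left]
    rfl
  rw [← e, h, map_zero]

/-- The Jacobian after the substitution `X i ↦ c X i`. -/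
theorem jac_sg (c : ℂ) (hc : c ≠ 0) (q : ι → MvPolynomial ι ℂ)
    (h : (Matrix.of fun i k => pderiv k (q i) : Matrix ι ι (MvPolynomial ι ℂ)).det ≠ 0) :
    (Jac fun i => sg ι c (q i)).det ≠ 0 := by
  have e : (Jac fun i => sg ι c (q i)) =
      (C c : MvPolynomial ι ℂ) • ((Matrix.of fun i k => pderiv k (q i) : Matrix ι ι (MvPolynomial ι ℂ)).map (sg ι c)) := by
    ext1 i k
    unfold Jac
    rw [Matrix.of_apply, pderiv_sg, Matrix.smul_apply, Matrix.map_apply, Matrix.of_apply,
      smul_eq_mul]
  rw [e, Matrix.det_smul, ja2_map_det]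
  refine mul_ne_zero (pow_ne_zero _ ?_) fun h0 => h (sg_inj c hc _ h0)
  rw [Ne, C_eq_zero]
  exact hc

end symbols

namespace LD

variable {g β ι : Type} [LieRing g] [LieAlgebra ℂ g] [Fintype β] [DecidableEq β] [Fintype ι]
  [DecidableEq ι]
variable {L : LD g β ι} {κ : ℂ}
variable {E : Type} [AddCommGroup E] [Module ℂ E]

/-- The symbols under the Miura map `U`. -/
theorem IsCL.miura {X : GMod L.bL L.nL (L.kb κ) E} {Φ : E →ₗ[ℂ] CV β ι} (h : IsCL L κ X Φ)
    (P : Submodule ℂ E) (vac : E)
    (ind : ∀ W : Submodule ℂ E, vac ∈ W →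
      (∀ (s : ℕ) (a : L.bL) (x : E), x ∈ P → x ∈ W → X.J (-(s : ℤ) - 1) a x ∈ W) → P ≤ W)
    (hv : (Φ vac).1 = 1) (U : E →ₗ[ℂ] Fock ι) (c0 : ℂ) (hUv : U vac = 1)
    (hUh : ∀ (i : ι) (s : ℕ) (x : E), x ∈ P →
      U (X.J (-(s : ℤ) - 1) (L.hB i) x) = C (c0 * ((s : ℂ) + 1)) * MvPolynomial.X (i, s) * U x)
    (hUf : ∀ (b : β) (s : ℕ) (x : E), x ∈ P → U (X.J (-(s : ℤ) - 1) (L.fB b) x) = 0)
    (x : E) (hx : x ∈ P) : ro ι (U x) = sg ι c0 (res (Φ x).1) := by
  let W : Submodule ℂ E := LinearMap.eqLocus ((ro ι).toLinearMap ∘ₗ U)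
    ((sg ι c0).toLinearMap ∘ₗ (res (β := β) (η := ι)).toLinearMap ∘ₗ LinearMap.fst ℂ _ _ ∘ₗ Φ)
  have hW : P ≤ W := by
    refine ind W ?_ ?_
    · show ro ι (U vac) = sg ι c0 (res (Φ vac).1)
      rw [hUv, hv, map_one, map_one, map_one]
    · intro s a x hxP hx
      have hx' : ro ι (U x) = sg ι c0 (res (Φ x).1) := hx
      have hb : ∀ (i : β ⊕ ι) (a : L.bL), (a : g) = L.bb i → X.J (-(s : ℤ) - 1) a x ∈ W := by
        intro i a ha
        show ro ι (U (X.J (-(s : ℤ) - 1) a x)) = sg ι c0 (res (Φ (X.J (-(s : ℤ) - 1) a x)).1)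
        rcases i with b | i
        · have ha2 : a = L.fB b := Subtype.ext ha
          subst ha2
          rw [hUf b s x hxP, map_zero]
          rcases Nat.eq_zero_or_pos s with rfl | hs
          · have e0 : (-((0 : ℕ) : ℤ) - 1) = -1 := by norm_num
            have e1 : L.lamS (L.fB b : g) = MvPolynomial.X (Sum.inl b) := lamS_bb (Sum.inl b)
            rw [e0, h.J1, Prod.smul_fst, smul_eq_mul, map_mul, e1]
            have e2 : res (MvPolynomial.X (Sum.inl b) : MvPolynomial (β ⊕ ι) ℂ) = 0 := by
              unfold res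
              rw [aeval_X]
              rfl
            rw [e2, zero_mul, map_zero]
          · rw [h.Jn s hs]
            simp
        · have ha2 : a = L.hB i := Subtype.ext ha
          subst ha2
          rw [hUh i s x hxP]
          rcases Nat.eq_zero_or_pos s with rfl | hs
          · have e0 : (-((0 : ℕ) : ℤ) - 1) = -1 := by norm_num
            have e1 : L.lamS (L.hB i : g) = MvPolynomial.X (Sum.inr i) := lamS_bb (Sum.inr i)
            have e2 : res (MvPolynomial.X (Sum.inr i) : MvPolynomial (β ⊕ ι) ℂ) =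
                MvPolynomial.X i := by
              unfold res
              rw [aeval_X]
              rfl
            have e3 : sg ι c0 (MvPolynomial.X i) = C c0 * MvPolynomial.X i := by
              unfold sg
              rw [aeval_X]
            have e4 : ro ι (MvPolynomial.X (i, 0)) = MvPolynomial.X i := by
              unfold ro
              rw [aeval_X, if_pos rfl]
            have e5 : ro ι (C (c0 * (((0 : ℕ) : ℂ) + 1))) = C c0 := by
              unfold ro
              rw [algHom_C, algebraMap_eq, Nat.cast_zero, zero_add, mul_one]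
            rw [e0, h.J1, Prod.smul_fst, smul_eq_mul, e1, map_mul (ro ι), map_mul (ro ι), e5, e4,
              map_mul (res (β := β) (η := ι)), e2, map_mul (sg ι c0), e3, hx']
          · have e4 : ro ι (MvPolynomial.X (i, s)) = 0 := by
              unfold ro
              rw [aeval_X, if_neg (by simp only; omega)]
            rw [h.Jn s hs, map_mul, map_mul, e4, mul_zero, zero_mul]
            simp
      have ha := cfs_sum (a : g) a.2
      have ha2 : a = ∑ i, L.cfs i (a : g) • (⟨L.bb i, bb_bm i⟩ : L.bL) := by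
        apply Subtype.ext
        rw [AddSubmonoidClass.coe_finsetSum]
        exact ha.symm
      rw [ha2, map_sum, LinearMap.sum_apply]
      refine Submodule.sum_mem _ fun i _ => ?_
      rw [map_smul, LinearMap.smul_apply]
      exact Submodule.smul_mem _ _ (hb i _ rfl)
  exact hW hx

/-- The weight under the Miura map. -/
theorem IsCL.miura_wt {X : GMod L.bL L.nL (L.kb κ) E}
    (P : Submodule ℂ E) (vac : E)
    (ind : ∀ W : Submodule ℂ E, vac ∈ W →
      (∀ (s : ℕ) (a : L.bL) (x : E), x ∈ P → x ∈ W → X.J (-(s : ℤ) - 1) a x ∈ W) → P ≤ W)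
    (S : E →ₗ[ℂ] E) (hSP : ∀ x ∈ P, S x ∈ P) (hSv : S vac = 0)
    (hS : ∀ (i : β ⊕ ι) (a : L.bL), (a : g) = L.bb i → ∀ (s : ℕ) (x : E), x ∈ P →
      S (X.J (-(s : ℤ) - 1) a x) =
        X.J (-(s : ℤ) - 1) a (S x) + ((s : ℂ) + (L.wD i : ℂ)) • X.J (-(s : ℤ) - 1) a x)
    (U : E →ₗ[ℂ] Fock ι) (c0 : ℂ) (hUv : U vac = 1)
    (hUh : ∀ (i : ι) (s : ℕ) (x : E), x ∈ P →
      U (X.J (-(s : ℤ) - 1) (L.hB i) x) = C (c0 * ((s : ℂ) + 1)) * MvPolynomial.X (i, s) * U x)
    (hUf : ∀ (b : β) (s : ℕ) (x : E), x ∈ P → U (X.J (-(s : ℤ) - 1) (L.fB b) x) = 0)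
    (x : E) (hx : x ∈ P) (d : ℕ) (hd : S x = (d : ℂ) • x) : FH (U x) d := by
  let D := eul fun y : ι × ℕ => ((wF y : ℕ) : ℂ)
  let W : Submodule ℂ E := LinearMap.eqLocus (U ∘ₗ S) ((D : Fock ι →ₗ[ℂ] Fock ι) ∘ₗ U)
  have hW : P ≤ W := by
    refine ind W ?_ ?_
    · show U (S vac) = D (U vac)
      rw [hSv, hUv, map_zero, Derivation.map_one_eq_zero]
    · intro s a x hxP hx
      have hx' : U (S x) = D (U x) := hx
      have hb : ∀ (i : β ⊕ ι) (a : L.bL), (a : g) = L.bb i → X.J (-(s : ℤ) - 1) a x ∈ W := by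
        intro i a ha
        show U (S (X.J (-(s : ℤ) - 1) a x)) = D (U (X.J (-(s : ℤ) - 1) a x))
        rw [hS i a ha s x hxP, map_add, map_smul]
        rcases i with b | i
        · have ha2 : a = L.fB b := Subtype.ext ha
          subst ha2
          rw [hUf b s x hxP, hUf b s _ (hSP x hxP), map_zero, smul_zero, add_zero]
        · have ha2 : a = L.hB i := Subtype.ext ha
          subst ha2
          rw [hUh i s x hxP, hUh i s _ (hSP x hxP), hx', mul_assoc, mul_assoc, ← smul_eq_C_mul,
            ← smul_eq_C_mul, Derivation.map_smul, Derivation.leibniz]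
          have e1 : D (MvPolynomial.X (i, s)) = C ((s : ℂ) + 1) * MvPolynomial.X (i, s) := by
            have := eul_X (fun y : ι × ℕ => ((wF y : ℕ) : ℂ)) (i, s)
            rw [this]
            congr 2
            show ((s + 1 : ℕ) : ℂ) = _
            push_cast
            ring
          have e2 : (L.wD (Sum.inr i) : ℂ) = 1 := by
            show ((1 : ℕ) : ℂ) = 1
            exact Nat.cast_one
          rw [e1, e2, smul_eq_mul, smul_eq_mul, smul_add, smul_comm ((s : ℂ) + 1),
            smul_eq_C_mul (MvPolynomial.X (i, s) * U x) ((s : ℂ) + 1)]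
          congr 2
          ring
      have ha := cfs_sum (a : g) a.2
      have ha2 : a = ∑ i, L.cfs i (a : g) • (⟨L.bb i, bb_bm i⟩ : L.bL) := by
        apply Subtype.ext
        rw [AddSubmonoidClass.coe_finsetSum]
        exact ha.symm
      rw [ha2, map_sum, LinearMap.sum_apply]
      refine Submodule.sum_mem _ fun i _ => ?_
      rw [map_smul, LinearMap.smul_apply]
      exact Submodule.smul_mem _ _ (hb i _ rfl)
  have h1 : U (S x) = D (U x) := hW hx
  rw [hd, map_smul] at h1
  exact wh_of_eul _ _ _ h1.symm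

end LD

end

end WPE
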