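import Pool.Agent.WPE.CL1
import Pool.Agent.WPE.CL4
import Pool.Agent.WPE.IND4
import Pool.Agent.WPE.VGM

/-! [WPE-CL5] The classical limit on the vacuum complex and the generators of `V^G`. -/

set_option autoImplicit false

namespace WPE

open MvPolynomial WPQ
open scoped TensorProduct

noncomputable section

variable {g β η : Type} [LieRing g] [LieAlgebra ℂ g] [Fintype β] [DecidableEq β] [Fintype η]
  [DecidableEq η]

namespace LD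

variable (L : LD g β η) (κ : ℂ)

theorem kb_isInv : IsInvForm (L.kb κ) := ⟨L.kb_symm κ, L.kb_inv κ⟩

/-- The vacuum complex. -/
abbrev VX : Type := VC (L.kb κ) L.nL

/-- The currents and ghosts on the vacuum complex. -/
abbrev vmod : GMod L.bL L.nL (L.kb κ) (L.VX κ) := cmod (L.kb κ) L.nL (TMod.triv L.bL)

/-- The constants. -/
def cC (β η : Type) : ℂ →ₗ[ℂ] MvPolynomial (β ⊕ η) ℂ := Algebra.linearMap ℂ _

/-- The initial map. -/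
def clφ : KN L.nL ℂ →ₗ[ℂ] CV β η :=
  LinearMap.prod (cC β η ∘ₗ LinearMap.fst ℂ _ _)
    (LinearMap.pi fun b => cC β η ∘ₗ L.form.flip (L.e b) ∘ₗ L.jng ∘ₗ Finsupp.lapply 0 ∘ₗ
      (TensorProduct.rid ℂ (Gh L.nL)).toLinearMap ∘ₗ LinearMap.fst ℂ _ _ ∘ₗ LinearMap.snd ℂ _ _)

theorem clφ_fst (v : KN L.nL ℂ) : (L.clφ v).1 = C v.1 := rfl

theorem clφ_snd (v : KN L.nL ℂ) (b : β) :
    (L.clφ v).2 b = C (L.form (L.jng ((TensorProduct.rid ℂ (Gh L.nL) v.2.1) 0)) (L.e b)) := rfl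

theorem Internal.clφ_om (k : ℕ) (y : L.nL) (v : KN L.nL ℂ) (b : β) :
    (L.clφ (ghOm L.nL (Finsupp.single k y) v)).2 b =
      if k = 0 then C (L.form (L.jng y) (L.e b)) * (L.clφ v).1 else 0 := by
  rw [clφ_snd, clφ_fst, ghOm_apply]
  have h2 : TensorProduct.rid ℂ (Gh L.nL) (Finsupp.single k y ⊗ₜ[ℂ] v.1) =
      v.1 • Finsupp.single k y := TensorProduct.rid_tmul _ _
  show C (L.form (L.jng ((TensorProduct.rid ℂ (Gh L.nL) (Finsupp.single k y ⊗ₜ[ℂ] v.1)) 0))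
    (L.e b)) = _
  rw [h2, Finsupp.smul_apply]
  split_ifs with hk
  · subst hk
    rw [Finsupp.single_eq_same, map_smul, map_smul, LinearMap.smul_apply, smul_eq_mul, C_mul,
      mul_comm]
  · rw [Finsupp.single_eq_of_ne (Ne.symm hk), smul_zero, map_zero, map_zero,
      LinearMap.zero_apply, C_0]

export Internal (clφ_om)

/-- The classical limit map exists. -/
theorem cl_exists : ∃ Φ : L.VX κ →ₗ[ℂ] CV β η, IsCL L κ (L.vmod κ) Φ ∧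
    (Φ (cvac (L.kb κ) L.nL)).1 = 1 := by
  obtain ⟨Φ, h0, h1, h2⟩ := exists_char (T := (TMod.gt L.nL (TMod.triv L.bL)).toTMod)
    (L.kb_isInv κ) (L.lamS ∘ₗ L.jb) L.clφ
  refine ⟨Φ, ?_, ?_⟩
  · refine IsCL.of_gen (L.vmod κ) Φ (Ind.incl (L.kb κ) (TMod.gt L.nL (TMod.triv L.bL)).toTMod)
      (fun W hW1 hW2 => neg_induction (L.kb_isInv κ) W hW1 hW2) h1 (fun s hs a x => h2 s a x hs) ?_
    intro k y v b
    have h3 : (L.vmod κ).ψ (-(k : ℤ) - 1) y (Ind.incl _ _ v) =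
        Ind.incl _ _ (ghOm L.nL (Finsupp.single k y) v) :=
      Ind.psi_incl_neg (L.kb κ) (TMod.gt L.nL (TMod.triv L.bL)) k y v
    rw [h3, h0, h0]
    exact L.clφ_om k y v b
  · have h3 : Φ (cvac (L.kb κ) L.nL) = L.clφ ((1 : ℂ), 0, 0) := h0 _
    rw [h3]
    exact C_1

/-- Induction for `C⁰`. -/
theorem Internal.c0_ind (W : Submodule ℂ (L.VX κ)) (hW : cvac (L.kb κ) L.nL ∈ W)
    (hJ : ∀ (s : ℕ) (a : L.bL) (x : L.VX κ), x ∈ cpart (L.kb κ) L.nL (TMod.triv L.bL) 0 → x ∈ W →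
      (L.vmod κ).J (-(s : ℤ) - 1) a x ∈ W) :
    cpart (L.kb κ) L.nL (TMod.triv L.bL) 0 ≤ W := by
  rintro x ⟨y, rfl⟩
  have h := neg_induction (L.kb_isInv κ) (W.comap (cpr (L.kb κ) L.nL (TMod.triv L.bL) 0))
    (fun v => ?_) (fun s a x hx => ?_) y
  · exact h
  · rw [Submodule.mem_comap, cpr_incl]
    have e : Ind.incl (L.kb κ) (TMod.gt L.nL (TMod.triv L.bL)).toTMod (KNpr L.nL ℂ 0 v) =
        v.1 • cvac (L.kb κ) L.nL := by
      unfold cvac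
      rw [← map_smul]
      congr 1
      rw [KNpr_zero]
      simp
    rw [e]
    exact Submodule.smul_mem _ _ hW
  · rw [Submodule.mem_comap] at hx ⊢
    have h2 := cpr_J (κ := L.kb κ) (Y := L.nL) (T := TMod.triv L.bL) 0 (-(s : ℤ) - 1) a x
    have h3 := hJ s a _ ⟨x, rfl⟩ hx
    rw [← h2] at h3
    exact h3

export Internal (c0_ind)

end LD

/-- [CL] The generators of `V^G` from the generators of `ker Q`. -/
theorem Internal.cl_gens {g β ι : Type} [LieRing g] [LieAlgebra ℂ g] [Fintype β] [DecidableEq β] [Fintype ι]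
    [DecidableEq ι] {A : Matrix ι ι ℤ} {p : ℕ} (hA : IsADE A) (hp : 1 ≤ p)
    (L : LD g β ι) (κ : ℂ) (Q S R : L.VX κ →ₗ[ℂ] L.VX κ)
    (hQv : Q (cvac (L.kb κ) L.nL) = 0)
    (hQ : ∀ (s : ℕ) (a : L.bL) (x : L.VX κ), x ∈ cpart (L.kb κ) L.nL (TMod.triv L.bL) 0 →
      Q ((L.vmod κ).J (-(s : ℤ) - 1) a x) =
      (L.vmod κ).J (-(s : ℤ) - 1) a (Q x) + (L.vmod κ).nop (-(s : ℤ) - 1) (L.OmB a) x +
        ((s : ℂ) + 1) • (L.vmod κ).ψ (-((s + 1 : ℕ) : ℤ) - 1) (L.LkN κ a) x +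
          (L.vmod κ).ψ (-(s : ℤ) - 1) (L.pin ⁅L.F, (a : g)⁆) x)
    (hSP : ∀ x ∈ cpart (L.kb κ) L.nL (TMod.triv L.bL) 0,
      S x ∈ cpart (L.kb κ) L.nL (TMod.triv L.bL) 0)
    (hSv : S (cvac (L.kb κ) L.nL) = 0)
    (hS : ∀ (i : β ⊕ ι) (a : L.bL), (a : g) = L.bb i → ∀ (s : ℕ) (x : L.VX κ),
      x ∈ cpart (L.kb κ) L.nL (TMod.triv L.bL) 0 → S ((L.vmod κ).J (-(s : ℤ) - 1) a x) =
        (L.vmod κ).J (-(s : ℤ) - 1) a (S x) +
          ((s : ℂ) + (L.wD i : ℂ)) • (L.vmod κ).J (-(s : ℤ) - 1) a x)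
    (hRv : R (cvac (L.kb κ) L.nL) = 0)
    (hR : ∀ (i : β ⊕ ι) (a : L.bL), (a : g) = L.bb i → ∀ (s : ℕ) (x : L.VX κ),
      x ∈ cpart (L.kb κ) L.nL (TMod.triv L.bL) 0 → R ((L.vmod κ).J (-(s : ℤ) - 1) a x) =
        (L.vmod κ).J (-(s : ℤ) - 1) a (R x) + (L.cb i : ℂ) • (L.vmod κ).J (-(s : ℤ) - 1) a x)
    (m : ι → ℕ) (z : ι → L.bL) (hzm : ∀ i, (z i : g) ∈ L.gr (-(m i : ℤ)))
    (hli : LinearIndependent ℂ fun i => (z i : g))
    (hsum : ∑ i, m i = (posRoots A).card)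
    (w : ι → L.VX κ) (hwP : ∀ i, w i ∈ cpart (L.kb κ) L.nL (TMod.triv L.bL) 0)
    (hwQ : ∀ i, Q (w i) = 0) (hwS : ∀ i, S (w i) = ((m i + 1 : ℕ) : ℂ) • w i)
    (hwR : ∀ i, w i - (L.vmod κ).J (-1) (z i) (cvac (L.kb κ) L.nL) ∈
      Submodule.span ℂ {y : L.VX κ | y ∈ cpart (L.kb κ) L.nL (TMod.triv L.bL) 0 ∧
        ∃ c : ℤ, -(m i : ℤ) < c ∧ R y = (c : ℂ) • y})
    (U : L.VX κ →ₗ[ℂ] Fock ι) (c0 : ℂ) (hc0 : c0 ≠ 0) (hUv : U (cvac (L.kb κ) L.nL) = 1)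
    (hUh : ∀ (i : ι) (s : ℕ) (x : L.VX κ), x ∈ cpart (L.kb κ) L.nL (TMod.triv L.bL) 0 →
      U ((L.vmod κ).J (-(s : ℤ) - 1) (L.hB i) x) =
        C (c0 * ((s : ℂ) + 1)) * MvPolynomial.X (i, s) * U x)
    (hUf : ∀ (b : β) (s : ℕ) (x : L.VX κ), x ∈ cpart (L.kb κ) L.nL (TMod.triv L.bL) 0 →
      U ((L.vmod κ).J (-(s : ℤ) - 1) (L.fB b) x) = 0)
    (hKK : ∀ i, U (w i) ∈ KK A p) :
    Gens A p (fun i => U (w i)) (fun i => ro ι (U (w i))) (fun i => m i + 1) ∧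
      ∃ c, Inv A (fun i => ro ι (U (w i))) (fun i => m i + 1) c := by
  obtain ⟨Φ, hΦ, hv⟩ := L.cl_exists κ
  obtain ⟨hwh, hdet⟩ := hΦ.det_ne Q S R _ _ (L.c0_ind κ) hv hQv hQ hSv hS hRv hR m z hzm hli w hwP
    hwQ hwS hwR
  have hP : ∀ i, ro ι (U (w i)) = sg ι c0 (LD.res (Φ (w i)).1) := fun i =>
    hΦ.miura _ _ (L.c0_ind κ) hv U c0 hUv hUh hUf (w i) (hwP i)
  have hFH : ∀ i, FH (U (w i)) (m i + 1) := fun i =>
    LD.IsCL.miura_wt (L := L) (X := L.vmod κ) _ _ (L.c0_ind κ) S hSP hSv hS U c0 hUv hUh hUf (w i)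
      (hwP i) (m i + 1) (hwS i)
  have hG : Gens A p (fun i => U (w i)) (fun i => ro ι (U (w i))) (fun i => m i + 1) :=
    ⟨hKK, hFH, fun i => (ro_spec _ _ (hFH i)).1, fun i => (ro_spec _ _ (hFH i)).2,
      fun i => Nat.succ_le_succ (Nat.zero_le _)⟩
  refine ⟨hG, ja_inv hA _ _ (fun i => Nat.succ_le_succ (Nat.zero_le _)) hG.hom
    (vg_inv hA hp _ _ _ hG) ?_ ?_⟩
  · have h1 := jac_sg c0 hc0 (fun i => LD.res (Φ (w i)).1) hdet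
    have h2 : (fun i => ro ι (U (w i))) = fun i => sg ι c0 (LD.res (Φ (w i)).1) := funext hP
    rw [h2]
    exact h1
  · rw [← hsum]
    exact Finset.sum_congr rfl fun i _ => Nat.add_sub_cancel _ _

export Internal (cl_gens)

end

end WPE
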