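import Pool.Agent.WPE.VGD

/-!
# [WPE-D] Type `D`: the interface between the symbol part (D3) and the vector part (D4 - D7)

`KE m`, `KO m` are the even and the odd homogeneous vectors of weight `m` of `V^G` (with respect to the
diagram automorphism), `dec m ≤ KE m` those whose symbol (the component of polynomial degree `m`) is a
sum of products of two even invariants of positive degree, `U m` the vectors `U 2 = ω`, `U 4 = W_4`,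
`U (m + 2) = (W_4)_1 (U m)`, `Pf` the vector of weight `l` with symbol `x_1 ⋯ x_l`.
-/

namespace WPE

open WPQ MvPolynomial

noncomputable section

variable {ι : Type} [Fintype ι] [DecidableEq ι] {A : Matrix ι ι ℤ} {p : ℕ}

/-- The homogeneous vectors of weight `m` of `V^G`. -/
def KH (A : Matrix ι ι ℤ) (p m : ℕ) : Submodule ℂ (Fock ι) :=
  KK A p ⊓ weightedHomogeneousSubmodule ℂ (wF (ι := ι)) m

/-- The span of the `a_(-1) b`, `a ∈ F i`, `b ∈ G j`, `i, j ≥ 1`, `i + j = m`. -/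
def Comp (ε : Cocycle A p) (F G : ℕ → Submodule ℂ (Fock ι)) (m : ℕ) : Submodule ℂ (Fock ι) :=
  Submodule.span ℂ {f | ∃ (i j : ℕ) (a b : Fock ι), 1 ≤ i ∧ 1 ≤ j ∧ i + j = m ∧ a ∈ F i ∧ b ∈ G j ∧
    f = md ε a (-1) b}

/-- The interface. -/
structure EO (l : ℕ) (ε : Cocycle A p) (KE KO dec : ℕ → Submodule ℂ (Fock ι)) (U : ℕ → Fock ι)
    (Pf : Fock ι) : Prop where
  /-- even and odd vectors -/
  le_e : ∀ m, KE m ≤ KH A p m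
  le_o : ∀ m, KO m ≤ KH A p m
  sup : ∀ m, KH A p m ≤ KE m ⊔ KO m
  ee : ∀ (i j c : ℕ) (n : ℤ) (a b : Fock ι), a ∈ KE i → b ∈ KE j → (c : ℤ) = i + j - n - 1 →
    md ε a n b ∈ KE c
  eo : ∀ (i j c : ℕ) (n : ℤ) (a b : Fock ι), a ∈ KE i → b ∈ KO j → (c : ℤ) = i + j - n - 1 →
    md ε a n b ∈ KO c
  oe : ∀ (i j c : ℕ) (n : ℤ) (a b : Fock ι), a ∈ KO i → b ∈ KE j → (c : ℤ) = i + j - n - 1 →
    md ε a n b ∈ KO c
  oo : ∀ (i j c : ℕ) (n : ℤ) (a b : Fock ι), a ∈ KO i → b ∈ KO j → (c : ℤ) = i + j - n - 1 →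
    md ε a n b ∈ KE c
  eT : ∀ (m : ℕ) (f : Fock ι), f ∈ KE m → dT ι f ∈ KE (m + 1)
  oT : ∀ (m : ℕ) (f : Fock ι), f ∈ KO m → dT ι f ∈ KO (m + 1)
  one : (1 : Fock ι) ∈ KE 0
  e0 : KE 0 ≤ Submodule.span ℂ {1}
  e1 : KE 1 = ⊥
  o0 : ∀ m, m < l → KO m = ⊥
  /-- the vectors `U m` and `Pf` -/
  u2 : U 2 ∈ KE 2
  om : Finsupp.single 0 (U 2) = omegaV A p
  u4 : U 4 ∈ KE 4
  u4ne : U 4 ≠ 0
  u4p : (Finsupp.single 0 (U 4) : VL ι) ∈ Prim0 A p 4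
  us : ∀ m, 4 ≤ m → Even m → m + 2 ≤ 2 * l → U (m + 2) = md ε (U 4) 1 (U m)
  pf : Pf ∈ KO l
  pfp : (Finsupp.single 0 Pf : VL ι) ∈ Prim0 A p l
  /-- decomposable symbols -/
  d_le : ∀ m, dec m ≤ KE m
  d0 : ∀ (i j c : ℕ) (a b : Fock ι), 1 ≤ i → 1 ≤ j → i + j = c + 1 → a ∈ KE i → b ∈ KE j →
    md ε a 0 b ∈ dec c
  d1 : ∀ (i j : ℕ) (a b : Fock ι), 1 ≤ i → 1 ≤ j → a ∈ KE i → b ∈ KE j → md ε a (-1) b ∈ dec (i + j)
  dd : ∀ (m : ℕ) (f : Fock ι), f ∈ KE m → dT ι f ∈ dec (m + 1)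
  odd : ∀ m, Odd m → KE m ≤ dec m
  even : ∀ m, Even m → 2 ≤ m → m ≤ 2 * l → KE m ≤ dec m ⊔ Submodule.span ℂ {U m}
  /-- spanning -/
  span_e : ∀ m, 1 ≤ m → m ≤ 2 * l + 1 →
    dec m ≤ Comp ε KE KE m ⊔ (KE (m - 1)).map (dT ι).toLinearMap
  span_o : ∀ m, 1 ≤ m → m < 3 * l →
    KO m ≤ Comp ε KE KO m ⊔ (KO (m - 1)).map (dT ι).toLinearMap ⊔
      (if m = l then Submodule.span ℂ {Pf} else ⊥)
  gen : ∀ m, 2 * l - 2 < m →
    KH A p m ≤ Comp ε (KH A p) (KH A p) m ⊔ (KH A p (m - 1)).map (dT ι).toLinearMap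

/-- [D3] The statement of the symbol part. -/
def st_D3 : Prop :=
  ∀ l : ℕ, 4 ≤ l → ∀ p : ℕ, 2 ≤ p → ∀ (ε : Cocycle (CartanMatrix.D l) p),
    (∃ (w : Fin l → Fock (Fin l)) (P : Fin l → MvPolynomial (Fin l) ℂ) (d : Fin l → ℕ) (c : ℂ),
      Gens (CartanMatrix.D l) p w P d ∧ Inv (CartanMatrix.D l) P d c) →
    ∃ (KE KO dec : ℕ → Submodule ℂ (Fock (Fin l))) (U : ℕ → Fock (Fin l)) (Pf : Fock (Fin l)),
      EO l ε KE KO dec U Pf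

end

end WPE
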