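import Pool.Agent.WPE.DKD
import Pool.Agent.WPE.VGM

/-! [WPE-DA] All even vectors kill x

Plan.  Strong induction on `m` (`E : EO ..`, `1 ≤ m ≤ 2 l`).  (a) `f ∈ dec m`: `E.span_e m`: `f = sum of composites md a (-1) b` (`a ∈ KE i`, `b ∈ KE j`, `i, j ≥ 1`, `i + j = m`) `+ dT f'`, `f' ∈ KE (m-1)`.
Composites: `(h1 ..).comp` with `N = 0`; `KSp x i 0 a`, `KSp x j 0 b` by induction; `md b k a ∈ KE (m-k-1)` (`E.ee`) if `k ≤ m-1`: weight `≥ 1`: induction; weight `0`: `E.e0`, `(h1 ..).one`, `smul`; `k ≥ m`: `md b k a = 0` (`(h0 ..).neg`, `E.le_e`).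
`dT f'`: `(h1 ..).T` (`m - 1 ≥ 1`: induction; `m = 1`: `f' = c • 1`, `dT 1 = 0`).
`m` odd: `E.odd`.  `m` even: `E.even m`: it remains `f = U m`.  `m = 2`: `E.om`, first hypothesis on `x`.  `m = 4`: second hypothesis.  `m ≥ 6`: `V' := md (U 4) 0 (U (m-2)) ∈ KE (m+1)` (`U (m-2) ∈ KE (m-2)`: induction over `E.us`, `E.ee`),
`E.odd (m+1)`, `E.span_e (m+1)`: `V' = C + dT c0`, `c0 ∈ KE m`, `E.even m`: `c0 = d0 + c • U m`, `d0 ∈ dec m`.  `C` is a sum of composites `md a (-1) b`, `i + j = m + 1`; `KE 1 = ⊥` (`E.e1`), so `2 ≤ i, j ≤ m - 1`.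
(b) `KSp x (m+1) 0 C`: `comp`, `md b k a ∈ KE (m-k)`: `k ≥ 1`: induction (or weight `0`), `k = 0`: `md b 0 a ∈ dec m` (`E.d0`) and (a).  `KSp x (m+1) 0 (dT d0)`: (a), `T`.  So for `k ≥ m + 1`:
`mode (single 0 V') k x = c • mode (single 0 (dT (U m))) k x = -c k • mode (single 0 (U m)) (k-1) x` (`transl`, `mode_transl`).
(c) `L(1)`, i.e. `md (U 2) 2`, on `V'`: `(h2 ..).prim`: `= 6 • U m + md (U 4) 0 (md (U 2) 2 (U (m-2)))`, the last term in `dec m` (`E.d0`, `md (U 2) 2 (U (m-2)) ∈ KE (m-3)`).  On `C`: `(h2 ..).comp`: each term is in `dec m`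
(`E.d0`, `E.d1`; `md (U 2) 2 a ∈ KE (i-1)`, `i - 1 ≥ 1`).  On `dT c0`: `(h2 ..).T`: `dT (md (U 2) 2 c0) + 2 m c0`, `E.dd` (`md (U 2) 2 c0 ∈ KE (m-1)`).  So `(6 - 2 m c) • U m ∈ dec m`.  If `6 ≠ 2 m c`: `U m ∈ dec m`, (a).
(d) Otherwise `c m = 3`.  For `n' ≥ m - 2`: `0 = [mode (U4) 3, mode (U (m-2)) n'] x` (second hypothesis; induction for `m - 2`) `= ∑_{k=0}^3 C(3,k) mode (md (U 4) k (U (m-2))) (3+n'-k) x` (`mode_comm`, `Ring.choose 3 k`).
`k = 2, 3`: weights `m-1`, `m-2`: `0` by induction.  `k = 1`: `3 mode (U m) (n'+2) x` (`E.us`), `k = 0`: `mode V' (n'+3) x = -c (n'+3) mode (U m) (n'+2) x`.  So `(3 - c (n'+3)) mode (U m) (n'+2) x = 0` and `3 - c(n'+3) = c (m - n' - 3) ≠ 0`.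
Every `k ≥ m` is `n' + 2`. -/

namespace WPE

open WPQ MvPolynomial AF

noncomputable section

section da

variable {ι : Type} [Fintype ι] [DecidableEq ι] {A : Matrix ι ι ℤ} {p l : ℕ} {ε : Cocycle A p}
  {KE KO dec : ℕ → Submodule ℂ (Fock ι)} {U : ℕ → Fock ι} {Pf : Fock ι} {x : VL ι}

/-- weight `0` -/
theorem da_zero (E : EO l ε KE KO dec U Pf) (t1 : st_DT1 ε) (x : VL ι) (f : Fock ι)
    (hf : f ∈ KE 0) : KSp ε x (0 : ℕ) 0 f := by
  obtain ⟨c, rfl⟩ := Submodule.mem_span_singleton.1 (E.e0 hf)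
  exact t1.smul _ _ _ _ _ (by simpa using t1.one x 0 le_rfl)

/-- products of small weight -/
theorem da_prod (E : EO l ε KE KO dec U Pf) (t0 : st_DT0 ε) (t1 : st_DT1 ε) {m : ℕ}
    (IH : ∀ m' : ℕ, m' < m → ∀ f ∈ KE m', KSp ε x m' 0 f) (i j k : ℕ) (a b : Fock ι)
    (ha : a ∈ KE i) (hb : b ∈ KE j) (hk : i + j < m + k + 1) :
    KSp ε x ((i : ℤ) + j - k - 1) 0 (md ε a k b) := by
  rcases lt_or_ge ((i : ℤ) + j - k - 1) 0 with h | h
  · rw [t0.neg i j k a b (E.le_e i ha) (E.le_e j hb) h]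
    exact t1.zero _ _ _
  · obtain ⟨c, hc⟩ := Int.eq_ofNat_of_zero_le h
    have h1 := E.ee i j c k a b ha hb hc.symm
    have h2 := IH c (by omega) _ h1
    rw [hc]
    exact h2

/-- composites of weight `m` -/
theorem da_comp (E : EO l ε KE KO dec U Pf) (t0 : st_DT0 ε) (t1 : st_DT1 ε) {m : ℕ}
    (IH : ∀ m' : ℕ, m' < m → ∀ f ∈ KE m', KSp ε x m' 0 f) (f : Fock ι)
    (hf : f ∈ Comp ε KE KE m) : KSp ε x m 0 f := by
  refine t1.span x m 0 _ ?_ f hf
  rintro g ⟨i, j, a, b, hi, hj, hij, ha, hb, rfl⟩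
  have h1 := t1.comp x i j 0 a b (by omega) le_rfl (IH i (by omega) a ha) (IH j (by omega) b hb) ?_
  · rwa [← Nat.cast_add, hij] at h1
  · intro k
    have h2 := da_prod E t0 t1 IH j i k b a hb ha (by omega)
    rwa [show (j : ℤ) + i - k - 1 = (i : ℤ) + j - k - 1 by ring] at h2

/-- [a] decomposable vectors -/
theorem da_dec (E : EO l ε KE KO dec U Pf) (t0 : st_DT0 ε) (t1 : st_DT1 ε) {m : ℕ} (hm : 1 ≤ m)
    (hl : m ≤ 2 * l + 1) (IH : ∀ m' : ℕ, m' < m → ∀ f ∈ KE m', KSp ε x m' 0 f) (f : Fock ι)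
    (hf : f ∈ dec m) : KSp ε x m 0 f := by
  obtain ⟨g, hg, y, hy, rfl⟩ := Submodule.mem_sup.1 (E.span_e m hm hl hf)
  obtain ⟨f', hf', rfl⟩ := Submodule.mem_map.1 hy
  refine t1.add _ _ _ _ _ (da_comp E t0 t1 IH g hg) ?_
  have h1 := t1.T x _ _ _ (IH (m - 1) (by omega) f' hf')
  rwa [show ((m - 1 : ℕ) : ℤ) + 1 = m by omega] at h1

/-- the vectors `U m` -/
theorem da_U (E : EO l ε KE KO dec U Pf) : ∀ n : ℕ, 1 ≤ n → 2 * n ≤ 2 * l → U (2 * n) ∈ KE (2 * n) := by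
  intro n
  induction n with
  | zero => intro h; omega
  | succ n ih =>
    intro _ hl
    rcases Nat.eq_zero_or_pos n with h0 | h0
    · subst h0
      exact E.u2
    · rcases Nat.eq_or_lt_of_le h0 with h1 | h1
      · have : n = 1 := by omega
        subst this
        exact E.u4
      · have h2 := E.us (2 * n) (by omega) (even_two_mul n) (by omega)
        rw [show 2 * (n + 1) = 2 * n + 2 by ring, h2]
        refine E.ee 4 (2 * n) (2 * n + 2) 1 _ _ E.u4 (ih h0 (by omega)) ?_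
        push_cast
        ring

theorem da_U' (E : EO l ε KE KO dec U Pf) (m : ℕ) (hm : Even m) (h2 : 2 ≤ m) (hl : m ≤ 2 * l) :
    U m ∈ KE m := by
  obtain ⟨n, rfl⟩ := hm
  rw [← two_mul] at *
  exact da_U E n (by omega) hl

/-- the first argument is linear -/
theorem da_md_zero (hA : IsADE A) (hp : 1 ≤ p) (ε : Cocycle A p) (n : ℤ) (b : Fock ι) :
    md ε (0 : Fock ι) n b = 0 := by
  have h := (vg_2 hA hp ε).smul 0 (0 : Fock ι) n
  rw [zero_smul, zero_smul] at h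
  rw [h, LinearMap.zero_apply]

/-- composites of weight `m + 1` -/
theorem da_comp1 (hA : IsADE A) (hp : 1 ≤ p) (E : EO l ε KE KO dec U Pf) (t0 : st_DT0 ε)
    (t1 : st_DT1 ε) {m : ℕ} (hm : 1 ≤ m) (hl : m ≤ 2 * l)
    (IH : ∀ m' : ℕ, m' < m → ∀ f ∈ KE m', KSp ε x m' 0 f) (f : Fock ι)
    (hf : f ∈ Comp ε KE KE (m + 1)) : KSp ε x ((m : ℤ) + 1) 0 f := by
  refine t1.span x ((m : ℤ) + 1) 0 _ ?_ f hf
  rintro g ⟨i, j, a, b, hi, hj, hij, ha, hb, rfl⟩
  by_cases hi1 : i = 1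
  · subst hi1
    rw [E.e1, Submodule.mem_bot] at ha
    subst ha
    rw [da_md_zero hA hp]
    exact t1.zero _ _ _
  by_cases hj1 : j = 1
  · subst hj1
    rw [E.e1, Submodule.mem_bot] at hb
    subst hb
    rw [map_zero]
    exact t1.zero _ _ _
  have h1 := t1.comp x i j 0 a b (by omega) le_rfl (IH i (by omega) a ha) (IH j (by omega) b hb) ?_
  · rwa [show (i : ℤ) + j = (m : ℤ) + 1 by omega] at h1
  · intro k
    rcases Nat.eq_zero_or_pos k with hk | hk
    · subst hk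
      have h2 := da_dec E t0 t1 hm (by omega) IH _ (E.d0 j i m b a hj hi (by omega) hb ha)
      rw [show (i : ℤ) + j - (0 : ℕ) - 1 = m by omega]
      exact h2
    · have h2 := da_prod E t0 t1 IH j i k b a hb ha (by omega)
      rwa [show (j : ℤ) + i - k - 1 = (i : ℤ) + j - k - 1 by ring] at h2

/-- `L(1)` on composites of weight `m + 1` -/
theorem da_L1 (hA : IsADE A) (hp : 1 ≤ p) (E : EO l ε KE KO dec U Pf) (t2 : st_DA0 ε (U 2)) {m : ℕ}
    (f : Fock ι) (hf : f ∈ Comp ε KE KE (m + 1)) : md ε (U 2) 2 f ∈ dec m := by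
  have hsub : Comp ε KE KE (m + 1) ≤ (dec m).comap (md ε (U 2) 2) := by
    refine Submodule.span_le.2 ?_
    rintro g ⟨i, j, a, b, hi, hj, hij, ha, hb, rfl⟩
    change md ε (U 2) 2 (md ε a (-1) b) ∈ dec m
    by_cases hi1 : i = 1
    · subst hi1
      rw [E.e1, Submodule.mem_bot] at ha
      subst ha
      rw [da_md_zero hA hp, map_zero]
      exact (dec m).zero_mem
    by_cases hj1 : j = 1
    · subst hj1
      rw [E.e1, Submodule.mem_bot] at hb
      subst hb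
      rw [map_zero, map_zero]
      exact (dec m).zero_mem
    rw [t2.comp i a b (E.le_e i ha)]
    refine (dec m).add_mem ((dec m).add_mem ((dec m).smul_mem _ ?_) ?_) ?_
    · exact E.d0 i j m a b hi hj (by omega) ha hb
    · have h1 : md ε (U 2) 2 a ∈ KE (i - 1) := E.ee 2 i (i - 1) 2 _ _ E.u2 ha (by push_cast; omega)
      have h2 := E.d1 (i - 1) j _ b (by omega) hj h1 hb
      rwa [show i - 1 + j = m by omega] at h2
    · have h1 : md ε (U 2) 2 b ∈ KE (j - 1) := E.ee 2 j (j - 1) 2 _ _ E.u2 hb (by push_cast; omega)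
      have h2 := E.d1 i (j - 1) a _ hi (by omega) ha h1
      rwa [show i + (j - 1) = m by omega] at h2
  exact hsub hf

/-- the modes of a derivative -/
theorem da_dT (hA : IsADE A) (hp : 1 ≤ p) (t0 : st_DT0 ε) (f : Fock ι) (k : ℤ) (z : VL ι) :
    mode ε (Finsupp.single 0 (dT ι f)) k z = (-k : ℂ) • mode ε (Finsupp.single 0 f) (k - 1) z := by
  rw [← t0.transl f, LS_zero_neg_one, mode_transl hA hp, LinearMap.smul_apply]

/-- the modes are linear in the vector -/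
theorem da_mode_add (hA : IsADE A) (hp : 1 ≤ p) (ε : Cocycle A p) (f g : Fock ι) (k : ℤ)
    (z : VL ι) : mode ε (Finsupp.single 0 (f + g)) k z =
      mode ε (Finsupp.single 0 f) k z + mode ε (Finsupp.single 0 g) k z := by
  rw [Finsupp.single_add, mode_add hA hp, LinearMap.add_apply]

theorem da_mode_smul (hA : IsADE A) (hp : 1 ≤ p) (ε : Cocycle A p) (c : ℂ) (f : Fock ι) (k : ℤ)
    (z : VL ι) : mode ε (Finsupp.single 0 (c • f)) k z = c • mode ε (Finsupp.single 0 f) k z := by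
  rw [← Finsupp.smul_single, mode_smul hA hp, LinearMap.smul_apply]

/-- `C(3, j)` -/
theorem da_choose (j : ℕ) (hj : 4 ≤ j) : (Ring.choose (3 : ℤ) j : ℤ) = 0 := by
  have h : Ring.choose ((3 : ℕ) : ℤ) j = (Nat.choose 3 j : ℤ) := Ring.choose_natCast 3 j
  rw [show (3 : ℤ) = ((3 : ℕ) : ℤ) from rfl, h, Nat.choose_eq_zero_of_lt (by omega)]
  rfl

/-- the commutator of `(U 4)_3` and `v_n` -/
theorem da_bracket (hA : IsADE A) (hp : 1 ≤ p) (E : EO l ε KE KO dec U Pf) (t0 : st_DT0 ε) {j : ℕ}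
    (v : Fock ι) (hv : v ∈ KE j) (n : ℤ) (z : VL ι)
    (h1 : mode ε (Finsupp.single 0 (U 4)) 3 z = 0) (h2 : mode ε (Finsupp.single 0 v) n z = 0) :
    mode ε (Finsupp.single 0 (md ε (U 4) 0 v)) (n + 3) z +
      (3 : ℂ) • mode ε (Finsupp.single 0 (md ε (U 4) 1 v)) (n + 2) z +
      (3 : ℂ) • mode ε (Finsupp.single 0 (md ε (U 4) 2 v)) (n + 1) z +
      mode ε (Finsupp.single 0 (md ε (U 4) 3 v)) n z = 0 := by
  have hs : ∀ k : ℤ, mode ε (Finsupp.single 0 (U 4)) k (Finsupp.single 0 v) =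
      Finsupp.single 0 (md ε (U 4) k v) := fun k => (vg_2 hA hp ε).single (U 4) v k
  have hM : ∀ k : ℕ, j + 4 ≤ k →
      mode ε (Finsupp.single 0 (U 4)) k (Finsupp.single 0 v) = 0 := by
    intro k hk
    rw [hs, t0.neg 4 j k (U 4) v (E.le_e 4 E.u4) (E.le_e j hv) (by push_cast; omega),
      Finsupp.single_zero]
  have h3 := LinearMap.congr_fun (mode_comm hA hp ε (Finsupp.single 0 (U 4)) (Finsupp.single 0 v)
    (j + 4) hM 3 n) z
  rw [LinearMap.sub_apply, LinearMap.comp_apply, LinearMap.comp_apply, h1, h2, map_zero, map_zero,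
    sub_zero, LinearMap.sum_apply] at h3
  have hsum : ∑ k ∈ Finset.range (j + 4), (((Ring.choose (3 : ℤ) k : ℤ) : ℂ) •
      mode ε (mode ε (Finsupp.single 0 (U 4)) k (Finsupp.single 0 v)) (3 + n - k)) z =
      ∑ k ∈ Finset.range 4, (((Ring.choose (3 : ℤ) k : ℤ) : ℂ) •
      mode ε (mode ε (Finsupp.single 0 (U 4)) k (Finsupp.single 0 v)) (3 + n - k)) z := by
    symm
    apply Finset.sum_subset
    · intro k hk
      rw [Finset.mem_range] at hk ⊢
      omega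
    · intro k _ hk
      rw [Finset.mem_range, not_lt] at hk
      rw [da_choose k hk, Int.cast_zero, zero_smul, LinearMap.zero_apply]
  rw [hsum] at h3
  have c2 : (Ring.choose (3 : ℤ) 2 : ℤ) = 3 := by
    have h : Ring.choose ((3 : ℕ) : ℤ) 2 = (Nat.choose 3 2 : ℤ) := Ring.choose_natCast 3 2
    rw [show (3 : ℤ) = ((3 : ℕ) : ℤ) from rfl, h]
    rfl
  have c3 : (Ring.choose (3 : ℤ) 3 : ℤ) = 1 := by
    have h : Ring.choose ((3 : ℕ) : ℤ) 3 = (Nat.choose 3 3 : ℤ) := Ring.choose_natCast 3 3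
    rw [show (3 : ℤ) = ((3 : ℕ) : ℤ) from rfl, h]
    rfl
  rw [Finset.sum_range_succ, Finset.sum_range_succ, Finset.sum_range_succ, Finset.sum_range_succ,
    Finset.sum_range_zero, zero_add, Ring.choose_zero_right, Ring.choose_one_right, c2, c3] at h3
  simp only [LinearMap.smul_apply, hs, Int.cast_one, one_smul] at h3
  have e0 : (3 : ℤ) + n - ((0 : ℕ) : ℤ) = n + 3 := by push_cast; ring
  have e1 : (3 : ℤ) + n - ((1 : ℕ) : ℤ) = n + 2 := by push_cast; ring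
  have e2 : (3 : ℤ) + n - ((2 : ℕ) : ℤ) = n + 1 := by push_cast; ring
  have e3 : (3 : ℤ) + n - ((3 : ℕ) : ℤ) = n := by push_cast; ring
  rw [e0, e1, e2, e3] at h3
  exact h3.symm

/-- the vector `U m`, `m ≥ 6` -/
theorem da_main (hA : IsADE A) (hp : 2 ≤ p) (E : EO l ε KE KO dec U Pf) (t0 : st_DT0 ε)
    (t1 : st_DT1 ε) (t2 : st_DA0 ε (U 2)) {m : ℕ} (hm : 6 ≤ m) (he : Even m) (hl : m ≤ 2 * l)
    (IH : ∀ m' : ℕ, m' < m → ∀ f ∈ KE m', KSp ε x m' 0 f)
    (h4 : mode ε (Finsupp.single 0 (U 4)) 3 x = 0) : KSp ε x m 0 (U m) := by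
  have hp1 : 1 ≤ p := by omega
  obtain ⟨n, rfl⟩ : ∃ n, m = n + 2 := ⟨m - 2, by omega⟩
  have hne : Even n := by
    rw [Nat.even_add] at he
    exact he.2 even_two
  have hU : U n ∈ KE n := da_U' E n hne (by omega) (by omega)
  have hUs : U (n + 2) = md ε (U 4) 1 (U n) := E.us n (by omega) hne hl
  have hV : md ε (U 4) 0 (U n) ∈ KE (n + 2 + 1) :=
    E.ee 4 n (n + 2 + 1) 0 _ _ E.u4 hU (by push_cast; ring)
  have hodd : Odd (n + 2 + 1) := he.add_one
  obtain ⟨C, hC, y, hy, hCy⟩ := Submodule.mem_sup.1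
    (E.span_e (n + 2 + 1) (by omega) (by omega) (E.odd _ hodd hV))
  obtain ⟨c0, hc0, rfl⟩ := Submodule.mem_map.1 hy
  rw [show n + 2 + 1 - 1 = n + 2 by omega] at hc0
  obtain ⟨d0, hd0, w, hw, hdw⟩ := Submodule.mem_sup.1 (E.even (n + 2) he (by omega) hl hc0)
  obtain ⟨c, rfl⟩ := Submodule.mem_span_singleton.1 hw
  have hdec : ∀ f ∈ dec (n + 2), KSp ε x (n + 2 : ℕ) 0 f := fun f hf =>
    da_dec E t0 t1 (by omega) (by omega) IH f hf
  -- (b)
  have hb : ∀ k : ℤ, (n : ℤ) + 3 ≤ k → mode ε (Finsupp.single 0 (md ε (U 4) 0 (U n))) k x =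
      (c * -k : ℂ) • mode ε (Finsupp.single 0 (U (n + 2))) (k - 1) x := by
    intro k hk
    have h1 : mode ε (Finsupp.single 0 C) k x = 0 :=
      da_comp1 hA hp1 E t0 t1 (by omega) hl IH C hC k (by push_cast; omega)
    have h2 : mode ε (Finsupp.single 0 (dT ι d0)) k x = 0 :=
      t1.T x _ _ _ (hdec d0 hd0) k (by push_cast; omega)
    have h3 : md ε (U 4) 0 (U n) = C + (dT ι d0 + c • dT ι (U (n + 2))) := by
      rw [← hCy, ← hdw]
      congr 1
      change dT ι (d0 + c • U (n + 2)) = _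
      rw [map_add, Derivation.map_smul]
    rw [h3, da_mode_add hA hp1, da_mode_add hA hp1, da_mode_smul hA hp1, h1, h2, zero_add, zero_add,
      da_dT hA hp1 t0, smul_smul]
  -- (c)
  have hc : (6 - 2 * ((n + 2 : ℕ) : ℂ) * c) • U (n + 2) ∈ dec (n + 2) := by
    have h1 := t2.prim (U 4) E.u4p (U n)
    rw [← hUs] at h1
    have h2 : md ε (U 4) 0 (md ε (U 2) 2 (U n)) ∈ dec (n + 2) :=
      E.d0 4 (n - 1) (n + 2) _ _ (by omega) (by omega) (by omega) E.u4
        (E.ee 2 n (n - 1) 2 _ _ E.u2 hU (by push_cast; omega))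
    have h3 : md ε (U 2) 2 C ∈ dec (n + 2) := da_L1 hA hp1 E t2 C hC
    have h4 : md ε (U 2) 2 (dT ι c0) =
        dT ι (md ε (U 2) 2 c0) + (2 * ((n + 2 : ℕ) : ℂ)) • c0 := t2.T (n + 2) c0 (E.le_e _ hc0)
    have h5 : dT ι (md ε (U 2) 2 c0) ∈ dec (n + 2) := by
      have h6 : md ε (U 2) 2 c0 ∈ KE (n + 1) :=
        E.ee 2 (n + 2) (n + 1) 2 _ _ E.u2 hc0 (by push_cast; ring)
      exact E.dd (n + 1) _ h6
    have h7 : md ε (U 4) 0 (U n) = C + dT ι c0 := hCy.symm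
    rw [h7, map_add, h4] at h1
    have h8 : (6 - 2 * ((n + 2 : ℕ) : ℂ) * c) • U (n + 2) = md ε (U 2) 2 C +
        dT ι (md ε (U 2) 2 c0) + (2 * ((n + 2 : ℕ) : ℂ)) • d0 -
        md ε (U 4) 0 (md ε (U 2) 2 (U n)) := by
      have h9 : (2 * ((n + 2 : ℕ) : ℂ)) • c0 = (2 * ((n + 2 : ℕ) : ℂ)) • d0 +
          (2 * ((n + 2 : ℕ) : ℂ) * c) • U (n + 2) := by
        rw [← hdw, smul_add, smul_smul]
      rw [h9] at h1
      rw [sub_smul, eq_sub_iff_add_eq, sub_add_eq_add_sub, ← h1]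
      abel
    rw [h8]
    exact (dec (n + 2)).sub_mem ((dec (n + 2)).add_mem ((dec (n + 2)).add_mem h3 h5)
      ((dec (n + 2)).smul_mem _ hd0)) h2
  by_cases h6 : (6 - 2 * ((n + 2 : ℕ) : ℂ) * c) = 0
  · -- (d)
    intro k hk
    have hk' : (n : ℤ) + 2 ≤ k := by push_cast at hk; omega
    obtain ⟨n', rfl⟩ : ∃ n' : ℤ, k = n' + 2 := ⟨k - 2, by ring⟩
    have hn' : (n : ℤ) ≤ n' := by omega
    have hv : mode ε (Finsupp.single 0 (U n)) n' x = 0 := IH n (by omega) _ hU n' (by omega)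
    have hbr := da_bracket hA hp1 E t0 (U n) hU n' x h4 hv
    have e2 : mode ε (Finsupp.single 0 (md ε (U 4) 2 (U n))) (n' + 1) x = 0 := by
      refine IH (n + 1) (by omega) _ (E.ee 4 n (n + 1) 2 _ _ E.u4 hU (by push_cast; ring)) _ ?_
      push_cast
      omega
    have e3 : mode ε (Finsupp.single 0 (md ε (U 4) 3 (U n))) n' x = 0 := by
      refine IH n (by omega) _ (E.ee 4 n n 3 _ _ E.u4 hU (by push_cast; ring)) _ ?_
      omega
    rw [e2, e3, smul_zero, add_zero, add_zero, hb (n' + 3) (by omega), ← hUs,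
      show n' + 3 - 1 = n' + 2 by ring, ← add_smul, smul_eq_zero] at hbr
    rcases hbr with h | h
    · exfalso
      have h7 : c * ((n : ℂ) + 2) = 3 := by
        push_cast at h6
        linear_combination (-1 / 2 : ℂ) * h6
      have h8 : c * ((n : ℂ) - n' - 1) = 0 := by
        push_cast at h
        linear_combination h7 + h
      have hc0' : c ≠ 0 := by
        rintro rfl
        rw [zero_mul] at h7
        norm_num at h7
      rcases mul_eq_zero.1 h8 with h9 | h9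
      · exact hc0' h9
      · have h10 : ((n : ℤ) - n' - 1 : ℤ) = 0 := by
          exact_mod_cast h9
        omega
    · exact h
  · have h7 : U (n + 2) ∈ dec (n + 2) := by
      have h8 := (dec (n + 2)).smul_mem (6 - 2 * ((n + 2 : ℕ) : ℂ) * c)⁻¹ hc
      rwa [smul_smul, inv_mul_cancel₀ h6, one_smul] at h8
    exact hdec _ h7

end da

theorem DA (h0 : al_DT0) (h1 : al_DT1) (h2 : al_DA0) : st_DA := by
  intro ι _ _ A hA p hp l ε KE KO dec U Pf E x hx2 hx4
  have t0 := h0 ι A hA p hp ε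
  have t1 := h1 ι A hA p hp ε
  have t2 := h2 ι A hA p hp ε (U 2) E.om
  intro m
  induction m using Nat.strong_induction_on with
  | _ m ih =>
    intro hm hl f hf
    have IH : ∀ m' : ℕ, m' < m → ∀ f ∈ KE m', KSp ε x m' 0 f := by
      intro m' hm' g hg
      rcases Nat.eq_zero_or_pos m' with h | h
      · subst h
        exact da_zero E t1 x g hg
      · exact ih m' hm' h (by omega) g hg
    have hdec : ∀ f ∈ dec m, KSp ε x m 0 f := fun f hf =>
      da_dec E t0 t1 hm (by omega) IH f hf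
    rcases Nat.even_or_odd m with he | ho
    · have h2m : 2 ≤ m := by
        rcases he with ⟨r, rfl⟩
        omega
      obtain ⟨d, hd, w, hw, rfl⟩ := Submodule.mem_sup.1 (E.even m he h2m hl hf)
      obtain ⟨c, rfl⟩ := Submodule.mem_span_singleton.1 hw
      refine t1.add _ _ _ _ _ (hdec d hd) (t1.smul _ _ _ _ _ ?_)
      by_cases hm2 : m = 2
      · subst hm2
        intro k hk
        rw [E.om]
        exact hx2 k (by push_cast at hk; omega)
      by_cases hm4 : m = 4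
      · subst hm4
        intro k hk
        exact hx4 k (by push_cast at hk; omega)
      have hm6 : 6 ≤ m := by
        rcases he with ⟨r, rfl⟩
        omega
      exact da_main hA hp E t0 t1 t2 hm6 he hl IH (hx4 3 le_rfl)
    · exact hdec f (E.odd m ho hf)

end

end WPE
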