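import Pool.Agent.WPE.DKD
import Pool.Agent.WPE.VGM
/-! [WPE-DA0] L(1) on products

Plan.  Everything is an identity of vectors `single 0 _` (`(vg_2 hA _ ε).single`: `mode ε (single 0 u) n (single 0 g) = single 0 (md ε u n g)`; `Finsupp.single_injective`); `single 0 U2 = omegaV`,
`mode ε ω 2 = LS (Shift.zero) 1` (`mode_omega`, `omegaV_eq`).  `prim`: `LS_mode` (VA3) with `m = 4`, `k = 1`, `s = 0`: `[L(1), u_0] = 6 u_1`.  `comp`: `mode_comm` for `(ω, a)`, modes `2`, `-1`:
`[ω_2, a_{-1}] = (ω_0 a)_1 + 2 (ω_1 a)_0 + (ω_2 a)_{-1}` (`C(2,k) = 0` for `k ≥ 3`), `ω_0 a = transl a`, `(transl a)_1 = -a_0` (`mode_transl`), `ω_1 a = i a` (`LS_zero_Vn`).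
`T`: `[L(1), L(-1)] = 2 L(0)` (`en3_vir`), `L(-1) (single 0 f) = single 0 (dT f)`. -/

namespace WPE

open WPQ MvPolynomial AF

noncomputable section

private theorem da0_transl {ι : Type} [Fintype ι] [DecidableEq ι] (u : Fock ι) :
    transl (Finsupp.single (0 : ι → ℤ) u) = Finsupp.single 0 (dT ι u) := by
  unfold transl
  rw [Finsupp.lsum_single]
  have h0 : toC (0 : ι → ℤ) = 0 := by
    funext i
    simp [toC]
  have h : osc (toC (0 : ι → ℤ)) 0 = (0 : Fock ι) := by
    unfold osc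
    refine Finset.sum_eq_zero fun i _ => ?_
    rw [h0, Pi.zero_apply, C_0, zero_mul]
  rw [LinearMap.comp_apply, LinearMap.add_apply, LinearMap.mulLeft_apply, h, zero_mul, add_zero]
  rfl

private theorem da0_vn {ι : Type} [Fintype ι] [DecidableEq ι] {A : Matrix ι ι ℤ} {p : ℕ} (m : ℕ)
    (f : Fock ι) (hf : f ∈ KH A p m) : (Finsupp.single 0 f : VL ι) ∈ Vn A p m := by
  refine Submodule.subset_span ⟨0, f, m, ?_, ?_, rfl⟩
  · exact (Submodule.mem_inf.1 hf).2
  · rw [ad1_wt_zero]
    simp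

theorem DA0 {ι : Type} [Fintype ι] [DecidableEq ι] {A : Matrix ι ι ℤ} {p : ℕ} (hA : IsADE A)
    (hp : 2 ≤ p) (ε : Cocycle A p) (U2 : Fock ι) (h : Finsupp.single 0 U2 = omegaV A p) :
    st_DA0 ε U2 := by
  have hp1 : 1 ≤ p := by omega
  have V := vg_2 hA hp1 ε
  have inj : Function.Injective (Finsupp.single (0 : ι → ℤ) : Fock ι → VL ι) :=
    Finsupp.single_injective 0
  have om : ∀ (n : ℤ) (v : VL ι), mode ε (Finsupp.single 0 U2) n v =
      LS (Shift.zero A p) (n - 1) v := by
    intro n v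
    rw [h, omegaV_eq, mode_omega hA hp1]
  have om2 : ∀ g : Fock ι, (Finsupp.single 0 (md ε U2 2 g) : VL ι) =
      LS (Shift.zero A p) 1 (Finsupp.single 0 g) := by
    intro g
    rw [← V.single, om]
    norm_num
  have tr : ∀ f : Fock ι, LS (Shift.zero A p) (-1) (Finsupp.single 0 f) =
      (Finsupp.single 0 (dT ι f) : VL ι) := by
    intro f
    rw [LS_zero_neg_one, da0_transl]
  refine ⟨?_, ?_, ?_⟩
  · intro u hu v
    obtain ⟨hw, h1, h2⟩ := (pv4_mem 4 _).1 (Submodule.mem_inf.1 hu).1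
    have h0 := LS_zero_Vn hA hp1 4 _ (Submodule.mem_inf.1 hw).2
    have h3 := LinearMap.congr_fun (LS_mode hA hp1 ε _ _ h0 h1 h2 1 0) (Finsupp.single 0 v)
    rw [LinearMap.sub_apply, LinearMap.comp_apply, LinearMap.comp_apply, LinearMap.smul_apply,
      V.single, ← om2, ← om2, V.single, V.single, sub_eq_iff_eq_add] at h3
    apply inj
    rw [h3, Finsupp.single_add, ← Finsupp.smul_single]
    norm_num
  · intro i a b ha
    have hv := da0_vn i a ha
    have h0 := LS_zero_Vn hA hp1 i _ hv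
    have hM : ∀ j : ℕ, i + 3 ≤ j → mode ε (Finsupp.single 0 U2) j (Finsupp.single 0 a) = 0 := by
      intro j hj
      rw [om]
      have h1 := LS_Vn ((j : ℤ) - 1) i _ hv
      rw [vp3_LS_single] at h1 ⊢
      rcases vp2_Vn_comp _ _ h1 0 with h2 | ⟨d, -, hd⟩
      · rw [Finsupp.single_eq_same] at h2
        rw [h2, Finsupp.single_zero]
      · rw [ad1_wt_zero] at hd
        omega
    have h3 := LinearMap.congr_fun (mode_comm hA hp1 ε (Finsupp.single 0 U2) (Finsupp.single 0 a)
      (i + 3) hM 2 (-1)) (Finsupp.single 0 b)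
    have h4 : ∀ k ∈ Finset.range i, ((Ring.choose (2 : ℤ) (k + 3) : ℤ) : ℂ) •
        mode ε (mode ε (Finsupp.single 0 U2) ((k + 3 : ℕ) : ℤ) (Finsupp.single 0 a))
          (2 + -1 - ((k + 3 : ℕ) : ℤ)) = 0 := by
      intro k _
      have h5 : Ring.choose (2 : ℤ) (k + 3) = 0 := by
        have h6 := Ring.choose_natCast (R := ℤ) 2 (k + 3)
        rw [Nat.choose_eq_zero_of_lt (by omega)] at h6
        exact_mod_cast h6
      rw [h5, Int.cast_zero, zero_smul]
    rw [Finset.sum_range_succ', Finset.sum_range_succ', Finset.sum_range_succ'] at h3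
    rw [Finset.sum_eq_zero h4] at h3
    have c0 : Ring.choose (2 : ℤ) 0 = 1 := Ring.choose_zero_right _
    have c1 : Ring.choose (2 : ℤ) 1 = 2 := Ring.choose_one_right _
    have c2 : Ring.choose (2 : ℤ) 2 = 1 := by
      have h6 := Ring.choose_natCast (R := ℤ) 2 2
      rw [Nat.choose_self] at h6
      exact_mod_cast h6
    have e0 : mode ε (Finsupp.single 0 U2) ((0 : ℕ) : ℤ) (Finsupp.single 0 a) =
        transl (Finsupp.single 0 a) := by
      rw [om, ← LS_zero_neg_one (A := A) (p := p)]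
      norm_num
    have e1 : mode ε (Finsupp.single 0 U2) ((0 + 1 : ℕ) : ℤ) (Finsupp.single 0 a) =
        (i : ℂ) • (Finsupp.single 0 a) := by
      rw [om]
      norm_num
      rw [h0]
      norm_num
    have e2 : mode ε (Finsupp.single 0 U2) ((0 + 1 + 1 : ℕ) : ℤ) (Finsupp.single 0 a) =
        (Finsupp.single 0 (md ε U2 2 a)) := by
      rw [om, om2]
      norm_num
    rw [e0, e1, e2, mode_transl hA hp1, mode_smul hA hp1] at h3
    simp only [zero_add, c0, c1, c2] at h3
    rw [LinearMap.sub_apply, LinearMap.comp_apply, LinearMap.comp_apply, V.single, V.single,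
      V.single, V.single, sub_eq_iff_eq_add] at h3
    apply inj
    rw [h3]
    simp only [LinearMap.add_apply, LinearMap.smul_apply, V.single, Finsupp.smul_single,
      ← Finsupp.single_add]
    congr 1
    norm_num
    rw [sub_smul, one_smul, mul_smul]
    abel
  · intro m f hf
    have hv := da0_vn m f hf
    have h0 := LS_zero_Vn hA hp1 m _ hv
    have h1 := en3_vir hA hp1 1 (-1) 0 (by norm_num) (Finsupp.single 0 f : VL ι)
    rw [tr, ← om2, ← om2, tr, h0] at h1
    apply inj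
    rw [h1, Finsupp.single_add, ← Finsupp.smul_single]
    have h2 : (if (1 : ℤ) + -1 = 0 then cc A p / 12 * (((1 : ℤ) : ℂ) ^ 3 - ((1 : ℤ) : ℂ)) else 0)
        = 0 := by
      rw [if_pos (by norm_num)]
      norm_num
    rw [h2, zero_smul, add_zero, smul_smul]
    congr 2
    push_cast
    ring

end

end WPE
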