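import Pool.Agent.WPE.DKD

/-! [WPE-DB1] Odd vectors

Plan.  Strong induction on `m`.  `E.span_o m`: `f = sum of composites md a (-1) b` (`a ∈ KE i`, `b ∈ KO j`, `i, j ≥ 1`, `i + j = m`) `+ dT f' + (m = l: c • Pf)`.  Composites: if `j < l` then `b = 0` (`E.o0`).  `j ≥ l`: `i ≤ m - l < 2 l`, so
`KSp z i 0 a` (`hK.e`), `KSp z j N b` (induction), `md b k a ∈ KO (m-k-1)` (`E.oe`): induction if the weight is `≥ 1`, `KO 0 = ⊥` (`E.o0`, `0 < l`), `md b k a = 0` if `k ≥ m` (`(h0 ..).neg`).  `(h1 ..).comp`.  `dT f'`: `T`, `m - 1 ≥ 1` or `KO 0 = ⊥`.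
`Pf`: `hK.o`. -/

namespace WPE

open WPQ MvPolynomial AF

noncomputable section

/-- The vectors of weight `m` with `KSp` as a submodule. -/
private def db1_S {ι : Type} [Fintype ι] [DecidableEq ι] {A : Matrix ι ι ℤ} {p : ℕ}
    (ε : Cocycle A p) (h : st_DT1 ε) (z : VL ι) (m N : ℤ) : Submodule ℂ (Fock ι) where
  carrier := {f | KSp ε z m N f}
  add_mem' := fun {f g} hf hg => h.add z m N f g hf hg
  zero_mem' := h.zero z m N
  smul_mem' := fun c f hf => h.smul z m N c f hf

theorem DB1 (h0 : al_DT0) (h1 : al_DT1) : st_DB1 := by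
  intro ι _ _ A hA p hp l ε KE KO dec U Pf hE z N hK m
  have t0 := h0 ι A hA p hp ε
  have t1 := h1 ι A hA p hp ε
  induction m using Nat.strong_induction_on with
  | _ m ih =>
    intro hm hml f hf
    have hl : 0 < l := by omega
    suffices hle : KO m ≤ db1_S ε t1 z m N from hle hf
    refine le_trans (hE.span_o m hm hml) (sup_le (sup_le ?_ ?_) ?_)
    · -- composites
      refine Submodule.span_le.2 ?_
      rintro g ⟨i, j, a, b, hi, hj, hij, ha, hb, rfl⟩
      show KSp ε z m N (md ε a (-1) b)
      by_cases hjl : j < l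
      · rw [hE.o0 j hjl, Submodule.mem_bot] at hb
        rw [hb, map_zero]
        exact t1.zero z m N
      · have k1 : KSp ε z (i : ℤ) 0 a := hK.e i hi (by omega) a ha
        have k2 : KSp ε z (j : ℤ) N b := ih j (by omega) hj (by omega) b hb
        have k3 : ∀ k : ℕ, KSp ε z ((i : ℤ) + j - k - 1) N (md ε b k a) := by
          intro k
          by_cases hc : k + 1 < i + j
          · obtain ⟨c, hc'⟩ : ∃ c : ℕ, c = i + j - k - 1 := ⟨_, rfl⟩
            have hcZ : (c : ℤ) = (i : ℤ) + j - k - 1 := by omega
            rw [← hcZ]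
            exact ih c (by omega) (by omega) (by omega) _
              (hE.oe j i c k b a hb ha (by omega))
          · by_cases hc2 : k + 1 = i + j
            · have hmem : md ε b k a ∈ KO 0 := hE.oe j i 0 k b a hb ha (by push_cast; omega)
              rw [hE.o0 0 hl, Submodule.mem_bot] at hmem
              rw [hmem]
              exact t1.zero z _ N
            · have hz : md ε b k a = 0 := t0.neg j i k b a (hE.le_o j hb) (hE.le_e i ha)
                (by omega)
              rw [hz]
              exact t1.zero z _ N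
        have k4 := t1.comp z i j N a b (by omega) (by omega) k1 k2 k3
        have hmZ : (m : ℤ) = (i : ℤ) + j := by omega
        rw [hmZ]
        exact k4
    · -- derivatives
      rintro _ ⟨f', hf', rfl⟩
      show KSp ε z m N (dT ι f')
      by_cases hm1 : m = 1
      · subst hm1
        have hf2 : f' ∈ KO 0 := hf'
        rw [hE.o0 0 hl, Submodule.mem_bot] at hf2
        rw [hf2, map_zero]
        exact t1.zero z _ N
      · have k1 : KSp ε z ((m - 1 : ℕ) : ℤ) N f' := ih (m - 1) (by omega) (by omega) (by omega) f' hf'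
        have k2 := t1.T z _ N f' k1
        have hmZ : (m : ℤ) = ((m - 1 : ℕ) : ℤ) + 1 := by omega
        rw [hmZ]
        exact k2
    · -- the vector `Pf`
      by_cases hm1 : m = l
      · rw [if_pos hm1]
        refine Submodule.span_le.2 ?_
        rintro g hg
        rw [Set.mem_singleton_iff] at hg
        subst hg
        show KSp ε z m N g
        rw [hm1]
        exact hK.o
      · rw [if_neg hm1]
        exact bot_le

end

end WPE
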