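import Pool.Agent.WPE.DKD
import Pool.Agent.WPE.VGM

/-! [WPE-DB2] `P(N) P(N) z = 0 = P(N-1) P(N) z`. -/

namespace WPE

open WPQ MvPolynomial AF

noncomputable section

theorem DB2 (h0 : al_DT0) (h1 : al_DT1) : st_DB2 := by
  intro ι _ _ A hA p hp l ε KE KO dec U Pf hl E z N hN hK
  have hp1 : 1 ≤ p := by omega
  have T0 := h0 ι A hA p hp ε
  have T1 := h1 ι A hA p hp ε
  set P : VL ι := Finsupp.single 0 Pf with hP
  have hPk : ∀ k : ℤ, (l : ℤ) + N ≤ k → mode ε P k z = 0 := fun k hk => hK.o k hk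
  -- the commutators
  have hmm : ∀ a b : ℤ, 2 * (l : ℤ) - 1 ≤ a + b →
      mode ε P a (mode ε P b z) = mode ε P b (mode ε P a z) := by
    intro a b hab
    obtain ⟨M, hM⟩ := mode_trunc hA hp1 ε P P
    have h2 := LinearMap.congr_fun
      (mode_comm hA hp1 ε P P M (fun j hj => hM j (by exact_mod_cast hj)) a b) z
    rw [LinearMap.sub_apply, LinearMap.comp_apply, LinearMap.comp_apply,
      LinearMap.sum_apply] at h2
    rw [← sub_eq_zero, h2]
    refine Finset.sum_eq_zero fun k _ => ?_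
    rw [LinearMap.smul_apply, hP, (vg_2 hA hp1 ε).single]
    have h3 : mode ε (Finsupp.single 0 (md ε Pf k Pf)) (a + b - k) z = 0 := by
      by_cases hk : (k : ℤ) ≤ 2 * l - 1
      · obtain ⟨c, hc⟩ : ∃ c : ℕ, (c : ℤ) = 2 * l - 1 - k := ⟨(2 * (l : ℤ) - 1 - k).toNat, by omega⟩
        have hmem := E.oo l l c k Pf Pf E.pf E.pf (by omega)
        rcases Nat.eq_zero_or_pos c with h | h
        · subst h
          obtain ⟨a', ha'⟩ := Submodule.mem_span_singleton.1 (E.e0 hmem)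
          rw [← ha']
          exact T1.smul z 0 0 a' 1 (T1.one z 0 le_rfl) _ (by push_cast at hc; omega)
        · exact hK.e c h (by omega) _ hmem _ (by omega)
      · rw [T0.neg l l k Pf Pf (E.le_o l E.pf) (E.le_o l E.pf) (by omega), Finsupp.single_zero,
          va3_mode_zero hA hp1, LinearMap.zero_apply]
    rw [h3, smul_zero]
  -- the normally ordered square
  have hPP : ∀ n : ℤ, 2 * (l : ℤ) ≤ n → mode ε (mode ε P (-1) P) n z = 0 := by
    intro n hn
    rw [hP, (vg_2 hA hp1 ε).single]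
    have hmem := E.oo l l (2 * l) (-1) Pf Pf E.pf E.pf (by push_cast; ring)
    exact hK.e (2 * l) (by omega) le_rfl _ hmem n (by push_cast; omega)
  have hsum : ∀ n : ℤ, 2 * (l : ℤ) ≤ n → (l : ℤ) + N ≤ n → ∃ M : ℕ, l + N + 2 ≤ M ∧
      ∑ s ∈ Finset.range M, mode ε P (n - 1 - s) (mode ε P s z) = 0 := by
    intro n hn hn'
    obtain ⟨M0, hM0⟩ := mode_nop hA hp1 ε P P n z
    refine ⟨max M0 (l + N + 2), le_max_right _ _, ?_⟩
    have h2 := hM0 (max M0 (l + N + 2)) (le_max_left _ _)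
    rw [hPP n hn] at h2
    rw [h2]
    refine Finset.sum_congr rfl fun s _ => ?_
    rw [hPk (n + s) (by omega), map_zero, zero_add]
  have hz1 : mode ε P ((N : ℤ) + l - 1) (mode ε P ((N : ℤ) + l - 1) z) = 0 := by
    obtain ⟨M, hM, h2⟩ := hsum (2 * N + 2 * l - 1) (by omega) (by omega)
    rw [Finset.sum_eq_single (l + N - 1)] at h2
    · have e1 : (((l + N - 1 : ℕ)) : ℤ) = (N : ℤ) + l - 1 := by omega
      have e2 : 2 * (N : ℤ) + 2 * l - 1 - 1 - ((N : ℤ) + l - 1) = (N : ℤ) + l - 1 := by ring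
      rw [e1, e2] at h2
      exact h2
    · intro s _ hs
      by_cases hs1 : l + N ≤ s
      · rw [hPk s (by omega), map_zero]
      · rw [hmm _ _ (by omega), hPk _ (by omega), map_zero]
    · intro h3
      exact absurd (Finset.mem_range.2 (by omega)) h3
  refine ⟨hz1, ?_⟩
  obtain ⟨M, hM, h2⟩ := hsum (2 * N + 2 * l - 2) (by omega) (by omega)
  have hmem : l + N - 1 ∈ Finset.range M := Finset.mem_range.2 (by omega)
  have hmem2 : l + N - 2 ∈ (Finset.range M).erase (l + N - 1) :=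
    Finset.mem_erase.2 ⟨by omega, Finset.mem_range.2 (by omega)⟩
  rw [← Finset.add_sum_erase _ _ hmem, ← Finset.add_sum_erase _ _ hmem2, Finset.sum_eq_zero,
    add_zero] at h2
  · have e1 : (((l + N - 1 : ℕ)) : ℤ) = (N : ℤ) + l - 1 := by omega
    have e2 : (((l + N - 2 : ℕ)) : ℤ) = (N : ℤ) + l - 2 := by omega
    have e3 : 2 * (N : ℤ) + 2 * l - 2 - 1 - ((N : ℤ) + l - 1) = (N : ℤ) + l - 2 := by ring
    have e4 : 2 * (N : ℤ) + 2 * l - 2 - 1 - ((N : ℤ) + l - 2) = (N : ℤ) + l - 1 := by ring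
    rw [e1, e2, e3, e4, hmm ((N : ℤ) + l - 1) ((N : ℤ) + l - 2) (by omega), ← two_smul ℂ] at h2
    exact (smul_eq_zero.1 h2).resolve_left two_ne_zero
  · intro s hs
    rw [Finset.mem_erase, Finset.mem_erase] at hs
    by_cases hs1 : l + N ≤ s
    · rw [hPk s (by omega), map_zero]
    · rw [hmm _ _ (by omega), hPk _ (by omega), map_zero]

end

end WPE
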