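import Pool.Agent.WPE.VGD

/-! [VG1] Polynomial degree. -/

namespace WPE

open WPQ MvPolynomial

noncomputable section

variable {ι : Type} [Fintype ι] [DecidableEq ι] {A : Matrix ι ι ℤ} {p : ℕ}

omit [Fintype ι] [DecidableEq ι] in
/-- `DLt n f` says that all monomials of `f` have degree `< n` -/
private theorem vg1_iff (n : ℕ) (f : Fock ι) :
    DLt n f ↔ ∀ d : (ι × ℕ) →₀ ℕ, coeff d f ≠ 0 → d.degree < n := by
  constructor
  · intro h d hd
    by_contra hlt
    have h1 := h d.degree (not_lt.mp hlt)
    have h2 := congrArg (coeff d) h1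
    rw [coeff_homogeneousComponent, if_pos rfl, coeff_zero] at h2
    exact hd h2
  · intro h m hm
    ext d
    rw [coeff_homogeneousComponent, coeff_zero]
    split_ifs with h1
    · by_contra h2
      have := h d h2
      omega
    · rfl

theorem VG1 : st_VG1 ι := by
  constructor
  · intro f h
    ext d
    by_contra h1
    rw [coeff_zero] at h1
    exact absurd ((vg1_iff 0 f).mp h d h1) (Nat.not_lt_zero _)
  · intro n
    rw [vg1_iff]
    intro d hd
    rw [coeff_zero] at hd
    exact absurd rfl hd
  · intro n f g hf hg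
    rw [vg1_iff] at *
    intro d hd
    by_cases h1 : coeff d f = 0
    · refine hg d fun h2 => hd ?_
      rw [coeff_add, h1, h2, add_zero]
    · exact hf d h1
  · intro n f g hf hg
    rw [vg1_iff] at *
    intro d hd
    by_cases h1 : coeff d f = 0
    · refine hg d fun h2 => hd ?_
      rw [coeff_sub, h1, h2, sub_zero]
    · exact hf d h1
  · intro n c f hf
    rw [vg1_iff] at *
    intro d hd
    refine hf d fun h1 => hd ?_
    rw [coeff_smul, h1, smul_zero]
  · intro n κ s F hF
    rw [vg1_iff]
    intro d hd
    rw [coeff_sum] at hd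
    obtain ⟨x, hx, hne⟩ := Finset.exists_ne_zero_of_sum_ne_zero hd
    exact (vg1_iff n (F x)).mp (hF x hx) d hne
  · intro n m f hnm hf
    rw [vg1_iff] at *
    intro d hd
    exact lt_of_lt_of_le (hf d hd) hnm
  · intro a f hf
    rw [vg1_iff]
    intro d hd
    have h1 := hf hd
    have h2 : d.degree = Finsupp.weight 1 d := by
      rw [Finsupp.degree_eq_weight_one (R := ℕ)]
      rfl
    omega
  · intro a b f g hf hg
    rw [vg1_iff] at *
    intro d hd
    rw [coeff_mul] at hd
    obtain ⟨x, hx, hne⟩ := Finset.exists_ne_zero_of_sum_ne_zero hd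
    have h1 := hf x.1 (left_ne_zero_of_mul hne)
    have h2 := hg x.2 (right_ne_zero_of_mul hne)
    rw [← Finset.HasAntidiagonal.mem_antidiagonal.mp hx, map_add]
    omega
  · intro b g x hg
    rw [vg1_iff] at *
    intro d hd
    rw [coeff_pderiv] at hd
    have h1 := hg _ (left_ne_zero_of_mul hd)
    rw [map_add, Finsupp.degree_single] at h1
    omega
  · intro n f hf
    rw [vg1_iff] at *
    intro d hd
    rw [coeff_sub, coeff_homogeneousComponent] at hd
    by_cases h1 : d.degree = n
    · rw [if_pos h1, sub_self] at hd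
      exact absurd rfl hd
    · rw [if_neg h1, sub_zero] at hd
      have := hf d hd
      omega
  · intro f
    refine ⟨f.totalDegree + 1, (vg1_iff _ f).mpr fun d hd => ?_⟩
    have := le_totalDegree (mem_support_iff.mpr hd)
    have h1 : d.degree = d.sum fun _ e => e := rfl
    omega

end

end WPE
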