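import Pool.Agent.WPE.DKD
import Pool.Agent.WPE.R_VG1
import Pool.Agent.WPE.R_VG2

/-! [WPE-DB3] One step of the chain

Plan.  `y = P_{N+l-1} z`, `P = single 0 Pf`.  Part `e`: `f ∈ KE m`, `1 ≤ m ≤ 2l`, `k ≥ m`: `f_k y = P_{N+l-1} (f_k z) + [f_k, P_{N+l-1}] z`, `f_k z = 0` (`hK.e`), the commutator is `∑_i C(k,i) (md f i Pf)_{k+N+l-1-i} z` (`mode_comm`) with `md f i Pf ∈ KO (m+l-i-1)` (`E.eo`), weight `< 3l`,
index `≥ weight + N`: `0` by `h2` (st_DB1) (weight `0`: `E.o0`; negative: `(h0 ..).neg`).  Part `o`: `k ≥ l + (N-2)` (natural subtraction), to show `P_k y = 0`.  If `k ≥ l + N`: `P_k y = P_{N+l-1} P_k z + [P_k, P_{N+l-1}] z`, `P_k z = 0`, the commutator terms `md Pf i Pf ∈ KE (2l-i-1)` at the index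
`k + N + l - 1 - i ≥ 2l - i - 1`: `hK.e`, or weight `0`, or negative.  If `k = N+l-1` or `k = N+l-2`: `h3` (st_DB2).  These are all `k` (`N ≥ 2`: `k ≥ l+N-2`; `N = 1`: `k ≥ l`). -/

namespace WPE

open WPQ MvPolynomial AF

noncomputable section

/-- commutation of two modes when all commutator terms vanish on `z` -/
theorem db3_comm {ι : Type} [Fintype ι] [DecidableEq ι] {A : Matrix ι ι ℤ} {p : ℕ} (hA : IsADE A)
    (hp : 1 ≤ p) (ε : Cocycle A p) (f g : Fock ι) (k j : ℤ) (z : VL ι)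
    (h : ∀ i : ℕ, mode ε (Finsupp.single 0 (md ε f i g)) (k + j - i) z = 0) :
    mode ε (Finsupp.single 0 f) k (mode ε (Finsupp.single 0 g) j z) =
      mode ε (Finsupp.single 0 g) j (mode ε (Finsupp.single 0 f) k z) := by
  obtain ⟨M, hM⟩ := mode_trunc hA hp ε (Finsupp.single 0 f) (Finsupp.single 0 g)
  have h1 := mode_comm hA hp ε (Finsupp.single 0 f) (Finsupp.single 0 g) M
    (fun j hj => hM j (by exact_mod_cast hj)) k j
  have h2 := LinearMap.congr_fun h1 z
  rw [LinearMap.sub_apply, LinearMap.comp_apply, LinearMap.comp_apply, LinearMap.sum_apply] at h2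
  rw [← sub_eq_zero, h2]
  refine Finset.sum_eq_zero fun i _ => ?_
  rw [LinearMap.smul_apply, (VG2 hA hp ε VG1).single, h i, smul_zero]

theorem DB3 (h0 : al_DT0) (h1 : al_DT1) (h2 : st_DB1) (h3 : st_DB2) : st_DB3 := by
  intro ι _ _ A hA p hp l ε KE KO dec U Pf hl hE z N hN hK
  have d0 := h0 ι A hA p hp ε
  have d1 := h1 ι A hA p hp ε
  have hp1 : 1 ≤ p := by omega
  have hzero : ∀ k : ℤ, mode ε (Finsupp.single 0 (0 : Fock ι)) k z = 0 := fun k =>
    d1.zero z k 0 k (by omega)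
  constructor
  · intro m hm1 hm2 f hf k hk
    rw [add_zero] at hk
    have hfz : mode ε (Finsupp.single 0 f) k z = 0 := hK.e m hm1 hm2 f hf k (by omega)
    rw [db3_comm hA hp1 ε f Pf k _ z, hfz, map_zero]
    intro i
    rcases lt_or_ge ((m : ℤ) + l - i - 1) 0 with hlt | hge
    · rw [d0.neg m l i f Pf (hE.le_e m hf) (hE.le_o l hE.pf) hlt]
      exact hzero _
    · obtain ⟨c, hc⟩ := Int.eq_ofNat_of_zero_le hge
      have hmem := hE.eo m l c i f Pf hf hE.pf hc.symm
      rcases Nat.eq_zero_or_pos c with hc0 | hc1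
      · rw [hc0, hE.o0 0 (by omega), Submodule.mem_bot] at hmem
        rw [hmem]
        exact hzero _
      · exact h2 ι A hA p hp l ε KE KO dec U Pf hE z N hK c hc1 (by omega) _ hmem _ (by omega)
  · intro k hk
    rcases lt_or_ge k ((l : ℤ) + N) with hlt | hge
    · have h4 := h3 ι A hA p hp l ε KE KO dec U Pf hl hE z N hN hK
      by_cases hk1 : k = (N : ℤ) + l - 1
      · rw [hk1]; exact h4.1
      · have hk2 : k = (N : ℤ) + l - 2 := by omega
        rw [hk2]; exact h4.2
    · have hPz : mode ε (Finsupp.single 0 Pf) k z = 0 := hK.o k (by omega)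
      rw [db3_comm hA hp1 ε Pf Pf k _ z, hPz, map_zero]
      intro i
      rcases lt_or_ge ((l : ℤ) + l - i - 1) 0 with hlt | hge'
      · rw [d0.neg l l i Pf Pf (hE.le_o l hE.pf) (hE.le_o l hE.pf) hlt]
        exact hzero _
      · obtain ⟨c, hc⟩ := Int.eq_ofNat_of_zero_le hge'
        have hmem := hE.oo l l c i Pf Pf hE.pf hE.pf hc.symm
        rcases Nat.eq_zero_or_pos c with hc0 | hc1
        · rw [hc0] at hmem
          have h5 := hE.e0 hmem
          have h6 : KSp ε z 0 0 (md ε Pf i Pf) := by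
            refine d1.span z 0 0 {1} ?_ _ h5
            intro f hf
            rw [Set.mem_singleton_iff] at hf
            rw [hf]
            exact d1.one z 0 le_rfl
          exact h6 _ (by omega)
        · exact hK.e c hc1 (by omega) _ hmem _ (by omega)

end

end WPE
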