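import Pool.Agent.WPE.DKD

/-! [WPE-DB4] The chain. -/

namespace WPE

open WPQ MvPolynomial AF

noncomputable section

theorem DB4 (h : st_DB3) : st_DB4 := by
  intro ι _ _ A hA p hp l ε KE KO dec U Pf hl E z N
  induction N using Nat.strong_induction_on generalizing z with
  | _ N ih =>
    intro hz hK
    rcases Nat.eq_zero_or_pos N with h0 | hN
    · subst h0
      exact ⟨[], by simp, by simp, by simp, hz, hK⟩
    · by_cases hy : mode ε (Finsupp.single 0 Pf) ((N : ℤ) + l - 1) z = 0
      · have hK' : KZ l ε KE Pf z (N - 1) := by
          refine ⟨hK.e, fun k hk => ?_⟩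
          rw [Nat.cast_sub hN] at hk
          by_cases h1 : k = (N : ℤ) + l - 1
          · rw [h1]
            exact hy
          · refine hK.o k ?_
            push_cast at hk
            omega
        obtain ⟨L, h1, h2, h3, h4, h5⟩ := ih (N - 1) (by omega) z hz hK'
        exact ⟨L, h1, h2, fun M hM => (h3 M hM).trans (Nat.sub_le _ _), h4, h5⟩
      · have hK' := h ι A hA p hp l ε KE KO dec U Pf hl E z N hN hK
        obtain ⟨L, h1, h2, h3, h4, h5⟩ := ih (N - 2) (by omega) _ hy hK'
        refine ⟨N :: L, ?_, ?_, ?_, h4, h5⟩
        · rw [List.isChain_cons]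
          refine ⟨fun b hb => ?_, h1⟩
          have hbL : b ∈ L := List.mem_of_mem_head? hb
          have h6 := h2 b hbL
          have h7 := h3 b hbL
          omega
        · intro M hM
          rcases List.mem_cons.1 hM with h6 | h6
          · rw [h6]
            exact hN
          · exact h2 M h6
        · intro M hM
          rcases List.mem_cons.1 hM with h6 | h6
          · rw [h6]
          · exact (h3 M h6).trans (Nat.sub_le _ _)

end

end WPE
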