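import Pool.Agent.WPE.DKD

/-! [WPE-DC1] All of V^G kills the end of the chain

Strong induction on `m`.  `m ≤ 2 l`: `E.sup m`: `f = f0 + f1`, `f0 ∈ KE m`: `hK.e`; `f1 ∈ KO m`: `h2` (st_DB1) with `N = 0` (`m < 3 l`).  `m > 2 l`: `E.gen m`: composites `md a (-1) b`, `a ∈ KH i`, `b ∈ KH j`, `i, j ≥ 1`: `(h1 ..).comp`, `md b k a ∈ KH (m-k-1)` (`(h0 ..).md`): induction, weight `0`:
`(h0 ..).zero`, `(h1 ..).one`, `smul`; negative: `(h0 ..).neg`.  `dT f'`: `T`. -/

namespace WPE

open WPQ MvPolynomial AF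

noncomputable section

theorem DC1 (h0 : al_DT0) (h1 : al_DT1) (h2 : st_DB1) : st_DC1 := by
  intro ι _ _ A hA p hp l ε KE KO dec U Pf hl E z hK
  have t0 := h0 ι A hA p hp ε
  have t1 := h1 ι A hA p hp ε
  intro m
  induction m using Nat.strong_induction_on with
  | _ m ih =>
    intro hm f hf
    by_cases hml : m ≤ 2 * l
    · obtain ⟨f0, hf0, f1, hf1, rfl⟩ := Submodule.mem_sup.1 (E.sup m hf)
      exact t1.add z m 0 f0 f1 (hK.e m hm hml f0 hf0)
        (h2 ι A hA p hp l ε KE KO dec U Pf E z 0 hK m hm (by omega) f1 hf1)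
    · obtain ⟨f0, hf0, f1, hf1, rfl⟩ := Submodule.mem_sup.1 (E.gen m (by omega) hf)
      refine t1.add z m 0 f0 f1 ?_ ?_
      · refine t1.span z m 0 _ ?_ f0 hf0
        rintro g ⟨i, j, a, b, hi, hj, hij, ha, hb, rfl⟩
        have hc : ((m : ℕ) : ℤ) = (i : ℤ) + j := by rw [← hij]; push_cast; ring
        rw [hc]
        refine t1.comp z i j 0 a b (by positivity) le_rfl (ih i (by omega) hi a ha)
          (ih j (by omega) hj b hb) ?_
        intro k
        by_cases hk : k + 1 ≤ m
        · obtain ⟨c, hcm⟩ : ∃ c : ℕ, c + (k + 1) = m := ⟨m - (k + 1), by omega⟩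
          have hcz : (c : ℤ) = j + i - k - 1 := by
            have : ((c + (k + 1) : ℕ) : ℤ) = (m : ℤ) := by rw [hcm]
            push_cast at this
            rw [hc] at this
            linarith
          have hmd : md ε b k a ∈ KH A p c := t0.md j i c k b a hb ha hcz
          have hcz' : ((i : ℤ) + j - k - 1) = c := by linarith
          rw [hcz']
          rcases Nat.eq_zero_or_pos c with h | h
          · subst h
            obtain ⟨s, hs⟩ := t0.zero _ hmd
            rw [hs]
            exact t1.smul z _ 0 s 1 (t1.one z 0 le_rfl)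
          · exact ih c (by omega) h _ hmd
        · rw [t0.neg j i k b a hb ha (by omega)]
          exact t1.zero z _ 0
      · obtain ⟨g, hg, rfl⟩ := hf1
        have hg' : g ∈ KH A p (m - 1) := hg
        have h3 := t1.T z ((m - 1 : ℕ) : ℤ) 0 g (ih (m - 1) (by omega) (by omega) g hg')
        have h4 : (((m - 1 : ℕ) : ℤ) + 1) = m := by omega
        rw [h4] at h3
        exact h3

end

end WPE
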