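import Pool.Agent.WPE.DKD
import Pool.Agent.WPE.VGM
/-! [WPE-DC2] The negative modes of V^G are orthogonal to the end of the chain

Plan.  Strong induction on `m`.  `m > 2l - 2`: `E.gen m` and `(h2 ..).comp`, `T` as in DC1 (weight `0`: `(h0 ..).zero`, `(h2 ..).one`).  `m ≤ 2l - 2`: `v = single 0 f ∈ Wn m` (`(h0 ..).W`), so `v = x + (LS (-1) a + LS (-2) b)`, `x ∈ pv4_Prim m`, `a ∈ Wn (m-1) ≤ Wk`, `b ∈ Wn (m-2) ≤ Wk`;
`a = single 0 a0`, `a0 ∈ KH (m-1)`, `b = single 0 b0`, `b0 ∈ KH (m-2)` (`(h0 ..).of`; `m - 1 ≥ 0`; if `m = 1`: `b ∈ Wn (-1) = ⊥`), and `x` has charge `0`: `x ∈ Prim0 m`, `x = single 0 x0`, `x0 ∈ KH m`.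
`x0`: `adjoint` (second relation, or first): there is `u' ∈ Prim0 m` with `beta z (mode x k b) = (-1)^m beta (mode u' (2m-2-k) z) b` (use the relation for `u'`: `beta (mode u' k' a) b = (-1)^m beta a (mode x (2m-2-k') b)`); `u' ∈ Wn m ≤ Wk`, `u' = single 0 f'`, `f' ∈ KH m`, so
`mode u' (2m-2-k) z = 0` for `k ≤ m - 2` (hypothesis on `z`, `2m-2-k ≥ m`).  `LS (-1) a = single 0 (dT a0)`: `T` (`m = 1`: `a0 = c • 1`, `dT a0 = 0`).  `LS (-2) b = mode ω (-1) b = single 0 (md (U 2) (-1) b0)` (`E.om`, `mode_omega`):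
`m = 2`: `b0 = c • 1`, it is `c • U 2`.  `m ≥ 3`: `(h2 ..).comp` with `i = 2`, `j = m - 2` (`md b0 k (U 2) ∈ KH (m-k-1)`, induction).  For `U 2`: `beta z (mode ω k b) = beta z (LS (k-1) b) = beta (LS (1-k) z) b = 0` for `k ≤ 0` (`beta_LS`, `W_eq_UU`, `1 - k ≥ 1`,
`LS (1-k) z = mode ω (2-k) z = 0` by the hypothesis on `z` for `U 2 ∈ KH 2`). -/

namespace WPE

open WPQ MvPolynomial AF

noncomputable section

section dc2

variable {ι : Type} [Fintype ι] [DecidableEq ι] {A : Matrix ι ι ℤ} {p : ℕ}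

theorem dc2_beta_zero_left (ε : Cocycle A p) (τ : Shift A p) (b : VL ι) : beta ε τ 0 b = 0 := by
  have h1 := beta_smul_left ε τ 0 (0 : VL ι) b
  rw [zero_smul, zero_mul] at h1
  exact h1

/-- the composition step -/
theorem dc2_comp {ε : Cocycle A p} {τ : Shift A p} (T0 : st_DT0 ε) (T2 : st_DT2 ε τ) (z : VL ι)
    (i j : ℕ) (a b : Fock ι) (ha : a ∈ KH A p i) (hb : b ∈ KH A p j) (hi : 1 ≤ i)
    (hall : ∀ m' : ℕ, m' < i + j → ∀ f ∈ KH A p m', KNp ε τ z m' f)
    (hia : KNp ε τ z i a) (hjb : KNp ε τ z j b) :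
    KNp ε τ z ((i : ℤ) + j) (md ε a (-1) b) := by
  refine T2.comp z i j a b (T0.W i a ha).1 (T0.W j b hb).1 (by exact_mod_cast hi) hia hjb ?_
  intro k
  by_cases hk : (i : ℤ) + j - k - 1 < 0
  · have h1 : md ε b (k : ℤ) a = 0 := T0.neg j i k b a hb ha (by linarith)
    rw [h1]
    exact T2.zero z _
  · have hc : ((i + j - k - 1 : ℕ) : ℤ) = (i : ℤ) + j - k - 1 := by omega
    have h1 : md ε b (k : ℤ) a ∈ KH A p (i + j - k - 1) :=
      T0.md j i (i + j - k - 1) k b a hb ha (by rw [hc]; ring)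
    have h2 := hall (i + j - k - 1) (by omega) _ h1
    rwa [hc] at h2

end dc2

theorem DC2 (h0 : al_DT0) (h2 : al_DT2) : st_DC2 := by
  intro ι _ _ A hA p hp l ε KE KO dec U Pf hl E hWk hPI τ hτ z hz hK
  have hp1 : 1 ≤ p := by omega
  have T0 : st_DT0 ε := h0 ι A hA p hp ε
  have T2 : st_DT2 ε τ := h2 ι A hA p hp ε τ hτ
  have hU2 : U 2 ∈ KH A p 2 := E.le_e 2 E.u2
  have hzU : z ∈ UU ε := by rwa [← W_eq_UU hA hp ε]
  -- the conformal vector
  have hom : KNp ε τ z 2 (U 2) := by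
    intro k hk b hb
    have e1 : mode ε (Finsupp.single 0 (U 2)) k = LS (Shift.zero A p) (k - 1) := by
      rw [E.om, omegaV_eq, mode_omega hA hp1]
    have e2 : mode ε (Finsupp.single 0 (U 2)) (2 - k) z = 0 :=
      hK 2 (by norm_num) (U 2) hU2 (2 - k) (by push_cast; linarith)
    rw [E.om, omegaV_eq, mode_omega hA hp1] at e2
    have e3 := beta_LS hA hp ε τ hτ (2 - k - 1) z b hzU hb
    rw [e2, dc2_beta_zero_left] at e3
    rw [e1]
    have e4 : -(2 - k - 1) = k - 1 := by ring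
    rw [e4] at e3
    exact e3.symm
  -- weight zero
  have hzero : ∀ f ∈ KH A p 0, KNp ε τ z 0 f := by
    intro f hf
    obtain ⟨c, rfl⟩ := T0.zero f hf
    exact T2.smul z 0 c 1 (T2.one z)
  intro m
  induction m using Nat.strong_induction_on with
  | _ m ih =>
    intro hm f hf
    have hall : ∀ m' : ℕ, m' < m → ∀ f ∈ KH A p m', KNp ε τ z m' f := by
      intro m' hm' g hg
      rcases Nat.eq_zero_or_pos m' with rfl | hpos
      · exact_mod_cast hzero g hg
      · exact ih m' hm' hpos g hg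
    have hT : ∀ g ∈ KH A p (m - 1), KNp ε τ z m (dT ι g) := by
      intro g hg
      have h1 := T2.T z _ g (hall (m - 1) (by omega) g hg)
      have e : (((m - 1 : ℕ) : ℤ)) + 1 = m := by omega
      rwa [e] at h1
    by_cases hml : 2 * l - 2 < m
    · have h1 := E.gen m hml hf
      obtain ⟨f1, hf1, f2, hf2, rfl⟩ := Submodule.mem_sup.1 h1
      refine T2.add z m f1 f2 ?_ ?_
      · refine T2.span z m _ ?_ f1 hf1
        rintro g ⟨i, j, a, b, hi, hj, hij, ha, hb, rfl⟩
        have h3 := dc2_comp T0 T2 z i j a b ha hb hi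
          (fun m' hm' => hall m' (by omega)) (hall i (by omega) a ha) (hall j (by omega) b hb)
        have e : (i : ℤ) + j = m := by exact_mod_cast hij
        rwa [e] at h3
      · obtain ⟨g, hg, rfl⟩ := (Submodule.mem_map).1 hf2
        exact hT g hg
    · have hml' : (m : ℤ) ≤ 2 * l - 2 := by omega
      have hv : (Finsupp.single 0 f : VL ι) ∈ Wn A p m := T0.W m f hf
      obtain ⟨x, hx, y, hy, hxy⟩ := Submodule.mem_sup.1 (hPI m hml' hv)
      obtain ⟨y1, hy1, y2, hy2, rfl⟩ := Submodule.mem_sup.1 hy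
      obtain ⟨a, ha, rfl⟩ := (Submodule.mem_map).1 hy1
      obtain ⟨b, hb, rfl⟩ := (Submodule.mem_map).1 hy2
      -- the primary part
      have hxW : x ∈ Wn A p m := ((pv4_mem _ _).1 hx).1
      obtain ⟨x0, hx0, rfl⟩ := T0.of m x (hWk m hml' hxW) hxW.2
      have hxP : (Finsupp.single 0 x0 : VL ι) ∈ Prim0 A p m :=
        ⟨hx, Finsupp.single_mem_supported ℂ _ (Set.mem_singleton _)⟩
      have hX : KNp ε τ z m x0 := by
        obtain ⟨u', hu', -, had⟩ := adjoint hA hp ε τ hτ m _ hxP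
        have huW : u' ∈ Wn A p m := ((pv4_mem _ _).1 hu'.1).1
        obtain ⟨f', hf', rfl⟩ := T0.of m u' (hWk m hml' huW) huW.2
        intro k hk b' hb'
        have e1 : mode ε (Finsupp.single 0 f') (2 * m - 2 - k) z = 0 :=
          hK m hm f' hf' (2 * m - 2 - k) (by linarith)
        have e2 := had (2 * m - 2 - k) z b' hz hb'
        have e3 : 2 * (m : ℤ) - 2 - (2 * m - 2 - k) = k := by ring
        rw [e1, dc2_beta_zero_left, e3] at e2
        exact (mul_eq_zero.1 e2.symm).resolve_left (pow_ne_zero _ (by norm_num))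
      -- the derivative
      have em1 : (m : ℤ) - 1 = ((m - 1 : ℕ) : ℤ) := by omega
      rw [em1] at ha
      obtain ⟨a0, ha0, rfl⟩ := T0.of (m - 1) a (hWk _ (by omega) ha) ha.2
      rw [T0.transl] at hxy
      -- the rest
      by_cases hm1 : m = 1
      · subst hm1
        have hb0 : b = 0 := by
          have h3 := hb
          rw [Wn_neg hA hp _ (by norm_num)] at h3
          exact (Submodule.mem_bot ℂ).1 h3
        rw [hb0, map_zero, add_zero, ← Finsupp.single_add] at hxy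
        have h4 : f = x0 + dT ι a0 := (Finsupp.single_injective 0 hxy).symm
        rw [h4]
        exact T2.add z _ _ _ hX (hT a0 ha0)
      · have em2 : (m : ℤ) - 2 = ((m - 2 : ℕ) : ℤ) := by omega
        rw [em2] at hb
        obtain ⟨b0, hb0, rfl⟩ := T0.of (m - 2) b (hWk _ (by omega) hb) hb.2
        have e5 : LS (Shift.zero A p) (-2) (Finsupp.single 0 b0) =
            (Finsupp.single 0 (md ε (U 2) (-1) b0) : VL ι) := by
          rw [← (vg_2 hA hp1 ε).single, E.om, omegaV_eq, mode_omega hA hp1]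
          norm_num
        rw [e5, ← Finsupp.single_add, ← Finsupp.single_add] at hxy
        have h4 : f = x0 + (dT ι a0 + md ε (U 2) (-1) b0) := (Finsupp.single_injective 0 hxy).symm
        rw [h4]
        refine T2.add z _ _ _ hX (T2.add z _ _ _ (hT a0 ha0) ?_)
        have h3 := dc2_comp T0 T2 z 2 (m - 2) (U 2) b0 hU2 hb0 (by norm_num)
          (fun m' hm' => hall m' (by omega)) (by exact_mod_cast hom) (hall (m - 2) (by omega) b0 hb0)
        have e6 : ((2 : ℕ) : ℤ) + ((m - 2 : ℕ) : ℤ) = m := by omega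
        rwa [e6] at h3

end

end WPE
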