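import Pool.Agent.WPE.DKD

/-! [WPE-DC3] The pairing with the vector of charge -nu

Plan.  `hTL` (st_TL1): `Dom A ν` and `f ∈ MNU ε ν n`, `beta z f ≠ 0`.  `CYspan ε ν`: `f` is a combination of `LS (-1)^t (mode (single 0 g) s e)`, `g ∈ KH m`, `e = single (-ν) 1`; so some `beta z (LS (-1)^t (mode (single 0 g) s e)) ≠ 0` (span induction / contradiction).  `t = 0`: otherwise `beta z (LS (-1) v) = beta (LS 1 z) v = 0`
(`beta_LS`, `LS 1 z = mode ω 2 z = 0`; all vectors are in `W`: `e ∈ W` (grep `single_mem_W`, it is the lowest weight vector: `W_eq_UU`/`cS`/`lwv`), `W_closed`, `W_LS`).  `m = 0`: `g = c • 1` (`(h0 ..).zero`), `mode vac s e = e` or `0` (`mode_vac`): `beta z e ≠ 0`.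
`m ≥ 1`: `s ≤ m - 2`: `0` by the hypothesis `KNp`.  `s ≥ m - 1`: `mode (single 0 g) s e ∈ Wn (m + D - s - 1)`, `D = wtExp A p (-ν)`, charge `-ν`; a vector of charge `-ν` and weight `D - i` is `single (-ν) f'` with `FH f' (-i)`: `0` if `i > 0`, and a multiple of `e` if `i = 0` (`s = m - 1`).
So `beta z e ≠ 0`.  `n = D`: `beta_wt`. -/

namespace WPE

open WPQ MvPolynomial AF

noncomputable section

/-- values of the form on one generator of `M_ν` -/
theorem dc3_gen {ι : Type} [Fintype ι] [DecidableEq ι] {A : Matrix ι ι ℤ} {p : ℕ} (hA : IsADE A)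
    (hp : 2 ≤ p) (ε : Cocycle A p) (τ : Shift A p) (hτ : τ.s = (2 : ℂ) • bg A p) (d0 : st_DT0 ε)
    (z : VL ι) (hz : z ∈ W A p) (ν : ι → ℤ)
    (hω : LS (Shift.zero A p) 1 z = 0)
    (hKN : ∀ m : ℕ, 1 ≤ m → ∀ f ∈ KH A p m, KNp ε τ z m f)
    (he : (Finsupp.single (-ν) 1 : VL ι) ∈ W A p)
    (hb : beta ε τ z (Finsupp.single (-ν) 1) = 0) (m : ℕ) (g : Fock ι) (s : ℤ) (t : ℕ)
    (hg : g ∈ KH A p m) :
    beta ε τ z (((LS (Shift.zero A p) (-1)) ^ t)
      (mode ε (Finsupp.single 0 g) s (Finsupp.single (-ν) 1))) = 0 := by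
  have hp1 : 1 ≤ p := by omega
  have hgW := d0.W m g hg
  have hvW : mode ε (Finsupp.single 0 g) s (Finsupp.single (-ν) 1) ∈ W A p :=
    W_closed hA hp ε _ _ hgW.1 he s
  have hpow : ∀ t : ℕ, ((LS (Shift.zero A p) (-1)) ^ t)
      (mode ε (Finsupp.single 0 g) s (Finsupp.single (-ν) 1)) ∈ W A p := by
    intro t
    induction t with
    | zero => rw [pow_zero]; exact hvW
    | succ t ih =>
      rw [pow_succ', Module.End.mul_apply]
      exact W_LS hA hp1 _ _ ih
  have hzero : ∀ v : VL ι, beta ε τ 0 v = 0 := by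
    intro v
    have h := beta_smul_left ε τ 0 (0 : VL ι) v
    rw [zero_smul, zero_mul] at h
    exact h
  have hzero' : ∀ v : VL ι, beta ε τ v 0 = 0 := by
    intro v
    have h := beta_smul_right ε τ 0 v (0 : VL ι)
    rw [zero_smul, zero_mul] at h
    exact h
  rcases Nat.eq_zero_or_pos t with ht | ht
  · subst ht
    rw [pow_zero, Module.End.one_apply]
    rcases Nat.eq_zero_or_pos m with hm | hm
    · subst hm
      obtain ⟨c, hc⟩ := d0.zero g hg
      have hgv : (Finsupp.single 0 g : VL ι) = c • (vac : VL ι) := by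
        rw [hc, vac, Finsupp.smul_single]
      rw [hgv, mode_smul hA hp1, mode_vac hA hp1, LinearMap.smul_apply, beta_smul_right]
      split_ifs with h1
      · rw [LinearMap.id_apply, hb, mul_zero]
      · rw [LinearMap.zero_apply, hzero', mul_zero]
    · rcases le_or_gt s ((m : ℤ) - 2) with hs | hs
      · exact hKN m hm g hg s hs _ he
      · -- the product has weight at most the weight of `single (-ν) 1`
        have heV : (Finsupp.single (-ν) 1 : VL ι) ∈ Wn A p (wtExp A p (-ν)) :=
          ⟨he, single_mem_Vn (-ν) 1 0 (isWeightedHomogeneous_one ℂ _) _ (by simp)⟩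
        have hV := mode_Wn hA hp ε m (wtExp A p (-ν)) s _ _ hgW heV
        have hch := mode_charge hA hp1 ε 0 (-ν) s (Finsupp.single 0 g) (Finsupp.single (-ν) 1)
          (Finsupp.single_mem_supported ℂ _ (Set.mem_singleton _))
          (Finsupp.single_mem_supported ℂ _ (Set.mem_singleton _))
        rw [zero_add] at hch
        set v := mode ε (Finsupp.single 0 g) s (Finsupp.single (-ν) 1) with hv
        have hvs : v = Finsupp.single (-ν) (v (-ν)) := by
          ext1 η
          by_cases h1 : η = -ν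
          · rw [h1, Finsupp.single_eq_same]
          · rw [Finsupp.single_eq_of_ne h1]
            by_contra h2
            have h3 := (Finsupp.mem_supported ℂ v).1 hch (Finsupp.mem_support_iff.2 h2)
            exact h1 h3
        rcases Vn_comp _ v hV.2 (-ν) with h1 | ⟨d, h1, h2⟩
        · rw [hvs, h1, Finsupp.single_zero, hzero']
        · have hd : d = 0 := by omega
          subst hd
          obtain ⟨c, hc⟩ := rr2_const _ h1
          have h3 : v = c • (Finsupp.single (-ν) 1 : VL ι) := by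
            rw [hvs, hc, Finsupp.smul_single, smul_eq_C_mul, mul_one]
          rw [h3, beta_smul_right, hb, mul_zero]
  · obtain ⟨t', rfl⟩ : ∃ t', t = t' + 1 := ⟨t - 1, by omega⟩
    have hzU : z ∈ UU ε := by rw [← W_eq_UU hA hp ε]; exact hz
    rw [pow_succ', Module.End.mul_apply]
    have h := beta_LS hA hp ε τ hτ 1 z _ hzU (hpow t')
    rw [hω, hzero] at h
    exact h.symm

theorem DC3 (h0 : al_DT0) (hTL : st_TL1) : st_DC3 := by
  intro ι _ _ A hA p hp ε τ hτ n z ν hCY hz hz0 hsupp hE hom hKN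
  have hp1 : 1 ≤ p := by omega
  obtain ⟨hD, f, hf, hbf⟩ := hTL ι A hA p hp ε τ hτ n z ν hz hz0 hsupp hE
  have he : (Finsupp.single (-ν) 1 : VL ι) ∈ W A p := by
    rw [W_single_iff hA hp1]
    intro j
    rw [vp1_pr_neg]
    have := hD j
    omega
  have hω : LS (Shift.zero A p) 1 z = 0 := by
    have h := hom 2 le_rfl
    rw [omegaV_eq, mode_omega hA hp1] at h
    exact h
  have hne : beta ε τ z (Finsupp.single (-ν) 1) ≠ 0 := by
    intro hb
    apply hbf
    have hfs := hCY n f hf
    refine Submodule.span_induction ?_ ?_ ?_ ?_ hfs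
    · rintro v ⟨m, g, s, t, hg, rfl⟩
      exact dc3_gen hA hp ε τ hτ (h0 ι A hA p hp ε) z hz.1 ν hω hKN he hb m g s t hg
    · have h := beta_smul_right ε τ 0 z (0 : VL ι)
      rw [zero_smul, zero_mul] at h
      exact h
    · intro x y _ _ hx hy
      rw [beta_add_right, hx, hy, add_zero]
    · intro a x _ hx
      rw [beta_smul_right, hx, mul_zero]
  refine ⟨hD, ?_, hne⟩
  by_contra hn
  apply hne
  refine beta_wt hA hp ε τ hτ n (wtExp A p (-ν)) _ _ hz.2 ?_ hn
  exact single_mem_Vn (-ν) 1 0 (isWeightedHomogeneous_one ℂ _) _ (by simp)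

end

end WPE
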