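import Pool.Agent.WPE.DKD
/-! [WPE-DCC] The central charge

Plan.  `cc A p = card ι - 12 form A p bg bg` (AR2.lean); compare `WPQ_NE0c.lean` (store; the same for `E6, E7, E8`) and the type `A` version (grep `cartanA` in AR2/LW/NT): with an explicit vector `u`, `∑_i A_ji u_i = D` (const), `bg = ((p-1)/p) ρ`, `ρ = u/D`.  For `D_l` take `u` = twice `ρ`: in orthonormal coordinates
`oD l u = (2(l-1-k))_k` (sum `l(l-1)` is even: `(hR ..).surj`), `D = 2`: `∑ A_ji u_i = ∑_k cD j k (oD u k) = 2`.  `form A p ρ ρ = p |ρ|^2 = p ∑ k^2`, `∑_{k<l} k^2 = l(l-1)(2l-1)/6`.  So `cc = l - 12 (p-1)^2/p * l(l-1)(2l-1)/6 = 1 - 6 wD l p`.  `0 < wD` and `2l - 2 < 3 wD/4 + 4`: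
`wD ≥ (l-1)(l(2l-1) - 1)/6` as `(p-1)^2 ≥ p/2`. -/

namespace WPE

open WPQ MvPolynomial AF

noncomputable section

theorem dcc_sum (l : ℕ) : 3 * ∑ k ∈ Finset.range l, ((l : ℤ) - 1 - k) * (2 * ((l : ℤ) - 1 - k)) =
    l * (l - 1) * (2 * l - 1) := by
  induction l with
  | zero => simp
  | succ l ih =>
    rw [Finset.sum_range_succ']
    have h1 : ∀ k ∈ Finset.range l, (((l + 1 : ℕ) : ℤ) - 1 - ((k + 1 : ℕ) : ℤ)) *
        (2 * (((l + 1 : ℕ) : ℤ) - 1 - ((k + 1 : ℕ) : ℤ))) = ((l : ℤ) - 1 - k) * (2 * ((l : ℤ) - 1 - k)) := by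
      intro k _
      push_cast
      ring
    rw [Finset.sum_congr rfl h1]
    push_cast
    linear_combination ih

theorem dcc_row (l : ℕ) (hl : 2 ≤ l) (j : Fin l) :
    ∑ k, cD l j k * (2 * ((l : ℤ) - 1 - (k : ℕ))) = 2 := by
  have hj := j.2
  by_cases h : (j : ℕ) + 1 < l
  · have h1 : ∀ k : Fin l, cD l j k * (2 * ((l : ℤ) - 1 - (k : ℕ))) =
        (if k = j then 2 * ((l : ℤ) - 1 - (k : ℕ)) else 0) +
          (if k = (⟨j + 1, h⟩ : Fin l) then -(2 * ((l : ℤ) - 1 - (k : ℕ))) else 0) := by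
      intro k
      unfold cD
      rw [if_pos h]
      by_cases h2 : k = j
      · have h3 : k ≠ (⟨j + 1, h⟩ : Fin l) := by
          rw [h2]
          intro h4
          have := congrArg Fin.val h4
          simp at this
        rw [if_pos h2, if_pos h2, if_neg h3]
        ring
      · by_cases h3 : k = (⟨j + 1, h⟩ : Fin l)
        · have h4 : (k : ℕ) = j + 1 := congrArg Fin.val h3
          rw [if_neg h2, if_neg h2, if_pos h3, if_pos h4]
          ring
        · have h4 : ¬ (k : ℕ) = j + 1 := fun h5 => h3 (Fin.ext h5)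
          rw [if_neg h2, if_neg h2, if_neg h3, if_neg h4]
          ring
    rw [Finset.sum_congr rfl fun k _ => h1 k, Finset.sum_add_distrib, Finset.sum_ite_eq',
      Finset.sum_ite_eq', if_pos (Finset.mem_univ _), if_pos (Finset.mem_univ _)]
    push_cast
    ring
  · have ha : l - 2 < l := by omega
    have hb : l - 1 < l := by omega
    have hab : (⟨l - 2, ha⟩ : Fin l) ≠ ⟨l - 1, hb⟩ := by
      intro h4
      have := congrArg Fin.val h4
      simp only at this
      omega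
    have h1 : ∀ k : Fin l, cD l j k * (2 * ((l : ℤ) - 1 - (k : ℕ))) =
        (if k = (⟨l - 2, ha⟩ : Fin l) then 2 * ((l : ℤ) - 1 - (k : ℕ)) else 0) +
          (if k = (⟨l - 1, hb⟩ : Fin l) then 2 * ((l : ℤ) - 1 - (k : ℕ)) else 0) := by
      intro k
      unfold cD
      rw [if_neg h]
      by_cases h2 : k = (⟨l - 2, ha⟩ : Fin l)
      · have h3 : k ≠ (⟨l - 1, hb⟩ : Fin l) := fun h4 => hab (h2.symm.trans h4)
        have h4 : (k : ℕ) + 2 = l := by
          rw [h2]
          simp only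
          omega
        rw [if_pos h2, if_neg h3, if_pos (Or.inl h4)]
        ring
      · by_cases h3 : k = (⟨l - 1, hb⟩ : Fin l)
        · have h4 : (k : ℕ) + 1 = l := by
            rw [h3]
            simp only
            omega
          rw [if_neg h2, if_pos h3, if_pos (Or.inr h4)]
          ring
        · have h4 : ¬ ((k : ℕ) + 2 = l ∨ (k : ℕ) + 1 = l) := by
            rintro (h5 | h5)
            · exact h2 (Fin.ext (by simp only; omega))
            · exact h3 (Fin.ext (by simp only; omega))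
          rw [if_neg h2, if_neg h3, if_neg h4]
          ring
    rw [Finset.sum_congr rfl fun k _ => h1 k, Finset.sum_add_distrib, Finset.sum_ite_eq',
      Finset.sum_ite_eq', if_pos (Finset.mem_univ _), if_pos (Finset.mem_univ _)]
    have h2 : ((l - 2 : ℕ) : ℤ) = l - 2 := by omega
    have h3 : ((l - 1 : ℕ) : ℤ) = l - 1 := by omega
    simp only [h2, h3]
    ring

theorem dcc_oD (l : ℕ) (j k : Fin l) : oD l (Pi.single j 1) k = cD l j k := by
  unfold oD
  rw [Finset.sum_eq_single j]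
  · rw [Pi.single_eq_same, one_mul]
  · intro i _ hi
    rw [Pi.single_eq_of_ne hi, zero_mul]
  · intro h
    exact absurd (Finset.mem_univ j) h

theorem dcc_form {ι : Type} [Fintype ι] [DecidableEq ι] (A : Matrix ι ι ℤ) (j : ι) (u : ι → ℤ) :
    formZ A 1 (Pi.single j 1) u = ∑ i, A j i * u i := by
  unfold formZ
  rw [Nat.cast_one, one_mul, Finset.sum_eq_single j]
  · refine Finset.sum_congr rfl fun i _ => ?_
    rw [Pi.single_eq_same, one_mul]
  · intro i _ hi
    refine Finset.sum_eq_zero fun i' _ => ?_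
    rw [Pi.single_eq_of_ne hi, zero_mul, zero_mul]
  · intro h
    exact absurd (Finset.mem_univ j) h

theorem DCC (hR : ∀ l p : ℕ, 4 ≤ l → st_DR l p) : st_DCC := by
  intro l hl p hp
  obtain ⟨u, hu⟩ := (hR l 1 hl).surj (fun k => 2 * ((l : ℤ) - 1 - (k : ℕ)))
    (even_iff_two_dvd.2 (Finset.dvd_sum fun k _ => ⟨_, rfl⟩))
  have hrow : ∀ j, ∑ i, CartanMatrix.D l j i * u i = 2 := by
    intro j
    rw [← dcc_form, (hR l 1 hl).form, Nat.cast_one, one_mul, hu]
    simp only [dcc_oD]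
    exact dcc_row l (by omega) j
  have hsum : 3 * ∑ i, u i = (l : ℤ) * (l - 1) * (2 * l - 1) := by
    rw [(hR l 1 hl).ht, hu, ← dcc_sum l, ← Fin.sum_univ_eq_sum_range
      (fun k : ℕ => ((l : ℤ) - 1 - k) * (2 * ((l : ℤ) - 1 - k)))]
  have hform := AR.form_bg_bg (CartanMatrix.D l) (hR l 1 hl).ade p (by omega) 2 u (by norm_num) hrow
  have hpC : (p : ℂ) ≠ 0 := Nat.cast_ne_zero.2 (by omega)
  have hl4 : (4 : ℚ) ≤ l := by exact_mod_cast hl
  have hp2 : (2 : ℚ) ≤ p := by exact_mod_cast hp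
  have hp0 : (0 : ℚ) < p := by linarith
  -- `wD ≥ (l-1)(l(2l-1)-1)/6`
  have hw : ((l : ℚ) - 1) * (l * (2 * l - 1) - 1) / 6 ≤ wD l p := by
    unfold wD
    rw [div_le_div_iff₀ (by norm_num) (by positivity)]
    have h1 : (0 : ℚ) ≤ (2 * p - 1) * (p - 2) := mul_nonneg (by linarith) (by linarith)
    have h2 : (0 : ℚ) ≤ ((l : ℚ) - 1) * (l * (2 * l - 1)) := by
      refine mul_nonneg (by linarith) (mul_nonneg (by linarith) (by linarith))
    nlinarith [mul_nonneg h2 h1]
  have h3 : (0 : ℚ) < ((l : ℚ) - 1) * (l * (2 * l - 1) - 1) / 6 := by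
    have h4 : (0 : ℚ) < (l : ℚ) - 1 := by linarith
    have h5 : (0 : ℚ) < l * (2 * l - 1) - 1 := by nlinarith
    positivity
  refine ⟨?_, lt_of_lt_of_le h3 hw, ?_⟩
  · unfold cc
    rw [hform, Fintype.card_fin]
    have h4 : ((∑ i, u i : ℤ) : ℂ) = (l : ℂ) * (l - 1) * (2 * l - 1) / 3 := by
      rw [eq_div_iff (by norm_num)]
      have := congrArg (Int.cast : ℤ → ℂ) hsum
      push_cast at this ⊢
      linear_combination this
    rw [h4]
    unfold wD
    push_cast
    field_simp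
    ring
  · have h4 : 2 * (l : ℚ) - 2 < 3 * (((l : ℚ) - 1) * (l * (2 * l - 1) - 1) / 6) / 4 + 4 := by
      nlinarith [mul_nonneg (mul_nonneg (by linarith : (0 : ℚ) ≤ l - 4) (by linarith : (0 : ℚ) ≤ l - 4))
        (by linarith : (0 : ℚ) ≤ l)]
    linarith

end

end WPE
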