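import Pool.Agent.WPQ.TLD

/-! [WPE-VGC2] Small weights: `V(n) = Wk(n)` if `n` is smaller than all weights `Δ_ν`, `ν ≠ 0` dominant. -/

namespace WPE

open WPQ MvPolynomial

noncomputable section

variable {ι : Type} [Fintype ι] [DecidableEq ι] {A : Matrix ι ι ℤ} {p : ℕ}

private theorem vgc2_beta0 (ε : Cocycle A p) (τ : Shift A p) (t : VL ι) : beta ε τ t 0 = 0 := by
  have h := beta_smul_right ε τ 0 t 0
  rwa [smul_zero, zero_mul] at h

/-- membership in a charge space -/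
private theorem vgc2_supp (γ : ι → ℤ) (f : Fock ι) :
    (Finsupp.single γ f : VL ι) ∈ Finsupp.supported (Fock ι) ℂ ({γ} : Set (ι → ℤ)) :=
  Finsupp.single_mem_supported ℂ f (Set.mem_singleton γ)

/-- `V(n)` is stable under `E_j` -/
private theorem vgc2_E (hA : IsADE A) (hp : 2 ≤ p) (ε : Cocycle A p) (n : ℤ) (t : VL ι)
    (ht : t ∈ Wn A p n) (j : ι) : Ej ε (Shift.zero A p) j t ∈ Wn A p n := by
  have h := pv2_Ej_pow hA hp ε n t ht j 1
  rwa [pow_one] at h

/-- no charge with a positive coordinate occurs in `V(n)` -/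
private theorem vgc2_pos (h1 : st_TL1) (hA : IsADE A) (hp : 2 ≤ p) (ε : Cocycle A p) (n : ℤ)
    (hn : ∀ ν : ι → ℤ, ν ≠ 0 → Dom A ν → n < wtExp A p (-ν)) (γ : ι → ℤ) (hγ : γ ∈ pv2_X A p n)
    (i : ι) (hi : 0 < γ i) : False := by
  classical
  obtain ⟨τ, hτ⟩ := exists_tau hA (show 1 ≤ p by omega)
  -- the set of the charges with positive coordinate `i`
  have hfin : (pv2_X A p n ∩ {γ | 0 < γ i}).Finite := (pv2_X_finite hA hp n).inter_of_left _
  obtain ⟨γ', hγ', hmax⟩ := Set.exists_max_image _ (fun γ : ι → ℤ => ∑ k, γ k) hfin ⟨γ, hγ, hi⟩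
  obtain ⟨⟨f, hf0, hf⟩, hpos⟩ := hγ'
  have hrt : ∀ j : ι, (∑ k, (rt j : ι → ℤ) k) = 1 := by
    intro j
    unfold rt
    rw [Finset.sum_pi_single']
    simp
  have hrt0 : ∀ j k : ι, 0 ≤ (rt j : ι → ℤ) k := by
    intro j k
    unfold rt
    by_cases h : k = j
    · subst h
      simp
    · rw [Pi.single_eq_of_ne h]
  have hE : ∀ j, Ej ε (Shift.zero A p) j (Finsupp.single γ' f) = 0 := by
    intro j
    by_contra hne
    have h2 := vgc2_E hA hp ε n _ hf j
    rw [Ej_single hA] at h2 hne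
    have h3 : γ' + rt j ∈ pv2_X A p n ∩ {γ | 0 < γ i} := by
      refine ⟨⟨_, ?_, h2⟩, ?_⟩
      · intro h0
        apply hne
        rw [h0, Finsupp.single_zero]
      · have h4 := hrt0 j i
        have h5 : 0 < γ' i := hpos
        show 0 < (γ' + rt j) i
        rw [Pi.add_apply]
        omega
    have h4 := hmax _ h3
    simp only [Pi.add_apply, Finset.sum_add_distrib, hrt] at h4
    omega
  have hne0 : (Finsupp.single γ' f : VL ι) ≠ 0 := by
    rw [Ne, Finsupp.single_eq_zero]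
    exact hf0
  obtain ⟨hdom, x, hx, hbx⟩ := h1 ι A hA p hp ε τ hτ n _ γ' hf hne0 (vgc2_supp γ' f) hE
  rw [mem_MNU] at hx
  obtain ⟨hxW, hxs, _⟩ := hx
  have hx0 : x ≠ 0 := by
    intro h0
    rw [h0] at hbx
    apply hbx
    exact vgc2_beta0 ε τ _
  have hxe : x = Finsupp.single (-γ') (x (-γ')) := by
    refine Finsupp.ext fun δ => ?_
    by_cases hδ : δ = -γ'
    · subst hδ
      rw [Finsupp.single_eq_same]
    · rw [Finsupp.single_eq_of_ne hδ]
      by_contra hne
      exact hδ (hxs (Finsupp.mem_support_iff.2 hne))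
  have hx1 : x (-γ') ≠ 0 := by
    intro h0
    rw [h0, Finsupp.single_zero] at hxe
    exact hx0 hxe
  rw [hxe] at hxW
  obtain ⟨d, _, hd⟩ := pv2_deg n _ _ hx1 hxW
  have hγ0 : γ' ≠ 0 := by
    intro h0
    have h5 : 0 < γ' i := hpos
    rw [h0] at h5
    simp at h5
  have := hn γ' hγ0 hdom
  omega

/-- only the charge zero occurs in `V(n)` -/
private theorem vgc2_zero (h1 : st_TL1) (hA : IsADE A) (hp : 2 ≤ p) (ε : Cocycle A p) (n : ℤ)
    (hn : ∀ ν : ι → ℤ, ν ≠ 0 → Dom A ν → n < wtExp A p (-ν)) (v : VL ι) (hv : v ∈ Wn A p n)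
    (γ : ι → ℤ) (hγ : γ ≠ 0) : v γ = 0 := by
  classical
  by_contra hne
  have hmem := pv2_mem n v hv γ
  by_cases hpos : ∃ i, 0 < γ i
  · obtain ⟨i, hi⟩ := hpos
    exact vgc2_pos h1 hA hp ε n hn γ ⟨_, hne, hmem⟩ i hi
  · push Not at hpos
    have hneg : ∃ i, 0 < (-γ) i := by
      by_contra hcon
      push Not at hcon
      apply hγ
      funext i
      have h2 := hpos i
      have h3 := hcon i
      rw [Pi.neg_apply] at h3
      show γ i = 0
      omega
    obtain ⟨i, hi⟩ := hneg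
    obtain ⟨τ, hτ⟩ := exists_tau hA (show 1 ≤ p by omega)
    have hex : ∃ w ∈ Wn A p n, beta ε τ (Finsupp.single γ (v γ)) w ≠ 0 := by
      by_contra hcon
      push Not at hcon
      have h4 := beta_left hA hp ε τ hτ n _ hmem hcon
      rw [Finsupp.single_eq_zero] at h4
      exact hne h4
    obtain ⟨w, hw, hbw⟩ := hex
    rw [beta_comp_right hA hp ε τ hτ γ _ _ (vgc2_supp γ _)] at hbw
    refine vgc2_pos h1 hA hp ε n hn (-γ) ⟨w (-γ), ?_, pv2_mem n w hw (-γ)⟩ i hi
    intro h0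
    rw [h0, Finsupp.single_zero] at hbw
    apply hbw
    exact vgc2_beta0 ε τ _

theorem vgc_low (h1 : st_TL1) (hA : IsADE A) (hp : 2 ≤ p) (ε : Cocycle A p) (n : ℤ)
    (hn : ∀ ν : ι → ℤ, ν ≠ 0 → Dom A ν → n < wtExp A p (-ν)) : Wn A p n ≤ Wk ε := by
  intro v hv
  refine ⟨hv.1, fun γ hγ => vgc2_zero h1 hA hp ε n hn v hv γ hγ, fun j => ?_⟩
  have hve : v = Finsupp.single 0 (v 0) := by
    refine Finsupp.ext fun γ => ?_
    by_cases hγ : γ = 0
    · subst hγ
      rw [Finsupp.single_eq_same]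
    · rw [vgc2_zero h1 hA hp ε n hn v hv γ hγ, Finsupp.single_eq_of_ne hγ]
  have hE := vgc2_E hA hp ε n v hv j
  have h2 : Ej ε (Shift.zero A p) j v = 0 := by
    refine Finsupp.ext fun γ => ?_
    by_cases hγ : γ = 0
    · subst hγ
      rw [hve, Ej_single hA]
      have hne : (0 : ι → ℤ) ≠ 0 + rt j := by
        intro h3
        have h4 := congrFun h3 j
        unfold rt at h4
        simp at h4
      rw [Finsupp.single_eq_of_ne hne, Finsupp.zero_apply]
    · exact vgc2_zero h1 hA hp ε n hn _ hE γ hγ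
  have h3 : Ej ε (Shift.zero A p) j v = expMode ε (Pi.single j 1) 0 v := by
    unfold Ej
    rw [expS_zero]
    rfl
  rw [h3] at h2
  exact h2

end

end WPE
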