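import Pool.Agent.WPE.DM
import Pool.Agent.WPE.VGC2
import Pool.Agent.WPQ.CYM

/-! [WPE-DCY] The inputs of `dm_main` from the blocks CY and VGC. -/

namespace WPE

open WPQ MvPolynomial AF

noncomputable section

theorem dcy_cy (h0 : al_DT0) : CYin := by
  intro ι _ _ A hA p hp ε ν hd n f hf
  have hp1 : 1 ≤ p := by omega
  have T0 := h0 ι A hA p hp ε
  have h1 := Mn_le_PP hA hp ε ν hd ((mem_MNU_iff ε ν n f).1 hf).1
  unfold PP at h1
  refine (Submodule.span_le.2 ?_) h1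
  rintro _ ⟨c, hc, s, l, rfl⟩
  obtain ⟨S, F, hF, hcS⟩ := Wk_comp hA hp ε c hc
  have hT : ∀ v : VL ι, Tp l v = ((LS (Shift.zero A p) (-1)) ^ l) v := by
    intro v
    unfold Tp
    rw [LS_zero_neg_one]
  rw [SetLike.mem_coe, hT, hcS, cy9c_mode_sum hA hp1, map_sum]
  refine Submodule.sum_mem _ fun m _ => ?_
  obtain ⟨hFW, hFV⟩ := hF m
  by_cases hm : 0 ≤ m
  · obtain ⟨m', rfl⟩ := Int.eq_ofNat_of_zero_le hm
    obtain ⟨g, hg, he⟩ := T0.of m' (F m') hFW hFV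
    refine Submodule.subset_span ⟨m', g, s, l, hg, ?_⟩
    rw [he]
    rfl
  · have h2 : F m ∈ Wn A p m := ⟨hFW.1, hFV⟩
    rw [Wn_neg hA hp m (by omega), Submodule.mem_bot] at h2
    rw [h2, va3_mode_zero hA hp1, LinearMap.zero_apply, map_zero]
    exact Submodule.zero_mem _

theorem dcy_nd : WkND := fun _ _ _ _ hA _ hp ε τ hτ n y hy hn h => Wk_nondeg_ade hA hp ε τ hτ n y hy hn h

theorem dcy_low (h1 : st_TL1) : VGClow := fun _ _ _ _ hA _ hp ε n hn => vgc_low h1 hA hp ε n hn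

end

end WPE
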