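import Pool.Agent.WPE.DKD
/-! [WPE-DE0] Raising x to a vector killed by all E_j

Plan.  Let `Q x ν` be all the hypotheses.  If `Ej j x = 0` for all `j` take `x' = x`.  Otherwise `x1 = Ej j x ≠ 0` has charge `ν + rt j` (`as1_Ej_charge`), is primary (`as1_prim_Ej`), `SS c x1 = Ej j (SS c x) = 0` (`as1_SS`, `as1_Ej_comm`), so `beta (SS c x1) v = 0` and
`Ej i (SS c x1) = 0`; `∑ (ν + rt j) = ∑ ν + 1`.  Termination: the charges `γ` with `v γ ≠ 0` for some `v ∈ Vn A p h` form a finite set (`Vn_finite`; grep the argument in TL7 (`WPQ_TL7.lean` in the store) or FI/RR: nilpotency of `E_j`, `exists maximal height`), so `∑ ν` is bounded for nonzero vectors of `Wn h`; induction on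
`bound - ∑ ν`. -/

namespace WPE

open WPQ MvPolynomial AF

noncomputable section

theorem de0_sum_rt {ι : Type} [Fintype ι] [DecidableEq ι] (j : ι) : ∑ i, (rt j : ι → ℤ) i = 1 := by
  unfold rt
  simp [Pi.single_apply]

theorem de0_ne {ι : Type} [Fintype ι] [DecidableEq ι] {A : Matrix ι ι ℤ} {p : ℕ} (h : ℤ)
    (x : VL ι) (ν : ι → ℤ) (hx : x ∈ pv4_Prim A p h)
    (hν : x ∈ Finsupp.supported (Fock ι) ℂ {ν}) (h0 : x ≠ 0) : wtExp A p ν ≤ h := by
  rw [pv4_mem] at hx
  rcases Vn_comp h x hx.1.2 ν with h1 | ⟨d, _, hd⟩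
  · exfalso
    apply h0
    rw [va4_supp_single ν x hν, h1, Finsupp.single_zero]
  · omega

theorem DE0 : st_DE0 := by
  intro ι _ _ A hA p hp ε τ h r c x ν S hx hν h0 hs hS hE
  have hp1 : 1 ≤ p := by omega
  obtain ⟨B, hB⟩ := ((wtExp_finite hA hp1 (h : ℤ)).image fun γ : ι → ℤ => ∑ i, γ i).bddAbove
  have key : ∀ (n : ℕ) (x : VL ι) (ν : ι → ℤ), x ∈ pv4_Prim A p h →
      x ∈ Finsupp.supported (Fock ι) ℂ {ν} → x ≠ 0 → 1 ≤ ∑ i, ν i →
      (∀ v ∈ S, beta ε τ (SV.SS (LS (Shift.zero A p)) c x) v = 0) →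
      (∀ j, Ej ε (Shift.zero A p) j (SV.SS (LS (Shift.zero A p)) c x) = 0) →
      B - ∑ i, ν i < n →
      ∃ (x' : VL ι) (ν' : ι → ℤ), x' ∈ pv4_Prim A p h ∧
        x' ∈ Finsupp.supported (Fock ι) ℂ {ν'} ∧
        x' ≠ 0 ∧ 1 ≤ ∑ i, ν' i ∧ (∀ j, Ej ε (Shift.zero A p) j x' = 0) ∧
        ∀ v ∈ S, beta ε τ (SV.SS (LS (Shift.zero A p)) c x') v = 0 := by
    intro n
    induction n with
    | zero =>
      intro x ν hx hν h0 hs hS hE hn
      exfalso
      have h1 : ∑ i, ν i ≤ B := hB ⟨ν, de0_ne h x ν hx hν h0, rfl⟩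
      simp at hn
      omega
    | succ n ih =>
      intro x ν hx hν h0 hs hS hE hn
      by_cases hall : ∀ j, Ej ε (Shift.zero A p) j x = 0
      · exact ⟨x, ν, hx, hν, h0, hs, hall, hS⟩
      · push Not at hall
        obtain ⟨j, hj⟩ := hall
        have hch : Ej ε (Shift.zero A p) j x ∈ Finsupp.supported (Fock ι) ℂ {rt j + ν} := by
          rw [va3_Ej hA hp1]
          exact mode_charge hA hp1 ε (rt j) ν ((0 : ℕ) : ℤ) (Finsupp.single (rt j) 1) x
            (Finsupp.single_mem_supported ℂ _ (Set.mem_singleton _)) hν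
        have hsum : ∑ i, (rt j + ν) i = 1 + ∑ i, ν i := by
          simp only [Pi.add_apply, Finset.sum_add_distrib, de0_sum_rt]
        have hSS : SV.SS (LS (Shift.zero A p)) c (Ej ε (Shift.zero A p) j x) = 0 := by
          rw [← as1_SS (LS (Shift.zero A p)) (Ej ε (Shift.zero A p) j)
            (fun k v => as1_Ej_comm hA hp1 ε j k v) c x, hE j]
        refine ih (Ej ε (Shift.zero A p) j x) (rt j + ν) (as1_prim_Ej hA hp ε j _ x hx) hch hj ?_
          ?_ ?_ ?_
        · rw [hsum]; omega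
        · intro v _
          rw [hSS]
          have h2 := beta_smul_left ε τ 0 (0 : VL ι) v
          rwa [zero_smul, zero_mul] at h2
        · intro i
          rw [hSS, map_zero]
        · rw [hsum]
          push_cast at hn ⊢
          omega
  have hB' : B - ∑ i, ν i < ((B - ∑ i, ν i + 1).toNat : ℕ) := by
    omega
  exact key _ x ν hx hν h0 hs hS hE hB'

end

end WPE
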