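import Pool.Agent.WPE.DKD
import Pool.Agent.WPE.VGM

/-! [WPE-DE1] Strong generation of `Wk`. -/

namespace WPE

open WPQ MvPolynomial AF

noncomputable section

theorem DE1 (h0 : al_DT0) : st_DE1 := by
  intro ι _ _ A hA p hp l ε KE KO dec U Pf hl E n hn v hv
  obtain ⟨hvk, hvn⟩ := hv
  have T0 := h0 ι A hA p hp ε
  obtain ⟨N, rfl⟩ := Int.eq_ofNat_of_zero_le (by omega : 0 ≤ n)
  have hn' : 2 * l - 2 < N := by
    zify [show 2 ≤ 2 * l by omega]
    omega
  have hvn' : v ∈ Vn A p ((N : ℕ) : ℤ) := hvn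
  obtain ⟨f, hf, rfl⟩ := T0.of N v hvk hvn'
  -- the image of the span
  have hG : ∀ g ∈ Comp ε (KH A p) (KH A p) N, (Finsupp.single 0 g : VL ι) ∈ Gen ε (N : ℤ) := by
    intro g hg
    unfold Comp at hg
    induction hg using Submodule.span_induction with
    | mem g hg =>
      obtain ⟨i, j, a, b, hi, hj, hij, ha, hb, rfl⟩ := hg
      refine Submodule.subset_span ⟨i, j, -1, Finsupp.single 0 a, Finsupp.single 0 b,
        by exact_mod_cast hi, by exact_mod_cast hj, le_refl _, by push_cast [← hij]; ring,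
        T0.W i a ha, T0.W j b hb, ?_⟩
      rw [(vg_2 hA (by omega) ε).single]
    | zero =>
      rw [Finsupp.single_zero]
      exact Submodule.zero_mem _
    | add a b _ _ h1 h2 =>
      rw [Finsupp.single_add]
      exact Submodule.add_mem _ h1 h2
    | smul c a _ h1 =>
      rw [← Finsupp.smul_single]
      exact Submodule.smul_mem _ c h1
  obtain ⟨g, hg, g', hg', rfl⟩ := Submodule.mem_sup.1 (E.gen N hn' hf)
  obtain ⟨f', hf', rfl⟩ := Submodule.mem_map.1 hg'
  rw [Finsupp.single_add]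
  refine Submodule.add_mem_sup (hG g hg) ?_
  have h1 : (Finsupp.single 0 (dT ι f') : VL ι) =
      LS (Shift.zero A p) (-1) (Finsupp.single 0 f') := (T0.transl f').symm
  show (Finsupp.single 0 (dT ι f') : VL ι) ∈ _
  rw [h1]
  refine Submodule.mem_map_of_mem ?_
  have h2 := T0.W (N - 1) f' hf'
  have h3 : (((N - 1 : ℕ)) : ℤ) = (N : ℤ) - 1 := by omega
  rw [h3] at h2
  exact h2

end

end WPE
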