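import Pool.Agent.WPE.DKD
import Pool.Agent.WPE.VGM
/-! [WPE-DE2] r at least 3

Plan.  As `engine_big` in EN4.lean with `m = 4`, general `A`.  `exists_pair hA hp ε 4 ..` (hypothesis `prim ∩ I = 0` in weight `4`; `Prim0 A p 4 ≠ ⊥`: `single 0 (U 4)`, `E.u4p`, `E.u4ne`).  `hff`: `SV.ff_ne ht w hw .. hc 4 j R1 R2 R3 hj` (rewrite `4 * ((4:ℕ):ℚ) + w` as `16 + w`).
`hex`: `Or.inr`: `b ∈ Wn 4 ≤ Wk` (`4 ≤ 2l - 2`), so `b (-ν) = 0` (`-ν ≠ 0`, definition of `Wk`).  `hy`: `u ∈ Prim0 4`, `s ≤ -1`, `b ∈ W`: `b` is a sum of homogeneous `b_j ∈ Wn j` (`W_span`/`W` is spanned by the `Wn`, grep); `j ≥ 1`: `mode u s b_j ∈ Gen ε (3 + j - s)`: if `3 + j - s = h + r*r` use the hypothesis, otherwise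
`beta_wt` (`SS c x ∈ Wn (h + r*r)`: grep `SS` in AS1/TL7b); `j = 0`: `b_j = c vac`, `mode u s vac` has charge `0`, `SS c x` has charge `ν ≠ 0` (`beta_ch` or `beta_comp_right`); `j < 0`: `0`.  `en_kill` with `n = r*r ≥ 9`: `mode u k x = 0` for `k ≥ 0` (`2*4 - 1 - 9 ≤ 0`).
`en_big hA hp ε 4 h ..`: `hV2`: `v ∈ Wn 2 ≤ Wk`, `v = single 0 f`, `f ∈ KH 2` (`(h0 ..).of`), `E.sup 2`, `KO 2 = ⊥` (`E.o0`, `2 < l`), `E.even 2`, `E.span_e 2`: `dec 2 ≤ Comp KE KE 2 ⊔ map dT (KE 1)`, `KE 1 = ⊥` (`E.e1`): `dec 2 = ⊥`, so `f = a • U 2`, `E.om`. -/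

namespace WPE

open WPQ MvPolynomial AF

noncomputable section

section de2

variable {ι : Type} [Fintype ι] [DecidableEq ι] {A : Matrix ι ι ℤ} {p : ℕ}

theorem de2_wd_Vn (n : ℤ) (x : VL ι) (hx : x ∈ Vn A p n) (w : List ℕ) :
    KV.wd (LS (Shift.zero A p)) w x ∈ Vn A p (n + w.sum) := by
  induction w with
  | nil =>
    have e : KV.wd (LS (Shift.zero A p)) [] x = x := rfl
    rw [e, List.sum_nil, Nat.cast_zero, add_zero]
    exact hx
  | cons a w ih =>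
    have h1 := LS_Vn (A := A) (p := p) (-(a : ℤ)) _ _ ih
    have e1 : KV.wd (LS (Shift.zero A p)) (a :: w) x =
      LS (Shift.zero A p) (-(a : ℤ)) (KV.wd (LS (Shift.zero A p)) w x) := rfl
    have e2 : n + ((w.sum : ℕ) : ℤ) - -(a : ℤ) = n + (((a :: w).sum : ℕ) : ℤ) := by
      rw [List.sum_cons]
      push_cast
      ring
    rw [e2] at h1
    rw [e1]
    exact h1

theorem de2_SS_Vn (n : ℤ) (x : VL ι) (hx : x ∈ Vn A p n) {m : ℕ} (c : Nat.Partition m → ℂ) :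
    SV.SS (LS (Shift.zero A p)) c x ∈ Vn A p (n + m) := by
  unfold SV.SS
  refine Submodule.sum_mem _ fun π _ => Submodule.smul_mem _ _ ?_
  have h1 := de2_wd_Vn n x hx (KV.pl π)
  rwa [KV.pl_sum] at h1

theorem de2_wd_ch (ν : ι → ℤ) (x : VL ι) (hx : x ∈ Finsupp.supported (Fock ι) ℂ {ν})
    (w : List ℕ) : KV.wd (LS (Shift.zero A p)) w x ∈ Finsupp.supported (Fock ι) ℂ {ν} := by
  induction w with
  | nil => exact hx
  | cons a w ih =>
    have e1 : KV.wd (LS (Shift.zero A p)) (a :: w) x =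
      LS (Shift.zero A p) (-(a : ℤ)) (KV.wd (LS (Shift.zero A p)) w x) := rfl
    rw [e1]
    refine va4_mem_supp _ _ fun δ hδ => ?_
    have h1 := LS_comp (A := A) (p := p) (-(a : ℤ)) (KV.wd (LS (Shift.zero A p)) w x) δ
    have h2 : (KV.wd (LS (Shift.zero A p)) w x) δ = 0 := by
      by_contra hne
      exact hδ ((Finsupp.mem_supported ℂ _).1 ih (Finsupp.mem_support_iff.2 hne))
    rw [h2, Finsupp.single_zero, map_zero] at h1
    exact Finsupp.single_eq_zero.1 h1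

theorem de2_SS_ch (ν : ι → ℤ) (x : VL ι) (hx : x ∈ Finsupp.supported (Fock ι) ℂ {ν}) {m : ℕ}
    (c : Nat.Partition m → ℂ) :
    SV.SS (LS (Shift.zero A p)) c x ∈ Finsupp.supported (Fock ι) ℂ {ν} := by
  unfold SV.SS
  exact Submodule.sum_mem _ fun π _ => Submodule.smul_mem _ _ (de2_wd_ch ν x hx _)

/-- orthogonality to the products with a primary vector of weight four -/
theorem de2_hy (hA : IsADE A) (hp : 2 ≤ p) (ε : Cocycle A p) (τ : Shift A p)
    (hτ : τ.s = (2 : ℂ) • bg A p) (N : ℤ) (y : VL ι) (hy : y ∈ Vn A p N) (ν : ι → ℤ) (hν : ν ≠ 0)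
    (hyν : y ∈ Finsupp.supported (Fock ι) ℂ {ν}) (hgen : ∀ v ∈ Gen ε N, beta ε τ y v = 0)
    (m : ℕ) (hm : 1 ≤ m) (u : VL ι) (hu : u ∈ Prim0 A p m) (s : ℤ) (hs : s ≤ -1) (b : VL ι)
    (hb : b ∈ W A p) : beta ε τ y (mode ε u s b) = 0 := by
  have huW : u ∈ Wn A p m := ((pv4_mem _ _).1 hu.1).1
  have key : W A p ≤ LinearMap.ker (du1_B ε τ y ∘ₗ mode ε u s) := by
    refine W_span _ ?_
    intro γ f d hf hW
    rw [LinearMap.mem_ker, LinearMap.comp_apply]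
    change beta ε τ y (mode ε u s (Finsupp.single γ f)) = 0
    have hbn : (Finsupp.single γ f : VL ι) ∈ Wn A p ((d : ℤ) + wtExp A p γ) :=
      ⟨hW, single_mem_Vn γ f d hf _ rfl⟩
    obtain ⟨j, hj⟩ : ∃ j : ℤ, j = (d : ℤ) + wtExp A p γ := ⟨_, rfl⟩
    rw [← hj] at hbn
    rcases lt_trichotomy j 0 with hj0 | hj0 | hj0
    · rw [Wn_neg hA hp j hj0, Submodule.mem_bot] at hbn
      rw [hbn, map_zero]
      have h1 := beta_smul_right ε τ 0 y (0 : VL ι)
      rw [zero_smul, zero_mul] at h1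
      exact h1
    · rw [hj0] at hbn
      obtain ⟨a, ha⟩ := Wn_zero hA hp _ hbn
      rw [ha]
      have h1 : mode ε u s (a • (vac : VL ι)) ∈ Finsupp.supported (Fock ι) ℂ {(0 : ι → ℤ) + 0} :=
        mode_charge hA (by omega) ε 0 0 s u _ hu.2
          (Submodule.smul_mem _ _ (Finsupp.single_mem_supported ℂ _ (Set.mem_singleton _)))
      rw [add_zero] at h1
      exact beta_ch hA hp ε τ hτ ν 0 _ _ hyν h1 (by
        intro h2
        apply hν
        have h3 := congrArg Neg.neg h2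
        rw [neg_zero, neg_neg] at h3
        exact h3.symm)
    · have h1 := mode_Wn hA hp ε m j s u _ huW hbn
      by_cases hN : (m : ℤ) + j - s - 1 = N
      · exact hgen _ (Submodule.subset_span
          ⟨m, j, s, u, _, by exact_mod_cast hm, by omega, hs, hN, huW, hbn, rfl⟩)
      · exact beta_wt hA hp ε τ hτ _ _ _ _ hy h1.2 fun h2 => hN h2.symm
  have h3 := key hb
  rw [LinearMap.mem_ker, LinearMap.comp_apply] at h3
  exact h3

end de2

theorem DE2 (h0 : al_DT0) : st_DE2 := by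
  intro ι _ _ A hA p hp l ε KE KO dec U Pf hl E hWk hPI hI4 τ hτ t w ht hw R1 R2 R3 r h c x ν hr hh
    hhr hc hx hxν hν hgen
  have hp1 : 1 ≤ p := by omega
  have T0 : st_DT0 ε := h0 ι A hA p hp ε
  -- the pair
  have hne : Prim0 A p ((4 : ℕ) : ℤ) ≠ ⊥ := by
    intro h1
    have h2 : (Finsupp.single 0 (U 4) : VL ι) ∈ Prim0 A p ((4 : ℕ) : ℤ) := E.u4p
    rw [h1, Submodule.mem_bot, Finsupp.single_eq_zero] at h2
    exact E.u4ne h2
  obtain ⟨u, hu, u', hu', N', hN, hN'⟩ := exists_pair hA hp ε 4 (by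
    rintro y hy ⟨a, ha, b, hb, rfl⟩
    exact hI4 _ hy (Submodule.add_mem_sup ⟨a, ha, rfl⟩ ⟨b, hb, rfl⟩)) hne
  -- weight two
  have hV2 : ∀ v ∈ Wn A p 2, ∃ a : ℂ, v = a • omegaV A p := by
    intro v hv
    obtain ⟨f, hf, rfl⟩ := T0.of 2 v (hWk 2 (by
      have : (4 : ℤ) ≤ l := by exact_mod_cast hl
      linarith) hv) hv.2
    have hdec : dec 2 = ⊥ := by
      rw [eq_bot_iff]
      refine (E.span_e 2 (by norm_num) (by omega)).trans (sup_le ?_ ?_)
      · refine Submodule.span_le.2 ?_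
        rintro g ⟨i, j, a, b, hi, hj, hij, ha, hb, rfl⟩
        obtain rfl : i = 1 := by omega
        rw [E.e1, Submodule.mem_bot] at ha
        have h1 := (vg_2 hA hp1 ε).smul 0 (0 : Fock ι) (-1)
        rw [zero_smul, zero_smul] at h1
        rw [ha, h1]
        exact Submodule.zero_mem _
      · rw [show 2 - 1 = 1 from rfl, E.e1, Submodule.map_bot]
    have h1 := E.sup 2 hf
    rw [E.o0 2 (by omega), sup_bot_eq] at h1
    have h2 := E.even 2 even_two (le_refl 2) (by omega) h1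
    rw [hdec, bot_sup_eq] at h2
    obtain ⟨a, rfl⟩ := Submodule.mem_span_singleton.1 h2
    refine ⟨a, ?_⟩
    rw [← E.om, Finsupp.smul_single]
  refine en_big hA hp ε 4 h (by norm_num) hh hV2 u u' hu hu' N' hN hN' x hx ?_
  intro v hv k hk
  have hr9 : 9 ≤ r * r := Nat.mul_le_mul hr hr
  refine en_kill hA hp ε τ hτ 4 h r (r * r) c x hx ν hxν ?_ ?_ ?_ v hv k ?_
  · intro j hj
    rw [hhr]
    have e : (4 * ((4 : ℕ) : ℚ) + w) = 16 + w := by
      push_cast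
      ring
    exact SV.ff_ne ht w hw (by omega) hc 4 j (by rw [e]; exact R1) (by rw [e]; exact R2) R3 hj
  · refine Or.inr fun b hb => ?_
    have h1 : b ∈ Wk ε := hWk ((4 : ℕ) : ℤ) (by
      have : (4 : ℤ) ≤ l := by exact_mod_cast hl
      push_cast
      linarith) hb
    exact h1.2.1 (-ν) (neg_ne_zero.2 hν)
  · intro u2 hu2 s hs b hb
    have h1 : SV.SS (LS (Shift.zero A p)) c x ∈ Vn A p ((h : ℤ) + r * r) := by
      have h2 := de2_SS_Vn (h : ℤ) x hx.1.2 c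
      rw [Nat.cast_mul] at h2
      exact h2
    exact de2_hy hA hp ε τ hτ ((h : ℤ) + r * r) _ h1 ν hν (de2_SS_ch ν x hxν c) hgen 4
      (by norm_num) u2 hu2 s hs b hb
  · have h1 : (9 : ℤ) ≤ ((r * r : ℕ) : ℤ) := by exact_mod_cast hr9
    rw [show (((4 : ℕ) : ℤ)) = 4 from rfl]
    linarith

end

end WPE
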