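import Pool.Agent.WPE.DKD

/-! [WPE-DFF] The fusion polynomial for r = 2

Plan.  `SV.product_formula ht (r := 2) (s := 2) .. hc P Q : (4t)^n ff c (hrs t 2 2) (hP t P) (hP t Q) = PF t 2 2 P Q` (FP9).  As in `SV.ff_ne` (FP9,
copy its first lines) choose `P, Q` with `P^2 = 4 t m + (t-1)^2`, `Q^2 = 4 t j + (t-1)^2` (so `hP t P = m`, `hP t Q = j`).  `PF t 2 2 P Q` is the
product over `a, b = ±1` of `(P + a + b t)^2 - Q^2`.  Let `w = (t-1)^2/t`, so `h = 3w/4` (`KV.hrs t 2 2 = (4(1-t)^2-(1-t)^2)/(4t)`), i.e.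
`3 (t-1)^2 = 4 h t`, `3 (t+1)^2 = 4 (h+3) t`.  Put `s = m + j`, `d = m - j`.
The factors `(a,b) = (1,1), (-1,-1)` give `(4 t d + (1+t)^2)^2 - 4 P^2 (1+t)^2 = (16 t^2/3)(3 d^2 - (h+3)(2s+h-1))`, the factors `(1,-1), (-1,1)` give
`(4 t d + (1-t)^2)^2 - 4 P^2 (1-t)^2 = (16 t^2/3)(3 d^2 - h(2s+h))` (`ring`/`linear_combination` with the relations above).
So `ff = 0` implies (cast to `ℤ`) `3 d^2 = (h+3)(2s+h-1)` or `3 d^2 = h(2s+h)`.  Both are impossible for `m, j ≥ 1`, `s ≤ h+4` (so `|d| ≤ s-2`,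
`3 d^2 ≤ 3 (s-2)^2`).  Put `s = h + e`, `e ≤ 4`, `s ≥ 2`.
First: `3(s-2)^2 < (h+3)(2s+h-1)`: with `s = h+e` the difference right - left is `(20-4e)h + 3(e-1)(5-e)`; `1 ≤ e ≤ 4`: positive; `e ≤ 0`: use `1 - e ≤ h - 1`.
Second: `3(s-2)^2 < h(2s+h)` iff `3(e-2)^2 < (12-4e) h`: true for `e = 1, 2` and for `e ≤ 0` (use `2 - e ≤ h`).  `e = 3`: `d^2 = h(h+2)`, `h^2 < d^2 < (h+1)^2`.
`e = 4`: `3 d^2 = h (3h+8)`: `(h+1)^2 < d^2 < (h+2)^2` (check: `3(h+1)^2 = 3h^2+6h+3 < 3h^2+8h` iff `h ≥ 2`; for `h = 1`: `3 d^2 = 11`; `3h^2+8h < 3h^2+12h+12`). -/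

namespace WPE

open WPQ MvPolynomial AF

noncomputable section

theorem dff_fin {t h d m X Y : ℂ} (ht : t ≠ 0) (u : ℂ)
    (hX : 3 * X = 4 * (h + u) * t) (hY : 3 * Y = 12 * t * m + 4 * h * t)
    (hsq : (4 * t * d + X) ^ 2 = 4 * Y * X) :
    (3 * d + h + u) ^ 2 = 4 * (3 * m + h) * (h + u) := by
  have h1 : (12 * t * d + 4 * (h + u) * t) ^ 2 -
      4 * (12 * t * m + 4 * h * t) * (4 * (h + u) * t) = 0 := by
    rw [← hX, ← hY]
    linear_combination 9 * hsq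
  have h2 : 16 * t ^ 2 * ((3 * d + h + u) ^ 2 - 4 * (3 * m + h) * (h + u)) = 0 := by
    linear_combination h1
  have h3 : (16 * t ^ 2 : ℂ) ≠ 0 := mul_ne_zero (by norm_num) (pow_ne_zero 2 ht)
  exact sub_eq_zero.1 ((mul_eq_zero.1 h2).resolve_left h3)

theorem dff_alg {t h m j P Q a b : ℂ} (ht : t ≠ 0) (hh : 4 * h * t = 3 * (t - 1) ^ 2)
    (hP : P ^ 2 = 4 * t * m + (t - 1) ^ 2) (hQ : Q ^ 2 = 4 * t * j + (t - 1) ^ 2)
    (ha : a = 1 ∨ a = -1) (hb : b = 1 ∨ b = -1) (h0 : (P + a + b * t) ^ 2 - Q ^ 2 = 0) :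
    3 * (m - j) ^ 2 = (h + 3) * (2 * (m + j) + h - 1) ∨
      3 * (m - j) ^ 2 = h * (2 * (m + j) + h) := by
  have h1 : 2 * P * (a + b * t) = -(4 * t * (m - j) + (a + b * t) ^ 2) := by
    linear_combination h0 - hP + hQ
  have hsq : (4 * t * (m - j) + (a + b * t) ^ 2) ^ 2 = 4 * P ^ 2 * (a + b * t) ^ 2 := by
    have h2 : (2 * P * (a + b * t)) ^ 2 = (-(4 * t * (m - j) + (a + b * t) ^ 2)) ^ 2 := by
      rw [h1]
    linear_combination -h2
  have hY : 3 * P ^ 2 = 12 * t * m + 4 * h * t := by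
    linear_combination 3 * hP - hh
  have c1 : (a + b * t) ^ 2 = (1 + t) ^ 2 → 3 * (m - j) ^ 2 = (h + 3) * (2 * (m + j) + h - 1) := by
    intro hx
    rw [hx] at hsq
    have hX : 3 * (1 + t) ^ 2 = 4 * (h + 3) * t := by linear_combination -hh
    have h3 := dff_fin ht (d := m - j) 3 hX hY hsq
    have h4 : (3 : ℂ) ≠ 0 := by norm_num
    apply mul_left_cancel₀ h4
    linear_combination h3
  have c2 : (a + b * t) ^ 2 = (1 - t) ^ 2 → 3 * (m - j) ^ 2 = h * (2 * (m + j) + h) := by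
    intro hx
    rw [hx] at hsq
    have hX : 3 * (1 - t) ^ 2 = 4 * (h + 0) * t := by linear_combination -hh
    have h3 := dff_fin ht (d := m - j) 0 hX hY hsq
    have h4 : (3 : ℂ) ≠ 0 := by norm_num
    apply mul_left_cancel₀ h4
    linear_combination h3
  rcases ha with rfl | rfl <;> rcases hb with rfl | rfl
  · exact Or.inl (c1 (by ring))
  · exact Or.inr (c2 (by ring))
  · exact Or.inr (c2 (by ring))
  · exact Or.inl (c1 (by ring))

theorem dff_one (h m j : ℤ) (hh : 1 ≤ h) (hm : 1 ≤ m) (hj : 1 ≤ j) (hs : m + j ≤ h + 4)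
    (he : 3 * (m - j) ^ 2 = (h + 3) * (2 * (m + j) + h - 1)) : False := by
  have h1 : (m - j) ^ 2 ≤ (m + j - 2) ^ 2 := by nlinarith
  have h2 := mul_nonneg (show 0 ≤ m + j - 2 by linarith) (show 0 ≤ h + 4 - (m + j) by linarith)
  have h3 := mul_nonneg (show 0 ≤ h by linarith) (show 0 ≤ h + 4 - (m + j) by linarith)
  nlinarith

theorem dff_two (h m j : ℤ) (hh : 1 ≤ h) (hm : 1 ≤ m) (hj : 1 ≤ j) (hs : m + j ≤ h + 4)
    (he : 3 * (m - j) ^ 2 = h * (2 * (m + j) + h)) : False := by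
  have h1 : (m - j) ^ 2 ≤ (m + j - 2) ^ 2 := by nlinarith
  rcases le_or_gt (m + j) (h + 2) with h4 | h4
  · have h2 := mul_nonneg (show 0 ≤ m + j - 2 by linarith) (show 0 ≤ h + 2 - (m + j) by linarith)
    have h3 := mul_nonneg (show 0 ≤ h by linarith) (show 0 ≤ h + 2 - (m + j) by linarith)
    nlinarith
  · have h5 : m + j = h + 3 ∨ m + j = h + 4 := by omega
    rw [← sq_abs (m - j)] at he
    have h7 := abs_nonneg (m - j)
    generalize |m - j| = e at he h7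
    rcases h5 with h5 | h5
    · rw [h5] at he
      have h6 : e ^ 2 = h * (h + 2) := by linarith
      rcases le_or_gt e h with h8 | h8
      · nlinarith
      · nlinarith
    · rw [h5] at he
      rcases le_or_gt e (h + 1) with h8 | h8
      · rcases eq_or_lt_of_le hh with h9 | h9
        · rw [← h9] at he
          omega
        · nlinarith
      · nlinarith

theorem DFF : st_DFF := by
  intro t ht h hh hhrs c hc m j hm hj hmj h0
  have ht0 : t ≠ 0 := by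
    intro h
    have h1 := (ht 0 1 (by rw [h]; simp)).2
    exact one_ne_zero h1
  obtain ⟨P, hPP⟩ := IsAlgClosed.exists_pow_nat_eq (4 * t * (m : ℂ) + (t - 1) ^ 2) (n := 2)
    two_pos
  obtain ⟨Q, hQQ⟩ := IsAlgClosed.exists_pow_nat_eq (4 * t * (j : ℂ) + (t - 1) ^ 2) (n := 2)
    two_pos
  have hPm : SV.hP t P = (m : ℂ) := by
    unfold SV.hP
    rw [hPP, add_sub_cancel_right, mul_comm, mul_div_assoc, div_self (by
      exact mul_ne_zero (by norm_num) ht0), mul_one]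
  have hQj : SV.hP t Q = (j : ℂ) := by
    unfold SV.hP
    rw [hQQ, add_sub_cancel_right, mul_comm, mul_div_assoc, div_self (by
      exact mul_ne_zero (by norm_num) ht0), mul_one]
  have h1 := SV.product_formula ht (r := 2) (s := 2) (by norm_num) (by norm_num) hc P Q
  rw [hPm, hQj, ← hhrs, h0, mul_zero] at h1
  unfold SV.PF at h1
  obtain ⟨i, hi, h2⟩ := Finset.prod_eq_zero_iff.1 h1.symm
  obtain ⟨k, hk, h3⟩ := Finset.prod_eq_zero_iff.1 h2
  have hht : 4 * (h : ℂ) * t = 3 * (t - 1) ^ 2 := by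
    rw [hhrs]
    unfold KV.hrs
    field_simp
    push_cast
    ring
  have hpm : ∀ i : ℕ, i ∈ Finset.range 2 →
      (((2 : ℕ) : ℂ) - 1 - 2 * (i : ℂ) = 1 ∨ ((2 : ℕ) : ℂ) - 1 - 2 * (i : ℂ) = -1) := by
    intro i hi
    rw [Finset.mem_range] at hi
    interval_cases i
    · left; push_cast; ring
    · right; push_cast; ring
  rcases dff_alg ht0 hht hPP hQQ (hpm i hi) (hpm k hk) h3 with h4 | h4
  · refine dff_one (h : ℤ) (m : ℤ) (j : ℤ) (by exact_mod_cast hh) (by exact_mod_cast hm)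
      (by exact_mod_cast hj) (by exact_mod_cast hmj) ?_
    have h5 : ((3 * ((m : ℤ) - j) ^ 2 : ℤ) : ℂ) =
        ((((h : ℤ) + 3) * (2 * ((m : ℤ) + j) + h - 1) : ℤ) : ℂ) := by
      push_cast
      exact h4
    exact_mod_cast h5
  · refine dff_two (h : ℤ) (m : ℤ) (j : ℤ) (by exact_mod_cast hh) (by exact_mod_cast hm)
      (by exact_mod_cast hj) (by exact_mod_cast hmj) ?_
    have h5 : ((3 * ((m : ℤ) - j) ^ 2 : ℤ) : ℂ) =
        (((h : ℤ) * (2 * ((m : ℤ) + j) + h) : ℤ) : ℂ) := by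
      push_cast
      exact h4
    exact_mod_cast h5

end

end WPE
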