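import Pool.Agent.WPE.DKD

/-! [WPE-DJ1] The adjoint of the chain. -/

namespace WPE

open WPQ MvPolynomial AF

noncomputable section

theorem DJ1 : st_DJ1 := by
  intro ι _ _ A hA p hp ε τ hτ l u hu
  obtain ⟨u', hu', hadj, -⟩ := adjoint hA hp ε τ hτ l u hu
  have huW : u ∈ W A p := hu.1.1.1
  have huW' : u' ∈ W A p := hu'.1.1.1
  refine ⟨u', hu', fun L => ?_⟩
  induction L with
  | nil =>
    intro x b _ _
    exact ⟨1, by rw [one_mul]; rfl⟩
  | cons N L ih =>
    intro x b hx hb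
    obtain ⟨s, hs⟩ := ih (mode ε u ((N : ℤ) + l - 1) x) b (W_closed hA hp ε u x huW hx _) hb
    have hpa : ∀ (L : List ℕ), pa ε u' l L b ∈ W A p := by
      intro L
      induction L with
      | nil => exact hb
      | cons M L ihL => exact W_closed hA hp ε u' _ huW' ihL _
    refine ⟨s * (-1 : ℂ) ^ l, ?_⟩
    show beta ε τ (pw ε u l L (mode ε u ((N : ℤ) + l - 1) x)) b = _
    rw [hs, hadj ((N : ℤ) + l - 1) x _ hx (hpa L)]
    have e : 2 * (l : ℤ) - 2 - ((N : ℤ) + l - 1) = (l : ℤ) - 1 - N := by ring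
    rw [e, ← mul_assoc]
    rfl

end

end WPE
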