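import Pool.Agent.WPE.DKD

/-! [WPE-DJ2] The adjoint chain on a product

Plan.  Induction on `L`.  `[]`: `k = s`, `a' = a`, `b' = b`.  `N :: L`: `pa (N :: L) (a_s b) = u_i (pa L (a_s b))`, `i = l - 1 - N ≥ 0`; by linearity (`Submodule.span_induction`, or map the span) it is enough for one generator `a'_k b'`, `k ≤ s + shf l L`:
`u_i (a'_k b') = a'_k (u_i b') + ∑_t C(i,t) (u_t a')_{i+k-t} b'` (`mode_comm`, `mode_trunc`); `u_i b' ∈ Wn`, charge `g'` (`mode_Wn`, `mode_charge` with charge `0 + g'`), `u_t a' ∈ Wn` of charge `g`; the indices are `≤ k + i`.  `shf l (N :: L) = i + shf l L`. -/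

namespace WPE

open WPQ MvPolynomial AF

noncomputable section

theorem DJ2 : st_DJ2 := by
  intro ι _ _ A hA p hp ε l u hu L
  have hp1 : 1 ≤ p := by omega
  have huW : u ∈ Wn A p l := hu.1.1
  have hu0 : u ∈ Finsupp.supported (Fock ι) ℂ {0} := hu.2
  induction L with
  | nil =>
    intro _ m j s a b g g' ha hag hb hbg
    refine Submodule.subset_span ⟨m, j, s, a, b, ha, hag, hb, hbg, ?_, rfl⟩
    unfold shf
    simp
  | cons N L ih =>
    intro hL m j s a b g g' ha hag hb hbg
    have hN : N + 1 ≤ l := hL N (List.mem_cons_self)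
    have h1 := ih (fun N' hN' => hL N' (List.mem_cons_of_mem _ hN')) m j s a b g g' ha hag hb hbg
    have hsh : shf l (N :: L) = ((l : ℤ) - 1 - N) + shf l L := by
      unfold shf
      rw [List.map_cons, List.sum_cons]
    obtain ⟨i, hi⟩ : ∃ i : ℤ, i = (l : ℤ) - 1 - N := ⟨_, rfl⟩
    have hi0 : 0 ≤ i := by omega
    show mode ε u ((l : ℤ) - 1 - N) (pa ε u l L (mode ε a s b)) ∈ _
    rw [hsh, ← hi]
    generalize pa ε u l L (mode ε a s b) = x at h1
    refine Submodule.span_induction (p := fun x _ => mode ε u i x ∈ Submodule.span ℂ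
      {v | ∃ (m' j' k : ℤ) (a' b' : VL ι),
        a' ∈ Wn A p m' ∧ a' ∈ Finsupp.supported (Fock ι) ℂ {g} ∧ b' ∈ Wn A p j' ∧
        b' ∈ Finsupp.supported (Fock ι) ℂ {g'} ∧ k ≤ s + (i + shf l L) ∧ v = mode ε a' k b'})
      ?_ ?_ ?_ ?_ h1
    · rintro x ⟨m', j', k, a', b', ha', hag', hb', hbg', hk, rfl⟩
      obtain ⟨M, hM⟩ := mode_trunc hA hp1 ε u a'
      have hc := mode_comm hA hp1 ε u a' M (fun j hj => hM j (by exact_mod_cast hj)) i k
      have hc' := congrArg (fun f => f b') hc
      have hc2 : mode ε u i (mode ε a' k b') = mode ε a' k (mode ε u i b') +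
          ∑ j ∈ Finset.range M, ((Ring.choose i j : ℤ) : ℂ) •
            mode ε (mode ε u j a') (i + k - j) b' := by
        have h2 : mode ε u i (mode ε a' k b') - mode ε a' k (mode ε u i b') =
            (∑ j ∈ Finset.range M, ((Ring.choose i j : ℤ) : ℂ) •
              mode ε (mode ε u j a') (i + k - j)) b' := hc'
        rw [LinearMap.sum_apply] at h2
        rw [← sub_eq_iff_eq_add']
        exact h2
      rw [hc2]
      refine Submodule.add_mem _ ?_ (Submodule.sum_mem _ fun t _ => Submodule.smul_mem _ _ ?_)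
      · refine Submodule.subset_span ⟨m', (l : ℤ) + j' - i - 1, k, a', mode ε u i b', ha', hag',
          mode_Wn hA hp ε l j' i u b' huW hb', ?_, by omega, rfl⟩
        have h3 := mode_charge hA hp1 ε 0 g' i u b' hu0 hbg'
        rwa [zero_add] at h3
      · refine Submodule.subset_span ⟨(l : ℤ) + m' - t - 1, j', i + k - t, mode ε u t a', b',
          mode_Wn hA hp ε l m' t u a' huW ha', ?_, hb', hbg', by omega, rfl⟩
        have h3 := mode_charge hA hp1 ε 0 g t u a' hu0 hag'
        rwa [zero_add] at h3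
    · rw [map_zero]
      exact Submodule.zero_mem _
    · intro x y _ _ hx hy
      rw [map_add]
      exact Submodule.add_mem _ hx hy
    · intro c x _ hx
      rw [map_smul]
      exact Submodule.smul_mem _ c hx

end

end WPE
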