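import Pool.Agent.WPE.DKD

/-! [WPE-DJ3] The product of two exponentials. -/

namespace WPE

open WPQ MvPolynomial AF

noncomputable section

theorem DJ3 : st_DJ3 := by
  intro ι _ _ A hA p hp ε a b
  have hp1 : 1 ≤ p := by omega
  refine ⟨((ε.ε (-a) (-b) : ℤ) : ℂ), ?_⟩
  have e0 : formZ A p (-a) (-b) = formZ A p a b := by
    unfold formZ
    congr 1
    refine Finset.sum_congr rfl fun i _ => Finset.sum_congr rfl fun j _ => ?_
    simp only [Pi.neg_apply]
    ring
  rw [mode_single hA hp1]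
  unfold expMode
  rw [Finsupp.lsum_single, LinearMap.comp_apply, LinearMap.smul_apply, Finsupp.lsingle_apply, e0,
    vop_one]
  have e1 : expCoeffZ (toC (-a)) (-(-1 - formZ A p a b) - 1 - formZ A p a b) = 1 := by
    have e2 : -(-1 - formZ A p a b) - 1 - formZ A p a b = 0 := by ring
    rw [e2]
    unfold expCoeffZ
    norm_num
    rw [expCoeff]
  rw [e1, Finsupp.smul_single, smul_smul]
  have e3 : (((ε.ε (-a) (-b) : ℤ) : ℂ) * ((ε.ε (-a) (-b) : ℤ) : ℂ)) = 1 := by
    rcases Int.units_eq_one_or (ε.ε (-a) (-b)) with h | h <;> rw [h] <;> norm_num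
  rw [e3, one_smul]
  congr 1
  abel

end

end WPE
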