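import Pool.Agent.WPE.DKD
/-! [WPE-DK1] The claim K, primary case

Plan.  Copy of `en_word`, `en_SS`, `en_zero` of EN1.lean, with `u ∈ Prim0 A p m` replaced by `a ∈ pv4_Prim A p m` (they only use `LS_mode`, i.e.
primary) and `Wn A p j` replaced by `B j = {b ∈ Wn A p j | b ∈ supported {g}}` (stable under `LS (Shift.zero A p) k`: `en1_LS_Wn`, and `LS` preserves
charges: `LS_comp`/definition of `LS`, grep `LS_charge`, `as1_prim_comp`).
`dk1_word`: hypothesis `hlow : ∀ j' < j, ∀ b ∈ B j', ∀ k, beta ε τ x (mode ε a k b) = 0`; conclusion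
`beta ε τ (KV.wd (LS ..) w x) (mode ε a s b) = SV.fw h m j w * beta ε τ x (mode ε a (s + w.sum) b)`.
Then strong induction on `j` (as in `en_zero`): `j < 0`: `Wn_neg`; `j = 0`: `Wn_zero`, charge `g ≠ 0`, so `b = 0`.  If `(h:ℤ) ≠ m + j - k - 1`: `beta_wt`
(`mode_Wn`).  Otherwise `k ≤ 3`; `s = k - 4 ≤ -1`; `mode ε a s b ∈ Gen ε (h+4)` (`1 ≤ m`, `1 ≤ j`), so `hX.gen` and `dk1_SS` give
`0 = SV.ff c h m j * beta ε τ x (mode ε a k b)` and `hX.ff m j.toNat` (`m + j ≤ h + 4`). -/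

namespace WPE

open WPQ MvPolynomial AF

noncomputable section

variable {ι : Type} [Fintype ι] [DecidableEq ι] {A : Matrix ι ι ℤ} {p : ℕ}

theorem dk1_supp (k : ℤ) (g : ι → ℤ) (b : VL ι) (hb : b ∈ Finsupp.supported (Fock ι) ℂ {g}) :
    LS (Shift.zero A p) k b ∈ Finsupp.supported (Fock ι) ℂ {g} := by
  rw [Finsupp.mem_supported'] at hb ⊢
  intro γ hγ
  have h1 := LS_comp (A := A) (p := p) k b γ
  rw [hb γ hγ, Finsupp.single_zero, map_zero, Finsupp.single_eq_zero] at h1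
  exact h1

theorem dk1_word (hA : IsADE A) (hp : 2 ≤ p) (ε : Cocycle A p) (τ : Shift A p)
    (hτ : τ.s = (2 : ℂ) • bg A p) (m h : ℕ) (j : ℤ) (u : VL ι) (huP : u ∈ pv4_Prim A p m) (x : VL ι)
    (hx : x ∈ pv4_Prim A p h) (g : ι → ℤ)
    (hlow : ∀ j' < j, ∀ b ∈ Wn A p j', b ∈ Finsupp.supported (Fock ι) ℂ {g} →
      ∀ k : ℤ, beta ε τ x (mode ε u k b) = 0) (b : VL ι)
    (hb : b ∈ Wn A p j) (hbg : b ∈ Finsupp.supported (Fock ι) ℂ {g})
    (w : List ℕ) (hw : KV.Pw w) (s : ℤ) :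
    beta ε τ (KV.wd (LS (Shift.zero A p)) w x) (mode ε u s b) =
      SV.fw h m j w * beta ε τ x (mode ε u (s + w.sum) b) := by
  have hp1 : 1 ≤ p := by omega
  have hx0 : x ∈ Wn A p h := hx.1
  have hL0 : LS (Shift.zero A p) 0 u = ((m : ℤ) : ℂ) • u := LS_zero_Vn hA hp1 m u huP.1.2
  induction w generalizing j b s with
  | nil =>
    show beta ε τ x (mode ε u s b) = 1 * beta ε τ x (mode ε u (s + ((([] : List ℕ).sum : ℕ) : ℤ)) b)
    rw [one_mul, List.sum_nil, Nat.cast_zero, add_zero]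
  | cons a w ih =>
    have ha : 0 < a := hw a (List.mem_cons_self)
    have hw' : KV.Pw w := fun c hc => hw c (List.mem_cons_of_mem a hc)
    set z := KV.wd (LS (Shift.zero A p)) w x with hz
    have hzW : z ∈ W A p := en1_wd_mem hA hp1 w x hx0.1
    have hzU : z ∈ UU ε := by
      rw [← W_eq_UU hA hp ε]
      exact hzW
    have hbu : mode ε u s b ∈ W A p := W_closed hA hp ε u b huP.1.1 hb.1 s
    have e1 : KV.wd (LS (Shift.zero A p)) (a :: w) x = LS (Shift.zero A p) (-(a : ℤ)) z := rfl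
    have h1 := beta_LS hA hp ε τ hτ (-(a : ℤ)) z (mode ε u s b) hzU hbu
    rw [neg_neg] at h1
    have h2 := LinearMap.congr_fun (LS_mode hA hp1 ε u _ hL0 huP.2.1 huP.2.2 (a : ℤ) s) b
    rw [LinearMap.sub_apply, LinearMap.comp_apply, LinearMap.comp_apply, LinearMap.smul_apply,
      sub_eq_iff_eq_add] at h2
    rw [e1, h1, h2, beta_add_right, beta_smul_right]
    have hLb : LS (Shift.zero A p) (a : ℤ) b ∈ Wn A p (j - a) := en1_LS_Wn hA hp1 _ _ b hb
    have hLg : LS (Shift.zero A p) (a : ℤ) b ∈ Finsupp.supported (Fock ι) ℂ {g} :=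
      dk1_supp (a : ℤ) g b hbg
    have h3 := ih (j - a) (fun j' hj' => hlow j' (by omega)) _ hLb hLg hw' s
    have h4 := hlow (j - a) (by omega) _ hLb hLg (s + (w.sum : ℤ))
    rw [h4, mul_zero] at h3
    have h5 := ih j hlow b hb hbg hw' (s + a)
    rw [h3, h5, add_zero]
    have e2 : s + (((a :: w).sum : ℕ) : ℤ) = s + a + (w.sum : ℤ) := by
      rw [List.sum_cons]
      push_cast
      ring
    rw [e2]
    have e3 : SV.fw (h : ℂ) (m : ℂ) (j : ℂ) (a :: w) =
      ((h : ℂ) + (w.sum : ℂ) + a * m - j) * SV.fw (h : ℂ) (m : ℂ) (j : ℂ) w := rfl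
    rw [e3]
    by_cases h6 : beta ε τ x (mode ε u (s + a + (w.sum : ℤ)) b) = 0
    · rw [h6, mul_zero, mul_zero, mul_zero]
    · have h7 : (h : ℤ) = (m : ℤ) + j - (s + a + (w.sum : ℤ)) - 1 := by
        by_contra hne
        exact h6 (beta_wt hA hp ε τ hτ _ _ _ _ hx0.2
          (mode_Wn hA hp ε m j (s + a + (w.sum : ℤ)) u b huP.1 hb).2 hne)
      have h8 : ∀ W : ℕ, (h : ℤ) = (m : ℤ) + j - (s + a + (W : ℤ)) - 1 →
          ((((m : ℤ) : ℂ) - 1) * (((a : ℤ) : ℂ) + 1) - (s : ℂ)) =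
            (h : ℂ) + (W : ℂ) + a * m - j := by
        intro W hW
        have h9 := congrArg (Int.cast : ℤ → ℂ) hW
        push_cast at h9 ⊢
        rw [h9]
        ring
      rw [h8 w.sum h7, ← mul_assoc]

theorem dk1_SS (hA : IsADE A) (hp : 2 ≤ p) (ε : Cocycle A p) (τ : Shift A p)
    (hτ : τ.s = (2 : ℂ) • bg A p) (m h : ℕ) (j : ℤ) (u : VL ι) (hu : u ∈ pv4_Prim A p m) (x : VL ι)
    (hx : x ∈ pv4_Prim A p h) (g : ι → ℤ)
    (hlow : ∀ j' < j, ∀ b ∈ Wn A p j', b ∈ Finsupp.supported (Fock ι) ℂ {g} →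
      ∀ k : ℤ, beta ε τ x (mode ε u k b) = 0) (b : VL ι)
    (hb : b ∈ Wn A p j) (hbg : b ∈ Finsupp.supported (Fock ι) ℂ {g})
    {n : ℕ} (c : Nat.Partition n → ℂ) (s : ℤ) :
    beta ε τ (SV.SS (LS (Shift.zero A p)) c x) (mode ε u s b) =
      SV.ff c h m j * beta ε τ x (mode ε u (s + n) b) := by
  have h1 : beta ε τ (SV.SS (LS (Shift.zero A p)) c x) (mode ε u s b) =
      ∑ π, c π * beta ε τ (KV.wd (LS (Shift.zero A p)) (KV.pl π) x) (mode ε u s b) := by
    unfold SV.SS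
    have h2 := map_sum ((du1_B ε τ).flip (mode ε u s b))
      (fun π => c π • KV.wd (LS (Shift.zero A p)) (KV.pl π) x) Finset.univ
    refine h2.trans (Finset.sum_congr rfl fun π _ => ?_)
    exact beta_smul_left ε τ _ _ _
  rw [h1]
  unfold SV.ff
  rw [Finset.sum_mul]
  refine Finset.sum_congr rfl fun π _ => ?_
  rw [dk1_word hA hp ε τ hτ m h j u hu x hx g hlow b hb hbg (KV.pl π) (KV.pl_pos π) s, KV.pl_sum,
    mul_assoc]

theorem DK1 : st_DK1 := by
  intro ι _ _ A hA p hp ε τ h c x ν hX m u hm hu g hg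
  have hτ := hX.tau
  have key : ∀ N : ℕ, ∀ j : ℤ, j < N → (m : ℤ) + j ≤ h + 4 → ∀ b ∈ Wn A p j,
      b ∈ Finsupp.supported (Fock ι) ℂ {g} → ∀ k : ℤ, beta ε τ x (mode ε u k b) = 0 := by
    intro N
    induction N with
    | zero =>
      intro j hj _ b hb _ k
      rw [Wn_neg hA hp j (by simpa using hj), Submodule.mem_bot] at hb
      rw [hb, map_zero, en1_zero_right]
    | succ N ih =>
      intro j hjN hj b hb hbg k
      have hlow : ∀ j' < j, ∀ b ∈ Wn A p j', b ∈ Finsupp.supported (Fock ι) ℂ {g} →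
          ∀ k : ℤ, beta ε τ x (mode ε u k b) = 0 :=
        fun j' hj' b hb hbg k => ih j' (by push_cast at hjN; omega) (by omega) b hb hbg k
      by_cases hj0 : j < 0
      · rw [Wn_neg hA hp j hj0, Submodule.mem_bot] at hb
        rw [hb, map_zero, en1_zero_right]
      by_cases hj1 : j = 0
      · have hb0 : b = 0 := by
          rw [hj1] at hb
          obtain ⟨a, ha⟩ := Wn_zero hA hp b hb
          have h1 : b 0 = 0 := (Finsupp.mem_supported' ℂ b).1 hbg 0 (fun h => hg (by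
            rw [Set.mem_singleton_iff] at h
            exact h.symm))
          have h2 : b 0 = a • (1 : Fock ι) := by
            rw [ha, Finsupp.smul_apply]
            show a • ((Finsupp.single 0 1 : VL ι) 0) = _
            rw [Finsupp.single_eq_same]
          rw [h1] at h2
          have h3 : a = 0 := (smul_eq_zero.1 h2.symm).resolve_right one_ne_zero
          rw [ha, h3, zero_smul]
        rw [hb0, map_zero, en1_zero_right]
      by_cases hk : (h : ℤ) = (m : ℤ) + j - k - 1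
      · have h0 : mode ε u (k - 4) b ∈ Gen ε ((h : ℤ) + 4) := by
          refine Submodule.subset_span ⟨m, j, k - 4, u, b, by omega, by omega, by omega, by omega,
            hu.1, hb, rfl⟩
        have h1 := hX.gen _ h0
        have h2 := dk1_SS hA hp ε τ hτ m h j u hu x hX.prim g hlow b hb hbg c (k - 4)
        rw [h1, show k - 4 + ((2 * 2 : ℕ) : ℤ) = k by norm_num] at h2
        obtain ⟨j', rfl⟩ := Int.eq_ofNat_of_zero_le (not_lt.1 hj0)
        have e0 : (((j' : ℕ) : ℤ) : ℂ) = ((j' : ℕ) : ℂ) := Int.cast_natCast j'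
        rw [e0] at h2
        rcases mul_eq_zero.1 h2.symm with h3 | h3
        · exact absurd h3 (hX.ff m j' hm (by omega) (by omega))
        · exact h3
      · exact beta_wt hA hp ε τ hτ _ _ _ _ hX.prim.1.2 (mode_Wn hA hp ε m j k u b hu.1 hb).2 hk
  intro j hj b hb hbg k
  exact key (j + 1).toNat j (by omega) hj b hb hbg k

end

end WPE
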