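import Pool.Agent.WPE.DKD

/-! [WPE-DK2] The claim K: two charged factors. -/

namespace WPE

open WPQ MvPolynomial AF

noncomputable section

variable {ι : Type} [Fintype ι] [DecidableEq ι] {A : Matrix ι ι ℤ} {p : ℕ}

/-- a charged vector of weight at most `0` is zero -/
theorem dk2_zero (hA : IsADE A) (hp : 2 ≤ p) (m : ℤ) (hm : m ≤ 0) (a : VL ι) (g : ι → ℤ)
    (hg : g ≠ 0) (ha : a ∈ Wn A p m) (hag : a ∈ Finsupp.supported (Fock ι) ℂ {g}) : a = 0 := by
  rcases lt_or_eq_of_le hm with h | h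
  · rw [Wn_neg hA hp m h, Submodule.mem_bot] at ha
    exact ha
  · subst h
    obtain ⟨c, hc⟩ := Wn_zero hA hp a ha
    rw [va4_supp_single g a hag, hc]
    have h1 : (c • (vac : VL ι)) g = 0 := by
      unfold vac
      rw [Finsupp.smul_apply, Finsupp.single_eq_of_ne hg, smul_zero]
    rw [h1, Finsupp.single_zero]

theorem dk2_sum (ε : Cocycle A p) (τ : Shift A p) (x : VL ι) (S : Finset ℕ) (F : ℕ → VL ι)
    (h : ∀ s ∈ S, beta ε τ x (F s) = 0) : beta ε τ x (∑ s ∈ S, F s) = 0 := by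
  have h2 := map_sum (du1_B ε τ x) F S
  refine h2.trans (Finset.sum_eq_zero fun s hs => ?_)
  exact h s hs

theorem dk2_supp (k : ℤ) (g : ι → ℤ) (b : VL ι) (hb : b ∈ Finsupp.supported (Fock ι) ℂ {g}) :
    LS (Shift.zero A p) k b ∈ Finsupp.supported (Fock ι) ℂ {g} := by
  refine va4_mem_supp g _ fun δ hδ => ?_
  have h1 := LS_comp (A := A) (p := p) k b δ
  rw [va4_supp g b hb δ hδ, Finsupp.single_zero, map_zero, Finsupp.single_eq_zero] at h1
  exact h1

theorem dk2_LS (hA : IsADE A) (hp : 2 ≤ p) (ε : Cocycle A p) (τ : Shift A p)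
    (hτ : τ.s = (2 : ℂ) • bg A p) (h : ℕ) (x : VL ι) (hx : x ∈ pv4_Prim A p h) (k : ℤ)
    (hk : 1 ≤ k) (v : VL ι) (hv : v ∈ W A p) :
    beta ε τ x (LS (Shift.zero A p) (-k) v) = 0 := by
  have hxW := hx.1.1
  rw [W_eq_UU hA hp ε] at hxW
  rw [← beta_LS hA hp ε τ hτ k x v hxW hv, en3_pos hA (by omega) h x hx k hk]
  exact ad1_zero_left ε τ v

theorem dk2_main (hK : st_DK1) (hA : IsADE A) (hp : 2 ≤ p) (ε : Cocycle A p) (τ : Shift A p)
    (h : ℕ) (c : Nat.Partition (2 * 2) → ℂ) (x : VL ι) (ν : ι → ℤ) (X : XD ε τ h c x ν)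
    (g g' : ι → ℤ) (hg : g ≠ 0) (hg' : g' ≠ 0) (M : ℕ) :
    ∀ m : ℤ, m < M → ∀ j : ℤ, m + j ≤ h + 4 → ∀ a : VL ι, a ∈ Wn A p m →
      a ∈ Finsupp.supported (Fock ι) ℂ {g} → ∀ b : VL ι, b ∈ Wn A p j →
      b ∈ Finsupp.supported (Fock ι) ℂ {g'} → ∀ k : ℤ, beta ε τ x (mode ε a k b) = 0 := by
  have hp1 : 1 ≤ p := by omega
  induction M with
  | zero =>
    intro m hm j _ a ha hag b _ _ k
    rw [dk2_zero hA hp m (by push_cast at hm; omega) a g hg ha hag, va3_mode_zero hA hp1,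
      LinearMap.zero_apply]
    exact ad1_zero_right ε τ x
  | succ M ih =>
    intro m hm j hmj a ha hag b hb hbg k
    push_cast at hm
    by_cases hj : j ≤ 0
    · rw [dk2_zero hA hp j hj b g' hg' hb hbg, map_zero]
      exact ad1_zero_right ε τ x
    by_cases hm0 : m ≤ 0
    · rw [dk2_zero hA hp m hm0 a g hg ha hag, va3_mode_zero hA hp1, LinearMap.zero_apply]
      exact ad1_zero_right ε τ x
    obtain ⟨a0, ha0, aI, haI, hsum⟩ := Submodule.mem_sup.1 (X.dec m (by omega) ha)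
    unfold IIn at haI
    obtain ⟨a1', ha1', a2', ha2', hsum'⟩ := Submodule.mem_sup.1 haI
    obtain ⟨a1, ha1, rfl⟩ := Submodule.mem_map.1 ha1'
    obtain ⟨a2, ha2, rfl⟩ := Submodule.mem_map.1 ha2'
    have hdec : a = Finsupp.single g (a0 g) +
        (LS (Shift.zero A p) (-1) (Finsupp.single g (a1 g)) +
          LS (Shift.zero A p) (-2) (Finsupp.single g (a2 g))) := by
      rw [← LS_comp, ← LS_comp, ← Finsupp.single_add, ← Finsupp.single_add, ← Finsupp.add_apply,
        ← Finsupp.add_apply, hsum', hsum]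
      exact va4_supp_single g a hag
    have hs1 : ∀ f : Fock ι, (Finsupp.single g f : VL ι) ∈ Finsupp.supported (Fock ι) ℂ {g} :=
      fun f => Finsupp.single_mem_supported ℂ _ rfl
    obtain ⟨m', rfl⟩ := Int.eq_ofNat_of_zero_le (by omega : 0 ≤ m)
    -- the primary part
    have t0 : beta ε τ x (mode ε (Finsupp.single g (a0 g)) k b) = 0 :=
      hK ι A hA p hp ε τ h c x ν X m' _ (by omega) (as1_prim_comp _ a0 ha0 g) g'
        hg' j hmj b hb hbg k
    -- the derivative part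
    have t1 : beta ε τ x (mode ε (LS (Shift.zero A p) (-1) (Finsupp.single g (a1 g))) k b) = 0 := by
      rw [LS_zero_neg_one, mode_transl hA hp1, LinearMap.smul_apply, beta_smul_right,
        ih _ (by omega) j (by omega) _
          (pv2_mem _ a1 ha1 g) (hs1 _) b hb hbg (k - 1), mul_zero]
    -- the `L(-2)` part
    have t2 : beta ε τ x (mode ε (LS (Shift.zero A p) (-2) (Finsupp.single g (a2 g))) k b) = 0 := by
      have e : LS (Shift.zero A p) (-2) (Finsupp.single g (a2 g)) =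
          mode ε (omega A p) (-1) (Finsupp.single g (a2 g)) := by
        rw [mode_omega hA hp1]
        norm_num
      have ha2W : (Finsupp.single g (a2 g) : VL ι) ∈ Wn A p ((m' : ℤ) - 2) := pv2_mem _ a2 ha2 g
      rw [e]
      obtain ⟨M0, hM0⟩ := mode_nop hA hp1 ε (omega A p) (Finsupp.single g (a2 g)) k b
      rw [hM0 M0 le_rfl]
      refine dk2_sum ε τ x _ _ fun s _ => ?_
      rw [beta_add_right, mode_omega hA hp1, mode_omega hA hp1]
      have e1 : (-1 - (s : ℤ)) - 1 = -((s : ℤ) + 2) := by ring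
      rw [e1, dk2_LS hA hp ε τ X.tau h x X.prim ((s : ℤ) + 2) (by omega) _
        (W_closed hA hp ε _ b ha2W.1 hb.1 _), zero_add]
      refine ih _ (by omega) (j - ((s : ℤ) - 1))
        (by omega) _ ha2W (hs1 _) _
        (en1_LS_Wn hA hp1 ((s : ℤ) - 1) j b hb) (dk2_supp _ g' b hbg) _
    rw [hdec, mode_add hA hp1, mode_add hA hp1, LinearMap.add_apply, LinearMap.add_apply,
      beta_add_right, beta_add_right, t0, t1, t2, add_zero, add_zero]

theorem DK2 (h1 : st_DK1) : st_DK2 := by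
  intro ι _ _ A hA p hp ε τ h c x ν X m j a b g g' hg hg' ha hag hb hbg k hk
  by_cases hw : (h : ℤ) = m + j - k - 1
  · exact dk2_main h1 hA hp ε τ h c x ν X g g' hg hg' (m + 1).toNat m (by omega) j (by omega) a ha
      hag b hb hbg k
  · exact beta_wt hA hp ε τ X.tau _ _ _ _ X.prim.1.2 (mode_Wn hA hp ε m j k a b ha hb).2 hw

end

end WPE
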