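import Pool.Agent.WPE.DKD

/-! [WPE-DK3] Primary fields of charge 0 on `x`. -/

namespace WPE

open WPQ MvPolynomial AF

noncomputable section

theorem DK3 (h1 : st_DK1) : st_DK3 := by
  intro ι _ _ A hA p hp ε τ h c x ν X m hm u hu k hk
  have hp1 : 1 ≤ p := by omega
  obtain ⟨u', hu', hadj, -⟩ := adjoint hA hp ε τ X.tau m u hu
  have h2 : mode ε u k x ∈ Wn A p ((m : ℤ) + h - k - 1) :=
    mode_Wn hA hp ε m h k u x hu.1.1 X.prim.1
  refine beta_left hA hp ε τ X.tau _ _ h2 fun b hb => ?_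
  rw [hadj k x b X.prim.1.1 hb.1, beta_comp_right hA hp ε τ X.tau ν x _ X.ch,
    mode_comp hA hp1 ε _ u' b hu'.2 (-ν)]
  have h3 : (Finsupp.single (-ν) (b (-ν)) : VL ι) ∈ Wn A p ((m : ℤ) + h - k - 1) :=
    pv2_mem _ b hb (-ν)
  rw [h1 ι A hA p hp ε τ h c x ν X m u' hm hu'.1 (-ν) (neg_ne_zero.2 X.ne)
    ((m : ℤ) + h - k - 1) (by omega) _ h3 (Finsupp.single_mem_supported ℂ _ rfl), mul_zero]

end

end WPE
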