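import Pool.Agent.WPE.DKD
import Pool.Agent.WPQ.ND1

/-! [WPE-DNT] The squares (from ND1). -/

namespace WPE

open WPQ MvPolynomial AF

noncomputable section

theorem dnt_wD (l p : ℕ) (hp : 2 ≤ p) : WPE.wD l p = WPQ.wD l p := by
  unfold WPE.wD WPQ.wD wR
  have hpq : (p : ℚ) ≠ 0 := by
    have : (0 : ℚ) < p := by exact_mod_cast (by omega : 0 < p)
    exact this.ne'
  field_simp
  ring

theorem DNT (l : ℕ) (hl : 4 ≤ l) : st_DNT l := by
  intro p hp
  rw [dnt_wD l p hp]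
  exact ⟨nd_R1 l p hl hp, nd_R2 l p hl hp, nd_R3 l p hl hp⟩

end

end WPE
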