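import Pool.Agent.WPE.DKD

/-! [WPE-DR] The root system D_l -/

namespace WPE

open WPQ MvPolynomial AF

noncomputable section

/-- sums against a simple root -/
private theorem dr_sum {l : ℕ} (hl : 4 ≤ l) (i : Fin l) (g : Fin l → ℤ) :
    ∑ k, cD l i k * g k =
      if h : (i : ℕ) + 1 < l then g i - g ⟨i + 1, h⟩
      else g ⟨l - 2, by omega⟩ + g ⟨l - 1, by omega⟩ := by
  split_ifs with h
  · have h1 : ∀ k : Fin l, cD l i k * g k =
        (if k = i then g i else 0) + (if k = ⟨i + 1, h⟩ then - g ⟨i + 1, h⟩ else 0) := by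
      intro k
      unfold cD
      rw [if_pos h]
      by_cases h2 : k = i
      · subst h2
        rw [if_pos rfl, if_pos rfl, if_neg, one_mul, add_zero]
        intro h3
        have := congrArg Fin.val h3
        simp at this
      · rw [if_neg h2, if_neg h2]
        by_cases h3 : (k : ℕ) = i + 1
        · have h4 : k = ⟨i + 1, h⟩ := Fin.ext h3
          rw [if_pos h3, if_pos h4, h4]
          ring
        · have h4 : k ≠ ⟨i + 1, h⟩ := fun h5 => h3 (congrArg Fin.val h5)
          rw [if_neg h3, if_neg h4]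
          ring
    rw [Finset.sum_congr rfl fun k _ => h1 k, Finset.sum_add_distrib, Finset.sum_ite_eq',
      Finset.sum_ite_eq', if_pos (Finset.mem_univ _), if_pos (Finset.mem_univ _)]
    ring
  · have h1 : ∀ k : Fin l, cD l i k * g k =
        (if k = ⟨l - 2, by omega⟩ then g ⟨l - 2, by omega⟩ else 0) +
          (if k = ⟨l - 1, by omega⟩ then g ⟨l - 1, by omega⟩ else 0) := by
      intro k
      unfold cD
      rw [if_neg h]
      by_cases h2 : (k : ℕ) + 2 = l
      · have h3 : k = ⟨l - 2, by omega⟩ := Fin.ext (by simp; omega)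
        have h4 : k ≠ ⟨l - 1, by omega⟩ := fun h5 => by
          have := congrArg Fin.val h5
          simp at this
          omega
        rw [if_pos (Or.inl h2), if_pos h3, if_neg h4, h3]
        ring
      · have h3 : k ≠ ⟨l - 2, by omega⟩ := fun h5 => by
          have := congrArg Fin.val h5
          simp at this
          omega
        by_cases h4 : (k : ℕ) + 1 = l
        · have h5 : k = ⟨l - 1, by omega⟩ := Fin.ext (by simp; omega)
          rw [if_pos (Or.inr h4), if_neg h3, if_pos h5, h5]
          ring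
        · have h5 : k ≠ ⟨l - 1, by omega⟩ := fun h5 => by
            have := congrArg Fin.val h5
            simp at this
            omega
          rw [if_neg (not_or.2 ⟨h2, h4⟩), if_neg h3, if_neg h5]
          ring
    rw [Finset.sum_congr rfl fun k _ => h1 k, Finset.sum_add_distrib, Finset.sum_ite_eq',
      Finset.sum_ite_eq', if_pos (Finset.mem_univ _), if_pos (Finset.mem_univ _)]

private theorem dr_gram {l : ℕ} (hl : 4 ≤ l) (i j : Fin l) :
    CartanMatrix.D l i j = ∑ k, cD l i k * cD l j k := by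
  rw [dr_sum hl]
  obtain ⟨i, hi⟩ := i
  obtain ⟨j, hj⟩ := j
  simp only [CartanMatrix.D, Matrix.of_apply, cD, Fin.mk.injEq]
  split_ifs <;> omega

private theorem dr_sum2 {l : ℕ} (x g : Fin l → ℤ) :
    ∑ k, oD l x k * g k = ∑ i, x i * ∑ k, cD l i k * g k := by
  simp only [oD, Finset.sum_mul, Finset.mul_sum]
  rw [Finset.sum_comm]
  refine Finset.sum_congr rfl fun i _ => Finset.sum_congr rfl fun k _ => ?_
  ring

private theorem dr_form {l : ℕ} (hl : 4 ≤ l) (x y : Fin l → ℤ) :
    ∑ i, ∑ j, x i * CartanMatrix.D l i j * y j = ∑ k, oD l x k * oD l y k := by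
  rw [dr_sum2]
  refine Finset.sum_congr rfl fun i _ => ?_
  have h1 : ∑ k, cD l i k * oD l y k = ∑ j, y j * ∑ k, cD l j k * cD l i k := by
    rw [← dr_sum2]
    exact Finset.sum_congr rfl fun k _ => mul_comm _ _
  rw [h1, Finset.mul_sum]
  refine Finset.sum_congr rfl fun j _ => ?_
  rw [dr_gram hl i j]
  have h2 : ∑ k, cD l j k * cD l i k = ∑ k, cD l i k * cD l j k :=
    Finset.sum_congr rfl fun k _ => mul_comm _ _
  rw [h2]
  ring

private theorem dr_pr {l : ℕ} (hl : 4 ≤ l) (j : Fin l) (x : Fin l → ℤ) :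
    pr (CartanMatrix.D l) j x = if h : (j : ℕ) + 1 < l then oD l x j - oD l x ⟨j + 1, h⟩
      else oD l x ⟨l - 2, by omega⟩ + oD l x ⟨l - 1, by omega⟩ := by
  rw [← dr_sum hl]
  have h1 : ∑ k, cD l j k * oD l x k = ∑ i, x i * ∑ k, cD l i k * cD l j k := by
    rw [← dr_sum2]
    exact Finset.sum_congr rfl fun k _ => mul_comm _ _
  rw [h1, pr]
  refine Finset.sum_congr rfl fun i _ => ?_
  rw [dr_gram hl j i, mul_comm]
  have h2 : ∑ k, cD l j k * cD l i k = ∑ k, cD l i k * cD l j k :=
    Finset.sum_congr rfl fun k _ => mul_comm _ _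
  rw [h2]

private theorem dr_dom {l : ℕ} (hl : 4 ≤ l) (x : Fin l → ℤ) :
    Dom (CartanMatrix.D l) x ↔ DmD (oD l x) := by
  set v := oD l x with hv
  constructor
  · intro h i j hij
    have hstep : ∀ (k : ℕ) (hk : k + 1 < l), v ⟨k + 1, hk⟩ ≤ v ⟨k, by omega⟩ := by
      intro k hk
      have := h ⟨k, by omega⟩
      rw [dr_pr hl, dif_pos hk] at this
      linarith
    have hlast : 0 ≤ v ⟨l - 2, by omega⟩ + v ⟨l - 1, by omega⟩ := by
      have := h ⟨l - 1, by omega⟩
      rw [dr_pr hl, dif_neg (by simp; omega)] at this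
      exact this
    have hmono : ∀ (n k : ℕ) (hk : k + n < l), v ⟨k + n, hk⟩ ≤ v ⟨k, by omega⟩ := by
      intro n
      induction n with
      | zero => intro k hk; exact le_rfl
      | succ n ih =>
        intro k hk
        exact (hstep (k + n) hk).trans (ih k (by omega))
    have hmono' : ∀ a b : Fin l, a ≤ b → v b ≤ v a := by
      intro a b hab
      have h1 := hmono (b - a) a (by have := b.2; have : (a : ℕ) ≤ b := hab; omega)
      have h2 : (⟨(a : ℕ) + ((b : ℕ) - a), by have := b.2; have : (a : ℕ) ≤ b := hab; omega⟩ : Fin l)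
          = b := Fin.ext (by have : (a : ℕ) ≤ b := hab; simp; omega)
      rw [h2] at h1
      exact h1
    rw [abs_le]
    have hij' : (i : ℕ) < j := hij
    have hj := j.2
    constructor
    · have h1 := hmono' j ⟨l - 1, by omega⟩ (by rw [Fin.le_def]; simp; omega)
      have h2 := hmono' i ⟨l - 2, by omega⟩ (by rw [Fin.le_def]; simp; omega)
      linarith
    · exact hmono' i j hij.le
  · intro h j
    rw [dr_pr hl]
    split_ifs with h1
    · have := h j ⟨j + 1, h1⟩ (by rw [Fin.lt_def]; simp)
      have := le_abs_self (v ⟨j + 1, h1⟩)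
      linarith
    · have := h ⟨l - 2, by omega⟩ ⟨l - 1, by omega⟩ (by rw [Fin.lt_def]; simp; omega)
      have := neg_abs_le (v ⟨l - 1, by omega⟩)
      linarith

/-- the coordinates -/
private theorem dr_oD {l : ℕ} (hl : 4 ≤ l) (x : Fin l → ℤ) (k : Fin l) :
    oD l x k = (if (k : ℕ) + 1 < l then x k else 0) -
      (if h : 1 ≤ (k : ℕ) then x ⟨k - 1, by omega⟩ else 0) +
      (if (k : ℕ) + 2 = l ∨ (k : ℕ) + 1 = l then x ⟨l - 1, by omega⟩ else 0) := by
  have h1 : ∀ i : Fin l, x i * cD l i k =
      (if i = k then (if (k : ℕ) + 1 < l then x k else 0) else 0) +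
      (if h : 1 ≤ (k : ℕ) then (if i = ⟨k - 1, by omega⟩ then - x ⟨k - 1, by omega⟩ else 0) else 0) +
      (if i = ⟨l - 1, by omega⟩ then
        (if (k : ℕ) + 2 = l ∨ (k : ℕ) + 1 = l then x ⟨l - 1, by omega⟩ else 0) else 0) := by
    intro i
    unfold cD
    have hi := i.2
    have hk := k.2
    by_cases h2 : (i : ℕ) + 1 < l
    · rw [if_pos h2]
      have h3 : i ≠ ⟨l - 1, by omega⟩ := fun h5 => by
        have := congrArg Fin.val h5
        simp at this
        omega
      rw [if_neg h3, add_zero]
      by_cases h4 : k = i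
      · subst h4
        rw [if_pos rfl, if_pos rfl, if_pos h2]
        have h5 : (if h : 1 ≤ (k : ℕ) then
            (if k = ⟨k - 1, by omega⟩ then - x ⟨k - 1, by omega⟩ else 0) else 0) = (0 : ℤ) := by
          split_ifs with h6 h7
          · have := congrArg Fin.val h7
            simp at this
            omega
          · rfl
          · rfl
        rw [h5]
        ring
      · have h4' : ¬ i = k := fun h => h4 h.symm
        rw [if_neg h4, if_neg h4', zero_add]
        by_cases h5 : (k : ℕ) = i + 1
        · have h6 : i = ⟨k - 1, by omega⟩ := Fin.ext (by simp; omega)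
          rw [if_pos h5, dif_pos (by omega), if_pos h6, ← h6]
          ring
        · rw [if_neg h5]
          have h5 : (if h : 1 ≤ (k : ℕ) then
              (if i = ⟨k - 1, by omega⟩ then - x ⟨k - 1, by omega⟩ else 0) else 0) = (0 : ℤ) := by
            split_ifs with h6 h7
            · have := congrArg Fin.val h7
              simp at this
              omega
            · rfl
            · rfl
          rw [h5]
          ring
    · rw [if_neg h2]
      have h3 : i = ⟨l - 1, by omega⟩ := Fin.ext (by simp; omega)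
      rw [if_pos h3]
      have h5 : (if h : 1 ≤ (k : ℕ) then
          (if i = ⟨k - 1, by omega⟩ then - x ⟨k - 1, by omega⟩ else 0) else 0) = (0 : ℤ) := by
        split_ifs with h6 h7
        · have := congrArg Fin.val h7
          simp at this
          omega
        · rfl
        · rfl
      rw [h5]
      have h6 : (if i = k then (if (k : ℕ) + 1 < l then x k else 0) else 0) = (0 : ℤ) := by
        split_ifs with h7 h8
        · rw [← h7] at h8
          exact absurd h8 h2
        · rfl
        · rfl
      rw [h6, h3]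
      split_ifs <;> ring
  rw [oD, Finset.sum_congr rfl fun i _ => h1 i, Finset.sum_add_distrib, Finset.sum_add_distrib,
    Finset.sum_ite_eq', if_pos (Finset.mem_univ _), Finset.sum_ite_eq', if_pos (Finset.mem_univ _)]
  congr 1
  rw [sub_eq_add_neg]
  congr 1
  split_ifs with h2
  · rw [Finset.sum_ite_eq', if_pos (Finset.mem_univ _)]
  · simp

private theorem dr_add (l : ℕ) (x y : Fin l → ℤ) : oD l (x + y) = oD l x + oD l y := by
  funext k
  simp only [oD, Pi.add_apply, add_mul, Finset.sum_add_distrib]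

private theorem dr_zero {l : ℕ} (hl : 4 ≤ l) (z : Fin l → ℤ) (h : ∀ k, oD l z k = 0) : z = 0 := by
  have h0 : ∀ (k : ℕ) (hk : k + 2 < l), z ⟨k, by omega⟩ = 0 := by
    intro k
    induction k with
    | zero =>
      intro hk
      have := h ⟨0, by omega⟩
      rw [dr_oD hl, if_pos (by simp; omega), dif_neg (by simp), if_neg (by simp; omega)] at this
      linarith
    | succ k ih =>
      intro hk
      have := h ⟨k + 1, by omega⟩
      rw [dr_oD hl, if_pos (by simp; omega), dif_pos (by simp), if_neg (by simp; omega)] at this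
      have h2 := ih (by omega)
      have h3 : (⟨(k + 1) - 1, by omega⟩ : Fin l) = ⟨k, by omega⟩ := Fin.ext (by simp)
      simp only [h3, h2] at this
      linarith
  have h1 := h ⟨l - 2, by omega⟩
  rw [dr_oD hl, if_pos (by simp; omega), dif_pos (by simp; omega), if_pos (by left; simp; omega)]
    at h1
  have h2 := h ⟨l - 1, by omega⟩
  rw [dr_oD hl, if_neg (by simp; omega), dif_pos (by simp; omega), if_pos (by right; simp; omega)]
    at h2
  have h3 : (⟨l - 2 - 1, by omega⟩ : Fin l) = ⟨l - 3, by omega⟩ := Fin.ext (by simp; omega)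
  have h4 : (⟨l - 1 - 1, by omega⟩ : Fin l) = ⟨l - 2, by omega⟩ := Fin.ext (by simp; omega)
  have h5 := h0 (l - 3) (by omega)
  simp only [h3, h4, h5] at h1 h2
  funext k
  rw [Pi.zero_apply]
  have hk := k.2
  by_cases h6 : (k : ℕ) + 2 < l
  · exact h0 k h6
  · by_cases h7 : (k : ℕ) + 2 = l
    · have : k = ⟨l - 2, by omega⟩ := Fin.ext (by simp; omega)
      rw [this]
      linarith
    · have : k = ⟨l - 1, by omega⟩ := Fin.ext (by simp; omega)
      rw [this]
      linarith

private theorem dr_surj {l : ℕ} (hl : 4 ≤ l) (v : Fin l → ℤ) (hv : Even (∑ k, v k)) :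
    ∃ x : Fin l → ℤ, oD l x = v := by
  obtain ⟨s, hs⟩ := hv
  set V : ℕ → ℤ := fun k => if h : k < l then v ⟨k, h⟩ else 0 with hV
  have hVk : ∀ (k : ℕ) (h : k < l), V k = v ⟨k, h⟩ := by
    intro k h
    simp only [hV]
    rw [dif_pos h]
  have hsum : ∑ k ∈ Finset.range l, V k = s + s := by
    rw [← hs, Finset.sum_range]
    exact Finset.sum_congr rfl fun k _ => hVk k k.2
  have hsplit : ∑ k ∈ Finset.range l, V k =
      ∑ k ∈ Finset.range (l - 2), V k + V (l - 2) + V (l - 1) := by
    obtain ⟨n, rfl⟩ : ∃ n, l = n + 2 := ⟨l - 2, by omega⟩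
    rw [Finset.sum_range_succ, Finset.sum_range_succ]
    rfl
  refine ⟨fun i => if (i : ℕ) + 2 < l then ∑ k ∈ Finset.range (i + 1), V k
    else if (i : ℕ) + 2 = l then s - V (l - 1) else s, ?_⟩
  funext k
  rw [dr_oD hl]
  have hk := k.2
  simp only
  rw [if_neg (show ¬ (l - 1 + 2 < l) by omega), if_neg (show ¬ (l - 1 + 2 = l) by omega)]
  by_cases h1 : (k : ℕ) + 2 < l
  · rw [if_pos (by omega : (k : ℕ) + 1 < l), if_pos h1, if_neg (by omega)]
    by_cases h2 : 1 ≤ (k : ℕ)
    · rw [dif_pos h2, if_pos (by omega)]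
      have h3 : (k : ℕ) - 1 + 1 = k := by omega
      rw [h3, Finset.sum_range_succ, hVk k hk]
      ring
    · rw [dif_neg h2]
      have h3 : (k : ℕ) = 0 := by omega
      rw [h3]
      simp only [zero_add, Finset.sum_range_one, sub_zero, add_zero]
      rw [← h3, hVk k hk]
  · by_cases h2 : (k : ℕ) + 2 = l
    · rw [if_pos (by omega : (k : ℕ) + 1 < l), if_neg h1, if_pos h2, dif_pos (by omega),
        if_pos (by omega), if_pos (Or.inl h2)]
      have h3 : (k : ℕ) - 1 + 1 = l - 2 := by omega
      have h4 : v k = V (l - 2) := by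
        rw [hVk (l - 2) (by omega)]
        congr 1
        exact Fin.ext (by simp; omega)
      rw [h3, h4]
      linarith
    · have h3 : (k : ℕ) + 1 = l := by omega
      rw [if_neg (by omega), dif_pos (by omega), if_neg (by omega), if_pos (by omega),
        if_pos (Or.inr h3)]
      have h4 : v k = V (l - 1) := by
        rw [hVk (l - 1) (by omega)]
        congr 1
        exact Fin.ext (by simp; omega)
      rw [h4]
      ring

theorem DR (l p : ℕ) (hl : 4 ≤ l) : st_DR l p := by
  have hinj : ∀ x y : Fin l → ℤ, oD l x = oD l y → x = y := by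
    intro x y hxy
    have h1 : ∀ k, oD l (x - y) k = 0 := by
      intro k
      have h2 := congrFun (dr_add l (x - y) y) k
      rw [sub_add_cancel, hxy, Pi.add_apply] at h2
      linarith
    exact sub_eq_zero.1 (dr_zero hl _ h1)
  refine ⟨⟨?_, ?_, ?_, ?_⟩, ?_, dr_dom hl, ?_, ?_, dr_surj hl, hinj, dr_add l⟩
  · intro i j
    rw [dr_gram hl, dr_gram hl]
    exact Finset.sum_congr rfl fun k _ => mul_comm _ _
  · intro i
    simp [CartanMatrix.D]
  · intro i j hij
    simp only [CartanMatrix.D, Matrix.of_apply]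
    split_ifs <;> simp_all
  · intro c hc
    rw [dr_form hl]
    refine lt_of_le_of_ne (Finset.sum_nonneg fun k _ => mul_self_nonneg _) ?_
    intro h
    apply hc
    apply dr_zero hl
    intro k
    have := (Finset.sum_eq_zero_iff_of_nonneg fun k _ => mul_self_nonneg (oD l c k)).1 h.symm k
      (Finset.mem_univ k)
    exact mul_self_eq_zero.1 this
  · intro x y
    rw [formZ, dr_form hl]
  · intro x
    have h1 := dr_sum2 x (fun k : Fin l => ((l : ℤ) - 1 - (k : ℕ)))
    have h2 : ∑ k : Fin l, ((l : ℤ) - 1 - (k : ℕ)) * oD l x k =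
        ∑ k, oD l x k * ((l : ℤ) - 1 - (k : ℕ)) :=
      Finset.sum_congr rfl fun k _ => mul_comm _ _
    rw [h2, h1]
    refine Finset.sum_congr rfl fun i _ => ?_
    rw [dr_sum hl]
    have hi := i.2
    split_ifs with h3
    · push_cast
      ring
    · have h4 : ((l - 2 : ℕ) : ℤ) = l - 2 := by omega
      have h5 : ((l - 1 : ℕ) : ℤ) = l - 1 := by omega
      simp only [h4, h5]
      ring
  · intro x
    have h1 := dr_sum2 x (fun _ : Fin l => (1 : ℤ))
    simp only [mul_one] at h1
    rw [h1]
    refine Finset.even_sum _ fun i _ => ?_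
    have h2 := dr_sum hl i (fun _ : Fin l => (1 : ℤ))
    simp only [mul_one] at h2
    rw [h2]
    split_ifs with h3
    · simp
    · exact ⟨x i, by ring⟩

end

end WPE
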