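import Pool.Agent.WPE.DKD
import Pool.Agent.WPE.VGM

/-! [WPE-DT0] Products of homogeneous vectors of V^G

Plan.  All from `vg_5 hA hp ε` (VGM/VGD: `wk`, `md_mem`, `one_mem`, `wt`), `vg_2` (`single`, `der`), `mem_KK`.  `W`: `single 0 f ∈ W` (`wk`, definition of `Wk`), `∈ Vn m` (definition of `Vn`, `wtExp 0 = 0`: `ad1_wt_zero`).
`of`: `v = single 0 f`, `f ∈ KK` (`wk`), and `v ∈ Vn m` gives `FH f m` (grep `Vn` + `FH`, `pv2`, `hom`/`VP2`: the `0` component of a vector of `Vn n` is homogeneous of degree `n - wtExp 0`).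
`neg`: `single 0 (md ε a n b) = mode .. ∈ Wn (i+j-n-1) = ⊥` (`mode_Wn`, `Wn_neg`).  `md`: `md_mem` and `wt`.  `T`: `dT f = md ε f (-2) 1` or directly: `single 0 (dT f) = transl (single 0 f)`
(`transl` on charge `0`), `W`/`Ej` stability, `dT` raises the weight by one (derivation; or `mode ε (single 0 f) (-2) vac`).  `zero`: `FH f 0` implies `f = C (constantCoeff f)`.
`transl`: `LS (Shift.zero) (-1) = transl` (grep in PV/FL), `transl (single 0 f) = single 0 (dT f)` (`osc 0 = 0`).  `E`: `Ej_mode` (VA3) and `Ej (single 0 f) = 0` (`single 0 f ∈ Wk`; `Ej ε (Shift.zero) j = expMode ε (rt j) 0`, grep `Ej_eq`). -/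

namespace WPE

open WPQ MvPolynomial AF

noncomputable section

private theorem dt0_transl {ι : Type} [Fintype ι] [DecidableEq ι] (u : Fock ι) :
    transl (Finsupp.single (0 : ι → ℤ) u) = Finsupp.single 0 (dT ι u) := by
  unfold transl
  rw [Finsupp.lsum_single]
  have h0 : toC (0 : ι → ℤ) = 0 := by
    funext i
    simp [toC]
  have h : osc (toC (0 : ι → ℤ)) 0 = (0 : Fock ι) := by
    unfold osc
    refine Finset.sum_eq_zero fun i _ => ?_
    rw [h0, Pi.zero_apply, C_0, zero_mul]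
  rw [LinearMap.comp_apply, LinearMap.add_apply, LinearMap.mulLeft_apply, h, zero_mul, add_zero]
  rfl

private theorem dt0_vn {ι : Type} [Fintype ι] [DecidableEq ι] {A : Matrix ι ι ℤ} {p : ℕ} (m : ℕ)
    (f : Fock ι) (hf : f ∈ KH A p m) : (Finsupp.single 0 f : VL ι) ∈ Vn A p m := by
  refine Submodule.subset_span ⟨0, f, m, ?_, ?_, rfl⟩
  · exact (Submodule.mem_inf.1 hf).2
  · rw [ad1_wt_zero]
    simp

theorem DT0 {ι : Type} [Fintype ι] [DecidableEq ι] {A : Matrix ι ι ℤ} {p : ℕ} (hA : IsADE A)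
    (hp : 2 ≤ p) (ε : Cocycle A p) : st_DT0 ε := by
  have hp1 : 1 ≤ p := by omega
  have V := vg_2 hA hp1 ε
  have V5 := vg_5 hA hp ε
  have inj : Function.Injective (Finsupp.single (0 : ι → ℤ) : Fock ι → VL ι) :=
    Finsupp.single_injective 0
  have hWk : ∀ (m : ℕ) (f : Fock ι), f ∈ KH A p m → Finsupp.single 0 f ∈ WPQ.Wk ε := by
    intro m f hf
    exact (V5.wk _).2 ⟨f, (Submodule.mem_inf.1 hf).1, rfl⟩
  have hW : ∀ (m : ℕ) (f : Fock ι), f ∈ KH A p m → Finsupp.single 0 f ∈ Wn A p m := by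
    intro m f hf
    refine Submodule.mem_inf.2 ⟨?_, dt0_vn m f hf⟩
    exact (hWk m f hf).1
  have hof : ∀ (m : ℕ) (v : VL ι), v ∈ WPQ.Wk ε → v ∈ Vn A p m →
      ∃ f ∈ KH A p m, v = Finsupp.single 0 f := by
    intro m v hv hm
    obtain ⟨f, hf, rfl⟩ := (V5.wk _).1 hv
    refine ⟨f, Submodule.mem_inf.2 ⟨hf, ?_⟩, rfl⟩
    rcases vp2_Vn_comp _ _ hm 0 with h2 | ⟨d, hd, hd2⟩
    · rw [Finsupp.single_eq_same] at h2
      rw [h2]
      exact Submodule.zero_mem _
    · rw [Finsupp.single_eq_same] at hd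
      rw [ad1_wt_zero, add_zero] at hd2
      have : d = m := by exact_mod_cast hd2
      subst this
      exact hd
  have hmd : ∀ (i j c : ℕ) (n : ℤ) (a b : Fock ι), a ∈ KH A p i → b ∈ KH A p j →
      (c : ℤ) = i + j - n - 1 → md ε a n b ∈ KH A p c := by
    intro i j c n a b ha hb hc
    exact Submodule.mem_inf.2 ⟨V5.md_mem a (Submodule.mem_inf.1 ha).1 b (Submodule.mem_inf.1 hb).1 n,
      V5.wt i j c a b n (Submodule.mem_inf.1 ha).2 (Submodule.mem_inf.1 hb).2 hc⟩
  have h1 : (1 : Fock ι) ∈ KH A p 0 := by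
    refine Submodule.mem_inf.2 ⟨V5.one_mem, ?_⟩
    exact isWeightedHomogeneous_one ℂ _
  refine ⟨hW, hWk, hof, ?_, hmd, ?_, ?_, ?_, ?_⟩
  · intro i j n a b ha hb h
    have h2 := mode_Wn hA hp ε i j n _ _ (hW i a ha) (hW j b hb)
    rw [Wn_neg hA hp _ (by omega), Submodule.mem_bot, V.single] at h2
    apply inj
    rw [h2, Finsupp.single_zero]
  · intro m f hf
    have h2 := hmd m 0 (m + 1) (-2) f 1 hf h1 (by push_cast; ring)
    have h3 : md ε f (-2) 1 = dT ι f := by
      have h4 := LinearMap.congr_fun (V.der f (-1)) 1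
      have h5 : md ε (dT ι f) (-1) 1 = dT ι f := by
        apply inj
        rw [← V.single]
        exact mode_neg_one_vac hA hp1 ε _
      rw [h5] at h4
      rw [h4]
      norm_num
    rwa [h3] at h2
  · intro f hf
    have h2 := (Submodule.mem_inf.1 hf).2
    obtain ⟨c, hc⟩ := Wn_zero hA hp _ (hW 0 f hf)
    refine ⟨c, ?_⟩
    unfold vac at hc
    rw [Finsupp.smul_single] at hc
    exact inj hc
  · intro f
    rw [LS_zero_neg_one, dt0_transl]
  · intro m f hf j k v
    have h2 := LinearMap.congr_fun (Ej_mode hA hp1 ε j (Finsupp.single 0 f) k) v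
    have h3 : Ej ε (Shift.zero A p) j (Finsupp.single 0 f) = 0 := by
      have h4 := (hWk m f hf).2.2 j
      unfold Ej
      rw [expS_zero]
      exact h4
    have h5 : mode ε (0 : VL ι) k = 0 := by
      have h6 := mode_smul hA hp1 ε 0 (0 : VL ι) k
      rwa [zero_smul, zero_smul] at h6
    rw [h3, h5, LinearMap.sub_apply, LinearMap.comp_apply, LinearMap.comp_apply,
      LinearMap.zero_apply, sub_eq_zero] at h2
    exact h2

end

end WPE
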