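import Pool.Agent.WPE.DKD
import Pool.Agent.WPE.VGM

/-! [WPE-DT1] Tools for KSp

Plan.  `add`, `smul`, `span`: `Finsupp.single_add`, `mode_add`, `mode_smul` (`Submodule.span_induction`).  `one`: `single 0 1 = vac`, `mode_vac`: modes `k ≥ 0` of `vac` are `0`.
`T`: `single 0 (dT f) = transl (single 0 f)`, `mode_transl`.  `comp`: `single 0 (md ε f (-1) g) = mode ε (single 0 f) (-1) (single 0 g)` (`(vg_2 ..).single`), `mode_nop` for `u = single 0 f`, `v = single 0 g`
on `z`, mode `n ≥ i + j + N`: `∑_s u_{-1-s} v_{n+s} z + v_{n-1-s} u_s z`.  `v_{n+s} z = 0` (`n + s ≥ j + N`).  `u_s z = 0` for `s ≥ i`.  For `0 ≤ s < i`: `n - 1 - s ≥ j + N`, so `v_{n-1-s} z = 0` and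
`v_{n-1-s} u_s z = [v_{n-1-s}, u_s] z = ∑_k C(n-1-s,k) (v_k u)_{n-1-k} z` (`mode_comm`, `mode_trunc`) `= 0` by the hypothesis (`n - 1 - k ≥ (i+j-k-1) + N`). -/

namespace WPE

open WPQ MvPolynomial AF

noncomputable section

/-- the translation operator on charge zero -/
private theorem dt1_transl {ι : Type} [Fintype ι] [DecidableEq ι] (u : Fock ι) :
    transl (Finsupp.single (0 : ι → ℤ) u) = Finsupp.single 0 (dT ι u) := by
  unfold transl
  rw [Finsupp.lsum_single]
  have h : osc (toC (0 : ι → ℤ)) 0 = (0 : Fock ι) := by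
    unfold osc
    refine Finset.sum_eq_zero fun i _ => ?_
    have h0 : toC (0 : ι → ℤ) i = 0 := by simp [toC]
    rw [h0, C_0, zero_mul]
  rw [LinearMap.comp_apply, LinearMap.add_apply, LinearMap.mulLeft_apply, h, zero_mul, add_zero]
  rfl

theorem DT1 {ι : Type} [Fintype ι] [DecidableEq ι] {A : Matrix ι ι ℤ} {p : ℕ} (hA : IsADE A)
    (hp : 2 ≤ p) (ε : Cocycle A p) : st_DT1 ε := by
  have hp1 : 1 ≤ p := by omega
  have hzero : ∀ (z : VL ι) (m N : ℤ), KSp ε z m N 0 := by
    intro z m N k hk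
    rw [Finsupp.single_zero, va3_mode_zero hA hp1, LinearMap.zero_apply]
  have hadd : ∀ (z : VL ι) (m N : ℤ) (f g : Fock ι), KSp ε z m N f → KSp ε z m N g →
      KSp ε z m N (f + g) := by
    intro z m N f g hf hg k hk
    rw [Finsupp.single_add, mode_add hA hp1, LinearMap.add_apply, hf k hk, hg k hk, add_zero]
  have hsmul : ∀ (z : VL ι) (m N : ℤ) (c : ℂ) (f : Fock ι), KSp ε z m N f →
      KSp ε z m N (c • f) := by
    intro z m N c f hf k hk
    rw [← Finsupp.smul_single, mode_smul hA hp1, LinearMap.smul_apply, hf k hk, smul_zero]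
  refine ⟨hzero, hadd, hsmul, ?_, ?_, ?_, ?_, ?_⟩
  · intro z m N S hS f hf
    induction hf using Submodule.span_induction with
    | mem x hx => exact hS x hx
    | zero => exact hzero z m N
    | add x y _ _ hx hy => exact hadd z m N x y hx hy
    | smul c x _ hx => exact hsmul z m N c x hx
  · intro z m N N' f hN hf k hk
    exact hf k (by omega)
  · intro z N hN k hk
    have h := mode_vac hA hp1 ε k
    unfold vac at h
    rw [h, if_neg (by omega), LinearMap.zero_apply]
  · intro z m N f hf k hk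
    rw [← dt1_transl, mode_transl hA hp1, LinearMap.smul_apply, hf (k - 1) (by omega), smul_zero]
  · intro z i j N f g hi hN hf hg hk n hn
    rw [← (vg_2 hA hp1 ε).single]
    obtain ⟨M0, hM0⟩ := mode_nop hA hp1 ε (Finsupp.single 0 f) (Finsupp.single 0 g) n z
    rw [hM0 M0 le_rfl]
    refine Finset.sum_eq_zero fun s _ => ?_
    rw [hg (n + s) (by omega), map_zero, zero_add]
    by_cases hs : i ≤ (s : ℤ)
    · rw [hf s (by omega), map_zero]
    · rw [not_le] at hs
      obtain ⟨M, hM⟩ := mode_trunc hA hp1 ε (Finsupp.single 0 g) (Finsupp.single 0 f)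
      have h1 := mode_comm hA hp1 ε (Finsupp.single 0 g) (Finsupp.single 0 f) M
        (fun j hj => hM j (by exact_mod_cast hj)) (n - 1 - s) s
      have h2 := LinearMap.congr_fun h1 z
      rw [LinearMap.sub_apply, LinearMap.comp_apply, LinearMap.comp_apply,
        hg (n - 1 - s) (by omega), map_zero, sub_zero, LinearMap.sum_apply] at h2
      rw [h2]
      refine Finset.sum_eq_zero fun k _ => ?_
      rw [LinearMap.smul_apply, (vg_2 hA hp1 ε).single, hk k _ (by omega), smul_zero]

end

end WPE
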