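import Pool.Agent.WPE.DKD
import Pool.Agent.WPE.VGM

/-! [WPE-DT2] Tools for KNp

Plan.  As DT1.  `comp`: mode `n ≤ i + j - 2` on `b ∈ W`, `u = single 0 f`, `v = single 0 g`: `beta z (∑_s u_{-1-s} v_{n+s} b + v_{n-1-s} u_s b)` (`mode_nop`, finite sums).  `u_{-1-s}`: `-1-s ≤ i - 2`, `v_{n+s} b ∈ W`
(`W_closed`): `0`.  `v_{n-1-s} u_s b`: if `n - 1 - s ≤ j - 2`: `0` (`u_s b ∈ W`).  Otherwise `s ≤ n - j ≤ i - 2`: `v_{n-1-s} u_s b = u_s v_{n-1-s} b + ∑_k C(n-1-s,k) (v_k u)_{n-1-k} b` (`mode_comm`); first: `KNp z i f`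
(`s ≤ i - 2`); others: hypothesis (`n - 1 - k ≤ (i+j-k-1) - 2`).  Bilinearity of `beta`: `du1_B`, `beta_add_right`, `beta_smul_right`, `map_sum`. -/

namespace WPE

open WPQ MvPolynomial AF

noncomputable section

theorem dt2_transl {ι : Type} [Fintype ι] (u : Fock ι) :
    transl (Finsupp.single (0 : ι → ℤ) u) = Finsupp.single 0 (dT ι u) := by
  unfold transl
  rw [Finsupp.lsum_single]
  have h : osc (toC (0 : ι → ℤ)) 0 = (0 : Fock ι) := by
    unfold osc
    refine Finset.sum_eq_zero fun i _ => ?_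
    have h0 : toC (0 : ι → ℤ) i = 0 := by simp [toC]
    rw [h0, C_0, zero_mul]
  rw [LinearMap.comp_apply, LinearMap.add_apply, LinearMap.mulLeft_apply, h, zero_mul, add_zero]
  rfl

theorem DT2 {ι : Type} [Fintype ι] [DecidableEq ι] {A : Matrix ι ι ℤ} {p : ℕ} (hA : IsADE A)
    (hp : 2 ≤ p) (ε : Cocycle A p) (τ : Shift A p) (hτ : τ.s = (2 : ℂ) • bg A p) : st_DT2 ε τ := by
  have hp1 : 1 ≤ p := by omega
  have h0 : ∀ z : VL ι, beta ε τ z 0 = 0 := by
    intro z
    have h := beta_smul_right ε τ 0 z 0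
    rw [zero_smul, zero_mul] at h
    exact h
  have hzero : ∀ (z : VL ι) (m : ℤ), KNp ε τ z m 0 := by
    intro z m k _ b _
    rw [Finsupp.single_zero, va3_mode_zero hA hp1, LinearMap.zero_apply, h0]
  have hadd : ∀ (z : VL ι) (m : ℤ) (f g : Fock ι), KNp ε τ z m f → KNp ε τ z m g →
      KNp ε τ z m (f + g) := by
    intro z m f g hf hg k hk b hb
    rw [Finsupp.single_add, mode_add hA hp1, LinearMap.add_apply, beta_add_right, hf k hk b hb,
      hg k hk b hb, add_zero]
  have hsmul : ∀ (z : VL ι) (m : ℤ) (c : ℂ) (f : Fock ι), KNp ε τ z m f →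
      KNp ε τ z m (c • f) := by
    intro z m c f hf k hk b hb
    rw [← Finsupp.smul_single, mode_smul hA hp1, LinearMap.smul_apply, beta_smul_right,
      hf k hk b hb, mul_zero]
  have hsum : ∀ (z : VL ι) (s : Finset ℕ) (F : ℕ → VL ι), (∀ i ∈ s, beta ε τ z (F i) = 0) →
      beta ε τ z (∑ i ∈ s, F i) = 0 := by
    intro z s F hF
    have h1 : beta ε τ z (∑ i ∈ s, F i) = du1_B ε τ z (∑ i ∈ s, F i) := rfl
    rw [h1, map_sum]
    exact Finset.sum_eq_zero fun i hi => hF i hi
  refine ⟨hzero, hadd, hsmul, ?_, ?_, ?_, ?_⟩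
  · intro z m S hS f hf
    refine Submodule.span_induction (p := fun f _ => KNp ε τ z m f) ?_ ?_ ?_ ?_ hf
    · intro x hx
      exact hS x hx
    · exact hzero z m
    · intro x y _ _ hx hy
      exact hadd z m x y hx hy
    · intro c x _ hx
      exact hsmul z m c x hx
  · intro z k hk b _
    have h1 : mode ε (Finsupp.single 0 1 : VL ι) k = 0 := by
      have h2 := mode_vac hA hp1 ε k
      rw [if_neg (by omega)] at h2
      exact h2
    rw [h1, LinearMap.zero_apply, h0]
  · intro z m f hf k hk b hb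
    rw [← dt2_transl, mode_transl hA hp1, LinearMap.smul_apply, beta_smul_right,
      hf (k - 1) (by omega) b hb, mul_zero]
  · intro z i j f g hfW hgW hi hf hg hk n hn b hb
    have hs := (vg_2 hA hp1 ε).single
    rw [← hs f g (-1)]
    obtain ⟨M0, hM0⟩ := mode_nop hA hp1 ε (Finsupp.single 0 f) (Finsupp.single 0 g) n b
    rw [hM0 M0 le_rfl]
    refine hsum z _ _ fun s _ => ?_
    rw [beta_add_right]
    have e1 : beta ε τ z (mode ε (Finsupp.single 0 f) (-1 - s)
        (mode ε (Finsupp.single 0 g) (n + s) b)) = 0 :=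
      hf _ (by omega) _ (W_closed hA hp ε _ _ hgW hb _)
    rw [e1, zero_add]
    have hus : mode ε (Finsupp.single 0 f) (s : ℤ) b ∈ W A p := W_closed hA hp ε _ _ hfW hb _
    rcases le_or_gt (n - 1 - s) (j - 2) with h1 | h1
    · exact hg _ h1 _ hus
    · obtain ⟨M, hM⟩ := mode_trunc hA hp1 ε (Finsupp.single 0 g) (Finsupp.single 0 f)
      have hc := mode_comm hA hp1 ε (Finsupp.single 0 g) (Finsupp.single 0 f) M
        (fun q hq => hM q (by exact_mod_cast hq)) (n - 1 - s) s
      have hc' : mode ε (Finsupp.single 0 g) (n - 1 - s) (mode ε (Finsupp.single 0 f) (s : ℤ) b) =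
          mode ε (Finsupp.single 0 f) (s : ℤ) (mode ε (Finsupp.single 0 g) (n - 1 - s) b) +
          ∑ q ∈ Finset.range M, ((Ring.choose (n - 1 - s) q : ℤ) : ℂ) •
            mode ε (mode ε (Finsupp.single 0 g) q (Finsupp.single 0 f)) (n - 1 - s + s - q) b := by
        have h2 := congrArg (fun L : VL ι →ₗ[ℂ] VL ι => L b) hc
        simp only [LinearMap.sub_apply, LinearMap.comp_apply, LinearMap.sum_apply,
          LinearMap.smul_apply] at h2
        rw [← h2]
        abel
      rw [hc', beta_add_right]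
      have e2 : beta ε τ z (mode ε (Finsupp.single 0 f) (s : ℤ)
          (mode ε (Finsupp.single 0 g) (n - 1 - s) b)) = 0 :=
        hf _ (by omega) _ (W_closed hA hp ε _ _ hgW hb _)
      rw [e2, zero_add]
      refine hsum z _ _ fun q _ => ?_
      rw [beta_smul_right, hs g f q, hk q _ (by omega) b hb, mul_zero]

end

end WPE
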