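import Pool.Agent.WPE.DKD

/-! [WPE-DW] The weights of the dominant vectors

Plan.  `v = oD l ν`: `DmD v`, even sum, `v ≠ 0`.  `wtExp (-ν) = formZ ν ν / 2 + (p-1) ∑ ν_i`, `formZ ν ν = p ∑ v_k^2`, and `∑ v_k^2 ≡ ∑ v_k` mod `2` is even: this gives the second part.  First: `v_0 ≥ 1` (otherwise all `|v_j| ≤ 0`).  `∑ v_k^2 ≥ 2` (even and positive), `∑ (l-1-k) v_k ≥ 2l - 3`: if `v_0 ≥ 2` it is
`≥ 2(l-1)` (all `v_k ≥ 0` for `k < l-1`, the coefficient of `v_{l-1}` is `0`); if `v_0 = 1`: all `|v_k| ≤ 1`, the sum is even, so some other `v_k ≠ 0`, hence `v_1 = 1` (`|v_k| ≤ v_1`): `(l-1) + (l-2)`.  So `2 wtExp ≥ 2p + 2(p-1)(2l-3) > 2(2l-2)`. -/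

namespace WPE

open WPQ MvPolynomial AF

noncomputable section

/-- The sum of the squares has the parity of the sum. -/
theorem dw_even {l : ℕ} (v : Fin l → ℤ) (h : Even (∑ k, v k)) : Even (∑ k, v k ^ 2) := by
  have h1 : Even (∑ k, (v k ^ 2 - v k)) := by
    refine Finset.even_sum _ fun k _ => ?_
    have h2 := Int.even_mul_succ_self (v k - 1)
    have h3 : (v k - 1) * (v k - 1 + 1) = v k ^ 2 - v k := by ring
    rw [h3] at h2
    exact h2
  rw [Finset.sum_sub_distrib] at h1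
  have h4 := h1.add h
  rw [sub_add_cancel] at h4
  exact h4

/-- The lower bounds. -/
theorem dw_bound {l : ℕ} (hl : 4 ≤ l) (v : Fin l → ℤ) (hv : DmD v) (h0 : v ≠ 0)
    (he : Even (∑ k, v k)) :
    2 ≤ ∑ k, v k ^ 2 ∧ 2 * (l : ℤ) - 3 ≤ ∑ k : Fin l, ((l : ℤ) - 1 - (k : ℕ)) * v k := by
  set i0 : Fin l := ⟨0, by omega⟩ with hi0
  set i1 : Fin l := ⟨1, by omega⟩ with hi1
  have h01 : i0 < i1 := by
    rw [Fin.lt_def, hi0, hi1]
    exact Nat.zero_lt_one
  have hv0 : |v i1| ≤ v i0 := hv i0 i1 h01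
  have hle : ∀ k : Fin l, k ≠ i0 → |v k| ≤ v i0 := by
    intro k hk
    refine hv i0 k ?_
    rw [Fin.lt_def, hi0]
    have h1 : (k : ℕ) ≠ 0 := fun h => hk (Fin.ext h)
    exact Nat.pos_of_ne_zero h1
  have hpos : 1 ≤ v i0 := by
    obtain ⟨k, hk⟩ := Function.ne_iff.1 h0
    rw [Pi.zero_apply] at hk
    by_cases h1 : k = i0
    · rw [h1] at hk
      have h2 := abs_nonneg (v i1)
      omega
    · have h2 := hle k h1
      have h3 := abs_pos.2 hk
      omega
  have hnn : ∀ k : Fin l, (k : ℕ) + 1 < l → 0 ≤ v k := by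
    intro k hk
    have h1 := hv k ⟨k + 1, hk⟩ (by rw [Fin.lt_def]; exact Nat.lt_succ_self _)
    exact (abs_nonneg _).trans h1
  have hterm : ∀ k : Fin l, 0 ≤ ((l : ℤ) - 1 - (k : ℕ)) * v k := by
    intro k
    by_cases hk : (k : ℕ) + 1 < l
    · exact mul_nonneg (by omega) (hnn k hk)
    · have h1 : (l : ℤ) - 1 - (k : ℕ) = 0 := by
        have := k.2
        omega
      rw [h1, zero_mul]
  have hsq : 1 ≤ ∑ k, v k ^ 2 := by
    have h1 : v i0 ^ 2 ≤ ∑ k, v k ^ 2 :=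
      Finset.single_le_sum (f := fun k => v k ^ 2) (fun k _ => sq_nonneg (v k)) (Finset.mem_univ i0)
    nlinarith
  have hsum : ((l : ℤ) - 1) * v i0 + ((l : ℤ) - 2) * v i1 ≤
      ∑ k : Fin l, ((l : ℤ) - 1 - (k : ℕ)) * v k := by
    have h1 : ∑ k ∈ ({i0, i1} : Finset (Fin l)), ((l : ℤ) - 1 - (k : ℕ)) * v k ≤
        ∑ k : Fin l, ((l : ℤ) - 1 - (k : ℕ)) * v k :=
      Finset.sum_le_sum_of_subset_of_nonneg (Finset.subset_univ _) fun k _ _ => hterm k
    rw [Finset.sum_pair h01.ne] at h1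
    have e0 : ((i0 : ℕ) : ℤ) = 0 := rfl
    have e1 : ((i1 : ℕ) : ℤ) = 1 := rfl
    rw [e0, e1] at h1
    have e2 : ((l : ℤ) - 1 - 0) * v i0 + ((l : ℤ) - 1 - 1) * v i1 =
        ((l : ℤ) - 1) * v i0 + ((l : ℤ) - 2) * v i1 := by ring
    rw [e2] at h1
    exact h1
  have hv1 : 0 ≤ v i1 := hnn i1 (by rw [hi1]; show 1 + 1 < l; omega)
  refine ⟨?_, ?_⟩
  · obtain ⟨m, hm⟩ := dw_even v he
    omega
  · rcases eq_or_lt_of_le hpos with h1 | h1
    · have h2 : 1 ≤ v i1 := by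
        by_contra h3
        have h4 : v i1 = 0 := by omega
        have h5 : ∀ k : Fin l, k ≠ i0 → v k = 0 := by
          intro k hk
          by_cases h6 : k = i1
          · rw [h6, h4]
          · have h7 : |v k| ≤ v i1 := by
              refine hv i1 k ?_
              rw [Fin.lt_def, hi1]
              have h8 : (k : ℕ) ≠ 0 := fun h => hk (Fin.ext h)
              have h9 : (k : ℕ) ≠ 1 := fun h => h6 (Fin.ext h)
              show 1 < (k : ℕ)
              omega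
            rw [h4] at h7
            exact abs_eq_zero.1 (le_antisymm h7 (abs_nonneg _))
        rw [Finset.sum_eq_single i0 (fun k _ hk => h5 k hk)
          (fun h => absurd (Finset.mem_univ _) h), ← h1] at he
        exact absurd he (by decide)
      have h3 : ((l : ℤ) - 2) * 1 ≤ ((l : ℤ) - 2) * v i1 :=
        mul_le_mul_of_nonneg_left h2 (by omega)
      rw [← h1] at hsum
      linarith
    · have h2 : ((l : ℤ) - 1) * 2 ≤ ((l : ℤ) - 1) * v i0 :=
        mul_le_mul_of_nonneg_left (by omega) (by omega)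
      have h3 : 0 ≤ ((l : ℤ) - 2) * v i1 := mul_nonneg (by omega) hv1
      linarith

theorem DW (hR : ∀ l p : ℕ, 4 ≤ l → st_DR l p) : st_DW := by
  intro l hl p hp ν hν hD
  have R := hR l p hl
  have hdm := (R.dom ν).1 hD
  have hev := R.even ν
  have h0 : oD l ν ≠ 0 := by
    intro h
    apply hν
    refine R.inj ν 0 ?_
    rw [h]
    funext k
    unfold oD
    simp
  obtain ⟨hS, hH⟩ := dw_bound hl (oD l ν) hdm h0 hev
  obtain ⟨m, hm⟩ := dw_even (oD l ν) hev
  have hform : formZ (CartanMatrix.D l) p (-ν) (-ν) = p * ∑ k, oD l ν k ^ 2 := by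
    have h1 : formZ (CartanMatrix.D l) p (-ν) (-ν) = formZ (CartanMatrix.D l) p ν ν := by
      unfold formZ
      congr 1
      refine Finset.sum_congr rfl fun i _ => Finset.sum_congr rfl fun j _ => ?_
      rw [Pi.neg_apply, Pi.neg_apply]
      ring
    rw [h1, R.form]
    congr 1
    exact Finset.sum_congr rfl fun k _ => (sq _).symm
  have hwt : wtExp (CartanMatrix.D l) p (-ν) = p * m +
      ((p : ℤ) - 1) * ∑ k : Fin l, ((l : ℤ) - 1 - (k : ℕ)) * oD l ν k := by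
    unfold wtExp
    rw [hform, hm]
    have h1 : (p : ℤ) * (m + m) / 2 = p * m := by
      have h2 : (p : ℤ) * (m + m) = 2 * (p * m) := by ring
      rw [h2]
      exact Int.mul_ediv_cancel_left _ two_ne_zero
    have h2 : ∑ i, (-ν) i = -∑ k : Fin l, ((l : ℤ) - 1 - (k : ℕ)) * oD l ν k := by
      rw [← R.ht]
      exact Finset.sum_neg_distrib ..
    rw [h1, h2]
    ring
  refine ⟨?_, ?_⟩
  · rw [hwt]
    have hm1 : 1 ≤ m := by omega
    have hp' : (2 : ℤ) ≤ p := by exact_mod_cast hp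
    have h3 : 2 * 1 ≤ (p : ℤ) * m := mul_le_mul hp' hm1 (by norm_num) (by omega)
    have h4 : 1 * (2 * (l : ℤ) - 3) ≤
        ((p : ℤ) - 1) * ∑ k : Fin l, ((l : ℤ) - 1 - (k : ℕ)) * oD l ν k :=
      mul_le_mul (by omega) hH (by omega) (by omega)
    linarith
  · rw [hwt, hm]
    ring

end

end WPE
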