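import Pool.Agent.WPE.R_D52
import Pool.Agent.WPE.R_DA
import Pool.Agent.WPE.R_DA0
import Pool.Agent.WPE.R_DB1
import Pool.Agent.WPE.R_DB2
import Pool.Agent.WPE.R_DB3
import Pool.Agent.WPE.R_DB4
import Pool.Agent.WPE.R_DC1
import Pool.Agent.WPE.R_DC2
import Pool.Agent.WPE.R_DC3
import Pool.Agent.WPE.R_DCC
import Pool.Agent.WPE.R_DCY
import Pool.Agent.WPE.R_DE0
import Pool.Agent.WPE.R_DE1
import Pool.Agent.WPE.R_DE2
import Pool.Agent.WPE.R_DE3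
import Pool.Agent.WPE.R_DFF
import Pool.Agent.WPE.R_DJ1
import Pool.Agent.WPE.R_DJ2
import Pool.Agent.WPE.R_DJ3
import Pool.Agent.WPE.R_DK1
import Pool.Agent.WPE.R_DK2
import Pool.Agent.WPE.R_DK3
import Pool.Agent.WPE.R_DNT
import Pool.Agent.WPE.R_DR
import Pool.Agent.WPE.R_DT0
import Pool.Agent.WPE.R_DT1
import Pool.Agent.WPE.R_DT2
import Pool.Agent.WPE.R_DW
import Pool.Agent.WPQ.TL1
import Pool.Agent.WPQ.TL7
import Pool.Agent.WPQ.TL7a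
import Pool.Agent.WPQ.TL7b
import Pool.Agent.WPQ.TL8

/-! [WPE-DF] Type `D`: the vector part is complete; the inputs are KDS and the symbol part `st_D3`. -/

namespace WPE

open WPQ MvPolynomial AF

noncomputable section

theorem df_T0 : al_DT0 := fun _ _ _ _ hA _ hp ε => DT0 hA hp ε
theorem df_T1 : al_DT1 := fun _ _ _ _ hA _ hp ε => DT1 hA hp ε
theorem df_T2 : al_DT2 := fun _ _ _ _ hA _ hp ε τ hτ => DT2 hA hp ε τ hτ
theorem df_A0 : al_DA0 := fun _ _ _ _ hA _ hp ε U2 h => DA0 hA hp ε U2 h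
theorem df_R (l p : ℕ) (hl : 4 ≤ l) : st_DR l p := DR l p hl
theorem df_K2 : st_DK2 := DK2 DK1
theorem df_K3 : st_DK3 := DK3 DK1
theorem df_B1 : st_DB1 := DB1 df_T0 df_T1
theorem df_B3 : st_DB3 := DB3 df_T0 df_T1 df_B1 (DB2 df_T0 df_T1)

theorem df_tl7 : st_TL7 := tl7 tl1 tl7a tl7b

/-- Type `D`. -/
theorem df_main (hD3 : st_D3) (hK : ∀ l : ℕ, 4 ≤ l → ∀ p : ℕ, 2 ≤ p → KDSin l p) : st_DM :=
  dm_main df_R (DW df_R) (DCC df_R) DNT df_K2 df_K3 DFF df_T0 (DA df_T0 df_T1 df_A0) (DB4 df_B3)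
    (DC1 df_T0 df_T1 df_B1) (DC2 df_T0 df_T2) (DC3 df_T0 tl1) DJ1 DJ2 DJ3 DE0 (DE1 df_T0)
    (DE2 df_T0) (DE3 tl7b) (D52 df_K2 df_R) hD3 (dcy_cy df_T0) dcy_nd (dcy_low tl1) tl1 df_tl7 hK

theorem pgD' (hD3 : st_D3) (l p : ℕ) (hl : 4 ≤ l) (hp : 2 ≤ p)
    (hK : ∀ l : ℕ, 4 ≤ l → ∀ p : ℕ, 2 ≤ p → KDSin l p) :
    PrimaryGenerated (CartanMatrix.D l) p :=
  tl8 (Fin l) (CartanMatrix.D l) (df_R l p hl).ade p hp (df_main hD3 hK l hl p hp)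

end

end WPE
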