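import Pool.Agent.WPE.DEO
import Pool.Agent.WPQ.DN1
import Pool.Agent.WPQ.TLD

/-!
# [WPE-D] Type `D`, vector part: definitions and statements (paper: W_D_paper.md, D1, D2, 3.4, 3.5, D4 - D7)

`u = f ⊗ e^0`, `f` of weight `m`; `u(j) = u_{j+m-1}`. The statements are the propositions `st_D..`.
-/

namespace WPE

open WPQ MvPolynomial AF

noncomputable section

section defs

variable {ι : Type} [Fintype ι] [DecidableEq ι] {A : Matrix ι ι ℤ} {p : ℕ}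

/-- `u(j) z = 0` for all `j > N`. -/
def KSp (ε : Cocycle A p) (z : VL ι) (m N : ℤ) (f : Fock ι) : Prop :=
  ∀ k : ℤ, m + N ≤ k → mode ε (Finsupp.single 0 f) k z = 0

/-- `β(z, u(-j) b) = 0` for all `j ≥ 1`, `b ∈ W`. -/
def KNp (ε : Cocycle A p) (τ : Shift A p) (z : VL ι) (m : ℤ) (f : Fock ι) : Prop :=
  ∀ k : ℤ, k ≤ m - 2 → ∀ b ∈ W A p, beta ε τ z (mode ε (Finsupp.single 0 f) k b) = 0

/-- The data for `r = 2`. -/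
structure XD (ε : Cocycle A p) (τ : Shift A p) (h : ℕ) (c : Nat.Partition (2 * 2) → ℂ) (x : VL ι)
    (ν : ι → ℤ) : Prop where
  tau : τ.s = (2 : ℂ) • bg A p
  hh : 1 ≤ h
  prim : x ∈ pv4_Prim A p h
  ch : x ∈ Finsupp.supported (Fock ι) ℂ {ν}
  ne : ν ≠ 0
  gen : ∀ v ∈ Gen ε ((h : ℤ) + 4), beta ε τ (SV.SS (LS (Shift.zero A p)) c x) v = 0
  ff : ∀ m j : ℕ, 1 ≤ m → 1 ≤ j → m + j ≤ h + 4 → SV.ff c (h : ℂ) (m : ℂ) (j : ℂ) ≠ 0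
  dec : ∀ n : ℤ, n < (h : ℤ) + 4 → Wn A p n ≤ pv4_Prim A p n ⊔ IIn A p n

/-- Condition `K(z,N)`. -/
structure KZ (l : ℕ) (ε : Cocycle A p) (KE : ℕ → Submodule ℂ (Fock ι)) (Pf : Fock ι) (z : VL ι)
    (N : ℕ) : Prop where
  e : ∀ m : ℕ, 1 ≤ m → m ≤ 2 * l → ∀ f ∈ KE m, KSp ε z m 0 f
  o : KSp ε z l N Pf

/-- The chain `P(N_q) ⋯ P(N_1) z`, `P = u` of weight `l`. -/
def pw (ε : Cocycle A p) (u : VL ι) (l : ℕ) : List ℕ → VL ι → VL ι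
  | [], z => z
  | N :: L, z => pw ε u l L (mode ε u ((N : ℤ) + l - 1) z)

/-- The adjoint chain `P'(-N_1) ⋯ P'(-N_q) b`, `P' = u` of weight `l`. -/
def pa (ε : Cocycle A p) (u : VL ι) (l : ℕ) : List ℕ → VL ι → VL ι
  | [], b => b
  | N :: L, b => mode ε u ((l : ℤ) - 1 - N) (pa ε u l L b)

/-- The sum of the `l - 1 - N`. -/
def shf (l : ℕ) (L : List ℕ) : ℤ := (L.map fun N : ℕ => (l : ℤ) - 1 - N).sum

/-- `M_ν` is generated by `V^G` and `T` from `1_{-ν}` (block CY). -/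
def CYspan (ε : Cocycle A p) (ν : ι → ℤ) : Prop :=
  ∀ (n : ℤ) (f : VL ι), f ∈ MNU ε ν n → f ∈ Submodule.span ℂ {v | ∃ (m : ℕ) (g : Fock ι) (s : ℤ)
    (t : ℕ), g ∈ KH A p m ∧
      v = ((LS (Shift.zero A p) (-1)) ^ t) (mode ε (Finsupp.single 0 g) s (Finsupp.single (-ν) 1))}

end defs

/-- The coordinate `k` of the simple root `α_i` of `D_l`. -/
def cD (l : ℕ) (i k : Fin l) : ℤ :=
  if (i : ℕ) + 1 < l then (if k = i then 1 else if (k : ℕ) = i + 1 then -1 else 0)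
  else (if (k : ℕ) + 2 = l ∨ (k : ℕ) + 1 = l then 1 else 0)

/-- The orthonormal coordinates of `∑ x_i α_i`. -/
def oD (l : ℕ) (x : Fin l → ℤ) (k : Fin l) : ℤ := ∑ i, x i * cD l i k

/-- `w = (1 - c) / 6` for `D_l`. -/
def wD (l p : ℕ) : ℚ :=
  ((l : ℚ) - 1) * (2 * l * (2 * l - 1) * ((p : ℚ) - 1) ^ 2 - p) / (6 * p)

end

/-! ### statements: general `A` -/

section

/-- [DFF] The fusion polynomial for `r = 2`. -/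
def st_DFF : Prop :=
  ∀ t : ℂ, KV.Irr t → ∀ h : ℕ, 1 ≤ h → (h : ℂ) = KV.hrs t 2 2 → ∀ c : Nat.Partition (2 * 2) → ℂ,
    SV.IsS t 2 2 (2 * 2) c → ∀ m j : ℕ, 1 ≤ m → 1 ≤ j → m + j ≤ h + 4 →
      SV.ff c (h : ℂ) (m : ℂ) (j : ℂ) ≠ 0

/-- [DK1] The claim `K`, primary case. -/
def st_DK1 : Prop :=
  ∀ (ι : Type) [Fintype ι] [DecidableEq ι] (A : Matrix ι ι ℤ), IsADE A → ∀ p : ℕ, 2 ≤ p →
    ∀ (ε : Cocycle A p) (τ : Shift A p) (h : ℕ) (c : Nat.Partition (2 * 2) → ℂ) (x : VL ι)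
      (ν : ι → ℤ), XD ε τ h c x ν → ∀ (m : ℕ) (a : VL ι), 1 ≤ m → a ∈ pv4_Prim A p m →
      ∀ g : ι → ℤ, g ≠ 0 → ∀ j : ℤ, (m : ℤ) + j ≤ h + 4 → ∀ b ∈ Wn A p j,
        b ∈ Finsupp.supported (Fock ι) ℂ {g} → ∀ k : ℤ, beta ε τ x (mode ε a k b) = 0

/-- [DK2] The claim `K`: two charged factors. -/
def st_DK2 : Prop :=
  ∀ (ι : Type) [Fintype ι] [DecidableEq ι] (A : Matrix ι ι ℤ), IsADE A → ∀ p : ℕ, 2 ≤ p →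
    ∀ (ε : Cocycle A p) (τ : Shift A p) (h : ℕ) (c : Nat.Partition (2 * 2) → ℂ) (x : VL ι)
      (ν : ι → ℤ), XD ε τ h c x ν → ∀ (m j : ℤ) (a b : VL ι) (g g' : ι → ℤ), g ≠ 0 → g' ≠ 0 →
      a ∈ Wn A p m → a ∈ Finsupp.supported (Fock ι) ℂ {g} → b ∈ Wn A p j →
      b ∈ Finsupp.supported (Fock ι) ℂ {g'} → ∀ k : ℤ, k ≤ 3 → beta ε τ x (mode ε a k b) = 0

/-- [DK3] Primary fields of charge `0` on `x`. -/
def st_DK3 : Prop :=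
  ∀ (ι : Type) [Fintype ι] [DecidableEq ι] (A : Matrix ι ι ℤ), IsADE A → ∀ p : ℕ, 2 ≤ p →
    ∀ (ε : Cocycle A p) (τ : Shift A p) (h : ℕ) (c : Nat.Partition (2 * 2) → ℂ) (x : VL ι)
      (ν : ι → ℤ), XD ε τ h c x ν → ∀ m : ℕ, 1 ≤ m → ∀ u ∈ Prim0 A p m, ∀ k : ℤ,
        2 * (m : ℤ) - 5 ≤ k → mode ε u k x = 0

/-- [DT0] Products of homogeneous vectors of `V^G`. -/
structure st_DT0 {ι : Type} [Fintype ι] [DecidableEq ι] {A : Matrix ι ι ℤ} {p : ℕ}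
    (ε : Cocycle A p) : Prop where
  W : ∀ (m : ℕ) (f : Fock ι), f ∈ KH A p m → Finsupp.single 0 f ∈ Wn A p m
  Wk : ∀ (m : ℕ) (f : Fock ι), f ∈ KH A p m → Finsupp.single 0 f ∈ WPQ.Wk ε
  of : ∀ (m : ℕ) (v : VL ι), v ∈ WPQ.Wk ε → v ∈ Vn A p m → ∃ f ∈ KH A p m, v = Finsupp.single 0 f
  neg : ∀ (i j : ℕ) (n : ℤ) (a b : Fock ι), a ∈ KH A p i → b ∈ KH A p j → (i : ℤ) + j - n - 1 < 0 →
    md ε a n b = 0
  md : ∀ (i j c : ℕ) (n : ℤ) (a b : Fock ι), a ∈ KH A p i → b ∈ KH A p j →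
    (c : ℤ) = i + j - n - 1 → md ε a n b ∈ KH A p c
  T : ∀ (m : ℕ) (f : Fock ι), f ∈ KH A p m → dT ι f ∈ KH A p (m + 1)
  zero : ∀ f : Fock ι, f ∈ KH A p 0 → ∃ c : ℂ, f = c • (1 : Fock ι)
  transl : ∀ f : Fock ι, LS (Shift.zero A p) (-1) (Finsupp.single 0 f) = Finsupp.single 0 (dT ι f)
  E : ∀ (m : ℕ) (f : Fock ι), f ∈ KH A p m → ∀ (j : ι) (k : ℤ) (v : VL ι),
    Ej ε (Shift.zero A p) j (mode ε (Finsupp.single 0 f) k v) =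
      mode ε (Finsupp.single 0 f) k (Ej ε (Shift.zero A p) j v)

/-- [DT1] Tools for `KSp`. -/
structure st_DT1 {ι : Type} [Fintype ι] [DecidableEq ι] {A : Matrix ι ι ℤ} {p : ℕ}
    (ε : Cocycle A p) : Prop where
  zero : ∀ (z : VL ι) (m N : ℤ), KSp ε z m N 0
  add : ∀ (z : VL ι) (m N : ℤ) (f g : Fock ι), KSp ε z m N f → KSp ε z m N g → KSp ε z m N (f + g)
  smul : ∀ (z : VL ι) (m N : ℤ) (c : ℂ) (f : Fock ι), KSp ε z m N f → KSp ε z m N (c • f)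
  span : ∀ (z : VL ι) (m N : ℤ) (S : Set (Fock ι)), (∀ f ∈ S, KSp ε z m N f) →
    ∀ f ∈ Submodule.span ℂ S, KSp ε z m N f
  mono : ∀ (z : VL ι) (m N N' : ℤ) (f : Fock ι), N ≤ N' → KSp ε z m N f → KSp ε z m N' f
  one : ∀ (z : VL ι) (N : ℤ), 0 ≤ N → KSp ε z 0 N 1
  T : ∀ (z : VL ι) (m N : ℤ) (f : Fock ι), KSp ε z m N f → KSp ε z (m + 1) N (dT ι f)
  comp : ∀ (z : VL ι) (i j N : ℤ) (f g : Fock ι), 0 ≤ i → 0 ≤ N → KSp ε z i 0 f → KSp ε z j N g →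
    (∀ k : ℕ, KSp ε z (i + j - k - 1) N (md ε g k f)) → KSp ε z (i + j) N (md ε f (-1) g)

/-- [DT2] Tools for `KNp`. -/
structure st_DT2 {ι : Type} [Fintype ι] [DecidableEq ι] {A : Matrix ι ι ℤ} {p : ℕ}
    (ε : Cocycle A p) (τ : Shift A p) : Prop where
  zero : ∀ (z : VL ι) (m : ℤ), KNp ε τ z m 0
  add : ∀ (z : VL ι) (m : ℤ) (f g : Fock ι), KNp ε τ z m f → KNp ε τ z m g → KNp ε τ z m (f + g)
  smul : ∀ (z : VL ι) (m : ℤ) (c : ℂ) (f : Fock ι), KNp ε τ z m f → KNp ε τ z m (c • f)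
  span : ∀ (z : VL ι) (m : ℤ) (S : Set (Fock ι)), (∀ f ∈ S, KNp ε τ z m f) →
    ∀ f ∈ Submodule.span ℂ S, KNp ε τ z m f
  one : ∀ z : VL ι, KNp ε τ z 0 1
  T : ∀ (z : VL ι) (m : ℤ) (f : Fock ι), KNp ε τ z m f → KNp ε τ z (m + 1) (dT ι f)
  comp : ∀ (z : VL ι) (i j : ℤ) (f g : Fock ι), (Finsupp.single 0 f : VL ι) ∈ W A p →
    (Finsupp.single 0 g : VL ι) ∈ W A p → 1 ≤ i → KNp ε τ z i f → KNp ε τ z j g →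
    (∀ k : ℕ, KNp ε τ z (i + j - k - 1) (md ε g k f)) → KNp ε τ z (i + j) (md ε f (-1) g)

/-- [DA0] `L(1)` on products. -/
structure st_DA0 {ι : Type} [Fintype ι] [DecidableEq ι] {A : Matrix ι ι ℤ} {p : ℕ}
    (ε : Cocycle A p) (U2 : Fock ι) : Prop where
  prim : ∀ u : Fock ι, (Finsupp.single 0 u : VL ι) ∈ Prim0 A p 4 → ∀ v : Fock ι,
    md ε U2 2 (md ε u 0 v) = (6 : ℂ) • md ε u 1 v + md ε u 0 (md ε U2 2 v)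
  comp : ∀ (i : ℕ) (a b : Fock ι), a ∈ KH A p i → md ε U2 2 (md ε a (-1) b) =
    (2 * (i : ℂ) - 1) • md ε a 0 b + md ε (md ε U2 2 a) (-1) b + md ε a (-1) (md ε U2 2 b)
  T : ∀ (m : ℕ) (f : Fock ι), f ∈ KH A p m →
    md ε U2 2 (dT ι f) = dT ι (md ε U2 2 f) + (2 * (m : ℂ)) • f

/-- `st_DT0` for all `A`, `p`. -/
def al_DT0 : Prop :=
  ∀ (ι : Type) [Fintype ι] [DecidableEq ι] (A : Matrix ι ι ℤ), IsADE A → ∀ p : ℕ, 2 ≤ p →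
    ∀ ε : Cocycle A p, st_DT0 ε

/-- `st_DT1` for all `A`, `p`. -/
def al_DT1 : Prop :=
  ∀ (ι : Type) [Fintype ι] [DecidableEq ι] (A : Matrix ι ι ℤ), IsADE A → ∀ p : ℕ, 2 ≤ p →
    ∀ ε : Cocycle A p, st_DT1 ε

/-- `st_DT2` for all `A`, `p`. -/
def al_DT2 : Prop :=
  ∀ (ι : Type) [Fintype ι] [DecidableEq ι] (A : Matrix ι ι ℤ), IsADE A → ∀ p : ℕ, 2 ≤ p →
    ∀ (ε : Cocycle A p) (τ : Shift A p), τ.s = (2 : ℂ) • bg A p → st_DT2 ε τ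

/-- `st_DA0` for all `A`, `p`. -/
def al_DA0 : Prop :=
  ∀ (ι : Type) [Fintype ι] [DecidableEq ι] (A : Matrix ι ι ℤ), IsADE A → ∀ p : ℕ, 2 ≤ p →
    ∀ (ε : Cocycle A p) (U2 : Fock ι), Finsupp.single 0 U2 = omegaV A p → st_DA0 ε U2

/-- [DA] All even vectors of weight `≤ 2 l` kill `x` (claim A_1). -/
def st_DA : Prop :=
  ∀ (ι : Type) [Fintype ι] [DecidableEq ι] (A : Matrix ι ι ℤ), IsADE A → ∀ p : ℕ, 2 ≤ p →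
    ∀ (l : ℕ) (ε : Cocycle A p) (KE KO dec : ℕ → Submodule ℂ (Fock ι)) (U : ℕ → Fock ι)
      (Pf : Fock ι), EO l ε KE KO dec U Pf → ∀ x : VL ι,
      (∀ k : ℤ, 2 ≤ k → mode ε (omegaV A p) k x = 0) →
      (∀ k : ℤ, 3 ≤ k → mode ε (Finsupp.single 0 (U 4)) k x = 0) →
      ∀ m : ℕ, 1 ≤ m → m ≤ 2 * l → ∀ f ∈ KE m, KSp ε x m 0 f

/-- [DB1] Odd vectors. -/
def st_DB1 : Prop :=
  ∀ (ι : Type) [Fintype ι] [DecidableEq ι] (A : Matrix ι ι ℤ), IsADE A → ∀ p : ℕ, 2 ≤ p →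
    ∀ (l : ℕ) (ε : Cocycle A p) (KE KO dec : ℕ → Submodule ℂ (Fock ι)) (U : ℕ → Fock ι)
      (Pf : Fock ι), EO l ε KE KO dec U Pf → ∀ (z : VL ι) (N : ℕ), KZ l ε KE Pf z N →
      ∀ m : ℕ, 1 ≤ m → m < 3 * l → ∀ f ∈ KO m, KSp ε z m N f

/-- [DB2] `P(N) P(N) z = 0 = P(N-1) P(N) z`. -/
def st_DB2 : Prop :=
  ∀ (ι : Type) [Fintype ι] [DecidableEq ι] (A : Matrix ι ι ℤ), IsADE A → ∀ p : ℕ, 2 ≤ p →
    ∀ (l : ℕ) (ε : Cocycle A p) (KE KO dec : ℕ → Submodule ℂ (Fock ι)) (U : ℕ → Fock ι)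
      (Pf : Fock ι), 1 ≤ l → EO l ε KE KO dec U Pf → ∀ (z : VL ι) (N : ℕ), 1 ≤ N →
      KZ l ε KE Pf z N →
      mode ε (Finsupp.single 0 Pf) ((N : ℤ) + l - 1)
        (mode ε (Finsupp.single 0 Pf) ((N : ℤ) + l - 1) z) = 0 ∧
      mode ε (Finsupp.single 0 Pf) ((N : ℤ) + l - 2)
        (mode ε (Finsupp.single 0 Pf) ((N : ℤ) + l - 1) z) = 0

/-- [DB3] One step of the chain. -/
def st_DB3 : Prop :=
  ∀ (ι : Type) [Fintype ι] [DecidableEq ι] (A : Matrix ι ι ℤ), IsADE A → ∀ p : ℕ, 2 ≤ p →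
    ∀ (l : ℕ) (ε : Cocycle A p) (KE KO dec : ℕ → Submodule ℂ (Fock ι)) (U : ℕ → Fock ι)
      (Pf : Fock ι), 1 ≤ l → EO l ε KE KO dec U Pf → ∀ (z : VL ι) (N : ℕ), 1 ≤ N →
      KZ l ε KE Pf z N →
      KZ l ε KE Pf (mode ε (Finsupp.single 0 Pf) ((N : ℤ) + l - 1) z) (N - 2)

/-- [DB4] The chain. -/
def st_DB4 : Prop :=
  ∀ (ι : Type) [Fintype ι] [DecidableEq ι] (A : Matrix ι ι ℤ), IsADE A → ∀ p : ℕ, 2 ≤ p →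
    ∀ (l : ℕ) (ε : Cocycle A p) (KE KO dec : ℕ → Submodule ℂ (Fock ι)) (U : ℕ → Fock ι)
      (Pf : Fock ι), 1 ≤ l → EO l ε KE KO dec U Pf → ∀ (z : VL ι) (N : ℕ), z ≠ 0 →
      KZ l ε KE Pf z N →
      ∃ L : List ℕ, (L.IsChain fun a b => b + 2 ≤ a) ∧ (∀ M ∈ L, 1 ≤ M) ∧ (∀ M ∈ L, M ≤ N) ∧
        pw ε (Finsupp.single 0 Pf) l L z ≠ 0 ∧ KZ l ε KE Pf (pw ε (Finsupp.single 0 Pf) l L z) 0

/-- [DC1] All of `V^G` kills the end of the chain. -/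
def st_DC1 : Prop :=
  ∀ (ι : Type) [Fintype ι] [DecidableEq ι] (A : Matrix ι ι ℤ), IsADE A → ∀ p : ℕ, 2 ≤ p →
    ∀ (l : ℕ) (ε : Cocycle A p) (KE KO dec : ℕ → Submodule ℂ (Fock ι)) (U : ℕ → Fock ι)
      (Pf : Fock ι), 1 ≤ l → EO l ε KE KO dec U Pf → ∀ z : VL ι, KZ l ε KE Pf z 0 →
      ∀ m : ℕ, 1 ≤ m → ∀ f ∈ KH A p m, KSp ε z m 0 f

/-- [DC2] The negative modes of `V^G` are orthogonal to the end of the chain. -/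
def st_DC2 : Prop :=
  ∀ (ι : Type) [Fintype ι] [DecidableEq ι] (A : Matrix ι ι ℤ), IsADE A → ∀ p : ℕ, 2 ≤ p →
    ∀ (l : ℕ) (ε : Cocycle A p) (KE KO dec : ℕ → Submodule ℂ (Fock ι)) (U : ℕ → Fock ι)
      (Pf : Fock ι), 2 ≤ l → EO l ε KE KO dec U Pf →
      (∀ n : ℤ, n ≤ 2 * l - 2 → Wn A p n ≤ Wk ε) →
      (∀ n : ℤ, n ≤ 2 * l - 2 → Wn A p n ≤ pv4_Prim A p n ⊔ IIn A p n) →
      ∀ τ : Shift A p, τ.s = (2 : ℂ) • bg A p → ∀ z ∈ W A p,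
      (∀ m : ℕ, 1 ≤ m → ∀ f ∈ KH A p m, KSp ε z m 0 f) →
      ∀ m : ℕ, 1 ≤ m → ∀ f ∈ KH A p m, KNp ε τ z m f

/-- [DC3] The pairing with `1_{-ν}`. -/
def st_DC3 : Prop :=
  ∀ (ι : Type) [Fintype ι] [DecidableEq ι] (A : Matrix ι ι ℤ), IsADE A → ∀ p : ℕ, 2 ≤ p →
    ∀ (ε : Cocycle A p) (τ : Shift A p), τ.s = (2 : ℂ) • bg A p →
    ∀ (n : ℤ) (z : VL ι) (ν : ι → ℤ), CYspan ε ν → z ∈ Wn A p n → z ≠ 0 →
      z ∈ Finsupp.supported (Fock ι) ℂ {ν} → (∀ j, Ej ε (Shift.zero A p) j z = 0) →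
      (∀ k : ℤ, 2 ≤ k → mode ε (omegaV A p) k z = 0) →
      (∀ m : ℕ, 1 ≤ m → ∀ f ∈ KH A p m, KNp ε τ z m f) →
      Dom A ν ∧ n = wtExp A p (-ν) ∧ beta ε τ z (Finsupp.single (-ν) 1) ≠ 0

/-- [DJ1] The adjoint of the chain. -/
def st_DJ1 : Prop :=
  ∀ (ι : Type) [Fintype ι] [DecidableEq ι] (A : Matrix ι ι ℤ), IsADE A → ∀ p : ℕ, 2 ≤ p →
    ∀ (ε : Cocycle A p) (τ : Shift A p), τ.s = (2 : ℂ) • bg A p → ∀ (l : ℕ), ∀ u ∈ Prim0 A p l,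
      ∃ u' ∈ Prim0 A p l, ∀ (L : List ℕ) (x b : VL ι), x ∈ W A p → b ∈ W A p →
        ∃ s : ℂ, beta ε τ (pw ε u l L x) b = s * beta ε τ x (pa ε u' l L b)

/-- [DJ2] The adjoint chain on a product. -/
def st_DJ2 : Prop :=
  ∀ (ι : Type) [Fintype ι] [DecidableEq ι] (A : Matrix ι ι ℤ), IsADE A → ∀ p : ℕ, 2 ≤ p →
    ∀ (ε : Cocycle A p) (l : ℕ), ∀ u ∈ Prim0 A p l, ∀ L : List ℕ, (∀ N ∈ L, N + 1 ≤ l) →
    ∀ (m j s : ℤ) (a b : VL ι) (g g' : ι → ℤ), a ∈ Wn A p m →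
      a ∈ Finsupp.supported (Fock ι) ℂ {g} → b ∈ Wn A p j →
      b ∈ Finsupp.supported (Fock ι) ℂ {g'} →
      pa ε u l L (mode ε a s b) ∈ Submodule.span ℂ {v | ∃ (m' j' k : ℤ) (a' b' : VL ι),
        a' ∈ Wn A p m' ∧ a' ∈ Finsupp.supported (Fock ι) ℂ {g} ∧ b' ∈ Wn A p j' ∧
        b' ∈ Finsupp.supported (Fock ι) ℂ {g'} ∧ k ≤ s + shf l L ∧ v = mode ε a' k b'}

/-- [DJ3] The product of two vectors `1_{-a}`, `1_{-b}`. -/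
def st_DJ3 : Prop :=
  ∀ (ι : Type) [Fintype ι] [DecidableEq ι] (A : Matrix ι ι ℤ), IsADE A → ∀ p : ℕ, 2 ≤ p →
    ∀ (ε : Cocycle A p) (a b : ι → ℤ), ∃ s : ℂ, (Finsupp.single (-(a + b)) 1 : VL ι) =
      s • mode ε (Finsupp.single (-a) 1) (-1 - formZ A p a b) (Finsupp.single (-b) 1)

/-- [DE0] Raising `x` to a vector killed by all `E_j`. -/
def st_DE0 : Prop :=
  ∀ (ι : Type) [Fintype ι] [DecidableEq ι] (A : Matrix ι ι ℤ), IsADE A → ∀ p : ℕ, 2 ≤ p →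
    ∀ (ε : Cocycle A p) (τ : Shift A p) (h r : ℕ) (c : Nat.Partition (r * r) → ℂ) (x : VL ι)
      (ν : ι → ℤ) (S : Set (VL ι)), x ∈ pv4_Prim A p h → x ∈ Finsupp.supported (Fock ι) ℂ {ν} →
      x ≠ 0 → 1 ≤ ∑ i, ν i →
      (∀ v ∈ S, beta ε τ (SV.SS (LS (Shift.zero A p)) c x) v = 0) →
      (∀ j, Ej ε (Shift.zero A p) j (SV.SS (LS (Shift.zero A p)) c x) = 0) →
      ∃ (x' : VL ι) (ν' : ι → ℤ), x' ∈ pv4_Prim A p h ∧ x' ∈ Finsupp.supported (Fock ι) ℂ {ν'} ∧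
        x' ≠ 0 ∧ 1 ≤ ∑ i, ν' i ∧ (∀ j, Ej ε (Shift.zero A p) j x' = 0) ∧
        ∀ v ∈ S, beta ε τ (SV.SS (LS (Shift.zero A p)) c x') v = 0

/-- [DE1] Strong generation of `Wk` above the weight `2 l - 2`. -/
def st_DE1 : Prop :=
  ∀ (ι : Type) [Fintype ι] [DecidableEq ι] (A : Matrix ι ι ℤ), IsADE A → ∀ p : ℕ, 2 ≤ p →
    ∀ (l : ℕ) (ε : Cocycle A p) (KE KO dec : ℕ → Submodule ℂ (Fock ι)) (U : ℕ → Fock ι)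
      (Pf : Fock ι), 2 ≤ l → EO l ε KE KO dec U Pf → WkGen ε (2 * l - 2)

/-- [DE2] `r ≥ 3`. -/
def st_DE2 : Prop :=
  ∀ (ι : Type) [Fintype ι] [DecidableEq ι] (A : Matrix ι ι ℤ), IsADE A → ∀ p : ℕ, 2 ≤ p →
    ∀ (l : ℕ) (ε : Cocycle A p) (KE KO dec : ℕ → Submodule ℂ (Fock ι)) (U : ℕ → Fock ι)
      (Pf : Fock ι), 4 ≤ l → EO l ε KE KO dec U Pf →
      (∀ n : ℤ, n ≤ 2 * l - 2 → Wn A p n ≤ Wk ε) →
      (∀ n : ℤ, n ≤ 2 * l - 2 → Wn A p n ≤ pv4_Prim A p n ⊔ IIn A p n) →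
      (∀ v ∈ pv4_Prim A p 4, v ∈ IIn A p 4 → v = 0) →
      ∀ τ : Shift A p, τ.s = (2 : ℂ) • bg A p →
      ∀ (t : ℂ) (w : ℚ), KV.Irr t → (t - 1) ^ 2 / t = ((w : ℚ) : ℂ) →
      ¬ IsSquare ((16 + w) * (w + 4)) → ¬ IsSquare ((16 + w) * w) → ¬ IsSquare (w * (w + 4)) →
      ∀ (r h : ℕ) (c : Nat.Partition (r * r) → ℂ) (x : VL ι) (ν : ι → ℤ), 3 ≤ r → 1 ≤ h →
        (h : ℂ) = KV.hrs t r r → SV.IsS t r r (r * r) c → x ∈ pv4_Prim A p h →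
        x ∈ Finsupp.supported (Fock ι) ℂ {ν} → ν ≠ 0 →
        (∀ v ∈ Gen ε ((h : ℤ) + r * r), beta ε τ (SV.SS (LS (Shift.zero A p)) c x) v = 0) → x = 0

/-- [DE3] `Wn n = Prim + I` below `h + 4`. -/
def st_DE3 : Prop :=
  ∀ (ι : Type) [Fintype ι] [DecidableEq ι] (A : Matrix ι ι ℤ), IsADE A → ∀ p : ℕ, 2 ≤ p →
    ∀ w : ℚ, cc A p = ((1 - 6 * w : ℚ) : ℂ) → 0 < w → ¬ IsSquare (w * (w + 4)) →
    (∀ n : ℤ, (n : ℚ) < 3 * w / 4 + 4 → Wn A p n ≤ pv4_Prim A p n ⊔ IIn A p n) ∧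
    ∀ n : ℤ, (n : ℚ) < 3 * w / 4 + 4 → ∀ v ∈ pv4_Prim A p n, v ∈ IIn A p n → v = 0

end

/-! ### statements: `D_l` -/

section

/-- [DR] The root system `D_l`. -/
structure st_DR (l p : ℕ) : Prop where
  ade : IsADE (CartanMatrix.D l)
  form : ∀ x y : Fin l → ℤ, formZ (CartanMatrix.D l) p x y = p * ∑ k, oD l x k * oD l y k
  dom : ∀ x : Fin l → ℤ, Dom (CartanMatrix.D l) x ↔ DmD (oD l x)
  ht : ∀ x : Fin l → ℤ, ∑ i, x i = ∑ k : Fin l, ((l : ℤ) - 1 - (k : ℕ)) * oD l x k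
  even : ∀ x : Fin l → ℤ, Even (∑ k, oD l x k)
  surj : ∀ v : Fin l → ℤ, Even (∑ k, v k) → ∃ x : Fin l → ℤ, oD l x = v
  inj : ∀ x y : Fin l → ℤ, oD l x = oD l y → x = y
  add : ∀ x y : Fin l → ℤ, oD l (x + y) = oD l x + oD l y

/-- [DW] The weights `Δ_ν`. -/
def st_DW : Prop :=
  ∀ l : ℕ, 4 ≤ l → ∀ p : ℕ, 2 ≤ p → ∀ ν : Fin l → ℤ, ν ≠ 0 → Dom (CartanMatrix.D l) ν →
    (2 * (l : ℤ) - 2 < wtExp (CartanMatrix.D l) p (-ν)) ∧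
    2 * wtExp (CartanMatrix.D l) p (-ν) = p * ∑ k, oD l ν k ^ 2 +
      2 * (p - 1) * ∑ k : Fin l, ((l : ℤ) - 1 - (k : ℕ)) * oD l ν k

/-- [DCC] The central charge. -/
def st_DCC : Prop :=
  ∀ l : ℕ, 4 ≤ l → ∀ p : ℕ, 2 ≤ p →
    cc (CartanMatrix.D l) p = ((1 - 6 * wD l p : ℚ) : ℂ) ∧ 0 < wD l p ∧
    2 * (l : ℚ) - 2 < 3 * wD l p / 4 + 4

/-- [DNT] The squares. -/
def st_DNT (l : ℕ) : Prop :=
  ∀ p : ℕ, 2 ≤ p →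
    ¬ IsSquare ((16 + wD l p) * (wD l p + 4)) ∧ ¬ IsSquare ((16 + wD l p) * wD l p) ∧
    ¬ IsSquare (wD l p * (wD l p + 4))

/-- [D52] The exceptional case `l = 5`, `p = 2`. -/
def st_D52 : Prop :=
  ∀ (ε : Cocycle (CartanMatrix.D 5) 2) (τ : Shift (CartanMatrix.D 5) 2) (c : Nat.Partition (2 * 2) → ℂ)
    (x : VL (Fin 5)) (ν' : Fin 5 → ℤ), XD ε τ 22 c x ν' →
    (∀ j, Ej ε (Shift.zero (CartanMatrix.D 5) 2) j x = 0) →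
    ∀ ν : Fin 5 → ℤ, (oD 5 ν = ![2, 1, 1, 1, 1] ∨ oD 5 ν = ![2, 1, 1, 1, -1]) →
      beta ε τ x (Finsupp.single (-ν) 1) = 0

/-- [DM] Type `D`. -/
def st_DM : Prop :=
  ∀ l : ℕ, 4 ≤ l → ∀ p : ℕ, 2 ≤ p → ∀ (ε : Cocycle (CartanMatrix.D l) p) (n : ℤ), 1 ≤ n →
    Wn (CartanMatrix.D l) p n ≤
      pv4_Prim (CartanMatrix.D l) p n ⊔ IIn (CartanMatrix.D l) p n ⊔ Gen ε n

end

end WPE
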