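import Pool.Agent.WPE.DKD
import Pool.Agent.WPQ.DN2

/-! [WPE-DM] Type `D`: assembly of the vector part.  The inputs are hypotheses. -/

namespace WPE

open WPQ MvPolynomial AF

noncomputable section

variable {ι : Type} [Fintype ι] [DecidableEq ι] {A : Matrix ι ι ℤ} {p : ℕ}

/-- `e^{-λ}` is in `W(p)_Q`. -/
theorem dm_e_W (hA : IsADE A) (hp : 2 ≤ p) (ε : Cocycle A p) (lam : ι → ℤ) (hl : Dom A lam) :
    (Finsupp.single (-lam) 1 : VL ι) ∈ W A p := by
  have h1 := W_expS hA (by omega) ε lam hl (-1) vac (vac_mem_W hA (by omega))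
  unfold vac at h1
  rw [expS_single] at h1
  have e1 : formZ A p (-lam) 0 = 0 := by
    unfold formZ
    simp
  have e2 : (Shift.zero A p).dot (-lam) = 0 := fl1_dot_zero _
  rw [e1, e2, add_zero, vop_one] at h1
  have h2 := Submodule.smul_mem (W A p) (((ε.ε (-lam) 0 : ℤ) : ℂ)) h1
  rw [Finsupp.smul_single, smul_smul] at h2
  have e3 : (((ε.ε (-lam) 0 : ℤ) : ℂ) * ((ε.ε (-lam) 0 : ℤ) : ℂ)) = 1 := by
    rcases Int.units_eq_one_or (ε.ε (-lam) 0) with h | h <;> rw [h] <;> norm_num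
  rw [e3, one_smul] at h2
  have e4 : expCoeffZ (toC (-lam)) (-(-1 : ℤ) - 1 - 0 - 0) = 1 := by
    unfold expCoeffZ
    norm_num
    rw [expCoeff]
  rw [e4] at h2
  exact h2

theorem dm_e_Wn (hA : IsADE A) (hp : 2 ≤ p) (ε : Cocycle A p) (lam : ι → ℤ) (hl : Dom A lam) :
    (Finsupp.single (-lam) 1 : VL ι) ∈ Wn A p (wtExp A p (-lam)) := by
  refine ⟨dm_e_W hA hp ε lam hl, single_mem_Vn (-lam) 1 0 ?_ _ (by push_cast; ring)⟩
  exact isWeightedHomogeneous_one ℂ _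

theorem dm_pw (hA : IsADE A) (hp : 2 ≤ p) (ε : Cocycle A p) (l : ℕ) (u : VL ι)
    (hu : u ∈ Prim0 A p l) (ν : ι → ℤ)
    (hE : ∀ (j : ι) (k : ℤ) (v : VL ι), Ej ε (Shift.zero A p) j (mode ε u k v) =
      mode ε u k (Ej ε (Shift.zero A p) j v)) (L : List ℕ) (n : ℤ) (z : VL ι) (hz : z ∈ Wn A p n)
    (hzν : z ∈ Finsupp.supported (Fock ι) ℂ {ν}) (hEz : ∀ j, Ej ε (Shift.zero A p) j z = 0) :
    pw ε u l L z ∈ Wn A p (n - L.sum) ∧ pw ε u l L z ∈ Finsupp.supported (Fock ι) ℂ {ν} ∧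
      ∀ j, Ej ε (Shift.zero A p) j (pw ε u l L z) = 0 := by
  induction L generalizing n z with
  | nil =>
    refine ⟨?_, hzν, hEz⟩
    simpa [pw] using hz
  | cons N L ih =>
    have h1 := mode_Wn hA hp ε l n ((N : ℤ) + l - 1) u z hu.1.1 hz
    have e1 : (l : ℤ) + n - ((N : ℤ) + l - 1) - 1 = n - N := by ring
    rw [e1] at h1
    have h2 := mode_charge hA (by omega) ε 0 ν ((N : ℤ) + l - 1) u z hu.2 hzν
    rw [zero_add] at h2
    have h3 := ih (n - N) (mode ε u ((N : ℤ) + l - 1) z) h1 h2 fun j => by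
      rw [hE, hEz, map_zero]
    have e2 : n - ((N :: L).sum : ℕ) = n - (N : ℤ) - (L.sum : ℕ) := by
      rw [List.sum_cons]
      push_cast
      ring
    rw [e2]
    exact h3

/-- The input of block KDS. -/
def KDSin (l p : ℕ) : Prop :=
  ∃ (w : Fin l → Fock (Fin l)) (P : Fin l → MvPolynomial (Fin l) ℂ) (d : Fin l → ℕ) (c : ℂ),
    Gens (CartanMatrix.D l) p w P d ∧ Inv (CartanMatrix.D l) P d c

/-- Nondegeneracy of the pairing on `Wk` (CY8). -/
def WkND : Prop :=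
  ∀ (ι : Type) [Fintype ι] [DecidableEq ι] (A : Matrix ι ι ℤ), IsADE A → ∀ p : ℕ, 2 ≤ p →
    ∀ (ε : Cocycle A p) (τ : Shift A p), τ.s = (2 : ℂ) • bg A p → ∀ (n : ℤ) (y : VL ι),
      y ∈ Wk ε → y ∈ Vn A p n → (∀ v ∈ Wk ε, v ∈ Vn A p n → beta ε τ y v = 0) → y = 0

/-- The statement of `vgc_low`. -/
def VGClow : Prop :=
  ∀ (ι : Type) [Fintype ι] [DecidableEq ι] (A : Matrix ι ι ℤ), IsADE A → ∀ p : ℕ, 2 ≤ p →
    ∀ (ε : Cocycle A p) (n : ℤ),
      (∀ ν : ι → ℤ, ν ≠ 0 → Dom A ν → n < wtExp A p (-ν)) → Wn A p n ≤ Wk ε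

/-- Cyclicity. -/
def CYin : Prop :=
  ∀ (ι : Type) [Fintype ι] [DecidableEq ι] (A : Matrix ι ι ℤ), IsADE A → ∀ p : ℕ, 2 ≤ p →
    ∀ (ε : Cocycle A p) (ν : ι → ℤ), Dom A ν → CYspan ε ν

/-- The case `r = 2`. -/
theorem dm_two (hR : ∀ l p : ℕ, 4 ≤ l → st_DR l p) (hW : st_DW) (hCC : st_DCC)
    (hNT : ∀ l, 4 ≤ l → st_DNT l) (hK2 : st_DK2) (hK3 : st_DK3) (hFF : st_DFF)
    (h0 : al_DT0) (hDA : st_DA) (hB4 : st_DB4) (hC1 : st_DC1) (hC2 : st_DC2) (hC3 : st_DC3)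
    (hS1 : st_DJ1) (hS2 : st_DJ2) (hS3 : st_DJ3) (hE0 : st_DE0) (hE3 : st_DE3) (h52 : st_D52)
    (hCY : CYin) (hTL1 : st_TL1)
    (l : ℕ) (hl : 4 ≤ l) (p : ℕ) (hp : 2 ≤ p) (ε : Cocycle (CartanMatrix.D l) p)
    (τ : Shift (CartanMatrix.D l) p) (hτ : τ.s = (2 : ℂ) • bg (CartanMatrix.D l) p)
    (KE KO dec : ℕ → Submodule ℂ (Fock (Fin l))) (U : ℕ → Fock (Fin l)) (Pf : Fock (Fin l))
    (E : EO l ε KE KO dec U Pf)
    (hlow : ∀ n : ℤ, n ≤ 2 * l - 2 → Wn (CartanMatrix.D l) p n ≤ Wk ε)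
    (t : ℂ) (irr : KV.Irr t) (h : ℕ) (hh : 1 ≤ h) (hhr : (h : ℂ) = KV.hrs t 2 2)
    (hhw : (h : ℚ) = 3 * wD l p / 4) (c : Nat.Partition (2 * 2) → ℂ) (hc : SV.IsS t 2 2 (2 * 2) c)
    (x : VL (Fin l)) (ν : Fin l → ℤ) (hx : x ∈ pv4_Prim (CartanMatrix.D l) p h)
    (hxν : x ∈ Finsupp.supported (Fock (Fin l)) ℂ {ν}) (hx0 : x ≠ 0) (hν : ν ≠ 0)
    (hdom : Dom (CartanMatrix.D l) ν)
    (hg : ∀ v ∈ Gen ε ((h : ℤ) + 4),
      beta ε τ (SV.SS (LS (Shift.zero (CartanMatrix.D l) p)) c x) v = 0)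
    (hE : ∀ j, Ej ε (Shift.zero (CartanMatrix.D l) p) j
      (SV.SS (LS (Shift.zero (CartanMatrix.D l) p)) c x) = 0) : False := by
  have RR := hR l p hl
  have hA := RR.ade
  have hp1 : 1 ≤ p := by omega
  obtain ⟨hcc, hw0, hwl⟩ := hCC l hl p hp
  have R3 := (hNT l hl p hp).2.2
  -- the height of `ν`
  have hht : 1 ≤ ∑ i, ν i := by
    have h1 : ∀ i, 0 ≤ ν i := dom_nonneg hA ν hdom
    have h2 : ∃ i, ν i ≠ 0 := by
      by_contra hcon
      push Not at hcon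
      exact hν (funext hcon)
    obtain ⟨i, hi⟩ := h2
    have h3 := Finset.single_le_sum (fun j _ => h1 j) (Finset.mem_univ i)
    have h4 := h1 i
    omega
  obtain ⟨x', ν', hx', hxν', hx0', hht', hEx', hg'⟩ := hE0 (Fin l) (CartanMatrix.D l) hA p hp ε τ h
    2 c x ν (Gen ε ((h : ℤ) + 4) : Set (VL (Fin l))) hx hxν hx0 hht hg hE
  have hν' : ν' ≠ 0 := by
    rintro rfl
    simp at hht'
  have hdec : ∀ n : ℤ, n < (h : ℤ) + 4 → Wn (CartanMatrix.D l) p n ≤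
      pv4_Prim (CartanMatrix.D l) p n ⊔ IIn (CartanMatrix.D l) p n := by
    intro n hn
    refine (hE3 (Fin l) (CartanMatrix.D l) hA p hp (wD l p) hcc hw0 R3).1 n ?_
    rw [← hhw]
    exact_mod_cast hn
  have X : XD ε τ h c x' ν' := ⟨hτ, hh, hx', hxν', hν', hg',
    fun m j hm hj hmj => hFF t irr h hh hhr c hc m j hm hj hmj, hdec⟩
  -- the even vectors
  have hom : ∀ k : ℤ, 2 ≤ k → mode ε (omegaV (CartanMatrix.D l) p) k x' = 0 := by
    intro k hk
    rw [omegaV_eq, mode_omega hA hp1]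
    exact en3_pos hA hp1 h x' hx' (k - 1) (by omega)
  have hU4 : ∀ k : ℤ, 3 ≤ k → mode ε (Finsupp.single 0 (U 4)) k x' = 0 := by
    intro k hk
    exact hK3 (Fin l) _ hA p hp ε τ h c x' ν' X 4 (by norm_num) _ E.u4p k (by push_cast; omega)
  have hKe := hDA (Fin l) _ hA p hp l ε KE KO dec U Pf E x' hom hU4
  have hKZ : KZ l ε KE Pf x' (l - 5) := by
    refine ⟨hKe, fun k hk => ?_⟩
    refine hK3 (Fin l) _ hA p hp ε τ h c x' ν' X l (by omega) _ E.pfp k ?_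
    by_cases h5 : 5 ≤ l
    · rw [Nat.cast_sub h5] at hk
      push_cast at hk
      omega
    · have h6 : l - 5 = 0 := by omega
      rw [h6] at hk
      push_cast at hk
      omega
  obtain ⟨L, hL1, hL2, hL3, hz0, hKz⟩ := hB4 (Fin l) _ hA p hp l ε KE KO dec U Pf (by omega) E x'
    (l - 5) hx0' hKZ
  have hPf : (Finsupp.single 0 Pf : VL (Fin l)) ∈ Prim0 (CartanMatrix.D l) p l := E.pfp
  obtain ⟨hzW, hzν, hEz⟩ := dm_pw hA hp ε l (Finsupp.single 0 Pf) hPf ν'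
    (fun j k v => (h0 (Fin l) _ hA p hp ε).E l Pf (E.le_o l E.pf) j k v) L h x' hx'.1 hxν' hEx'
  set z := pw ε (Finsupp.single 0 Pf) l L x' with hz
  have hpos := hC1 (Fin l) _ hA p hp l ε KE KO dec U Pf (by omega) E z hKz
  have hwl' : ∀ n : ℤ, n ≤ 2 * l - 2 → (n : ℚ) < 3 * wD l p / 4 + 4 := by
    intro n hn
    have h1 : (n : ℚ) ≤ 2 * l - 2 := by exact_mod_cast hn
    linarith
  have hneg := hC2 (Fin l) _ hA p hp l ε KE KO dec U Pf (by omega) E hlow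
    (fun n hn => (hE3 (Fin l) (CartanMatrix.D l) hA p hp (wD l p) hcc hw0 R3).1 n (hwl' n hn))
    τ hτ z hzW.1 hpos
  have hU2 : U 2 ∈ KH (CartanMatrix.D l) p 2 := E.le_e 2 E.u2
  have homz : ∀ k : ℤ, 2 ≤ k → mode ε (omegaV (CartanMatrix.D l) p) k z = 0 := by
    intro k hk
    rw [← E.om]
    exact hpos 2 (by norm_num) (U 2) hU2 k (by push_cast; omega)
  have hdom' : Dom (CartanMatrix.D l) ν' :=
    (hTL1 (Fin l) _ hA p hp ε τ hτ _ z ν' hzW hz0 hzν hEz).1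
  obtain ⟨-, hn, hbne⟩ := hC3 (Fin l) _ hA p hp ε τ hτ _ z ν' (hCY (Fin l) _ hA p hp ε ν' hdom')
    hzW hz0 hzν hEz homz hneg
  -- the numbers
  have hWt := (hW l hl p hp ν' hν' hdom').2
  have hchain := dn2_chain (l - 5) L hL1 hL2 hL3
  have hq2 : (L.sum : ℤ) ≤ L.length * ((l : ℤ) - 4 - L.length) := by
    by_cases h5 : 5 ≤ l
    · have := hchain.2
      rw [Nat.cast_sub h5] at this
      push_cast at this ⊢
      linarith
    · have h6 : l - 5 = 0 := by omega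
      have h7 : L = [] := by
        rcases L with _ | ⟨a, L'⟩
        · rfl
        · have h8 := hL2 a (by simp)
          have h9 := hL3 a (by simp)
          omega
      rw [h7]
      simp
  have hhh : 8 * (p : ℤ) * h = 2 * l * (l - 1) * (2 * l - 1) * (p - 1) ^ 2 - (l - 1) * p := by
    have h1 : 8 * (p : ℚ) * h = 2 * l * (l - 1) * (2 * l - 1) * (p - 1) ^ 2 - (l - 1) * p := by
      rw [hhw]
      unfold wD
      have hpq : (p : ℚ) ≠ 0 := by
        have : (0 : ℚ) < p := by exact_mod_cast hp1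
        exact this.ne'
      field_simp
      ring
    exact_mod_cast h1
  have hEn : (p : ℤ) * ∑ i, oD l ν' i ^ 2 + 2 * ((p : ℤ) - 1) *
      ∑ i : Fin l, ((l : ℤ) - 1 - (i : ℕ)) * oD l ν' i = 2 * ((h : ℤ) - (L.sum : ℕ)) := by
    rw [← hWt, hn]
  have hend := dn2_endgame hl p h L.length (L.sum : ℕ) (by exact_mod_cast hp) hhh (oD l ν')
    ((RR.dom ν').1 hdom') (RR.even ν') (by positivity) hchain.1 hq2 hEn
  rcases hend with ⟨a, b, hda, hdb, hea, heb, hab, hpos', hineq⟩ |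
    ⟨h5, hp2, hh22, hq0, hδ0, hv0, hv1, hv4⟩
  · -- splitting
    obtain ⟨α, rfl⟩ := RR.surj a hea
    obtain ⟨β, rfl⟩ := RR.surj b heb
    have hαβ : ν' = α + β := RR.inj _ _ (by rw [hab, RR.add])
    have hα : α ≠ 0 := by
      rintro rfl
      have e : oD l (0 : Fin l → ℤ) = 0 := by
        funext k
        unfold oD
        simp
      rw [e] at hpos'
      simp at hpos'
    have hβ : β ≠ 0 := by
      rintro rfl
      have e : oD l (0 : Fin l → ℤ) = 0 := by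
        funext k
        unfold oD
        simp
      rw [e] at hpos'
      simp at hpos'
    have hdα := (RR.dom α).2 hda
    have hdβ := (RR.dom β).2 hdb
    obtain ⟨u', hu', hadj⟩ := hS1 (Fin l) _ hA p hp ε τ hτ l _ hPf
    obtain ⟨s, hs⟩ := hadj L x' (Finsupp.single (-ν') 1) hx'.1.1 (dm_e_W hA hp ε ν' hdom')
    apply hbne
    rw [hz, hs]
    obtain ⟨s', hs'⟩ := hS3 (Fin l) _ hA p hp ε α β
    rw [hαβ, hs']
    have hmem := hS2 (Fin l) _ hA p hp ε l u' hu' L (fun N hN => by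
      have h1 := hL3 N hN
      have h2 := hL2 N hN
      omega) (wtExp (CartanMatrix.D l) p (-α)) (wtExp (CartanMatrix.D l) p (-β))
      (-1 - formZ (CartanMatrix.D l) p α β) (Finsupp.single (-α) 1) (Finsupp.single (-β) 1)
      (-α) (-β) (dm_e_Wn hA hp ε α hdα) (Finsupp.single_mem_supported ℂ _ rfl)
      (dm_e_Wn hA hp ε β hdβ) (Finsupp.single_mem_supported ℂ _ rfl)
    have hlin : ∀ v : VL (Fin l), pa ε u' l L (s' • v) = s' • pa ε u' l L v := by
      intro v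
      clear_value z
      clear hmem hs hadj hbne hEn hineq hq2 hchain hn hzW hzν hEz hKz hz0 hL1 hL2 hL3 hz
      induction L with
      | nil => rfl
      | cons N L ih =>
        show mode ε u' _ (pa ε u' l L (s' • v)) = s' • mode ε u' _ (pa ε u' l L v)
        rw [ih, map_smul]
    rw [hlin, beta_smul_right]
    have hshf : shf l L = L.length * ((l : ℤ) - 1) - (L.sum : ℕ) := by
      clear_value z
      clear hmem hs hadj hbne hEn hineq hq2 hchain hn hzW hzν hEz hKz hz0 hL1 hL2 hL3 hlin hz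
      unfold shf
      induction L with
      | nil => simp
      | cons N L ih =>
        rw [List.map_cons, List.sum_cons, ih, List.length_cons, List.sum_cons]
        push_cast
        ring
    have hidx : -1 - formZ (CartanMatrix.D l) p α β + shf l L ≤ 3 := by
      rw [RR.form, hshf]
      linarith
    have hzero : ∀ v ∈ Submodule.span ℂ {v | ∃ (m' j' k : ℤ) (a' b' : VL (Fin l)),
        a' ∈ Wn (CartanMatrix.D l) p m' ∧ a' ∈ Finsupp.supported (Fock (Fin l)) ℂ {-α} ∧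
        b' ∈ Wn (CartanMatrix.D l) p j' ∧ b' ∈ Finsupp.supported (Fock (Fin l)) ℂ {-β} ∧
        k ≤ -1 - formZ (CartanMatrix.D l) p α β + shf l L ∧ v = mode ε a' k b'},
        beta ε τ x' v = 0 := by
      intro v hv
      induction hv using Submodule.span_induction with
      | mem v hv =>
        obtain ⟨m', j', k, a', b', h1, h2, h3, h4, h5, rfl⟩ := hv
        exact hK2 (Fin l) _ hA p hp ε τ h c x' ν' X m' j' a' b' (-α) (-β) (neg_ne_zero.2 hα)
          (neg_ne_zero.2 hβ) h1 h2 h3 h4 k (by omega)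
      | zero => exact ad1_zero_right ε τ x'
      | add v w _ _ h1 h2 => rw [beta_add_right, h1, h2, add_zero]
      | smul c v _ h1 => rw [beta_smul_right, h1, mul_zero]
    rw [hzero _ hmem, mul_zero, mul_zero]
  · -- the exceptional case
    subst h5
    have hp2' : p = 2 := by exact_mod_cast hp2
    subst hp2'
    have hh' : h = 22 := by exact_mod_cast hh22
    subst hh'
    have hL0 : L = [] := by
      have : L.length = 0 := by exact_mod_cast hq0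
      exact List.eq_nil_of_length_eq_zero this
    have hzx : z = x' := by
      rw [hz, hL0]
      rfl
    apply hbne
    rw [hzx]
    refine h52 ε τ c x' ν' X hEx' ν' ?_
    have e0 := hv0 0 rfl
    have e1 := hv1 1 (by decide) (by decide)
    have e2 := hv1 2 (by decide) (by decide)
    have e3 := hv1 3 (by decide) (by decide)
    have e4 := hv4 4 rfl
    rcases abs_eq (by norm_num : (0 : ℤ) ≤ 1) |>.1 e4 with h4 | h4
    · left
      funext i
      fin_cases i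
      · exact e0
      · exact e1
      · exact e2
      · exact e3
      · exact h4
    · right
      funext i
      fin_cases i
      · exact e0
      · exact e1
      · exact e2
      · exact e3
      · exact h4

/-- Type `D`. -/
theorem dm_main (hR : ∀ l p : ℕ, 4 ≤ l → st_DR l p) (hW : st_DW) (hCC : st_DCC)
    (hNT : ∀ l, 4 ≤ l → st_DNT l) (hK2 : st_DK2) (hK3 : st_DK3) (hFF : st_DFF)
    (h0 : al_DT0) (hDA : st_DA) (hB4 : st_DB4) (hC1 : st_DC1) (hC2 : st_DC2) (hC3 : st_DC3)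
    (hS1 : st_DJ1) (hS2 : st_DJ2) (hS3 : st_DJ3) (hE0 : st_DE0) (hE1 : st_DE1) (hE2 : st_DE2)
    (hE3 : st_DE3) (h52 : st_D52) (hD3 : st_D3)
    (hCY : CYin) (hND : WkND) (hVG : VGClow) (hTL1 : st_TL1) (hTL7 : st_TL7)
    (hK : ∀ l : ℕ, 4 ≤ l → ∀ p : ℕ, 2 ≤ p → KDSin l p) : st_DM := by
  intro l hl p hp ε n hn1
  by_contra hcon
  have RR := hR l p hl
  have hA := RR.ade
  have hp1 : 1 ≤ p := by omega
  obtain ⟨hcc, hw0, hwl⟩ := hCC l hl p hp
  obtain ⟨R1, R2, R3⟩ := hNT l hl p hp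
  obtain ⟨τ, hτ⟩ := exists_tau (p := p) hA hp1
  obtain ⟨KE, KO, dec, U, Pf, E⟩ := hD3 l hl p hp ε (hK l hl p hp)
  have hlow : ∀ n : ℤ, n ≤ 2 * l - 2 → Wn (CartanMatrix.D l) p n ≤ Wk ε := by
    intro n hn
    exact hVG (Fin l) _ hA p hp ε n fun ν hν hd => lt_of_le_of_lt hn (hW l hl p hp ν hν hd).1
  obtain ⟨t, irr, -, hwt, main⟩ := hTL7 (Fin l) _ hA p hp (wD l p) hcc hw0 R3 ε τ hτ
    (2 * l - 2) (by push_cast; linarith)
    (hE1 (Fin l) _ hA p hp l ε KE KO dec U Pf (by omega) E)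
    (hND (Fin l) _ hA p hp ε τ hτ)
  obtain ⟨r, h, c, x, y, ν, hr, hh, hhr, hhw, hnr, hc, hx, hy, hx0, -, hP, hν, hdom, -, hxν, -,
    hE⟩ := main n hcon
  subst hy
  have hg : ∀ v ∈ Gen ε ((h : ℤ) + r * r),
      beta ε τ (SV.SS (LS (Shift.zero (CartanMatrix.D l) p)) c x) v = 0 := by
    rw [← hnr]
    exact hP.gen
  by_cases h3 : 3 ≤ r
  · have hd := hE3 (Fin l) (CartanMatrix.D l) hA p hp (wD l p) hcc hw0 R3
    have hwl' : ∀ n : ℤ, n ≤ 2 * l - 2 → (n : ℚ) < 3 * wD l p / 4 + 4 := by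
      intro n hn
      have h1 : (n : ℚ) ≤ 2 * l - 2 := by exact_mod_cast hn
      linarith
    exact hx0 (hE2 (Fin l) _ hA p hp l ε KE KO dec U Pf hl E hlow
      (fun n hn => hd.1 n (hwl' n hn)) (hd.2 4 (hwl' 4 (by omega))) τ hτ t (wD l p) irr hwt
      R1 R2 R3 r h c x ν h3 hh hhr hc hx hxν hν hg)
  · have hr2 : r = 2 := by omega
    subst hr2
    refine dm_two hR hW hCC hNT hK2 hK3 hFF h0 hDA hB4 hC1 hC2 hC3 hS1 hS2 hS3 hE0 hE3 h52 hCY
      hTL1 l hl p hp ε τ hτ KE KO dec U Pf E hlow t irr h hh hhr ?_ c hc x ν hx hxν hx0 hν hdom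
      ?_ hE
    · rw [hhw]
      push_cast
      ring
    · have e : (h : ℤ) + ((2 : ℕ) : ℤ) * ((2 : ℕ) : ℤ) = (h : ℤ) + 4 := by norm_num
      rw [← e]
      exact hg

end

end WPE
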