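import Pool.Agent.WPE.DEO
import Pool.Agent.WPQ.ND1

/-!
# [WPE-DS] Type `D`, symbol part (D3): definitions and statements

General part: a permutation `σ` of the simple roots with `A (σ i) (σ j) = A i j` gives the automorphism
`thF σ` of `M(1)`; `syF` is the symbol `X (i,0) ↦ X i`, `X (i,k) ↦ 0` (`k ≥ 1`); `gr A p f g` is the
pairing of the gradients.

Type `D_l`: `eD l k` are the orthonormal coordinates as linear forms in the simple roots
(`α_i = e_i - e_{i+1}`, `α_{l-1} = e_{l-2} + e_{l-1}`, indices from `0`), `pwS l n = ∑ e_k^n`,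
`pfS l = ∏ e_k`, `PD l` the basic invariants `p_2, …, p_{2l-2}, e_0 ⋯ e_{l-1}`, `sgD l` the diagram
automorphism. `Ie m` are the even invariants of degree `m`, `Dp m` the decomposable ones.
-/

namespace WPE

open WPQ MvPolynomial

noncomputable section

section general

variable {ι : Type} [Fintype ι] [DecidableEq ι]

/-- The automorphism of `M(1)` given by a permutation of the simple roots. -/
def thF (σ : Equiv.Perm ι) : Fock ι →ₐ[ℂ] Fock ι := rename fun x : ι × ℕ => (σ x.1, x.2)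

/-- The symbol. -/
def syF (ι : Type) : Fock ι →ₐ[ℂ] MvPolynomial ι ℂ :=
  aeval fun x : ι × ℕ => if x.2 = 0 then X x.1 else 0

/-- The pairing of the gradients. -/
def gr (A : Matrix ι ι ℤ) (p : ℕ) (f g : MvPolynomial ι ℂ) : MvPolynomial ι ℂ :=
  ∑ i, ∑ j, C (form A p (bb i) (bb j)) * pderiv i f * pderiv j g

/-- The even vectors of weight `m` of `V^G`. -/
def Kev (A : Matrix ι ι ℤ) (p : ℕ) (σ : Equiv.Perm ι) (m : ℕ) : Submodule ℂ (Fock ι) :=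
  KH A p m ⊓ LinearMap.ker ((thF σ).toLinearMap - LinearMap.id)

/-- The odd vectors of weight `m` of `V^G`. -/
def Kod (A : Matrix ι ι ℤ) (p : ℕ) (σ : Equiv.Perm ι) (m : ℕ) : Submodule ℂ (Fock ι) :=
  KH A p m ⊓ LinearMap.ker ((thF σ).toLinearMap + LinearMap.id)

/-- The even invariants of degree `m`. -/
def Ie (A : Matrix ι ι ℤ) (σ : Equiv.Perm ι) (m : ℕ) : Submodule ℂ (MvPolynomial ι ℂ) :=
  homogeneousSubmodule ι ℂ m ⊓ (⨅ j, LinearMap.ker ((rfS A j).toLinearMap - LinearMap.id)) ⊓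
    LinearMap.ker ((rename (R := ℂ) σ).toLinearMap - LinearMap.id)

/-- The decomposable even invariants of degree `m`. -/
def Dp (A : Matrix ι ι ℤ) (σ : Equiv.Perm ι) (m : ℕ) : Submodule ℂ (MvPolynomial ι ℂ) :=
  Submodule.span ℂ {f | ∃ (a b : ℕ) (g h : MvPolynomial ι ℂ), 1 ≤ a ∧ 1 ≤ b ∧ a + b = m ∧
    g ∈ Ie A σ a ∧ h ∈ Ie A σ b ∧ f = g * h}

/-- The even vectors of weight `m` of `V^G` with decomposable symbol. -/
def decD (A : Matrix ι ι ℤ) (p : ℕ) (σ : Equiv.Perm ι) (m : ℕ) : Submodule ℂ (Fock ι) :=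
  Kev A p σ m ⊓ (Dp A σ m).comap (syF ι).toLinearMap

end general

section typeD

/-- Orthonormal coordinates of the simple roots. -/
def nD (l : ℕ) (i k : Fin l) : ℂ :=
  if (i : ℕ) + 1 = l then (if (k : ℕ) + 2 = l ∨ (k : ℕ) + 1 = l then 1 else 0)
  else (if k = i then 1 else if (k : ℕ) = i + 1 then -1 else 0)

/-- The coefficients of the orthonormal coordinates in terms of the simple roots. -/
def mD (l : ℕ) (k i : Fin l) : ℂ :=
  if (k : ℕ) + 1 = l then (if (i : ℕ) + 1 = l then 1 / 2 else if (i : ℕ) + 2 = l then -1 / 2 else 0)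
  else (if (i : ℕ) + 1 = l ∨ (i : ℕ) + 2 = l then 1 / 2 else if (k : ℕ) ≤ i then 1 else 0)

/-- The orthonormal coordinates as linear forms in the simple roots. -/
def eD (l : ℕ) (k : Fin l) : MvPolynomial (Fin l) ℂ := ∑ i, C (mD l k i) * X i

/-- The power sums. -/
def pwS (l n : ℕ) : MvPolynomial (Fin l) ℂ := ∑ k, eD l k ^ n

/-- The Pfaffian. -/
def pfS (l : ℕ) : MvPolynomial (Fin l) ℂ := ∏ k, eD l k

/-- The basic invariants of `D_l`. -/
def PD (l : ℕ) (i : Fin l) : MvPolynomial (Fin l) ℂ :=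
  if (i : ℕ) + 1 = l then pfS l else pwS l (2 * ((i : ℕ) + 1))

/-- Their degrees. -/
def dD (l : ℕ) (i : Fin l) : ℕ := if (i : ℕ) + 1 = l then l else 2 * ((i : ℕ) + 1)

/-- The diagram automorphism of `D_l`. -/
def sgD (l : ℕ) : Equiv.Perm (Fin l) :=
  if h : 2 ≤ l then Equiv.swap ⟨l - 2, by omega⟩ ⟨l - 1, by omega⟩ else 1

/-- The number of letters `(l - 1, k)` of a word. -/
def noe (l : ℕ) (L : List (Fin l × ℕ)) : ℕ := (L.filter fun x => (x.1 : ℕ) + 1 = l).length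

end typeD

end

/-! ### statements, general part -/

section

variable {ι : Type} [Fintype ι] [DecidableEq ι] {A : Matrix ι ι ℤ} {p : ℕ}

/-- [DS1] The automorphism `thF σ`. -/
structure st_DS1 (A : Matrix ι ι ℤ) (p : ℕ) (σ : Equiv.Perm ι) : Prop where
  kk : ∀ f ∈ KK A p, thF σ f ∈ KK A p
  fh : ∀ (f : Fock ι) (n : ℕ), FH f n → FH (thF σ f) n
  hc : ∀ (n : ℕ) (f : Fock ι), homogeneousComponent n (thF σ f) = thF σ (homogeneousComponent n f)
  dt : ∀ f : Fock ι, dT ι (thF σ f) = thF σ (dT ι f)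
  jt : ∀ (k : ℕ) (P : MvPolynomial ι ℂ), thF σ (jet k P) = jet k (rename σ P)
  sy : ∀ f : Fock ι, syF ι (thF σ f) = rename σ (syF ι f)
  dl : ∀ (n : ℕ) (f : Fock ι), DLt n f → DLt n (thF σ f)

/-- [DS2] `thF σ` is an automorphism of the modes. -/
def st_DS2 (ε : Cocycle A p) (σ : Equiv.Perm ι) : Prop :=
  ∀ (u g : Fock ι) (n : ℤ), md ε (thF σ u) n (thF σ g) = thF σ (md ε u n g)

/-- [DS3] Leading components. -/
structure st_DS3 (ε : Cocycle A p) : Prop where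
  mul : ∀ (a b : ℕ) (u g : Fock ι), DLt (a + 1) u → DLt (b + 1) g →
    DLt (a + b) (md ε u (-1) g - u * g)
  dt : ∀ (n : ℕ) (f : Fock ι), DLt n f → DLt n (dT ι f)
  fdt : ∀ (n : ℕ) (f : Fock ι), FH f n → FH (dT ι f) (n + 1)
  hdt : ∀ (n : ℕ) (f : Fock ι), homogeneousComponent n (dT ι f) = dT ι (homogeneousComponent n f)
  jdt : ∀ (k : ℕ) (P : MvPolynomial ι ℂ), dT ι (jet k P) = C ((k : ℂ) + 1) * jet (k + 1) P
  mdt : ∀ f : Fock ι, md ε f (-2) 1 = dT ι f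
  kdt : 2 ≤ p → ∀ f ∈ KK A p, dT ι f ∈ KK A p

/-- [DS4] The symbol and the modes. -/
structure st_DS4 (ε : Cocycle A p) : Prop where
  m2 : ∀ (u g : Fock ι) (n : ℤ), n ≤ -2 → syF ι (md ε u n g) = 0
  m1 : ∀ u g : Fock ι, syF ι (md ε u (-1) g) = syF ι u * syF ι g
  z0 : ∀ u g : Fock ι, syF ι (md ε u 0 g) = 0
  p1 : ∀ u g : Fock ι, syF ι (md ε u 1 g) = gr A p (syF ι u) (syF ι g)

/-- [DS5] The symbol. -/
structure st_DS5 (ι : Type) [Fintype ι] [DecidableEq ι] : Prop where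
  dt : ∀ f : Fock ι, syF ι (dT ι f) = 0
  inc : ∀ P : MvPolynomial ι ℂ, syF ι (inc0 P) = P
  hc : ∀ (f : Fock ι) (m : ℕ), FH f m → inc0 (syF ι f) = homogeneousComponent m f
  hom : ∀ (f : Fock ι) (m : ℕ), FH f m → (syF ι f).IsHomogeneous m
  dl : ∀ (f : Fock ι) (m : ℕ), FH f m → DLt (m + 1) f
  dl0 : ∀ (f : Fock ι) (m : ℕ), FH f m → syF ι f = 0 → DLt m f

/-- [DS6] The symbol of a vector of `V^G` is invariant. -/
structure st_DS6 (A : Matrix ι ι ℤ) (p : ℕ) (σ : Equiv.Perm ι) : Prop where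
  inv : ∀ (m : ℕ) (f : Fock ι), f ∈ KH A p m → ∀ j, rfS A j (syF ι f) = syF ι f
  even : ∀ (m : ℕ) (f : Fock ι), f ∈ Kev A p σ m → syF ι f ∈ Ie A σ m

/-- [DS7] The gradient pairing. -/
structure st_DS7 (A : Matrix ι ι ℤ) (p : ℕ) (σ : Equiv.Perm ι) : Prop where
  add_r : ∀ f g h, gr A p f (g + h) = gr A p f g + gr A p f h
  add_l : ∀ f g h, gr A p (f + g) h = gr A p f h + gr A p g h
  smul_r : ∀ (c : ℂ) (f g : MvPolynomial ι ℂ), gr A p f (c • g) = c • gr A p f g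
  smul_l : ∀ (c : ℂ) (f g : MvPolynomial ι ℂ), gr A p (c • f) g = c • gr A p f g
  mul_r : ∀ f g h, gr A p f (g * h) = gr A p f g * h + g * gr A p f h
  mul_l : ∀ f g h, gr A p (f * g) h = gr A p f h * g + f * gr A p g h
  ie : ∀ (a b : ℕ) (f g : MvPolynomial ι ℂ), 1 ≤ a → 1 ≤ b → f ∈ Ie A σ a → g ∈ Ie A σ b →
    gr A p f g ∈ Ie A σ (a + b - 2)

/-- [DS8] An induction principle: a submodule contains all `u ∈ K` if it contains, for every word `L`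
in the class `cls`, a vector of `K` with leading component `pj P L`. -/
def st_DS8 (ι : Type) [Fintype ι] [DecidableEq ι] : Prop :=
  ∀ (P : ι → MvPolynomial ι ℂ) (d : ι → ℕ) (m : ℕ) (K M : Submodule ℂ (Fock ι))
    (cls : List (ι × ℕ) → Prop),
    (∀ u ∈ K, ∀ D, DLt (D + 1) u → homogeneousComponent D u ∈
      Submodule.span ℂ {g | ∃ L, dgL d L = D ∧ wtL d L = m ∧ cls L ∧ g = pj P L}) →
    ∀ D0 : ℕ, (∀ L, cls L → wtL d L = m → dgL d L < D0 →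
      ∃ v, v ∈ M ∧ v ∈ K ∧ DLt (dgL d L) (v - pj P L)) →
    ∀ u ∈ K, DLt D0 u → u ∈ M

end

/-! ### statements, type `D` -/

section

/-- [DA1] Coordinates of the simple roots. -/
structure st_DA1 (l : ℕ) : Prop where
  gram : ∀ i j : Fin l, ((CartanMatrix.D l i j : ℤ) : ℂ) = ∑ k, nD l i k * nD l j k
  mn : ∀ k k' : Fin l, ∑ i, mD l k i * nD l i k' = if k = k' then 1 else 0
  nm : ∀ i i' : Fin l, ∑ k, nD l i k * mD l k i' = if i = i' then 1 else 0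
  x : ∀ i : Fin l, (X i : MvPolynomial (Fin l) ℂ) = ∑ k, C (nD l i k) * eD l k
  mam : ∀ k k' : Fin l, ∑ i, ∑ j, mD l k i * ((CartanMatrix.D l i j : ℤ) : ℂ) * mD l k' j =
    if k = k' then 1 else 0
  rf : ∀ j k : Fin l, rfS (CartanMatrix.D l) j (eD l k) = eD l k - C (nD l j k) * X j
  th : ∀ k : Fin l, rename (sgD l) (eD l k) = if (k : ℕ) + 1 = l then -eD l k else eD l k
  sg : ∀ i j : Fin l, CartanMatrix.D l (sgD l i) (sgD l j) = CartanMatrix.D l i j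
  invo : ∀ i : Fin l, sgD l (sgD l i) = i

/-- [DA2] The invariants. -/
structure st_DA2 (l : ℕ) : Prop where
  pw_inv : ∀ (j : Fin l) (n : ℕ), rfS (CartanMatrix.D l) j (pwS l (2 * n)) = pwS l (2 * n)
  pf_inv : ∀ j : Fin l, rfS (CartanMatrix.D l) j (pfS l) = pfS l
  pw_th : ∀ n : ℕ, rename (sgD l) (pwS l (2 * n)) = pwS l (2 * n)
  pf_th : rename (sgD l) (pfS l) = -pfS l
  pw_hom : ∀ n : ℕ, (pwS l n).IsHomogeneous n
  pf_hom : (pfS l).IsHomogeneous l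
  inv : ∀ i j : Fin l, rfS (CartanMatrix.D l) j (PD l i) = PD l i
  hom : ∀ i : Fin l, (PD l i).IsHomogeneous (dD l i)
  th : ∀ i : Fin l, rename (sgD l) (PD l i) = if (i : ℕ) + 1 = l then -PD l i else PD l i

/-- [DA3] The Jacobian of the invariants is not zero. -/
def st_DA3 (l : ℕ) : Prop := (Jac (PD l)).det ≠ 0

/-- [DA4] The number of positive roots. -/
def st_DA4 (l : ℕ) : Prop := l * (l - 1) ≤ (posRoots (CartanMatrix.D l)).card

/-- [DA5] The Jacobian of invariants is divisible by the product of the positive roots (all types). -/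
def st_DA5 (ι : Type) [Fintype ι] [DecidableEq ι] : Prop :=
  ∀ (A : Matrix ι ι ℤ), IsADE A → ∀ P : ι → MvPolynomial ι ℂ, (∀ i j, rfS A j (P i) = P i) →
    PiA A ∣ (Jac P).det

/-- [DA6] `PD l` are basic invariants. -/
def st_DA6 (l : ℕ) : Prop := ∃ c, Inv (CartanMatrix.D l) (PD l) (dD l) c

/-- [DA7] Even invariants of small degree. -/
structure st_DA7 (l : ℕ) : Prop where
  odd : ∀ m, Odd m → Ie (CartanMatrix.D l) (sgD l) m = ⊥
  pw : ∀ n, pwS l (2 * n) ∈ Ie (CartanMatrix.D l) (sgD l) (2 * n)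
  pf2 : pfS l ^ 2 ∈ Ie (CartanMatrix.D l) (sgD l) (2 * l)
  even : ∀ m, Even m → 2 ≤ m → m ≤ 2 * l → Ie (CartanMatrix.D l) (sgD l) m ≤
    Dp (CartanMatrix.D l) (sgD l) m ⊔ Submodule.span ℂ {pwS l m}
  ne : ∀ m, Even m → 2 ≤ m → m ≤ 2 * l → pwS l m ∉ Dp (CartanMatrix.D l) (sgD l) m
  dle : ∀ m, Dp (CartanMatrix.D l) (sgD l) m ≤ Ie (CartanMatrix.D l) (sgD l) m

/-- [DA8] Gradients of power sums. -/
structure st_DA8 (l p : ℕ) : Prop where
  pp : ∀ m n : ℕ, 1 ≤ m → 1 ≤ n → gr (CartanMatrix.D l) p (pwS l m) (pwS l n) =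
    C ((p : ℂ) * m * n) * pwS l (m + n - 2)
  euler : ∀ (m : ℕ) (g : MvPolynomial (Fin l) ℂ), g.IsHomogeneous m →
    gr (CartanMatrix.D l) p (pwS l 2) g = C (2 * (p : ℂ) * m) * g

/-- [DC] `D_l` is an ADE matrix; the central charge. -/
structure st_DC (l : ℕ) : Prop where
  ade : IsADE (CartanMatrix.D l)
  cc : ∀ p : ℕ, 1 ≤ p → cc (CartanMatrix.D l) p = ((1 - 6 * wD l p : ℚ) : ℂ)

/-- [DV1] Lifts of the products of jets of the `PD l i`, with parity, and of the even invariants. -/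
structure st_DV1 (l p : ℕ) : Prop where
  lift : ∀ L : List (Fin l × ℕ), ∃ u ∈ KH (CartanMatrix.D l) p (wtL (dD l) L),
    DLt (dgL (dD l) L) (u - pj (PD l) L) ∧ thF (sgD l) u = (-1 : ℂ) ^ noe l L • u
  inv : ∀ (a : ℕ), ∀ g ∈ Ie (CartanMatrix.D l) (sgD l) a, ∃ u ∈ Kev (CartanMatrix.D l) p (sgD l) a,
    syF (Fin l) u = g

/-- The input from the reduction: generators of `V^G`. -/
def KData (l p : ℕ) : Prop :=
  ∃ (w : Fin l → Fock (Fin l)) (P : Fin l → MvPolynomial (Fin l) ℂ) (d : Fin l → ℕ) (c : ℂ),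
    Gens (CartanMatrix.D l) p w P d ∧ Inv (CartanMatrix.D l) P d c

/-- [DV2] Leading components of even and odd vectors. -/
structure st_DV2 (l p : ℕ) : Prop where
  all : ∀ (m : ℕ), ∀ u ∈ KH (CartanMatrix.D l) p m, ∀ D, DLt (D + 1) u →
    homogeneousComponent D u ∈ Submodule.span ℂ {g | ∃ L : List (Fin l × ℕ), dgL (dD l) L = D ∧
      wtL (dD l) L = m ∧ True ∧ g = pj (PD l) L}
  ev : ∀ (m : ℕ), ∀ u ∈ Kev (CartanMatrix.D l) p (sgD l) m, ∀ D, DLt (D + 1) u →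
    homogeneousComponent D u ∈ Submodule.span ℂ {g | ∃ L : List (Fin l × ℕ), dgL (dD l) L = D ∧
      wtL (dD l) L = m ∧ Even (noe l L) ∧ g = pj (PD l) L}
  od : ∀ (m : ℕ), ∀ u ∈ Kod (CartanMatrix.D l) p (sgD l) m, ∀ D, DLt (D + 1) u →
    homogeneousComponent D u ∈ Submodule.span ℂ {g | ∃ L : List (Fin l × ℕ), dgL (dD l) L = D ∧
      wtL (dD l) L = m ∧ Odd (noe l L) ∧ g = pj (PD l) L}

/-- [DV3] The structure of even and odd vectors: the fields of `EO` that need no generators. -/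
structure st_DV3 (l : ℕ) {p : ℕ} (ε : Cocycle (CartanMatrix.D l) p) : Prop where
  sup : ∀ m, KH (CartanMatrix.D l) p m ≤ Kev (CartanMatrix.D l) p (sgD l) m ⊔
    Kod (CartanMatrix.D l) p (sgD l) m
  ee : ∀ (i j c : ℕ) (n : ℤ) (a b : Fock (Fin l)), a ∈ Kev (CartanMatrix.D l) p (sgD l) i →
    b ∈ Kev (CartanMatrix.D l) p (sgD l) j → (c : ℤ) = i + j - n - 1 →
    md ε a n b ∈ Kev (CartanMatrix.D l) p (sgD l) c
  eo : ∀ (i j c : ℕ) (n : ℤ) (a b : Fock (Fin l)), a ∈ Kev (CartanMatrix.D l) p (sgD l) i →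
    b ∈ Kod (CartanMatrix.D l) p (sgD l) j → (c : ℤ) = i + j - n - 1 →
    md ε a n b ∈ Kod (CartanMatrix.D l) p (sgD l) c
  oe : ∀ (i j c : ℕ) (n : ℤ) (a b : Fock (Fin l)), a ∈ Kod (CartanMatrix.D l) p (sgD l) i →
    b ∈ Kev (CartanMatrix.D l) p (sgD l) j → (c : ℤ) = i + j - n - 1 →
    md ε a n b ∈ Kod (CartanMatrix.D l) p (sgD l) c
  oo : ∀ (i j c : ℕ) (n : ℤ) (a b : Fock (Fin l)), a ∈ Kod (CartanMatrix.D l) p (sgD l) i →
    b ∈ Kod (CartanMatrix.D l) p (sgD l) j → (c : ℤ) = i + j - n - 1 →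
    md ε a n b ∈ Kev (CartanMatrix.D l) p (sgD l) c
  eT : ∀ (m : ℕ) (f : Fock (Fin l)), f ∈ Kev (CartanMatrix.D l) p (sgD l) m →
    dT (Fin l) f ∈ Kev (CartanMatrix.D l) p (sgD l) (m + 1)
  oT : ∀ (m : ℕ) (f : Fock (Fin l)), f ∈ Kod (CartanMatrix.D l) p (sgD l) m →
    dT (Fin l) f ∈ Kod (CartanMatrix.D l) p (sgD l) (m + 1)
  hT : ∀ (m : ℕ) (f : Fock (Fin l)), f ∈ KH (CartanMatrix.D l) p m →
    dT (Fin l) f ∈ KH (CartanMatrix.D l) p (m + 1)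
  hh : ∀ (i j c : ℕ) (n : ℤ) (a b : Fock (Fin l)), a ∈ KH (CartanMatrix.D l) p i →
    b ∈ KH (CartanMatrix.D l) p j → (c : ℤ) = i + j - n - 1 → md ε a n b ∈ KH (CartanMatrix.D l) p c
  one : (1 : Fock (Fin l)) ∈ Kev (CartanMatrix.D l) p (sgD l) 0
  e0 : Kev (CartanMatrix.D l) p (sgD l) 0 ≤ Submodule.span ℂ {1}

/-- [DV4] Vectors of small weight. -/
structure st_DV4 (l p : ℕ) : Prop where
  e1 : Kev (CartanMatrix.D l) p (sgD l) 1 = ⊥
  o0 : ∀ m, m < l → Kod (CartanMatrix.D l) p (sgD l) m = ⊥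

/-- [DV5] The conformal vector and `W_4`. -/
structure st_DV5 (l : ℕ) {p : ℕ} (ε : Cocycle (CartanMatrix.D l) p) (o W : Fock (Fin l)) : Prop where
  om : Finsupp.single 0 o = omegaV (CartanMatrix.D l) p
  o2 : o ∈ Kev (CartanMatrix.D l) p (sgD l) 2
  so : ∃ c : ℂ, c ≠ 0 ∧ syF (Fin l) o = c • pwS l 2
  w4 : W ∈ Kev (CartanMatrix.D l) p (sgD l) 4
  wp : (Finsupp.single 0 W : VL (Fin l)) ∈ Prim0 (CartanMatrix.D l) p 4
  sw : ∃ b : ℂ, syF (Fin l) W = pwS l 4 + b • pwS l 2 ^ 2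

/-- The vectors `U m`. -/
noncomputable def UD {l p : ℕ} (ε : Cocycle (CartanMatrix.D l) p) (o W : Fock (Fin l)) :
    ℕ → Fock (Fin l)
  | 0 => 0
  | 1 => 0
  | 2 => o
  | 3 => 0
  | 4 => W
  | m + 2 => md ε W 1 (UD ε o W m)

/-- [DV6] The symbols of the `U m`. -/
structure st_DV6 (l : ℕ) {p : ℕ} (ε : Cocycle (CartanMatrix.D l) p) : Prop where
  mem : ∀ o W : Fock (Fin l), st_DV5 l ε o W → ∀ m, Even m → 2 ≤ m →
    UD ε o W m ∈ Kev (CartanMatrix.D l) p (sgD l) m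
  sy : ∀ o W : Fock (Fin l), st_DV5 l ε o W → ∀ m, Even m → 2 ≤ m → m ≤ 2 * l →
    ∃ c : ℂ, c ≠ 0 ∧ syF (Fin l) (UD ε o W m) - c • pwS l m ∈ Dp (CartanMatrix.D l) (sgD l) m
  us : ∀ o W : Fock (Fin l), ∀ m, 4 ≤ m → UD ε o W (m + 2) = md ε W 1 (UD ε o W m)

/-- [DV7] The vector `Pf`. -/
def st_DV7 (l p : ℕ) : Prop :=
  ∃ Pf ∈ Kod (CartanMatrix.D l) p (sgD l) l,
    (Finsupp.single 0 Pf : VL (Fin l)) ∈ Prim0 (CartanMatrix.D l) p l ∧
    DLt l (Pf - inc0 (pfS l))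

/-- [DV8] Decomposable symbols. -/
structure st_DV8 (l : ℕ) {p : ℕ} (ε : Cocycle (CartanMatrix.D l) p) : Prop where
  d0 : ∀ (i j c : ℕ) (a b : Fock (Fin l)), 1 ≤ i → 1 ≤ j → i + j = c + 1 →
    a ∈ Kev (CartanMatrix.D l) p (sgD l) i → b ∈ Kev (CartanMatrix.D l) p (sgD l) j →
    md ε a 0 b ∈ decD (CartanMatrix.D l) p (sgD l) c
  d1 : ∀ (i j : ℕ) (a b : Fock (Fin l)), 1 ≤ i → 1 ≤ j →
    a ∈ Kev (CartanMatrix.D l) p (sgD l) i → b ∈ Kev (CartanMatrix.D l) p (sgD l) j →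
    md ε a (-1) b ∈ decD (CartanMatrix.D l) p (sgD l) (i + j)
  dd : ∀ (m : ℕ) (f : Fock (Fin l)), f ∈ Kev (CartanMatrix.D l) p (sgD l) m →
    dT (Fin l) f ∈ decD (CartanMatrix.D l) p (sgD l) (m + 1)
  odd : ∀ m, Odd m → Kev (CartanMatrix.D l) p (sgD l) m ≤ decD (CartanMatrix.D l) p (sgD l) m
  even : ∀ (o W : Fock (Fin l)), st_DV5 l ε o W → ∀ m, Even m → 2 ≤ m → m ≤ 2 * l →
    Kev (CartanMatrix.D l) p (sgD l) m ≤ decD (CartanMatrix.D l) p (sgD l) m ⊔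
      Submodule.span ℂ {UD ε o W m}

/-- [DV9] Spanning, even vectors. -/
def st_DV9 (l : ℕ) {p : ℕ} (ε : Cocycle (CartanMatrix.D l) p) : Prop :=
  ∀ m, 1 ≤ m → m ≤ 2 * l + 1 → decD (CartanMatrix.D l) p (sgD l) m ≤
    Comp ε (Kev (CartanMatrix.D l) p (sgD l)) (Kev (CartanMatrix.D l) p (sgD l)) m ⊔
      (Kev (CartanMatrix.D l) p (sgD l) (m - 1)).map (dT (Fin l)).toLinearMap

/-- [DV10] Spanning, odd vectors. -/
def st_DV10 (l : ℕ) {p : ℕ} (ε : Cocycle (CartanMatrix.D l) p) : Prop :=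
  ∀ Pf ∈ Kod (CartanMatrix.D l) p (sgD l) l, DLt l (Pf - inc0 (pfS l)) →
    ∀ m, 1 ≤ m → m < 3 * l → Kod (CartanMatrix.D l) p (sgD l) m ≤
      Comp ε (Kev (CartanMatrix.D l) p (sgD l)) (Kod (CartanMatrix.D l) p (sgD l)) m ⊔
        (Kod (CartanMatrix.D l) p (sgD l) (m - 1)).map (dT (Fin l)).toLinearMap ⊔
        (if m = l then Submodule.span ℂ {Pf} else ⊥)

/-- [DV11] Generation. -/
def st_DV11 (l : ℕ) {p : ℕ} (ε : Cocycle (CartanMatrix.D l) p) : Prop :=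
  ∀ m, 2 * l - 2 < m → KH (CartanMatrix.D l) p m ≤
    Comp ε (KH (CartanMatrix.D l) p) (KH (CartanMatrix.D l) p) m ⊔
      (KH (CartanMatrix.D l) p (m - 1)).map (dT (Fin l)).toLinearMap

end

end WPE
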