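import Pool.Agent.WPE.FER2

/-! [WPE-FER3] Matrix version of the normally ordered bilinears. -/

set_option autoImplicit false
set_option linter.unusedSectionVars false

namespace WPE

noncomputable section

namespace FMod

variable {β : Type} [DecidableEq β] {E : Type} [AddCommGroup E] [Module ℂ E] (X : FMod β E)
variable {E' : Type} [AddCommGroup E'] [Module ℂ E'] (Y : FMod β E')

/-- The terms of the other ordering: annihilation modes of `ps` to the right. -/
def no (m : ℤ) (t s : β) (r : ℤ) : E →ₗ[ℂ] E :=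
  if 0 ≤ r then X.ph (m - 1 - r) t ∘ₗ X.ps r s else -(X.ps r s ∘ₗ X.ph (m - 1 - r) t)

theorem no_eq (m : ℤ) (t s : β) (r : ℤ) : X.no m t s r = X.blF m t s (m - 1 - r) := by
  refine LinearMap.ext fun x => ?_
  have e : m - 1 - (m - 1 - r) = r := by omega
  unfold no blF
  rw [e]
  by_cases h1 : 0 ≤ r
  · by_cases h2 : m - 1 - r < 0
    · rw [if_pos h1, if_pos h2]
    · rw [if_pos h1, if_neg h2]
      show X.ph (m - 1 - r) t (X.ps r s x) = -X.ps r s (X.ph (m - 1 - r) t x)
      rw [X.hs', if_neg (fun hc => by omega), zero_sub]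
  · by_cases h2 : m - 1 - r < 0
    · rw [if_neg h1, if_pos h2]
      show -X.ps r s (X.ph (m - 1 - r) t x) = X.ph (m - 1 - r) t (X.ps r s x)
      rw [X.hs', if_neg (fun hc => by omega), zero_sub]
    · rw [if_neg h1, if_neg h2]

theorem lf_no (m : ℤ) (t s : β) : LF (X.no m t s) := by
  have h : X.no m t s = fun r => X.blF m t s (Equiv.subLeft (m - 1) r) :=
    funext fun r => X.no_eq m t s r
  rw [h]
  exact (X.lf_blF m t s).comp_equiv (Equiv.subLeft (m - 1))

theorem bl_no (m : ℤ) (t s : β) : X.bl m t s = psum (X.no m t s) := by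
  have h : X.no m t s = fun r => X.blF m t s (Equiv.subLeft (m - 1) r) :=
    funext fun r => X.no_eq m t s r
  rw [h, psum_equiv (X.lf_blF m t s)]
  rfl

/-- Linear maps intertwining the fermions intertwine the bilinears. -/
theorem map_bl (f : E →ₗ[ℂ] E') (h1 : ∀ m b x, f (X.ph m b x) = Y.ph m b (f x))
    (h2 : ∀ m b x, f (X.ps m b x) = Y.ps m b (f x)) (m : ℤ) (b c : β) (x : E) :
    f (X.bl m b c x) = Y.bl m b c (f x) := by
  unfold bl
  have e1 := LinearMap.congr_fun (comp_psum (X.lf_blF m b c) f) x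
  have e2 := LinearMap.congr_fun (psum_comp (Y.lf_blF m b c) f) x
  rw [LinearMap.comp_apply] at e1 e2
  rw [e1, e2]
  congr 2
  funext k
  refine LinearMap.ext fun y => ?_
  show f (X.blF m b c k y) = Y.blF m b c k (f y)
  by_cases h0 : k < 0
  · rw [X.blF_lt h0, Y.blF_lt h0, h1, h2]
  · rw [X.blF_ge h0, Y.blF_ge h0, map_neg, h2, h1]

/-- Linear maps anti-intertwining the fermions intertwine the bilinears. -/
theorem map_bl' (f : E →ₗ[ℂ] E') (h1 : ∀ m b x, f (X.ph m b x) = -Y.ph m b (f x))
    (h2 : ∀ m b x, f (X.ps m b x) = -Y.ps m b (f x)) (m : ℤ) (b c : β) (x : E) :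
    f (X.bl m b c x) = Y.bl m b c (f x) := by
  unfold bl
  have e1 := LinearMap.congr_fun (comp_psum (X.lf_blF m b c) f) x
  have e2 := LinearMap.congr_fun (psum_comp (Y.lf_blF m b c) f) x
  rw [LinearMap.comp_apply] at e1 e2
  rw [e1, e2]
  congr 2
  funext k
  refine LinearMap.ext fun y => ?_
  show f (X.blF m b c k y) = Y.blF m b c k (f y)
  by_cases h0 : k < 0
  · rw [X.blF_lt h0, Y.blF_lt h0, h1, h2, map_neg, neg_neg]
  · rw [X.blF_ge h0, Y.blF_ge h0, map_neg, h2, h1, map_neg, neg_neg]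

variable [Fintype β]

/-- The linear version of `ph`. -/
def phL (m : ℤ) : (β → ℂ) →ₗ[ℂ] (E →ₗ[ℂ] E) where
  toFun a := ∑ b, a b • X.ph m b
  map_add' a a' := by
    rw [← Finset.sum_add_distrib]
    exact Finset.sum_congr rfl fun b _ => by rw [Pi.add_apply, add_smul]
  map_smul' r a := by
    rw [RingHom.id_apply, Finset.smul_sum]
    exact Finset.sum_congr rfl fun b _ => by rw [Pi.smul_apply, smul_eq_mul, mul_smul]

/-- The linear version of `ps`. -/
def psL (m : ℤ) : (β → ℂ) →ₗ[ℂ] (E →ₗ[ℂ] E) where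
  toFun a := ∑ b, a b • X.ps m b
  map_add' a a' := by
    rw [← Finset.sum_add_distrib]
    exact Finset.sum_congr rfl fun b _ => by rw [Pi.add_apply, add_smul]
  map_smul' r a := by
    rw [RingHom.id_apply, Finset.smul_sum]
    exact Finset.sum_congr rfl fun b _ => by rw [Pi.smul_apply, smul_eq_mul, mul_smul]

/-- The bilinear of a matrix: `∑ T t s :ph(t) ps(s):_m`. -/
def G (m : ℤ) : Matrix β β ℂ →ₗ[ℂ] (E →ₗ[ℂ] E) where
  toFun T := ∑ t, ∑ s, T t s • X.bl m t s
  map_add' a a' := by
    rw [← Finset.sum_add_distrib]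
    refine Finset.sum_congr rfl fun b _ => ?_
    rw [← Finset.sum_add_distrib]
    exact Finset.sum_congr rfl fun c _ => by rw [Matrix.add_apply, add_smul]
  map_smul' r a := by
    rw [RingHom.id_apply, Finset.smul_sum]
    refine Finset.sum_congr rfl fun b _ => ?_
    rw [Finset.smul_sum]
    exact Finset.sum_congr rfl fun c _ => by rw [Matrix.smul_apply, smul_eq_mul, mul_smul]

theorem phL_apply (m : ℤ) (a : β → ℂ) (x : E) : X.phL m a x = ∑ b, a b • X.ph m b x := by
  show (∑ b, a b • X.ph m b) x = _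
  rw [LinearMap.sum_apply]
  rfl

theorem psL_apply (m : ℤ) (a : β → ℂ) (x : E) : X.psL m a x = ∑ b, a b • X.ps m b x := by
  show (∑ b, a b • X.ps m b) x = _
  rw [LinearMap.sum_apply]
  rfl

theorem G_apply (m : ℤ) (T : Matrix β β ℂ) (x : E) :
    X.G m T x = ∑ t, ∑ s, T t s • X.bl m t s x := by
  show (∑ t, ∑ s, T t s • X.bl m t s) x = _
  rw [LinearMap.sum_apply]
  refine Finset.sum_congr rfl fun t _ => ?_
  rw [LinearMap.sum_apply]
  rfl

theorem G_no (m : ℤ) (T : Matrix β β ℂ) :
    X.G m T = ∑ t, ∑ s, T t s • psum (X.no m t s) :=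
  Finset.sum_congr rfl fun t _ => Finset.sum_congr rfl fun s _ => by rw [X.bl_no]

theorem G_ph (m n : ℤ) (T : Matrix β β ℂ) (s : β) (x : E) :
    X.G m T (X.ph n s x) - X.ph n s (X.G m T x) = ∑ t, T t s • X.ph (m + n) t x := by
  rw [G_apply, G_apply, map_sum, ← Finset.sum_sub_distrib]
  refine Finset.sum_congr rfl fun t _ => ?_
  rw [map_sum, ← Finset.sum_sub_distrib]
  have h : ∀ c ∈ Finset.univ, T t c • X.bl m t c (X.ph n s x) - X.ph n s (T t c • X.bl m t c x) =
      if c = s then T t c • X.ph (m + n) t x else 0 := by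
    intro c _
    rw [map_smul, ← smul_sub, X.bl_ph]
    by_cases hc : c = s
    · rw [if_pos hc, if_pos hc]
    · rw [if_neg hc, if_neg hc, smul_zero]
  rw [Finset.sum_congr rfl h, Finset.sum_ite_eq' Finset.univ s, if_pos (Finset.mem_univ _)]

theorem G_ps (m n : ℤ) (T : Matrix β β ℂ) (t : β) (x : E) :
    X.G m T (X.ps n t x) - X.ps n t (X.G m T x) = -∑ s, T t s • X.ps (m + n) s x := by
  rw [G_apply, G_apply, map_sum, ← Finset.sum_sub_distrib]
  have h : ∀ b ∈ Finset.univ, ((∑ c, T b c • X.bl m b c (X.ps n t x)) -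
      X.ps n t (∑ c, T b c • X.bl m b c x)) =
      if b = t then -∑ s, T b s • X.ps (m + n) s x else 0 := by
    intro b _
    rw [map_sum, ← Finset.sum_sub_distrib]
    have h2 : ∀ c ∈ Finset.univ, T b c • X.bl m b c (X.ps n t x) -
        X.ps n t (T b c • X.bl m b c x) = if b = t then -(T b c • X.ps (m + n) c x) else 0 := by
      intro c _
      rw [map_smul, ← smul_sub, X.bl_ps]
      by_cases hc : b = t
      · rw [if_pos hc, if_pos hc, smul_neg]
      · rw [if_neg hc, if_neg hc, smul_zero]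
    rw [Finset.sum_congr rfl h2]
    by_cases hc : b = t
    · simp only [if_pos hc, Finset.sum_neg_distrib]
    · simp only [if_neg hc, Finset.sum_const_zero]
  rw [Finset.sum_congr rfl h, Finset.sum_ite_eq' Finset.univ t, if_pos (Finset.mem_univ _)]

theorem G_phL (m n : ℤ) (T : Matrix β β ℂ) (a : β → ℂ) (x : E) :
    X.G m T (X.phL n a x) - X.phL n a (X.G m T x) = X.phL (m + n) (T.mulVec a) x := by
  rw [phL_apply, phL_apply, phL_apply, map_sum, ← Finset.sum_sub_distrib]
  have h : ∀ s ∈ Finset.univ, X.G m T (a s • X.ph n s x) - a s • X.ph n s (X.G m T x) =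
      ∑ t, (T t s * a s) • X.ph (m + n) t x := by
    intro s _
    rw [map_smul, ← smul_sub, X.G_ph, Finset.smul_sum]
    exact Finset.sum_congr rfl fun t _ => by rw [smul_smul, mul_comm]
  rw [Finset.sum_congr rfl h, Finset.sum_comm]
  refine Finset.sum_congr rfl fun t _ => ?_
  rw [← Finset.sum_smul]
  rfl

theorem G_psL (m n : ℤ) (T : Matrix β β ℂ) (f : β → ℂ) (x : E) :
    X.G m T (X.psL n f x) - X.psL n f (X.G m T x) = -X.psL (m + n) (Matrix.vecMul f T) x := by
  rw [psL_apply, psL_apply, psL_apply, map_sum, ← Finset.sum_sub_distrib]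
  have h : ∀ t ∈ Finset.univ, X.G m T (f t • X.ps n t x) - f t • X.ps n t (X.G m T x) =
      -∑ s, (f t * T t s) • X.ps (m + n) s x := by
    intro t _
    rw [map_smul, ← smul_sub, X.G_ps, smul_neg, Finset.smul_sum]
    congr 1
    exact Finset.sum_congr rfl fun s _ => by rw [smul_smul]
  rw [Finset.sum_congr rfl h, Finset.sum_neg_distrib, Finset.sum_comm]
  congr 1
  refine Finset.sum_congr rfl fun s _ => ?_
  rw [← Finset.sum_smul]
  rfl

/-- The commutation relation of the bilinears, with its central term. -/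
theorem G_G (m n : ℤ) (T S : Matrix β β ℂ) (x : E) :
    X.G m T (X.G n S x) - X.G n S (X.G m T x) =
      X.G (m + n) (T * S - S * T) x +
        if m + n = 0 then ((m : ℂ) * (T * S).trace) • x else 0 := by
  have e1 : X.G m T (X.G n S x) - X.G n S (X.G m T x) =
      ∑ t, ∑ s, ∑ t', ∑ s', (T t s * S t' s') •
        (X.bl m t s (X.bl n t' s' x) - X.bl n t' s' (X.bl m t s x)) := by
    have h1 : X.G m T (X.G n S x) = ∑ t, ∑ s, ∑ t', ∑ s', (T t s * S t' s') •
        X.bl m t s (X.bl n t' s' x) := by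
      rw [X.G_apply m T]
      refine Finset.sum_congr rfl fun t _ => Finset.sum_congr rfl fun s _ => ?_
      rw [X.G_apply n S, map_sum, Finset.smul_sum]
      refine Finset.sum_congr rfl fun t' _ => ?_
      rw [map_sum, Finset.smul_sum]
      refine Finset.sum_congr rfl fun s' _ => ?_
      rw [map_smul, smul_smul]
    have h2 : X.G n S (X.G m T x) = ∑ t, ∑ s, ∑ t', ∑ s', (T t s * S t' s') •
        X.bl n t' s' (X.bl m t s x) := by
      rw [X.G_apply m T, map_sum]
      refine Finset.sum_congr rfl fun t _ => ?_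
      rw [map_sum]
      refine Finset.sum_congr rfl fun s _ => ?_
      rw [map_smul, X.G_apply n S, Finset.smul_sum]
      refine Finset.sum_congr rfl fun t' _ => ?_
      rw [Finset.smul_sum]
      exact Finset.sum_congr rfl fun s' _ => by rw [smul_smul]
    rw [h1, h2, ← Finset.sum_sub_distrib]
    refine Finset.sum_congr rfl fun t _ => ?_
    rw [← Finset.sum_sub_distrib]
    refine Finset.sum_congr rfl fun s _ => ?_
    rw [← Finset.sum_sub_distrib]
    refine Finset.sum_congr rfl fun t' _ => ?_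
    rw [← Finset.sum_sub_distrib]
    exact Finset.sum_congr rfl fun s' _ => by rw [smul_sub]
  have e2 : ∀ t s t' s' : β, (T t s * S t' s') •
        (X.bl m t s (X.bl n t' s' x) - X.bl n t' s' (X.bl m t s x)) =
      (if s = t' then (T t s * S t' s') • X.bl (m + n) t s' x else 0) -
      (if t = s' then (T t s * S t' s') • X.bl (m + n) t' s x else 0) +
      (if s = t' then (if t = s' then (if m + n = 0 then ((T t s * S t' s') * (m : ℂ)) • x else 0)
        else 0) else 0) := by
    intro t s t' s'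
    rw [X.bl_bl]
    by_cases h1 : s = t'
    · by_cases h2 : t = s'
      · by_cases h3 : m + n = 0
        · rw [if_pos h1, if_pos h2, if_pos (⟨h3, h1, h2⟩ : m + n = 0 ∧ s = t' ∧ t = s'),
            if_pos h1, if_pos h2, if_pos h1, if_pos h2, if_pos h3, smul_add, smul_sub, smul_smul]
        · rw [if_pos h1, if_pos h2, if_neg (fun h => h3 h.1 : ¬(m + n = 0 ∧ s = t' ∧ t = s')),
            if_pos h1, if_pos h2, if_pos h1, if_pos h2, if_neg h3, smul_add, smul_sub, smul_zero]
      · rw [if_pos h1, if_neg h2, if_neg (fun h => h2 h.2.2 : ¬(m + n = 0 ∧ s = t' ∧ t = s')),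
          if_pos h1, if_neg h2, if_pos h1, if_neg h2, smul_add, smul_sub, smul_zero]
    · by_cases h2 : t = s'
      · rw [if_neg h1, if_pos h2, if_neg (fun h => h1 h.2.1 : ¬(m + n = 0 ∧ s = t' ∧ t = s')),
          if_neg h1, if_pos h2, if_neg h1, smul_add, smul_sub, smul_zero]
      · rw [if_neg h1, if_neg h2, if_neg (fun h => h1 h.2.1 : ¬(m + n = 0 ∧ s = t' ∧ t = s')),
          if_neg h1, if_neg h2, if_neg h1, smul_add, smul_sub, smul_zero]
  rw [e1]
  simp only [e2]
  simp only [Finset.sum_add_distrib, Finset.sum_sub_distrib]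
  have f1 : ∑ t, ∑ s, ∑ t', ∑ s',
      (if s = t' then (T t s * S t' s') • X.bl (m + n) t s' x else 0) =
      X.G (m + n) (T * S) x := by
    rw [G_apply]
    refine Finset.sum_congr rfl fun t _ => ?_
    have h1 : ∀ s : β, ∑ t', ∑ s', (if s = t' then (T t s * S t' s') • X.bl (m + n) t s' x else 0) =
        ∑ s', (T t s * S s s') • X.bl (m + n) t s' x := by
      intro s
      rw [Finset.sum_comm]
      refine Finset.sum_congr rfl fun s' _ => ?_
      rw [Finset.sum_ite_eq Finset.univ s, if_pos (Finset.mem_univ _)]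
    rw [Finset.sum_congr rfl fun s _ => h1 s, Finset.sum_comm]
    refine Finset.sum_congr rfl fun s' _ => ?_
    rw [← Finset.sum_smul]
    rfl
  have f2 : ∑ t, ∑ s, ∑ t', ∑ s',
      (if t = s' then (T t s * S t' s') • X.bl (m + n) t' s x else 0) =
      X.G (m + n) (S * T) x := by
    rw [G_apply]
    have h1 : ∀ t s t' : β, ∑ s', (if t = s' then (T t s * S t' s') • X.bl (m + n) t' s x else 0) =
        (S t' t * T t s) • X.bl (m + n) t' s x := by
      intro t s t'
      rw [Finset.sum_ite_eq Finset.univ t, if_pos (Finset.mem_univ _), mul_comm]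
    simp only [h1]
    have h2 : ∀ t, ∑ s, ∑ t', (S t' t * T t s) • X.bl (m + n) t' s x =
        ∑ t', ∑ s, (S t' t * T t s) • X.bl (m + n) t' s x := fun t => Finset.sum_comm
    rw [Finset.sum_congr rfl fun t _ => h2 t, Finset.sum_comm]
    refine Finset.sum_congr rfl fun t' _ => ?_
    rw [Finset.sum_comm]
    refine Finset.sum_congr rfl fun s _ => ?_
    rw [← Finset.sum_smul]
    rfl
  have f3 : ∑ t, ∑ s, ∑ t', ∑ s',
      (if s = t' then (if t = s' then (if m + n = 0 then ((T t s * S t' s') * (m : ℂ)) • x else 0)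
        else 0) else 0) = if m + n = 0 then ((m : ℂ) * (T * S).trace) • x else 0 := by
    have h1 : ∀ t s : β, ∑ t', ∑ s',
        (if s = t' then (if t = s' then (if m + n = 0 then ((T t s * S t' s') * (m : ℂ)) • x else 0)
        else 0) else 0) = if m + n = 0 then ((T t s * S s t) * (m : ℂ)) • x else 0 := by
      intro t s
      rw [Finset.sum_comm]
      have h2 : ∀ s' ∈ Finset.univ, ∑ t',
          (if s = t' then (if t = s' then (if m + n = 0 then ((T t s * S t' s') * (m : ℂ)) • x
            else 0) else 0) else 0) =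
          if t = s' then (if m + n = 0 then ((T t s * S s s') * (m : ℂ)) • x else 0) else 0 := by
        intro s' _
        rw [Finset.sum_ite_eq Finset.univ s, if_pos (Finset.mem_univ _)]
      rw [Finset.sum_congr rfl h2, Finset.sum_ite_eq Finset.univ t, if_pos (Finset.mem_univ _)]
    simp only [h1]
    by_cases h0 : m + n = 0
    · simp only [if_pos h0]
      have h3 : ∀ t, ∑ s, ((T t s * S s t) * (m : ℂ)) • x = ((m : ℂ) * (T * S) t t) • x := by
        intro t
        rw [← Finset.sum_smul, ← Finset.sum_mul, mul_comm]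
        rfl
      rw [Finset.sum_congr rfl fun t _ => h3 t, ← Finset.sum_smul, ← Finset.mul_sum]
      rfl
    · simp only [if_neg h0, Finset.sum_const_zero]
  rw [f1, f2, f3, map_sub, LinearMap.sub_apply]

/-- `G` is a field, uniformly in the matrix. -/
theorem G_smooth (x : E) : ∃ M : ℤ, ∀ m, M ≤ m → ∀ T, X.G m T x = 0 := by
  obtain ⟨M, hM⟩ := X.bl_smooth x
  refine ⟨M, fun m hm T => ?_⟩
  rw [G_apply]
  exact Finset.sum_eq_zero fun t _ => Finset.sum_eq_zero fun s _ => by
    rw [hM m hm, smul_zero]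

theorem G_vac (v : E) (h1 : ∀ m, 0 ≤ m → ∀ b, X.ph m b v = 0)
    (h2 : ∀ m, 0 ≤ m → ∀ b, X.ps m b v = 0) (m : ℤ) (hm : 0 ≤ m) (T : Matrix β β ℂ) :
    X.G m T v = 0 := by
  rw [G_apply]
  exact Finset.sum_eq_zero fun t _ => Finset.sum_eq_zero fun s _ => by
    rw [X.bl_vac v h1 h2 m hm, smul_zero]

/-- Linear maps intertwining the fermions intertwine `G`. -/
theorem map_G (f : E →ₗ[ℂ] E') (h1 : ∀ m b x, f (X.ph m b x) = Y.ph m b (f x))
    (h2 : ∀ m b x, f (X.ps m b x) = Y.ps m b (f x)) (m : ℤ) (T : Matrix β β ℂ) (x : E) :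
    f (X.G m T x) = Y.G m T (f x) := by
  rw [G_apply, G_apply, map_sum]
  refine Finset.sum_congr rfl fun t _ => ?_
  rw [map_sum]
  refine Finset.sum_congr rfl fun s _ => ?_
  rw [map_smul, X.map_bl Y f h1 h2]

/-- Linear maps anti-intertwining the fermions intertwine `G`. -/
theorem map_G' (f : E →ₗ[ℂ] E') (h1 : ∀ m b x, f (X.ph m b x) = -Y.ph m b (f x))
    (h2 : ∀ m b x, f (X.ps m b x) = -Y.ps m b (f x)) (m : ℤ) (T : Matrix β β ℂ) (x : E) :
    f (X.G m T x) = Y.G m T (f x) := by
  rw [G_apply, G_apply, map_sum]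
  refine Finset.sum_congr rfl fun t _ => ?_
  rw [map_sum]
  refine Finset.sum_congr rfl fun s _ => ?_
  rw [map_smul, X.map_bl' Y f h1 h2]

/-- Operators commuting with the fermions commute with `G`. -/
theorem comm_G (f : E →ₗ[ℂ] E) (h1 : ∀ m b x, f (X.ph m b x) = X.ph m b (f x))
    (h2 : ∀ m b x, f (X.ps m b x) = X.ps m b (f x)) (m : ℤ) (T : Matrix β β ℂ) (x : E) :
    f (X.G m T x) = X.G m T (f x) := X.map_G X f h1 h2 m T x

end FMod

end

end WPE
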