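import Pool.Agent.WPE.FBD
import Pool.Agent.WPE.FER3

/-! WPE, block FB1: the ghost calculus. -/

set_option linter.unusedSectionVars false

namespace WPE

noncomputable section

namespace CAR

variable {β : Type} [Fintype β] [DecidableEq β] {E : Type} [AddCommGroup E] [Module ℂ E]
  (X : CAR β E)

/-- The same data as an `FMod`. -/
def toF : FMod β E where
  ph := X.b
  ps := X.c
  hh := fun m n b c x => X.bb m n b c x
  ss := fun m n b c x => X.cc m n b c x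
  hs := fun m n b c x => by
    rw [X.bc]
    by_cases h : m + n = -1 ∧ b = c
    · rw [if_pos h, if_pos ⟨h.2, by omega⟩]
    · rw [if_neg h, if_neg (fun hc => h ⟨by omega, hc.1⟩)]
  smh := fun x => by
    obtain ⟨M, hM⟩ := X.smooth x
    exact ⟨M, fun m hm b => (hM m hm b).1⟩
  sms := fun x => by
    obtain ⟨M, hM⟩ := X.smooth x
    exact ⟨M, fun m hm b => (hM m hm b).2⟩

theorem toF_no (m : ℤ) (t s : β) : X.toF.no m t s = X.no m t s := rfl

theorem toF_G (m : ℤ) (T : Matrix β β ℂ) : X.toF.G m T = X.G m T := by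
  rw [FMod.G_no, CAR.G_eq]
  rfl

theorem lf_no (m : ℤ) (t s : β) : LF (X.no m t s) := X.toF.lf_no m t s

theorem G_b (m n : ℤ) (T : Matrix β β ℂ) (s : β) (x : E) :
    X.G m T (X.b n s x) - X.b n s (X.G m T x) = ∑ t, T t s • X.b (m + n) t x := by
  rw [← X.toF_G]
  exact X.toF.G_ph m n T s x

theorem G_c (m n : ℤ) (T : Matrix β β ℂ) (t : β) (x : E) :
    X.G m T (X.c n t x) - X.c n t (X.G m T x) = -∑ s, T t s • X.c (m + n) s x := by
  rw [← X.toF_G]
  exact X.toF.G_ps m n T t x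

theorem G_G (m n : ℤ) (T S : Matrix β β ℂ) (x : E) :
    X.G m T (X.G n S x) - X.G n S (X.G m T x) = X.G (m + n) (T * S - S * T) x +
      (if m + n = 0 then (m : ℂ) * (T * S).trace else 0) • x := by
  rw [← X.toF_G, ← X.toF_G, ← X.toF_G]
  rw [X.toF.G_G m n T S x]
  congr 1
  by_cases h : m + n = 0
  · rw [if_pos h, if_pos h]
  · rw [if_neg h, if_neg h, zero_smul]

theorem G_smooth (x : E) : ∃ M : ℤ, ∀ m ≥ M, ∀ T : Matrix β β ℂ, X.G m T x = 0 := by
  obtain ⟨M, hM⟩ := X.toF.G_smooth x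
  exact ⟨M, fun m hm T => by rw [← X.toF_G]; exact hM m hm T⟩

theorem G_comm {E' : Type} [AddCommGroup E'] [Module ℂ E'] (X' : CAR β E') (D : E →ₗ[ℂ] E')
    (hb : ∀ n s x, D (X.b n s x) = X'.b n s (D x)) (hc : ∀ n s x, D (X.c n s x) = X'.c n s (D x))
    (m : ℤ) (T : Matrix β β ℂ) (x : E) : D (X.G m T x) = X'.G m T (D x) := by
  rw [← X.toF_G, ← X'.toF_G]
  exact X.toF.map_G X'.toF D hb hc m T x

/-- Linear maps which anticommute with the ghosts. -/
theorem G_comm' {E' : Type} [AddCommGroup E'] [Module ℂ E'] (X' : CAR β E') (D : E →ₗ[ℂ] E')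
    (hb : ∀ n s x, D (X.b n s x) = -X'.b n s (D x)) (hc : ∀ n s x, D (X.c n s x) = -X'.c n s (D x))
    (m : ℤ) (T : Matrix β β ℂ) (x : E) : D (X.G m T x) = X'.G m T (D x) := by
  rw [← X.toF_G, ← X'.toF_G]
  exact X.toF.map_G' X'.toF D hb hc m T x

theorem psum_mem {K : Type} {f : K → E →ₗ[ℂ] E} (W : Submodule ℂ E) (hf : LF f) (x : E)
    (h : ∀ k, f k x ∈ W) : psum f x ∈ W := by
  classical
  obtain ⟨S, hS⟩ := hf.exists_finset x
  rw [psum_eq_sum hf x S hS]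
  exact Submodule.sum_mem _ fun k _ => h k

theorem G_mem (W : Submodule ℂ E) (hb : ∀ n s, ∀ x ∈ W, X.b n s x ∈ W)
    (hc : ∀ n s, ∀ x ∈ W, X.c n s x ∈ W) (m : ℤ) (T : Matrix β β ℂ) (x : E) (hx : x ∈ W) :
    X.G m T x ∈ W := by
  rw [G_eq, LinearMap.sum_apply]
  refine Submodule.sum_mem _ fun t _ => ?_
  rw [LinearMap.sum_apply]
  refine Submodule.sum_mem _ fun s _ => ?_
  rw [LinearMap.smul_apply]
  refine Submodule.smul_mem _ _ (psum_mem W (X.lf_no m t s) x fun r => ?_)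
  unfold no
  split_ifs
  · exact hb _ _ _ (hc _ _ _ hx)
  · exact neg_mem (hc _ _ _ (hb _ _ _ hx))

theorem G_vac (v : E) (hb : ∀ (m : ℤ) (s : β), 0 ≤ m → X.b m s v = 0)
    (hc : ∀ (m : ℤ) (s : β), 0 ≤ m → X.c m s v = 0) (m : ℤ) (hm : 0 ≤ m)
    (T : Matrix β β ℂ) : X.G m T v = 0 := by
  rw [← X.toF_G]
  exact X.toF.G_vac v (fun m hm b => hb m b hm) (fun m hm b => hc m b hm) m hm T

end CAR

end

end WPE
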