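import Pool.Agent.WPE.LA3
import Pool.Agent.WPE.LA5
import Pool.Agent.WPE.LDB

/-! [KPL] WPE: the dual Coxeter number and the trace `tau(a, b) = tr_{n₊} (p₊ (ad a) (ad b))` which
occurs in the formulas for the reduced quantum Drinfeld-Sokolov complex of level `k`. -/

namespace WPE

noncomputable section

variable {g β η : Type} [LieRing g] [LieAlgebra ℂ g] [Fintype β] [DecidableEq β] [Fintype η]
  [DecidableEq η]

namespace LD

variable (L : LD g β η)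

/-- `tau(a, b) = tr_{n₊} (p₊ (ad a) (ad b))` -/
def tau (a b : g) : ℂ := ∑ c, L.form ⁅a, ⁅b, L.e c⁆⁆ (L.f c)

/-- The trace of `(ad x) (ad y)` on `g`. -/
def trf (x y : g) : ℂ := ∑ c, L.form ⁅x, ⁅y, L.e c⁆⁆ (L.f c) +
  ∑ i, L.form ⁅x, ⁅y, L.h i⁆⁆ (L.h' i) + ∑ c, L.form ⁅x, ⁅y, L.f c⁆⁆ (L.e c)

theorem killing_eq (x y : g) : killingForm ℂ g x y = L.trf x y := by
  have : Module.Finite ℂ g := (la_B L).fin
  rw [killingForm_apply_apply]
  have h : LieAlgebra.ad ℂ g x ∘ₗ LieAlgebra.ad ℂ g y =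
      ∑ c, ((L.form.flip (L.f c)) ∘ₗ LieAlgebra.ad ℂ g x ∘ₗ LieAlgebra.ad ℂ g y).smulRight
        (L.e c) +
      ∑ i, ((L.form.flip (L.h' i)) ∘ₗ LieAlgebra.ad ℂ g x ∘ₗ LieAlgebra.ad ℂ g y).smulRight
        (L.h i) +
      ∑ c, ((L.form.flip (L.e c)) ∘ₗ LieAlgebra.ad ℂ g x ∘ₗ LieAlgebra.ad ℂ g y).smulRight
        (L.f c) := by
    refine LinearMap.ext fun z => ?_
    rw [LinearMap.add_apply, LinearMap.add_apply, LinearMap.sum_apply, LinearMap.sum_apply,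
      LinearMap.sum_apply]
    exact L.decomp ⁅x, ⁅y, z⁆⁆
  rw [h, map_add, map_add, map_sum, map_sum, map_sum]
  simp only [LinearMap.trace_smulRight]
  rfl

theorem inv3 (x y z : g) : L.form x ⁅y, z⁆ = -L.form y ⁅x, z⁆ := by
  rw [← L.inv, ← L.inv, ← lie_skew, map_neg, LinearMap.neg_apply]

/-- `([x, [y, v]], w) = (x, [w, [v, y]])` -/
theorem form_four (x y v w : g) : L.form ⁅x, ⁅y, v⁆⁆ w = L.form x ⁅w, ⁅v, y⁆⁆ := by
  rw [L.inv, ← lie_skew ⁅y, v⁆ w, ← lie_skew y v, lie_neg, neg_neg]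

/-- The Casimir operator. -/
theorem casimir (hv : ℂ) (hK : ∀ x y, L.trf x y = 2 * hv * L.form x y) (y : g) :
    ∑ c, ⁅L.e c, ⁅L.f c, y⁆⁆ + ∑ i, ⁅L.h' i, ⁅L.h i, y⁆⁆ + ∑ c, ⁅L.f c, ⁅L.e c, y⁆⁆ =
      (2 * hv) • y := by
  refine sub_eq_zero.1 ((la_P L).nondeg _ fun x => ?_)
  rw [L.symm, map_sub, map_smul, smul_eq_mul, ← hK, sub_eq_zero, map_add, map_add, map_sum,
    map_sum, map_sum]
  unfold trf
  simp only [form_four]
  ring

theorem tau_add_left (a a' b : g) : L.tau (a + a') b = L.tau a b + L.tau a' b := by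
  unfold tau
  rw [← Finset.sum_add_distrib]
  refine Finset.sum_congr rfl fun c _ => ?_
  rw [add_lie, map_add, LinearMap.add_apply]

theorem tau_add_right (a b b' : g) : L.tau a (b + b') = L.tau a b + L.tau a b' := by
  unfold tau
  rw [← Finset.sum_add_distrib]
  refine Finset.sum_congr rfl fun c _ => ?_
  rw [add_lie, lie_add, map_add, LinearMap.add_apply]

theorem tau_smul_left (r : ℂ) (a b : g) : L.tau (r • a) b = r * L.tau a b := by
  unfold tau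
  rw [Finset.mul_sum]
  refine Finset.sum_congr rfl fun c _ => ?_
  rw [smul_lie, map_smul, LinearMap.smul_apply, smul_eq_mul]

theorem tau_smul_right (r : ℂ) (a b : g) : L.tau a (r • b) = r * L.tau a b := by
  unfold tau
  rw [Finset.mul_sum]
  refine Finset.sum_congr rfl fun c _ => ?_
  rw [smul_lie, lie_smul, map_smul, LinearMap.smul_apply, smul_eq_mul]

/-- `tau` vanishes on elements of degrees `c + d ≠ 0`. -/
theorem tau_gr (c d : ℤ) (hcd : c + d ≠ 0) (a b : g) (ha : a ∈ L.gr c) (hb : b ∈ L.gr d) :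
    L.tau a b = 0 := by
  have hG := la_G L
  unfold tau
  refine Finset.sum_eq_zero fun x _ => ?_
  refine hG.form_gr (c + (d + L.ht x)) (-(L.ht x : ℤ)) ?_ _ ?_ _ (hG.f_gr x)
  · intro h
    apply hcd
    omega
  · exact hG.lie_gr _ _ _ ha _ (hG.lie_gr _ _ _ hb _ (hG.e_gr x))

/-- `tau(a, b) = h^∨ (a, b)` on the Cartan subalgebra. -/
theorem tau_hs (hv : ℂ) (hK : ∀ x y, L.trf x y = 2 * hv * L.form x y) (a b : g)
    (ha : a ∈ L.hs) (hb : b ∈ L.hs) : L.tau a b = hv * L.form a b := by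
  have hG := la_G L
  have hP := la_P L
  have h1 : ∑ i, L.form ⁅a, ⁅b, L.h i⁆⁆ (L.h' i) = 0 := by
    refine Finset.sum_eq_zero fun i _ => ?_
    rw [hG.hs_hs b hb (L.h i) (L.h_mem_hs i), lie_zero, map_zero, LinearMap.zero_apply]
  have h2 : ∑ c, L.form ⁅a, ⁅b, L.f c⁆⁆ (L.e c) = L.tau a b := by
    unfold tau
    refine Finset.sum_congr rfl fun c _ => ?_
    rw [L.symm, ← L.inv, ← L.inv]
    have h3 : ⁅⁅L.e c, a⁆, b⁆ = ⁅a, ⁅b, L.e c⁆⁆ := by
      rw [← lie_skew ⁅L.e c, a⁆ b, ← lie_skew (L.e c) a, lie_neg, neg_neg, leibniz_lie b a (L.e c),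
        hG.hs_hs b hb a ha, zero_lie, zero_add]
    rw [h3]
  have h3 := hK a b
  unfold trf at h3
  rw [h1, add_zero, h2] at h3
  have h4 : ∑ c, L.form ⁅a, ⁅b, L.e c⁆⁆ (L.f c) = L.tau a b := rfl
  rw [h4] at h3
  linear_combination (1 / 2 : ℂ) * h3

/-- Elements of `b₋` are combinations of homogeneous elements. -/
theorem kp_hom_ind (Pr : g → Prop) (h0 : Pr 0) (hadd : ∀ x y, Pr x → Pr y → Pr (x + y))
    (hsmul : ∀ (r : ℂ) x, Pr x → Pr (r • x)) (hh : ∀ x ∈ L.hs, Pr x)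
    (hf : ∀ b, Pr (L.f b)) : ∀ a ∈ L.bm, Pr a := by
  intro a ha
  obtain ⟨u, hu, v, hv, rfl⟩ := Submodule.mem_sup.1 ha
  refine hadd _ _ (hh u hu) ?_
  clear ha
  induction hv using Submodule.span_induction with
  | mem x hx => obtain ⟨c, rfl⟩ := hx; exact hf c
  | zero => exact h0
  | add x y _ _ hx hy => exact hadd _ _ hx hy
  | smul r x _ hx => exact hsmul _ _ hx

/-- `tau(a, b) = h^∨ (a, b)` on `b₋`. -/
theorem tau_bm (hv : ℂ) (hK : ∀ x y, L.trf x y = 2 * hv * L.form x y) (a b : g)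
    (ha : a ∈ L.bm) (hb : b ∈ L.bm) : L.tau a b = hv * L.form a b := by
  have hG := la_G L
  have hP := la_P L
  have z1 : ∀ b, L.tau 0 b = 0 := fun b => by
    have := L.tau_smul_left 0 0 b
    rwa [zero_smul, zero_mul] at this
  have z2 : ∀ a, L.tau a 0 = 0 := fun a => by
    have := L.tau_smul_right 0 a 0
    rwa [zero_smul, zero_mul] at this
  refine L.kp_hom_ind (fun a => L.tau a b = hv * L.form a b) ?_ ?_ ?_ ?_ ?_ a ha
  · show L.tau 0 b = hv * L.form 0 b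
    rw [z1, map_zero, LinearMap.zero_apply, mul_zero]
  · intro x y hx hy
    show L.tau (x + y) b = hv * L.form (x + y) b
    rw [tau_add_left, hx, hy, map_add, LinearMap.add_apply]
    ring
  · intro r x hx
    show L.tau (r • x) b = hv * L.form (r • x) b
    rw [tau_smul_left, hx, map_smul, LinearMap.smul_apply, smul_eq_mul]
    ring
  · intro x hx
    refine L.kp_hom_ind (fun b => L.tau x b = hv * L.form x b) ?_ ?_ ?_ ?_ ?_ b hb
    · show L.tau x 0 = hv * L.form x 0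
      rw [z2, map_zero, mul_zero]
    · intro y z hy hz
      show L.tau x (y + z) = hv * L.form x (y + z)
      rw [tau_add_right, hy, hz, map_add]
      ring
    · intro r y hy
      show L.tau x (r • y) = hv * L.form x (r • y)
      rw [tau_smul_right, hy, map_smul, smul_eq_mul]
      ring
    · intro y hy
      exact L.tau_hs hv hK x y hx hy
    · intro c
      have h1 : x ∈ L.gr 0 := by
        rw [hG.gr_zero]
        exact hx
      have h2 := L.ht_pos c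
      show L.tau x (L.f c) = hv * L.form x (L.f c)
      rw [L.tau_gr 0 (-(L.ht c : ℤ)) (by omega) _ _ h1 (hG.f_gr c),
        hG.form_gr 0 (-(L.ht c : ℤ)) (by omega) _ h1 _ (hG.f_gr c), mul_zero]
  · intro d
    have h3 := L.ht_pos d
    have key : ∀ c : ℤ, c ≤ 0 → ∀ y ∈ L.gr c, L.tau (L.f d) y = hv * L.form (L.f d) y := by
      intro c hc y hy
      rw [L.tau_gr (-(L.ht d : ℤ)) c (by omega) _ _ (hG.f_gr d) hy,
        hG.form_gr (-(L.ht d : ℤ)) c (by omega) _ (hG.f_gr d) _ hy, mul_zero]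
    refine L.kp_hom_ind (fun b => L.tau (L.f d) b = hv * L.form (L.f d) b) ?_ ?_ ?_ ?_ ?_ b hb
    · show L.tau (L.f d) 0 = hv * L.form (L.f d) 0
      rw [z2, map_zero, mul_zero]
    · intro y z hy hz
      show L.tau (L.f d) (y + z) = hv * L.form (L.f d) (y + z)
      rw [tau_add_right, hy, hz, map_add]
      ring
    · intro r y hy
      show L.tau (L.f d) (r • y) = hv * L.form (L.f d) (r • y)
      rw [tau_smul_right, hy, map_smul, smul_eq_mul]
      ring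
    · intro y hy
      refine key 0 le_rfl y ?_
      rw [hG.gr_zero]
      exact hy
    · intro c
      exact key _ (by have := L.ht_pos c; omega) _ (hG.f_gr c)

/-- `∑_b tau(y, e_b) f_b` -/
theorem tau_sum (y : g) : ∑ b, L.tau y (L.e b) • L.f b = L.Pn (∑ c, ⁅L.e c, ⁅L.f c, y⁆⁆) := by
  rw [(la_P L).Pn_apply]
  refine Finset.sum_congr rfl fun b _ => ?_
  congr 1
  unfold tau
  rw [map_sum, LinearMap.sum_apply]
  refine Finset.sum_congr rfl fun c _ => ?_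
  -- `([y, [e_b, e_c]], f_c) = ([e_c, [f_c, y]], e_b)`
  have h1 : L.form ⁅y, ⁅L.e b, L.e c⁆⁆ (L.f c) = -L.form ⁅L.e b, L.e c⁆ ⁅y, L.f c⁆ := by
    rw [← lie_skew, map_neg, LinearMap.neg_apply, L.inv]
  rw [h1, L.inv, ← lie_skew y (L.f c), lie_neg, map_neg, neg_neg, L.symm]

/-- The formula for `L(a)` of level `κ = k + h^∨`. -/
theorem tau_Lk (hv : ℂ) (hK : ∀ x y, L.trf x y = 2 * hv * L.form x y) (k : ℂ) (a : g)
    (ha : a ∈ L.bm) : ∑ b, (k * L.form a (L.e b) + L.tau a (L.e b)) • L.f b -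
      ∑ b, ⁅L.Pb ⁅L.e b, a⁆, L.f b⁆ = L.Lk (k + hv) a := by
  have hG := la_G L
  have hP := la_P L
  have hO := la_O L
  have hsplit : ∀ a, ∑ b, (k * L.form a (L.e b) + L.tau a (L.e b)) • L.f b =
      k • L.Pn a + L.Pn (∑ c, ⁅L.e c, ⁅L.f c, a⁆⁆) := by
    intro a
    rw [← tau_sum, hP.Pn_apply, Finset.smul_sum, ← Finset.sum_add_distrib]
    refine Finset.sum_congr rfl fun b _ => ?_
    rw [add_smul, mul_smul]
  obtain ⟨u, hu, y, hy, rfl⟩ := Submodule.mem_sup.1 ha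
  -- the Cartan part
  have hu1 : L.Pn u = 0 := hP.Pn_hs u hu
  have hu2 : L.Pn (∑ c, ⁅L.e c, ⁅L.f c, u⁆⁆) = 0 := by
    rw [← tau_sum]
    refine Finset.sum_eq_zero fun b _ => ?_
    have h1 : u ∈ L.gr 0 := by
      rw [hG.gr_zero]
      exact hu
    have h2 := L.ht_pos b
    rw [L.tau_gr 0 (L.ht b) (by omega) _ _ h1 (hG.e_gr b), zero_smul]
  have hu3 : ∀ b, L.Pb ⁅L.e b, u⁆ = 0 := by
    intro b
    refine hP.Pb_np _ ?_
    rw [← lie_skew]
    exact neg_mem (hG.hs_np u hu _ (Submodule.subset_span ⟨b, rfl⟩))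
  -- the nilpotent part
  have hyP : L.Pn y = y := hP.Pn_nm y hy
  set X := ∑ c, ⁅L.e c, ⁅L.f c, y⁆⁆ with hX
  set N := ∑ c, ⁅L.Pn ⁅L.e c, y⁆, L.f c⁆ with hN
  set H := ∑ c, ⁅L.Ph ⁅L.e c, y⁆, L.f c⁆ with hH
  set Q := ∑ c, ⁅L.Pp ⁅L.e c, y⁆, L.f c⁆ with hQ
  set D := ∑ i, ⁅L.h' i, ⁅L.h i, y⁆⁆ with hD
  have e1 : ∑ c, ⁅L.f c, ⁅L.e c, y⁆⁆ = -(Q + H + N) := by
    rw [hQ, hH, hN, ← Finset.sum_add_distrib, ← Finset.sum_add_distrib, ← Finset.sum_neg_distrib]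
    refine Finset.sum_congr rfl fun c _ => ?_
    rw [← add_lie, ← add_lie, hP.sum, lie_skew]
  have e2 : Q = -X := by
    have h1 : Q = ∑ d, ⁅L.e d, ⁅y, L.f d⁆⁆ := by
      rw [hQ]
      have h2 : ∀ c, ⁅L.Pp ⁅L.e c, y⁆, L.f c⁆ =
          ∑ d, L.form ⁅y, L.f d⁆ (L.e c) • ⁅L.e d, L.f c⁆ := by
        intro c
        rw [hP.Pp_apply, sum_lie]
        refine Finset.sum_congr rfl fun d _ => ?_
        rw [smul_lie, L.inv, L.symm]
      rw [Finset.sum_congr rfl fun c _ => h2 c, Finset.sum_comm]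
      refine Finset.sum_congr rfl fun d _ => ?_
      have h3 : ⁅y, L.f d⁆ = ∑ c, L.form ⁅y, L.f d⁆ (L.e c) • L.f c :=
        hP.nm_exp _ (hG.bm_nm y (hP.nm_le hy) _ (Submodule.subset_span ⟨d, rfl⟩))
      conv_rhs => rw [h3]
      rw [lie_sum]
      exact Finset.sum_congr rfl fun c _ => (lie_smul _ _ _).symm
    rw [h1, hX, ← Finset.sum_neg_distrib]
    refine Finset.sum_congr rfl fun d _ => ?_
    rw [← lie_neg, lie_skew]
  have e3 : H = -D := by
    have h1 : H = ∑ i, ⁅L.h i, ⁅y, L.h' i⁆⁆ := by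
      rw [hH]
      have h2 : ∀ c, ⁅L.Ph ⁅L.e c, y⁆, L.f c⁆ =
          ∑ i, L.form ⁅y, L.h' i⁆ (L.e c) • ⁅L.h i, L.f c⁆ := by
        intro c
        rw [hP.Ph_apply, sum_lie]
        refine Finset.sum_congr rfl fun i _ => ?_
        rw [smul_lie, L.inv, L.symm]
      rw [Finset.sum_congr rfl fun c _ => h2 c, Finset.sum_comm]
      refine Finset.sum_congr rfl fun i _ => ?_
      have h4 : ⁅y, L.h' i⁆ ∈ L.nm := by
        rw [← lie_skew]
        exact neg_mem (hG.bm_nm _ (hP.hs_le (hP.h'_mem i)) _ hy)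
      have h3 : ⁅y, L.h' i⁆ = ∑ c, L.form ⁅y, L.h' i⁆ (L.e c) • L.f c := hP.nm_exp _ h4
      conv_rhs => rw [h3]
      rw [lie_sum]
      exact Finset.sum_congr rfl fun c _ => (lie_smul _ _ _).symm
    rw [h1, hD, ← Finset.sum_neg_distrib]
    refine Finset.sum_congr rfl fun i _ => ?_
    have h5 : ⁅L.h' i, ⁅L.h i, y⁆⁆ = ⁅L.h i, ⁅L.h' i, y⁆⁆ := by
      rw [leibniz_lie (L.h' i), hG.hs_hs _ (hP.h'_mem i) _ (L.h_mem_hs i), zero_lie, zero_add]
    rw [h5, ← lie_neg, lie_skew]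
  have e4 := L.casimir hv hK y
  rw [← hX, ← hD, e1, e2, e3] at e4
  have hNm : N ∈ L.nm := Submodule.sum_mem _ fun c _ =>
    hG.bm_nm _ (hP.nm_le (hP.Pn_mem _)) _ (Submodule.subset_span ⟨c, rfl⟩)
  have hHm : H ∈ L.nm := Submodule.sum_mem _ fun c _ =>
    hG.bm_nm _ (hP.hs_le (hP.Ph_mem _)) _ (Submodule.subset_span ⟨c, rfl⟩)
  have e5 : X = hv • y + H + (1 / 2 : ℂ) • N := by
    rw [e3]
    have h6 : (2 : ℂ) • X = (2 * hv) • y - (2 : ℂ) • D + N := by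
      rw [← e4]
      module
    have h7 : X = (1 / 2 : ℂ) • ((2 : ℂ) • X) := by module
    rw [h7, h6]
    module
  have e6 : L.Pn X = X := by
    refine hP.Pn_nm _ ?_
    rw [e5]
    exact add_mem (add_mem (Submodule.smul_mem _ _ hy) hHm) (Submodule.smul_mem _ _ hNm)
  have e7 : ∑ b, ⁅L.Pb ⁅L.e b, y⁆, L.f b⁆ = H + N := by
    rw [hH, hN, ← Finset.sum_add_distrib]
    refine Finset.sum_congr rfl fun c _ => ?_
    rw [← add_lie]
    rfl
  have e8 : ∑ b, ⁅L.Pb ⁅L.e b, u + y⁆, L.f b⁆ = H + N := by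
    rw [← e7]
    refine Finset.sum_congr rfl fun b _ => ?_
    rw [lie_add, map_add, hu3, zero_add]
  have e9 : L.Pn (∑ c, ⁅L.e c, ⁅L.f c, u + y⁆⁆) = X := by
    rw [← e6, hX, ← zero_add (L.Pn (∑ c, ⁅L.e c, ⁅L.f c, y⁆⁆)), ← hu2, ← map_add,
      ← Finset.sum_add_distrib]
    congr 1
    refine Finset.sum_congr rfl fun c _ => ?_
    rw [lie_add, lie_add]
  have e10 : L.R y = (-(1 / 2 : ℂ)) • N := hO.R_apply y
  have e11 : L.Lk (k + hv) (u + y) = (k + hv) • y + (-(1 / 2 : ℂ)) • N := by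
    unfold Lk
    rw [LinearMap.add_apply, LinearMap.smul_apply, LinearMap.comp_apply, map_add, hu1, hyP,
      zero_add, e10]
  rw [hsplit, e8, e9, e11, map_add, hu1, hyP, zero_add, e5]
  module

end LD

end

end WPE
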