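import Pool.Agent.WPE.FB1
import Pool.Agent.WPE.KPH

/-! WPE, block FB2: matrices, the currents `Ĵ`. -/

set_option linter.unusedSectionVars false

namespace WPE

open scoped TensorProduct

noncomputable section

variable {g β η : Type} [LieRing g] [LieAlgebra ℂ g] [Fintype β] [DecidableEq β] [Fintype η]
  [DecidableEq η]

namespace LD

variable (L : LD g β η)

theorem adp_mul (x y : g) (t s : β) :
    (L.adp x * L.adp y) t s = L.form ⁅x, L.Pp ⁅y, L.e s⁆⁆ (L.f t) := by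
  rw [Matrix.mul_apply, (la_P L).Pp_apply, lie_sum, map_sum, LinearMap.sum_apply]
  refine Finset.sum_congr rfl fun u _ => ?_
  rw [lie_smul, map_smul, LinearMap.smul_apply, smul_eq_mul, mul_comm]
  rfl

theorem adp_mul_bm (a : L.bL) (y : g) (t s : β) :
    (L.adp (a : g) * L.adp y) t s = L.form ⁅(a : g), ⁅y, L.e s⁆⁆ (L.f t) := by
  have h1 : L.Pp ⁅y, L.e s⁆ = ⁅y, L.e s⁆ - L.Pb ⁅y, L.e s⁆ := by
    rw [(la_P L).Pb_eq, sub_sub_cancel]
  have h2 : L.form ⁅(a : g), L.Pb ⁅y, L.e s⁆⁆ (L.f t) = 0 :=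
    (L.mem_bm_iff _).1 (L.bm_bm _ a.2 _ ((la_P L).Pb_mem _)) t
  rw [adp_mul, h1, lie_sub, map_sub, LinearMap.sub_apply, h2, sub_zero]

theorem adp_mul_np (x y : g) (hy : y ∈ L.np) (t s : β) :
    (L.adp x * L.adp y) t s = L.form ⁅x, ⁅y, L.e s⁆⁆ (L.f t) := by
  rw [adp_mul, (la_P L).Pp_np]
  exact (la_G L).np_np y hy _ (Submodule.subset_span ⟨s, rfl⟩)

theorem e_np (s : β) : L.e s ∈ L.np := Submodule.subset_span ⟨s, rfl⟩

theorem adp_bm (a b : L.bL) : L.adp ((⁅a, b⁆ : L.bL) : g) =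
    L.adp (a : g) * L.adp (b : g) - L.adp (b : g) * L.adp (a : g) := by
  funext t s
  rw [Matrix.sub_apply, adp_mul_bm, adp_mul_bm, LieSubalgebra.coe_bracket, adp_apply, lie_lie,
    map_sub, LinearMap.sub_apply]

theorem adp_np (s t : β) : L.adp ⁅L.e s, L.e t⁆ =
    L.adp (L.e s) * L.adp (L.e t) - L.adp (L.e t) * L.adp (L.e s) := by
  funext u v
  rw [Matrix.sub_apply, adp_mul_np _ _ _ (L.e_np t), adp_mul_np _ _ _ (L.e_np s), adp_apply,
    lie_lie, map_sub, LinearMap.sub_apply]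

theorem adp_bn (a : L.bL) (s : β) : L.adp (a : g) * L.adp (L.e s) - L.adp (L.e s) * L.adp (a : g) =
    L.adp ⁅(a : g), L.e s⁆ + L.sm a s := by
  funext t b
  have h1 : L.Pp ⁅(a : g), L.e b⁆ = ⁅(a : g), L.e b⁆ - L.Pb ⁅(a : g), L.e b⁆ := by
    rw [(la_P L).Pb_eq, sub_sub_cancel]
  have h2 : L.sm a s t b = L.form ⁅L.e s, L.Pb ⁅(a : g), L.e b⁆⁆ (L.f t) := by
    show L.form ⁅L.Pb ⁅L.e b, (a : g)⁆, L.e s⁆ (L.f t) = _
    rw [← lie_skew (a : g) (L.e b), map_neg, ← lie_skew (L.e s), neg_lie, neg_neg]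
  rw [Matrix.sub_apply, Matrix.add_apply, h2, adp_mul_bm, adp_mul, h1, adp_apply, lie_lie,
    map_sub, LinearMap.sub_apply, lie_sub, map_sub, LinearMap.sub_apply]
  ring

theorem tr_bn0 (a : L.bL) (y : g) : (L.adp (a : g) * L.adp y).trace = L.tau (a : g) y := by
  unfold Matrix.trace tau
  refine Finset.sum_congr rfl fun c _ => ?_
  rw [Matrix.diag_apply, adp_mul_bm]

theorem tr_bm (hv : ℂ) (hK : ∀ x y, L.trf x y = 2 * hv * L.form x y) (a b : L.bL) :
    (L.adp (a : g) * L.adp (b : g)).trace = hv * L.form (a : g) (b : g) := by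
  rw [tr_bn0]
  exact L.tau_bm hv hK _ _ a.2 b.2

theorem tr_np (s t : β) : (L.adp (L.e s) * L.adp (L.e t)).trace = 0 := by
  have h1 : (L.adp (L.e s) * L.adp (L.e t)).trace = L.tau (L.e s) (L.e t) := by
    unfold Matrix.trace tau
    refine Finset.sum_congr rfl fun c _ => ?_
    rw [Matrix.diag_apply, adp_mul_np _ _ _ (L.e_np t)]
  rw [h1]
  have hs := L.ht_pos s
  exact L.tau_gr (L.ht s) (L.ht t) (by omega) _ _ ((la_G L).e_gr s) ((la_G L).e_gr t)

theorem tr_sm (a : L.bL) (s : β) : (L.sm a s).trace =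
    -L.form (L.e s) (∑ b, ⁅L.Pb ⁅L.e b, (a : g)⁆, L.f b⁆) := by
  unfold Matrix.trace
  rw [map_sum, ← Finset.sum_neg_distrib]
  refine Finset.sum_congr rfl fun c _ => ?_
  show L.form ⁅L.Pb ⁅L.e c, (a : g)⁆, L.e s⁆ (L.f c) = _
  rw [← lie_skew, map_neg, LinearMap.neg_apply, L.inv]

theorem coe_LkN (κ : ℂ) (a : L.bL) : ((L.LkN κ a : L.bL) : g) = L.Lk κ (a : g) :=
  (la_P L).Pn_nm _ ((la_O L).Lk_mem κ _)

theorem tr_bn (hv : ℂ) (hK : ∀ x y, L.trf x y = 2 * hv * L.form x y) (k : ℂ) (a : L.bL) (s : β) :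
    k * L.form (a : g) (L.e s) + (L.adp (a : g) * L.adp (L.e s)).trace + (L.sm a s).trace =
      L.form (L.e s) ((L.LkN (k + hv) a : L.bL) : g) := by
  rw [coe_LkN, tr_bn0, tr_sm, ← L.tau_Lk hv hK k (a : g) a.2, map_sub,
    map_sum (L.form (L.e s)) (fun b => (k * L.form (a : g) (L.e b) +
      L.tau (a : g) (L.e b)) • L.f b)]
  have h1 : ∑ b, L.form (L.e s) ((k * L.form (a : g) (L.e b) + L.tau (a : g) (L.e b)) • L.f b) =
      k * L.form (a : g) (L.e s) + L.tau (a : g) (L.e s) := by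
    rw [Finset.sum_eq_single s]
    · rw [map_smul, L.ef, if_pos rfl, smul_eq_mul, mul_one]
    · intro b _ hb
      rw [map_smul, L.ef, if_neg (Ne.symm hb), smul_zero]
    · intro h
      exact absurd (Finset.mem_univ s) h
  rw [h1]
  ring

end LD

namespace FC

variable {L : LD g β η} {k : ℂ} {E : Type} [AddCommGroup E] [Module ℂ E] (X : FC L k E)

theorem J_G (m n : ℤ) (x : g) (T : Matrix β β ℂ) (v : E) :
    X.J m x (X.G n T v) = X.G n T (X.J m x v) :=
  CAR.G_comm X.toCAR X.toCAR (X.J m x) (fun n s v => X.Jb m n x s v) (fun n s v => X.Jc m n x s v)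
    n T v

theorem Jh_b (m n : ℤ) (x : g) (s : β) (v : E) : X.Jh m x (X.b n s v) - X.b n s (X.Jh m x v) =
    ∑ t, L.form ⁅x, L.e s⁆ (L.f t) • X.b (m + n) t v := by
  rw [Jh_apply, LinearMap.add_apply, LinearMap.add_apply, map_add, X.Jb, add_sub_add_left_eq_sub]
  exact X.G_b m n (L.adp x) s v

theorem Jh_c (m n : ℤ) (x : g) (t : β) (v : E) : X.Jh m x (X.c n t v) - X.c n t (X.Jh m x v) =
    -∑ s, L.form ⁅x, L.e s⁆ (L.f t) • X.c (m + n) s v := by
  rw [Jh_apply, LinearMap.add_apply, LinearMap.add_apply, map_add, X.Jc, add_sub_add_left_eq_sub]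
  exact X.G_c m n (L.adp x) t v

theorem Jh_smooth (v : E) : ∃ M : ℤ, ∀ m ≥ M, ∀ x : g, X.Jh m x v = 0 := by
  obtain ⟨M, hM⟩ := X.smoothJ v
  obtain ⟨M', hM'⟩ := X.G_smooth v
  refine ⟨max M M', fun m hm x => ?_⟩
  rw [Jh_apply, LinearMap.add_apply, hM m (le_trans (le_max_left _ _) hm) x,
    hM' m (le_trans (le_max_right _ _) hm), add_zero]

/-- The commutator of two hatted currents. -/
theorem Jh_Jh' (m n : ℤ) (x y : g) (v : E) :
    X.Jh m x (X.Jh n y v) - X.Jh n y (X.Jh m x v) = X.J (m + n) ⁅x, y⁆ v +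
      X.G (m + n) (L.adp x * L.adp y - L.adp y * L.adp x) v +
      (if m + n = 0 then (m : ℂ) * (k * L.form x y + (L.adp x * L.adp y).trace) else 0) • v := by
  have h1 := X.comm m n x y v
  have h2 := X.G_G m n (L.adp x) (L.adp y) v
  have h3 : coc (k • L.form) m n x y + (if m + n = 0 then
      (m : ℂ) * (L.adp x * L.adp y).trace else 0) =
      if m + n = 0 then (m : ℂ) * (k * L.form x y + (L.adp x * L.adp y).trace) else 0 := by
    unfold coc
    by_cases h : m + n = 0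
    · rw [if_pos h, if_pos h, if_pos h, LinearMap.smul_apply, LinearMap.smul_apply, smul_eq_mul]
      ring
    · rw [if_neg h, if_neg h, if_neg h, add_zero]
  rw [← h3, add_smul]
  simp only [Jh_apply, LinearMap.add_apply, map_add]
  rw [X.J_G m n x, X.J_G n m y]
  have e : ∀ a b c d e f : E, a + b + (c + d) - (e + c + (b + f)) = (a - e) + (d - f) := by
    intros; abel
  rw [e, h1, h2]
  abel

theorem Jh_Jh (hv : ℂ) (hK : ∀ x y, L.trf x y = 2 * hv * L.form x y) (m n : ℤ) (a b : L.bL)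
    (v : E) : X.Jh m (a : g) (X.Jh n (b : g) v) - X.Jh n (b : g) (X.Jh m (a : g) v) =
      X.Jh (m + n) ((⁅a, b⁆ : L.bL) : g) v + coc (L.kb (k + hv)) m n a b • v := by
  rw [X.Jh_Jh', ← L.adp_bm, L.tr_bm hv hK, Jh_apply, LinearMap.add_apply]
  congr 2
  unfold coc
  by_cases h : m + n = 0
  · rw [if_pos h, if_pos h, LD.kb_apply]
    ring
  · rw [if_neg h, if_neg h]

theorem psi_apply' (m : ℤ) (y : L.nL) (v : E) :
    X.psi m y v = ∑ s, L.form (L.e s) ((y : L.bL) : g) • X.c m s v := by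
  rw [psi_apply, LinearMap.sum_apply]
  rfl

theorem Jh_psi (m n : ℤ) (a : L.bL) (y : L.nL) (v : E) :
    X.Jh m (a : g) (X.psi n y v) - X.psi n y (X.Jh m (a : g) v) = X.psi (m + n) ⁅a, y⁆ v := by
  rw [psi_apply', psi_apply', psi_apply', map_sum, ← Finset.sum_sub_distrib]
  have h1 : ∀ t, X.Jh m (a : g) (L.form (L.e t) ((y : L.bL) : g) • X.c n t v) -
      L.form (L.e t) ((y : L.bL) : g) • X.c n t (X.Jh m (a : g) v) =
      ∑ s, (-(L.form (L.e t) ((y : L.bL) : g) * L.form ⁅(a : g), L.e s⁆ (L.f t))) •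
        X.c (m + n) s v := by
    intro t
    rw [map_smul, ← smul_sub, X.Jh_c, smul_neg, Finset.smul_sum, ← Finset.sum_neg_distrib]
    refine Finset.sum_congr rfl fun s _ => ?_
    rw [smul_smul, neg_smul]
  rw [Finset.sum_congr rfl fun t _ => h1 t, Finset.sum_comm]
  refine Finset.sum_congr rfl fun s _ => ?_
  rw [← Finset.sum_smul]
  congr 1
  have h2 : (((⁅a, y⁆ : L.nL) : L.bL) : g) = ⁅(a : g), ((y : L.bL) : g)⁆ := rfl
  have h3 : ((y : L.bL) : g) = ∑ t, L.form ((y : L.bL) : g) (L.e t) • L.f t :=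
    (la_P L).nm_exp _ y.2
  have h5 : L.form ⁅L.e s, (a : g)⁆ ((y : L.bL) : g) =
      -L.form ⁅(a : g), L.e s⁆ ((y : L.bL) : g) := by
    rw [← lie_skew, map_neg, LinearMap.neg_apply]
  rw [h2, ← L.inv, h5, Finset.sum_neg_distrib]
  congr 1
  have h4 : L.form ⁅(a : g), L.e s⁆ ((y : L.bL) : g) =
      ∑ t, L.form ((y : L.bL) : g) (L.e t) * L.form ⁅(a : g), L.e s⁆ (L.f t) := by
    conv_lhs => rw [h3]
    rw [map_sum]
    refine Finset.sum_congr rfl fun t _ => ?_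
    rw [map_smul, smul_eq_mul]
  rw [h4]
  refine Finset.sum_congr rfl fun t _ => ?_
  rw [L.symm]

theorem psi_psi (m n : ℤ) (y z : L.nL) (v : E) :
    X.psi m y (X.psi n z v) + X.psi n z (X.psi m y v) = 0 := by
  have h1 : ∀ (m n : ℤ) (y z : L.nL), X.psi m y (X.psi n z v) = ∑ s, ∑ t,
      (L.form (L.e s) ((y : L.bL) : g) * L.form (L.e t) ((z : L.bL) : g)) •
        X.c m s (X.c n t v) := by
    intro m n y z
    rw [psi_apply', psi_apply']
    refine Finset.sum_congr rfl fun s _ => ?_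
    rw [map_sum, Finset.smul_sum]
    refine Finset.sum_congr rfl fun t _ => ?_
    rw [map_smul, smul_smul]
  rw [h1, h1 n m z y, Finset.sum_comm (f := fun s t => (L.form (L.e s) ((z : L.bL) : g) *
    L.form (L.e t) ((y : L.bL) : g)) • X.c n s (X.c m t v)), ← Finset.sum_add_distrib]
  refine Finset.sum_eq_zero fun s _ => ?_
  rw [← Finset.sum_add_distrib]
  refine Finset.sum_eq_zero fun t _ => ?_
  rw [mul_comm (L.form (L.e t) ((z : L.bL) : g)), ← smul_add, X.cc, smul_zero]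

theorem psi_smooth (v : E) : ∃ M : ℤ, ∀ m ≥ M, ∀ y : L.nL, X.psi m y v = 0 := by
  obtain ⟨M, hM⟩ := X.smooth v
  refine ⟨M, fun m hm y => ?_⟩
  rw [psi_apply']
  refine Finset.sum_eq_zero fun s _ => ?_
  rw [(hM m hm s).2, smul_zero]

theorem psi_fN (m : ℤ) (s : β) : X.psi m (L.fN s) = X.c m s := by
  rw [psi_apply]
  rw [Finset.sum_eq_single s]
  · show L.form (L.e s) (L.f s) • X.c m s = _
    rw [L.ef, if_pos rfl, one_smul]
  · intro t _ ht
    show L.form (L.e t) (L.f s) • X.c m t = _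
    rw [L.ef, if_neg ht, zero_smul]
  · intro h
    exact absurd (Finset.mem_univ s) h

/-- `E` as a module with currents of `b₋` of level `κ = k + h^∨` and ghosts. -/
def gm (hv κ : ℂ) (hκ : k + hv = κ) (hK : ∀ x y, L.trf x y = 2 * hv * L.form x y) :
    GMod L.bL L.nL (L.kb κ) E where
  J := fun m => X.Jh m ∘ₗ L.jb
  comm := fun m n a b v => by
    rw [← hκ]
    exact X.Jh_Jh hv hK m n a b v
  ψ := X.psi
  commψ := fun m n a y v => X.Jh_psi m n a y v
  anti := X.psi_psi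
  smooth := fun v => by
    obtain ⟨M, hM⟩ := X.Jh_smooth v
    exact ⟨M, fun m hm a => hM m hm a⟩
  smoothψ := X.psi_smooth

theorem gm_J (hv κ : ℂ) (hκ : k + hv = κ) (hK : ∀ x y, L.trf x y = 2 * hv * L.form x y) (m : ℤ)
    (a : L.bL) (v : E) : (X.gm hv κ hκ hK).J m a v = X.Jh m (a : g) v := rfl

theorem gm_psi (hv κ : ℂ) (hκ : k + hv = κ) (hK : ∀ x y, L.trf x y = 2 * hv * L.form x y) (m : ℤ)
    (y : L.nL) (v : E) : (X.gm hv κ hκ hK).ψ m y v = X.psi m y v := rfl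

end FC

end

end WPE
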