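import Pool.Agent.WPE.BRL
import Pool.Agent.WPE.FB2

/-! WPE, block FB3: the differential `Q` on ghosts, the operators `A_s(n)`. -/

set_option linter.unusedSectionVars false

namespace WPE

open scoped TensorProduct

noncomputable section

section lf

variable {K ι : Type} {E E' : Type} [AddCommGroup E] [Module ℂ E] [AddCommGroup E'] [Module ℂ E']

theorem lf_zero : LF (fun _ : K => (0 : E →ₗ[ℂ] E')) := LF.of_finset fun _ => ⟨∅, fun _ _ => rfl⟩

theorem LF.fsum (S : Finset ι) {f : ι → K → E →ₗ[ℂ] E'} (hf : ∀ i, LF (f i)) :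
    LF (fun k => ∑ i ∈ S, f i k) := by
  classical
  induction S using Finset.induction_on with
  | empty =>
    have h : (fun k => ∑ i ∈ (∅ : Finset ι), f i k) = fun _ => 0 := funext fun k => rfl
    rw [h]
    exact lf_zero
  | insert a S ha ih =>
    have h : (fun k => ∑ i ∈ insert a S, f i k) = fun k => f a k + ∑ i ∈ S, f i k :=
      funext fun k => Finset.sum_insert ha
    rw [h]
    exact (hf a).add ih

theorem psum_fsum (S : Finset ι) {f : ι → K → E →ₗ[ℂ] E'} (hf : ∀ i, LF (f i)) :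
    psum (fun k => ∑ i ∈ S, f i k) = ∑ i ∈ S, psum (f i) := by
  classical
  induction S using Finset.induction_on with
  | empty =>
    have h : (fun k => ∑ i ∈ (∅ : Finset ι), f i k) = fun _ => 0 := funext fun k => rfl
    rw [h, psum_zero, Finset.sum_empty]
  | insert a S ha ih =>
    have h : (fun k => ∑ i ∈ insert a S, f i k) = fun k => f a k + ∑ i ∈ S, f i k :=
      funext fun k => Finset.sum_insert ha
    rw [h, psum_add (hf a) (LF.fsum S hf), ih, Finset.sum_insert ha]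

theorem LF.fst {f : ℤ × ℤ → E →ₗ[ℂ] E'} (hf : LF f) (m : ℤ) : LF (fun r => f (m, r)) := by
  classical
  refine LF.of_finset fun x => ?_
  obtain ⟨S, hS⟩ := hf.exists_finset x
  refine ⟨S.image Prod.snd, fun r hr => hS _ fun hc => hr ?_⟩
  exact Finset.mem_image.2 ⟨_, hc, rfl⟩

theorem LF.curry {f : ℤ × ℤ → E →ₗ[ℂ] E'} (hf : LF f) :
    LF (fun m => psum (fun r => f (m, r))) := by
  classical
  refine LF.of_finset fun x => ?_
  obtain ⟨S, hS⟩ := hf.exists_finset x
  refine ⟨S.image Prod.fst, fun m hm => ?_⟩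
  rw [psum_eq_sum (hf.fst m) x ∅, Finset.sum_empty]
  intro r _
  exact hS _ fun hc => hm (Finset.mem_image.2 ⟨_, hc, rfl⟩)

theorem psum_curry {f : ℤ × ℤ → E →ₗ[ℂ] E'} (hf : LF f) :
    psum f = psum (fun m => psum (fun r => f (m, r))) := by
  refine LinearMap.ext fun x => ?_
  rw [psum_apply hf, psum_apply hf.curry, finsum_curry _ (hf x)]
  exact finsum_congr fun m => (psum_apply (hf.fst m) x).symm

end lf

variable {g β η : Type} [LieRing g] [LieAlgebra ℂ g] [Fintype β] [DecidableEq β] [Fintype η]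
  [DecidableEq η] {L : LD g β η} {k : ℂ} {E : Type} [AddCommGroup E] [Module ℂ E]

namespace LD

variable (L : LD g β η)

theorem adp_diag (s u : β) : L.adp (L.e s) u u = 0 := by
  have hG := la_G L
  have h := L.ht_pos s
  rw [L.adp_apply]
  exact hG.form_gr (L.ht s + L.ht u) (-(L.ht u : ℤ)) (by omega) _
    (hG.lie_gr _ _ _ (hG.e_gr s) _ (hG.e_gr u)) _ (hG.f_gr u)

theorem adp_row (s u : β) : L.adp (L.e s) s u = 0 := by
  have hG := la_G L
  have h := L.ht_pos u
  rw [L.adp_apply]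
  exact hG.form_gr (L.ht s + L.ht u) (-(L.ht s : ℤ)) (by omega) _
    (hG.lie_gr _ _ _ (hG.e_gr s) _ (hG.e_gr u)) _ (hG.f_gr s)

theorem adp_swap (s t u : β) : L.adp (L.e t) u s = -L.adp (L.e s) u t := by
  rw [L.adp_apply, L.adp_apply, ← lie_skew, map_neg, LinearMap.neg_apply]

theorem e_mem_np (s : β) : L.e s ∈ L.np := Submodule.subset_span ⟨s, rfl⟩

theorem lie_e_exp (s t : β) : ⁅L.e s, L.e t⁆ = ∑ u, L.form ⁅L.e s, L.e t⁆ (L.f u) • L.e u :=
  (la_P L).np_exp _ ((la_G L).np_np _ (L.e_mem_np s) _ (L.e_mem_np t))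

theorem form_F_np (s t : β) : L.form L.F ⁅L.e s, L.e t⁆ = 0 := by
  have hG := la_G L
  have h := L.ht_pos s
  have h' := L.ht_pos t
  exact hG.form_gr (-1) (L.ht s + L.ht t) (by omega) _ hG.F_gr _
    (hG.lie_gr _ _ _ (hG.e_gr s) _ (hG.e_gr t))

end LD

namespace FC

variable (X : FC L k E)

theorem QT_apply (m : ℤ) (v : E) : X.QT m v = ∑ s, (X.J (-1 - m) (L.e s) (X.c m s v) +
    (1 / 2 : ℂ) • X.G (-1 - m) (L.adp (L.e s)) (X.c m s v)) := by
  unfold QT
  rw [LinearMap.sum_apply]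
  rfl

theorem G_c_self (n m : ℤ) (s : β) (v : E) : X.G n (L.adp (L.e s)) (X.c m s v) =
    X.c m s (X.G n (L.adp (L.e s)) v) := by
  have h := X.toCAR.G_c n m (L.adp (L.e s)) s v
  rw [Finset.sum_eq_zero (fun u _ => by rw [L.adp_row, zero_smul]), neg_zero, sub_eq_zero] at h
  exact h

theorem lf_JC (s : β) : LF (fun m : ℤ => X.J (-1 - m) (L.e s) ∘ₗ X.c m s) := by
  refine LF.of_finset fun x => ?_
  obtain ⟨M, hM⟩ := X.smooth x
  obtain ⟨M', hM'⟩ := X.smoothJ x
  refine ⟨Finset.Icc (-1 - M') M, fun m hm => ?_⟩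
  rw [Finset.mem_Icc, not_and_or, not_le, not_le] at hm
  rw [LinearMap.comp_apply]
  rcases hm with hm | hm
  · rw [X.Jc, hM' _ (by omega), map_zero]
  · rw [(hM m (by omega) s).2, map_zero]

theorem lf_GC (s : β) : LF (fun m : ℤ => X.G (-1 - m) (L.adp (L.e s)) ∘ₗ X.c m s) := by
  refine LF.of_finset fun x => ?_
  obtain ⟨M, hM⟩ := X.smooth x
  obtain ⟨M', hM'⟩ := X.toCAR.G_smooth x
  refine ⟨Finset.Icc (-1 - M') M, fun m hm => ?_⟩
  rw [Finset.mem_Icc, not_and_or, not_le, not_le] at hm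
  rw [LinearMap.comp_apply]
  rcases hm with hm | hm
  · rw [G_c_self, hM' _ (by omega), map_zero]
  · rw [(hM m (by omega) s).2, map_zero]

theorem QT_eq : X.QT = fun m => ∑ s, (X.J (-1 - m) (L.e s) ∘ₗ X.c m s +
    (1 / 2 : ℂ) • (X.G (-1 - m) (L.adp (L.e s)) ∘ₗ X.c m s)) := by
  funext m
  refine Finset.sum_congr rfl fun s _ => ?_
  rw [LinearMap.add_comp, LinearMap.smul_comp]

theorem lf_QT : LF X.QT := by
  rw [QT_eq]
  exact LF.fsum _ fun s => (X.lf_JC s).add ((X.lf_GC s).smul _)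

theorem psum_QT : psum X.QT = ∑ s, (psum (fun m : ℤ => X.J (-1 - m) (L.e s) ∘ₗ X.c m s) +
    (1 / 2 : ℂ) • psum (fun m : ℤ => X.G (-1 - m) (L.adp (L.e s)) ∘ₗ X.c m s)) := by
  rw [QT_eq, psum_fsum _ fun s => (X.lf_JC s).add ((X.lf_GC s).smul _)]
  refine Finset.sum_congr rfl fun s _ => ?_
  rw [psum_add (X.lf_JC s) ((X.lf_GC s).smul _), psum_smul _ (X.lf_GC s)]

/-- With the structure constants the order of `b` and `c` is irrelevant. -/
theorem no_coef (s u t : β) (n m : ℤ) (v : E) : L.adp (L.e s) u t • X.no n u t m v =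
    L.adp (L.e s) u t • X.b (n - 1 - m) u (X.c m t v) := by
  by_cases hut : u = t
  · subst hut
    rw [L.adp_diag, zero_smul, zero_smul]
  · congr 1
    unfold CAR.no
    by_cases h : 0 ≤ m
    · rw [if_pos h]
      rfl
    · rw [if_neg h]
      have h1 := X.bc (n - 1 - m) m u t v
      rw [if_neg (fun hc => hut hc.1)] at h1
      show -X.c m t (X.b (n - 1 - m) u v) = _
      rw [← eq_neg_of_add_eq_zero_left h1]

theorem QT_b (m n : ℤ) (s : β) (v : E) : X.QT m (X.b n s v) + X.b n s (X.QT m v) =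
    (if m = -1 - n then X.J n (L.e s) v + (1 / 2 : ℂ) • X.G n (L.adp (L.e s)) v else 0) +
      (1 / 2 : ℂ) • ∑ u, ∑ t, L.adp (L.e s) u t • X.no n u t m v := by
  have h1 : ∀ t, (X.J (-1 - m) (L.e t) (X.c m t (X.b n s v)) +
      (1 / 2 : ℂ) • X.G (-1 - m) (L.adp (L.e t)) (X.c m t (X.b n s v))) +
      X.b n s (X.J (-1 - m) (L.e t) (X.c m t v) +
        (1 / 2 : ℂ) • X.G (-1 - m) (L.adp (L.e t)) (X.c m t v)) =
      (if s = t then (if m = -1 - n then X.J n (L.e s) v + (1 / 2 : ℂ) •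
        X.G n (L.adp (L.e s)) v else 0) else 0) +
        (1 / 2 : ℂ) • ∑ u, L.adp (L.e s) u t • X.no n u t m v := by
    intro t
    have e1 : X.c m t (X.b n s v) = (if s = t ∧ n + m + 1 = 0 then v else 0) -
        X.b n s (X.c m t v) := by
      rw [← X.bc]
      abel
    have e2 := X.toCAR.G_b (-1 - m) n (L.adp (L.e t)) s (X.c m t v)
    have e3 : X.G (-1 - m) (L.adp (L.e t)) (X.b n s (X.c m t v)) =
        X.b n s (X.G (-1 - m) (L.adp (L.e t)) (X.c m t v)) -
          ∑ u, L.adp (L.e s) u t • X.no n u t m v := by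
      rw [eq_sub_iff_add_eq, ← sub_eq_zero, add_sub_right_comm, e2, ← Finset.sum_add_distrib]
      refine Finset.sum_eq_zero fun u _ => ?_
      have e4 : -1 - m + n = n - 1 - m := by omega
      rw [no_coef, e4, L.adp_swap s t u, neg_smul, neg_add_cancel]
    rw [e1, map_sub, map_sub, X.Jb, e3, map_add, map_smul]
    have e5 : X.J (-1 - m) (L.e t) (if s = t ∧ n + m + 1 = 0 then v else 0) +
        (1 / 2 : ℂ) • X.G (-1 - m) (L.adp (L.e t)) (if s = t ∧ n + m + 1 = 0 then v else 0) =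
        if s = t then (if m = -1 - n then X.J n (L.e s) v + (1 / 2 : ℂ) •
          X.G n (L.adp (L.e s)) v else 0) else 0 := by
      by_cases hs : s = t
      · by_cases hm : m = -1 - n
        · have hm' : -1 - m = n := by omega
          rw [if_pos ⟨hs, by omega⟩, if_pos hs, if_pos hm, hm', hs]
        · rw [if_neg (fun hc => hm (by omega)), if_pos hs, if_neg hm, map_zero, map_zero,
            smul_zero, add_zero]
      · rw [if_neg (fun hc => hs hc.1), if_neg hs, map_zero, map_zero, smul_zero, add_zero]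
    rw [← e5]
    module
  rw [QT_apply, QT_apply, map_sum, ← Finset.sum_add_distrib, Finset.sum_congr rfl fun t _ => h1 t,
    Finset.sum_add_distrib, Finset.sum_ite_eq Finset.univ s, if_pos (Finset.mem_univ _),
    ← Finset.smul_sum]
  congr 2
  exact Finset.sum_comm

theorem QT_c (m n : ℤ) (t : β) (v : E) : X.QT m (X.c n t v) + X.c n t (X.QT m v) =
    (-(1 / 2 : ℂ)) • ∑ s, ∑ u, L.form ⁅L.e s, L.e u⁆ (L.f t) •
      X.c m s (X.c (n - 1 - m) u v) := by
  rw [QT_apply, QT_apply, map_sum, ← Finset.sum_add_distrib, Finset.smul_sum]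
  refine Finset.sum_congr rfl fun s _ => ?_
  have e1 : X.c m s (X.c n t v) = -X.c n t (X.c m s v) :=
    eq_neg_of_add_eq_zero_left (X.cc m n s t v)
  have e2 := X.toCAR.G_c (-1 - m) n (L.adp (L.e s)) t (X.c m s v)
  have e3 : X.G (-1 - m) (L.adp (L.e s)) (X.c n t (X.c m s v)) =
      X.c n t (X.G (-1 - m) (L.adp (L.e s)) (X.c m s v)) +
        ∑ u, L.form ⁅L.e s, L.e u⁆ (L.f t) • X.c m s (X.c (n - 1 - m) u v) := by
    rw [← sub_eq_iff_eq_add', e2, ← Finset.sum_neg_distrib]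
    refine Finset.sum_congr rfl fun u _ => ?_
    have e4 : -1 - m + n = n - 1 - m := by omega
    rw [e4, L.adp_apply, ← smul_neg]
    congr 1
    rw [neg_eq_iff_add_eq_zero]
    exact X.cc _ _ _ _ _
  rw [e1, map_neg, map_neg, X.Jc, e3, map_add, map_smul]
  module

theorem Q_apply (v : E) : X.Q v = psum X.QT v + ∑ s, L.form L.F (L.e s) • X.c 0 s v := by
  unfold Q
  rw [LinearMap.add_apply, LinearMap.sum_apply]
  rfl

theorem psum_anti {K : Type} {F : K → E →ₗ[ℂ] E} (hF : LF F) (G : E →ₗ[ℂ] E) (x : E) :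
    psum F (G x) + G (psum F x) = psum (fun k => F k ∘ₗ G + G ∘ₗ F k) x := by
  rw [psum_add (hF.comp_right G) (hF.comp_left G), LinearMap.add_apply, ← psum_comp hF,
    ← comp_psum hF]
  rfl

theorem lf_sm (s : β) (n : ℤ) : LF (fun m : ℤ => ∑ u, ∑ t, L.adp (L.e s) u t • X.no n u t m) :=
  LF.fsum _ fun u => LF.fsum _ fun t => (X.toCAR.lf_no n u t).smul _

theorem Q_b (n : ℤ) (s : β) (v : E) : X.Q (X.b n s v) + X.b n s (X.Q v) = X.A n s v := by
  have e1 : psum X.QT (X.b n s v) + X.b n s (psum X.QT v) =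
      X.J n (L.e s) v + X.G n (L.adp (L.e s)) v := by
    have h1 : (fun m => X.QT m ∘ₗ X.b n s + X.b n s ∘ₗ X.QT m) = fun m =>
        (if m = -1 - n then X.J n (L.e s) + (1 / 2 : ℂ) • X.G n (L.adp (L.e s)) else 0) +
          (1 / 2 : ℂ) • ∑ u, ∑ t, L.adp (L.e s) u t • X.no n u t m := by
      funext m
      refine LinearMap.ext fun v => ?_
      refine (X.QT_b m n s v).trans ?_
      rw [LinearMap.add_apply, LinearMap.smul_apply, LinearMap.sum_apply]
      congr 1
      · by_cases hm : m = -1 - n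
        · rw [if_pos hm, if_pos hm]
          rfl
        · rw [if_neg hm, if_neg hm]
          rfl
      · congr 1
        refine Finset.sum_congr rfl fun u _ => ?_
        rw [LinearMap.sum_apply]
        rfl
    have lf1 : LF (fun m : ℤ => if m = -1 - n then X.J n (L.e s) +
        (1 / 2 : ℂ) • X.G n (L.adp (L.e s)) else 0) := LF.of_finset fun x =>
      ⟨{-1 - n}, fun m hm => by
        rw [Finset.mem_singleton] at hm
        rw [if_neg hm]
        rfl⟩
    have h2 : psum (fun m : ℤ => ∑ u, ∑ t, L.adp (L.e s) u t • X.no n u t m) =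
        X.G n (L.adp (L.e s)) := by
      refine (psum_fsum Finset.univ (f := fun (u : β) (m : ℤ) => ∑ t, L.adp (L.e s) u t •
        X.no n u t m) fun u => LF.fsum _ fun t => (X.toCAR.lf_no n u t).smul _).trans ?_
      rw [CAR.G_eq]
      refine Finset.sum_congr rfl fun u _ => ?_
      refine (psum_fsum Finset.univ (f := fun (t : β) (m : ℤ) => L.adp (L.e s) u t •
        X.no n u t m) fun t => (X.toCAR.lf_no n u t).smul _).trans ?_
      exact Finset.sum_congr rfl fun t _ => psum_smul _ (X.toCAR.lf_no n u t)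
    rw [psum_anti X.lf_QT, h1, psum_add lf1 ((X.lf_sm s n).smul _), psum_single,
      psum_smul _ (X.lf_sm s n), h2, LinearMap.add_apply, LinearMap.add_apply,
      LinearMap.smul_apply, add_assoc, ← add_smul]
    norm_num
  have e2 : (∑ t, L.form L.F (L.e t) • X.c 0 t (X.b n s v)) +
      X.b n s (∑ t, L.form L.F (L.e t) • X.c 0 t v) =
      if n = -1 then L.form L.F (L.e s) • v else 0 := by
    rw [map_sum, ← Finset.sum_add_distrib]
    have h : ∀ t, L.form L.F (L.e t) • X.c 0 t (X.b n s v) +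
        X.b n s (L.form L.F (L.e t) • X.c 0 t v) =
        if s = t then (if n = -1 then L.form L.F (L.e s) • v else 0) else 0 := by
      intro t
      rw [map_smul, ← smul_add, add_comm (X.c 0 t _), X.bc]
      by_cases hs : s = t
      · by_cases hn : n = -1
        · rw [if_pos ⟨hs, by omega⟩, if_pos hs, if_pos hn, hs]
        · rw [if_neg (fun hc => hn (by omega)), if_pos hs, if_neg hn, smul_zero]
      · rw [if_neg (fun hc => hs hc.1), if_neg hs, smul_zero]
    rw [Finset.sum_congr rfl fun t _ => h t, Finset.sum_ite_eq Finset.univ s,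
      if_pos (Finset.mem_univ _)]
  rw [Q_apply, Q_apply, map_add]
  have e3 : psum X.QT (X.b n s v) + (∑ t, L.form L.F (L.e t) • X.c 0 t (X.b n s v)) +
      (X.b n s (psum X.QT v) + X.b n s (∑ t, L.form L.F (L.e t) • X.c 0 t v)) =
      (psum X.QT (X.b n s v) + X.b n s (psum X.QT v)) +
      ((∑ t, L.form L.F (L.e t) • X.c 0 t (X.b n s v)) +
      X.b n s (∑ t, L.form L.F (L.e t) • X.c 0 t v)) := by abel
  rw [e3, e1, e2]
  unfold A
  rw [LinearMap.add_apply, Jh_apply]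
  congr 1
  by_cases hn : n = -1
  · rw [if_pos hn, if_pos hn]
    rfl
  · rw [if_neg hn, if_neg hn]
    rfl

theorem lf_cc (n : ℤ) (s u : β) : LF (fun r : ℤ => X.c r s ∘ₗ X.c (n - 1 - r) u) := by
  refine LF.of_finset fun x => ?_
  obtain ⟨M, hM⟩ := X.smooth x
  refine ⟨Finset.Icc (n - 1 - M) M, fun r hr => ?_⟩
  rw [Finset.mem_Icc, not_and_or, not_le, not_le] at hr
  rw [LinearMap.comp_apply]
  rcases hr with hr | hr
  · rw [(hM _ (by omega) u).2, map_zero]
  · rw [eq_neg_of_add_eq_zero_left (X.cc r (n - 1 - r) s u x), (hM _ (by omega) s).2, map_zero,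
      neg_zero]

/-- `{Q, c_t(n)}` without the module structure. -/
theorem Q_c (n : ℤ) (t : β) (v : E) : X.Q (X.c n t v) + X.c n t (X.Q v) =
    (-(1 / 2 : ℂ)) • ∑ s, ∑ u, L.form ⁅L.e s, L.e u⁆ (L.f t) •
      (psum fun r : ℤ => X.c r s ∘ₗ X.c (n - 1 - r) u) v := by
  have lf1 : ∀ s, LF (fun m : ℤ => ∑ u, L.form ⁅L.e s, L.e u⁆ (L.f t) •
      (X.c m s ∘ₗ X.c (n - 1 - m) u)) := fun s => LF.fsum _ fun u => (X.lf_cc n s u).smul _
  have e1 : psum X.QT (X.c n t v) + X.c n t (psum X.QT v) =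
      (-(1 / 2 : ℂ)) • ∑ s, ∑ u, L.form ⁅L.e s, L.e u⁆ (L.f t) •
      (psum fun r : ℤ => X.c r s ∘ₗ X.c (n - 1 - r) u) v := by
    have h1 : (fun m => X.QT m ∘ₗ X.c n t + X.c n t ∘ₗ X.QT m) = fun m =>
        (-(1 / 2 : ℂ)) • ∑ s, ∑ u, L.form ⁅L.e s, L.e u⁆ (L.f t) •
          (X.c m s ∘ₗ X.c (n - 1 - m) u) := by
      funext m
      refine LinearMap.ext fun v => ?_
      refine (X.QT_c m n t v).trans ?_
      rw [LinearMap.smul_apply, LinearMap.sum_apply]
      congr 1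
      refine Finset.sum_congr rfl fun u _ => ?_
      rw [LinearMap.sum_apply]
      rfl
    rw [psum_anti X.lf_QT, h1, psum_smul _ (LF.fsum _ lf1), psum_fsum _ lf1, LinearMap.smul_apply,
      LinearMap.sum_apply]
    congr 1
    refine Finset.sum_congr rfl fun s _ => ?_
    rw [psum_fsum _ fun u => (X.lf_cc n s u).smul _, LinearMap.sum_apply]
    refine Finset.sum_congr rfl fun u _ => ?_
    rw [psum_smul _ (X.lf_cc n s u)]
    rfl
  have e2 : (∑ s, L.form L.F (L.e s) • X.c 0 s (X.c n t v)) +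
      X.c n t (∑ s, L.form L.F (L.e s) • X.c 0 s v) = 0 := by
    rw [map_sum, ← Finset.sum_add_distrib]
    refine Finset.sum_eq_zero fun s _ => ?_
    rw [map_smul, ← smul_add, X.cc, smul_zero]
  rw [Q_apply, Q_apply, map_add]
  have e3 : psum X.QT (X.c n t v) + (∑ s, L.form L.F (L.e s) • X.c 0 s (X.c n t v)) +
      (X.c n t (psum X.QT v) + X.c n t (∑ s, L.form L.F (L.e s) • X.c 0 s v)) =
      (psum X.QT (X.c n t v) + X.c n t (psum X.QT v)) +
      ((∑ s, L.form L.F (L.e s) • X.c 0 s (X.c n t v)) +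
      X.c n t (∑ s, L.form L.F (L.e s) • X.c 0 s v)) := by abel
  rw [e3, e1, e2, add_zero]

theorem psi_sum (n : ℤ) (y : L.nL) (v : E) :
    X.psi n y v = ∑ s, L.form (L.e s) ((y : L.bL) : g) • X.c n s v := by
  rw [psi_apply, LinearMap.sum_apply]
  rfl

theorem Q_psi (hv κ : ℂ) (hκ : k + hv = κ) (hK : ∀ x y, L.trf x y = 2 * hv * L.form x y) (n : ℤ)
    (y : L.nL) (v : E) :
    X.Q (X.psi n y v) + X.psi n y (X.Q v) = (L.qd κ).qp (X.gm hv κ hκ hK) n y v := by
  have hP := la_P L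
  have e1 : X.Q (X.psi n y v) + X.psi n y (X.Q v) = (-(1 / 2 : ℂ)) • ∑ u, ∑ s,
      (∑ t, L.form (L.e t) ((y : L.bL) : g) * L.form ⁅L.e s, L.e u⁆ (L.f t)) •
        (psum fun r : ℤ => X.c r s ∘ₗ X.c (n - 1 - r) u) v := by
    rw [psi_sum, psi_sum, map_sum, ← Finset.sum_add_distrib]
    have h : ∀ t, X.Q (L.form (L.e t) ((y : L.bL) : g) • X.c n t v) +
        L.form (L.e t) ((y : L.bL) : g) • X.c n t (X.Q v) =
        ∑ u, ∑ s, ((-(1 / 2 : ℂ)) * (L.form (L.e t) ((y : L.bL) : g) *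
          L.form ⁅L.e s, L.e u⁆ (L.f t))) • (psum fun r : ℤ => X.c r s ∘ₗ X.c (n - 1 - r) u) v := by
      intro t
      rw [map_smul, ← smul_add, Q_c, Finset.smul_sum, Finset.smul_sum, Finset.sum_comm]
      refine Finset.sum_congr rfl fun s _ => ?_
      rw [Finset.smul_sum, Finset.smul_sum]
      refine Finset.sum_congr rfl fun u _ => ?_
      rw [smul_smul, smul_smul]
      congr 1
      ring
    rw [Finset.sum_congr rfl fun t _ => h t, Finset.sum_comm, Finset.smul_sum]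
    refine Finset.sum_congr rfl fun u _ => ?_
    rw [Finset.sum_comm, Finset.smul_sum]
    refine Finset.sum_congr rfl fun s _ => ?_
    rw [← Finset.sum_smul, smul_smul, Finset.mul_sum]
  rw [e1]
  show _ = (-(1 / 2 : ℂ)) • (X.gm hv κ hκ hK).pp n (L.ZtN y) v
  congr 1
  rw [L.ZtN_apply, map_sum, LinearMap.sum_apply]
  refine Finset.sum_congr rfl fun u _ => ?_
  rw [GMod.pp_tmul]
  have h2 : (X.gm hv κ hκ hK).ppF n (L.pin ⁅L.e u, ((y : L.bL) : g)⁆) (L.fN u) = fun r : ℤ =>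
      ∑ s, L.form (L.e s) ⁅L.e u, ((y : L.bL) : g)⁆ • (X.c r s ∘ₗ X.c (n - 1 - r) u) := by
    funext r
    refine LinearMap.ext fun x => ?_
    show X.psi r (L.pin ⁅L.e u, ((y : L.bL) : g)⁆) (X.psi (n - 1 - r) (L.fN u) x) = _
    rw [psi_fN, psi_sum, LinearMap.sum_apply]
    refine Finset.sum_congr rfl fun s _ => ?_
    show L.form (L.e s) (L.Pn ⁅L.e u, ((y : L.bL) : g)⁆) • X.c r s (X.c (n - 1 - r) u x) = _
    rw [L.symm, hP.form_Pn _ _ (L.e_mem_np s), L.symm]
    rfl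
  rw [h2]
  have h3 : psum (fun r : ℤ => ∑ s, L.form (L.e s) ⁅L.e u, ((y : L.bL) : g)⁆ •
      (X.c r s ∘ₗ X.c (n - 1 - r) u)) = ∑ s, L.form (L.e s) ⁅L.e u, ((y : L.bL) : g)⁆ •
        psum (fun r : ℤ => X.c r s ∘ₗ X.c (n - 1 - r) u) := by
    refine (psum_fsum Finset.univ (f := fun (s : β) (r : ℤ) => L.form (L.e s)
      ⁅L.e u, ((y : L.bL) : g)⁆ • (X.c r s ∘ₗ X.c (n - 1 - r) u)) fun s =>
        (X.lf_cc n s u).smul _).trans ?_
    exact Finset.sum_congr rfl fun s _ => psum_smul _ (X.lf_cc n s u)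
  rw [h3, LinearMap.sum_apply]
  refine Finset.sum_congr rfl fun s _ => ?_
  rw [LinearMap.smul_apply]
  congr 1
  have h4 : L.form ⁅L.e s, L.e u⁆ ((y : L.bL) : g) =
      ∑ t, L.form ⁅L.e s, L.e u⁆ (L.f t) * L.form (L.e t) ((y : L.bL) : g) := by
    have h5 := congrArg (fun z => L.form z ((y : L.bL) : g)) (L.lie_e_exp s u)
    simp only [map_sum, LinearMap.sum_apply, map_smul, LinearMap.smul_apply, smul_eq_mul] at h5
    exact h5
  rw [← L.inv, h4]
  exact Finset.sum_congr rfl fun t _ => mul_comm _ _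

theorem A_apply (m : ℤ) (s : β) (v : E) : X.A m s v = X.Jh m (L.e s) v +
    if m = -1 then L.form L.F (L.e s) • v else 0 := by
  unfold A
  rw [LinearMap.add_apply]
  by_cases h : m = -1
  · rw [if_pos h, if_pos h]
    rfl
  · rw [if_neg h, if_neg h]
    rfl

theorem A_b (m n : ℤ) (s t : β) (v : E) : X.A m s (X.b n t v) - X.b n t (X.A m s v) =
    ∑ u, L.form ⁅L.e s, L.e t⁆ (L.f u) • X.b (m + n) u v := by
  rw [← X.Jh_b, A_apply, A_apply, map_add]
  by_cases h : m = -1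
  · rw [if_pos h, if_pos h, map_smul]
    abel
  · rw [if_neg h, if_neg h, map_zero]
    abel

/-- The currents `Ĵ` of `n₊`. -/
theorem Jh_np (m n : ℤ) (s t : β) (v : E) : X.Jh m (L.e s) (X.Jh n (L.e t) v) -
    X.Jh n (L.e t) (X.Jh m (L.e s) v) = X.Jh (m + n) ⁅L.e s, L.e t⁆ v := by
  simp only [Jh_apply, LinearMap.add_apply, map_add]
  have e1 := X.comm m n (L.e s) (L.e t) v
  have e2 := X.toCAR.G_G m n (L.adp (L.e s)) (L.adp (L.e t)) v
  have e3 : coc (k • L.form) m n (L.e s) (L.e t) = 0 := by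
    unfold coc
    rw [LinearMap.smul_apply, LinearMap.smul_apply, L.ee, smul_zero, mul_zero, ite_self]
  rw [e3, zero_smul, add_zero] at e1
  rw [L.tr_np, mul_zero, ite_self, zero_smul, add_zero, ← L.adp_np] at e2
  have e4 := X.J_G m n (L.e s) (L.adp (L.e t)) v
  have e5 := X.J_G n m (L.e t) (L.adp (L.e s)) v
  rw [← e1, ← e2, ← e4, ← e5]
  abel

theorem A_A (m n : ℤ) (s t : β) (v : E) : X.A m s (X.A n t v) - X.A n t (X.A m s v) =
    ∑ u, L.form ⁅L.e s, L.e t⁆ (L.f u) • X.A (m + n) u v := by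
  have e1 : X.A m s (X.A n t v) - X.A n t (X.A m s v) = X.Jh (m + n) ⁅L.e s, L.e t⁆ v := by
    rw [← Jh_np, A_apply, A_apply, A_apply, A_apply, map_add, map_add]
    by_cases h : m = -1
    · by_cases h' : n = -1
      · rw [if_pos h, if_pos h', if_pos h, if_pos h', map_smul, map_smul, smul_add, smul_add,
          smul_comm (L.form L.F (L.e s))]
        abel
      · rw [if_pos h, if_neg h', if_pos h, if_neg h', map_smul, map_zero, add_zero]
        abel_nf
    · by_cases h' : n = -1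
      · rw [if_neg h, if_pos h', if_neg h, if_pos h', map_smul, map_zero, add_zero]
        abel_nf
      · rw [if_neg h, if_neg h', if_neg h, if_neg h', map_zero, map_zero, add_zero, add_zero,
          add_zero, add_zero]
  have e2 : ∑ u, L.form ⁅L.e s, L.e t⁆ (L.f u) • X.A (m + n) u v =
      X.Jh (m + n) ⁅L.e s, L.e t⁆ v + if m + n = -1 then L.form L.F ⁅L.e s, L.e t⁆ • v else 0 := by
    have h1 : X.Jh (m + n) ⁅L.e s, L.e t⁆ v =
        ∑ u, L.form ⁅L.e s, L.e t⁆ (L.f u) • X.Jh (m + n) (L.e u) v := by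
      have h := congrArg (fun z => X.Jh (m + n) z v) (L.lie_e_exp s t)
      simp only [map_sum, LinearMap.sum_apply, map_smul, LinearMap.smul_apply] at h
      exact h
    have h2 : L.form L.F ⁅L.e s, L.e t⁆ =
        ∑ u, L.form ⁅L.e s, L.e t⁆ (L.f u) * L.form L.F (L.e u) := by
      have h := congrArg (fun z => L.form L.F z) (L.lie_e_exp s t)
      simp only [map_sum, map_smul, smul_eq_mul] at h
      exact h
    have h3 : ∀ u, L.form ⁅L.e s, L.e t⁆ (L.f u) • X.A (m + n) u v =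
        L.form ⁅L.e s, L.e t⁆ (L.f u) • X.Jh (m + n) (L.e u) v +
        L.form ⁅L.e s, L.e t⁆ (L.f u) • (if m + n = -1 then L.form L.F (L.e u) • v else 0) := by
      intro u
      rw [A_apply, smul_add]
    rw [Finset.sum_congr rfl fun u _ => h3 u, Finset.sum_add_distrib, h1]
    congr 1
    by_cases h : m + n = -1
    · simp only [if_pos h]
      rw [h2, Finset.sum_smul]
      exact Finset.sum_congr rfl fun u _ => by rw [smul_smul]
    · simp only [if_neg h, smul_zero, Finset.sum_const_zero]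
  rw [e1, e2, L.form_F_np, zero_smul, ite_self, add_zero]

/-- Naturality of `Q`. -/
theorem Q_comm {E' : Type} [AddCommGroup E'] [Module ℂ E'] (X' : FC L k E') (D : E →ₗ[ℂ] E')
    (hJ : ∀ n x v, D (X.J n x v) = X'.J n x (D v))
    (hb : ∀ n s x, D (X.b n s x) = X'.b n s (D x)) (hc : ∀ n s x, D (X.c n s x) = X'.c n s (D x))
    (v : E) : D (X.Q v) = X'.Q (D v) := by
  rw [Q_apply, Q_apply, map_add, map_sum]
  congr 1
  · have e1 := LinearMap.congr_fun (comp_psum X.lf_QT D) v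
    have e2 := LinearMap.congr_fun (psum_comp X'.lf_QT D) v
    rw [LinearMap.comp_apply] at e1 e2
    rw [e1, e2]
    congr 2
    funext m
    refine LinearMap.ext fun w => ?_
    show D (X.QT m w) = X'.QT m (D w)
    rw [QT_apply, QT_apply, map_sum]
    refine Finset.sum_congr rfl fun s _ => ?_
    rw [map_add, map_smul, hJ, X.toCAR.G_comm X'.toCAR D hb hc, hc]
  · exact Finset.sum_congr rfl fun s _ => by rw [map_smul, hc]

/-- The cubic terms are locally finite. -/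
theorem lf_bcc (s t u : β) : LF (fun p : ℤ × ℤ => L.form ⁅L.e s, L.e t⁆ (L.f u) •
    (X.b (-2 - p.1 - p.2) u ∘ₗ X.c p.1 s ∘ₗ X.c p.2 t)) := by
  by_cases h1 : u = t
  · have h : (fun p : ℤ × ℤ => L.form ⁅L.e s, L.e t⁆ (L.f u) •
        (X.b (-2 - p.1 - p.2) u ∘ₗ X.c p.1 s ∘ₗ X.c p.2 t)) = fun _ => 0 := by
      funext p
      rw [h1, ← L.adp_apply, L.adp_diag, zero_smul]
    rw [h]
    exact lf_zero
  by_cases h2 : u = s
  · have h : (fun p : ℤ × ℤ => L.form ⁅L.e s, L.e t⁆ (L.f u) •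
        (X.b (-2 - p.1 - p.2) u ∘ₗ X.c p.1 s ∘ₗ X.c p.2 t)) = fun _ => 0 := by
      funext p
      rw [h2, ← L.adp_apply, L.adp_row, zero_smul]
    rw [h]
    exact lf_zero
  refine LF.smul _ (LF.of_finset fun x => ?_)
  obtain ⟨M, hM⟩ := X.smooth x
  refine ⟨Finset.Icc (-2 - 2 * M) M ×ˢ Finset.Icc (-2 - 2 * M) M, fun p hp => ?_⟩
  have e0 : ∀ m n : ℤ, X.c m s (X.c n t x) = -X.c n t (X.c m s x) := fun m n =>
    eq_neg_of_add_eq_zero_left (X.cc m n s t x)
  have e1 : ∀ l m : ℤ, ∀ y, X.b l u (X.c m s y) = -X.c m s (X.b l u y) := fun l m y => by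
    have h := X.bc l m u s y
    rw [if_neg (fun hc => h2 hc.1)] at h
    exact eq_neg_of_add_eq_zero_left h
  have e2 : ∀ l m : ℤ, ∀ y, X.b l u (X.c m t y) = -X.c m t (X.b l u y) := fun l m y => by
    have h := X.bc l m u t y
    rw [if_neg (fun hc => h1 hc.1)] at h
    exact eq_neg_of_add_eq_zero_left h
  show X.b (-2 - p.1 - p.2) u (X.c p.1 s (X.c p.2 t x)) = 0
  by_cases h3 : M < p.2
  · rw [(hM p.2 (by omega) t).2, map_zero, map_zero]
  by_cases h4 : M < p.1
  · rw [e0, (hM p.1 (by omega) s).2, map_zero, neg_zero, map_zero]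
  have h5 : M ≤ -2 - p.1 - p.2 := by
    by_contra hc
    apply hp
    rw [Finset.mem_product, Finset.mem_Icc, Finset.mem_Icc]
    omega
  rw [e1, e2, (hM _ h5 u).1, map_zero, neg_zero, map_zero, neg_zero]

/-- The published form of the differential. -/
theorem Qpub_eq : X.Qpub = X.Q := by
  have key : ∀ s, psum (fun m : ℤ => X.G (-1 - m) (L.adp (L.e s)) ∘ₗ X.c m s) =
      -∑ t, ∑ u, psum (fun p : ℤ × ℤ => L.form ⁅L.e s, L.e t⁆ (L.f u) •
        (X.b (-2 - p.1 - p.2) u ∘ₗ X.c p.1 s ∘ₗ X.c p.2 t)) := by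
    intro s
    have h1 : ∀ (m : ℤ) (t u : β), L.adp (L.e s) u t • (psum (X.no (-1 - m) u t) ∘ₗ X.c m s) =
        -psum (fun r : ℤ => L.form ⁅L.e s, L.e t⁆ (L.f u) •
          (X.b (-2 - m - r) u ∘ₗ X.c m s ∘ₗ X.c r t)) := by
      intro m t u
      rw [psum_comp (X.toCAR.lf_no (-1 - m) u t),
        ← psum_smul _ ((X.toCAR.lf_no (-1 - m) u t).comp_right (X.c m s)),
        ← psum_neg ((X.lf_bcc s t u).fst m)]
      congr 1
      funext r
      refine LinearMap.ext fun v => ?_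
      show L.adp (L.e s) u t • X.no (-1 - m) u t r (X.c m s v) =
        -(L.form ⁅L.e s, L.e t⁆ (L.f u) • X.b (-2 - m - r) u (X.c m s (X.c r t v)))
      have e1 : (-1 - m - 1 - r : ℤ) = -2 - m - r := by ring
      rw [X.no_coef s u t, e1, L.adp_apply, eq_neg_of_add_eq_zero_left (X.cc r m t s v), map_neg,
        smul_neg]
    have h2 : (fun m : ℤ => X.G (-1 - m) (L.adp (L.e s)) ∘ₗ X.c m s) = fun m : ℤ =>
        -∑ t, ∑ u, psum (fun r : ℤ => L.form ⁅L.e s, L.e t⁆ (L.f u) •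
          (X.b (-2 - m - r) u ∘ₗ X.c m s ∘ₗ X.c r t)) := by
      funext m
      have h3 : X.G (-1 - m) (L.adp (L.e s)) ∘ₗ X.c m s =
          ∑ u, ∑ t, L.adp (L.e s) u t • (psum (X.no (-1 - m) u t) ∘ₗ X.c m s) := by
        refine LinearMap.ext fun v => ?_
        rw [CAR.G_eq]
        simp only [LinearMap.comp_apply, LinearMap.sum_apply, LinearMap.smul_apply]
      rw [h3, Finset.sum_comm, ← Finset.sum_neg_distrib]
      refine Finset.sum_congr rfl fun t _ => ?_
      rw [← Finset.sum_neg_distrib]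
      exact Finset.sum_congr rfl fun u _ => h1 m t u
    have lf1 : ∀ t u, LF (fun m : ℤ => psum (fun r : ℤ => L.form ⁅L.e s, L.e t⁆ (L.f u) •
          (X.b (-2 - m - r) u ∘ₗ X.c m s ∘ₗ X.c r t))) := fun t u => (X.lf_bcc s t u).curry
    rw [h2, psum_neg (LF.fsum _ fun t => LF.fsum _ fun u => lf1 t u)]
    congr 1
    refine (psum_fsum Finset.univ (f := fun (t : β) (m : ℤ) => ∑ u, psum (fun r : ℤ =>
      L.form ⁅L.e s, L.e t⁆ (L.f u) • (X.b (-2 - m - r) u ∘ₗ X.c m s ∘ₗ X.c r t)))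
        fun t => LF.fsum _ fun u => lf1 t u).trans ?_
    refine Finset.sum_congr rfl fun t _ => ?_
    refine (psum_fsum Finset.univ (f := fun (u : β) (m : ℤ) => psum (fun r : ℤ =>
      L.form ⁅L.e s, L.e t⁆ (L.f u) • (X.b (-2 - m - r) u ∘ₗ X.c m s ∘ₗ X.c r t)))
        fun u => lf1 t u).trans ?_
    exact Finset.sum_congr rfl fun u _ => (psum_curry (X.lf_bcc s t u)).symm
  unfold Qpub Q
  rw [psum_QT, Finset.sum_add_distrib]
  congr 1
  rw [sub_eq_add_neg]
  congr 1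
  rw [← smul_neg, ← Finset.sum_neg_distrib, Finset.smul_sum]
  exact Finset.sum_congr rfl fun s _ => by rw [key]

end FC

namespace FVac

variable (X : FVac L k E)

theorem Q_vac : X.Q X.vac = 0 := by
  rw [FC.Q_apply, psum_eq_sum X.lf_QT X.vac ∅, Finset.sum_empty, zero_add]
  · exact Finset.sum_eq_zero fun s _ => by rw [X.c_vac 0 s le_rfl, smul_zero]
  · intro m _
    rw [FC.QT_apply]
    refine Finset.sum_eq_zero fun s _ => ?_
    rcases le_or_gt 0 m with hm | hm
    · rw [X.c_vac m s hm, map_zero, map_zero, smul_zero, add_zero]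
    · rw [X.Jc, X.G_c_self, X.J_vac _ _ (by omega),
        X.toCAR.G_vac X.vac X.b_vac X.c_vac (-1 - m) (by omega), map_zero, smul_zero, add_zero]

theorem mem_chg {q : ℤ} {v : E} : v ∈ X.chg q ↔ X.Chg q v := Iff.rfl

theorem Chg.cast {q q' : ℤ} {v : E} (h : X.Chg q v) (e : q = q') : X.Chg q' v := e ▸ h

theorem Chg_G {q : ℤ} {v : E} (m : ℤ) (T : Matrix β β ℂ) (h : X.Chg q v) :
    X.Chg q (X.G m T v) := by
  rw [← mem_chg]
  rw [CAR.G_eq, LinearMap.sum_apply]
  refine Submodule.sum_mem _ fun t _ => ?_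
  rw [LinearMap.sum_apply]
  refine Submodule.sum_mem _ fun s _ => ?_
  rw [LinearMap.smul_apply]
  refine Submodule.smul_mem _ _ (CAR.psum_mem (X.chg q) (X.toCAR.lf_no m t s) v fun r => ?_)
  unfold CAR.no
  split_ifs
  · exact Chg.cast X (Chg.b _ _ (Chg.c _ _ h)) (by ring)
  · exact neg_mem (show X.Chg q _ from Chg.cast X (Chg.c _ _ (Chg.b _ _ h)) (by ring))

theorem Chg_Jh {q : ℤ} {v : E} (m : ℤ) (x : g) (h : X.Chg q v) : X.Chg q (X.Jh m x v) := by
  rw [FC.Jh_apply, LinearMap.add_apply]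
  exact Chg.add (Chg.J _ _ h) (X.Chg_G _ _ h)

theorem Chg_A {q : ℤ} {v : E} (m : ℤ) (s : β) (h : X.Chg q v) : X.Chg q (X.A m s v) := by
  rw [FC.A_apply]
  refine Chg.add (X.Chg_Jh _ _ h) ?_
  split_ifs
  · exact Chg.smul _ h
  · exact Chg.zero q

theorem Chg_psi {q : ℤ} {v : E} (m : ℤ) (y : L.nL) (h : X.Chg q v) :
    X.Chg (q + 1) (X.psi m y v) := by
  rw [← mem_chg, FC.psi_sum]
  exact Submodule.sum_mem _ fun s _ => Submodule.smul_mem _ _ (Chg.c _ _ h)

theorem Chg_Q {q : ℤ} {v : E} (h : X.Chg q v) : X.Chg (q + 1) (X.Q v) := by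
  rw [← mem_chg, FC.Q_apply]
  refine add_mem (CAR.psum_mem _ X.lf_QT v fun m => ?_) (Submodule.sum_mem _ fun s _ =>
    Submodule.smul_mem _ _ (Chg.c _ _ h))
  rw [FC.QT_apply]
  refine Submodule.sum_mem _ fun s _ => add_mem ?_ (Submodule.smul_mem _ _ ?_)
  · exact Chg.J _ _ (Chg.c _ _ h)
  · exact X.Chg_G _ _ (Chg.c _ _ h)

theorem Jh_vac (m : ℤ) (x : g) (hm : 0 ≤ m) : X.Jh m x X.vac = 0 := by
  rw [FC.Jh_apply, LinearMap.add_apply, X.J_vac m x hm,
    X.toCAR.G_vac X.vac X.b_vac X.c_vac m hm, add_zero]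

theorem A_vac (m : ℤ) (s : β) (hm : 0 ≤ m) : X.A m s X.vac = 0 := by
  rw [FC.A_apply, X.Jh_vac m _ hm, if_neg (by omega), add_zero]

end FVac

end

end WPE
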