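import Pool.Agent.WPE.FB6

/-! WPE, block FB4a: charges, the principle `ub`. -/

set_option linter.unusedSectionVars false

namespace WPE

open scoped TensorProduct

noncomputable section

namespace Fer

variable {X : Type} [LinearOrder X]

theorem an_coeff {x : X} {S : Finset X} (hx : x ∈ S) (u : Fer X) :
    (an x u) (S.erase x) = sg x S * u S := by
  induction u using Finsupp.induction_linear with
  | zero => rw [map_zero, Finsupp.zero_apply, Finsupp.zero_apply, mul_zero]
  | add f g hf hg => rw [map_add, Finsupp.add_apply, Finsupp.add_apply, hf, hg, mul_add]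
  | single S' a =>
    have h1 : (Finsupp.single S' a : Fer X) = a • bs S' := by
      unfold bs
      rw [Finsupp.smul_single, smul_eq_mul, mul_one]
    rw [h1, map_smul, an_bs, Finsupp.smul_apply, Finsupp.smul_apply]
    unfold bs
    by_cases h : S' = S
    · subst h
      rw [if_pos hx, Finsupp.smul_apply, Finsupp.single_eq_same, Finsupp.single_eq_same]
      simp only [smul_eq_mul]
      ring
    · rw [Finsupp.single_eq_of_ne (Ne.symm h), smul_zero, mul_zero]
      by_cases hx' : x ∈ S'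
      · have h2 : S'.erase x ≠ S.erase x := by
          intro hc
          apply h
          rw [← Finset.insert_erase hx', ← Finset.insert_erase hx, hc]
        rw [if_pos hx', Finsupp.smul_apply, Finsupp.single_eq_of_ne (Ne.symm h2), smul_zero,
          smul_zero]
      · rw [if_neg hx', Finsupp.zero_apply, smul_zero]

theorem wt_coeff (w : X → ℂ) (u : Fer X) (S : Finset X) :
    (wt w u) S = (∑ x ∈ S, w x) * u S := by
  induction u using Finsupp.induction_linear with
  | zero => rw [map_zero, Finsupp.zero_apply, mul_zero]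
  | add f g hf hg => rw [map_add, Finsupp.add_apply, Finsupp.add_apply, hf, hg, mul_add]
  | single S' a =>
    have h1 : (Finsupp.single S' a : Fer X) = a • bs S' := by
      unfold bs
      rw [Finsupp.smul_single, smul_eq_mul, mul_one]
    rw [h1, map_smul, wt_bs, Finsupp.smul_apply, Finsupp.smul_apply, Finsupp.smul_apply]
    unfold bs
    by_cases h : S' = S
    · subst h
      rw [Finsupp.single_eq_same]
      simp only [smul_eq_mul]
      ring
    · rw [Finsupp.single_eq_of_ne (Ne.symm h), smul_zero, smul_zero, mul_zero]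

/-- The charges of the letters. -/
def cw {β : Type} : Gx β → ℂ
  | Gx.P _ _ => -1
  | Gx.S _ _ => 1

theorem wt_ph {β : Type} (m : ℤ) (s : β) (v : Fer (Gx β)) :
    wt cw (phF m s v) = phF m s (wt cw v) - phF m s v := by
  rcases cases_int m with ⟨m, rfl⟩ | ⟨m, rfl⟩
  · rw [phF_neg, wt_cr]
    show _ + (-1 : ℂ) • _ = _
    rw [neg_one_smul, sub_eq_add_neg]
  · rw [phF_nat, wt_an]
    show _ - (1 : ℂ) • _ = _
    rw [one_smul]

theorem wt_ps {β : Type} (m : ℤ) (s : β) (v : Fer (Gx β)) :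
    wt cw (psF m s v) = psF m s (wt cw v) + psF m s v := by
  rcases cases_int m with ⟨m, rfl⟩ | ⟨m, rfl⟩
  · rw [psF_neg, wt_cr]
    show _ + (1 : ℂ) • _ = _
    rw [one_smul]
  · rw [psF_nat, wt_an]
    show _ - (-1 : ℂ) • _ = _
    rw [neg_one_smul, sub_neg_eq_add]

/-- A vector of the Fock space of positive charge which is killed by all `b_s(n)`, `n ≥ 0`, is
zero. -/
theorem fer_pos {β : Type} (u : Fer (Gx β)) (q : ℤ) (hq : 1 ≤ q) (h1 : wt cw u = (q : ℂ) • u)
    (h2 : ∀ (n : ℕ) (s : β), an (Gx.S n s) u = 0) : u = 0 := by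
  ext S
  rw [Finsupp.zero_apply]
  by_contra hS
  have h3 := congrArg (fun f => f S) h1
  simp only [wt_coeff, Finsupp.smul_apply, smul_eq_mul] at h3
  have h4 : (∑ x ∈ S, cw x : ℂ) = q := mul_right_cancel₀ hS h3
  have h5 : ∃ x ∈ S, ∃ n s, x = Gx.S n s := by
    by_contra hc
    push Not at hc
    have h6 : (∑ x ∈ S, cw x : ℂ) = ∑ x ∈ S, (-1 : ℂ) := by
      refine Finset.sum_congr rfl fun x hx => ?_
      rcases x with ⟨n, s⟩ | ⟨n, s⟩
      · rfl
      · exact absurd rfl (hc _ hx n s)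
    rw [h6, Finset.sum_const, nsmul_eq_mul, mul_neg_one] at h4
    have h7 : -((S.card : ℤ)) = q := by
      have h8 : ((-(S.card : ℤ) : ℤ) : ℂ) = ((q : ℤ) : ℂ) := by
        push_cast
        exact h4
      exact_mod_cast h8
    omega
  obtain ⟨x, hx, n, s, rfl⟩ := h5
  have h6 := an_coeff hx u
  rw [h2, Finsupp.zero_apply] at h6
  rcases mul_eq_zero.1 h6.symm with h7 | h7
  · have := sg_sq (Gx.S n s) S
    rw [h7, zero_mul] at this
    exact zero_ne_one this
  · exact hS h7

end Fer

variable {g β η : Type} [LieRing g] [LieAlgebra ℂ g] [Fintype β] [DecidableEq β] [Fintype η]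
  [DecidableEq η] {L : LD g β η} {k : ℂ} {E : Type} [AddCommGroup E] [Module ℂ E]

namespace LD

variable (L k)

/-- `1 ⊗ f` on the model. -/
def mup (f : Fer (Gx β) →ₗ[ℂ] Fer (Gx β)) : L.ME k →ₗ[ℂ] L.ME k :=
  FMod.up (k • L.form) (TMod.zr g (Fer (Gx β))) (TMod.zr_act g _) f

theorem mup_incl (f : Fer (Gx β) →ₗ[ℂ] Fer (Gx β)) (v : Fer (Gx β)) :
    L.mup k f (Ind.incl _ _ v) = Ind.incl _ _ (f v) := FMod.up_incl _ _ v

theorem mup_J (f : Fer (Gx β) →ₗ[ℂ] Fer (Gx β)) (m : ℤ) (a : g) (x : L.ME k) :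
    L.mup k f ((L.MX k).J m a x) = (L.MX k).J m a (L.mup k f x) := FMod.up_J _ _ m a x

theorem MX_b_eq (m : ℤ) (s : β) (v : L.ME k) : (L.MX k).b m s v = L.mup k (Fer.phF m s) v := rfl

theorem MX_c_eq (m : ℤ) (s : β) (v : L.ME k) : (L.MX k).c m s v = L.mup k (Fer.psF m s) v := rfl

theorem mup_ext {f : L.ME k →ₗ[ℂ] L.ME k} {f' : L.ME k →ₗ[ℂ] L.ME k}
    (hf : ∀ m a x, f ((L.MX k).J m a x) = (L.MX k).J m a (f x))
    (hf' : ∀ m a x, f' ((L.MX k).J m a x) = (L.MX k).J m a (f' x))
    (h : ∀ v : Fer (Gx β), f (Ind.incl _ _ v) = f' (Ind.incl _ _ v)) : f = f' :=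
  Ind.hom_ext (X := Ind.mod _ _) hf hf' h

/-- The charge operator of the model. -/
def mN : L.ME k →ₗ[ℂ] L.ME k := L.mup k (Fer.wt Fer.cw)

theorem mN_vac : L.mN k (L.MX k).vac = 0 := by
  unfold mN
  rw [MX_vac, mup_incl, Fer.wt_vac, map_zero]

theorem mN_J (m : ℤ) (a : g) (x : L.ME k) : L.mN k ((L.MX k).J m a x) =
    (L.MX k).J m a (L.mN k x) := L.mup_J k _ m a x

theorem mN_b (m : ℤ) (s : β) (v : L.ME k) :
    L.mN k ((L.MX k).b m s v) = (L.MX k).b m s (L.mN k v) - (L.MX k).b m s v := by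
  have h := L.mup_ext k (f := L.mN k ∘ₗ (L.MX k).b m s)
    (f' := (L.MX k).b m s ∘ₗ L.mN k - (L.MX k).b m s) (fun n a x => by
      rw [LinearMap.comp_apply, LinearMap.comp_apply, ← (L.MX k).Jb, mN_J]) (fun n a x => by
      rw [LinearMap.sub_apply, LinearMap.sub_apply, LinearMap.comp_apply, LinearMap.comp_apply,
        mN_J, ← (L.MX k).Jb, ← (L.MX k).Jb, map_sub]) (fun v => by
      rw [LinearMap.sub_apply, LinearMap.comp_apply, LinearMap.comp_apply, MX_b]
      unfold mN
      rw [mup_incl, mup_incl, MX_b, Fer.wt_ph, map_sub])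
  exact LinearMap.congr_fun h v

theorem mN_c (m : ℤ) (s : β) (v : L.ME k) :
    L.mN k ((L.MX k).c m s v) = (L.MX k).c m s (L.mN k v) + (L.MX k).c m s v := by
  have h := L.mup_ext k (f := L.mN k ∘ₗ (L.MX k).c m s)
    (f' := (L.MX k).c m s ∘ₗ L.mN k + (L.MX k).c m s) (fun n a x => by
      rw [LinearMap.comp_apply, LinearMap.comp_apply, ← (L.MX k).Jc, mN_J]) (fun n a x => by
      rw [LinearMap.add_apply, LinearMap.add_apply, LinearMap.comp_apply, LinearMap.comp_apply,
        mN_J, ← (L.MX k).Jc, ← (L.MX k).Jc, map_add]) (fun v => by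
      rw [LinearMap.add_apply, LinearMap.comp_apply, LinearMap.comp_apply, MX_c]
      unfold mN
      rw [mup_incl, mup_incl, MX_c, Fer.wt_ps, map_add])
  exact LinearMap.congr_fun h v

/-- `1 ⊗ f` in the coordinates of the sorted words. -/
theorem mup_sorted {K : Type} [LinearOrder K] (e : K ≃ ℕ × (β ⊕ (β ⊕ η)))
    (f : Fer (Gx β) →ₗ[ℂ] Fer (Gx β)) (y : SL K →₀ Fer (Gx β)) :
    L.mup k f (Ind.sortedMapB (k • L.form) (TMod.zr g (Fer (Gx β))) L.gB e y) =
      Ind.sortedMapB (k • L.form) (TMod.zr g (Fer (Gx β))) L.gB e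
        (Finsupp.mapRange.linearMap f y) := by
  induction y using Finsupp.induction_linear with
  | zero => rw [map_zero, map_zero, map_zero, map_zero]
  | add y z hy hz => rw [map_add, map_add, hy, hz, map_add, map_add]
  | single w v =>
    rw [Finsupp.mapRange.linearMap_apply, Finsupp.mapRange_single, Ind.sortedMapB_single,
      Ind.sortedMapB_single]
    exact Ind.map_word f (FMod.hom0 (TMod.zr_act g _) f) _ _ _

/-- A vector of the model of positive charge which is killed by all `b_s(n)`, `n ≥ 0`, is zero. -/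
theorem me_pos (u : L.ME k) (q : ℤ) (hq : 1 ≤ q) (h1 : L.mN k u = (q : ℂ) • u)
    (h2 : ∀ (n : ℤ) (s : β), 0 ≤ n → (L.MX k).b n s u = 0) : u = 0 := by
  obtain ⟨K, iK, ⟨e⟩⟩ := exists_order (ℕ × (β ⊕ (β ⊕ η)))
  have hb := Ind.sortedMapB_bijective (k • L.form) (TMod.zr g (Fer (Gx β))) L.gB
    (L.kform_isInv k) e
  obtain ⟨y, rfl⟩ := hb.2 u
  have h3 : y = 0 := by
    ext1 w
    rw [Finsupp.zero_apply]
    refine Fer.fer_pos _ q hq ?_ ?_
    · unfold mN at h1
      rw [mup_sorted, ← map_smul] at h1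
      have h4 := congrArg (fun f => f w) (hb.1 h1)
      exact h4
    · intro n s
      have h5 := h2 n s (Int.natCast_nonneg n)
      rw [MX_b_eq, mup_sorted, ← map_zero (Ind.sortedMapB (k • L.form)
        (TMod.zr g (Fer (Gx β))) L.gB e)] at h5
      have h4 := congrArg (fun f => f w) (hb.1 h5)
      have h6 : Fer.phF (n : ℤ) s (y w) = 0 := h4
      rwa [Fer.phF_nat] at h6
  rw [h3, map_zero]

end LD

namespace FVac

variable (X : FVac L k E)

/-- The charge operator. -/
theorem exists_N (hX : X.Std) : ∃ N : E →ₗ[ℂ] E, N X.vac = 0 ∧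
    (∀ m a v, N (X.J m a v) = X.J m a (N v)) ∧
    (∀ m s v, N (X.b m s v) = X.b m s (N v) - X.b m s v) ∧
    (∀ m s v, N (X.c m s v) = X.c m s (N v) + X.c m s v) ∧
    ∀ (u : E) (q : ℤ), 1 ≤ q → N u = (q : ℂ) • u → (∀ (n : ℤ) (s : β), 0 ≤ n → X.b n s u = 0) →
      u = 0 := by
  have h1 : (L.MX k).toFR.IsHom X.toFR (X.me hX).toLinearMap := X.toFR.ml_isHom
  have h2 := FR.IsHom.symm (X.me hX) h1
  refine ⟨(X.me hX).toLinearMap ∘ₗ L.mN k ∘ₗ (X.me hX).symm.toLinearMap, ?_, ?_, ?_, ?_, ?_⟩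
  · show X.me hX (L.mN k ((X.me hX).symm X.vac)) = 0
    rw [show (X.me hX).symm X.vac = (L.MX k).vac from h2.vac, LD.mN_vac, map_zero]
  · intro m a v
    show X.me hX (L.mN k ((X.me hX).symm (X.J m a v))) = X.J m a (X.me hX (L.mN k
      ((X.me hX).symm v)))
    rw [show (X.me hX).symm (X.J m a v) = (L.MX k).J m a ((X.me hX).symm v) from h2.J m a v,
      LD.mN_J]
    exact h1.J m a _
  · intro m s v
    show X.me hX (L.mN k ((X.me hX).symm (X.b m s v))) = X.b m s (X.me hX (L.mN k
      ((X.me hX).symm v))) - X.b m s v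
    rw [show (X.me hX).symm (X.b m s v) = (L.MX k).b m s ((X.me hX).symm v) from h2.b m s v,
      LD.mN_b, map_sub]
    rw [show X.me hX ((L.MX k).b m s (L.mN k ((X.me hX).symm v))) = X.b m s (X.me hX (L.mN k
      ((X.me hX).symm v))) from h1.b m s _, show X.me hX ((L.MX k).b m s ((X.me hX).symm v)) =
      X.b m s (X.me hX ((X.me hX).symm v)) from h1.b m s _, LinearEquiv.apply_symm_apply]
  · intro m s v
    show X.me hX (L.mN k ((X.me hX).symm (X.c m s v))) = X.c m s (X.me hX (L.mN k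
      ((X.me hX).symm v))) + X.c m s v
    rw [show (X.me hX).symm (X.c m s v) = (L.MX k).c m s ((X.me hX).symm v) from h2.c m s v,
      LD.mN_c, map_add]
    rw [show X.me hX ((L.MX k).c m s (L.mN k ((X.me hX).symm v))) = X.c m s (X.me hX (L.mN k
      ((X.me hX).symm v))) from h1.c m s _, show X.me hX ((L.MX k).c m s ((X.me hX).symm v)) =
      X.c m s (X.me hX ((X.me hX).symm v)) from h1.c m s _, LinearEquiv.apply_symm_apply]
  · intro u q hq hN hb
    have hN' : X.me hX (L.mN k ((X.me hX).symm u)) = (q : ℂ) • u := hN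
    have h3 : (X.me hX).symm u = 0 := by
      refine L.me_pos k _ q hq ?_ ?_
      · apply (X.me hX).injective
        rw [hN', map_smul, LinearEquiv.apply_symm_apply]
      · intro n s hn
        rw [← show (X.me hX).symm (X.b n s u) = (L.MX k).b n s ((X.me hX).symm u) from h2.b n s u,
          hb n s hn, map_zero]
    rw [← LinearEquiv.apply_symm_apply (X.me hX) u, h3, map_zero]

/-- A subspace which contains the vacuum and is stable under all modes is everything. -/
theorem ind_sub (hX : X.Std) (W : Submodule ℂ E) (h0 : X.vac ∈ W)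
    (hJ : ∀ m a v, v ∈ W → X.J m a v ∈ W) (hb : ∀ m s v, v ∈ W → X.b m s v ∈ W)
    (hc : ∀ m s v, v ∈ W → X.c m s v ∈ W) (v : E) : v ∈ W := by
  obtain ⟨K, iK, ⟨eK⟩⟩ := exists_order (ℕ × β)
  obtain ⟨U, iU, ⟨eU⟩⟩ := exists_order (ℕ × (β ⊕ η))
  have h1 := (hX K U eK eU).2
  have h2 : ∀ {α : Type} (f : α → E →ₗ[ℂ] E) (hf : ∀ a, ∀ v ∈ W, f a v ∈ W) (l : List α),
      ∀ v ∈ W, opw (l.map f) v ∈ W := by
    intro α f hf l v hv
    induction l with
    | nil => exact hv
    | cons a l ih =>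
      rw [List.map_cons, opw_cons]
      exact hf a _ ih
  have h3 : Submodule.span ℂ (Set.range (X.vstd eK eU)) ≤ W := by
    rw [Submodule.span_le]
    rintro _ ⟨w, rfl⟩
    exact h2 _ (fun i v hv => hJ _ _ v hv) _ _ (h2 _ (fun i v hv => hJ _ _ v hv) _ _
      (h2 _ (fun i v hv => hb _ _ v hv) _ _ (h2 _ (fun i v hv => hc _ _ v hv) _ _ h0)))
  exact h3 (h1 trivial)

/-- Homogeneous vectors are eigenvectors of the charge operator. -/
theorem Chg_N {N : E →ₗ[ℂ] E} (h0 : N X.vac = 0) (hJ : ∀ m a v, N (X.J m a v) = X.J m a (N v))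
    (hb : ∀ m s v, N (X.b m s v) = X.b m s (N v) - X.b m s v)
    (hc : ∀ m s v, N (X.c m s v) = X.c m s (N v) + X.c m s v) {q : ℤ} {v : E}
    (h : X.Chg q v) : N v = (q : ℂ) • v := by
  induction h with
  | vac => rw [h0, Int.cast_zero, zero_smul]
  | J m x _ ih => rw [hJ, ih, map_smul]
  | b m s _ ih =>
    rw [hb, ih, map_smul, Int.cast_sub, Int.cast_one, sub_smul, one_smul]
  | c m s _ ih =>
    rw [hc, ih, map_smul, Int.cast_add, Int.cast_one, add_smul, one_smul]
  | zero q => rw [map_zero, smul_zero]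
  | add _ _ h1 h2 => rw [map_add, h1, h2, smul_add]
  | smul r _ ih => rw [map_smul, ih, smul_comm]

theorem chg_sup (hX : X.Std) : ⨆ q, X.chg q = ⊤ := by
  rw [Submodule.eq_top_iff']
  have key : ∀ (T : E →ₗ[ℂ] E) (d : ℤ), (∀ q v, X.Chg q v → X.Chg (q + d) (T v)) →
      ∀ v ∈ ⨆ q, X.chg q, T v ∈ ⨆ q, X.chg q := by
    intro T d hT v hv
    have h1 : (⨆ q, X.chg q) ≤ (⨆ q, X.chg q).comap T := by
      refine iSup_le fun q v hv => ?_
      exact Submodule.mem_iSup_of_mem (p := X.chg) (q + d) (hT q v hv)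
    exact h1 hv
  refine X.ind_sub hX _ (Submodule.mem_iSup_of_mem (p := X.chg) 0 Chg.vac) ?_ ?_ ?_
  · intro m a v hv
    exact key (X.J m a) 0 (fun q v h => by rw [add_zero]; exact Chg.J m a h) v hv
  · intro m s v hv
    exact key (X.b m s) (-1) (fun q v h => Chg.b m s h) v hv
  · intro m s v hv
    exact key (X.c m s) 1 (fun q v h => Chg.c m s h) v hv

/-- `E` is the direct sum of its parts of ghost number `q`. -/
theorem chg_internal (hX : X.Std) : DirectSum.IsInternal X.chg := by
  obtain ⟨N, h0, hJ, hb, hc, -⟩ := X.exists_N hX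
  refine (DirectSum.isInternal_submodule_iff_iSupIndep_and_iSup_eq_top _).2
    ⟨?_, X.chg_sup hX⟩
  have h1 := (Module.End.eigenspaces_iSupIndep N).comp (f := fun q : ℤ => (q : ℂ))
    (fun a b h => Int.cast_injective h)
  refine h1.mono fun q v hv => ?_
  rw [Function.comp_apply, Module.End.mem_eigenspace_iff]
  exact X.Chg_N h0 hJ hb hc hv

/-- The vectors which are killed by `j + 1` operators `b_s(n)`, `n ≥ 0`. -/
def Zs : ℕ → Submodule ℂ E
  | 0 => ⨅ (n : ℕ) (s : β), LinearMap.ker (X.b (n : ℤ) s)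
  | j + 1 => ⨅ (n : ℕ) (s : β), (Zs j).comap (X.b (n : ℤ) s)

theorem mem_Zs_zero {v : E} : v ∈ X.Zs 0 ↔ ∀ (n : ℕ) (s : β), X.b (n : ℤ) s v = 0 := by
  unfold Zs
  simp only [Submodule.mem_iInf, LinearMap.mem_ker]

theorem mem_Zs_succ {j : ℕ} {v : E} :
    v ∈ X.Zs (j + 1) ↔ ∀ (n : ℕ) (s : β), X.b (n : ℤ) s v ∈ X.Zs j := by
  rw [Zs]
  simp only [Submodule.mem_iInf, Submodule.mem_comap]

theorem Zs_J {j : ℕ} (m : ℤ) (a : g) {v : E} (hv : v ∈ X.Zs j) : X.J m a v ∈ X.Zs j := by
  induction j generalizing v with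
  | zero =>
    rw [mem_Zs_zero] at hv ⊢
    intro n s
    rw [← X.Jb, hv, map_zero]
  | succ j ih =>
    rw [mem_Zs_succ] at hv ⊢
    intro n s
    rw [← X.Jb]
    exact ih (hv n s)

theorem Zs_c {j : ℕ} (m : ℤ) (t : β) {v : E} (hv : v ∈ X.Zs j) : X.c m t v ∈ X.Zs (j + 1) := by
  have hbc : ∀ (n : ℤ) (s : β) (u : E), X.b n s (X.c m t u) =
      (if s = t ∧ n + m + 1 = 0 then u else 0) - X.c m t (X.b n s u) := fun n s u =>
    eq_sub_of_add_eq (X.bc n m s t u)
  induction j generalizing v with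
  | zero =>
    rw [mem_Zs_succ]
    intro n s
    rw [hbc, (X.mem_Zs_zero.1 hv), map_zero, sub_zero]
    split_ifs
    · exact hv
    · exact zero_mem _
  | succ j ih =>
    rw [mem_Zs_succ]
    intro n s
    rw [hbc]
    refine sub_mem ?_ (ih (X.mem_Zs_succ.1 hv n s))
    split_ifs
    · exact hv
    · exact zero_mem _

/-- An operator of ghost number `q ≥ 1` which commutes (up to a scalar) with all `b_s(n)` is zero.
-/
theorem ub (hX : X.Std) (T : E →ₗ[ℂ] E) (ε : ℂ) (q : ℤ) (hq : 1 ≤ q)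
    (hT : ∀ (r : ℤ) (v : E), X.Chg r v → X.Chg (r + q) (T v))
    (hb : ∀ (n : ℤ) (s : β) (v : E), T (X.b n s v) = ε • X.b n s (T v)) : T = 0 := by
  obtain ⟨N, hN0, hNJ, hNb, hNc, hN⟩ := X.exists_N hX
  have hP : ∀ (r : ℤ) (u : E), 1 ≤ r → X.Chg r u → (∀ (n : ℤ) (s : β), 0 ≤ n → X.b n s u = 0) →
      u = 0 := fun r u hr hu h => hN u r hr (X.Chg_N hN0 hNJ hNb hNc hu) h
  -- `T` kills the words without `b`
  have key : ∀ (j : ℕ) (r : ℤ) (v : E), (j : ℤ) ≤ r → v ∈ X.Zs j → X.Chg r v →
      (ε ≠ 0 ∨ IsEmpty β) → T v = 0 := by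
    intro j
    induction j with
    | zero =>
      intro r v hr hv hc hε
      refine hP (r + q) (T v) (by omega) (hT r v hc) fun n s hn => ?_
      rcases hε with hε | hε
      · obtain ⟨n, rfl⟩ := Int.eq_ofNat_of_zero_le hn
        have h1 := hb n s v
        rw [X.mem_Zs_zero.1 hv n s, map_zero] at h1
        exact (smul_eq_zero.1 h1.symm).resolve_left hε
      · exact hε.elim s
    | succ j ih =>
      intro r v hr hv hc hε
      refine hP (r + q) (T v) (by omega) (hT r v hc) fun n s hn => ?_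
      rcases hε with hε | hε
      · obtain ⟨n, rfl⟩ := Int.eq_ofNat_of_zero_le hn
        have h1 := hb n s v
        rw [ih (r - 1) _ (by push_cast at hr; omega) (X.mem_Zs_succ.1 hv n s) (Chg.b _ _ hc)
          (Or.inl hε)] at h1
        exact (smul_eq_zero.1 h1.symm).resolve_left hε
      · exact hε.elim s
  by_cases hcase : ε ≠ 0 ∨ IsEmpty β
  · -- the general case
    let W : Submodule ℂ E :=
      { carrier := {v | ∀ l : List (ℤ × g), T (opw (l.map fun p => X.J p.1 p.2) v) = 0}
        add_mem' := by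
          intro u v hu hv l
          have h1 : ∀ (l : List (E →ₗ[ℂ] E)), opw l (u + v) = opw l u + opw l v := by
            intro l
            induction l with
            | nil => rfl
            | cons a l ih => rw [opw_cons, opw_cons, opw_cons, ih, map_add]
          rw [h1, map_add, hu, hv, add_zero]
        zero_mem' := by
          intro l
          have h1 : ∀ (l : List (E →ₗ[ℂ] E)), opw l 0 = 0 := by
            intro l
            induction l with
            | nil => rfl
            | cons a l ih => rw [opw_cons, ih, map_zero]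
          rw [h1, map_zero]
        smul_mem' := by
          intro c u hu l
          have h1 : ∀ (l : List (E →ₗ[ℂ] E)), opw l (c • u) = c • opw l u := by
            intro l
            induction l with
            | nil => rfl
            | cons a l ih => rw [opw_cons, opw_cons, ih, map_smul]
          rw [h1, map_smul, hu, smul_zero] }
    have hWJ : ∀ m a v, v ∈ W → X.J m a v ∈ W := by
      intro m a v hv l
      have h1 := hv (l ++ [(m, a)])
      rw [List.map_append, opw_append] at h1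
      exact h1
    have hWb : ∀ m s v, v ∈ W → X.b m s v ∈ W := by
      intro m s v hv l
      have h1 : ∀ (l : List (ℤ × g)), opw (l.map fun p => X.J p.1 p.2) (X.b m s v) =
          X.b m s (opw (l.map fun p => X.J p.1 p.2) v) := by
        intro l
        induction l with
        | nil => rfl
        | cons a l ih => rw [List.map_cons, opw_cons, opw_cons, ih, X.Jb]
      rw [h1, hb, hv, map_zero, smul_zero]
    have hWc : ∀ l : List (ℤ × β), opw (l.map fun p => X.c p.1 p.2) X.vac ∈ W := by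
      intro l l'
      have h1 : ∀ l : List (ℤ × β), opw (l.map fun p => X.c p.1 p.2) X.vac ∈ X.Zs l.length ∧
          X.Chg (l.length : ℤ) (opw (l.map fun p => X.c p.1 p.2) X.vac) := by
        intro l
        induction l with
        | nil =>
          exact ⟨X.mem_Zs_zero.2 fun n s => X.b_vac _ _ (Int.natCast_nonneg n), Chg.vac⟩
        | cons a l ih =>
          rw [List.map_cons, opw_cons, List.length_cons]
          refine ⟨X.Zs_c _ _ ih.1, ?_⟩
          push_cast
          exact Chg.c _ _ ih.2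
      have h2 : ∀ l' : List (ℤ × g), opw (l'.map fun p => X.J p.1 p.2)
          (opw (l.map fun p => X.c p.1 p.2) X.vac) ∈ X.Zs l.length ∧
          X.Chg (l.length : ℤ) (opw (l'.map fun p => X.J p.1 p.2)
            (opw (l.map fun p => X.c p.1 p.2) X.vac)) := by
        intro l'
        induction l' with
        | nil => exact h1 l
        | cons a l' ih =>
          rw [List.map_cons, opw_cons]
          exact ⟨X.Zs_J _ _ ih.1, Chg.J _ _ ih.2⟩
      exact key _ _ _ le_rfl (h2 l').1 (h2 l').2 hcase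
    obtain ⟨K, iK, ⟨eK⟩⟩ := exists_order (ℕ × β)
    obtain ⟨U, iU, ⟨eU⟩⟩ := exists_order (ℕ × (β ⊕ η))
    have h1 := (hX K U eK eU).2
    have h2 : ∀ {α : Type} (f : α → E →ₗ[ℂ] E) (hf : ∀ a, ∀ v ∈ W, f a v ∈ W) (l : List α),
        ∀ v ∈ W, opw (l.map f) v ∈ W := by
      intro α f hf l v hv
      induction l with
      | nil => exact hv
      | cons a l ih =>
        rw [List.map_cons, opw_cons]
        exact hf a _ ih
    have h3 : Submodule.span ℂ (Set.range (X.vstd eK eU)) ≤ W := by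
      rw [Submodule.span_le]
      rintro _ ⟨w, rfl⟩
      refine h2 _ (fun i v hv => hWJ _ _ v hv) _ _ (h2 _ (fun i v hv => hWJ _ _ v hv) _ _
        (h2 _ (fun i v hv => hWb _ _ v hv) _ _ ?_))
      have h4 := hWc ((w.2.2.sort (· ≤ ·)).map fun i => (-((eK i).1 : ℤ) - 1, (eK i).2))
      rw [List.map_map] at h4
      exact h4
    ext v
    have h4 := h3 (h1 (show v ∈ (⊤ : Submodule ℂ E) from trivial)) []
    exact h4
  · -- `ε = 0` and there is at least one ghost
    rw [not_or, not_not, not_isEmpty_iff] at hcase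
    obtain ⟨hε, ⟨s⟩⟩ := hcase
    ext v
    obtain ⟨M, hM⟩ := X.smooth v
    have h1 := X.bc M (-M - 1) s s v
    rw [if_pos ⟨rfl, by omega⟩, (hM M le_rfl s).1, map_zero, add_zero] at h1
    rw [← h1, hb, hε, zero_smul, LinearMap.zero_apply]

end FVac

end

end WPE
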