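import Pool.Agent.WPE.FB3
import Pool.Agent.WPE.FB4a

/-! WPE, block FB4: `Q² = 0`, `[Q, Ĵ_a(m)]`. -/

set_option linter.unusedSectionVars false

namespace WPE

open scoped TensorProduct

noncomputable section

section gen

variable {K : Type} {E E' : Type} [AddCommGroup E] [Module ℂ E] [AddCommGroup E'] [Module ℂ E']

theorem psum_mem (f : K → E →ₗ[ℂ] E') (W : Submodule ℂ E') (v : E) (h : ∀ k, f k v ∈ W) :
    psum f v ∈ W := by
  by_cases hf : LF f
  · obtain ⟨s, hs⟩ := hf.exists_finset v
    rw [psum_eq_sum hf v s hs]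
    exact Submodule.sum_mem _ fun k _ => h k
  · unfold psum
    rw [dif_neg hf]
    exact zero_mem _

variable {β : Type} [Fintype β] [DecidableEq β] (X : CAR β E)

/-- Change of the threshold in the normal ordering. -/
theorem CAR.no_thr (M m : ℤ) (u t : β) (v : E) :
    ∃ s : Finset ℤ, (∀ r, r ∉ s → X.no M u t r v = 0) ∧
      ∀ s', s ⊆ s' → ∑ r ∈ s', (if m ≤ r then X.b (M - 1 - r) u (X.c r t v) else
        -(X.c r t (X.b (M - 1 - r) u v))) =
        psum (X.no M u t) v - (if u = t ∧ M = 0 then (m : ℂ) else 0) • v := by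
  classical
  obtain ⟨s0, hs0⟩ := (X.lf_no M u t).exists_finset v
  refine ⟨s0 ∪ Finset.Ico (min 0 m) (max 0 m), ?_, ?_⟩
  · intro r hr
    rw [Finset.notMem_union] at hr
    exact hs0 r hr.1
  · intro s' hs'
    rw [psum_eq_sum (X.lf_no M u t) v s' (fun r hr => hs0 r fun h =>
      hr (hs' (Finset.mem_union_left _ h)))]
    have key0 : ∀ a b c : E, a - b = -c → a = b - c := by
      intro a b c h
      rw [sub_eq_iff_eq_add] at h
      rw [h]
      abel
    refine key0 _ _ _ ?_
    rw [← Finset.sum_sub_distrib]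
    have h1 : ∀ r ∈ s', (if m ≤ r then X.b (M - 1 - r) u (X.c r t v) else
        -(X.c r t (X.b (M - 1 - r) u v))) - X.no M u t r v =
        (if r ∈ Finset.Ico (min 0 m) (max 0 m) then
          (if u = t ∧ M = 0 then (if m ≤ r then (1 : ℂ) else -1) else 0) • v else 0) := by
      intro r _
      have h2 := X.bc (M - 1 - r) r u t v
      have h3 : (if u = t ∧ M - 1 - r + r + 1 = 0 then v else 0) =
          (if u = t ∧ M = 0 then (1 : ℂ) else 0) • v := by
        by_cases h : u = t ∧ M = 0
        · rw [if_pos h, if_pos ⟨h.1, by omega⟩, one_smul]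
        · rw [if_neg h, if_neg fun h' => h ⟨h'.1, by omega⟩, zero_smul]
      rw [h3] at h2
      unfold CAR.no
      by_cases hm : m ≤ r
      · by_cases h0 : 0 ≤ r
        · rw [if_pos hm, if_pos h0, if_neg (by rw [Finset.mem_Ico]; omega)]
          exact sub_self _
        · rw [if_pos hm, if_neg h0, if_pos (by rw [Finset.mem_Ico]; omega), if_pos hm,
            LinearMap.neg_apply, LinearMap.comp_apply, sub_neg_eq_add]
          exact h2
      · by_cases h0 : 0 ≤ r
        · rw [if_neg hm, if_pos h0, if_pos (by rw [Finset.mem_Ico]; omega), if_neg hm,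
            LinearMap.comp_apply, ← neg_add', add_comm, h2, ← neg_smul]
          congr 1
          split_ifs
          · rfl
          · rw [neg_zero]
        · rw [if_neg hm, if_neg h0, if_neg (by rw [Finset.mem_Ico]; omega)]
          exact sub_self _
    rw [Finset.sum_congr rfl h1, ← Finset.sum_filter]
    have h4 : s'.filter (fun r => r ∈ Finset.Ico (min 0 m) (max 0 m)) =
        Finset.Ico (min 0 m) (max 0 m) := by
      ext r
      rw [Finset.mem_filter]
      exact ⟨fun h => h.2, fun h => ⟨hs' (Finset.mem_union_right _ h), h⟩⟩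
    rw [h4]
    by_cases h : u = t ∧ M = 0
    · simp only [if_pos h]
      rcases le_total 0 m with hm | hm
      · rw [min_eq_left hm, max_eq_right hm]
        rw [Finset.sum_congr rfl (g := fun _ => (-1 : ℂ) • v) fun r hr => by
          rw [Finset.mem_Ico] at hr
          rw [if_neg (by omega)]]
        rw [Finset.sum_const, Int.card_Ico, sub_zero, ← Nat.cast_smul_eq_nsmul ℂ, smul_smul,
          ← neg_smul]
        congr 1
        have : ((m.toNat : ℕ) : ℂ) = (m : ℂ) := by
          have := Int.toNat_of_nonneg hm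
          exact_mod_cast congrArg (Int.cast : ℤ → ℂ) this
        rw [this]
        ring
      · rw [min_eq_right hm, max_eq_left hm]
        rw [Finset.sum_congr rfl (g := fun _ => (1 : ℂ) • v) fun r hr => by
          rw [Finset.mem_Ico] at hr
          rw [if_pos (by omega)]]
        rw [Finset.sum_const, Int.card_Ico, zero_sub, ← Nat.cast_smul_eq_nsmul ℂ, smul_smul,
          ← neg_smul]
        congr 1
        have : (((-m).toNat : ℕ) : ℂ) = -(m : ℂ) := by
          have := Int.toNat_of_nonneg (neg_nonneg.2 hm)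
          have h5 := congrArg (Int.cast : ℤ → ℂ) this
          push_cast at h5
          exact_mod_cast h5
        rw [this]
        ring
    · simp only [if_neg h, zero_smul, Finset.sum_const_zero, neg_zero]

end gen

variable {g β η : Type} [LieRing g] [LieAlgebra ℂ g] [Fintype β] [DecidableEq β] [Fintype η]
  [DecidableEq η] {L : LD g β η} {k : ℂ} {E : Type} [AddCommGroup E] [Module ℂ E]

namespace FC

variable (X : FC L k E)

theorem psi_b (m n : ℤ) (y : L.nL) (s : β) (v : E) :
    X.psi m y (X.b n s v) + X.b n s (X.psi m y v) =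
      (if m + n + 1 = 0 then L.form (L.e s) ((y : L.bL) : g) else 0) • v := by
  rw [psi_apply', psi_apply', map_sum, ← Finset.sum_add_distrib, Finset.sum_eq_single s]
  · rw [map_smul, ← smul_add, add_comm (X.c m s (X.b n s v)), X.bc]
    by_cases h : m + n + 1 = 0
    · rw [if_pos h, if_pos ⟨rfl, by omega⟩]
    · rw [if_neg h, if_neg fun h' => h (by omega), smul_zero, zero_smul]
  · intro t _ ht
    rw [map_smul, ← smul_add, add_comm (X.c m t (X.b n s v)), X.bc,
      if_neg fun h' => ht h'.1.symm, smul_zero]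
  · intro h
    exact absurd (Finset.mem_univ s) h

/-- `{(c ⊗ f_t)[m], b_s(n)}` -/
theorem nop_b (hv κ : ℂ) (hκ : k + hv = κ) (hK : ∀ x y, L.trf x y = 2 * hv * L.form x y)
    (m n : ℤ) (c : L.bL) (t s : β) (v : E) :
    (X.gm hv κ hκ hK).nop m (c ⊗ₜ L.fN t) (X.b n s v) +
      X.b n s ((X.gm hv κ hκ hK).nop m (c ⊗ₜ L.fN t) v) =
      (if s = t then X.Jh (m + n) (c : g) v else 0) -
        ∑ u, L.form ⁅(c : g), L.e s⁆ (L.f u) • (psum (X.no (m + n) u t) v -
          (if u = t ∧ m + n = 0 then (m : ℂ) else 0) • v) := by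
  classical
  have hlf := (X.gm hv κ hκ hK).lf_nopF m c (L.fN t)
  obtain ⟨S1, hS1⟩ := hlf.exists_finset (X.b n s v)
  obtain ⟨S2, hS2⟩ := hlf.exists_finset v
  choose s0 hs0 hs1 using fun u => X.no_thr (m + n) m u t v
  let S : Finset ℤ := S1 ∪ S2 ∪ {m + n} ∪ (Finset.univ.biUnion s0).image (fun r => m - 1 - r)
  have e1 : S1 ⊆ S := fun x hx => Finset.mem_union_left _ (Finset.mem_union_left _
    (Finset.mem_union_left _ hx))
  have e2 : S2 ⊆ S := fun x hx => Finset.mem_union_left _ (Finset.mem_union_left _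
    (Finset.mem_union_right _ hx))
  have e3 : m + n ∈ S := Finset.mem_union_left _ (Finset.mem_union_right _
    (Finset.mem_singleton_self _))
  have e4 : ∀ u, s0 u ⊆ S.image (fun r => m - 1 - r) := by
    intro u r hr
    rw [Finset.mem_image]
    refine ⟨m - 1 - r, Finset.mem_union_right _ ?_, by ring⟩
    exact Finset.mem_image_of_mem _ (Finset.mem_biUnion.2 ⟨u, Finset.mem_univ u, hr⟩)
  have h1 : ∀ k' : ℤ, (X.gm hv κ hκ hK).nopF m c (L.fN t) k' (X.b n s v) +
      X.b n s ((X.gm hv κ hκ hK).nopF m c (L.fN t) k' v) =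
      (if k' = m + n then (if s = t then X.Jh (m + n) (c : g) v else 0) else 0) -
      ∑ u, L.form ⁅(c : g), L.e s⁆ (L.f u) • (if m ≤ m - 1 - k' then
        X.b (m + n - 1 - (m - 1 - k')) u (X.c (m - 1 - k') t v) else
        -(X.c (m - 1 - k') t (X.b (m + n - 1 - (m - 1 - k')) u v))) := by
    intro k'
    have g1 : ∀ w, (X.gm hv κ hκ hK).J k' c w = X.Jh k' (c : g) w := fun w => rfl
    have g2 : ∀ w, (X.gm hv κ hκ hK).ψ (m - 1 - k') (L.fN t) w = X.c (m - 1 - k') t w := by
      intro w
      show X.psi (m - 1 - k') (L.fN t) w = _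
      rw [X.psi_fN]
    have g3 : ∀ w, X.b n s (X.c (m - 1 - k') t w) + X.c (m - 1 - k') t (X.b n s w) =
        if k' = m + n then (if s = t then w else 0) else 0 := by
      intro w
      rw [X.bc]
      by_cases h : k' = m + n
      · rw [if_pos h]
        by_cases h' : s = t
        · rw [if_pos h', if_pos ⟨h', by omega⟩]
        · rw [if_neg h', if_neg fun h'' => h' h''.1]
      · rw [if_neg h, if_neg fun h'' => h (by omega)]
    have g4 : m + n - 1 - (m - 1 - k') = k' + n := by ring
    have g5 : ∀ w, X.Jh k' (c : g) (X.b n s w) = X.b n s (X.Jh k' (c : g) w) +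
        ∑ u, L.form ⁅(c : g), L.e s⁆ (L.f u) • X.b (k' + n) u w := by
      intro w
      rw [← X.Jh_b]
      abel
    have g6 : (if k' = m + n then (if s = t then X.Jh (m + n) (c : g) v else 0) else 0) =
        X.Jh k' (c : g) (if k' = m + n then (if s = t then v else 0) else 0) := by
      by_cases h : k' = m + n
      · rw [if_pos h, if_pos h, h]
        split_ifs
        · rfl
        · rw [map_zero]
      · rw [if_neg h, if_neg h, map_zero]
    rw [g6, ← g3, g4]
    unfold GMod.nopF
    by_cases hk : k' < 0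
    · rw [if_pos hk, LinearMap.comp_apply, LinearMap.comp_apply, g1, g1, g2, g2]
      simp only [if_pos (show m ≤ m - 1 - k' by omega)]
      rw [map_add, g5]
      abel
    · rw [if_neg hk, LinearMap.comp_apply, LinearMap.comp_apply, g1, g1, g2, g2]
      simp only [if_neg (show ¬ m ≤ m - 1 - k' by omega), smul_neg, Finset.sum_neg_distrib]
      rw [g5, map_add, map_sum]
      simp only [map_smul]
      have g7 : X.Jh k' (c : g) (X.b n s (X.c (m - 1 - k') t v) +
          X.c (m - 1 - k') t (X.b n s v)) =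
          X.b n s (X.c (m - 1 - k') t (X.Jh k' (c : g) v)) +
          X.c (m - 1 - k') t (X.b n s (X.Jh k' (c : g) v)) := by
        rw [g3, g3]
        by_cases h : k' = m + n
        · rw [if_pos h, if_pos h]
          split_ifs
          · rfl
          · rw [map_zero]
        · rw [if_neg h, if_neg h, map_zero]
      rw [g7]
      abel
  rw [GMod.nop_tmul, psum_eq_sum hlf _ S fun k' hk => hS1 k' fun h => hk (e1 h),
    psum_eq_sum hlf _ S fun k' hk => hS2 k' fun h => hk (e2 h), map_sum,
    ← Finset.sum_add_distrib, Finset.sum_congr rfl fun k' _ => h1 k', Finset.sum_sub_distrib,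
    Finset.sum_ite_eq' S, if_pos e3, Finset.sum_comm]
  congr 1
  refine Finset.sum_congr rfl fun u _ => ?_
  rw [← Finset.smul_sum, ← hs1 u _ (e4 u), Finset.sum_image]
  intro a _ b _ h
  have h' : m - 1 - a = m - 1 - b := h
  omega

/-- `{qq(a)[m], b_s(n)}` -/
theorem qq_b (hv κ : ℂ) (hκ : k + hv = κ) (hK : ∀ x y, L.trf x y = 2 * hv * L.form x y)
    (m n : ℤ) (a : L.bL) (s : β) (v : E) :
    (X.gm hv κ hκ hK).qq (L.qd κ).Om (L.qd κ).Lk (L.qd κ).Fm m a (X.b n s v) +
      X.b n s ((X.gm hv κ hκ hK).qq (L.qd κ).Om (L.qd κ).Lk (L.qd κ).Fm m a v) =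
      X.Jh (m + n) (L.Pb ⁅L.e s, (a : g)⁆) v - X.G (m + n) (L.sm a s) v +
      (if m + n = 0 then (m : ℂ) * ((L.sm a s).trace - L.form (L.e s) ((L.LkN κ a : L.bL) : g))
        else 0) • v +
      (if m + n + 1 = 0 then L.form L.F ⁅(a : g), L.e s⁆ else 0) • v := by
  have h1 : (X.gm hv κ hκ hK).nop m ((L.qd κ).Om a) (X.b n s v) +
      X.b n s ((X.gm hv κ hκ hK).nop m ((L.qd κ).Om a) v) =
      X.Jh (m + n) (L.Pb ⁅L.e s, (a : g)⁆) v - X.G (m + n) (L.sm a s) v +
      (if m + n = 0 then (m : ℂ) * (L.sm a s).trace else 0) • v := by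
    have e : (L.qd κ).Om a = ∑ b, L.pib ⁅L.e b, (a : g)⁆ ⊗ₜ[ℂ] L.fN b := L.OmB_apply a
    rw [e, map_sum, LinearMap.sum_apply, LinearMap.sum_apply, map_sum, ← Finset.sum_add_distrib,
      Finset.sum_congr rfl fun b _ => X.nop_b hv κ hκ hK m n _ b s v, Finset.sum_sub_distrib,
      Finset.sum_ite_eq Finset.univ s, if_pos (Finset.mem_univ s), CAR.G_eq, sub_add]
    congr 1
    rw [Finset.sum_comm]
    have e2 : ∀ u b, L.form ⁅((L.pib ⁅L.e b, (a : g)⁆ : L.bL) : g), L.e s⁆ (L.f u) =
        L.sm a s u b := fun u b => rfl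
    simp only [e2, smul_sub, Finset.sum_sub_distrib]
    congr 1
    · rw [LinearMap.sum_apply]
      refine Finset.sum_congr rfl fun u _ => ?_
      rw [LinearMap.sum_apply]
      rfl
    · have e3 : ∀ u, ∑ b, L.sm a s u b • ((if u = b ∧ m + n = 0 then (m : ℂ) else 0) • v) =
          (if m + n = 0 then (m : ℂ) * L.sm a s u u else 0) • v := by
        intro u
        rw [Finset.sum_eq_single u]
        · rw [smul_smul]
          congr 1
          by_cases h : m + n = 0
          · rw [if_pos ⟨rfl, h⟩, if_pos h, mul_comm]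
          · rw [if_neg fun h' => h h'.2, if_neg h, mul_zero]
        · intro b _ hb
          rw [if_neg fun h' => hb h'.1.symm, zero_smul, smul_zero]
        · intro h
          exact absurd (Finset.mem_univ u) h
      rw [Finset.sum_congr rfl fun u _ => e3 u, ← Finset.sum_smul]
      congr 1
      by_cases h : m + n = 0
      · simp only [if_pos h]
        rw [← Finset.mul_sum]
        rfl
      · simp only [if_neg h, Finset.sum_const_zero]
  have h2 : (X.gm hv κ hκ hK).ψ (m - 1) ((L.qd κ).Lk a) (X.b n s v) +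
      X.b n s ((X.gm hv κ hκ hK).ψ (m - 1) ((L.qd κ).Lk a) v) =
      (if m + n = 0 then L.form (L.e s) ((L.LkN κ a : L.bL) : g) else 0) • v := by
    have h := X.psi_b (m - 1) n (L.LkN κ a) s v
    have e : (m - 1 + n + 1 = 0) = (m + n = 0) := by
      apply propext
      constructor <;> intro <;> omega
    simp only [e] at h
    exact h
  have h3 : (X.gm hv κ hκ hK).ψ m ((L.qd κ).Fm a) (X.b n s v) +
      X.b n s ((X.gm hv κ hκ hK).ψ m ((L.qd κ).Fm a) v) =
      (if m + n + 1 = 0 then L.form L.F ⁅(a : g), L.e s⁆ else 0) • v := by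
    have h := X.psi_b m n ((L.qd κ).Fm a) s v
    have e : L.form (L.e s) (((((L.qd κ).Fm a : L.nL) : L.bL)) : g) =
        L.form L.F ⁅(a : g), L.e s⁆ := by
      have e1 : (((((L.qd κ).Fm a : L.nL) : L.bL)) : g) = -⁅(a : g), L.F⁆ := by
        show -⁅(a : g), L.Pn L.F⁆ = _
        rw [(la_P L).Pn_nm _ (la_G L).F_nm]
      rw [e1, map_neg, ← L.inv, ← lie_skew, map_neg, LinearMap.neg_apply, neg_neg, L.symm]
    rw [e] at h
    exact h
  rw [GMod.qq_apply, GMod.qq_apply, map_add, map_sub, map_smul]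
  have e : ∀ (r : ℂ) (x y z x' y' z' : E), x - r • y + z + (x' - r • y' + z') =
      (x + x') - r • (y + y') + (z + z') := by
    intro r x y z x' y' z'
    rw [smul_add]
    abel
  rw [e, h1, h2, h3, smul_smul]
  have e2 : ∀ (A B C : E) (r r' r'' : ℂ), r = r' - r'' →
      A - B + r' • v - r'' • v + C = A - B + r • v + C := by
    intro A B C r r' r'' h
    rw [h, sub_smul]
    abel
  refine e2 _ _ _ _ _ _ ?_
  by_cases h : m + n = 0
  · rw [if_pos h, if_pos h, if_pos h]
    ring
  · rw [if_neg h, if_neg h, if_neg h]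
    ring

end FC

namespace FVac

variable (X : FVac L k E)

theorem Chg_qq (hv κ : ℂ) (hκ : k + hv = κ) (hK : ∀ x y, L.trf x y = 2 * hv * L.form x y)
    (m : ℤ) (a : L.bL) {q : ℤ} {v : E} (h : X.Chg q v) :
    X.Chg (q + 1) ((X.gm hv κ hκ hK).qq (L.qd κ).Om (L.qd κ).Lk (L.qd κ).Fm m a v) := by
  rw [GMod.qq_apply]
  refine (X.chg (q + 1)).add_mem ((X.chg (q + 1)).sub_mem ?_ ?_) ?_
  · have e : (L.qd κ).Om a = ∑ b, L.pib ⁅L.e b, (a : g)⁆ ⊗ₜ[ℂ] L.fN b := L.OmB_apply a
    rw [e, map_sum, LinearMap.sum_apply]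
    refine Submodule.sum_mem _ fun b _ => ?_
    rw [GMod.nop_tmul]
    refine psum_mem _ _ _ fun k' => ?_
    unfold GMod.nopF
    split_ifs
    · exact X.Chg_Jh _ _ (X.Chg_psi _ _ h)
    · exact X.Chg_psi _ _ (X.Chg_Jh _ _ h)
  · exact (X.chg (q + 1)).smul_mem _ (X.Chg_psi _ _ h)
  · exact X.Chg_psi _ _ h

theorem Q_A (hX : X.Std) (n : ℤ) (s : β) (v : E) : X.Q (X.A n s v) = X.A n s (X.Q v) := by
  have key : X.Q ∘ₗ X.A n s - X.A n s ∘ₗ X.Q = 0 := by
    refine X.ub hX _ (-1) 1 le_rfl ?_ ?_
    · intro r v h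
      exact (X.chg (r + 1)).sub_mem (X.Chg_Q (X.Chg_A n s h)) (X.Chg_A n s (X.Chg_Q h))
    · intro m t v
      rw [LinearMap.sub_apply, LinearMap.sub_apply, LinearMap.comp_apply, LinearMap.comp_apply,
        LinearMap.comp_apply, LinearMap.comp_apply]
      have hA : ∀ w, X.A n s (X.b m t w) = X.b m t (X.A n s w) +
          ∑ u, L.form ⁅L.e s, L.e t⁆ (L.f u) • X.b (n + m) u w := by
        intro w
        rw [← X.A_b]
        abel
      have hQ : ∀ (m : ℤ) (t : β) (w : E), X.Q (X.b m t w) = X.A m t w - X.b m t (X.Q w) := by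
        intro m t w
        rw [← X.Q_b]
        abel
      have hAA := X.A_A n m s t v
      rw [hA, map_add, map_sum, hQ, hQ, map_sub, hA]
      simp only [map_smul, hQ, smul_sub, Finset.sum_sub_distrib]
      rw [← hAA]
      rw [map_sub, neg_one_smul]
      abel
  exact sub_eq_zero.1 (LinearMap.congr_fun key v)

theorem Q_sq (hX : X.Std) (v : E) : X.Q (X.Q v) = 0 := by
  have key : X.Q ∘ₗ X.Q = 0 := by
    refine X.ub hX _ 1 2 (by norm_num) ?_ ?_
    · intro r v h
      have h1 := X.Chg_Q (X.Chg_Q h)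
      rw [add_assoc] at h1
      exact h1
    · intro m t v
      have hQ : ∀ (w : E), X.Q (X.b m t w) = X.A m t w - X.b m t (X.Q w) := by
        intro w
        rw [← X.Q_b]
        abel
      rw [LinearMap.comp_apply, LinearMap.comp_apply, hQ, map_sub, hQ, X.Q_A hX, one_smul]
      abel
  exact LinearMap.congr_fun key v

theorem Q_Jh (hX : X.Std) (hv κ : ℂ) (hκ : k + hv = κ)
    (hK : ∀ x y, L.trf x y = 2 * hv * L.form x y) (m : ℤ)
    (a : L.bL) (v : E) : X.Q (X.Jh m (a : g) v) = X.Jh m (a : g) (X.Q v) +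
      (X.gm hv κ hκ hK).qq (L.qd κ).Om (L.qd κ).Lk (L.qd κ).Fm m a v := by
  have key : X.Q ∘ₗ X.Jh m (a : g) - X.Jh m (a : g) ∘ₗ X.Q -
      (X.gm hv κ hκ hK).qq (L.qd κ).Om (L.qd κ).Lk (L.qd κ).Fm m a = 0 := by
    refine X.ub hX _ (-1) 1 le_rfl ?_ ?_
    · intro r v h
      exact (X.chg (r + 1)).sub_mem ((X.chg (r + 1)).sub_mem (X.Chg_Q (X.Chg_Jh m _ h))
        (X.Chg_Jh m _ (X.Chg_Q h))) (X.Chg_qq hv κ hκ hK m a h)
    · intro n s v
      simp only [LinearMap.sub_apply, LinearMap.comp_apply]
      have hJ : ∀ w, X.Jh m (a : g) (X.b n s w) = X.b n s (X.Jh m (a : g) w) +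
          ∑ t, L.form ⁅(a : g), L.e s⁆ (L.f t) • X.b (m + n) t w := by
        intro w
        rw [← X.Jh_b]
        abel
      have hQ : ∀ (m : ℤ) (t : β) (w : E), X.Q (X.b m t w) = X.A m t w - X.b m t (X.Q w) := by
        intro m t w
        rw [← X.Q_b]
        abel
      have hqq := X.qq_b hv κ hκ hK m n a s v
      -- the commutator of `A_s(n)` and `Ĵ_a(m)`
      have h1 : X.A n s (X.Jh m (a : g) v) - X.Jh m (a : g) (X.A n s v) =
          -(X.Jh (m + n) ⁅(a : g), L.e s⁆ v + X.G (m + n) (L.sm a s) v +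
            (if m + n = 0 then (m : ℂ) * (k * L.form (a : g) (L.e s) +
              (L.adp (a : g) * L.adp (L.e s)).trace) else 0) • v) := by
        have e1 : ∀ w, X.A n s w = X.Jh n (L.e s) w +
            (if n = -1 then L.form L.F (L.e s) else 0) • w := by
          intro w
          unfold FC.A
          split_ifs
          · rfl
          · rw [add_zero, zero_smul, add_zero]
        have e2 := X.Jh_Jh' m n (a : g) (L.e s) v
        rw [L.adp_bn, map_add, LinearMap.add_apply] at e2
        rw [e1, e1, map_add, map_smul, X.Jh_apply (m + n), LinearMap.add_apply]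
        rw [← neg_inj, neg_neg]
        have e3 : ∀ x y z : E, -(x + z - (y + z)) = y - x := by
          intro x y z
          abel
        rw [e3, e2]
        abel
      -- the `A`-term
      have h2 : ∑ t, L.form ⁅(a : g), L.e s⁆ (L.f t) • X.A (m + n) t v =
          X.Jh (m + n) (L.Pp ⁅(a : g), L.e s⁆) v +
            (if m + n + 1 = 0 then L.form L.F ⁅(a : g), L.e s⁆ else 0) • v := by
        have e1 : ∀ t, X.A (m + n) t v = X.Jh (m + n) (L.e t) v +
            (if m + n + 1 = 0 then L.form L.F (L.e t) else 0) • v := by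
          intro t
          unfold FC.A
          by_cases h : m + n + 1 = 0
          · rw [if_pos (show m + n = -1 by omega), if_pos h]
            rfl
          · rw [if_neg (show ¬ m + n = -1 by omega), if_neg h, add_zero, zero_smul, add_zero]
        simp only [e1, smul_add, Finset.sum_add_distrib]
        congr 1
        · rw [(la_P L).Pp_apply, map_sum, LinearMap.sum_apply]
          refine Finset.sum_congr rfl fun t _ => ?_
          rw [map_smul, LinearMap.smul_apply]
        · by_cases h : m + n + 1 = 0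
          · simp only [if_pos h, smul_smul]
            rw [← Finset.sum_smul]
            congr 1
            have e2 : L.F = ∑ t, L.form L.F (L.e t) • L.f t :=
              (la_P L).nm_exp _ (la_G L).F_nm
            rw [L.symm]
            conv_rhs => rw [e2]
            rw [map_sum]
            refine Finset.sum_congr rfl fun t _ => ?_
            rw [map_smul, smul_eq_mul, mul_comm]
          · simp only [if_neg h, zero_smul, smul_zero, Finset.sum_const_zero]
      have h3 : X.Jh (m + n) ⁅(a : g), L.e s⁆ v = X.Jh (m + n) (L.Pp ⁅(a : g), L.e s⁆) v -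
          X.Jh (m + n) (L.Pb ⁅L.e s, (a : g)⁆) v := by
        rw [← LinearMap.sub_apply, ← map_sub]
        congr 2
        rw [← lie_skew (a : g) (L.e s), map_neg, (la_P L).Pb_eq]
        abel
      have h4 : (if m + n = 0 then (m : ℂ) * (k * L.form (a : g) (L.e s) +
              (L.adp (a : g) * L.adp (L.e s)).trace) else 0) =
          -(if m + n = 0 then (m : ℂ) * ((L.sm a s).trace -
            L.form (L.e s) ((L.LkN κ a : L.bL) : g)) else 0) := by
        have h5 := L.tr_bn hv hK k a s
        rw [hκ] at h5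
        by_cases h : m + n = 0
        · rw [if_pos h, if_pos h, ← h5]
          ring
        · rw [if_neg h, if_neg h, neg_zero]
      have h6 : (X.gm hv κ hκ hK).qq (L.qd κ).Om (L.qd κ).Lk (L.qd κ).Fm m a (X.b n s v) =
          (X.A n s (X.Jh m (a : g) v) - X.Jh m (a : g) (X.A n s v)) +
          ∑ t, L.form ⁅(a : g), L.e s⁆ (L.f t) • X.A (m + n) t v -
          X.b n s ((X.gm hv κ hκ hK).qq (L.qd κ).Om (L.qd κ).Lk (L.qd κ).Fm m a v) := by
        rw [eq_sub_iff_add_eq, hqq, h1, h2, h3, h4, neg_smul]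
        abel
      rw [h6, hJ, map_add, map_sum, hQ, hQ, map_sub, hJ]
      simp only [map_smul, hQ, smul_sub, Finset.sum_sub_distrib]
      rw [map_sub, map_sub, neg_one_smul]
      abel
  have h := LinearMap.congr_fun key v
  rw [LinearMap.zero_apply, LinearMap.sub_apply, LinearMap.sub_apply, sub_sub, sub_eq_zero] at h
  exact h

end FVac

end

end WPE
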