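import Pool.Agent.WPE.FB6A
import Pool.Agent.WPE.PBW2

/-! WPE, block FB6: the model and the universal property. -/

set_option linter.unusedSectionVars false

namespace WPE

open scoped TensorProduct

noncomputable section

/-! ### Sorted lists of a lexicographic sum -/

namespace FBL

variable {K U : Type}

/-- The left part. -/
def lf (l : List (K ⊕ₗ U)) : List K := l.filterMap fun x => (ofLex x).getLeft?

/-- The right part. -/
def rt (l : List (K ⊕ₗ U)) : List U := l.filterMap fun x => (ofLex x).getRight?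

/-- The concatenation. -/
def jn (p : List K) (q : List U) : List (K ⊕ₗ U) :=
  p.map (fun x => toLex (Sum.inl x)) ++ q.map (fun x => toLex (Sum.inr x))

theorem lf_jn (p : List K) (q : List U) : lf (jn p q) = p := by
  unfold lf jn
  rw [List.filterMap_append, List.filterMap_map, List.filterMap_map]
  have h1 : ((fun x : K ⊕ₗ U => (ofLex x).getLeft?) ∘ fun x : K => toLex (Sum.inl x)) =
      fun x => some x := rfl
  have h2 : ((fun x : K ⊕ₗ U => (ofLex x).getLeft?) ∘ fun x : U => toLex (Sum.inr x)) =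
      fun _ => none := rfl
  rw [h1, h2, List.filterMap_some]
  simp

theorem rt_jn (p : List K) (q : List U) : rt (jn p q) = q := by
  unfold rt jn
  rw [List.filterMap_append, List.filterMap_map, List.filterMap_map]
  have h1 : ((fun x : K ⊕ₗ U => (ofLex x).getRight?) ∘ fun x : K => toLex (Sum.inl x)) =
      fun _ => none := rfl
  have h2 : ((fun x : K ⊕ₗ U => (ofLex x).getRight?) ∘ fun x : U => toLex (Sum.inr x)) =
      fun x => some x := rfl
  rw [h1, h2, List.filterMap_some]
  simp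

variable [LinearOrder K] [LinearOrder U]

theorem jn_sorted {p : List K} {q : List U} (hp : p.Pairwise (· ≤ ·)) (hq : q.Pairwise (· ≤ ·)) :
    (jn p q).Pairwise (· ≤ ·) := by
  unfold jn
  rw [List.pairwise_append, List.pairwise_map, List.pairwise_map]
  refine ⟨hp.imp fun h => Sum.Lex.inl_le_inl_iff.2 h, hq.imp fun h => Sum.Lex.inr_le_inr_iff.2 h,
    ?_⟩
  intro a ha b hb
  obtain ⟨x, -, rfl⟩ := List.mem_map.1 ha
  obtain ⟨y, -, rfl⟩ := List.mem_map.1 hb
  exact Sum.Lex.inl_le_inr x y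

theorem jn_lf_rt (l : List (K ⊕ₗ U)) (h : l.Pairwise (· ≤ ·)) : l = jn (lf l) (rt l) := by
  induction l with
  | nil => rfl
  | cons x l ih =>
    rw [List.pairwise_cons] at h
    have h1 := ih h.2
    obtain ⟨x, rfl⟩ := toLex.surjective x
    rcases x with x | x
    · show toLex (Sum.inl x) :: l = toLex (Sum.inl x) :: jn (lf l) (rt l)
      rw [← h1]
    · have h2 : lf l = [] := by
        unfold lf
        rw [List.filterMap_eq_nil_iff]
        intro y hy
        have h3 := h.1 y hy
        obtain ⟨y, rfl⟩ := toLex.surjective y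
        rcases y with y | y
        · exact absurd h3 (Sum.Lex.not_inr_le_inl)
        · rfl
      have h4 : lf (toLex (Sum.inr x) :: l : List (K ⊕ₗ U)) = lf l := rfl
      have h5 : rt (toLex (Sum.inr x) :: l : List (K ⊕ₗ U)) = x :: rt l := rfl
      rw [h4, h5, h2]
      rw [h2] at h1
      show toLex (Sum.inr x) :: l = toLex (Sum.inr x) :: jn [] (rt l)
      rw [← h1]

/-- The bijection on sorted lists. -/
def sj (p : SL K × SL U) : SL (K ⊕ₗ U) := ⟨jn p.1.1 p.2.1, jn_sorted p.1.2 p.2.2⟩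

theorem sj_inj : Function.Injective (sj (K := K) (U := U)) := by
  rintro ⟨p, q⟩ ⟨p', q'⟩ h
  have h1 : jn p.1 q.1 = jn p'.1 q'.1 := congrArg Subtype.val h
  have h2 : p.1 = p'.1 := by rw [← lf_jn p.1 q.1, h1, lf_jn]
  have h3 : q.1 = q'.1 := by rw [← rt_jn p.1 q.1, h1, rt_jn]
  exact Prod.ext (Subtype.ext h2) (Subtype.ext h3)

theorem sj_surj : Function.Surjective (sj (K := K) (U := U)) := by
  rintro ⟨l, hl⟩
  have h1 := jn_lf_rt l hl
  have h2 := hl
  rw [h1] at h2
  unfold jn at h2
  rw [List.pairwise_append, List.pairwise_map, List.pairwise_map] at h2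
  refine ⟨(⟨lf l, h2.1.imp fun h => Sum.Lex.inl_le_inl_iff.1 h⟩,
    ⟨rt l, h2.2.1.imp fun h => Sum.Lex.inr_le_inr_iff.1 h⟩), ?_⟩
  exact Subtype.ext h1.symm

end FBL

/-! ### The basis of `g` -/

variable {g β η : Type} [LieRing g] [LieAlgebra ℂ g] [Fintype β] [DecidableEq β] [Fintype η]
  [DecidableEq η]

namespace LD

variable (L : LD g β η)

/-- The basis `e s`, `f s`, `h i` of `g`. -/
def gv : β ⊕ (β ⊕ η) → g := Sum.elim L.e L.bb

theorem gv_span : ⊤ ≤ Submodule.span ℂ (Set.range L.gv) := by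
  intro x _
  rw [L.decomp x]
  refine add_mem (add_mem (Submodule.sum_mem _ fun b _ => Submodule.smul_mem _ _
    (Submodule.subset_span ⟨Sum.inl b, rfl⟩)) (Submodule.sum_mem _ fun b _ =>
    Submodule.smul_mem _ _ (Submodule.subset_span ⟨Sum.inr (Sum.inr b), rfl⟩)))
    (Submodule.sum_mem _ fun b _ =>
    Submodule.smul_mem _ _ (Submodule.subset_span ⟨Sum.inr (Sum.inl b), rfl⟩))

theorem orth_h' (x : g) (hx : ∀ i, L.form x (L.h i) = 0) (j : η) : L.form x (L.h' j) = 0 := by
  have key : ∀ y ∈ Submodule.span ℂ (Set.range L.h), L.form x y = 0 := by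
    intro y hy
    induction hy using Submodule.span_induction with
    | mem y hy => obtain ⟨i, rfl⟩ := hy; exact hx i
    | zero => rw [map_zero]
    | add y z _ _ hy hz => rw [map_add, hy, hz, add_zero]
    | smul a y _ hy => rw [map_smul, hy, smul_zero]
  exact key _ (L.h'_mem j)

theorem gv_li : LinearIndependent ℂ L.gv := by
  rw [Fintype.linearIndependent_iff]
  intro a ha
  rw [Fintype.sum_sum_type, Fintype.sum_sum_type] at ha
  have hp : ∀ y : g, ∑ b, a (Sum.inl b) * L.form (L.e b) y +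
      (∑ b, a (Sum.inr (Sum.inl b)) * L.form (L.f b) y +
        ∑ i, a (Sum.inr (Sum.inr i)) * L.form (L.h i) y) = 0 := by
    intro y
    have h := congrArg (fun z => L.form z y) ha
    simp only [map_add, map_sum, map_smul, LinearMap.add_apply, LinearMap.sum_apply,
      LinearMap.smul_apply, smul_eq_mul, map_zero, LinearMap.zero_apply] at h
    exact h
  rintro (b | b | i)
  · have h := hp (L.f b)
    rw [Finset.sum_eq_single b (fun c _ hc => by rw [L.ef, if_neg hc, mul_zero])
      (fun h => absurd (Finset.mem_univ b) h), L.ef, if_pos rfl, mul_one,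
      Finset.sum_eq_zero (fun c _ => by rw [L.ff, mul_zero]),
      Finset.sum_eq_zero (fun c _ => by rw [L.symm, L.fh, mul_zero]), add_zero, add_zero] at h
    exact h
  · have h := hp (L.e b)
    rw [Finset.sum_eq_zero (fun c _ => by rw [L.ee, mul_zero]),
      Finset.sum_eq_single b (fun c _ hc => by rw [L.symm, L.ef, if_neg (Ne.symm hc), mul_zero])
      (fun h => absurd (Finset.mem_univ b) h), L.symm, L.ef, if_pos rfl, mul_one,
      Finset.sum_eq_zero (fun c _ => by rw [L.symm, L.eh, mul_zero]), add_zero, zero_add] at h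
    exact h
  · have h := hp (L.h' i)
    rw [Finset.sum_eq_zero (fun c _ => by rw [L.orth_h' _ (L.eh c), mul_zero]),
      Finset.sum_eq_zero (fun c _ => by rw [L.orth_h' _ (L.fh c), mul_zero]),
      Finset.sum_eq_single i (fun c _ hc => by rw [L.hh', if_neg hc, mul_zero])
      (fun h => absurd (Finset.mem_univ i) h), L.hh', if_pos rfl, mul_one, zero_add,
      zero_add] at h
    exact h

/-- The basis `e s`, `f s`, `h i` of `g`. -/
def gB : Module.Basis (β ⊕ (β ⊕ η)) ℂ g := Module.Basis.mk L.gv_li L.gv_span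

theorem gB_apply (i : β ⊕ (β ⊕ η)) : L.gB i = L.gv i := Module.Basis.mk_apply _ _ i

end LD

/-! ### Words -/

section words

variable {E E' : Type} [AddCommGroup E] [Module ℂ E] [AddCommGroup E'] [Module ℂ E']

theorem opw_append (l l' : List (E →ₗ[ℂ] E)) (v : E) : opw (l ++ l') v = opw l (opw l' v) := by
  unfold opw
  rw [List.foldr_append]

theorem opw_cons (T : E →ₗ[ℂ] E) (l : List (E →ₗ[ℂ] E)) (v : E) :
    opw (T :: l) v = T (opw l v) := rfl

/-- Homomorphisms map words to words. -/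
theorem opw_map {α : Type} (F : E →ₗ[ℂ] E') (f : α → E →ₗ[ℂ] E) (f' : α → E' →ₗ[ℂ] E')
    (h : ∀ a v, F (f a v) = f' a (F v)) (l : List α) (v : E) :
    F (opw (l.map f) v) = opw (l.map f') (F v) := by
  induction l with
  | nil => rfl
  | cons a l ih =>
    rw [List.map_cons, List.map_cons, opw_cons, opw_cons, h, ih]

end words

namespace Fer

variable {K : Type} [LinearOrder K] (eK : K ≃ ℕ × β)

/-- The list of letters of `(S_b, S_c)`. -/
def gl (p : Finset K × Finset K) : List (Gx β) :=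
  (p.1.sort (· ≤ ·)).map (fun i => Gx.P (eK i).1 (eK i).2) ++
    (p.2.sort (· ≤ ·)).map (fun i => Gx.S (eK i).1 (eK i).2)

theorem P_mem_gl (p : Finset K × Finset K) (i : K) :
    Gx.P (eK i).1 (eK i).2 ∈ gl eK p ↔ i ∈ p.1 := by
  unfold gl
  rw [List.mem_append, List.mem_map, List.mem_map]
  constructor
  · rintro (⟨j, hj, h⟩ | ⟨j, hj, h⟩)
    · rw [Gx.P_inj] at h
      rw [← eK.injective (Prod.ext h.1 h.2)]
      exact (Finset.mem_sort _).1 hj
    · exact absurd h.symm (Gx.P_ne_S _ _ _ _)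
  · intro h
    exact Or.inl ⟨i, (Finset.mem_sort _).2 h, rfl⟩

theorem S_mem_gl (p : Finset K × Finset K) (i : K) :
    Gx.S (eK i).1 (eK i).2 ∈ gl eK p ↔ i ∈ p.2 := by
  unfold gl
  rw [List.mem_append, List.mem_map, List.mem_map]
  constructor
  · rintro (⟨j, hj, h⟩ | ⟨j, hj, h⟩)
    · exact absurd h (Gx.P_ne_S _ _ _ _)
    · rw [Gx.S_inj] at h
      rw [← eK.injective (Prod.ext h.1 h.2)]
      exact (Finset.mem_sort _).1 hj
  · intro h
    exact Or.inr ⟨i, (Finset.mem_sort _).2 h, rfl⟩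

theorem gl_nodup (p : Finset K × Finset K) : (gl eK p).Nodup := by
  unfold gl
  rw [List.nodup_append]
  refine ⟨(Finset.sort_nodup _ _).map fun i j h => ?_, (Finset.sort_nodup _ _).map fun i j h => ?_,
    ?_⟩
  · rw [Gx.P_inj] at h
    exact eK.injective (Prod.ext h.1 h.2)
  · rw [Gx.S_inj] at h
    exact eK.injective (Prod.ext h.1 h.2)
  · intro a ha b hb hab
    obtain ⟨i, -, rfl⟩ := List.mem_map.1 ha
    obtain ⟨j, -, rfl⟩ := List.mem_map.1 hb
    exact Gx.P_ne_S _ _ _ _ hab

/-- The set of letters of `(S_b, S_c)`. -/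
def gs (p : Finset K × Finset K) : Finset (Gx β) := (gl eK p).toFinset

theorem gs_inj : Function.Injective (gs eK) := by
  rintro ⟨p, q⟩ ⟨p', q'⟩ h
  refine Prod.ext (Finset.ext fun i => ?_) (Finset.ext fun i => ?_)
  · show i ∈ p ↔ i ∈ p'
    rw [← P_mem_gl eK (p, q), ← P_mem_gl eK (p', q'), ← List.mem_toFinset, ← List.mem_toFinset,
      show (gl eK (p, q)).toFinset = (gl eK (p', q')).toFinset from h]
  · show i ∈ q ↔ i ∈ q'
    rw [← S_mem_gl eK (p, q), ← S_mem_gl eK (p', q'), ← List.mem_toFinset, ← List.mem_toFinset,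
      show (gl eK (p, q)).toFinset = (gl eK (p', q')).toFinset from h]

theorem gs_surj : Function.Surjective (gs eK) := by
  intro S
  have hP : Set.InjOn (fun i => Gx.P (eK i).1 (eK i).2)
      ((fun i => Gx.P (eK i).1 (eK i).2) ⁻¹' (S : Set (Gx β))) := fun i _ j _ h => by
    rw [Gx.P_inj] at h
    exact eK.injective (Prod.ext h.1 h.2)
  have hS : Set.InjOn (fun i => Gx.S (eK i).1 (eK i).2)
      ((fun i => Gx.S (eK i).1 (eK i).2) ⁻¹' (S : Set (Gx β))) := fun i _ j _ h => by
    rw [Gx.S_inj] at h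
    exact eK.injective (Prod.ext h.1 h.2)
  refine ⟨(S.preimage _ hP, S.preimage _ hS), ?_⟩
  ext x
  unfold gs
  rw [List.mem_toFinset]
  rcases x with ⟨m, s⟩ | ⟨m, s⟩
  · obtain ⟨i, hi⟩ := eK.surjective (m, s)
    have h1 : Gx.P m s = Gx.P (eK i).1 (eK i).2 := by rw [hi]
    rw [h1, P_mem_gl, Finset.mem_preimage]
  · obtain ⟨i, hi⟩ := eK.surjective (m, s)
    have h1 : Gx.S m s = Gx.S (eK i).1 (eK i).2 := by rw [hi]
    rw [h1, S_mem_gl, Finset.mem_preimage]

/-- The words are a basis of the Fock space. -/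
theorem wrd_li : LinearIndependent ℂ (fun p : Finset K × Finset K => wrd (gl eK p)) := by
  choose ε hε using fun p => wrd_nodup (gl eK p) (gl_nodup eK p)
  have h1 : LinearIndependent ℂ (fun p : Finset K × Finset K => (bs (gs eK p) : Fer (Gx β))) := by
    have h2 := (Finsupp.basisSingleOne (R := ℂ) (ι := Finset (Gx β))).linearIndependent.comp
      (gs eK) (gs_inj eK)
    have h3 : (⇑(Finsupp.basisSingleOne (R := ℂ) (ι := Finset (Gx β))) ∘ gs eK) =
        fun p : Finset K × Finset K => (bs (gs eK p) : Fer (Gx β)) := by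
      funext p
      show Finsupp.basisSingleOne (gs eK p) = _
      rw [Finsupp.coe_basisSingleOne]
      rfl
    rwa [h3] at h2
  have h2 := h1.units_smul ε
  have h3 : (ε • fun p : Finset K × Finset K => (bs (gs eK p) : Fer (Gx β))) =
      fun p => wrd (gl eK p) := by
    funext p
    exact (hε p).symm
  rwa [h3] at h2

theorem wrd_span : Submodule.span ℂ (Set.range fun p : Finset K × Finset K => wrd (gl eK p)) =
    ⊤ := by
  rw [Submodule.eq_top_iff']
  have h1 : ∀ S : Finset (Gx β), bs S ∈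
      Submodule.span ℂ (Set.range fun p : Finset K × Finset K => wrd (gl eK p)) := by
    intro S
    obtain ⟨p, rfl⟩ := gs_surj eK S
    obtain ⟨ε, hε⟩ := wrd_nodup (gl eK p) (gl_nodup eK p)
    have h2 : (bs (gs eK p) : Fer (Gx β)) = ((ε⁻¹ : ℂˣ) : ℂ) • wrd (gl eK p) := by
      rw [hε, Units.smul_def, smul_smul, Units.inv_mul, one_smul]
      rfl
    rw [h2]
    exact Submodule.smul_mem _ _ (Submodule.subset_span ⟨p, rfl⟩)
  intro v
  induction v using Finsupp.induction_linear with
  | zero => exact zero_mem _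
  | add f g hf hg => exact add_mem hf hg
  | single S a =>
    have h := Submodule.smul_mem _ a (h1 S)
    unfold bs at h
    rwa [Finsupp.smul_single, smul_eq_mul, mul_one] at h

end Fer

namespace LD

variable (L : LD g β η) (k : ℂ)

/-- The equivalence of the letters. -/
def eL {K U : Type} (eK : K ≃ ℕ × β) (eU : U ≃ ℕ × (β ⊕ η)) :
    K ⊕ₗ U ≃ ℕ × (β ⊕ (β ⊕ η)) :=
  (ofLex.trans (Equiv.sumCongr eK eU)).trans (Equiv.prodSumDistrib ℕ β (β ⊕ η)).symm

theorem eL_inl {K U : Type} (eK : K ≃ ℕ × β) (eU : U ≃ ℕ × (β ⊕ η)) (i : K) :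
    eL eK eU (toLex (Sum.inl i)) = ((eK i).1, Sum.inl (eK i).2) := rfl

theorem eL_inr {K U : Type} (eK : K ≃ ℕ × β) (eU : U ≃ ℕ × (β ⊕ η)) (i : U) :
    eL eK eU (toLex (Sum.inr i)) = ((eU i).1, Sum.inr (eU i).2) := rfl

variable {K U : Type} [LinearOrder K] [LinearOrder U] (eK : K ≃ ℕ × β) (eU : U ≃ ℕ × (β ⊕ η))

theorem MX_fer (p : Finset K × Finset K) :
    opw ((p.1.sort (· ≤ ·)).map ((L.MX k).lP eK))
      (opw ((p.2.sort (· ≤ ·)).map ((L.MX k).lC eK)) (L.MX k).vac) =
      Ind.incl _ _ (Fer.wrd (Fer.gl eK p)) := by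
  unfold Fer.gl Fer.wrd
  rw [List.foldr_append, List.foldr_map, List.foldr_map]
  have h1 : ∀ (l : List K) (v : Fer (Gx β)),
      opw (l.map ((L.MX k).lC eK)) (Ind.incl _ _ v) =
      Ind.incl _ _ (l.foldr (fun i v => Fer.cr (Gx.S (eK i).1 (eK i).2) v) v) := by
    intro l v
    induction l with
    | nil => rfl
    | cons i l ih =>
      rw [List.map_cons, opw_cons, ih, List.foldr_cons]
      show (L.MX k).c _ _ (Ind.incl _ _ _) = _
      rw [MX_c, Fer.psF_neg]
  have h2 : ∀ (l : List K) (v : Fer (Gx β)),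
      opw (l.map ((L.MX k).lP eK)) (Ind.incl _ _ v) =
      Ind.incl _ _ (l.foldr (fun i v => Fer.cr (Gx.P (eK i).1 (eK i).2) v) v) := by
    intro l v
    induction l with
    | nil => rfl
    | cons i l ih =>
      rw [List.map_cons, opw_cons, ih, List.foldr_cons]
      show (L.MX k).b _ _ (Ind.incl _ _ _) = _
      rw [MX_b, Fer.phF_neg]
  rw [MX_vac, h1, h2]

theorem MX_vstd (w : (SL K × SL U) × (Finset K × Finset K)) :
    (L.MX k).vstd eK eU w = Ind.word (κ := k • L.form) (T := TMod.zr g (Fer (Gx β)))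
      (fun i => L.gB i) ((FBL.sj w.1).1.map (eL eK eU)) (Fer.wrd (Fer.gl eK w.2)) := by
  unfold FVac.vstd
  rw [MX_fer]
  have h1 : ∀ (l : List K) (l' : List (ℕ × (β ⊕ (β ⊕ η)))) (v : Fer (Gx β)),
      opw (l.map ((L.MX k).lE eK)) (Ind.word (κ := k • L.form) (T := TMod.zr g (Fer (Gx β)))
        (fun i => L.gB i) l' v) = Ind.word (fun i => L.gB i)
          (l.map (fun i => eL eK eU (toLex (Sum.inl i))) ++ l') v := by
    intro l l' v
    induction l with
    | nil => rfl
    | cons i l ih =>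
      rw [List.map_cons, opw_cons, ih, List.map_cons, List.cons_append, Ind.word_cons, eL_inl,
        gB_apply]
      rfl
  have h2 : ∀ (l : List U) (l' : List (ℕ × (β ⊕ (β ⊕ η)))) (v : Fer (Gx β)),
      opw (l.map ((L.MX k).lU eU)) (Ind.word (κ := k • L.form) (T := TMod.zr g (Fer (Gx β)))
        (fun i => L.gB i) l' v) = Ind.word (fun i => L.gB i)
          (l.map (fun i => eL eK eU (toLex (Sum.inr i))) ++ l') v := by
    intro l l' v
    induction l with
    | nil => rfl
    | cons i l ih =>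
      rw [List.map_cons, opw_cons, ih, List.map_cons, List.cons_append, Ind.word_cons, eL_inr,
        gB_apply]
      rfl
  have h3 := h2 w.1.2.1 [] (Fer.wrd (Fer.gl eK w.2))
  rw [Ind.word_nil, List.append_nil] at h3
  rw [h3, h1]
  have h4 : w.1.1.1.map (fun i => eL eK eU (toLex (Sum.inl i))) ++
      w.1.2.1.map (fun i => eL eK eU (toLex (Sum.inr i))) = (FBL.sj w.1).1.map (eL eK eU) := by
    show _ = (FBL.jn w.1.1.1 w.1.2.1).map _
    unfold FBL.jn
    rw [List.map_append, List.map_map, List.map_map]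
    rfl
  rw [h4]

/-- The standard monomials of the model are a basis. -/
theorem MX_std : (L.MX k).Std := by
  intro K U _ _ eK eU
  have h1 : (L.MX k).vstd eK eU = (fun p : SL (K ⊕ₗ U) × (Finset K × Finset K) =>
      Ind.word (κ := k • L.form) (T := TMod.zr g (Fer (Gx β))) (fun i => L.gB i)
        (p.1.1.map (eL eK eU)) (Fer.wrd (Fer.gl eK p.2))) ∘ Prod.map FBL.sj id := by
    funext w
    exact L.MX_vstd k eK eU w
  rw [h1]
  constructor
  · refine (Ind.sorted_linearIndependent L.gB (L.kform_isInv k) (eL eK eU)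
      (Fer.wrd_li eK)).comp _ ?_
    exact FBL.sj_inj.prodMap Function.injective_id
  · rw [(FBL.sj_surj.prodMap Function.surjective_id).range_comp]
    exact (Ind.sorted_span L.gB (L.kform_isInv k) (eL eK eU) (Fer.wrd_span eK)).ge

end LD

/-! ### Transport -/

section transport

variable {L : LD g β η} {k : ℂ} {E E' : Type} [AddCommGroup E] [Module ℂ E] [AddCommGroup E']
  [Module ℂ E']

/-- Homomorphisms map standard monomials to standard monomials. -/
theorem FVac.map_vstd (X : FVac L k E) (X' : FVac L k E') (f : E →ₗ[ℂ] E')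
    (hf : X.toFR.IsHom X'.toFR f) {K U : Type} [LinearOrder K] [LinearOrder U] (eK : K ≃ ℕ × β)
    (eU : U ≃ ℕ × (β ⊕ η)) (w : (SL K × SL U) × (Finset K × Finset K)) :
    f (X.vstd eK eU w) = X'.vstd eK eU w := by
  unfold FVac.vstd
  rw [opw_map f (X.lE eK) (X'.lE eK) (fun i v => hf.J _ _ v),
    opw_map f (X.lU eU) (X'.lU eU) (fun i v => hf.J _ _ v),
    opw_map f (X.lP eK) (X'.lP eK) (fun i v => hf.b _ _ v),
    opw_map f (X.lC eK) (X'.lC eK) (fun i v => hf.c _ _ v)]
  exact congrArg _ (congrArg _ (congrArg _ (congrArg _ hf.vac)))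

theorem exists_order (α : Type) : ∃ (K : Type) (_ : LinearOrder K), Nonempty (K ≃ α) := by
  classical
  exact ⟨α, linearOrderOfSTO WellOrderingRel, ⟨Equiv.refl _⟩⟩

theorem FR.IsHom.comp {E'' : Type} [AddCommGroup E''] [Module ℂ E''] {X : FR L k E}
    {X' : FR L k E'} {X'' : FR L k E''} {f : E →ₗ[ℂ] E'} {f' : E' →ₗ[ℂ] E''}
    (hf : X.IsHom X' f) (hf' : X'.IsHom X'' f') : X.IsHom X'' (f' ∘ₗ f) where
  vac := (congrArg f' hf.vac).trans hf'.vac
  J := fun m x v => (congrArg f' (hf.J m x v)).trans (hf'.J m x _)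
  b := fun m s v => (congrArg f' (hf.b m s v)).trans (hf'.b m s _)
  c := fun m s v => (congrArg f' (hf.c m s v)).trans (hf'.c m s _)

theorem FR.IsHom.id (X : FR L k E) : X.IsHom X LinearMap.id where
  vac := rfl
  J := fun _ _ _ => rfl
  b := fun _ _ _ => rfl
  c := fun _ _ _ => rfl

/-- The universal map is bijective if the standard monomials are a basis. -/
theorem FVac.ml_bij (X : FVac L k E) (hX : X.Std) : Function.Bijective X.toFR.ml := by
  obtain ⟨K, iK, ⟨eK⟩⟩ := exists_order (ℕ × β)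
  obtain ⟨U, iU, ⟨eU⟩⟩ := exists_order (ℕ × (β ⊕ η))
  have h1 := hX K U eK eU
  have h2 := L.MX_std k K U eK eU
  have h3 : ∀ w, X.toFR.ml ((L.MX k).vstd eK eU w) = X.vstd eK eU w :=
    (L.MX k).map_vstd X _ X.toFR.ml_isHom eK eU
  let B := Module.Basis.mk h2.1 h2.2
  let B' := Module.Basis.mk h1.1 h1.2
  have h4 : X.toFR.ml = (B.equiv B' (Equiv.refl _)).toLinearMap := by
    refine B.ext fun w => ?_
    rw [LinearEquiv.coe_coe, Module.Basis.equiv_apply, Equiv.refl_apply, Module.Basis.mk_apply,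
      Module.Basis.mk_apply]
    exact h3 w
  rw [h4]
  exact (B.equiv B' (Equiv.refl _)).bijective

/-- The linear equivalence with the model. -/
def FVac.me (X : FVac L k E) (hX : X.Std) : L.ME k ≃ₗ[ℂ] E :=
  LinearEquiv.ofBijective X.toFR.ml (X.ml_bij hX)

theorem FVac.me_apply (X : FVac L k E) (hX : X.Std) (v : L.ME k) : X.me hX v = X.toFR.ml v := rfl

/-- The inverse of a bijective homomorphism is a homomorphism. -/
theorem FR.IsHom.symm {X : FR L k E} {X' : FR L k E'} (e : E ≃ₗ[ℂ] E')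
    (hf : X.IsHom X' e.toLinearMap) : X'.IsHom X e.symm.toLinearMap where
  vac := e.symm_apply_eq.2 hf.vac.symm
  J := fun m x v => e.symm_apply_eq.2 ((hf.J m x _).trans
    (congrArg _ (e.apply_symm_apply v))).symm
  b := fun m x v => e.symm_apply_eq.2 ((hf.b m x _).trans
    (congrArg _ (e.apply_symm_apply v))).symm
  c := fun m x v => e.symm_apply_eq.2 ((hf.c m x _).trans
    (congrArg _ (e.apply_symm_apply v))).symm

/-- A module with the standard basis has the universal property. -/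
theorem FVac.Std.univ {X : FVac L k E} (hX : X.Std) : X.toFR.Univ := by
  intro E' _ _ X'
  have h1 : X.toFR.IsHom (L.MX k).toFR (X.me hX).symm.toLinearMap :=
    FR.IsHom.symm (X.me hX) X.toFR.ml_isHom
  refine ⟨_, h1.comp X'.ml_isHom, fun f hf => ?_⟩
  have h2 := X.toFR.ml_isHom.comp hf
  obtain ⟨F, -, hF⟩ := MX_univ L k E' X'
  have h3 : f ∘ₗ X.toFR.ml = X'.ml := (hF _ h2).trans (hF _ X'.ml_isHom).symm
  ext v
  have h4 := LinearMap.congr_fun h3 ((X.me hX).symm v)
  rw [LinearMap.comp_apply, ← FVac.me_apply X hX, LinearEquiv.apply_symm_apply] at h4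
  exact h4

/-- Existence of the universal complex. -/
theorem FR.exists_univ (L : LD g β η) (k : ℂ) :
    ∃ (E : Type) (_ : AddCommGroup E) (_ : Module ℂ E) (X : FR L k E), X.Univ :=
  ⟨L.ME k, inferInstance, inferInstance, (L.MX k).toFR, MX_univ L k⟩

/-- Universal complexes are isomorphic to the model. -/
theorem FR.Univ.equiv {X : FR L k E} (h : X.Univ) :
    ∃ e : L.ME k ≃ₗ[ℂ] E, (L.MX k).toFR.IsHom X e.toLinearMap := by
  obtain ⟨f, hf, -⟩ := h _ (L.MX k).toFR
  obtain ⟨F, -, hF⟩ := h _ X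
  obtain ⟨F', -, hF'⟩ := MX_univ L k _ (L.MX k).toFR
  have h1 : X.ml ∘ₗ f = LinearMap.id :=
    (hF _ (hf.comp X.ml_isHom)).trans (hF _ (FR.IsHom.id X)).symm
  have h2 : f ∘ₗ X.ml = LinearMap.id :=
    (hF' _ (X.ml_isHom.comp hf)).trans (hF' _ (FR.IsHom.id _)).symm
  exact ⟨LinearEquiv.ofLinearMap X.ml f h1 h2, X.ml_isHom⟩

/-- Every universal complex is smooth and has the standard basis. -/
theorem FR.Univ.std {L : LD g β η} {k : ℂ} {E : Type} [AddCommGroup E] [Module ℂ E]
    {X : FR L k E} (h : X.Univ) : ∃ Y : FVac L k E, Y.toFR = X ∧ Y.Std := by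
  obtain ⟨e, he⟩ := h.equiv
  have hes := FR.IsHom.symm e he
  let Y : FVac L k E :=
    { toBMod := X.toBMod
      b := X.b
      c := X.c
      bb := X.bb
      cc := X.cc
      bc := X.bc
      smooth := by
        intro x
        obtain ⟨M, hM⟩ := (L.MX k).smooth (e.symm x)
        refine ⟨M, fun m hm s => ⟨e.symm.injective ?_, e.symm.injective ?_⟩⟩
        · exact (hes.b m s x).trans ((hM m hm s).1.trans (map_zero e.symm).symm)
        · exact (hes.c m s x).trans ((hM m hm s).2.trans (map_zero e.symm).symm)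
      Jb := X.Jb
      Jc := X.Jc
      smoothJ := by
        intro x
        obtain ⟨M, hM⟩ := (L.MX k).smoothJ (e.symm x)
        refine ⟨M, fun m hm a => e.symm.injective ?_⟩
        exact (hes.J m a x).trans ((hM m hm a).trans (map_zero e.symm).symm)
      vac := X.vac
      J_vac := X.J_vac
      b_vac := X.b_vac
      c_vac := X.c_vac }
  refine ⟨Y, rfl, ?_⟩
  intro K U _ _ eK eU
  have h1 := L.MX_std k K U eK eU
  have h2 : Y.vstd eK eU = e ∘ (L.MX k).vstd eK eU := by
    funext w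
    exact ((L.MX k).map_vstd Y e.toLinearMap he eK eU w).symm
  rw [h2]
  constructor
  · exact h1.1.map' e.toLinearMap (LinearMap.ker_eq_bot.2 e.injective)
  · rw [Set.range_comp]
    have h3 := Submodule.map_span e.toLinearMap (Set.range ((L.MX k).vstd eK eU))
    rw [top_le_iff.1 h1.2, Submodule.map_top, LinearMap.range_eq_top.2 e.surjective] at h3
    exact h3.le

end transport

end

end WPE
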