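import Pool.Agent.WPE.FB5A
import Pool.Agent.WPE.FB6

/-! WPE, block FB5: the hat monomials are a basis. -/

set_option linter.unusedSectionVars false

namespace WPE

open scoped TensorProduct
open Koz (El Pl wd KK FK crw Gam)

noncomputable section

variable {g β η : Type} [LieRing g] [LieAlgebra ℂ g] [Fintype β] [DecidableEq β] [Fintype η]
  [DecidableEq η] {L : LD g β η} {k : ℂ} {E : Type} [AddCommGroup E] [Module ℂ E]

/-! ### Words of operators -/

namespace OW

theorem opw_nil {E : Type} [AddCommGroup E] [Module ℂ E] (v : E) : opw [] v = v := rfl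

theorem opw_cons {E : Type} [AddCommGroup E] [Module ℂ E] (T : E →ₗ[ℂ] E)
    (l : List (E →ₗ[ℂ] E)) (v : E) : opw (T :: l) v = T (opw l v) := rfl

/-- The word as a linear map. -/
def opL {E : Type} [AddCommGroup E] [Module ℂ E] (l : List (E →ₗ[ℂ] E)) : E →ₗ[ℂ] E :=
  l.foldr (fun T w => T ∘ₗ w) LinearMap.id

theorem opL_apply {E : Type} [AddCommGroup E] [Module ℂ E] (l : List (E →ₗ[ℂ] E)) (v : E) :
    opL l v = opw l v := by
  induction l with
  | nil => rfl
  | cons T l ih => exact congrArg T ih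

theorem opw_append {E : Type} [AddCommGroup E] [Module ℂ E] (l l' : List (E →ₗ[ℂ] E)) (v : E) :
    opw (l ++ l') v = opw l (opw l' v) := by
  induction l with
  | nil => rfl
  | cons T l ih => exact congrArg T ih

theorem opw_comm {E : Type} [AddCommGroup E] [Module ℂ E] (T : E →ₗ[ℂ] E)
    (l : List (E →ₗ[ℂ] E)) (h : ∀ S ∈ l, ∀ v, T (S v) = S (T v)) (v : E) :
    T (opw l v) = opw l (T v) := by
  induction l with
  | nil => rfl
  | cons S l ih =>
    rw [opw_cons, opw_cons, h S List.mem_cons_self, ih fun S hS => h S (List.mem_cons_of_mem _ hS)]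

theorem opw_opw {E : Type} [AddCommGroup E] [Module ℂ E] (l l' : List (E →ₗ[ℂ] E))
    (h : ∀ S ∈ l, ∀ T ∈ l', ∀ v, S (T v) = T (S v)) (v : E) :
    opw l (opw l' v) = opw l' (opw l v) := by
  induction l with
  | nil => rfl
  | cons S l ih =>
    rw [opw_cons, ih fun S hS => h S (List.mem_cons_of_mem _ hS),
      opw_comm S l' (h S List.mem_cons_self)]
    rfl

end OW

open OW

/-! ### The decomposition of the Fock space -/

section fock

variable {K : Type} [LinearOrder K]

/-- The inclusion of the `c`-words. -/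
def iot : Fer K →ₗ[ℂ] Fer (K ⊕ₗ K) := Fer.theta (fun i => Fer.cr (FT.cL i)) Fer.vac

theorem iot_wrd (t : List K) (ht : t.Pairwise (· < ·)) :
    iot (Fer.wrd t) = Fer.wrd (t.map FT.cL) := by
  unfold iot
  rw [Fer.theta_wrd _ _ t ht]
  clear ht
  induction t with
  | nil => rfl
  | cons x t ih => rw [Fer.wop_cons, ih, List.map_cons, Fer.wrd_cons]

/-- The creation operators of the `b`-letters. -/
abbrev crP (i : K) : Fer (K ⊕ₗ K) →ₗ[ℂ] Fer (K ⊕ₗ K) := Fer.cr (FT.pL i)

theorem Gam_surj : Function.Surjective (Gam (crP (K := K)) iot) := by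
  intro v
  have h : v ∈ LinearMap.range (Gam (crP (K := K)) iot) := by
    have h2 : ∀ S : Finset (K ⊕ₗ K), Fer.bs S ∈ LinearMap.range (Gam (crP (K := K)) iot) := by
      intro S
      have h3 := Fer.sort_pairwise_lt S
      obtain ⟨p, t, -, -, h4⟩ := exists_cat (S.sort (· ≤ ·)) (h3.imp le_of_lt)
      have h5 : Fer.bs S = Fer.wrd (cat p t) := by
        rw [← h4, Fer.wrd_sorted _ h3, Finset.sort_toFinset]
      rw [h4] at h3
      unfold cat at h3
      rw [List.pairwise_append, List.pairwise_map, List.pairwise_map] at h3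
      have hp : p.Pairwise (· < ·) := h3.1.imp fun h => Sum.Lex.inl_lt_inl_iff.1 h
      have ht : t.Pairwise (· < ·) := h3.2.1.imp fun h => Sum.Lex.inr_lt_inr_iff.1 h
      refine ⟨Finsupp.single ⟨p, hp⟩ (Fer.wrd t), ?_⟩
      rw [Koz.Gam_single, iot_wrd t ht, h5]
      have h6 : ∀ p : List K, crw crP p (Fer.wrd (t.map FT.cL)) = Fer.wrd (cat p t) := by
        intro p
        induction p with
        | nil => rfl
        | cons x p ih =>
          show crP x (crw crP p (Fer.wrd (t.map FT.cL))) = Fer.cr (FT.pL x) (Fer.wrd (cat p t))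
          rw [ih]
      exact h6 p
    induction v using Finsupp.induction_linear with
    | zero => exact zero_mem _
    | add x y hx hy => exact add_mem hx hy
    | single S c =>
      have e : (Finsupp.single S c : Fer (K ⊕ₗ K)) = c • Fer.bs S := by
        unfold Fer.bs
        rw [Finsupp.smul_single, smul_eq_mul, mul_one]
      rw [e]
      exact Submodule.smul_mem _ _ (h2 S)
  exact h

end fock

namespace FVac

variable (X : FVac L k E) {K U : Type} [LinearOrder K] [LinearOrder U] (eK : K ≃ ℕ × β)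
  (eU : U ≃ ℕ × (β ⊕ η))

/-- The `c`-words in `E`. -/
def ph : Fer K →ₗ[ℂ] E := X.th eK ∘ₗ iot

theorem ph_bs (T : Finset K) :
    X.ph eK (Fer.bs T) = opw ((T.sort (· ≤ ·)).map (X.lC eK)) X.vac := by
  have ht := Fer.sort_pairwise_lt T
  have h1 : (Fer.bs T : Fer K) = Fer.wrd (T.sort (· ≤ ·)) := by
    rw [Fer.wrd_sorted _ ht, Finset.sort_toFinset]
  unfold ph
  rw [LinearMap.comp_apply, h1, iot_wrd _ ht]
  unfold th
  rw [Fer.theta_wrd]
  · induction T.sort (· ≤ ·) with
    | nil => rfl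
    | cons x t ih => exact congrArg (X.lC eK x) ih
  · rw [List.pairwise_map]
    exact ht.imp fun h => Sum.Lex.inr_lt_inr_iff.2 h

/-- The standard map. -/
def gs : KK K U (Fer K) →ₗ[ℂ] E :=
  Finsupp.lsum ℂ fun l => Finsupp.lsum ℂ fun u =>
    wd (X.lP eK) (X.lE eK) LinearMap.id l.1 ∘ₗ opL (u.1.map (X.lU eU)) ∘ₗ X.ph eK

theorem gs_single (l : Koz.W K) (u : SL U) (v : Fer K) :
    X.gs eK eU (Finsupp.single l (Finsupp.single u v)) =
      wd (X.lP eK) (X.lE eK) LinearMap.id l.1 (opw (u.1.map (X.lU eU)) (X.ph eK v)) := by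
  unfold gs
  rw [Finsupp.lsum_single, Finsupp.lsum_single, LinearMap.comp_apply, LinearMap.comp_apply,
    opL_apply]

/-- The hat map. -/
def fs : KK K U (Fer K) →ₗ[ℂ] E :=
  Finsupp.lsum ℂ fun l => Finsupp.lsum ℂ fun u =>
    wd (X.lP eK) (X.lA eK) LinearMap.id l.1 ∘ₗ opL (u.1.map (X.lUh eU)) ∘ₗ X.ph eK

theorem fs_single (l : Koz.W K) (u : SL U) (v : Fer K) :
    X.fs eK eU (Finsupp.single l (Finsupp.single u v)) =
      wd (X.lP eK) (X.lA eK) LinearMap.id l.1 (opw (u.1.map (X.lUh eU)) (X.ph eK v)) := by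
  unfold fs
  rw [Finsupp.lsum_single, Finsupp.lsum_single, LinearMap.comp_apply, LinearMap.comp_apply,
    opL_apply]

/-- The letters `P` can be moved to the right. -/
theorem wd_split (l : List (Koz.Lt K)) (y : E) :
    wd (X.lP eK) (X.lE eK) LinearMap.id l y =
      opw ((El l).map (X.lE eK)) (opw ((Pl l).map (X.lP eK)) y) := by
  induction l with
  | nil => rfl
  | cons x l ih =>
    rcases Koz.eq_lP_or_lE x with h | h
    · rw [h, Koz.wd_cons, Koz.op_lP, Koz.El_P, Koz.Pl_P, ih, List.map_cons, opw_cons]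
      refine opw_comm _ _ ?_ _
      intro S hS v
      rw [List.mem_map] at hS
      obtain ⟨i, -, rfl⟩ := hS
      exact (X.Jb _ _ _ _ _).symm
    · rw [h, Koz.wd_cons, Koz.op_lE, Koz.El_E, Koz.Pl_E, ih, List.map_cons, opw_cons]

theorem gs_eq (l : Koz.W K) (u : SL U) (v : Fer K) :
    X.gs eK eU (Finsupp.single l (Finsupp.single u v)) =
      opw ((El l.1).map (X.lE eK)) (opw (u.1.map (X.lU eU))
        (opw ((Pl l.1).map (X.lP eK)) (X.ph eK v))) := by
  rw [gs_single, wd_split]
  congr 1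
  refine opw_opw _ _ ?_ _
  intro S hS T hT v
  rw [List.mem_map] at hS hT
  obtain ⟨i, -, rfl⟩ := hS
  obtain ⟨j, -, rfl⟩ := hT
  exact (X.Jb _ _ _ _ _).symm

/-- Comparison with the induced module. -/
theorem gs_Ph : X.gs eK eU = X.Ph eK ∘ₗ
    (Ind.sortedMapB (k • L.form) (TMod.zr g (Fer (K ⊕ₗ K))) L.bg (Koz.eIJ eK eU) ∘ₗ
      Koz.Psi crP iot) := by
  refine Koz.ext_KK fun l u v => ?_
  rw [gs_eq, LinearMap.comp_apply, LinearMap.comp_apply, Koz.Psi_single, sortedB_single]
  show _ = X.Ph eK (cword _ _ L.bg ((cat (El l.1) u.1).map (Koz.eIJ eK eU)) _)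
  rw [Koz.cat_map]
  have h1 : ∀ (w : List (ℕ × (β ⊕ (β ⊕ η)))) (m : Fer (K ⊕ₗ K)),
      X.Ph eK (cword (k • L.form) (TMod.zr g (Fer (K ⊕ₗ K))) L.bg w m) =
        opw (w.map fun p => X.J (-(p.1 : ℤ) - 1) (L.bg p.2)) (X.th eK m) := by
    intro w m
    induction w with
    | nil => exact X.Ph_incl eK m
    | cons p w ih =>
      rw [List.map_cons, opw_cons, ← ih]
      exact X.Ph_J eK _ _ _
  rw [h1]
  unfold Koz.lw
  rw [List.map_append, List.map_map, List.map_map, opw_append]
  have h2 : (El l.1).map ((fun p : ℕ × (β ⊕ (β ⊕ η)) => X.J (-(p.1 : ℤ) - 1) (L.bg p.2)) ∘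
      fun i => ((eK i).1, Sum.inl (eK i).2)) = (El l.1).map (X.lE eK) := by
    refine List.map_congr_left fun i _ => ?_
    show X.J _ (L.bg (Sum.inl _)) = _
    rw [L.bg_apply]
    rfl
  have h3 : u.1.map ((fun p : ℕ × (β ⊕ (β ⊕ η)) => X.J (-(p.1 : ℤ) - 1) (L.bg p.2)) ∘
      fun j => ((eU j).1, Sum.inr (eU j).2)) = u.1.map (X.lU eU) := by
    refine List.map_congr_left fun i _ => ?_
    show X.J _ (L.bg (Sum.inr _)) = _
    rw [L.bg_apply]
    rfl
  rw [h2, h3]
  congr 2
  have h4 : ∀ (p : List K) (m : Fer (K ⊕ₗ K)), X.th eK (crw crP p m) =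
      opw (p.map (X.lP eK)) (X.th eK m) := by
    intro p m
    induction p with
    | nil => rfl
    | cons i p ih =>
      rw [List.map_cons, opw_cons, ← ih]
      exact Fer.theta_cr (X.fA_fA eK) _ _
  rw [h4]
  rfl

/-- The reindexing. -/
def om (x : Koz.W K × (SL U × Finset K)) : (SL K × SL U) × (Finset K × Finset K) :=
  ((⟨El x.1.1, Koz.El_sorted x.1.2⟩, x.2.1), ((Pl x.1.1).toFinset, x.2.2))

theorem om_bij : Function.Bijective (om (K := K) (U := U)) := by
  constructor
  · rintro ⟨⟨l, hl⟩, ⟨u, T⟩⟩ ⟨⟨l', hl'⟩, ⟨u', T'⟩⟩ h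
    have h1 : El l = El l' := congrArg (fun z => z.1.1.1) h
    have h2 : (Pl l).toFinset = (Pl l').toFinset := congrArg (fun z => z.2.1) h
    have h3 : u = u' := congrArg (fun z => z.1.2) h
    have h4 : T = T' := congrArg (fun z => z.2.2) h
    have h5 : Pl l = Pl l' := by
      rw [← Fer.sort_toFinset_of_lt _ (Koz.Pl_sorted hl), h2,
        Fer.sort_toFinset_of_lt _ (Koz.Pl_sorted hl')]
    have h6 := Koz.word_inj hl hl' h1 h5
    subst h3 h4 h6
    rfl
  · rintro ⟨⟨⟨e, he⟩, u⟩, ⟨S, T⟩⟩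
    obtain ⟨l, hl, h1, h2⟩ := Koz.word_surj _ e (S.sort (· ≤ ·)) rfl he (Fer.sort_pairwise_lt S)
    refine ⟨(⟨l, hl⟩, (u, T)), ?_⟩
    unfold om
    subst h1
    simp only [h2, Finset.sort_toFinset]

/-- The basis of the index space. -/
def eKK : (Koz.W K × (SL U × Finset K) →₀ ℂ) ≃ₗ[ℂ] KK K U (Fer K) :=
  (Finsupp.curryLinearEquiv ℂ).trans (Finsupp.mapRange.linearEquiv (Finsupp.curryLinearEquiv ℂ))

theorem eKK_single (l : Koz.W K) (u : SL U) (T : Finset K) (c : ℂ) :
    eKK (Finsupp.single (l, (u, T)) c) =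
      Finsupp.single l (Finsupp.single u (Finsupp.single T c)) := by
  have h1 : (Finsupp.curryLinearEquiv ℂ) (Finsupp.single (l, (u, T)) c) =
      Finsupp.single l (Finsupp.single (u, T) c) := Finsupp.curry_single _ _
  have h2 : (Finsupp.curryLinearEquiv ℂ) (Finsupp.single (u, T) c) =
      Finsupp.single u (Finsupp.single T c) := Finsupp.curry_single _ _
  show Finsupp.mapRange.linearEquiv (Finsupp.curryLinearEquiv ℂ)
    ((Finsupp.curryLinearEquiv ℂ) (Finsupp.single (l, (u, T)) c)) = _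
  rw [h1, ← h2]
  exact Finsupp.mapRange_single (hf := map_zero _)

theorem gs_bij (hX : X.Std) : Function.Bijective (X.gs eK eU) := by
  obtain ⟨h1, h2⟩ := hX K U eK eU
  have h3 : X.gs eK eU ∘ₗ (eKK (K := K) (U := U)).toLinearMap =
      Finsupp.linearCombination ℂ (X.vstd eK eU ∘ om) := by
    refine Finsupp.lhom_ext fun x c => ?_
    obtain ⟨l, u, T⟩ := x
    rw [Finsupp.linearCombination_single]
    show X.gs eK eU (eKK _) = _
    have e : (Finsupp.single T c : Fer K) = c • Fer.bs T := by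
      unfold Fer.bs
      rw [Finsupp.smul_single, smul_eq_mul, mul_one]
    rw [eKK_single, e, ← Finsupp.smul_single, ← Finsupp.smul_single, map_smul, gs_eq]
    congr 1
    show _ = X.vstd eK eU ((⟨El l.1, _⟩, u), ((Pl l.1).toFinset, T))
    unfold vstd
    simp only
    rw [Fer.sort_toFinset_of_lt _ (Koz.Pl_sorted l.2), ph_bs]
  have h4 : Function.Bijective (Finsupp.linearCombination ℂ (X.vstd eK eU ∘ om)) := by
    constructor
    · exact h1.comp om om_bij.1
    · rw [← LinearMap.range_eq_top, Finsupp.range_linearCombination, Set.range_comp,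
        om_bij.2.range_eq, Set.image_univ]
      exact top_le_iff.1 h2
  have h5 : X.gs eK eU = Finsupp.linearCombination ℂ (X.vstd eK eU ∘ om) ∘ₗ
      (eKK (K := K) (U := U)).symm.toLinearMap := by
    rw [← h3]
    refine LinearMap.ext fun x => ?_
    show _ = X.gs eK eU (eKK (eKK.symm x))
    rw [LinearEquiv.apply_symm_apply]
  rw [h5]
  exact h4.comp (LinearEquiv.bijective _)

theorem FEp_gs (n : ℕ) : X.FEp eK n ≤ (FK K U (Fer K) n).map (X.gs eK eU) := by
  rw [FEp_map, gs_Ph]
  have h := Koz.FW_le_Psi (κ := k • L.form) (T := TMod.zr g (Fer (K ⊕ₗ K))) L.bg crP iot Gam_surj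
    eK eU n
  rw [Submodule.map_comp]
  exact Submodule.map_mono h

/-! ### The difference -/

theorem opw_memW (W : Submodule ℂ E) (l : List (E →ₗ[ℂ] E)) (h : ∀ T ∈ l, ∀ v ∈ W, T v ∈ W)
    (v : E) (hv : v ∈ W) : opw l v ∈ W := by
  induction l with
  | nil => exact hv
  | cons T l ih =>
    exact h T List.mem_cons_self _ (ih fun T hT => h T (List.mem_cons_of_mem _ hT))

theorem U_FE (u : List U) (v : Fer K) : opw (u.map (X.lU eU)) (X.ph eK v) ∈ X.FE eK u.length := by
  induction u with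
  | nil => exact X.FE_th eK _ _
  | cons j u ih =>
    rw [List.map_cons, opw_cons, List.length_cons]
    exact X.FE_J eK _ _ _ ih

theorem of_sub {n : ℕ} {x y : E} (h : x - y ∈ X.FEp eK n) (hy : y ∈ X.FE eK n) :
    x ∈ X.FE eK n := by
  have := add_mem (X.FEp_le eK n h) hy
  rwa [sub_add_cancel] at this

theorem lUh_sub (j : U) (x : E) : X.lUh eU j x - X.lU eU j x =
    X.G (-((eU j).1 : ℤ) - 1) (L.adp (L.bb (eU j).2)) x := by
  show X.Jh _ _ x - X.J _ _ x = _
  rw [X.Jh_apply, LinearMap.add_apply, add_sub_cancel_left]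

theorem lA_sub (i : K) (x : E) : X.lA eK i x - X.lE eK i x =
    X.G (-((eK i).1 : ℤ) - 1) (L.adp (L.e (eK i).2)) x +
      (if -((eK i).1 : ℤ) - 1 = -1 then L.form L.F (L.e (eK i).2) else 0) • x := by
  show X.A _ _ x - X.J _ _ x = _
  unfold FC.A
  rw [X.Jh_apply, LinearMap.add_apply, LinearMap.add_apply]
  split_ifs
  · rw [LinearMap.smul_apply, LinearMap.id_apply]
    abel
  · rw [LinearMap.zero_apply, zero_smul]
    abel

theorem U_sub (u : List U) (v : Fer K) : opw (u.map (X.lUh eU)) (X.ph eK v) -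
    opw (u.map (X.lU eU)) (X.ph eK v) ∈ X.FEp eK u.length := by
  induction u with
  | nil =>
    show X.ph eK v - X.ph eK v ∈ _
    rw [sub_self]
    exact zero_mem _
  | cons j u ih =>
    rw [List.map_cons, List.map_cons, opw_cons, opw_cons, List.length_cons]
    have hx := X.of_sub eK ih (X.U_FE eK eU u v)
    have h1 : X.lUh eU j (opw (u.map (X.lUh eU)) (X.ph eK v)) -
        X.lU eU j (opw (u.map (X.lUh eU)) (X.ph eK v)) ∈ X.FEp eK (u.length + 1) := by
      rw [lUh_sub]
      exact X.FE_G eK _ _ _ hx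
    have h2 : X.lU eU j (opw (u.map (X.lUh eU)) (X.ph eK v) -
        opw (u.map (X.lU eU)) (X.ph eK v)) ∈ X.FEp eK (u.length + 1) := X.FEp_J eK _ _ _ ih
    rw [map_sub] at h2
    have h3 := add_mem h1 h2
    rwa [sub_add_sub_cancel] at h3

theorem l_sub (l : List (Koz.Lt K)) (u : List U) (v : Fer K) :
    (wd (X.lP eK) (X.lA eK) LinearMap.id l (opw (u.map (X.lUh eU)) (X.ph eK v)) -
      wd (X.lP eK) (X.lE eK) LinearMap.id l (opw (u.map (X.lU eU)) (X.ph eK v)) ∈
        X.FEp eK ((El l).length + u.length)) ∧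
    wd (X.lP eK) (X.lE eK) LinearMap.id l (opw (u.map (X.lU eU)) (X.ph eK v)) ∈
        X.FE eK ((El l).length + u.length) := by
  induction l with
  | nil =>
    have e : (El ([] : List (Koz.Lt K))).length + u.length = u.length := Nat.zero_add _
    rw [e]
    exact ⟨X.U_sub eK eU u v, X.U_FE eK eU u v⟩
  | cons x l ih =>
    obtain ⟨ih1, ih2⟩ := ih
    have hx := X.of_sub eK ih1 ih2
    rcases Koz.eq_lP_or_lE x with h | h
    · rw [h, Koz.wd_cons, Koz.op_lP, Koz.wd_cons, Koz.op_lP, Koz.El_P, ← map_sub]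
      exact ⟨X.FEp_b eK _ _ _ ih1, X.FE_b eK _ _ _ ih2⟩
    · rw [h, Koz.wd_cons, Koz.op_lE, Koz.wd_cons, Koz.op_lE, Koz.El_E, List.length_cons,
        show (El l).length + 1 + u.length = (El l).length + u.length + 1 by omega]
      refine ⟨?_, X.FE_J eK _ _ _ ih2⟩
      have h1 : X.lA eK (ofLex x).1 (wd (X.lP eK) (X.lA eK) LinearMap.id l
          (opw (u.map (X.lUh eU)) (X.ph eK v))) - X.lE eK (ofLex x).1
          (wd (X.lP eK) (X.lA eK) LinearMap.id l (opw (u.map (X.lUh eU)) (X.ph eK v))) ∈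
          X.FEp eK ((El l).length + u.length + 1) := by
        rw [lA_sub]
        exact add_mem (X.FE_G eK _ _ _ hx) (Submodule.smul_mem _ _ hx)
      have h2 := X.FEp_J eK _ (eK (ofLex x).1).1 (L.e (eK (ofLex x).1).2) ih1
      rw [map_sub] at h2
      have h3 := add_mem h1 h2
      rw [show X.J (-((eK (ofLex x).1).1 : ℤ) - 1) (L.e (eK (ofLex x).1).2) =
        X.lE eK (ofLex x).1 from rfl, sub_add_sub_cancel] at h3
      exact h3

/-- The hat monomials are a basis. -/
theorem fs_bij (hX : X.Std) : Function.Bijective (X.fs eK eU) := by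
  refine unip_bij (X.gs eK eU) (X.fs eK eU) (X.gs_bij eK eU hX) (FK K U (Fer K)) Koz.FK_zero
    Koz.FK_ex ?_
  have key : ∀ p, ∀ x ∈ FK K U (Fer K) (p + 1), X.fs eK eU x - X.gs eK eU x ∈ X.FEp eK p := by
    intro p x hx
    induction hx using Submodule.span_induction with
    | mem x hx =>
      obtain ⟨l, u, v, h, rfl⟩ := hx
      rw [fs_single, gs_single]
      have h2 := (X.l_sub eK eU l.1 u.1 v).1
      rcases hn : (El l.1).length + u.1.length with _ | n
      · rw [hn] at h2
        rw [show (_ : E) = 0 from (Submodule.mem_bot ℂ).1 h2]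
        exact zero_mem _
      · rw [hn] at h2
        rcases p with _ | p
        · omega
        · exact X.FE_mono eK (by omega) h2
    | zero => rw [map_zero, map_zero, sub_zero]; exact zero_mem _
    | add x y _ _ hx hy =>
      rw [map_add, map_add, add_sub_add_comm]
      exact add_mem hx hy
    | smul c x _ hx =>
      rw [map_smul, map_smul, ← smul_sub]
      exact Submodule.smul_mem _ _ hx
  intro p x hx
  obtain ⟨y, hy, h⟩ := X.FEp_gs eK eU p (key p x hx)
  exact ⟨y, hy, h.symm⟩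

end FVac

end

end WPE
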