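import Pool.Agent.WPE.FB4b
import Pool.Agent.WPE.FB5B

/-! WPE, block FB5: hat monomials, the Koszul homotopy. -/

set_option linter.unusedSectionVars false

namespace WPE

open scoped TensorProduct
open Koz (El Pl wd KK)
open OW

noncomputable section

variable {g β η : Type} [LieRing g] [LieAlgebra ℂ g] [Fintype β] [DecidableEq β] [Fintype η]
  [DecidableEq η] {L : LD g β η} {k : ℂ} {E : Type} [AddCommGroup E] [Module ℂ E]

/-- A direct sum decomposition is determined by smaller pieces which span. -/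
theorem internal_le {ι : Type} [DecidableEq ι] {E : Type} [AddCommGroup E] [Module ℂ E]
    {A Z : ι → Submodule ℂ E} (hA : DirectSum.IsInternal A) (hZA : ∀ i, Z i ≤ A i)
    (hZ : ⨆ i, Z i = ⊤) (i : ι) : A i ≤ Z i := by
  intro v hv
  have h1 : v ∈ Z i ⊔ ⨆ j, ⨆ (_ : j ≠ i), Z j := by
    rw [← iSup_split_single, hZ]
    trivial
  obtain ⟨a, ha, b, hb, rfl⟩ := Submodule.mem_sup.1 h1
  have h2 : b ∈ A i := by
    have := sub_mem hv (hZA i ha)
    rwa [add_sub_cancel_left] at this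
  have h3 : b ∈ ⨆ j, ⨆ (_ : j ≠ i), A j :=
    (iSup_mono fun j => iSup_mono fun _ => hZA j) hb
  have h4 : b = 0 := by
    have h5 := hA.submodule_iSupIndep i
    exact Submodule.disjoint_def.1 h5 b h2 h3
  rw [h4, add_zero]
  exact ha

theorem wd_sub {K N : Type} [LinearOrder K] [AddCommGroup N] [Module ℂ N]
    (P A : K → E →ₗ[ℂ] E) (i0 : N →ₗ[ℂ] E) (l : List (Koz.Lt K)) (n : N) :
    wd P A i0 l n = wd P A LinearMap.id l (i0 n) := by
  induction l with
  | nil => rfl
  | cons x l ih => rw [Koz.wd_cons, Koz.wd_cons, ih]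

namespace FVac

variable (X : FVac L k E)

section

variable {K U : Type} [LinearOrder K] [LinearOrder U] (eK : K ≃ ℕ × β) (eU : U ≃ ℕ × (β ⊕ η))

/-- The part without letters `P`, `E`. -/
def f0 : (SL U →₀ Fer K) →ₗ[ℂ] E :=
  Finsupp.lsum ℂ fun u => opL (u.1.map (X.lUh eU)) ∘ₗ X.ph eK

theorem f0_single (u : SL U) (v : Fer K) :
    X.f0 eK eU (Finsupp.single u v) = opw (u.1.map (X.lUh eU)) (X.ph eK v) := by
  unfold f0
  rw [Finsupp.lsum_single, LinearMap.comp_apply, opL_apply]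

theorem f0_eq (z : SL U →₀ Fer K) :
    X.f0 eK eU z = X.fs eK eU (Finsupp.single (⟨[], List.Pairwise.nil⟩ : Koz.W K) z) := by
  induction z using Finsupp.induction_linear with
  | zero => rw [Finsupp.single_zero, map_zero, map_zero]
  | add x y hx hy => rw [Finsupp.single_add, map_add, map_add, hx, hy]
  | single u v => rw [fs_single, f0_single]; rfl

theorem f0_bs (u : SL U) (T : Finset K) :
    X.f0 eK eU (Finsupp.single u (Fer.bs T)) = X.vC eK eU (u, T) := by
  rw [f0_single, ph_bs]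
  rfl

theorem single_bs (T : Finset K) (c : ℂ) : (Finsupp.single T c : Fer K) = c • Fer.bs T := by
  unfold Fer.bs
  rw [Finsupp.smul_single, smul_eq_mul, mul_one]

theorem f0_range : LinearMap.range (X.f0 eK eU) = X.W0 eK eU := by
  apply le_antisymm
  · rintro _ ⟨z, rfl⟩
    induction z using Finsupp.induction_linear with
    | zero => rw [map_zero]; exact zero_mem _
    | add x y hx hy => rw [map_add]; exact add_mem hx hy
    | single u v =>
      induction v using Finsupp.induction_linear with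
      | zero => rw [Finsupp.single_zero, map_zero]; exact zero_mem _
      | add x y hx hy => rw [Finsupp.single_add, map_add]; exact add_mem hx hy
      | single T c =>
        rw [single_bs, ← Finsupp.smul_single, map_smul, f0_bs]
        exact Submodule.smul_mem _ _ (Submodule.subset_span ⟨(u, T), rfl⟩)
  · refine Submodule.span_le.2 ?_
    rintro _ ⟨⟨u, T⟩, rfl⟩
    exact ⟨_, X.f0_bs eK eU u T⟩

theorem f0_inj (hX : X.Std) : Function.Injective (X.f0 eK eU) := by
  intro x y h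
  rw [f0_eq, f0_eq] at h
  exact Finsupp.single_injective _ ((X.fs_bij eK eU hX).1 h)

theorem fs_f0 (l : Koz.W K) (z : SL U →₀ Fer K) :
    X.fs eK eU (Finsupp.single l z) =
      wd (X.lP eK) (X.lA eK) LinearMap.id l.1 (X.f0 eK eU z) := by
  induction z using Finsupp.induction_linear with
  | zero => rw [Finsupp.single_zero, map_zero, map_zero, map_zero]
  | add x y hx hy => rw [Finsupp.single_add, map_add, map_add, map_add, hx, hy]
  | single u v => rw [fs_single, f0_single]

end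

theorem vC_indep (hX : X.Std) {K U : Type} [LinearOrder K] [LinearOrder U] (eK : K ≃ ℕ × β)
    (eU : U ≃ ℕ × (β ⊕ η)) : LinearIndependent ℂ (X.vC eK eU) := by
  let e2 : (SL U × Finset K →₀ ℂ) ≃ₗ[ℂ] (SL U →₀ Fer K) := Finsupp.curryLinearEquiv ℂ
  have h : Finsupp.linearCombination ℂ (X.vC eK eU) = X.f0 eK eU ∘ₗ e2.toLinearMap := by
    refine Finsupp.lhom_ext fun x c => ?_
    obtain ⟨u, T⟩ := x
    have e1 : e2 (Finsupp.single (u, T) c) = Finsupp.single u (Finsupp.single T c) :=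
      Finsupp.curry_single _ _
    rw [Finsupp.linearCombination_single, LinearMap.comp_apply]
    show _ = X.f0 eK eU (e2 _)
    rw [e1, single_bs, ← Finsupp.smul_single, map_smul, f0_bs]
  show Function.Injective (Finsupp.linearCombination ℂ (X.vC eK eU))
  rw [h]
  exact (X.f0_inj eK eU hX).comp e2.injective

section kos

variable {K U : Type} [LinearOrder K] [LinearOrder U] (eK : K ≃ ℕ × β) (eU : U ≃ ℕ × (β ⊕ η))

theorem dec_W0 (hX : X.Std) :
    Function.Bijective (Koz.dec (X.lP eK) (X.lA eK) (X.W0 eK eU).subtype) := by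
  let e0 : (SL U →₀ Fer K) ≃ₗ[ℂ] X.W0 eK eU :=
    (LinearEquiv.ofInjective (X.f0 eK eU) (X.f0_inj eK eU hX)).trans
      (LinearEquiv.ofEq _ _ (X.f0_range eK eU))
  have he0 : ∀ z, ((e0 z : X.W0 eK eU) : E) = X.f0 eK eU z := fun z => rfl
  let S2 : KK K U (Fer K) ≃ₗ[ℂ] (Koz.W K →₀ X.W0 eK eU) := Finsupp.mapRange.linearEquiv e0
  have h : Koz.dec (X.lP eK) (X.lA eK) (X.W0 eK eU).subtype ∘ₗ S2.toLinearMap =
      X.fs eK eU := by
    refine Finsupp.lhom_ext fun l z => ?_
    have e1 : S2 (Finsupp.single l z) = Finsupp.single l (e0 z) :=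
      Finsupp.mapRange_single (hf := map_zero _)
    rw [LinearMap.comp_apply, fs_f0]
    show Koz.dec _ _ _ (S2 _) = _
    rw [e1, Koz.dec_single, wd_sub]
    rfl
  have h2 : Koz.dec (X.lP eK) (X.lA eK) (X.W0 eK eU).subtype =
      X.fs eK eU ∘ₗ S2.symm.toLinearMap := by
    rw [← h]
    refine LinearMap.ext fun x => ?_
    show _ = Koz.dec (X.lP eK) (X.lA eK) (X.W0 eK eU).subtype (S2 (S2.symm x))
    rw [LinearEquiv.apply_symm_apply]
  rw [h2]
  exact (X.fs_bij eK eU hX).comp S2.symm.bijective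

theorem Chg_lP {q : ℤ} {v : E} (i : K) (h : X.Chg q v) : X.Chg (q - 1) (X.lP eK i v) :=
  Chg.b _ _ h

theorem Chg_lC {q : ℤ} {v : E} (i : K) (h : X.Chg q v) : X.Chg (q + 1) (X.lC eK i v) :=
  Chg.c _ _ h

theorem Chg_lA {q : ℤ} {v : E} (i : K) (h : X.Chg q v) : X.Chg q (X.lA eK i v) :=
  X.Chg_A _ _ h

theorem Chg_lUh {q : ℤ} {v : E} (i : U) (h : X.Chg q v) : X.Chg q (X.lUh eU i v) :=
  X.Chg_Jh _ _ h

theorem Chg_vC (w : SL U × Finset K) : X.Chg (w.2.card : ℤ) (X.vC eK eU w) := by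
  unfold vC
  have h1 : ∀ t : List K, X.Chg (t.length : ℤ) (opw (t.map (X.lC eK)) X.vac) := by
    intro t
    induction t with
    | nil => exact Chg.vac
    | cons x t ih =>
      rw [List.map_cons, opw_cons, List.length_cons, Nat.cast_succ]
      exact X.Chg_lC eK x ih
  have h2 := h1 (w.2.sort (· ≤ ·))
  rw [Finset.length_sort] at h2
  induction w.1.1 with
  | nil => exact h2
  | cons x u ih =>
    rw [List.map_cons, opw_cons]
    exact X.Chg_lUh eU x ih

theorem Chg_wd {r : ℤ} {n : E} (h : X.Chg r n) (l : List (Koz.Lt K)) :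
    X.Chg (r - (Pl l).length) (wd (X.lP eK) (X.lA eK) LinearMap.id l n) := by
  induction l with
  | nil =>
    rw [show (Pl ([] : List (Koz.Lt K))).length = 0 from rfl, Nat.cast_zero, sub_zero]
    exact h
  | cons x l ih =>
    rcases Koz.eq_lP_or_lE x with h | h
    · rw [h, Koz.wd_cons, Koz.op_lP, Koz.Pl_P, List.length_cons, Nat.cast_succ, ← sub_sub]
      exact X.Chg_lP eK _ ih
    · rw [h, Koz.wd_cons, Koz.op_lE, Koz.Pl_E]
      exact X.Chg_lA eK _ ih

/-- The span of the hat monomials of ghost number `q`. -/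
def Zq (q : ℤ) : Submodule ℂ E :=
  Submodule.span ℂ {x | ∃ (l : Koz.W K) (w : SL U × Finset K),
    (w.2.card : ℤ) - (Pl l.1).length = q ∧
      x = wd (X.lP eK) (X.lA eK) LinearMap.id l.1 (X.vC eK eU w)}

theorem Zq_le (q : ℤ) : X.Zq eK eU q ≤ X.chg q := by
  refine Submodule.span_le.2 ?_
  rintro _ ⟨l, w, h, rfl⟩
  rw [← h]
  exact X.Chg_wd eK (X.Chg_vC eK eU w) l.1

theorem Zq_sup (hX : X.Std) : ⨆ q, X.Zq eK eU q = ⊤ := by
  rw [eq_top_iff]
  intro v _
  obtain ⟨x, hx⟩ := (X.fs_bij eK eU hX).2 v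
  rw [← hx]
  clear hx
  induction x using Finsupp.induction_linear with
  | zero => rw [map_zero]; exact zero_mem _
  | add x y hx hy => rw [map_add]; exact add_mem hx hy
  | single l z =>
    rw [fs_f0]
    induction z using Finsupp.induction_linear with
    | zero => rw [map_zero, map_zero]; exact zero_mem _
    | add x y hx hy => rw [map_add, map_add]; exact add_mem hx hy
    | single u v =>
      induction v using Finsupp.induction_linear with
      | zero => rw [Finsupp.single_zero, map_zero, map_zero]; exact zero_mem _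
      | add x y hx hy => rw [Finsupp.single_add, map_add, map_add]; exact add_mem hx hy
      | single T c =>
        rw [single_bs, ← Finsupp.smul_single, map_smul, map_smul, f0_bs]
        refine Submodule.smul_mem _ _ (Submodule.mem_iSup_of_mem
          ((T.card : ℤ) - (Pl l.1).length) (Submodule.subset_span ⟨l, (u, T), rfl, rfl⟩))

theorem le_Zq (hX : X.Std) (q : ℤ) : X.chg q ≤ X.Zq eK eU q :=
  internal_le (X.chg_internal hX) (X.Zq_le eK eU) (X.Zq_sup eK eU hX) q

end kos

/-- The Koszul homotopy: `Q h + h Q = 1 - π`, `π` a projection onto the span of the monomials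
`vC`. -/
theorem koszul (hX : X.Std) {K U : Type} [LinearOrder K] [LinearOrder U] (eK : K ≃ ℕ × β)
    (eU : U ≃ ℕ × (β ⊕ η)) (hW : ∀ v ∈ X.W0 eK eU, X.Q v ∈ X.W0 eK eU) :
    ∃ h π : E →ₗ[ℂ] E, (∀ v, X.Q (h v) + h (X.Q v) = v - π v) ∧ (∀ v, π v ∈ X.W0 eK eU) ∧
      (∀ v ∈ X.W0 eK eU, π v = v) ∧ (∀ v ∈ X.W0 eK eU, h v = 0) ∧
      (∀ (q : ℤ) (v : E), X.Chg q v → X.Chg (q - 1) (h v)) ∧
      ∀ (q : ℤ) (v : E), X.Chg q v → X.Chg q (π v) := by
  have hdec := X.dec_W0 eK eU hX
  have hP : ∀ (i : K) (x : E), X.Q (X.lP eK i x) + X.lP eK i (X.Q x) = X.lA eK i x :=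
    fun i x => X.Q_b _ _ _
  have hE : ∀ (i : K) (x : E), X.Q (X.lA eK i x) = X.lA eK i (X.Q x) :=
    fun i x => X.Q_A hX _ _ _
  have h0 : ∀ v : X.W0 eK eU, X.Q ((X.W0 eK eU).subtype v) =
      (X.W0 eK eU).subtype (X.Q.restrict hW v) := fun v => rfl
  have hcoe : ∀ (l : Koz.W K) (n : X.W0 eK eU),
      wd (X.lP eK) (X.lA eK) LinearMap.id l.1 (n : E) =
        wd (X.lP eK) (X.lA eK) (X.W0 eK eU).subtype l.1 n := by
    intro l n
    rw [wd_sub (i0 := (X.W0 eK eU).subtype)]
    rfl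
  refine ⟨Koz.hh hdec, (X.W0 eK eU).subtype ∘ₗ Koz.prN hdec, ?_, ?_, ?_, ?_, ?_, ?_⟩
  · intro v
    have h := Koz.homotopy hP hE h0 hdec v
    rw [LinearMap.comp_apply]
    exact eq_sub_of_add_eq h
  · intro v
    exact (Koz.prN hdec v).2
  · intro v hv
    rw [LinearMap.comp_apply]
    have h := Koz.prN_i0 hdec ⟨v, hv⟩
    exact congrArg Subtype.val h
  · intro v hv
    exact Koz.hh_nil hdec ⟨v, hv⟩
  · intro q v hv
    have h := X.le_Zq eK eU hX q hv
    induction h using Submodule.span_induction with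
    | mem x hx =>
      obtain ⟨⟨l, hl⟩, w, hq, rfl⟩ := hx
      have hn : X.vC eK eU w ∈ X.W0 eK eU := Submodule.subset_span ⟨w, rfl⟩
      have e1 := hcoe ⟨l, hl⟩ ⟨_, hn⟩
      simp only at e1
      rw [e1]
      rcases l with _ | ⟨x, l⟩
      · rw [Koz.wd_nil, Koz.hh_nil]
        exact Chg.zero _
      · have hl2 := List.pairwise_cons.1 hl
        rcases Koz.eq_lP_or_lE x with h | h
        · rw [h] at hl2 ⊢
          have h2 : ∀ y ∈ l, Koz.lE (ofLex x).1 ≤ y := fun y hy =>
            Koz.lE_le_of_R_lP (hl2.1 y hy)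
          have hm : wd (X.lP eK) (X.lA eK) (X.W0 eK eU).subtype l ⟨_, hn⟩ ∈
              Koz.S (X.lP eK) (X.lA eK) (X.W0 eK eU).subtype (Koz.lE (ofLex x).1) :=
            Submodule.subset_span ⟨l, _, hl2.2, h2, rfl⟩
          rw [Koz.wd_cons, Koz.op_lP, Koz.hh_P hdec _ hm]
          exact Chg.zero _
        · have hq' : (w.2.card : ℤ) - (Pl (x :: l)).length = q := hq
          rw [h] at hl2 hq' ⊢
          have h2 : ∀ y ∈ l, Koz.lE (ofLex x).1 ≤ y := fun y hy => Koz.R_le (hl2.1 y hy)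
          have hm : wd (X.lP eK) (X.lA eK) (X.W0 eK eU).subtype l ⟨_, hn⟩ ∈
              Koz.S (X.lP eK) (X.lA eK) (X.W0 eK eU).subtype (Koz.lE (ofLex x).1) :=
            Submodule.subset_span ⟨l, _, hl2.2, h2, rfl⟩
          rw [Koz.wd_cons, Koz.op_lE, Koz.hh_E hdec _ hm, wd_sub, ← hq', Koz.Pl_E]
          exact X.Chg_lP eK _ (X.Chg_wd eK (X.Chg_vC eK eU w) l)
    | zero => rw [map_zero]; exact Chg.zero _
    | add x y hx' hy' hx hy =>
      rw [map_add]
      exact Chg.add (hx (X.Zq_le eK eU q hx')) (hy (X.Zq_le eK eU q hy'))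
    | smul c x hx' hx => rw [map_smul]; exact Chg.smul _ (hx (X.Zq_le eK eU q hx'))
  · intro q v hv
    have h := X.le_Zq eK eU hX q hv
    induction h using Submodule.span_induction with
    | mem x hx =>
      obtain ⟨⟨l, hl⟩, w, hq, rfl⟩ := hx
      have hn : X.vC eK eU w ∈ X.W0 eK eU := Submodule.subset_span ⟨w, rfl⟩
      have e1 := hcoe ⟨l, hl⟩ ⟨_, hn⟩
      simp only at e1
      rw [e1, LinearMap.comp_apply]
      rcases l with _ | ⟨x, l⟩
      · rw [Koz.wd_nil, Koz.prN_i0, ← hq]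
        show X.Chg ((w.2.card : ℤ) - (0 : ℕ)) (X.vC eK eU w)
        rw [Nat.cast_zero, sub_zero]
        exact X.Chg_vC eK eU w
      · rw [Koz.prN_cons hdec x l hl, map_zero]
        exact Chg.zero _
    | zero => rw [map_zero]; exact Chg.zero _
    | add x y hx' hy' hx hy =>
      rw [map_add]
      exact Chg.add (hx (X.Zq_le eK eU q hx')) (hy (X.Zq_le eK eU q hy'))
    | smul c x hx' hx => rw [map_smul]; exact Chg.smul _ (hx (X.Zq_le eK eU q hx'))

end FVac

end

end WPE
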