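import Mathlib

/-! [WPE-FER0] The fermionic Fock space (Jordan-Wigner). -/

set_option autoImplicit false
set_option linter.unusedSectionVars false

namespace WPE

noncomputable section

/-- The fermionic Fock space with creation letters `X`. -/
abbrev Fer (X : Type) : Type := Finset X →₀ ℂ

namespace Fer

variable {X : Type} [LinearOrder X]

/-- The sign of moving `x` to its place. -/
def sg (x : X) (s : Finset X) : ℂ := (-1 : ℂ) ^ (s.filter (· < x)).card

theorem sg_sq (x : X) (s : Finset X) : sg x s * sg x s = 1 := by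
  unfold sg
  rw [← pow_add, ← two_mul, pow_mul]
  norm_num

theorem sg_insert {x y : X} {s : Finset X} (hy : y ∉ s) :
    sg x (insert y s) = (if y < x then -1 else 1) * sg x s := by
  unfold sg
  rw [Finset.filter_insert]
  split_ifs with h
  · rw [Finset.card_insert_of_notMem (fun hc => hy (Finset.mem_filter.1 hc).1), pow_succ]
    ring
  · rw [one_mul]

theorem sg_erase {x y : X} {s : Finset X} (hy : y ∈ s) :
    sg x (s.erase y) = (if y < x then -1 else 1) * sg x s := by
  have h := sg_insert (x := x) (Finset.notMem_erase y s)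
  rw [Finset.insert_erase hy] at h
  rw [h, ← mul_assoc]
  split_ifs <;> ring

theorem sg_insert_self {x : X} {s : Finset X} (hx : x ∉ s) : sg x (insert x s) = sg x s := by
  rw [sg_insert hx, if_neg (lt_irrefl x), one_mul]

theorem sg_erase_self {x : X} {s : Finset X} (hx : x ∈ s) : sg x (s.erase x) = sg x s := by
  rw [sg_erase hx, if_neg (lt_irrefl x), one_mul]

/-- The creation operator. -/
def cr (x : X) : Fer X →ₗ[ℂ] Fer X :=
  Finsupp.lsum ℂ fun s => if x ∈ s then 0 else sg x s • Finsupp.lsingle (insert x s)

/-- The annihilation operator. -/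
def an (x : X) : Fer X →ₗ[ℂ] Fer X :=
  Finsupp.lsum ℂ fun s => if x ∈ s then sg x s • Finsupp.lsingle (s.erase x) else 0

/-- The basis vectors. -/
def bs (s : Finset X) : Fer X := Finsupp.single s 1

theorem cr_bs (x : X) (s : Finset X) : cr x (bs s) = if x ∈ s then 0 else sg x s • bs (insert x s) := by
  unfold cr bs
  rw [Finsupp.lsum_single]
  split_ifs
  · rfl
  · rw [LinearMap.smul_apply, Finsupp.lsingle_apply]

theorem an_bs (x : X) (s : Finset X) : an x (bs s) = if x ∈ s then sg x s • bs (s.erase x) else 0 := by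
  unfold an bs
  rw [Finsupp.lsum_single]
  split_ifs
  · rw [LinearMap.smul_apply, Finsupp.lsingle_apply]
  · rfl

theorem ext_bs {V : Type} [AddCommGroup V] [Module ℂ V] {f g : Fer X →ₗ[ℂ] V}
    (h : ∀ s, f (bs s) = g (bs s)) : f = g := by
  refine Finsupp.lhom_ext' fun s => ?_
  refine LinearMap.ext_ring ?_
  exact h s

theorem cr_cr (x y : X) (v : Fer X) : cr x (cr y v) + cr y (cr x v) = 0 := by
  have h : cr x ∘ₗ cr y + cr y ∘ₗ cr x = 0 := by
    refine ext_bs fun s => ?_
    rw [LinearMap.add_apply, LinearMap.comp_apply, LinearMap.comp_apply, LinearMap.zero_apply,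
      cr_bs, cr_bs]
    by_cases hx : x ∈ s
    · rw [if_pos hx, map_zero, add_zero]
      split_ifs with hy
      · rw [map_zero]
      · rw [map_smul, cr_bs, if_pos (Finset.mem_insert_of_mem hx), smul_zero]
    by_cases hy : y ∈ s
    · rw [if_pos hy, map_zero, zero_add, if_neg hx, map_smul, cr_bs,
        if_pos (Finset.mem_insert_of_mem hy), smul_zero]
    rw [if_neg hx, if_neg hy, map_smul, map_smul, cr_bs, cr_bs]
    rcases lt_trichotomy x y with hxy | rfl | hxy
    · rw [if_neg (by rw [Finset.mem_insert, not_or]; exact ⟨hxy.ne, hx⟩),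
        if_neg (by rw [Finset.mem_insert, not_or]; exact ⟨hxy.ne', hy⟩), sg_insert hy,
        sg_insert hx, if_neg (not_lt.2 hxy.le), if_pos hxy, smul_smul, smul_smul,
        Finset.insert_comm, ← add_smul]
      have e : sg y s * (1 * sg x s) + sg x s * (-1 * sg y s) = 0 := by ring
      rw [e, zero_smul]
    · rw [if_pos (Finset.mem_insert_self x s), smul_zero, add_zero]
    · rw [if_neg (by rw [Finset.mem_insert, not_or]; exact ⟨hxy.ne', hx⟩),
        if_neg (by rw [Finset.mem_insert, not_or]; exact ⟨hxy.ne, hy⟩), sg_insert hy,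
        sg_insert hx, if_pos hxy, if_neg (not_lt.2 hxy.le), smul_smul, smul_smul,
        Finset.insert_comm, ← add_smul]
      have e : sg y s * (-1 * sg x s) + sg x s * (1 * sg y s) = 0 := by ring
      rw [e, zero_smul]
  exact LinearMap.congr_fun h v

theorem an_an (x y : X) (v : Fer X) : an x (an y v) + an y (an x v) = 0 := by
  have h : an x ∘ₗ an y + an y ∘ₗ an x = 0 := by
    refine ext_bs fun s => ?_
    rw [LinearMap.add_apply, LinearMap.comp_apply, LinearMap.comp_apply, LinearMap.zero_apply,
      an_bs, an_bs]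
    by_cases hx : x ∈ s
    swap
    · rw [if_neg hx, map_zero, add_zero]
      split_ifs with hy
      · rw [map_smul, an_bs, if_neg (fun hc => hx (Finset.mem_of_mem_erase hc)), smul_zero]
      · rw [map_zero]
    by_cases hy : y ∈ s
    swap
    · rw [if_neg hy, map_zero, zero_add, if_pos hx, map_smul, an_bs,
        if_neg (fun hc => hy (Finset.mem_of_mem_erase hc)), smul_zero]
    rw [if_pos hx, if_pos hy, map_smul, map_smul, an_bs, an_bs]
    rcases lt_trichotomy x y with hxy | rfl | hxy
    · rw [if_pos (Finset.mem_erase.2 ⟨hxy.ne, hx⟩), if_pos (Finset.mem_erase.2 ⟨hxy.ne', hy⟩),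
        sg_erase hy, sg_erase hx, if_neg (not_lt.2 hxy.le), if_pos hxy, smul_smul, smul_smul,
        Finset.erase_right_comm, ← add_smul]
      have e : sg y s * (1 * sg x s) + sg x s * (-1 * sg y s) = 0 := by ring
      rw [e, zero_smul]
    · rw [if_neg (Finset.notMem_erase x s), smul_zero, add_zero]
    · rw [if_pos (Finset.mem_erase.2 ⟨hxy.ne', hx⟩), if_pos (Finset.mem_erase.2 ⟨hxy.ne, hy⟩),
        sg_erase hy, sg_erase hx, if_pos hxy, if_neg (not_lt.2 hxy.le), smul_smul, smul_smul,
        Finset.erase_right_comm, ← add_smul]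
      have e : sg y s * (-1 * sg x s) + sg x s * (1 * sg y s) = 0 := by ring
      rw [e, zero_smul]
  exact LinearMap.congr_fun h v

theorem an_cr (x y : X) (v : Fer X) :
    an x (cr y v) + cr y (an x v) = if x = y then v else 0 := by
  have h : an x ∘ₗ cr y + cr y ∘ₗ an x = if x = y then LinearMap.id else 0 := by
    refine ext_bs fun s => ?_
    rw [LinearMap.add_apply, LinearMap.comp_apply, LinearMap.comp_apply, an_bs, cr_bs]
    by_cases hxy : x = y
    · subst hxy
      rw [if_pos rfl, LinearMap.id_apply]
      by_cases hx : x ∈ s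
      · rw [if_pos hx, if_pos hx, map_zero, zero_add, map_smul, cr_bs,
          if_neg (Finset.notMem_erase x s), smul_smul, sg_erase_self hx, sg_sq, one_smul,
          Finset.insert_erase hx]
      · rw [if_neg hx, if_neg hx, map_zero, add_zero, map_smul, an_bs,
          if_pos (Finset.mem_insert_self x s), smul_smul, sg_insert_self hx, sg_sq, one_smul,
          Finset.erase_insert hx]
    · rw [if_neg hxy, LinearMap.zero_apply]
      by_cases hx : x ∈ s
      · rw [if_pos hx, map_smul, cr_bs]
        by_cases hy : y ∈ s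
        · rw [if_pos hy, map_zero, zero_add, if_pos (Finset.mem_erase.2 ⟨Ne.symm hxy, hy⟩),
            smul_zero]
        · rw [if_neg hy, map_smul, an_bs, if_pos (Finset.mem_insert_of_mem hx),
            if_neg (fun hc => hy (Finset.mem_of_mem_erase hc)), sg_insert hy, sg_erase hx,
            smul_smul, smul_smul, Finset.erase_insert_of_ne (Ne.symm hxy), ← add_smul]
          rcases lt_or_gt_of_ne hxy with h | h
          · rw [if_neg (not_lt.2 h.le), if_pos h]
            have e : sg y s * (1 * sg x s) + sg x s * (-1 * sg y s) = 0 := by ring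
            rw [e, zero_smul]
          · rw [if_pos h, if_neg (not_lt.2 h.le)]
            have e : sg y s * (-1 * sg x s) + sg x s * (1 * sg y s) = 0 := by ring
            rw [e, zero_smul]
      · rw [if_neg hx, map_zero, add_zero]
        split_ifs with hy
        · rw [map_zero]
        · rw [map_smul, an_bs, if_neg, smul_zero]
          rw [Finset.mem_insert, not_or]
          exact ⟨hxy, hx⟩
  have h2 := LinearMap.congr_fun h v
  rw [LinearMap.add_apply, LinearMap.comp_apply, LinearMap.comp_apply] at h2
  rw [h2]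
  split_ifs <;> rfl

/-- The vacuum. -/
def vac : Fer X := bs ∅

theorem an_vac (x : X) : an x (vac : Fer X) = 0 := by
  unfold vac
  rw [an_bs, if_neg (Finset.notMem_empty x)]

/-- Annihilation operators are pointwise finite. -/
theorem an_fin (v : Fer X) : ∃ S : Finset X, ∀ x, x ∉ S → an x v = 0 := by
  induction v using Finsupp.induction_linear with
  | zero => exact ⟨∅, fun x _ => map_zero _⟩
  | add v w hv hw =>
    obtain ⟨S, hS⟩ := hv
    obtain ⟨T, hT⟩ := hw
    refine ⟨S ∪ T, fun x hx => ?_⟩
    rw [Finset.notMem_union] at hx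
    rw [map_add, hS x hx.1, hT x hx.2, add_zero]
  | single s c =>
    refine ⟨s, fun x hx => ?_⟩
    have e : (Finsupp.single s c : Fer X) = c • bs s := by
      unfold bs
      rw [Finsupp.smul_single, smul_eq_mul, mul_one]
    rw [e, map_smul, an_bs, if_neg hx, smul_zero]

/-- The operator with the eigenvalues `∑_{x ∈ s} w x`. -/
def wt (w : X → ℂ) : Fer X →ₗ[ℂ] Fer X :=
  Finsupp.lsum ℂ fun s => (∑ x ∈ s, w x) • Finsupp.lsingle s

theorem wt_bs (w : X → ℂ) (s : Finset X) : wt w (bs s) = (∑ x ∈ s, w x) • bs s := by
  unfold wt bs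
  rw [Finsupp.lsum_single, LinearMap.smul_apply, Finsupp.lsingle_apply]

theorem wt_vac (w : X → ℂ) : wt w (vac : Fer X) = 0 := by
  unfold vac
  rw [wt_bs, Finset.sum_empty, zero_smul]

theorem wt_cr (w : X → ℂ) (x : X) (v : Fer X) :
    wt w (cr x v) = cr x (wt w v) + w x • cr x v := by
  have h : wt w ∘ₗ cr x = cr x ∘ₗ wt w + w x • cr x := by
    refine ext_bs fun s => ?_
    rw [LinearMap.add_apply, LinearMap.comp_apply, LinearMap.comp_apply, LinearMap.smul_apply,
      wt_bs, map_smul, cr_bs]
    split_ifs with hx
    · rw [map_zero, smul_zero, smul_zero, add_zero]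
    · rw [map_smul, wt_bs, Finset.sum_insert hx, ← add_smul, smul_comm, add_comm (w x)]
  exact LinearMap.congr_fun h v

theorem wt_an (w : X → ℂ) (x : X) (v : Fer X) :
    wt w (an x v) = an x (wt w v) - w x • an x v := by
  have h : wt w ∘ₗ an x = an x ∘ₗ wt w - w x • an x := by
    refine ext_bs fun s => ?_
    rw [LinearMap.sub_apply, LinearMap.comp_apply, LinearMap.comp_apply, LinearMap.smul_apply,
      wt_bs, map_smul, an_bs]
    split_ifs with hx
    · have e : ∑ y ∈ s.erase x, w y = ∑ y ∈ s, w y - w x := by
        rw [← Finset.add_sum_erase s w hx]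
        ring
      rw [map_smul, wt_bs, e, ← sub_smul, smul_comm]
    · rw [map_zero, smul_zero, smul_zero, sub_zero]
  exact LinearMap.congr_fun h v

/-- The word of creation operators applied to the vacuum. -/
def wrd (l : List X) : Fer X := l.foldr (fun x v => cr x v) vac

theorem wrd_cons (x : X) (l : List X) : wrd (x :: l) = cr x (wrd l) := rfl

/-- Strictly increasing words are the basis vectors. -/
theorem wrd_sorted (l : List X) (h : l.Pairwise (· < ·)) : wrd l = bs l.toFinset := by
  induction l with
  | nil => rfl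
  | cons x l ih =>
    rw [List.pairwise_cons] at h
    have hx : x ∉ l.toFinset := fun hc => lt_irrefl x (h.1 x (List.mem_toFinset.1 hc))
    rw [wrd_cons, ih h.2, cr_bs, if_neg hx, List.toFinset_cons]
    have e : sg x l.toFinset = 1 := by
      unfold sg
      have h2 : l.toFinset.filter (· < x) = ∅ := by
        refine Finset.filter_eq_empty_iff.2 fun y hy hyx => ?_
        exact lt_asymm hyx (h.1 y (List.mem_toFinset.1 hy))
      rw [h2, Finset.card_empty, pow_zero]
    rw [e, one_smul]

end Fer

end

end WPE
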