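import Pool.Agent.WPE.IND2

/-! WPE, block IN: functoriality, ghost degree, words, locally finite sums, normal ordered
bilinears. -/

namespace WPE

open scoped TensorProduct

noncomputable section

section functor

variable {B : Type} [LieRing B] [LieAlgebra ℂ B] {κ : B →ₗ[ℂ] B →ₗ[ℂ] ℂ}
variable {N N' N'' : Type} [AddCommGroup N] [Module ℂ N] [AddCommGroup N'] [Module ℂ N']
  [AddCommGroup N''] [Module ℂ N'']

/-- Homomorphisms of `B[t]`-modules. -/
def TMod.IsHom (T : TMod B N) (T' : TMod B N') (f : N →ₗ[ℂ] N') : Prop :=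
  ∀ (m : ℕ) (a : B) (v : N), f (T.act m a v) = T'.act m a (f v)

namespace Ind

variable {T : TMod B N} {T' : TMod B N'} {T'' : TMod B N''}

/-- Functoriality of induction. -/
def map (f : N →ₗ[ℂ] N') (hf : T.IsHom T' f) : Ind κ T →ₗ[ℂ] Ind κ T' :=
  lift (mod κ T') (incl κ T' ∘ₗ f) (by
    intro m a v
    rw [LinearMap.comp_apply, LinearMap.comp_apply, J_incl, hf])

variable (f : N →ₗ[ℂ] N') (hf : T.IsHom T' f)

theorem map_incl (v : N) : map (κ := κ) f hf (incl κ T v) = incl κ T' (f v) := by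
  unfold map
  rw [lift_incl]
  rfl

theorem map_J (m : ℤ) (a : B) (x : Ind κ T) :
    map f hf ((mod κ T).J m a x) = (mod κ T').J m a (map f hf x) := by
  unfold map
  rw [lift_J]

theorem map_isHom : (mod κ T).IsHom (mod κ T') (map f hf) := map_J f hf

theorem map_comp (g : N' →ₗ[ℂ] N'') (hg : T'.IsHom T'' g) (hgf : T.IsHom T'' (g ∘ₗ f))
    (x : Ind κ T) : map g hg (map f hf x) = map (g ∘ₗ f) hgf x := by
  have h : map g hg ∘ₗ map f hf = map (κ := κ) (g ∘ₗ f) hgf := by
    refine hom_ext (X := mod κ T'') ?_ (map_isHom _ _) ?_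
    · intro m a x
      rw [LinearMap.comp_apply, LinearMap.comp_apply, map_J, map_J]
    · intro v
      rw [LinearMap.comp_apply, map_incl, map_incl, map_incl]
      rfl
  exact LinearMap.congr_fun h x

theorem map_id (h : T.IsHom T LinearMap.id) (x : Ind κ T) : map LinearMap.id h x = x := by
  have h : map LinearMap.id h = (LinearMap.id : Ind κ T →ₗ[ℂ] Ind κ T) := by
    refine hom_ext (X := mod κ T) (map_isHom _ _) (fun m a x => rfl) ?_
    intro v
    rw [map_incl]
    rfl
  rw [h]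
  rfl

/-- The vectors `J (-s_1-1) b_{i_1} ⋯ v` with `l = [(s_1,i_1), …]`. -/
def word {Λ : Type} (b : Λ → B) : List (ℕ × Λ) → N →ₗ[ℂ] Ind κ T
  | [] => incl κ T
  | k :: l => (mod κ T).J (-(k.1 : ℤ) - 1) (b k.2) ∘ₗ word b l

theorem word_nil {Λ : Type} (b : Λ → B) (v : N) :
    word (κ := κ) (T := T) b [] v = incl κ T v := rfl

theorem word_cons {Λ : Type} (b : Λ → B) (k : ℕ × Λ) (l : List (ℕ × Λ)) (v : N) :
    word (κ := κ) (T := T) b (k :: l) v =
      (mod κ T).J (-(k.1 : ℤ) - 1) (b k.2) (word b l v) := rfl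

theorem map_word {Λ : Type} (b : Λ → B) (l : List (ℕ × Λ)) (v : N) :
    map f hf (word (κ := κ) b l v) = word b l (f v) := by
  induction l with
  | nil => rw [word_nil, word_nil, map_incl]
  | cons k l ih => rw [word_cons, word_cons, map_J, ih]

variable (κ T)

/-- The linear map of the PBW theorem (`sortedMap_bijective`). -/
def sortedMap {Λ : Type} [LinearOrder (ℕ × Λ)] (b : Λ → B) :
    ({l : List (ℕ × Λ) // l.Pairwise (· ≤ ·)} →₀ N) →ₗ[ℂ] Ind κ T :=
  Finsupp.lsum ℂ fun l => word b l.1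

end Ind

end functor

section lf

variable {K K' : Type} {E E' E'' : Type} [AddCommGroup E] [Module ℂ E] [AddCommGroup E']
  [Module ℂ E'] [AddCommGroup E''] [Module ℂ E'']

/-- Pointwise finite families. -/
def LF (f : K → E →ₗ[ℂ] E') : Prop := ∀ x, (Function.support fun k => f k x).Finite

open Classical in
/-- The pointwise sum of a pointwise finite family of linear maps. -/
def psum (f : K → E →ₗ[ℂ] E') : E →ₗ[ℂ] E' :=
  if h : LF f then
    { toFun := fun x => ∑ᶠ k, f k x
      map_add' := by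
        intro x y
        simp only [map_add]
        exact finsum_add_distrib (h x) (h y)
      map_smul' := by
        intro c x
        simp only [map_smul, RingHom.id_apply]
        exact (smul_finsum' c (h x)).symm }
  else 0

theorem psum_apply {f : K → E →ₗ[ℂ] E'} (h : LF f) (x : E) : psum f x = ∑ᶠ k, f k x := by
  unfold psum
  rw [dif_pos h]
  rfl

theorem psum_eq_sum {f : K → E →ₗ[ℂ] E'} (h : LF f) (x : E) (s : Finset K)
    (hs : ∀ k, k ∉ s → f k x = 0) : psum f x = ∑ k ∈ s, f k x := by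
  rw [psum_apply h]
  refine finsum_eq_sum_of_support_subset _ ?_
  intro k hk
  by_contra hc
  exact hk (hs k hc)

theorem LF.of_finset {f : K → E →ₗ[ℂ] E'} (h : ∀ x, ∃ s : Finset K, ∀ k, k ∉ s → f k x = 0) :
    LF f := by
  intro x
  obtain ⟨s, hs⟩ := h x
  refine s.finite_toSet.subset ?_
  intro k hk
  by_contra hc
  exact hk (hs k hc)

theorem LF.exists_finset {f : K → E →ₗ[ℂ] E'} (h : LF f) (x : E) :
    ∃ s : Finset K, ∀ k, k ∉ s → f k x = 0 := by
  refine ⟨(h x).toFinset, fun k hk => ?_⟩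
  rw [Set.Finite.mem_toFinset, Function.mem_support, not_not] at hk
  exact hk

theorem LF.add {f g : K → E →ₗ[ℂ] E'} (hf : LF f) (hg : LF g) : LF (fun k => f k + g k) := by
  classical
  refine LF.of_finset fun x => ?_
  obtain ⟨s, hs⟩ := hf.exists_finset x
  obtain ⟨t, ht⟩ := hg.exists_finset x
  refine ⟨s ∪ t, fun k hk => ?_⟩
  rw [Finset.notMem_union] at hk
  rw [LinearMap.add_apply, hs k hk.1, ht k hk.2, add_zero]

theorem LF.smul (c : ℂ) {f : K → E →ₗ[ℂ] E'} (hf : LF f) : LF (fun k => c • f k) := by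
  refine LF.of_finset fun x => ?_
  obtain ⟨s, hs⟩ := hf.exists_finset x
  exact ⟨s, fun k hk => by rw [LinearMap.smul_apply, hs k hk, smul_zero]⟩

theorem LF.neg {f : K → E →ₗ[ℂ] E'} (hf : LF f) : LF (fun k => -f k) := by
  refine LF.of_finset fun x => ?_
  obtain ⟨s, hs⟩ := hf.exists_finset x
  exact ⟨s, fun k hk => by rw [LinearMap.neg_apply, hs k hk, neg_zero]⟩

theorem LF.sub {f g : K → E →ₗ[ℂ] E'} (hf : LF f) (hg : LF g) : LF (fun k => f k - g k) := by
  have h := hf.add hg.neg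
  simpa only [sub_eq_add_neg] using h

theorem LF.comp_left {f : K → E →ₗ[ℂ] E'} (hf : LF f) (G : E' →ₗ[ℂ] E'') :
    LF (fun k => G ∘ₗ f k) := by
  refine LF.of_finset fun x => ?_
  obtain ⟨s, hs⟩ := hf.exists_finset x
  exact ⟨s, fun k hk => by rw [LinearMap.comp_apply, hs k hk, map_zero]⟩

theorem LF.comp_right {f : K → E →ₗ[ℂ] E'} (hf : LF f) (G : E'' →ₗ[ℂ] E) :
    LF (fun k => f k ∘ₗ G) := by
  refine LF.of_finset fun x => ?_
  obtain ⟨s, hs⟩ := hf.exists_finset (G x)
  exact ⟨s, fun k hk => by rw [LinearMap.comp_apply, hs k hk]⟩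

theorem LF.comp_equiv {f : K → E →ₗ[ℂ] E'} (hf : LF f) (e : K' ≃ K) : LF (fun k => f (e k)) := by
  classical
  refine LF.of_finset fun x => ?_
  obtain ⟨s, hs⟩ := hf.exists_finset x
  refine ⟨s.map e.symm.toEmbedding, fun k hk => hs _ fun hc => hk ?_⟩
  rw [Finset.mem_map]
  exact ⟨e k, hc, by simp⟩

theorem psum_add {f g : K → E →ₗ[ℂ] E'} (hf : LF f) (hg : LF g) :
    psum (fun k => f k + g k) = psum f + psum g := by
  ext x
  rw [psum_apply (hf.add hg), LinearMap.add_apply, psum_apply hf, psum_apply hg]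
  exact finsum_add_distrib (hf x) (hg x)

theorem psum_smul (c : ℂ) {f : K → E →ₗ[ℂ] E'} (hf : LF f) :
    psum (fun k => c • f k) = c • psum f := by
  ext x
  rw [psum_apply (hf.smul c), LinearMap.smul_apply, psum_apply hf]
  exact (smul_finsum' c (hf x)).symm

theorem psum_neg {f : K → E →ₗ[ℂ] E'} (hf : LF f) : psum (fun k => -f k) = -psum f := by
  have h := psum_smul (-1) hf
  simpa only [neg_smul, one_smul] using h

theorem psum_sub {f g : K → E →ₗ[ℂ] E'} (hf : LF f) (hg : LF g) :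
    psum (fun k => f k - g k) = psum f - psum g := by
  have h := psum_add hf hg.neg
  rw [psum_neg hg] at h
  simpa only [sub_eq_add_neg] using h

theorem comp_psum {f : K → E →ₗ[ℂ] E'} (hf : LF f) (G : E' →ₗ[ℂ] E'') :
    G ∘ₗ psum f = psum (fun k => G ∘ₗ f k) := by
  ext x
  obtain ⟨s, hs⟩ := hf.exists_finset x
  rw [LinearMap.comp_apply, psum_eq_sum hf x s hs, psum_eq_sum (hf.comp_left G) x s
    (fun k hk => by rw [LinearMap.comp_apply, hs k hk, map_zero]), map_sum]
  rfl

theorem psum_comp {f : K → E →ₗ[ℂ] E'} (hf : LF f) (G : E'' →ₗ[ℂ] E) :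
    psum f ∘ₗ G = psum (fun k => f k ∘ₗ G) := by
  ext x
  rw [LinearMap.comp_apply, psum_apply hf, psum_apply (hf.comp_right G)]
  rfl

theorem psum_equiv {f : K → E →ₗ[ℂ] E'} (hf : LF f) (e : K' ≃ K) :
    psum (fun k => f (e k)) = psum f := by
  ext x
  rw [psum_apply hf, psum_apply (hf.comp_equiv e)]
  exact finsum_comp_equiv e (f := fun k => f k x)

theorem psum_zero : psum (fun _ : K => (0 : E →ₗ[ℂ] E')) = 0 := by
  ext x
  rw [psum_eq_sum (LF.of_finset fun x => ⟨∅, fun _ _ => rfl⟩) x ∅ (fun _ _ => rfl)]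
  rfl

theorem psum_single [DecidableEq K] (k0 : K) (f : E →ₗ[ℂ] E') :
    psum (fun k => if k = k0 then f else 0) = f := by
  have h : LF (fun k => if k = k0 then f else 0) := LF.of_finset fun x =>
    ⟨{k0}, fun k hk => by
      rw [Finset.mem_singleton] at hk
      rw [if_neg hk]; rfl⟩
  ext x
  rw [psum_eq_sum h x {k0} (fun k hk => by
      rw [Finset.mem_singleton] at hk
      rw [if_neg hk]; rfl), Finset.sum_singleton, if_pos rfl]

end lf

section nop

variable {B : Type} [LieRing B] [LieAlgebra ℂ B] {κ : B →ₗ[ℂ] B →ₗ[ℂ] ℂ}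
variable {Y : Type} [AddCommGroup Y] [Module ℂ Y] [LieRingModule B Y] [LieModule ℂ B Y]
variable {E : Type} [AddCommGroup E] [Module ℂ E] (X : GMod B Y κ E)

namespace GMod

/-- The terms of the normally ordered product of the current `c` and the ghost `z`. -/
def nopF (m : ℤ) (c : B) (z : Y) (k : ℤ) : E →ₗ[ℂ] E :=
  if k < 0 then X.J k c ∘ₗ X.ψ (m - 1 - k) z else X.ψ (m - 1 - k) z ∘ₗ X.J k c

theorem lf_nopF (m : ℤ) (c : B) (z : Y) : LF (X.nopF m c z) := by
  refine LF.of_finset fun x => ?_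
  obtain ⟨M, hM⟩ := X.smooth x
  obtain ⟨M', hM'⟩ := X.smoothψ x
  refine ⟨Finset.Icc (min 0 (m - 1 - M')) (max 0 M), fun k hk => ?_⟩
  unfold nopF
  rw [Finset.mem_Icc, not_and_or, not_le, not_le] at hk
  rcases hk with hk | hk
  · have h1 : k < 0 := lt_of_lt_of_le hk (min_le_left _ _)
    have h2 : k < m - 1 - M' := lt_of_lt_of_le hk (min_le_right _ _)
    rw [if_pos h1, LinearMap.comp_apply, hM' _ (by omega), map_zero]
  · have h1 : 0 < k := lt_of_le_of_lt (le_max_left _ _) hk
    have h2 : M < k := lt_of_le_of_lt (le_max_right _ _) hk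
    rw [if_neg (by omega), LinearMap.comp_apply, hM _ (by omega), map_zero]

/-- The modes `(c ⊗ z)[m]` of the normally ordered product of a current and a ghost. -/
def nop (m : ℤ) : B ⊗[ℂ] Y →ₗ[ℂ] E →ₗ[ℂ] E :=
  TensorProduct.lift (LinearMap.mk₂ ℂ (fun c z => psum (X.nopF m c z))
    (by
      intro c c' z
      rw [← psum_add (X.lf_nopF m c z) (X.lf_nopF m c' z)]
      congr 1
      funext k
      unfold nopF
      split_ifs
      · rw [map_add, LinearMap.add_comp]
      · rw [map_add, LinearMap.comp_add])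
    (by
      intro r c z
      rw [← psum_smul r (X.lf_nopF m c z)]
      congr 1
      funext k
      unfold nopF
      split_ifs
      · rw [map_smul, LinearMap.smul_comp]
      · rw [map_smul, LinearMap.comp_smul])
    (by
      intro c z z'
      rw [← psum_add (X.lf_nopF m c z) (X.lf_nopF m c z')]
      congr 1
      funext k
      unfold nopF
      split_ifs
      · rw [map_add, LinearMap.comp_add]
      · rw [map_add, LinearMap.add_comp])
    (by
      intro r c z
      rw [← psum_smul r (X.lf_nopF m c z)]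
      congr 1
      funext k
      unfold nopF
      split_ifs
      · rw [map_smul, LinearMap.comp_smul]
      · rw [map_smul, LinearMap.smul_comp]))

theorem nop_tmul (m : ℤ) (c : B) (z : Y) : X.nop m (c ⊗ₜ z) = psum (X.nopF m c z) := by
  unfold nop
  rw [TensorProduct.lift.tmul]
  rfl

/-- The terms of the product of two ghosts. -/
def ppF (m : ℤ) (u w : Y) (k : ℤ) : E →ₗ[ℂ] E := X.ψ k u ∘ₗ X.ψ (m - 1 - k) w

theorem lf_ppF (m : ℤ) (u w : Y) : LF (X.ppF m u w) := by
  refine LF.of_finset fun x => ?_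
  obtain ⟨M', hM'⟩ := X.smoothψ x
  refine ⟨Finset.Icc (m - 1 - M') M', fun k hk => ?_⟩
  unfold ppF
  rw [Finset.mem_Icc, not_and_or, not_le, not_le] at hk
  rcases hk with hk | hk
  · rw [LinearMap.comp_apply, hM' _ (by omega), map_zero]
  · have h := X.anti k (m - 1 - k) u w x
    rw [hM' k (by omega), map_zero, add_zero] at h
    exact h

/-- The modes `(u ⊗ w){m}` of the product of two ghosts. -/
def pp (m : ℤ) : Y ⊗[ℂ] Y →ₗ[ℂ] E →ₗ[ℂ] E :=
  TensorProduct.lift (LinearMap.mk₂ ℂ (fun u w => psum (X.ppF m u w))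
    (by
      intro c c' z
      rw [← psum_add (X.lf_ppF m c z) (X.lf_ppF m c' z)]
      congr 1
      funext k
      unfold ppF
      rw [map_add, LinearMap.add_comp])
    (by
      intro r c z
      rw [← psum_smul r (X.lf_ppF m c z)]
      congr 1
      funext k
      unfold ppF
      rw [map_smul, LinearMap.smul_comp])
    (by
      intro c z z'
      rw [← psum_add (X.lf_ppF m c z) (X.lf_ppF m c z')]
      congr 1
      funext k
      unfold ppF
      rw [map_add, LinearMap.comp_add])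
    (by
      intro r c z
      rw [← psum_smul r (X.lf_ppF m c z)]
      congr 1
      funext k
      unfold ppF
      rw [map_smul, LinearMap.comp_smul]))

theorem pp_tmul (m : ℤ) (u w : Y) : X.pp m (u ⊗ₜ w) = psum (X.ppF m u w) := by
  unfold pp
  rw [TensorProduct.lift.tmul]
  rfl

variable (κ Y) in
/-- `c ⊗ z ↦ ⁅⁅a, c⁆, z⁆ + κ(a, c) z`. -/
def brk (a : B) : B ⊗[ℂ] Y →ₗ[ℂ] Y :=
  TensorProduct.lift (LinearMap.mk₂ ℂ (fun (c : B) (z : Y) => ⁅⁅a, c⁆, z⁆ + κ a c • z)
    (by intro c c' z; simp only [lie_add, add_lie, map_add, add_smul]; abel)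
    (by intro r c z; simp only [lie_smul, smul_lie, map_smul, smul_add, smul_assoc])
    (by intro c z z'; simp only [lie_add, smul_add]; abel)
    (by intro r c z; simp only [lie_smul, smul_add, smul_comm r]))

variable (κ Y) in
theorem brk_tmul (a c : B) (z : Y) : brk κ Y a (c ⊗ₜ z) = ⁅⁅a, c⁆, z⁆ + κ a c • z := by
  unfold brk
  rw [TensorProduct.lift.tmul]
  rfl

variable (B) in
/-- `c ⊗ z ↦ ⁅c, y⁆ ⊗ z`. -/
def lieL (y : Y) : B ⊗[ℂ] Y →ₗ[ℂ] Y ⊗[ℂ] Y :=
  LinearMap.rTensor Y ((LieModule.toEnd ℂ B Y : B →ₗ[ℂ] Module.End ℂ Y).flip y)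

variable (B) in
theorem lieL_tmul (y : Y) (c : B) (z : Y) : lieL B y (c ⊗ₜ z) = ⁅c, y⁆ ⊗ₜ[ℂ] z := rfl

end GMod

end nop

end

end WPE
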