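import Pool.Agent.WPE.CL1
import Pool.Agent.WPE.FER0
import Pool.Agent.WPE.IND3

/-! [WPE-FER1] Modes of the charged fermions. -/

set_option autoImplicit false
set_option linter.unusedSectionVars false

namespace WPE

noncomputable section

/-- Charged fermions: `ph_m(b)`, `ps_m(b)`, `m ∈ ℤ`, `b ∈ β`, with
`{ph_m(b), ps_n(c)} = δ_{m+n,-1} δ_{b,c}` (all fields are written `∑ a_m z^{-m-1}`). -/
structure FMod (β : Type) [DecidableEq β] (E : Type) [AddCommGroup E] [Module ℂ E] where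
  ph : ℤ → β → E →ₗ[ℂ] E
  ps : ℤ → β → E →ₗ[ℂ] E
  hh : ∀ m n b c x, ph m b (ph n c x) + ph n c (ph m b x) = 0
  ss : ∀ m n b c x, ps m b (ps n c x) + ps n c (ps m b x) = 0
  hs : ∀ m n b c x, ph m b (ps n c x) + ps n c (ph m b x) =
    if m + n = -1 ∧ b = c then x else 0
  smh : ∀ x, ∃ M : ℤ, ∀ m, M ≤ m → ∀ b, ph m b x = 0
  sms : ∀ x, ∃ M : ℤ, ∀ m, M ≤ m → ∀ b, ps m b x = 0

/-- The creation letters: `P m b` is `ph_{-m-1}(b)`, `S m b` is `ps_{-m-1}(b)`. -/
inductive Gx (β : Type) : Type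
  | P : ℕ → β → Gx β
  | S : ℕ → β → Gx β

open Classical in
instance (β : Type) : LinearOrder (Gx β) := linearOrderOfSTO WellOrderingRel

theorem Gx.P_inj {β : Type} {m n : ℕ} {b c : β} : (Gx.P m b = Gx.P n c) ↔ m = n ∧ b = c := by
  rw [Gx.P.injEq]

theorem Gx.S_inj {β : Type} {m n : ℕ} {b c : β} : (Gx.S m b = Gx.S n c) ↔ m = n ∧ b = c := by
  rw [Gx.S.injEq]

theorem Gx.P_ne_S {β : Type} (m n : ℕ) (b c : β) : Gx.P m b ≠ Gx.S n c := by
  intro h
  cases h

/-- The level of a letter. -/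
def Gx.lv {β : Type} : Gx β → ℕ
  | Gx.P m _ => m
  | Gx.S m _ => m

namespace Fer

variable {β : Type}

/-- The modes `ph_m(b)` on the Fock space. -/
def phF (m : ℤ) (b : β) : Fer (Gx β) →ₗ[ℂ] Fer (Gx β) :=
  if m < 0 then cr (Gx.P (-m - 1).toNat b) else an (Gx.S m.toNat b)

/-- The modes `ps_m(b)` on the Fock space. -/
def psF (m : ℤ) (b : β) : Fer (Gx β) →ₗ[ℂ] Fer (Gx β) :=
  if m < 0 then cr (Gx.S (-m - 1).toNat b) else an (Gx.P m.toNat b)

theorem phF_neg (m : ℕ) (b : β) : phF (-(m : ℤ) - 1) b = cr (Gx.P m b) := by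
  unfold phF
  rw [if_pos (by omega)]
  congr 2
  omega

theorem psF_neg (m : ℕ) (b : β) : psF (-(m : ℤ) - 1) b = cr (Gx.S m b) := by
  unfold psF
  rw [if_pos (by omega)]
  congr 2
  omega

theorem phF_nat (m : ℕ) (b : β) : phF (m : ℤ) b = an (Gx.S m b) := by
  unfold phF
  rw [if_neg (by omega)]
  rfl

theorem psF_nat (m : ℕ) (b : β) : psF (m : ℤ) b = an (Gx.P m b) := by
  unfold psF
  rw [if_neg (by omega)]
  rfl

theorem cases_int (m : ℤ) : (∃ n : ℕ, m = -(n : ℤ) - 1) ∨ ∃ n : ℕ, m = (n : ℤ) := by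
  rcases lt_or_ge m 0 with h | h
  · exact Or.inl ⟨(-m - 1).toNat, by omega⟩
  · exact Or.inr ⟨m.toNat, by omega⟩

theorem phF_vac (m : ℤ) (hm : 0 ≤ m) (b : β) : phF m b (vac : Fer (Gx β)) = 0 := by
  obtain ⟨n, rfl⟩ : ∃ n : ℕ, m = n := ⟨m.toNat, by omega⟩
  rw [phF_nat, an_vac]

theorem psF_vac (m : ℤ) (hm : 0 ≤ m) (b : β) : psF m b (vac : Fer (Gx β)) = 0 := by
  obtain ⟨n, rfl⟩ : ∃ n : ℕ, m = n := ⟨m.toNat, by omega⟩
  rw [psF_nat, an_vac]

theorem gx_bound (S : Finset (Gx β)) : ∃ M : ℤ, 0 ≤ M ∧ ∀ (m : ℕ) (b : β), M ≤ m →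
    Gx.P m b ∉ S ∧ Gx.S m b ∉ S := by
  refine ⟨(S.sup Gx.lv : ℕ) + 1, by omega, fun m b hm => ⟨fun hc => ?_, fun hc => ?_⟩⟩
  · have h1 : Gx.lv (Gx.P m b) ≤ S.sup Gx.lv := Finset.le_sup hc
    have h2 : Gx.lv (Gx.P m b) = m := rfl
    omega
  · have h1 : Gx.lv (Gx.S m b) ≤ S.sup Gx.lv := Finset.le_sup hc
    have h2 : Gx.lv (Gx.S m b) = m := rfl
    omega

/-- The charged fermions on the Fock space. -/
def fmod (β : Type) [DecidableEq β] : FMod β (Fer (Gx β)) where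
  ph := phF
  ps := psF
  hh := by
    intro m n b c x
    rcases cases_int m with ⟨m, rfl⟩ | ⟨m, rfl⟩ <;> rcases cases_int n with ⟨n, rfl⟩ | ⟨n, rfl⟩
    · rw [phF_neg, phF_neg, cr_cr]
    · rw [phF_neg, phF_nat, add_comm, an_cr, if_neg (Ne.symm (Gx.P_ne_S _ _ _ _))]
    · rw [phF_nat, phF_neg, an_cr, if_neg (Ne.symm (Gx.P_ne_S _ _ _ _))]
    · rw [phF_nat, phF_nat, an_an]
  ss := by
    intro m n b c x
    rcases cases_int m with ⟨m, rfl⟩ | ⟨m, rfl⟩ <;> rcases cases_int n with ⟨n, rfl⟩ | ⟨n, rfl⟩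
    · rw [psF_neg, psF_neg, cr_cr]
    · rw [psF_neg, psF_nat, add_comm, an_cr, if_neg (Gx.P_ne_S _ _ _ _)]
    · rw [psF_nat, psF_neg, an_cr, if_neg (Gx.P_ne_S _ _ _ _)]
    · rw [psF_nat, psF_nat, an_an]
  hs := by
    intro m n b c x
    rcases cases_int m with ⟨m, rfl⟩ | ⟨m, rfl⟩ <;> rcases cases_int n with ⟨n, rfl⟩ | ⟨n, rfl⟩
    · rw [phF_neg, psF_neg, cr_cr, if_neg (by omega)]
    · rw [phF_neg, psF_nat, add_comm, an_cr]
      by_cases h : m = n ∧ b = c
      · rw [if_pos (Gx.P_inj.2 ⟨h.1.symm, h.2.symm⟩), if_pos ⟨by omega, h.2⟩]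
      · rw [if_neg (fun hc => h ⟨(Gx.P_inj.1 hc).1.symm, (Gx.P_inj.1 hc).2.symm⟩),
          if_neg (fun hc => h ⟨by omega, hc.2⟩)]
    · rw [phF_nat, psF_neg, an_cr]
      by_cases h : m = n ∧ b = c
      · rw [if_pos (Gx.S_inj.2 h), if_pos ⟨by omega, h.2⟩]
      · rw [if_neg (fun hc => h (Gx.S_inj.1 hc)), if_neg (fun hc => h ⟨by omega, hc.2⟩)]
    · rw [phF_nat, psF_nat, an_an, if_neg (by omega)]
  smh := by
    intro x
    obtain ⟨S, hS⟩ := an_fin x
    obtain ⟨M, hM0, hM⟩ := gx_bound S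
    refine ⟨M, fun m hm b => ?_⟩
    obtain ⟨n, rfl⟩ : ∃ n : ℕ, m = n := ⟨m.toNat, by omega⟩
    rw [phF_nat]
    exact hS _ (hM n b hm).2
  sms := by
    intro x
    obtain ⟨S, hS⟩ := an_fin x
    obtain ⟨M, hM0, hM⟩ := gx_bound S
    refine ⟨M, fun m hm b => ?_⟩
    obtain ⟨n, rfl⟩ : ∃ n : ℕ, m = n := ⟨m.toNat, by omega⟩
    rw [psF_nat]
    exact hS _ (hM n b hm).1

end Fer

namespace FMod

variable {β : Type} [DecidableEq β]
variable {B : Type} [LieRing B] [LieAlgebra ℂ B] {κ : B →ₗ[ℂ] B →ₗ[ℂ] ℂ}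
variable {N : Type} [AddCommGroup N] [Module ℂ N] {T : TMod B N}

/-- Any linear map is a homomorphism for the zero action. -/
theorem hom0 (h0 : ∀ m a v, T.act m a v = 0) (f : N →ₗ[ℂ] N) : T.IsHom T f := by
  intro m a v
  rw [h0, h0, map_zero]

/-- The operator `1 ⊗ f` on the induced module. -/
def up (κ : B →ₗ[ℂ] B →ₗ[ℂ] ℂ) (T : TMod B N) (h0 : ∀ m a v, T.act m a v = 0) (f : N →ₗ[ℂ] N) :
    Ind κ T →ₗ[ℂ] Ind κ T := Ind.map f (hom0 h0 f)

theorem up_incl (h0 : ∀ m a v, T.act m a v = 0) (f : N →ₗ[ℂ] N) (v : N) :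
    up κ T h0 f (Ind.incl κ T v) = Ind.incl κ T (f v) := Ind.map_incl _ _ v

theorem up_J (h0 : ∀ m a v, T.act m a v = 0) (f : N →ₗ[ℂ] N) (m : ℤ) (a : B) (x : Ind κ T) :
    up κ T h0 f ((Ind.mod κ T).J m a x) = (Ind.mod κ T).J m a (up κ T h0 f x) :=
  Ind.map_J _ _ m a x

/-- The charged fermions on the induced module. -/
def ind (hk : IsInvForm κ) (h0 : ∀ m a v, T.act m a v = 0) (X : FMod β N) :
    FMod β (Ind κ T) where
  ph m b := up κ T h0 (X.ph m b)
  ps m b := up κ T h0 (X.ps m b)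
  hh := by
    intro m n b c x
    have h := neg_induction (κ := κ) (T := T) hk (LinearMap.ker
      (up κ T h0 (X.ph m b) ∘ₗ up κ T h0 (X.ph n c) +
        up κ T h0 (X.ph n c) ∘ₗ up κ T h0 (X.ph m b))) (fun v => by
        rw [LinearMap.mem_ker, LinearMap.add_apply, LinearMap.comp_apply, LinearMap.comp_apply,
          up_incl, up_incl, up_incl, up_incl, ← map_add, X.hh, map_zero]) (fun s a x hx => by
        rw [LinearMap.mem_ker, LinearMap.add_apply, LinearMap.comp_apply,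
          LinearMap.comp_apply] at hx ⊢
        rw [up_J, up_J, up_J, up_J, ← map_add, hx, map_zero]) x
    exact LinearMap.mem_ker.1 h
  ss := by
    intro m n b c x
    have h := neg_induction (κ := κ) (T := T) hk (LinearMap.ker
      (up κ T h0 (X.ps m b) ∘ₗ up κ T h0 (X.ps n c) +
        up κ T h0 (X.ps n c) ∘ₗ up κ T h0 (X.ps m b))) (fun v => by
        rw [LinearMap.mem_ker, LinearMap.add_apply, LinearMap.comp_apply, LinearMap.comp_apply,
          up_incl, up_incl, up_incl, up_incl, ← map_add, X.ss, map_zero]) (fun s a x hx => by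
        rw [LinearMap.mem_ker, LinearMap.add_apply, LinearMap.comp_apply,
          LinearMap.comp_apply] at hx ⊢
        rw [up_J, up_J, up_J, up_J, ← map_add, hx, map_zero]) x
    exact LinearMap.mem_ker.1 h
  hs := by
    intro m n b c x
    have h := neg_induction (κ := κ) (T := T) hk (LinearMap.ker
      (up κ T h0 (X.ph m b) ∘ₗ up κ T h0 (X.ps n c) +
        up κ T h0 (X.ps n c) ∘ₗ up κ T h0 (X.ph m b) -
          if m + n = -1 ∧ b = c then LinearMap.id else 0)) (fun v => by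
        rw [LinearMap.mem_ker, LinearMap.sub_apply, LinearMap.add_apply, LinearMap.comp_apply,
          LinearMap.comp_apply, up_incl, up_incl, up_incl, up_incl, ← map_add, X.hs]
        split_ifs
        · exact sub_self _
        · rw [map_zero, LinearMap.zero_apply, sub_zero]) (fun s a x hx => by
        rw [LinearMap.mem_ker, LinearMap.sub_apply, LinearMap.add_apply, LinearMap.comp_apply,
          LinearMap.comp_apply] at hx ⊢
        rw [up_J, up_J, up_J, up_J, ← map_add]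
        split_ifs at hx ⊢ with hc
        · rw [LinearMap.id_apply] at hx ⊢
          rw [← map_sub, hx, map_zero]
        · rw [LinearMap.zero_apply, sub_zero] at hx ⊢
          rw [hx, map_zero]) x
    rw [LinearMap.mem_ker, LinearMap.sub_apply, LinearMap.add_apply, sub_eq_zero] at h
    refine h.trans ?_
    split_ifs <;> rfl
  smh := by
    intro x
    let W : Submodule ℂ (Ind κ T) :=
      { carrier := {x | ∃ M : ℤ, ∀ m, M ≤ m → ∀ b, up κ T h0 (X.ph m b) x = 0}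
        add_mem' := by
          rintro x y ⟨M, hM⟩ ⟨M', hM'⟩
          exact ⟨max M M', fun m hm b => by
            rw [map_add, hM m (le_trans (le_max_left _ _) hm),
              hM' m (le_trans (le_max_right _ _) hm), add_zero]⟩
        zero_mem' := ⟨0, fun m _ b => map_zero _⟩
        smul_mem' := by
          rintro r x ⟨M, hM⟩
          exact ⟨M, fun m hm b => by rw [map_smul, hM m hm, smul_zero]⟩ }
    have h := neg_induction (κ := κ) (T := T) hk W (fun v => by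
      obtain ⟨M, hM⟩ := X.smh v
      exact ⟨M, fun m hm b => by rw [up_incl, hM m hm, map_zero]⟩) (fun s a x hx => by
      obtain ⟨M, hM⟩ := hx
      exact ⟨M, fun m hm b => by rw [up_J, hM m hm, map_zero]⟩) x
    exact h
  sms := by
    intro x
    let W : Submodule ℂ (Ind κ T) :=
      { carrier := {x | ∃ M : ℤ, ∀ m, M ≤ m → ∀ b, up κ T h0 (X.ps m b) x = 0}
        add_mem' := by
          rintro x y ⟨M, hM⟩ ⟨M', hM'⟩
          exact ⟨max M M', fun m hm b => by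
            rw [map_add, hM m (le_trans (le_max_left _ _) hm),
              hM' m (le_trans (le_max_right _ _) hm), add_zero]⟩
        zero_mem' := ⟨0, fun m _ b => map_zero _⟩
        smul_mem' := by
          rintro r x ⟨M, hM⟩
          exact ⟨M, fun m hm b => by rw [map_smul, hM m hm, smul_zero]⟩ }
    have h := neg_induction (κ := κ) (T := T) hk W (fun v => by
      obtain ⟨M, hM⟩ := X.sms v
      exact ⟨M, fun m hm b => by rw [up_incl, hM m hm, map_zero]⟩) (fun s a x hx => by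
      obtain ⟨M, hM⟩ := hx
      exact ⟨M, fun m hm b => by rw [up_J, hM m hm, map_zero]⟩) x
    exact h

theorem ind_ph (hk : IsInvForm κ) (h0 : ∀ m a v, T.act m a v = 0) (X : FMod β N) (m : ℤ) (b : β)
    (v : N) : (X.ind hk h0).ph m b (Ind.incl κ T v) = Ind.incl κ T (X.ph m b v) := up_incl h0 _ v

theorem ind_ps (hk : IsInvForm κ) (h0 : ∀ m a v, T.act m a v = 0) (X : FMod β N) (m : ℤ) (b : β)
    (v : N) : (X.ind hk h0).ps m b (Ind.incl κ T v) = Ind.incl κ T (X.ps m b v) := up_incl h0 _ v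

theorem ind_ph_J (hk : IsInvForm κ) (h0 : ∀ m a v, T.act m a v = 0) (X : FMod β N) (m : ℤ)
    (b : β) (n : ℤ) (a : B) (x : Ind κ T) : (X.ind hk h0).ph m b ((Ind.mod κ T).J n a x) =
      (Ind.mod κ T).J n a ((X.ind hk h0).ph m b x) := up_J h0 _ n a x

theorem ind_ps_J (hk : IsInvForm κ) (h0 : ∀ m a v, T.act m a v = 0) (X : FMod β N) (m : ℤ)
    (b : β) (n : ℤ) (a : B) (x : Ind κ T) : (X.ind hk h0).ps m b ((Ind.mod κ T).J n a x) =
      (Ind.mod κ T).J n a ((X.ind hk h0).ps m b x) := up_J h0 _ n a x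

end FMod

end

end WPE
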