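import Pool.Agent.WPE.FBD
import Pool.Agent.WPE.FER1

/-! WPE, block FB6A: the model and the universal property. -/

set_option linter.unusedSectionVars false

namespace WPE

open scoped TensorProduct

noncomputable section

/-! ### Universality of the fermionic Fock space -/

namespace Fer

variable {X : Type} [LinearOrder X]

theorem sg_min {a : X} {S : Finset X} (h : ∀ y ∈ S, a < y) : sg a S = 1 := by
  unfold sg
  have h2 : S.filter (· < a) = ∅ := by
    rw [Finset.filter_eq_empty_iff]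
    intro y hy
    exact not_lt.2 (h y hy).le
  rw [h2, Finset.card_empty, pow_zero]

/-- `Λ` is spanned by the words. -/
theorem ind_cr (W : Submodule ℂ (Fer X)) (h0 : vac ∈ W) (h1 : ∀ x v, v ∈ W → cr x v ∈ W)
    (v : Fer X) : v ∈ W := by
  have h2 : ∀ S : Finset X, bs S ∈ W := by
    intro S
    induction S using Finset.induction_on_min with
    | empty => exact h0
    | insert a S ha ih =>
      have h := h1 a _ ih
      rw [cr_bs, if_neg (fun hc => lt_irrefl _ (ha a hc)), sg_min ha, one_smul] at h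
      exact h
  induction v using Finsupp.induction_linear with
  | zero => exact zero_mem _
  | add f g hf hg => exact add_mem hf hg
  | single S a =>
    have h := W.smul_mem a (h2 S)
    unfold bs at h
    rwa [Finsupp.smul_single, smul_eq_mul, mul_one] at h

section univ

variable {E : Type} [AddCommGroup E] [Module ℂ E] (A K : X → E →ₗ[ℂ] E) (w : E)

/-- The sorted word of creation operators applied to `w`. -/
def wd (S : Finset X) : E := (S.sort (· ≤ ·)).foldr (fun x v => A x v) w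

theorem wd_empty : wd A w ∅ = w := by
  unfold wd
  rw [Finset.sort_empty]
  rfl

theorem wd_insert {a : X} {S : Finset X} (h : ∀ y ∈ S, a < y) :
    wd A w (insert a S) = A a (wd A w S) := by
  unfold wd
  rw [Finset.sort_insert (r := (· ≤ ·)) (fun y hy => (h y hy).le) (fun hc => lt_irrefl _ (h a hc))]
  rfl

variable {A K w}

theorem A_wd (hAA : ∀ x y v, A x (A y v) + A y (A x v) = 0) (x : X) (S : Finset X) :
    A x (wd A w S) = if x ∈ S then 0 else sg x S • wd A w (insert x S) := by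
  have haa : ∀ x y v, A x (A y v) = -A y (A x v) := fun x y v =>
    eq_neg_of_add_eq_zero_left (hAA x y v)
  have h0 : ∀ x v, A x (A x v) = 0 := by
    intro x v
    have h2 : (2 : ℂ) • A x (A x v) = 0 := by
      rw [two_smul]
      exact hAA x x v
    exact (smul_eq_zero.1 h2).resolve_left two_ne_zero
  induction S using Finset.induction_on_min with
  | empty =>
    rw [if_neg (Finset.notMem_empty x), sg_min (fun y hy => absurd hy (Finset.notMem_empty y)),
      one_smul, wd_insert A w (fun y hy => absurd hy (Finset.notMem_empty y))]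
  | insert a S ha ih =>
    have haS : a ∉ S := fun hc => lt_irrefl _ (ha a hc)
    rw [wd_insert A w ha]
    rcases lt_trichotomy x a with h | h | h
    · have h1 : ∀ y ∈ insert a S, x < y := by
        intro y hy
        rcases Finset.mem_insert.1 hy with rfl | hy
        · exact h
        · exact h.trans (ha y hy)
      rw [if_neg (fun hc => lt_irrefl _ (h1 x hc)), sg_min h1, one_smul, wd_insert A w h1,
        wd_insert A w ha]
    · subst h
      rw [if_pos (Finset.mem_insert_self _ _), h0]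
    · rw [haa, ih]
      by_cases hx : x ∈ S
      · rw [if_pos hx, if_pos (Finset.mem_insert_of_mem hx), map_zero, neg_zero]
      · have h1 : x ∉ insert a S := by
          rw [Finset.mem_insert, not_or]; exact ⟨h.ne', hx⟩
        have h2 : ∀ y ∈ insert x S, a < y := by
          intro y hy
          rcases Finset.mem_insert.1 hy with rfl | hy
          · exact h
          · exact ha y hy
        rw [if_neg hx, if_neg h1, map_smul, sg_insert haS, if_pos h, Finset.insert_comm,
          wd_insert A w h2]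
        rw [neg_one_mul, neg_smul]

theorem K_wd (hAK : ∀ x y v, K x (A y v) + A y (K x v) = if x = y then v else 0)
    (hw : ∀ x, K x w = 0) (x : X) (S : Finset X) :
    K x (wd A w S) = if x ∈ S then sg x S • wd A w (S.erase x) else 0 := by
  have hka : ∀ x y v, K x (A y v) = (if x = y then v else 0) - A y (K x v) := fun x y v =>
    eq_sub_of_add_eq (hAK x y v)
  induction S using Finset.induction_on_min with
  | empty => rw [if_neg (Finset.notMem_empty x), wd_empty, hw]
  | insert a S ha ih =>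
    have haS : a ∉ S := fun hc => lt_irrefl _ (ha a hc)
    rw [wd_insert A w ha, hka, ih]
    by_cases hxa : x = a
    · subst hxa
      rw [if_pos rfl, if_neg haS, map_zero, sub_zero, if_pos (Finset.mem_insert_self _ _),
        Finset.erase_insert haS, sg_insert_self haS, sg_min ha, one_smul]
    · rw [if_neg hxa, zero_sub]
      by_cases hx : x ∈ S
      · have h1 : ∀ y ∈ S.erase x, a < y := fun y hy => ha y (Finset.mem_of_mem_erase hy)
        rw [if_pos hx, if_pos (Finset.mem_insert_of_mem hx), map_smul, sg_insert haS,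
          if_pos (ha x hx), Finset.erase_insert_of_ne (fun h => hxa h.symm), wd_insert A w h1,
          neg_one_mul, neg_smul]
      · have h1 : x ∉ insert a S := by
          rw [Finset.mem_insert, not_or]; exact ⟨hxa, hx⟩
        rw [if_neg hx, if_neg h1, map_zero, neg_zero]

variable (A w) in
/-- The universal map. -/
def lft : Fer X →ₗ[ℂ] E :=
  Finsupp.lsum ℂ fun S => (LinearMap.id : ℂ →ₗ[ℂ] ℂ).smulRight (wd A w S)

variable (A w) in
theorem lft_bs (S : Finset X) : lft A w (bs S) = wd A w S := by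
  unfold lft bs
  rw [Finsupp.lsum_single]
  exact one_smul _ _

variable (A w) in
theorem lft_vac : lft A w vac = w := by
  unfold vac
  rw [lft_bs, wd_empty]

theorem lft_cr (hAA : ∀ x y v, A x (A y v) + A y (A x v) = 0) (x : X) (v : Fer X) :
    lft A w (cr x v) = A x (lft A w v) := by
  have h : lft A w ∘ₗ cr x = A x ∘ₗ lft A w := by
    refine ext_bs fun S => ?_
    rw [LinearMap.comp_apply, LinearMap.comp_apply, lft_bs, A_wd hAA, cr_bs]
    by_cases hx : x ∈ S
    · rw [if_pos hx, if_pos hx, map_zero]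
    · rw [if_neg hx, if_neg hx, map_smul, lft_bs]
  exact LinearMap.congr_fun h v

theorem lft_an (hAK : ∀ x y v, K x (A y v) + A y (K x v) = if x = y then v else 0)
    (hw : ∀ x, K x w = 0) (x : X) (v : Fer X) :
    lft A w (an x v) = K x (lft A w v) := by
  have h : lft A w ∘ₗ an x = K x ∘ₗ lft A w := by
    refine ext_bs fun S => ?_
    rw [LinearMap.comp_apply, LinearMap.comp_apply, lft_bs, K_wd hAK hw, an_bs]
    by_cases hx : x ∈ S
    · rw [if_pos hx, if_pos hx, map_smul, lft_bs]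
    · rw [if_neg hx, if_neg hx, map_zero]
  exact LinearMap.congr_fun h v

end univ

/-- Words of different letters are the basis vectors up to sign. -/
theorem wrd_nodup (l : List X) (h : l.Nodup) :
    ∃ ε : ℂˣ, wrd l = ε • (bs l.toFinset : Fer X) := by
  induction l with
  | nil => exact ⟨1, by rw [one_smul]; rfl⟩
  | cons x l ih =>
    rw [List.nodup_cons] at h
    obtain ⟨ε, hε⟩ := ih h.2
    have hx : x ∉ l.toFinset := fun hc => h.1 (List.mem_toFinset.1 hc)
    have hs : IsUnit (sg x l.toFinset) := isUnit_iff_ne_zero.2 fun hc => by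
      have := sg_sq x l.toFinset
      rw [hc, zero_mul] at this
      exact zero_ne_one this
    refine ⟨ε * hs.unit, ?_⟩
    rw [wrd_cons, hε, Units.smul_def, map_smul, cr_bs, if_neg hx, List.toFinset_cons, mul_smul,
      Units.smul_def, Units.smul_def, IsUnit.unit_spec]

end Fer

/-! ### The model -/

/-- The zero action. -/
def TMod.zr (B : Type) [LieRing B] [LieAlgebra ℂ B] (N : Type) [AddCommGroup N] [Module ℂ N] :
    TMod B N where
  act _ := 0
  comm := by
    intro m n a b v
    simp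
  smooth := fun v => ⟨0, fun m _ a => rfl⟩

theorem TMod.zr_act (B : Type) [LieRing B] [LieAlgebra ℂ B] (N : Type) [AddCommGroup N]
    [Module ℂ N] (m : ℕ) (a : B) (v : N) : (TMod.zr B N).act m a v = 0 := rfl

variable {g β η : Type} [LieRing g] [LieAlgebra ℂ g] [Fintype β] [DecidableEq β] [Fintype η]
  [DecidableEq η]

theorem LD.kform_isInv (L : LD g β η) (k : ℂ) : IsInvForm (k • L.form) where
  symm := fun a b => by
    rw [LinearMap.smul_apply, LinearMap.smul_apply, LinearMap.smul_apply, LinearMap.smul_apply,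
      L.symm]
  inv := fun a b c => by
    rw [LinearMap.smul_apply, LinearMap.smul_apply, LinearMap.smul_apply, LinearMap.smul_apply,
      L.inv]

namespace LD

variable (L : LD g β η) (k : ℂ)

/-- The space of the model. -/
abbrev ME : Type := Ind (k • L.form) (TMod.zr g (Fer (Gx β)))

/-- The ghosts of the model. -/
def mgh : FMod β (L.ME k) := (Fer.fmod β).ind (L.kform_isInv k) (TMod.zr_act g _)

/-- The model. -/
def MX : FVac L k (L.ME k) where
  toBMod := Ind.mod _ _
  b := (L.mgh k).ph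
  c := (L.mgh k).ps
  bb := (L.mgh k).hh
  cc := (L.mgh k).ss
  bc := by
    intro m n s t x
    rw [(L.mgh k).hs]
    congr 1
    rw [eq_iff_iff]
    constructor
    · rintro ⟨h1, h2⟩
      exact ⟨h2, by omega⟩
    · rintro ⟨h1, h2⟩
      exact ⟨by omega, h1⟩
  smooth := by
    intro x
    obtain ⟨M, hM⟩ := (L.mgh k).smh x
    obtain ⟨M', hM'⟩ := (L.mgh k).sms x
    exact ⟨max M M', fun m hm s => ⟨hM m (le_trans (le_max_left _ _) hm) s,
      hM' m (le_trans (le_max_right _ _) hm) s⟩⟩
  Jb := fun m n x s v =>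
    (FMod.ind_ph_J (L.kform_isInv k) (TMod.zr_act g _) (Fer.fmod β) n s m x v).symm
  Jc := fun m n x s v =>
    (FMod.ind_ps_J (L.kform_isInv k) (TMod.zr_act g _) (Fer.fmod β) n s m x v).symm
  smoothJ := Ind.smooth
  vac := Ind.incl _ _ Fer.vac
  J_vac := by
    intro m x hm
    obtain ⟨n, rfl⟩ := Int.eq_ofNat_of_zero_le hm
    rw [Ind.J_incl, TMod.zr_act, map_zero]
  b_vac := by
    intro m s hm
    show (L.mgh k).ph m s (Ind.incl _ _ Fer.vac) = 0
    unfold mgh
    rw [FMod.ind_ph]
    show Ind.incl _ _ (Fer.phF m s Fer.vac) = 0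
    rw [Fer.phF_vac m hm, map_zero]
  c_vac := by
    intro m s hm
    show (L.mgh k).ps m s (Ind.incl _ _ Fer.vac) = 0
    unfold mgh
    rw [FMod.ind_ps]
    show Ind.incl _ _ (Fer.psF m s Fer.vac) = 0
    rw [Fer.psF_vac m hm, map_zero]

theorem MX_J (m : ℤ) (x : g) (v : L.ME k) : (L.MX k).J m x v = (Ind.mod _ _).J m x v := rfl

theorem MX_vac : (L.MX k).vac = Ind.incl _ _ Fer.vac := rfl

theorem MX_b (m : ℤ) (s : β) (v : Fer (Gx β)) :
    (L.MX k).b m s (Ind.incl _ _ v) = Ind.incl _ _ (Fer.phF m s v) :=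
  FMod.ind_ph (L.kform_isInv k) (TMod.zr_act g _) (Fer.fmod β) m s v

theorem MX_c (m : ℤ) (s : β) (v : Fer (Gx β)) :
    (L.MX k).c m s (Ind.incl _ _ v) = Ind.incl _ _ (Fer.psF m s v) :=
  FMod.ind_ps (L.kform_isInv k) (TMod.zr_act g _) (Fer.fmod β) m s v

end LD

/-! ### Universality of the model -/

section univ

variable {L : LD g β η} {k : ℂ} {E' : Type} [AddCommGroup E'] [Module ℂ E'] (X' : FR L k E')

namespace FR

/-- The creation operators. -/
def crA : Gx β → E' →ₗ[ℂ] E'
  | Gx.P m s => X'.b (-(m : ℤ) - 1) s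
  | Gx.S m s => X'.c (-(m : ℤ) - 1) s

/-- The annihilation operators. -/
def anK : Gx β → E' →ₗ[ℂ] E'
  | Gx.P m s => X'.c m s
  | Gx.S m s => X'.b m s

theorem crA_crA (x y : Gx β) (v : E') :
    X'.crA x (X'.crA y v) + X'.crA y (X'.crA x v) = 0 := by
  rcases x with ⟨m, s⟩ | ⟨m, s⟩ <;> rcases y with ⟨n, t⟩ | ⟨n, t⟩
  · exact X'.bb _ _ _ _ _
  · refine (X'.bc _ _ _ _ _).trans (if_neg ?_)
    omega
  · rw [add_comm]
    refine (X'.bc _ _ _ _ _).trans (if_neg ?_)
    omega
  · exact X'.cc _ _ _ _ _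

theorem anK_crA (x y : Gx β) (v : E') :
    X'.anK x (X'.crA y v) + X'.crA y (X'.anK x v) = if x = y then v else 0 := by
  rcases x with ⟨m, s⟩ | ⟨m, s⟩ <;> rcases y with ⟨n, t⟩ | ⟨n, t⟩
  · rw [add_comm]
    refine (X'.bc _ _ _ _ _).trans ?_
    by_cases h : m = n ∧ s = t
    · rw [if_pos ⟨h.2.symm, by omega⟩, if_pos (Gx.P_inj.2 h)]
    · rw [if_neg (fun hc => h ⟨by omega, hc.1.symm⟩), if_neg (fun hc => h (Gx.P_inj.1 hc))]
  · rw [if_neg (Gx.P_ne_S _ _ _ _)]
    exact X'.cc _ _ _ _ _
  · rw [if_neg (Ne.symm (Gx.P_ne_S _ _ _ _))]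
    exact X'.bb _ _ _ _ _
  · refine (X'.bc _ _ _ _ _).trans ?_
    by_cases h : m = n ∧ s = t
    · rw [if_pos ⟨h.2, by omega⟩, if_pos (Gx.S_inj.2 h)]
    · rw [if_neg (fun hc => h ⟨by omega, hc.1⟩), if_neg (fun hc => h (Gx.S_inj.1 hc))]

theorem anK_vac (x : Gx β) : X'.anK x X'.vac = 0 := by
  rcases x with ⟨m, s⟩ | ⟨m, s⟩
  · exact X'.c_vac _ _ (Int.natCast_nonneg m)
  · exact X'.b_vac _ _ (Int.natCast_nonneg m)

/-- The universal map on the Fock space. -/
def fl : Fer (Gx β) →ₗ[ℂ] E' := Fer.lft X'.crA X'.vac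

theorem fl_vac : X'.fl Fer.vac = X'.vac := Fer.lft_vac _ _

theorem fl_b (m : ℤ) (s : β) (v : Fer (Gx β)) : X'.fl (Fer.phF m s v) = X'.b m s (X'.fl v) := by
  rcases Fer.cases_int m with ⟨m, rfl⟩ | ⟨m, rfl⟩
  · rw [Fer.phF_neg]
    exact Fer.lft_cr X'.crA_crA _ v
  · rw [Fer.phF_nat]
    exact Fer.lft_an X'.anK_crA X'.anK_vac _ v

theorem fl_c (m : ℤ) (s : β) (v : Fer (Gx β)) : X'.fl (Fer.psF m s v) = X'.c m s (X'.fl v) := by
  rcases Fer.cases_int m with ⟨m, rfl⟩ | ⟨m, rfl⟩
  · rw [Fer.psF_neg]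
    exact Fer.lft_cr X'.crA_crA _ v
  · rw [Fer.psF_nat]
    exact Fer.lft_an X'.anK_crA X'.anK_vac _ v

theorem J_crA (m : ℤ) (a : g) (x : Gx β) (v : E') :
    X'.J m a (X'.crA x v) = X'.crA x (X'.J m a v) := by
  rcases x with ⟨n, s⟩ | ⟨n, s⟩
  · exact X'.Jb _ _ _ _ _
  · exact X'.Jc _ _ _ _ _

theorem fl_J (m : ℕ) (a : g) (v : Fer (Gx β)) :
    X'.J m a (X'.fl v) = X'.fl ((TMod.zr g (Fer (Gx β))).act m a v) := by
  rw [TMod.zr_act, map_zero]
  have h := Fer.ind_cr (LinearMap.ker (X'.J m a ∘ₗ X'.fl)) (by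
    rw [LinearMap.mem_ker, LinearMap.comp_apply, fl_vac]
    exact X'.J_vac _ _ (Int.natCast_nonneg m)) (fun x v hv => by
    rw [LinearMap.mem_ker, LinearMap.comp_apply] at hv ⊢
    have h1 : X'.fl (Fer.cr x v) = X'.crA x (X'.fl v) := Fer.lft_cr X'.crA_crA _ v
    rw [h1, J_crA, hv, map_zero]) v
  exact h

/-- The universal map. -/
def ml : L.ME k →ₗ[ℂ] E' := Ind.lift X'.toBMod X'.fl X'.fl_J

theorem ml_incl (v : Fer (Gx β)) : X'.ml (Ind.incl _ _ v) = X'.fl v := Ind.lift_incl _ v

theorem ml_J (m : ℤ) (x : g) (v : L.ME k) :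
    X'.ml ((Ind.mod _ _).J m x v) = X'.J m x (X'.ml v) := Ind.lift_J _ m x v

theorem ml_isHom : (L.MX k).toFR.IsHom X' X'.ml where
  vac := by
    show X'.ml (Ind.incl _ _ Fer.vac) = _
    rw [ml_incl, fl_vac]
  J := X'.ml_J
  b := by
    intro m s v
    show X'.ml ((L.MX k).b m s v) = X'.b m s (X'.ml v)
    have h := Ind.induction_sub (LinearMap.eqLocus (X'.ml ∘ₗ (L.MX k).b m s)
      (X'.b m s ∘ₗ X'.ml)) (fun u => by
        show X'.ml ((L.MX k).b m s (Ind.incl _ _ u)) = X'.b m s (X'.ml (Ind.incl _ _ u))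
        rw [LD.MX_b, ml_incl, ml_incl, fl_b]) (fun n a x hx => by
        have hx' : X'.ml ((L.MX k).b m s x) = X'.b m s (X'.ml x) := hx
        show X'.ml ((L.MX k).b m s ((L.MX k).J n a x)) = X'.b m s (X'.ml ((L.MX k).J n a x))
        rw [← (L.MX k).Jb, LD.MX_J, LD.MX_J, ml_J, ml_J, hx', X'.Jb]) v
    exact h
  c := by
    intro m s v
    show X'.ml ((L.MX k).c m s v) = X'.c m s (X'.ml v)
    have h := Ind.induction_sub (LinearMap.eqLocus (X'.ml ∘ₗ (L.MX k).c m s)
      (X'.c m s ∘ₗ X'.ml)) (fun u => by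
        show X'.ml ((L.MX k).c m s (Ind.incl _ _ u)) = X'.c m s (X'.ml (Ind.incl _ _ u))
        rw [LD.MX_c, ml_incl, ml_incl, fl_c]) (fun n a x hx => by
        have hx' : X'.ml ((L.MX k).c m s x) = X'.c m s (X'.ml x) := hx
        show X'.ml ((L.MX k).c m s ((L.MX k).J n a x)) = X'.c m s (X'.ml ((L.MX k).J n a x))
        rw [← (L.MX k).Jc, LD.MX_J, LD.MX_J, ml_J, ml_J, hx', X'.Jc]) v
    exact h

end FR

variable (L k)

/-- The model has the universal property. -/
theorem MX_univ : (L.MX k).toFR.Univ := by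
  intro E' _ _ X'
  refine ⟨X'.ml, X'.ml_isHom, fun f hf => ?_⟩
  refine Ind.hom_ext (X := X'.toBMod) (fun m a x => hf.J m a x) (fun m a x => X'.ml_J m a x) ?_
  intro v
  rw [FR.ml_incl]
  have h := Fer.ind_cr (LinearMap.eqLocus (f ∘ₗ Ind.incl _ _) X'.fl) (by
    show f (Ind.incl _ _ Fer.vac) = X'.fl Fer.vac
    rw [FR.fl_vac]
    exact hf.vac) (fun x v hv => by
    have hv' : f (Ind.incl _ _ v) = X'.fl v := hv
    show f (Ind.incl _ _ (Fer.cr x v)) = X'.fl (Fer.cr x v)
    rcases x with ⟨n, s⟩ | ⟨n, s⟩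
    · rw [← Fer.phF_neg, FR.fl_b, ← hv', ← hf.b]
      show _ = f ((L.MX k).b _ s (Ind.incl _ _ v))
      rw [LD.MX_b]
    · rw [← Fer.psF_neg, FR.fl_c, ← hv', ← hf.c]
      show _ = f ((L.MX k).c _ s (Ind.incl _ _ v))
      rw [LD.MX_c]) v
  exact h

end univ

end

end WPE
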