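import Pool.Agent.WPE.FER0

/-! WPE, block FB: maps out of the fermionic Fock space. -/

set_option linter.unusedSectionVars false

namespace WPE

noncomputable section

namespace Fer

variable {X : Type} [LinearOrder X] {E : Type} [AddCommGroup E] [Module ℂ E]

/-- The word of operators applied to `v`. -/
def wop (A : X → E →ₗ[ℂ] E) (v : E) (l : List X) : E := l.foldr (fun x w => A x w) v

theorem wop_nil (A : X → E →ₗ[ℂ] E) (v : E) : wop A v [] = v := rfl

theorem wop_cons (A : X → E →ₗ[ℂ] E) (v : E) (x : X) (l : List X) :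
    wop A v (x :: l) = A x (wop A v l) := rfl

/-- The linear map `bs S ↦ (sorted word of S) v`. -/
def theta (A : X → E →ₗ[ℂ] E) (v : E) : Fer X →ₗ[ℂ] E :=
  Finsupp.lsum ℂ fun s => LinearMap.toSpanSingleton ℂ E (wop A v (s.sort (· ≤ ·)))

theorem theta_bs (A : X → E →ₗ[ℂ] E) (v : E) (s : Finset X) :
    theta A v (bs s) = wop A v (s.sort (· ≤ ·)) := by
  unfold theta bs
  rw [Finsupp.lsum_single, LinearMap.toSpanSingleton_apply, one_smul]

theorem theta_vac (A : X → E →ₗ[ℂ] E) (v : E) : theta A v (vac : Fer X) = v := by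
  unfold vac
  rw [theta_bs, Finset.sort_empty]
  rfl

theorem sort_pairwise_lt (s : Finset X) : (s.sort (· ≤ ·)).Pairwise (· < ·) :=
  (Finset.sortedLT_sort s).pairwise

theorem sort_toFinset_of_lt (l : List X) (h : l.Pairwise (· < ·)) :
    l.toFinset.sort (· ≤ ·) = l := by
  have h1 : (l.toFinset.sort (· ≤ ·)).Perm l := by
    refine (List.perm_ext_iff_of_nodup (Finset.sort_nodup _ _) ?_).2 fun a => ?_
    · exact h.imp fun h => ne_of_lt h
    · rw [Finset.mem_sort, List.mem_toFinset]
  exact h1.eq_of_pairwise (fun a b _ _ h1 h2 => le_antisymm h1 h2)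
    ((sort_pairwise_lt _).imp le_of_lt) (h.imp le_of_lt)

/-- On strictly sorted words. -/
theorem theta_wrd (A : X → E →ₗ[ℂ] E) (v : E) (l : List X) (h : l.Pairwise (· < ·)) :
    theta A v (wrd l) = wop A v l := by
  rw [wrd_sorted l h, theta_bs, sort_toFinset_of_lt l h]

theorem ext_wrd {V : Type} [AddCommGroup V] [Module ℂ V] {f g : Fer X →ₗ[ℂ] V}
    (h : ∀ l : List X, l.Pairwise (· < ·) → f (wrd l) = g (wrd l)) : f = g := by
  refine ext_bs fun s => ?_
  have h1 := h _ (sort_pairwise_lt s)
  rwa [wrd_sorted _ (sort_pairwise_lt s), Finset.sort_toFinset] at h1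

/-- The span of the sorted words with letters `> x`. -/
def up (x : X) : Submodule ℂ (Fer X) :=
  Submodule.span ℂ {w | ∃ l : List X, l.Pairwise (· < ·) ∧ (∀ y ∈ l, x < y) ∧ w = wrd l}

theorem theta_cr_up (A : X → E →ₗ[ℂ] E) (v : E) (x : X) {w : Fer X} (hw : w ∈ up x) :
    theta A v (cr x w) = A x (theta A v w) := by
  induction hw using Submodule.span_induction with
  | mem w hw =>
    obtain ⟨l, h1, h2, rfl⟩ := hw
    rw [← wrd_cons, theta_wrd A v (x :: l) (List.pairwise_cons.2 ⟨h2, h1⟩), theta_wrd A v l h1,
      wop_cons]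
  | zero => rw [map_zero, map_zero, map_zero]
  | add x y _ _ hx hy => rw [map_add, map_add, map_add, map_add, hx, hy]
  | smul c x _ hx => rw [map_smul, map_smul, map_smul, map_smul, hx]

theorem cr_mem_up {x y : X} (hxy : x < y) {w : Fer X} (hw : w ∈ up x) : cr y w ∈ up x := by
  induction hw using Submodule.span_induction with
  | mem w hw =>
    obtain ⟨l, h1, h2, rfl⟩ := hw
    rw [wrd_sorted l h1, cr_bs]
    split_ifs with h
    · exact zero_mem _
    · refine Submodule.smul_mem _ _ (Submodule.subset_span
        ⟨(insert y l.toFinset).sort (· ≤ ·), sort_pairwise_lt _, ?_, ?_⟩)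
      · intro z hz
        rw [Finset.mem_sort, Finset.mem_insert] at hz
        rcases hz with rfl | hz
        · exact hxy
        · exact h2 z (List.mem_toFinset.1 hz)
      · rw [wrd_sorted _ (sort_pairwise_lt _), Finset.sort_toFinset]
  | zero => rw [map_zero]; exact zero_mem _
  | add x y _ _ hx hy => rw [map_add]; exact add_mem hx hy
  | smul c x _ hx => rw [map_smul]; exact Submodule.smul_mem _ _ hx

theorem an_mem_up {x : X} (y : X) {w : Fer X} (hw : w ∈ up x) : an y w ∈ up x := by
  induction hw using Submodule.span_induction with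
  | mem w hw =>
    obtain ⟨l, h1, h2, rfl⟩ := hw
    rw [wrd_sorted l h1, an_bs]
    split_ifs with h
    · refine Submodule.smul_mem _ _ (Submodule.subset_span
        ⟨(l.toFinset.erase y).sort (· ≤ ·), sort_pairwise_lt _, ?_, ?_⟩)
      · intro z hz
        rw [Finset.mem_sort] at hz
        exact h2 z (List.mem_toFinset.1 (Finset.mem_of_mem_erase hz))
      · rw [wrd_sorted _ (sort_pairwise_lt _), Finset.sort_toFinset]
    · exact zero_mem _
  | zero => rw [map_zero]; exact zero_mem _
  | add x y _ _ hx hy => rw [map_add]; exact add_mem hx hy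
  | smul c x _ hx => rw [map_smul]; exact Submodule.smul_mem _ _ hx

theorem cr_self (x : X) (v : Fer X) : cr x (cr x v) = 0 := by
  have h := cr_cr x x v
  rw [← two_smul ℂ] at h
  exact (smul_eq_zero.1 h).resolve_left two_ne_zero

variable {A D : X → E →ₗ[ℂ] E} {v : E} (hA : ∀ x y w, A x (A y w) + A y (A x w) = 0)

include hA in
/-- Creation operators. -/
theorem theta_cr (x : X) (w : Fer X) : theta A v (cr x w) = A x (theta A v w) := by
  have hAA : ∀ x w, A x (A x w) = 0 := by
    intro x w
    have h := hA x x w
    rw [← two_smul ℂ] at h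
    exact (smul_eq_zero.1 h).resolve_left two_ne_zero
  have key : theta A v ∘ₗ cr x = A x ∘ₗ theta A v := by
    refine ext_wrd fun l hl => ?_
    rw [LinearMap.comp_apply, LinearMap.comp_apply]
    induction l with
    | nil =>
      rw [← wrd_cons, theta_wrd A v [x] (List.pairwise_singleton _ _),
        theta_wrd A v [] List.Pairwise.nil]
      rfl
    | cons y l ih =>
      rw [List.pairwise_cons] at hl
      have hu : wrd l ∈ up y := Submodule.subset_span ⟨l, hl.2, hl.1, rfl⟩
      rcases lt_trichotomy x y with h | h | h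
      · refine theta_cr_up A v x (Submodule.subset_span ⟨y :: l, List.pairwise_cons.2 hl, ?_, rfl⟩)
        intro z hz
        rcases List.mem_cons.1 hz with rfl | hz
        · exact h
        · exact h.trans (hl.1 z hz)
      · subst h
        rw [wrd_cons, cr_self, map_zero, theta_cr_up A v x hu, hAA]
      · have e1 : cr x (wrd (y :: l)) = -cr y (cr x (wrd l)) := by
          rw [wrd_cons]
          exact eq_neg_of_add_eq_zero_left (cr_cr x y _)
        rw [e1, map_neg, theta_cr_up A v y (cr_mem_up h hu), ih hl.2, wrd_cons,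
          theta_cr_up A v y hu]
        exact (eq_neg_of_add_eq_zero_left (hA x y _)).symm
  exact LinearMap.congr_fun key w

include hA in
/-- Annihilation operators. -/
theorem theta_an (hD : ∀ x y w, D x (A y w) + A y (D x w) = if x = y then w else 0)
    (hv : ∀ x, D x v = 0) (x : X) (w : Fer X) : theta A v (an x w) = D x (theta A v w) := by
  have key : theta A v ∘ₗ an x = D x ∘ₗ theta A v := by
    refine ext_wrd fun l hl => ?_
    rw [LinearMap.comp_apply, LinearMap.comp_apply]
    induction l with
    | nil =>
      show theta A v (an x vac) = D x (theta A v vac)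
      rw [an_vac, map_zero, theta_vac, hv]
    | cons y l ih =>
      rw [List.pairwise_cons] at hl
      have e1 : an x (wrd (y :: l)) = (if x = y then wrd l else 0) - cr y (an x (wrd l)) := by
        rw [wrd_cons, ← an_cr]
        abel
      have e2 : D x (A y (theta A v (wrd l))) = (if x = y then theta A v (wrd l) else 0) -
          A y (D x (theta A v (wrd l))) := by
        rw [← hD]
        abel
      rw [e1, map_sub, theta_cr hA, ih hl.2, wrd_cons, theta_cr hA, e2]
      congr 1
      split_ifs
      · rfl
      · rw [map_zero]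
  exact LinearMap.congr_fun key w

end Fer

end

end WPE
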