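import Pool.Agent.WPE.FER1
import Pool.Agent.WPE.LD

/-! WPE, block FB: the model of the full complex `V^k(g) ⊗ Λ`, for every order of the letters. -/

set_option linter.unusedSectionVars false

namespace WPE

open scoped TensorProduct

noncomputable section

/-! ### A basis of `g` -/

section basis

variable {g β η : Type} [LieRing g] [LieAlgebra ℂ g] [Fintype β] [DecidableEq β] [Fintype η]
  [DecidableEq η]

/-- The coordinates with respect to `e s`, `f s`, `h i`. -/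
def LD.cg (L : LD g β η) : g →ₗ[ℂ] (β ⊕ (β ⊕ η) → ℂ) :=
  LinearMap.pi fun i => Sum.elim (fun s => L.form.flip (L.f s))
    (Sum.elim (fun s => L.form.flip (L.e s)) (fun i => L.form.flip (L.h' i))) i

theorem LD.form_h'_nm (L : LD g β η) (s : β) (i : η) : L.form (L.f s) (L.h' i) = 0 := by
  have h : ∀ y ∈ Submodule.span ℂ (Set.range L.h), L.form (L.f s) y = 0 := by
    intro y hy
    induction hy using Submodule.span_induction with
    | mem y hy =>
      obtain ⟨j, rfl⟩ := hy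
      exact L.fh s j
    | zero => exact map_zero _
    | add x y _ _ hx hy => rw [map_add, hx, hy, add_zero]
    | smul c x _ hx => rw [map_smul, hx, smul_zero]
  exact h _ (L.h'_mem i)

theorem LD.form_h'_np (L : LD g β η) (s : β) (i : η) : L.form (L.e s) (L.h' i) = 0 := by
  have h : ∀ y ∈ Submodule.span ℂ (Set.range L.h), L.form (L.e s) y = 0 := by
    intro y hy
    induction hy using Submodule.span_induction with
    | mem y hy =>
      obtain ⟨j, rfl⟩ := hy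
      exact L.eh s j
    | zero => exact map_zero _
    | add x y _ _ hx hy => rw [map_add, hx, hy, add_zero]
    | smul c x _ hx => rw [map_smul, hx, smul_zero]
  exact h _ (L.h'_mem i)

/-- The vectors of the basis. -/
def LD.vg (L : LD g β η) : β ⊕ (β ⊕ η) → g := Sum.elim L.e L.bb

theorem LD.cg_vg (L : LD g β η) (i j : β ⊕ (β ⊕ η)) :
    L.cg (L.vg i) j = if i = j then 1 else 0 := by
  rcases i with s | s | i <;> rcases j with t | t | j
  · show L.form (L.e s) (L.f t) = _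
    rw [L.ef]
    simp only [Sum.inl.injEq]
  · show L.form (L.e s) (L.e t) = _
    rw [L.ee, if_neg (by simp)]
  · show L.form (L.e s) (L.h' j) = _
    rw [L.form_h'_np, if_neg (by simp)]
  · show L.form (L.f s) (L.f t) = _
    rw [L.ff, if_neg (by simp)]
  · show L.form (L.f s) (L.e t) = _
    rw [L.symm, L.ef]
    simp only [Sum.inr.injEq, Sum.inl.injEq, eq_comm]
  · show L.form (L.f s) (L.h' j) = _
    rw [L.form_h'_nm, if_neg (by simp)]
  · show L.form (L.h i) (L.f t) = _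
    rw [L.symm, L.fh, if_neg (by simp)]
  · show L.form (L.h i) (L.e t) = _
    rw [L.symm, L.eh, if_neg (by simp)]
  · show L.form (L.h i) (L.h' j) = _
    rw [L.hh']
    simp only [Sum.inr.injEq]

/-- The linear equivalence. -/
def LD.eg (L : LD g β η) : g ≃ₗ[ℂ] (β ⊕ (β ⊕ η) → ℂ) where
  toLinearMap := L.cg
  invFun c := ∑ i, c i • L.vg i
  left_inv := by
    intro x
    have h := L.decomp x
    show ∑ i, L.cg x i • L.vg i = x
    rw [Fintype.sum_sum_type, Fintype.sum_sum_type]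
    conv_rhs => rw [h]
    rw [add_assoc, add_comm (∑ i, L.form x (L.h' i) • L.h i)]
    rfl
  right_inv := by
    intro c
    funext j
    show L.cg (∑ i, c i • L.vg i) j = c j
    rw [map_sum, Finset.sum_apply]
    simp only [map_smul, Pi.smul_apply, L.cg_vg, smul_eq_mul, mul_ite, mul_one, mul_zero,
      Finset.sum_ite_eq', Finset.mem_univ, if_true]

/-- The basis `e s`, `f s`, `h i` of `g`. -/
def LD.bg (L : LD g β η) : Module.Basis (β ⊕ (β ⊕ η)) ℂ g := Module.Basis.ofEquivFun L.eg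

theorem LD.bg_apply (L : LD g β η) (i : β ⊕ (β ⊕ η)) : L.bg i = L.vg i := by
  have h : L.eg (L.vg i) = Pi.single i 1 := by
    funext j
    show L.cg (L.vg i) j = _
    rw [L.cg_vg, Pi.single_apply]
    simp only [eq_comm]
  unfold LD.bg
  rw [Module.Basis.coe_ofEquivFun]
  show L.eg.symm (Pi.single i 1) = _
  rw [← h, LinearEquiv.symm_apply_apply]

end basis

/-! ### Ghosts on the Fock space -/

namespace FT

variable {β K : Type} [DecidableEq β] [LinearOrder K] (eK : K ≃ ℕ × β)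

/-- The letter `b_s(-m-1)`. -/
def pL (i : K) : K ⊕ₗ K := toLex (Sum.inl i)

/-- The letter `c_s(-m-1)`. -/
def cL (i : K) : K ⊕ₗ K := toLex (Sum.inr i)

theorem pL_inj {i j : K} : pL i = pL j ↔ i = j :=
  ⟨fun h => Sum.inl.inj (toLex.injective h), fun h => by rw [h]⟩

theorem cL_inj {i j : K} : cL i = cL j ↔ i = j :=
  ⟨fun h => Sum.inr.inj (toLex.injective h), fun h => by rw [h]⟩

theorem pL_ne {i j : K} : pL i ≠ cL j := fun h => by
  have := toLex.injective h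
  cases this

theorem cL_ne {i j : K} : cL i ≠ pL j := fun h => pL_ne h.symm

/-- The letter with the index `(m, s)`. -/
def ix (m : ℕ) (s : β) : K := eK.symm (m, s)

theorem ix_inj {m n : ℕ} {s t : β} : ix eK m s = ix eK n t ↔ m = n ∧ s = t := by
  unfold ix
  rw [eK.symm.injective.eq_iff, Prod.mk.injEq]

/-- The modes `b_s(m)`. -/
def bF (m : ℤ) (s : β) : Fer (K ⊕ₗ K) →ₗ[ℂ] Fer (K ⊕ₗ K) :=
  if m < 0 then Fer.cr (pL (ix eK (-m - 1).toNat s)) else Fer.an (cL (ix eK m.toNat s))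

/-- The modes `c_s(m)`. -/
def cF (m : ℤ) (s : β) : Fer (K ⊕ₗ K) →ₗ[ℂ] Fer (K ⊕ₗ K) :=
  if m < 0 then Fer.cr (cL (ix eK (-m - 1).toNat s)) else Fer.an (pL (ix eK m.toNat s))

theorem bF_neg (m : ℕ) (s : β) : bF eK (-(m : ℤ) - 1) s = Fer.cr (pL (ix eK m s)) := by
  unfold bF
  rw [if_pos (by omega)]
  congr 3
  omega

theorem cF_neg (m : ℕ) (s : β) : cF eK (-(m : ℤ) - 1) s = Fer.cr (cL (ix eK m s)) := by
  unfold cF
  rw [if_pos (by omega)]
  congr 3
  omega

theorem bF_nat (m : ℕ) (s : β) : bF eK (m : ℤ) s = Fer.an (cL (ix eK m s)) := by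
  unfold bF
  rw [if_neg (by omega)]
  rfl

theorem cF_nat (m : ℕ) (s : β) : cF eK (m : ℤ) s = Fer.an (pL (ix eK m s)) := by
  unfold cF
  rw [if_neg (by omega)]
  rfl

theorem bF_vac (m : ℤ) (hm : 0 ≤ m) (s : β) : bF eK m s Fer.vac = 0 := by
  obtain ⟨n, rfl⟩ : ∃ n : ℕ, m = n := ⟨m.toNat, by omega⟩
  rw [bF_nat, Fer.an_vac]

theorem cF_vac (m : ℤ) (hm : 0 ≤ m) (s : β) : cF eK m s Fer.vac = 0 := by
  obtain ⟨n, rfl⟩ : ∃ n : ℕ, m = n := ⟨m.toNat, by omega⟩
  rw [cF_nat, Fer.an_vac]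

theorem bound (S : Finset (K ⊕ₗ K)) : ∃ M : ℤ, 0 ≤ M ∧ ∀ (m : ℕ) (s : β), M ≤ m →
    pL (ix eK m s) ∉ S ∧ cL (ix eK m s) ∉ S := by
  let lv : K ⊕ₗ K → ℕ := fun x => Sum.elim (fun i => (eK i).1) (fun i => (eK i).1) (ofLex x)
  refine ⟨(S.sup lv : ℕ) + 1, by omega, fun m s hm => ⟨fun hc => ?_, fun hc => ?_⟩⟩
  · have h1 : lv (pL (ix eK m s)) ≤ S.sup lv := Finset.le_sup hc
    have h2 : lv (pL (ix eK m s)) = m := by
      show (eK (eK.symm (m, s))).1 = m
      rw [Equiv.apply_symm_apply]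
    omega
  · have h1 : lv (cL (ix eK m s)) ≤ S.sup lv := Finset.le_sup hc
    have h2 : lv (cL (ix eK m s)) = m := by
      show (eK (eK.symm (m, s))).1 = m
      rw [Equiv.apply_symm_apply]
    omega

/-- The ghosts on the Fock space. -/
def fm : FMod β (Fer (K ⊕ₗ K)) where
  ph := bF eK
  ps := cF eK
  hh := by
    intro m n b c x
    rcases Fer.cases_int m with ⟨m, rfl⟩ | ⟨m, rfl⟩ <;>
      rcases Fer.cases_int n with ⟨n, rfl⟩ | ⟨n, rfl⟩
    · rw [bF_neg, bF_neg, Fer.cr_cr]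
    · rw [bF_neg, bF_nat, add_comm, Fer.an_cr, if_neg cL_ne]
    · rw [bF_nat, bF_neg, Fer.an_cr, if_neg cL_ne]
    · rw [bF_nat, bF_nat, Fer.an_an]
  ss := by
    intro m n b c x
    rcases Fer.cases_int m with ⟨m, rfl⟩ | ⟨m, rfl⟩ <;>
      rcases Fer.cases_int n with ⟨n, rfl⟩ | ⟨n, rfl⟩
    · rw [cF_neg, cF_neg, Fer.cr_cr]
    · rw [cF_neg, cF_nat, add_comm, Fer.an_cr, if_neg pL_ne]
    · rw [cF_nat, cF_neg, Fer.an_cr, if_neg pL_ne]
    · rw [cF_nat, cF_nat, Fer.an_an]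
  hs := by
    intro m n b c x
    rcases Fer.cases_int m with ⟨m, rfl⟩ | ⟨m, rfl⟩ <;>
      rcases Fer.cases_int n with ⟨n, rfl⟩ | ⟨n, rfl⟩
    · rw [bF_neg, cF_neg, Fer.cr_cr, if_neg (by omega)]
    · rw [bF_neg, cF_nat, add_comm, Fer.an_cr]
      by_cases h : m = n ∧ b = c
      · rw [if_pos (pL_inj.2 ((ix_inj eK).2 ⟨h.1.symm, h.2.symm⟩)), if_pos ⟨by omega, h.2⟩]
      · rw [if_neg (fun hc => h ⟨((ix_inj eK).1 (pL_inj.1 hc)).1.symm,
          ((ix_inj eK).1 (pL_inj.1 hc)).2.symm⟩), if_neg (fun hc => h ⟨by omega, hc.2⟩)]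
    · rw [bF_nat, cF_neg, Fer.an_cr]
      by_cases h : m = n ∧ b = c
      · rw [if_pos (cL_inj.2 ((ix_inj eK).2 h)), if_pos ⟨by omega, h.2⟩]
      · rw [if_neg (fun hc => h ((ix_inj eK).1 (cL_inj.1 hc))),
          if_neg (fun hc => h ⟨by omega, hc.2⟩)]
    · rw [bF_nat, cF_nat, Fer.an_an, if_neg (by omega)]
  smh := by
    intro x
    obtain ⟨S, hS⟩ := Fer.an_fin x
    obtain ⟨M, hM0, hM⟩ := bound eK S
    refine ⟨M, fun m hm b => ?_⟩
    obtain ⟨n, rfl⟩ : ∃ n : ℕ, m = n := ⟨m.toNat, by omega⟩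
    rw [bF_nat]
    exact hS _ (hM n b hm).2
  sms := by
    intro x
    obtain ⟨S, hS⟩ := Fer.an_fin x
    obtain ⟨M, hM0, hM⟩ := bound eK S
    refine ⟨M, fun m hm b => ?_⟩
    obtain ⟨n, rfl⟩ : ∃ n : ℕ, m = n := ⟨m.toNat, by omega⟩
    rw [cF_nat]
    exact hS _ (hM n b hm).1

end FT

end

end WPE
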