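import Pool.Agent.WPE.KOY
import Pool.Agent.WPE.PBW2

/-! WPE, full BRST complex: the PBW theorem with corrected letters, final form (`Koz.dec_bij`). -/

set_option linter.unusedSectionVars false

namespace WPE

noncomputable section

namespace Koz

variable {B : Type} [LieRing B] [LieAlgebra ℂ B] {κ : B →ₗ[ℂ] B →ₗ[ℂ] ℂ}
variable {M : Type} [AddCommGroup M] [Module ℂ M] {T : TMod B M}
variable {B' : Type} [LieRing B'] [LieAlgebra ℂ B'] {κ' : B' →ₗ[ℂ] B' →ₗ[ℂ] ℂ}
variable {N0 : Type} [AddCommGroup N0] [Module ℂ N0] {T' : TMod B' N0}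
variable {β γ I J : Type} [LinearOrder I] [LinearOrder J]

/-- The product of the operators `crP i`. -/
def crw (crP : I → M →ₗ[ℂ] M) : List I → (M →ₗ[ℂ] M)
  | [] => LinearMap.id
  | i :: l => crP i ∘ₗ crw crP l

/-- The decomposition of the coefficients: `∑ p, crw p (ι v_p)`. -/
def Gam (crP : I → M →ₗ[ℂ] M) (ι : N0 →ₗ[ℂ] M) : (SS I →₀ N0) →ₗ[ℂ] M :=
  Finsupp.lsum ℂ fun p => crw crP p.1 ∘ₗ ι

theorem Gam_single (crP : I → M →ₗ[ℂ] M) (ι : N0 →ₗ[ℂ] M) (p : SS I) (v : N0) :
    Gam crP ι (Finsupp.single p v) = crw crP p.1 (ι v) := by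
  unfold Gam
  rw [Finsupp.lsum_single]
  rfl

/-- All letters. -/
def eIJ (eI : I ≃ ℕ × β) (eJ : J ≃ ℕ × γ) : I ⊕ₗ J ≃ ℕ × (β ⊕ γ) :=
  (ofLex : I ⊕ₗ J ≃ I ⊕ J).trans ((Equiv.sumCongr eI eJ).trans
    ((Equiv.prodSumDistrib ℕ β γ).symm))

theorem eIJ_inl (eI : I ≃ ℕ × β) (eJ : J ≃ ℕ × γ) (i : I) :
    eIJ eI eJ (toLex (Sum.inl i)) = ((eI i).1, Sum.inl (eI i).2) := rfl

theorem eIJ_inr (eI : I ≃ ℕ × β) (eJ : J ≃ ℕ × γ) (j : J) :
    eIJ eI eJ (toLex (Sum.inr j)) = ((eJ j).1, Sum.inr (eJ j).2) := rfl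

/-- The index space. -/
abbrev KK (I J N0 : Type) [LinearOrder I] [LinearOrder J] [AddCommGroup N0] : Type :=
  W I →₀ (SL J →₀ N0)

/-- The reindexing as a linear map. -/
def Psi (crP : I → M →ₗ[ℂ] M) (ι : N0 →ₗ[ℂ] M) : KK I J N0 →ₗ[ℂ] (SL (I ⊕ₗ J) →₀ M) :=
  Finsupp.lsum ℂ fun l => Finsupp.lsum ℂ fun u =>
    Finsupp.lsingle (eps (l, u)).1 ∘ₗ crw crP (Pl l.1) ∘ₗ ι

theorem Psi_single (crP : I → M →ₗ[ℂ] M) (ι : N0 →ₗ[ℂ] M) (l : W I) (u : SL J) (v : N0) :
    Psi crP ι (Finsupp.single l (Finsupp.single u v)) =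
      Finsupp.single (eps (l, u)).1 (crw crP (Pl l.1) (ι v)) := by
  unfold Psi
  rw [Finsupp.lsum_single, Finsupp.lsum_single]
  rfl

theorem ext_KK {F : Type} [AddCommGroup F] [Module ℂ F] {f g : KK I J N0 →ₗ[ℂ] F}
    (h : ∀ l u v, f (Finsupp.single l (Finsupp.single u v)) =
      g (Finsupp.single l (Finsupp.single u v))) : f = g := by
  refine Finsupp.lhom_ext' fun l => Finsupp.lhom_ext' fun u => ?_
  ext v
  exact h l u v

theorem Psi_bij (crP : I → M →ₗ[ℂ] M) (ι : N0 →ₗ[ℂ] M) (hM : Function.Bijective (Gam crP ι)) :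
    Function.Bijective (Psi (J := J) crP ι) := by
  let e1 : KK I J N0 ≃ₗ[ℂ] (W I × SL J →₀ N0) := (Finsupp.curryLinearEquiv ℂ).symm
  let e2 : (W I × SL J →₀ N0) ≃ₗ[ℂ] (SL (I ⊕ₗ J) × SS I →₀ N0) :=
    Finsupp.domLCongr (Equiv.ofBijective eps eps_bij)
  let e3 : (SL (I ⊕ₗ J) × SS I →₀ N0) ≃ₗ[ℂ] (SL (I ⊕ₗ J) →₀ (SS I →₀ N0)) :=
    Finsupp.curryLinearEquiv ℂ
  let e4 : (SL (I ⊕ₗ J) →₀ (SS I →₀ N0)) ≃ₗ[ℂ] (SL (I ⊕ₗ J) →₀ M) :=
    Finsupp.mapRange.linearEquiv (LinearEquiv.ofBijective (Gam crP ι) hM)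
  have h : Psi (J := J) crP ι = ((e1.trans e2).trans (e3.trans e4)).toLinearMap := by
    refine ext_KK fun l u v => ?_
    rw [Psi_single]
    have h1 : e1 (Finsupp.single l (Finsupp.single u v)) = Finsupp.single (l, u) v :=
      Finsupp.uncurry_single l u v
    have h2 : e2 (Finsupp.single (l, u) v) = Finsupp.single (eps (l, u)) v :=
      Finsupp.domLCongr_single _ _ _
    have h3 : e3 (Finsupp.single (eps (l, u)) v) =
        Finsupp.single (eps (l, u)).1 (Finsupp.single (eps (l, u)).2 v) :=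
      Finsupp.curry_single _ _
    have h4 : e4 (Finsupp.single (eps (l, u)).1 (Finsupp.single (eps (l, u)).2 v)) =
        Finsupp.single (eps (l, u)).1 (crw crP (Pl l.1) (ι v)) := by
      have h5 : Gam crP ι (Finsupp.single (eps (l, u)).2 v) = crw crP (Pl l.1) (ι v) :=
        Gam_single _ _ _ _
      rw [← h5]
      exact Finsupp.mapRange_single (hf := map_zero _)
    show _ = e4 (e3 (e2 (e1 _)))
    rw [h1, h2, h3, h4]
  rw [h]
  exact ((e1.trans e2).trans (e3.trans e4)).bijective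

/-! ### The filtrations -/

variable (b : Module.Basis (β ⊕ γ) ℂ B)

/-- The span of the words with less than `n` letters. -/
def FP (κ : B →ₗ[ℂ] B →ₗ[ℂ] ℂ) (T : TMod B M) : ℕ → Submodule ℂ (Ind κ T)
  | 0 => ⊥
  | n + 1 => FW κ T b n

theorem FP_zero : FP b κ T 0 = ⊥ := rfl

theorem FP_succ (n : ℕ) : FP b κ T (n + 1) = FW κ T b n := rfl

theorem FP_le (n : ℕ) : FP b κ T n ≤ FW κ T b n := by
  rcases n with _ | n
  · exact bot_le
  · exact FW_mono (Nat.le_succ n)

theorem FP_J (s : ℕ) (a : B) (n : ℕ) {x : Ind κ T} (hx : x ∈ FP b κ T n) :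
    (Ind.mod κ T).J (-(s : ℤ) - 1) a x ∈ FP b κ T (n + 1) := by
  rcases n with _ | n
  · rw [FP_zero, Submodule.mem_bot] at hx
    rw [hx, map_zero]
    exact zero_mem _
  · exact FW_J s a hx

/-- Maps of the coefficients preserve the filtration. -/
theorem FW_map {f : M →ₗ[ℂ] M} (hf : T.IsHom T f) (n : ℕ) {x : Ind κ T} (hx : x ∈ FW κ T b n) :
    Ind.map f hf x ∈ FW κ T b n := by
  induction hx using Submodule.span_induction with
  | mem x hx =>
    obtain ⟨l, v, hl, rfl⟩ := hx
    rw [cword_eq, Ind.wordB_eq, Ind.map_word, ← Ind.wordB_eq, ← cword_eq]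
    exact FW_word hl _
  | zero => rw [map_zero]; exact zero_mem _
  | add x y _ _ hx hy => rw [map_add]; exact add_mem hx hy
  | smul c x _ hx => rw [map_smul]; exact Submodule.smul_mem _ _ hx

theorem FP_map {f : M →ₗ[ℂ] M} (hf : T.IsHom T f) (n : ℕ) {x : Ind κ T} (hx : x ∈ FP b κ T n) :
    Ind.map f hf x ∈ FP b κ T n := by
  rcases n with _ | n
  · rw [FP_zero, Submodule.mem_bot] at hx
    rw [hx, map_zero]
    exact zero_mem _
  · exact FW_map b hf n hx

/-- The filtration of the index space. -/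
def FK (I J N0 : Type) [LinearOrder I] [LinearOrder J] [AddCommGroup N0] [Module ℂ N0] (n : ℕ) :
    Submodule ℂ (KK I J N0) :=
  Submodule.span ℂ {x | ∃ (l : W I) (u : SL J) (v : N0), (El l.1).length + u.1.length < n ∧
    x = Finsupp.single l (Finsupp.single u v)}

theorem FK_mono {m n : ℕ} (h : m ≤ n) : FK I J N0 m ≤ FK I J N0 n :=
  Submodule.span_mono fun _ ⟨l, u, v, h1, h2⟩ => ⟨l, u, v, lt_of_lt_of_le h1 h, h2⟩

theorem FK_zero : FK I J N0 0 = ⊥ := by
  unfold FK
  rw [Submodule.span_eq_bot]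
  rintro x ⟨l, u, v, h, -⟩
  exact absurd h (Nat.not_lt_zero _)

theorem FK_ex (x : KK I J N0) : ∃ p, x ∈ FK I J N0 p := by
  induction x using Finsupp.induction_linear with
  | zero => exact ⟨0, zero_mem _⟩
  | add x y hx hy =>
    obtain ⟨p, hp⟩ := hx
    obtain ⟨q, hq⟩ := hy
    exact ⟨max p q, add_mem (FK_mono (le_max_left p q) hp) (FK_mono (le_max_right p q) hq)⟩
  | single l z =>
    induction z using Finsupp.induction_linear with
    | zero => exact ⟨0, by rw [Finsupp.single_zero]; exact zero_mem _⟩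
    | add x y hx hy =>
      obtain ⟨p, hp⟩ := hx
      obtain ⟨q, hq⟩ := hy
      rw [Finsupp.single_add]
      exact ⟨max p q, add_mem (FK_mono (le_max_left p q) hp) (FK_mono (le_max_right p q) hq)⟩
    | single u v =>
      exact ⟨(El l.1).length + u.1.length + 1, Submodule.subset_span
        ⟨l, u, v, Nat.lt_succ_self _, rfl⟩⟩

theorem length_cat (w : List I) (u : List J) : (cat w u).length = w.length + u.length := by
  unfold cat
  rw [List.length_append, List.length_map, List.length_map]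

/-- The short words of `Ind κ T` come from short words of the index space. -/
theorem FW_le_Psi (crP : I → M →ₗ[ℂ] M) (ι : N0 →ₗ[ℂ] M) (hM : Function.Surjective (Gam crP ι))
    (eI : I ≃ ℕ × β) (eJ : J ≃ ℕ × γ) (n : ℕ) : FP b κ T n ≤ (FK I J N0 n).map
      (Ind.sortedMapB κ T b (eIJ eI eJ) ∘ₗ Psi crP ι) := by
  rcases n with _ | n
  · exact bot_le
  · rw [FP_succ]
    refine (sorted_FW b (eIJ eI eJ) n).trans ?_
    rw [Submodule.map_comp]
    refine Submodule.map_mono (Submodule.span_le.2 ?_)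
    rintro x ⟨w, v, hw, rfl⟩
    obtain ⟨z, rfl⟩ := hM v
    induction z using Finsupp.induction_linear with
    | zero =>
      rw [map_zero, Finsupp.single_zero]
      exact zero_mem _
    | add x y hx hy =>
      rw [map_add, Finsupp.single_add]
      exact add_mem hx hy
    | single p v =>
      obtain ⟨⟨l, u⟩, h⟩ := eps_bij (I := I) (J := J) |>.2 (w, p)
      have h1 : (eps (l, u)).1 = w := by rw [h]
      have h2 : Pl l.1 = p.1 := congrArg (fun z => z.2.1) h
      refine ⟨Finsupp.single l (Finsupp.single u v), Submodule.subset_span ⟨l, u, v, ?_, rfl⟩, ?_⟩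
      · have h3 : w.1.length = (El l.1).length + u.1.length := by
          rw [← h1]
          exact length_cat _ _
        omega
      · rw [Psi_single, h1, h2, Gam_single]

/-! ### The theorem -/

section main

variable (crP : I → M →ₗ[ℂ] M) (hcr : ∀ i, T.IsHom T (crP i)) (ι : N0 →ₗ[ℂ] M)

theorem map_crw (w : List (ℕ × (β ⊕ γ))) (p : List I) (v : M) (i : I) :
    Ind.map (crP i) (hcr i) (cword κ T b w (crw crP p v)) =
      cword κ T b w (crw crP (i :: p) v) := by
  rw [cword_eq, Ind.wordB_eq, Ind.map_word]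
  rfl

/-- The letters of a word. -/
def lw (eI : I ≃ ℕ × β) (eJ : J ≃ ℕ × γ) (l : List (Lt I)) (u : List J) :
    List (ℕ × (β ⊕ γ)) :=
  (El l).map (fun i => ((eI i).1, Sum.inl (eI i).2)) ++ u.map (fun j => ((eJ j).1, Sum.inr (eJ j).2))

theorem cat_map (eI : I ≃ ℕ × β) (eJ : J ≃ ℕ × γ) (l : List (Lt I)) (u : List J) :
    (cat (El l) u).map (eIJ eI eJ) = lw eI eJ l u := by
  unfold cat lw
  rw [List.map_append, List.map_map, List.map_map]
  rfl

variable (E : I → Ind κ T →ₗ[ℂ] Ind κ T) (eI : I ≃ ℕ × β) (eJ : J ≃ ℕ × γ)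
  (hE : ∀ (i : I) (n : ℕ) (x : Ind κ T), x ∈ FW κ T b n → E i x -
    (Ind.mod κ T).J (-((eI i).1 : ℤ) - 1) (b (Sum.inl (eI i).2)) x ∈ FW κ T b n)
  (b' : Module.Basis γ ℂ B') (i0 : Ind κ' T' →ₗ[ℂ] Ind κ T)
  (hi0 : ∀ v, i0 (Ind.incl κ' T' v) = Ind.incl κ T (ι v))
  (hV : ∀ (s : ℕ) (c : γ) (n : ℕ) (x : Ind κ' T'), i0 x ∈ FW κ T b n →
    i0 ((Ind.mod κ' T').J (-(s : ℤ) - 1) (b' c) x) -
      (Ind.mod κ T).J (-(s : ℤ) - 1) (b (Sum.inr c)) (i0 x) ∈ FW κ T b n)

theorem le_of_sub_FP {n : ℕ} {x y : Ind κ T} (h : x - y ∈ FP b κ T n) (hy : y ∈ FW κ T b n) :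
    x ∈ FW κ T b n := by
  have := add_mem (FP_le b n h) hy
  rwa [sub_add_cancel] at this

include hi0 hV in
/-- The words of `N`. -/
theorem i0_word (u : List J) (v : N0) :
    i0 (cword κ' T' b' (u.map eJ) v) -
      cword κ T b (u.map (fun j => ((eJ j).1, Sum.inr (eJ j).2))) (ι v) ∈ FP b κ T u.length := by
  induction u with
  | nil =>
    have h : i0 (cword κ' T' b' (([] : List J).map eJ) v) = Ind.incl κ T (ι v) := hi0 v
    rw [h]
    show Ind.incl κ T (ι v) - Ind.incl κ T (ι v) ∈ _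
    rw [sub_self]
    exact zero_mem _
  | cons j u ih =>
    have hy : cword κ T b (u.map (fun j => ((eJ j).1, Sum.inr (eJ j).2))) (ι v) ∈
        FW κ T b u.length := FW_word (by rw [List.length_map]) _
    have h1 := hV (eJ j).1 (eJ j).2 u.length _ (le_of_sub_FP b ih hy)
    have h2 := FP_J b (eJ j).1 (b (Sum.inr (eJ j).2)) u.length ih
    rw [List.length_cons, FP_succ]
    rw [FP_succ, map_sub] at h2
    have h3 := add_mem h1 h2
    rw [sub_add_sub_cancel] at h3
    exact h3

include hi0 hV hE in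
/-- All words. -/
theorem dec_word (l : List (Lt I)) (u : List J) (v : N0) :
    wd (fun i => Ind.map (crP i) (hcr i)) E i0 l (cword κ' T' b' (u.map eJ) v) -
      cword κ T b (lw eI eJ l u) (crw crP (Pl l) (ι v)) ∈
        FP b κ T ((El l).length + u.length) := by
  induction l with
  | nil =>
    have h := i0_word b ι eJ b' i0 hi0 hV u v
    rw [show (El ([] : List (Lt I))).length + u.length = u.length from Nat.zero_add _]
    exact h
  | cons x l ih =>
    have hy : cword κ T b (lw eI eJ l u) (crw crP (Pl l) (ι v)) ∈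
        FW κ T b ((El l).length + u.length) := by
      refine FW_word ?_ _
      unfold lw
      rw [List.length_append, List.length_map, List.length_map]
    have hx := le_of_sub_FP b ih hy
    rcases eq_lP_or_lE x with h | h
    · rw [h, wd_cons, op_lP, El_P, Pl_P]
      have h1 := FP_map b (hcr (ofLex x).1) _ ih
      rw [map_sub, map_crw b crP hcr] at h1
      exact h1
    · rw [h, wd_cons, op_lE, El_E, Pl_E, List.length_cons,
        show (El l).length + 1 + u.length = (El l).length + u.length + 1 by omega, FP_succ]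
      have h1 := hE (ofLex x).1 _ _ hx
      have h2 := FP_J b (eI (ofLex x).1).1 (b (Sum.inl (eI (ofLex x).1).2)) _ ih
      rw [FP_succ, map_sub] at h2
      have h3 := add_mem h1 h2
      rw [sub_add_sub_cancel] at h3
      exact h3

include eJ hi0 hV hE in
/-- The PBW theorem with corrected letters. -/
theorem dec_bij (hk : IsInvForm κ) (hk' : IsInvForm κ') (hM : Function.Bijective (Gam crP ι)) :
    Function.Bijective (dec (fun i => Ind.map (crP i) (hcr i)) E i0) := by
  let S' : (SL J →₀ N0) ≃ₗ[ℂ] Ind κ' T' :=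
    LinearEquiv.ofBijective (Ind.sortedMapB κ' T' b' eJ) (Ind.sortedMapB_bijective κ' T' b' hk' eJ)
  let S2 : KK I J N0 ≃ₗ[ℂ] (W I →₀ Ind κ' T') := Finsupp.mapRange.linearEquiv S'
  let g : KK I J N0 →ₗ[ℂ] Ind κ T := Ind.sortedMapB κ T b (eIJ eI eJ) ∘ₗ Psi crP ι
  let f : KK I J N0 →ₗ[ℂ] Ind κ T := dec (fun i => Ind.map (crP i) (hcr i)) E i0 ∘ₗ S2.toLinearMap
  have hg : Function.Bijective g :=
    (Ind.sortedMapB_bijective κ T b hk (eIJ eI eJ)).comp (Psi_bij crP ι hM)
  have hf : Function.Bijective f := by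
    refine unip_bij g f hg (FK I J N0) FK_zero FK_ex ?_
    have key : ∀ p, ∀ x ∈ FK I J N0 (p + 1), f x - g x ∈ FP b κ T p := by
      intro p x hx
      induction hx using Submodule.span_induction with
      | mem x hx =>
        obtain ⟨l, u, v, h, rfl⟩ := hx
        have e1 : g (Finsupp.single l (Finsupp.single u v)) =
            cword κ T b (lw eI eJ l.1 u.1) (crw crP (Pl l.1) (ι v)) := by
          show Ind.sortedMapB κ T b (eIJ eI eJ) (Psi crP ι _) = _
          rw [Psi_single, sortedB_single]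
          show cword κ T b ((cat (El l.1) u.1).map (eIJ eI eJ)) _ = _
          rw [cat_map]
        have e2 : f (Finsupp.single l (Finsupp.single u v)) =
            wd (fun i => Ind.map (crP i) (hcr i)) E i0 l.1 (cword κ' T' b' (u.1.map eJ) v) := by
          have e3 : S2 (Finsupp.single l (Finsupp.single u v)) =
              Finsupp.single l (cword κ' T' b' (u.1.map eJ) v) := by
            have e4 : S' (Finsupp.single u v) = cword κ' T' b' (u.1.map eJ) v :=
              sortedB_single b' eJ u v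
            rw [← e4]
            exact Finsupp.mapRange_single (hf := map_zero _)
          show dec _ E i0 (S2 _) = _
          rw [e3, dec_single]
        rw [e1, e2]
        have h2 := dec_word b crP hcr ι E eI eJ hE b' i0 hi0 hV l.1 u.1 v
        rcases p with _ | p
        · rw [show (El l.1).length + u.1.length = 0 by omega] at h2
          exact h2
        · rw [FP_succ]
          rcases hn : (El l.1).length + u.1.length with _ | n
          · rw [hn, FP_zero, Submodule.mem_bot] at h2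
            rw [h2]
            exact zero_mem _
          · rw [hn, FP_succ] at h2
            exact FW_mono (by omega) h2
      | zero => rw [map_zero, map_zero, sub_zero]; exact zero_mem _
      | add x y _ _ hx hy =>
        rw [map_add, map_add, add_sub_add_comm]
        exact add_mem hx hy
      | smul c x _ hx =>
        rw [map_smul, map_smul, ← smul_sub]
        exact Submodule.smul_mem _ _ hx
    intro p x hx
    obtain ⟨y, hy, h⟩ := FW_le_Psi b crP ι hM.2 eI eJ p (key p x hx)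
    exact ⟨y, hy, h.symm⟩
  have e : dec (fun i => Ind.map (crP i) (hcr i)) E i0 = f ∘ₗ S2.symm.toLinearMap := by
    refine LinearMap.ext fun x => ?_
    show _ = dec (fun i => Ind.map (crP i) (hcr i)) E i0 (S2 (S2.symm x))
    rw [S2.apply_symm_apply]
  rw [e]
  exact hf.comp S2.symm.bijective

end main

end Koz

end

end WPE
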