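import Pool.Agent.WPE.FB1
import Pool.Agent.WPE.FB6A
import Pool.Agent.WPE.FBT0
import Pool.Agent.WPE.FBT1
import Pool.Agent.WPE.KOX

/-! WPE, block FB5: the map of the model (for a given order of the letters), the filtration. -/

set_option linter.unusedSectionVars false

namespace WPE

open scoped TensorProduct

noncomputable section

variable {g β η : Type} [LieRing g] [LieAlgebra ℂ g] [Fintype β] [DecidableEq β] [Fintype η]
  [DecidableEq η] {L : LD g β η} {k : ℂ} {E : Type} [AddCommGroup E] [Module ℂ E]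

namespace FVac

variable (X : FVac L k E)

section model

variable {K : Type} [LinearOrder K] (eK : K ≃ ℕ × β)

/-- The creation operators. -/
def fA (x : K ⊕ₗ K) : E →ₗ[ℂ] E := Sum.elim (X.lP eK) (X.lC eK) (ofLex x)

/-- The annihilation operators. -/
def fD (x : K ⊕ₗ K) : E →ₗ[ℂ] E :=
  Sum.elim (fun i => X.c ((eK i).1 : ℤ) (eK i).2) (fun i => X.b ((eK i).1 : ℤ) (eK i).2) (ofLex x)

theorem fA_p (i : K) : X.fA eK (FT.pL i) = X.lP eK i := rfl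
theorem fA_c (i : K) : X.fA eK (FT.cL i) = X.lC eK i := rfl
theorem fD_p (i : K) : X.fD eK (FT.pL i) = X.c ((eK i).1 : ℤ) (eK i).2 := rfl
theorem fD_c (i : K) : X.fD eK (FT.cL i) = X.b ((eK i).1 : ℤ) (eK i).2 := rfl

theorem cases_pc (x : K ⊕ₗ K) : (∃ i, x = FT.pL i) ∨ ∃ i, x = FT.cL i := by
  obtain ⟨y, rfl⟩ := toLex.surjective x
  rcases y with i | i
  · exact Or.inl ⟨i, rfl⟩
  · exact Or.inr ⟨i, rfl⟩

theorem fA_fA (x y : K ⊕ₗ K) (w : E) :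
    X.fA eK x (X.fA eK y w) + X.fA eK y (X.fA eK x w) = 0 := by
  rcases cases_pc x with ⟨i, rfl⟩ | ⟨i, rfl⟩ <;> rcases cases_pc y with ⟨j, rfl⟩ | ⟨j, rfl⟩
  · exact X.bb _ _ _ _ _
  · have h := X.bc (-((eK i).1 : ℤ) - 1) (-((eK j).1 : ℤ) - 1) (eK i).2 (eK j).2 w
    rw [if_neg (by rintro ⟨-, h⟩; omega)] at h
    exact h
  · have h := X.bc (-((eK j).1 : ℤ) - 1) (-((eK i).1 : ℤ) - 1) (eK j).2 (eK i).2 w
    rw [if_neg (by rintro ⟨-, h⟩; omega), add_comm] at h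
    exact h
  · exact X.cc _ _ _ _ _

theorem fD_fA (x y : K ⊕ₗ K) (w : E) :
    X.fD eK x (X.fA eK y w) + X.fA eK y (X.fD eK x w) = if x = y then w else 0 := by
  rcases cases_pc x with ⟨i, rfl⟩ | ⟨i, rfl⟩ <;> rcases cases_pc y with ⟨j, rfl⟩ | ⟨j, rfl⟩
  · have h := X.bc (-((eK j).1 : ℤ) - 1) ((eK i).1 : ℤ) (eK j).2 (eK i).2 w
    rw [add_comm] at h
    refine h.trans ?_
    by_cases hij : i = j
    · subst hij
      rw [if_pos ⟨rfl, by omega⟩, if_pos rfl]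
    · rw [if_neg, if_neg (fun hc => hij (FT.pL_inj.1 hc))]
      rintro ⟨h1, h2⟩
      exact hij (eK.injective (Prod.ext (by omega) h1.symm))
  · rw [if_neg FT.pL_ne]
    exact X.cc _ _ _ _ _
  · rw [if_neg FT.cL_ne]
    exact X.bb _ _ _ _ _
  · refine (X.bc ((eK i).1 : ℤ) (-((eK j).1 : ℤ) - 1) (eK i).2 (eK j).2 w).trans ?_
    by_cases hij : i = j
    · subst hij
      rw [if_pos ⟨rfl, by omega⟩, if_pos rfl]
    · rw [if_neg, if_neg (fun hc => hij (FT.cL_inj.1 hc))]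
      rintro ⟨h1, h2⟩
      exact hij (eK.injective (Prod.ext (by omega) h1))

theorem fD_vac (x : K ⊕ₗ K) : X.fD eK x X.vac = 0 := by
  rcases cases_pc x with ⟨i, rfl⟩ | ⟨i, rfl⟩
  · exact X.c_vac _ _ (by omega)
  · exact X.b_vac _ _ (by omega)

/-- The map of the Fock space. -/
def th : Fer (K ⊕ₗ K) →ₗ[ℂ] E := Fer.theta (X.fA eK) X.vac

theorem th_vac : X.th eK Fer.vac = X.vac := Fer.theta_vac _ _

theorem lP_ix (m : ℕ) (s : β) : X.lP eK (FT.ix eK m s) = X.b (-(m : ℤ) - 1) s := by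
  unfold lP FT.ix
  rw [Equiv.apply_symm_apply]

theorem lC_ix (m : ℕ) (s : β) : X.lC eK (FT.ix eK m s) = X.c (-(m : ℤ) - 1) s := by
  unfold lC FT.ix
  rw [Equiv.apply_symm_apply]

theorem th_b (m : ℤ) (s : β) (v : Fer (K ⊕ₗ K)) :
    X.th eK (FT.bF eK m s v) = X.b m s (X.th eK v) := by
  rcases Fer.cases_int m with ⟨m, rfl⟩ | ⟨m, rfl⟩
  · rw [FT.bF_neg]
    refine (Fer.theta_cr (X.fA_fA eK) _ _).trans ?_
    rw [fA_p, lP_ix]
    rfl
  · rw [FT.bF_nat]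
    refine (Fer.theta_an (X.fA_fA eK) (X.fD_fA eK) (X.fD_vac eK) _ _).trans ?_
    rw [fD_c]
    unfold FT.ix
    rw [Equiv.apply_symm_apply]
    rfl

theorem th_c (m : ℤ) (s : β) (v : Fer (K ⊕ₗ K)) :
    X.th eK (FT.cF eK m s v) = X.c m s (X.th eK v) := by
  rcases Fer.cases_int m with ⟨m, rfl⟩ | ⟨m, rfl⟩
  · rw [FT.cF_neg]
    refine (Fer.theta_cr (X.fA_fA eK) _ _).trans ?_
    rw [fA_c, lC_ix]
    rfl
  · rw [FT.cF_nat]
    refine (Fer.theta_an (X.fA_fA eK) (X.fD_fA eK) (X.fD_vac eK) _ _).trans ?_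
    rw [fD_p]
    unfold FT.ix
    rw [Equiv.apply_symm_apply]
    rfl

theorem J_fA (m : ℤ) (a : g) (x : K ⊕ₗ K) (w : E) :
    X.J m a (X.fA eK x w) = X.fA eK x (X.J m a w) := by
  rcases cases_pc x with ⟨i, rfl⟩ | ⟨i, rfl⟩
  · exact X.Jb _ _ _ _ _
  · exact X.Jc _ _ _ _ _

theorem J_th (m : ℕ) (a : g) (v : Fer (K ⊕ₗ K)) :
    X.J (m : ℤ) a (X.th eK v) = X.th eK ((TMod.zr g (Fer (K ⊕ₗ K))).act m a v) := by
  rw [TMod.zr_act, map_zero]
  have h : X.J (m : ℤ) a ∘ₗ X.th eK = 0 := by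
    refine Fer.ext_wrd fun l hl => ?_
    rw [LinearMap.comp_apply, LinearMap.zero_apply]
    unfold th
    rw [Fer.theta_wrd _ _ l hl]
    clear hl
    induction l with
    | nil => exact X.J_vac _ _ (by omega)
    | cons x l ih => rw [Fer.wop_cons, J_fA, ih, map_zero]
  exact LinearMap.congr_fun h v

/-- The map of the model. -/
def Ph : Ind (k • L.form) (TMod.zr g (Fer (K ⊕ₗ K))) →ₗ[ℂ] E :=
  Ind.lift X.toBMod (X.th eK) (X.J_th eK)

theorem Ph_incl (v : Fer (K ⊕ₗ K)) : X.Ph eK (Ind.incl _ _ v) = X.th eK v := Ind.lift_incl _ v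

theorem Ph_J (m : ℤ) (a : g) (x : Ind (k • L.form) (TMod.zr g (Fer (K ⊕ₗ K)))) :
    X.Ph eK ((Ind.mod _ _).J m a x) = X.J m a (X.Ph eK x) := Ind.lift_J _ m a x

theorem zr_hom {N : Type} [AddCommGroup N] [Module ℂ N] (f : N →ₗ[ℂ] N) :
    (TMod.zr g N).IsHom (TMod.zr g N) f := fun m a v => by
  rw [TMod.zr_act, TMod.zr_act, map_zero]

theorem Ph_map (f : Fer (K ⊕ₗ K) →ₗ[ℂ] Fer (K ⊕ₗ K)) (F : E →ₗ[ℂ] E)
    (hf : ∀ v, X.th eK (f v) = F (X.th eK v)) (hJ : ∀ m a v, X.J m a (F v) = F (X.J m a v))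
    (x : Ind (k • L.form) (TMod.zr g (Fer (K ⊕ₗ K)))) :
    X.Ph eK (Ind.map f (zr_hom f) x) = F (X.Ph eK x) := by
  have h : X.Ph eK ∘ₗ Ind.map f (zr_hom f) = F ∘ₗ X.Ph eK := by
    refine Ind.hom_ext (X := X.toBMod) ?_ ?_ ?_
    · intro m a x
      rw [LinearMap.comp_apply, LinearMap.comp_apply, Ind.map_J, Ph_J]
    · intro m a x
      rw [LinearMap.comp_apply, LinearMap.comp_apply, Ph_J, hJ]
    · intro v
      rw [LinearMap.comp_apply, LinearMap.comp_apply, Ind.map_incl, Ph_incl, Ph_incl, hf]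
  exact LinearMap.congr_fun h x

/-- The filtration by the number of letters `J`. -/
def FE (n : ℕ) : Submodule ℂ E :=
  (FW (k • L.form) (TMod.zr g (Fer (K ⊕ₗ K))) L.bg n).map (X.Ph eK)

theorem FE_mono {m n : ℕ} (h : m ≤ n) : X.FE eK m ≤ X.FE eK n := Submodule.map_mono (FW_mono h)

theorem FE_b (n : ℕ) (m : ℤ) (s : β) {x : E} (hx : x ∈ X.FE eK n) : X.b m s x ∈ X.FE eK n := by
  obtain ⟨y, hy, rfl⟩ := hx
  refine ⟨Ind.map (FT.bF eK m s) (zr_hom _) y, Koz.FW_map L.bg _ n hy, ?_⟩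
  exact X.Ph_map eK _ _ (X.th_b eK m s) (fun m' a v => X.Jb _ _ _ _ _) y

theorem FE_c (n : ℕ) (m : ℤ) (s : β) {x : E} (hx : x ∈ X.FE eK n) : X.c m s x ∈ X.FE eK n := by
  obtain ⟨y, hy, rfl⟩ := hx
  refine ⟨Ind.map (FT.cF eK m s) (zr_hom _) y, Koz.FW_map L.bg _ n hy, ?_⟩
  exact X.Ph_map eK _ _ (X.th_c eK m s) (fun m' a v => X.Jc _ _ _ _ _) y

theorem FE_G (n : ℕ) (m : ℤ) (T : Matrix β β ℂ) {x : E} (hx : x ∈ X.FE eK n) :
    X.G m T x ∈ X.FE eK n :=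
  X.toCAR.G_mem _ (fun n' s x hx => X.FE_b eK n n' s hx) (fun n' s x hx => X.FE_c eK n n' s hx)
    m T x hx

theorem FE_J (n : ℕ) (s : ℕ) (a : g) {x : E} (hx : x ∈ X.FE eK n) :
    X.J (-(s : ℤ) - 1) a x ∈ X.FE eK (n + 1) := by
  obtain ⟨y, hy, rfl⟩ := hx
  exact ⟨_, FW_J s a hy, X.Ph_J eK _ a y⟩

theorem FE_th (v : Fer (K ⊕ₗ K)) (n : ℕ) : X.th eK v ∈ X.FE eK n :=
  ⟨Ind.incl _ _ v, FW_incl n v, X.Ph_incl eK v⟩

/-- Less than `n` letters. -/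
def FEp : ℕ → Submodule ℂ E
  | 0 => ⊥
  | n + 1 => X.FE eK n

theorem FEp_le (n : ℕ) : X.FEp eK n ≤ X.FE eK n := by
  rcases n with _ | n
  · exact bot_le
  · exact X.FE_mono eK (Nat.le_succ n)

theorem FEp_J (n : ℕ) (s : ℕ) (a : g) {x : E} (hx : x ∈ X.FEp eK n) :
    X.J (-(s : ℤ) - 1) a x ∈ X.FEp eK (n + 1) := by
  rcases n with _ | n
  · rw [show x = 0 from (Submodule.mem_bot ℂ).1 hx, map_zero]
    exact zero_mem _
  · exact X.FE_J eK n s a hx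

theorem FEp_b (n : ℕ) (m : ℤ) (s : β) {x : E} (hx : x ∈ X.FEp eK n) :
    X.b m s x ∈ X.FEp eK n := by
  rcases n with _ | n
  · rw [show x = 0 from (Submodule.mem_bot ℂ).1 hx, map_zero]
    exact zero_mem _
  · exact X.FE_b eK n m s hx

theorem FEp_map (n : ℕ) : X.FEp eK n =
    (Koz.FP L.bg (k • L.form) (TMod.zr g (Fer (K ⊕ₗ K))) n).map (X.Ph eK) := by
  rcases n with _ | n
  · rw [Koz.FP_zero, Submodule.map_bot]
    rfl
  · rfl

end model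

end FVac

end

end WPE
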