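import Pool.Agent.WPE.KJD
import Pool.Agent.WPE.LA3

/-! WPE, block KJ: row KJ9, bases. -/

set_option linter.unusedSectionVars false

namespace WPE

open scoped TensorProduct

section ld

variable {g β η : Type} [LieRing g] [LieAlgebra ℂ g] [Fintype β] [DecidableEq β] [Fintype η]
  [DecidableEq η] (L : LD g β η)

namespace KJr9

/-- Lifting a basis through an injective linear map. -/
theorem basis_of_inj {σ V W : Type} [AddCommGroup V] [Module ℂ V] [AddCommGroup W] [Module ℂ W]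
    (f : V →ₗ[ℂ] W) (hf : Function.Injective f) (v : σ → V) (hli : LinearIndependent ℂ (f ∘ v))
    (hsp : ∀ x : V, f x ∈ Submodule.span ℂ (Set.range (f ∘ v))) :
    ∃ b : Module.Basis σ ℂ V, ∀ s, b s = v s := by
  have h1 : LinearIndependent ℂ v := LinearIndependent.of_comp f hli
  have h2 : ⊤ ≤ Submodule.span ℂ (Set.range v) := by
    intro x _
    have h3 := hsp x
    rw [Set.range_comp, ← Submodule.map_span] at h3
    obtain ⟨y, hy, hyx⟩ := h3
    rwa [hf hyx] at hy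
  exact ⟨Module.Basis.mk h1 h2, fun s => Module.Basis.mk_apply h1 h2 s⟩

end KJr9

/-- [KJ9] -/
theorem kj_basis (t : β → g) (ht1 : ∀ b, t b ∈ L.bm) (ht2 : ∀ b, ⁅L.F, t b⁆ = L.f b)
    (ht4 : LinearIndependent ℂ t)
    (ht5 : ∀ x ∈ L.bm, ∃ z ∈ L.zc, x - z ∈ Submodule.span ℂ (Set.range t))
    (z : η → g) (hz1 : ∀ i, z i ∈ L.zc) (hz3 : LinearIndependent ℂ z)
    (hz4 : Submodule.span ℂ (Set.range z) = L.zc) :
    ∃ b : Module.Basis (β ⊕ η) ℂ L.bL, (∀ s, ((b (Sum.inl s) : L.bL) : g) = t s) ∧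
      ∀ i, ((b (Sum.inr i) : L.bL) : g) = z i := by
  let v : β ⊕ η → L.bL := Sum.elim (fun s => ⟨t s, ht1 s⟩) (fun i => ⟨z i, (hz1 i).1⟩)
  have hv : L.jb ∘ v = Sum.elim t z := by
    funext s
    rcases s with s | i <;> rfl
  have hd : Disjoint (Submodule.span ℂ (Set.range t)) (Submodule.span ℂ (Set.range z)) := by
    rw [Submodule.disjoint_def]
    intro x hx hx'
    rw [hz4] at hx'
    obtain ⟨a, ha⟩ := (Submodule.mem_span_range_iff_exists_fun ℂ).1 hx
    have h1 : ∑ b, a b • L.f b = 0 := by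
      rw [← hx'.2, ← ha, lie_sum]
      exact Finset.sum_congr rfl fun b _ => by rw [lie_smul, ht2]
    have h2 : ∀ b, a b = 0 := Fintype.linearIndependent_iff.1 (la_B L).f_li a h1
    rw [← ha]
    exact Finset.sum_eq_zero fun b _ => by rw [h2 b, zero_smul]
  have hli : LinearIndependent ℂ (L.jb ∘ v) := by
    rw [hv]
    exact ht4.sum_type hz3 hd
  obtain ⟨b, hb⟩ := KJr9.basis_of_inj L.jb L.jb_inj v hli (by
    intro x
    rw [hv, Set.Sum.elim_range, Submodule.span_union]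
    obtain ⟨y, hy, hxy⟩ := ht5 (x : g) x.2
    rw [← hz4] at hy
    exact Submodule.mem_sup.2 ⟨_, hxy, y, hy, sub_add_cancel _ _⟩)
  refine ⟨b, fun s => ?_, fun i => ?_⟩
  · rw [hb]
    rfl
  · rw [hb]
    rfl

/-- [KJ9] -/
theorem kj_y : ∃ y : Module.Basis β ℂ L.nL, ∀ s, y s = L.fN s := by
  have hv : L.jng ∘ L.fN = L.f := rfl
  refine KJr9.basis_of_inj L.jng L.jng_inj L.fN ?_ ?_
  · rw [hv]
    exact (la_B L).f_li
  · intro x
    rw [hv]
    exact x.2

/-- [KJ9] -/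
theorem kj_nbasis {N : Type} [AddCommGroup N] [Module ℂ N] (R : LRep L.bL N) (top : ℤ)
    (h : L.KGr R top) : ∃ (ν : Type) (n : Module.Basis ν ℂ N) (cn : ν → ℤ),
      (∀ i, cn i ≤ top) ∧ ∀ i, R.ρ L.krho (n i) = (cn i : ℂ) • n i := by
  have hs : ⊤ ≤ Submodule.span ℂ
      {w : N | ∃ d : ℤ, d ≤ top ∧ R.ρ L.krho w = (d : ℂ) • w} := fun v _ => h v
  have h1 : ∀ i, ∃ d : ℤ, d ≤ top ∧ R.ρ L.krho (Module.Basis.ofSpan hs i) =
      (d : ℂ) • Module.Basis.ofSpan hs i :=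
    fun i => Module.Basis.ofSpan_subset hs ⟨i, rfl⟩
  choose cn hcn using h1
  exact ⟨_, Module.Basis.ofSpan hs, cn, fun i => (hcn i).1, fun i => (hcn i).2⟩

end ld

end WPE
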