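import Pool.Agent.WPE.FB3
import Pool.Agent.WPE.FBT0
import Pool.Agent.WPE.KJ9
import Pool.Agent.WPE.PBW2

/-! WPE, block FB7: the subcomplex `C₀` is the span of the monomials `vC`. -/

set_option linter.unusedSectionVars false

namespace WPE

open scoped TensorProduct

noncomputable section

variable {g β η : Type} [LieRing g] [LieAlgebra ℂ g] [Fintype β] [DecidableEq β] [Fintype η]
  [DecidableEq η] {L : LD g β η} {k : ℂ} {E : Type} [AddCommGroup E] [Module ℂ E]

/-- The basis `f s`, `h i` of `b₋`. -/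
theorem LD.exists_bBasis (L : LD g β η) :
    ∃ b : Module.Basis (β ⊕ η) ℂ L.bL, ∀ s, ((b s : L.bL) : g) = L.bb s := by
  let v : β ⊕ η → L.bL := fun s => ⟨L.bb s, (la_B L).bb_mem s⟩
  have hv : L.jb ∘ v = L.bb := rfl
  obtain ⟨b, hb⟩ := KJr9.basis_of_inj L.jb L.jb_inj v (by rw [hv]; exact (la_B L).bb_li) (by
    intro x
    rw [hv, (la_B L).bb_span]
    exact x.2)
  exact ⟨b, fun s => by rw [hb]⟩

namespace FVac

variable (X : FVac L k E)

/-- The span of the `c`-words. -/
def CN : Submodule ℂ E := sInf {W | X.vac ∈ W ∧ ∀ (m : ℤ) (s : β) (v : E), v ∈ W → X.c m s v ∈ W}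

theorem CN_vac : X.vac ∈ X.CN := by
  unfold CN
  rw [Submodule.mem_sInf]
  exact fun W hW => hW.1

theorem CN_c (m : ℤ) (s : β) (v : E) (hv : v ∈ X.CN) : X.c m s v ∈ X.CN := by
  unfold CN at hv ⊢
  rw [Submodule.mem_sInf] at hv ⊢
  exact fun W hW => hW.2 m s v (hv W hW)

theorem CN_le (W : Submodule ℂ E) (h0 : X.vac ∈ W)
    (h : ∀ (m : ℤ) (s : β) (v : E), v ∈ W → X.c m s v ∈ W) : X.CN ≤ W := sInf_le ⟨h0, h⟩

theorem CN_Jh (m : ℤ) (hm : 0 ≤ m) (a : g) (v : E) (hv : v ∈ X.CN) : X.Jh m a v ∈ X.CN := by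
  let W : Submodule ℂ E :=
    { carrier := {v | v ∈ X.CN ∧ ∀ (m : ℤ), 0 ≤ m → ∀ a : g, X.Jh m a v ∈ X.CN}
      add_mem' := fun {x y} hx hy => ⟨add_mem hx.1 hy.1, fun m hm a => by
        rw [map_add]
        exact add_mem (hx.2 m hm a) (hy.2 m hm a)⟩
      zero_mem' := ⟨zero_mem _, fun m hm a => by
        rw [map_zero]
        exact zero_mem _⟩
      smul_mem' := fun r x hx => ⟨Submodule.smul_mem _ _ hx.1, fun m hm a => by
        rw [map_smul]
        exact Submodule.smul_mem _ _ (hx.2 m hm a)⟩ }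
  have h : X.CN ≤ W := by
    refine X.CN_le W ⟨X.CN_vac, fun m hm a => ?_⟩ ?_
    · rw [X.Jh_vac m a hm]
      exact zero_mem _
    · intro n t v hv
      refine ⟨X.CN_c n t v hv.1, fun m hm a => ?_⟩
      have h1 := X.Jh_c m n a t v
      rw [sub_eq_iff_eq_add] at h1
      rw [h1]
      exact add_mem (neg_mem (Submodule.sum_mem _ fun s _ => Submodule.smul_mem _ _
        (X.CN_c _ _ _ hv.1))) (X.CN_c n t _ (hv.2 m hm a))
  exact (h hv).2 m hm a

/-- The `b₋[t]`-module of the `c`-words. -/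
def CT (hv : ℂ) (hK : ∀ x y, L.trf x y = 2 * hv * L.form x y) : TMod L.bL X.CN where
  act m :=
    { toFun := fun a => (X.Jh (m : ℤ) (a : g)).restrict fun v hv =>
        X.CN_Jh m (Int.natCast_nonneg m) (a : g) v hv
      map_add' := fun a b => by
        ext v
        show X.Jh (m : ℤ) ((a : g) + (b : g)) (v : E) = _
        rw [map_add]
        rfl
      map_smul' := fun r a => by
        ext v
        show X.Jh (m : ℤ) (r • (a : g)) (v : E) = _
        rw [map_smul]
        rfl }
  comm m n a b v := by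
    apply Subtype.ext
    have h := X.Jh_Jh hv hK (m : ℤ) (n : ℤ) a b (v : E)
    have h1 : coc (L.kb (k + hv)) (m : ℤ) (n : ℤ) a b = 0 := by
      unfold coc
      split_ifs with h
      · have : (m : ℤ) = 0 := by omega
        rw [this]
        simp
      · rfl
    rw [h1, zero_smul, add_zero] at h
    exact h
  smooth v := by
    obtain ⟨M, hM⟩ := X.Jh_smooth (v : E)
    refine ⟨M.toNat, fun m hm a => Subtype.ext ?_⟩
    exact hM m (by omega) (a : g)

/-- The map from the induced module. -/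
def Ci (hv : ℂ) (hK : ∀ x y, L.trf x y = 2 * hv * L.form x y) :
    Ind (L.kb (k + hv)) (X.CT hv hK) →ₗ[ℂ] E :=
  Ind.lift (X.gm hv (k + hv) rfl hK).toBMod X.CN.subtype fun _ _ _ => rfl

theorem Ci_incl (hv : ℂ) (hK : ∀ x y, L.trf x y = 2 * hv * L.form x y) (v : X.CN) :
    X.Ci hv hK (Ind.incl _ _ v) = (v : E) := Ind.lift_incl _ v

theorem Ci_J (hv : ℂ) (hK : ∀ x y, L.trf x y = 2 * hv * L.form x y) (m : ℤ) (a : L.bL)
    (x : Ind (L.kb (k + hv)) (X.CT hv hK)) :
    X.Ci hv hK ((Ind.mod _ _).J m a x) = X.Jh m (a : g) (X.Ci hv hK x) := Ind.lift_J _ m a x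

theorem Ci_stab (hv : ℂ) (hK : ∀ x y, L.trf x y = 2 * hv * L.form x y) :
    X.Stab (LinearMap.range (X.Ci hv hK)) := by
  constructor
  · rintro m a _ ⟨x, rfl⟩
    exact ⟨_, X.Ci_J hv hK m a x⟩
  · rintro m s _ ⟨x, rfl⟩
    let W : Submodule ℂ (Ind (L.kb (k + hv)) (X.CT hv hK)) :=
      { carrier := {x | ∀ (m : ℤ) (s : β), X.c m s (X.Ci hv hK x) ∈
          LinearMap.range (X.Ci hv hK)}
        add_mem' := fun {x y} hx hy m s => by
          rw [map_add, map_add]
          exact add_mem (hx m s) (hy m s)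
        zero_mem' := fun m s => by
          rw [map_zero, map_zero]
          exact zero_mem _
        smul_mem' := fun r x hx m s => by
          rw [map_smul, map_smul]
          exact Submodule.smul_mem _ _ (hx m s) }
    have h : ∀ x, x ∈ W := by
      intro x
      refine Ind.induction_sub W ?_ ?_ x
      · intro v m s
        rw [Ci_incl]
        exact ⟨Ind.incl _ _ ⟨_, X.CN_c m s _ v.2⟩, X.Ci_incl hv hK _⟩
      · intro n a x hx m s
        rw [Ci_J]
        have h1 := X.Jh_c n m (a : g) s (X.Ci hv hK x)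
        rw [sub_eq_iff_eq_add] at h1
        have h2 : X.c m s (X.Jh n (a : g) (X.Ci hv hK x)) =
            X.Jh n (a : g) (X.c m s (X.Ci hv hK x)) +
              ∑ t, L.form ⁅(a : g), L.e t⁆ (L.f s) • X.c (n + m) t (X.Ci hv hK x) := by
          rw [h1]
          abel
        rw [h2]
        refine add_mem ?_ (Submodule.sum_mem _ fun t _ => Submodule.smul_mem _ _ (hx _ _))
        obtain ⟨y, hy⟩ := hx m s
        rw [← hy]
        exact ⟨_, X.Ci_J hv hK n a y⟩
    exact h x m s

section words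

variable {K U : Type} [LinearOrder K] [LinearOrder U] (eK : K ≃ ℕ × β) (eU : U ≃ ℕ × (β ⊕ η))

/-- The `c`-words. -/
def cph : Fer K →ₗ[ℂ] E := Fer.theta (X.lC eK) X.vac

theorem cph_bs (T : Finset K) :
    X.cph eK (Fer.bs T) = opw ((T.sort (· ≤ ·)).map (X.lC eK)) X.vac := by
  unfold cph
  rw [Fer.theta_bs]
  induction T.sort (· ≤ ·) with
  | nil => rfl
  | cons x t ih => exact congrArg (X.lC eK x) ih

theorem cph_cr (i : K) (w : Fer K) : X.cph eK (Fer.cr i w) = X.lC eK i (X.cph eK w) :=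
  Fer.theta_cr (fun _ _ _ => X.cc _ _ _ _ _) i w

theorem cph_pos (m : ℤ) (hm : 0 ≤ m) (s : β) (w : Fer K) : X.c m s (X.cph eK w) = 0 := by
  have h : X.c m s ∘ₗ X.cph eK = 0 := by
    refine Fer.ext_bs fun T => ?_
    rw [LinearMap.comp_apply, LinearMap.zero_apply, cph_bs]
    induction T.sort (· ≤ ·) with
    | nil => exact X.c_vac m s hm
    | cons x t ih =>
      show X.c m s (X.lC eK x (opw (t.map (X.lC eK)) X.vac)) = 0
      have h1 := X.cc m (-((eK x).1 : ℤ) - 1) s (eK x).2 (opw (t.map (X.lC eK)) X.vac)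
      rw [ih, map_zero, add_zero] at h1
      exact h1
  exact LinearMap.congr_fun h w

theorem CN_le_cph : X.CN ≤ LinearMap.range (X.cph eK) := by
  refine X.CN_le _ ⟨Fer.vac, Fer.theta_vac _ _⟩ ?_
  rintro m s _ ⟨w, rfl⟩
  rcases le_or_gt 0 m with hm | hm
  · rw [cph_pos X eK m hm]
    exact zero_mem _
  · refine ⟨Fer.cr (eK.symm ((-m - 1).toNat, s)) w, ?_⟩
    rw [cph_cr]
    unfold lC
    rw [Equiv.apply_symm_apply]
    have : (-(((-m - 1).toNat : ℕ) : ℤ) - 1) = m := by omega
    rw [this]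

theorem CN_span : X.CN ≤ Submodule.span ℂ (Set.range fun T : Finset K =>
    opw ((T.sort (· ≤ ·)).map (X.lC eK)) X.vac) := by
  refine (X.CN_le_cph eK).trans ?_
  rintro _ ⟨w, rfl⟩
  induction w using Finsupp.induction_linear with
  | zero => rw [map_zero]; exact zero_mem _
  | add x y hx hy => rw [map_add]; exact add_mem hx hy
  | single T c =>
    have e : (Finsupp.single T c : Fer K) = c • Fer.bs T := by
      unfold Fer.bs
      rw [Finsupp.smul_single, smul_eq_mul, mul_one]
    rw [e, map_smul, cph_bs]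
    exact Submodule.smul_mem _ _ (Submodule.subset_span ⟨T, rfl⟩)

theorem vC_C0 (w : SL U × Finset K) : X.vC eK eU w ∈ X.C0 := by
  unfold C0
  rw [Submodule.mem_sInf]
  intro W hW
  have h1 : ∀ t : List K, opw (t.map (X.lC eK)) X.vac ∈ W := by
    intro t
    induction t with
    | nil => exact hW.1
    | cons x t ih => exact hW.2.2 _ _ _ ih
  have h2 : ∀ u : List U, opw (u.map (X.lUh eU))
      (opw ((w.2.sort (· ≤ ·)).map (X.lC eK)) X.vac) ∈ W := by
    intro u
    induction u with
    | nil => exact h1 _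
    | cons x u ih => exact hW.2.1 _ ⟨L.bb (eU x).2, (la_B L).bb_mem _⟩ _ ih
  exact h2 _

end words

theorem C0_eq (hv : ℂ) (hK : ∀ x y, L.trf x y = 2 * hv * L.form x y)
    {K U : Type} [LinearOrder K] [LinearOrder U] (eK : K ≃ ℕ × β)
    (eU : U ≃ ℕ × (β ⊕ η)) : X.C0 = X.W0 eK eU := by
  apply le_antisymm
  · have h1 : X.C0 ≤ LinearMap.range (X.Ci hv hK) := by
      refine sInf_le ⟨?_, X.Ci_stab hv hK⟩
      exact ⟨Ind.incl _ _ ⟨X.vac, X.CN_vac⟩, X.Ci_incl hv hK _⟩
    refine h1.trans ?_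
    rintro _ ⟨x, rfl⟩
    obtain ⟨b, hb⟩ := L.exists_bBasis
    obtain ⟨y, rfl⟩ := (Ind.sortedMapB_bijective (L.kb (k + hv)) (X.CT hv hK) b
      ⟨L.kb_symm _, L.kb_inv _⟩ eU).2 x
    induction y using Finsupp.induction_linear with
    | zero => rw [map_zero, map_zero]; exact zero_mem _
    | add x y hx hy => rw [map_add, map_add]; exact add_mem hx hy
    | single w v =>
      rw [Ind.sortedMapB_single]
      have h2 : ∀ u : List U, X.Ci hv hK (Ind.word (fun i => b i) (u.map eU) v) =
          opw (u.map (X.lUh eU)) (v : E) := by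
        intro u
        induction u with
        | nil => exact X.Ci_incl hv hK v
        | cons x u ih =>
          rw [List.map_cons, Ind.word_cons, Ci_J, ih, hb]
          rfl
      rw [h2]
      obtain ⟨v, hv'⟩ := v
      show opw _ v ∈ _
      have h3 := X.CN_span eK hv'
      have h4 : ∀ v : E, opw (w.1.map (X.lUh eU)) v =
          (w.1.map (X.lUh eU)).foldr (fun T w => T ∘ₗ w) LinearMap.id v := by
        intro v
        induction w.1.map (X.lUh eU) with
        | nil => rfl
        | cons T l ih => exact congrArg T ih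
      rw [h4]
      clear h2 hv'
      induction h3 using Submodule.span_induction with
      | mem v hv =>
        obtain ⟨T, rfl⟩ := hv
        rw [← h4]
        exact Submodule.subset_span ⟨(w, T), rfl⟩
      | zero => rw [map_zero]; exact zero_mem _
      | add v v' _ _ h h' => rw [map_add]; exact add_mem h h'
      | smul c v _ h => rw [map_smul]; exact Submodule.smul_mem _ _ h
  · refine Submodule.span_le.2 ?_
    rintro _ ⟨w, rfl⟩
    exact X.vC_C0 eK eU w

end FVac

end

end WPE
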