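import Pool.Agent.WPE.FB4b
import Pool.Agent.WPE.FB7a

/-! WPE, block FB7: the subcomplex `C₀`. -/

set_option linter.unusedSectionVars false

namespace WPE

open scoped TensorProduct

noncomputable section

variable {g β η : Type} [LieRing g] [LieAlgebra ℂ g] [Fintype β] [DecidableEq β] [Fintype η]
  [DecidableEq η] {L : LD g β η} {k : ℂ} {E : Type} [AddCommGroup E] [Module ℂ E]

namespace FVac

variable (X : FVac L k E)

theorem C0_vac : X.vac ∈ X.C0 := by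
  unfold C0
  rw [Submodule.mem_sInf]
  exact fun W hW => hW.1

theorem C0_stab : X.Stab X.C0 := by
  constructor
  · intro m a v hv
    unfold C0 at hv ⊢
    rw [Submodule.mem_sInf] at hv ⊢
    exact fun W hW => hW.2.1 m a v (hv W hW)
  · intro m s v hv
    unfold C0 at hv ⊢
    rw [Submodule.mem_sInf] at hv ⊢
    exact fun W hW => hW.2.2 m s v (hv W hW)

theorem C0_le (W : Submodule ℂ E) (h0 : X.vac ∈ W) (h : X.Stab W) : X.C0 ≤ W :=
  sInf_le ⟨h0, h⟩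

theorem C0_psi (m : ℤ) (y : L.nL) (v : E) (hv : v ∈ X.C0) : X.psi m y v ∈ X.C0 := by
  rw [X.psi_apply']
  exact Submodule.sum_mem _ fun s _ => Submodule.smul_mem _ _ (X.C0_stab.2 m s v hv)

theorem C0_qq (hv κ : ℂ) (hκ : k + hv = κ) (hK : ∀ x y, L.trf x y = 2 * hv * L.form x y)
    (m : ℤ) (a : L.bL) (v : E) (h : v ∈ X.C0) :
    (X.gm hv κ hκ hK).qq (L.qd κ).Om (L.qd κ).Lk (L.qd κ).Fm m a v ∈ X.C0 := by
  rw [GMod.qq_apply]
  refine X.C0.add_mem (X.C0.sub_mem ?_ ?_) ?_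
  · have e : (L.qd κ).Om a = ∑ b, L.pib ⁅L.e b, (a : g)⁆ ⊗ₜ[ℂ] L.fN b := L.OmB_apply a
    rw [e, map_sum, LinearMap.sum_apply]
    refine Submodule.sum_mem _ fun b _ => ?_
    rw [GMod.nop_tmul]
    refine psum_mem _ _ _ fun k' => ?_
    unfold GMod.nopF
    split_ifs
    · exact X.C0_stab.1 _ _ _ (X.C0_psi _ _ _ h)
    · exact X.C0_psi _ _ _ (X.C0_stab.1 _ _ _ h)
  · exact X.C0.smul_mem _ (X.C0_psi _ _ _ h)
  · exact X.C0_psi _ _ _ h

theorem Q_C0 (hX : X.Std) (hv : ℂ) (hK : ∀ x y, L.trf x y = 2 * hv * L.form x y) (v : E)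
    (h : v ∈ X.C0) : X.Q v ∈ X.C0 := by
  have key : X.C0 ≤ X.C0 ⊓ X.C0.comap X.Q := by
    refine X.C0_le _ ⟨X.C0_vac, ?_⟩ ⟨?_, ?_⟩
    · show X.Q X.vac ∈ X.C0
      rw [X.Q_vac]
      exact zero_mem _
    · rintro m a w ⟨hw, hQw⟩
      refine ⟨X.C0_stab.1 m a w hw, ?_⟩
      show X.Q (X.Jh m (a : g) w) ∈ X.C0
      rw [X.Q_Jh hX hv (k + hv) rfl hK]
      exact X.C0.add_mem (X.C0_stab.1 m a _ hQw) (X.C0_qq hv (k + hv) rfl hK m a w hw)
    · rintro m s w ⟨hw, hQw⟩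
      refine ⟨X.C0_stab.2 m s w hw, ?_⟩
      show X.Q (X.c m s w) ∈ X.C0
      have h1 : X.Q (X.c m s w) = (X.Q (X.c m s w) + X.c m s (X.Q w)) - X.c m s (X.Q w) := by
        abel
      rw [h1, X.Q_c]
      refine X.C0.sub_mem (X.C0.smul_mem _ (Submodule.sum_mem _ fun s' _ =>
        Submodule.sum_mem _ fun u _ => X.C0.smul_mem _ (psum_mem _ _ _ fun r => ?_)))
        (X.C0_stab.2 m s _ hQw)
      exact X.C0_stab.2 _ _ _ (X.C0_stab.2 _ _ _ hw)
  exact (key h).2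

section words

variable {K U : Type} [LinearOrder K] [LinearOrder U] (eK : K ≃ ℕ × β) (eU : U ≃ ℕ × (β ⊕ η))

theorem Chg_opw {ι : Type} (T : ι → E →ₗ[ℂ] E) (d : ℤ)
    (hT : ∀ (i : ι) (q : ℤ) (v : E), X.Chg q v → X.Chg (q + d) (T i v)) (l : List ι) (q : ℤ)
    (v : E) (h : X.Chg q v) : X.Chg (q + l.length * d) (opw (l.map T) v) := by
  induction l with
  | nil =>
    rw [List.length_nil, Nat.cast_zero, zero_mul, add_zero]
    exact h
  | cons i l ih =>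
    have h1 := hT i _ _ ih
    have h2 : q + (l.length : ℤ) * d + d = q + ((i :: l).length : ℤ) * d := by
      rw [List.length_cons]
      push_cast
      ring
    rw [h2] at h1
    exact h1

theorem bb_bm (i : β ⊕ η) : L.bb i ∈ L.bm := (la_B L).bb_mem i

theorem Chg_vC (w : SL U × Finset K) : X.Chg (w.2.card : ℤ) (X.vC eK eU w) := by
  have h1 := X.Chg_opw (X.lC eK) 1 (fun i q v h => Chg.c _ _ h) (w.2.sort (· ≤ ·)) 0 X.vac
    Chg.vac
  have h2 := X.Chg_opw (X.lUh eU) 0 (fun i q v h => by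
    rw [add_zero]
    exact X.Chg_Jh _ _ h) w.1.1 _ _ h1
  rw [mul_zero, add_zero, zero_add, mul_one, Finset.length_sort] at h2
  exact h2

theorem vC_empty (w : SL U) : X.vC eK eU (w, ∅) = opw (w.1.map (X.lUh eU)) X.vac := by
  unfold vC
  rw [show ((w, (∅ : Finset K)) : SL U × Finset K).2 = ∅ from rfl, Finset.sort_empty]
  rfl

end words

theorem C0_le_sup (hX : X.Std) (hv : ℂ) (hK : ∀ x y, L.trf x y = 2 * hv * L.form x y) (v : E)
    (h : v ∈ X.C0) {U : Type} [LinearOrder U] (eU : U ≃ ℕ × (β ⊕ η)) :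
    ∃ v0 ∈ Submodule.span ℂ (Set.range fun w : SL U => opw (w.1.map (X.lUh eU)) X.vac),
      v - v0 ∈ ⨆ (r : ℤ) (_ : 1 ≤ r), X.chg r := by
  obtain ⟨inst, -⟩ := exists_wellFoundedLT (ℕ × β)
  rw [X.C0_eq hv hK (Equiv.refl _) eU] at h
  unfold W0 at h
  induction h using Submodule.span_induction with
  | mem x hx =>
    obtain ⟨w, rfl⟩ := hx
    by_cases hw : w.2 = ∅
    · refine ⟨X.vC (Equiv.refl _) eU w, ?_, by rw [sub_self]; exact zero_mem _⟩
      obtain ⟨w1, w2⟩ := w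
      change w2 = ∅ at hw
      rw [hw, X.vC_empty]
      exact Submodule.subset_span ⟨w1, rfl⟩
    · refine ⟨0, zero_mem _, ?_⟩
      rw [sub_zero]
      have h1 : 1 ≤ w.2.card := Finset.card_pos.2 (Finset.nonempty_iff_ne_empty.2 hw)
      refine Submodule.mem_iSup_of_mem (w.2.card : ℤ) ?_
      refine Submodule.mem_iSup_of_mem (by exact_mod_cast h1) ?_
      exact X.Chg_vC _ eU w
  | zero => exact ⟨0, zero_mem _, by rw [sub_zero]; exact zero_mem _⟩
  | add x y _ _ hx hy =>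
    obtain ⟨x0, hx0, hx1⟩ := hx
    obtain ⟨y0, hy0, hy1⟩ := hy
    refine ⟨x0 + y0, add_mem hx0 hy0, ?_⟩
    rw [add_sub_add_comm]
    exact add_mem hx1 hy1
  | smul c x _ hx =>
    obtain ⟨x0, hx0, hx1⟩ := hx
    refine ⟨c • x0, Submodule.smul_mem _ c hx0, ?_⟩
    rw [← smul_sub]
    exact Submodule.smul_mem _ c hx1

theorem chg_disjoint (hX : X.Std) (q : ℤ) (p : ℤ → Prop) (hp : ¬ p q) (v : E) (h : X.Chg q v)
    (h' : v ∈ ⨆ (r : ℤ) (_ : p r), X.chg r) : v = 0 := by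
  have h1 := (X.chg_internal hX).submodule_iSupIndep q
  rw [Submodule.disjoint_def] at h1
  refine h1 v h ?_
  refine (iSup_le fun r => iSup_le fun hr => ?_ : (⨆ (r : ℤ) (_ : p r), X.chg r) ≤ _) h'
  exact le_iSup_of_le r (le_iSup_of_le (fun e => hp (e ▸ hr)) le_rfl)

/-- The words in the `Ĵ_u` have ghost number `0`. -/
theorem Chg_words {U : Type} [LinearOrder U] (eU : U ≃ ℕ × (β ⊕ η)) (v : E)
    (h : v ∈ Submodule.span ℂ (Set.range fun w : SL U => opw (w.1.map (X.lUh eU)) X.vac)) :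
    X.Chg 0 v := by
  have h1 : Submodule.span ℂ (Set.range fun w : SL U => opw (w.1.map (X.lUh eU)) X.vac) ≤
      X.chg 0 := by
    rw [Submodule.span_le]
    rintro _ ⟨w, rfl⟩
    have h2 := X.Chg_opw (X.lUh eU) 0 (fun i q v h => by
      rw [add_zero]
      exact X.Chg_Jh _ _ h) w.1 0 _ Chg.vac
    rw [mul_zero, add_zero] at h2
    exact h2
  exact h1 h

/-- `C₀` has no negative ghost numbers. -/
theorem C0_neg (hX : X.Std) (hv : ℂ) (hK : ∀ x y, L.trf x y = 2 * hv * L.form x y)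
    (v : E) (h : v ∈ X.C0) (q : ℤ) (hq : q < 0) (hc : X.Chg q v) :
    v = 0 := by
  obtain ⟨inst, -⟩ := exists_wellFoundedLT (ℕ × (β ⊕ η))
  obtain ⟨v0, h0, h1⟩ := X.C0_le_sup hX hv hK v h (Equiv.refl _)
  have h2 := X.Chg_words _ v0 h0
  refine X.chg_disjoint hX q (fun r => 0 ≤ r) (by omega) v hc ?_
  rw [← sub_add_cancel v v0]
  refine add_mem ?_ (Submodule.mem_iSup_of_mem 0 (Submodule.mem_iSup_of_mem le_rfl h2))
  refine (iSup_le fun r => iSup_le fun hr => ?_ : (⨆ (r : ℤ) (_ : 1 ≤ r), X.chg r) ≤ _) h1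
  exact le_iSup_of_le r (le_iSup_of_le (by omega) le_rfl)

/-- The part of ghost number `0` of `C₀`. -/
theorem C0_zero (hX : X.Std) (hv : ℂ) (hK : ∀ x y, L.trf x y = 2 * hv * L.form x y)
    {U : Type} [LinearOrder U]
    (eU : U ≃ ℕ × (β ⊕ η)) (v : E) (h : v ∈ X.C0) (hc : X.Chg 0 v) :
    v ∈ Submodule.span ℂ (Set.range fun w : SL U => opw (w.1.map (X.lUh eU)) X.vac) := by
  obtain ⟨v0, h0, h1⟩ := X.C0_le_sup hX hv hK v h eU
  have h2 := X.Chg_words _ v0 h0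
  have h3 : v - v0 = 0 := X.chg_disjoint hX 0 (fun r => 1 ≤ r) (by omega) _
    ((X.chg 0).sub_mem hc h2) h1
  rw [sub_eq_zero] at h3
  rw [h3]
  exact h0

end FVac

end

end WPE
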