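import Pool.Agent.WPE.BR14
import Pool.Agent.WPE.BR17
import Pool.Agent.WPE.FB5
import Pool.Agent.WPE.FB7

/-! WPE, block FB8: the comparison map from the reduced complex. -/

set_option linter.unusedSectionVars false

namespace WPE

open scoped TensorProduct

noncomputable section

variable {g β η : Type} [LieRing g] [LieAlgebra ℂ g] [Fintype β] [DecidableEq β] [Fintype η]
  [DecidableEq η] {L : LD g β η} {k : ℂ} {E : Type} [AddCommGroup E] [Module ℂ E]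

namespace LD

variable (L)

/-- The basis of `b₋`. -/
def bv : β ⊕ η → L.bL := Sum.elim L.fB L.hB

theorem coe_bv (i : β ⊕ η) : (L.bv i : g) = L.bb i := by
  rcases i with i | i <;> rfl

theorem bv_li : LinearIndependent ℂ L.bv := by
  refine LinearIndependent.of_comp L.jb ?_
  have h := L.gv_li.comp Sum.inr Sum.inr_injective
  have h2 : L.jb ∘ L.bv = L.gv ∘ Sum.inr := by
    funext i
    exact L.coe_bv i
  rw [h2]
  exact h

theorem bv_span : ⊤ ≤ Submodule.span ℂ (Set.range L.bv) := by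
  intro x _
  have h1 : x = ∑ i, L.form (x : g) (L.h' i) • L.hB i +
      ∑ b, L.form (x : g) (L.e b) • L.fB b := by
    apply L.jb_inj
    rw [map_add, map_sum, map_sum]
    have h2 := L.decomp (x : g)
    rw [Finset.sum_eq_zero (fun b _ => by
      rw [(L.mem_bm_iff _).1 x.2 b, zero_smul]), zero_add] at h2
    rw [jb_apply]
    refine h2.trans ?_
    congr 1
  rw [h1]
  exact add_mem (Submodule.sum_mem _ fun b _ => Submodule.smul_mem _ _
    (Submodule.subset_span ⟨Sum.inr b, rfl⟩)) (Submodule.sum_mem _ fun b _ =>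
    Submodule.smul_mem _ _ (Submodule.subset_span ⟨Sum.inl b, rfl⟩))

/-- The basis of `b₋`. -/
def bLB : Module.Basis (β ⊕ η) ℂ L.bL := Module.Basis.mk L.bv_li L.bv_span

theorem bLB_apply (i : β ⊕ η) : L.bLB i = L.bv i := Module.Basis.mk_apply _ _ i

end LD

namespace FB8

/-- Homomorphisms of modules on a stable subspace commute with the normally ordered products. -/
theorem map_nop {B : Type} [LieRing B] [LieAlgebra ℂ B] {κ : B →ₗ[ℂ] B →ₗ[ℂ] ℂ} {Y : Type}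
    [AddCommGroup Y] [Module ℂ Y] [LieRingModule B Y] [LieModule ℂ B Y] {A A' : Type}
    [AddCommGroup A] [Module ℂ A] [AddCommGroup A'] [Module ℂ A'] (M : GMod B Y κ A)
    (M' : GMod B Y κ A') (F : A →ₗ[ℂ] A') (W : Submodule ℂ A)
    (hW : ∀ m a u, u ∈ W → M.J m a u ∈ W) (hJ : ∀ m a u, F (M.J m a u) = M'.J m a (F u))
    (hp : ∀ m y, ∀ u ∈ W, F (M.ψ m y u) = M'.ψ m y (F u)) (m : ℤ) (t : B ⊗[ℂ] Y) (u : A)
    (hu : u ∈ W) : F (M.nop m t u) = M'.nop m t (F u) := by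
  induction t using TensorProduct.induction_on with
  | zero => rw [map_zero, map_zero, LinearMap.zero_apply, LinearMap.zero_apply, map_zero]
  | add s t hs ht =>
    rw [map_add, map_add, LinearMap.add_apply, LinearMap.add_apply, map_add, hs, ht]
  | tmul c z =>
    rw [GMod.nop_tmul, GMod.nop_tmul]
    classical
    obtain ⟨s, hs⟩ := (M.lf_nopF m c z).exists_finset u
    obtain ⟨s', hs'⟩ := (M'.lf_nopF m c z).exists_finset (F u)
    have hk : ∀ k, F (M.nopF m c z k u) = M'.nopF m c z k (F u) := by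
      intro k
      unfold GMod.nopF
      split_ifs
      · rw [LinearMap.comp_apply, LinearMap.comp_apply, hJ, hp _ _ _ hu]
      · rw [LinearMap.comp_apply, LinearMap.comp_apply, hp _ _ _ (hW _ _ _ hu), hJ]
    rw [psum_eq_sum (M.lf_nopF m c z) u (s ∪ s') (fun k h => hs k (Finset.notMem_union.1 h).1),
      psum_eq_sum (M'.lf_nopF m c z) (F u) (s ∪ s')
        (fun k h => hs' k (Finset.notMem_union.1 h).2), map_sum]
    exact Finset.sum_congr rfl fun k _ => hk k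

theorem map_qq {B : Type} [LieRing B] [LieAlgebra ℂ B] {κ : B →ₗ[ℂ] B →ₗ[ℂ] ℂ} {Y : Type}
    [AddCommGroup Y] [Module ℂ Y] [LieRingModule B Y] [LieModule ℂ B Y] {A A' : Type}
    [AddCommGroup A] [Module ℂ A] [AddCommGroup A'] [Module ℂ A'] (M : GMod B Y κ A)
    (M' : GMod B Y κ A') (F : A →ₗ[ℂ] A') (W : Submodule ℂ A)
    (hW : ∀ m a u, u ∈ W → M.J m a u ∈ W) (hJ : ∀ m a u, F (M.J m a u) = M'.J m a (F u))
    (hp : ∀ m y, ∀ u ∈ W, F (M.ψ m y u) = M'.ψ m y (F u)) (Om : B →ₗ[ℂ] B ⊗[ℂ] Y)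
    (Lm Fm : B →ₗ[ℂ] Y) (m : ℤ) (a : B) (u : A) (hu : u ∈ W) :
    F (M.qq Om Lm Fm m a u) = M'.qq Om Lm Fm m a (F u) := by
  rw [GMod.qq_apply, GMod.qq_apply, map_add, map_sub, map_smul,
    map_nop M M' F W hW hJ hp m _ u hu, hp _ _ _ hu, hp _ _ _ hu]

end FB8

namespace FVac

variable (X : FVac L k E)

/-! ### Abstract lemmas -/

section abs

variable (κ : ℂ) {V : Type} [AddCommGroup V] [Module ℂ V] (M : GMod L.bL L.nL (L.kb κ) V) (F : V →ₗ[ℂ] E)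
  (W : Submodule ℂ V) (v0 : V)

theorem abs_psi (hind : ∀ W' : Submodule ℂ V, v0 ∈ W' →
      (∀ m a x, x ∈ W → x ∈ W' → M.J m a x ∈ W') → ∀ u ∈ W, u ∈ W')
    (hJ : ∀ m a u, F (M.J m a u) = X.Jh m (a : g) (F u))
    (hp0 : ∀ m y, F (M.ψ m y v0) = X.psi m y (F v0)) (m : ℤ) (y : L.nL) (u : V) (hu : u ∈ W) :
    F (M.ψ m y u) = X.psi m y (F u) := by
  have h := hind
    { carrier := {u | ∀ (m : ℤ) (y : L.nL), F (M.ψ m y u) = X.psi m y (F u)}
      add_mem' := by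
        intro u v hu hv m y
        rw [map_add, map_add, map_add, map_add, hu, hv]
      zero_mem' := by
        intro m y
        rw [map_zero, map_zero, map_zero]
      smul_mem' := by
        intro r u hu m y
        rw [map_smul, map_smul, map_smul, map_smul, hu] } hp0 (by
      intro n a x hx hx' m y
      have h1 := M.commψ n m a y x
      have h2 : M.ψ m y (M.J n a x) = M.J n a (M.ψ m y x) - M.ψ (n + m) ⁅a, y⁆ x := by
        rw [← h1]; abel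
      rw [h2, map_sub, hJ, hJ, hx' m y, hx' (n + m) ⁅a, y⁆, ← X.Jh_psi]
      abel) u hu
  exact h m y

theorem abs_Q (hv : ℂ) (hκ : k + hv = κ) (hK : ∀ x y, L.trf x y = 2 * hv * L.form x y)
    (hX : X.Std) (hind : ∀ W' : Submodule ℂ V, v0 ∈ W' →
      (∀ m a x, x ∈ W → x ∈ W' → M.J m a x ∈ W') → ∀ u ∈ W, u ∈ W')
    (hW : ∀ m a u, u ∈ W → M.J m a u ∈ W)
    (hJ : ∀ m a u, F (M.J m a u) = X.Jh m (a : g) (F u))
    (hp : ∀ m y, ∀ u ∈ W, F (M.ψ m y u) = X.psi m y (F u)) (Qd : V →ₗ[ℂ] V)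
    (hQJ : ∀ m a x, Qd (M.J m a x) = M.J m a (Qd x) +
      M.qq (L.qd κ).Om (L.qd κ).Lk (L.qd κ).Fm m a x)
    (hQ0 : F (Qd v0) = X.Q (F v0)) (u : V) (hu : u ∈ W) : F (Qd u) = X.Q (F u) := by
  refine hind (LinearMap.eqLocus (F ∘ₗ Qd) (X.Q ∘ₗ F)) hQ0 (fun m a x hx hx' => ?_) u hu
  have hx'' : F (Qd x) = X.Q (F x) := hx'
  show F (Qd (M.J m a x)) = X.Q (F (M.J m a x))
  rw [hQJ, map_add, hJ, hJ, FB8.map_qq M (X.gm hv κ hκ hK) F W hW hJ hp _ _ _ m a x hx, hx'',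
    X.Q_Jh hX hv κ hκ hK]

theorem abs_C0 (hind : ∀ W' : Submodule ℂ V, v0 ∈ W' →
      (∀ m a x, x ∈ W → x ∈ W' → M.J m a x ∈ W') → ∀ u ∈ W, u ∈ W')
    (hJ : ∀ m a u, F (M.J m a u) = X.Jh m (a : g) (F u)) (h0 : F v0 = X.vac) (u : V)
    (hu : u ∈ W) : F u ∈ X.C0 ∧ X.Chg 0 (F u) := by
  have h := hind ((X.C0 ⊓ X.chg 0).comap F) (by
    rw [Submodule.mem_comap, h0]
    exact ⟨X.C0_vac, Chg.vac⟩) (fun m a x hx hx' => by
    rw [Submodule.mem_comap] at hx' ⊢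
    rw [hJ]
    exact ⟨X.C0_stab.1 m a _ hx'.1, X.Chg_Jh m _ hx'.2⟩) u hu
  exact h

theorem abs_word (hJ : ∀ m a u, F (M.J m a u) = X.Jh m (a : g) (F u)) {U : Type}
    (eU : U ≃ ℕ × (β ⊕ η)) (l : List U) (wd : List (ℕ × (β ⊕ η)) → V)
    (hwd : ∀ i l, wd (i :: l) = M.J (-(i.1 : ℤ) - 1) (L.bLB i.2) (wd l)) :
    F (wd (l.map eU)) = opw (l.map (X.lUh eU)) (F (wd [])) := by
  induction l with
  | nil => rfl
  | cons i l ih =>
    rw [List.map_cons, hwd, List.map_cons, opw_cons, ← ih, hJ, L.bLB_apply, L.coe_bv]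
    rfl

end abs

/-! ### The comparison map -/

/-- `y t^(-s-1) ↦ ψ_y(-s-1) vac` -/
def phV0 : Gh L.nL →ₗ[ℂ] E :=
  Finsupp.lsum ℂ fun s : ℕ => (X.psi (-(s : ℤ) - 1)).flip X.vac

theorem phV0_single (s : ℕ) (y : L.nL) :
    X.phV0 (Finsupp.single s y) = X.psi (-(s : ℤ) - 1) y X.vac := by
  unfold phV0
  rw [Finsupp.lsum_single, LinearMap.flip_apply]

/-- The map `KN → E`. -/
def phV : KN L.nL ℂ →ₗ[ℂ] E :=
  LinearMap.toSpanSingleton ℂ E X.vac ∘ₗ LinearMap.fst ℂ _ _ +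
    X.phV0 ∘ₗ (TensorProduct.rid ℂ (Gh L.nL)).toLinearMap ∘ₗ LinearMap.fst ℂ _ _ ∘ₗ
      LinearMap.snd ℂ _ _

theorem phV_apply (v : KN L.nL ℂ) :
    X.phV v = v.1 • X.vac + X.phV0 (TensorProduct.rid ℂ (Gh L.nL) v.2.1) := rfl

theorem psi_vac (n : ℤ) (hn : 0 ≤ n) (y : L.nL) : X.psi n y X.vac = 0 := by
  rw [X.psi_apply, LinearMap.sum_apply]
  refine Finset.sum_eq_zero fun s _ => ?_
  rw [LinearMap.smul_apply, X.c_vac n s hn, smul_zero]

theorem phV0_J (m : ℕ) (a : L.bL) (f : Gh L.nL) :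
    X.Jh m (a : g) (X.phV0 f) = X.phV0 (ghAct m a f) := by
  induction f using Finsupp.induction_linear with
  | zero => rw [map_zero, map_zero, map_zero, map_zero]
  | add f g hf hg => rw [map_add, map_add, hf, hg, map_add, map_add]
  | single s y =>
    rw [ghAct_single, phV0_single]
    have h1 := X.Jh_psi m (-(s : ℤ) - 1) a y X.vac
    rw [X.Jh_vac m (a : g) (Int.natCast_nonneg m), map_zero, sub_zero] at h1
    rw [h1]
    by_cases hms : m ≤ s
    · have h3 : (m : ℤ) + (-(s : ℤ) - 1) = -((s - m : ℕ) : ℤ) - 1 := by omega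
      rw [if_pos hms, phV0_single, h3]
    · rw [if_neg hms, map_zero]
      exact X.psi_vac _ (by omega) _

theorem rid_act (m : ℕ) (a : L.bL) (t : Gh L.nL ⊗[ℂ] ℂ) :
    TensorProduct.rid ℂ (Gh L.nL)
      (((TMod.ghost L.bL L.nL).tensor (TMod.triv L.bL)).act m a t) =
      ghAct m a (TensorProduct.rid ℂ (Gh L.nL) t) := by
  induction t using TensorProduct.induction_on with
  | zero => rw [map_zero, map_zero, map_zero]
  | add s t hs ht => rw [map_add, map_add, hs, ht, map_add, map_add]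
  | tmul f r =>
    rw [TMod.tensor_act, TMod.triv_act, TensorProduct.tmul_zero, add_zero,
      TensorProduct.rid_tmul, TensorProduct.rid_tmul, map_smul]
    rfl

theorem Internal.phV_J (hv κ : ℂ) (hκ : k + hv = κ) (hK : ∀ x y, L.trf x y = 2 * hv * L.form x y)
    (m : ℕ) (a : L.bL) (v : KN L.nL ℂ) : (X.gm hv κ hκ hK).J m a (X.phV v) =
      X.phV ((TMod.gt L.nL (TMod.triv L.bL)).toTMod.act m a v) := by
  have h1 : X.phV ((TMod.gt L.nL (TMod.triv L.bL)).toTMod.act m a v) =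
      (TMod.triv L.bL).act m a v.1 • X.vac + X.phV0 (TensorProduct.rid ℂ (Gh L.nL)
        (((TMod.ghost L.bL L.nL).tensor (TMod.triv L.bL)).act m a v.2.1)) := rfl
  rw [h1, FC.gm_J, phV_apply, TMod.triv_act, zero_smul, zero_add, map_add, map_smul,
    X.Jh_vac m (a : g) (Int.natCast_nonneg m), smul_zero, zero_add, rid_act, phV0_J]

export Internal (phV_J)

/-- The comparison map. -/
def FF (hv κ : ℂ) (hκ : k + hv = κ) (hK : ∀ x y, L.trf x y = 2 * hv * L.form x y) :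
    VC (L.kb κ) L.nL →ₗ[ℂ] E :=
  Ind.lift (X.gm hv κ hκ hK).toBMod X.phV (X.phV_J hv κ hκ hK)

section FF

variable (hv κ : ℂ) (hκ : k + hv = κ) (hK : ∀ x y, L.trf x y = 2 * hv * L.form x y)

theorem Internal.FF_incl (v : KN L.nL ℂ) : X.FF hv κ hκ hK (Ind.incl _ _ v) = X.phV v :=
  Ind.lift_incl _ v

export Internal (FF_incl)

theorem phV_one : X.phV ((1 : ℂ), 0, 0) = X.vac := by
  rw [phV_apply]
  show (1 : ℂ) • X.vac + X.phV0 (TensorProduct.rid ℂ (Gh L.nL) 0) = _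
  rw [map_zero, map_zero, one_smul, add_zero]

theorem Internal.FF_vac : X.FF hv κ hκ hK (cvac (L.kb κ) L.nL) = X.vac :=
  (X.FF_incl hv κ hκ hK _).trans X.phV_one

export Internal (FF_vac)

theorem Internal.FF_J (m : ℤ) (a : L.bL) (u : VC (L.kb κ) L.nL) :
    X.FF hv κ hκ hK ((cmod (L.kb κ) L.nL (TMod.triv L.bL)).J m a u) =
      X.Jh m (a : g) (X.FF hv κ hκ hK u) :=
  Ind.lift_J (X.phV_J hv κ hκ hK) m a u

export Internal (FF_J)

/-- Induction over the part of ghost number `0`. -/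
theorem Internal.ind0 (W : Submodule ℂ (VC (L.kb κ) L.nL)) (h0 : cvac (L.kb κ) L.nL ∈ W)
    (h1 : ∀ m a x, x ∈ cpart (L.kb κ) L.nL (TMod.triv L.bL) 0 → x ∈ W →
      (cmod (L.kb κ) L.nL (TMod.triv L.bL)).J m a x ∈ W) :
    ∀ u ∈ cpart (L.kb κ) L.nL (TMod.triv L.bL) 0, u ∈ W := by
  refine cpart_induction W (fun v => ?_) h1
  have h3 : KNpr L.nL ℂ 0 v = v.1 • (((1 : ℂ), 0, 0) : KN L.nL ℂ) := by
    rw [KNpr_zero]
    refine Prod.ext ?_ (Prod.ext ?_ ?_)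
    · exact (mul_one _).symm
    · exact (smul_zero _).symm
    · exact (smul_zero _).symm
  have h2 : Ind.incl (L.kb κ) (TMod.gt L.nL (TMod.triv L.bL)).toTMod (KNpr L.nL ℂ 0 v) =
      v.1 • cvac (L.kb κ) L.nL :=
    (congrArg (Ind.incl (L.kb κ) (TMod.gt L.nL (TMod.triv L.bL)).toTMod) h3).trans
      (map_smul (Ind.incl (L.kb κ) (TMod.gt L.nL (TMod.triv L.bL)).toTMod) _ _)
  exact (congrArg (· ∈ W) h2).mpr (W.smul_mem _ h0)

export Internal (ind0)

theorem Internal.om_one (s : ℕ) (y : L.nL) :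
    ghOm L.nL (Finsupp.single s y) (((1 : ℂ), 0, 0) : KN L.nL ℂ) =
      ((0 : ℂ), Finsupp.single s y ⊗ₜ[ℂ] (1 : ℂ), 0) := by
  refine (ghOm_apply L.nL _ _).trans ?_
  simp only [TensorProduct.tmul_zero, map_zero, sub_zero]

export Internal (om_one)

theorem Internal.phV_om (s : ℕ) (y : L.nL) :
    X.phV (ghOm L.nL (Finsupp.single s y) (((1 : ℂ), 0, 0) : KN L.nL ℂ)) =
      X.psi (-(s : ℤ) - 1) y X.vac := by
  rw [om_one, phV_apply]
  simp only
  rw [zero_smul, zero_add, TensorProduct.rid_tmul, one_smul, phV0_single]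

export Internal (phV_om)

theorem Internal.FF_psi_vac (m : ℤ) (y : L.nL) :
    X.FF hv κ hκ hK ((cmod (L.kb κ) L.nL (TMod.triv L.bL)).ψ m y (cvac (L.kb κ) L.nL)) =
      X.psi m y (X.FF hv κ hκ hK (cvac (L.kb κ) L.nL)) := by
  by_cases hm : 0 ≤ m
  · exact ((congrArg (X.FF hv κ hκ hK) (psi_cvac (L.kb κ) L.nL m hm y)).trans
      (map_zero _)).trans (((congrArg (X.psi m y) (X.FF_vac hv κ hκ hK)).trans
        (X.psi_vac m hm y)).symm)
  · obtain ⟨s, rfl⟩ : ∃ s : ℕ, m = -(s : ℤ) - 1 := ⟨(-m - 1).toNat, by omega⟩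
    exact ((congrArg (X.FF hv κ hκ hK)
      (Ind.psi_incl_neg (L.kb κ) (TMod.gt L.nL (TMod.triv L.bL)) s y _)).trans
      ((X.FF_incl hv κ hκ hK _).trans (X.phV_om s y))).trans
      (congrArg (X.psi (-(s : ℤ) - 1) y) (X.FF_vac hv κ hκ hK)).symm

export Internal (FF_psi_vac)

theorem Internal.FF_psi (m : ℤ) (y : L.nL) (u : VC (L.kb κ) L.nL)
    (hu : u ∈ cpart (L.kb κ) L.nL (TMod.triv L.bL) 0) :
    X.FF hv κ hκ hK ((cmod (L.kb κ) L.nL (TMod.triv L.bL)).ψ m y u) =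
      X.psi m y (X.FF hv κ hκ hK u) :=
  X.abs_psi κ (cmod (L.kb κ) L.nL (TMod.triv L.bL)) (X.FF hv κ hκ hK)
    (cpart (L.kb κ) L.nL (TMod.triv L.bL) 0) (cvac (L.kb κ) L.nL) (ind0 κ)
    (X.FF_J hv κ hκ hK) (X.FF_psi_vac hv κ hκ hK) m y u hu

export Internal (FF_psi)

theorem Internal.Qd_cvac {Q1 : VC (L.kb κ) L.nL →ₗ[ℂ] VC (L.kb κ) L.nL}
    (h1 : IsQ0 (L.kb κ) (QN.one (L.qd κ)) Q1) :
    (L.qd κ).Qd (R := LRep.triv L.bL) Q1 (cvac _ _) = 0 := by
  have e1 : Q1 (cvac (L.kb κ) L.nL) = 0 :=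
    (h1.n0 1).trans ((congrArg _ (map_zero _)).trans (map_zero _))
  have e2 := psi_cvac (L.kb κ) L.nL 0 le_rfl (L.qd κ).F
  have e3 : (L.qd κ).Qd (R := LRep.triv L.bL) Q1 (cvac _ _) = Q1 (cvac (L.kb κ) L.nL) +
    (cmod (L.kb κ) L.nL (TMod.triv L.bL)).ψ 0 (L.qd κ).F (cvac (L.kb κ) L.nL) := rfl
  exact e3.trans ((congrArg₂ (· + ·) e1 e2).trans (add_zero 0))

export Internal (Qd_cvac)

theorem Internal.FF_Q (hX : X.Std) {Q1 : VC (L.kb κ) L.nL →ₗ[ℂ] VC (L.kb κ) L.nL}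
    (h1 : IsQ0 (L.kb κ) (QN.one (L.qd κ)) Q1) (u : VC (L.kb κ) L.nL)
    (hu : u ∈ cpart (L.kb κ) L.nL (TMod.triv L.bL) 0) :
    X.FF hv κ hκ hK ((L.qd κ).Qd (R := LRep.triv L.bL) Q1 u) =
      X.Q (X.FF hv κ hκ hK u) :=
  X.abs_Q κ (cmod (L.kb κ) L.nL (TMod.triv L.bL)) (X.FF hv κ hκ hK)
    (cpart (L.kb κ) L.nL (TMod.triv L.bL) 0) (cvac (L.kb κ) L.nL) hv hκ hK hX (ind0 κ)
    (fun _ _ _ hu => cpart_J _ _ hu) (X.FF_J hv κ hκ hK) (X.FF_psi hv κ hκ hK)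
    ((L.qd κ).Qd (R := LRep.triv L.bL) Q1)
    (br_Q (br_qd L κ) (QN.one (L.qd κ)) (QN.one_ok (L.qd κ)) h1).2.2.2.1
    (((congrArg (X.FF hv κ hκ hK) (Qd_cvac κ h1)).trans (map_zero _)).trans
      (((congrArg X.Q (X.FF_vac hv κ hκ hK)).trans X.Q_vac).symm)) u hu

export Internal (FF_Q)

/-- Words. -/
theorem Internal.FF_word {U : Type} (eU : U ≃ ℕ × (β ⊕ η)) (l : List U) (v : KN L.nL ℂ) :
    X.FF hv κ hκ hK (Ind.word (κ := L.kb κ) (T := (TMod.gt L.nL (TMod.triv L.bL)).toTMod)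
      (fun i => L.bLB i) (l.map eU) v) = opw (l.map (X.lUh eU)) (X.phV v) :=
  (X.abs_word κ (cmod (L.kb κ) L.nL (TMod.triv L.bL)) (X.FF hv κ hκ hK) (X.FF_J hv κ hκ hK) eU l
    (fun l => Ind.word (κ := L.kb κ) (T := (TMod.gt L.nL (TMod.triv L.bL)).toTMod)
      (fun i => L.bLB i) l v) (fun _ _ => rfl)).trans
    (congrArg _ (X.FF_incl hv κ hκ hK v))

export Internal (FF_word)

/-! ### Injectivity -/

variable {K U : Type} [LinearOrder K] [LinearOrder U] (eK : K ≃ ℕ × β) (eU : U ≃ ℕ × (β ⊕ η))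

/-- The vectors of `KN` with at most one ghost. -/
def xj (L : LD g β η) {K : Type} (eK : K ≃ ℕ × β) : Option K → KN L.nL ℂ
  | none => ((1 : ℂ), 0, 0)
  | some i => ghOm L.nL (Finsupp.single (eK i).1 (L.fN (eK i).2)) ((1 : ℂ), 0, 0)

/-- The set of ghosts. -/
def oj {K : Type} : Option K → Finset K
  | none => ∅
  | some i => {i}

theorem oj_inj : Function.Injective (oj (K := K)) := by
  rintro (_ | i) (_ | j) h
  · rfl
  · exact absurd h.symm (Finset.singleton_ne_empty j)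
  · exact absurd h (Finset.singleton_ne_empty i)
  · exact congrArg some (Finset.singleton_injective h)

theorem phV_xj (j : Option K) :
    X.phV (xj L eK j) = opw (((oj j).sort (· ≤ ·)).map (X.lC eK)) X.vac := by
  rcases j with _ | i
  · show X.phV ((1 : ℂ), 0, 0) = opw (((∅ : Finset K).sort (· ≤ ·)).map (X.lC eK)) X.vac
    rw [Finset.sort_empty, phV_one]
    rfl
  · show X.phV (ghOm L.nL (Finsupp.single (eK i).1 (L.fN (eK i).2)) ((1 : ℂ), 0, 0)) =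
      opw ((({i} : Finset K).sort (· ≤ ·)).map (X.lC eK)) X.vac
    rw [Finset.sort_singleton, phV_om, X.psi_fN]
    rfl

/-- The words of the reduced complex. -/
def rw1 (L : LD g β η) (κ : ℂ) {K U : Type} [LinearOrder U] (eK : K ≃ ℕ × β)
    (eU : U ≃ ℕ × (β ⊕ η)) (p : SL U × Option K) : VC (L.kb κ) L.nL :=
  Ind.word (κ := L.kb κ) (T := (TMod.gt L.nL (TMod.triv L.bL)).toTMod) (fun i => L.bLB i)
    (p.1.1.map eU) (xj L eK p.2)

theorem Internal.FF_rw1 (p : SL U × Option K) :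
    X.FF hv κ hκ hK (rw1 L κ eK eU p) = X.vC eK eU (p.1, oj p.2) :=
  (X.FF_word hv κ hκ hK eU p.1.1 (xj L eK p.2)).trans (congrArg _ (X.phV_xj eK p.2))

export Internal (FF_rw1)

theorem fN_decomp (y : L.nL) : y = ∑ b, L.form ((y : L.bL) : g) (L.e b) • L.fN b := by
  apply L.jng_inj
  rw [map_sum]
  have h2 := L.decomp ((y : L.bL) : g)
  have h3 := (L.mem_nm_iff ((y : L.bL) : g)).1 y.2
  rw [Finset.sum_eq_zero (fun b _ => by rw [h3.1 b, zero_smul]),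
    Finset.sum_eq_zero (fun i _ => by rw [h3.2 i, zero_smul]), zero_add, zero_add] at h2
  exact h2

theorem xj_span0 (v : KN L.nL ℂ) (S : Submodule ℂ (KN L.nL ℂ)) (hS : ∀ j, xj L eK j ∈ S) :
    KNpr L.nL ℂ 0 v ∈ S := by
  have h3 : KNpr L.nL ℂ 0 v = v.1 • (((1 : ℂ), 0, 0) : KN L.nL ℂ) := by
    rw [KNpr_zero]
    refine Prod.ext ?_ (Prod.ext ?_ ?_)
    · exact (mul_one _).symm
    · exact (smul_zero _).symm
    · exact (smul_zero _).symm
  rw [h3]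
  exact S.smul_mem _ (hS none)

theorem xj_span1 (v : KN L.nL ℂ) (S : Submodule ℂ (KN L.nL ℂ)) (hS : ∀ j, xj L eK j ∈ S) :
    KNpr L.nL ℂ 1 v ∈ S := by
  have key : ∀ t : Gh L.nL ⊗[ℂ] ℂ, ((0 : ℂ), t, (0 : Gh L.nL ⊗[ℂ] (Gh L.nL ⊗[ℂ] ℂ))) ∈ S := by
    have h1 : ∀ (s : ℕ) (b : β), ((0 : ℂ), Finsupp.single s (L.fN b) ⊗ₜ[ℂ] (1 : ℂ),
        (0 : Gh L.nL ⊗[ℂ] (Gh L.nL ⊗[ℂ] ℂ))) ∈ S := by
      intro s b
      obtain ⟨i, hi⟩ := eK.surjective (s, b)
      have h2 := hS (some i)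
      have h3 : xj L eK (some i) = ((0 : ℂ), Finsupp.single s (L.fN b) ⊗ₜ[ℂ] (1 : ℂ), 0) := by
        show ghOm L.nL (Finsupp.single (eK i).1 (L.fN (eK i).2)) ((1 : ℂ), 0, 0) = _
        rw [hi]
        exact om_one s (L.fN b)
      rwa [h3] at h2
    let f : Gh L.nL ⊗[ℂ] ℂ →ₗ[ℂ] KN L.nL ℂ := LinearMap.inr ℂ _ _ ∘ₗ LinearMap.inl ℂ _ _
    have h4 : ∀ t, t ∈ S.comap f := by
      intro t
      induction t using TensorProduct.induction_on with
      | zero => exact zero_mem _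
      | add s t hs ht => exact add_mem hs ht
      | tmul q r =>
        have h5 : q ⊗ₜ[ℂ] r = r • (q ⊗ₜ[ℂ] (1 : ℂ)) := by
          rw [TensorProduct.smul_tmul', TensorProduct.smul_tmul, smul_eq_mul, mul_one]
        rw [h5]
        refine Submodule.smul_mem _ r ?_
        induction q using Finsupp.induction_linear with
        | zero => rw [TensorProduct.zero_tmul]; exact zero_mem _
        | add q q' hq hq' =>
          rw [TensorProduct.add_tmul]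
          refine add_mem (hq ?_) (hq' ?_)
          · rw [TensorProduct.smul_tmul', TensorProduct.smul_tmul, smul_eq_mul, mul_one]
          · rw [TensorProduct.smul_tmul', TensorProduct.smul_tmul, smul_eq_mul, mul_one]
        | single s y =>
          rw [fN_decomp y, Finsupp.single_finsetSum, TensorProduct.sum_tmul]
          refine Submodule.sum_mem _ fun b _ => ?_
          rw [← Finsupp.smul_single, ← TensorProduct.smul_tmul']
          exact Submodule.smul_mem _ _ (h1 s b)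
    exact h4
  exact key v.2.1

theorem Internal.cpart_span (i : Fin 3) (hi : ∀ (v : KN L.nL ℂ) (S : Submodule ℂ (KN L.nL ℂ)),
      (∀ j, xj L eK j ∈ S) → KNpr L.nL ℂ i v ∈ S) (u : VC (L.kb κ) L.nL)
    (hu : u ∈ cpart (L.kb κ) L.nL (TMod.triv L.bL) i) :
    u ∈ Submodule.span ℂ (Set.range (rw1 L κ eK eU)) := by
  obtain ⟨x, rfl⟩ := hu
  have h1 : x ∈ Submodule.span ℂ (Set.range fun p : SL U × KN L.nL ℂ =>
      Ind.word (κ := L.kb κ) (T := (TMod.gt L.nL (TMod.triv L.bL)).toTMod) (fun i => L.bLB i)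
        (p.1.1.map eU) p.2) := by
    have h2 := Ind.sorted_span (κ := L.kb κ) (T := (TMod.gt L.nL (TMod.triv L.bL)).toTMod)
      L.bLB ⟨L.kb_symm κ, L.kb_inv κ⟩ eU (x := fun v : KN L.nL ℂ => v)
      (by rw [Set.range_id', Submodule.span_univ])
    exact (congrArg (x ∈ ·) h2).mpr trivial
  have h3 : Submodule.span ℂ (Set.range fun p : SL U × KN L.nL ℂ =>
      Ind.word (κ := L.kb κ) (T := (TMod.gt L.nL (TMod.triv L.bL)).toTMod) (fun i => L.bLB i)
        (p.1.1.map eU) p.2) ≤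
      (Submodule.span ℂ (Set.range (rw1 L κ eK eU))).comap
        (cpr (L.kb κ) L.nL (TMod.triv L.bL) i) := by
    rw [Submodule.span_le]
    rintro _ ⟨p, rfl⟩
    have h4 : cpr (L.kb κ) L.nL (TMod.triv L.bL) i
        (Ind.word (κ := L.kb κ) (T := (TMod.gt L.nL (TMod.triv L.bL)).toTMod)
          (fun i => L.bLB i) (p.1.1.map eU) p.2) =
        Ind.word (fun i => L.bLB i) (p.1.1.map eU) (KNpr L.nL ℂ i p.2) :=
      Ind.map_word (KNpr L.nL ℂ i) (KNpr_isHom L.nL (TMod.triv L.bL) i) _ _ _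
    have h5 : KNpr L.nL ℂ i p.2 ∈ (Submodule.span ℂ (Set.range (rw1 L κ eK eU))).comap
        (Ind.word (κ := L.kb κ) (T := (TMod.gt L.nL (TMod.triv L.bL)).toTMod)
          (fun i => L.bLB i) (p.1.1.map eU)) :=
      hi p.2 _ fun j => Submodule.subset_span ⟨(p.1, j), rfl⟩
    exact (congrArg (· ∈ Submodule.span ℂ (Set.range (rw1 L κ eK eU))) h4).mpr h5
  exact h3 h1

export Internal (cpart_span)

/-- A linear map which maps a family to a linearly independent family is injective on its span. -/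
theorem inj_span {V V' ι : Type} [AddCommGroup V] [Module ℂ V] [AddCommGroup V'] [Module ℂ V']
    (F : V →ₗ[ℂ] V') (B : ι → V) (B' : ι → V') (h : ∀ i, F (B i) = B' i)
    (hB' : LinearIndependent ℂ B') (u : V) (hu : u ∈ Submodule.span ℂ (Set.range B))
    (h0 : F u = 0) : u = 0 := by
  obtain ⟨c, rfl⟩ := (Finsupp.mem_span_range_iff_exists_finsupp).1 hu
  have h1 : F (c.sum fun i a => a • B i) = Finsupp.linearCombination ℂ B' c := by
    rw [map_finsuppSum, Finsupp.linearCombination_apply]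
    refine Finsupp.sum_congr fun i _ => ?_
    rw [map_smul, h]
  rw [h1] at h0
  have h2 : c = 0 := (linearIndependent_iff.1 hB') c h0
  rw [h2, Finsupp.sum_zero_index]

include eU in
theorem Internal.FF_inj (hX : X.Std) (i : Fin 3) (hi : ∀ (v : KN L.nL ℂ)
      (S : Submodule ℂ (KN L.nL ℂ)), (∀ j, xj L eK j ∈ S) → KNpr L.nL ℂ i v ∈ S)
    (u : VC (L.kb κ) L.nL) (hu : u ∈ cpart (L.kb κ) L.nL (TMod.triv L.bL) i)
    (h0 : X.FF hv κ hκ hK u = 0) : u = 0 :=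
  inj_span (X.FF hv κ hκ hK) (rw1 L κ eK eU) (fun p => X.vC eK eU (p.1, oj p.2))
    (X.FF_rw1 hv κ hκ hK eK eU)
    ((X.vC_indep hX eK eU).comp (fun p : SL U × Option K => (p.1, oj p.2))
      (Function.injective_id.prodMap oj_inj)) u (cpart_span κ eK eU i hi u hu) h0

export Internal (FF_inj)

theorem Internal.word_cpart0 (l : List U) :
    Ind.word (κ := L.kb κ) (T := (TMod.gt L.nL (TMod.triv L.bL)).toTMod) (fun i => L.bLB i)
      (l.map eU) (((1 : ℂ), 0, 0) : KN L.nL ℂ) ∈ cpart (L.kb κ) L.nL (TMod.triv L.bL) 0 := by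
  induction l with
  | nil => exact cvac_mem (L.kb κ) L.nL
  | cons i l ih => exact cpart_J _ _ ih

export Internal (word_cpart0)

include eU in
theorem Internal.FF_surj (hX : X.Std) (z : E) (hz : z ∈ X.C0) (hc : X.Chg 0 z) :
    ∃ u ∈ cpart (L.kb κ) L.nL (TMod.triv L.bL) 0, X.FF hv κ hκ hK u = z := by
  have h1 := X.C0_zero hX hv hK eU z hz hc
  have h2 : Submodule.span ℂ (Set.range fun w : SL U => opw (w.1.map (X.lUh eU)) X.vac) ≤
      (cpart (L.kb κ) L.nL (TMod.triv L.bL) 0).map (X.FF hv κ hκ hK) := by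
    rw [Submodule.span_le]
    rintro _ ⟨w, rfl⟩
    refine ⟨_, word_cpart0 κ eU w.1, ?_⟩
    exact (X.FF_word hv κ hκ hK eU w.1 _).trans (congrArg _ X.phV_one)
  exact h2 h1

export Internal (FF_surj)

end FF

/-- The comparison map `F : C⁰ ⊕ C¹ ⊕ C² → E` from the reduced complex. -/
theorem Internal.exists_F (hX : X.Std) (hv κ : ℂ) (hκ : k + hv = κ)
    (hK : ∀ x y, L.trf x y = 2 * hv * L.form x y)
    {Q1 : VC (L.kb κ) L.nL →ₗ[ℂ] VC (L.kb κ) L.nL}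
    (h1 : IsQ0 (L.kb κ) (QN.one (L.qd κ)) Q1) :
    ∃ F : VC (L.kb κ) L.nL →ₗ[ℂ] E, F (cvac (L.kb κ) L.nL) = X.vac ∧
      (∀ (m : ℤ) (a : L.bL) u, F ((cmod (L.kb κ) L.nL (TMod.triv L.bL)).J m a u) =
        X.Jh m (a : g) (F u)) ∧
      (∀ (m : ℤ) (y : L.nL), ∀ u ∈ cpart (L.kb κ) L.nL (TMod.triv L.bL) 0,
        F ((cmod (L.kb κ) L.nL (TMod.triv L.bL)).ψ m y u) = X.psi m y (F u)) ∧
      (∀ u ∈ cpart (L.kb κ) L.nL (TMod.triv L.bL) 0,
        F ((L.qd κ).Qd (R := LRep.triv L.bL) Q1 u) = X.Q (F u)) ∧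
      (∀ u ∈ cpart (L.kb κ) L.nL (TMod.triv L.bL) 0, F u ∈ X.C0 ∧ X.Chg 0 (F u)) ∧
      (∀ u ∈ cpart (L.kb κ) L.nL (TMod.triv L.bL) 0, F u = 0 → u = 0) ∧
      (∀ u ∈ cpart (L.kb κ) L.nL (TMod.triv L.bL) 1, F u = 0 → u = 0) ∧
      ∀ z ∈ X.C0, X.Chg 0 z → ∃ u ∈ cpart (L.kb κ) L.nL (TMod.triv L.bL) 0, F u = z := by
  refine Exists.elim (exists_order (ℕ × β)) fun K hO => Exists.elim hO fun iK hO =>
    Nonempty.elim hO fun eK => Exists.elim (exists_order (ℕ × (β ⊕ η))) fun U hO =>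
    Exists.elim hO fun iU hO => Nonempty.elim hO fun eU => ?_
  exact ⟨X.FF hv κ hκ hK, X.FF_vac hv κ hκ hK, X.FF_J hv κ hκ hK,
    X.FF_psi hv κ hκ hK, X.FF_Q hv κ hκ hK hX h1,
    X.abs_C0 κ (cmod (L.kb κ) L.nL (TMod.triv L.bL)) (X.FF hv κ hκ hK)
      (cpart (L.kb κ) L.nL (TMod.triv L.bL) 0) (cvac (L.kb κ) L.nL) (ind0 κ)
      (X.FF_J hv κ hκ hK) (X.FF_vac hv κ hκ hK),
    X.FF_inj hv κ hκ hK eK eU hX 0 (xj_span0 eK), X.FF_inj hv κ hκ hK eK eU hX 1 (xj_span1 eK),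
    X.FF_surj hv κ hκ hK eU hX⟩

export Internal (exists_F)

end FVac

end

end WPE
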