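import Pool.Agent.WPE.FB8

/-! WPE, block FB9: the cohomology in ghost number `0`. -/

set_option linter.unusedSectionVars false

namespace WPE

open scoped TensorProduct

noncomputable section

variable {g β η : Type} [LieRing g] [LieAlgebra ℂ g] [Fintype β] [DecidableEq β] [Fintype η]
  [DecidableEq η] {L : LD g β η} {k : ℂ} {E : Type} [AddCommGroup E] [Module ℂ E]

namespace FVac

variable (X : FVac L k E)

/-- The retraction onto `C₀`. -/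
theorem exists_ret (hX : X.Std) (hv : ℂ) (hK : ∀ x y, L.trf x y = 2 * hv * L.form x y) :
    ∃ h π : E →ₗ[ℂ] E, (∀ v, X.Q (h v) + h (X.Q v) = v - π v) ∧ (∀ v, π v ∈ X.C0) ∧
      (∀ v ∈ X.C0, π v = v) ∧
      (∀ (q : ℤ) (v : E), X.Chg q v → X.Chg (q - 1) (h v)) ∧
      (∀ (q : ℤ) (v : E), X.Chg q v → X.Chg q (π v)) ∧ ∀ v, π (X.Q v) = X.Q (π v) := by
  obtain ⟨i1, -⟩ := exists_wellFoundedLT (ℕ × β)
  obtain ⟨i2, -⟩ := exists_wellFoundedLT (ℕ × (β ⊕ η))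
  have hC := X.C0_eq hv hK (Equiv.refl (ℕ × β)) (Equiv.refl (ℕ × (β ⊕ η)))
  obtain ⟨h, π, h1, h2, h3, -, h5, h6⟩ := X.koszul hX (Equiv.refl (ℕ × β))
    (Equiv.refl (ℕ × (β ⊕ η))) (fun v hv' => by
      rw [← hC] at hv' ⊢
      exact X.Q_C0 hX hv hK v hv')
  refine ⟨h, π, h1, fun v => ?_, fun v hv' => ?_, h5, h6, fun v => ?_⟩
  · rw [hC]
    exact h2 v
  · rw [hC] at hv'
    exact h3 v hv'
  · have e1 := congrArg X.Q (h1 v)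
    have e2 := h1 (X.Q v)
    rw [map_add, X.Q_sq hX, zero_add, map_sub] at e1
    rw [X.Q_sq hX, map_zero, add_zero, e1] at e2
    exact (sub_right_injective e2).symm

/-- The vacuum complex in ghost number `0` is generated by the vacuum. -/
theorem Internal.cpart0_le {κ : L.bL →ₗ[ℂ] L.bL →ₗ[ℂ] ℂ} (W : Submodule ℂ (VC κ L.nL))
    (h0 : cvac κ L.nL ∈ W)
    (h1 : ∀ (m : ℤ) (a : L.bL) u, u ∈ W → (cmod κ L.nL (TMod.triv L.bL)).J m a u ∈ W) :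
    cpart κ L.nL (TMod.triv L.bL) 0 ≤ W := by
  refine cpart_induction W (fun v => ?_) fun m a x _ hx => h1 m a x hx
  have e : KNpr L.nL ℂ 0 v = v.1 • (((1 : ℂ), 0, 0) : KN L.nL ℂ) := by
    rw [KNpr_zero]
    refine Prod.ext ?_ (Prod.ext ?_ ?_)
    · show v.1 = v.1 * 1
      rw [mul_one]
    · exact (smul_zero _).symm
    · exact (smul_zero _).symm
  rw [e, map_smul]
  exact W.smul_mem _ h0

/-- Abstract form of `fb_ret`. -/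
theorem ret_abs {V C : Type} [AddCommGroup V] [Module ℂ V] [AddCommGroup C] [Module ℂ C]
    {P0 P1 : Submodule ℂ V} {C0 : Submodule ℂ C} {F : V →ₗ[ℂ] C} {Q h π : C →ₗ[ℂ] C}
    {Qd : V →ₗ[ℂ] V} {Chg : ℤ → C → Prop} (hQd : ∀ u ∈ P0, Qd u ∈ P1)
    (hFQ : ∀ u ∈ P0, F (Qd u) = Q (F u)) (hFC : ∀ u ∈ P0, F u ∈ C0 ∧ Chg 0 (F u))
    (hi0 : ∀ u ∈ P0, F u = 0 → u = 0) (hi1 : ∀ u ∈ P1, F u = 0 → u = 0)
    (hsur : ∀ z ∈ C0, Chg 0 z → ∃ u ∈ P0, F u = z)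
    (hh : ∀ v, Q (h v) + h (Q v) = v - π v) (hπC : ∀ v, π v ∈ C0) (hπ : ∀ v ∈ C0, π v = v)
    (hhc : ∀ (q : ℤ) (v : C), Chg q v → Chg (q - 1) (h v))
    (hπc : ∀ (q : ℤ) (v : C), Chg q v → Chg q (π v)) (hπQ : ∀ v, π (Q v) = Q (π v))
    (hneg : ∀ v ∈ C0, Chg (-1) v → v = 0) :
    ∃ R : C →ₗ[ℂ] V, (∀ u ∈ P0, R (F u) = u) ∧ (∀ y : C, Chg (-1) y → R (Q y) = 0) ∧
      (∀ u ∈ P0, Chg 0 (F u)) ∧ (∀ u ∈ P0, Qd u = 0 ↔ Q (F u) = 0) ∧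
      ∀ z : C, Chg 0 z → Q z = 0 → ∃ u ∈ P0, Qd u = 0 ∧ ∃ y : C, Chg (-1) y ∧
          z = F u + Q y := by
  have hker : ∀ u ∈ P0, (Qd u = 0 ↔ Q (F u) = 0) := by
    intro u hu
    constructor
    · intro h'
      rw [← hFQ u hu, h', map_zero]
    · intro h'
      rw [← hFQ u hu] at h'
      exact hi1 _ (hQd u hu) h'
  obtain ⟨G0, hG0⟩ := LinearMap.exists_leftInverse_of_injective (F ∘ₗ P0.subtype) (by
      rw [LinearMap.ker_eq_bot']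
      intro u hu
      exact Subtype.ext (hi0 u.1 u.2 hu))
  have hG : ∀ u (hu : u ∈ P0), G0 (F u) = ⟨u, hu⟩ :=
    fun u hu => LinearMap.congr_fun hG0 ⟨u, hu⟩
  refine ⟨P0.subtype ∘ₗ G0 ∘ₗ π, ?_, ?_, fun u hu => (hFC u hu).2, hker, ?_⟩
  · intro u hu
    have h2 : π (F u) = F u := hπ _ (hFC u hu).1
    show ((G0 (π (F u)) : P0) : V) = u
    rw [h2, hG u hu]
  · intro y hy
    have h5 : π y = 0 := hneg _ (hπC y) (hπc _ _ hy)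
    show ((G0 (π (Q y)) : P0) : V) = 0
    rw [hπQ, h5, map_zero, map_zero]
    rfl
  · intro z hz hQz
    obtain ⟨u, hu, hFu⟩ := hsur (π z) (hπC z) (hπc 0 z hz)
    have h2 := hh z
    rw [hQz, map_zero, add_zero] at h2
    refine ⟨u, hu, (hker u hu).2 ?_, h z, hhc 0 z hz, ?_⟩
    · rw [hFu, ← hπQ, hQz, map_zero]
    · rw [hFu, h2]
      abel

/-- The comparison map `F` with a retraction `R`, which kills the coboundaries. -/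
theorem Internal.fb_ret (hX : X.Std) (hv κ : ℂ) (hκ : k + hv = κ)
    (hK : ∀ x y, L.trf x y = 2 * hv * L.form x y)
    {Q1 : VC (L.kb κ) L.nL →ₗ[ℂ] VC (L.kb κ) L.nL}
    (h1 : IsQ0 (L.kb κ) (QN.one (L.qd κ)) Q1) :
    ∃ (F : VC (L.kb κ) L.nL →ₗ[ℂ] E), F (cvac (L.kb κ) L.nL) = X.vac ∧
      (∀ (m : ℤ) (a : L.bL) u, F ((cmod (L.kb κ) L.nL (TMod.triv L.bL)).J m a u) =
        X.Jh m (a : g) (F u)) ∧
      ∃ R : E →ₗ[ℂ] VC (L.kb κ) L.nL,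
      (∀ u ∈ cpart (L.kb κ) L.nL (TMod.triv L.bL) 0, R (F u) = u) ∧
      (∀ y : E, X.Chg (-1) y → R (X.Q y) = 0) ∧
      (∀ u ∈ cpart (L.kb κ) L.nL (TMod.triv L.bL) 0, X.Chg 0 (F u)) ∧
      (∀ u ∈ cpart (L.kb κ) L.nL (TMod.triv L.bL) 0,
        (L.qd κ).Qd (R := LRep.triv L.bL) Q1 u = 0 ↔ X.Q (F u) = 0) ∧
      ∀ z : E, X.Chg 0 z → X.Q z = 0 → ∃ u ∈ cpart (L.kb κ) L.nL (TMod.triv L.bL) 0,
        (L.qd κ).Qd (R := LRep.triv L.bL) Q1 u = 0 ∧ ∃ y : E, X.Chg (-1) y ∧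
          z = F u + X.Q y :=
  Exists.elim (X.exists_F hX hv κ hκ hK h1) fun F hF =>
  Exists.elim (X.exists_ret hX hv hK) fun _ hh => Exists.elim hh fun _ hπ =>
  ⟨F, hF.1, hF.2.1, ret_abs
    (br_Q (br_qd L κ) (QN.one (L.qd κ)) (QN.one_ok _) h1).2.2.2.2.1
    hF.2.2.2.1 hF.2.2.2.2.1 hF.2.2.2.2.2.1 hF.2.2.2.2.2.2.1 hF.2.2.2.2.2.2.2
    hπ.1 hπ.2.1 hπ.2.2.1 hπ.2.2.2.1 hπ.2.2.2.2.1 hπ.2.2.2.2.2
    (fun v h h' => X.C0_neg hX hv hK v h (-1) (by norm_num) h')⟩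

export Internal (cpart0_le fb_ret)

end FVac

end

end WPE
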