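import Pool.Agent.WPE.IND3
import Pool.Agent.WPE.IndP
import Pool.Agent.WPE.LDB

/-! WPE, block FB: the full BRST complex of the quantum Drinfeld-Sokolov reduction, definitions.

`L` is the Lie data of `g` (basis `e s`, `f s` (`s : β`), `h i`), all fields are written
`a(z) = ∑ a(n) z^(-n-1)`.  `CAR β E`: ghosts `b_s(n)`, `c_s(n)` on `E`.  `FC L k E`: ghosts and
currents of `g` of level `k`, commuting with each other.  `FVac L k E`: such a module with a vacuum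
vector. -/

set_option linter.unusedSectionVars false

namespace WPE

open scoped TensorProduct

noncomputable section

section car

variable (β : Type) [Fintype β] [DecidableEq β] (E : Type) [AddCommGroup E] [Module ℂ E]

/-- Ghosts `b_s(m)`, `c_s(m)`: `{b_s(m), c_t(n)} = δ_{s,t} δ_{m+n+1,0}`, the other
anticommutators vanish. -/
structure CAR where
  b : ℤ → β → E →ₗ[ℂ] E
  c : ℤ → β → E →ₗ[ℂ] E
  bb : ∀ (m n : ℤ) (s t : β) (x : E), b m s (b n t x) + b n t (b m s x) = 0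
  cc : ∀ (m n : ℤ) (s t : β) (x : E), c m s (c n t x) + c n t (c m s x) = 0
  bc : ∀ (m n : ℤ) (s t : β) (x : E), b m s (c n t x) + c n t (b m s x) =
    if s = t ∧ m + n + 1 = 0 then x else 0
  smooth : ∀ x : E, ∃ M : ℤ, ∀ m ≥ M, ∀ s : β, b m s x = 0 ∧ c m s x = 0

variable {β E} (X : CAR β E)

namespace CAR

/-- `:b_t(m-1-r) c_s(r):` -/
def no (m : ℤ) (t s : β) (r : ℤ) : E →ₗ[ℂ] E :=
  if 0 ≤ r then X.b (m - 1 - r) t ∘ₗ X.c r s else -(X.c r s ∘ₗ X.b (m - 1 - r) t)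

/-- The bilinear field `G_T(m) = ∑_{t,s} T_{ts} ∑_r :b_t(m-1-r) c_s(r):` -/
def G (m : ℤ) : Matrix β β ℂ →ₗ[ℂ] E →ₗ[ℂ] E :=
  ∑ t, ∑ s, (Matrix.entryLinearMap ℂ ℂ t s).smulRight (psum (X.no m t s))

theorem G_eq (m : ℤ) (T : Matrix β β ℂ) :
    X.G m T = ∑ t, ∑ s, T t s • psum (X.no m t s) := by
  unfold G
  rw [LinearMap.sum_apply]
  refine Finset.sum_congr rfl fun t _ => ?_
  rw [LinearMap.sum_apply]
  rfl

end CAR

end car

section fc

variable {g β η : Type} [LieRing g] [LieAlgebra ℂ g] [Fintype β] [DecidableEq β] [Fintype η]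
  [DecidableEq η]

/-- The matrix of the operator `e_s ↦ π₊[x, e_s]` on `n₊`: `T_{ts} = ([x, e_s] | f_t)`. -/
def LD.adp (L : LD g β η) : g →ₗ[ℂ] Matrix β β ℂ where
  toFun x := fun t s => L.form ⁅x, L.e s⁆ (L.f t)
  map_add' x y := by
    funext t s
    show L.form ⁅x + y, L.e s⁆ (L.f t) = L.form ⁅x, L.e s⁆ (L.f t) + L.form ⁅y, L.e s⁆ (L.f t)
    rw [add_lie, map_add, LinearMap.add_apply]
  map_smul' r x := by
    funext t s
    show L.form ⁅r • x, L.e s⁆ (L.f t) = r * L.form ⁅x, L.e s⁆ (L.f t)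
    rw [smul_lie, map_smul, LinearMap.smul_apply, smul_eq_mul]

theorem LD.adp_apply (L : LD g β η) (x : g) (t s : β) :
    L.adp x t s = L.form ⁅x, L.e s⁆ (L.f t) := rfl

/-- The matrix `S_{tb} = ([π₋[e_b, a], e_s] | f_t)`. -/
def LD.sm (L : LD g β η) (a : L.bL) (s : β) : Matrix β β ℂ :=
  fun t b => L.form ⁅L.Pb ⁅L.e b, (a : g)⁆, L.e s⁆ (L.f t)

variable (L : LD g β η) (k : ℂ) (E : Type) [AddCommGroup E] [Module ℂ E]

/-- Currents of `g` of level `k` and ghosts, commuting with each other. -/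
structure FC extends BMod (k • L.form) E, CAR β E where
  Jb : ∀ (m n : ℤ) (x : g) (s : β) (v : E), J m x (b n s v) = b n s (J m x v)
  Jc : ∀ (m n : ℤ) (x : g) (s : β) (v : E), J m x (c n s v) = c n s (J m x v)
  smoothJ : toBMod.Smooth

/-- The same with a vacuum vector. -/
structure FVac extends FC L k E where
  vac : E
  J_vac : ∀ (m : ℤ) (x : g), 0 ≤ m → J m x vac = 0
  b_vac : ∀ (m : ℤ) (s : β), 0 ≤ m → b m s vac = 0
  c_vac : ∀ (m : ℤ) (s : β), 0 ≤ m → c m s vac = 0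

variable {L k E}

namespace FC

variable (X : FC L k E)

/-- `Ĵ_x(m) = J_x(m) + G_{π₊ ad x}(m)` -/
def Jh (m : ℤ) : g →ₗ[ℂ] E →ₗ[ℂ] E := X.J m + X.G m ∘ₗ L.adp

theorem Jh_apply (m : ℤ) (x : g) : X.Jh m x = X.J m x + X.G m (L.adp x) := rfl

/-- `ψ_y(m) = ∑_s (e_s|y) c_s(m)`, `y ∈ n₋`. -/
def psi (m : ℤ) : L.nL →ₗ[ℂ] E →ₗ[ℂ] E :=
  ∑ s, ((L.form (L.e s)) ∘ₗ L.jng).smulRight (X.c m s)

theorem psi_apply (m : ℤ) (y : L.nL) :
    X.psi m y = ∑ s, L.form (L.e s) ((y : L.bL) : g) • X.c m s := by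
  unfold psi
  rw [LinearMap.sum_apply]
  rfl

/-- `A_s(n) = Ĵ_{e_s}(n) + (F|e_s) δ_{n,-1}` -/
def A (n : ℤ) (s : β) : E →ₗ[ℂ] E :=
  X.Jh n (L.e s) + if n = -1 then L.form L.F (L.e s) • LinearMap.id else 0

/-- The terms of the differential, first form. -/
def QT (m : ℤ) : E →ₗ[ℂ] E :=
  ∑ s, (X.J (-1 - m) (L.e s) + (1 / 2 : ℂ) • X.G (-1 - m) (L.adp (L.e s))) ∘ₗ X.c m s

/-- The differential `Q = ∑_m ∑_s (J_{e_s}(-1-m) + ½ G_{ad e_s}(-1-m)) c_s(m) + ∑_s (F|e_s) c_s(0)`.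
-/
def Q : E →ₗ[ℂ] E := psum X.QT + ∑ s, L.form L.F (L.e s) • X.c 0 s

/-- The published form of the differential,
`Q = ∑_s ∑_m J_{e_s}(-1-m) c_s(m) - ½ ∑_{s,t,u} ([e_s,e_t]|f_u) ∑_{m,n} b_u(-2-m-n) c_s(m) c_t(n)
  + ∑_s (F|e_s) c_s(0)`. -/
def Qpub : E →ₗ[ℂ] E :=
  (∑ s, psum fun m : ℤ => X.J (-1 - m) (L.e s) ∘ₗ X.c m s) -
    (1 / 2 : ℂ) • (∑ s, ∑ t, ∑ u, psum fun p : ℤ × ℤ => L.form ⁅L.e s, L.e t⁆ (L.f u) •
      (X.b (-2 - p.1 - p.2) u ∘ₗ X.c p.1 s ∘ₗ X.c p.2 t)) +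
    ∑ s, L.form L.F (L.e s) • X.c 0 s

end FC

/-- The relations without local finiteness (used in the universal property). -/
structure FR (L : LD g β η) (k : ℂ) (E : Type) [AddCommGroup E] [Module ℂ E] extends
    BMod (k • L.form) E where
  b : ℤ → β → E →ₗ[ℂ] E
  c : ℤ → β → E →ₗ[ℂ] E
  bb : ∀ (m n : ℤ) (s t : β) (x : E), b m s (b n t x) + b n t (b m s x) = 0
  cc : ∀ (m n : ℤ) (s t : β) (x : E), c m s (c n t x) + c n t (c m s x) = 0
  bc : ∀ (m n : ℤ) (s t : β) (x : E), b m s (c n t x) + c n t (b m s x) =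
    if s = t ∧ m + n + 1 = 0 then x else 0
  Jb : ∀ (m n : ℤ) (x : g) (s : β) (v : E), J m x (b n s v) = b n s (J m x v)
  Jc : ∀ (m n : ℤ) (x : g) (s : β) (v : E), J m x (c n s v) = c n s (J m x v)
  vac : E
  J_vac : ∀ (m : ℤ) (x : g), 0 ≤ m → J m x vac = 0
  b_vac : ∀ (m : ℤ) (s : β), 0 ≤ m → b m s vac = 0
  c_vac : ∀ (m : ℤ) (s : β), 0 ≤ m → c m s vac = 0

/-- Homomorphisms. -/
structure FR.IsHom {E' : Type} [AddCommGroup E'] [Module ℂ E'] (X : FR L k E) (X' : FR L k E')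
    (f : E →ₗ[ℂ] E') : Prop where
  vac : f X.vac = X'.vac
  J : ∀ (m : ℤ) (x : g) (v : E), f (X.J m x v) = X'.J m x (f v)
  b : ∀ (m : ℤ) (s : β) (v : E), f (X.b m s v) = X'.b m s (f v)
  c : ∀ (m : ℤ) (s : β) (v : E), f (X.c m s v) = X'.c m s (f v)

/-- The universal property. -/
def FR.Univ (X : FR L k E) : Prop :=
  ∀ (E' : Type) [AddCommGroup E'] [Module ℂ E'] (X' : FR L k E'),
    ∃ f : E →ₗ[ℂ] E', X.IsHom X' f ∧ ∀ f' : E →ₗ[ℂ] E', X.IsHom X' f' → f' = f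

/-- `FVac` as `FR`. -/
def FVac.toFR (X : FVac L k E) : FR L k E where
  toBMod := X.toBMod
  b := X.b
  c := X.c
  bb := X.bb
  cc := X.cc
  bc := X.bc
  Jb := X.Jb
  Jc := X.Jc
  vac := X.vac
  J_vac := X.J_vac
  b_vac := X.b_vac
  c_vac := X.c_vac

/-- A product of operators. -/
def opw {E : Type} [AddCommGroup E] [Module ℂ E] (l : List (E →ₗ[ℂ] E)) (v : E) : E :=
  l.foldr (fun T w => T w) v

namespace FVac

variable (X : FVac L k E)

section std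

variable {K U : Type} [LinearOrder K] [LinearOrder U] (eK : K ≃ ℕ × β) (eU : U ≃ ℕ × (β ⊕ η))

/-- The letters `b_s(-m-1)`. -/
def lP (i : K) : E →ₗ[ℂ] E := X.b (-((eK i).1 : ℤ) - 1) (eK i).2

/-- The letters `c_s(-m-1)`. -/
def lC (i : K) : E →ₗ[ℂ] E := X.c (-((eK i).1 : ℤ) - 1) (eK i).2

/-- The letters `J_{e_s}(-m-1)`. -/
def lE (i : K) : E →ₗ[ℂ] E := X.J (-((eK i).1 : ℤ) - 1) (L.e (eK i).2)

/-- The letters `A_s(-m-1)`. -/
def lA (i : K) : E →ₗ[ℂ] E := X.A (-((eK i).1 : ℤ) - 1) (eK i).2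

/-- The letters `J_u(-m-1)`, `u` in the basis `f s`, `h i` of `b₋`. -/
def lU (i : U) : E →ₗ[ℂ] E := X.J (-((eU i).1 : ℤ) - 1) (L.bb (eU i).2)

/-- The letters `Ĵ_u(-m-1)`. -/
def lUh (i : U) : E →ₗ[ℂ] E := X.Jh (-((eU i).1 : ℤ) - 1) (L.bb (eU i).2)

/-- The standard monomials: `J_e`-word, `J_u`-word, `b`-word, `c`-word, vacuum. -/
def vstd (w : (SL K × SL U) × (Finset K × Finset K)) : E :=
  opw (w.1.1.1.map (X.lE eK)) (opw (w.1.2.1.map (X.lU eU))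
    (opw ((w.2.1.sort (· ≤ ·)).map (X.lP eK)) (opw ((w.2.2.sort (· ≤ ·)).map (X.lC eK)) X.vac)))

end std

section hat

variable {K U : Type} [LinearOrder K] [LinearOrder U] (eK : K ≃ ℕ × β) (eU : U ≃ ℕ × (β ⊕ η))

/-- The monomials of `C₀`: `Ĵ_u`-word, `c`-word, vacuum. -/
def vC (w : SL U × Finset K) : E :=
  opw (w.1.1.map (X.lUh eU)) (opw ((w.2.sort (· ≤ ·)).map (X.lC eK)) X.vac)

/-- Their span. -/
def W0 : Submodule ℂ E := Submodule.span ℂ (Set.range (X.vC eK eU))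

end hat

/-- The standard monomials are a basis (for all orders on the letters). -/
def Std : Prop :=
  ∀ (K U : Type) [LinearOrder K] [LinearOrder U] (eK : K ≃ ℕ × β) (eU : U ≃ ℕ × (β ⊕ η)),
    LinearIndependent ℂ (X.vstd eK eU) ∧ ⊤ ≤ Submodule.span ℂ (Set.range (X.vstd eK eU))

/-- The grading of `E` by ghost number (`c` has ghost number `1`, `b` ghost number `-1`). -/
inductive Chg : ℤ → E → Prop
  | vac : Chg 0 X.vac
  | J {q : ℤ} {v : E} (m : ℤ) (x : g) : Chg q v → Chg q (X.J m x v)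
  | b {q : ℤ} {v : E} (m : ℤ) (s : β) : Chg q v → Chg (q - 1) (X.b m s v)
  | c {q : ℤ} {v : E} (m : ℤ) (s : β) : Chg q v → Chg (q + 1) (X.c m s v)
  | zero (q : ℤ) : Chg q 0
  | add {q : ℤ} {v w : E} : Chg q v → Chg q w → Chg q (v + w)
  | smul {q : ℤ} {v : E} (r : ℂ) : Chg q v → Chg q (r • v)

/-- The subspace of ghost number `q`. -/
def chg (q : ℤ) : Submodule ℂ E where
  carrier := {v | X.Chg q v}
  add_mem' := Chg.add
  zero_mem' := Chg.zero q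
  smul_mem' := fun r _ h => Chg.smul r h

/-- Stability under the operators `Ĵ_a(n)` (`a ∈ b₋`) and `c_s(n)`. -/
def Stab (W : Submodule ℂ E) : Prop :=
  (∀ (m : ℤ) (a : L.bL) (v : E), v ∈ W → X.Jh m (a : g) v ∈ W) ∧
    ∀ (m : ℤ) (s : β) (v : E), v ∈ W → X.c m s v ∈ W

/-- The subcomplex `C₀`: the smallest subspace which contains the vacuum and is stable under
`Ĵ_a(n)` (`a ∈ b₋`) and `c_s(n)`. -/
def C0 : Submodule ℂ E := sInf {W | X.vac ∈ W ∧ X.Stab W}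

end FVac

end fc

end

end WPE
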