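import Pool.Agent.WPE.FB3

/-! WPE, block FB: the formulas for `Q` and `Ĵ` as finite sums. -/

set_option linter.unusedSectionVars false

namespace WPE

open Filter

noncomputable section

section ev

variable {E E' : Type} [AddCommGroup E] [Module ℂ E] [AddCommGroup E'] [Module ℂ E']

theorem psum_ev {f : ℤ → E →ₗ[ℂ] E'} (hf : LF f) (v : E) :
    ∀ᶠ M : ℤ in atTop, psum f v = ∑ m ∈ Finset.Ico (-M) M, f m v := by
  obtain ⟨s, hs⟩ := hf.exists_finset v
  obtain ⟨N, hN⟩ : ∃ N : ℤ, ∀ x ∈ s, |x| < N := by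
    obtain ⟨N, hN⟩ := (s.image fun x => |x|).bddAbove
    exact ⟨N + 1, fun x hx => by
      have := hN (Finset.mem_coe.2 (Finset.mem_image_of_mem _ hx))
      omega⟩
  filter_upwards [eventually_ge_atTop N] with M hM
  refine psum_eq_sum hf v _ fun m hm => hs m fun h => hm ?_
  have h1 := abs_lt.1 (lt_of_lt_of_le (hN m h) hM)
  rw [Finset.mem_Ico]
  omega

theorem psum_ev2 {f : ℤ × ℤ → E →ₗ[ℂ] E'} (hf : LF f) (v : E) :
    ∀ᶠ M : ℤ in atTop, psum f v = ∑ m ∈ Finset.Ico (-M) M, ∑ n ∈ Finset.Ico (-M) M,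
      f (m, n) v := by
  obtain ⟨s, hs⟩ := hf.exists_finset v
  obtain ⟨N, hN⟩ : ∃ N : ℤ, ∀ x ∈ s, |x.1| < N ∧ |x.2| < N := by
    obtain ⟨N, hN⟩ := (s.image fun x => |x.1|).bddAbove
    obtain ⟨N', hN'⟩ := (s.image fun x => |x.2|).bddAbove
    refine ⟨max N N' + 1, fun x hx => ⟨?_, ?_⟩⟩
    · have := hN (Finset.mem_coe.2 (Finset.mem_image_of_mem _ hx))
      have h2 := le_max_left N N'
      omega
    · have := hN' (Finset.mem_coe.2 (Finset.mem_image_of_mem _ hx))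
      have h2 := le_max_right N N'
      omega
  filter_upwards [eventually_ge_atTop N] with M hM
  rw [← Finset.sum_product' (f := fun m n => f (m, n) v)]
  refine psum_eq_sum hf v _ fun m hm => hs m fun h => hm ?_
  have h1 := abs_lt.1 (lt_of_lt_of_le (hN m h).1 hM)
  have h2 := abs_lt.1 (lt_of_lt_of_le (hN m h).2 hM)
  rw [Finset.mem_product, Finset.mem_Ico, Finset.mem_Ico]
  omega

end ev

variable {g β η : Type} [LieRing g] [LieAlgebra ℂ g] [Fintype β] [DecidableEq β] [Fintype η]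
  [DecidableEq η] {L : LD g β η} {k : ℂ} {E : Type} [AddCommGroup E] [Module ℂ E]

namespace FC

variable (X : FC L k E)

theorem Q_ev (v : E) : ∀ᶠ M : ℤ in atTop, X.Q v =
    ∑ s, ∑ m ∈ Finset.Ico (-M) M, X.J (-1 - m) (L.e s) (X.c m s v) -
      (1 / 2 : ℂ) • ∑ s, ∑ t, ∑ u, ∑ m ∈ Finset.Ico (-M) M, ∑ n ∈ Finset.Ico (-M) M,
        L.form ⁅L.e s, L.e t⁆ (L.f u) • X.b (-2 - m - n) u (X.c m s (X.c n t v)) +
      ∑ s, L.form L.F (L.e s) • X.c 0 s v := by
  have h1 := eventually_all.2 fun s => psum_ev (X.lf_JC s) v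
  have h2 := eventually_all.2 fun s => eventually_all.2 fun t => eventually_all.2 fun u =>
    psum_ev2 (X.lf_bcc s t u) v
  filter_upwards [h1, h2] with M h1 h2
  rw [← X.Qpub_eq]
  unfold Qpub
  rw [LinearMap.add_apply, LinearMap.sub_apply, LinearMap.smul_apply, LinearMap.sum_apply,
    LinearMap.sum_apply, LinearMap.sum_apply]
  refine congrArg₂ _ (congrArg₂ _ (Finset.sum_congr rfl fun s _ => h1 s)
    (congrArg _ (Finset.sum_congr rfl fun s _ => ?_))) rfl
  rw [LinearMap.sum_apply]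
  refine Finset.sum_congr rfl fun t _ => ?_
  rw [LinearMap.sum_apply]
  exact Finset.sum_congr rfl fun u _ => h2 s t u

theorem Jh_ev (m : ℤ) (x : g) (v : E) : ∀ᶠ M : ℤ in atTop, X.Jh m x v = X.J m x v +
    ∑ t, ∑ s, L.form ⁅x, L.e s⁆ (L.f t) • (∑ r ∈ Finset.Ico 0 M, X.b (m - 1 - r) t (X.c r s v) -
      ∑ r ∈ Finset.Ico (-M) 0, X.c r s (X.b (m - 1 - r) t v)) := by
  have h1 := eventually_all.2 fun t => eventually_all.2 fun s => psum_ev (X.lf_no m t s) v
  filter_upwards [h1, eventually_ge_atTop 0] with M h1 hM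
  rw [Jh_apply, LinearMap.add_apply, CAR.G_eq, LinearMap.sum_apply]
  congr 1
  refine Finset.sum_congr rfl fun t _ => ?_
  rw [LinearMap.sum_apply]
  refine Finset.sum_congr rfl fun s _ => ?_
  rw [LinearMap.smul_apply, h1 t s]
  congr 1
  rw [← Finset.Ico_union_Ico_eq_Ico (show -M ≤ 0 by omega) hM,
    Finset.sum_union (Finset.Ico_disjoint_Ico_consecutive (-M) 0 M), add_comm, sub_eq_add_neg,
    ← Finset.sum_neg_distrib]
  refine congrArg₂ _ (Finset.sum_congr rfl fun r hr => ?_) (Finset.sum_congr rfl fun r hr => ?_)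
  · rw [Finset.mem_Ico] at hr
    unfold CAR.no
    rw [if_pos hr.1]
    rfl
  · rw [Finset.mem_Ico] at hr
    unfold CAR.no
    rw [if_neg (by omega)]
    rfl

end FC

end

end WPE
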