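import Pool.Agent.WPE.FDE

/-! WPE, block FD, row FD2: the derivative of `a_(n) b`. -/

open scoped TensorProduct
open WPQ.AF (IsFld)

namespace WPE

section

variable {E : Type} [AddCommGroup E] [Module ℂ E]

namespace FD2

theorem isFld_dz {b : ℤ → E →ₗ[ℂ] E} (hb : IsFld b) : IsFld (dz b) := by
  intro x
  obtain ⟨N, hN⟩ := hb x
  refine ⟨N + 1, fun n hn => ?_⟩
  unfold dz
  rw [LinearMap.smul_apply, hN _ (by omega), smul_zero]

theorem zpow_pred (n : ℤ) : (-1 : ℂ) ^ (n - 1) = -(-1 : ℂ) ^ n := by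
  have h : (-1 : ℂ) ^ n = (-1 : ℂ) ^ (n - 1) * (-1 : ℂ) ^ (1 : ℤ) := by
    rw [← zpow_add₀ (by norm_num : (-1 : ℂ) ≠ 0), sub_add_cancel]
  rw [h, zpow_one]
  ring

/-- Left part of the derivative. -/
theorem dz_L (n k : ℤ) (a : ℤ → E →ₗ[ℂ] E) {b : ℤ → E →ₗ[ℂ] E} (hb : IsFld b) (x : E) :
    (-(k : ℂ)) • nL n a b (k - 1) x =
      (-(n : ℂ)) • nL (n - 1) a b k x + nL n a (dz b) k x := by
  obtain ⟨N1, -, h1⟩ := nL_eq n a hb x
  obtain ⟨N2, -, h2⟩ := nL_eq (n - 1) a hb x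
  obtain ⟨N3, -, h3⟩ := nL_eq n a (isFld_dz hb) x
  obtain ⟨N, hN⟩ : ∃ N : ℕ, N1 - (k - 1) ≤ N ∧ N2 - k ≤ N ∧ N3 - k ≤ N :=
    ⟨(max (N1 - (k - 1)) (max (N2 - k) (N3 - k))).toNat, by omega, by omega, by omega⟩
  rw [h1 (k - 1) (N + 1) (by push_cast; omega), h2 k N hN.2.1,
    h3 k (N + 1) (by push_cast; omega), Finset.smul_sum, Finset.smul_sum, ← sub_eq_iff_eq_add,
    ← Finset.sum_sub_distrib, Finset.sum_range_succ']
  have h0 : (-(k : ℂ)) • cf n 0 • a (n - ((0 : ℕ) : ℤ)) (b (k - 1 + ((0 : ℕ) : ℤ)) x) -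
      cf n 0 • a (n - ((0 : ℕ) : ℤ)) (dz b (k + ((0 : ℕ) : ℤ)) x) = 0 := by
    unfold dz
    rw [LinearMap.smul_apply, map_smul]
    have e : k + ((0 : ℕ) : ℤ) - 1 = k - 1 + ((0 : ℕ) : ℤ) := by push_cast; ring
    rw [e, smul_smul, smul_smul, ← sub_smul]
    push_cast
    rw [show -(k : ℂ) * cf n 0 - cf n 0 * -((k : ℂ) + 0) = 0 by ring, zero_smul]
  rw [h0, add_zero]
  refine Finset.sum_congr rfl fun j _ => ?_
  unfold dz
  rw [LinearMap.smul_apply, map_smul]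
  have e1 : k + ((j + 1 : ℕ) : ℤ) - 1 = k + (j : ℤ) := by push_cast; ring
  have e2 : k - 1 + ((j + 1 : ℕ) : ℤ) = k + (j : ℤ) := by push_cast; ring
  have e3 : n - ((j + 1 : ℕ) : ℤ) = n - 1 - (j : ℤ) := by push_cast; ring
  rw [e1, e2, e3, smul_smul, smul_smul, smul_smul, ← sub_smul]
  congr 1
  have h4 := cf_succ_mul n j
  push_cast
  linear_combination h4

/-- Right part of the derivative. -/
theorem dz_R (n k : ℤ) {a : ℤ → E →ₗ[ℂ] E} (ha : IsFld a) (b : ℤ → E →ₗ[ℂ] E) (x : E) :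
    (-(k : ℂ)) • nR n a b (k - 1) x =
      (-(n : ℂ)) • nR (n - 1) a b k x + nR n a (dz b) k x := by
  obtain ⟨N1, h1⟩ := nR_eq n ha b x
  obtain ⟨N2, h2⟩ := nR_eq (n - 1) ha b x
  obtain ⟨N3, h3⟩ := nR_eq n ha (dz b) x
  obtain ⟨N, hN⟩ : ∃ N : ℕ, N1 ≤ N ∧ N2 ≤ N ∧ N3 ≤ N :=
    ⟨max N1 (max N2 N3), by omega, by omega, by omega⟩
  rw [h1 (k - 1) N hN.1, h2 k N hN.2.1, h3 k N hN.2.2, Finset.smul_sum, Finset.smul_sum,
    ← Finset.sum_add_distrib]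
  refine Finset.sum_congr rfl fun j _ => ?_
  unfold dz
  rw [LinearMap.smul_apply]
  have e1 : n + (k - 1) - (j : ℤ) = n + k - (j : ℤ) - 1 := by ring
  have e2 : n - 1 + k - (j : ℤ) = n + k - (j : ℤ) - 1 := by ring
  rw [e1, e2, smul_smul, smul_smul, smul_smul, ← add_smul, zpow_pred]
  congr 1
  have h4 := cf_sub_mul n j
  push_cast
  linear_combination (-1 : ℂ) ^ n * h4

theorem dz_left_L (n k : ℤ) (a : ℤ → E →ₗ[ℂ] E) {b : ℤ → E →ₗ[ℂ] E} (hb : IsFld b) (x : E) :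
    nL n (dz a) b k x = (-(n : ℂ)) • nL (n - 1) a b k x := by
  obtain ⟨N1, -, h1⟩ := nL_eq n (dz a) hb x
  obtain ⟨N2, -, h2⟩ := nL_eq (n - 1) a hb x
  obtain ⟨N, hN⟩ : ∃ N : ℕ, N1 - k ≤ N ∧ N2 - k ≤ N :=
    ⟨(max (N1 - k) (N2 - k)).toNat, by omega, by omega⟩
  rw [h1 k N hN.1, h2 k N hN.2, Finset.smul_sum]
  refine Finset.sum_congr rfl fun j _ => ?_
  unfold dz
  rw [LinearMap.smul_apply]
  have e1 : n - (j : ℤ) - 1 = n - 1 - (j : ℤ) := by ring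
  rw [e1, smul_smul, smul_smul]
  congr 1
  have h4 := cf_sub_mul n j
  push_cast
  linear_combination -h4

theorem dz_left_R (n k : ℤ) {a : ℤ → E →ₗ[ℂ] E} (ha : IsFld a) (b : ℤ → E →ₗ[ℂ] E) (x : E) :
    nR n (dz a) b k x = (-(n : ℂ)) • nR (n - 1) a b k x := by
  obtain ⟨N1, h1⟩ := nR_eq n (isFld_dz ha) b x
  obtain ⟨N2, h2⟩ := nR_eq (n - 1) ha b x
  obtain ⟨N, hN⟩ : ∃ N : ℕ, N1 ≤ N ∧ N2 ≤ N := ⟨max N1 N2, by omega, by omega⟩
  rw [h1 k (N + 1) (by omega), h2 k N hN.2, Finset.smul_sum, Finset.sum_range_succ']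
  have h0 : ((-1 : ℂ) ^ n * cf n 0) • b (n + k - ((0 : ℕ) : ℤ)) (dz a ((0 : ℕ) : ℤ) x) = 0 := by
    unfold dz
    rw [LinearMap.smul_apply]
    push_cast
    rw [neg_zero, zero_smul, map_zero, smul_zero]
  rw [h0, add_zero]
  refine Finset.sum_congr rfl fun j _ => ?_
  unfold dz
  rw [LinearMap.smul_apply, map_smul]
  have e1 : ((j + 1 : ℕ) : ℤ) - 1 = (j : ℤ) := by push_cast; ring
  have e2 : n + k - ((j + 1 : ℕ) : ℤ) = n - 1 + k - (j : ℤ) := by push_cast; ring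
  rw [e1, e2, smul_smul, smul_smul, zpow_pred]
  congr 1
  have h4 := cf_succ_mul n j
  push_cast
  linear_combination -(-1 : ℂ) ^ n * h4

end FD2

theorem fd_dz (n : ℤ) {a b : ℤ → E →ₗ[ℂ] E} (ha : IsFld a) (hb : IsFld b) :
    dz (nprod n a b) = (-(n : ℂ)) • nprod (n - 1) a b + nprod n a (dz b) := by
  funext k
  refine LinearMap.ext fun x => ?_
  have h1 := FD2.dz_L n k a hb x
  have h2 := FD2.dz_R n k ha b x
  have e1 : dz (nprod n a b) k x =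
      (-(k : ℂ)) • (nL n a b (k - 1) x - nR n a b (k - 1) x) := rfl
  have e2 : ((-(n : ℂ)) • nprod (n - 1) a b + nprod n a (dz b)) k x =
      (-(n : ℂ)) • (nL (n - 1) a b k x - nR (n - 1) a b k x) +
        (nL n a (dz b) k x - nR n a (dz b) k x) := rfl
  rw [e1, e2, smul_sub, h1, h2, smul_sub]
  abel

theorem fd_dz_left (n : ℤ) {a b : ℤ → E →ₗ[ℂ] E} (ha : IsFld a) (hb : IsFld b) :
    nprod n (dz a) b = (-(n : ℂ)) • nprod (n - 1) a b := by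
  funext k
  refine LinearMap.ext fun x => ?_
  have e1 : nprod n (dz a) b k x = nL n (dz a) b k x - nR n (dz a) b k x := rfl
  have e2 : ((-(n : ℂ)) • nprod (n - 1) a b) k x =
      (-(n : ℂ)) • (nL (n - 1) a b k x - nR (n - 1) a b k x) := rfl
  rw [e1, e2, FD2.dz_left_L n k a hb x, FD2.dz_left_R n k ha b x, smul_sub]

end

end WPE
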