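import Pool.Agent.WPE.FD1
import Pool.Agent.WPE.FD2
import Pool.Agent.WPQ.AF5

/-! WPE, block FB10: products of fields are built from products `a_(n) b`, `n ≥ 0`, derivatives and
normally ordered products; creation. -/

set_option linter.unusedSectionVars false

namespace WPE

open WPQ.AF (IsFld prodN IsNop Built der idF Loc Cov)

noncomputable section

namespace FBV

variable {E : Type} [AddCommGroup E] [Module ℂ E]

theorem cf_nat (n j : ℕ) : cf (n : ℤ) j = (-1 : ℂ) ^ j * (n.choose j : ℂ) := by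
  unfold cf
  rw [Ring.choose_natCast]
  push_cast
  rfl

theorem nprod_nat (n : ℕ) {a b : ℤ → E →ₗ[ℂ] E} (ha : IsFld a) (hb : IsFld b) :
    nprod (n : ℤ) a b = prodN n a b := by
  funext k
  refine LinearMap.ext fun x => ?_
  unfold nprod nL nR prodN
  rw [LinearMap.sub_apply, psum_eq_sum (lf_tL (n : ℤ) a hb k) x (Finset.range (n + 1)),
    psum_eq_sum (lf_tR (n : ℤ) ha b k) x (Finset.range (n + 1)),
    LinearMap.sum_apply, ← Finset.sum_flip (fun j => tR (n : ℤ) a b k j x),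
    ← Finset.sum_sub_distrib]
  · refine Finset.sum_congr rfl fun i hi => ?_
    have hi' : i ≤ n := by
      have := Finset.mem_range.1 hi
      omega
    unfold tL tR
    simp only [LinearMap.smul_apply, LinearMap.sub_apply, LinearMap.comp_apply]
    rw [cf_nat, cf_nat, smul_sub]
    have h1 : (((n - i : ℕ) : ℤ)) = (n : ℤ) - i := by omega
    rw [h1]
    have h2 : (n : ℤ) + k - (n - i) = k + i := by ring
    rw [h2]
    congr 1
    congr 1
    rw [Nat.choose_symm hi', ← mul_assoc, zpow_natCast, ← pow_add]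
    congr 1
    have h3 : n + (n - i) = i + 2 * (n - i) := by omega
    rw [h3, pow_add, pow_mul]
    norm_num
  · intro j hj
    rw [Finset.mem_range, not_lt] at hj
    unfold tR
    rw [cf_nat, Nat.choose_eq_zero_of_lt (by omega)]
    simp
  · intro j hj
    rw [Finset.mem_range, not_lt] at hj
    unfold tL
    rw [cf_nat, Nat.choose_eq_zero_of_lt (by omega)]
    simp

theorem nprod_neg_one {a b c : ℤ → E →ₗ[ℂ] E} (ha : IsFld a) (hb : IsFld b)
    (hc : IsNop a b c) : nprod (-1) a b = c := by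
  funext k
  refine LinearMap.ext fun x => ?_
  obtain ⟨N0, _, h0⟩ := nL_eq (-1) a hb x
  obtain ⟨N1, h1⟩ := nR_eq (-1) ha b x
  obtain ⟨M0, hM⟩ := hc k x
  unfold nprod
  rw [LinearMap.sub_apply, h0 k (max (N0 - k).toNat (max N1 M0)) (by
      have := Int.self_le_toNat (N0 - k)
      have := le_max_left (N0 - k).toNat (max N1 M0)
      omega),
    h1 k (max (N0 - k).toNat (max N1 M0)) (le_trans (le_max_left _ _) (le_max_right _ _)),
    hM (max (N0 - k).toNat (max N1 M0)) (le_trans (le_max_right _ _) (le_max_right _ _)),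
    ← Finset.sum_sub_distrib]
  refine Finset.sum_congr rfl fun j _ => ?_
  rw [FD1.cf_neg_one, one_smul, mul_one, zpow_neg_one]
  have h2 : (-1 : ℤ) + k - j = k - 1 - j := by ring
  rw [h2]
  norm_num

theorem built_neg {Gen : Set (ℤ → E →ₗ[ℂ] E)} (hf : ∀ f ∈ Gen, IsFld f) (k : ℕ)
    {b : ℤ → E →ₗ[ℂ] E} (hb : Built Gen b) : ∀ {a : ℤ → E →ₗ[ℂ] E}, Built Gen a →
      Built Gen (nprod (-1 - (k : ℤ)) a b) := by
  have fb : IsFld b := WPQ.AF.built_isFld hf hb
  induction k with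
  | zero =>
    intro a ha
    have fa : IsFld a := WPQ.AF.built_isFld hf ha
    obtain ⟨c, hc⟩ := WPQ.AF.nop_exists fa fb
    rw [Nat.cast_zero, sub_zero, nprod_neg_one fa fb hc]
    exact Built.nop a b c ha hb hc
  | succ k ih =>
    intro a ha
    have fa : IsFld a := WPQ.AF.built_isFld hf ha
    have h1 := fd_dz_left (-1 - (k : ℤ)) fa fb
    have e1 : (-1 - (k : ℤ)) - 1 = -1 - ((k + 1 : ℕ) : ℤ) := by push_cast; ring
    have e2 : (-((-1 - (k : ℤ) : ℤ) : ℂ)) = (k : ℂ) + 1 := by push_cast; ring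
    have hk : ((k : ℂ) + 1) ≠ 0 := by exact_mod_cast Nat.succ_ne_zero k
    rw [e1, e2] at h1
    have h2 : nprod (-1 - ((k + 1 : ℕ) : ℤ)) a b =
        ((k : ℂ) + 1)⁻¹ • nprod (-1 - (k : ℤ)) (dz a) b := by
      rw [h1, smul_smul, inv_mul_cancel₀ hk, one_smul]
    rw [h2]
    exact Built.smul _ _ (ih (Built.der a ha))

/-- The products of built fields are built. -/
theorem built_nprod {Gen : Set (ℤ → E →ₗ[ℂ] E)} (hf : ∀ f ∈ Gen, IsFld f) (n : ℤ)
    {a b : ℤ → E →ₗ[ℂ] E} (ha : Built Gen a) (hb : Built Gen b) : Built Gen (nprod n a b) := by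
  by_cases hn : 0 ≤ n
  · obtain ⟨m, rfl⟩ := Int.eq_ofNat_of_zero_le hn
    rw [nprod_nat m (WPQ.AF.built_isFld hf ha) (WPQ.AF.built_isFld hf hb)]
    exact Built.prod m a b ha hb
  · obtain ⟨k, rfl⟩ : ∃ k : ℕ, n = -1 - (k : ℤ) := ⟨(-1 - n).toNat, by omega⟩
    exact built_neg hf k hb ha

/-- `(a_(n) b)_k v = 0`, `k ≥ 0`, if `a_k v = b_k v = 0` for `k ≥ 0`. -/
theorem nprod_vac (n : ℤ) {a b : ℤ → E →ₗ[ℂ] E} (ha : IsFld a) (hb : IsFld b) {v : E}
    (hav : ∀ m : ℤ, 0 ≤ m → a m v = 0) (hbv : ∀ m : ℤ, 0 ≤ m → b m v = 0) (k : ℤ) (hk : 0 ≤ k) :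
    nprod n a b k v = 0 := by
  obtain ⟨N0, -, h0⟩ := nL_eq n a hb v
  obtain ⟨N1, h1⟩ := nR_eq n ha b v
  show nL n a b k v - nR n a b k v = 0
  rw [h0 k (N0 - k).toNat (Int.self_le_toNat _), h1 k N1 le_rfl, Finset.sum_eq_zero,
    Finset.sum_eq_zero, sub_zero]
  · intro j _
    rw [hav j (by omega), map_zero, smul_zero]
  · intro j _
    rw [hbv _ (by omega), map_zero, smul_zero]

/-- `(a_(n) b)_(-1) v = a_n b_(-1) v` -/
theorem nprod_create (n : ℤ) {a b : ℤ → E →ₗ[ℂ] E} (ha : IsFld a) (hb : IsFld b) {v : E}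
    (hav : ∀ m : ℤ, 0 ≤ m → a m v = 0) (hbv : ∀ m : ℤ, 0 ≤ m → b m v = 0) :
    nprod n a b (-1) v = a n (b (-1) v) := by
  obtain ⟨N0, -, h0⟩ := nL_eq n a hb v
  obtain ⟨N1, h1⟩ := nR_eq n ha b v
  show nL n a b (-1) v - nR n a b (-1) v = _
  rw [h0 (-1) ((N0 + 1).toNat + 1) (by omega), h1 (-1) N1 le_rfl, Finset.sum_range_succ',
    Finset.sum_eq_zero, Finset.sum_eq_zero, sub_zero, zero_add]
  · rw [cf_zero_right, one_smul, Nat.cast_zero, sub_zero, add_zero]
  · intro j _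
    rw [hav j (by omega), map_zero, smul_zero]
  · intro j _
    rw [hbv _ (by push_cast; omega), map_zero, smul_zero]

theorem idF_eq : idFld E = idF := rfl

end FBV

end

end WPE
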