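import Pool.Agent.WPE.FB1
import Pool.Agent.WPE.FB6
import Pool.Agent.WPQ.AFD

/-! WPE, block FB10: the translation operator of the full complex. -/

set_option linter.unusedSectionVars false

namespace WPE

open scoped TensorProduct
open WPQ.AF (IsFld prodN IsNop Built der idF Loc Cov)

noncomputable section

namespace CAR

variable {β : Type} [Fintype β] [DecidableEq β] {E : Type} [AddCommGroup E] [Module ℂ E]
  (X : CAR β E)

/-- The terms of the bilinear fields under a translation operator. -/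
theorem no_tr (T : E →ₗ[ℂ] E)
    (hb : ∀ n s v, T (X.b n s v) = X.b n s (T v) + (-(n : ℂ)) • X.b (n - 1) s v)
    (hc : ∀ n s v, T (X.c n s v) = X.c n s (T v) + (-(n : ℂ)) • X.c (n - 1) s v)
    (m : ℤ) (t s : β) (r : ℤ) :
    T ∘ₗ X.no m t s r = X.no m t s r ∘ₗ T + ((-((m : ℂ) - 1 - r)) • X.no (m - 1) t s r +
      (-(r : ℂ)) • X.no (m - 1) t s (r - 1)) := by
  ext v
  simp only [LinearMap.comp_apply, LinearMap.add_apply, LinearMap.smul_apply]
  have e1 : m - 1 - r - 1 = m - 1 - 1 - r := by ring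
  have e2 : m - 1 - 1 - (r - 1) = m - 1 - r := by ring
  have e3 : ((m - 1 - r : ℤ) : ℂ) = (m : ℂ) - 1 - r := by push_cast; ring
  unfold no
  rcases lt_trichotomy r 0 with h | h | h
  · rw [if_neg (by omega), if_neg (by omega), if_neg (by omega), e2]
    simp only [LinearMap.neg_apply, LinearMap.comp_apply, map_neg]
    rw [hc, hb, map_add, map_smul, e1, e3]
    module
  · subst h
    rw [if_pos (by omega), if_pos (by omega), if_neg (by omega)]
    simp only [LinearMap.neg_apply, LinearMap.comp_apply]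
    rw [hb, hc, map_add, map_smul, e1, e3]
    simp only [Int.cast_zero, neg_zero, zero_smul, add_zero]
  · rw [if_pos (by omega), if_pos (by omega), if_pos (by omega), e2]
    simp only [LinearMap.comp_apply]
    rw [hb, hc, map_add, map_smul, e1, e3]
    module

theorem lf_coef {f : ℤ → E →ₗ[ℂ] E} (hf : LF f) (c : ℤ → ℂ) : LF (fun r => c r • f r) := by
  refine LF.of_finset fun x => ?_
  obtain ⟨s, hs⟩ := hf.exists_finset x
  exact ⟨s, fun k hk => by rw [LinearMap.smul_apply, hs k hk, smul_zero]⟩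

theorem psum_no_tr (T : E →ₗ[ℂ] E)
    (hb : ∀ n s v, T (X.b n s v) = X.b n s (T v) + (-(n : ℂ)) • X.b (n - 1) s v)
    (hc : ∀ n s v, T (X.c n s v) = X.c n s (T v) + (-(n : ℂ)) • X.c (n - 1) s v)
    (m : ℤ) (t s : β) (v : E) :
    T (psum (X.no m t s) v) = psum (X.no m t s) (T v) + (-(m : ℂ)) • psum (X.no (m - 1) t s) v := by
  have hf := X.lf_no m t s
  have hg := X.lf_no (m - 1) t s
  have h1 : T ∘ₗ psum (X.no m t s) = psum (X.no m t s) ∘ₗ T +
      psum (fun r : ℤ => (-((m : ℂ) - 1 - r)) • X.no (m - 1) t s r +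
        (-(r : ℂ)) • X.no (m - 1) t s (r - 1)) := by
    have hl : LF (fun r : ℤ => (-((m : ℂ) - 1 - r)) • X.no (m - 1) t s r +
        (-(r : ℂ)) • X.no (m - 1) t s (r - 1)) :=
      (lf_coef hg _).add (lf_coef (hg.comp_equiv (Equiv.subRight 1)) _)
    rw [comp_psum hf, psum_comp hf, ← psum_add (hf.comp_right T) hl]
    congr 1
    funext r
    exact X.no_tr T hb hc m t s r
  have hl1 : LF (fun r : ℤ => (-((m : ℂ) - 1 - r)) • X.no (m - 1) t s r) := lf_coef hg _
  have hl3 : LF (fun r : ℤ => (-((r : ℂ) + 1)) • X.no (m - 1) t s r) := lf_coef hg _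
  have h2 : psum (fun r : ℤ => (-(r : ℂ)) • X.no (m - 1) t s (r - 1)) =
      psum (fun r : ℤ => (-((r : ℂ) + 1)) • X.no (m - 1) t s r) := by
    rw [← psum_equiv hl3 (Equiv.subRight 1)]
    congr 1
    funext r
    show _ = (-(((r - 1 : ℤ) : ℂ) + 1)) • X.no (m - 1) t s (r - 1)
    congr 1
    push_cast
    ring
  have h3 : psum (fun r : ℤ => (-((m : ℂ) - 1 - r)) • X.no (m - 1) t s r +
        (-(r : ℂ)) • X.no (m - 1) t s (r - 1)) = (-(m : ℂ)) • psum (X.no (m - 1) t s) := by
    have hl2 : LF (fun r : ℤ => (-(r : ℂ)) • X.no (m - 1) t s (r - 1)) :=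
      lf_coef (hg.comp_equiv (Equiv.subRight 1)) _
    rw [psum_add hl1 hl2, h2, ← psum_add hl1 hl3, ← psum_smul _ hg]
    congr 1
    funext r
    rw [← add_smul]
    congr 1
    ring
  have h4 := LinearMap.congr_fun h1 v
  rw [h3] at h4
  exact h4

/-- The bilinear fields under a translation operator. -/
theorem G_tr (T : E →ₗ[ℂ] E)
    (hb : ∀ n s v, T (X.b n s v) = X.b n s (T v) + (-(n : ℂ)) • X.b (n - 1) s v)
    (hc : ∀ n s v, T (X.c n s v) = X.c n s (T v) + (-(n : ℂ)) • X.c (n - 1) s v)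
    (m : ℤ) (M : Matrix β β ℂ) (v : E) :
    T (X.G m M v) = X.G m M (T v) + (-(m : ℂ)) • X.G (m - 1) M v := by
  rw [X.G_eq, X.G_eq]
  simp only [LinearMap.sum_apply, LinearMap.smul_apply, map_sum, map_smul, Finset.smul_sum]
  rw [← Finset.sum_add_distrib]
  refine Finset.sum_congr rfl fun t _ => ?_
  rw [← Finset.sum_add_distrib]
  refine Finset.sum_congr rfl fun s _ => ?_
  rw [X.psum_no_tr T hb hc m t s v, smul_add, smul_comm (M t s) (-(m : ℂ))]

end CAR

variable {g β η : Type} [LieRing g] [LieAlgebra ℂ g] [Fintype β] [DecidableEq β] [Fintype η]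
  [DecidableEq η] {L : LD g β η} {k : ℂ} {E : Type} [AddCommGroup E] [Module ℂ E]

namespace FVac

variable (X : FVac L k E)

/-- The translation operator. -/
structure IsTr (T : E →ₗ[ℂ] E) : Prop where
  vac : T X.vac = 0
  J : ∀ n x v, T (X.J n x v) = X.J n x (T v) + (-(n : ℂ)) • X.J (n - 1) x v
  b : ∀ n s v, T (X.b n s v) = X.b n s (T v) + (-(n : ℂ)) • X.b (n - 1) s v
  c : ∀ n s v, T (X.c n s v) = X.c n s (T v) + (-(n : ℂ)) • X.c (n - 1) s v

theorem IsTr.Jh {T : E →ₗ[ℂ] E} (hT : X.IsTr T) (n : ℤ) (x : g) (v : E) :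
    T (X.Jh n x v) = X.Jh n x (T v) + (-(n : ℂ)) • X.Jh (n - 1) x v := by
  rw [X.Jh_apply, X.Jh_apply]
  simp only [LinearMap.add_apply, map_add]
  rw [hT.J, X.toCAR.G_tr T hT.b hT.c]
  module

/-- A subspace which contains the vacuum and is stable under all modes is everything. -/
theorem ind_sub' (hX : X.Std) (W : Submodule ℂ E) (h0 : X.vac ∈ W)
    (hJ : ∀ m a v, v ∈ W → X.J m a v ∈ W) (hb : ∀ m s v, v ∈ W → X.b m s v ∈ W)
    (hc : ∀ m s v, v ∈ W → X.c m s v ∈ W) (v : E) : v ∈ W := by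
  let X' : FR L k W :=
    { J := fun m =>
        { toFun := fun a => (X.J m a).restrict (hJ m a)
          map_add' := fun a b => by
            ext v
            show X.J m (a + b) (v : E) = X.J m a (v : E) + X.J m b (v : E)
            rw [map_add]
            rfl
          map_smul' := fun r a => by
            ext v
            show X.J m (r • a) (v : E) = r • X.J m a (v : E)
            rw [map_smul]
            rfl }
      comm := fun m n a b v => Subtype.ext (X.comm m n a b v)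
      b := fun m s => (X.b m s).restrict (hb m s)
      c := fun m s => (X.c m s).restrict (hc m s)
      bb := fun m n s t v => Subtype.ext (X.bb m n s t v)
      cc := fun m n s t v => Subtype.ext (X.cc m n s t v)
      bc := fun m n s t v => Subtype.ext (by
        have h := X.bc m n s t (v : E)
        show X.b m s (X.c n t (v : E)) + X.c n t (X.b m s (v : E)) = _
        rw [h]
        split_ifs <;> rfl)
      Jb := fun m n a s v => Subtype.ext (X.Jb m n a s v)
      Jc := fun m n a s v => Subtype.ext (X.Jc m n a s v)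
      vac := ⟨X.vac, h0⟩
      J_vac := fun m a hm => Subtype.ext (X.J_vac m a hm)
      b_vac := fun m s hm => Subtype.ext (X.b_vac m s hm)
      c_vac := fun m s hm => Subtype.ext (X.c_vac m s hm) }
  obtain ⟨f, hf, -⟩ := hX.univ W X'
  obtain ⟨f0, h0', hu⟩ := hX.univ E X.toFR
  have hid : X.toFR.IsHom X.toFR LinearMap.id :=
    ⟨rfl, fun _ _ _ => rfl, fun _ _ _ => rfl, fun _ _ _ => rfl⟩
  have h1 : X.toFR.IsHom X.toFR (W.subtype ∘ₗ f) :=
    ⟨congrArg Subtype.val hf.vac, fun m a v => congrArg Subtype.val (hf.J m a v),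
      fun m s v => congrArg Subtype.val (hf.b m s v), fun m s v => congrArg Subtype.val (hf.c m s v)⟩
  have h2 : W.subtype ∘ₗ f = LinearMap.id := (hu _ h1).trans (hu _ hid).symm
  have h3 : ((f v : W) : E) = v := LinearMap.congr_fun h2 v
  rw [← h3]
  exact (f v).2

theorem IsTr.unique (hX : X.Std) {T T' : E →ₗ[ℂ] E} (h : X.IsTr T) (h' : X.IsTr T') : T = T' := by
  ext v
  refine X.ind_sub' hX (LinearMap.eqLocus T T') ?_ ?_ ?_ ?_ v
  · show T X.vac = T' X.vac
    rw [h.vac, h'.vac]
  · intro m a v hv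
    have hv' : T v = T' v := hv
    show T _ = T' _
    rw [h.J, h'.J, hv']
  · intro m s v hv
    have hv' : T v = T' v := hv
    show T _ = T' _
    rw [h.b, h'.b, hv']
  · intro m s v hv
    have hv' : T v = T' v := hv
    show T _ = T' _
    rw [h.c, h'.c, hv']

/-- The operator `(u, v) ↦ (a u, a v + r a' u)`. -/
def tw (a a' : E →ₗ[ℂ] E) (r : ℂ) : E × E →ₗ[ℂ] E × E :=
  a.prodMap a + r • (LinearMap.inr ℂ E E ∘ₗ a' ∘ₗ LinearMap.fst ℂ E E)

theorem tw_apply (a a' : E →ₗ[ℂ] E) (r : ℂ) (x : E × E) :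
    tw a a' r x = (a x.1, a x.2 + r • a' x.1) := by
  unfold tw
  simp only [LinearMap.add_apply, LinearMap.prodMap_apply, LinearMap.smul_apply,
    LinearMap.comp_apply, LinearMap.fst_apply, LinearMap.inr_apply]
  refine Prod.ext ?_ rfl
  show a x.1 + r • (0 : E) = a x.1
  rw [smul_zero, add_zero]

/-- The relations on `E × E`. -/
def dual (X : FR L k E) : FR L k (E × E) where
  J m :=
    { toFun := fun x => tw (X.J m x) (X.J (m - 1) x) (-(m : ℂ))
      map_add' := fun x y => by
        ext v <;> simp only [LinearMap.comp_apply, LinearMap.inl_apply, LinearMap.inr_apply,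
          LinearMap.add_apply, tw_apply, map_add, map_zero, smul_add, smul_zero, add_zero,
          zero_add, Prod.mk_add_mk]
      map_smul' := fun r x => by
        ext v <;> simp only [LinearMap.comp_apply, LinearMap.inl_apply, LinearMap.inr_apply,
          LinearMap.smul_apply, tw_apply, map_smul, map_zero, smul_zero, add_zero, zero_add,
          Prod.smul_mk, RingHom.id_apply, smul_comm r] }
  comm m n a b x := by
    have e1 : m + (n - 1) = m + n - 1 := by ring
    have e2 : m - 1 + n = m + n - 1 := by ring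
    have h1 := X.comm m n a b x.1
    have h2 := X.comm m n a b x.2
    have h3 := X.comm m (n - 1) a b x.1
    have h4 := X.comm (m - 1) n a b x.1
    rw [e1] at h3
    rw [e2] at h4
    simp only [LinearMap.coe_mk, AddHom.coe_mk, tw_apply, map_add, map_smul]
    refine Prod.ext h1 ?_
    show X.J m a (X.J n b x.2) + -(n : ℂ) • X.J m a (X.J (n - 1) b x.1) +
        -(m : ℂ) • X.J (m - 1) a (X.J n b x.1) -
      (X.J n b (X.J m a x.2) + -(m : ℂ) • X.J n b (X.J (m - 1) a x.1) +
        -(n : ℂ) • X.J (n - 1) b (X.J m a x.1)) =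
      X.J (m + n) ⁅a, b⁆ x.2 + -((m + n : ℤ) : ℂ) • X.J (m + n - 1) ⁅a, b⁆ x.1 +
        coc (k • L.form) m n a b • x.2
    have hc : (-(n : ℂ)) * coc (k • L.form) m (n - 1) a b +
        (-(m : ℂ)) * coc (k • L.form) (m - 1) n a b = 0 := by
      unfold coc
      by_cases h : m + n - 1 = 0
      · rw [if_pos (by omega), if_pos (by omega)]
        have hn : n = 1 - m := by omega
        subst hn
        push_cast
        ring
      · rw [if_neg (by omega), if_neg (by omega)]
        ring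
    have h5 : (-(n : ℂ)) • (X.J m a (X.J (n - 1) b x.1) - X.J (n - 1) b (X.J m a x.1)) +
        (-(m : ℂ)) • (X.J (m - 1) a (X.J n b x.1) - X.J n b (X.J (m - 1) a x.1)) =
        -((m + n : ℤ) : ℂ) • X.J (m + n - 1) ⁅a, b⁆ x.1 := by
      rw [h3, h4]
      have h6 : ((-(n : ℂ)) * coc (k • L.form) m (n - 1) a b +
        (-(m : ℂ)) * coc (k • L.form) (m - 1) n a b) • x.1 = 0 := by rw [hc, zero_smul]
      rw [add_smul, mul_smul, mul_smul] at h6
      push_cast
      linear_combination (norm := module) h6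
    linear_combination (norm := module) h2 + h5
  b m s := tw (X.b m s) (X.b (m - 1) s) (-(m : ℂ))
  c m s := tw (X.c m s) (X.c (m - 1) s) (-(m : ℂ))
  bb m n s t x := by
    have h1 := X.bb m n s t x.1
    have h2 := X.bb m n s t x.2
    have h3 := X.bb m (n - 1) s t x.1
    have h4 := X.bb (m - 1) n s t x.1
    simp only [tw_apply, map_add, map_smul]
    refine Prod.ext h1 ?_
    show X.b m s (X.b n t x.2) + -(n : ℂ) • X.b m s (X.b (n - 1) t x.1) +
        -(m : ℂ) • X.b (m - 1) s (X.b n t x.1) +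
      (X.b n t (X.b m s x.2) + -(m : ℂ) • X.b n t (X.b (m - 1) s x.1) +
        -(n : ℂ) • X.b (n - 1) t (X.b m s x.1)) = 0
    linear_combination (norm := module) h2 + (-(n : ℂ)) • h3 + (-(m : ℂ)) • h4
  cc m n s t x := by
    have h1 := X.cc m n s t x.1
    have h2 := X.cc m n s t x.2
    have h3 := X.cc m (n - 1) s t x.1
    have h4 := X.cc (m - 1) n s t x.1
    simp only [tw_apply, map_add, map_smul]
    refine Prod.ext h1 ?_
    show X.c m s (X.c n t x.2) + -(n : ℂ) • X.c m s (X.c (n - 1) t x.1) +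
        -(m : ℂ) • X.c (m - 1) s (X.c n t x.1) +
      (X.c n t (X.c m s x.2) + -(m : ℂ) • X.c n t (X.c (m - 1) s x.1) +
        -(n : ℂ) • X.c (n - 1) t (X.c m s x.1)) = 0
    linear_combination (norm := module) h2 + (-(n : ℂ)) • h3 + (-(m : ℂ)) • h4
  bc m n s t x := by
    have h1 := X.bc m n s t x.1
    have h2 := X.bc m n s t x.2
    have h3 := X.bc m (n - 1) s t x.1
    have h4 := X.bc (m - 1) n s t x.1
    simp only [tw_apply, map_add, map_smul]
    have hd : (-(n : ℂ)) • (if s = t ∧ m + (n - 1) + 1 = 0 then x.1 else 0) +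
        (-(m : ℂ)) • (if s = t ∧ m - 1 + n + 1 = 0 then x.1 else 0) = 0 := by
      by_cases h : s = t ∧ m + n = 0
      · rw [if_pos ⟨h.1, by omega⟩, if_pos ⟨h.1, by omega⟩, ← add_smul]
        have hn : n = -m := by omega
        subst hn
        push_cast
        rw [show -(-(m : ℂ)) + -(m : ℂ) = 0 by ring, zero_smul]
      · rw [if_neg (fun hc => h ⟨hc.1, by omega⟩), if_neg (fun hc => h ⟨hc.1, by omega⟩),
          smul_zero, smul_zero, add_zero]
    have h5 : (-(n : ℂ)) • (X.b m s (X.c (n - 1) t x.1) + X.c (n - 1) t (X.b m s x.1)) +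
        (-(m : ℂ)) • (X.b (m - 1) s (X.c n t x.1) + X.c n t (X.b (m - 1) s x.1)) = 0 := by
      rw [h3, h4]
      exact hd
    refine Prod.ext ?_ ?_
    · show X.b m s (X.c n t x.1) + X.c n t (X.b m s x.1) = _
      rw [h1]
      split_ifs <;> rfl
    · show X.b m s (X.c n t x.2) + -(n : ℂ) • X.b m s (X.c (n - 1) t x.1) +
          -(m : ℂ) • X.b (m - 1) s (X.c n t x.1) +
        (X.c n t (X.b m s x.2) + -(m : ℂ) • X.c n t (X.b (m - 1) s x.1) +
          -(n : ℂ) • X.c (n - 1) t (X.b m s x.1)) = _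
      have e : ((if s = t ∧ m + n + 1 = 0 then x else 0 : E × E)).2 =
          if s = t ∧ m + n + 1 = 0 then x.2 else 0 := by
        split_ifs <;> rfl
      rw [e]
      linear_combination (norm := module) h2 + h5
  Jb m n a s x := by
    have h2 := X.Jb m n a s x.2
    have h3 := X.Jb m (n - 1) a s x.1
    have h4 := X.Jb (m - 1) n a s x.1
    simp only [LinearMap.coe_mk, AddHom.coe_mk, tw_apply, map_add, map_smul]
    refine Prod.ext (X.Jb m n a s x.1) ?_
    show X.J m a (X.b n s x.2) + -(n : ℂ) • X.J m a (X.b (n - 1) s x.1) +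
        -(m : ℂ) • X.J (m - 1) a (X.b n s x.1) =
      X.b n s (X.J m a x.2) + -(m : ℂ) • X.b n s (X.J (m - 1) a x.1) +
        -(n : ℂ) • X.b (n - 1) s (X.J m a x.1)
    rw [h2, h3, h4]
    abel
  Jc m n a s x := by
    have h2 := X.Jc m n a s x.2
    have h3 := X.Jc m (n - 1) a s x.1
    have h4 := X.Jc (m - 1) n a s x.1
    simp only [LinearMap.coe_mk, AddHom.coe_mk, tw_apply, map_add, map_smul]
    refine Prod.ext (X.Jc m n a s x.1) ?_
    show X.J m a (X.c n s x.2) + -(n : ℂ) • X.J m a (X.c (n - 1) s x.1) +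
        -(m : ℂ) • X.J (m - 1) a (X.c n s x.1) =
      X.c n s (X.J m a x.2) + -(m : ℂ) • X.c n s (X.J (m - 1) a x.1) +
        -(n : ℂ) • X.c (n - 1) s (X.J m a x.1)
    rw [h2, h3, h4]
    abel
  vac := (X.vac, 0)
  J_vac m a hm := by
    show tw (X.J m a) (X.J (m - 1) a) (-(m : ℂ)) (X.vac, 0) = 0
    rw [tw_apply, X.J_vac m a hm, map_zero, zero_add]
    refine Prod.ext rfl ?_
    rcases eq_or_lt_of_le hm with h | h
    · show -(m : ℂ) • X.J (m - 1) a X.vac = 0
      rw [← h, Int.cast_zero, neg_zero, zero_smul]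
    · show -(m : ℂ) • X.J (m - 1) a X.vac = 0
      rw [X.J_vac (m - 1) a (by omega), smul_zero]
  b_vac m s hm := by
    rw [tw_apply, X.b_vac m s hm, map_zero, zero_add]
    refine Prod.ext rfl ?_
    rcases eq_or_lt_of_le hm with h | h
    · show -(m : ℂ) • X.b (m - 1) s X.vac = 0
      rw [← h, Int.cast_zero, neg_zero, zero_smul]
    · show -(m : ℂ) • X.b (m - 1) s X.vac = 0
      rw [X.b_vac (m - 1) s (by omega), smul_zero]
  c_vac m s hm := by
    rw [tw_apply, X.c_vac m s hm, map_zero, zero_add]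
    refine Prod.ext rfl ?_
    rcases eq_or_lt_of_le hm with h | h
    · show -(m : ℂ) • X.c (m - 1) s X.vac = 0
      rw [← h, Int.cast_zero, neg_zero, zero_smul]
    · show -(m : ℂ) • X.c (m - 1) s X.vac = 0
      rw [X.c_vac (m - 1) s (by omega), smul_zero]

/-- Existence of the translation operator. -/
theorem exists_tr (hX : X.Std) : ∃ T : E →ₗ[ℂ] E, X.IsTr T := by
  obtain ⟨f, hf, -⟩ := hX.univ (E × E) (dual X.toFR)
  obtain ⟨f0, h0, hu⟩ := hX.univ E X.toFR
  have hid : X.toFR.IsHom X.toFR LinearMap.id :=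
    ⟨rfl, fun _ _ _ => rfl, fun _ _ _ => rfl, fun _ _ _ => rfl⟩
  have h1 : X.toFR.IsHom X.toFR (LinearMap.fst ℂ E E ∘ₗ f) := by
    refine ⟨?_, ?_, ?_, ?_⟩
    · show (f X.vac).1 = X.vac
      rw [show f X.vac = (X.vac, 0) from hf.vac]
    · intro m a v
      show (f (X.J m a v)).1 = X.J m a (f v).1
      rw [show f (X.J m a v) = tw (X.J m a) (X.J (m - 1) a) (-(m : ℂ)) (f v) from hf.J m a v,
        tw_apply]
    · intro m s v
      show (f (X.b m s v)).1 = X.b m s (f v).1
      rw [show f (X.b m s v) = tw (X.b m s) (X.b (m - 1) s) (-(m : ℂ)) (f v) from hf.b m s v,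
        tw_apply]
    · intro m s v
      show (f (X.c m s v)).1 = X.c m s (f v).1
      rw [show f (X.c m s v) = tw (X.c m s) (X.c (m - 1) s) (-(m : ℂ)) (f v) from hf.c m s v,
        tw_apply]
  have h2 : LinearMap.fst ℂ E E ∘ₗ f = LinearMap.id := (hu _ h1).trans (hu _ hid).symm
  have h3 : ∀ v, (f v).1 = v := fun v => LinearMap.congr_fun h2 v
  refine ⟨LinearMap.snd ℂ E E ∘ₗ f, ?_, ?_, ?_, ?_⟩
  · show (f X.vac).2 = 0
    rw [show f X.vac = (X.vac, 0) from hf.vac]
  · intro m a v
    show (f (X.J m a v)).2 = X.J m a (f v).2 + (-(m : ℂ)) • X.J (m - 1) a v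
    rw [show f (X.J m a v) = tw (X.J m a) (X.J (m - 1) a) (-(m : ℂ)) (f v) from hf.J m a v,
      tw_apply, h3]
  · intro m s v
    show (f (X.b m s v)).2 = X.b m s (f v).2 + (-(m : ℂ)) • X.b (m - 1) s v
    rw [show f (X.b m s v) = tw (X.b m s) (X.b (m - 1) s) (-(m : ℂ)) (f v) from hf.b m s v,
      tw_apply, h3]
  · intro m s v
    show (f (X.c m s v)).2 = X.c m s (f v).2 + (-(m : ℂ)) • X.c (m - 1) s v
    rw [show f (X.c m s v) = tw (X.c m s) (X.c (m - 1) s) (-(m : ℂ)) (f v) from hf.c m s v,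
      tw_apply, h3]

end FVac

end

end WPE
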