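import Pool.Agent.WPE.FB9
import Pool.Agent.WPE.FBV1
import Pool.Agent.WPE.FBV2
import Pool.Agent.WPE.FD9
import Pool.Agent.WPQ.AF6

/-! WPE, block FB10: vertex operators on the full complex, products of cohomology classes. -/

set_option linter.unusedSectionVars false

namespace WPE

open scoped TensorProduct
open WPQ.AF (IsFld prodN IsNop Built der idF Loc LocP Cov)

noncomputable section

namespace FBV

variable {E : Type} [AddCommGroup E] [Module ℂ E]

theorem loc_two {a b c d : ℤ → E →ₗ[ℂ] E}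
    (h : ∀ (m n : ℤ) (v : E), a m (b n v) - b n (a m v) = c (m + n) v + (m : ℂ) • d (m + n) v) :
    Loc 2 a b := by
  intro m n
  have e1 : m + 2 + n = m + n + 2 := by ring
  have e2 : m + 2 - 1 + (n + 1) = m + n + 2 := by ring
  have e3 : m + 2 - 2 + (n + 2) = m + n + 2 := by ring
  ext v
  have h0 := h (m + 2) n v
  have h1 := h (m + 2 - 1) (n + 1) v
  have h2 := h (m + 2 - 2) (n + 2) v
  rw [e1] at h0
  rw [e2] at h1
  rw [e3] at h2
  simp only [Finset.sum_range_succ, Finset.sum_range_zero, zero_add, LinearMap.add_apply,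
    LinearMap.smul_apply, LinearMap.sub_apply, LinearMap.comp_apply, Nat.cast_zero, Nat.cast_one,
    Nat.cast_ofNat, sub_zero, add_zero, Nat.choose_zero_right, Nat.choose_one_right,
    Nat.choose_self, LinearMap.zero_apply, h0, h1, h2]
  push_cast
  module

section gmod

variable {B : Type} [LieRing B] [LieAlgebra ℂ B] {κ : B →ₗ[ℂ] B →ₗ[ℂ] ℂ}
variable {Y : Type} [AddCommGroup Y] [Module ℂ Y] [LieRingModule B Y] [LieModule ℂ B Y]
variable (X : GMod B Y κ E)

/-- The set of the currents. -/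
def Gen : Set (ℤ → E →ₗ[ℂ] E) := Set.range X.toBMod.cur

theorem gen_fld : ∀ f ∈ Gen X, IsFld f := by
  rintro _ ⟨a, rfl⟩
  exact X.smooth.isFld a

theorem gen_loc : ∀ f ∈ Gen X, ∀ f' ∈ Gen X, ∃ N, Loc N f f' := by
  rintro _ ⟨a, rfl⟩ _ ⟨b, rfl⟩
  refine ⟨2, loc_two (c := X.toBMod.cur ⁅a, b⁆)
    (d := fun n => if n = 0 then κ a b • LinearMap.id else 0) fun m n v => ?_⟩
  refine (X.comm m n a b v).trans ?_
  congr 1
  show coc κ m n a b • v = (m : ℂ) • (if m + n = 0 then κ a b • LinearMap.id else 0 : E →ₗ[ℂ] E) v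
  unfold coc
  split_ifs
  · rw [LinearMap.smul_apply, LinearMap.id_apply, mul_smul]
  · rw [zero_smul, LinearMap.zero_apply, smul_zero]

end gmod

end FBV

variable {g β η : Type} [LieRing g] [LieAlgebra ℂ g] [Fintype β] [DecidableEq β] [Fintype η]
  [DecidableEq η] {L : LD g β η} {k : ℂ} {E : Type} [AddCommGroup E] [Module ℂ E]

namespace FBV

variable {κ : L.bL →ₗ[ℂ] L.bL →ₗ[ℂ] ℂ} (Z : GMod L.bL L.nL κ E)

theorem Internal.Yh_built (w : VC κ L.nL) (hw : w ∈ cpart κ L.nL (TMod.triv L.bL) 0) :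
    Built (Gen Z) (Z.Yh w).1 := by
  let W : Submodule ℂ (VC κ L.nL) :=
    { carrier := {w | Built (Gen Z) (Z.Yh w).1}
      add_mem' := by
        intro a b ha hb
        have h := Built.add _ _ ha hb
        show Built (Gen Z) (Z.Yh (a + b)).1
        rw [map_add]
        exact h
      zero_mem' := by
        have h := Built.smul (0 : ℂ) idF (Built.one (Gen := Gen Z))
        show Built (Gen Z) (Z.Yh 0).1
        rw [map_zero]
        have e : (fun n => (0 : ℂ) • (idF n : E →ₗ[ℂ] E)) = ((0 : Fld E).1) := by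
          funext n
          rw [zero_smul]
          rfl
        rw [← e]
        exact h
      smul_mem' := by
        intro c a ha
        have h := Built.smul c _ ha
        show Built (Gen Z) (Z.Yh (c • a)).1
        rw [map_smul]
        exact h }
  have h : cpart κ L.nL (TMod.triv L.bL) 0 ≤ W := by
    refine FVac.cpart0_le W ?_ ?_
    · show Built (Gen Z) (Z.Yh (cvac κ L.nL)).1
      rw [Yh_vac]
      exact Built.one
    · intro m a u hu
      show Built (Gen Z) (Z.Yh ((cmod κ L.nL (TMod.triv L.bL)).J m a u)).1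
      rw [Yh_J]
      exact built_nprod (gen_fld Z) m (Built.gen _ ⟨a, rfl⟩) hu
  exact h hw

export Internal (Yh_built)

theorem Internal.Yh_create (v : E) (hv : ∀ (m : ℤ) (a : L.bL), 0 ≤ m → Z.J m a v = 0)
    (F : VC κ L.nL →ₗ[ℂ] E) (hF0 : F (cvac κ L.nL) = v)
    (hFJ : ∀ (m : ℤ) (a : L.bL) u, F ((cmod κ L.nL (TMod.triv L.bL)).J m a u) = Z.J m a (F u))
    (w : VC κ L.nL) (hw : w ∈ cpart κ L.nL (TMod.triv L.bL) 0) :
    (∀ n : ℤ, 0 ≤ n → (Z.Yh w).1 n v = 0) ∧ (Z.Yh w).1 (-1) v = F w := by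
  let W : Submodule ℂ (VC κ L.nL) :=
    { carrier := {w | (∀ n : ℤ, 0 ≤ n → (Z.Yh w).1 n v = 0) ∧ (Z.Yh w).1 (-1) v = F w}
      add_mem' := by
        rintro a b ⟨ha, ha'⟩ ⟨hb, hb'⟩
        constructor
        · intro n hn
          rw [map_add]
          show (Z.Yh a).1 n v + (Z.Yh b).1 n v = 0
          rw [ha n hn, hb n hn, add_zero]
        · rw [map_add, map_add]
          show (Z.Yh a).1 (-1) v + (Z.Yh b).1 (-1) v = _
          rw [ha', hb']
      zero_mem' := by
        constructor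
        · intro n hn
          rw [map_zero]
          rfl
        · rw [map_zero, map_zero]
          rfl
      smul_mem' := by
        rintro c a ⟨ha, ha'⟩
        constructor
        · intro n hn
          rw [map_smul]
          show c • (Z.Yh a).1 n v = 0
          rw [ha n hn, smul_zero]
        · rw [map_smul, map_smul]
          show c • (Z.Yh a).1 (-1) v = _
          rw [ha'] }
  have h : cpart κ L.nL (TMod.triv L.bL) 0 ≤ W := by
    refine FVac.cpart0_le W ⟨?_, ?_⟩ ?_
    · intro n hn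
      rw [Yh_vac]
      unfold idFld
      rw [if_neg (by omega)]
      rfl
    · rw [Yh_vac, hF0]
      unfold idFld
      rw [if_pos rfl]
      rfl
    · rintro m a u ⟨hu, hu'⟩
      have hc : ∀ n : ℤ, 0 ≤ n → Z.toBMod.cur a n v = 0 := fun n hn => hv n a hn
      constructor
      · intro n hn
        rw [Yh_J]
        exact nprod_vac m (Z.smooth.isFld a) (Z.Yh u).2 hc hu n hn
      · rw [Yh_J, nprod_create m (Z.smooth.isFld a) (Z.Yh u).2 hc hu, hu', hFJ]
        rfl
  exact h hw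

export Internal (Yh_create)

end FBV

namespace FVac

variable (X : FVac L k E)

/-- `a(z) = ∑ a(n) z^(-n-1)` is the vertex operator of the vector `x` (of even ghost number): a
field which is local with the currents and the ghosts, translation covariant, and creates `x`. -/
structure IsVO (T : E →ₗ[ℂ] E) (x : E) (a : ℤ → E →ₗ[ℂ] E) : Prop where
  fld : IsFld a
  locJ : ∀ y : g, ∃ N, Loc N a (fun n => X.J n y)
  locb : ∀ s : β, ∃ N, Loc N a (fun n => X.b n s)
  locc : ∀ s : β, ∃ N, Loc N a (fun n => X.c n s)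
  cov : Cov T T a
  vac : ∀ n : ℤ, 0 ≤ n → a n X.vac = 0
  create : a (-1) X.vac = x

variable {X}

theorem fld_b (s : β) : IsFld (fun n => X.b n s) := by
  intro v
  obtain ⟨M, hM⟩ := X.smooth v
  exact ⟨M, fun n hn => (hM n hn s).1⟩

theorem fld_c (s : β) : IsFld (fun n => X.c n s) := by
  intro v
  obtain ⟨M, hM⟩ := X.smooth v
  exact ⟨M, fun n hn => (hM n hn s).2⟩

theorem fld_J (y : g) : IsFld (fun n => X.J n y) := by
  intro v
  obtain ⟨M, hM⟩ := X.smoothJ v
  exact ⟨M, fun n hn => hM n hn y⟩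

/-- Vertex operators are unique. -/
theorem IsVO.unique (hX : X.Std) {T : E →ₗ[ℂ] E} (hT : X.IsTr T) {x : E}
    {a a' : ℤ → E →ₗ[ℂ] E} (h : X.IsVO T x a) (h' : X.IsVO T x a') : a = a' := by
  have hsub : ∀ {N N' : ℕ} {f : ℤ → E →ₗ[ℂ] E}, Loc N a f → Loc N' a' f →
      ∃ M, Loc M (fun n => a n + (-1 : ℂ) • a' n) f := by
    intro N N' f h1 h2
    exact ⟨max N N', LocP.add (LocP.mono (le_max_left _ _) h1)
      (LocP.smul (-1) (LocP.mono (le_max_right _ _) h2))⟩
  have hcov : Cov T T (fun n => a n + (-1 : ℂ) • a' n) := by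
    intro n
    have e1 := h.cov n
    have e2 := h'.cov n
    ext v
    have e3 := LinearMap.congr_fun e1 v
    have e4 := LinearMap.congr_fun e2 v
    simp only [LinearMap.sub_apply, LinearMap.comp_apply, LinearMap.smul_apply] at e3 e4
    simp only [LinearMap.sub_apply, LinearMap.comp_apply, LinearMap.smul_apply,
      LinearMap.add_apply, map_add, map_smul]
    linear_combination (norm := module) e3 - e4
  have h0 : ∀ n : ℤ, (a n + (-1 : ℂ) • a' n) X.vac = 0 := by
    refine WPQ.AF.vac_of_creation hcov X.vac hT.vac (fun n hn => ?_) ?_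
    · rw [LinearMap.add_apply, LinearMap.smul_apply, h.vac n hn, h'.vac n hn, smul_zero, add_zero]
    · rw [LinearMap.add_apply, LinearMap.smul_apply, h.create, h'.create]
      module
  have key : ∀ n : ℤ, a n + (-1 : ℂ) • a' n = 0 := by
    refine WPQ.AF.unique (Gen := {f | (∃ y : g, f = (fun n => X.J n y, fun n => X.J n y)) ∨
      (∃ s : β, f = (fun n => X.b n s, fun n => X.b n s)) ∨
      ∃ s : β, f = (fun n => X.c n s, fun n => X.c n s)}) ?_ X.vac ?_
      (fun n => a n + (-1 : ℂ) • a' n) ?_ h0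
    · rintro f (⟨y, rfl⟩ | ⟨s, rfl⟩ | ⟨s, rfl⟩)
      · exact fld_J y
      · exact fld_b s
      · exact fld_c s
    · intro W h0 hW
      rw [Submodule.eq_top_iff']
      refine fun v => X.ind_sub' hX W h0 ?_ ?_ ?_ v
      · intro m y v hv
        exact hW _ (Or.inl ⟨y, rfl⟩) m v hv
      · intro m s v hv
        exact hW _ (Or.inr (Or.inl ⟨s, rfl⟩)) m v hv
      · intro m s v hv
        exact hW _ (Or.inr (Or.inr ⟨s, rfl⟩)) m v hv
    · rintro f (⟨y, rfl⟩ | ⟨s, rfl⟩ | ⟨s, rfl⟩)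
      · obtain ⟨N, hN⟩ := h.locJ y
        obtain ⟨N', hN'⟩ := h'.locJ y
        exact hsub hN hN'
      · obtain ⟨N, hN⟩ := h.locb s
        obtain ⟨N', hN'⟩ := h'.locb s
        exact hsub hN hN'
      · obtain ⟨N, hN⟩ := h.locc s
        obtain ⟨N', hN'⟩ := h'.locc s
        exact hsub hN hN'
  funext n
  have h1 := key n
  have h2 : a n = a' n + (a n + (-1 : ℂ) • a' n) := by module
  rw [h2, h1, add_zero]

variable (X)

/-- The fields of the vectors of `C00`. -/
theorem Internal.vo_Yh (hv κ : ℂ) (hκ : k + hv = κ) (hK : ∀ x y, L.trf x y = 2 * hv * L.form x y)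
    {T : E →ₗ[ℂ] E} (hT : X.IsTr T) (F : VC (L.kb κ) L.nL →ₗ[ℂ] E)
    (hF0 : F (cvac (L.kb κ) L.nL) = X.vac)
    (hFJ : ∀ (m : ℤ) (a : L.bL) u, F ((cmod (L.kb κ) L.nL (TMod.triv L.bL)).J m a u) =
      X.Jh m (a : g) (F u)) (w : VC (L.kb κ) L.nL)
    (hw : w ∈ cpart (L.kb κ) L.nL (TMod.triv L.bL) 0) :
    X.IsVO T (F w) ((X.gm hv κ hκ hK).Yh w).1 := by
  have hB := FBV.Yh_built (X.gm hv κ hκ hK) w hw
  have hcr := FBV.Yh_create (X.gm hv κ hκ hK) X.vac (fun m a hm => X.Jh_vac m (a : g) hm) F hF0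
    hFJ w hw
  have hloc : ∀ f : ℤ → E →ₗ[ℂ] E, (∀ f' ∈ FBV.Gen (X.gm hv κ hκ hK), ∃ N, Loc N f f') →
      ∃ N, Loc N ((X.gm hv κ hκ hK).Yh w).1 f := by
    intro f hf
    obtain ⟨N, hN⟩ := WPQ.AF.built_local (FBV.gen_fld _) (FBV.gen_loc _) hB f hf
    exact ⟨N, Loc.symm hN⟩
  refine ⟨((X.gm hv κ hκ hK).Yh w).2, fun y => hloc _ ?_, fun s => hloc _ ?_, fun s => hloc _ ?_,
    ?_, hcr.1, hcr.2⟩
  · rintro _ ⟨a, rfl⟩
    refine ⟨2, FBV.loc_two (c := fun n => X.J n ⁅y, (a : g)⁆)
      (d := fun n => if n = 0 then (k • L.form) y (a : g) • LinearMap.id else 0) fun m n v => ?_⟩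
    show X.J m y (X.Jh n (a : g) v) - X.Jh n (a : g) (X.J m y v) = _
    rw [X.Jh_apply]
    simp only [LinearMap.add_apply, map_add]
    have hG : X.J m y (X.G n (L.adp (a : g)) v) = X.G n (L.adp (a : g)) (X.J m y v) := by
      exact X.toCAR.G_comm X.toCAR (X.J m y) (fun n s x => X.Jb m n y s x)
        (fun n s x => X.Jc m n y s x) n (L.adp (a : g)) v
    have h1 := X.comm m n y (a : g) v
    rw [hG]
    have h2 : (m : ℂ) • (if m + n = 0 then (k • L.form) y (a : g) • LinearMap.id else 0 :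
        E →ₗ[ℂ] E) v = coc (k • L.form) m n y (a : g) • v := by
      unfold coc
      split_ifs
      · rw [LinearMap.smul_apply, LinearMap.id_apply, mul_smul]
      · rw [zero_smul, LinearMap.zero_apply, smul_zero]
    rw [h2, ← h1]
    abel
  · rintro _ ⟨a, rfl⟩
    refine ⟨2, FBV.loc_two (c := fun n => -∑ t, L.adp (a : g) t s • X.b n t) (d := 0)
      fun m n v => ?_⟩
    show X.b m s (X.Jh n (a : g) v) - X.Jh n (a : g) (X.b m s v) = _
    rw [X.Jh_apply]
    simp only [LinearMap.add_apply, map_add]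
    have h1 := X.toCAR.G_b n m (L.adp (a : g)) s v
    have h2 := X.Jb n m (a : g) s v
    have e : n + m = m + n := by ring
    rw [e] at h1
    rw [h2, LinearMap.neg_apply, LinearMap.sum_apply]
    simp only [LinearMap.smul_apply, Pi.zero_apply, LinearMap.zero_apply, smul_zero, add_zero]
    rw [← h1]
    abel
  · rintro _ ⟨a, rfl⟩
    refine ⟨2, FBV.loc_two (c := fun n => ∑ t, L.adp (a : g) s t • X.c n t) (d := 0)
      fun m n v => ?_⟩
    show X.c m s (X.Jh n (a : g) v) - X.Jh n (a : g) (X.c m s v) = _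
    rw [X.Jh_apply]
    simp only [LinearMap.add_apply, map_add]
    have h1 := X.toCAR.G_c n m (L.adp (a : g)) s v
    have h2 := X.Jc n m (a : g) s v
    have e : n + m = m + n := by ring
    rw [e] at h1
    rw [h2, LinearMap.sum_apply]
    simp only [LinearMap.smul_apply, Pi.zero_apply, LinearMap.zero_apply, smul_zero, add_zero]
    rw [← neg_eq_iff_eq_neg.2 h1]
    abel
  · refine WPQ.AF.built_cov (FBV.gen_fld _) T ?_ hB
    rintro _ ⟨a, rfl⟩ n
    ext v
    show T (X.Jh n (a : g) v) - X.Jh n (a : g) (T v) = (-(n : ℂ)) • X.Jh (n - 1) (a : g) v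
    rw [hT.Jh]
    abel

export Internal (vo_Yh)

end FVac

end

end WPE
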