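import Pool.Agent.WPE.FBV3
import Pool.Agent.WPE.FD13
import Pool.Agent.WPE.FD14

/-! WPE, block FB10: the vertex operators of the vectors of `C₀` on the full complex. -/

set_option linter.unusedSectionVars false

namespace WPE

open scoped TensorProduct

noncomputable section

variable {g β η : Type} [LieRing g] [LieAlgebra ℂ g] [Fintype β] [DecidableEq β] [Fintype η]
  [DecidableEq η] {L : LD g β η} {k : ℂ} {E : Type} [AddCommGroup E] [Module ℂ E]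

/-- `Q 1 = 0` on the vacuum complex. -/
theorem FBV.Internal.Q_v {κ : ℂ} {Q1 : VC (L.kb κ) L.nL →ₗ[ℂ] VC (L.kb κ) L.nL}
    (h1 : IsQ0 (L.kb κ) (QN.one (L.qd κ)) Q1) :
    (L.qd κ).Qd (R := LRep.triv L.bL) Q1 (cvac (L.kb κ) L.nL) = 0 := by
  have h2 : Q1 (cvac (L.kb κ) L.nL) = 0 := by
    have h := h1.n0 (1 : ℂ)
    have h3 : (QN.one (L.qd κ)).d (1 : ℂ) = 0 := rfl
    rw [h3, map_zero, map_zero] at h
    exact h
  have h3 : (cmod (L.kb κ) L.nL (TMod.ofRep (LRep.triv L.bL))).ψ 0 (L.qd κ).F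
      (cvac (L.kb κ) L.nL) = 0 := psi_cvac (L.kb κ) L.nL 0 (le_refl 0) (L.qd κ).F
  unfold QD.Qd
  rw [LinearMap.add_apply, h2, zero_add]
  exact h3

namespace FBV
export Internal (Q_v)
end FBV

namespace FVac

variable (X : FVac L k E)

/-- The fields of the vectors of `C₀`. -/
theorem Internal.vo_main (hX : X.Std) (hv κ : ℂ) (hκ : k + hv = κ)
    (hK : ∀ x y, L.trf x y = 2 * hv * L.form x y)
    {Q1 : VC (L.kb κ) L.nL →ₗ[ℂ] VC (L.kb κ) L.nL} (h1 : IsQ0 (L.kb κ) (QN.one (L.qd κ)) Q1)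
    (F : VC (L.kb κ) L.nL →ₗ[ℂ] E) (hF0 : F (cvac (L.kb κ) L.nL) = X.vac)
    (hFJ : ∀ (m : ℤ) (a : L.bL) u, F ((cmod (L.kb κ) L.nL (TMod.triv L.bL)).J m a u) =
      X.Jh m (a : g) (F u))
    (hFQ : ∀ u ∈ cpart (L.kb κ) L.nL (TMod.triv L.bL) 0,
      (L.qd κ).Qd (R := LRep.triv L.bL) Q1 u = 0 ↔ X.Q (F u) = 0)
    {T : E →ₗ[ℂ] E} (hT : X.IsTr T) (w : VC (L.kb κ) L.nL)
    (hw : w ∈ cpart (L.kb κ) L.nL (TMod.triv L.bL) 0) :
    ∃ a : ℤ → E →ₗ[ℂ] E, X.IsVO T (F w) a ∧ (∀ a', X.IsVO T (F w) a' → a' = a) ∧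
      (∀ (n q : ℤ) (v : E), X.Chg q v → X.Chg q (a n v)) ∧
      (X.Q (F w) = 0 → ∀ (n : ℤ) (v : E), X.Q (a n v) = a n (X.Q v)) ∧
      ∀ (n : ℤ), ∀ u ∈ cpart (L.kb κ) L.nL (TMod.triv L.bL) 0,
        ((cmod (L.kb κ) L.nL (TMod.triv L.bL)).Yh w).1 n u ∈
          cpart (L.kb κ) L.nL (TMod.triv L.bL) 0 ∧
        a n (F u) = F (((cmod (L.kb κ) L.nL (TMod.triv L.bL)).Yh w).1 n u) := by
  have hvo := X.vo_Yh hv κ hκ hK hT F hF0 hFJ w hw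
  refine ⟨_, hvo, fun a' ha' => ha'.unique hX hT hvo, ?_, ?_, fun n u hu => ⟨?_, ?_⟩⟩
  · intro n q v hv'
    exact Yh_stable (X.gm hv κ hκ hK) (X.chg q) (fun m a v hv' => X.Chg_Jh m (a : g) hv') w hw n v
      hv'
  · intro hq n v
    have hQd : (L.qd κ).Qd (R := LRep.triv L.bL) Q1 w = 0 := (hFQ w hw).2 hq
    have hbr := br_Q (br_qd L κ) (QN.one (L.qd κ)) (QN.one_ok _) h1
    have h := fd_derivation (X.gm hv κ hκ hK) (L.qd κ).Om (L.qd κ).Lk (L.qd κ).Fm X.Q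
      (fun m a v => X.Q_Jh hX hv κ hκ hK m a v) ((L.qd κ).Qd (R := LRep.triv L.bL) Q1)
      (fun m a u => hbr.2.2.2.1 m a u) (FBV.Q_v h1) w hw n v
    rw [hQd, map_zero] at h
    refine h.trans ?_
    show _ + (0 : E) = _
    rw [add_zero]
  · exact Yh_stable (cmod (L.kb κ) L.nL (TMod.triv L.bL))
      (cpart (L.kb κ) L.nL (TMod.triv L.bL) 0) (fun m a v hv' => cpart_J m a hv') w hw n u hu
  · exact (Yh_hom (cmod (L.kb κ) L.nL (TMod.triv L.bL)) (X.gm hv κ hκ hK) F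
      (fun m a v => hFJ m a v) w hw n u).symm

export Internal (vo_main)

end FVac

end

end WPE
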