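import Pool.Agent.WPE.FB6
import Pool.Agent.WPE.FBE
import Pool.Agent.WPE.FBR
import Pool.Agent.WPE.MZJ

/-! WPE, block FB: the theorem on the full BRST complex in the form for the reader. -/

set_option linter.unusedSectionVars false

namespace WPE

open WPQ MvPolynomial Filter


noncomputable section

variable {ι : Type} [Fintype ι] [DecidableEq ι] {A : Matrix ι ι ℤ} {p : ℕ}
variable {g : Type} [LieRing g] [LieAlgebra ℂ g] (hA : IsADE A) {G : Chevalley A g} {k : ℂ}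
variable {C : Type} [AddCommGroup C] [Module ℂ C] {E : Type} [AddCommGroup E] [Module ℂ E]

/-- The fields as `FR`. -/
def BrstFields.toFR (X : BrstFields G k C) : FR (G.toLD hA) k C where
  J := X.J
  comm := X.J_J
  b := X.b
  c := X.c
  bb := X.b_b
  cc := X.c_c
  bc := X.b_c
  Jb := X.J_b
  Jc := X.J_c
  vac := X.vac
  J_vac := X.J_vac
  b_vac := X.b_vac
  c_vac := X.c_vac

/-- `FR` as fields. -/
def BrstFields.ofFR (X : FR (G.toLD hA) k C) : BrstFields G k C where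
  J := X.J
  J_J := X.comm
  b := X.b
  c := X.c
  b_b := X.bb
  c_c := X.cc
  b_c := X.bc
  J_b := X.Jb
  J_c := X.Jc
  vac := X.vac
  J_vac := X.J_vac
  b_vac := X.b_vac
  c_vac := X.c_vac

theorem BrstFields.hom_iff (X : BrstFields G k C) (Y : BrstFields G k E) (f : C →ₗ[ℂ] E) :
    X.Hom Y f ↔ (X.toFR hA).IsHom (Y.toFR hA) f :=
  ⟨fun h => ⟨h.vac, h.J, h.b, h.c⟩, fun h => ⟨h.vac, h.J, h.b, h.c⟩⟩

theorem Brst.toFR_univ (X : Brst G k C) : (X.toBrstFields.toFR hA).Univ := by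
  intro E _ _ Y
  obtain ⟨f, hf, hu⟩ := X.univ E (BrstFields.ofFR hA Y)
  exact ⟨f, (X.toBrstFields.hom_iff hA _ f).1 hf, fun f' h' =>
    hu f' ((X.toBrstFields.hom_iff hA _ f').2 h')⟩

/-- Existence of the complex. -/
def FVac.toBrst (Y : FVac (G.toLD hA) k C) (h : Y.toFR.Univ) : Brst G k C where
  toBrstFields := BrstFields.ofFR hA Y.toFR
  univ := fun E _ _ X' => by
    obtain ⟨f, hf, hu⟩ := h E (X'.toFR hA)
    exact ⟨f, ⟨hf.vac, hf.J, hf.b, hf.c⟩, fun f' h' => hu f' ⟨h'.vac, h'.J, h'.b, h'.c⟩⟩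
  Q := Y.Q
  Q_eq := fun v => eventually_atTop.1 (Y.Q_ev v)
  Jh := Y.Jh
  Jh_eq := fun m a v => eventually_atTop.1 (Y.Jh_ev m a v)

theorem brst_exists (hA : IsADE A) (G : Chevalley A g) (k : ℂ) :
    ∃ (C : Type) (_ : AddCommGroup C) (_ : Module ℂ C), Nonempty (Brst G k C) := by
  obtain ⟨C, i1, i2, X, hX⟩ := FR.exists_univ (G.toLD hA) k
  obtain ⟨Y, hY, -⟩ := hX.std
  exact ⟨C, i1, i2, ⟨Y.toBrst hA (hY ▸ hX)⟩⟩

/-- Every complex comes from an `FVac`. -/
theorem Brst.exists_FV (X : Brst G k C) : ∃ Y : FVac (G.toLD hA) k C, Y.Std ∧ Y.J = X.J ∧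
    Y.b = X.b ∧ Y.c = X.c ∧ Y.vac = X.vac ∧ Y.Q = X.Q ∧ Y.Jh = X.Jh := by
  obtain ⟨Y, hY, hS⟩ := (X.toFR_univ hA).std
  have hJ : Y.J = X.J := congrArg (fun Z : FR (G.toLD hA) k C => Z.J) hY
  have hb : Y.b = X.b := congrArg (fun Z : FR (G.toLD hA) k C => Z.b) hY
  have hc : Y.c = X.c := congrArg (fun Z : FR (G.toLD hA) k C => Z.c) hY
  have hv : Y.vac = X.vac := congrArg (fun Z : FR (G.toLD hA) k C => Z.vac) hY
  refine ⟨Y, hS, hJ, hb, hc, hv, ?_, ?_⟩
  · refine LinearMap.ext fun v => ?_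
    obtain ⟨M, h1, h2⟩ := ((Y.Q_ev v).and (eventually_atTop.2 (X.Q_eq v))).exists
    rw [h1, h2, hJ, hb, hc]
    rfl
  · funext m
    refine LinearMap.ext fun a => LinearMap.ext fun v => ?_
    obtain ⟨M, h1, h2⟩ := ((Y.Jh_ev m a v).and (eventually_atTop.2 (X.Jh_eq m a v))).exists
    rw [h1, h2, hJ, hb, hc]
    rfl

theorem Brst.ghost_iff (X : Brst G k C) {Y : FVac (G.toLD hA) k C} (hJ : Y.J = X.J)
    (hb : Y.b = X.b) (hc : Y.c = X.c) (hv : Y.vac = X.vac) (q : ℤ) (v : C) :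
    X.Ghost q v ↔ Y.Chg q v := by
  constructor
  · intro h
    induction h with
    | vac => rw [← hv]; exact FVac.Chg.vac
    | J m x _ ih => rw [← hJ]; exact FVac.Chg.J m x ih
    | b m γ _ ih => rw [← hb]; exact FVac.Chg.b m γ ih
    | c m γ _ ih => rw [← hc]; exact FVac.Chg.c m γ ih
    | zero q => exact FVac.Chg.zero q
    | add _ _ ih ih' => exact FVac.Chg.add ih ih'
    | smul r _ ih => exact FVac.Chg.smul r ih
  · intro h
    induction h with
    | vac => rw [hv]; exact Ghost.vac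
    | J m x _ ih => rw [hJ]; exact Ghost.J m x ih
    | b m γ _ ih => rw [hb]; exact Ghost.b m γ ih
    | c m γ _ ih => rw [hc]; exact Ghost.c m γ ih
    | zero q => exact Ghost.zero q
    | add _ _ ih ih' => exact Ghost.add ih ih'
    | smul r _ ih => exact Ghost.smul r ih

end

end WPE
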