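import Pool.Agent.WPE.KPD
import Pool.Agent.WPE.MIR19

/-! [KPL] WPE, level `p`: `Υ'(ker Q ∩ X_ℂ) ⊆ V^G`. -/

set_option linter.unusedSectionVars false

namespace WPE

open scoped TensorProduct
open MvPolynomial WPQ
open WPE.LD (Car CarF fockGp miura Upsp NUp)

variable {g β ι : Type} [LieRing g] [LieAlgebra ℂ g] [Fintype β] [DecidableEq β] [Fintype ι]
  [DecidableEq ι] {L : LD g β ι} {A : Matrix ι ι ℤ} {p : ℕ}

/-- The trivial module: `Υ'` in `X_ℂ` and in the complex of the trivial `g`-module. -/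
theorem Internal.kp_tv (K : L.Car A p) (x : VC (L.kb (p : ℂ)) L.nL) :
    Upsp K (NUp.zero L).c ((L.tv (p : ℂ)).cmap x) = miura K x := by
  have h : Upsp K (NUp.zero L).c ∘ₗ (L.tv (p : ℂ)).cmap = miura K := by
    refine Ind.hom_ext (X := (fockGp K).toBMod) ?_ (LD.miura_J K) ?_
    · intro m a y
      rw [LinearMap.comp_apply, LinearMap.comp_apply]
      refine (congrArg (Upsp K (NUp.zero L).c) ((L.tv (p : ℂ)).cmap_J m a y)).trans ?_
      exact LD.Upsp_J K (NUp.zero L).c m a ((L.tv (p : ℂ)).cmap y)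
    · intro v
      rw [LinearMap.comp_apply, CHom.cmap_incl, LD.Upsp_incl]
      exact (LD.miura_incl K v).symm
  exact LinearMap.congr_fun h x

export Internal (kp_tv)

/-- `Υ'(ker Q ∩ X_ℂ) ⊆ V^G`. -/
theorem Internal.kp_W (hp : 2 ≤ p) {sr : ι → β} (K : L.CarF A p sr) (ε : Cocycle A p)
    {Q1 : VC (L.kb (p : ℂ)) L.nL →ₗ[ℂ] VC (L.kb (p : ℂ)) L.nL}
    (h1 : IsQ0 (L.kb (p : ℂ)) (QN.one (L.qd (p : ℂ))) Q1)
    (u : VC (L.kb (p : ℂ)) L.nL)
    (hu : u ∈ cpart (L.kb (p : ℂ)) L.nL (TMod.triv L.bL) 0)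
    (hQ : (L.qd (p : ℂ)).Qd (R := LRep.triv L.bL) Q1 u = 0) :
    miura K.toCar u ∈ KK A p := by
  obtain ⟨Q0, h0⟩ := br_Q0 (br_qd L (p : ℂ))
    (L.qn (TrivialLieModule ℂ g ℂ) (p : ℂ))
    (br_qn L (p : ℂ) (TrivialLieModule ℂ g ℂ))
  have ha := mi_cmap_cpart (L.tv (p : ℂ)) 0 u hu
  have hb := MIR19.tv_Q L (p : ℂ) h1 h0 u hu
  rw [mi_MJ_KK K.ade ε]
  intro j
  rw [← kp_tv]
  have hF : L.form L.F (L.e (sr j)) = 1 := by
    rw [K.F_eq, map_sum, LinearMap.sum_apply, Finset.sum_eq_single j]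
    · rw [L.symm, L.ef, if_pos rfl]
    · intro k _ hk
      rw [L.symm, L.ef, if_neg]
      intro h
      exact hk (K.inj h.symm)
    · intro h
      exact absurd (Finset.mem_univ j) h
  refine kp_Ups_MJ hp K.toCar' ε j (sr j) (K.simp j) hF (NUp.zero L) h0 _ ha ?_
  rw [← hb, hQ, map_zero]

export Internal (kp_W)

end WPE
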