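import Pool.Agent.WPE.MIE

/-! [KPL] The Miura map of level `κ = p`.

`J_a(m)` acts on `M(1)` as `√p h(m)` if `h` is the component of `a ∈ b₋` in the Cartan subalgebra, that is
as `heis A p (cfp a) m 0` where `cfp a` are the coordinates of `h` in the basis `h_i` (the charges are
written in the basis `b_i = √p α_i`).  The ghosts act by `0`. -/

namespace WPE

open scoped TensorProduct
open MvPolynomial WPQ

noncomputable section

variable {g β ι : Type} [LieRing g] [LieAlgebra ℂ g] [Fintype β] [DecidableEq β] [Fintype ι]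
  [DecidableEq ι]

namespace LD

variable (L : LD g β ι)

/-- The coordinates of `h = π_h a` in the basis `h_i`. -/
def cfp : L.bL →ₗ[ℂ] ι → ℂ :=
  LinearMap.pi fun i => (L.form.flip (L.h' i)) ∘ₗ L.jb

theorem cfp_apply (a : L.bL) (i : ι) : L.cfp a i = L.form (a : g) (L.h' i) := rfl

theorem cfp_nm (a : L.bL) (ha : (a : g) ∈ L.nm) : L.cfp a = 0 := by
  funext i
  rw [cfp_apply, ((L.mem_nm_iff _).1 ha).2 i]
  rfl

theorem cfp_lie (a b : L.bL) : L.cfp ⁅a, b⁆ = 0 := L.cfp_nm _ (L.lie_bL_mem a b)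

theorem form_cfp (A : Matrix ι ι ℤ) (p : ℕ)
    (hh : ∀ i j, L.form (L.h i) (L.h j) = (A i j : ℂ)) (a b : L.bL) :
    WPQ.form A p (L.cfp a) (L.cfp b) = (p : ℂ) * L.form (a : g) (b : g) := by
  rw [L.form_bL A hh a b]
  rfl

/-- `M(1)` as a module over the affinization of `b₋` of level `p`. -/
def fockBp (A : Matrix ι ι ℤ) (hA : ∀ i j, A i j = A j i) (p : ℕ)
    (hh : ∀ i j, L.form (L.h i) (L.h j) = (A i j : ℂ)) :
    BMod (L.kb (p : ℂ)) (Fock ι) where
  J m := heisL A p m 0 ∘ₗ L.cfp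
  comm := by
    intro m n a b x
    show heis A p (L.cfp a) m 0 (heis A p (L.cfp b) n 0 x) -
      heis A p (L.cfp b) n 0 (heis A p (L.cfp a) m 0 x) =
      heis A p (L.cfp ⁅a, b⁆) (m + n) 0 x + coc (L.kb (p : ℂ)) m n a b • x
    have h1 := LinearMap.congr_fun (heis_heis A hA p (L.cfp a) (L.cfp b) 0 m n) x
    rw [LinearMap.sub_apply, LinearMap.comp_apply, LinearMap.comp_apply] at h1
    have h2 : heis A p (0 : ι → ℂ) (m + n) (0 : ι → ℂ) = 0 := by
      have := mi_heis_smul A p 0 (0 : ι → ℂ) (m + n) 0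
      rwa [zero_smul, zero_smul] at this
    rw [h1, cfp_lie, h2, LinearMap.zero_apply, zero_add, coc, L.form_cfp A p hh, kb_apply]
    split_ifs
    · rw [LinearMap.smul_apply, LinearMap.id_apply]
    · rw [LinearMap.zero_apply, zero_smul]

theorem fockBp_J (A : Matrix ι ι ℤ) (hA : ∀ i j, A i j = A j i) (p : ℕ)
    (hh : ∀ i j, L.form (L.h i) (L.h j) = (A i j : ℂ)) (m : ℤ) (a : L.bL) :
    (L.fockBp A hA p hh).J m a = heis A p (L.cfp a) m 0 := rfl

end LD

namespace LD

variable {L : LD g β ι} {A : Matrix ι ι ℤ} {p : ℕ} (K : L.Car A p)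

/-- `M(1)` with the currents (`n₋` acts by zero) and zero ghosts. -/
def fockGp (K : L.Car A p) : GMod L.bL L.nL (L.kb (p : ℂ)) (Fock ι) where
  toBMod := L.fockBp A K.ade.symm p K.hh
  ψ := 0
  commψ := by
    intro m n a y x
    simp
  anti := by
    intro m n y z x
    simp
  smooth := by
    intro f
    obtain ⟨M, hM⟩ := mi_heis_smooth A p 0 f
    exact ⟨M, fun m hm a => hM m hm _⟩
  smoothψ := fun x => ⟨0, fun m _ y => rfl⟩

theorem fockGp_J (m : ℤ) (a : L.bL) (f : Fock ι) :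
    (fockGp K).J m a f = heis A p (L.cfp a) m 0 f := rfl

theorem fockGp_ψ (m : ℤ) (y : L.nL) (f : Fock ι) : (fockGp K).ψ m y f = 0 := rfl

/-- A character of the `b₋`-module `N` that is zero on `b₋ N`. -/
structure Chrp (L : LD g β ι) {N : Type} [AddCommGroup N] [Module ℂ N] (R : LRep L.bL N) where
  l : N →ₗ[ℂ] ℂ
  hl : ∀ (a : L.bL) (v : N), l (R.ρ a v) = 0

variable {K} {N : Type} [AddCommGroup N] [Module ℂ N] {R : LRep L.bL N}

/-- The generating map `(v, w, t) ↦ l(v) 1`. -/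
def Chrp.gen (c : Chrp L R) : KN L.nL N →ₗ[ℂ] Fock ι :=
  (LinearMap.toSpanSingleton ℂ (Fock ι) 1) ∘ₗ c.l ∘ₗ LinearMap.fst ℂ _ _

theorem Chrp.gen_apply (c : Chrp L R) (v : KN L.nL N) : c.gen v = c.l v.1 • (1 : Fock ι) := rfl

theorem kp_heis_one (A : Matrix ι ι ℤ) (p : ℕ) (h : ι → ℂ) (m : ℕ) :
    heis A p h (m : ℤ) 0 (1 : Fock ι) = 0 := by
  by_cases hm : m = 0
  · subst hm
    unfold heis
    rw [if_neg (by simp), if_pos (by simp)]
    have h3 : WPQ.form A p h 0 = 0 := by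
      have := mi_form_smul_right A p 0 h 0
      rwa [zero_smul, zero_mul] at this
    rw [h3, zero_smul, LinearMap.zero_apply]
  · unfold heis
    rw [if_neg (by omega), if_neg (by omega), LinearMap.sum_apply]
    refine Finset.sum_eq_zero fun i _ => ?_
    rw [LinearMap.smul_apply]
    show _ • pderiv (R := ℂ) _ (1 : Fock ι) = 0
    rw [Derivation.map_one_eq_zero, smul_zero]

theorem Chrp.gen_equi (K : L.Car A p) (c : Chrp L R) (m : ℕ) (a : L.bL) (v : KN L.nL N) :
    (fockGp K).J m a (c.gen v) = c.gen ((TMod.gt L.nL (TMod.ofRep R)).toTMod.act m a v) := by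
  rw [fockGp_J, gt_act, c.gen_apply, c.gen_apply, map_smul, kp_heis_one, smul_zero]
  by_cases hm : m = 0
  · subst hm
    show _ = c.l ((TMod.ofRep R).act 0 a v.1) • (1 : Fock ι)
    rw [TMod.ofRep_zero, c.hl, zero_smul]
  · show _ = c.l ((TMod.ofRep R).act m a v.1) • (1 : Fock ι)
    rw [TMod.ofRep_pos _ _ hm, map_zero, zero_smul]

/-- The Miura map `Υ'` of level `p`. -/
def Upsp (K : L.Car A p) (c : Chrp L R) : CC (L.kb (p : ℂ)) L.nL (TMod.ofRep R) →ₗ[ℂ] Fock ι :=
  Ind.lift (fockGp K).toBMod c.gen (c.gen_equi K)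

theorem Internal.Upsp_incl (K : L.Car A p) (c : Chrp L R) (v : KN L.nL N) :
    Upsp K c (Ind.incl _ _ v) = c.l v.1 • (1 : Fock ι) := Ind.lift_incl _ v

export Internal (Upsp_incl)

theorem Internal.Upsp_J (K : L.Car A p) (c : Chrp L R) (m : ℤ) (a : L.bL)
    (x : CC (L.kb (p : ℂ)) L.nL (TMod.ofRep R)) :
    Upsp K c ((cmod (L.kb (p : ℂ)) L.nL (TMod.ofRep R)).J m a x) =
      heis A p (L.cfp a) m 0 (Upsp K c x) := Ind.lift_J _ m a x

export Internal (Upsp_J)

/-- The trivial character. -/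
def chr0p (L : LD g β ι) : Chrp L (LRep.triv L.bL) where
  l := LinearMap.id
  hl := fun _ _ => rfl

/-- The Miura map `Υ' : X_ℂ → M(1)` of level `p`. -/
def miura (K : L.Car A p) : VC (L.kb (p : ℂ)) L.nL →ₗ[ℂ] Fock ι := Upsp K (chr0p L)

theorem Internal.miura_incl (K : L.Car A p) (v : KN L.nL ℂ) :
    miura K (Ind.incl (L.kb (p : ℂ)) (TMod.gt L.nL (TMod.triv L.bL)).toTMod v) =
      v.1 • (1 : Fock ι) := Upsp_incl K (chr0p L) v

export Internal (miura_incl)

theorem Internal.miura_J (K : L.Car A p) (m : ℤ) (a : L.bL) (x : VC (L.kb (p : ℂ)) L.nL) :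
    miura K ((cmod (L.kb (p : ℂ)) L.nL (TMod.triv L.bL)).J m a x) =
      heis A p (L.cfp a) m 0 (miura K x) := Upsp_J K (chr0p L) m a x

export Internal (miura_J)

theorem miura_cvac (K : L.Car A p) : miura K (cvac _ _) = 1 := by
  refine (miura_incl K ((1 : ℂ), 0, 0)).trans ?_
  exact one_smul ℂ _

end LD

section levi

variable {L : LD g β ι} {A : Matrix ι ι ℤ} {p : ℕ}

/-- The trivial highest weight module with a character. -/
structure LD.NUp (L : LD g β ι) (N : Type) [AddCommGroup N] [Module ℂ N]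
    [LieRingModule g N] [LieModule ℂ g N] where
  v0 : N
  hw : L.HW N v0 (fun _ => 0)
  c : LD.Chrp L (L.rep N)
  c0 : c.l v0 = 1

variable {N : Type} [AddCommGroup N] [Module ℂ N] [LieRingModule g N]
  [LieModule ℂ g N] {j : β} {al : ι → ℂ}

theorem LD.cfp_fb (S : LD.Simp L j al) (a : L.bL) : (LD.levi S).cfp (LD.fb S a) = L.cfp a := by
  funext i
  rw [LD.cfp_apply, LD.cfp_apply, LD.fb_form_h']

theorem LD.Chrp.l_f (c : LD.Chrp L (L.rep N)) (b : β) (v : N) :
    c.l ⁅L.f b, v⁆ = 0 := c.hl (L.fB b) v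

theorem LD.Chrp.l_IN (c : LD.Chrp L (L.rep N)) (v : N) (hv : v ∈ LD.IN L j N) :
    c.l v = 0 := by
  unfold LD.IN at hv
  induction hv using Submodule.span_induction with
  | mem x hx =>
    obtain ⟨b, _, w, rfl⟩ := hx
    exact c.l_f b w
  | zero => exact map_zero _
  | add x y _ _ hx hy => rw [map_add, hx, hy, add_zero]
  | smul a x _ hx => rw [map_smul, hx, smul_zero]

/-- The character of `N^(j)`. -/
def LD.Chrp.levi (c : LD.Chrp L (L.rep N)) (S : LD.Simp L j al) :
    LD.Chrp (LD.levi S) ((LD.levi S).rep (LD.NQ S N)) where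
  l := (LD.INl S N).toSubmodule.liftQ c.l fun v hv => c.l_IN v hv
  hl := by
    intro a v
    obtain ⟨b, rfl⟩ := LD.fb_surj S a
    obtain ⟨w, rfl⟩ := LD.nq_surj S v
    have h : ((LD.levi S).rep (LD.NQ S N)).ρ (LD.fb S b) (LD.nq S N w) =
        LD.nq S N ⁅(b : g), w⁆ := (LD.nq_fb S b w).symm
    rw [h]
    show c.l ⁅(b : g), w⁆ = 0
    exact c.hl b w

theorem LD.Chrp.levi_nq (c : LD.Chrp L (L.rep N)) (S : LD.Simp L j al) (v : N) :
    (c.levi S).l (LD.nq S N v) = c.l v := rfl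

/-- The module `N^(j)`. -/
def LD.NUp.levi (M : LD.NUp L N) (S : LD.Simp L j al) : LD.NUp (LD.levi S) (LD.NQ S N) where
  v0 := LD.nq S N M.v0
  hw := LD.nq_HW S M.hw
  c := M.c.levi S
  c0 := M.c0

/-- `Υ' ∘ cmap = Υ`. -/
theorem LD.Internal.Upsp_cmap (K : L.Car A p) (c : LD.Chrp L (L.rep N)) (S : LD.Simp L j al)
    (x : CC (L.kb (p : ℂ)) L.nL (TMod.ofRep (L.rep N))) :
    LD.Upsp (K.levi S) (c.levi S) ((LD.toLev S (p : ℂ) N).cmap x) = LD.Upsp K c x := by
  have h : LD.Upsp (K.levi S) (c.levi S) ∘ₗ (LD.toLev S (p : ℂ) N).cmap = LD.Upsp K c := by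
    refine Ind.hom_ext (X := (LD.fockGp K).toBMod) ?_ (LD.Upsp_J K c) ?_
    · intro m a x
      exact ((congrArg (LD.Upsp (K.levi S) (c.levi S))
        ((LD.toLev S (p : ℂ) N).cmap_J m a x)).trans (LD.Upsp_J (K.levi S) (c.levi S) m
          (LD.fb S a) ((LD.toLev S (p : ℂ) N).cmap x))).trans
            (congrArg (fun t : ι → ℂ => heis A p t m 0 (LD.Upsp (K.levi S) (c.levi S)
              ((LD.toLev S (p : ℂ) N).cmap x))) (LD.cfp_fb S a))
    · intro v
      exact ((congrArg (LD.Upsp (K.levi S) (c.levi S))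
        (CHom.cmap_incl (LD.toLev S (p : ℂ) N) v)).trans (LD.Upsp_incl _ _ _)).trans
          (LD.Upsp_incl K c v).symm
  exact LinearMap.congr_fun h x

namespace LD

export Internal (Upsp_cmap)

end LD

/-- The trivial module. -/
def LD.NUp.zero (L : LD g β ι) : LD.NUp L (TrivialLieModule ℂ g ℂ) where
  v0 := (TrivialLieModule.equiv ℂ g ℂ).symm 1
  hw :=
    { e_v0 := fun b => trivial_lie_zero _ _ _ _
      h_v0 := fun i => by
        rw [trivial_lie_zero, zero_smul]
      gen := by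
        intro S h0 _
        rw [eq_top_iff]
        intro x _
        have h : x = (TrivialLieModule.equiv ℂ g ℂ x) •
            (TrivialLieModule.equiv ℂ g ℂ).symm (1 : ℂ) := by
          rw [← map_smul, smul_eq_mul, mul_one, LinearEquiv.symm_apply_apply]
        rw [h]
        exact S.smul_mem _ h0 }
  c :=
    { l := (TrivialLieModule.equiv ℂ g ℂ).toLinearMap
      hl := by
        intro a v
        have h1 : (L.rep (TrivialLieModule ℂ g ℂ)).ρ a v = 0 := by
          show ⁅(a : g), v⁆ = 0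
          exact trivial_lie_zero _ _ _ _
        rw [h1, map_zero] }
  c0 := LinearEquiv.apply_symm_apply _ _

end levi

end

end WPE
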