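import Pool.Agent.WPE.FD14
import Pool.Agent.WPE.KPA
import Pool.Agent.WPE.MIR1
import Pool.Agent.WPQ.VA4

/-! [KPL] WPE, level `p`: the fields of `X_ℂ` on `M(1)` are the modes of `Υ'(w)`. -/

set_option linter.unusedSectionVars false

namespace WPE

open scoped TensorProduct
open MvPolynomial WPQ
open WPE.LD (Car fockGp)
open WPQ.AF (IsFld)

noncomputable section

section fock

variable {g β ι : Type} [LieRing g] [LieAlgebra ℂ g] [Fintype β] [DecidableEq β] [Fintype ι]
  [DecidableEq ι] {L : LD g β ι} {A : Matrix ι ι ℤ} {p : ℕ}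

theorem KPB.nprod_zero {E : Type} [AddCommGroup E] [Module ℂ E] (n : ℤ) {b : ℤ → E →ₗ[ℂ] E}
    (hb : IsFld b) : nprod n 0 b = 0 := by
  have h := nprod_smul_left n (0 : ℂ) (a := 0) (b := b) (fun v => ⟨0, fun _ _ => rfl⟩) hb
  rw [zero_smul, zero_smul] at h
  exact h

theorem KPB.psiS_zero (K : L.Car A p) (x : Gh L.nL) : (fockGp K).psiS x = 0 := by
  induction x using Finsupp.induction_linear with
  | zero => exact map_zero _
  | add x y hx hy => rw [map_add, hx, hy, add_zero]
  | single k y =>
    refine Subtype.ext ?_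
    rw [GMod.psiS_single]
    exact KPB.nprod_zero _ isFld_id

/-- The modes of a current on `M(1)`. -/
theorem KPB.cur_single {ι : Type} [Fintype ι] [DecidableEq ι] {A : Matrix ι ι ℤ} {p : ℕ}
    (hA : IsADE A) (hp : 1 ≤ p) (ε : Cocycle A p) (a : ι → ℂ) (m : ℤ) (y : Fock ι) :
    mode ε (Finsupp.single 0 (osc a 0)) m (Finsupp.single 0 y) =
      Finsupp.single 0 (heis A p a m 0 y) := by
  rw [va4_mode_heis hA hp, fl3_heis_single, fl3_toC_zero]

/-- The modes of `a(m) u`. -/
theorem KPB.cur_nprod {ι : Type} [Fintype ι] [DecidableEq ι] {A : Matrix ι ι ℤ} {p : ℕ}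
    (hA : IsADE A) (hp : 1 ≤ p) (ε : Cocycle A p) (a : ι → ℂ) (m k : ℤ) (u v : VL ι) :
    mode ε (mode ε (Finsupp.single 0 (osc a 0)) m u) k v =
      nprod m (heisMode A p a) (mode ε u) k v := by
  rw [mi_nprod hA hp, va4_mode_heis hA hp]

/-- The fields of `X_ℂ` on `M(1)` are the modes of `Υ'(w)`. -/
theorem kp_Y (K : L.Car A p) (ε : Cocycle A p) (w : VC (L.kb (p : ℂ)) L.nL) (k : ℤ)
    (f : Fock ι) :
    mode ε (Finsupp.single 0 (LD.miura K w)) k (Finsupp.single 0 f) =
      Finsupp.single 0 (((fockGp K).Yh w).1 k f) := by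
  have hA := K.ade
  have hp := K.hp
  let W : Submodule ℂ (VC (L.kb (p : ℂ)) L.nL) :=
    { carrier := {w | ∀ (k : ℤ) (f : Fock ι),
        mode ε (Finsupp.single 0 (LD.miura K w)) k (Finsupp.single 0 f) =
          Finsupp.single 0 (((fockGp K).Yh w).1 k f)}
      add_mem' := by
        intro x y hx hy k f
        rw [map_add, Finsupp.single_add, mode_add hA hp, LinearMap.add_apply, hx k f, hy k f,
          map_add, ← Finsupp.single_add]
        rfl
      zero_mem' := by
        intro k f
        have h1 : mode ε (0 : VL ι) k = 0 := by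
          have := mode_smul hA hp ε (0 : ℂ) (0 : VL ι) k
          rwa [zero_smul, zero_smul] at this
        rw [map_zero, map_zero, Finsupp.single_zero, h1, LinearMap.zero_apply]
        symm
        exact Finsupp.single_zero 0
      smul_mem' := by
        intro c x hx k f
        rw [map_smul, map_smul, ← Finsupp.smul_single, mode_smul hA hp, LinearMap.smul_apply,
          hx k f, Finsupp.smul_single]
        rfl }
  have key : w ∈ W := by
    refine Ind.induction_sub W ?_ ?_ w
    · intro v k f
      rw [LD.miura_incl]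
      have h1 : (fockGp K).Yh (Ind.incl _ _ v) = (fockGp K).phiS v := by
        unfold GMod.Yh
        rw [dif_pos (fd_phi_equi (fockGp K))]
        exact Ind.lift_incl _ v
      rw [h1, GMod.phiS_apply, KPB.psiS_zero, add_zero]
      have h2 : (Finsupp.single 0 (v.1 • (1 : Fock ι)) : VL ι) = v.1 • vac := by
        rw [← Finsupp.smul_single]
        rfl
      rw [h2, mode_smul hA hp, mode_vac hA hp]
      show _ = Finsupp.single 0 (v.1 • (idFld (Fock ι) k f))
      unfold idFld
      by_cases hk : k = -1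
      · rw [if_pos hk, if_pos hk, LinearMap.smul_apply, LinearMap.id_apply, LinearMap.id_apply,
          Finsupp.smul_single]
      · rw [if_neg hk, if_neg hk, LinearMap.smul_apply, LinearMap.zero_apply,
          LinearMap.zero_apply, smul_zero, smul_zero, Finsupp.single_zero]
    · intro m a x hx k f
      have h0 : (Finsupp.single 0 (LD.miura K ((Ind.mod (L.kb (p : ℂ))
          (TMod.gt L.nL (TMod.triv L.bL)).toTMod).J m a x)) : VL ι) =
          mode ε (Finsupp.single 0 (osc (L.cfp a) 0)) m (Finsupp.single 0 (LD.miura K x)) :=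
        (congrArg (Finsupp.single 0) (LD.miura_J K m a x)).trans
          (KPB.cur_single hA hp ε (L.cfp a) m (LD.miura K x)).symm
      have h1 : ((fockGp K).Yh ((Ind.mod (L.kb (p : ℂ))
          (TMod.gt L.nL (TMod.triv L.bL)).toTMod).J m a x)).1 =
          nprod m ((fockGp K).toBMod.cur a) ((fockGp K).Yh x).1 :=
        Yh_J (fockGp K) m a x
      refine ((congrArg (fun u => mode ε u k (Finsupp.single 0 f)) h0).trans
        (KPB.cur_nprod hA hp ε (L.cfp a) m k _ _)).trans (Eq.trans (Eq.symm ?_)
          (congrArg (fun F => (Finsupp.single 0 (F k f) : VL ι)) h1).symm)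
      have hf1 : IsFld (heisMode A p (L.cfp a)) := by
        rw [← va4_mode_heis hA hp ε]
        exact (mode_spec hA hp ε _).field
      exact fd_hom (Finsupp.lsingle 0) m
        ((fockGp K).smooth.isFld a) ((fockGp K).Yh x).2 hf1
        (mode_spec hA hp ε _).field
        (fun n y => by
          rw [Finsupp.lsingle_apply, Finsupp.lsingle_apply, fl3_heis_single, fl3_toC_zero]
          rfl)
        (fun n y => (hx n y).symm) k f
  exact key k f

/-- The Miura map intertwines the fields. -/
theorem Internal.kp_YU (K : L.Car A p) (ε : Cocycle A p)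
    {N : Type} [AddCommGroup N] [Module ℂ N] {R : LRep L.bL N} (c : LD.Chrp L R)
    (w : VC (L.kb (p : ℂ)) L.nL)
    (hw : w ∈ cpart (L.kb (p : ℂ)) L.nL (TMod.triv L.bL) 0) (k : ℤ)
    (x : CC (L.kb (p : ℂ)) L.nL (TMod.ofRep R)) :
    Finsupp.single 0 (LD.Upsp K c (((cmod (L.kb (p : ℂ)) L.nL (TMod.ofRep R)).Yh w).1 k x)) =
      mode ε (Finsupp.single 0 (LD.miura K w)) k (Finsupp.single 0 (LD.Upsp K c x)) := by
  exact (congrArg (Finsupp.single 0)
    (Yh_hom (cmod (L.kb (p : ℂ)) L.nL (TMod.ofRep R)) (fockGp K) (LD.Upsp K c)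
      (fun m a y => LD.Upsp_J K c m a y) w hw k x)).trans
        (kp_Y K ε w k (LD.Upsp K c x)).symm

export Internal (kp_YU)

end fock

end

end WPE
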