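import Pool.Agent.WPE.BR15
import Pool.Agent.WPE.BR17
import Pool.Agent.WPE.KPB
import Pool.Agent.WPE.VGM

/-! [KPL] WPE, level `p`: `V^G = Υ'(ker Q ∩ X_ℂ)`, given generators. -/

set_option linter.unusedSectionVars false

namespace WPE

open scoped TensorProduct
open MvPolynomial WPQ
open WPE.LD (Car miura)

section main

variable {g β ι : Type} [LieRing g] [LieAlgebra ℂ g] [Fintype β] [DecidableEq β] [Fintype ι]
  [DecidableEq ι] {L : LD g β ι} {A : Matrix ι ι ℤ} {p : ℕ}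
variable {N : Type} [AddCommGroup N] [Module ℂ N] [LieRingModule g N] [LieModule ℂ g N]

namespace KPF

/-- `Υ(1) = 1`. -/
theorem ups_vac (K : L.Car A p) : miura K (cvac (L.kb (p : ℂ)) L.nL) = 1 := by
  exact LD.miura_cvac K

/-- `Q 1 = 0`. -/
theorem Internal.q_vac {Q1 : VC (L.kb (p : ℂ)) L.nL →ₗ[ℂ] VC (L.kb (p : ℂ)) L.nL}
    (h1 : IsQ0 (L.kb (p : ℂ)) (QN.one (L.qd (p : ℂ))) Q1) :
    (L.qd (p : ℂ)).Qd (R := LRep.triv L.bL) Q1 (cvac (L.kb (p : ℂ)) L.nL) = 0 := by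
  have h2 : Q1 (cvac (L.kb (p : ℂ)) L.nL) = 0 := by
    refine (h1.n0 (1 : ℂ)).trans ?_
    have h3 : (QN.one (L.qd (p : ℂ))).d (1 : ℂ) = 0 := rfl
    rw [h3, map_zero, map_zero]
    rfl
  have h4 : (cmod (L.kb (p : ℂ)) L.nL (TMod.triv L.bL)).ψ 0 (L.qd (p : ℂ)).F
      (cvac (L.kb (p : ℂ)) L.nL) = 0 := psi_cvac _ _ 0 le_rfl _
  show Q1 (cvac (L.kb (p : ℂ)) L.nL) + (cmod (L.kb (p : ℂ)) L.nL (TMod.triv L.bL)).ψ 0
    (L.qd (p : ℂ)).F (cvac (L.kb (p : ℂ)) L.nL) = 0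
  rw [h2, h4, add_zero]

export Internal (q_vac)

/-- The modes of `Υ(w)` on `Υ(u)`. -/
theorem Internal.md_ups (hA : IsADE A) (hp : 1 ≤ p) (K : L.Car A p) (ε : Cocycle A p)
    (w : VC (L.kb (p : ℂ)) L.nL)
    (hw : w ∈ cpart (L.kb (p : ℂ)) L.nL (TMod.triv L.bL) 0) (k : ℤ)
    (u : VC (L.kb (p : ℂ)) L.nL) :
    md ε (miura K w) k (miura K u) =
      miura K (((cmod (L.kb (p : ℂ)) L.nL (TMod.triv L.bL)).Yh w).1 k u) := by
  have h1 := kp_YU K ε (LD.chr0p L) w hw k u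
  have h2 := (vg_2 hA hp ε).single (miura K w) (miura K u) k
  have h3 := h1.trans h2
  exact (Finsupp.single_injective 0 h3).symm

export Internal (md_ups)

/-- The words are in the image. -/
theorem Internal.word (hA : IsADE A) (hp : 1 ≤ p) (K : L.Car A p) (ε : Cocycle A p)
    {Q1 : VC (L.kb (p : ℂ)) L.nL →ₗ[ℂ] VC (L.kb (p : ℂ)) L.nL}
    (h1 : IsQ0 (L.kb (p : ℂ)) (QN.one (L.qd (p : ℂ))) Q1)
    (w : ι → VC (L.kb (p : ℂ)) L.nL)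
    (hw : ∀ i, w i ∈ cpart (L.kb (p : ℂ)) L.nL (TMod.triv L.bL) 0)
    (hQ : ∀ i, (L.qd (p : ℂ)).Qd (R := LRep.triv L.bL) Q1 (w i) = 0)
    (l : List (ι × ℕ)) : ∃ u ∈ cpart (L.kb (p : ℂ)) L.nL (TMod.triv L.bL) 0,
      (L.qd (p : ℂ)).Qd (R := LRep.triv L.bL) Q1 u = 0 ∧
        miura K u = wo ε (fun i => miura K (w i)) l := by
  induction l with
  | nil => exact ⟨cvac _ _, cvac_mem _ _, q_vac h1, ups_vac K⟩
  | cons x l ih =>
    obtain ⟨u, hu, hu2, hu3⟩ := ih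
    refine ⟨((cmod (L.kb (p : ℂ)) L.nL (TMod.triv L.bL)).Yh (w x.1)).1 (-1 - (x.2 : ℤ)) u,
      ?_, ?_, ?_⟩
    · exact Yh_stable (cmod (L.kb (p : ℂ)) L.nL (TMod.triv L.bL))
        (cpart (L.kb (p : ℂ)) L.nL (TMod.triv L.bL) 0)
        (fun m a y hy => cpart_J m a hy) (w x.1) (hw x.1) _ u hu
    · have h2 := br_main (br_qd L (p : ℂ)) (QN.one (L.qd (p : ℂ)))
        (QN.one_ok (L.qd (p : ℂ))) h1 h1 (w x.1) (hw x.1) (hQ x.1) (-1 - (x.2 : ℤ)) u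
      exact h2.trans ((congrArg
        (((cmod (L.kb (p : ℂ)) L.nL (TMod.triv L.bL)).Yh (w x.1)).1 (-1 - (x.2 : ℤ))) hu2).trans
          (map_zero _))
    · rw [← md_ups hA hp K ε (w x.1) (hw x.1), hu3]
      rfl

export Internal (word)

end KPF

/-- `V^G = Υ'(ker Q ∩ X_ℂ)`, given generators. -/
theorem Internal.kp_KK (hp : 2 ≤ p) (K : L.Car A p) (ε : Cocycle A p)
    {Q1 : VC (L.kb (p : ℂ)) L.nL →ₗ[ℂ] VC (L.kb (p : ℂ)) L.nL}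
    (h1 : IsQ0 (L.kb (p : ℂ)) (QN.one (L.qd (p : ℂ))) Q1)
    (w : ι → VC (L.kb (p : ℂ)) L.nL)
    (hw : ∀ i, w i ∈ cpart (L.kb (p : ℂ)) L.nL (TMod.triv L.bL) 0)
    (hQ : ∀ i, (L.qd (p : ℂ)).Qd (R := LRep.triv L.bL) Q1 (w i) = 0)
    (P : ι → MvPolynomial ι ℂ) (d : ι → ℕ) (c : ℂ)
    (hG : Gens A p (fun i => miura K (w i)) P d) (hI : Inv A P d c) (f : Fock ι)
    (hf : f ∈ KK A p) : ∃ u ∈ cpart (L.kb (p : ℂ)) L.nL (TMod.triv L.bL) 0,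
      (L.qd (p : ℂ)).Qd (R := LRep.triv L.bL) Q1 u = 0 ∧ miura K u = f := by
  have h2 := vg_span hp ε (fun i => miura K (w i)) P d c hG hI f hf
  refine Submodule.span_induction
    (p := fun f _ => ∃ u ∈ cpart (L.kb (p : ℂ)) L.nL (TMod.triv L.bL) 0,
      (L.qd (p : ℂ)).Qd (R := LRep.triv L.bL) Q1 u = 0 ∧ miura K u = f) ?_ ?_ ?_ ?_ h2
  · rintro f' ⟨l, rfl⟩
    exact KPF.word K.ade K.hp K ε h1 w hw hQ l
  · exact ⟨0, Submodule.zero_mem _, map_zero _, map_zero _⟩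
  · rintro x y _ _ ⟨u, hu, hu2, hu3⟩ ⟨v, hv, hv2, hv3⟩
    refine ⟨u + v, Submodule.add_mem _ hu hv, ?_, ?_⟩
    · exact (map_add _ u v).trans (by rw [hu2, hv2, add_zero])
    · rw [map_add, hu3, hv3]
  · rintro r x _ ⟨u, hu, hu2, hu3⟩
    refine ⟨r • u, Submodule.smul_mem _ r hu, ?_, ?_⟩
    · exact (map_smul _ r u).trans (by rw [hu2, smul_zero])
    · rw [map_smul, hu3]

export Internal (kp_KK)

end main

end WPE
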