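import Pool.Agent.WPE.KDS
import Pool.Agent.WPE.KPE
import Pool.Agent.WPE.KPF

/-! [KPL] WPE, level `p`: the images under `Υ'` of the lifts `w_i ∈ ker Q` of `J_{z_i}(-1) 1` generate
`V^G`, and `V^G = Υ'(ker Q ∩ X_ℂ)`. -/

set_option autoImplicit false
set_option linter.unusedSectionVars false

namespace WPE

open MvPolynomial WPQ
open scoped TensorProduct
open WPE.LD (CarF miura)

noncomputable section

section main

variable {g β ι : Type} [LieRing g] [LieAlgebra ℂ g] [Fintype β] [DecidableEq β] [Fintype ι]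
  [DecidableEq ι] {L : LD g β ι} {A : Matrix ι ι ℤ} {p : ℕ}

/-- Lifts `w_i` of the `J_{z_i}(-1) 1` give generators of `V^G`. -/
theorem Internal.kp_gens (hp : 2 ≤ p) {sr : ι → β} (K : L.CarF A p sr) (ε : Cocycle A p)
    (hcard : Fintype.card β = (posRoots A).card)
    {Q1 : VC (L.kb (p : ℂ)) L.nL →ₗ[ℂ] VC (L.kb (p : ℂ)) L.nL}
    (h1 : IsQ0 (L.kb (p : ℂ)) (QN.one (L.qd (p : ℂ))) Q1)
    (z : ι → L.bL) (m : ι → ℕ) (hg : ∀ i, (z i : g) ∈ L.gr (-(m i : ℤ)))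
    (hli : LinearIndependent ℂ fun i => (z i : g)) (hm : ∑ i, m i = Fintype.card β)
    (w : ι → VC (L.kb (p : ℂ)) L.nL)
    (hw : ∀ i, L.Lift (p : ℂ) ((L.qd (p : ℂ)).Qd (R := LRep.triv L.bL) Q1) (z i) (m i) (w i)) :
    Gens A p (fun i => miura K.toCar (w i)) (fun i => ro ι (miura K.toCar (w i)))
      (fun i => m i + 1) ∧
      ∃ c, Inv A (fun i => ro ι (miura K.toCar (w i))) (fun i => m i + 1) c := by
  refine cl_gens K.ade (by omega) L (p : ℂ) ((L.qd (p : ℂ)).Qd (R := LRep.triv L.bL) Q1)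
    (L.Dop (p : ℂ) (LRep.triv L.bL) 0) ((L.vmod (p : ℂ)).J 0 L.rhoB)
    (KDS.Q_v L _ h1) (fun s a x _ => KDS.Q_J L _ h1 s a x) (fun x hx => KDS.Dop_mem L _ x hx)
    (KDS.Dop_v L _)
    (fun i a ha s x _ => KDS.Dop_J L _ i a ha s x) (KDS.rho_v L _)
    (fun i a ha s x _ => KDS.rho_J L _ i a ha _ x) m z hg hli (hm.trans hcard) w
    (fun i => (hw i).mem) (fun i => (hw i).ker) ?_ ?_ (miura K.toCar) 1
    one_ne_zero ?_ ?_ ?_ (fun i => kp_W hp K ε h1 (w i) (hw i).mem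
      (hw i).ker)
  · intro i
    have h := (hw i).deg
    push_cast
    exact h
  · intro i
    refine KDS.ge_span L _ (m i) _ (sub_mem (hw i).mem (cpart_J _ _ (cvac_mem _ _))) (hw i).low
  · exact LD.miura_cvac K.toCar
  · intro i s x _
    have h := LD.miura_J K.toCar (-(s : ℤ) - 1) (L.hB i) x
    refine h.trans ?_
    rw [KPC.cfp_hB]
    exact KDS.heis_single A p i _ s _ _
  · intro b s x _
    have h := LD.miura_J K.toCar (-(s : ℤ) - 1) (L.fB b) x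
    refine h.trans ?_
    rw [L.cfp_nm (L.fB b) (L.f_mem_nm b)]
    exact KDS.heis_zero A p s _ _

export Internal (kp_gens)

/-- `V^G` is the Miura image of `ker Q`, level `p`. -/
theorem Internal.kp_image (hp : 2 ≤ p) {sr : ι → β} (K : L.CarF A p sr)
    (hcard : Fintype.card β = (posRoots A).card)
    {Q1 : VC (L.kb (p : ℂ)) L.nL →ₗ[ℂ] VC (L.kb (p : ℂ)) L.nL}
    (h1 : IsQ0 (L.kb (p : ℂ)) (QN.one (L.qd (p : ℂ))) Q1) (f : Fock ι) :
    f ∈ KK A p ↔ ∃ u ∈ cpart (L.kb (p : ℂ)) L.nL (TMod.triv L.bL) 0,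
      (L.qd (p : ℂ)).Qd (R := LRep.triv L.bL) Q1 u = 0 ∧ miura K.toCar u = f := by
  obtain ⟨ε⟩ := cocycle_exists A K.ade p
  constructor
  · intro hf
    obtain ⟨z, m, hz, hg, hli, hsp, hm, -⟩ := la_exp L
    choose w hw using fun i => mk_lift L (p : ℂ) h1 ⟨z i, (hz i).1⟩ (m i)
      (hz i).2 (hg i)
    obtain ⟨hG, c, hI⟩ := kp_gens hp K ε hcard h1
      (fun i => ⟨z i, (hz i).1⟩) m hg hli hm w hw
    exact kp_KK hp K.toCar ε h1 w (fun i => (hw i).mem) (fun i => (hw i).ker) _ _ c hG hI f hf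
  · rintro ⟨u, hu, hQ, rfl⟩
    exact kp_W hp K ε h1 u hu hQ

export Internal (kp_image)

end main

end

end WPE
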