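import Pool.Agent.WPE.KMI4
import Pool.Agent.WPE.KPG

/-! [WPE-KMI5] The Miura maps are isomorphisms from `ker Q ∩ C⁰` onto `V^G`, level `p`. -/

set_option autoImplicit false
set_option linter.unusedSectionVars false

namespace WPE

open MvPolynomial WPQ
open scoped TensorProduct
open WPE.LD (Car CarF miura)

noncomputable section

variable {g β ι : Type} [LieRing g] [LieAlgebra ℂ g] [Fintype β] [DecidableEq β] [Fintype ι]
  [DecidableEq ι] {L : LD g β ι} {A : Matrix ι ι ℤ} {p : ℕ}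

/-- The Miura map of level `p` is injective on `ker Q ∩ C⁰`. -/
theorem Internal.kmi_miura (K : L.Car A p)
    {Q1 : VC (L.kb (p : ℂ)) L.nL →ₗ[ℂ] VC (L.kb (p : ℂ)) L.nL}
    (h1 : IsQ0 (L.kb (p : ℂ)) (QN.one (L.qd (p : ℂ))) Q1)
    (x : VC (L.kb (p : ℂ)) L.nL) (hx : x ∈ cpart (L.kb (p : ℂ)) L.nL (TMod.triv L.bL) 0)
    (hQ : (L.qd (p : ℂ)).Qd (R := LRep.triv L.bL) Q1 x = 0) (hm : miura K x = 0) : x = 0 := by
  refine LD.kmi_abs ((L.qd (p : ℂ)).Qd (R := LRep.triv L.bL) Q1) (KDS.Q_v L _ h1)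
    (fun s a x => KDS.Q_J L _ h1 s a x) (miura K) 1 one_ne_zero (LD.miura_cvac K) ?_ ?_ x hx hQ hm
  · intro i s x _
    have h := LD.miura_J K (-(s : ℤ) - 1) (L.hB i) x
    refine h.trans ?_
    rw [KPC.cfp_hB]
    exact KDS.heis_single A p i _ s _ _
  · intro b s x _
    have h := LD.miura_J K (-(s : ℤ) - 1) (L.fB b) x
    refine h.trans ?_
    rw [L.cfp_nm (L.fB b) (L.f_mem_nm b)]
    exact KDS.heis_zero A p s _ _

export Internal (kmi_miura)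

/-- **The Miura map of level `p` is a bijection from `ker Q ∩ C⁰` onto `V^G`.** -/
theorem Internal.kmi_bij (hp : 2 ≤ p) {sr : ι → β} (K : L.CarF A p sr)
    (hcard : Fintype.card β = (posRoots A).card)
    {Q1 : VC (L.kb (p : ℂ)) L.nL →ₗ[ℂ] VC (L.kb (p : ℂ)) L.nL}
    (h1 : IsQ0 (L.kb (p : ℂ)) (QN.one (L.qd (p : ℂ))) Q1) :
    Set.BijOn (miura K.toCar) {u | u ∈ cpart (L.kb (p : ℂ)) L.nL (TMod.triv L.bL) 0 ∧
      (L.qd (p : ℂ)).Qd (R := LRep.triv L.bL) Q1 u = 0} (KK A p : Set (Fock ι)) := by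
  refine ⟨?_, ?_, ?_⟩
  · rintro u ⟨hu, hQ⟩
    exact (kp_image hp K hcard h1 _).2 ⟨u, hu, hQ, rfl⟩
  · rintro u ⟨hu, hQ⟩ v ⟨hv, hQ'⟩ h
    refine sub_eq_zero.1 (kmi_miura K.toCar h1 (u - v) (sub_mem hu hv) ?_ ?_)
    · rw [map_sub, hQ, hQ', sub_zero]
    · rw [map_sub, h, sub_self]
  · intro f hf
    obtain ⟨u, hu, hQ, h⟩ := (kp_image hp K hcard h1 f).1 hf
    exact ⟨u, ⟨hu, hQ⟩, h⟩

export Internal (kmi_bij)

end

end WPE
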