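import Pool.Agent.WPE.FB9
import Pool.Agent.WPE.FBX
import Pool.Agent.WPE.KMI5
import Pool.Agent.WPE.MZP

/-! WPE, block FB: the theorem on the full BRST complex in the form for the reader. -/

set_option linter.unusedSectionVars false

namespace WPE

open WPQ MvPolynomial
open WPE.LD (miura)

noncomputable section

/-- Abstract form of the argument. -/
theorem brst_abs {C V M B : Type} [AddCommGroup C] [Module ℂ C] [AddCommGroup V] [Module ℂ V]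
    [AddCommGroup M] [Module ℂ M] {JC : ℤ → B → C →ₗ[ℂ] C} {JV : ℤ → B → V →ₗ[ℂ] V}
    {JM : ℤ → B → M →ₗ[ℂ] M} {vC : C} {vV : V} {vM : M} {P0 : Submodule ℂ V}
    (hind : ∀ W : Submodule ℂ V, vV ∈ W → (∀ m a u, u ∈ W → JV m a u ∈ W) → P0 ≤ W)
    (hv : vV ∈ P0) (hJ : ∀ m a, ∀ u ∈ P0, JV m a u ∈ P0)
    {VC : Submodule ℂ C} (hV1 : vC ∈ VC) (hV2 : ∀ m a, ∀ v ∈ VC, JC m a v ∈ VC)
    (hV3 : ∀ W : Submodule ℂ C, vC ∈ W → (∀ m a, ∀ v ∈ W, JC m a v ∈ W) → VC ≤ W)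
    {F : V →ₗ[ℂ] C} {R : C →ₗ[ℂ] V} {μ : V →ₗ[ℂ] M}
    (hF0 : F vV = vC) (hFJ : ∀ m a u, F (JV m a u) = JC m a (F u))
    (hμ0 : μ vV = vM) (hμJ : ∀ m a u, μ (JV m a u) = JM m a (μ u))
    (hRF : ∀ u ∈ P0, R (F u) = u) {Q : C →ₗ[ℂ] C} {Qd : V →ₗ[ℂ] V} {G0 Gm : C → Prop}
    (hRQ : ∀ y, Gm y → R (Q y) = 0) (hFc : ∀ u ∈ P0, G0 (F u))
    (hFk : ∀ u ∈ P0, Qd u = 0 ↔ Q (F u) = 0)
    (hsur : ∀ z, G0 z → Q z = 0 → ∃ u ∈ P0, Qd u = 0 ∧ ∃ y, Gm y ∧ z = F u + Q y)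
    {S : Set M} (hbij : Set.BijOn μ {u | u ∈ P0 ∧ Qd u = 0} S) :
    ((∀ y, Gm y → (μ ∘ₗ R) (Q y) = 0) ∧ (μ ∘ₗ R) vC = vM ∧
      ∀ m a, ∀ v ∈ VC, (μ ∘ₗ R) (JC m a v) = JM m a ((μ ∘ₗ R) v)) ∧
    (∀ Φ : C →ₗ[ℂ] M, (∀ y, Gm y → Φ (Q y) = 0) → Φ vC = vM →
      (∀ m a, ∀ v ∈ VC, Φ (JC m a v) = JM m a (Φ v)) →
      ∀ z, G0 z → Q z = 0 → Φ z = (μ ∘ₗ R) z) ∧
    (∀ f, f ∈ S ↔ ∃ z, G0 z ∧ Q z = 0 ∧ (μ ∘ₗ R) z = f) ∧
    ∀ z, G0 z → Q z = 0 → (μ ∘ₗ R) z = 0 → ∃ y, Gm y ∧ z = Q y := by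
  have hFV : ∀ u ∈ P0, F u ∈ VC := by
    intro u hu
    refine hind (VC.comap F) ?_ (fun m a w hw => ?_) hu
    · show F vV ∈ VC
      rw [hF0]
      exact hV1
    · show F (JV m a w) ∈ VC
      rw [hFJ]
      exact hV2 m a _ hw
  have hVF : ∀ v ∈ VC, ∃ u ∈ P0, F u = v := by
    intro v hv'
    refine hV3 (P0.map F) ⟨vV, hv, hF0⟩ (fun m a w hw => ?_) hv'
    obtain ⟨u, hu, rfl⟩ := hw
    exact ⟨JV m a u, hJ m a u hu, hFJ m a u⟩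
  have hΦF : ∀ Φ : C →ₗ[ℂ] M, Φ vC = vM → (∀ m a, ∀ v ∈ VC, Φ (JC m a v) = JM m a (Φ v)) →
      ∀ u ∈ P0, Φ (F u) = μ u := by
    intro Φ h0 h1 u hu
    have h := hind (P0 ⊓ LinearMap.ker (Φ ∘ₗ F - μ)) ⟨hv, by
      rw [SetLike.mem_coe, LinearMap.mem_ker, LinearMap.sub_apply, sub_eq_zero]
      show Φ (F vV) = μ vV
      rw [hF0, h0, hμ0]⟩ (by
      rintro m a w ⟨hw, hw'⟩
      refine ⟨hJ m a w hw, ?_⟩
      rw [SetLike.mem_coe, LinearMap.mem_ker, LinearMap.sub_apply, sub_eq_zero] at hw' ⊢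
      have hw2 : Φ (F w) = μ w := hw'
      show Φ (F (JV m a w)) = μ (JV m a w)
      rw [hFJ, h1 m a _ (hFV w hw), hw2, hμJ]) hu
    have h2 := h.2
    rw [SetLike.mem_coe, LinearMap.mem_ker, LinearMap.sub_apply, sub_eq_zero] at h2
    exact h2
  have hM0 : (μ ∘ₗ R) vC = vM := by
    show μ (R vC) = vM
    rw [← hF0, hRF vV hv, hμ0]
  have hMJ : ∀ m a, ∀ v ∈ VC, (μ ∘ₗ R) (JC m a v) = JM m a ((μ ∘ₗ R) v) := by
    intro m a v hv'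
    obtain ⟨u, hu, rfl⟩ := hVF v hv'
    show μ (R (JC m a (F u))) = JM m a (μ (R (F u)))
    rw [← hFJ, hRF _ (hJ m a u hu), hRF u hu, hμJ]
  have hMQ : ∀ y, Gm y → (μ ∘ₗ R) (Q y) = 0 := by
    intro y hy
    show μ (R (Q y)) = 0
    rw [hRQ y hy, map_zero]
  have hΦz : ∀ Φ : C →ₗ[ℂ] M, (∀ y, Gm y → Φ (Q y) = 0) → Φ vC = vM →
      (∀ m a, ∀ v ∈ VC, Φ (JC m a v) = JM m a (Φ v)) → ∀ u ∈ P0, ∀ y, Gm y →
      Φ (F u + Q y) = μ u := by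
    intro Φ h1 h2 h3 u hu y hy
    rw [map_add, h1 y hy, add_zero, hΦF Φ h2 h3 u hu]
  refine ⟨⟨hMQ, hM0, hMJ⟩, ?_, fun f => ⟨fun hf => ?_, ?_⟩, ?_⟩
  · intro Φ h1 h2 h3 z hz hz'
    obtain ⟨u, hu, -, y, hy, rfl⟩ := hsur z hz hz'
    rw [hΦz Φ h1 h2 h3 u hu y hy, hΦz _ hMQ hM0 hMJ u hu y hy]
  · obtain ⟨u, ⟨hu, hQu⟩, hux⟩ := hbij.surjOn hf
    exact ⟨F u, hFc u hu, (hFk u hu).1 hQu, by rw [hΦF _ hM0 hMJ u hu, hux]⟩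
  · rintro ⟨z, hz, hz', rfl⟩
    obtain ⟨u, hu, hu', y, hy, rfl⟩ := hsur z hz hz'
    rw [hΦz _ hMQ hM0 hMJ u hu y hy]
    exact hbij.mapsTo ⟨hu, hu'⟩
  · intro z hz hz' hz0
    obtain ⟨u, hu, hu', y, hy, rfl⟩ := hsur z hz hz'
    rw [hΦz _ hMQ hM0 hMJ u hu y hy] at hz0
    have h0 : u = 0 := hbij.injOn ⟨hu, hu'⟩ ⟨P0.zero_mem, map_zero _⟩ (by rw [hz0, map_zero])
    exact ⟨y, hy, by rw [h0, map_zero, zero_add]⟩

variable {ι : Type} [Fintype ι] [DecidableEq ι] {A : Matrix ι ι ℤ} {p : ℕ}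
variable {g : Type} [LieRing g] [LieAlgebra ℂ g] {G : Chevalley A g} {k : ℂ}
variable {C : Type} [AddCommGroup C] [Module ℂ C]

namespace Brst

variable (X : Brst G k C)

theorem V_vac : X.vac ∈ X.V := by
  unfold V
  rw [Submodule.mem_sInf]
  exact fun W hW => hW.1

theorem V_J (m : ℤ) (a : g) (ha : a ∈ G.bm) (v : C) (hv : v ∈ X.V) : X.Jh m a v ∈ X.V := by
  unfold V at hv ⊢
  rw [Submodule.mem_sInf] at hv ⊢
  exact fun W hW => hW.2 m a ha v (hv W hW)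

theorem V_le (W : Submodule ℂ C) (h0 : X.vac ∈ W)
    (h : ∀ m, ∀ a ∈ G.bm, ∀ v ∈ W, X.Jh m a v ∈ W) : X.V ≤ W := sInf_le ⟨h0, h⟩

theorem IsMiura.jm (hA : IsADE A) (hp : 1 ≤ p) {Φ : C →ₗ[ℂ] Fock ι} (h : X.IsMiura p Φ) (m : ℤ)
    (a : g) (ha : a ∈ G.bm) (v : C) (hv : v ∈ X.V) :
    Φ (X.Jh m a v) = MZL.JM hA hp G m a (Φ v) := by
  unfold Chevalley.bm at ha
  induction ha using Submodule.span_induction with
  | mem x hx =>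
    rcases hx with ⟨i, rfl⟩ | ⟨γ, rfl⟩
    · rw [h.h m i v hv, MZL.JM_h]
    · rw [h.f m γ v hv, MZL.JM_f, LinearMap.zero_apply]
  | zero => rw [map_zero, map_zero, LinearMap.zero_apply, LinearMap.zero_apply, map_zero]
  | add x y _ _ hx hy =>
    rw [map_add, map_add, LinearMap.add_apply, LinearMap.add_apply, map_add, hx, hy]
  | smul r x _ hx =>
    rw [map_smul, map_smul, LinearMap.smul_apply, LinearMap.smul_apply, map_smul, hx]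

end Brst

/-- **The principal `W`-algebra as the cohomology of the BRST complex.** -/
theorem brst_main (hA : IsADE A) (hp : 2 ≤ p) (G : Chevalley A g) (hv : ℂ)
    (hK : ∀ x y, killingForm ℂ g x y = 2 * hv * G.form x y) :
    (∃ (C : Type) (_ : AddCommGroup C) (_ : Module ℂ C), Nonempty (Brst G ((p : ℂ) - hv) C)) ∧
    ∀ (C : Type) [AddCommGroup C] [Module ℂ C] (X : Brst G ((p : ℂ) - hv) C),
      (∀ v, X.Q (X.Q v) = 0) ∧ ∃ Φ : C →ₗ[ℂ] Fock ι, X.IsMiura p Φ ∧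
        (∀ Φ' : C →ₗ[ℂ] Fock ι, X.IsMiura p Φ' → ∀ z, X.Ghost 0 z → X.Q z = 0 → Φ' z = Φ z) ∧
        ∀ ε : Cocycle A p,
          (∀ f : VL ι, f ∈ Wk ε ↔
            ∃ z, X.Ghost 0 z ∧ X.Q z = 0 ∧ (Finsupp.single 0 (Φ z) : VL ι) = f) ∧
          ∀ z, X.Ghost 0 z → X.Q z = 0 → Φ z = 0 → ∃ y, X.Ghost (-1) y ∧ z = X.Q y := by
  refine ⟨brst_exists hA G _, fun C _ _ X => ?_⟩
  have hp1 : 1 ≤ p := by omega
  have hκ : ((p : ℂ) - hv) + hv = (p : ℂ) := by ring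
  have hK' : ∀ x y, (G.toLD hA).trf x y = 2 * hv * (G.toLD hA).form x y := fun x y => by
    rw [← (G.toLD hA).killing_eq]
    exact hK x y
  obtain ⟨Q1, h1⟩ := br_Q0 (br_qd (G.toLD hA) (p : ℂ))
    (QN.one ((G.toLD hA).qd (p : ℂ))) (QN.one_ok _)
  obtain ⟨Y, hS, hJ, hb, hc, hvac, hQ, hJh⟩ := X.exists_FV hA
  have hgh := X.ghost_iff hA hJ hb hc hvac
  obtain ⟨F, hF0, hFJ, R, hRF, hRQ, hFc, hFk, hsur⟩ := Y.fb_ret hS hv (p : ℂ) hκ hK' h1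
  have hbij := kmi_bij hp (G.carF hA hp1) (Chevalley.card_Rt hA) h1
  have H := brst_abs
    (JC := fun m (a : (G.toLD hA).bL) => X.Jh m (a : g))
    (JV := fun m (a : (G.toLD hA).bL) => (cmod ((G.toLD hA).kb (p : ℂ)) (G.toLD hA).nL
      (TMod.triv (G.toLD hA).bL)).J m a)
    (JM := fun m (a : (G.toLD hA).bL) => heis A p ((G.toLD hA).cfp a) m 0)
    (vC := X.vac) (vV := cvac ((G.toLD hA).kb (p : ℂ)) (G.toLD hA).nL) (vM := (1 : Fock ι))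
    (P0 := cpart ((G.toLD hA).kb (p : ℂ)) (G.toLD hA).nL (TMod.triv (G.toLD hA).bL) 0)
    (VC := X.V) (Q := X.Q) (Qd := ((G.toLD hA).qd (p : ℂ)).Qd (R := LRep.triv (G.toLD hA).bL) Q1)
    (G0 := X.Ghost 0) (Gm := X.Ghost (-1)) (F := F) (R := R)
    (μ := miura (G.carF hA hp1).toCar) (S := (KK A p : Set (Fock ι)))
    (fun W h0 h => FVac.cpart0_le W h0 h) (cvac_mem _ _) (fun m a u hu => cpart_J m a hu)
    X.V_vac (fun m a v hv' => X.V_J m _ (MZH.mem_bm hA G a) v hv')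
    (fun W h0 h => X.V_le W h0 fun m a ha v hv' => h m ⟨a, MZH.bL_mem hA G a ha⟩ v hv')
    (hF0.trans hvac) (fun m a u => (hFJ m a u).trans (by rw [hJh]))
    (LD.miura_cvac _) (fun m a u => LD.miura_J _ m a u) hRF
    (fun y hy => by rw [← hQ]; exact hRQ y ((hgh _ _).1 hy))
    (fun u hu => (hgh _ _).2 (hFc u hu)) (fun u hu => by rw [← hQ]; exact hFk u hu)
    (fun z hz hz' => by
      obtain ⟨u, hu, hu', y, hy, hzy⟩ := hsur z ((hgh _ _).1 hz) (by rw [hQ]; exact hz')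
      exact ⟨u, hu, hu', y, (hgh _ _).2 hy, hzy.trans (by rw [hQ])⟩)
    hbij
  obtain ⟨⟨a1, a2, a3⟩, a4, a5, a6⟩ := H
  have hM : X.IsMiura p (miura (G.carF hA hp1).toCar ∘ₗ R) :=
    ⟨a1, a2, fun m γ v hv' => (a3 m ((G.toLD hA).fB γ) v hv').trans (by
      rw [← MZL.JM_coe hA hp1 G]
      exact LinearMap.congr_fun (MZL.JM_f hA hp1 G m γ) _),
      fun m i v hv' => (a3 m ((G.toLD hA).hB i) v hv').trans (by
      rw [← MZL.JM_coe hA hp1 G]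
      exact LinearMap.congr_fun (MZL.JM_h hA hp1 G m i) _)⟩
  refine ⟨fun v => ?_, miura (G.carF hA hp1).toCar ∘ₗ R, hM, ?_, fun ε => ⟨fun f => ?_, a6⟩⟩
  · rw [← hQ]
    exact Y.Q_sq hS v
  · intro Φ' hΦ' z hz hz'
    refine a4 Φ' hΦ'.Q hΦ'.vac (fun m a v hv' => ?_) z hz hz'
    exact (hΦ'.jm X hA hp1 m _ (MZH.mem_bm hA G a) v hv').trans (by rw [MZL.JM_coe])
  · rw [(vg_5 hA hp ε).wk]
    constructor
    · rintro ⟨x, hx, rfl⟩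
      obtain ⟨z, hz, hz', hzx⟩ := (a5 x).1 hx
      exact ⟨z, hz, hz', by rw [hzx]⟩
    · rintro ⟨z, hz, hz', rfl⟩
      exact ⟨_, (a5 _).2 ⟨z, hz, hz', rfl⟩, rfl⟩

end

end WPE
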