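import Pool.Agent.WPE.FBV4
import Pool.Agent.WPE.FBY

/-! WPE, block FB: the vertex operators of the cocycles in `V`. -/

set_option linter.unusedSectionVars false

namespace WPE

open WPQ MvPolynomial
open WPE.LD (miura)

noncomputable section

/-- Abstract form of the argument. -/
theorem brst_vo_abs {C V M B M' : Type} [AddCommGroup C] [Module ℂ C] [AddCommGroup V] [Module ℂ V]
    [AddCommGroup M] [Module ℂ M] {JC : ℤ → B → C →ₗ[ℂ] C} {JV : ℤ → B → V →ₗ[ℂ] V}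
    {JM : ℤ → B → M →ₗ[ℂ] M} {vC : C} {vV : V} {vM : M} {P0 : Submodule ℂ V}
    (hind : ∀ W : Submodule ℂ V, vV ∈ W → (∀ m a u, u ∈ W → JV m a u ∈ W) → P0 ≤ W)
    (hv : vV ∈ P0) (hJ : ∀ m a, ∀ u ∈ P0, JV m a u ∈ P0)
    {VC : Submodule ℂ C} (hV1 : vC ∈ VC) (hV2 : ∀ m a, ∀ v ∈ VC, JC m a v ∈ VC)
    (hV3 : ∀ W : Submodule ℂ C, vC ∈ W → (∀ m a, ∀ v ∈ W, JC m a v ∈ W) → VC ≤ W)
    {F : V →ₗ[ℂ] C} {μ : V →ₗ[ℂ] M} (hF0 : F vV = vC) (hFJ : ∀ m a u, F (JV m a u) = JC m a (F u))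
    (hμ0 : μ vV = vM) (hμJ : ∀ m a u, μ (JV m a u) = JM m a (μ u))
    {Q : C →ₗ[ℂ] C} {Qd : V →ₗ[ℂ] V} {Gh : ℤ → C → Prop}
    (hFk : ∀ u ∈ P0, Qd u = 0 ↔ Q (F u) = 0)
    (hsur : ∀ z, Gh 0 z → Q z = 0 → ∃ u ∈ P0, Qd u = 0 ∧ ∃ y, Gh (-1) y ∧ z = F u + Q y)
    {Φ : C →ₗ[ℂ] M} (hΦQ : ∀ y, Gh (-1) y → Φ (Q y) = 0) (hΦ0 : Φ vC = vM)
    (hΦJ : ∀ m a, ∀ v ∈ VC, Φ (JC m a v) = JM m a (Φ v)) (j : M → M') (md : M' → ℤ → M' → M')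
    {P : C → (ℤ → C →ₗ[ℂ] C) → Prop}
    (hP : ∀ w ∈ P0, ∃ a : ℤ → C →ₗ[ℂ] C, P (F w) a ∧ (∀ a', P (F w) a' → a' = a) ∧
      (∀ n q v, Gh q v → Gh q (a n v)) ∧ (Q (F w) = 0 → ∀ n v, Q (a n v) = a n (Q v)) ∧
      ∀ n, ∀ u ∈ P0, ∃ u' ∈ P0, a n (F u) = F u' ∧ j (μ u') = md (j (μ w)) n (j (μ u))) :
    (∀ z, Gh 0 z → Q z = 0 → ∃ x ∈ VC, Q x = 0 ∧ ∃ y, Gh (-1) y ∧ z = x + Q y) ∧
    ∀ x ∈ VC, Q x = 0 → ∃ a, P x a ∧ (∀ a', P x a' → a' = a) ∧ (∀ n v, Q (a n v) = a n (Q v)) ∧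
      (∀ n q v, Gh q v → Gh q (a n v)) ∧
      ∀ n z, Gh 0 z → Q z = 0 → j (Φ (a n z)) = md (j (Φ x)) n (j (Φ z)) := by
  have hFV : ∀ u ∈ P0, F u ∈ VC := by
    intro u hu
    refine hind (VC.comap F) ?_ (fun m a w hw => ?_) hu
    · show F vV ∈ VC
      rw [hF0]
      exact hV1
    · show F (JV m a w) ∈ VC
      rw [hFJ]
      exact hV2 m a _ hw
  have hVF : ∀ v ∈ VC, ∃ u ∈ P0, F u = v := by
    intro v hv'
    refine hV3 (P0.map F) ⟨vV, hv, hF0⟩ (fun m a w hw => ?_) hv'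
    obtain ⟨u, hu, rfl⟩ := hw
    exact ⟨JV m a u, hJ m a u hu, hFJ m a u⟩
  have hΦF : ∀ u ∈ P0, Φ (F u) = μ u := by
    intro u hu
    have h := hind (P0 ⊓ LinearMap.ker (Φ ∘ₗ F - μ)) ⟨hv, by
      rw [SetLike.mem_coe, LinearMap.mem_ker, LinearMap.sub_apply, sub_eq_zero]
      show Φ (F vV) = μ vV
      rw [hF0, hΦ0, hμ0]⟩ (by
      rintro m a w ⟨hw, hw'⟩
      refine ⟨hJ m a w hw, ?_⟩
      rw [SetLike.mem_coe, LinearMap.mem_ker, LinearMap.sub_apply, sub_eq_zero] at hw' ⊢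
      have hw2 : Φ (F w) = μ w := hw'
      show Φ (F (JV m a w)) = μ (JV m a w)
      rw [hFJ, hΦJ m a _ (hFV w hw), hw2, hμJ]) hu
    have h2 := h.2
    rw [SetLike.mem_coe, LinearMap.mem_ker, LinearMap.sub_apply, sub_eq_zero] at h2
    exact h2
  refine ⟨fun z hz hz' => ?_, fun x hx hx0 => ?_⟩
  · obtain ⟨u, hu, hu', y, hy, rfl⟩ := hsur z hz hz'
    exact ⟨F u, hFV u hu, (hFk u hu).1 hu', y, hy, rfl⟩
  obtain ⟨w, hw, rfl⟩ := hVF x hx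
  obtain ⟨a, ha, hau, hag, haQ, haF⟩ := hP w hw
  refine ⟨a, ha, hau, haQ hx0, hag, fun n z hz hz' => ?_⟩
  obtain ⟨u, hu, -, y, hy, rfl⟩ := hsur z hz hz'
  obtain ⟨u', hu', h1, h2⟩ := haF n u hu
  rw [map_add, map_add, map_add, ← haQ hx0, hΦQ y hy, hΦQ _ (hag n (-1) y hy), add_zero, add_zero,
    h1, hΦF u hu, hΦF u' hu', hΦF w hw, h2]

variable {ι : Type} [Fintype ι] [DecidableEq ι] {A : Matrix ι ι ℤ} {p : ℕ}
variable {g : Type} [LieRing g] [LieAlgebra ℂ g] {G : Chevalley A g}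
variable {C : Type} [AddCommGroup C] [Module ℂ C]

/-- The products on the cohomology of the BRST complex. -/
theorem brst_vo (hA : IsADE A) (hp : 2 ≤ p) (G : Chevalley A g) (hv : ℂ)
    (hK : ∀ x y, killingForm ℂ g x y = 2 * hv * G.form x y) (X : Brst G ((p : ℂ) - hv) C)
    {Φ : C →ₗ[ℂ] Fock ι} (hΦ : X.IsMiura p Φ) (ε : Cocycle A p)
    {Y : FVac (G.toLD hA) ((p : ℂ) - hv) C} (hS : Y.Std) (hJ : Y.J = X.J) (hb : Y.b = X.b)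
    (hc : Y.c = X.c) (hvac : Y.vac = X.vac) (hQ : Y.Q = X.Q) (hJh : Y.Jh = X.Jh) :
    (∀ z, X.Ghost 0 z → X.Q z = 0 →
      ∃ x ∈ X.V, X.Q x = 0 ∧ ∃ y, X.Ghost (-1) y ∧ z = x + X.Q y) ∧
    ∀ x ∈ X.V, X.Q x = 0 → ∃ a : ℤ → C →ₗ[ℂ] C, (∃ T, Y.IsTr T ∧ Y.IsVO T x a) ∧
      (∀ a', (∃ T, Y.IsTr T ∧ Y.IsVO T x a') → a' = a) ∧ (∀ n v, X.Q (a n v) = a n (X.Q v)) ∧
      (∀ n q v, X.Ghost q v → X.Ghost q (a n v)) ∧
      ∀ n z, X.Ghost 0 z → X.Q z = 0 → (Finsupp.single 0 (Φ (a n z)) : VL ι) =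
        mode ε (Finsupp.single 0 (Φ x)) n (Finsupp.single 0 (Φ z)) := by
  have hp1 : 1 ≤ p := by omega
  have hκ : ((p : ℂ) - hv) + hv = (p : ℂ) := by ring
  have hK' : ∀ x y, (G.toLD hA).trf x y = 2 * hv * (G.toLD hA).form x y := fun x y => by
    rw [← (G.toLD hA).killing_eq]
    exact hK x y
  obtain ⟨Q1, h1⟩ := br_Q0 (br_qd (G.toLD hA) (p : ℂ))
    (QN.one ((G.toLD hA).qd (p : ℂ))) (QN.one_ok _)
  have hgh := X.ghost_iff hA hJ hb hc hvac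
  obtain ⟨F, hF0, hFJ, -, -, -, -, hFk, hsur⟩ := Y.fb_ret hS hv (p : ℂ) hκ hK' h1
  obtain ⟨T, hT⟩ := Y.exists_tr hS
  refine brst_vo_abs
    (JC := fun m (a : (G.toLD hA).bL) => X.Jh m (a : g))
    (JV := fun m (a : (G.toLD hA).bL) => (cmod ((G.toLD hA).kb (p : ℂ)) (G.toLD hA).nL
      (TMod.triv (G.toLD hA).bL)).J m a)
    (JM := fun m (a : (G.toLD hA).bL) => heis A p ((G.toLD hA).cfp a) m 0)
    (vC := X.vac) (vV := cvac ((G.toLD hA).kb (p : ℂ)) (G.toLD hA).nL) (vM := (1 : Fock ι))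
    (P0 := cpart ((G.toLD hA).kb (p : ℂ)) (G.toLD hA).nL (TMod.triv (G.toLD hA).bL) 0)
    (VC := X.V) (Q := X.Q) (Qd := ((G.toLD hA).qd (p : ℂ)).Qd (R := LRep.triv (G.toLD hA).bL) Q1)
    (Gh := X.Ghost) (F := F) (μ := miura (G.carF hA hp1).toCar) (Φ := Φ)
    (j := fun f : Fock ι => (Finsupp.single 0 f : VL ι)) (md := fun u n v => mode ε u n v)
    (P := fun x a => ∃ T, Y.IsTr T ∧ Y.IsVO T x a)
    (fun W h0 h => FVac.cpart0_le W h0 h) (cvac_mem _ _) (fun m a u hu => cpart_J m a hu)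
    X.V_vac (fun m a v hv' => X.V_J m _ (MZH.mem_bm hA G a) v hv')
    (fun W h0 h => X.V_le W h0 fun m a ha v hv' => h m ⟨a, MZH.bL_mem hA G a ha⟩ v hv')
    (hF0.trans hvac) (fun m a u => (hFJ m a u).trans (by rw [hJh]))
    (LD.miura_cvac _) (fun m a u => LD.miura_J _ m a u)
    (fun u hu => by rw [← hQ]; exact hFk u hu)
    (fun z hz hz' => by
      obtain ⟨u, hu, hu', y, hy, hzy⟩ := hsur z ((hgh _ _).1 hz) (by rw [hQ]; exact hz')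
      exact ⟨u, hu, hu', y, (hgh _ _).2 hy, hzy.trans (by rw [hQ])⟩)
    hΦ.Q hΦ.vac (fun m a v hv' => (hΦ.jm X hA hp1 m _ (MZH.mem_bm hA G a) v hv').trans
      (by rw [MZL.JM_coe])) fun w hw => ?_
  obtain ⟨a, ha, hau, hag, haQ, haF⟩ := Y.vo_main hS hv (p : ℂ) hκ hK' h1 F hF0 hFJ hFk hT w hw
  refine ⟨a, ⟨T, hT, ha⟩, ?_, fun n q v hv' => (hgh _ _).2 (hag n q v ((hgh _ _).1 hv')),
    fun h n v => ?_, fun n u hu => ⟨_, (haF n u hu).1, (haF n u hu).2, ?_⟩⟩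
  · rintro a' ⟨T', hT', ha'⟩
    rw [hT'.unique Y hS hT] at ha'
    exact hau a' ha'
  · rw [← hQ] at h ⊢
    exact haQ h n v
  · have e1 := Yh_hom (cmod ((G.toLD hA).kb (p : ℂ)) (G.toLD hA).nL (TMod.triv (G.toLD hA).bL))
      (LD.fockGp (G.carF hA hp1).toCar) (miura (G.carF hA hp1).toCar)
      (fun m a y => LD.miura_J (G.carF hA hp1).toCar m a y) w hw n u
    exact (congrArg (fun f : Fock ι => (Finsupp.single 0 f : VL ι)) e1).trans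
      (kp_Y (G.carF hA hp1).toCar ε w n _).symm

end

end WPE
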