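import Pool.Agent.WPE.FDD

/-! [WPE-FD1] The products `a_(n) id`. -/

open scoped TensorProduct
open WPQ.AF (IsFld)

namespace WPE

variable {E : Type} [AddCommGroup E] [Module ℂ E]

theorem FD1.nL_id (n : ℤ) (a : ℤ → E →ₗ[ℂ] E) (k : ℤ) (x : E) :
    nL n a (idFld E) k x = if k ≤ -1 then cf n (-1 - k).toNat • a (n + k + 1) x else 0 := by
  obtain ⟨N0, -, h⟩ := nL_eq n a (isFld_id (E := E)) x
  rw [h k ((N0 - k).toNat + (-1 - k).toNat + 1) (by omega)]
  split_ifs with hk
  · rw [Finset.sum_eq_single (-1 - k).toNat]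
    · have e1 : k + ((-1 - k).toNat : ℤ) = -1 := by omega
      have e2 : n - ((-1 - k).toNat : ℤ) = n + k + 1 := by omega
      rw [e1, e2]
      unfold idFld
      rw [if_pos rfl, LinearMap.id_apply]
    · intro j _ hj
      unfold idFld
      rw [if_neg (by omega), LinearMap.zero_apply, map_zero, smul_zero]
    · intro hj
      exact absurd (Finset.mem_range.2 (by omega)) hj
  · refine Finset.sum_eq_zero fun j _ => ?_
    unfold idFld
    rw [if_neg (by omega), LinearMap.zero_apply, map_zero, smul_zero]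

theorem FD1.nR_id (n : ℤ) {a : ℤ → E →ₗ[ℂ] E} (ha : IsFld a) (k : ℤ) (x : E) :
    nR n a (idFld E) k x = if 0 ≤ n + k + 1 then
      ((-1 : ℂ) ^ n * cf n (n + k + 1).toNat) • a (n + k + 1) x else 0 := by
  obtain ⟨N0, h⟩ := nR_eq n ha (idFld E) x
  rw [h k (N0 + (n + k + 1).toNat + 1) (by omega)]
  split_ifs with hk
  · rw [Finset.sum_eq_single (n + k + 1).toNat]
    · have e1 : n + k - ((n + k + 1).toNat : ℤ) = -1 := by omega
      have e2 : ((n + k + 1).toNat : ℤ) = n + k + 1 := by omega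
      rw [e1, e2]
      unfold idFld
      rw [if_pos rfl, LinearMap.id_apply]
    · intro j _ hj
      unfold idFld
      rw [if_neg (by omega), LinearMap.zero_apply, smul_zero]
    · intro hj
      exact absurd (Finset.mem_range.2 (by omega)) hj
  · refine Finset.sum_eq_zero fun j _ => ?_
    unfold idFld
    rw [if_neg (by omega), LinearMap.zero_apply, smul_zero]

theorem FD1.cf_nat (n j : ℕ) : cf (n : ℤ) j = (-1 : ℂ) ^ j * (n.choose j : ℂ) := by
  unfold cf
  rw [Ring.choose_natCast]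
  norm_cast

theorem FD1.cf_neg_one (j : ℕ) : cf (-1) j = 1 := by
  induction j with
  | zero => exact cf_zero_right _
  | succ j ih =>
    have h1 := cf_succ_mul (-1) j
    have h2 := cf_sub_mul (-1) j
    rw [ih] at h2
    have h3 : ((j : ℂ) + 1) ≠ 0 := by
      have : ((j + 1 : ℕ) : ℂ) ≠ 0 := Nat.cast_ne_zero.2 (Nat.succ_ne_zero j)
      push_cast at this
      exact this
    have h4 : ((j : ℂ) + 1) * cf (-1) (j + 1) = ((j : ℂ) + 1) * 1 := by
      rw [h1, ← h2]
      push_cast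
      ring
    exact mul_left_cancel₀ h3 h4

/-- FD-1 -/
theorem fd_id_nonneg (n : ℤ) (hn : 0 ≤ n) {a : ℤ → E →ₗ[ℂ] E} (ha : IsFld a) :
    nprod n a (idFld E) = 0 := by
  obtain ⟨N, rfl⟩ : ∃ N : ℕ, n = (N : ℤ) := ⟨n.toNat, by omega⟩
  funext k
  refine LinearMap.ext fun x => ?_
  unfold nprod
  rw [LinearMap.sub_apply, FD1.nL_id, FD1.nR_id _ ha, Pi.zero_apply, LinearMap.zero_apply,
    FD1.cf_nat, FD1.cf_nat]
  by_cases h1 : k ≤ -1
  · rw [if_pos h1]
    by_cases h2 : 0 ≤ (N : ℤ) + k + 1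
    · rw [if_pos h2]
      have e1 : ((N : ℤ) + k + 1).toNat = N - (-1 - k).toNat := by omega
      have e2 : (-1 - k).toNat ≤ N := by omega
      rw [e1, Nat.choose_symm e2, zpow_natCast]
      have e3 : (-1 : ℂ) ^ N * (-1) ^ (N - (-1 - k).toNat) = (-1) ^ (-1 - k).toNat := by
        rw [← pow_add]
        have e4 : N + (N - (-1 - k).toNat) = 2 * (N - (-1 - k).toNat) + (-1 - k).toNat := by
          omega
        rw [e4, pow_add, pow_mul, neg_one_sq, one_pow, one_mul]
      rw [← mul_assoc, e3, sub_self]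
    · rw [if_neg h2, Nat.choose_eq_zero_of_lt (by omega : N < (-1 - k).toNat)]
      simp
  · rw [if_neg h1, if_pos (by omega),
      Nat.choose_eq_zero_of_lt (by omega : N < ((N : ℤ) + k + 1).toNat)]
    simp

/-- FD-1 -/
theorem fd_id_neg_one {a : ℤ → E →ₗ[ℂ] E} (ha : IsFld a) : nprod (-1) a (idFld E) = a := by
  funext k
  refine LinearMap.ext fun x => ?_
  unfold nprod
  rw [LinearMap.sub_apply, FD1.nL_id, FD1.nR_id _ ha, FD1.cf_neg_one, FD1.cf_neg_one]
  have e1 : (-1 : ℤ) + k + 1 = k := by ring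
  rw [e1]
  by_cases h1 : k ≤ -1
  · rw [if_pos h1, if_neg (by omega), one_smul, sub_zero]
  · rw [if_neg h1, if_pos (by omega)]
    have e2 : (-1 : ℂ) ^ (-1 : ℤ) * 1 = -1 := by norm_num
    rw [e2, neg_one_smul, zero_sub, neg_neg]

end WPE
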