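import Pool.Agent.WPE.FD9

/-! WPE, block FD, row FD10: the field of a ghost mode applied to a state. -/

namespace WPE

open scoped TensorProduct
open WPQ.AF (IsFld)

noncomputable section

section state

variable {B : Type} [LieRing B] [LieAlgebra ℂ B] {κ : B →ₗ[ℂ] B →ₗ[ℂ] ℂ}
variable {Y : Type} [AddCommGroup Y] [Module ℂ Y] [LieRingModule B Y] [LieModule ℂ B Y]
variable {E : Type} [AddCommGroup E] [Module ℂ E] (X : GMod B Y κ E)

namespace FD10

theorem Yh_incl (v : KN Y ℂ) :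
    X.Yh (Ind.incl κ (TMod.gt Y (TMod.triv B)).toTMod v) = X.phiS v := by
  have h : X.Yh = Ind.lift (κ := κ) (T := (TMod.gt Y (TMod.triv B)).toTMod)
      (BMod.fld X.smooth) X.phiS (fun m a v => fd_phi_equi X m a v) :=
    dif_pos (fun m a v => fd_phi_equi X m a v)
  rw [h]
  exact Ind.lift_incl _ _

theorem nprod_zero_left (n : ℤ) {b : ℤ → E →ₗ[ℂ] E} (hb : IsFld b) :
    nprod n (0 : ℤ → E →ₗ[ℂ] E) b = 0 := by
  have h := nprod_smul_left n (0 : ℂ) (a := (0 : ℤ → E →ₗ[ℂ] E)) (Fld E).zero_mem hb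
  rw [zero_smul, zero_smul] at h
  exact h

theorem phiS_zero (c : ℂ) : X.phiS (c, 0, 0) = c • (⟨idFld E, isFld_id⟩ : Fld E) := by
  rw [GMod.phiS_apply]
  show c • (⟨idFld E, isFld_id⟩ : Fld E) + X.psiS (TensorProduct.rid ℂ (Gh Y) 0) = _
  rw [map_zero, map_zero, add_zero]

theorem phiS_one (c : ℂ) (g : Gh Y) (t : Gh Y ⊗[ℂ] (Gh Y ⊗[ℂ] ℂ)) :
    X.phiS (0, g ⊗ₜ[ℂ] c, t) = c • X.psiS g := by
  rw [GMod.phiS_apply]
  show (0 : ℂ) • (⟨idFld E, isFld_id⟩ : Fld E) + X.psiS (TensorProduct.rid ℂ (Gh Y) (g ⊗ₜ[ℂ] c)) = _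
  rw [zero_smul, zero_add, TensorProduct.rid_tmul, map_smul]

theorem base (n : ℤ) (y : Y) (v : KN Y ℂ) :
    (X.Yh ((cmod κ Y (TMod.triv B)).ψ n y (Ind.incl κ _ (KNpr Y ℂ 0 v)))).1 =
      nprod n (X.psiFld y) (X.Yh (Ind.incl κ _ (KNpr Y ℂ 0 v))).1 := by
  rw [Yh_incl, KNpr_zero, phiS_zero]
  show _ = nprod n (X.psiFld y) (v.1 • idFld E)
  rw [nprod_smul_right n v.1 (X.isFld_psiFld y) isFld_id]
  by_cases hn : n < 0
  · obtain ⟨k, rfl⟩ : ∃ k : ℕ, n = -(k : ℤ) - 1 := ⟨(-n - 1).toNat, by omega⟩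
    have e : (cmod κ Y (TMod.triv B)).ψ (-(k : ℤ) - 1) y (Ind.incl κ _ (v.1, 0, 0)) =
        Ind.incl κ _ (ghOm Y (Finsupp.single k y) (v.1, 0, 0)) :=
      Ind.psi_incl_neg κ (TMod.gt Y (TMod.triv B)) k y _
    rw [e, Yh_incl, ghOm_apply, phiS_one]
    show v.1 • (X.psiS (Finsupp.single k y)).1 = _
    rw [GMod.psiS_single, show -1 - (k : ℤ) = -(k : ℤ) - 1 by ring]
  · have e : (cmod κ Y (TMod.triv B)).ψ n y (Ind.incl κ _ (v.1, 0, 0)) = 0 :=
      Ind.psi_incl_nonneg κ (TMod.gt Y (TMod.triv B)) n (by omega) y _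
    rw [e, map_zero, fd_id_nonneg n (by omega) (X.isFld_psiFld y), smul_zero]
    rfl

end FD10

theorem Yh_psi (n : ℤ) (y : Y) (w : VC κ Y) (hw : w ∈ cpart κ Y (TMod.triv B) 0) :
    (X.Yh ((cmod κ Y (TMod.triv B)).ψ n y w)).1 = nprod n (X.psiFld y) (X.Yh w).1 := by
  let W : Submodule ℂ (VC κ Y) :=
    { carrier := {w | ∀ (n : ℤ) (y : Y),
        (X.Yh ((cmod κ Y (TMod.triv B)).ψ n y w)).1 = nprod n (X.psiFld y) (X.Yh w).1}
      add_mem' := by
        intro w w' hw hw' n y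
        rw [map_add, map_add, map_add]
        show (X.Yh _).1 + (X.Yh _).1 = nprod n (X.psiFld y) ((X.Yh w).1 + (X.Yh w').1)
        rw [hw n y, hw' n y, nprod_add_right n (X.isFld_psiFld y) (X.Yh w).2 (X.Yh w').2]
      zero_mem' := by
        intro n y
        rw [map_zero, map_zero]
        show (0 : ℤ → E →ₗ[ℂ] E) = nprod n (X.psiFld y) (0 : ℤ → E →ₗ[ℂ] E)
        have h := nprod_smul_right n (0 : ℂ) (X.isFld_psiFld y) (isFld_id (E := E))
        rw [zero_smul, zero_smul] at h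
        exact h.symm
      smul_mem' := by
        intro c w hw n y
        rw [map_smul, map_smul, map_smul]
        show c • (X.Yh _).1 = nprod n (X.psiFld y) (c • (X.Yh w).1)
        rw [hw n y, nprod_smul_right n c (X.isFld_psiFld y) (X.Yh w).2] }
  have hle : cpart κ Y (TMod.triv B) 0 ≤ W := by
    refine cpart_induction W (fun v n y => FD10.base X n y v) ?_
    intro m a w _ hw n y
    have e : (cmod κ Y (TMod.triv B)).ψ n y ((cmod κ Y (TMod.triv B)).J m a w) =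
        (cmod κ Y (TMod.triv B)).J m a ((cmod κ Y (TMod.triv B)).ψ n y w) -
          (cmod κ Y (TMod.triv B)).ψ (m + n) ⁅a, y⁆ w := by
      rw [← (cmod κ Y (TMod.triv B)).commψ]
      abel
    have h1 := nprod_comm (a := X.toBMod.cur a) (u := X.psiFld y) (c := X.psiFld ⁅a, y⁆)
      (d := 0) (b := (X.Yh w).1) (BMod.Smooth.isFld X.smooth a) (X.isFld_psiFld y)
      (X.isFld_psiFld ⁅a, y⁆) (Fld E).zero_mem (X.Yh w).2 (by
        intro m n
        ext x
        rw [Pi.zero_apply, smul_zero, add_zero]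
        exact X.commψ m n a y x) m n
    rw [FD10.nprod_zero_left _ (X.Yh w).2, smul_zero, add_zero] at h1
    rw [e, map_sub]
    show (X.Yh ((cmod κ Y (TMod.triv B)).J m a ((cmod κ Y (TMod.triv B)).ψ n y w))).1 -
      (X.Yh ((cmod κ Y (TMod.triv B)).ψ (m + n) ⁅a, y⁆ w)).1 = _
    rw [Yh_J, hw n y, hw (m + n) ⁅a, y⁆, Yh_J, ← h1]
    abel
  exact hle hw n y

end state

end

end WPE
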