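import Pool.Agent.WPE.FD1
import Pool.Agent.WPE.FD2

open scoped TensorProduct
open WPQ.AF (IsFld)

namespace WPE

noncomputable section

namespace FD3

variable {E : Type} [AddCommGroup E] [Module ℂ E]

theorem dz_zero : dz (0 : ℤ → E →ₗ[ℂ] E) = 0 := by
  funext k
  unfold dz
  simp

theorem dz_add (b b' : ℤ → E →ₗ[ℂ] E) : dz (b + b') = dz b + dz b' := by
  funext k
  unfold dz
  simp only [Pi.add_apply, smul_add]

theorem dz_sum (s : Finset ℕ) (f : ℕ → ℤ → E →ₗ[ℂ] E) :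
    dz (∑ k ∈ s, f k) = ∑ k ∈ s, dz (f k) := by
  classical
  induction s using Finset.induction_on with
  | empty => simp only [Finset.sum_empty]; exact dz_zero
  | insert a s ha ih => rw [Finset.sum_insert ha, Finset.sum_insert ha, dz_add, ih]

theorem dz_id : dz (idFld E) = 0 := by
  funext k
  unfold dz idFld
  by_cases hk : k = 0
  · subst hk; simp
  · rw [if_neg (by omega)]; simp

/-- The derivatives of a field. -/
def D (s : ℕ) (c : ℤ → E →ₗ[ℂ] E) : ℤ → E →ₗ[ℂ] E := nprod (-1 - (s : ℤ)) c (idFld E)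

theorem isFld_D (s : ℕ) {c : ℤ → E →ₗ[ℂ] E} (hc : IsFld c) : IsFld (D s c) :=
  isFld_nprod _ hc isFld_id

theorem nprod_zero_right (n : ℤ) {a : ℤ → E →ₗ[ℂ] E} (ha : IsFld a) :
    nprod n a (0 : ℤ → E →ₗ[ℂ] E) = 0 := by
  have h := nprod_smul_right n (0 : ℂ) ha (isFld_id (E := E))
  rw [zero_smul, zero_smul] at h
  exact h

theorem dz_D (s : ℕ) {c : ℤ → E →ₗ[ℂ] E} (hc : IsFld c) :
    dz (D s c) = ((s : ℂ) + 1) • D (s + 1) c := by
  unfold D
  rw [fd_dz _ hc isFld_id, dz_id, nprod_zero_right _ hc, add_zero]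
  congr 1
  · push_cast; ring
  · congr 1
    push_cast; ring

theorem dz_nprod (k : ℕ) {a b : ℤ → E →ₗ[ℂ] E} (ha : IsFld a) (hb : IsFld b) :
    dz (nprod (-1 - (k : ℤ)) a b) = ((k : ℂ) + 1) • nprod (-1 - ((k + 1 : ℕ) : ℤ)) a b +
      nprod (-1 - (k : ℤ)) a (dz b) := by
  rw [fd_dz _ ha hb]
  congr 2
  · push_cast; ring
  · congr 1
    push_cast; ring

theorem leib (s : ℕ) {a u : ℤ → E →ₗ[ℂ] E} (ha : IsFld a) (hu : IsFld u) :
    D s (nprod (-1) a u) = ∑ k ∈ Finset.range (s + 1),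
      nprod (-1 - (k : ℤ)) a (D (s - k) u) := by
  induction s with
  | zero =>
    have h1 : ∀ {c : ℤ → E →ₗ[ℂ] E}, IsFld c → D 0 c = c := by
      intro c hc
      have h := fd_id_neg_one hc
      unfold D
      simpa using h
    rw [h1 (isFld_nprod _ ha hu)]
    simp [h1 hu]
  | succ s ih =>
    have hs : ((s : ℂ) + 1) ≠ 0 := by exact_mod_cast Nat.succ_ne_zero s
    apply smul_right_injective (ℤ → E →ₗ[ℂ] E) hs
    show ((s : ℂ) + 1) • D (s + 1) (nprod (-1) a u) = ((s : ℂ) + 1) • ∑ k ∈ Finset.range (s + 1 + 1),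
      nprod (-1 - (k : ℤ)) a (D (s + 1 - k) u)
    rw [← dz_D s (isFld_nprod _ ha hu), ih, dz_sum]
    set F : ℕ → ℤ → E →ₗ[ℂ] E := fun k => nprod (-1 - (k : ℤ)) a (D (s + 1 - k) u) with hF
    have h1 : ∀ k ∈ Finset.range (s + 1), dz (nprod (-1 - (k : ℤ)) a (D (s - k) u)) =
        ((k + 1 : ℕ) : ℂ) • F (k + 1) + ((s : ℂ) + 1 - k) • F k := by
      intro k hk
      have hk' : k ≤ s := Nat.lt_succ_iff.1 (Finset.mem_range.1 hk)
      rw [dz_nprod k ha (isFld_D _ hu), dz_D _ hu, nprod_smul_right _ _ ha (isFld_D _ hu)]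
      have e1 : s + 1 - (k + 1) = s - k := by omega
      have e2 : s - k + 1 = s + 1 - k := by omega
      have e3 : ((s - k : ℕ) : ℂ) + 1 = (s : ℂ) + 1 - k := by
        rw [Nat.cast_sub hk']; ring
      rw [hF]
      simp only [e1, e2, e3]
      push_cast
      rfl
    rw [Finset.sum_congr rfl h1, Finset.sum_add_distrib]
    have h2 : ∑ k ∈ Finset.range (s + 1), ((k + 1 : ℕ) : ℂ) • F (k + 1) =
        ∑ k ∈ Finset.range (s + 1 + 1), (k : ℂ) • F k := by
      rw [Finset.sum_range_succ' (fun k => (k : ℂ) • F k) (s + 1)]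
      simp
    have h3 : ∑ k ∈ Finset.range (s + 1), ((s : ℂ) + 1 - k) • F k =
        ∑ k ∈ Finset.range (s + 1 + 1), ((s : ℂ) + 1 - k) • F k := by
      rw [Finset.sum_range_succ (fun k : ℕ => ((s : ℂ) + 1 - k) • F k) (s + 1)]
      push_cast
      simp
    rw [h2, h3, ← Finset.sum_add_distrib, Finset.smul_sum]
    refine Finset.sum_congr rfl fun k _ => ?_
    rw [← add_smul]
    congr 1
    ring

end FD3

theorem fd_leibniz {E : Type} [AddCommGroup E] [Module ℂ E] (s : ℕ) {a u : ℤ → E →ₗ[ℂ] E}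
    (ha : IsFld a) (hu : IsFld u) :
    nprod (-1 - (s : ℤ)) (nprod (-1) a u) (idFld E) = ∑ k ∈ Finset.range (s + 1),
      nprod (-1 - (k : ℤ)) a (nprod (-1 - ((s - k : ℕ) : ℤ)) u (idFld E)) :=
  FD3.leib s ha hu

end

end WPE
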