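import Pool.Agent.WPE.FDE

open scoped TensorProduct
open WPQ.AF (IsFld)

namespace WPE

namespace FD6

/-- `(-1)^j C(-1,j) = 1`. -/
theorem cf_neg_one (j : ℕ) : cf (-1) j = 1 := by
  induction j with
  | zero => exact cf_zero_right _
  | succ j ih =>
    have h1 := cf_succ_mul (-1) j
    have h2 := cf_sub_mul (-1) j
    have h3 : ((j : ℂ) + 1) * cf (-1) (j + 1) = ((j : ℂ) + 1) * 1 := by
      rw [h1, ← h2, ih]
      push_cast
      ring
    have h4 : ((j : ℂ) + 1) ≠ 0 := by exact_mod_cast Nat.succ_ne_zero j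
    exact mul_left_cancel₀ h4 h3

end FD6

section state

variable {B : Type} [LieRing B] [LieAlgebra ℂ B] {κ : B →ₗ[ℂ] B →ₗ[ℂ] ℂ}
variable {Y : Type} [AddCommGroup Y] [Module ℂ Y] [LieRingModule B Y] [LieModule ℂ B Y]
variable {E : Type} [AddCommGroup E] [Module ℂ E] (X : GMod B Y κ E)

theorem fd_nopFld (c : B) (z : Y) :
    X.nopFld (c ⊗ₜ z) = nprod (-1) (X.toBMod.cur c) (X.psiFld z) := by
  funext m
  ext x
  have ha : IsFld (X.toBMod.cur c) := X.smooth.isFld c
  have hb : IsFld (X.psiFld z) := X.isFld_psiFld z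
  obtain ⟨N1, -, h1⟩ := nL_eq (-1) (X.toBMod.cur c) hb x
  obtain ⟨N2, h2⟩ := nR_eq (-1) ha (X.psiFld z) x
  obtain ⟨M, hM⟩ := ha x
  obtain ⟨M', hM'⟩ := hb x
  obtain ⟨N, hN⟩ : ∃ N : ℕ, N = max (max (N1 - m).toNat N2) (max M.toNat (M' - m).toNat) :=
    ⟨_, rfl⟩
  have e1 := h1 m N (by omega)
  have e2 := h2 m N (by omega)
  let f1 : ℕ ↪ ℤ := ⟨fun j => -1 - (j : ℤ), fun i j h => by
    have h' : -1 - (i : ℤ) = -1 - (j : ℤ) := h
    omega⟩
  let f2 : ℕ ↪ ℤ := ⟨fun j => (j : ℤ), fun i j h => by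
    have h' : (i : ℤ) = (j : ℤ) := h
    omega⟩
  have hdis : Disjoint ((Finset.range N).map f1) ((Finset.range N).map f2) := by
    rw [Finset.disjoint_left]
    intro k hk hk'
    rw [Finset.mem_map] at hk hk'
    obtain ⟨i, -, hi⟩ := hk
    obtain ⟨j, -, hj⟩ := hk'
    have hi' : -1 - (i : ℤ) = k := hi
    have hj' : (j : ℤ) = k := hj
    omega
  have e3 : X.nopFld (c ⊗ₜ z) m x =
      ∑ k ∈ (Finset.range N).map f1 ∪ (Finset.range N).map f2, X.nopF m c z k x := by
    show X.nop m (c ⊗ₜ z) x = _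
    rw [GMod.nop_tmul, psum_eq_sum (X.lf_nopF m c z) x]
    intro k hk
    rw [Finset.notMem_union, Finset.mem_map, Finset.mem_map] at hk
    unfold GMod.nopF
    by_cases hk0 : k < 0
    · rw [if_pos hk0, LinearMap.comp_apply]
      have h3 : X.psiFld z (m - 1 - k) x = 0 := by
        refine hM' _ ?_
        by_contra hc
        refine hk.1 ⟨(-1 - k).toNat, ?_, ?_⟩
        · rw [Finset.mem_range]
          omega
        · show -1 - (((-1 - k).toNat : ℕ) : ℤ) = k
          omega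
      have h4 : X.ψ (m - 1 - k) z x = 0 := h3
      rw [h4, map_zero]
    · rw [if_neg hk0, LinearMap.comp_apply]
      have h3 : X.toBMod.cur c k x = 0 := by
        refine hM _ ?_
        by_contra hc
        refine hk.2 ⟨k.toNat, ?_, ?_⟩
        · rw [Finset.mem_range]
          omega
        · show ((k.toNat : ℕ) : ℤ) = k
          omega
      have h4 : X.J k c x = 0 := h3
      rw [h4, map_zero]
  show X.nopFld (c ⊗ₜ z) m x =
    nL (-1) (X.toBMod.cur c) (X.psiFld z) m x - nR (-1) (X.toBMod.cur c) (X.psiFld z) m x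
  rw [e3, Finset.sum_union hdis, Finset.sum_map, Finset.sum_map, e1, e2, sub_eq_add_neg,
    ← Finset.sum_neg_distrib]
  congr 1
  · refine Finset.sum_congr rfl fun j _ => ?_
    show X.nopF m c z (-1 - (j : ℤ)) x = _
    unfold GMod.nopF
    rw [if_pos (by omega), FD6.cf_neg_one, one_smul]
    show X.J (-1 - (j : ℤ)) c (X.ψ (m - 1 - (-1 - (j : ℤ))) z x) =
      X.J (-1 - (j : ℤ)) c (X.ψ (m + j) z x)
    rw [show m - 1 - (-1 - (j : ℤ)) = m + j by ring]
  · refine Finset.sum_congr rfl fun j _ => ?_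
    show X.nopF m c z (j : ℤ) x = _
    unfold GMod.nopF
    rw [if_neg (by omega), FD6.cf_neg_one, mul_one, zpow_neg_one, ← neg_smul]
    have h5 : -(-1 : ℂ)⁻¹ = 1 := by norm_num
    rw [h5, one_smul]
    show X.ψ (m - 1 - (j : ℤ)) z (X.J j c x) = X.ψ (-1 + m - j) z (X.J j c x)
    rw [show m - 1 - (j : ℤ) = -1 + m - j by ring]

theorem fd_nop_isFld (t : B ⊗[ℂ] Y) : IsFld (X.nopFld t) := by
  induction t using TensorProduct.induction_on with
  | zero =>
    intro x
    refine ⟨0, fun n _ => ?_⟩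
    show X.nop n 0 x = 0
    rw [map_zero]
    rfl
  | tmul c z =>
    rw [fd_nopFld]
    exact isFld_nprod _ (X.smooth.isFld c) (X.isFld_psiFld z)
  | add a b ha hb =>
    have h : X.nopFld (a + b) = X.nopFld a + X.nopFld b := by
      funext n
      exact map_add _ _ _
    rw [h]
    exact (Fld E).add_mem ha hb

end state

end WPE
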