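import Pool.Agent.WPE.FD10
import Pool.Agent.WPE.FD3
import Pool.Agent.WPE.FD6
import Pool.Agent.WPE.FD7

open scoped TensorProduct
open WPQ.AF (IsFld)

namespace WPE

noncomputable section

variable {B : Type} [LieRing B] [LieAlgebra ℂ B] {κ : B →ₗ[ℂ] B →ₗ[ℂ] ℂ}
variable {Y : Type} [AddCommGroup Y] [Module ℂ Y] [LieRingModule B Y] [LieModule ℂ B Y]
variable {E : Type} [AddCommGroup E] [Module ℂ E] (X : GMod B Y κ E)

namespace FD11

/-- The vectors for which the statement holds. -/
def Wk (X : GMod B Y κ E) : Submodule ℂ (VC κ Y) where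
  carrier := {w | ∀ (n : ℤ) (t : B ⊗[ℂ] Y),
    (X.Yh ((cmod κ Y (TMod.triv B)).nop n t w)).1 = nprod n (X.nopFld t) (X.Yh w).1}
  add_mem' := by
    intro w w' hw hw' n t
    rw [map_add, map_add, map_add, Submodule.coe_add, Submodule.coe_add,
      nprod_add_right n (fd_nop_isFld X t) (X.Yh w).2 (X.Yh w').2, ← hw n t, ← hw' n t]
  zero_mem' := by
    intro n t
    rw [map_zero, map_zero]
    have h := nprod_smul_right n (0 : ℂ) (fd_nop_isFld X t) (b := 0) (Fld E).zero_mem
    rw [zero_smul, zero_smul] at h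
    exact h.symm
  smul_mem' := by
    intro c w hw n t
    rw [map_smul, map_smul, map_smul, Submodule.coe_smul, Submodule.coe_smul,
      nprod_smul_right n c (fd_nop_isFld X t) (X.Yh w).2, ← hw n t]

/-- The statement for the vacuum vector and a pure tensor. -/
theorem vac_tmul (n : ℤ) (c : B) (z : Y) :
    (X.Yh ((cmod κ Y (TMod.triv B)).nop n (c ⊗ₜ z) (cvac κ Y))).1 =
      nprod n (X.nopFld (c ⊗ₜ z)) (idFld E) := by
  rw [GMod.nop_tmul]
  by_cases hn : 0 ≤ n
  · rw [fd_id_nonneg n hn (fd_nop_isFld X _),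
      psum_eq_sum ((cmod κ Y (TMod.triv B)).lf_nopF n c z) (cvac κ Y) ∅, Finset.sum_empty,
      map_zero]
    · rfl
    · intro k _
      unfold GMod.nopF
      by_cases hk : k < 0
      · rw [if_pos hk, LinearMap.comp_apply, psi_cvac κ Y (n - 1 - k) (by omega), map_zero]
      · rw [if_neg hk, LinearMap.comp_apply, J_cvac κ Y k (by omega), map_zero]
  · obtain ⟨s, rfl⟩ : ∃ s : ℕ, n = -1 - (s : ℤ) := ⟨(-1 - n).toNat, by omega⟩
    have e : Function.Injective (fun j : ℕ => -1 - (j : ℤ)) := by
      intro i j h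
      have : -1 - (i : ℤ) = -1 - (j : ℤ) := h
      omega
    rw [psum_eq_sum ((cmod κ Y (TMod.triv B)).lf_nopF (-1 - (s : ℤ)) c z) (cvac κ Y)
      ((Finset.range (s + 1)).map ⟨fun j : ℕ => -1 - (j : ℤ), e⟩), Finset.sum_map, map_sum]
    · rw [fd_nopFld, fd_leibniz s (X.smooth.isFld c) (X.isFld_psiFld z),
        AddSubmonoidClass.coe_finsetSum]
      refine Finset.sum_congr rfl fun j hj => ?_
      rw [Finset.mem_range] at hj
      rw [Function.Embedding.coeFn_mk]
      unfold GMod.nopF
      rw [if_pos (by omega), LinearMap.comp_apply, Yh_J, Yh_psi X _ z _ (cvac_mem κ Y),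
        Yh_vac]
      congr 2
      omega
    · intro k hk
      unfold GMod.nopF
      by_cases hk0 : k < 0
      · have h1 : ¬ (-1 - k).toNat < s + 1 := by
          intro h
          apply hk
          rw [Finset.mem_map]
          refine ⟨(-1 - k).toNat, Finset.mem_range.2 h, ?_⟩
          rw [Function.Embedding.coeFn_mk]
          omega
        rw [if_pos hk0, LinearMap.comp_apply, psi_cvac κ Y _ (by omega), map_zero]
      · rw [if_neg hk0, LinearMap.comp_apply, J_cvac κ Y k (by omega), map_zero]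

/-- The statement for the vacuum vector. -/
theorem vac (n : ℤ) (t : B ⊗[ℂ] Y) :
    (X.Yh ((cmod κ Y (TMod.triv B)).nop n t (cvac κ Y))).1 = nprod n (X.nopFld t) (idFld E) := by
  induction t using TensorProduct.induction_on with
  | zero =>
    have h := nprod_smul_left n (0 : ℂ) (a := X.nopFld 0) (fd_nop_isFld X 0) (isFld_id (E := E))
    have h1 : X.nopFld 0 = 0 := by
      funext m
      exact map_zero _
    rw [h1, zero_smul, zero_smul] at h
    rw [h1, h, map_zero, LinearMap.zero_apply, map_zero]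
    rfl
  | tmul c z => exact vac_tmul X n c z
  | add t t' ht ht' =>
    have h1 : X.nopFld (t + t') = X.nopFld t + X.nopFld t' := by
      funext m
      exact map_add _ _ _
    rw [h1, nprod_add_left n (fd_nop_isFld X t) (fd_nop_isFld X t') isFld_id, ← ht, ← ht',
      map_add, LinearMap.add_apply, map_add, Submodule.coe_add]

theorem vac_mem : cvac κ Y ∈ Wk X := by
  intro n t
  rw [Yh_vac]
  exact vac X n t

end FD11

/-- FD-11 -/
theorem Yh_nop (n : ℤ) (t : B ⊗[ℂ] Y) (w : VC κ Y) (hw : w ∈ cpart κ Y (TMod.triv B) 0) :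
    (X.Yh ((cmod κ Y (TMod.triv B)).nop n t w)).1 = nprod n (X.nopFld t) (X.Yh w).1 := by
  have h : w ∈ FD11.Wk X := by
    refine cpart_induction (FD11.Wk X) ?_ ?_ hw
    · intro v
      have e : Ind.incl κ (TMod.gt Y (TMod.triv B)).toTMod (KNpr Y ℂ 0 v) = v.1 • cvac κ Y := by
        unfold cvac
        rw [← map_smul, KNpr_zero]
        congr 1
        refine Prod.ext ?_ (Prod.ext ?_ ?_)
        · show v.1 = v.1 • (1 : ℂ)
          rw [smul_eq_mul, mul_one]
        · exact (smul_zero v.1).symm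
        · exact (smul_zero v.1).symm
      rw [e]
      exact Submodule.smul_mem _ _ (FD11.vac_mem X)
    · intro m a x hx hxW n t
      have h1 := fd_nop_comm (cmod κ Y (TMod.triv B)) m n a t x
      have h2 : (cmod κ Y (TMod.triv B)).nop n t ((cmod κ Y (TMod.triv B)).J m a x) =
          (cmod κ Y (TMod.triv B)).J m a ((cmod κ Y (TMod.triv B)).nop n t x) -
          ((cmod κ Y (TMod.triv B)).nop (m + n) ⁅a, t⁆ x +
            (m : ℂ) • (cmod κ Y (TMod.triv B)).ψ (m + n - 1) (GMod.brk κ Y a t) x) := by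
        rw [← h1]
        abel
      rw [h2, map_sub, map_add, map_smul, Submodule.coe_sub, Submodule.coe_add,
        Submodule.coe_smul, Yh_J, Yh_J, hxW n t, hxW (m + n) ⁅a, t⁆,
        Yh_psi X _ _ x hx]
      have h3 := nprod_comm (c := X.nopFld ⁅a, t⁆) (d := X.psiFld (GMod.brk κ Y a t))
        (X.smooth.isFld a) (fd_nop_isFld X t) (fd_nop_isFld X ⁅a, t⁆)
        (X.isFld_psiFld _) (X.Yh x).2 (by
          intro m n
          ext y
          exact fd_nop_comm X m n a t y) m n
      rw [← h3]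
      abel
  exact h n t

end

end WPE
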