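import Pool.Agent.WPE.FD11

/-! WPE, block FD, row FD12: the state-field correspondence and the operators `q(a)(m)`. -/

open scoped TensorProduct
open WPQ.AF (IsFld)

namespace WPE

section

variable {B : Type} [LieRing B] [LieAlgebra ℂ B] {κ : B →ₗ[ℂ] B →ₗ[ℂ] ℂ}
variable {Y : Type} [AddCommGroup Y] [Module ℂ Y] [LieRingModule B Y] [LieModule ℂ B Y]
variable {E : Type} [AddCommGroup E] [Module ℂ E] (X : GMod B Y κ E)

namespace FD12

theorem isFld_dz {b : ℤ → E →ₗ[ℂ] E} (hb : IsFld b) : IsFld (dz b) := by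
  intro x
  obtain ⟨N, hN⟩ := hb x
  refine ⟨N + 1, fun n hn => ?_⟩
  unfold dz
  rw [LinearMap.smul_apply, hN _ (by omega), smul_zero]

/-- The field of the operators `q(a)(m)`. -/
theorem qq_eq (Om : B →ₗ[ℂ] B ⊗[ℂ] Y) (Lm Fm : B →ₗ[ℂ] Y) (a : B) :
    (fun m => X.qq Om Lm Fm m a) =
      X.nopFld (Om a) + dz (X.psiFld (Lm a)) + X.psiFld (Fm a) := by
  funext m
  refine LinearMap.ext fun x => ?_
  have e : (X.nopFld (Om a) + dz (X.psiFld (Lm a)) + X.psiFld (Fm a)) m x =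
      X.nop m (Om a) x + (-(m : ℂ)) • X.ψ (m - 1) (Lm a) x + X.ψ m (Fm a) x := rfl
  rw [e, X.qq_apply, neg_smul, ← sub_eq_add_neg]

end FD12

theorem Yh_qq (Om : B →ₗ[ℂ] B ⊗[ℂ] Y) (Lm Fm : B →ₗ[ℂ] Y) (n : ℤ) (a : B) (w : VC κ Y)
    (hw : w ∈ cpart κ Y (TMod.triv B) 0) :
    (X.Yh ((cmod κ Y (TMod.triv B)).qq Om Lm Fm n a w)).1 =
      nprod n (fun m => X.qq Om Lm Fm m a) (X.Yh w).1 := by
  have hY : IsFld (X.Yh w).1 := (X.Yh w).2
  have hO : IsFld (X.nopFld (Om a)) := fd_nop_isFld X (Om a)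
  have hD : IsFld (dz (X.psiFld (Lm a))) := FD12.isFld_dz (X.isFld_psiFld (Lm a))
  have hOD : IsFld (X.nopFld (Om a) + dz (X.psiFld (Lm a))) := (Fld E).add_mem hO hD
  have h1 := Yh_nop X n (Om a) w hw
  have h2 := Yh_psi X (n - 1) (Lm a) w hw
  have h3 := Yh_psi X n (Fm a) w hw
  rw [FD12.qq_eq X Om Lm Fm a, nprod_add_left n hOD (X.isFld_psiFld (Fm a)) hY,
    nprod_add_left n hO hD hY, fd_dz_left n (X.isFld_psiFld (Lm a)) hY, ← h1, ← h2, ← h3]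
  rw [(cmod κ Y (TMod.triv B)).qq_apply, map_add, map_sub, map_smul]
  rw [neg_smul, ← sub_eq_add_neg]
  rfl

end

end WPE
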