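import Pool.Agent.WPE.FDD

/-! WPE, block FD: definitions for the state-field correspondence; the statements of the block
(to be proved in rows) as `Prop`-valued definitions are in `FDS.lean`. -/

namespace WPE

open scoped TensorProduct
open WPQ.AF (IsFld)

noncomputable section

variable {B : Type} [LieRing B] [LieAlgebra ℂ B] {κ : B →ₗ[ℂ] B →ₗ[ℂ] ℂ}
variable {Y : Type} [AddCommGroup Y] [Module ℂ Y] [LieRingModule B Y] [LieModule ℂ B Y]
variable {E : Type} [AddCommGroup E] [Module ℂ E]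

/-- The bracket `[D, b_k]` of an operator with a family of modes. -/
def brD (D : E →ₗ[ℂ] E) (b : ℤ → E →ₗ[ℂ] E) : ℤ → E →ₗ[ℂ] E := fun k => D ∘ₗ b k - b k ∘ₗ D

/-- The derivative `(∂b)_k = -k b_{k-1}`. -/
def dz (b : ℤ → E →ₗ[ℂ] E) : ℤ → E →ₗ[ℂ] E := fun k => (-(k : ℂ)) • b (k - 1)

namespace GMod

variable (X : GMod B Y κ E)

/-- The ghost field `y(z)`. -/
def psiFld (y : Y) : ℤ → E →ₗ[ℂ] E := fun m => X.ψ m y

theorem isFld_psiFld (y : Y) : IsFld (X.psiFld y) := by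
  intro x
  obtain ⟨M, hM⟩ := X.smoothψ x
  exact ⟨M, fun m hm => hM m hm y⟩

/-- The field with the modes `t[m]`, `t ∈ B ⊗ Y`. -/
def nopFld (t : B ⊗[ℂ] Y) : ℤ → E →ₗ[ℂ] E := fun m => X.nop m t

/-- The operators `q(a)(m) = Ω(a)[m] - m ψ_{L a}(m-1) + ψ_{F a}(m)` for linear maps
`Ω : B → B ⊗ Y`, `L, F : B → Y`. -/
def qq (Om : B →ₗ[ℂ] B ⊗[ℂ] Y) (Lm Fm : B →ₗ[ℂ] Y) (m : ℤ) : B →ₗ[ℂ] E →ₗ[ℂ] E :=
  X.nop m ∘ₗ Om - (m : ℂ) • (X.ψ (m - 1) ∘ₗ Lm) + X.ψ m ∘ₗ Fm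

theorem qq_apply (Om : B →ₗ[ℂ] B ⊗[ℂ] Y) (Lm Fm : B →ₗ[ℂ] Y) (m : ℤ) (a : B) (x : E) :
    X.qq Om Lm Fm m a x = X.nop m (Om a) x - (m : ℂ) • X.ψ (m - 1) (Lm a) x + X.ψ m (Fm a) x :=
  rfl

/-- The field attached to a ghost, `y t^(-k-1) ↦ y(z)_(-1-k) id`. -/
def psiS : Gh Y →ₗ[ℂ] Fld E :=
  Finsupp.lsum ℂ fun k =>
    { toFun := fun y => ⟨nprod (-1 - (k : ℤ)) (X.psiFld y) (idFld E),
        isFld_nprod _ (X.isFld_psiFld y) isFld_id⟩
      map_add' := by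
        intro y y'
        refine Subtype.ext ?_
        have h : X.psiFld (y + y') = X.psiFld y + X.psiFld y' := by
          funext n
          exact map_add _ _ _
        show nprod (-1 - (k : ℤ)) (X.psiFld (y + y')) (idFld E) = _
        rw [h, nprod_add_left _ (X.isFld_psiFld y) (X.isFld_psiFld y') isFld_id]
        rfl
      map_smul' := by
        intro c y
        refine Subtype.ext ?_
        have h : X.psiFld (c • y) = c • X.psiFld y := by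
          funext n
          exact map_smul _ _ _
        show nprod (-1 - (k : ℤ)) (X.psiFld (c • y)) (idFld E) = _
        rw [h, nprod_smul_left _ c (X.isFld_psiFld y) isFld_id]
        rfl }

theorem psiS_single (k : ℕ) (y : Y) :
    (X.psiS (Finsupp.single k y)).1 = nprod (-1 - (k : ℤ)) (X.psiFld y) (idFld E) := by
  unfold psiS
  rw [Finsupp.lsum_single]
  rfl

/-- The map `(c, g ⊗ 1, t) ↦ c id + g(z)` from `ℂ ⊕ M ⊕ M ⊗ M` to the fields. -/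
def phiS : KN Y ℂ →ₗ[ℂ] Fld E :=
  (LinearMap.toSpanSingleton ℂ (Fld E) ⟨idFld E, isFld_id⟩) ∘ₗ LinearMap.fst ℂ _ _ +
    X.psiS ∘ₗ (TensorProduct.rid ℂ (Gh Y)).toLinearMap ∘ₗ LinearMap.fst ℂ _ _ ∘ₗ
      LinearMap.snd ℂ _ _

theorem phiS_apply (v : KN Y ℂ) : X.phiS v = v.1 • (⟨idFld E, isFld_id⟩ : Fld E) +
    X.psiS (TensorProduct.rid ℂ (Gh Y) v.2.1) := rfl

end GMod

end

end WPE
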