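import Pool.Agent.WPE.FD1
import Pool.Agent.WPE.FDE
import Pool.Agent.WPE.IND4

open scoped TensorProduct
open WPQ.AF (IsFld)

namespace WPE

noncomputable section

namespace FD8

section gen

variable {E : Type} [AddCommGroup E] [Module ℂ E]

theorem nprod_zero_right (n : ℤ) {a : ℤ → E →ₗ[ℂ] E} (ha : IsFld a) : nprod n a 0 = 0 := by
  have h := nprod_smul_right n (0 : ℂ) ha (isFld_id (E := E))
  rwa [zero_smul, zero_smul] at h

theorem nprod_zero_left (n : ℤ) {b : ℤ → E →ₗ[ℂ] E} (hb : IsFld b) : nprod n 0 b = 0 := by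
  have h := nprod_smul_left n (0 : ℂ) (isFld_id (E := E)) hb
  rwa [zero_smul, zero_smul] at h

end gen

variable {B : Type} [LieRing B] [LieAlgebra ℂ B] {κ : B →ₗ[ℂ] B →ₗ[ℂ] ℂ}
variable {Y : Type} [AddCommGroup Y] [Module ℂ Y] [LieRingModule B Y] [LieModule ℂ B Y]
variable {E : Type} [AddCommGroup E] [Module ℂ E] (X : GMod B Y κ E)

theorem id_zero (m : ℕ) (a : B) : nprod (m : ℤ) (X.toBMod.cur a) (idFld E) = 0 :=
  fd_id_nonneg (m : ℤ) (by omega) (X.smooth.isFld a)

theorem single (m : ℕ) (a : B) (k : ℕ) (y : Y) :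
    nprod (m : ℤ) (X.toBMod.cur a) (nprod (-1 - (k : ℤ)) (X.psiFld y) (idFld E)) =
      if m ≤ k then nprod (-1 - ((k - m : ℕ) : ℤ)) (X.psiFld ⁅a, y⁆) (idFld E) else 0 := by
  have h0 : IsFld (0 : ℤ → E →ₗ[ℂ] E) := (Fld E).zero_mem
  have h := nprod_comm (d := 0) (X.smooth.isFld a) (X.isFld_psiFld y) (X.isFld_psiFld ⁅a, y⁆) h0
    (isFld_id (E := E)) (by
      intro m n
      ext x
      have h1 := X.commψ m n a y x
      show X.J m a (X.ψ n y x) - X.ψ n y (X.J m a x) = X.ψ (m + n) ⁅a, y⁆ x +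
        (m : ℂ) • (0 : E →ₗ[ℂ] E) x
      rw [h1, LinearMap.zero_apply, smul_zero, add_zero]) (m : ℤ) (-1 - (k : ℤ))
  rw [id_zero, nprod_zero_right _ (X.isFld_psiFld y), sub_zero,
    nprod_zero_left _ (isFld_id (E := E)), smul_zero, add_zero] at h
  rw [h]
  split_ifs with hm
  · congr 1
    push_cast [Nat.cast_sub hm]
    ring
  · exact fd_id_nonneg _ (by omega) (X.isFld_psiFld ⁅a, y⁆)

theorem ghosts (m : ℕ) (a : B) (g : Gh Y) :
    (BMod.fld X.smooth).J m a (X.psiS g) = X.psiS (ghAct m a g) := by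
  induction g using Finsupp.induction_linear with
  | zero => simp only [map_zero]
  | add f g hf hg => rw [map_add, map_add, hf, hg, map_add, map_add]
  | single k y =>
    refine Subtype.ext ?_
    rw [BMod.fld_J, GMod.psiS_single, single, ghAct_single]
    split_ifs
    · rw [GMod.psiS_single]
    · rw [map_zero]; rfl

theorem rid_act (m : ℕ) (a : B) (w : Gh Y ⊗[ℂ] ℂ) :
    TensorProduct.rid ℂ (Gh Y) (((TMod.ghost B Y).tensor (TMod.triv B)).act m a w) =
      ghAct m a (TensorProduct.rid ℂ (Gh Y) w) := by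
  induction w using TensorProduct.induction_on with
  | zero => simp only [map_zero]
  | add x y hx hy => rw [map_add, map_add, hx, hy, map_add, map_add]
  | tmul g v =>
    rw [TMod.tensor_act, TMod.triv_act, TensorProduct.tmul_zero, add_zero, TensorProduct.rid_tmul,
      TensorProduct.rid_tmul, map_smul]
    rfl

end FD8

variable {B : Type} [LieRing B] [LieAlgebra ℂ B] {κ : B →ₗ[ℂ] B →ₗ[ℂ] ℂ}
variable {Y : Type} [AddCommGroup Y] [Module ℂ Y] [LieRingModule B Y] [LieModule ℂ B Y]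
variable {E : Type} [AddCommGroup E] [Module ℂ E] (X : GMod B Y κ E)

/-- FD-8 -/
theorem fd_phi_equi (m : ℕ) (a : B) (v : KN Y ℂ) :
    (BMod.fld X.smooth).J m a (X.phiS v) =
      X.phiS ((TMod.gt Y (TMod.triv B)).toTMod.act m a v) := by
  have h1 : (BMod.fld X.smooth).J m a (⟨idFld E, isFld_id⟩ : Fld E) = 0 := by
    refine Subtype.ext ?_
    rw [BMod.fld_J]
    exact FD8.id_zero X m a
  rw [GMod.phiS_apply, GMod.phiS_apply, gt_act, map_add, map_smul, h1, smul_zero, zero_add,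
    FD8.ghosts, TMod.triv_act, zero_smul, zero_add, FD8.rid_act]

end

end WPE
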