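import Pool.Agent.WPE.IND3
import Pool.Agent.WPQ.AFD

/-! WPE, block FD: fields on one space, the products `a_(n) b` for all integers `n`, and the
commutator formula for them (FD2). -/

namespace WPE

open scoped TensorProduct
open WPQ.AF (IsFld)

noncomputable section

/-- The space of fields on `E`. -/
def Fld (E : Type) [AddCommGroup E] [Module ℂ E] : Submodule ℂ (ℤ → E →ₗ[ℂ] E) where
  carrier := {b | IsFld b}
  add_mem' := by
    intro a b ha hb v
    obtain ⟨N, hN⟩ := ha v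
    obtain ⟨N', hN'⟩ := hb v
    refine ⟨max N N', fun n hn => ?_⟩
    rw [Pi.add_apply, LinearMap.add_apply, hN n (le_trans (le_max_left _ _) hn),
      hN' n (le_trans (le_max_right _ _) hn), add_zero]
  zero_mem' := fun v => ⟨0, fun n _ => rfl⟩
  smul_mem' := by
    intro c a ha v
    obtain ⟨N, hN⟩ := ha v
    exact ⟨N, fun n hn => by rw [Pi.smul_apply, LinearMap.smul_apply, hN n hn, smul_zero]⟩

section nprod

variable {E : Type} [AddCommGroup E] [Module ℂ E]

/-- The coefficient `(-1)^j C(n,j)`. -/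
def cf (n : ℤ) (j : ℕ) : ℂ := (-1 : ℂ) ^ j * ((Ring.choose n j : ℤ) : ℂ)

/-- The terms of the left part of `(a_(n) b)_k`. -/
def tL (n : ℤ) (a b : ℤ → E →ₗ[ℂ] E) (k : ℤ) (j : ℕ) : E →ₗ[ℂ] E :=
  cf n j • (a (n - j) ∘ₗ b (k + j))

/-- The terms of the right part of `(a_(n) b)_k`. -/
def tR (n : ℤ) (a b : ℤ → E →ₗ[ℂ] E) (k : ℤ) (j : ℕ) : E →ₗ[ℂ] E :=
  ((-1 : ℂ) ^ n * cf n j) • (b (n + k - j) ∘ₗ a j)

theorem lf_tL (n : ℤ) (a : ℤ → E →ₗ[ℂ] E) {b : ℤ → E →ₗ[ℂ] E} (hb : IsFld b) (k : ℤ) :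
    LF (tL n a b k) := by
  refine LF.of_finset fun x => ?_
  obtain ⟨N, hN⟩ := hb x
  refine ⟨Finset.range (N - k).toNat, fun j hj => ?_⟩
  rw [Finset.mem_range, not_lt] at hj
  unfold tL
  rw [LinearMap.smul_apply, LinearMap.comp_apply, hN _ (by omega), map_zero, smul_zero]

theorem lf_tR (n : ℤ) {a : ℤ → E →ₗ[ℂ] E} (ha : IsFld a) (b : ℤ → E →ₗ[ℂ] E) (k : ℤ) :
    LF (tR n a b k) := by
  refine LF.of_finset fun x => ?_
  obtain ⟨N, hN⟩ := ha x
  refine ⟨Finset.range N.toNat, fun j hj => ?_⟩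
  rw [Finset.mem_range, not_lt] at hj
  unfold tR
  rw [LinearMap.smul_apply, LinearMap.comp_apply, hN _ (by omega), map_zero, smul_zero]

/-- The left part of `a_(n) b`. -/
def nL (n : ℤ) (a b : ℤ → E →ₗ[ℂ] E) : ℤ → E →ₗ[ℂ] E := fun k => psum (tL n a b k)

/-- The right part of `a_(n) b`. -/
def nR (n : ℤ) (a b : ℤ → E →ₗ[ℂ] E) : ℤ → E →ₗ[ℂ] E := fun k => psum (tR n a b k)

/-- The product `a_(n) b`, `n ∈ ℤ`:
`(a_(n) b)_k = ∑_j (-1)^j C(n,j) (a_{n-j} b_{k+j} - (-1)^n b_{n+k-j} a_j)`. -/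
def nprod (n : ℤ) (a b : ℤ → E →ₗ[ℂ] E) : ℤ → E →ₗ[ℂ] E := fun k => nL n a b k - nR n a b k

theorem nL_eq (n : ℤ) (a : ℤ → E →ₗ[ℂ] E) {b : ℤ → E →ₗ[ℂ] E} (hb : IsFld b) (x : E) :
    ∃ N0 : ℤ, (∀ k ≥ N0, nL n a b k x = 0) ∧ ∀ (k : ℤ) (N : ℕ), N0 - k ≤ N →
      nL n a b k x = ∑ j ∈ Finset.range N, cf n j • a (n - j) (b (k + j) x) := by
  obtain ⟨N0, hN0⟩ := hb x
  have key : ∀ (k : ℤ) (N : ℕ), N0 - k ≤ N →
      nL n a b k x = ∑ j ∈ Finset.range N, cf n j • a (n - j) (b (k + j) x) := by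
    intro k N hN
    unfold nL
    rw [psum_eq_sum (lf_tL n a hb k) x (Finset.range N)]
    · rfl
    · intro j hj
      rw [Finset.mem_range, not_lt] at hj
      unfold tL
      rw [LinearMap.smul_apply, LinearMap.comp_apply, hN0 _ (by omega), map_zero, smul_zero]
  refine ⟨N0, fun k hk => ?_, key⟩
  have h := key k 0 (by simpa using hk)
  rw [h]
  rfl

theorem nR_eq (n : ℤ) {a : ℤ → E →ₗ[ℂ] E} (ha : IsFld a) (b : ℤ → E →ₗ[ℂ] E) (x : E) :
    ∃ N0 : ℕ, ∀ (k : ℤ) (N : ℕ), N0 ≤ N → nR n a b k x =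
      ∑ j ∈ Finset.range N, ((-1 : ℂ) ^ n * cf n j) • b (n + k - j) (a j x) := by
  obtain ⟨N0, hN0⟩ := ha x
  refine ⟨N0.toNat, fun k N hN => ?_⟩
  unfold nR
  rw [psum_eq_sum (lf_tR n ha b k) x (Finset.range N)]
  · rfl
  · intro j hj
    rw [Finset.mem_range, not_lt] at hj
    unfold tR
    rw [LinearMap.smul_apply, LinearMap.comp_apply, hN0 _ (by omega), map_zero, smul_zero]

theorem isFld_nL (n : ℤ) (a : ℤ → E →ₗ[ℂ] E) {b : ℤ → E →ₗ[ℂ] E} (hb : IsFld b) :
    IsFld (nL n a b) := by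
  intro x
  obtain ⟨N0, h0, _⟩ := nL_eq n a hb x
  exact ⟨N0, h0⟩

theorem isFld_nR (n : ℤ) {a b : ℤ → E →ₗ[ℂ] E} (ha : IsFld a) (hb : IsFld b) :
    IsFld (nR n a b) := by
  intro x
  obtain ⟨N0, h0⟩ := nR_eq n ha b x
  have h1 : ∀ J : ℕ, ∃ M : ℤ, ∀ m ≥ M, ∀ j < J, b m (a j x) = 0 := by
    intro J
    induction J with
    | zero => exact ⟨0, fun m _ j hj => absurd hj (Nat.not_lt_zero _)⟩
    | succ J ih =>
      obtain ⟨M, hM⟩ := ih
      obtain ⟨M', hM'⟩ := hb (a J x)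
      refine ⟨max M M', fun m hm j hj => ?_⟩
      rcases Nat.lt_succ_iff_lt_or_eq.1 hj with hj | rfl
      · exact hM m (le_trans (le_max_left _ _) hm) j hj
      · exact hM' m (le_trans (le_max_right _ _) hm)
  obtain ⟨M, hM⟩ := h1 N0
  refine ⟨M - n + N0, fun k hk => ?_⟩
  rw [h0 k N0 le_rfl]
  refine Finset.sum_eq_zero fun j hj => ?_
  rw [Finset.mem_range] at hj
  rw [hM _ (by omega) j hj, smul_zero]

theorem isFld_nprod (n : ℤ) {a b : ℤ → E →ₗ[ℂ] E} (ha : IsFld a) (hb : IsFld b) :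
    IsFld (nprod n a b) := by
  intro x
  obtain ⟨N, hN⟩ := isFld_nL n a hb x
  obtain ⟨N', hN'⟩ := isFld_nR n ha hb x
  refine ⟨max N N', fun k hk => ?_⟩
  unfold nprod
  rw [LinearMap.sub_apply, hN k (le_trans (le_max_left _ _) hk),
    hN' k (le_trans (le_max_right _ _) hk), sub_zero]

theorem nL_add_right (n : ℤ) (a : ℤ → E →ₗ[ℂ] E) {b b' : ℤ → E →ₗ[ℂ] E} (hb : IsFld b)
    (hb' : IsFld b') : nL n a (b + b') = nL n a b + nL n a b' := by
  funext k
  unfold nL
  rw [Pi.add_apply, ← psum_add (lf_tL n a hb k) (lf_tL n a hb' k)]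
  congr 1
  funext j
  unfold tL
  rw [Pi.add_apply, LinearMap.comp_add, smul_add]

theorem nL_smul_right (n : ℤ) (a : ℤ → E →ₗ[ℂ] E) (c : ℂ) {b : ℤ → E →ₗ[ℂ] E} (hb : IsFld b) :
    nL n a (c • b) = c • nL n a b := by
  funext k
  unfold nL
  rw [Pi.smul_apply, ← psum_smul c (lf_tL n a hb k)]
  congr 1
  funext j
  unfold tL
  rw [Pi.smul_apply, LinearMap.comp_smul, smul_comm]

theorem nL_add_left (n : ℤ) (a a' : ℤ → E →ₗ[ℂ] E) {b : ℤ → E →ₗ[ℂ] E} (hb : IsFld b) :
    nL n (a + a') b = nL n a b + nL n a' b := by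
  funext k
  unfold nL
  rw [Pi.add_apply, ← psum_add (lf_tL n a hb k) (lf_tL n a' hb k)]
  congr 1
  funext j
  unfold tL
  rw [Pi.add_apply, LinearMap.add_comp, smul_add]

theorem nL_smul_left (n : ℤ) (a : ℤ → E →ₗ[ℂ] E) (c : ℂ) {b : ℤ → E →ₗ[ℂ] E} (hb : IsFld b) :
    nL n (c • a) b = c • nL n a b := by
  funext k
  unfold nL
  rw [Pi.smul_apply, ← psum_smul c (lf_tL n a hb k)]
  congr 1
  funext j
  unfold tL
  rw [Pi.smul_apply, LinearMap.smul_comp, smul_comm]

theorem nR_add_right (n : ℤ) {a : ℤ → E →ₗ[ℂ] E} (ha : IsFld a) (b b' : ℤ → E →ₗ[ℂ] E) :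
    nR n a (b + b') = nR n a b + nR n a b' := by
  funext k
  unfold nR
  rw [Pi.add_apply, ← psum_add (lf_tR n ha b k) (lf_tR n ha b' k)]
  congr 1
  funext j
  unfold tR
  rw [Pi.add_apply, LinearMap.add_comp, smul_add]

theorem nR_smul_right (n : ℤ) {a : ℤ → E →ₗ[ℂ] E} (ha : IsFld a) (c : ℂ)
    (b : ℤ → E →ₗ[ℂ] E) : nR n a (c • b) = c • nR n a b := by
  funext k
  unfold nR
  rw [Pi.smul_apply, ← psum_smul c (lf_tR n ha b k)]
  congr 1
  funext j
  unfold tR
  rw [Pi.smul_apply, LinearMap.smul_comp, smul_comm]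

theorem nR_add_left (n : ℤ) {a a' : ℤ → E →ₗ[ℂ] E} (ha : IsFld a) (ha' : IsFld a')
    (b : ℤ → E →ₗ[ℂ] E) : nR n (a + a') b = nR n a b + nR n a' b := by
  funext k
  unfold nR
  rw [Pi.add_apply, ← psum_add (lf_tR n ha b k) (lf_tR n ha' b k)]
  congr 1
  funext j
  unfold tR
  rw [Pi.add_apply, LinearMap.comp_add, smul_add]

theorem nR_smul_left (n : ℤ) {a : ℤ → E →ₗ[ℂ] E} (ha : IsFld a) (c : ℂ)
    (b : ℤ → E →ₗ[ℂ] E) : nR n (c • a) b = c • nR n a b := by
  funext k
  unfold nR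
  rw [Pi.smul_apply, ← psum_smul c (lf_tR n ha b k)]
  congr 1
  funext j
  unfold tR
  rw [Pi.smul_apply, LinearMap.comp_smul, smul_comm]

theorem nprod_add_right (n : ℤ) {a b b' : ℤ → E →ₗ[ℂ] E} (ha : IsFld a) (hb : IsFld b)
    (hb' : IsFld b') : nprod n a (b + b') = nprod n a b + nprod n a b' := by
  funext k
  unfold nprod
  rw [nL_add_right n a hb hb', nR_add_right n ha]
  simp only [Pi.add_apply]
  abel

theorem nprod_smul_right (n : ℤ) (c : ℂ) {a b : ℤ → E →ₗ[ℂ] E} (ha : IsFld a) (hb : IsFld b) :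
    nprod n a (c • b) = c • nprod n a b := by
  funext k
  unfold nprod
  rw [nL_smul_right n a c hb, nR_smul_right n ha]
  simp only [Pi.smul_apply, smul_sub]

theorem nprod_add_left (n : ℤ) {a a' b : ℤ → E →ₗ[ℂ] E} (ha : IsFld a) (ha' : IsFld a')
    (hb : IsFld b) : nprod n (a + a') b = nprod n a b + nprod n a' b := by
  funext k
  unfold nprod
  rw [nL_add_left n a a' hb, nR_add_left n ha ha']
  simp only [Pi.add_apply]
  abel

theorem nprod_smul_left (n : ℤ) (c : ℂ) {a b : ℤ → E →ₗ[ℂ] E} (ha : IsFld a) (hb : IsFld b) :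
    nprod n (c • a) b = c • nprod n a b := by
  funext k
  unfold nprod
  rw [nL_smul_left n a c hb, nR_smul_left n ha]
  simp only [Pi.smul_apply, smul_sub]

/-! ### Binomial sums -/

theorem cf_vandermonde (m n : ℤ) (s : ℕ) :
    ∑ p ∈ Finset.HasAntidiagonal.antidiagonal s, cf m p.1 * cf n p.2 = cf (m + n) s := by
  unfold cf
  rw [Ring.add_choose_eq s (Commute.all m n)]
  push_cast
  rw [Finset.mul_sum]
  refine Finset.sum_congr rfl fun p hp => ?_
  rw [Finset.HasAntidiagonal.mem_antidiagonal] at hp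
  rw [← hp, pow_add]
  ring

theorem cf_succ_mul (m : ℤ) (j : ℕ) : ((j : ℂ) + 1) * cf m (j + 1) = -(m * cf (m - 1) j) := by
  have h1 := Ring.choose_smul_choose m (n := j + 1) (k := 1) (by omega)
  rw [Nat.choose_one_right, Ring.choose_one_right, Nat.add_sub_cancel, nsmul_eq_mul] at h1
  have h2 := congrArg (Int.cast : ℤ → ℂ) h1
  push_cast at h2
  unfold cf
  rw [pow_succ]
  linear_combination (-(-1 : ℂ) ^ j) * h2

theorem cf_sub_mul (m : ℤ) (j : ℕ) : ((m : ℂ) - j) * cf m j = m * cf (m - 1) j := by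
  have h1 := Ring.choose_smul_choose m (n := j + 1) (k := 1) (by omega)
  rw [Nat.choose_one_right, Ring.choose_one_right, Nat.add_sub_cancel, nsmul_eq_mul] at h1
  have h3 := Ring.choose_smul_choose m (n := j + 1) (k := j) (by omega)
  rw [Nat.choose_succ_self_right, Nat.add_sub_cancel_left, Ring.choose_one_right, nsmul_eq_mul,
    h1] at h3
  have h2 := congrArg (Int.cast : ℤ → ℂ) h3
  push_cast at h2
  unfold cf
  linear_combination (-(-1 : ℂ) ^ j) * h2

theorem sum_double (m n : ℤ) (G : ℕ → E) (N : ℕ) (hG : ∀ s ≥ N, G s = 0) :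
    ∑ j ∈ Finset.range N, ∑ i ∈ Finset.range N, (cf m j * cf n i) • G (j + i) =
      ∑ s ∈ Finset.range N, cf (m + n) s • G s := by
  have h1 : ∀ j ∈ Finset.range N, ∑ i ∈ Finset.range N, (cf m j * cf n i) • G (j + i) =
      ∑ i ∈ Finset.range (N - j), (cf m j * cf n i) • G (j + i) := by
    intro j hj
    symm
    refine Finset.sum_subset (Finset.range_mono (Nat.sub_le _ _)) fun i _ hi => ?_
    rw [Finset.mem_range, not_lt] at hi
    rw [hG _ (by omega), smul_zero]
  rw [Finset.sum_congr rfl h1, ← Finset.sum_range_diag_flip N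
    (fun j i => (cf m j * cf n i) • G (j + i))]
  refine Finset.sum_congr rfl fun s _ => ?_
  rw [← cf_vandermonde, Finset.sum_smul,
    Finset.Nat.sum_antidiagonal_eq_sum_range_succ (fun j i => (cf m j * cf n i) • G s)]
  refine Finset.sum_congr rfl fun j hj => ?_
  rw [Finset.mem_range] at hj
  rw [show j + (s - j) = s by omega]

theorem sum_double_sub (m n : ℤ) (G : ℕ → E) (N : ℕ) (hG : ∀ s ≥ N, G s = 0) :
    ∑ j ∈ Finset.range N, ∑ i ∈ Finset.range N, (((m : ℂ) - j) * (cf m j * cf n i)) • G (j + i) =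
      (m : ℂ) • ∑ s ∈ Finset.range N, cf (m + n - 1) s • G s := by
  rw [show m + n - 1 = (m - 1) + n by ring, ← sum_double (m - 1) n G N hG, Finset.smul_sum]
  refine Finset.sum_congr rfl fun j _ => ?_
  rw [Finset.smul_sum]
  refine Finset.sum_congr rfl fun i _ => ?_
  rw [smul_smul, ← mul_assoc, cf_sub_mul, mul_assoc]

theorem sum_double_mul (m n : ℤ) (G : ℕ → E) (N : ℕ) (hG : ∀ s ≥ N, G s = 0) :
    ∑ j ∈ Finset.range N, ∑ i ∈ Finset.range N, ((j : ℂ) * (cf m j * cf n i)) • G (j + i) =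
      -((m : ℂ) • ∑ s ∈ Finset.range N, cf (m + n - 1) s • G (s + 1)) := by
  rw [show m + n - 1 = (m - 1) + n by ring,
    ← sum_double (m - 1) n (fun s => G (s + 1)) N (fun s hs => hG _ (by omega)),
    Finset.smul_sum, ← Finset.sum_neg_distrib]
  rcases N with _ | N
  · simp
  rw [Finset.sum_range_succ' (fun j => ∑ i ∈ Finset.range (N + 1),
    ((j : ℂ) * (cf m j * cf n i)) • G (j + i))]
  rw [Finset.sum_range_succ (fun j => -((m : ℂ) • ∑ i ∈ Finset.range (N + 1),
    (cf (m - 1) j * cf n i) • G (j + i + 1)))]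
  have h0 : ∑ i ∈ Finset.range (N + 1), (((0 : ℕ) : ℂ) * (cf m 0 * cf n i)) • G (0 + i) = 0 := by
    refine Finset.sum_eq_zero fun i _ => ?_
    rw [Nat.cast_zero, zero_mul, zero_smul]
  have h1 : -((m : ℂ) • ∑ i ∈ Finset.range (N + 1),
      (cf (m - 1) N * cf n i) • G (N + i + 1)) = 0 := by
    rw [Finset.sum_eq_zero, smul_zero, neg_zero]
    intro i _
    rw [hG _ (by omega), smul_zero]
  rw [h0, h1, add_zero, add_zero]
  refine Finset.sum_congr rfl fun j _ => ?_
  rw [Finset.smul_sum, ← Finset.sum_neg_distrib]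
  refine Finset.sum_congr rfl fun i _ => ?_
  rw [smul_smul, ← neg_smul, show j + 1 + i = j + i + 1 by omega]
  congr 1
  have h2 := cf_succ_mul m j
  push_cast
  linear_combination cf n i * h2

/-! ### The commutator formula -/

variable {a u c d b : ℤ → E →ₗ[ℂ] E}

theorem nL_nL (m n k : ℤ) (hb : IsFld b) (x : E) : ∃ N0 : ℕ, ∀ N ≥ N0,
    nL m a (nL n u b) k x = ∑ j ∈ Finset.range N, ∑ i ∈ Finset.range N,
      (cf m j * cf n i) • a (m - j) (u (n - i) (b (k + (j + i : ℕ)) x)) := by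
  obtain ⟨N1, h1, h1'⟩ := nL_eq n u hb x
  obtain ⟨N2, -, h2⟩ := nL_eq m a (isFld_nL n u hb) x
  refine ⟨(max N1 N2 - k).toNat, fun N hN => ?_⟩
  rw [h2 k N (by omega)]
  refine Finset.sum_congr rfl fun j _ => ?_
  rw [h1' (k + j) N (by omega), map_sum, Finset.smul_sum]
  refine Finset.sum_congr rfl fun i _ => ?_
  rw [map_smul, smul_smul]
  push_cast
  rw [add_assoc]

theorem nR_nR (m n k : ℤ) (ha : IsFld a) (hu : IsFld u) (x : E) :
    ∃ N0 : ℕ, ∀ N ≥ N0, nR m a (nR n u b) k x =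
      ∑ j ∈ Finset.range N, ∑ i ∈ Finset.range N,
        ((-1 : ℂ) ^ (m + n) * (cf m j * cf n i)) •
          b (m + n + k - (j + i : ℕ)) (u i (a j x)) := by
  obtain ⟨N1, h1⟩ := ha x
  obtain ⟨N3, h3⟩ := nR_eq m ha (nR n u b) x
  have h2 : ∀ J : ℕ, ∃ M : ℕ, ∀ j < J, ∀ (k : ℤ) (N : ℕ), M ≤ N → nR n u b k (a j x) =
      ∑ i ∈ Finset.range N, ((-1 : ℂ) ^ n * cf n i) • b (n + k - i) (u i (a j x)) := by
    intro J
    induction J with
    | zero => exact ⟨0, fun j hj => absurd hj (Nat.not_lt_zero _)⟩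
    | succ J ih =>
      obtain ⟨M, hM⟩ := ih
      obtain ⟨M', hM'⟩ := nR_eq n hu b (a J x)
      refine ⟨max M M', fun j hj k N hN => ?_⟩
      rcases Nat.lt_succ_iff_lt_or_eq.1 hj with hj | rfl
      · exact hM j hj k N (le_trans (le_max_left _ _) hN)
      · exact hM' k N (le_trans (le_max_right _ _) hN)
  obtain ⟨M, hM⟩ := h2 N1.toNat
  refine ⟨max N3 M, fun N hN => ?_⟩
  rw [h3 k N (le_trans (le_max_left _ _) hN)]
  refine Finset.sum_congr rfl fun j _ => ?_
  by_cases hj : j < N1.toNat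
  · rw [hM j hj _ N (le_trans (le_max_right _ _) hN), Finset.smul_sum]
    refine Finset.sum_congr rfl fun i _ => ?_
    rw [smul_smul, zpow_add₀ (by norm_num)]
    congr 1
    · ring
    · congr 2
      push_cast
      ring
  · have h4 : a j x = 0 := h1 _ (by omega)
    rw [h4, map_zero, smul_zero]
    symm
    refine Finset.sum_eq_zero fun i _ => ?_
    rw [map_zero, map_zero, smul_zero]

theorem nL_nR (m n k : ℤ) (hu : IsFld u) (hb : IsFld b) (x : E) :
    ∃ N0 : ℕ, ∀ N ≥ N0, nL m a (nR n u b) k x =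
      ∑ j ∈ Finset.range N, ∑ i ∈ Finset.range N,
        ((-1 : ℂ) ^ n * (cf m j * cf n i)) • a (m - j) (b (n + k + j - i) (u i x)) := by
  obtain ⟨N1, h1⟩ := nR_eq n hu b x
  obtain ⟨N2, -, h2⟩ := nL_eq m a (isFld_nR n hu hb) x
  refine ⟨max N1 (N2 - k).toNat, fun N hN => ?_⟩
  rw [h2 k N (by omega)]
  refine Finset.sum_congr rfl fun j _ => ?_
  rw [h1 _ N (by omega), map_sum, Finset.smul_sum]
  refine Finset.sum_congr rfl fun i _ => ?_
  rw [map_smul, smul_smul, ← add_assoc]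
  congr 1
  ring

theorem nR_nL (m n k : ℤ) (hu : IsFld u) (hb : IsFld b) (x : E) :
    ∃ N0 : ℕ, ∀ N ≥ N0, nR n u (nL m a b) k x =
      ∑ j ∈ Finset.range N, ∑ i ∈ Finset.range N,
        ((-1 : ℂ) ^ n * (cf m j * cf n i)) • a (m - j) (b (n + k + j - i) (u i x)) := by
  obtain ⟨N1, h1⟩ := hu x
  obtain ⟨N3, h3⟩ := nR_eq n hu (nL m a b) x
  have h2 : ∀ J : ℕ, ∃ M : ℤ, ∀ i < J, ∀ (k : ℤ) (N : ℕ), M - k ≤ N → nL m a b k (u i x) =
      ∑ j ∈ Finset.range N, cf m j • a (m - j) (b (k + j) (u i x)) := by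
    intro J
    induction J with
    | zero => exact ⟨0, fun j hj => absurd hj (Nat.not_lt_zero _)⟩
    | succ J ih =>
      obtain ⟨M, hM⟩ := ih
      obtain ⟨M', -, hM'⟩ := nL_eq m a hb (u J x)
      refine ⟨max M M', fun j hj k N hN => ?_⟩
      rcases Nat.lt_succ_iff_lt_or_eq.1 hj with hj | rfl
      · exact hM j hj k N (by omega)
      · exact hM' k N (by omega)
  obtain ⟨M, hM⟩ := h2 N1.toNat
  refine ⟨max (max N3 N1.toNat) (M - (n + k) + N1.toNat).toNat, fun N hN => ?_⟩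
  rw [h3 k N (by omega), Finset.sum_comm]
  refine Finset.sum_congr rfl fun i _ => ?_
  by_cases hi : i < N1.toNat
  · rw [hM i hi _ N (by omega), Finset.smul_sum]
    refine Finset.sum_congr rfl fun j _ => ?_
    rw [smul_smul]
    congr 1
    · ring
    · congr 3
      ring
  · have h4 : u i x = 0 := h1 _ (by omega)
    rw [h4, map_zero, smul_zero]
    symm
    refine Finset.sum_eq_zero fun j _ => ?_
    rw [map_zero, map_zero, smul_zero]

theorem nL_nR_comm (m n : ℤ) (hu : IsFld u) (hb : IsFld b) :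
    nL m a (nR n u b) = nR n u (nL m a b) := by
  funext k
  ext x
  obtain ⟨N1, h1⟩ := nL_nR (a := a) m n k hu hb x
  obtain ⟨N2, h2⟩ := nR_nL (a := a) m n k hu hb x
  rw [h1 (max N1 N2) (le_max_left _ _), h2 (max N1 N2) (le_max_right _ _)]

theorem nL_comm (hd : IsFld b)
    (H : ∀ m n : ℤ, a m ∘ₗ u n - u n ∘ₗ a m = c (m + n) + (m : ℂ) • d (m + n - 1)) (m n : ℤ) :
    nL m a (nL n u b) - nL n u (nL m a b) =
      nL (m + n) c b + (m : ℂ) • nL (m + n - 1) d b := by
  funext k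
  ext x
  obtain ⟨N1, h1⟩ := nL_nL (a := a) (u := u) m n k hd x
  obtain ⟨N2, h2⟩ := nL_nL (a := u) (u := a) n m k hd x
  obtain ⟨N3, -, h3⟩ := nL_eq (m + n) c hd x
  obtain ⟨N4, -, h4⟩ := nL_eq (m + n - 1) d hd x
  obtain ⟨N5, h5⟩ := hd x
  obtain ⟨N, hN⟩ : ∃ N : ℕ, N = max (max N1 N2) (max (max (N3 - k).toNat (N4 - k).toNat)
    (N5 - k).toNat) := ⟨_, rfl⟩
  have e1 := h1 N (by omega)
  have e2 := h2 N (by omega)
  have e3 := h3 k N (by omega)
  have e4 := h4 k N (by omega)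
  simp only [Pi.sub_apply, Pi.add_apply, Pi.smul_apply, LinearMap.sub_apply, LinearMap.add_apply,
    LinearMap.smul_apply]
  rw [e1, e2, e3, e4, Finset.sum_comm (f := fun j i => (cf n j * cf m i) •
    u (n - j) (a (m - i) (b (k + (j + i : ℕ)) x)))]
  rw [← sum_double m n (fun s => c (m + n - s) (b (k + s) x)) N (fun s hs => by
    rw [h5 _ (by omega), map_zero])]
  rw [← sum_double_sub m n (fun s => d (m + n - 1 - s) (b (k + s) x)) N (fun s hs => by
    rw [h5 _ (by omega), map_zero])]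
  rw [← Finset.sum_sub_distrib, ← Finset.sum_add_distrib]
  refine Finset.sum_congr rfl fun j _ => ?_
  rw [← Finset.sum_sub_distrib, ← Finset.sum_add_distrib]
  refine Finset.sum_congr rfl fun i _ => ?_
  have h6 := LinearMap.congr_fun (H (m - j) (n - i)) (b (k + (j + i : ℕ)) x)
  simp only [LinearMap.sub_apply, LinearMap.comp_apply, LinearMap.add_apply,
    LinearMap.smul_apply] at h6
  rw [mul_comm (cf n i), add_comm i j, ← smul_sub, h6, smul_add, smul_smul]
  push_cast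
  rw [show m - (j : ℤ) + (n - i) = m + n - (j + i) by ring,
    show m + n - ((j : ℤ) + i) - 1 = m + n - 1 - (j + i) by ring,
    mul_comm ((m : ℂ) - j)]

theorem nR_comm (ha : IsFld a) (hu : IsFld u) (hc : IsFld c) (hd : IsFld d)
    (b : ℤ → E →ₗ[ℂ] E)
    (H : ∀ m n : ℤ, a m ∘ₗ u n - u n ∘ₗ a m = c (m + n) + (m : ℂ) • d (m + n - 1)) (m n : ℤ) :
    nR m a (nR n u b) - nR n u (nR m a b) =
      -(nR (m + n) c b + (m : ℂ) • nR (m + n - 1) d b) := by
  funext k
  ext x
  obtain ⟨N1, h1⟩ := nR_nR (b := b) m n k ha hu x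
  obtain ⟨N2, h2⟩ := nR_nR (b := b) n m k hu ha x
  obtain ⟨N3, h3⟩ := nR_eq (m + n) hc b x
  obtain ⟨N4, h4⟩ := nR_eq (m + n - 1) hd b x
  obtain ⟨N5, h5⟩ := hc x
  obtain ⟨N6, h6⟩ := hd x
  obtain ⟨N, hN⟩ : ∃ N : ℕ, N = max (max N1 N2) (max (max N3 N4)
    (max N5.toNat N6.toNat)) + 1 := ⟨_, rfl⟩
  have e1 := h1 N (by omega)
  have e2 := h2 N (by omega)
  have e3 := h3 k N (by omega)
  have e4 := h4 k N (by omega)
  have e5 := sum_double m n (fun s => b (m + n + k - s) (c s x)) N (fun s hs => by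
    rw [h5 _ (by omega), map_zero])
  have e6 := sum_double_mul m n (fun s => b (m + n + k - s) (d (s - 1) x)) N (fun s hs => by
    rw [h6 _ (by omega), map_zero])
  simp only [Pi.sub_apply, Pi.add_apply, Pi.smul_apply, Pi.neg_apply, LinearMap.sub_apply,
    LinearMap.add_apply, LinearMap.smul_apply, LinearMap.neg_apply]
  have f3 : nR (m + n) c b k x = (-1 : ℂ) ^ (m + n) • ∑ s ∈ Finset.range N,
      cf (m + n) s • b (m + n + k - s) (c s x) := by
    rw [e3, Finset.smul_sum]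
    refine Finset.sum_congr rfl fun s _ => ?_
    rw [smul_smul]
  have f4 : nR (m + n - 1) d b k x = -((-1 : ℂ) ^ (m + n) • ∑ s ∈ Finset.range N,
      cf (m + n - 1) s • b (m + n + k - (s + 1 : ℕ)) (d ((s + 1 : ℕ) - 1) x)) := by
    rw [e4, Finset.smul_sum, ← Finset.sum_neg_distrib]
    refine Finset.sum_congr rfl fun s _ => ?_
    rw [smul_smul, ← neg_smul, zpow_sub₀ (by norm_num : (-1 : ℂ) ≠ 0), zpow_one]
    push_cast
    rw [add_sub_cancel_right, show m + n - 1 + k - (s : ℤ) = m + n + k - (s + 1) by ring]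
    congr 1
    ring
  rw [f3, f4, ← e5, smul_neg, ← smul_comm ((-1 : ℂ) ^ (m + n)) (m : ℂ), ← sub_eq_add_neg]
  have e7 : (m : ℂ) • ∑ s ∈ Finset.range N, cf (m + n - 1) s •
      b (m + n + k - (s + 1 : ℕ)) (d ((s + 1 : ℕ) - 1) x) =
      -∑ j ∈ Finset.range N, ∑ i ∈ Finset.range N, ((j : ℂ) * (cf m j * cf n i)) •
        b (m + n + k - (j + i : ℕ)) (d ((j + i : ℕ) - 1) x) := by
    rw [e6, neg_neg]
  rw [e7, smul_neg, sub_neg_eq_add, ← smul_add, ← Finset.sum_add_distrib, e1, e2,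
    Finset.sum_comm (f := fun j i => ((-1 : ℂ) ^ (n + m) * (cf n j * cf m i)) •
    b (n + m + k - (j + i : ℕ)) (a i (u j x))), ← Finset.sum_sub_distrib, Finset.smul_sum,
    ← Finset.sum_neg_distrib]
  refine Finset.sum_congr rfl fun j _ => ?_
  rw [← Finset.sum_sub_distrib, ← Finset.sum_add_distrib, Finset.smul_sum,
    ← Finset.sum_neg_distrib]
  refine Finset.sum_congr rfl fun i _ => ?_
  have h7 := LinearMap.congr_fun (H j i) x
  simp only [LinearMap.sub_apply, LinearMap.comp_apply, LinearMap.add_apply,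
    LinearMap.smul_apply] at h7
  rw [mul_comm (cf n i), add_comm i j, add_comm n m, ← smul_sub, ← map_sub,
    ← neg_sub (a j (u i x)), h7, map_neg, map_add, map_smul]
  push_cast
  rw [smul_neg, smul_add, smul_add, smul_smul, smul_smul, smul_smul]
  congr 3
  ring

/-- FD2: the commutator formula for products of fields. -/
theorem nprod_comm (ha : IsFld a) (hu : IsFld u) (hc : IsFld c) (hd : IsFld d) (hb : IsFld b)
    (H : ∀ m n : ℤ, a m ∘ₗ u n - u n ∘ₗ a m = c (m + n) + (m : ℂ) • d (m + n - 1)) (m n : ℤ) :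
    nprod m a (nprod n u b) - nprod n u (nprod m a b) =
      nprod (m + n) c b + (m : ℂ) • nprod (m + n - 1) d b := by
  have h1 := nL_comm hb H m n
  have h2 := nR_comm ha hu hc hd b H m n
  have h3 := nL_nR_comm (a := a) m n hu hb
  have h4 := nL_nR_comm (a := u) n m ha hb
  have e : ∀ (m n : ℤ) (a u : ℤ → E →ₗ[ℂ] E) (ha : IsFld a) (hu : IsFld u),
      nprod m a (nprod n u b) = nL m a (nL n u b) - nL m a (nR n u b) - nR m a (nL n u b) +
        nR m a (nR n u b) := by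
    intro m n a u ha hu
    have e1 : nprod n u b = nL n u b + (-1 : ℂ) • nR n u b := by
      funext k
      unfold nprod
      rw [Pi.add_apply, Pi.smul_apply, neg_smul, one_smul, sub_eq_add_neg]
    have f1 := isFld_nL n u hb
    have f2 := isFld_nR n hu hb
    have f3 : IsFld ((-1 : ℂ) • nR n u b) := (Fld E).smul_mem _ f2
    funext k
    show nL m a (nprod n u b) k - nR m a (nprod n u b) k = _
    rw [e1, nL_add_right m a f1 f3, nR_add_right m ha, nL_smul_right m a _ f2,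
      nR_smul_right m ha]
    simp only [Pi.add_apply, Pi.sub_apply, neg_smul, one_smul, Pi.neg_apply]
    abel
  rw [e m n a u ha hu, e n m u a hu ha, h3, ← h4]
  have e2 : nprod (m + n) c b + (m : ℂ) • nprod (m + n - 1) d b =
      (nL (m + n) c b + (m : ℂ) • nL (m + n - 1) d b) -
      (nR (m + n) c b + (m : ℂ) • nR (m + n - 1) d b) := by
    funext k
    simp only [Pi.add_apply, Pi.sub_apply, Pi.smul_apply, nprod, smul_sub]
    abel
  rw [e2, ← h1, sub_eq_add_neg _ (nR (m + n) c b + _), ← h2]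
  abel

end nprod

section fld

variable {B : Type} [LieRing B] [LieAlgebra ℂ B] {κ : B →ₗ[ℂ] B →ₗ[ℂ] ℂ}
variable {E : Type} [AddCommGroup E] [Module ℂ E] (X : BMod κ E)

/-- The current `a(z)` as a family of modes. -/
def BMod.cur (a : B) : ℤ → E →ₗ[ℂ] E := fun n => X.J n a

variable {X}

theorem BMod.Smooth.isFld (hX : X.Smooth) (a : B) : IsFld (X.cur a) := by
  intro x
  obtain ⟨M, hM⟩ := hX x
  exact ⟨M, fun n hn => hM n hn a⟩

/-- The identity field. -/
def idFld (E : Type) [AddCommGroup E] [Module ℂ E] : ℤ → E →ₗ[ℂ] E :=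
  fun n => if n = -1 then LinearMap.id else 0

theorem isFld_id : IsFld (idFld E) := by
  intro x
  refine ⟨0, fun n hn => ?_⟩
  unfold idFld
  rw [if_neg (by omega)]
  rfl

theorem cf_zero_right (n : ℤ) : cf n 0 = 1 := by
  unfold cf
  rw [Ring.choose_zero_right]
  simp

/-- `(id)_(n) b = δ_{n,-1} b`. -/
theorem nprod_id_left (n : ℤ) {b : ℤ → E →ₗ[ℂ] E} (hb : IsFld b) :
    nprod n (idFld E) b = if n = -1 then b else 0 := by
  funext k
  ext x
  obtain ⟨N1, -, h1⟩ := nL_eq n (idFld E) hb x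
  obtain ⟨N2, h2⟩ := nR_eq n (isFld_id (E := E)) b x
  obtain ⟨N, hN⟩ : ∃ N : ℕ, N = max (max (N1 - k).toNat N2) (n + 2).toNat := ⟨_, rfl⟩
  have e1 := h1 k N (by omega)
  have e2 := h2 k N (by omega)
  have e3 : nR n (idFld E) b k x = 0 := by
    rw [e2]
    refine Finset.sum_eq_zero fun j _ => ?_
    unfold idFld
    rw [if_neg (by omega), LinearMap.zero_apply, map_zero, smul_zero]
  have e4 : nL n (idFld E) b k x = (if n = -1 then b else 0 : ℤ → E →ₗ[ℂ] E) k x := by
    rw [e1]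
    by_cases hn : n = -1
    · subst hn
      rw [if_pos rfl, Finset.sum_eq_single 0]
      · rw [cf_zero_right, one_smul]
        unfold idFld
        rw [if_pos (by simp), LinearMap.id_apply]
        simp
      · intro j _ hj
        unfold idFld
        rw [if_neg (by omega), LinearMap.zero_apply, smul_zero]
      · intro h
        rw [Finset.mem_range, not_lt] at h
        omega
    · rw [if_neg hn]
      refine Finset.sum_eq_zero fun j _ => ?_
      unfold idFld
      by_cases hj : n - j = -1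
      · obtain ⟨m, rfl⟩ : ∃ m : ℕ, n = m := ⟨n.toNat, by omega⟩
        have hj' : j = m + 1 := by omega
        subst hj'
        have h3 : cf (m : ℤ) (m + 1) = 0 := by
          unfold cf
          rw [Ring.choose_natCast, Nat.choose_succ_self]
          simp
        rw [h3, zero_smul]
      · rw [if_neg hj, LinearMap.zero_apply, smul_zero]
  show nL n (idFld E) b k x - nR n (idFld E) b k x = _
  rw [e3, e4, sub_zero]

/-- FD3: the fields on a smooth module form a module over the affinization. -/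
def BMod.fld (hX : X.Smooth) : BMod κ (Fld E) where
  J m :=
    { toFun := fun a =>
        { toFun := fun b => ⟨nprod m (X.cur a) b.1, isFld_nprod m (hX.isFld a) b.2⟩
          map_add' := fun b b' =>
            Subtype.ext (nprod_add_right m (hX.isFld a) b.2 b'.2)
          map_smul' := fun c b => Subtype.ext (nprod_smul_right m c (hX.isFld a) b.2) }
      map_add' := by
        intro a a'
        refine LinearMap.ext fun b => Subtype.ext ?_
        have h : X.cur (a + a') = X.cur a + X.cur a' := by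
          funext n
          exact map_add _ _ _
        show nprod m (X.cur (a + a')) b.1 = nprod m (X.cur a) b.1 + nprod m (X.cur a') b.1
        rw [h, nprod_add_left m (hX.isFld a) (hX.isFld a') b.2]
      map_smul' := by
        intro c a
        refine LinearMap.ext fun b => Subtype.ext ?_
        have h : X.cur (c • a) = c • X.cur a := by
          funext n
          exact map_smul _ _ _
        show nprod m (X.cur (c • a)) b.1 = c • nprod m (X.cur a) b.1
        rw [h, nprod_smul_left m c (hX.isFld a) b.2] }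
  comm := by
    intro m n a a' b
    refine Subtype.ext ?_
    have hid : IsFld ((κ a a') • idFld E) := (Fld E).smul_mem _ isFld_id
    have h := nprod_comm (c := X.cur ⁅a, a'⁆) (d := (κ a a') • idFld E) (hX.isFld a)
      (hX.isFld a') (hX.isFld ⁅a, a'⁆) hid b.2 (by
        intro m n
        ext x
        have h1 := X.comm m n a a' x
        show X.J m a (X.J n a' x) - X.J n a' (X.J m a x) = X.J (m + n) ⁅a, a'⁆ x +
          (m : ℂ) • (κ a a' • (if m + n - 1 = -1 then LinearMap.id else 0 : E →ₗ[ℂ] E) x)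
        rw [h1]
        unfold coc
        by_cases hmn : m + n = 0
        · rw [if_pos hmn, if_pos (by omega), LinearMap.id_apply, smul_smul]
        · rw [if_neg hmn, if_neg (by omega), LinearMap.zero_apply, smul_zero, smul_zero,
            zero_smul]) m n
    show nprod m (X.cur a) (nprod n (X.cur a') b.1) - nprod n (X.cur a') (nprod m (X.cur a) b.1) =
      nprod (m + n) (X.cur ⁅a, a'⁆) b.1 + coc κ m n a a' • b.1
    rw [h, nprod_smul_left _ _ isFld_id b.2, nprod_id_left _ b.2]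
    unfold coc
    by_cases hmn : m + n = 0
    · rw [if_pos hmn, if_pos (by omega), smul_smul]
    · rw [if_neg hmn, if_neg (by omega), smul_zero, smul_zero, zero_smul]

theorem BMod.fld_J (hX : X.Smooth) (m : ℤ) (a : B) (b : Fld E) :
    ((BMod.fld hX).J m a b).1 = nprod m (X.cur a) b.1 := rfl

end fld

end

end WPE
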