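import Mathlib

/-! [KPL] WPE: two normal orderings. -/

namespace WPE

/-- The sum over the integers in an interval. -/
theorem kpj_Ico {C : Type} [AddCommGroup C] [Module ℂ C] (d : C) (a b : ℤ) :
    ∑ᶠ l : ℤ, (if a ≤ l ∧ l < b then d else 0) = ((b - a).toNat : ℂ) • d := by
  classical
  rw [finsum_eq_sum_of_support_subset (s := Finset.Ico a b)]
  · have h : ∀ l ∈ Finset.Ico a b, (if a ≤ l ∧ l < b then d else 0) = d := by
      intro l hl
      rw [if_pos (Finset.mem_Ico.1 hl)]
    rw [Finset.sum_congr rfl h, Finset.sum_const, Int.card_Ico, Nat.cast_smul_eq_nsmul]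
  · intro l hl
    rw [Finset.coe_Ico, Set.mem_Ico]
    by_contra hc
    exact hl (if_neg hc)

/-- Normal ordering with a shifted cut. -/
theorem kpj_shift {C : Type} [AddCommGroup C] [Module ℂ C] (a b : ℤ → C) (d : C)
    (h : ∀ l, a l - b l = d) (m : ℤ)
    (hf : (Function.support fun l => if l < 0 then a l else b l).Finite) :
    ∑ᶠ l : ℤ, (if l < m then a l else b l) =
      ∑ᶠ l : ℤ, (if l < 0 then a l else b l) + (m : ℂ) • d := by
  classical
  have h1 : ∀ l, (if l < m then a l else b l) = (if l < 0 then a l else b l) +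
      ((if 0 ≤ l ∧ l < m then d else 0) - (if m ≤ l ∧ l < 0 then d else 0)) := by
    intro l
    have h2 := h l
    have h3 : a l = b l + d := by rw [← h2]; abel
    split_ifs <;> first | (exfalso; omega) | (rw [h3]; abel) | abel
  have f1 : (Function.support fun l : ℤ => if 0 ≤ l ∧ l < m then d else 0).Finite :=
    (Set.finite_Ico 0 m).subset fun l hl => by
      by_contra hc
      exact hl (if_neg hc)
  have f2 : (Function.support fun l : ℤ => if m ≤ l ∧ l < 0 then d else 0).Finite :=
    (Set.finite_Ico m 0).subset fun l hl => by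
      by_contra hc
      exact hl (if_neg hc)
  rw [finsum_congr h1, finsum_add_distrib hf (by
    refine (f1.union f2).subset ?_
    intro l hl
    by_contra hc
    rw [Set.mem_union, not_or, Function.mem_support, Function.mem_support, not_not, not_not] at hc
    exact hl (by show (if 0 ≤ l ∧ l < m then d else 0) - (if m ≤ l ∧ l < 0 then d else 0) = 0
                 rw [hc.1, hc.2, sub_zero])), finsum_sub_distrib f1 f2, kpj_Ico, kpj_Ico, ← sub_smul]
  congr 2
  rcases le_total 0 m with hm | hm
  · rw [show (0 - m).toNat = 0 by omega, Nat.cast_zero, sub_zero, sub_zero]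
    have : ((m.toNat : ℤ) : ℂ) = (m : ℂ) := by rw [Int.toNat_of_nonneg hm]
    exact_mod_cast this
  · rw [show (m - 0).toNat = 0 by omega, Nat.cast_zero, zero_sub, zero_sub]
    have : (((-m).toNat : ℤ) : ℂ) = ((-m : ℤ) : ℂ) := by rw [Int.toNat_of_nonneg (by omega)]
    push_cast at this
    rw [this, neg_neg]

end WPE
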