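import Pool.Agent.WPE.FER1
import Pool.Agent.WPE.KPJ

/-! [WPE-FER2] Normally ordered bilinears in the charged fermions. -/

set_option autoImplicit false
set_option linter.unusedSectionVars false

namespace WPE

noncomputable section

namespace FMod

variable {β : Type} [DecidableEq β] {E : Type} [AddCommGroup E] [Module ℂ E] (X : FMod β E)

/-- The terms of `:ph(b) ps(c):_m`. -/
def blF (m : ℤ) (b c : β) (k : ℤ) : E →ₗ[ℂ] E :=
  if k < 0 then X.ph k b ∘ₗ X.ps (m - 1 - k) c else -(X.ps (m - 1 - k) c ∘ₗ X.ph k b)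

theorem lf_blF (m : ℤ) (b c : β) : LF (X.blF m b c) := by
  refine LF.of_finset fun x => ?_
  obtain ⟨M, hM⟩ := X.smh x
  obtain ⟨M', hM'⟩ := X.sms x
  refine ⟨Finset.Icc (min 0 (m - 1 - M')) (max 0 M), fun k hk => ?_⟩
  unfold blF
  rw [Finset.mem_Icc, not_and_or, not_le, not_le] at hk
  rcases hk with hk | hk
  · have h1 : k < 0 := lt_of_lt_of_le hk (min_le_left _ _)
    have h2 : k < m - 1 - M' := lt_of_lt_of_le hk (min_le_right _ _)
    rw [if_pos h1, LinearMap.comp_apply, hM' _ (by omega), map_zero]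
  · have h1 : 0 < k := lt_of_le_of_lt (le_max_left _ _) hk
    have h2 : M < k := lt_of_le_of_lt (le_max_right _ _) hk
    rw [if_neg (by omega), LinearMap.neg_apply, LinearMap.comp_apply, hM _ (by omega), map_zero,
      neg_zero]

theorem blF_lt {k : ℤ} (h : k < 0) (m : ℤ) (b c : β) (x : E) :
    X.blF m b c k x = X.ph k b (X.ps (m - 1 - k) c x) := by
  unfold blF
  rw [if_pos h]
  rfl

theorem blF_ge {k : ℤ} (h : ¬k < 0) (m : ℤ) (b c : β) (x : E) :
    X.blF m b c k x = -X.ps (m - 1 - k) c (X.ph k b x) := by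
  unfold blF
  rw [if_neg h]
  rfl

/-- The bilinear `:ph(b) ps(c):_m`. -/
def bl (m : ℤ) (b c : β) : E →ₗ[ℂ] E := psum (X.blF m b c)

theorem sh (m n : ℤ) (b c : β) (x : E) :
    X.ps m b (X.ph n c x) = (if m + n = -1 ∧ b = c then x else 0) - X.ph n c (X.ps m b x) := by
  rw [eq_sub_iff_add_eq, add_comm, X.hs]
  by_cases h : m + n = -1 ∧ b = c
  · rw [if_pos h, if_pos ⟨by omega, h.2.symm⟩]
  · rw [if_neg h, if_neg (fun hc => h ⟨by omega, hc.2.symm⟩)]

theorem hs' (m n : ℤ) (b c : β) (x : E) :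
    X.ph m b (X.ps n c x) = (if m + n = -1 ∧ b = c then x else 0) - X.ps n c (X.ph m b x) := by
  rw [eq_sub_iff_add_eq, X.hs]

theorem hh' (m n : ℤ) (b c : β) (x : E) : X.ph m b (X.ph n c x) = -X.ph n c (X.ph m b x) :=
  eq_neg_of_add_eq_zero_left (X.hh m n b c x)

theorem ss' (m n : ℤ) (b c : β) (x : E) : X.ps m b (X.ps n c x) = -X.ps n c (X.ps m b x) :=
  eq_neg_of_add_eq_zero_left (X.ss m n b c x)

/-- The two orderings. -/
theorem ord_diff (k l : ℤ) (b c : β) (x : E) :
    X.ph k b (X.ps l c x) - -(X.ps l c (X.ph k b x)) = if k + l = -1 ∧ b = c then x else 0 := by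
  rw [sub_neg_eq_add, X.hs]

theorem blF_ph (m : ℤ) (b c : β) (k n : ℤ) (d : β) (x : E) :
    X.blF m b c k (X.ph n d x) - X.ph n d (X.blF m b c k x) =
      if k = m + n then (if c = d then X.ph (m + n) b x else 0) else 0 := by
  have key : X.ph k b (X.ps (m - 1 - k) c (X.ph n d x)) -
      X.ph n d (X.ph k b (X.ps (m - 1 - k) c x)) =
      if k = m + n then (if c = d then X.ph (m + n) b x else 0) else 0 := by
    rw [X.sh, map_sub, X.hh' n k d b, sub_neg_eq_add]
    by_cases h : k = m + n
    · rw [if_pos h]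
      by_cases hc : c = d
      · rw [if_pos hc, if_pos ⟨by omega, hc⟩, h]
        abel
      · rw [if_neg hc, if_neg (fun hc' => hc hc'.2), map_zero]
        abel
    · rw [if_neg h, if_neg (fun hc' => h (by omega)), map_zero]
      abel
  by_cases h0 : k < 0
  · rw [X.blF_lt h0, X.blF_lt h0, key]
  · rw [X.blF_ge h0, X.blF_ge h0, map_neg, sub_neg_eq_add, ← sub_eq_neg_add]
    have h1 : X.ph n d (X.ps (m - 1 - k) c (X.ph k b x)) - X.ps (m - 1 - k) c (X.ph k b (X.ph n d x)) =
        X.ph k b (X.ps (m - 1 - k) c (X.ph n d x)) - X.ph n d (X.ph k b (X.ps (m - 1 - k) c x)) := by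
      rw [X.hs' k (m - 1 - k) b c (X.ph n d x), X.hs' k (m - 1 - k) b c x, map_sub]
      by_cases h : k + (m - 1 - k) = -1 ∧ b = c
      · rw [if_pos h, if_pos h]
        abel
      · rw [if_neg h, if_neg h, map_zero]
        abel
    rw [h1, key]

theorem blF_ps (m : ℤ) (b c : β) (k n : ℤ) (d : β) (x : E) :
    X.blF m b c k (X.ps n d x) - X.ps n d (X.blF m b c k x) =
      if k = -1 - n then (if b = d then -X.ps (m + n) c x else 0) else 0 := by
  have key : X.ph k b (X.ps (m - 1 - k) c (X.ps n d x)) -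
      X.ps n d (X.ph k b (X.ps (m - 1 - k) c x)) =
      if k = -1 - n then (if b = d then -X.ps (m + n) c x else 0) else 0 := by
    rw [X.ss' (m - 1 - k) n c d, map_neg, X.hs' k n b d]
    by_cases h : k = -1 - n
    · rw [if_pos h]
      by_cases hc : b = d
      · rw [if_pos hc, if_pos ⟨by omega, hc⟩]
        have e : m - 1 - k = m + n := by omega
        rw [e]
        abel
      · rw [if_neg hc, if_neg (fun hc' => hc hc'.2)]
        abel
    · rw [if_neg h, if_neg (fun hc' => h (by omega))]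
      abel
  by_cases h0 : k < 0
  · rw [X.blF_lt h0, X.blF_lt h0, key]
  · rw [X.blF_ge h0, X.blF_ge h0, map_neg, sub_neg_eq_add, ← sub_eq_neg_add]
    have h1 : X.ps n d (X.ps (m - 1 - k) c (X.ph k b x)) - X.ps (m - 1 - k) c (X.ph k b (X.ps n d x)) =
        X.ph k b (X.ps (m - 1 - k) c (X.ps n d x)) - X.ps n d (X.ph k b (X.ps (m - 1 - k) c x)) := by
      rw [X.hs' k (m - 1 - k) b c (X.ps n d x), X.hs' k (m - 1 - k) b c x, map_sub]
      by_cases h : k + (m - 1 - k) = -1 ∧ b = c
      · rw [if_pos h, if_pos h]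
        abel
      · rw [if_neg h, if_neg h, map_zero]
        abel
    rw [h1, key]

/-- Pointwise sums and commutators. -/
theorem psum_comm {F : ℤ → E →ₗ[ℂ] E} (hF : LF F) (G : E →ₗ[ℂ] E) (x : E) :
    psum F (G x) - G (psum F x) = psum (fun k => F k ∘ₗ G - G ∘ₗ F k) x := by
  rw [psum_sub (hF.comp_right G) (hF.comp_left G), LinearMap.sub_apply, ← psum_comp hF,
    ← comp_psum hF]
  rfl

theorem bl_ph (m : ℤ) (b c : β) (n : ℤ) (d : β) (x : E) :
    X.bl m b c (X.ph n d x) - X.ph n d (X.bl m b c x) = if c = d then X.ph (m + n) b x else 0 := by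
  unfold bl
  rw [psum_comm (X.lf_blF m b c)]
  have e : (fun k => X.blF m b c k ∘ₗ X.ph n d - X.ph n d ∘ₗ X.blF m b c k) =
      fun k => if k = m + n then (if c = d then X.ph (m + n) b else 0) else 0 := by
    funext k
    refine LinearMap.ext fun x => ?_
    refine (X.blF_ph m b c k n d x).trans ?_
    split_ifs <;> rfl
  rw [e, psum_single]
  split_ifs <;> rfl

theorem bl_ps (m : ℤ) (b c : β) (n : ℤ) (d : β) (x : E) :
    X.bl m b c (X.ps n d x) - X.ps n d (X.bl m b c x) = if b = d then -X.ps (m + n) c x else 0 := by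
  unfold bl
  rw [psum_comm (X.lf_blF m b c)]
  have e : (fun k => X.blF m b c k ∘ₗ X.ps n d - X.ps n d ∘ₗ X.blF m b c k) =
      fun k => if k = -1 - n then (if b = d then -X.ps (m + n) c else 0) else 0 := by
    funext k
    refine LinearMap.ext fun x => ?_
    refine (X.blF_ps m b c k n d x).trans ?_
    split_ifs <;> rfl
  rw [e, psum_single]
  split_ifs <;> rfl

/-- Bilinears are fields. -/
theorem bl_smooth (x : E) : ∃ M : ℤ, ∀ m, M ≤ m → ∀ b c, X.bl m b c x = 0 := by
  obtain ⟨M, hM⟩ := X.smh x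
  obtain ⟨M', hM'⟩ := X.sms x
  refine ⟨max 1 (max M' (M + M')), fun m hm b c => ?_⟩
  have h1 : 1 ≤ m := le_trans (le_max_left _ _) hm
  have h2 : M' ≤ m := le_trans (le_trans (le_max_left _ _) (le_max_right _ _)) hm
  have h3 : M + M' ≤ m := le_trans (le_trans (le_max_right _ _) (le_max_right _ _)) hm
  unfold bl
  rw [psum_eq_sum (X.lf_blF m b c) x ∅, Finset.sum_empty]
  intro k _
  unfold blF
  split_ifs with h0
  · rw [LinearMap.comp_apply, hM' _ (by omega), map_zero]
  · rw [LinearMap.neg_apply, LinearMap.comp_apply]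
    by_cases hk : M ≤ k
    · rw [hM k hk, map_zero, neg_zero]
    · rw [X.sh, if_neg (fun hc => by omega), hM' _ (by omega), map_zero, sub_zero, neg_zero]

theorem bl_vac (v : E) (h1 : ∀ m, 0 ≤ m → ∀ b, X.ph m b v = 0)
    (h2 : ∀ m, 0 ≤ m → ∀ b, X.ps m b v = 0) (m : ℤ) (hm : 0 ≤ m) (b c : β) :
    X.bl m b c v = 0 := by
  unfold bl
  rw [psum_eq_sum (X.lf_blF m b c) v ∅, Finset.sum_empty]
  intro k _
  unfold blF
  split_ifs with h0
  · rw [LinearMap.comp_apply, h2 _ (by omega), map_zero]
  · rw [LinearMap.neg_apply, LinearMap.comp_apply, h1 k (by omega), map_zero, neg_zero]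

/-- Normal ordering at `m`. -/
def blS (m n : ℤ) (b c : β) (k : ℤ) : E →ₗ[ℂ] E :=
  if k < m then X.ph k b ∘ₗ X.ps (n - 1 - k) c else -(X.ps (n - 1 - k) c ∘ₗ X.ph k b)

theorem blS_lt {m k : ℤ} (h : k < m) (n : ℤ) (b c : β) (x : E) :
    X.blS m n b c k x = X.ph k b (X.ps (n - 1 - k) c x) := by
  unfold blS
  rw [if_pos h]
  rfl

theorem blS_ge {m k : ℤ} (h : ¬k < m) (n : ℤ) (b c : β) (x : E) :
    X.blS m n b c k x = -X.ps (n - 1 - k) c (X.ph k b x) := by
  unfold blS
  rw [if_neg h]
  rfl

theorem blS_diff (m n : ℤ) (b c : β) (k : ℤ) (x : E) : X.blS m n b c k x - X.blF n b c k x =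
    ((if 0 ≤ k ∧ k < m then (if n = 0 ∧ b = c then x else 0) else 0) -
      (if m ≤ k ∧ k < 0 then (if n = 0 ∧ b = c then x else 0) else 0)) := by
  have h := X.ord_diff k (n - 1 - k) b c x
  have e : (k + (n - 1 - k) = -1 ∧ b = c) ↔ (n = 0 ∧ b = c) := by
    constructor
    · rintro ⟨h1, h2⟩
      exact ⟨by omega, h2⟩
    · rintro ⟨h1, h2⟩
      exact ⟨by omega, h2⟩
  have h' : X.ph k b (X.ps (n - 1 - k) c x) - -(X.ps (n - 1 - k) c (X.ph k b x)) =
      if n = 0 ∧ b = c then x else 0 := by
    rw [h]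
    by_cases hc : n = 0 ∧ b = c
    · rw [if_pos hc, if_pos (e.2 hc)]
    · rw [if_neg hc, if_neg (fun h => hc (e.1 h))]
  unfold blS blF
  by_cases h1 : k < m
  · by_cases h2 : k < 0
    · have a1 : ¬(0 ≤ k ∧ k < m) := fun hc => absurd h2 (not_lt.2 hc.1)
      have a2 : ¬(m ≤ k ∧ k < 0) := fun hc => absurd h1 (not_lt.2 hc.1)
      rw [if_pos h1, if_pos h2, if_neg a1, if_neg a2, sub_self, sub_zero]
    · have a1 : 0 ≤ k ∧ k < m := ⟨not_lt.1 h2, h1⟩
      have a2 : ¬(m ≤ k ∧ k < 0) := fun hc => absurd h1 (not_lt.2 hc.1)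
      rw [if_pos h1, if_neg h2, if_pos a1, if_neg a2, sub_zero, ← h']
      rfl
  · by_cases h2 : k < 0
    · have a1 : ¬(0 ≤ k ∧ k < m) := fun hc => absurd h2 (not_lt.2 hc.1)
      have a2 : m ≤ k ∧ k < 0 := ⟨not_lt.1 h1, h2⟩
      rw [if_neg h1, if_pos h2, if_neg a1, if_pos a2, zero_sub, ← h', neg_sub]
      rfl
    · have a1 : ¬(0 ≤ k ∧ k < m) := fun hc => h1 hc.2
      have a2 : ¬(m ≤ k ∧ k < 0) := fun hc => h2 hc.2
      rw [if_neg h1, if_neg h2, if_neg a1, if_neg a2, sub_self, sub_zero]

theorem lf_blS (m n : ℤ) (b c : β) : LF (X.blS m n b c) := by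
  classical
  refine LF.of_finset fun x => ?_
  obtain ⟨S, hS⟩ := (X.lf_blF n b c).exists_finset x
  refine ⟨S ∪ Finset.Ico 0 m ∪ Finset.Ico m 0, fun k hk => ?_⟩
  rw [Finset.notMem_union, Finset.notMem_union, Finset.mem_Ico, Finset.mem_Ico] at hk
  have h := X.blS_diff m n b c k x
  rw [if_neg hk.1.2, if_neg hk.2, sub_zero, hS k hk.1.1, sub_zero] at h
  exact h

theorem blS_sum (m n : ℤ) (b c : β) (x : E) : psum (X.blS m n b c) x =
    X.bl n b c x + if n = 0 ∧ b = c then (m : ℂ) • x else 0 := by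
  have h1 : ∀ k, X.blS m n b c k x = X.blF n b c k x +
      ((if 0 ≤ k ∧ k < m then (if n = 0 ∧ b = c then x else 0) else 0) -
        (if m ≤ k ∧ k < 0 then (if n = 0 ∧ b = c then x else 0) else 0)) := fun k => by
    rw [← X.blS_diff]
    abel
  have f1 : (Function.support fun l : ℤ => if 0 ≤ l ∧ l < m then
      (if n = 0 ∧ b = c then x else 0) else 0).Finite :=
    (Set.finite_Ico 0 m).subset fun l hl => by
      by_contra hc
      exact hl (if_neg hc)
  have f2 : (Function.support fun l : ℤ => if m ≤ l ∧ l < 0 then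
      (if n = 0 ∧ b = c then x else 0) else 0).Finite :=
    (Set.finite_Ico m 0).subset fun l hl => by
      by_contra hc
      exact hl (if_neg hc)
  unfold bl
  rw [psum_apply (X.lf_blS m n b c), psum_apply (X.lf_blF n b c), finsum_congr h1,
    finsum_add_distrib (X.lf_blF n b c x) (by
    refine (f1.union f2).subset ?_
    intro l hl
    by_contra hc
    rw [Set.mem_union, not_or, Function.mem_support, Function.mem_support, not_not, not_not] at hc
    exact hl (by
      show (if 0 ≤ l ∧ l < m then (if n = 0 ∧ b = c then x else 0) else 0) -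
        (if m ≤ l ∧ l < 0 then (if n = 0 ∧ b = c then x else 0) else 0) = 0
      rw [hc.1, hc.2, sub_zero])), finsum_sub_distrib f1 f2, kpj_Ico, kpj_Ico, ← sub_smul]
  congr 1
  by_cases hc : n = 0 ∧ b = c
  · rw [if_pos hc, if_pos hc]
    congr 1
    rcases le_total 0 m with hm | hm
    · rw [show (0 - m).toNat = 0 by omega, Nat.cast_zero, sub_zero, sub_zero]
      have : ((m.toNat : ℤ) : ℂ) = (m : ℂ) := by rw [Int.toNat_of_nonneg hm]
      exact_mod_cast this
    · rw [show (m - 0).toNat = 0 by omega, Nat.cast_zero, zero_sub, zero_sub]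
      have : (((-m).toNat : ℤ) : ℂ) = ((-m : ℤ) : ℂ) := by rw [Int.toNat_of_nonneg (by omega)]
      push_cast at this
      rw [this, neg_neg]
  · rw [if_neg hc, if_neg hc, smul_zero]

theorem bl_bl_term (m n : ℤ) (b c b' c' : β) (k : ℤ) (x : E) :
    X.bl m b c (X.blF n b' c' k x) - X.blF n b' c' k (X.bl m b c x) =
      (if c = b' then X.blS m (m + n) b c' (k + m) x else 0) -
        (if b = c' then X.blF (m + n) b' c k x else 0) := by
  have e2 : m + n - 1 - (k + m) = n - 1 - k := by omega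
  have e3 : m + (n - 1 - k) = m + n - 1 - k := by omega
  by_cases h0 : k < 0
  · have hkm : k + m < m := by omega
    rw [X.blF_lt h0, X.blF_lt h0, X.blF_lt h0, X.blS_lt hkm, e2]
    have h1 := X.bl_ph m b c k b' (X.ps (n - 1 - k) c' x)
    have h2 := X.bl_ps m b c (n - 1 - k) c' x
    have h3 : X.bl m b c (X.ps (n - 1 - k) c' x) = X.ps (n - 1 - k) c' (X.bl m b c x) +
        if b = c' then -X.ps (m + (n - 1 - k)) c x else 0 := by rw [← h2]; abel
    have h4 : X.bl m b c (X.ph k b' (X.ps (n - 1 - k) c' x)) =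
        X.ph k b' (X.bl m b c (X.ps (n - 1 - k) c' x)) +
        if c = b' then X.ph (m + k) b (X.ps (n - 1 - k) c' x) else 0 := by rw [← h1]; abel
    rw [h4, h3, map_add, e3, add_comm m k]
    by_cases hb : b = c'
    · by_cases hc : c = b'
      · simp only [if_pos hb, if_pos hc, map_neg]
        abel
      · simp only [if_pos hb, if_neg hc, map_neg]
        abel
    · by_cases hc : c = b'
      · simp only [if_neg hb, if_pos hc, map_zero]
        abel
      · simp only [if_neg hb, if_neg hc, map_zero]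
        abel
  · have hkm : ¬k + m < m := by omega
    rw [X.blF_ge h0, X.blF_ge h0, X.blF_ge h0, X.blS_ge hkm, e2]
    have h1 := X.bl_ps m b c (n - 1 - k) c' (X.ph k b' x)
    have h2 := X.bl_ph m b c k b' x
    have h3 : X.bl m b c (X.ph k b' x) = X.ph k b' (X.bl m b c x) +
        if c = b' then X.ph (m + k) b x else 0 := by rw [← h2]; abel
    have h4 : X.bl m b c (X.ps (n - 1 - k) c' (X.ph k b' x)) =
        X.ps (n - 1 - k) c' (X.bl m b c (X.ph k b' x)) +
        if b = c' then -X.ps (m + (n - 1 - k)) c (X.ph k b' x) else 0 := by rw [← h1]; abel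
    rw [map_neg, h4, h3, map_add, e3, add_comm m k]
    by_cases hb : b = c'
    · by_cases hc : c = b'
      · simp only [if_pos hb, if_pos hc]
        abel
      · simp only [if_pos hb, if_neg hc, map_zero]
        abel
    · by_cases hc : c = b'
      · simp only [if_neg hb, if_pos hc]
        abel
      · simp only [if_neg hb, if_neg hc, map_zero]
        abel

/-- The commutator of two elementary bilinears. -/
theorem bl_bl (m n : ℤ) (b c b' c' : β) (x : E) :
    X.bl m b c (X.bl n b' c' x) - X.bl n b' c' (X.bl m b c x) =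
      (if c = b' then X.bl (m + n) b c' x else 0) - (if b = c' then X.bl (m + n) b' c x else 0) +
        if m + n = 0 ∧ c = b' ∧ b = c' then (m : ℂ) • x else 0 := by
  have e : X.bl m b c (X.bl n b' c' x) - X.bl n b' c' (X.bl m b c x) =
      psum (fun k => X.bl m b c ∘ₗ X.blF n b' c' k - X.blF n b' c' k ∘ₗ X.bl m b c) x := by
    rw [psum_sub ((X.lf_blF n b' c').comp_left _) ((X.lf_blF n b' c').comp_right _),
      LinearMap.sub_apply, ← psum_comp (X.lf_blF n b' c'), ← comp_psum (X.lf_blF n b' c')]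
    rfl
  have lf0 : LF (fun _ : ℤ => (0 : E →ₗ[ℂ] E)) := LF.of_finset fun x => ⟨∅, fun _ _ => rfl⟩
  have lfS : LF (fun k => X.blS m (m + n) b c' (k + m)) :=
    (X.lf_blS m (m + n) b c').comp_equiv (Equiv.addRight m)
  have lf1 : LF (fun k => if c = b' then X.blS m (m + n) b c' (k + m) else 0) := by
    by_cases hc : c = b'
    · have h : (fun k => if c = b' then X.blS m (m + n) b c' (k + m) else 0) =
          fun k => X.blS m (m + n) b c' (k + m) := funext fun k => if_pos hc
      rw [h]
      exact lfS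
    · have h : (fun k => if c = b' then X.blS m (m + n) b c' (k + m) else 0) =
          fun _ => 0 := funext fun k => if_neg hc
      rw [h]
      exact lf0
  have lf2 : LF (fun k => if b = c' then X.blF (m + n) b' c k else 0) := by
    by_cases hc : b = c'
    · have h : (fun k => if b = c' then X.blF (m + n) b' c k else 0) =
          fun k => X.blF (m + n) b' c k := funext fun k => if_pos hc
      rw [h]
      exact X.lf_blF _ _ _
    · have h : (fun k => if b = c' then X.blF (m + n) b' c k else 0) =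
          fun _ => 0 := funext fun k => if_neg hc
      rw [h]
      exact lf0
  have e2 : (fun k => X.bl m b c ∘ₗ X.blF n b' c' k - X.blF n b' c' k ∘ₗ X.bl m b c) =
      fun k => (if c = b' then X.blS m (m + n) b c' (k + m) else 0) -
        (if b = c' then X.blF (m + n) b' c k else 0) := by
    funext k
    refine LinearMap.ext fun y => ?_
    refine (X.bl_bl_term m n b c b' c' k y).trans ?_
    rw [LinearMap.sub_apply]
    congr 1
    · by_cases hc : c = b'
      · rw [if_pos hc, if_pos hc]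
      · rw [if_neg hc, if_neg hc]
        rfl
    · by_cases hc : b = c'
      · rw [if_pos hc, if_pos hc]
      · rw [if_neg hc, if_neg hc]
        rfl
  have s1 : psum (fun k => if c = b' then X.blS m (m + n) b c' (k + m) else 0) x =
      (if c = b' then X.bl (m + n) b c' x else 0) +
        if m + n = 0 ∧ c = b' ∧ b = c' then (m : ℂ) • x else 0 := by
    by_cases hc : c = b'
    · have h : (fun k => if c = b' then X.blS m (m + n) b c' (k + m) else 0) =
          fun k => X.blS m (m + n) b c' (Equiv.addRight m k) := funext fun k => if_pos hc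
      rw [h, psum_equiv (X.lf_blS m (m + n) b c') (Equiv.addRight m), X.blS_sum, if_pos hc]
      congr 1
      by_cases h2 : m + n = 0 ∧ b = c'
      · rw [if_pos h2, if_pos ⟨h2.1, hc, h2.2⟩]
      · rw [if_neg h2, if_neg (fun h3 => h2 ⟨h3.1, h3.2.2⟩)]
    · have h : (fun k => if c = b' then X.blS m (m + n) b c' (k + m) else 0) =
          fun _ => 0 := funext fun k => if_neg hc
      rw [h, psum_zero, if_neg hc, if_neg (fun h3 => hc h3.2.1), add_zero]
      rfl
  have s2 : psum (fun k => if b = c' then X.blF (m + n) b' c k else 0) x =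
      if b = c' then X.bl (m + n) b' c x else 0 := by
    by_cases hc : b = c'
    · have h : (fun k => if b = c' then X.blF (m + n) b' c k else 0) =
          fun k => X.blF (m + n) b' c k := funext fun k => if_pos hc
      rw [h, if_pos hc]
      rfl
    · have h : (fun k => if b = c' then X.blF (m + n) b' c k else 0) =
          fun _ => 0 := funext fun k => if_neg hc
      rw [h, psum_zero, if_neg hc]
      rfl
  rw [e, e2, psum_sub lf1 lf2, LinearMap.sub_apply, s1, s2]
  abel

end FMod

end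

end WPE
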