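import Pool.Agent.WPE.VGM

/-! [KPL] MP_ef3403_al.  The common kernel `K⁺` on `M(1)` of the long screenings equals the common kernel
`V^G` of all (short and long) screenings: both are spanned by the words in the `w_i`. -/

namespace WPE

open WPQ MvPolynomial

noncomputable section

variable {ι : Type} [Fintype ι] [DecidableEq ι] {A : Matrix ι ι ℤ} {p : ℕ}

/-- `K⁺_p`: the vectors of `M(1)` killed by the long screenings `e^{√p α_j}_0`. -/
def Kplus (A : Matrix ι ι ℤ) (p : ℕ) : Submodule ℂ (Fock ι) :=
  ⨅ j, LinearMap.ker (vop A p (bb j) (-1))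

/-- `K⁻_p`: the vectors of `M(1)` killed by the short screenings `e^{-α_j/√p}_0`. -/
def Kminus (A : Matrix ι ι ℤ) (p : ℕ) : Submodule ℂ (Fock ι) :=
  ⨅ j, LinearMap.ker (vop A p (Pi.single j (-(p : ℂ)⁻¹)) (-1))

theorem mem_Kplus (f : Fock ι) : f ∈ Kplus A p ↔ ∀ j, vop A p (bb j) (-1) f = 0 := by
  unfold Kplus
  rw [Submodule.mem_iInf]
  exact forall_congr' fun j => LinearMap.mem_ker

theorem mem_Kminus (f : Fock ι) :
    f ∈ Kminus A p ↔ ∀ j, vop A p (Pi.single j (-(p : ℂ)⁻¹)) (-1) f = 0 := by
  unfold Kminus
  rw [Submodule.mem_iInf]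
  exact forall_congr' fun j => LinearMap.mem_ker

theorem KK_eq_inf : KK A p = Kminus A p ⊓ Kplus A p := by
  ext f
  rw [Submodule.mem_inf, mem_Kplus, mem_Kminus]
  rfl

theorem kp_comp (f : Fock ι) (hf : f ∈ Kplus A p) (n : ℕ) :
    weightedHomogeneousComponent (wF (ι := ι)) n f ∈ Kplus A p := by
  rw [mem_Kplus] at hf ⊢
  intro j
  rcases Nat.eq_zero_or_pos n with rfl | hn
  · refine vop_eq_zero A p _ (-1) _ 0 ?_ (by norm_num)
    exact weightedHomogeneousComponent_isWeightedHomogeneous _ _
  · rw [← vp2_comp_vop _ (-1) n (n - 1) (by omega) f, hf j, map_zero]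

omit [Fintype ι] [DecidableEq ι] in
/-- Polynomial degree `< D + 1`: total degree at most `D`. -/
private theorem kp_td (D : ℕ) (f : Fock ι) (h : DLt (D + 1) f) : f.totalDegree ≤ D := by
  classical
  refine Finset.sup_le fun s hs => ?_
  have e : (s.sum fun _ e => e) = s.degree := rfl
  rw [e]
  by_contra hcon
  push Not at hcon
  have h1 := congrArg (coeff s) (h s.degree hcon)
  rw [coeff_homogeneousComponent, if_pos rfl, coeff_zero] at h1
  exact (mem_support_iff.1 hs) h1

/-- The components by degree of a weighted homogeneous element are weighted homogeneous. -/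
private theorem kp_fh (D n : ℕ) (f : Fock ι) (h : FH f n) : FH (homogeneousComponent D f) n := by
  classical
  intro s hs
  rw [coeff_homogeneousComponent] at hs
  by_cases h1 : s.degree = D
  · rw [if_pos h1] at hs
    exact h hs
  · rw [if_neg h1] at hs
    exact absurd rfl hs

/-- `K⁺` is spanned by the words in the modes of the `w_i`. -/
theorem kp_span (hp : 2 ≤ p) (ε : Cocycle A p) (w : ι → Fock ι)
    (P : ι → MvPolynomial ι ℂ) (d : ι → ℕ) (c : ℂ) (hG : Gens A p w P d) (hI : Inv A P d c) :
    ∀ f ∈ Kplus A p, f ∈ Submodule.span ℂ {g | ∃ L, g = wo ε w L} := by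
  have hA := hI.ade
  have h1 : st_VG1 ι := vg_1
  have h6 : st_VG6 ι := vg_6
  have h7 := vg_7 hA hp ε
  have ha14 := HA14 ι
  have hR := vg_rank (p := p) hA (by omega)
  have hKK : ∀ f ∈ KK A p, f ∈ Kplus A p := fun f hf => (mem_Kplus f).2 hf.2
  have key : ∀ (n D : ℕ) (f : Fock ι), DLt D f → f ∈ Kplus A p → FH f n →
      f ∈ Submodule.span ℂ {g | ∃ L, g = wo ε w L} := by
    intro n D
    induction D with
    | zero =>
      intro f hf _ _
      rw [h1.zero f hf]
      exact Submodule.zero_mem _
    | succ D ih =>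
      intro f hf hK hn
      by_cases hg : homogeneousComponent D f = 0
      · refine ih f (fun m hm => ?_) hK hn
        rcases Nat.eq_or_lt_of_le hm with h | h
        · rw [← h]
          exact hg
        · exact hf m h
      · have htd : f.totalDegree = D := by
          refine le_antisymm (kp_td D f hf) ?_
          by_contra hcon
          push Not at hcon
          exact hg (homogeneousComponent_eq_zero D f hcon)
        have hBJ : ∀ j, homogeneousComponent D f ∈ BJ A j := by
          intro j
          have h := hR j f n hn ((mem_Kplus f).1 hK j)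
          rwa [htd] at h
        have hBP := ha14 A P d c hI _ hBJ
        have hsp := h6.span P d hG.hom (homogeneousComponent D f) D n hBP
          (homogeneousComponent_isHomogeneous D f) (kp_fh D n f hn)
        have hex : ∀ g ∈ Submodule.span ℂ {g | ∃ L, dgL d L = D ∧ wtL d L = n ∧ g = pj P L},
            ∃ f' ∈ Submodule.span ℂ {g | ∃ L, g = wo ε w L}, f' ∈ Kplus A p ∧ FH f' n ∧
              DLt D (f' - g) := by
          intro g hg
          induction hg using Submodule.span_induction with
          | mem x hx =>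
            obtain ⟨L, hL1, hL2, rfl⟩ := hx
            refine ⟨wo ε w L, Submodule.subset_span ⟨L, rfl⟩, hKK _ (h7.mem w P d hG L), ?_, ?_⟩
            · have h := h7.wt w P d hG L
              rwa [hL2] at h
            · have h := h7.top w P d hG L
              rwa [hL1] at h
          | zero =>
            refine ⟨0, Submodule.zero_mem _, Submodule.zero_mem _,
              isWeightedHomogeneous_zero _ _ _, ?_⟩
            rw [sub_zero]
            exact h1.z0 D
          | add x y _ _ hx hy =>
            obtain ⟨a, ha1, ha2, ha3, ha4⟩ := hx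
            obtain ⟨b, hb1, hb2, hb3, hb4⟩ := hy
            refine ⟨a + b, Submodule.add_mem _ ha1 hb1, Submodule.add_mem _ ha2 hb2,
              ha3.add hb3, ?_⟩
            have e : a + b - (x + y) = (a - x) + (b - y) := by ring
            rw [e]
            exact h1.add D _ _ ha4 hb4
          | smul r x _ hx =>
            obtain ⟨a, ha1, ha2, ha3, ha4⟩ := hx
            refine ⟨r • a, Submodule.smul_mem _ _ ha1, Submodule.smul_mem _ _ ha2, ?_, ?_⟩
            · exact (weightedHomogeneousSubmodule ℂ (wF (ι := ι)) n).smul_mem r ha3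
            · rw [← smul_sub]
              exact h1.smul D r _ ha4
        obtain ⟨f', hf1, hf2, hf3, hf4⟩ := hex _ hsp
        have h8 := ih (f - f') (by
          have e : f - f' = (f - homogeneousComponent D f) - (f' - homogeneousComponent D f) := by
            ring
          rw [e]
          exact h1.sub D _ _ (h1.step D f hf) hf4) (Submodule.sub_mem _ hK hf2)
          ((weightedHomogeneousSubmodule ℂ (wF (ι := ι)) n).sub_mem hn hf3)
        have e : f = (f - f') + f' := by ring
        rw [e]
        exact Submodule.add_mem _ h8 hf1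
  intro f hf
  rw [← sum_weightedHomogeneousComponent (wF (ι := ι)) f]
  refine finsum_induction (p := fun x => x ∈ Submodule.span ℂ {g | ∃ L, g = wo ε w L})
    (Submodule.zero_mem _) (fun x y hx hy => Submodule.add_mem _ hx hy) fun n => ?_
  obtain ⟨D, hD⟩ := h1.ex (weightedHomogeneousComponent (wF (ι := ι)) n f)
  exact key n D _ hD (kp_comp f hf n) (weightedHomogeneousComponent_isWeightedHomogeneous n f)

/-- `K⁺ = V^G`. -/
theorem kp_eq (hp : 2 ≤ p) (w : ι → Fock ι) (P : ι → MvPolynomial ι ℂ) (d : ι → ℕ) (c : ℂ)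
    (hG : Gens A p w P d) (hI : Inv A P d c) : Kplus A p = KK A p := by
  obtain ⟨ε⟩ := cocycle_exists A hI.ade p
  refine le_antisymm (fun f hf => ?_) (fun f hf => (mem_Kplus f).2 hf.2)
  have h1 := kp_span hp ε w P d c hG hI f hf
  refine (Submodule.span_le.2 ?_) h1
  rintro g ⟨L, rfl⟩
  exact (vg_7 hI.ade hp ε).mem w P d hG L

/-- `K⁺ ⊆ K⁻`. -/
theorem kp_le (hp : 2 ≤ p) (w : ι → Fock ι) (P : ι → MvPolynomial ι ℂ) (d : ι → ℕ) (c : ℂ)
    (hG : Gens A p w P d) (hI : Inv A P d c) : Kplus A p ≤ Kminus A p := by
  rw [kp_eq hp w P d c hG hI, KK_eq_inf]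
  exact inf_le_left

end

end WPE
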