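import Pool.Agent.WPE.VGM

/-!
# [VGB] The words, one for every multiset and in any chosen order, are a basis of `V^G`
-/

namespace WPE

open WPQ MvPolynomial

noncomputable section

variable {ι : Type} [Fintype ι] [DecidableEq ι] {A : Matrix ι ι ℤ} {p : ℕ}

omit [Fintype ι] [DecidableEq ι] in
/-- The product of jets depends only on the multiset. -/
private theorem vgb_pj (P : ι → MvPolynomial ι ℂ) (L L' : List (ι × ℕ))
    (h : (L : Multiset (ι × ℕ)) = L') : pj P L = pj P L' := by
  have hp : L.Perm L' := Multiset.coe_eq_coe.1 h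
  exact (hp.map _).prod_eq

omit [Fintype ι] [DecidableEq ι] in
private theorem vgb_dg (d : ι → ℕ) (L L' : List (ι × ℕ))
    (h : (L : Multiset (ι × ℕ)) = L') : dgL d L = dgL d L' := by
  have hp : L.Perm L' := Multiset.coe_eq_coe.1 h
  exact (hp.map _).sum_eq

omit [Fintype ι] [DecidableEq ι] in
private theorem vgb_wt (d : ι → ℕ) (L L' : List (ι × ℕ))
    (h : (L : Multiset (ι × ℕ)) = L') : wtL d L = wtL d L' := by
  have hp : L.Perm L' := Multiset.coe_eq_coe.1 h
  exact (hp.map _).sum_eq

omit [Fintype ι] [DecidableEq ι] in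
/-- Polynomial degree `< D + 1`: total degree at most `D`. -/
private theorem vgb_td (D : ℕ) (f : Fock ι) (h : DLt (D + 1) f) : f.totalDegree ≤ D := by
  classical
  refine Finset.sup_le fun s hs => ?_
  have e : (s.sum fun _ e => e) = s.degree := rfl
  rw [e]
  by_contra hcon
  push Not at hcon
  have h1 := congrArg (coeff s) (h s.degree hcon)
  rw [coeff_homogeneousComponent, if_pos rfl, coeff_zero] at h1
  exact (mem_support_iff.1 hs) h1

/-- The components by degree of a weighted homogeneous element are weighted homogeneous. -/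
private theorem vgb_fh (D n : ℕ) (f : Fock ι) (h : FH f n) : FH (homogeneousComponent D f) n := by
  classical
  intro s hs
  rw [coeff_homogeneousComponent] at hs
  by_cases h1 : s.degree = D
  · rw [if_pos h1] at hs
    exact h hs
  · rw [if_neg h1] at hs
    exact absurd rfl hs

/-- Spanning: one word for every multiset, in any chosen order. -/
theorem vgb_span (hp : 2 ≤ p) (ε : Cocycle A p) (w : ι → Fock ι) (P : ι → MvPolynomial ι ℂ)
    (d : ι → ℕ) (c : ℂ) (hG : Gens A p w P d) (hI : Inv A P d c)
    (o : ((ι × ℕ) →₀ ℕ) → List (ι × ℕ))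
    (ho : ∀ s, (o s : Multiset (ι × ℕ)) = Finsupp.toMultiset s) :
    ∀ f ∈ KK A p, f ∈ Submodule.span ℂ (Set.range fun s => wo ε w (o s)) := by
  have h1 := vg_1 (ι := ι)
  have h5 := vg_5 hI.ade hp ε
  have h6 := vg_6 (ι := ι)
  have h7 := vg_7 hI.ade hp ε
  have hR := vg_rank (A := A) hI.ade (p := p) (by omega)
  have key : ∀ (n D : ℕ) (f : Fock ι), DLt D f → f ∈ KK A p → FH f n →
      f ∈ Submodule.span ℂ (Set.range fun s => wo ε w (o s)) := by
    intro n D
    induction D with
    | zero =>
      intro f hf _ _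
      rw [h1.zero f hf]
      exact Submodule.zero_mem _
    | succ D ih =>
      intro f hf hK hn
      by_cases hg : homogeneousComponent D f = 0
      · refine ih f (fun m hm => ?_) hK hn
        rcases Nat.eq_or_lt_of_le hm with h | h
        · rw [← h]
          exact hg
        · exact hf m h
      · have htd : f.totalDegree = D := by
          refine le_antisymm (vgb_td D f hf) ?_
          by_contra hcon
          push Not at hcon
          exact hg (homogeneousComponent_eq_zero D f hcon)
        have hBJ : ∀ j, homogeneousComponent D f ∈ BJ A j := by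
          intro j
          have h := hR j f n hn (hK.2 j)
          rwa [htd] at h
        have hBP := HA14 ι A P d c hI _ hBJ
        have hsp := h6.span P d hG.hom (homogeneousComponent D f) D n hBP
          (homogeneousComponent_isHomogeneous D f) (vgb_fh D n f hn)
        have hex : ∀ g ∈ Submodule.span ℂ {g | ∃ L, dgL d L = D ∧ wtL d L = n ∧ g = pj P L},
            ∃ f' ∈ Submodule.span ℂ (Set.range fun s => wo ε w (o s)),
              f' ∈ KK A p ∧ FH f' n ∧ DLt D (f' - g) := by
          intro g hg
          induction hg using Submodule.span_induction with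
          | mem x hx =>
            obtain ⟨L0, hL1, hL2, rfl⟩ := hx
            have hL : (o (Multiset.toFinsupp (L0 : Multiset (ι × ℕ))) : Multiset (ι × ℕ)) = L0 := by
              rw [ho, Multiset.toFinsupp_toMultiset]
            set L := o (Multiset.toFinsupp (L0 : Multiset (ι × ℕ))) with hLd
            rw [← vgb_pj P _ _ hL]
            rw [← vgb_dg d _ _ hL] at hL1
            rw [← vgb_wt d _ _ hL] at hL2
            refine ⟨wo ε w L, Submodule.subset_span ⟨_, rfl⟩, h7.mem w P d hG L, ?_, ?_⟩
            · have h := h7.wt w P d hG L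
              rwa [hL2] at h
            · have h := h7.top w P d hG L
              rwa [hL1] at h
          | zero =>
            refine ⟨0, Submodule.zero_mem _, Submodule.zero_mem _, isWeightedHomogeneous_zero _ _ _, ?_⟩
            rw [sub_zero]
            exact h1.z0 D
          | add x y _ _ hx hy =>
            obtain ⟨a, ha1, ha2, ha3, ha4⟩ := hx
            obtain ⟨b, hb1, hb2, hb3, hb4⟩ := hy
            refine ⟨a + b, Submodule.add_mem _ ha1 hb1, Submodule.add_mem _ ha2 hb2, ha3.add hb3, ?_⟩
            have e : a + b - (x + y) = (a - x) + (b - y) := by ring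
            rw [e]
            exact h1.add D _ _ ha4 hb4
          | smul r x _ hx =>
            obtain ⟨a, ha1, ha2, ha3, ha4⟩ := hx
            refine ⟨r • a, Submodule.smul_mem _ _ ha1, Submodule.smul_mem _ _ ha2, ?_, ?_⟩
            · exact (weightedHomogeneousSubmodule ℂ (wF (ι := ι)) n).smul_mem r ha3
            · rw [← smul_sub]
              exact h1.smul D r _ ha4
        obtain ⟨f', hf1, hf2, hf3, hf4⟩ := hex _ hsp
        have h8 := ih (f - f') (by
          have e : f - f' = (f - homogeneousComponent D f) - (f' - homogeneousComponent D f) := by ring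
          rw [e]
          exact h1.sub D _ _ (h1.step D f hf) hf4) (Submodule.sub_mem _ hK hf2)
          ((weightedHomogeneousSubmodule ℂ (wF (ι := ι)) n).sub_mem hn hf3)
        have e : f = (f - f') + f' := by ring
        rw [e]
        exact Submodule.add_mem _ h8 hf1
  intro f hf
  rw [← sum_weightedHomogeneousComponent (wF (ι := ι)) f]
  refine finsum_induction (p := fun x => x ∈ Submodule.span ℂ (Set.range fun s => wo ε w (o s)))
    (Submodule.zero_mem _) (fun x y hx hy => Submodule.add_mem _ hx hy) fun n => ?_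
  obtain ⟨D, hD⟩ := h1.ex (weightedHomogeneousComponent (wF (ι := ι)) n f)
  exact key n D _ hD (h5.comp f hf n) (weightedHomogeneousComponent_isWeightedHomogeneous n f)

/-- Linear independence: one word for every multiset, in any chosen order. -/
theorem vgb_free (hA : IsADE A) (hp : 2 ≤ p) (ε : Cocycle A p) (w : ι → Fock ι)
    (P : ι → MvPolynomial ι ℂ) (d : ι → ℕ) (hG : Gens A p w P d) (hJ : (Jac P).det ≠ 0)
    (o : ((ι × ℕ) →₀ ℕ) → List (ι × ℕ))
    (ho : ∀ s, (o s : Multiset (ι × ℕ)) = Finsupp.toMultiset s) :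
    LinearIndependent ℂ fun s : (ι × ℕ) →₀ ℕ => wo ε w (o s) := by
  have h6 := vg_6 (ι := ι)
  have h7 := vg_7 hA hp ε
  have ha4 := HA4 ι
  have hpj : ∀ s, pj P (o s) = PhJ P (monomial s 1) := by
    intro s
    rw [← vg10_pj]
    refine vgb_pj P _ _ ?_
    rw [ho, Multiset.coe_toList]
  rw [linearIndependent_iff]
  intro l hl
  by_contra hne
  have hs : l.support.Nonempty := Finsupp.support_nonempty_iff.mpr hne
  obtain ⟨s0, hs0, hmax⟩ := Finset.exists_max_image l.support (fun s => dgL d (o s)) hs
  set D := dgL d (o s0) with hD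
  have hcomp : ∀ s ∈ l.support, homogeneousComponent D (wo ε w (o s)) =
        if dgL d (o s) = D then PhJ P (monomial s 1) else 0 := by
    intro s hs
    have h := h7.top w P d hG (o s) D (hmax s hs)
    rw [map_sub, sub_eq_zero] at h
    rw [h, homogeneousComponent_of_mem (h6.pj_hom P d hG.hom _), hpj]
    split_ifs with h2 h3 h3
    · rfl
    · exact absurd h2.symm h3
    · exact absurd h3.symm h2
    · rfl
  have hsum : ∑ s ∈ l.support, l s •
      (if dgL d (o s) = D then PhJ P (monomial s 1) else 0) = 0 := by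
    have h := congrArg (homogeneousComponent D) hl
    rw [map_zero, Finsupp.linearCombination_apply, Finsupp.sum, map_sum] at h
    refine Eq.trans (Finset.sum_congr rfl fun s hs => ?_) h
    rw [map_smul, hcomp s hs]
  have hinj := ha4.inj P hJ
  have h0 : (∑ s ∈ l.support, l s •
      (if dgL d (o s) = D then (monomial s 1 : Fock ι) else 0)) = 0 := by
    apply hinj
    refine Eq.trans ?_ (hsum.trans (map_zero (PhJ P)).symm)
    rw [map_sum]
    refine Finset.sum_congr rfl fun s _ => ?_
    rw [map_smul]
    congr 1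
    split_ifs
    · rfl
    · exact map_zero _
  have hc := congrArg (coeff s0) h0
  rw [coeff_zero, coeff_sum, Finset.sum_eq_single s0] at hc
  · rw [if_pos hD.symm, coeff_smul, coeff_monomial, if_pos rfl, smul_eq_mul, mul_one] at hc
    exact (Finsupp.mem_support_iff.mp hs0) hc
  · intro s _ hss
    rw [coeff_smul]
    split_ifs
    · rw [coeff_monomial, if_neg hss, smul_zero]
    · rw [coeff_zero, smul_zero]
  · intro h
    exact absurd hs0 h

/-- In `V_L`: for every choice `o` of an order of every multiset of pairs `(i, k)` the monomials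
`1_0 ⊗ wo ε w (o s)` are linearly independent and span `Wk ε`. -/
theorem vgb_basis (hp : 2 ≤ p) (ε : Cocycle A p) (w : ι → Fock ι) (P : ι → MvPolynomial ι ℂ)
    (d : ι → ℕ) (c : ℂ) (hG : Gens A p w P d) (hI : Inv A P d c)
    (o : ((ι × ℕ) →₀ ℕ) → List (ι × ℕ))
    (ho : ∀ s, (o s : Multiset (ι × ℕ)) = Finsupp.toMultiset s) :
    (LinearIndependent ℂ fun s : (ι × ℕ) →₀ ℕ => (Finsupp.single 0 (wo ε w (o s)) : VL ι)) ∧
      Submodule.span ℂ (Set.range fun s : (ι × ℕ) →₀ ℕ =>
        (Finsupp.single 0 (wo ε w (o s)) : VL ι)) = Wk ε := by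
  have hA := hI.ade
  have h5 := vg_5 hA hp ε
  have hJ : (Jac P).det ≠ 0 := by
    rw [hI.jac]
    exact mul_ne_zero (fun h => hI.c0 (C_injective _ _ (h.trans C_0.symm))) ((HA10 ι).ne A hA)
  refine ⟨?_, le_antisymm (Submodule.span_le.2 ?_) ?_⟩
  · exact (vgb_free hA hp ε w P d hG hJ o ho).map' (Finsupp.lsingle 0 : Fock ι →ₗ[ℂ] VL ι)
      (LinearMap.ker_eq_bot.2 (Finsupp.single_injective 0))
  · rintro _ ⟨s, rfl⟩
    exact (h5.wk _).2 ⟨_, (vg_7 hA hp ε).mem w P d hG (o s), rfl⟩
  · intro v hv
    obtain ⟨f, hf, rfl⟩ := (h5.wk v).1 hv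
    have h := vgb_span hp ε w P d c hG hI o ho f hf
    have h2 : Submodule.span ℂ (Set.range fun s => wo ε w (o s)) ≤ Submodule.comap
        (Finsupp.lsingle 0) (Submodule.span ℂ (Set.range fun s : (ι × ℕ) →₀ ℕ =>
        (Finsupp.single 0 (wo ε w (o s)) : VL ι))) := by
      rw [Submodule.span_le]
      rintro g ⟨s, rfl⟩
      exact Submodule.subset_span ⟨s, rfl⟩
    exact h2 h

end

end WPE
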