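import Pool.Agent.WPE.FNE
import Pool.Agent.WPE.KDSO
import Pool.Agent.WPE.KP1
import Pool.Agent.WPE.VGB
import Pool.Agent.WPQ.AS2
import Pool.Agent.WPQ.ASG2
import Pool.Agent.WPQ.RA1

/-!
# Q1 for all root lattices of type `A`, `D`, `E`: assembly
-/

namespace WPE

open WPQ MvPolynomial

noncomputable section

variable {ι : Type} [Fintype ι] [DecidableEq ι] {A : Matrix ι ι ℤ} {p : ℕ}

/-- If `T ⊆ span T'` then the monomials in `T` are combinations of monomials in `T'`. -/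
theorem fin_span (hA : IsADE A) (hp : 1 ≤ p) (ε : Cocycle A p) (T T' : Set (VL ι))
    (h : ∀ u ∈ T, u ∈ Submodule.span ℂ T') (v : VL ι) (hv : Monomial ε T v) :
    v ∈ Submodule.span ℂ {w | Monomial ε T' w} := by
  induction hv with
  | one => exact Submodule.subset_span Monomial.one
  | step u hu j hj w hw ih =>
    have h1 : ∀ t ∈ T', ∀ x ∈ Submodule.span ℂ {w | Monomial ε T' w},
        mode ε t (-j) x ∈ Submodule.span ℂ {w | Monomial ε T' w} := by
      intro t ht x hx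
      have h2 : Submodule.span ℂ {w | Monomial ε T' w} ≤
          (Submodule.span ℂ {w | Monomial ε T' w}).comap (mode ε t (-j)) := by
        refine Submodule.span_le.2 fun y hy => ?_
        exact Submodule.subset_span (Monomial.step t ht j hj y hy)
      exact h2 hx
    have h3 : Submodule.span ℂ T' ≤ (Submodule.span ℂ {w | Monomial ε T' w}).comap
        (tl8_ev hA hp ε (-j) w) := by
      refine Submodule.span_le.2 fun t ht => ?_
      exact h1 t ht w ih
    exact h3 (h u hu)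

/-- Monomials in elements of `W(p)_Q` are in `W(p)_Q`. -/
theorem fin_W (hA : IsADE A) (hp : 2 ≤ p) (ε : Cocycle A p) (T : Set (VL ι))
    (hT : T ⊆ (W A p : Set (VL ι))) (v : VL ι) (hv : Monomial ε T v) : v ∈ W A p := by
  induction hv with
  | one => exact vac_mem_W hA (by omega)
  | step u hu j hj w hw ih => exact W_closed hA hp ε u w (hT hu) ih _

theorem fin_Wk (hA : IsADE A) (hp : 2 ≤ p) (ε : Cocycle A p) (T : Set (VL ι))
    (hT : T ⊆ (Wk ε : Set (VL ι))) (v : VL ι) (hv : Monomial ε T v) : v ∈ Wk ε := by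
  have h5 := vg_5 hA hp ε
  induction hv with
  | one =>
    refine (h5.wk _).2 ⟨1, h5.one_mem, rfl⟩
  | step u hu j hj w hw ih =>
    obtain ⟨f, hf, rfl⟩ := (h5.wk u).1 (hT hu)
    obtain ⟨g, hg, rfl⟩ := (h5.wk w).1 ih
    rw [(vg_2 hA (by omega) ε).single]
    exact (h5.wk _).2 ⟨_, h5.md_mem f hf g hg _, rfl⟩

theorem mono_wo (hA : IsADE A) (hp : 1 ≤ p) (ε : Cocycle A p) (w : ι → Fock ι)
    (L : List (ι × ℕ)) : mono ε (fun i => (Finsupp.single 0 (w i) : VL ι)) L =
      Finsupp.single 0 (wo ε w L) := by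
  induction L with
  | nil => rfl
  | cons x L ih =>
    show mode ε (Finsupp.single 0 (w x.1)) (-((x.2 + 1 : ℕ) : ℤ)) (mono ε _ L) = _
    rw [ih, (vg_2 hA hp ε).single]
    have e : (-((x.2 + 1 : ℕ) : ℤ)) = -1 - (x.2 : ℤ) := by push_cast; ring
    rw [e]
    rfl

theorem fin_hom (f : Fock ι) (n : ℕ) (hf : FH f n) :
    IsHomog A p (n : ℤ) (Finsupp.single 0 f : VL ι) := by
  intro γ
  by_cases h : γ = 0
  · subst h
    refine ⟨n, Or.inr ?_, ?_⟩
    · have h0 : wtExp A p (0 : ι → ℤ) = 0 := by simp [wtExp, formZ]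
      rw [h0, sub_zero]
    · rw [Finsupp.single_eq_same]
      exact hf
  · refine ⟨0, Or.inl ?_, ?_⟩
    · rw [Finsupp.single_eq_of_ne h]
    · rw [Finsupp.single_eq_of_ne h]
      exact isWeightedHomogeneous_zero _ _ _

/-- `Wk ε` is the common kernel on `M(1)` of the long screenings alone. -/
theorem fin_Kplus (hp : 2 ≤ p) (ε : Cocycle A p) (w : ι → Fock ι)
    (P : ι → MvPolynomial ι ℂ) (d : ι → ℕ) (c : ℂ) (hG : Gens A p w P d) (hI : Inv A P d c)
    (v : VL ι) :
    v ∈ Wk ε ↔ (∀ γ : ι → ℤ, γ ≠ 0 → v γ = 0) ∧ ∀ j : ι, expMode ε (Pi.single j 1) 0 v = 0 := by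
  refine ⟨fun h => ⟨h.2.1, h.2.2⟩, ?_⟩
  rintro ⟨h2, h3⟩
  have hv : v = Finsupp.single 0 (v 0) := by
    ext1 γ
    by_cases hγ : γ = 0
    · subst hγ
      rw [Finsupp.single_eq_same]
    · rw [h2 γ hγ, Finsupp.single_eq_of_ne hγ]
  refine ((vg_5 hI.ade hp ε).wk v).2 ⟨v 0, ?_, hv⟩
  rw [← kp_eq hp w P d c hG hI, mem_Kplus]
  intro j
  have h4 := h3 j
  have h5 : toC (Pi.single j 1 : ι → ℤ) = bb j := by
    funext i
    unfold toC bb
    by_cases hij : i = j
    · subst hij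
      simp
    · simp [Pi.single_eq_of_ne hij]
  have h6 : formZ A p (Pi.single j 1) 0 = 0 := by
    unfold formZ
    simp
  have h7 : (((ε.ε (Pi.single j 1) 0 : ℤ) : ℂ)) ≠ 0 := by
    have h := (ε.ε (Pi.single j 1) 0).ne_zero
    exact_mod_cast h
  rw [hv] at h4
  unfold expMode at h4
  rw [Finsupp.lsum_single, LinearMap.comp_apply, LinearMap.smul_apply, h5, h6] at h4
  simp only [Finsupp.lsingle_apply, Finsupp.single_eq_zero, smul_eq_zero, neg_zero, zero_sub,
    sub_zero] at h4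
  exact h4.resolve_left h7

theorem fin_LK (hp : 2 ≤ p) (ε : Cocycle A p) (w : ι → Fock ι)
    (P : ι → MvPolynomial ι ℂ) (d : ι → ℕ) (c : ℂ) (hG : Gens A p w P d) (hI : Inv A P d c) :
    LongKernel ε = Wk ε := by
  ext v
  exact (fin_Kplus hp ε w P d c hG hI v).symm

/-- The free generators. -/
theorem fin_gens (hp : 2 ≤ p) (ε : Cocycle A p) (w : ι → Fock ι)
    (P : ι → MvPolynomial ι ℂ) (d : ι → ℕ) (c : ℂ) (hG : Gens A p w P d) (hI : Inv A P d c) :
    FreeGenerators ε (fun i => (Finsupp.single 0 (w i) : VL ι)) d := by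
  have hA := hI.ade
  have h5 := vg_5 hA hp ε
  have hL := fin_LK hp ε w P d c hG hI
  have hmem : ∀ i, (Finsupp.single 0 (w i) : VL ι) ∈ Wk ε := fun i =>
    (h5.wk _).2 ⟨w i, hG.mem i, rfl⟩
  refine ⟨?_, fun i => fin_hom _ _ (hG.wt i), ?_, ?_⟩
  · rw [hL]
    exact hmem
  · rw [hL]
    refine le_antisymm (Submodule.span_le.2 fun v hv => fin_Wk hA hp ε _ ?_ v hv) ?_
    · rintro _ ⟨i, rfl⟩
      exact hmem i
    · exact fun v hv => vg_main hp ε w P d c hG hI hv
  · intro o ho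
    have e : (fun s : (ι × ℕ) →₀ ℕ =>
        mono ε (fun i => (Finsupp.single 0 (w i) : VL ι)) (o s)) =
        fun s : (ι × ℕ) →₀ ℕ => (Finsupp.single 0 (wo ε w (o s)) : VL ι) := by
      funext s
      exact mono_wo hA (by omega) ε w _
    rw [e, hL]
    exact vgb_basis hp ε w P d c hG hI o ho

/-- Homogeneous elements of `V^G` are combinations of words of the same weight. -/
theorem fin_wt (hp : 2 ≤ p) (ε : Cocycle A p) (w : ι → Fock ι) (P : ι → MvPolynomial ι ℂ)
    (d : ι → ℕ) (c : ℂ) (hG : Gens A p w P d) (hI : Inv A P d c) (f : Fock ι) (n : ℕ)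
    (hf : f ∈ KK A p) (hn : FH f n) :
    f ∈ Submodule.span ℂ {g | ∃ L, wtL d L = n ∧ g = wo ε w L} := by
  have h1 := vg_span hp ε w P d c hG hI f hf
  have key : Submodule.span ℂ {g | ∃ L, g = wo ε w L} ≤
      (Submodule.span ℂ {g | ∃ L, wtL d L = n ∧ g = wo ε w L}).comap
        (weightedHomogeneousComponent (wF (ι := ι)) n) := by
    rw [Submodule.span_le]
    rintro _ ⟨L, rfl⟩
    rw [SetLike.mem_coe, Submodule.mem_comap]
    have hw := (vg_7 hI.ade hp ε).wt w P d hG L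
    by_cases h : wtL d L = n
    · subst h
      rw [IsWeightedHomogeneous.weightedHomogeneousComponent_same hw]
      exact Submodule.subset_span ⟨L, rfl, rfl⟩
    · rw [IsWeightedHomogeneous.weightedHomogeneousComponent_ne n hw (Ne.symm h)]
      exact zero_mem _
  have h2 := key h1
  rw [Submodule.mem_comap, IsWeightedHomogeneous.weightedHomogeneousComponent_same hn] at h2
  exact h2

theorem fin_omega_ne (hA : IsADE A) (hp : 1 ≤ p) (ε : Cocycle A p) (i0 : ι) :
    omegaV A p ≠ 0 := by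
  rw [omegaV_eq]
  intro h
  have h1 := mode_omega hA hp ε 1
  rw [h, tl8_mode_zero hA hp] at h1
  have h3 : (Finsupp.single 0 (X (i0, 0)) : VL ι) ∈ Vn A p 1 := by
    refine single_mem_Vn 0 _ 1 ?_ 1 ?_
    · exact isWeightedHomogeneous_X _ _ _
    · simp [wtExp, formZ]
  have h4 := LS_zero_Vn hA hp 1 _ h3
  rw [show (1 : ℤ) - 1 = 0 by norm_num] at h1
  rw [← h1, LinearMap.zero_apply, Int.cast_one, one_smul] at h4
  exact X_ne_zero (R := ℂ) (i0, 0) (Finsupp.single_eq_zero.1 h4.symm)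

/-- `ω ∈ Wk`. -/
theorem fin_omega_Wk (hA : IsADE A) (hp : 2 ≤ p) (ε : Cocycle A p) : omegaV A p ∈ Wk ε := by
  have hp1 : 1 ≤ p := by omega
  refine ⟨omegaV_mem hA hp, fun γ hγ => ?_, fun j => ?_⟩
  · unfold omegaV
    exact Finsupp.single_eq_of_ne hγ
  · rw [omegaV_eq]
    unfold omega
    have h1 := LinearMap.congr_fun (LS_Ej hA hp1 ε (Shift.zero A p) j (-2)) vac
    rw [LinearMap.comp_apply, LinearMap.comp_apply] at h1
    have h2 : ∀ v : VL ι, Ej ε (Shift.zero A p) j v = expMode ε (Pi.single j 1) 0 v := by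
      intro v
      unfold Ej
      rw [expS_zero]
      rfl
    rw [← h2, ← h1, h2]
    have h3 : expMode ε (Pi.single j 1) 0 (vac : VL ι) = 0 :=
      ((vg_5 hA hp ε).wk vac).2 ⟨1, (vg_5 hA hp ε).one_mem, rfl⟩ |>.2.2 j
    rw [h3, map_zero]

/-- `ω` is a combination of the generators. -/
theorem fin_omega (hp : 2 ≤ p) (ε : Cocycle A p) (w : ι → Fock ι) (P : ι → MvPolynomial ι ℂ)
    (d : ι → ℕ) (c : ℂ) (hG : Gens A p w P d) (hI : Inv A P d c) (hd : ∀ i, 2 ≤ d i) :
    omegaV A p ∈ Submodule.span ℂ (Set.range fun i => (Finsupp.single 0 (w i) : VL ι)) := by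
  have hA := hI.ade
  have hp1 : 1 ≤ p := by omega
  obtain ⟨g, hg, hge⟩ := ((vg_5 hA hp ε).wk _).1 (fin_omega_Wk hA hp ε)
  by_cases h0 : g = 0
  · rw [hge, h0, Finsupp.single_zero]
    exact zero_mem _
  have hV : omegaV A p ∈ Vn A p 2 := by
    rw [omegaV_eq]
    unfold omega
    have h := LS_Vn (A := A) (p := p) (-2) 0 vac fi2_vac
    rw [show (0 : ℤ) - -2 = 2 by norm_num] at h
    exact h
  have hgH : FH g 2 := by
    rcases Vn_comp 2 _ hV 0 with h | ⟨e, he, hee⟩
    · rw [hge, Finsupp.single_eq_same] at h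
      exact absurd h h0
    · rw [hge, Finsupp.single_eq_same] at he
      have h5 : wtExp A p (0 : ι → ℤ) = 0 := by simp [wtExp, formZ]
      rw [h5] at hee
      have : e = 2 := by omega
      rwa [this] at he
  have h6 := fin_wt hp ε w P d c hG hI g 2 hg hgH
  have h7 : Submodule.span ℂ {g | ∃ L, wtL d L = 2 ∧ g = wo ε w L} ≤
      (Submodule.span ℂ (Set.range fun i => (Finsupp.single 0 (w i) : VL ι))).comap
        (Finsupp.lsingle 0) := by
    rw [Submodule.span_le]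
    rintro _ ⟨L, hL, rfl⟩
    obtain ⟨i, rfl⟩ : ∃ i, L = [(i, 0)] := by
      match L, hL with
      | [], hL => simp [wtL] at hL
      | [x], hL =>
        simp only [wtL, List.map_cons, List.map_nil, List.sum_cons, List.sum_nil] at hL
        have hx := hd x.1
        refine ⟨x.1, ?_⟩
        have hx2 : x.2 = 0 := by omega
        rw [← hx2]
      | x :: y :: L, hL =>
        simp only [wtL, List.map_cons, List.sum_cons] at hL
        have hx := hd x.1
        have hy := hd y.1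
        omega
    refine Submodule.subset_span ⟨i, ?_⟩
    show (Finsupp.single 0 (w i) : VL ι) = Finsupp.single 0 (wo ε w [(i, 0)])
    have h10 := (vg_2 hA hp1 ε).single (w i) 1 (-1 - ((0 : ℕ) : ℤ))
    have h11 := mode_neg_one_vac hA hp1 ε (Finsupp.single 0 (w i))
    unfold vac at h11
    change _ = (Finsupp.single 0 (md ε (w i) (-1 - ((0 : ℕ) : ℤ)) 1) : VL ι)
    rw [← h10, show (-1 - ((0 : ℕ) : ℤ)) = -1 by norm_num, h11]
  have h8 := h7 h6
  rw [hge]
  exact h8

/-- The number of positive roots of height `k`. -/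
theorem fin_roots (hA : IsADE A) (k : ℕ) :
    rootsOfHeight A k = ((posRoots A).filter fun γ => ∑ i, γ i = (k : ℤ)).card := by
  unfold rootsOfHeight
  have e : {γ : ι → ℤ | (∀ i, 0 ≤ γ i) ∧ ∑ i, ∑ j, γ i * A i j * γ j = 2 ∧ ∑ i, γ i = k} =
      (((posRoots A).filter fun γ => ∑ i, γ i = (k : ℤ) : Finset (ι → ℤ)) : Set (ι → ℤ)) := by
    ext γ
    rw [Finset.mem_coe, Finset.mem_filter, (HA8 ι).mem A hA γ, Set.mem_setOf_eq]
    unfold IsPosRoot bl
    exact and_assoc.symm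
  rw [e, Set.ncard_coe_finset]

theorem fin_exp (hA : IsADE A) (d : ι → ℕ) (h : Exponents A d) : ExponentsSucc A d := by
  refine ⟨h.1, fun k hk => ?_⟩
  rw [fin_roots hA, fin_roots hA]
  have := h.2 k hk
  push_cast at this ⊢
  exact this

/-- The conclusion for one pair `(Q, p)`. -/
def Concl (A : Matrix ι ι ℤ) (p : ℕ) (ε : Cocycle A p) : Prop :=
  LongKernel ε ≤ W A p ∧
  ∃ S : Finset (VL ι), (∀ u ∈ S, u ∈ W A p ∧ (∃ n, IsHomog A p n u) ∧ IsPrimary ε u) ∧
    (∀ T : Set (VL ι), (S : Set (VL ι)) ⊆ T → T ⊆ (W A p : Set (VL ι)) →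
      (∀ u ∈ T, ∃ n, IsHomog A p n u) →
      (LongKernel ε : Set (VL ι)) ⊆ Submodule.span ℂ {v | Monomial ε T v} →
      StronglyGenerates ε T (W A p)) ∧
    ∃ (w : ι → VL ι) (d : ι → ℕ), FreeGenerators ε w d ∧ ExponentsSucc A d ∧
      omegaV A p ∈ Submodule.span ℂ (Set.range w) ∧
      StronglyGenerates ε (Set.range w ∪ (S : Set (VL ι))) (W A p)

/-- The form of Q1 proved for all types. -/
def Weak (A : Matrix ι ι ℤ) (p : ℕ) : Prop :=
  ∀ ε : Cocycle A p, ∃ S : Finset (VL ι),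
    (∀ u ∈ S, u ∈ W A p ∧ (∃ n, IsHomog A p n u) ∧ IsPrimary ε u) ∧
      ∀ T : Set (VL ι), omegaV A p ∈ T → (S : Set (VL ι)) ⊆ T → T ⊆ (W A p : Set (VL ι)) →
        (Wk ε : Set (VL ι)) ⊆ Submodule.span ℂ {w | Monomial ε T w} →
        StronglyGenerates ε T (W A p)

theorem fin_drop (hA : IsADE A) (hp : 2 ≤ p) (ε : Cocycle A p) (S : Finset (VL ι))
    (hT : ∀ T : Set (VL ι), omegaV A p ∈ T → (S : Set (VL ι)) ⊆ T → T ⊆ (W A p : Set (VL ι)) →
        (Wk ε : Set (VL ι)) ⊆ Submodule.span ℂ {w | Monomial ε T w} →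
        StronglyGenerates ε T (W A p))
    (T : Set (VL ι)) (h1 : (S : Set (VL ι)) ⊆ T) (h2 : T ⊆ (W A p : Set (VL ι)))
    (h3 : ∀ u ∈ T, ∃ n, IsHomog A p n u)
    (h4 : (Wk ε : Set (VL ι)) ⊆ Submodule.span ℂ {v | Monomial ε T v}) :
    StronglyGenerates ε T (W A p) := by
  refine asg_drop hA hp ε T h2 h3 (h4 (fin_omega_Wk hA hp ε)) ?_
  refine hT _ (Set.mem_insert _ _) (fun x hx => Set.mem_insert_of_mem _ (h1 hx)) ?_ ?_
  · intro x hx
    rcases Set.mem_insert_iff.1 hx with rfl | hx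
    · exact omegaV_mem hA hp
    · exact h2 hx
  · intro x hx
    refine Submodule.span_le.2 (fun v hv => ?_) (h4 hx)
    exact fin_span hA (by omega) ε _ _ (fun u hu => Submodule.subset_span
      (Set.mem_insert_of_mem _ hu)) v hv

theorem fin_concl (hp : 2 ≤ p) (hK : KDSOut A p) (hW : Weak A p) (ε : Cocycle A p) :
    Concl A p ε := by
  obtain ⟨w, P, d, c, hG, hI, hE⟩ := hK
  have hA := hI.ade
  have hF := fin_gens hp ε w P d c hG hI
  have hL := fin_LK hp ε w P d c hG hI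
  have hω := fin_omega hp ε w P d c hG hI hE.1
  have hLW : LongKernel ε ≤ W A p := by
    rw [hL]
    exact fun v hv => hv.1
  obtain ⟨S, hS, hT⟩ := hW ε
  have hd := fin_drop hA hp ε S hT
  rw [← hL] at hd
  refine ⟨hLW, S, hS, hd, _, d, hF, fin_exp hA d hE, hω, ?_⟩
  refine hd _ Set.subset_union_right ?_ ?_ ?_
  · rintro x (⟨i, rfl⟩ | hx)
    · exact hLW (hF.mem i)
    · exact (hS x hx).1
  · rintro x (⟨i, rfl⟩ | hx)
    · exact ⟨_, hF.hom i⟩
    · exact (hS x hx).2.1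
  · intro x hx
    have h2 : x ∈ Submodule.span ℂ
        {v | Monomial ε (Set.range fun i => (Finsupp.single 0 (w i) : VL ι)) v} := by
      rw [show Submodule.span ℂ
        {v | Monomial ε (Set.range fun i => (Finsupp.single 0 (w i) : VL ι)) v} =
          LongKernel ε from hF.gen]
      exact hx
    refine Submodule.span_le.2 (fun v hv => ?_) h2
    exact fin_span hA (by omega) ε _ _ (fun u hu => Submodule.subset_span (Or.inl hu)) v hv

theorem weak_of_PG (h : PrimaryGenerated A p) : Weak A p := by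
  intro ε
  obtain ⟨S, hS, hT⟩ := h.2 ε
  exact ⟨S, hS, fun T h1 h2 h3 _ => hT T h1 h2 h3⟩

/-- Type `A_1`. -/
theorem fin_A1 (h1 : st_TL1) (h7a : st_TL7a) (h8 : st_TL8) (A : Matrix (Fin 1) (Fin 1) ℤ) (p : ℕ)
    (hp : 2 ≤ p) (hK : KDSOut A p) : PrimaryGenerated A p := by
  obtain ⟨w, P, d, c, hG, hI, hE⟩ := hK
  have hA := hI.ade
  have hp1 : 1 ≤ p := by omega
  refine ra1_PG hA hp h1 h7a h8 fun ε x hx => ?_
  have h2 := vg_main hp ε w P d c hG hI hx
  have hω := fin_omega hp ε w P d c hG hI hE.1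
  have hne := fin_omega_ne hA hp1 ε 0
  have hr : (Set.range fun i : Fin 1 => (Finsupp.single 0 (w i) : VL (Fin 1))) =
      {(Finsupp.single 0 (w 0) : VL (Fin 1))} := by
    ext y
    rw [Set.mem_range, Set.mem_singleton_iff]
    constructor
    · rintro ⟨i, rfl⟩
      rw [Subsingleton.elim i 0]
    · rintro rfl
      exact ⟨0, rfl⟩
  rw [hr] at h2 hω
  obtain ⟨a, ha⟩ := Submodule.mem_span_singleton.1 hω
  have ha0 : a ≠ 0 := by
    rintro rfl
    rw [zero_smul] at ha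
    exact hne ha.symm
  refine Submodule.span_le.2 (fun v hv => ?_) h2
  refine fin_span hA hp1 ε _ _ (fun u hu => ?_) v hv
  rw [Set.mem_singleton_iff] at hu
  subst hu
  refine Submodule.mem_span_singleton.2 ⟨a⁻¹, ?_⟩
  rw [← ha, smul_smul, inv_mul_cancel₀ ha0, one_smul]

/-- The final theorem from its inputs. -/
theorem fin_main (h1 : st_TL1) (h7a : st_TL7a) (h8 : st_TL8)
    (hK : ∀ (ι : Type) [Fintype ι] [DecidableEq ι] (A : Matrix ι ι ℤ), IsADE A → ∀ p : ℕ, 2 ≤ p →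
      KDSOut A p)
    (hDade : ∀ l : ℕ, 4 ≤ l → IsADE (CartanMatrix.D l))
    (h6ade : IsADE CartanMatrix.E₆) (h7ade : IsADE CartanMatrix.E₇) (h8ade : IsADE CartanMatrix.E₈)
    (hD : ∀ l : ℕ, 4 ≤ l → ∀ p : ℕ, 2 ≤ p → PrimaryGenerated (CartanMatrix.D l) p)
    (h6 : ∀ p : ℕ, 2 ≤ p → PrimaryGenerated CartanMatrix.E₆ p)
    (h7 : ∀ p : ℕ, 2 ≤ p → PrimaryGenerated CartanMatrix.E₇ p)
    (h8' : ∀ p : ℕ, 2 ≤ p → PrimaryGenerated CartanMatrix.E₈ p)
    (l : ℕ) (A : Matrix (Fin l) (Fin l) ℤ) (hAl : ADE l A) (p : ℕ) (hp : 2 ≤ p) :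
    IsADE A ∧ Nonempty (Cocycle A p) ∧ omegaV A p ∈ W A p ∧ ∀ ε : Cocycle A p,
      (∀ u : VL (Fin l), ∃! a, IsVertexOperator ε u a) ∧ Concl A p ε := by
  have hA : IsADE A := by
    cases hAl with
    | A l hl =>
      have e : CartanMatrix.A l = cartanA l := by
        ext i j
        rfl
      rw [e]
      exact cartanA_ade l
    | D l hl => exact hDade l hl
    | E6 => exact h6ade
    | E7 => exact h7ade
    | E8 => exact h8ade
  have hW : Weak A p := by
    cases hAl with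
    | A l hl =>
      have e : CartanMatrix.A l = cartanA l := by
        ext i j
        rfl
      rcases Nat.lt_or_ge l 2 with h | h
      · have hl1 : l = 1 := by omega
        subst hl1
        exact weak_of_PG (fin_A1 h1 h7a h8 _ p hp (hK _ _ hA p hp))
      · rw [e]
        exact (mainC l h p hp).2
    | D l hl => exact weak_of_PG (hD l hl p hp)
    | E6 => exact weak_of_PG (h6 p hp)
    | E7 => exact weak_of_PG (h7 p hp)
    | E8 => exact weak_of_PG (h8' p hp)
  obtain ⟨hc, hm⟩ := WPQ.main (Fin l) A hA p hp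
  exact ⟨hA, hc, omegaV_mem hA hp, fun ε => ⟨(hm ε).1,
    fin_concl hp (hK _ _ hA p hp) hW ε⟩⟩

end

end WPE
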