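import Pool.Agent.WPQ.HAD

/-! # The exponents, in terms of `posRoots` -/

namespace WPE

open WPQ MvPolynomial

noncomputable section

variable {ι : Type} [Fintype ι] [DecidableEq ι] {A : Matrix ι ι ℤ} {p : ℕ}

/-- The `d_i - 1` are the exponents of `g` (Kostant's description by the heights of the positive
roots): `#{i | d_i = k + 1} = #{positive roots of height k} - #{positive roots of height k + 1}`. -/
def Exponents (A : Matrix ι ι ℤ) (d : ι → ℕ) : Prop :=
  (∀ i, 2 ≤ d i) ∧ ∀ k : ℕ, 1 ≤ k →
    (Finset.univ.filter fun i => d i = k + 1).card +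
      ((posRoots A).filter fun γ => ∑ i, γ i = (k : ℤ) + 1).card =
        ((posRoots A).filter fun γ => ∑ i, γ i = (k : ℤ)).card

end

end WPE
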