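import Pool.Agent.WPQ.Defs

/-!
# Q1 for all root lattices of type `A`, `D`, `E`: definitions for the final statement

`LongKernel ε` is the common kernel on `M(1)` (the vectors of charge `0`) of the long screenings
`e^{√p α_j}_0`: the free field realisation of `W_k(g)`, `k = p - h^∨`.
-/

namespace WPE

open WPQ MvPolynomial

noncomputable section

/-- The root lattices of type `A_l` (`l ≥ 1`), `D_l` (`l ≥ 4`), `E_6`, `E_7`, `E_8`, given by their
Cartan matrices (Gram matrices of the simple roots).  `CartanMatrix.A l` is the `l × l` matrix, of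
rank `l`, so it is the Cartan matrix of `A_l` in the usual numbering. -/
inductive ADE : (l : ℕ) → Matrix (Fin l) (Fin l) ℤ → Prop
  | A (l : ℕ) (hl : 1 ≤ l) : ADE l (CartanMatrix.A l)
  | D (l : ℕ) (hl : 4 ≤ l) : ADE l (CartanMatrix.D l)
  | E6 : ADE 6 CartanMatrix.E₆
  | E7 : ADE 7 CartanMatrix.E₇
  | E8 : ADE 8 CartanMatrix.E₈

variable {ι : Type} [Fintype ι] [DecidableEq ι] {A : Matrix ι ι ℤ} {p : ℕ}

/-- The common kernel on `M(1)` of the long screenings `e^{√p α_j}_0`. -/
def LongKernel (ε : Cocycle A p) : Submodule ℂ (VL ι) where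
  carrier := {v | (∀ γ : ι → ℤ, γ ≠ 0 → v γ = 0) ∧ ∀ j : ι, expMode ε (Pi.single j 1) 0 v = 0}
  add_mem' := by
    rintro v w ⟨h1, h2⟩ ⟨k1, k2⟩
    exact ⟨fun γ hγ => by rw [Finsupp.add_apply, h1 γ hγ, k1 γ hγ, add_zero],
      fun j => by rw [map_add, h2 j, k2 j, add_zero]⟩
  zero_mem' := ⟨fun _ _ => rfl, fun _ => map_zero _⟩
  smul_mem' := by
    rintro c v ⟨h1, h2⟩
    exact ⟨fun γ hγ => by rw [Finsupp.smul_apply, h1 γ hγ, smul_zero],
      fun j => by rw [map_smul, h2 j, smul_zero]⟩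

/-- The monomial `(w_{i_1})_{-1-k_1} ⋯ (w_{i_r})_{-1-k_r} 1` of the list `[(i_1,k_1), …]`. -/
def mono (ε : Cocycle A p) (w : ι → VL ι) : List (ι × ℕ) → VL ι
  | [] => vac
  | x :: L => mode ε (w x.1) (-((x.2 + 1 : ℕ) : ℤ)) (mono ε w L)

/-- The `w_i` are homogeneous of weight `d_i`, lie in `LongKernel ε`, and strongly and freely generate
it: whatever order is chosen in every multiset of pairs `(i,k)`, the ordered monomials are a basis. -/
structure FreeGenerators (ε : Cocycle A p) (w : ι → VL ι) (d : ι → ℕ) : Prop where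
  mem : ∀ i, w i ∈ LongKernel ε
  hom : ∀ i, IsHomog A p (d i) (w i)
  gen : StronglyGenerates ε (Set.range w) (LongKernel ε)
  basis : ∀ o : ((ι × ℕ) →₀ ℕ) → List (ι × ℕ),
    (∀ s, (o s : Multiset (ι × ℕ)) = Finsupp.toMultiset s) →
      LinearIndependent ℂ (fun s => mono ε w (o s)) ∧
        Submodule.span ℂ (Set.range fun s => mono ε w (o s)) = LongKernel ε

/-- The number of positive roots of height `k`: vectors of norm `2` of the root lattice with
coordinates `≥ 0` and sum of the coordinates `k`. -/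
def rootsOfHeight (A : Matrix ι ι ℤ) (k : ℕ) : ℕ :=
  {γ : ι → ℤ | (∀ i, 0 ≤ γ i) ∧ ∑ i, ∑ j, γ i * A i j * γ j = 2 ∧ ∑ i, γ i = k}.ncard

/-- The `d_i - 1` are the exponents of `g` (Kostant: the number of exponents equal to `k ≥ 1` is the
number of positive roots of height `k` minus the number of those of height `k + 1`). -/
def ExponentsSucc (A : Matrix ι ι ℤ) (d : ι → ℕ) : Prop :=
  (∀ i, 2 ≤ d i) ∧ ∀ k : ℕ, 1 ≤ k →
    (Finset.univ.filter fun i => d i = k + 1).card + rootsOfHeight A (k + 1) = rootsOfHeight A k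

end

end WPE
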