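import Mathlib

/-! WPE, blocks IN: modules over the affinization of `(B, κ)`, induced modules.

`B` is a Lie algebra over `ℂ` with an invariant symmetric form `κ`.  A `BMod κ E` is a family of
operators `J m a` (`m : ℤ`, `a : B`) on `E` with
`[J m a, J n b] = J (m + n) [a, b] + m δ_{m+n,0} κ(a, b)`.  A `TMod B N` is a smooth module over
`B[t]`.  `Ind κ T` is the induced module (universal property: `lift`, `hom_ext`). -/

namespace WPE

open scoped TensorProduct

noncomputable section

variable {B : Type} [LieRing B] [LieAlgebra ℂ B]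

/-- `κ` is a symmetric invariant bilinear form. -/
structure IsInvForm (κ : B →ₗ[ℂ] B →ₗ[ℂ] ℂ) : Prop where
  symm : ∀ a b, κ a b = κ b a
  inv : ∀ a b c, κ ⁅a, b⁆ c = κ a ⁅b, c⁆

/-- The cocycle `m δ_{m+n,0} κ(a,b)`. -/
def coc (κ : B →ₗ[ℂ] B →ₗ[ℂ] ℂ) (m n : ℤ) (a b : B) : ℂ :=
  if m + n = 0 then (m : ℂ) * κ a b else 0

/-- A module over the affinization of `(B, κ)` (only the commutation relations). -/
structure BMod (κ : B →ₗ[ℂ] B →ₗ[ℂ] ℂ) (E : Type) [AddCommGroup E] [Module ℂ E] where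
  J : ℤ → B →ₗ[ℂ] E →ₗ[ℂ] E
  comm : ∀ (m n : ℤ) (a b : B) (x : E),
    J m a (J n b x) - J n b (J m a x) = J (m + n) ⁅a, b⁆ x + coc κ m n a b • x

/-- A smooth module over `B[t]`. -/
structure TMod (B : Type) [LieRing B] [LieAlgebra ℂ B] (N : Type) [AddCommGroup N]
    [Module ℂ N] where
  act : ℕ → B →ₗ[ℂ] N →ₗ[ℂ] N
  comm : ∀ (m n : ℕ) (a b : B) (v : N),
    act m a (act n b v) - act n b (act m a v) = act (m + n) ⁅a, b⁆ v
  smooth : ∀ v : N, ∃ M : ℕ, ∀ m ≥ M, ∀ a : B, act m a v = 0

section basic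

variable {κ : B →ₗ[ℂ] B →ₗ[ℂ] ℂ}
variable {E E' : Type} [AddCommGroup E] [Module ℂ E] [AddCommGroup E'] [Module ℂ E']

/-- Smooth modules. -/
def BMod.Smooth (X : BMod κ E) : Prop := ∀ x : E, ∃ M : ℤ, ∀ m ≥ M, ∀ a : B, X.J m a x = 0

/-- Homomorphisms. -/
def BMod.IsHom (X : BMod κ E) (X' : BMod κ E') (G : E →ₗ[ℂ] E') : Prop :=
  ∀ (m : ℤ) (a : B) (x : E), G (X.J m a x) = X'.J m a (G x)

/-- The action of the tensor algebra of `B[t,t⁻¹]`. -/
def BMod.alg (X : BMod κ E) : TensorAlgebra ℂ (ℤ →₀ B) →ₐ[ℂ] Module.End ℂ E :=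
  TensorAlgebra.lift ℂ (Finsupp.lsum ℂ X.J)

end basic

/-- The letter `a t^m` in the tensor algebra of `B[t,t⁻¹]`. -/
def letter (m : ℤ) : B →ₗ[ℂ] TensorAlgebra ℂ (ℤ →₀ B) :=
  TensorAlgebra.ι ℂ ∘ₗ Finsupp.lsingle m

variable (κ : B →ₗ[ℂ] B →ₗ[ℂ] ℂ)
variable {N : Type} [AddCommGroup N] [Module ℂ N] (T : TMod B N)

/-- The relations of the induced module. -/
inductive IndRel : TensorAlgebra ℂ (ℤ →₀ B) ⊗[ℂ] N → Prop
  | comm (r s : TensorAlgebra ℂ (ℤ →₀ B)) (m n : ℤ) (a b : B) (v : N) :
      IndRel ((r * (letter m a * letter n b - letter n b * letter m a - letter (m + n) ⁅a, b⁆ -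
        algebraMap ℂ _ (coc κ m n a b)) * s) ⊗ₜ[ℂ] v)
  | act (r : TensorAlgebra ℂ (ℤ →₀ B)) (m : ℕ) (a : B) (v : N) :
      IndRel ((r * letter (m : ℤ) a) ⊗ₜ[ℂ] v - r ⊗ₜ[ℂ] (T.act m a v))

/-- The induced module. -/
def Ind : Type := (TensorAlgebra ℂ (ℤ →₀ B) ⊗[ℂ] N) ⧸ Submodule.span ℂ {x | IndRel κ T x}

instance : AddCommGroup (Ind κ T) := inferInstanceAs (AddCommGroup
  ((TensorAlgebra ℂ (ℤ →₀ B) ⊗[ℂ] N) ⧸ Submodule.span ℂ {x | IndRel κ T x}))

instance : Module ℂ (Ind κ T) := inferInstanceAs (Module ℂ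
  ((TensorAlgebra ℂ (ℤ →₀ B) ⊗[ℂ] N) ⧸ Submodule.span ℂ {x | IndRel κ T x}))

namespace Ind

/-- The quotient map. -/
def mkQ : TensorAlgebra ℂ (ℤ →₀ B) ⊗[ℂ] N →ₗ[ℂ] Ind κ T :=
  (Submodule.span ℂ {x | IndRel κ T x}).mkQ

variable {κ T}

theorem mkQ_surj : Function.Surjective (mkQ κ T) := Submodule.mkQ_surjective _

theorem mkQ_rel {x : TensorAlgebra ℂ (ℤ →₀ B) ⊗[ℂ] N} (h : IndRel κ T x) : mkQ κ T x = 0 :=
  (Submodule.Quotient.mk_eq_zero _).2 (Submodule.subset_span h)

theorem ext_mkQ {F : Type} [AddCommGroup F] [Module ℂ F] {f g : Ind κ T →ₗ[ℂ] F}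
    (h : ∀ (r : TensorAlgebra ℂ (ℤ →₀ B)) (v : N), f (mkQ κ T (r ⊗ₜ v)) = g (mkQ κ T (r ⊗ₜ v))) :
    f = g := by
  have h1 : f ∘ₗ mkQ κ T = g ∘ₗ mkQ κ T := TensorProduct.ext' h
  ext x
  obtain ⟨y, rfl⟩ := mkQ_surj x
  exact LinearMap.congr_fun h1 y

/-- Left multiplication by an element of the tensor algebra. -/
def lmul (t : TensorAlgebra ℂ (ℤ →₀ B)) : Ind κ T →ₗ[ℂ] Ind κ T :=
  Submodule.mapQ _ _ (LinearMap.rTensor N (LinearMap.mulLeft ℂ t)) (by
    rw [Submodule.span_le]
    intro x hx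
    refine Submodule.subset_span ?_
    show IndRel κ T _
    cases hx with
    | comm r s m n a b v =>
      have h := IndRel.comm (κ := κ) (T := T) (t * r) s m n a b v
      simp only [LinearMap.rTensor_tmul, LinearMap.mulLeft_apply]
      convert h using 2
      simp only [mul_assoc]
    | act r m a v =>
      have h := IndRel.act (κ := κ) (T := T) (t * r) m a v
      simp only [map_sub, LinearMap.rTensor_tmul, LinearMap.mulLeft_apply]
      rw [← mul_assoc]
      exact h)

theorem lmul_mkQ (t r : TensorAlgebra ℂ (ℤ →₀ B)) (v : N) :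
    lmul t (mkQ κ T (r ⊗ₜ v)) = mkQ κ T ((t * r) ⊗ₜ v) := rfl

variable (κ T)

/-- The operators `J m a` on the induced module. -/
def mod : BMod κ (Ind κ T) where
  J := fun m =>
    { toFun := fun a => lmul (letter m a)
      map_add' := by
        intro a b
        refine ext_mkQ fun r v => ?_
        rw [LinearMap.add_apply, lmul_mkQ, lmul_mkQ, lmul_mkQ, map_add, add_mul,
          TensorProduct.add_tmul, map_add]
      map_smul' := by
        intro c a
        refine ext_mkQ fun r v => ?_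
        rw [RingHom.id_apply, LinearMap.smul_apply, lmul_mkQ, lmul_mkQ, map_smul, smul_mul_assoc,
          ← TensorProduct.smul_tmul', map_smul] }
  comm := by
    intro m n a b x
    have h : (lmul (letter m a) : Ind κ T →ₗ[ℂ] Ind κ T) ∘ₗ lmul (letter n b) -
        lmul (letter n b) ∘ₗ lmul (letter m a) = lmul (letter (m + n) ⁅a, b⁆) +
          coc κ m n a b • LinearMap.id := by
      refine ext_mkQ fun r v => ?_
      simp only [LinearMap.sub_apply, LinearMap.comp_apply, LinearMap.add_apply,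
        LinearMap.smul_apply, LinearMap.id_apply, lmul_mkQ]
      rw [← sub_eq_zero, ← map_sub, ← map_smul, ← map_add, ← map_sub]
      have h1 := IndRel.comm (κ := κ) (T := T) 1 r m n a b v
      convert mkQ_rel h1 using 2
      rw [Algebra.algebraMap_eq_smul_one]
      simp only [one_mul, sub_mul, TensorProduct.sub_tmul, smul_mul_assoc, mul_assoc,
        TensorProduct.smul_tmul']
      abel
    exact LinearMap.congr_fun h x

/-- The inclusion `N → Ind κ T`. -/
def incl : N →ₗ[ℂ] Ind κ T := mkQ κ T ∘ₗ TensorProduct.mk ℂ _ N 1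

variable {κ T}

theorem J_mkQ (m : ℤ) (a : B) (r : TensorAlgebra ℂ (ℤ →₀ B)) (v : N) :
    (mod κ T).J m a (mkQ κ T (r ⊗ₜ v)) = mkQ κ T ((letter m a * r) ⊗ₜ v) := rfl

theorem incl_apply (v : N) : incl κ T v = mkQ κ T (1 ⊗ₜ v) := rfl

/-- `B[t]` acts on `N ⊆ Ind κ T` as on `N`. -/
theorem J_incl (m : ℕ) (a : B) (v : N) :
    (mod κ T).J m a (incl κ T v) = incl κ T (T.act m a v) := by
  rw [incl_apply, incl_apply, J_mkQ, ← sub_eq_zero, ← map_sub, mul_one]
  have h := mkQ_rel (IndRel.act (κ := κ) (T := T) 1 m a v)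
  rwa [one_mul] at h

/-- Induction: a subspace that contains `N` and is stable under all `J m a` is everything. -/
theorem induction_sub (W : Submodule ℂ (Ind κ T)) (h0 : ∀ v, incl κ T v ∈ W)
    (h1 : ∀ m a x, x ∈ W → (mod κ T).J m a x ∈ W) (x : Ind κ T) : x ∈ W := by
  obtain ⟨y, rfl⟩ := mkQ_surj x
  induction y using TensorProduct.induction_on with
  | zero => rw [map_zero]; exact zero_mem _
  | add y z hy hz => rw [map_add]; exact add_mem hy hz
  | tmul r v =>
    have key : ∀ r : TensorAlgebra ℂ (ℤ →₀ B), ∀ x ∈ W, lmul r x ∈ W := by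
      intro r
      induction r using TensorAlgebra.induction with
      | algebraMap c =>
        intro x hx
        have : lmul (algebraMap ℂ _ c) x = c • x := by
          obtain ⟨y, rfl⟩ := mkQ_surj x
          have h2 : (lmul (algebraMap ℂ _ c) : Ind κ T →ₗ[ℂ] Ind κ T) = c • LinearMap.id := by
            refine ext_mkQ fun r v => ?_
            rw [lmul_mkQ, LinearMap.smul_apply, LinearMap.id_apply, ← map_smul,
              Algebra.algebraMap_eq_smul_one, smul_mul_assoc, one_mul,
              TensorProduct.smul_tmul']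
          rw [h2]; rfl
        rw [this]
        exact Submodule.smul_mem _ _ hx
      | ι f =>
        intro x hx
        induction f using Finsupp.induction_linear with
        | zero =>
          have h2 : (lmul (TensorAlgebra.ι ℂ 0) : Ind κ T →ₗ[ℂ] Ind κ T) = 0 := by
            refine ext_mkQ fun r v => ?_
            rw [lmul_mkQ, map_zero, zero_mul, TensorProduct.zero_tmul, map_zero,
              LinearMap.zero_apply]
          rw [h2]
          exact zero_mem _
        | add f g hf hg =>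
          have h2 : (lmul (TensorAlgebra.ι ℂ (f + g)) : Ind κ T →ₗ[ℂ] Ind κ T) =
              lmul (TensorAlgebra.ι ℂ f) + lmul (TensorAlgebra.ι ℂ g) := by
            refine ext_mkQ fun r v => ?_
            rw [LinearMap.add_apply, lmul_mkQ, lmul_mkQ, lmul_mkQ, map_add, add_mul,
              TensorProduct.add_tmul, map_add]
          rw [h2]
          exact add_mem hf hg
        | single m a => exact h1 m a x hx
      | mul r s hr hs =>
        intro x hx
        have h2 : (lmul (r * s) : Ind κ T →ₗ[ℂ] Ind κ T) = lmul r ∘ₗ lmul s := by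
          refine ext_mkQ fun t v => ?_
          rw [LinearMap.comp_apply, lmul_mkQ, lmul_mkQ, lmul_mkQ, mul_assoc]
        rw [h2]
        exact hr _ (hs _ hx)
      | add r s hr hs =>
        intro x hx
        have h2 : (lmul (r + s) : Ind κ T →ₗ[ℂ] Ind κ T) = lmul r + lmul s := by
          refine ext_mkQ fun t v => ?_
          rw [LinearMap.add_apply, lmul_mkQ, lmul_mkQ, lmul_mkQ, add_mul,
            TensorProduct.add_tmul, map_add]
        rw [h2]
        exact add_mem (hr _ hx) (hs _ hx)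
    have h3 := key r _ (h0 v)
    rwa [incl_apply, lmul_mkQ, mul_one] at h3

section lift

variable {E : Type} [AddCommGroup E] [Module ℂ E] (X : BMod κ E) (φ : N →ₗ[ℂ] E)

theorem alg_letter (m : ℤ) (a : B) : X.alg (letter m a) = X.J m a := by
  unfold BMod.alg letter
  rw [LinearMap.comp_apply, TensorAlgebra.lift_ι_apply, Finsupp.lsingle_apply,
    Finsupp.lsum_single]

/-- The universal map. -/
def lift (hφ : ∀ (m : ℕ) (a : B) (v : N), X.J m a (φ v) = φ (T.act m a v)) :
    Ind κ T →ₗ[ℂ] E :=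
  Submodule.liftQ _ (TensorProduct.lift ((LinearMap.lcomp ℂ E φ) ∘ₗ X.alg.toLinearMap)) (by
    rw [Submodule.span_le]
    intro x hx
    rw [SetLike.mem_coe, LinearMap.mem_ker]
    cases hx with
    | comm r s m n a b v =>
      rw [TensorProduct.lift.tmul]
      show X.alg _ (φ v) = 0
      rw [map_mul, map_mul, map_sub, map_sub, map_sub, map_mul, map_mul, alg_letter, alg_letter,
        alg_letter, AlgHom.commutes]
      have h : X.J m a * X.J n b - X.J n b * X.J m a - X.J (m + n) ⁅a, b⁆ -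
          (algebraMap ℂ (Module.End ℂ E)) (coc κ m n a b) = 0 := by
        ext x
        have h1 := X.comm m n a b x
        simp only [LinearMap.sub_apply, Module.End.mul_apply, Module.algebraMap_end_apply,
          LinearMap.zero_apply]
        rw [h1]
        abel
      rw [h, mul_zero, zero_mul, LinearMap.zero_apply]
    | act r m a v =>
      rw [map_sub, TensorProduct.lift.tmul, TensorProduct.lift.tmul]
      show X.alg _ (φ v) - X.alg _ (φ _) = 0
      rw [map_mul, alg_letter, Module.End.mul_apply, hφ, sub_self])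

variable {X φ} (hφ : ∀ (m : ℕ) (a : B) (v : N), X.J m a (φ v) = φ (T.act m a v))

theorem lift_mkQ (r : TensorAlgebra ℂ (ℤ →₀ B)) (v : N) :
    lift X φ hφ (mkQ κ T (r ⊗ₜ v)) = X.alg r (φ v) := rfl

theorem lift_incl (v : N) : lift X φ hφ (incl κ T v) = φ v := by
  rw [incl_apply, lift_mkQ, map_one, Module.End.one_apply]

theorem lift_isHom : (mod κ T).IsHom X (lift X φ hφ) := by
  intro m a x
  have h : lift X φ hφ ∘ₗ (mod κ T).J m a = X.J m a ∘ₗ lift X φ hφ := by
    refine ext_mkQ fun r v => ?_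
    rw [LinearMap.comp_apply, LinearMap.comp_apply, J_mkQ, lift_mkQ, lift_mkQ, map_mul,
      alg_letter, Module.End.mul_apply]
  exact LinearMap.congr_fun h x

theorem lift_J (m : ℤ) (a : B) (x : Ind κ T) :
    lift X φ hφ ((mod κ T).J m a x) = X.J m a (lift X φ hφ x) := lift_isHom hφ m a x

end lift

/-- Uniqueness of homomorphisms out of the induced module. -/
theorem hom_ext {E : Type} [AddCommGroup E] [Module ℂ E] {X : BMod κ E} {G G' : Ind κ T →ₗ[ℂ] E}
    (hG : (mod κ T).IsHom X G) (hG' : (mod κ T).IsHom X G')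
    (h : ∀ v, G (incl κ T v) = G' (incl κ T v)) : G = G' := by
  ext x
  have h1 := induction_sub (LinearMap.eqLocus G G') (fun v => h v) (fun m a x hx => by
    show G _ = G' _
    rw [hG, hG']
    exact congrArg _ hx) x
  exact h1

/-- The induced module is smooth. -/
theorem smooth : (mod κ T).Smooth := by
  intro x
  let W : Submodule ℂ (Ind κ T) :=
    { carrier := {x | ∃ M : ℤ, ∀ m ≥ M, ∀ a : B, (mod κ T).J m a x = 0}
      add_mem' := by
        rintro x y ⟨M, hM⟩ ⟨M', hM'⟩
        refine ⟨max M M', fun m hm a => ?_⟩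
        rw [map_add, hM m (le_trans (le_max_left _ _) hm), hM' m (le_trans (le_max_right _ _) hm),
          add_zero]
      zero_mem' := ⟨0, fun m _ a => map_zero _⟩
      smul_mem' := by
        rintro c x ⟨M, hM⟩
        refine ⟨M, fun m hm a => ?_⟩
        rw [map_smul, hM m hm, smul_zero] }
  refine induction_sub W ?_ ?_ x
  · intro v
    obtain ⟨M, hM⟩ := T.smooth v
    refine ⟨M, fun m hm a => ?_⟩
    obtain ⟨k, rfl⟩ := Int.eq_ofNat_of_zero_le (le_trans (Int.natCast_nonneg M) hm)
    rw [J_incl, hM k (by exact_mod_cast hm), map_zero]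
  · rintro n b x ⟨M, hM⟩
    refine ⟨max (max M (M - n)) (1 - n), fun m hm a => ?_⟩
    have h1 := (mod κ T).comm m n a b x
    have h2 : M ≤ m := le_trans (le_trans (le_max_left _ _) (le_max_left _ _)) hm
    have h3 : M - n ≤ m := le_trans (le_trans (le_max_right _ _) (le_max_left _ _)) hm
    have h4 : 1 - n ≤ m := le_trans (le_max_right _ _) hm
    rw [hM m h2, map_zero, sub_zero, hM (m + n) (by omega), zero_add] at h1
    rw [h1, coc, if_neg (by omega), zero_smul]

end Ind

end

end WPE
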