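import Pool.Agent.WPE.IND

/-! WPE, block IN: constructions of `B[t]`-modules, ghosts, locally finite sums. -/

namespace WPE

open scoped TensorProduct

noncomputable section

section constructions

variable {B : Type} [LieRing B] [LieAlgebra ℂ B]
variable {Y : Type} [AddCommGroup Y] [Module ℂ Y] [LieRingModule B Y] [LieModule ℂ B Y]
variable {N N' : Type} [AddCommGroup N] [Module ℂ N] [AddCommGroup N'] [Module ℂ N']

/-- A representation of the Lie algebra `B` on `N` (explicit data, no instances). -/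
structure LRep (B : Type) [LieRing B] [LieAlgebra ℂ B] (N : Type) [AddCommGroup N]
    [Module ℂ N] where
  ρ : B →ₗ[ℂ] N →ₗ[ℂ] N
  lie : ∀ (a b : B) (v : N), ρ ⁅a, b⁆ v = ρ a (ρ b v) - ρ b (ρ a v)

/-- Restriction along a homomorphism of Lie algebras. -/
def LRep.comap {B' : Type} [LieRing B'] [LieAlgebra ℂ B'] (R : LRep B' N) (f : B →ₗ⁅ℂ⁆ B') :
    LRep B N where
  ρ := R.ρ ∘ₗ (f : B →ₗ[ℂ] B')
  lie := by
    intro a b v
    show R.ρ (f ⁅a, b⁆) v = _
    rw [LieHom.map_lie, R.lie]
    rfl

/-- A representation of `B`; `B[t]` acts through `t = 0`. -/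
def TMod.ofRep (R : LRep B N) : TMod B N where
  act m := if m = 0 then R.ρ else 0
  comm := by
    intro m n a b v
    by_cases hm : m = 0
    · by_cases hn : n = 0
      · subst hm; subst hn
        exact (R.lie a b v).symm
      · rw [if_neg hn, if_neg (by omega : ¬ m + n = 0)]
        simp
    · rw [if_neg hm, if_neg (by omega : ¬ m + n = 0)]
      simp
  smooth := by
    intro v
    refine ⟨1, fun m hm a => ?_⟩
    rw [if_neg (by omega)]
    rfl

theorem TMod.ofRep_zero (R : LRep B N) (a : B) (v : N) :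
    (TMod.ofRep R).act 0 a v = R.ρ a v := rfl

theorem TMod.ofRep_pos (R : LRep B N) (m : ℕ) (hm : m ≠ 0) (a : B) (v : N) :
    (TMod.ofRep R).act m a v = 0 := by
  show (if m = 0 then R.ρ else 0) a v = 0
  rw [if_neg hm]
  rfl

/-- The space of ghosts `Y ⊗ t⁻¹ℂ[t⁻¹]`; `Finsupp.single k y` is `y t^(-k-1)`. -/
abbrev Gh (Y : Type) [AddCommGroup Y] : Type := ℕ →₀ Y

/-- The action of `a t^m` on the ghosts. -/
def ghAct (m : ℕ) : B →ₗ[ℂ] Gh Y →ₗ[ℂ] Gh Y :=
  LinearMap.flip (Finsupp.lsum ℂ fun k =>
    if m ≤ k then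
      ((LieModule.toEnd ℂ B Y : B →ₗ[ℂ] Module.End ℂ Y).flip).compr₂ (Finsupp.lsingle (k - m))
    else 0)

theorem ghAct_single (m : ℕ) (a : B) (k : ℕ) (y : Y) :
    ghAct m a (Finsupp.single k y) = if m ≤ k then Finsupp.single (k - m) ⁅a, y⁆ else 0 := by
  unfold ghAct
  rw [LinearMap.flip_apply, Finsupp.lsum_single]
  split_ifs <;> rfl

variable (B Y)

/-- The `B[t]`-module of ghosts. -/
def TMod.ghost : TMod B (Gh Y) where
  act := ghAct
  comm := by
    intro m n a b v
    induction v using Finsupp.induction_linear with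
    | zero => simp
    | add f g hf hg =>
      simp only [map_add]
      rw [← hf, ← hg]
      abel
    | single k y =>
      rw [ghAct_single, ghAct_single, ghAct_single]
      by_cases hn : n ≤ k
      · by_cases hm : m ≤ k
        · by_cases hmn : m + n ≤ k
          · rw [if_pos hn, if_pos hm, if_pos hmn, ghAct_single, ghAct_single, if_pos (by omega),
              if_pos (by omega), show k - n - m = k - (m + n) by omega,
              show k - m - n = k - (m + n) by omega, ← Finsupp.single_sub, ← lie_lie]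
          · rw [if_pos hn, if_pos hm, if_neg hmn, ghAct_single, ghAct_single, if_neg (by omega),
              if_neg (by omega), sub_zero]
        · rw [if_pos hn, if_neg hm, if_neg (by omega), ghAct_single, if_neg (by omega), map_zero,
            sub_zero]
      · by_cases hm : m ≤ k
        · rw [if_neg hn, if_pos hm, if_neg (by omega), ghAct_single, if_neg (by omega), map_zero,
            sub_zero]
        · rw [if_neg hn, if_neg hm, if_neg (by omega), map_zero, map_zero, sub_zero]
  smooth := by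
    intro v
    induction v using Finsupp.induction_linear with
    | zero => exact ⟨0, fun m _ a => map_zero _⟩
    | add f g hf hg =>
      obtain ⟨M, hM⟩ := hf
      obtain ⟨M', hM'⟩ := hg
      refine ⟨max M M', fun m hm a => ?_⟩
      rw [map_add, hM m (le_trans (le_max_left _ _) hm), hM' m (le_trans (le_max_right _ _) hm),
        add_zero]
    | single k y =>
      refine ⟨k + 1, fun m hm a => ?_⟩
      rw [ghAct_single, if_neg (by omega)]

variable {B Y}

/-- The product of two `B[t]`-modules. -/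
def TMod.prod (T : TMod B N) (T' : TMod B N') : TMod B (N × N') where
  act m :=
    { toFun := fun a => (T.act m a).prodMap (T'.act m a)
      map_add' := by intro a b; ext x <;> simp
      map_smul' := by intro c a; ext x <;> simp }
  comm := by
    intro m n a b v
    have h1 := T.comm m n a b v.1
    have h2 := T'.comm m n a b v.2
    exact Prod.ext h1 h2
  smooth := by
    intro v
    obtain ⟨M, hM⟩ := T.smooth v.1
    obtain ⟨M', hM'⟩ := T'.smooth v.2
    refine ⟨max M M', fun m hm a => ?_⟩
    exact Prod.ext (hM m (le_trans (le_max_left _ _) hm) a)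
      (hM' m (le_trans (le_max_right _ _) hm) a)

theorem TMod.prod_act (T : TMod B N) (T' : TMod B N') (m : ℕ) (a : B) (v : N × N') :
    (T.prod T').act m a v = (T.act m a v.1, T'.act m a v.2) := rfl

/-- The tensor product of two `B[t]`-modules. -/
def TMod.tensor (T : TMod B N) (T' : TMod B N') : TMod B (N ⊗[ℂ] N') where
  act m := (LinearMap.rTensorHom N') ∘ₗ T.act m + (LinearMap.lTensorHom N) ∘ₗ T'.act m
  comm := by
    intro m n a b v
    induction v using TensorProduct.induction_on with
    | zero => simp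
    | add f g hf hg =>
      simp only [map_add]
      rw [← hf, ← hg]
      abel
    | tmul v w =>
      have h1 := T.comm m n a b v
      have h2 := T'.comm m n a b w
      simp only [LinearMap.add_apply, LinearMap.comp_apply, LinearMap.coe_rTensorHom,
        LinearMap.coe_lTensorHom, LinearMap.rTensor_tmul, LinearMap.lTensor_tmul, map_add]
      rw [← h1, ← h2, TensorProduct.sub_tmul, TensorProduct.tmul_sub]
      abel
  smooth := by
    intro v
    induction v using TensorProduct.induction_on with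
    | zero => exact ⟨0, fun m _ a => map_zero _⟩
    | add f g hf hg =>
      obtain ⟨M, hM⟩ := hf
      obtain ⟨M', hM'⟩ := hg
      refine ⟨max M M', fun m hm a => ?_⟩
      rw [map_add, hM m (le_trans (le_max_left _ _) hm), hM' m (le_trans (le_max_right _ _) hm),
        add_zero]
    | tmul v w =>
      obtain ⟨M, hM⟩ := T.smooth v
      obtain ⟨M', hM'⟩ := T'.smooth w
      refine ⟨max M M', fun m hm a => ?_⟩
      simp only [LinearMap.add_apply, LinearMap.comp_apply, LinearMap.coe_rTensorHom,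
        LinearMap.coe_lTensorHom, LinearMap.rTensor_tmul, LinearMap.lTensor_tmul]
      rw [hM m (le_trans (le_max_left _ _) hm), hM' m (le_trans (le_max_right _ _) hm),
        TensorProduct.zero_tmul, TensorProduct.tmul_zero, add_zero]

theorem TMod.tensor_act (T : TMod B N) (T' : TMod B N') (m : ℕ) (a : B) (v : N) (w : N') :
    (T.tensor T').act m a (v ⊗ₜ w) = T.act m a v ⊗ₜ w + v ⊗ₜ T'.act m a w := rfl

end constructions

section ghosts

variable (B : Type) [LieRing B] [LieAlgebra ℂ B]
variable (Y : Type) [AddCommGroup Y] [Module ℂ Y] [LieRingModule B Y] [LieModule ℂ B Y]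
variable (N : Type) [AddCommGroup N] [Module ℂ N]

/-- A `B[t]`-module with anticommuting creation operators for the ghosts. -/
structure GT extends TMod B N where
  ω : Gh Y →ₗ[ℂ] N →ₗ[ℂ] N
  equi : ∀ (m : ℕ) (a : B) (g : Gh Y) (v : N),
    act m a (ω g v) = ω (ghAct m a g) v + ω g (act m a v)
  anti : ∀ (g g' : Gh Y) (v : N), ω g (ω g' v) + ω g' (ω g v) = 0

variable (κ : B →ₗ[ℂ] B →ₗ[ℂ] ℂ) (E : Type) [AddCommGroup E] [Module ℂ E]

/-- A smooth module over the affinization of `(B, κ)` together with anticommuting ghosts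
`ψ m y` (`y ∈ Y`, `m ∈ ℤ`), `[J m a, ψ n y] = ψ (m+n) [a,y]`. -/
structure GMod extends BMod κ E where
  ψ : ℤ → Y →ₗ[ℂ] E →ₗ[ℂ] E
  commψ : ∀ (m n : ℤ) (a : B) (y : Y) (x : E),
    J m a (ψ n y x) - ψ n y (J m a x) = ψ (m + n) ⁅a, y⁆ x
  anti : ∀ (m n : ℤ) (y z : Y) (x : E), ψ m y (ψ n z x) + ψ n z (ψ m y x) = 0
  smooth : toBMod.Smooth
  smoothψ : ∀ x : E, ∃ M : ℤ, ∀ m ≥ M, ∀ y : Y, ψ m y x = 0

end ghosts

section psi

variable {B : Type} [LieRing B] [LieAlgebra ℂ B] {κ : B →ₗ[ℂ] B →ₗ[ℂ] ℂ}
variable {Y : Type} [AddCommGroup Y] [Module ℂ Y] [LieRingModule B Y] [LieModule ℂ B Y]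
variable {N : Type} [AddCommGroup N] [Module ℂ N]
variable {E : Type} [AddCommGroup E] [Module ℂ E]

/-- The space of families `φ n y` (`n ∈ ℤ`, `y ∈ Y`) of vectors of `E`. -/
def BMod.homY (X : BMod κ E) : BMod κ (ℤ → Y →ₗ[ℂ] E) where
  J m :=
    { toFun := fun a =>
        { toFun := fun φ n => X.J m a ∘ₗ φ n - φ (m + n) ∘ₗ (LieModule.toEnd ℂ B Y a)
          map_add' := by
            intro φ φ'
            funext n
            ext y
            simp only [Pi.add_apply, LinearMap.sub_apply, LinearMap.comp_apply,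
              LinearMap.add_apply, map_add]
            abel
          map_smul' := by
            intro c φ
            funext n
            ext y
            simp only [Pi.smul_apply, LinearMap.sub_apply, LinearMap.comp_apply,
              LinearMap.smul_apply, map_smul, RingHom.id_apply, smul_sub] }
      map_add' := by
        intro a b
        ext φ n y
        simp only [map_add, LinearMap.coe_mk, AddHom.coe_mk, LinearMap.add_apply, Pi.add_apply,
          LinearMap.sub_apply, LinearMap.comp_apply]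
        abel
      map_smul' := by
        intro c a
        ext φ n y
        simp only [map_smul, LinearMap.coe_mk, AddHom.coe_mk, LinearMap.smul_apply, Pi.smul_apply,
          LinearMap.sub_apply, LinearMap.comp_apply, RingHom.id_apply, smul_sub] }
  comm := by
    intro m n a b φ
    funext k
    ext y
    simp only [LinearMap.coe_mk, AddHom.coe_mk, LinearMap.add_apply, Pi.add_apply, Pi.sub_apply,
      LinearMap.sub_apply, LinearMap.comp_apply, Pi.smul_apply, LinearMap.smul_apply, map_sub,
      LieModule.toEnd_apply_apply]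
    have h := X.comm m n a b (φ k y)
    rw [lie_lie, map_sub, add_left_comm n m k, ← add_assoc m n k, sub_eq_iff_eq_add] at *
    rw [h]
    abel

theorem BMod.homY_J (X : BMod κ E) (m : ℤ) (a : B) (φ : ℤ → Y →ₗ[ℂ] E) (n : ℤ) (y : Y) :
    (X.homY (Y := Y)).J m a φ n y = X.J m a (φ n y) - φ (m + n) ⁅a, y⁆ := rfl

variable (κ) (G : GT B Y N)

namespace Ind

/-- The operators `ψ n y` on `N`. -/
def psi0 : N →ₗ[ℂ] (ℤ → Y →ₗ[ℂ] Ind κ G.toTMod) where
  toFun v n := if n < 0 then incl κ G.toTMod ∘ₗ (G.ω.flip v) ∘ₗ Finsupp.lsingle (-n - 1).toNat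
    else 0
  map_add' := by
    intro v w
    funext n
    simp only [Pi.add_apply]
    split_ifs
    · ext y; simp
    · rw [add_zero]
  map_smul' := by
    intro c v
    funext n
    simp only [Pi.smul_apply, RingHom.id_apply]
    split_ifs
    · ext y; simp
    · rw [smul_zero]

theorem psi0_neg (v : N) (k : ℕ) (y : Y) :
    psi0 κ G v (-(k : ℤ) - 1) y = incl κ G.toTMod (G.ω (Finsupp.single k y) v) := by
  show (if (-(k : ℤ) - 1) < 0 then _ else _ : Y →ₗ[ℂ] Ind κ G.toTMod) y = _
  rw [if_pos (by omega)]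
  have h : (-(-(k : ℤ) - 1) - 1).toNat = k := by omega
  rw [h]
  rfl

theorem psi0_nonneg (v : N) (n : ℤ) (hn : 0 ≤ n) (y : Y) : psi0 κ G v n y = 0 := by
  show (if n < 0 then _ else _ : Y →ₗ[ℂ] Ind κ G.toTMod) y = _
  rw [if_neg (by omega)]
  rfl

theorem psi0_equi (m : ℕ) (a : B) (v : N) :
    ((mod κ G.toTMod).homY (Y := Y)).J m a (psi0 κ G v) = psi0 κ G (G.act m a v) := by
  funext n
  ext y
  rw [BMod.homY_J]
  by_cases hn : n < 0
  · obtain ⟨k, rfl⟩ : ∃ k : ℕ, n = -(k : ℤ) - 1 := ⟨(-n - 1).toNat, by omega⟩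
    rw [psi0_neg, psi0_neg, J_incl, G.equi, map_add, ghAct_single]
    by_cases hm : m ≤ k
    · have e : (m : ℤ) + (-(k : ℤ) - 1) = -((k - m : ℕ) : ℤ) - 1 := by omega
      rw [if_pos hm, e, psi0_neg]
      abel
    · rw [if_neg hm, psi0_nonneg _ _ _ _ (by omega)]
      simp
  · rw [psi0_nonneg _ _ _ _ (by omega), psi0_nonneg _ _ _ _ (by omega),
      psi0_nonneg _ _ _ _ (by omega), map_zero, sub_zero]

/-- The ghosts on the induced module, as one map. -/
def psiL : Ind κ G.toTMod →ₗ[ℂ] (ℤ → Y →ₗ[ℂ] Ind κ G.toTMod) :=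
  lift ((mod κ G.toTMod).homY (Y := Y)) (psi0 κ G) (psi0_equi κ G)

theorem psiL_J (m n : ℤ) (a : B) (y : Y) (x : Ind κ G.toTMod) :
    psiL κ G ((mod κ G.toTMod).J m a x) n y =
      (mod κ G.toTMod).J m a (psiL κ G x n y) - psiL κ G x (m + n) ⁅a, y⁆ := by
  have h := lift_J (psi0_equi κ G) m a x
  have h1 := LinearMap.congr_fun (congrFun h n) y
  exact h1

theorem psiL_incl (v : N) : psiL κ G (incl κ G.toTMod v) = psi0 κ G v :=
  lift_incl (psi0_equi κ G) v

/-- The ghost operators `ψ n y`. -/
def psi (n : ℤ) : Y →ₗ[ℂ] Ind κ G.toTMod →ₗ[ℂ] Ind κ G.toTMod :=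
  LinearMap.flip ((LinearMap.proj n) ∘ₗ psiL κ G)

theorem psi_apply (n : ℤ) (y : Y) (x : Ind κ G.toTMod) : psi κ G n y x = psiL κ G x n y := rfl

theorem psi_incl_neg (k : ℕ) (y : Y) (v : N) :
    psi κ G (-(k : ℤ) - 1) y (incl κ G.toTMod v) =
      incl κ G.toTMod (G.ω (Finsupp.single k y) v) := by
  rw [psi_apply, psiL_incl, psi0_neg]

theorem psi_incl_nonneg (n : ℤ) (hn : 0 ≤ n) (y : Y) (v : N) :
    psi κ G n y (incl κ G.toTMod v) = 0 := by
  rw [psi_apply, psiL_incl, psi0_nonneg _ _ _ _ hn]

theorem J_psi (m n : ℤ) (a : B) (y : Y) (x : Ind κ G.toTMod) :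
    (mod κ G.toTMod).J m a (psi κ G n y x) - psi κ G n y ((mod κ G.toTMod).J m a x) =
      psi κ G (m + n) ⁅a, y⁆ x := by
  rw [psi_apply, psi_apply, psi_apply, psiL_J]
  abel

theorem psi_psi (m n : ℤ) (y z : Y) (x : Ind κ G.toTMod) :
    psi κ G m y (psi κ G n z x) + psi κ G n z (psi κ G m y x) = 0 := by
  let W : Submodule ℂ (Ind κ G.toTMod) :=
    { carrier := {x | ∀ (m n : ℤ) (y z : Y),
        psi κ G m y (psi κ G n z x) + psi κ G n z (psi κ G m y x) = 0}
      add_mem' := by
        intro x x' hx hx' m n y z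
        have h1 := hx m n y z
        have h2 := hx' m n y z
        simp only [map_add]
        rw [add_add_add_comm, h1, h2, add_zero]
      zero_mem' := by
        intro m n y z
        simp only [map_zero, add_zero]
      smul_mem' := by
        intro c x hx m n y z
        have h1 := hx m n y z
        simp only [map_smul]
        rw [← smul_add, h1, smul_zero] }
  have hW : x ∈ W := by
    refine induction_sub W ?_ ?_ x
    · intro v m n y z
      by_cases hm : m < 0
      · obtain ⟨k, rfl⟩ : ∃ k : ℕ, m = -(k : ℤ) - 1 := ⟨(-m - 1).toNat, by omega⟩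
        by_cases hn : n < 0
        · obtain ⟨l, rfl⟩ : ∃ l : ℕ, n = -(l : ℤ) - 1 := ⟨(-n - 1).toNat, by omega⟩
          rw [psi_incl_neg, psi_incl_neg, psi_incl_neg, psi_incl_neg, ← map_add, G.anti, map_zero]
        · rw [psi_incl_nonneg _ _ _ (by omega), psi_incl_neg, psi_incl_nonneg _ _ _ (by omega),
            map_zero, add_zero]
      · by_cases hn : n < 0
        · obtain ⟨l, rfl⟩ : ∃ l : ℕ, n = -(l : ℤ) - 1 := ⟨(-n - 1).toNat, by omega⟩
          rw [psi_incl_neg, psi_incl_nonneg κ G m (by omega), psi_incl_nonneg κ G m (by omega),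
            map_zero, add_zero]
        · rw [psi_incl_nonneg _ _ _ (by omega), psi_incl_nonneg _ _ _ (by omega), map_zero,
            map_zero, add_zero]
    · intro k a x hx m n y z
      have e : ∀ (m n : ℤ) (y z : Y), psi κ G m y (psi κ G n z ((mod κ G.toTMod).J k a x)) =
          (mod κ G.toTMod).J k a (psi κ G m y (psi κ G n z x)) -
            psi κ G (k + m) ⁅a, y⁆ (psi κ G n z x) - psi κ G m y (psi κ G (k + n) ⁅a, z⁆ x) := by
        intro m n y z
        have h1 := J_psi κ G k n a z x
        have h2 := J_psi κ G k m a y (psi κ G n z x)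
        rw [← h1, ← h2, map_sub]
        abel
      rw [e, e]
      have h1 := hx m n y z
      have h2 := hx (k + m) n ⁅a, y⁆ z
      have h3 := hx m (k + n) y ⁅a, z⁆
      have h4 := congrArg ((mod κ G.toTMod).J k a) h1
      rw [map_add, map_zero] at h4
      have h5 : (mod κ G.toTMod).J k a (psi κ G m y (psi κ G n z x)) -
            psi κ G (k + m) ⁅a, y⁆ (psi κ G n z x) - psi κ G m y (psi κ G (k + n) ⁅a, z⁆ x) +
          ((mod κ G.toTMod).J k a (psi κ G n z (psi κ G m y x)) -
            psi κ G (k + n) ⁅a, z⁆ (psi κ G m y x) - psi κ G n z (psi κ G (k + m) ⁅a, y⁆ x)) =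
          ((mod κ G.toTMod).J k a (psi κ G m y (psi κ G n z x)) +
            (mod κ G.toTMod).J k a (psi κ G n z (psi κ G m y x))) -
          (psi κ G (k + m) ⁅a, y⁆ (psi κ G n z x) + psi κ G n z (psi κ G (k + m) ⁅a, y⁆ x)) -
          (psi κ G m y (psi κ G (k + n) ⁅a, z⁆ x) + psi κ G (k + n) ⁅a, z⁆ (psi κ G m y x)) := by
        abel
      rw [h5, h4, h2, h3, sub_zero, sub_zero]
  exact hW m n y z

theorem psi_smooth (x : Ind κ G.toTMod) : ∃ M : ℤ, ∀ m ≥ M, ∀ y : Y, psi κ G m y x = 0 := by
  let W : Submodule ℂ (Ind κ G.toTMod) :=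
    { carrier := {x | ∃ M : ℤ, ∀ m ≥ M, ∀ y : Y, psi κ G m y x = 0}
      add_mem' := by
        rintro x y ⟨M, hM⟩ ⟨M', hM'⟩
        refine ⟨max M M', fun m hm a => ?_⟩
        rw [map_add, hM m (le_trans (le_max_left _ _) hm), hM' m (le_trans (le_max_right _ _) hm),
          add_zero]
      zero_mem' := ⟨0, fun m _ a => map_zero _⟩
      smul_mem' := by
        rintro c x ⟨M, hM⟩
        refine ⟨M, fun m hm a => ?_⟩
        rw [map_smul, hM m hm, smul_zero] }
  refine induction_sub W ?_ ?_ x
  · intro v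
    exact ⟨0, fun m hm y => psi_incl_nonneg κ G m hm y v⟩
  · rintro n b x ⟨M, hM⟩
    refine ⟨max M (M - n), fun m hm y => ?_⟩
    have h2 : M ≤ m := le_trans (le_max_left _ _) hm
    have h3 : M - n ≤ m := le_trans (le_max_right _ _) hm
    have h1 := J_psi κ G n m b y x
    rw [hM m h2, hM (n + m) (by omega), map_zero, zero_sub, neg_eq_zero] at h1
    exact h1

/-- The induced module with its ghosts. -/
def gmod : GMod B Y κ (Ind κ G.toTMod) where
  toBMod := mod κ G.toTMod
  ψ := psi κ G
  commψ := fun m n a y x => J_psi κ G m n a y x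
  anti := psi_psi κ G
  smooth := Ind.smooth
  smoothψ := psi_smooth κ G

end Ind

end psi

section KN

variable {B : Type} [LieRing B] [LieAlgebra ℂ B]
variable (Y : Type) [AddCommGroup Y] [Module ℂ Y] [LieRingModule B Y] [LieModule ℂ B Y]
variable {N : Type} [AddCommGroup N] [Module ℂ N]

/-- `N ⊕ (M ⊗ N) ⊕ (M ⊗ M ⊗ N)`, `M` the space of ghosts. -/
abbrev KN (Y N : Type) [AddCommGroup Y] [Module ℂ Y] [AddCommGroup N] [Module ℂ N] : Type :=
  N × (Gh Y ⊗[ℂ] N) × (Gh Y ⊗[ℂ] (Gh Y ⊗[ℂ] N))

/-- Creation of ghosts, `v ↦ g ⊗ v`, `w ↦ g ⊗ w - (swap)`. -/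
def ghOm : Gh Y →ₗ[ℂ] KN Y N →ₗ[ℂ] KN Y N :=
  LinearMap.mk₂ ℂ (fun g x => (0, g ⊗ₜ x.1, g ⊗ₜ x.2.1 -
      TensorProduct.leftComm ℂ (Gh Y) (Gh Y) N (g ⊗ₜ x.2.1)))
    (by
      intro g g' x
      simp only [TensorProduct.add_tmul, map_add, Prod.mk_add_mk, add_zero, Prod.mk.injEq,
        true_and]
      abel)
    (by
      intro c g x
      simp only [← TensorProduct.smul_tmul', map_smul, Prod.smul_mk, smul_zero, smul_sub])
    (by
      intro g x x'
      simp only [Prod.fst_add, Prod.snd_add, TensorProduct.tmul_add, map_add, Prod.mk_add_mk,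
        add_zero, Prod.mk.injEq, true_and]
      abel)
    (by
      intro c g x
      simp only [Prod.smul_fst, Prod.smul_snd, TensorProduct.tmul_smul, map_smul, Prod.smul_mk,
        smul_zero, smul_sub])

theorem ghOm_apply (g : Gh Y) (x : KN Y N) : ghOm Y g x = (0, g ⊗ₜ x.1, g ⊗ₜ x.2.1 -
      TensorProduct.leftComm ℂ (Gh Y) (Gh Y) N (g ⊗ₜ x.2.1)) := rfl

/-- The data for the complex `C⁰ ⊕ C¹ ⊕ C²` with coefficients in the `B[t]`-module `N`. -/
def TMod.gt (T : TMod B N) : GT B Y (KN Y N) where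
  toTMod := T.prod (((TMod.ghost B Y).tensor T).prod
    ((TMod.ghost B Y).tensor ((TMod.ghost B Y).tensor T)))
  ω := ghOm Y
  equi := by
    intro m a g v
    rw [ghOm_apply, ghOm_apply, ghOm_apply]
    simp only [TMod.prod_act, TMod.tensor_act, Prod.mk_add_mk, add_zero, map_zero, map_sub]
    have h : ∀ z : Gh Y ⊗[ℂ] (Gh Y ⊗[ℂ] N),
        ((TMod.ghost B Y).tensor ((TMod.ghost B Y).tensor T)).act m a
          (TensorProduct.leftComm ℂ (Gh Y) (Gh Y) N z) =
        TensorProduct.leftComm ℂ (Gh Y) (Gh Y) N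
          (((TMod.ghost B Y).tensor ((TMod.ghost B Y).tensor T)).act m a z) := by
      intro z
      induction z using TensorProduct.induction_on with
      | zero => simp
      | add x y hx hy => simp only [map_add]; rw [hx, hy]
      | tmul g w =>
        induction w using TensorProduct.induction_on with
        | zero => simp
        | add x y hx hy => simp only [TensorProduct.tmul_add, map_add]; rw [hx, hy]
        | tmul g' v =>
          simp only [TensorProduct.leftComm_tmul, TMod.tensor_act, TensorProduct.tmul_add,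
            map_add]
          abel
    rw [h, TMod.tensor_act, map_add]
    refine Prod.ext rfl (Prod.ext rfl ?_)
    show _ + _ - (_ + _) = (ghAct m a) g ⊗ₜ[ℂ] v.2.1 - TensorProduct.leftComm ℂ (Gh Y) (Gh Y) N
      ((ghAct m a) g ⊗ₜ[ℂ] v.2.1) + (_ - _)
    exact add_sub_add_comm _ _ _ _
  anti := by
    intro g g' v
    rw [ghOm_apply, ghOm_apply, ghOm_apply, ghOm_apply]
    refine Prod.ext (by simp) (Prod.ext (by simp) ?_)
    simp only [Prod.snd_add, TensorProduct.leftComm_tmul, Prod.snd_zero]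
    abel

end KN

end

end WPE
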