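import Pool.Agent.WPE.KGF
set_option linter.unusedSectionVars false
namespace WPE
open WPQ MvPolynomial AF
noncomputable section
variable {ι : Type} [Fintype ι] [DecidableEq ι] {A : Matrix ι ι ℤ}

namespace KG1

theorem mode_gx (hA : IsADE A) (ε : Cocycle A 1) (γ δ : ι → ℤ) (n : ℤ) :
    mode ε (Finsupp.single γ 1) n (Finsupp.single δ (1 : Fock ι)) = Finsupp.single (γ + δ)
      (((ε.ε γ δ : ℤ) : ℂ) • expCoeffZ (toC γ) (-n - 1 - bl A γ δ)) := by
  rw [mode_single hA (le_refl 1) ε γ, ← expS_zero, expS_single, fl1_dot_zero, sub_zero, vop_one,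
    kg_bl]

theorem mode_gh (hA : IsADE A) (ε : Cocycle A 1) (ν : ι → ℂ) (n : ℤ) (δ : ι → ℤ) (f : Fock ι) :
    mode ε (Finsupp.single 0 (osc ν 0)) n (Finsupp.single δ f) =
      Finsupp.single δ (heis A 1 ν n (toC δ) f) := by
  rw [va4_mode_heis hA (le_refl 1) ε ν, fl3_heis_single]

theorem heis_zero (ν : ι → ℂ) (η : ι → ℂ) (f : Fock ι) :
    heis A 1 ν 0 η f = form A 1 ν η • f := by
  unfold heis
  rw [if_neg (lt_irrefl 0), if_pos rfl, LinearMap.smul_apply, LinearMap.id_apply]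

theorem heis_one (ν : ι → ℂ) (η : ι → ℂ) (f : Fock ι) :
    heis A 1 ν 1 η f = ∑ i, form A 1 (Pi.single i 1) ν • pderiv (R := ℂ) (i, 0) f := by
  unfold heis
  rw [if_neg (by norm_num), if_neg (by norm_num), LinearMap.sum_apply]
  refine Finset.sum_congr rfl fun i _ => ?_
  rw [LinearMap.smul_apply]
  rfl

theorem bl_add_self (hA : IsADE A) (γ δ : ι → ℤ) :
    bl A (γ + δ) (γ + δ) = bl A γ γ + 2 * bl A γ δ + bl A δ δ := by
  rw [bl_add_left, jj1_add_right hA, jj1_add_right hA, bl_symm hA δ γ]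
  ring

theorem bl_neg_right (γ δ : ι → ℤ) : bl A γ (-δ) = -bl A γ δ := by
  unfold bl
  rw [← Finset.sum_neg_distrib]
  refine Finset.sum_congr rfl fun i _ => ?_
  rw [← Finset.sum_neg_distrib]
  refine Finset.sum_congr rfl fun j _ => ?_
  rw [Pi.neg_apply]
  ring

theorem form_single (i : ι) (ν : ι → ℂ) :
    form A 1 (Pi.single i 1) ν = ∑ j, (A i j : ℂ) * ν j := by
  unfold form
  rw [Nat.cast_one, one_mul, Finset.sum_eq_single i]
  · refine Finset.sum_congr rfl fun j _ => ?_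
    rw [Pi.single_eq_same, one_mul]
  · intro b _ hb
    refine Finset.sum_eq_zero fun j _ => ?_
    rw [Pi.single_eq_of_ne hb, zero_mul, zero_mul]
  · intro h
    exact absurd (Finset.mem_univ i) h

theorem form_sum (hA : IsADE A) (ν μ : ι → ℂ) :
    ∑ i, form A 1 (Pi.single i 1) ν * μ i = form A 1 ν μ := by
  have h1 : ∑ i, form A 1 (Pi.single i 1) ν * μ i = ∑ i, ∑ j, μ i * (A i j : ℂ) * ν j := by
    refine Finset.sum_congr rfl fun i _ => ?_
    rw [form_single, Finset.sum_mul]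
    refine Finset.sum_congr rfl fun j _ => ?_
    ring
  rw [h1, form_symm A hA.symm 1 ν μ]
  unfold form
  rw [Nat.cast_one, one_mul]

end KG1

open KG1

theorem kg_K1 (hA : IsADE A) (ε : Cocycle A 1) : FactsK1 hA ε where
  gh_gh ν μ := by
    apply G1.ext
    rw [G1.val_lie, G1.val_gh, G1.val_gh, mode_gh hA, heis_zero, G1.val_zero, fl3_toC_zero]
    have h : form A 1 ν 0 = 0 := by
      unfold form
      simp
    rw [h, zero_smul, Finsupp.single_zero]
  gh_gx ν γ hγ := by
    apply G1.ext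
    rw [G1.val_lie, G1.val_gh, G1.val_gx, mode_gh hA, heis_zero, G1.val_smul, G1.val_gx,
      Finsupp.smul_single]
  gx_nonneg γ δ hγ hδ h := by
    apply G1.ext
    rw [G1.val_lie, G1.val_gx, G1.val_gx, mode_gx hA, expCoeffZ_neg _ _ (by omega), smul_zero,
      Finsupp.single_zero, G1.val_zero]
  gx_neg_one γ δ hγ hδ hs := by
    apply G1.ext
    have h := bl_add_self hA γ δ
    have h1 : (-0 - 1 - bl A γ δ : ℤ) = 0 := by omega
    rw [G1.val_lie, G1.val_gx, G1.val_gx, mode_gx hA, h1, lw2_E0, G1.val_smul, G1.val_gx,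
      Finsupp.smul_single]
  gx_neg γ hγ hγ' := by
    apply G1.ext
    have h := bl_neg_right (A := A) γ γ
    have h1 : (-0 - 1 - bl A γ (-γ) : ℤ) = 1 := by omega
    rw [G1.val_lie, G1.val_gx, G1.val_gx, mode_gx hA, h1, lw2_E1, G1.val_smul, G1.val_gh,
      Finsupp.smul_single, add_neg_cancel]
  frm_gh_gh ν μ := by
    rw [G1.frm_apply, G1.val_gh, G1.val_gh, mode_gh hA, heis_one, vp3_top0_single, if_pos rfl,
      map_sum, ← form_sum hA ν μ]
    refine Finset.sum_congr rfl fun i _ => ?_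
    rw [fw1_pderiv_osc, if_pos rfl, smul_eq_C_mul, map_mul, constantCoeff_C, constantCoeff_C]
  frm_gh_gx ν γ hγ := by
    rw [G1.frm_apply, G1.val_gh, G1.val_gx, mode_gh hA, heis_one]
    have h : ∑ i, form A 1 (Pi.single i 1) ν • pderiv (R := ℂ) (i, 0) (1 : Fock ι) = 0 := by
      refine Finset.sum_eq_zero fun i _ => ?_
      rw [Derivation.map_one_eq_zero, smul_zero]
    rw [h, Finsupp.single_zero, map_zero]
  frm_gx_gx γ δ hγ hδ := by
    rw [G1.frm_apply, G1.val_gx, G1.val_gx, mode_gx hA, vp3_top0_single]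
    by_cases h : δ = -γ
    · subst h
      have h2 := bl_neg_right (A := A) γ γ
      have h1 : (-1 - 1 - bl A γ (-γ) : ℤ) = 0 := by omega
      rw [if_pos (add_neg_cancel γ), if_pos rfl, h1, lw2_E0, smul_eq_C_mul, mul_one,
        constantCoeff_C]
    · rw [if_neg h, if_neg]
      intro h2
      exact h (eq_neg_of_add_eq_zero_right h2)

end
end WPE
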