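import Pool.Agent.WPE.KGN

/-! [WPE-KG10] The module `N_ν`, first part. -/

set_option linter.unusedSectionVars false

namespace WPE

open WPQ MvPolynomial AF

noncomputable section

variable {ι : Type} [Fintype ι] [DecidableEq ι] {A : Matrix ι ι ℤ}

namespace KG10

theorem single_supp (δ : ι → ℤ) (f : Fock ι) :
    Finsupp.single δ f ∈ Finsupp.supported (Fock ι) ℂ {δ} :=
  va4_mem_supp _ _ fun η hη => by rw [Finsupp.single_apply, if_neg (Ne.symm hη)]

/-- An operator of charge `γ`. -/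
theorem shift_comp (γ : ι → ℤ) (T : VL ι →ₗ[ℂ] VL ι)
    (hT : ∀ (δ : ι → ℤ) (f : Fock ι),
      T (Finsupp.single δ f) ∈ Finsupp.supported (Fock ι) ℂ {γ + δ})
    (v : VL ι) (μ : ι → ℤ) :
    Finsupp.single μ ((T v) μ) = T (Finsupp.single (μ - γ) (v (μ - γ))) := by
  induction v using Finsupp.induction_linear with
  | zero => simp
  | add f g hf hg =>
    rw [map_add, Finsupp.add_apply, Finsupp.single_add, hf, hg, Finsupp.add_apply,
      Finsupp.single_add, map_add]
  | single δ f =>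
    by_cases hδ : δ = μ - γ
    · subst hδ
      have h1 := hT (μ - γ) f
      rw [show γ + (μ - γ) = μ by abel] at h1
      rw [Finsupp.single_eq_same]
      exact (va4_supp_single _ _ h1).symm
    · rw [va4_supp _ _ (hT δ f) μ (fun h => hδ (by rw [h]; abel)), Finsupp.single_apply,
        if_neg hδ, Finsupp.single_zero, Finsupp.single_zero, map_zero]

theorem hT (hA : IsADE A) (ε : Cocycle A 1) (γ : ι → ℤ) (u : VL ι)
    (hu : u ∈ Finsupp.supported (Fock ι) ℂ {γ}) (s : ℤ) (δ : ι → ℤ) (f : Fock ι) :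
    mode ε u s (Finsupp.single δ f) ∈ Finsupp.supported (Fock ι) ℂ {γ + δ} :=
  mode_charge hA (le_refl 1) ε γ δ s u _ hu (single_supp δ f)

variable (hA : IsADE A) (ε : Cocycle A 1) (ν : ι → ℤ)

theorem inj : Function.Injective (nval hA ε ν) := by
  intro x y h
  exact Subtype.ext (VM.ext h)

theorem nval_lie (x : G1 hA ε) (v : NN hA ε ν) :
    nval hA ε ν ⁅x, v⁆ = mode ε x.val 0 (nval hA ε ν v) := rfl

theorem nval_mem (v : NN hA ε ν) : nval hA ε ν v ∈ Vn A 1 (wtExp A 1 ν) :=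
  VM.val_mem (v : VM hA ε (wtExp A 1 ν))

theorem shift (γ : ι → ℤ) (hγ : bl A γ γ = 2) (v : NN hA ε ν) (μ : ι → ℤ)
    (h : nval hA ε ν ⁅G1.gx hA ε γ hγ, v⁆ μ ≠ 0) : nval hA ε ν v (μ - γ) ≠ 0 := by
  intro h0
  apply h
  have h1 := shift_comp γ (mode ε (G1.gx hA ε γ hγ).val 0)
    (fun δ f => hT hA ε γ _ (single_supp γ 1) 0 δ f) (nval hA ε ν v) μ
  rw [h0, Finsupp.single_zero, map_zero] at h1
  rw [nval_lie]
  exact Finsupp.single_eq_zero.1 h1

theorem gh_ (κ : ι → ℂ) (v : NN hA ε ν) (μ : ι → ℤ) :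
    nval hA ε ν ⁅G1.gh hA ε κ, v⁆ μ = form A 1 κ (toC μ) • nval hA ε ν v μ := by
  rw [nval_lie, G1.val_gh, va4_mode_heis hA (le_refl 1), va4_heis_zero]

/-- A subspace of `g`-module is stable if it is stable under `gh`, `gx`. -/
theorem stable_of (S : Submodule ℂ (NN hA ε ν))
    (h1 : ∀ (κ : ι → ℂ), ∀ v ∈ S, ⁅G1.gh hA ε κ, v⁆ ∈ S)
    (h2 : ∀ (γ : ι → ℤ) (hγ : bl A γ γ = 2), ∀ v ∈ S, ⁅G1.gx hA ε γ hγ, v⁆ ∈ S)
    (x : G1 hA ε) (v : NN hA ε ν) (hv : v ∈ S) : ⁅x, v⁆ ∈ S := by
  have hx := (kg_K2 hA ε).span x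
  induction hx using Submodule.span_induction with
  | mem y hy =>
    rcases hy with ⟨i, rfl⟩ | ⟨γ, hγ, rfl⟩
    · exact h1 _ v hv
    · exact h2 _ _ v hv
  | zero => rw [zero_lie]; exact zero_mem _
  | add y z _ _ hy hz => rw [add_lie]; exact add_mem hy hz
  | smul c y _ hy => rw [smul_lie]; exact Submodule.smul_mem _ _ hy

/-- `N_ν` is generated by `nv`. -/
theorem gen_g (S : Submodule ℂ (NN hA ε ν)) (h0 : nv hA ε ν ∈ S)
    (h : ∀ (x : G1 hA ε), ∀ v ∈ S, ⁅x, v⁆ ∈ S) : S = ⊤ := by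
  let P : LieSubmodule ℂ (G1 hA ε) (VM hA ε (wtExp A 1 ν)) :=
    { S.map (NM hA ε ν).toSubmodule.subtype with
      lie_mem := by
        intro x m hm
        obtain ⟨v, hv, rfl⟩ := hm
        let v' : NN hA ε ν := v
        exact ⟨(⁅x, v'⁆ : NN hA ε ν), h x v' hv, rfl⟩ }
  have h1 : NM hA ε ν ≤ P := by
    refine LieSubmodule.lieSpan_le.2 ?_
    rintro _ rfl
    exact ⟨nv hA ε ν, h0, rfl⟩
  rw [eq_top_iff]
  rintro v -
  obtain ⟨w, hw, hwv⟩ := h1 v.2
  have : w = v := Subtype.ext hwv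
  rw [← this]
  exact hw

theorem bl_pos (hν : Dom A ν) (γ : ι → ℤ) (h : ∀ i, 0 ≤ γ i) : 0 ≤ bl A γ ν := by
  rw [jj1_bl_eq]
  exact Finset.sum_nonneg fun i _ => mul_nonneg (h i) (hν i)

theorem e_nv (hν : Dom A ν) (b : Rt A) : ⁅(ldG hA ε).e b, nv hA ε ν⁆ = 0 := by
  apply inj hA ε ν
  rw [map_zero]
  refine Finsupp.ext fun μ => ?_
  rw [Finsupp.zero_apply]
  by_contra h
  have hb := rt_pos hA b
  have h1 := shift hA ε ν b.1 hb.2 (nv hA ε ν) μ h
  have h2 : μ - b.1 = ν := by
    by_contra h3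
    apply h1
    show (Finsupp.single ν (1 : Fock ι)) (μ - b.1) = 0
    rw [Finsupp.single_apply, if_neg (Ne.symm h3)]
  have h3 : μ = ν + b.1 := by
    rw [← h2]
    abel
  rcases Vn_comp _ _ (nval_mem hA ε ν ⁅(ldG hA ε).e b, nv hA ε ν⁆) μ with h4 | ⟨d, _, h4⟩
  · exact h h4
  · have h5 := kg_wt hA μ
    have h6 := kg_wt hA ν
    have h7 := bl_pos ν hν b.1 hb.1
    have h8 : bl A μ μ = bl A ν ν + 2 * bl A b.1 ν + bl A b.1 b.1 := by
      rw [h3, bl_add_left, bl_symm hA ν, bl_symm hA b.1 (ν + b.1), bl_add_left, bl_add_left,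
        bl_symm hA ν b.1]
      ring
    have h9 := hb.2
    omega

end KG10

/-- [KG10] -/
theorem kg_N1 (hA : IsADE A) (ε : Cocycle A 1) (ν : ι → ℤ) (hν : Dom A ν) : FactsN1 hA ε ν where
  fin := by
    have : FiniteDimensional ℂ (Vn A 1 (wtExp A 1 ν)) := Vn_finite hA (le_refl 1) _
    have h1 : Module.Finite ℂ (VM hA ε (wtExp A 1 ν)) := this
    exact Module.Finite.of_injective (NM hA ε ν).toSubmodule.subtype
      (NM hA ε ν).toSubmodule.injective_subtype
  inj := KG10.inj hA ε ν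
  nval_nv := rfl
  nval_lie := KG10.nval_lie hA ε ν
  nval_mem := KG10.nval_mem hA ε ν
  nv_ne := by
    intro h
    have h1 : nval hA ε ν (nv hA ε ν) = Finsupp.single ν 1 := rfl
    rw [h, map_zero] at h1
    exact one_ne_zero (Finsupp.single_eq_zero.1 h1.symm)
  hw := by
    refine ⟨KG10.e_nv hA ε ν hν, fun i => ?_, fun S h0 hf => ?_⟩
    · apply KG10.inj hA ε ν
      refine Finsupp.ext fun μ => ?_
      rw [map_smul, Finsupp.smul_apply]
      have h1 := KG10.gh_ hA ε ν (bb i) (nv hA ε ν) μ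
      rw [show (ldG hA ε).h i = G1.gh hA ε (bb i) from rfl, h1, (kg_K4 hA).form_bb_toC]
      have h2 : nval hA ε ν (nv hA ε ν) = Finsupp.single ν 1 := rfl
      rw [h2, Finsupp.single_apply]
      by_cases h : ν = μ
      · rw [h]
      · rw [if_neg h, smul_zero, smul_zero]
    · -- the smallest subspace stable under the `f_b`
      let S0 : Submodule ℂ (NN hA ε ν) := sInf {P | nv hA ε ν ∈ P ∧
        ∀ b, ∀ x ∈ P, ⁅(ldG hA ε).f b, x⁆ ∈ P}
      have hS0 : nv hA ε ν ∈ S0 := by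
        rw [Submodule.mem_sInf]
        exact fun P hP => hP.1
      have hf0 : ∀ b, ∀ x ∈ S0, ⁅(ldG hA ε).f b, x⁆ ∈ S0 := by
        intro b x hx
        rw [Submodule.mem_sInf] at hx ⊢
        exact fun P hP => hP.2 b x (hx P hP)
      let T : Submodule ℂ (NN hA ε ν) :=
        { carrier := {v | v ∈ S0 ∧ ∀ x : G1 hA ε, ⁅x, v⁆ ∈ S0}
          add_mem' := by
            rintro v w ⟨hv, hv'⟩ ⟨hw, hw'⟩
            refine ⟨add_mem hv hw, fun x => ?_⟩
            rw [lie_add]
            exact add_mem (hv' x) (hw' x)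
          zero_mem' := ⟨zero_mem _, fun x => by rw [lie_zero]; exact zero_mem _⟩
          smul_mem' := by
            rintro c v ⟨hv, hv'⟩
            refine ⟨Submodule.smul_mem _ c hv, fun x => ?_⟩
            rw [lie_smul]
            exact Submodule.smul_mem _ c (hv' x) }
      have hT : S0 ≤ T := by
        refine sInf_le ⟨⟨hS0, fun x => ?_⟩, ?_⟩
        · rw [(kg_K5 hA ε).decomp x, add_lie, add_lie, sum_lie, sum_lie, sum_lie]
          refine add_mem (add_mem ?_ ?_) ?_
          · refine Submodule.sum_mem _ fun b _ => ?_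
            rw [smul_lie, show ⁅G1.ge hA ε b, nv hA ε ν⁆ = 0 from KG10.e_nv hA ε ν hν b,
              smul_zero]
            exact zero_mem _
          · refine Submodule.sum_mem _ fun i _ => ?_
            rw [smul_lie]
            refine Submodule.smul_mem _ _ ?_
            have h3 : ⁅G1.ghi hA ε i, nv hA ε ν⁆ = form A 1 (bb i) (toC ν) • nv hA ε ν := by
              apply KG10.inj hA ε ν
              refine Finsupp.ext fun μ => ?_
              rw [map_smul, Finsupp.smul_apply]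
              have h1 := KG10.gh_ hA ε ν (bb i) (nv hA ε ν) μ
              rw [show G1.ghi hA ε i = G1.gh hA ε (bb i) from rfl, h1]
              have h2 : nval hA ε ν (nv hA ε ν) = Finsupp.single ν 1 := rfl
              rw [h2, Finsupp.single_apply]
              by_cases h : ν = μ
              · rw [h]
              · rw [if_neg h, smul_zero, smul_zero]
            rw [h3]
            exact Submodule.smul_mem _ _ hS0
          · refine Submodule.sum_mem _ fun b _ => ?_
            rw [smul_lie]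
            exact Submodule.smul_mem _ _ (hf0 b _ hS0)
        · rintro b v ⟨hv, hv'⟩
          refine ⟨hf0 b v hv, fun x => ?_⟩
          rw [leibniz_lie]
          exact add_mem (hv' _) (hf0 b _ (hv' x))
      have hg : ∀ (x : G1 hA ε), ∀ v ∈ S0, ⁅x, v⁆ ∈ S0 := fun x v hv => (hT hv).2 x
      have htop := KG10.gen_g hA ε ν S0 hS0 hg
      rw [eq_top_iff, ← htop]
      exact sInf_le ⟨h0, hf⟩
  comp := by
    let S : Submodule ℂ (NN hA ε ν) :=
      { carrier := {v | ∀ μ : ι → ℤ, ∃ w : NN hA ε ν,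
          nval hA ε ν w = Finsupp.single μ (nval hA ε ν v μ)}
        add_mem' := by
          intro v w hv hw μ
          obtain ⟨v', hv'⟩ := hv μ
          obtain ⟨w', hw'⟩ := hw μ
          exact ⟨v' + w', by rw [map_add, map_add, hv', hw', Finsupp.add_apply,
            Finsupp.single_add]⟩
        zero_mem' := fun μ => ⟨0, by rw [map_zero, Finsupp.zero_apply, Finsupp.single_zero]⟩
        smul_mem' := by
          intro c v hv μ
          obtain ⟨v', hv'⟩ := hv μ
          exact ⟨c • v', by rw [map_smul, map_smul, hv', Finsupp.smul_apply,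
            Finsupp.smul_single]⟩ }
    have h1 : S = ⊤ := by
      refine KG10.gen_g hA ε ν S ?_ (KG10.stable_of hA ε ν S ?_ ?_)
      · intro μ
        have h2 : nval hA ε ν (nv hA ε ν) = Finsupp.single ν 1 := rfl
        by_cases h : ν = μ
        · exact ⟨nv hA ε ν, by rw [h2, ← h, Finsupp.single_eq_same]⟩
        · exact ⟨0, by rw [h2, Finsupp.single_apply, if_neg h, map_zero, Finsupp.single_zero]⟩
      · intro κ v hv μ
        obtain ⟨w, hw⟩ := hv μ
        refine ⟨form A 1 κ (toC μ) • w, ?_⟩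
        rw [map_smul, hw, Finsupp.smul_single, KG10.gh_]
      · intro γ hγ v hv μ
        obtain ⟨w, hw⟩ := hv (μ - γ)
        refine ⟨⁅G1.gx hA ε γ hγ, w⁆, ?_⟩
        rw [KG10.nval_lie, hw, KG10.nval_lie]
        exact (KG10.shift_comp γ (mode ε (G1.gx hA ε γ hγ).val 0)
          (fun δ f => KG10.hT hA ε γ _ (KG10.single_supp γ 1) 0 δ f) (nval hA ε ν v) μ).symm
    intro v μ
    have h2 : v ∈ S := by rw [h1]; exact Submodule.mem_top
    exact h2 μ
  shift := KG10.shift hA ε ν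
  gh_ := KG10.gh_ hA ε ν

end

end WPE
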