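import Pool.Agent.WPE.KG10

/-! [WPE-KG11] The module `N_ν`, second part. -/

set_option linter.unusedSectionVars false

namespace WPE

open WPQ MvPolynomial AF

noncomputable section

variable {ι : Type} [Fintype ι] [DecidableEq ι] {A : Matrix ι ι ℤ}

namespace KG11

variable (hA : IsADE A) (ε : Cocycle A 1) (ν : ι → ℤ) (hν : Dom A ν)

include hν

theorem charge (v : NN hA ε ν) (μ : ι → ℤ) (h : nval hA ε ν v μ ≠ 0) (i : ι) : μ i ≤ ν i := by
  have h1 := kg_N1 hA ε ν hν
  let S : Submodule ℂ (NN hA ε ν) :=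
    { carrier := {v | ∀ μ : ι → ℤ, nval hA ε ν v μ ≠ 0 → ∀ i, μ i ≤ ν i}
      add_mem' := by
        intro v w hv hw μ hμ
        rw [map_add, Finsupp.add_apply] at hμ
        by_cases h0 : nval hA ε ν v μ = 0
        · rw [h0, zero_add] at hμ
          exact hw μ hμ
        · exact hv μ h0
      zero_mem' := by
        intro μ hμ
        rw [map_zero, Finsupp.zero_apply] at hμ
        exact absurd rfl hμ
      smul_mem' := by
        intro c v hv μ hμ
        rw [map_smul, Finsupp.smul_apply] at hμ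
        exact hv μ fun h0 => hμ (by rw [h0, smul_zero]) }
  have h2 : S = ⊤ := by
    refine h1.hw.gen S ?_ ?_
    · intro μ hμ i
      rw [h1.nval_nv, Finsupp.single_apply] at hμ
      have h3 : ν = μ := by
        by_contra hne
        rw [if_neg hne] at hμ
        exact hμ rfl
      rw [h3]
    · intro b v hv μ hμ i
      have hb := rt_pos hA b
      have h4 : nval hA ε ν ⁅G1.gx hA ε (-b.1) (G1.kg_neg2 b.1 hb.2), v⁆ μ ≠ 0 := by
        intro h0
        apply hμ
        show nval hA ε ν ⁅G1.gf hA ε b, v⁆ μ = 0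
        unfold G1.gf
        rw [smul_lie, map_smul, Finsupp.smul_apply, h0, smul_zero]
      have h5 := hv _ (h1.shift _ _ v μ h4) i
      rw [Pi.sub_apply, Pi.neg_apply] at h5
      have := hb.1 i
      omega
  have h3 : v ∈ S := by rw [h2]; exact Submodule.mem_top
  exact h3 μ h i

theorem wsp_iff (c : ℤ) (v : NN hA ε ν) : v ∈ (ldG hA ε).wsp (NN hA ε ν) c ↔
    ∀ μ : ι → ℤ, nval hA ε ν v μ ≠ 0 → ht μ = c := by
  have h1 := kg_N1 hA ε ν hν
  have h2 : v ∈ (ldG hA ε).wsp (NN hA ε ν) c ↔ ⁅G1.gh hA ε (rho A), v⁆ = (c : ℂ) • v := Iff.rfl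
  rw [h2]
  constructor
  · intro h μ hμ
    have h3 := h1.gh_ (rho A) v μ
    rw [h, map_smul, Finsupp.smul_apply, (kg_K4 hA).form_rho] at h3
    have h4 : ((c : ℂ) - (ht μ : ℂ)) • nval hA ε ν v μ = 0 := by
      rw [sub_smul, h3, sub_self]
    have h5 := (smul_eq_zero.1 h4).resolve_right hμ
    rw [sub_eq_zero, Int.cast_inj] at h5
    exact h5.symm
  · intro h
    apply h1.inj
    refine Finsupp.ext fun μ => ?_
    rw [h1.gh_, map_smul, Finsupp.smul_apply, (kg_K4 hA).form_rho]
    by_cases hμ : nval hA ε ν v μ = 0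
    · rw [hμ, smul_zero, smul_zero]
    · rw [h μ hμ]

theorem fin_charges : {μ : ι → ℤ | ∃ v : NN hA ε ν, nval hA ε ν v μ ≠ 0}.Finite := by
  have h1 := kg_N1 hA ε ν hν
  refine (bl_finite hA (2 * wtExp A 1 ν)).subset ?_
  rintro μ ⟨v, hv⟩
  rcases Vn_comp _ _ (h1.nval_mem v) μ with h | ⟨d, _, h⟩
  · exact absurd h hv
  · have := kg_wt hA μ
    show bl A μ μ ≤ 2 * wtExp A 1 ν
    omega

end KG11

/-- [KG11] -/
theorem kg_N2 (hA : IsADE A) (ε : Cocycle A 1) (ν : ι → ℤ) (hν : Dom A ν) :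
    FactsN2 hA ε ν where
  charge := KG11.charge hA ε ν hν
  wsp_iff := KG11.wsp_iff hA ε ν hν
  nv_mem := by
    have h1 := kg_N1 hA ε ν hν
    rw [KG11.wsp_iff hA ε ν hν]
    intro μ hμ
    rw [h1.nval_nv, Finsupp.single_apply] at hμ
    have h3 : ν = μ := by
      by_contra hne
      rw [if_neg hne] at hμ
      exact hμ rfl
    rw [h3]
  gr := by
    have h1 := kg_N1 hA ε ν hν
    intro v
    choose w hw using h1.comp v
    have hv : v = ∑ μ ∈ (nval hA ε ν v).support, w μ := by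
      apply h1.inj
      rw [map_sum, Finset.sum_congr rfl fun μ _ => hw μ]
      conv_lhs => rw [← Finsupp.sum_single (nval hA ε ν v)]
      rfl
    rw [hv]
    refine Submodule.sum_mem _ fun μ hμ => ?_
    rw [Finsupp.mem_support_iff] at hμ
    refine Submodule.subset_span ⟨ht μ, ?_, ?_⟩
    · exact Finset.sum_le_sum fun i _ => KG11.charge hA ε ν hν v μ hμ i
    · rw [KG11.wsp_iff hA ε ν hν]
      intro μ' hμ'
      rw [hw, Finsupp.single_apply] at hμ'
      have h3 : μ = μ' := by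
        by_contra hne
        rw [if_neg hne] at hμ'
        exact hμ' rfl
      rw [h3]
  top := by
    intro x hx
    have h1 := kg_N1 hA ε ν hν
    have h2 : nval hA ε ν x = Finsupp.single ν (nval hA ε ν x ν) := by
      refine Finsupp.ext fun μ => ?_
      by_cases h : μ = ν
      · rw [h, Finsupp.single_eq_same]
      · rw [Finsupp.single_apply, if_neg (Ne.symm h), hx μ h]
    refine ⟨coeff 0 (nval hA ε ν x ν), ?_⟩
    apply h1.inj
    rw [map_smul, h1.nval_nv, h2, Finsupp.smul_single, smul_eq_C_mul, mul_one,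
      Finsupp.single_eq_same]
    congr 1
    rcases Vn_comp _ _ (h1.nval_mem x) ν with h | ⟨d, hd, h⟩
    · rw [h]
      simp
    · have hd0 : d = 0 := by omega
      subst hd0
      ext m
      rw [coeff_C]
      split_ifs with h6
      · rw [h6]
      · by_contra h7
        have h8 := hd h7
        have h9 : m = 0 := by
          rw [Finsupp.weight_apply, Finsupp.sum, Finset.sum_eq_zero_iff] at h8
          refine Finsupp.ext fun x => ?_
          by_contra h10
          have h11 := h8 x (Finsupp.mem_support_iff.2 h10)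
          rw [smul_eq_mul, mul_eq_zero] at h11
          rcases h11 with h11 | h11
          · exact h10 h11
          · unfold wF at h11
            omega
        exact h6 h9.symm
  bdd := by
    have h1 := kg_N1 hA ε ν hν
    obtain ⟨B, hB⟩ := ((KG11.fin_charges hA ε ν hν).image ht).bddBelow
    refine ⟨B, fun c hc => ?_⟩
    rw [eq_bot_iff]
    intro v hv
    rw [Submodule.mem_bot]
    apply h1.inj
    rw [map_zero]
    refine Finsupp.ext fun μ => ?_
    rw [Finsupp.zero_apply]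
    by_contra h
    have h2 := (KG11.wsp_iff hA ε ν hν c v).1 hv μ h
    have h3 := hB (Set.mem_image_of_mem ht ⟨v, h⟩)
    omega
  Fsurj := by
    have h1 := kg_N1 hA ε ν hν
    obtain ⟨hEF, hrE⟩ := kg_EF hA ε
    have hrF := (kg_K5 hA ε).rho_F
    obtain ⟨B, hB⟩ : ∃ B : ℤ, ∀ c < B, (ldG hA ε).wsp (NN hA ε ν) c = ⊥ := by
      obtain ⟨B, hB⟩ := ((KG11.fin_charges hA ε ν hν).image ht).bddBelow
      refine ⟨B, fun c hc => ?_⟩
      rw [eq_bot_iff]
      intro v hv
      rw [Submodule.mem_bot]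
      apply h1.inj
      rw [map_zero]
      refine Finsupp.ext fun μ => ?_
      rw [Finsupp.zero_apply]
      by_contra h
      have h2 := (KG11.wsp_iff hA ε ν hν c v).1 hv μ h
      have h3 := hB (Set.mem_image_of_mem ht ⟨v, h⟩)
      omega
    intro c hc x hx
    refine kg_sl2 (LieModule.toEnd ℂ (G1 hA ε) (NN hA ε ν) (G1.gE hA ε))
      (LieModule.toEnd ℂ (G1 hA ε) (NN hA ε ν) (G1.gF hA ε))
      ((ldG hA ε).wsp (NN hA ε ν)) ?_ ?_ ?_ B hB c hc x hx
    · intro c x hx
      have hx' : ⁅G1.grho hA ε, x⁆ = (c : ℂ) • x := hx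
      show ⁅G1.grho hA ε, ⁅G1.gE hA ε, x⁆⁆ = ((c + 1 : ℤ) : ℂ) • ⁅G1.gE hA ε, x⁆
      rw [leibniz_lie, hrE, hx', lie_smul]
      push_cast
      rw [add_smul, one_smul, add_comm]
    · intro c x hx
      have hx' : ⁅G1.grho hA ε, x⁆ = (c : ℂ) • x := hx
      show ⁅G1.grho hA ε, ⁅G1.gF hA ε, x⁆⁆ = ((c - 1 : ℤ) : ℂ) • ⁅G1.gF hA ε, x⁆
      rw [leibniz_lie, hrF, hx', lie_smul, smul_lie]
      push_cast
      rw [sub_smul, one_smul, neg_smul, one_smul]
      abel
    · intro c x hx
      have hx' : ⁅G1.grho hA ε, x⁆ = (c : ℂ) • x := hx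
      show ⁅G1.gE hA ε, ⁅G1.gF hA ε, x⁆⁆ - ⁅G1.gF hA ε, ⁅G1.gE hA ε, x⁆⁆ = _
      rw [leibniz_lie, hEF, smul_lie, hx', smul_smul]
      abel

end

end WPE
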