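import Pool.Agent.WPE.KG11

/-! [WPE-KG12] The functional on `N_ν`. -/

set_option linter.unusedSectionVars false

namespace WPE

open WPQ MvPolynomial AF

noncomputable section

variable {ι : Type} [Fintype ι] [DecidableEq ι] {A : Matrix ι ι ℤ}

namespace KG12

/-- The functional: the constant coefficient of the component of charge `ν`. -/
def lf (hA : IsADE A) (ε : Cocycle A 1) (ν : ι → ℤ) : NN hA ε ν →ₗ[ℂ] ℂ where
  toFun v := coeff 0 (nval hA ε ν v ν)
  map_add' v w := by rw [map_add, Finsupp.add_apply, coeff_add]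
  map_smul' c v := by rw [map_smul, Finsupp.smul_apply, coeff_smul, RingHom.id_apply]

theorem lf_apply (hA : IsADE A) (ε : Cocycle A 1) (ν : ι → ℤ) (v : NN hA ε ν) :
    lf hA ε ν v = coeff 0 (nval hA ε ν v ν) := rfl

variable (hA : IsADE A) (ε : Cocycle A 1) (ν : ι → ℤ) (hν : Dom A ν)

include hν

theorem f_ (b : Rt A) (v : NN hA ε ν) : lf hA ε ν ⁅(ldG hA ε).f b, v⁆ = 0 := by
  have h1 := kg_N1 hA ε ν hν
  have h2 := kg_N2 hA ε ν hν
  have hb := rt_pos hA b
  have h3 : nval hA ε ν ⁅G1.gx hA ε (-b.1) (G1.kg_neg2 b.1 hb.2), v⁆ ν = 0 := by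
    by_contra h
    have h4 := h2.charge v _ (h1.shift _ _ v ν h)
    have hne : b.1 ≠ 0 := by
      intro h0
      have h5 := hb.2
      rw [h0] at h5
      unfold bl at h5
      simp at h5
    obtain ⟨i, hi⟩ := Function.ne_iff.1 hne
    have h5 := h4 i
    rw [Pi.sub_apply, Pi.neg_apply] at h5
    have h6 := hb.1 i
    rw [Pi.zero_apply] at hi
    omega
  have h4 : nval hA ε ν ⁅G1.gf hA ε b, v⁆ ν = 0 := by
    unfold G1.gf
    rw [smul_lie, map_smul, Finsupp.smul_apply, h3, smul_zero]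
  rw [lf_apply]
  show coeff 0 (nval hA ε ν ⁅G1.gf hA ε b, v⁆ ν) = 0
  rw [h4, coeff_zero]

end KG12

/-- [KG12] -/
theorem kg_l (hA : IsADE A) (ε : Cocycle A 1) (ν : ι → ℤ) (hν : Dom A ν) :
    ∃ l : NN hA ε ν →ₗ[ℂ] ℂ, FactsNl hA ε ν l := by
  have h1 := kg_N1 hA ε ν hν
  have h2 := kg_N2 hA ε ν hν
  have hnv : KG12.lf hA ε ν (nv hA ε ν) = 1 := by
    rw [KG12.lf_apply, h1.nval_nv, Finsupp.single_eq_same]
    simp
  refine ⟨KG12.lf hA ε ν, hnv, KG12.f_ hA ε ν hν, ?_, ?_, ?_⟩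
  · intro i v
    rw [KG12.lf_apply, KG12.lf_apply]
    show coeff 0 (nval hA ε ν ⁅G1.gh hA ε (bb i), v⁆ ν) = _
    rw [h1.gh_, (kg_K4 hA).form_bb_toC, coeff_smul, smul_eq_mul]
  · intro c hc v hv
    rw [KG12.lf_apply]
    have h3 : nval hA ε ν v ν = 0 := by
      by_contra h
      exact hc ((h2.wsp_iff c v).1 hv ν h).symm
    rw [h3, coeff_zero]
  · intro v hv
    let P : Submodule ℂ (NN hA ε ν) :=
      Submodule.span ℂ {w | ∃ b u, w = ⁅(ldG hA ε).f b, u⁆}
    have h3 : Submodule.span ℂ {nv hA ε ν} ⊔ P = ⊤ := by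
      refine h1.hw.gen _ ?_ ?_
      · exact Submodule.mem_sup_left (Submodule.mem_span_singleton_self _)
      · intro b x _
        exact Submodule.mem_sup_right (Submodule.subset_span ⟨b, x, rfl⟩)
    have h4 : v ∈ Submodule.span ℂ {nv hA ε ν} ⊔ P := by rw [h3]; exact Submodule.mem_top
    obtain ⟨x, hx, w, hw, rfl⟩ := Submodule.mem_sup.1 h4
    obtain ⟨c, rfl⟩ := Submodule.mem_span_singleton.1 hx
    have h5 : P ≤ LinearMap.ker (KG12.lf hA ε ν) := by
      rw [Submodule.span_le]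
      rintro _ ⟨b, u, rfl⟩
      exact KG12.f_ hA ε ν hν b u
    have h6 : KG12.lf hA ε ν w = 0 := h5 hw
    rw [map_add, map_smul, hnv, h6, add_zero, smul_eq_mul, mul_one] at hv
    rw [hv, zero_smul, zero_add]
    exact hw

end

end WPE
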