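import Pool.Agent.WPE.KGF

/-! [WPE-KG2] The form is symmetric and invariant; spanning set. -/

set_option linter.unusedSectionVars false

namespace WPE

open WPQ MvPolynomial AF

noncomputable section

variable {ι : Type} [Fintype ι] [DecidableEq ι] {A : Matrix ι ι ℤ}

namespace KG2

theorem top0_transl (A : Matrix ι ι ℤ) (x : VL ι) : top0 (transl x) = 0 := by
  have h := top0_LS_neg (A := A) (p := 1) (-1) (by norm_num) x
  rw [LS_zero_neg_one] at h
  exact h

theorem symm (hA : IsADE A) (ε : Cocycle A 1) (x y : G1 hA ε) :
    G1.frm hA ε x y = G1.frm hA ε y x := by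
  have h := mode_skew hA (le_refl 1) ε x.val y.val top0 (top0_transl A) 1
  rw [Nat.cast_one, pow_one, neg_neg, one_mul] at h
  exact h

/-- `([x, y], z) = - (y, [x, z])` -/
theorem inv' (hA : IsADE A) (ε : Cocycle A 1) (x y z : G1 hA ε) :
    G1.frm hA ε ⁅x, y⁆ z = -G1.frm hA ε y ⁅x, z⁆ := by
  rw [G1.frm_apply, G1.frm_apply, G1.val_lie, G1.val_lie, kg_comm0 hA ε, map_sub]
  have h1 : mode ε y.val 1 z.val ∈ Vn A 1 0 := by
    have h := mode_Vn hA (le_refl 1) ε 1 1 1 y.val z.val y.val_mem z.val_mem
    rw [show (1 + 1 - 1 - 1 : ℤ) = 0 by norm_num] at h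
    exact h
  rw [kg_Vn_zero hA _ h1, map_smul, kg_vac_mode hA ε x.val 0 (le_refl 0), smul_zero, map_zero,
    zero_sub]

theorem comp (v : VL ι) : v = ∑ γ ∈ v.support, Finsupp.single γ (v γ) := by
  conv_lhs => rw [← Finsupp.sum_single v]
  rfl

theorem const (f : Fock ι) (hf : FH f 0) : f = C (coeff 0 f) := by
  ext m
  rw [coeff_C]
  split_ifs with h6
  · rw [h6]
  · by_contra h7
    have h8 := hf h7
    have h9 : m = 0 := by
      rw [Finsupp.weight_apply, Finsupp.sum, Finset.sum_eq_zero_iff] at h8
      refine Finsupp.ext fun x => ?_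
      by_contra h10
      have h11 := h8 x (Finsupp.mem_support_iff.2 h10)
      rw [smul_eq_mul, mul_eq_zero] at h11
      rcases h11 with h11 | h11
      · exact h10 h11
      · unfold wF at h11
        omega
    exact h6 h9.symm

/-- Elements of degree one. -/
theorem lin (f : Fock ι) (hf : FH f 1) : f = osc (fun i => coeff (Finsupp.single (i, 0) 1) f) 0 := by
  have key : ∀ m : (ι × ℕ) →₀ ℕ, Finsupp.weight (wF (ι := ι)) m = 1 →
      ∃ i, m = Finsupp.single (i, 0) 1 := by
    intro m hm
    have hne : m ≠ 0 := by
      rintro rfl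
      rw [map_zero] at hm
      exact zero_ne_one hm
    obtain ⟨x, hx⟩ := Finsupp.support_nonempty_iff.2 hne
    rw [Finsupp.mem_support_iff] at hx
    have h1 : m x * wF x ≤ 1 := by
      rw [← hm, Finsupp.weight_apply, Finsupp.sum]
      exact Finset.single_le_sum (f := fun y => m y • wF (ι := ι) y) (fun _ _ => Nat.zero_le _)
        (Finsupp.mem_support_iff.2 hx)
    have h2 : 1 ≤ m x := Nat.one_le_iff_ne_zero.2 hx
    have h3 : 1 ≤ wF x := by unfold wF; omega
    have h4 : m x = 1 := by nlinarith
    have h5 : wF x = 1 := by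
      rw [h4, one_mul] at h1
      omega
    refine ⟨x.1, ?_⟩
    have h6 : x = (x.1, 0) := by
      refine Prod.ext rfl ?_
      unfold wF at h5
      show x.2 = 0
      omega
    refine Finsupp.ext fun y => ?_
    rw [← h6]
    by_cases hy : x = y
    · rw [← hy, Finsupp.single_eq_same, h4]
    · rw [Finsupp.single_apply, if_neg hy]
      by_contra hmy
      have h7 : m x * wF x + m y * wF y ≤ 1 := by
        rw [← hm, Finsupp.weight_apply, Finsupp.sum]
        have h8 : ({x, y} : Finset (ι × ℕ)) ⊆ m.support := by
          intro z hz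
          rw [Finset.mem_insert, Finset.mem_singleton] at hz
          rcases hz with rfl | rfl
          · exact Finsupp.mem_support_iff.2 hx
          · exact Finsupp.mem_support_iff.2 hmy
        have h9 := Finset.sum_le_sum_of_subset (f := fun y => m y • wF (ι := ι) y) h8
        rw [Finset.sum_pair hy] at h9
        exact h9
      rw [h4, h5] at h7
      have h10 : 1 ≤ m y := Nat.one_le_iff_ne_zero.2 hmy
      have h11 : 1 ≤ wF y := by unfold wF; omega
      nlinarith
  ext m
  unfold osc
  rw [coeff_sum]
  simp only [coeff_C_mul, coeff_X]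
  by_cases hm : ∃ i, m = Finsupp.single (i, 0) 1
  · obtain ⟨i, rfl⟩ := hm
    rw [Finset.sum_eq_single i]
    · rw [if_pos rfl, mul_one]
    · intro k _ hk
      rw [if_neg, mul_zero]
      intro h
      have h1 := DFunLike.congr_fun h (k, 0)
      rw [Finsupp.single_eq_same, Finsupp.single_apply, if_neg] at h1
      · exact one_ne_zero h1
      · intro h2
        exact hk (Prod.mk.inj h2).1.symm
    · intro h
      exact absurd (Finset.mem_univ i) h
  · rw [Finset.sum_eq_zero]
    · by_contra h1
      exact hm (key m (hf h1))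
    · intro i _
      rw [if_neg, mul_zero]
      intro h
      exact hm ⟨i, h.symm⟩

end KG2

/-- [KG2] -/
theorem kg_K2 (hA : IsADE A) (ε : Cocycle A 1) : FactsK2 hA ε where
  symm := KG2.symm hA ε
  inv x y z := by
    rw [← lie_skew, map_neg, LinearMap.neg_apply, KG2.inv', neg_neg]
  span x := by
    let W : Submodule ℂ (VL ι) := (Submodule.span ℂ (Set.range (G1.ghi hA ε) ∪
      {y | ∃ (γ : ι → ℤ) (hγ : bl A γ γ = 2), y = G1.gx hA ε γ hγ})).map (G1.valL hA ε)
    have hW : x.val ∈ W := by
      rw [KG2.comp x.val]
      refine Submodule.sum_mem _ fun γ hγ => ?_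
      rcases Vn_comp 1 x.val x.val_mem γ with h | ⟨d, hd, h⟩
      · rw [h, Finsupp.single_zero]
        exact zero_mem _
      · have hw := kg_wt hA γ
        by_cases h0 : γ = 0
        · subst h0
          have hd1 : d = 1 := by
            rw [kg_wt_zero] at h
            omega
          subst hd1
          refine ⟨G1.gh hA ε (fun i => coeff (Finsupp.single (i, 0) 1) (x.val 0)), ?_, ?_⟩
          · have h2 : G1.gh hA ε (fun i => coeff (Finsupp.single (i, 0) 1) (x.val 0)) =
                ∑ i, coeff (Finsupp.single (i, 0) 1) (x.val 0) • G1.ghi hA ε i := by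
              unfold G1.ghi
              rw [← Finset.sum_congr rfl fun i _ => map_smul (G1.gh hA ε) _ (bb i), ← map_sum]
              congr 1
              funext k
              rw [Finset.sum_apply, Finset.sum_eq_single k]
              · simp [bb]
              · intro i _ hi
                simp [bb, Pi.single_eq_of_ne (Ne.symm hi)]
              · intro hk
                exact absurd (Finset.mem_univ k) hk
            rw [SetLike.mem_coe, h2]
            exact Submodule.sum_mem _ fun i _ => Submodule.smul_mem _ _
              (Submodule.subset_span (Or.inl ⟨i, rfl⟩))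
          · show (G1.gh hA ε _).val = _
            rw [G1.val_gh, ← KG2.lin _ hd]
        · have h1 := kg_wt_pos hA γ h0
          have hd0 : d = 0 := by omega
          subst hd0
          have hb : bl A γ γ = 2 := by omega
          refine ⟨coeff 0 (x.val γ) • G1.gx hA ε γ hb, ?_, ?_⟩
          · exact Submodule.smul_mem _ _ (Submodule.subset_span (Or.inr ⟨γ, hb, rfl⟩))
          · rw [map_smul]
            show coeff 0 (x.val γ) • (G1.gx hA ε γ hb).val = _
            rw [G1.val_gx, Finsupp.smul_single, smul_eq_C_mul, mul_one]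
            nth_rewrite 2 [KG2.const (x.val γ) hd]
            rfl
    obtain ⟨y, hy, hyx⟩ := hW
    have h2 : y = x := G1.ext hyx
    rw [← h2]
    exact hy

end

end WPE
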