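import Pool.Agent.WPE.KGF

/-! [WPE-KG3] Roots. -/

set_option linter.unusedSectionVars false

namespace WPE

open WPQ MvPolynomial AF

noncomputable section

variable {ι : Type} [Fintype ι] [DecidableEq ι] {A : Matrix ι ι ℤ}

namespace KG3

theorem mem (hA : IsADE A) (γ : ι → ℤ) : γ ∈ posRoots A ↔ IsPosRoot A γ :=
  (R_HA8 ι).mem A hA γ

theorem bl_neg (γ δ : ι → ℤ) : bl A (-γ) δ = -bl A γ δ := by
  unfold bl
  rw [← Finset.sum_neg_distrib]
  refine Finset.sum_congr rfl fun i _ => ?_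
  rw [← Finset.sum_neg_distrib]
  refine Finset.sum_congr rfl fun j _ => ?_
  rw [Pi.neg_apply]
  ring

theorem bl_sub (γ γ' δ : ι → ℤ) : bl A (γ - γ') δ = bl A γ δ - bl A γ' δ := by
  rw [sub_eq_add_neg, bl_add_left, bl_neg, sub_eq_add_neg]

theorem bl_add_self (hA : IsADE A) (γ δ : ι → ℤ) :
    bl A (γ + δ) (γ + δ) = bl A γ γ + 2 * bl A γ δ + bl A δ δ := by
  rw [bl_add_left, bl_symm hA γ (γ + δ), bl_symm hA δ (γ + δ), bl_add_left, bl_add_left,
    bl_symm hA δ γ]
  ring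

theorem bl_sub_self (hA : IsADE A) (γ δ : ι → ℤ) :
    bl A (γ - δ) (γ - δ) = bl A γ γ - 2 * bl A γ δ + bl A δ δ := by
  rw [bl_sub, bl_symm hA γ (γ - δ), bl_symm hA δ (γ - δ), bl_sub, bl_sub, bl_symm hA δ γ]
  ring

theorem ne_zero (γ : ι → ℤ) (h : bl A γ γ = 2) : γ ≠ 0 := by
  rintro rfl
  unfold bl at h
  simp at h

theorem sign (hA : IsADE A) (γ : ι → ℤ) (h : bl A γ γ = 2) :
    γ ∈ posRoots A ∨ -γ ∈ posRoots A := by
  rcases sign_coh hA γ h with h1 | h1
  · exact Or.inl ((mem hA γ).2 ⟨h1, h⟩)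
  · refine Or.inr ((mem hA _).2 ⟨fun i => ?_, ?_⟩)
    · rw [Pi.neg_apply]
      have := h1 i
      omega
    · rw [bl_neg, bl_symm hA, bl_neg, neg_neg]
      exact h

theorem bl_zero (hA : IsADE A) (γ : ι → ℤ) (hγ : γ ∈ posRoots A) (j : ι) (hj : γ ≠ rt j) :
    -1 ≤ bl A γ (rt j) ∧ bl A γ (rt j) ≤ 1 := by
  have hp := (mem hA γ).1 hγ
  have h2 := jj1_rt_rt hA j
  constructor
  · have h3 : γ + rt j ≠ 0 := by
      intro h
      have h4 := congrFun h j
      rw [Pi.add_apply, Pi.zero_apply, rt, Pi.single_eq_same] at h4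
      have := hp.1 j
      omega
    have h5 := bl_self_pos hA _ h3
    rw [bl_add_self hA, hp.2, h2] at h5
    omega
  · have h3 : γ - rt j ≠ 0 := fun h => hj (sub_eq_zero.1 h)
    have h5 := bl_self_pos hA _ h3
    rw [bl_sub_self hA, hp.2, h2] at h5
    omega

theorem sub (hA : IsADE A) (γ : ι → ℤ) (hγ : γ ∈ posRoots A) (j : ι) (hj : γ ≠ rt j)
    (h : bl A (γ - rt j) (γ - rt j) = 2) : γ - rt j ∈ posRoots A := by
  have hp := (mem hA γ).1 hγ
  rcases sign_coh hA _ h with h1 | h1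
  · exact (mem hA _).2 ⟨h1, h⟩
  · exfalso
    have h2 : ∀ i, i ≠ j → γ i = 0 := by
      intro i hi
      have h3 := h1 i
      rw [Pi.sub_apply, rt, Pi.single_eq_of_ne hi] at h3
      have := hp.1 i
      omega
    have h4 : γ = (γ j) • rt j := by
      funext i
      rw [Pi.smul_apply, smul_eq_mul]
      by_cases hi : i = j
      · rw [hi, rt, Pi.single_eq_same, mul_one]
      · rw [h2 i hi, rt, Pi.single_eq_of_ne hi, mul_zero]
    have h5 := hp.2
    rw [h4, bl_smul_left, bl_symm hA, bl_smul_left, jj1_rt_rt hA] at h5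
    have h6 := hp.1 j
    have h7 : γ j * γ j = 1 := by linarith
    have h8 : γ j = 1 := by nlinarith
    rw [h8, one_smul] at h4
    exact hj h4

end KG3

/-- [KG3] -/
theorem kg_K3 (hA : IsADE A) : FactsK3 A where
  sign := KG3.sign hA
  not_both γ hγ δ hδ h := by
    have h1 := (KG3.mem hA γ).1 hγ
    have h2 := (KG3.mem hA δ).1 hδ
    apply KG3.ne_zero γ h1.2
    funext i
    have h3 := h1.1 i
    have h4 := h2.1 i
    rw [h, Pi.neg_apply] at h4
    rw [Pi.zero_apply]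
    omega
  ht_pos γ hγ := by
    have h1 := (KG3.mem hA γ).1 hγ
    have h2 : γ ≠ 0 := KG3.ne_zero γ h1.2
    obtain ⟨i, hi⟩ := Function.ne_iff.1 h2
    have h3 : 0 < γ i := lt_of_le_of_ne (h1.1 i) (Ne.symm hi)
    have h4 : γ i ≤ ht γ := Finset.single_le_sum (fun k _ => h1.1 k) (Finset.mem_univ i)
    omega
  ht_one γ hγ h := by
    have h1 := (KG3.mem hA γ).1 hγ
    have h2 : γ ≠ 0 := KG3.ne_zero γ h1.2
    obtain ⟨j, hj⟩ := Function.ne_iff.1 h2
    have h3 : 0 < γ j := lt_of_le_of_ne (h1.1 j) (Ne.symm hj)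
    refine ⟨j, ?_⟩
    have h4 : ht γ = γ j + ∑ i ∈ Finset.univ.erase j, γ i := by
      unfold ht
      rw [Finset.add_sum_erase _ _ (Finset.mem_univ j)]
    have h5 : 0 ≤ ∑ i ∈ Finset.univ.erase j, γ i := Finset.sum_nonneg fun i _ => h1.1 i
    have h6 : ∑ i ∈ Finset.univ.erase j, γ i = 0 := by omega
    have h7 := (Finset.sum_eq_zero_iff_of_nonneg fun i _ => h1.1 i).1 h6
    funext i
    by_cases hi : i = j
    · rw [hi, rt, Pi.single_eq_same]
      omega
    · rw [rt, Pi.single_eq_of_ne hi]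
      exact h7 i (Finset.mem_erase.2 ⟨hi, Finset.mem_univ i⟩)
  step γ hγ := by
    by_cases hs : ∃ j, γ = rt j
    · exact Or.inl hs
    · right
      have h1 := (KG3.mem hA γ).1 hγ
      have h2 : ∃ j, 1 ≤ bl A γ (rt j) := by
        by_contra hcon
        push Not at hcon
        have h3 : bl A γ γ ≤ 0 := by
          rw [jj1_bl_eq]
          refine Finset.sum_nonpos fun i _ => ?_
          have h4 := hcon i
          rw [bl_symm hA, bl_rt hA] at h4
          exact mul_nonpos_of_nonneg_of_nonpos (h1.1 i) (by omega)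
        have := h1.2
        omega
      obtain ⟨j, hj⟩ := h2
      have hne : γ ≠ rt j := fun h => hs ⟨j, h⟩
      have h5 := KG3.bl_zero hA γ hγ j hne
      have h6 : bl A γ (rt j) = 1 := by omega
      have h7 := jj1_rt_rt hA j
      refine ⟨j, KG3.sub hA γ hγ j hne ?_, ?_⟩
      · rw [KG3.bl_sub_self hA, h1.2, h6, h7]
        norm_num
      · rw [KG3.bl_sub, h6, h7]
        norm_num
  sub := KG3.sub hA
  bl_zero := KG3.bl_zero hA

end

end WPE
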