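import Pool.Agent.WPE.KG1
import Pool.Agent.WPE.KG2
import Pool.Agent.WPE.KG3
import Pool.Agent.WPE.KG4

/-! WPE, block KG: the properties of Lie data. -/

set_option linter.unusedSectionVars false

namespace WPE

open WPQ MvPolynomial AF

noncomputable section

variable {ι : Type} [Fintype ι] [DecidableEq ι] {A : Matrix ι ι ℤ}

namespace KG5

theorem eps_sq (ε : Cocycle A 1) (γ δ : ι → ℤ) :
    ((ε.ε γ δ : ℤ) : ℂ) * ((ε.ε γ δ : ℤ) : ℂ) = 1 := by
  have h : ((ε.ε γ δ : ℤˣ) : ℤ) * ((ε.ε γ δ : ℤˣ) : ℤ) = 1 := by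
    rw [← Units.val_mul, Int.units_mul_self, Units.val_one]
  exact_mod_cast h

theorem toC_neg (γ : ι → ℤ) : toC (-γ) = -toC γ := by
  funext i
  simp [toC]

theorem form_neg (ν μ : ι → ℂ) : form A 1 ν (-μ) = -form A 1 ν μ := by
  unfold form
  rw [← mul_neg, ← Finset.sum_neg_distrib]
  congr 1
  refine Finset.sum_congr rfl fun i _ => ?_
  rw [← Finset.sum_neg_distrib]
  refine Finset.sum_congr rfl fun j _ => ?_
  rw [Pi.neg_apply]
  ring

theorem gx_congr (hA : IsADE A) (ε : Cocycle A 1) {γ δ : ι → ℤ} (h : γ = δ) (hγ : bl A γ γ = 2)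
    (hδ : bl A δ δ = 2) : G1.gx hA ε γ hγ = G1.gx hA ε δ hδ := by
  subst h
  rfl

theorem bb_sum (ν : ι → ℂ) : ν = ∑ i, ν i • bb i := by
  funext j
  rw [Finset.sum_apply, Finset.sum_eq_single j]
  · simp [bb]
  · intro i _ hi
    simp [bb, hi.symm]
  · intro h
    exact absurd (Finset.mem_univ j) h

variable (hA : IsADE A) (ε : Cocycle A 1)

theorem gh_mem (ν : ι → ℂ) : G1.gh hA ε ν ∈ Submodule.span ℂ (Set.range (G1.ghi hA ε)) := by
  rw [bb_sum ν, map_sum]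
  refine Submodule.sum_mem _ fun i _ => ?_
  rw [map_smul]
  exact Submodule.smul_mem _ _ (Submodule.subset_span ⟨i, rfl⟩)

theorem ef (b c : Rt A) : G1.frm hA ε (G1.ge hA ε b) (G1.gf hA ε c) = if b = c then 1 else 0 := by
  unfold G1.ge G1.gf
  rw [map_smul, (kg_K1 hA ε).frm_gx_gx, smul_eq_mul]
  by_cases h : b = c
  · subst h
    rw [if_pos rfl, if_pos rfl, eps_sq]
  · rw [if_neg h, if_neg, mul_zero]
    intro h1
    exact h (Subtype.ext (neg_injective h1).symm)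

theorem ee (b c : Rt A) : G1.frm hA ε (G1.ge hA ε b) (G1.ge hA ε c) = 0 := by
  unfold G1.ge
  rw [(kg_K1 hA ε).frm_gx_gx, if_neg]
  exact (kg_K3 hA).not_both b.1 b.2 c.1 c.2

theorem ff (b c : Rt A) : G1.frm hA ε (G1.gf hA ε b) (G1.gf hA ε c) = 0 := by
  unfold G1.gf
  rw [map_smul, map_smul, LinearMap.smul_apply, (kg_K1 hA ε).frm_gx_gx, if_neg]
  · simp
  · intro h
    apply (kg_K3 hA).not_both b.1 b.2 c.1 c.2
    rw [neg_neg] at h
    rw [← h, neg_neg]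

theorem frm_symm (x y : G1 hA ε) : G1.frm hA ε x y = G1.frm hA ε y x := (kg_K2 hA ε).symm x y

theorem fe (b c : Rt A) : G1.frm hA ε (G1.gf hA ε b) (G1.ge hA ε c) = if b = c then 1 else 0 := by
  rw [frm_symm, ef]
  simp only [eq_comm]

theorem he (ν : ι → ℂ) (b : Rt A) : G1.frm hA ε (G1.gh hA ε ν) (G1.ge hA ε b) = 0 := by
  unfold G1.ge
  exact (kg_K1 hA ε).frm_gh_gx ν _ _

theorem hf (ν : ι → ℂ) (b : Rt A) : G1.frm hA ε (G1.gh hA ε ν) (G1.gf hA ε b) = 0 := by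
  unfold G1.gf
  rw [map_smul, (kg_K1 hA ε).frm_gh_gx ν, smul_zero]

theorem hh' (i j : ι) : G1.frm hA ε (G1.ghi hA ε i) (G1.ghd hA ε j) = if i = j then 1 else 0 := by
  unfold G1.ghi G1.ghd
  rw [(kg_K1 hA ε).frm_gh_gh]
  exact (kg_K4 hA).form_dual i j

/-- the decomposition as a linear map -/
def T : G1 hA ε →ₗ[ℂ] G1 hA ε :=
  ∑ b, ((G1.frm hA ε).flip (G1.gf hA ε b)).smulRight (G1.ge hA ε b) +
    ∑ i, ((G1.frm hA ε).flip (G1.ghd hA ε i)).smulRight (G1.ghi hA ε i) +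
    ∑ b, ((G1.frm hA ε).flip (G1.ge hA ε b)).smulRight (G1.gf hA ε b)

theorem T_apply (x : G1 hA ε) : T hA ε x = ∑ b, G1.frm hA ε x (G1.gf hA ε b) • G1.ge hA ε b +
    ∑ i, G1.frm hA ε x (G1.ghd hA ε i) • G1.ghi hA ε i +
    ∑ b, G1.frm hA ε x (G1.ge hA ε b) • G1.gf hA ε b := by
  unfold T
  simp only [LinearMap.add_apply, LinearMap.sum_apply, LinearMap.smulRight_apply,
    LinearMap.flip_apply]

theorem T_ghi (k : ι) : T hA ε (G1.ghi hA ε k) = G1.ghi hA ε k := by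
  rw [T_apply, Finset.sum_eq_zero, Finset.sum_eq_single k, Finset.sum_eq_zero]
  · rw [hh', if_pos rfl, one_smul, zero_add, add_zero]
  · intro b _
    rw [show G1.frm hA ε (G1.ghi hA ε k) (G1.ge hA ε b) = 0 from he hA ε _ b, zero_smul]
  · intro i _ hi
    rw [hh', if_neg hi.symm, zero_smul]
  · intro h
    exact absurd (Finset.mem_univ k) h
  · intro b _
    rw [show G1.frm hA ε (G1.ghi hA ε k) (G1.gf hA ε b) = 0 from hf hA ε _ b, zero_smul]

theorem T_ge (c : Rt A) : T hA ε (G1.ge hA ε c) = G1.ge hA ε c := by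
  rw [T_apply, Finset.sum_eq_single c, Finset.sum_eq_zero, Finset.sum_eq_zero]
  · rw [ef, if_pos rfl, one_smul, add_zero, add_zero]
  · intro b _
    rw [ee, zero_smul]
  · intro i _
    rw [frm_symm, show G1.frm hA ε (G1.ghd hA ε i) (G1.ge hA ε c) = 0 from he hA ε _ c, zero_smul]
  · intro b _ hb
    rw [ef, if_neg hb.symm, zero_smul]
  · intro h
    exact absurd (Finset.mem_univ c) h

theorem T_gf (c : Rt A) : T hA ε (G1.gf hA ε c) = G1.gf hA ε c := by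
  rw [T_apply, Finset.sum_eq_zero, Finset.sum_eq_zero, Finset.sum_eq_single c]
  · rw [fe, if_pos rfl, one_smul, zero_add, zero_add]
  · intro b _ hb
    rw [fe, if_neg hb.symm, zero_smul]
  · intro h
    exact absurd (Finset.mem_univ c) h
  · intro i _
    rw [frm_symm, show G1.frm hA ε (G1.ghd hA ε i) (G1.gf hA ε c) = 0 from hf hA ε _ c, zero_smul]
  · intro b _
    rw [ff, zero_smul]

theorem decomp (x : G1 hA ε) : T hA ε x = x := by
  have hx := (kg_K2 hA ε).span x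
  induction hx using Submodule.span_induction with
  | mem y hy =>
    rcases hy with ⟨k, rfl⟩ | ⟨γ, hγ, rfl⟩
    · exact T_ghi hA ε k
    · rcases (kg_K3 hA).sign γ hγ with h | h
      · exact T_ge hA ε ⟨γ, h⟩
      · have h1 : G1.gx hA ε γ hγ = ((ε.ε (-γ) (- -γ) : ℤ) : ℂ) • G1.gf hA ε ⟨-γ, h⟩ := by
          unfold G1.gf
          rw [smul_smul, eps_sq, one_smul]
          exact gx_congr hA ε (neg_neg γ).symm _ _
        rw [h1, map_smul, T_gf]
  | zero => exact map_zero _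
  | add y z _ _ hy hz => rw [map_add, hy, hz]
  | smul c y _ hy => rw [map_smul, hy]

include hA in
theorem ht_cast (b : Rt A) : (htR b : ℂ) = (ht b.1 : ℂ) := by
  have h1 := (kg_K3 hA).ht_pos b.1 b.2
  have h2 : ((htR b : ℕ) : ℤ) = ht b.1 := by
    unfold htR
    exact Int.toNat_of_nonneg (by omega)
  rw [← h2, Int.cast_natCast]

theorem gh_e (ν : ι → ℂ) (b : Rt A) :
    ⁅G1.gh hA ε ν, G1.ge hA ε b⁆ = form A 1 ν (toC b.1) • G1.ge hA ε b := by
  unfold G1.ge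
  exact (kg_K1 hA ε).gh_gx ν b.1 _

theorem gh_f (ν : ι → ℂ) (b : Rt A) :
    ⁅G1.gh hA ε ν, G1.gf hA ε b⁆ = (-form A 1 ν (toC b.1)) • G1.gf hA ε b := by
  unfold G1.gf
  rw [lie_smul, (kg_K1 hA ε).gh_gx ν (-b.1), toC_neg, form_neg, smul_comm]

theorem rho_e (b : Rt A) : ⁅G1.grho hA ε, G1.ge hA ε b⁆ = (htR b : ℂ) • G1.ge hA ε b := by
  unfold G1.grho
  rw [gh_e, (kg_K4 hA).form_rho, ht_cast hA]

theorem rho_f (b : Rt A) : ⁅G1.grho hA ε, G1.gf hA ε b⁆ = (-(htR b : ℂ)) • G1.gf hA ε b := by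
  unfold G1.grho
  rw [gh_f, (kg_K4 hA).form_rho, ht_cast hA]

theorem ht_rt (j : ι) : ht (rt j : ι → ℤ) = 1 := by
  unfold ht rt
  rw [Finset.sum_eq_single j]
  · rw [Pi.single_eq_same]
  · intro i _ hi
    exact Pi.single_eq_of_ne hi 1
  · intro h
    exact absurd (Finset.mem_univ j) h

theorem rho_F : ⁅G1.grho hA ε, G1.gF hA ε⁆ = (-1 : ℂ) • G1.gF hA ε := by
  unfold G1.gF
  rw [lie_sum, Finset.smul_sum]
  refine Finset.sum_congr rfl fun i _ => ?_
  rw [rho_f, ht_cast hA, show (sr hA i).1 = rt i from rfl, ht_rt, Int.cast_one]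

theorem e_f (b : Rt A) : ⁅G1.ge hA ε b, G1.gf hA ε b⁆ = G1.gh hA ε (toC b.1) := by
  unfold G1.ge G1.gf
  rw [lie_smul, (kg_K1 hA ε).gx_neg, smul_smul, eps_sq, one_smul]

theorem e_f_simple (i j : ι) (hij : i ≠ j) :
    ⁅G1.ge hA ε (sr hA i), G1.gf hA ε (sr hA j)⁆ = 0 := by
  unfold G1.ge G1.gf
  rw [lie_smul, (kg_K1 hA ε).gx_nonneg, smul_zero]
  show 0 ≤ bl A (rt i) (-rt j)
  rw [bl_rt hA]
  unfold pr rt
  rw [Finset.sum_eq_single j]
  · rw [Pi.neg_apply, Pi.single_eq_same]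
    rcases hA.off i j hij with h | h <;> rw [h] <;> norm_num
  · intro k _ hk
    rw [Pi.neg_apply, Pi.single_eq_of_ne hk, neg_zero, mul_zero]
  · intro h
    exact absurd (Finset.mem_univ j) h

end KG5

/-- [KG5] -/
theorem kg_K5 (hA : IsADE A) (ε : Cocycle A 1) : FactsK5 hA ε where
  ef := KG5.ef hA ε
  ee := KG5.ee hA ε
  ff := KG5.ff hA ε
  eh b i := by
    rw [KG5.frm_symm]
    exact KG5.he hA ε _ b
  fh b i := by
    rw [KG5.frm_symm]
    exact KG5.hf hA ε _ b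
  hh' := KG5.hh' hA ε
  h'_mem i := KG5.gh_mem hA ε _
  gh_mem := KG5.gh_mem hA ε
  decomp x := by
    rw [← KG5.T_apply, KG5.decomp]
  comm_h i j := (kg_K1 hA ε).gh_gh _ _
  ht_pos b := by
    have h1 := (kg_K3 hA).ht_pos b.1 b.2
    unfold htR
    omega
  rho_e := KG5.rho_e hA ε
  rho_f := KG5.rho_f hA ε
  rho_F := KG5.rho_F hA ε
  gh_e := KG5.gh_e hA ε
  gh_f := KG5.gh_f hA ε
  e_f := KG5.e_f hA ε
  e_f_simple := KG5.e_f_simple hA ε

end

end WPE
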