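import Pool.Agent.WPE.KG5

/-! [WPE-KG7] `[E, F] = 2 ρ`. -/

set_option linter.unusedSectionVars false

namespace WPE

open WPQ MvPolynomial AF

noncomputable section

variable {ι : Type} [Fintype ι] [DecidableEq ι] {A : Matrix ι ι ℤ}

namespace KG7

theorem toC_sr (hA : IsADE A) (j : ι) : toC (sr hA j).1 = bb j := by
  funext i
  show ((rt j i : ℤ) : ℂ) = bb j i
  unfold rt bb
  by_cases hi : i = j
  · subst hi
    simp
  · simp [Pi.single_eq_of_ne hi]

theorem vec (ν : ι → ℂ) : ∑ i, ν i • bb i = ν := by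
  funext k
  rw [Finset.sum_apply, Finset.sum_eq_single k]
  · simp [bb]
  · intro i _ hi
    simp [bb, Pi.single_eq_of_ne (Ne.symm hi)]
  · intro hk
    exact absurd (Finset.mem_univ k) hk

theorem htR_sr (hA : IsADE A) (j : ι) : htR (sr hA j) = 1 := by
  unfold htR sr ht rt
  simp

end KG7

/-- [KG7] `[E, F] = 2 ρ`. -/
theorem kg_EF (hA : IsADE A) (ε : Cocycle A 1) :
    ⁅G1.gE hA ε, G1.gF hA ε⁆ = (2 : ℂ) • G1.grho hA ε ∧
    ⁅G1.grho hA ε, G1.gE hA ε⁆ = G1.gE hA ε := by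
  have h5 := kg_K5 hA ε
  constructor
  · unfold G1.gE G1.gF
    rw [sum_lie]
    have h1 : ∀ i, ⁅(2 * rho A i) • G1.ge hA ε (sr hA i), ∑ j, G1.gf hA ε (sr hA j)⁆ =
        (2 : ℂ) • G1.gh hA ε (rho A i • bb i) := by
      intro i
      rw [smul_lie, lie_sum, Finset.sum_eq_single i]
      · rw [h5.e_f, KG7.toC_sr, map_smul, mul_smul]
      · intro k _ hk
        exact h5.e_f_simple i k (Ne.symm hk)
      · intro h
        exact absurd (Finset.mem_univ i) h
    rw [Finset.sum_congr rfl fun i _ => h1 i, ← Finset.smul_sum, ← map_sum, KG7.vec]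
    rfl
  · unfold G1.gE
    rw [lie_sum]
    refine Finset.sum_congr rfl fun i _ => ?_
    rw [lie_smul, h5.rho_e, KG7.htR_sr, Nat.cast_one, one_smul]

end

end WPE
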