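import Pool.Agent.WPE.KG6
import Pool.Agent.WPE.KG7
set_option linter.unusedSectionVars false
namespace WPE
open WPQ MvPolynomial AF
noncomputable section
variable {ι : Type} [Fintype ι] [DecidableEq ι] {A : Matrix ι ι ℤ}

namespace KG8

/-- weight spaces of `ad ρ` -/
def wt (hA : IsADE A) (ε : Cocycle A 1) (c : ℤ) : Submodule ℂ (G1 hA ε) where
  carrier := {x | ⁅G1.grho hA ε, x⁆ = (c : ℂ) • x}
  add_mem' := by
    intro x y hx hy
    show ⁅G1.grho hA ε, x + y⁆ = (c : ℂ) • (x + y)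
    rw [lie_add, hx, hy, smul_add]
  zero_mem' := by
    show ⁅G1.grho hA ε, (0 : G1 hA ε)⁆ = (c : ℂ) • (0 : G1 hA ε)
    rw [lie_zero, smul_zero]
  smul_mem' := by
    intro a x hx
    show ⁅G1.grho hA ε, a • x⁆ = (c : ℂ) • (a • x)
    rw [lie_smul, hx, smul_comm]

/-- pairing of a weight vector with a weight vector -/
theorem pair (hA : IsADE A) (ε : Cocycle A 1) (c : ℤ) (x : G1 hA ε) (hx : x ∈ wt hA ε c)
    (y : G1 hA ε) (d : ℂ) (hy : ⁅G1.grho hA ε, y⁆ = d • y) (hcd : (c : ℂ) + d ≠ 0) :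
    G1.frm hA ε x y = 0 := by
  have hK := kg_K2 hA ε
  have h1 := hK.inv x (G1.grho hA ε) y
  have hx' : ⁅G1.grho hA ε, x⁆ = (c : ℂ) • x := hx
  rw [← lie_skew, hx', hy, map_neg, map_smul, map_smul, LinearMap.neg_apply,
    LinearMap.smul_apply, smul_eq_mul, smul_eq_mul] at h1
  have h2 : ((c : ℂ) + d) * G1.frm hA ε x y = 0 := by
    rw [add_mul, ← h1]
    ring
  exact (mul_eq_zero.1 h2).resolve_left hcd

theorem rho_h' (hA : IsADE A) (ε : Cocycle A 1) (i : ι) :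
    ⁅G1.grho hA ε, G1.ghd hA ε i⁆ = (0 : ℂ) • G1.ghd hA ε i := by
  rw [zero_smul]
  exact (kg_K1 hA ε).gh_gh _ _

end KG8

theorem kg_surj (hA : IsADE A) (ε : Cocycle A 1) (b : Rt A) :
    ∃ x : G1 hA ε, (∀ c, G1.frm hA ε x (G1.gf hA ε c) = 0) ∧ ⁅G1.gF hA ε, x⁆ = G1.gf hA ε b := by
  classical
  have hK := kg_K5 hA ε
  obtain ⟨hEF, hrE⟩ := kg_EF hA ε
  have hE : ∀ c, ∀ x ∈ KG8.wt hA ε c,
      LieAlgebra.ad ℂ (G1 hA ε) (G1.gE hA ε) x ∈ KG8.wt hA ε (c + 1) := by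
    intro c x hx
    have hx' : ⁅G1.grho hA ε, x⁆ = (c : ℂ) • x := hx
    show ⁅G1.grho hA ε, ⁅G1.gE hA ε, x⁆⁆ = ((c + 1 : ℤ) : ℂ) • ⁅G1.gE hA ε, x⁆
    rw [leibniz_lie, hrE, hx', lie_smul]
    push_cast
    rw [add_smul, one_smul, add_comm]
  have hF : ∀ c, ∀ x ∈ KG8.wt hA ε c,
      LieAlgebra.ad ℂ (G1 hA ε) (G1.gF hA ε) x ∈ KG8.wt hA ε (c - 1) := by
    intro c x hx
    have hx' : ⁅G1.grho hA ε, x⁆ = (c : ℂ) • x := hx
    show ⁅G1.grho hA ε, ⁅G1.gF hA ε, x⁆⁆ = ((c - 1 : ℤ) : ℂ) • ⁅G1.gF hA ε, x⁆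
    rw [leibniz_lie, hK.rho_F, hx', lie_smul, smul_lie]
    push_cast
    rw [sub_smul, one_smul, neg_one_smul]
    abel
  have hH : ∀ c, ∀ x ∈ KG8.wt hA ε c,
      LieAlgebra.ad ℂ (G1 hA ε) (G1.gE hA ε) (LieAlgebra.ad ℂ (G1 hA ε) (G1.gF hA ε) x) -
        LieAlgebra.ad ℂ (G1 hA ε) (G1.gF hA ε) (LieAlgebra.ad ℂ (G1 hA ε) (G1.gE hA ε) x) =
        (2 * (c : ℂ)) • x := by
    intro c x hx
    have hx' : ⁅G1.grho hA ε, x⁆ = (c : ℂ) • x := hx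
    show ⁅G1.gE hA ε, ⁅G1.gF hA ε, x⁆⁆ - ⁅G1.gF hA ε, ⁅G1.gE hA ε, x⁆⁆ = (2 * (c : ℂ)) • x
    rw [leibniz_lie, hEF, add_sub_cancel_right, smul_lie, hx', smul_smul]
  have hbdd : ∀ c < -(∑ b : Rt A, (htR b : ℤ)), KG8.wt hA ε c = ⊥ := by
    intro c hc
    rw [Submodule.eq_bot_iff]
    intro x hx
    have hs : (0 : ℤ) ≤ ∑ b : Rt A, (htR b : ℤ) := Finset.sum_nonneg fun b _ => by positivity
    rw [hK.decomp x, Finset.sum_eq_zero, Finset.sum_eq_zero, Finset.sum_eq_zero, add_zero,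
      add_zero]
    · intro d _
      rw [KG8.pair hA ε c x hx _ _ (hK.rho_e d), zero_smul]
      have h1 : (htR d : ℤ) ≤ ∑ b : Rt A, (htR b : ℤ) :=
        Finset.single_le_sum (f := fun b : Rt A => (htR b : ℤ)) (fun b _ => by positivity)
          (Finset.mem_univ d)
      have h2 : c + (htR d : ℤ) ≠ 0 := by omega
      exact_mod_cast h2
    · intro i _
      rw [KG8.pair hA ε c x hx _ _ (KG8.rho_h' hA ε i), zero_smul]
      rw [add_zero]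
      have h2 : c ≠ 0 := by omega
      exact_mod_cast h2
    · intro d _
      rw [KG8.pair hA ε c x hx _ _ (hK.rho_f d), zero_smul]
      have h2 : c - (htR d : ℤ) ≠ 0 := by omega
      rw [← sub_eq_add_neg]
      exact_mod_cast h2
  have hfb : G1.gf hA ε b ∈ KG8.wt hA ε (-(htR b : ℤ)) := by
    show ⁅G1.grho hA ε, G1.gf hA ε b⁆ = ((-(htR b : ℤ) : ℤ) : ℂ) • G1.gf hA ε b
    rw [hK.rho_f]
    push_cast
    rfl
  have hb := hK.ht_pos b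
  obtain ⟨y, hy, hFy⟩ := kg_sl2 _ _ (KG8.wt hA ε) hE hF hH _ hbdd (-(htR b : ℤ)) (by omega)
    _ hfb
  refine ⟨y, fun c => ?_, hFy⟩
  refine KG8.pair hA ε _ y hy _ _ (hK.rho_f c) ?_
  have hc := hK.ht_pos c
  have h2 : -(htR b : ℤ) + 1 - (htR c : ℤ) ≠ 0 := by omega
  rw [← sub_eq_add_neg]
  exact_mod_cast h2

end
end WPE
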