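import Pool.Agent.WPE.KG1
import Pool.Agent.WPE.KG3

/-! WPE, block KG, row KG9: the simple root vectors `f_j` generate all `f_b`. -/

set_option linter.unusedSectionVars false

namespace WPE

open WPQ MvPolynomial AF

noncomputable section

variable {ι : Type} [Fintype ι] [DecidableEq ι] {A : Matrix ι ι ℤ}

namespace KG9

/-- The height of a simple root. -/
theorem ht_rt (j : ι) : ht (rt j : ι → ℤ) = 1 := by
  unfold ht rt
  rw [Finset.sum_eq_single j]
  · rw [Pi.single_eq_same]
  · intro k _ hk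
    rw [Pi.single_eq_of_ne hk]
  · intro h
    exact absurd (Finset.mem_univ j) h

/-- The height is additive. -/
theorem ht_sub (x y : ι → ℤ) : ht (x - y) = ht x - ht y := by
  unfold ht
  rw [← Finset.sum_sub_distrib]
  rfl

/-- A sign is not zero. -/
theorem unit_ne (u : ℤˣ) : ((u : ℤ) : ℂ) ≠ 0 := Int.cast_ne_zero.2 u.ne_zero

/-- Equal charges give equal root vectors. -/
theorem gx_congr (hA : IsADE A) (ε : Cocycle A 1) (γ δ : ι → ℤ) (h : γ = δ)
    (hγ : bl A γ γ = 2) (hδ : bl A δ δ = 2) : G1.gx hA ε γ hγ = G1.gx hA ε δ hδ := by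
  subst h
  rfl

end KG9

theorem kg_gen (hA : IsADE A) (ε : Cocycle A 1) (S : Submodule ℂ (G1 hA ε))
    (h1 : ∀ b : Rt A, htR b = 1 → G1.gf hA ε b ∈ S) (h2 : ∀ x ∈ S, ∀ y ∈ S, ⁅x, y⁆ ∈ S)
    (b : Rt A) : G1.gf hA ε b ∈ S := by
  have K1 := kg_K1 hA ε
  have K3 := kg_K3 hA
  induction hn : htR b using Nat.strong_induction_on generalizing b with
  | _ n ih =>
    rcases K3.step b.1 b.2 with ⟨j, hj⟩ | ⟨j, hj, hbl⟩
    · apply h1
      unfold htR
      rw [hj, KG9.ht_rt]
      rfl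
    · -- the smaller root
      have hb : 1 ≤ ht b.1 := K3.ht_pos b.1 b.2
      have hg : 1 ≤ ht (b.1 - rt j) := K3.ht_pos _ hj
      have hlt : htR (⟨b.1 - rt j, hj⟩ : Rt A) < n := by
        rw [← hn]
        unfold htR
        change (ht (b.1 - rt j)).toNat < (ht b.1).toNat
        rw [KG9.ht_sub, KG9.ht_rt] at hg ⊢
        omega
      have hS1 := ih _ hlt ⟨b.1 - rt j, hj⟩ rfl
      have hS2 : G1.gf hA ε (sr hA j) ∈ S := by
        apply h1
        unfold htR sr
        change (ht (rt j : ι → ℤ)).toNat = 1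
        rw [KG9.ht_rt]
        rfl
      have hS := h2 _ hS1 _ hS2
      unfold G1.gf at hS ⊢
      rw [smul_lie, lie_smul] at hS
      have hsum : -(b.1 - rt j) + -(sr hA j).1 = -b.1 := by
        change -(b.1 - rt j) + -rt j = -b.1
        abel
      have hnb : bl A (-b.1) (-b.1) = 2 := G1.kg_neg2 b.1 (rt_pos hA b).2
      have hs : bl A (-(b.1 - rt j) + -(sr hA j).1) (-(b.1 - rt j) + -(sr hA j).1) = 2 := by
        rw [hsum]
        exact hnb
      rw [K1.gx_neg_one _ _ _ _ hs, smul_smul, smul_smul] at hS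
      have hS' := (Submodule.smul_mem_iff S (mul_ne_zero (mul_ne_zero (KG9.unit_ne _)
        (KG9.unit_ne _)) (KG9.unit_ne _))).1 hS
      rw [KG9.gx_congr hA ε _ _ hsum hs hnb] at hS'
      exact Submodule.smul_mem _ _ hS'

end

end WPE
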