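import Pool.Agent.WPQ.VA4

/-! WPE, block KG: the simple Lie algebra `g` as the weight one space of `V_Q` (`p = 1`). -/

set_option linter.unusedSectionVars false

namespace WPE

open WPQ MvPolynomial AF

noncomputable section

variable {ι : Type} [Fintype ι] [DecidableEq ι] {A : Matrix ι ι ℤ}

theorem kg_bl (γ δ : ι → ℤ) : formZ A 1 γ δ = bl A γ δ := by
  unfold formZ bl
  rw [Nat.cast_one, one_mul]

theorem kg_wt (hA : IsADE A) (γ : ι → ℤ) : 2 * wtExp A 1 γ = bl A γ γ := by
  have h := jj1_even hA γ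
  unfold wtExp
  rw [kg_bl, Nat.cast_one, sub_self, zero_mul, sub_zero]
  omega

theorem kg_wt_pos (hA : IsADE A) (γ : ι → ℤ) (hγ : γ ≠ 0) : 1 ≤ wtExp A 1 γ := by
  have h1 := kg_wt hA γ
  have h2 := bl_self_pos hA γ hγ
  omega

theorem kg_wt_zero : wtExp A 1 (0 : ι → ℤ) = 0 := by
  unfold wtExp formZ
  simp

theorem kg_wt_nonneg (hA : IsADE A) (γ : ι → ℤ) : 0 ≤ wtExp A 1 γ := by
  by_cases h : γ = 0
  · rw [h, kg_wt_zero]
  · have := kg_wt_pos hA γ h
    omega

theorem kg_Vn_neg (hA : IsADE A) (n : ℤ) (hn : n < 0) (v : VL ι) (hv : v ∈ Vn A 1 n) : v = 0 := by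
  refine Finsupp.ext fun γ => ?_
  rcases Vn_comp n v hv γ with h | ⟨d, _, h⟩
  · exact h
  · have := kg_wt_nonneg hA γ
    omega

theorem kg_Vn_zero (hA : IsADE A) (v : VL ι) (hv : v ∈ Vn A 1 0) : v = top0 v • vac := by
  refine Finsupp.ext fun γ => ?_
  rw [Finsupp.smul_apply, vac, Finsupp.single_apply]
  rcases Vn_comp 0 v hv γ with h | ⟨d, hd, h⟩
  · split_ifs with h0
    · subst h0
      unfold top0
      rw [h]
      simp [h]
    · rw [h, smul_zero]
  · have h1 := kg_wt_nonneg hA γ
    by_cases h0 : (0 : ι → ℤ) = γ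
    · subst h0
      rw [if_pos rfl]
      have hd0 : d = 0 := by omega
      subst hd0
      show v 0 = constantCoeff (v 0) • 1
      have h2 : v 0 = C (coeff 0 (v 0)) := by
        ext m
        rw [coeff_C]
        split_ifs with h6
        · rw [h6]
        · by_contra h7
          have h8 := hd h7
          have h9 : m = 0 := by
            rw [Finsupp.weight_apply, Finsupp.sum, Finset.sum_eq_zero_iff] at h8
            refine Finsupp.ext fun x => ?_
            by_contra h10
            have h11 := h8 x (Finsupp.mem_support_iff.2 h10)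
            rw [smul_eq_mul, mul_eq_zero] at h11
            rcases h11 with h11 | h11
            · exact h10 h11
            · unfold wF at h11
              omega
          exact h6 h9.symm
      rw [smul_eq_C_mul, mul_one]
      exact h2
    · have h2 := kg_wt_pos hA γ (fun h3 => h0 h3.symm)
      omega

/-- `(u_(0) v)_(m) = [u_(0), v_(m)]` -/
theorem kg_comm0 (hA : IsADE A) (ε : Cocycle A 1) (u v : VL ι) (m : ℤ) (w : VL ι) :
    mode ε (mode ε u 0 v) m w = mode ε u 0 (mode ε v m w) - mode ε v m (mode ε u 0 w) := by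
  have h1 := mode_prodN hA (le_refl 1) ε u v 0
  have h2 := LinearMap.congr_fun (congrFun h1 m) w
  simpa [prodN] using h2

theorem kg_vac_mode (hA : IsADE A) (ε : Cocycle A 1) (u : VL ι) (n : ℤ) (hn : 0 ≤ n) :
    mode ε u n vac = 0 := (mode_spec hA (le_refl 1) ε u).vacuum n hn

/-- Antisymmetry on weight one vectors. -/
theorem kg_anti (hA : IsADE A) (ε : Cocycle A 1) (u v : VL ι) (hu : u ∈ Vn A 1 1)
    (hv : v ∈ Vn A 1 1) : mode ε u 0 v = -mode ε v 0 u := by
  have hM : ∀ j : ℕ, 2 ≤ j → mode ε v j u = 0 := by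
    intro j hj
    have h1 := mode_Vn hA (le_refl 1) ε 1 1 j v u hv hu
    exact kg_Vn_neg hA _ (by omega) _ h1
  have h := LinearMap.congr_fun (mode_comm hA (le_refl 1) ε v u 2 hM (-1) 0) vac
  rw [LinearMap.sub_apply, LinearMap.comp_apply, LinearMap.comp_apply,
    kg_vac_mode hA ε u 0 (le_refl 0), map_zero, mode_neg_one_vac hA (le_refl 1), zero_sub,
    LinearMap.sum_apply, Finset.sum_range_succ, Finset.sum_range_one] at h
  have h1 := mode_Vn hA (le_refl 1) ε 1 1 ((1 : ℕ) : ℤ) v u hv hu
  have h2 : mode ε v ((1 : ℕ) : ℤ) u = top0 (mode ε v ((1 : ℕ) : ℤ) u) • vac := by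
    apply kg_Vn_zero hA
    rw [show (1 + 1 - ((1 : ℕ) : ℤ) - 1) = 0 by norm_num] at h1
    exact h1
  rw [h2, mode_smul hA (le_refl 1), mode_vac hA (le_refl 1)] at h
  simp only [LinearMap.smul_apply, Ring.choose_zero_right, Int.cast_one, one_smul,
    Nat.cast_zero, sub_zero, Nat.cast_one] at h
  rw [if_neg (by norm_num), LinearMap.zero_apply, smul_zero, smul_zero, add_zero,
    show (-1 + 0 : ℤ) = -1 by norm_num, mode_neg_one_vac hA (le_refl 1)] at h
  rw [← h, neg_neg]

/-- The weight one space `V_Q(1)`, with the bracket `[x, y] = x_(0) y`. -/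
def G1 (_hA : IsADE A) (_ε : Cocycle A 1) : Type := ↥(Vn A 1 1)

namespace G1

variable (hA : IsADE A) (ε : Cocycle A 1)

instance : AddCommGroup (G1 hA ε) := inferInstanceAs (AddCommGroup ↥(Vn A 1 1))

instance : Module ℂ (G1 hA ε) := inferInstanceAs (Module ℂ ↥(Vn A 1 1))

variable {hA ε}

/-- The underlying vector of `V_Q`. -/
def val (x : G1 hA ε) : VL ι := Subtype.val (p := fun v => v ∈ Vn A 1 1) x

theorem val_mem (x : G1 hA ε) : x.val ∈ Vn A 1 1 :=
  Subtype.property (p := fun v => v ∈ Vn A 1 1) x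

/-- An element of `g`. -/
def mk (v : VL ι) (hv : v ∈ Vn A 1 1) : G1 hA ε := (⟨v, hv⟩ : ↥(Vn A 1 1))

theorem val_mk (v : VL ι) (hv : v ∈ Vn A 1 1) : (mk v hv : G1 hA ε).val = v := rfl

theorem ext {x y : G1 hA ε} (h : x.val = y.val) : x = y := Subtype.ext h

theorem val_add (x y : G1 hA ε) : (x + y).val = x.val + y.val := rfl

theorem val_smul (c : ℂ) (x : G1 hA ε) : (c • x).val = c • x.val := rfl

theorem val_zero : (0 : G1 hA ε).val = 0 := rfl

theorem val_neg (x : G1 hA ε) : (-x).val = -x.val := rfl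

theorem val_sub (x y : G1 hA ε) : (x - y).val = x.val - y.val := rfl

variable (hA ε) in
/-- The underlying vector, as a linear map. -/
def valL : G1 hA ε →ₗ[ℂ] VL ι where
  toFun := val
  map_add' := val_add
  map_smul' := val_smul

theorem val_sum {κ : Type} (s : Finset κ) (f : κ → G1 hA ε) :
    (∑ k ∈ s, f k).val = ∑ k ∈ s, (f k).val := map_sum (valL hA ε) f s

theorem lie_mem (x y : G1 hA ε) : mode ε x.val 0 y.val ∈ Vn A 1 1 := by
  have h := mode_Vn hA (le_refl 1) ε 1 1 0 x.val y.val x.val_mem y.val_mem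
  exact h

instance : Bracket (G1 hA ε) (G1 hA ε) := ⟨fun x y => mk (mode ε x.val 0 y.val) (lie_mem x y)⟩

theorem val_lie (x y : G1 hA ε) : ⁅x, y⁆.val = mode ε x.val 0 y.val := rfl

instance : LieRing (G1 hA ε) where
  add_lie x y z := by
    apply ext
    rw [val_lie, val_add, val_add, val_lie, val_lie, mode_add hA (le_refl 1), LinearMap.add_apply]
  lie_add x y z := by
    apply ext
    rw [val_lie, val_add, val_add, val_lie, val_lie, map_add]
  lie_self x := by
    apply ext
    rw [val_lie, val_zero]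
    have h := kg_anti hA ε x.val x.val x.val_mem x.val_mem
    have h2 : (2 : ℂ) • mode ε x.val 0 x.val = 0 := by
      rw [two_smul]
      nth_rewrite 1 [h]
      exact neg_add_cancel _
    exact (smul_eq_zero.1 h2).resolve_left two_ne_zero
  leibniz_lie x y z := by
    apply ext
    rw [val_add, val_lie, val_lie, val_lie, val_lie, val_lie, val_lie, kg_comm0 hA ε]
    abel

instance : LieAlgebra ℂ (G1 hA ε) where
  lie_smul c x y := by
    apply ext
    rw [val_lie, val_smul, val_smul, val_lie, map_smul]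

end G1

end

end WPE
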