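import Pool.Agent.WPE.KGD
import Pool.Agent.WPQ.LW2
import Pool.Agent.WPQ.R_HA8

/-! WPE, block KG: root vectors, Cartan elements and the form of `g = V_Q(1)`. -/

set_option linter.unusedSectionVars false

namespace WPE

open WPQ MvPolynomial AF

noncomputable section

variable {ι : Type} [Fintype ι] [DecidableEq ι] {A : Matrix ι ι ℤ}

/-- The type of positive roots. -/
abbrev Rt (A : Matrix ι ι ℤ) : Type := {c : ι → ℤ // c ∈ posRoots A}

theorem rt_pos (hA : IsADE A) (γ : Rt A) : IsPosRoot A γ.1 := ((R_HA8 ι).mem A hA γ.1).1 γ.2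

theorem kg_osc (ν : ι → ℂ) : FH (osc ν 0) 1 := by
  have h := expCoeff_homog ν 1
  have h2 : expCoeff ν 1 = osc ν 0 := by
    have h3 := lw2_E1 ν
    rw [show (1 : ℤ) = ((1 : ℕ) : ℤ) by norm_num, expCoeffZ_nat] at h3
    exact h3
  rw [h2] at h
  exact h

/-- The simple root as a positive root. -/
def sr (hA : IsADE A) (j : ι) : Rt A := ⟨rt j, (R_HA8 ι).simple A hA j⟩

/-- The height of a positive root. -/
def htR (γ : Rt A) : ℕ := (ht γ.1).toNat

namespace G1

variable (hA : IsADE A) (ε : Cocycle A 1)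

/-- The Cartan element of charge `ν` (coordinates in the basis `α_i`): `ν(-1)1`. -/
def gh : (ι → ℂ) →ₗ[ℂ] G1 hA ε where
  toFun ν := mk (Finsupp.single 0 (osc ν 0)) (single_mem_Vn 0 _ 1 (kg_osc ν) 1
    (by rw [kg_wt_zero]; norm_num))
  map_add' ν μ := by
    apply ext
    rw [val_add, val_mk, val_mk, val_mk, ← Finsupp.single_add]
    congr 1
    unfold osc
    rw [← Finset.sum_add_distrib]
    refine Finset.sum_congr rfl fun i _ => ?_
    rw [Pi.add_apply, map_add, add_mul]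
  map_smul' c ν := by
    apply ext
    rw [val_smul, val_mk, val_mk, Finsupp.smul_single]
    congr 1
    unfold osc
    rw [RingHom.id_apply, Finset.smul_sum]
    refine Finset.sum_congr rfl fun i _ => ?_
    rw [Pi.smul_apply, smul_eq_mul, map_mul, mul_assoc, smul_eq_C_mul]

theorem val_gh (ν : ι → ℂ) : (gh hA ε ν).val = Finsupp.single 0 (osc ν 0) := rfl

/-- The root vector `e^γ`, `|γ|² = 2`. -/
def gx (γ : ι → ℤ) (hγ : bl A γ γ = 2) : G1 hA ε :=
  mk (Finsupp.single γ 1) (single_mem_Vn γ _ 0 (isWeightedHomogeneous_one ℂ _) 1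
    (by have := kg_wt hA γ; omega))

theorem val_gx (γ : ι → ℤ) (hγ : bl A γ γ = 2) :
    (gx hA ε γ hγ).val = Finsupp.single γ 1 := rfl

theorem kg_neg2 (γ : ι → ℤ) (hγ : bl A γ γ = 2) : bl A (-γ) (-γ) = 2 := by
  unfold bl at hγ ⊢
  rw [← hγ]
  refine Finset.sum_congr rfl fun i _ => Finset.sum_congr rfl fun j _ => ?_
  rw [Pi.neg_apply, Pi.neg_apply]
  ring

/-- `e_γ`, `γ` a positive root. -/
def ge (γ : Rt A) : G1 hA ε := gx hA ε γ.1 (rt_pos hA γ).2

/-- `f_γ = ε(γ,-γ) e^{-γ}`, so that `(e_γ, f_γ) = 1`. -/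
def gf (γ : Rt A) : G1 hA ε :=
  ((ε.ε γ.1 (-γ.1) : ℤ) : ℂ) • gx hA ε (-γ.1) (kg_neg2 γ.1 (rt_pos hA γ).2)

/-- `h_i` -/
def ghi (i : ι) : G1 hA ε := gh hA ε (bb i)

/-- The dual basis of the `h_i`. -/
def ghd (i : ι) : G1 hA ε := gh hA ε (fun j => invA A i j)

/-- `ρ` -/
def grho : G1 hA ε := gh hA ε (rho A)

/-- The principal nilpotent element `F = ∑ f_i`. -/
def gF : G1 hA ε := ∑ i, gf hA ε (sr hA i)

/-- `E = ∑ 2 (∑_j A⁻¹_ij) e_i`. -/
def gE : G1 hA ε := ∑ i, (2 * rho A i) • ge hA ε (sr hA i)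

/-- The invariant form `(x, y) = x_(1) y`. -/
def frm : G1 hA ε →ₗ[ℂ] G1 hA ε →ₗ[ℂ] ℂ :=
  LinearMap.mk₂ ℂ (fun x y => top0 (mode ε x.val 1 y.val))
    (fun x y z => by rw [val_add, mode_add hA (le_refl 1), LinearMap.add_apply, map_add])
    (fun c x y => by rw [val_smul, mode_smul hA (le_refl 1), LinearMap.smul_apply, map_smul])
    (fun x y z => by rw [val_add, map_add, map_add])
    (fun c x y => by rw [val_smul, map_smul, map_smul])

theorem frm_apply (x y : G1 hA ε) : frm hA ε x y = top0 (mode ε x.val 1 y.val) := rfl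

end G1

end

end WPE
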