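import Pool.Agent.WPE.KGE

/-! WPE, block KG: bundles of facts (statements of the rows KG1 - KG9). -/

set_option linter.unusedSectionVars false

namespace WPE

open WPQ MvPolynomial AF

noncomputable section

variable {ι : Type} [Fintype ι] [DecidableEq ι] {A : Matrix ι ι ℤ}

/-- Brackets and form of Cartan elements and root vectors. -/
structure FactsK1 (hA : IsADE A) (ε : Cocycle A 1) : Prop where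
  gh_gh : ∀ ν μ : ι → ℂ, ⁅G1.gh hA ε ν, G1.gh hA ε μ⁆ = 0
  gh_gx : ∀ (ν : ι → ℂ) (γ : ι → ℤ) (hγ : bl A γ γ = 2),
    ⁅G1.gh hA ε ν, G1.gx hA ε γ hγ⁆ = form A 1 ν (toC γ) • G1.gx hA ε γ hγ
  gx_nonneg : ∀ (γ δ : ι → ℤ) (hγ : bl A γ γ = 2) (hδ : bl A δ δ = 2), 0 ≤ bl A γ δ →
    ⁅G1.gx hA ε γ hγ, G1.gx hA ε δ hδ⁆ = 0
  gx_neg_one : ∀ (γ δ : ι → ℤ) (hγ : bl A γ γ = 2) (hδ : bl A δ δ = 2)
    (hs : bl A (γ + δ) (γ + δ) = 2),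
    ⁅G1.gx hA ε γ hγ, G1.gx hA ε δ hδ⁆ = ((ε.ε γ δ : ℤ) : ℂ) • G1.gx hA ε (γ + δ) hs
  gx_neg : ∀ (γ : ι → ℤ) (hγ : bl A γ γ = 2) (hγ' : bl A (-γ) (-γ) = 2),
    ⁅G1.gx hA ε γ hγ, G1.gx hA ε (-γ) hγ'⁆ = ((ε.ε γ (-γ) : ℤ) : ℂ) • G1.gh hA ε (toC γ)
  frm_gh_gh : ∀ ν μ : ι → ℂ, G1.frm hA ε (G1.gh hA ε ν) (G1.gh hA ε μ) = form A 1 ν μ
  frm_gh_gx : ∀ (ν : ι → ℂ) (γ : ι → ℤ) (hγ : bl A γ γ = 2),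
    G1.frm hA ε (G1.gh hA ε ν) (G1.gx hA ε γ hγ) = 0
  frm_gx_gx : ∀ (γ δ : ι → ℤ) (hγ : bl A γ γ = 2) (hδ : bl A δ δ = 2),
    G1.frm hA ε (G1.gx hA ε γ hγ) (G1.gx hA ε δ hδ) =
      if δ = -γ then ((ε.ε γ δ : ℤ) : ℂ) else 0

/-- The form is symmetric and invariant. -/
structure FactsK2 (hA : IsADE A) (ε : Cocycle A 1) : Prop where
  symm : ∀ x y, G1.frm hA ε x y = G1.frm hA ε y x
  inv : ∀ x y z, G1.frm hA ε ⁅x, y⁆ z = G1.frm hA ε x ⁅y, z⁆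
  span : ∀ x : G1 hA ε, x ∈ Submodule.span ℂ (Set.range (G1.ghi hA ε) ∪
    {y | ∃ (γ : ι → ℤ) (hγ : bl A γ γ = 2), y = G1.gx hA ε γ hγ})

/-- Roots. -/
structure FactsK3 (A : Matrix ι ι ℤ) : Prop where
  sign : ∀ γ : ι → ℤ, bl A γ γ = 2 → γ ∈ posRoots A ∨ -γ ∈ posRoots A
  not_both : ∀ γ ∈ posRoots A, ∀ δ ∈ posRoots A, δ ≠ -γ
  ht_pos : ∀ γ ∈ posRoots A, 1 ≤ ht γ
  ht_one : ∀ γ ∈ posRoots A, ht γ = 1 → ∃ j, γ = rt j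
  step : ∀ γ ∈ posRoots A, (∃ j, γ = rt j) ∨
    ∃ j, γ - rt j ∈ posRoots A ∧ bl A (γ - rt j) (rt j) = -1
  sub : ∀ γ ∈ posRoots A, ∀ j, γ ≠ rt j → bl A (γ - rt j) (γ - rt j) = 2 → γ - rt j ∈ posRoots A
  bl_zero : ∀ γ ∈ posRoots A, ∀ j, γ ≠ rt j → -1 ≤ bl A γ (rt j) ∧ bl A γ (rt j) ≤ 1

/-- The inverse matrix. -/
structure FactsK4 (A : Matrix ι ι ℤ) : Prop where
  mul_inv : ∀ i j, ∑ k, (A i k : ℂ) * invA A k j = if i = j then 1 else 0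
  inv_mul : ∀ i j, ∑ k, invA A i k * (A k j : ℂ) = if i = j then 1 else 0
  inv_symm : ∀ i j, invA A i j = invA A j i
  form_dual : ∀ i j, form A 1 (bb i) (fun k => invA A j k) = if i = j then 1 else 0
  form_bb : ∀ i j, form A 1 (bb i) (bb j) = A i j
  form_bb_toC : ∀ i (γ : ι → ℤ), form A 1 (bb i) (toC γ) = pr A i γ
  form_rho : ∀ γ : ι → ℤ, form A 1 (rho A) (toC γ) = (ht γ : ℂ)
  form_bl : ∀ γ δ : ι → ℤ, form A 1 (toC γ) (toC δ) = (bl A γ δ : ℂ)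
  form_symm : ∀ ν μ : ι → ℂ, form A 1 ν μ = form A 1 μ ν

/-- The axioms of Lie data, except the last two. -/
structure FactsK5 (hA : IsADE A) (ε : Cocycle A 1) : Prop where
  ef : ∀ b c, G1.frm hA ε (G1.ge hA ε b) (G1.gf hA ε c) = if b = c then 1 else 0
  ee : ∀ b c, G1.frm hA ε (G1.ge hA ε b) (G1.ge hA ε c) = 0
  ff : ∀ b c, G1.frm hA ε (G1.gf hA ε b) (G1.gf hA ε c) = 0
  eh : ∀ b i, G1.frm hA ε (G1.ge hA ε b) (G1.ghi hA ε i) = 0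
  fh : ∀ b i, G1.frm hA ε (G1.gf hA ε b) (G1.ghi hA ε i) = 0
  hh' : ∀ i j, G1.frm hA ε (G1.ghi hA ε i) (G1.ghd hA ε j) = if i = j then 1 else 0
  h'_mem : ∀ i, G1.ghd hA ε i ∈ Submodule.span ℂ (Set.range (G1.ghi hA ε))
  gh_mem : ∀ ν, G1.gh hA ε ν ∈ Submodule.span ℂ (Set.range (G1.ghi hA ε))
  decomp : ∀ x : G1 hA ε, x = ∑ b, G1.frm hA ε x (G1.gf hA ε b) • G1.ge hA ε b +
    ∑ i, G1.frm hA ε x (G1.ghd hA ε i) • G1.ghi hA ε i +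
    ∑ b, G1.frm hA ε x (G1.ge hA ε b) • G1.gf hA ε b
  comm_h : ∀ i j, ⁅G1.ghi hA ε i, G1.ghi hA ε j⁆ = 0
  ht_pos : ∀ b : Rt A, 1 ≤ htR b
  rho_e : ∀ b, ⁅G1.grho hA ε, G1.ge hA ε b⁆ = (htR b : ℂ) • G1.ge hA ε b
  rho_f : ∀ b, ⁅G1.grho hA ε, G1.gf hA ε b⁆ = (-(htR b : ℂ)) • G1.gf hA ε b
  rho_F : ⁅G1.grho hA ε, G1.gF hA ε⁆ = (-1 : ℂ) • G1.gF hA ε
  gh_e : ∀ ν b, ⁅G1.gh hA ε ν, G1.ge hA ε b⁆ = form A 1 ν (toC b.1) • G1.ge hA ε b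
  gh_f : ∀ ν b, ⁅G1.gh hA ε ν, G1.gf hA ε b⁆ = (-form A 1 ν (toC b.1)) • G1.gf hA ε b
  e_f : ∀ b, ⁅G1.ge hA ε b, G1.gf hA ε b⁆ = G1.gh hA ε (toC b.1)
  e_f_simple : ∀ i j, i ≠ j → ⁅G1.ge hA ε (sr hA i), G1.gf hA ε (sr hA j)⁆ = 0

end

end WPE
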