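import Pool.Agent.WPE.KG8
import Pool.Agent.WPE.KG9
import Pool.Agent.WPE.LD

/-! WPE, block KG: the Lie data of `g = V_Q(1)` and of its Levi subalgebras of rank one; the modules
`V_Q(n)` and `N_ν = U(g) e^ν`. -/

set_option linter.unusedSectionVars false

namespace WPE

open WPQ MvPolynomial AF

noncomputable section

variable {ι : Type} [Fintype ι] [DecidableEq ι] {A : Matrix ι ι ℤ}

/-- The Lie data of `g = V_Q(1)`. -/
def ldG (hA : IsADE A) (ε : Cocycle A 1) : LD (G1 hA ε) (Rt A) ι where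
  form := G1.frm hA ε
  e := G1.ge hA ε
  f := G1.gf hA ε
  h := G1.ghi hA ε
  h' := G1.ghd hA ε
  rho := G1.grho hA ε
  F := G1.gF hA ε
  ht := htR
  symm := (kg_K2 hA ε).symm
  inv := (kg_K2 hA ε).inv
  ef := (kg_K5 hA ε).ef
  ee := (kg_K5 hA ε).ee
  ff := (kg_K5 hA ε).ff
  eh := (kg_K5 hA ε).eh
  fh := (kg_K5 hA ε).fh
  hh' := (kg_K5 hA ε).hh'
  h'_mem := (kg_K5 hA ε).h'_mem
  decomp := (kg_K5 hA ε).decomp
  comm_h := (kg_K5 hA ε).comm_h
  rho_mem := (kg_K5 hA ε).gh_mem (rho A)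
  ht_pos := (kg_K5 hA ε).ht_pos
  rho_e := (kg_K5 hA ε).rho_e
  rho_f := (kg_K5 hA ε).rho_f
  rho_F := (kg_K5 hA ε).rho_F
  surj := kg_surj hA ε
  gen_f := kg_gen hA ε

/-- The subspace `h ⊕ ℂ e_j ⊕ ℂ f_j`. -/
def lvS (hA : IsADE A) (ε : Cocycle A 1) (j : ι) : Submodule ℂ (G1 hA ε) :=
  (ldG hA ε).hs ⊔ Submodule.span ℂ {G1.ge hA ε (sr hA j), G1.gf hA ε (sr hA j)}

theorem lvS_mem (hA : IsADE A) (ε : Cocycle A 1) (j : ι) (x : G1 hA ε) :
    x ∈ lvS hA ε j ↔ ∃ (ν : ι → ℂ) (a b : ℂ), x = G1.gh hA ε ν + a • G1.ge hA ε (sr hA j) +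
      b • G1.gf hA ε (sr hA j) := by
  constructor
  · intro hx
    obtain ⟨y, hy, z, hz, rfl⟩ := Submodule.mem_sup.1 hx
    obtain ⟨a, b, hab⟩ := Submodule.mem_span_pair.1 hz
    have h1 : y ∈ LinearMap.range (G1.gh hA ε) := by
      refine (Submodule.span_le.2 ?_ : (ldG hA ε).hs ≤ _) hy
      rintro _ ⟨i, rfl⟩
      exact ⟨bb i, rfl⟩
    obtain ⟨ν, rfl⟩ := h1
    exact ⟨ν, a, b, by rw [← hab, add_assoc]⟩
  · rintro ⟨ν, a, b, rfl⟩
    rw [add_assoc]
    refine Submodule.add_mem_sup ((kg_K5 hA ε).gh_mem ν) ?_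
    exact Submodule.mem_span_pair.2 ⟨a, b, rfl⟩

/-- Brackets in `h ⊕ ℂ e_j ⊕ ℂ f_j`. -/
theorem lvS_lie (hA : IsADE A) (ε : Cocycle A 1) (j : ι) (ν μ : ι → ℂ) (a b c d : ℂ) :
    ⁅G1.gh hA ε ν + a • G1.ge hA ε (sr hA j) + b • G1.gf hA ε (sr hA j),
      G1.gh hA ε μ + c • G1.ge hA ε (sr hA j) + d • G1.gf hA ε (sr hA j)⁆ =
    G1.gh hA ε ((a * d - b * c) • bb j) +
      (form A 1 ν (bb j) * c - form A 1 μ (bb j) * a) • G1.ge hA ε (sr hA j) +
      (form A 1 μ (bb j) * b - form A 1 ν (bb j) * d) • G1.gf hA ε (sr hA j) := by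
  have h1 := kg_K1 hA ε
  have h5 := kg_K5 hA ε
  have hj : toC (sr hA j).1 = bb j := by
    funext i
    show ((rt j i : ℤ) : ℂ) = bb j i
    unfold rt bb
    by_cases hi : i = j
    · subst hi
      simp
    · simp [Pi.single_eq_of_ne hi]
  have e1 := fun ν => h5.gh_e ν (sr hA j)
  have f1 := fun ν => h5.gh_f ν (sr hA j)
  have ef := h5.e_f (sr hA j)
  rw [hj] at ef
  simp only [hj] at e1 f1
  have fe : ⁅G1.gf hA ε (sr hA j), G1.ge hA ε (sr hA j)⁆ = -G1.gh hA ε (bb j) := by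
    rw [← lie_skew, ef]
  have e2 : ∀ ν, ⁅G1.ge hA ε (sr hA j), G1.gh hA ε ν⁆ =
      -(form A 1 ν (bb j) • G1.ge hA ε (sr hA j)) := by
    intro ν
    rw [← lie_skew, e1]
  have f2 : ∀ ν, ⁅G1.gf hA ε (sr hA j), G1.gh hA ε ν⁆ =
      form A 1 ν (bb j) • G1.gf hA ε (sr hA j) := by
    intro ν
    rw [← lie_skew, f1, neg_smul, neg_neg]
  simp only [add_lie, lie_add, smul_lie, lie_smul, h1.gh_gh, e1, f1, e2, f2, ef, fe, lie_self,
    smul_zero, map_smul]
  module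

/-- The Levi subalgebra `l_j = h ⊕ ℂ e_j ⊕ ℂ f_j`. -/
def lv (hA : IsADE A) (ε : Cocycle A 1) (j : ι) : LieSubalgebra ℂ (G1 hA ε) where
  toSubmodule := lvS hA ε j
  lie_mem' := by
    intro x y hx hy
    obtain ⟨ν, a, b, rfl⟩ := (lvS_mem hA ε j x).1 hx
    obtain ⟨μ, c, d, rfl⟩ := (lvS_mem hA ε j y).1 hy
    exact (lvS_mem hA ε j _).2 ⟨_, _, _, lvS_lie hA ε j ν μ a b c d⟩

theorem lv_gh (hA : IsADE A) (ε : Cocycle A 1) (j : ι) (ν : ι → ℂ) :
    G1.gh hA ε ν ∈ lv hA ε j :=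
  (lvS_mem hA ε j _).2 ⟨ν, 0, 0, by rw [zero_smul, zero_smul, add_zero, add_zero]⟩

theorem lv_ge (hA : IsADE A) (ε : Cocycle A 1) (j : ι) :
    G1.ge hA ε (sr hA j) ∈ lv hA ε j :=
  (lvS_mem hA ε j _).2 ⟨0, 1, 0, by rw [map_zero, zero_smul, one_smul, add_zero, zero_add]⟩

theorem lv_gf (hA : IsADE A) (ε : Cocycle A 1) (j : ι) :
    G1.gf hA ε (sr hA j) ∈ lv hA ε j :=
  (lvS_mem hA ε j _).2 ⟨0, 0, 1, by rw [map_zero, zero_smul, one_smul, add_zero, zero_add]⟩

/-- The Cartan elements of `l_j`. -/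
def lvh (hA : IsADE A) (ε : Cocycle A 1) (j : ι) (ν : ι → ℂ) : lv hA ε j :=
  ⟨G1.gh hA ε ν, lv_gh hA ε j ν⟩

/-- `e_j ∈ l_j` -/
def lve (hA : IsADE A) (ε : Cocycle A 1) (j : ι) : lv hA ε j :=
  ⟨G1.ge hA ε (sr hA j), lv_ge hA ε j⟩

/-- `f_j ∈ l_j` -/
def lvf (hA : IsADE A) (ε : Cocycle A 1) (j : ι) : lv hA ε j :=
  ⟨G1.gf hA ε (sr hA j), lv_gf hA ε j⟩

theorem lv_htR (hA : IsADE A) (j : ι) : htR (sr hA j) = 1 := by
  unfold htR sr ht rt
  simp

theorem lv_pair (hA : IsADE A) (j : ι) : form A 1 (bb j) (bb j) = 2 := by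
  rw [(kg_K4 hA).form_bb, hA.diag]
  norm_num

theorem lv_span (hA : IsADE A) (ε : Cocycle A 1) (j : ι) (ν : ι → ℂ) :
    lvh hA ε j ν ∈ Submodule.span ℂ (Set.range fun i => lvh hA ε j (bb i)) := by
  have h : lvh hA ε j ν = ∑ i, ν i • lvh hA ε j (bb i) := by
    apply Subtype.ext
    rw [AddSubmonoidClass.coe_finsetSum]
    show G1.gh hA ε ν = ∑ i, ν i • G1.gh hA ε (bb i)
    rw [← Finset.sum_congr rfl fun i _ => map_smul (G1.gh hA ε) (ν i) (bb i), ← map_sum]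
    congr 1
    funext k
    rw [Finset.sum_apply, Finset.sum_eq_single k]
    · simp [bb]
    · intro i _ hi
      simp [bb, Pi.single_eq_of_ne (Ne.symm hi)]
    · intro hk
      exact absurd (Finset.mem_univ k) hk
  rw [h]
  exact Submodule.sum_mem _ fun i _ => Submodule.smul_mem _ _ (Submodule.subset_span ⟨i, rfl⟩)

/-- The Lie data of the Levi subalgebra `l_j`. -/
def ldLv (hA : IsADE A) (ε : Cocycle A 1) (j : ι) : LD (lv hA ε j) Unit ι where
  form := (G1.frm hA ε).compl₁₂ (lv hA ε j).toSubmodule.subtype (lv hA ε j).toSubmodule.subtype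
  e := fun _ => lve hA ε j
  f := fun _ => lvf hA ε j
  h := fun i => lvh hA ε j (bb i)
  h' := fun i => lvh hA ε j (fun k => invA A i k)
  rho := lvh hA ε j (rho A)
  F := lvf hA ε j
  ht := fun _ => 1
  symm := fun x y => (kg_K2 hA ε).symm x.1 y.1
  inv := fun x y z => (kg_K2 hA ε).inv x.1 y.1 z.1
  ef := fun b c => by
    have h := (kg_K5 hA ε).ef (sr hA j) (sr hA j)
    rw [if_pos rfl] at h
    rw [if_pos (Subsingleton.elim b c)]
    exact h
  ee := fun _ _ => (kg_K5 hA ε).ee (sr hA j) (sr hA j)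
  ff := fun _ _ => (kg_K5 hA ε).ff (sr hA j) (sr hA j)
  eh := fun _ i => (kg_K5 hA ε).eh (sr hA j) i
  fh := fun _ i => (kg_K5 hA ε).fh (sr hA j) i
  hh' := fun i k => (kg_K5 hA ε).hh' i k
  h'_mem := fun i => lv_span hA ε j _
  decomp := fun x => by
    obtain ⟨x, hx⟩ := x
    obtain ⟨ν, a, b, rfl⟩ := (lvS_mem hA ε j x).1 hx
    have h5 := kg_K5 hA ε
    have h1 := kg_K1 hA ε
    have hs := (kg_K2 hA ε).symm
    have he : ∀ ν, G1.frm hA ε (G1.gh hA ε ν) (G1.ge hA ε (sr hA j)) = 0 := fun ν =>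
      h1.frm_gh_gx ν _ _
    have hf : ∀ ν, G1.frm hA ε (G1.gh hA ε ν) (G1.gf hA ε (sr hA j)) = 0 := fun ν => by
      unfold G1.gf
      rw [map_smul, h1.frm_gh_gx, smul_zero]
    have hfe : G1.frm hA ε (G1.gf hA ε (sr hA j)) (G1.ge hA ε (sr hA j)) = 1 := by
      rw [hs, h5.ef, if_pos rfl]
    apply (lv hA ε j).toSubmodule.subtype_injective
    rw [map_add, map_add, map_sum, map_sum, map_sum]
    simp only [Finset.univ_unique, Finset.sum_singleton, LinearMap.compl₁₂_apply,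
      Submodule.subtype_apply, map_smul, lve, lvf, lvh]
    have e1 : G1.frm hA ε (G1.gh hA ε ν + a • G1.ge hA ε (sr hA j) + b • G1.gf hA ε (sr hA j))
        (G1.gf hA ε (sr hA j)) = a := by
      simp only [map_add, map_smul, LinearMap.add_apply, LinearMap.smul_apply, hf, h5.ef, h5.ff,
        if_true, smul_eq_mul]
      ring
    have e2 : G1.frm hA ε (G1.gh hA ε ν + a • G1.ge hA ε (sr hA j) + b • G1.gf hA ε (sr hA j))
        (G1.ge hA ε (sr hA j)) = b := by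
      simp only [map_add, map_smul, LinearMap.add_apply, LinearMap.smul_apply, he, hfe, h5.ee,
        smul_eq_mul]
      ring
    have e3 : ∀ i, G1.frm hA ε (G1.gh hA ε ν + a • G1.ge hA ε (sr hA j) +
        b • G1.gf hA ε (sr hA j)) (G1.gh hA ε fun k => invA A i k) =
        form A 1 ν (fun k => invA A i k) := by
      intro i
      have e4 : G1.frm hA ε (G1.ge hA ε (sr hA j)) (G1.gh hA ε fun k => invA A i k) = 0 := by
        rw [hs, he]
      have e5 : G1.frm hA ε (G1.gf hA ε (sr hA j)) (G1.gh hA ε fun k => invA A i k) = 0 := by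
        rw [hs, hf]
      simp only [map_add, map_smul, LinearMap.add_apply, LinearMap.smul_apply, e4, e5, h1.frm_gh_gh,
        smul_eq_mul]
      ring
    have e6 : ∑ i, form A 1 ν (fun k => invA A i k) • G1.gh hA ε (bb i) = G1.gh hA ε ν := by
      rw [← Finset.sum_congr rfl fun i _ => map_smul (G1.gh hA ε) _ (bb i), ← map_sum]
      congr 1
      funext k
      rw [Finset.sum_apply, Finset.sum_eq_single k]
      · have h7 : form A 1 ν (fun l => invA A k l) = ν k := by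
          have h8 : ν = ∑ i, ν i • bb i := by
            funext l
            rw [Finset.sum_apply, Finset.sum_eq_single l]
            · simp [bb]
            · intro i _ hi
              simp [bb, Pi.single_eq_of_ne (Ne.symm hi)]
            · intro hk
              exact absurd (Finset.mem_univ l) hk
          rw [h8, fl2_form_sum_left]
          rw [Finset.sum_eq_single k]
          · rw [fl2_form_smul_left, (kg_K4 hA).form_dual, if_pos rfl, mul_one, ← h8]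
          · intro i _ hi
            rw [fl2_form_smul_left, (kg_K4 hA).form_dual, if_neg hi, mul_zero]
          · intro hk
            exact absurd (Finset.mem_univ k) hk
        simp [bb, h7]
      · intro i _ hi
        simp [bb, Pi.single_eq_of_ne (Ne.symm hi)]
      · intro hk
        exact absurd (Finset.mem_univ k) hk
    show G1.gh hA ε ν + a • G1.ge hA ε (sr hA j) + b • G1.gf hA ε (sr hA j) =
      G1.frm hA ε (G1.gh hA ε ν + a • G1.ge hA ε (sr hA j) + b • G1.gf hA ε (sr hA j))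
        (G1.gf hA ε (sr hA j)) • G1.ge hA ε (sr hA j) +
      ∑ i, G1.frm hA ε (G1.gh hA ε ν + a • G1.ge hA ε (sr hA j) + b • G1.gf hA ε (sr hA j))
        (G1.gh hA ε fun k => invA A i k) • G1.gh hA ε (bb i) +
      G1.frm hA ε (G1.gh hA ε ν + a • G1.ge hA ε (sr hA j) + b • G1.gf hA ε (sr hA j))
        (G1.ge hA ε (sr hA j)) • G1.gf hA ε (sr hA j)
    rw [e1, e2, Finset.sum_congr rfl fun i _ => by rw [e3 i], e6]
    abel
  comm_h := fun i k => Subtype.ext ((kg_K5 hA ε).comm_h i k)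
  rho_mem := lv_span hA ε j _
  ht_pos := fun _ => le_refl 1
  rho_e := fun _ => Subtype.ext (by
    have h := (kg_K5 hA ε).rho_e (sr hA j)
    rw [lv_htR] at h
    exact h)
  rho_f := fun _ => Subtype.ext (by
    have h := (kg_K5 hA ε).rho_f (sr hA j)
    rw [lv_htR] at h
    exact h)
  rho_F := Subtype.ext (by
    have h := (kg_K5 hA ε).rho_f (sr hA j)
    rw [lv_htR, Nat.cast_one] at h
    exact h)
  surj := fun _ => by
    refine ⟨lvh hA ε j ((1 / 2 : ℂ) • bb j), fun _ => ?_, ?_⟩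
    · have h1 := kg_K1 hA ε
      show G1.frm hA ε (G1.gh hA ε ((1 / 2 : ℂ) • bb j)) (G1.gf hA ε (sr hA j)) = 0
      unfold G1.gf
      rw [map_smul, h1.frm_gh_gx, smul_zero]
    · apply Subtype.ext
      have h := lvS_lie hA ε j 0 ((1 / 2 : ℂ) • bb j) 0 1 0 0
      simp only [map_zero, zero_smul, one_smul, zero_add, add_zero, mul_zero, sub_zero] at h
      show ⁅G1.gf hA ε (sr hA j), G1.gh hA ε ((1 / 2 : ℂ) • bb j)⁆ = G1.gf hA ε (sr hA j)
      rw [h, fl2_form_smul_left, lv_pair hA]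
      norm_num
  gen_f := fun S h1 _ b => h1 b rfl

end

end WPE
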