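import Pool.Agent.WPE.KGL
import Pool.Agent.WPE.LDB

/-! WPE, block KG: the map `b₋ → b₋(l_j)`, the modules `V_Q(n)` and `N_ν = U(g) e^ν`. -/

set_option linter.unusedSectionVars false

namespace WPE

open WPQ MvPolynomial AF

noncomputable section

variable {ι : Type} [Fintype ι] [DecidableEq ι] {A : Matrix ι ι ℤ}

theorem kgm_bil {V W : Type} [AddCommGroup V] [Module ℂ V] [AddCommGroup W] [Module ℂ W]
    (D : V →ₗ[ℂ] V →ₗ[ℂ] W) {S T : Set V} (h : ∀ a ∈ S, ∀ b ∈ T, D a b = 0) {x y : V}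
    (hx : x ∈ Submodule.span ℂ S) (hy : y ∈ Submodule.span ℂ T) : D x y = 0 := by
  induction hx using Submodule.span_induction with
  | mem a ha =>
    induction hy using Submodule.span_induction with
    | mem b hb => exact h a ha b hb
    | zero => rw [map_zero]
    | add y z _ _ hy hz => rw [map_add, hy, hz, add_zero]
    | smul c y _ hy => rw [map_smul, hy, smul_zero]
  | zero => rw [map_zero, LinearMap.zero_apply]
  | add y z _ _ hy hz => rw [map_add, LinearMap.add_apply, hy, hz, add_zero]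
  | smul c y _ hy => rw [map_smul, LinearMap.smul_apply, hy, smul_zero]

/-- `x ↦ π_h x + (x, e_j) f_j` -/
def qj (hA : IsADE A) (ε : Cocycle A 1) (j : ι) : G1 hA ε →ₗ[ℂ] G1 hA ε :=
  (ldG hA ε).Ph + ((G1.frm hA ε).flip (G1.ge hA ε (sr hA j))).smulRight (G1.gf hA ε (sr hA j))

theorem qj_apply (hA : IsADE A) (ε : Cocycle A 1) (j : ι) (x : G1 hA ε) :
    qj hA ε j x = (ldG hA ε).Ph x +
      G1.frm hA ε x (G1.ge hA ε (sr hA j)) • G1.gf hA ε (sr hA j) := rfl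

theorem kgm_Ph (hA : IsADE A) (ε : Cocycle A 1) (x : G1 hA ε) :
    (ldG hA ε).Ph x = ∑ i, G1.frm hA ε x (G1.ghd hA ε i) • G1.ghi hA ε i := by
  unfold LD.Ph
  rw [LinearMap.sum_apply]
  rfl

theorem qj_h (hA : IsADE A) (ε : Cocycle A 1) (j i : ι) :
    qj hA ε j (G1.ghi hA ε i) = G1.ghi hA ε i := by
  have h5 := kg_K5 hA ε
  rw [qj_apply, kgm_Ph, (kg_K2 hA ε).symm (G1.ghi hA ε i) (G1.ge hA ε (sr hA j)), h5.eh,
    zero_smul, add_zero]
  simp only [h5.hh', ite_smul, one_smul, zero_smul]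
  rw [Finset.sum_ite_eq Finset.univ i, if_pos (Finset.mem_univ _)]

theorem qj_f (hA : IsADE A) (ε : Cocycle A 1) (j : ι) (b : Rt A) :
    qj hA ε j (G1.gf hA ε b) = if b = sr hA j then G1.gf hA ε (sr hA j) else 0 := by
  have h5 := kg_K5 hA ε
  have h0 : ∀ i, G1.frm hA ε (G1.gf hA ε b) (G1.ghd hA ε i) = 0 := by
    intro i
    have h1 := h5.h'_mem i
    have h2 : Submodule.span ℂ (Set.range (G1.ghi hA ε)) ≤
        LinearMap.ker (G1.frm hA ε (G1.gf hA ε b)) := by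
      rw [Submodule.span_le]
      rintro _ ⟨k, rfl⟩
      exact LinearMap.mem_ker.2 (h5.fh b k)
    exact LinearMap.mem_ker.1 (h2 h1)
  rw [qj_apply, kgm_Ph]
  simp only [h0, zero_smul, Finset.sum_const_zero, zero_add]
  rw [(kg_K2 hA ε).symm, h5.ef]
  by_cases h : b = sr hA j
  · rw [if_pos h, if_pos h.symm, one_smul]
  · rw [if_neg h, if_neg (fun h' => h h'.symm), zero_smul]

/-- `q_j` is a homomorphism on `b₋`. -/
theorem qj_lie (hA : IsADE A) (ε : Cocycle A 1) (j : ι) (x y : G1 hA ε)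
    (hx : x ∈ (ldG hA ε).bm) (hy : y ∈ (ldG hA ε).bm) :
    qj hA ε j ⁅x, y⁆ = ⁅qj hA ε j x, qj hA ε j y⁆ := by
  have h5 := kg_K5 hA ε
  have hgen : (ldG hA ε).bm =
      Submodule.span ℂ (Set.range (G1.ghi hA ε) ∪ Set.range (G1.gf hA ε)) := by
    rw [Submodule.span_union]
    rfl
  let D : G1 hA ε →ₗ[ℂ] G1 hA ε →ₗ[ℂ] G1 hA ε :=
    LinearMap.mk₂ ℂ (fun x y => qj hA ε j ⁅x, y⁆ - ⁅qj hA ε j x, qj hA ε j y⁆)
      (fun x y z => by rw [add_lie, map_add, map_add, add_lie]; abel)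
      (fun c x y => by rw [smul_lie, map_smul, map_smul, smul_lie, smul_sub])
      (fun x y z => by rw [lie_add, map_add, map_add, lie_add]; abel)
      (fun c x y => by rw [lie_smul, map_smul, map_smul, lie_smul, smul_sub])
  rw [hgen] at hx hy
  have key : D x y = 0 := by
    refine kgm_bil D ?_ hx hy
    have hf : ∀ (i : ι) (b : Rt A),
        qj hA ε j ⁅G1.ghi hA ε i, G1.gf hA ε b⁆ =
          ⁅qj hA ε j (G1.ghi hA ε i), qj hA ε j (G1.gf hA ε b)⁆ := by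
      intro i b
      have h6 := h5.gh_f (bb i) b
      change ⁅G1.ghi hA ε i, G1.gf hA ε b⁆ = _ at h6
      rw [h6, map_smul, qj_h, qj_f]
      by_cases h : b = sr hA j
      · rw [if_pos h, ← h, h6]
      · rw [if_neg h, smul_zero, lie_zero]
    rintro a (⟨i, rfl⟩ | ⟨b, rfl⟩) c (⟨k, rfl⟩ | ⟨d, rfl⟩)
    · show qj hA ε j ⁅G1.ghi hA ε i, G1.ghi hA ε k⁆ - ⁅_, _⁆ = 0
      rw [h5.comm_h, map_zero, qj_h, qj_h, h5.comm_h, sub_zero]
    · exact sub_eq_zero.2 (hf i d)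
    · show qj hA ε j ⁅G1.gf hA ε b, G1.ghi hA ε k⁆ - ⁅_, _⁆ = 0
      rw [← lie_skew, map_neg, hf k b, ← lie_skew (qj hA ε j (G1.gf hA ε b)), sub_self]
    · show qj hA ε j ⁅G1.gf hA ε b, G1.gf hA ε d⁆ -
        ⁅qj hA ε j (G1.gf hA ε b), qj hA ε j (G1.gf hA ε d)⁆ = 0
      have hz : ⁅qj hA ε j (G1.gf hA ε b), qj hA ε j (G1.gf hA ε d)⁆ = 0 := by
        rw [qj_f, qj_f]
        split_ifs
        · rw [lie_self]
        · rw [lie_zero]
        · rw [zero_lie]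
        · rw [zero_lie]
      have hr := (ldG hA ε).rho_lie _ _ _ _ (h5.rho_f b) (h5.rho_f d)
      have hb := h5.ht_pos b
      have hd := h5.ht_pos d
      have h7 : G1.frm hA ε ⁅G1.gf hA ε b, G1.gf hA ε d⁆ (G1.ge hA ε (sr hA j)) = 0 := by
        refine (ldG hA ε).form_eq_zero_of _ _ _ _ hr (h5.rho_e (sr hA j)) ?_
        rw [lv_htR]
        intro h
        have h8 : ((htR b + htR d : ℕ) : ℂ) = ((1 : ℕ) : ℂ) := by
          push_cast
          linear_combination -h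
        rw [Nat.cast_inj] at h8
        omega
      have h9 : (ldG hA ε).Ph ⁅G1.gf hA ε b, G1.gf hA ε d⁆ = 0 := by
        rw [kgm_Ph]
        refine Finset.sum_eq_zero fun i _ => ?_
        have := ((ldG hA ε).mem_nm_iff _).1 ((ldG hA ε).f_f_mem b d)
        rw [show G1.frm hA ε ⁅G1.gf hA ε b, G1.gf hA ε d⁆ (G1.ghd hA ε i) = 0 from this.2 i,
          zero_smul]
      rw [hz, sub_zero, qj_apply, h7, h9, zero_smul, add_zero]
  exact sub_eq_zero.1 key

theorem qj_mem (hA : IsADE A) (ε : Cocycle A 1) (j : ι) (x : G1 hA ε) :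
    qj hA ε j x ∈ lv hA ε j := by
  have h1 : (ldG hA ε).Ph x ∈ (ldG hA ε).hs := by
    rw [kgm_Ph]
    exact Submodule.sum_mem _ fun i _ => Submodule.smul_mem _ _ ((ldG hA ε).h_mem_hs i)
  refine Submodule.add_mem_sup h1 ?_
  exact Submodule.smul_mem _ _ (Submodule.subset_span (Or.inr rfl))

theorem qj_bm (hA : IsADE A) (ε : Cocycle A 1) (j : ι) (x : G1 hA ε) :
    (⟨qj hA ε j x, qj_mem hA ε j x⟩ : lv hA ε j) ∈ (ldLv hA ε j).bm := by
  rw [LD.mem_bm_iff]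
  intro c
  show G1.frm hA ε (qj hA ε j x) (G1.gf hA ε (sr hA j)) = 0
  have h5 := kg_K5 hA ε
  rw [qj_apply, kgm_Ph, map_add, LinearMap.add_apply, map_smul, LinearMap.smul_apply, h5.ff,
    smul_zero, add_zero, map_sum, LinearMap.sum_apply]
  refine Finset.sum_eq_zero fun i _ => ?_
  rw [map_smul, LinearMap.smul_apply, (kg_K2 hA ε).symm (G1.ghi hA ε i), h5.fh, smul_zero]

/-- The homomorphism `b₋ → b₋(l_j)`: it kills `f_γ`, `γ ≠ α_j`. -/
def fbL (hA : IsADE A) (ε : Cocycle A 1) (j : ι) :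
    (ldG hA ε).bL →ₗ⁅ℂ⁆ (ldLv hA ε j).bL where
  toFun x := ⟨⟨qj hA ε j x.1, qj_mem hA ε j x.1⟩, qj_bm hA ε j x.1⟩
  map_add' x y := by
    apply Subtype.ext; apply Subtype.ext
    exact map_add (qj hA ε j) x.1 y.1
  map_smul' c x := by
    apply Subtype.ext; apply Subtype.ext
    exact map_smul (qj hA ε j) c x.1
  map_lie' := by
    intro x y
    apply Subtype.ext; apply Subtype.ext
    exact qj_lie hA ε j x.1 y.1 x.2 y.2

theorem fbL_val (hA : IsADE A) (ε : Cocycle A 1) (j : ι) (x : (ldG hA ε).bL) :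
    ((fbL hA ε j x : lv hA ε j) : G1 hA ε) = qj hA ε j (x : G1 hA ε) := rfl

end

end WPE
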