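import Pool.Agent.WPE.KGL

/-! WPE, block KG: the modules `V_Q(n)` and `N_ν = U(g) e^ν` of `g = V_Q(1)`. -/

set_option linter.unusedSectionVars false

namespace WPE

open WPQ MvPolynomial AF

noncomputable section

variable {ι : Type} [Fintype ι] [DecidableEq ι] {A : Matrix ι ι ℤ}

/-- `V_Q(n)` as a module over `g = V_Q(1)`: `x v = x_(0) v`. -/
def VM (_hA : IsADE A) (_ε : Cocycle A 1) (n : ℤ) : Type := ↥(Vn A 1 n)

namespace VM

variable (hA : IsADE A) (ε : Cocycle A 1) (n : ℤ)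

instance : AddCommGroup (VM hA ε n) := inferInstanceAs (AddCommGroup ↥(Vn A 1 n))

instance : Module ℂ (VM hA ε n) := inferInstanceAs (Module ℂ ↥(Vn A 1 n))

variable {hA ε n}

/-- The underlying vector of `V_Q`. -/
def val (x : VM hA ε n) : VL ι := Subtype.val (p := fun v => v ∈ Vn A 1 n) x

theorem val_mem (x : VM hA ε n) : x.val ∈ Vn A 1 n :=
  Subtype.property (p := fun v => v ∈ Vn A 1 n) x

/-- An element of `V_Q(n)`. -/
def mk (v : VL ι) (hv : v ∈ Vn A 1 n) : VM hA ε n := (⟨v, hv⟩ : ↥(Vn A 1 n))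

theorem val_mk (v : VL ι) (hv : v ∈ Vn A 1 n) : (mk v hv : VM hA ε n).val = v := rfl

theorem ext {x y : VM hA ε n} (h : x.val = y.val) : x = y := Subtype.ext h

theorem val_add (x y : VM hA ε n) : (x + y).val = x.val + y.val := rfl

theorem val_smul (c : ℂ) (x : VM hA ε n) : (c • x).val = c • x.val := rfl

theorem val_zero : (0 : VM hA ε n).val = 0 := rfl

variable (hA ε n) in
/-- The underlying vector, as a linear map. -/
def valL : VM hA ε n →ₗ[ℂ] VL ι where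
  toFun := val
  map_add' := val_add
  map_smul' := val_smul

theorem valL_apply (x : VM hA ε n) : valL hA ε n x = x.val := rfl

theorem lie_mem (x : G1 hA ε) (v : VM hA ε n) : mode ε x.val 0 v.val ∈ Vn A 1 n := by
  have h := mode_Vn hA (le_refl 1) ε 1 n 0 x.val v.val x.val_mem v.val_mem
  rw [show 1 + n - 0 - 1 = n by ring] at h
  exact h

instance : LieRingModule (G1 hA ε) (VM hA ε n) where
  bracket x v := mk (mode ε x.val 0 v.val) (lie_mem x v)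
  add_lie x y v := by
    apply ext
    show mode ε (x + y).val 0 v.val = mode ε x.val 0 v.val + mode ε y.val 0 v.val
    rw [G1.val_add, mode_add hA (le_refl 1), LinearMap.add_apply]
  lie_add x v w := by
    apply ext
    show mode ε x.val 0 (v + w).val = mode ε x.val 0 v.val + mode ε x.val 0 w.val
    rw [val_add, map_add]
  leibniz_lie x y v := by
    apply ext
    show mode ε x.val 0 (mode ε y.val 0 v.val) =
      mode ε ⁅x, y⁆.val 0 v.val + mode ε y.val 0 (mode ε x.val 0 v.val)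
    rw [G1.val_lie, kg_comm0 hA ε]
    abel

theorem val_lie (x : G1 hA ε) (v : VM hA ε n) : ⁅x, v⁆.val = mode ε x.val 0 v.val := rfl

instance : LieModule ℂ (G1 hA ε) (VM hA ε n) where
  smul_lie c x v := by
    apply ext
    rw [val_lie, val_smul, val_lie, G1.val_smul, mode_smul hA (le_refl 1), LinearMap.smul_apply]
  lie_smul c x v := by
    apply ext
    rw [val_lie, val_smul, val_smul, val_lie, map_smul]

end VM

/-- `e^ν ∈ V_Q(|ν|²/2)` -/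
def vtop (hA : IsADE A) (ε : Cocycle A 1) (ν : ι → ℤ) : VM hA ε (wtExp A 1 ν) :=
  VM.mk (Finsupp.single ν 1) (single_mem_Vn ν _ 0 (isWeightedHomogeneous_one ℂ _) _
    (by rw [Nat.cast_zero, zero_add]))

/-- `N_ν = U(g) e^ν` -/
def NM (hA : IsADE A) (ε : Cocycle A 1) (ν : ι → ℤ) :
    LieSubmodule ℂ (G1 hA ε) (VM hA ε (wtExp A 1 ν)) :=
  LieSubmodule.lieSpan ℂ (G1 hA ε) {vtop hA ε ν}

/-- `N_ν` as a type. -/
abbrev NN (hA : IsADE A) (ε : Cocycle A 1) (ν : ι → ℤ) : Type := ↥(NM hA ε ν)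

/-- The highest weight vector of `N_ν`. -/
def nv (hA : IsADE A) (ε : Cocycle A 1) (ν : ι → ℤ) : NN hA ε ν :=
  ⟨vtop hA ε ν, LieSubmodule.subset_lieSpan rfl⟩

/-- The underlying vector of `V_Q`. -/
def nval (hA : IsADE A) (ε : Cocycle A 1) (ν : ι → ℤ) : NN hA ε ν →ₗ[ℂ] VL ι :=
  VM.valL hA ε (wtExp A 1 ν) ∘ₗ (NM hA ε ν).toSubmodule.subtype

/-- The vectors of `N_ν` with charges in `ν - ℕ α_j`. -/
def NLj (hA : IsADE A) (ε : Cocycle A 1) (ν : ι → ℤ) (j : ι) : Submodule ℂ (NN hA ε ν) :=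
  (Finsupp.supported (Fock ι) ℂ {μ : ι → ℤ | ∃ i : ℕ, μ = ν - (i : ℤ) • rt j}).comap
    (nval hA ε ν)

/-- Facts on `N_ν`, `ν` dominant, first part. -/
structure FactsN1 (hA : IsADE A) (ε : Cocycle A 1) (ν : ι → ℤ) : Prop where
  fin : Module.Finite ℂ (NN hA ε ν)
  inj : Function.Injective (nval hA ε ν)
  nval_nv : nval hA ε ν (nv hA ε ν) = Finsupp.single ν 1
  nval_lie : ∀ (x : G1 hA ε) (v : NN hA ε ν), nval hA ε ν ⁅x, v⁆ = mode ε x.val 0 (nval hA ε ν v)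
  nval_mem : ∀ v, nval hA ε ν v ∈ Vn A 1 (wtExp A 1 ν)
  nv_ne : nv hA ε ν ≠ 0
  hw : LD.HW (ldG hA ε) (NN hA ε ν) (nv hA ε ν) (fun i => (pr A i ν : ℂ))
  comp : ∀ (v : NN hA ε ν) (μ : ι → ℤ), ∃ w : NN hA ε ν,
    nval hA ε ν w = Finsupp.single μ (nval hA ε ν v μ)
  shift : ∀ (γ : ι → ℤ) (hγ : bl A γ γ = 2) (v : NN hA ε ν) (μ : ι → ℤ),
    nval hA ε ν ⁅G1.gx hA ε γ hγ, v⁆ μ ≠ 0 → nval hA ε ν v (μ - γ) ≠ 0
  gh_ : ∀ (κ : ι → ℂ) (v : NN hA ε ν) (μ : ι → ℤ),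
    nval hA ε ν ⁅G1.gh hA ε κ, v⁆ μ = form A 1 κ (toC μ) • nval hA ε ν v μ

/-- Facts on `N_ν`, `ν` dominant, second part. -/
structure FactsN2 (hA : IsADE A) (ε : Cocycle A 1) (ν : ι → ℤ) : Prop where
  charge : ∀ (v : NN hA ε ν) (μ : ι → ℤ), nval hA ε ν v μ ≠ 0 → ∀ i, μ i ≤ ν i
  wsp_iff : ∀ (c : ℤ) (v : NN hA ε ν), v ∈ (ldG hA ε).wsp (NN hA ε ν) c ↔
    ∀ μ : ι → ℤ, nval hA ε ν v μ ≠ 0 → ht μ = c
  nv_mem : nv hA ε ν ∈ (ldG hA ε).wsp (NN hA ε ν) (ht ν)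
  gr : (ldG hA ε).Gr (NN hA ε ν) (ht ν)
  top : ∀ x : NN hA ε ν, (∀ μ : ι → ℤ, μ ≠ ν → nval hA ε ν x μ = 0) → ∃ c : ℂ, x = c • nv hA ε ν
  bdd : ∃ B : ℤ, ∀ c < B, (ldG hA ε).wsp (NN hA ε ν) c = ⊥
  Fsurj : ∀ c : ℤ, c < 0 → ∀ x ∈ (ldG hA ε).wsp (NN hA ε ν) c,
    ∃ y ∈ (ldG hA ε).wsp (NN hA ε ν) (c + 1), ⁅(ldG hA ε).F, y⁆ = x

/-- Facts on the functional `N_ν → N_ν / n₋ N_ν = ℂ`. -/
structure FactsNl (hA : IsADE A) (ε : Cocycle A 1) (ν : ι → ℤ) (l : NN hA ε ν →ₗ[ℂ] ℂ) :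
    Prop where
  nv_ : l (nv hA ε ν) = 1
  f_ : ∀ b v, l ⁅(ldG hA ε).f b, v⁆ = 0
  h_ : ∀ i v, l ⁅(ldG hA ε).h i, v⁆ = (pr A i ν : ℂ) * l v
  wsp_ : ∀ c : ℤ, c ≠ ht ν → ∀ v ∈ (ldG hA ε).wsp (NN hA ε ν) c, l v = 0
  ker_ : ∀ v, l v = 0 → v ∈ Submodule.span ℂ {w | ∃ b u, w = ⁅(ldG hA ε).f b, u⁆}

end

end WPE
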