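import Pool.Agent.WPE.KID
import Pool.Agent.WPE.KOD

namespace WPE

open scoped TensorProduct

variable {B : Type} [LieRing B] [LieAlgebra ℂ B] {κ : B →ₗ[ℂ] B →ₗ[ℂ] ℂ}
  {Y : Type} [AddCommGroup Y] [Module ℂ Y] [LieRingModule B Y] [LieModule ℂ B Y]
  {N : Type} [AddCommGroup N] [Module ℂ N] {R : LRep B N} {β ζ ν : Type}
  (I : KIn κ Y R β ζ ν)

namespace KIr1

theorem J_expand (m : ℤ) (v : B) (x : I.Cx) :
    I.J m v x = (I.b.repr v).sum fun c r => r • I.J m (I.b c) x := by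
  have h : ((cmod κ Y (TMod.ofRep R)).J m (Finsupp.linearCombination ℂ I.b (I.b.repr v))) x =
      (I.b.repr v).sum fun c r => r • I.J m (I.b c) x := by
    rw [Finsupp.linearCombination_apply, Finsupp.sum, Finsupp.sum, map_sum,
      LinearMap.sum_apply]
    refine Finset.sum_congr rfl fun c _ => ?_
    rw [map_smul, LinearMap.smul_apply]
    rfl
  rw [I.b.linearCombination_repr] at h
  exact h

theorem Jl_symm (k : ℕ) (c : β ⊕ ζ) :
    I.Jl (KIn.lt.symm (k, c)) = I.J (-(k : ℤ) - 1) (I.b c) := by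
  unfold KIn.Jl
  rw [Equiv.apply_symm_apply]

theorem comm_l (a a' : (ℕ × β) ⊕ (ℕ × ζ)) (x : I.Cx) :
    I.Jl a (I.Jl a' x) = I.Jl a' (I.Jl a x) + (I.br a a').sum fun c r => r • I.Jl c x := by
  have hc := (cmod κ Y (TMod.ofRep R)).comm (-((KIn.lt a).1 : ℤ) - 1) (-((KIn.lt a').1 : ℤ) - 1)
    (I.b (KIn.lt a).2) (I.b (KIn.lt a').2) x
  have h0 : coc κ (-((KIn.lt a).1 : ℤ) - 1) (-((KIn.lt a').1 : ℤ) - 1)
    (I.b (KIn.lt a).2) (I.b (KIn.lt a').2) = 0 := by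
    unfold coc
    exact if_neg (by omega)
  rw [h0, zero_smul, add_zero] at hc
  have hs : (I.br a a').sum (fun c r => r • I.Jl c x) =
      I.J (-((KIn.lt a).1 : ℤ) - 1 + (-((KIn.lt a').1 : ℤ) - 1))
        ⁅I.b (KIn.lt a).2, I.b (KIn.lt a').2⁆ x := by
    unfold KIn.br
    rw [Finsupp.sum_mapDomain_index (h := fun c r => r • I.Jl c x)
      (fun c => zero_smul ℂ (I.Jl c x)) (fun c r r' => add_smul r r' (I.Jl c x)), J_expand]
    refine Finsupp.sum_congr fun c _ => ?_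
    rw [Jl_symm]
    congr 3
    push_cast
    ring
  rw [hs]
  have hc' : I.Jl a (I.Jl a' x) - I.Jl a' (I.Jl a x) =
      I.J (-((KIn.lt a).1 : ℤ) - 1 + (-((KIn.lt a').1 : ℤ) - 1))
        ⁅I.b (KIn.lt a).2, I.b (KIn.lt a').2⁆ x := hc
  rw [← hc']
  abel

theorem coe_sum (i : Fin 3) (f : (ℕ × β) ⊕ (ℕ × ζ) →₀ ℂ) (x : I.Cp i) :
    ((f.sum fun c r => r • I.Jr i c x : I.Cp i) : I.Cx) =
      f.sum fun c r => r • I.Jl c (x : I.Cx) := by
  rw [Finsupp.sum, Finsupp.sum, Submodule.coe_sum]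
  refine Finset.sum_congr rfl fun c _ => ?_
  rfl

end KIr1

theorem ki_fam (i : Fin 3) : IsLieFam (I.Jr i) I.br := by
  intro a a' x
  apply Subtype.ext
  rw [Submodule.coe_add, KIr1.coe_sum]
  exact KIr1.comm_l I a a' x

end WPE
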