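import Pool.Agent.WPE.KI1

namespace WPE

open scoped TensorProduct

variable {B : Type} [LieRing B] [LieAlgebra ℂ B] {κ : B →ₗ[ℂ] B →ₗ[ℂ] ℂ}
  {Y : Type} [AddCommGroup Y] [Module ℂ Y] [LieRingModule B Y] [LieModule ℂ B Y]
  {N : Type} [AddCommGroup N] [Module ℂ N] {R : LRep B N} {β ζ ν : Type}
  (I : KIn κ Y R β ζ ν)

namespace KIr2

theorem ps_expand (m : ℤ) (v : Y) (x : I.Cx) :
    I.ps m v x = (I.y.repr v).sum fun c r => r • I.ps m (I.y c) x := by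
  have h : ((cmod κ Y (TMod.ofRep R)).ψ m (Finsupp.linearCombination ℂ I.y (I.y.repr v))) x =
      (I.y.repr v).sum fun c r => r • I.ps m (I.y c) x := by
    rw [Finsupp.linearCombination_apply, Finsupp.sum, Finsupp.sum, map_sum,
      LinearMap.sum_apply]
    refine Finset.sum_congr rfl fun c _ => ?_
    rw [map_smul, LinearMap.smul_apply]
    rfl
  rw [I.y.linearCombination_repr] at h
  exact h

theorem comm_p (a : (ℕ × β) ⊕ (ℕ × ζ)) (t : ℕ × β) (x : I.Cx) :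
    I.Jl a (I.pl t x) = I.pl t (I.Jl a x) + (I.bp a t).sum fun c r => r • I.pl c x := by
  have hc := (cmod κ Y (TMod.ofRep R)).commψ (-((KIn.lt a).1 : ℤ) - 1) (-(t.1 : ℤ) - 1)
    (I.b (KIn.lt a).2) (I.y t.2) x
  have hs : (I.bp a t).sum (fun c r => r • I.pl c x) =
      I.ps (-((KIn.lt a).1 : ℤ) - 1 + (-(t.1 : ℤ) - 1)) ⁅I.b (KIn.lt a).2, I.y t.2⁆ x := by
    unfold KIn.bp
    rw [Finsupp.sum_mapDomain_index (h := fun c r => r • I.pl c x)
      (fun c => zero_smul ℂ (I.pl c x)) (fun c r r' => add_smul r r' (I.pl c x)), ps_expand]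
    refine Finsupp.sum_congr fun c _ => ?_
    unfold KIn.pl
    congr 3
    push_cast
    ring
  rw [hs]
  have hc' : I.Jl a (I.pl t x) - I.pl t (I.Jl a x) =
      I.ps (-((KIn.lt a).1 : ℤ) - 1 + (-(t.1 : ℤ) - 1)) ⁅I.b (KIn.lt a).2, I.y t.2⁆ x := hc
  rw [← hc']
  abel

theorem D_inl (t : ℕ × β) (x : I.Cx) :
    I.ps 0 I.F (I.Jl (Sum.inl t) x) = I.Jl (Sum.inl t) (I.ps 0 I.F x) + I.pl t x := by
  have hc := (cmod κ Y (TMod.ofRep R)).commψ (-(t.1 : ℤ) - 1) 0 (I.b (Sum.inl t.2)) I.F x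
  rw [I.xF, map_neg, LinearMap.neg_apply, add_zero] at hc
  have hc' : I.Jl (Sum.inl t) (I.ps 0 I.F x) - I.ps 0 I.F (I.Jl (Sum.inl t) x) =
      - I.pl t x := hc
  rw [sub_eq_iff_eq_add] at hc'
  rw [hc']
  abel

theorem D_inr (z : ℕ × ζ) (x : I.Cx) :
    I.ps 0 I.F (I.Jl (Sum.inr z) x) = I.Jl (Sum.inr z) (I.ps 0 I.F x) := by
  have hc := (cmod κ Y (TMod.ofRep R)).commψ (-(z.1 : ℤ) - 1) 0 (I.b (Sum.inr z.2)) I.F x
  rw [I.zF, map_zero, LinearMap.zero_apply] at hc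
  have hc' : I.Jl (Sum.inr z) (I.ps 0 I.F x) - I.ps 0 I.F (I.Jl (Sum.inr z) x) = 0 := hc
  exact (sub_eq_zero.1 hc').symm

theorem coe_sum0 (f : ℕ × β →₀ ℂ) (x : I.Cp 0) :
    ((f.sum fun c r => r • I.pr0 c x : I.Cp 1) : I.Cx) =
      f.sum fun c r => r • I.pl c (x : I.Cx) := by
  rw [Finsupp.sum, Finsupp.sum, Submodule.coe_sum]
  refine Finset.sum_congr rfl fun c _ => ?_
  rfl

theorem coe_sum1 (f : ℕ × β →₀ ℂ) (x : I.Cp 1) :
    ((f.sum fun c r => r • I.pr1 c x : I.Cp 2) : I.Cx) =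
      f.sum fun c r => r • I.pl c (x : I.Cx) := by
  rw [Finsupp.sum, Finsupp.sum, Submodule.coe_sum]
  refine Finset.sum_congr rfl fun c _ => ?_
  rfl

end KIr2

theorem ki_kd0 : KD (I.Jr 0) (I.Jr 1) I.pr0 I.Dr0 I.br I.bp := by
  refine ⟨ki_fam I 0, ki_fam I 1, ?_, ?_, ?_⟩
  · intro a t x
    apply Subtype.ext
    rw [Submodule.coe_add, KIr2.coe_sum0]
    exact KIr2.comm_p I a t x
  · intro t x
    apply Subtype.ext
    rw [Submodule.coe_add]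
    exact KIr2.D_inl I t x
  · intro z x
    apply Subtype.ext
    exact KIr2.D_inr I z x

theorem ki_kd1 : KD (I.Jr 1) (I.Jr 2) I.pr1 I.Dr1 I.br I.bp := by
  refine ⟨ki_fam I 1, ki_fam I 2, ?_, ?_, ?_⟩
  · intro a t x
    apply Subtype.ext
    rw [Submodule.coe_add, KIr2.coe_sum1]
    exact KIr2.comm_p I a t x
  · intro t x
    apply Subtype.ext
    rw [Submodule.coe_add]
    exact KIr2.D_inl I t x
  · intro z x
    apply Subtype.ext
    exact KIr2.D_inr I z x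

end WPE
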