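import Pool.Agent.WPE.KID

/-! [WPE-KI3] -/

set_option linter.unusedSectionVars false

namespace WPE

open scoped TensorProduct

variable {B : Type} [LieRing B] [LieAlgebra ℂ B] {κ : B →ₗ[ℂ] B →ₗ[ℂ] ℂ}
  {Y : Type} [AddCommGroup Y] [Module ℂ Y] [LieRingModule B Y] [LieModule ℂ B Y]
  {N : Type} [AddCommGroup N] [Module ℂ N] {R : LRep B N} {β ζ ν : Type}
  (I : KIn κ Y R β ζ ν)

theorem KIr3.anti (m n : ℤ) (u w : Y) (x : I.Cx) :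
    I.ps m u (I.ps n w x) = -I.ps n w (I.ps m u x) :=
  eq_neg_of_add_eq_zero_left ((cmod κ Y (TMod.ofRep R)).anti m n u w x)

/-- [KI3] -/
theorem ki_pp (s t : ℕ × β) (x : I.Cp 0) : I.pr1 s (I.pr0 t x) = -I.pr1 t (I.pr0 s x) :=
  Subtype.ext (KIr3.anti I _ _ _ _ _)

/-- [KI3] -/
theorem ki_D0n (i : ν) : I.Dr0 (I.nr i) = 0 :=
  Subtype.ext (Ind.psi_incl_nonneg κ (TMod.gt Y (TMod.ofRep R)) 0 (le_refl 0) I.F _)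

/-- [KI3] -/
theorem ki_D1p (t : ℕ × β) (x : I.Cp 0) : I.Dr1 (I.pr0 t x) = -I.pr1 t (I.Dr0 x) :=
  Subtype.ext (KIr3.anti I _ _ _ _ _)

/-- [KI3] -/
theorem ki_DD (x : I.Cp 0) : I.Dr1 (I.Dr0 x) = 0 := by
  apply Subtype.ext
  have h : I.ps 0 I.F (I.ps 0 I.F x.1) = -I.ps 0 I.F (I.ps 0 I.F x.1) := KIr3.anti I _ _ _ _ _
  have h2 : (2 : ℂ) • I.ps 0 I.F (I.ps 0 I.F x.1) = 0 := by
    rw [two_smul]
    nth_rewrite 1 [h]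
    exact neg_add_cancel _
  exact (smul_eq_zero.1 h2).resolve_left two_ne_zero

/-- [KI3] -/
theorem ki_QQ (x : I.Cp 0) : I.Qr1 (I.Qr0 x) = 0 :=
  Subtype.ext (I.Q0Q0 x.1 x.2)

/-- [KI3] -/
theorem ki_QD (x : I.Cp 0) : I.Qr1 (I.Dr0 x) + I.Dr1 (I.Qr0 x) = 0 :=
  Subtype.ext (I.Q0F x.1 x.2)

end WPE
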