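import Pool.Agent.WPE.KID
import Pool.Agent.WPE.KOD
import Pool.Agent.WPE.PBW2

namespace WPE

open scoped TensorProduct

variable {B : Type} [LieRing B] [LieAlgebra ℂ B] {κ : B →ₗ[ℂ] B →ₗ[ℂ] ℂ}
  {Y : Type} [AddCommGroup Y] [Module ℂ Y] [LieRingModule B Y] [LieModule ℂ B Y]
  {N : Type} [AddCommGroup N] [Module ℂ N] {R : LRep B N} {β ζ ν : Type}
  (I : KIn κ Y R β ζ ν)

namespace KIr4

theorem FS_mono {Λ ι V : Type} [AddCommGroup V] [Module ℂ V] (J : Λ → V →ₗ[ℂ] V) (x : ι → V)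
    {k k' : ℕ} (h : k ≤ k') : FS J x k ≤ FS J x k' := by
  refine iSup_mono fun i => Submodule.span_mono ?_
  rintro y ⟨l, hl, rfl⟩
  exact ⟨l, lt_of_lt_of_le hl h, rfl⟩

theorem mem_FS_of_span {Λ ι V : Type} [AddCommGroup V] [Module ℂ V] (J : Λ → V →ₗ[ℂ] V)
    (x : ι → V) (y : V) (hy : y ∈ Submodule.span ℂ {y | ∃ (l : List Λ) (i : ι), y = wd J l (x i)}) :
    ∃ k, y ∈ FS J x k := by
  induction hy using Submodule.span_induction with
  | mem y hy =>
    obtain ⟨l, i, rfl⟩ := hy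
    refine ⟨l.length + 1, ?_⟩
    exact Submodule.mem_iSup_of_mem i (Submodule.subset_span ⟨l, Nat.lt_succ_self _, rfl⟩)
  | zero => exact ⟨0, zero_mem _⟩
  | add y z _ _ hy hz =>
    obtain ⟨k, hk⟩ := hy
    obtain ⟨k', hk'⟩ := hz
    exact ⟨max k k', add_mem (FS_mono J x (le_max_left _ _) hk)
      (FS_mono J x (le_max_right _ _) hk')⟩
  | smul c y _ hy =>
    obtain ⟨k, hk⟩ := hy
    exact ⟨k, Submodule.smul_mem _ _ hk⟩

theorem word_eq (l : List ((ℕ × β) ⊕ (ℕ × ζ))) (v : KN Y N) :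
    Ind.word (κ := κ) (T := (TMod.gt Y (TMod.ofRep R)).toTMod) (fun i => I.b i)
      (l.map KIn.lt) v = wd I.Jl l (Ind.incl κ _ v) := by
  induction l with
  | nil => rfl
  | cons a l ih =>
    rw [List.map_cons, Ind.word_cons, ih]
    rfl

theorem wd_add {Λ V : Type} [AddCommGroup V] [Module ℂ V] (J : Λ → V →ₗ[ℂ] V) (l : List Λ)
    (x y : V) : wd J l (x + y) = wd J l x + wd J l y := by
  induction l with
  | nil => rfl
  | cons a l ih =>
    show J a (wd J l (x + y)) = J a (wd J l x) + J a (wd J l y)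
    rw [ih, map_add]

theorem wd_smul {Λ V : Type} [AddCommGroup V] [Module ℂ V] (J : Λ → V →ₗ[ℂ] V) (l : List Λ)
    (c : ℂ) (x : V) : wd J l (c • x) = c • wd J l x := by
  induction l with
  | nil => rfl
  | cons a l ih =>
    show J a (wd J l (c • x)) = c • J a (wd J l x)
    rw [ih, map_smul]

/-- `wd` as a linear map. -/
def wdL {Λ V : Type} [AddCommGroup V] [Module ℂ V] (J : Λ → V →ₗ[ℂ] V) (l : List Λ) :
    V →ₗ[ℂ] V where
  toFun := wd J l
  map_add' := wd_add J l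
  map_smul' := wd_smul J l

theorem cpr_wd (i : Fin 3) (l : List ((ℕ × β) ⊕ (ℕ × ζ))) (x : I.Cx) :
    cpr κ Y (TMod.ofRep R) i (wd I.Jl l x) = wd I.Jl l (cpr κ Y (TMod.ofRep R) i x) := by
  induction l with
  | nil => rfl
  | cons a l ih =>
    show cpr κ Y (TMod.ofRep R) i (I.Jl a (wd I.Jl l x)) =
      I.Jl a (wd I.Jl l (cpr κ Y (TMod.ofRep R) i x))
    rw [← ih]
    exact cpr_J i _ _ _

/-- every element of the complex is in the span of the words -/
theorem span_top (x : I.Cx) : x ∈ Submodule.span ℂ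
    {y : I.Cx | ∃ (l : List ((ℕ × β) ⊕ (ℕ × ζ))) (v : KN Y N),
      y = wd I.Jl l (Ind.incl κ _ v)} := by
  obtain ⟨inst, -⟩ := exists_wellFoundedLT ((ℕ × β) ⊕ (ℕ × ζ))
  have h := Ind.sorted_span (κ := κ) (T := (TMod.gt Y (TMod.ofRep R)).toTMod) I.b I.hκ
    (K := (ℕ × β) ⊕ (ℕ × ζ)) KIn.lt (x := fun v : KN Y N => v) (by
      rw [Set.range_id', Submodule.span_univ])
  have h1 : x ∈ Submodule.span ℂ (Set.range fun p : SL ((ℕ × β) ⊕ (ℕ × ζ)) × KN Y N =>
      Ind.word (κ := κ) (T := (TMod.gt Y (TMod.ofRep R)).toTMod) (fun i => I.b i)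
        (p.1.1.map KIn.lt) p.2) := by
    rw [h]; trivial
  refine Submodule.span_mono ?_ h1
  rintro _ ⟨p, rfl⟩
  exact ⟨p.1.1, p.2, word_eq I p.1.1 p.2⟩

theorem span_cpart (i : Fin 3) {ι : Type} (u : ι → I.Cx)
    (hu : ∀ v : KN Y N, Ind.incl κ (TMod.gt Y (TMod.ofRep R)).toTMod (KNpr Y N i v) ∈
      Submodule.span ℂ (Set.range u)) (x : I.Cx) (hx : x ∈ I.Cp i) :
    x ∈ Submodule.span ℂ {y : I.Cx | ∃ (l : List ((ℕ × β) ⊕ (ℕ × ζ))) (j : ι),
      y = wd I.Jl l (u j)} := by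
  have h1 := span_top I x
  rw [← mem_cpart_iff.1 hx]
  generalize x = x0 at h1
  induction h1 using Submodule.span_induction with
  | mem y hy =>
    obtain ⟨l, v, rfl⟩ := hy
    rw [cpr_wd, cpr_incl]
    have h2 := Submodule.mem_map_of_mem (f := wdL I.Jl l) (hu v)
    rw [Submodule.map_span] at h2
    refine Submodule.span_mono ?_ h2
    rintro _ ⟨_, ⟨j, rfl⟩, rfl⟩
    exact ⟨l, j, rfl⟩
  | zero => rw [map_zero]; exact zero_mem _
  | add y z _ _ hy hz => rw [map_add]; exact add_mem hy hz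
  | smul c y _ hy => rw [map_smul]; exact Submodule.smul_mem _ _ hy

theorem coe_wd (i : Fin 3) (l : List ((ℕ × β) ⊕ (ℕ × ζ))) (x : I.Cp i) :
    ((wd (I.Jr i) l x : I.Cp i) : I.Cx) = wd I.Jl l (x : I.Cx) := by
  induction l with
  | nil => rfl
  | cons a l ih =>
    show ((I.Jr i a (wd (I.Jr i) l x) : I.Cp i) : I.Cx) = I.Jl a (wd I.Jl l (x : I.Cx))
    rw [← ih]
    rfl

theorem span_sub (i : Fin 3) {ι : Type} (u : ι → I.Cp i)
    (hu : ∀ v : KN Y N, Ind.incl κ (TMod.gt Y (TMod.ofRep R)).toTMod (KNpr Y N i v) ∈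
      Submodule.span ℂ (Set.range fun j => ((u j : I.Cp i) : I.Cx))) (x : I.Cp i) :
    ∃ k, x ∈ FS (I.Jr i) u k := by
  refine mem_FS_of_span _ _ _ ?_
  have h1 := span_cpart I i (fun j => ((u j : I.Cp i) : I.Cx)) hu x x.2
  have h2 : (x : I.Cx) ∈ (Submodule.span ℂ {y : I.Cp i |
      ∃ (l : List ((ℕ × β) ⊕ (ℕ × ζ))) (j : ι), y = wd (I.Jr i) l (u j)}).map
        (Submodule.subtype (I.Cp i)) := by
    rw [Submodule.map_span]
    refine Submodule.span_mono ?_ h1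
    rintro _ ⟨l, j, rfl⟩
    exact ⟨wd (I.Jr i) l (u j), ⟨l, j, rfl⟩, coe_wd I i l (u j)⟩
  obtain ⟨y, hy, hxy⟩ := h2
  have h3 : y = x := Subtype.ext hxy
  rwa [← h3]

theorem pl_nn (t : ℕ × β) (i : ν) : I.pl t (I.nn i) =
    Ind.incl κ (TMod.gt Y (TMod.ofRep R)).toTMod
      (0, Finsupp.single t.1 (I.y t.2) ⊗ₜ[ℂ] I.n i, 0) := by
  have h := Ind.psi_incl_neg κ (TMod.gt Y (TMod.ofRep R)) t.1 (I.y t.2) (I.n i, 0, 0)
  refine h.trans ?_
  show Ind.incl κ _ (ghOm Y (Finsupp.single t.1 (I.y t.2)) (I.n i, 0, 0)) = _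
  rw [ghOm_apply]
  congr 1
  simp

end KIr4

/-- [KI4] -/
theorem ki_sp0 (x : I.Cp 0) : ∃ k, x ∈ FS (I.Jr 0) I.nr k := by
  refine KIr4.span_sub I 0 I.nr ?_ x
  intro v
  rw [KNpr_zero]
  have h1 : v.1 ∈ Submodule.span ℂ (Set.range I.n) := by
    rw [I.n.span_eq]; trivial
  generalize v.1 = w at h1
  induction h1 using Submodule.span_induction with
  | mem y hy =>
    obtain ⟨i, rfl⟩ := hy
    exact Submodule.subset_span ⟨i, rfl⟩
  | zero =>
    have : ((0 : N), (0 : Gh Y ⊗[ℂ] N), (0 : Gh Y ⊗[ℂ] (Gh Y ⊗[ℂ] N))) = 0 := rfl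
    rw [this, map_zero]
    exact zero_mem _
  | add y z _ _ hy hz =>
    have : ((y + z : N), (0 : Gh Y ⊗[ℂ] N), (0 : Gh Y ⊗[ℂ] (Gh Y ⊗[ℂ] N))) =
        (y, 0, 0) + (z, 0, 0) := by simp
    rw [this, map_add]
    exact add_mem hy hz
  | smul c y _ hy =>
    have : ((c • y : N), (0 : Gh Y ⊗[ℂ] N), (0 : Gh Y ⊗[ℂ] (Gh Y ⊗[ℂ] N))) =
        c • (y, 0, 0) := by simp
    rw [this, map_smul]
    exact Submodule.smul_mem _ _ hy

/-- [KI4] -/
theorem ki_sp1 (x : I.Cp 1) :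
    ∃ k, x ∈ FS (I.Jr 1) (fun i : (ℕ × β) × ν => I.pr0 i.1 (I.nr i.2)) k := by
  refine KIr4.span_sub I 1 (fun i : (ℕ × β) × ν => I.pr0 i.1 (I.nr i.2)) ?_ x
  intro v
  rw [KNpr_one]
  have hr : (fun j : (ℕ × β) × ν => (((I.pr0 j.1 (I.nr j.2)) : I.Cp 1) : I.Cx)) =
      fun j : (ℕ × β) × ν => Ind.incl κ (TMod.gt Y (TMod.ofRep R)).toTMod
        (0, Finsupp.single j.1.1 (I.y j.1.2) ⊗ₜ[ℂ] I.n j.2, 0) := by
    funext j
    exact KIr4.pl_nn I j.1 j.2
  rw [hr]
  have h0 : ((0 : N), (0 : Gh Y ⊗[ℂ] N), (0 : Gh Y ⊗[ℂ] (Gh Y ⊗[ℂ] N))) = 0 := rfl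
  have hadd : ∀ y z : Gh Y ⊗[ℂ] N, ((0 : N), y + z, (0 : Gh Y ⊗[ℂ] (Gh Y ⊗[ℂ] N))) =
      (0, y, 0) + (0, z, 0) := by intro y z; simp
  have hsmul : ∀ (c : ℂ) (y : Gh Y ⊗[ℂ] N),
      ((0 : N), c • y, (0 : Gh Y ⊗[ℂ] (Gh Y ⊗[ℂ] N))) = c • (0, y, 0) := by intro c y; simp
  generalize v.2.1 = w
  induction w using TensorProduct.induction_on with
  | zero =>
    rw [h0, map_zero]
    exact zero_mem _
  | add y z hy hz =>
    rw [hadd, map_add]
    exact add_mem hy hz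
  | tmul g w =>
    induction g using Finsupp.induction_linear with
    | zero =>
      rw [TensorProduct.zero_tmul, h0, map_zero]
      exact zero_mem _
    | add f g hf hg =>
      rw [TensorProduct.add_tmul, hadd, map_add]
      exact add_mem hf hg
    | single s u =>
      have h1 : u ∈ Submodule.span ℂ (Set.range I.y) := by
        rw [I.y.span_eq]; trivial
      induction h1 using Submodule.span_induction with
      | mem u hu =>
        obtain ⟨c, rfl⟩ := hu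
        have h2 : w ∈ Submodule.span ℂ (Set.range I.n) := by
          rw [I.n.span_eq]; trivial
        induction h2 using Submodule.span_induction with
        | mem w hw =>
          obtain ⟨i, rfl⟩ := hw
          exact Submodule.subset_span ⟨((s, c), i), rfl⟩
        | zero =>
          rw [TensorProduct.tmul_zero, h0, map_zero]
          exact zero_mem _
        | add y z _ _ hy hz =>
          rw [TensorProduct.tmul_add, hadd, map_add]
          exact add_mem hy hz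
        | smul r y _ hy =>
          rw [TensorProduct.tmul_smul, hsmul, map_smul]
          exact Submodule.smul_mem _ _ hy
      | zero =>
        rw [Finsupp.single_zero, TensorProduct.zero_tmul, h0, map_zero]
        exact zero_mem _
      | add y z _ _ hy hz =>
        rw [Finsupp.single_add, TensorProduct.add_tmul, hadd, map_add]
        exact add_mem hy hz
      | smul r y _ hy =>
        rw [← Finsupp.smul_single, ← TensorProduct.smul_tmul', hsmul, map_smul]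
        exact Submodule.smul_mem _ _ hy

end WPE
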