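import Pool.Agent.WPE.KO3

/-! WPE, block KO, row KO5: PBW in the form of the fields gr0, gr1. -/

set_option autoImplicit false

namespace WPE

open MvPolynomial (X pderiv)

namespace KO5

section

variable {Λ V : Type} [AddCommGroup V] [Module ℂ V]

theorem th_mono (J : Λ → V →ₗ[ℂ] V) (x : V) (m : Λ →₀ ℕ) :
    TH J x (MvPolynomial.monomial m 1) = wd J (Finsupp.toMultiset m).toList x := by
  unfold TH
  have h : (MvPolynomial.monomial m (1 : ℂ)) = MvPolynomial.basisMonomials Λ ℂ m := by
    rw [MvPolynomial.coe_basisMonomials]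
  rw [h, Module.Basis.constr_basis]

theorem card_of_hom {k : ℕ} {q : MvPolynomial Λ ℂ} (hq : q.IsHomogeneous k) {m : Λ →₀ ℕ}
    (hm : m ∈ q.support) : (Finsupp.toMultiset m).card = k := by
  have h := hq (MvPolynomial.mem_support_iff.1 hm)
  rw [Finsupp.card_toMultiset, ← h]
  simp [Finsupp.weight_apply, Finsupp.sum]

/-- induction on homogeneous polynomials -/
theorem hom_ind {k : ℕ} {p : MvPolynomial Λ ℂ → Prop} (h0 : p 0) (hadd : ∀ a b, p a → p b → p (a + b))
    (hsmul : ∀ (c : ℂ) a, p a → p (c • a))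
    (hm : ∀ m : Λ →₀ ℕ, (Finsupp.toMultiset m).card = k → p (MvPolynomial.monomial m 1))
    (q : MvPolynomial Λ ℂ) (hq : q.IsHomogeneous k) : p q := by
  classical
  rw [← MvPolynomial.support_sum_monomial_coeff q]
  refine Finset.sum_induction _ p hadd h0 fun m h => ?_
  have e : MvPolynomial.monomial m (MvPolynomial.coeff m q) =
      MvPolynomial.coeff m q • MvPolynomial.monomial m (1 : ℂ) := by
    rw [MvPolynomial.smul_monomial, smul_eq_mul, mul_one]
  rw [e]
  exact hsmul _ _ (hm m (card_of_hom hq h))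

end

section

variable {Λ ι V : Type} [AddCommGroup V] [Module ℂ V] [LinearOrder Λ]

/-- the sorted word of a monomial -/
noncomputable def st (m : Λ →₀ ℕ) : {l : List Λ // l.Pairwise (· ≤ ·)} :=
  ⟨(Finsupp.toMultiset m).sort (· ≤ ·), Multiset.pairwise_sort _ _⟩

theorem st_coe (m : Λ →₀ ℕ) : ((st m).1 : Multiset Λ) = Finsupp.toMultiset m :=
  Multiset.sort_eq _ _

theorem st_inj {m m' : Λ →₀ ℕ} (h : st m = st m') : m = m' := by
  have h1 : Finsupp.toMultiset m = Finsupp.toMultiset m' := by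
    rw [← st_coe, ← st_coe, h]
  rw [← Finsupp.toMultiset_toFinsupp m, h1, Finsupp.toMultiset_toFinsupp]

theorem st_surj (l : {l : List Λ // l.Pairwise (· ≤ ·)}) : ∃ m : Λ →₀ ℕ, st m = l := by
  obtain ⟨m, hm⟩ : ∃ m : Λ →₀ ℕ, Finsupp.toMultiset m = (l.1 : Multiset Λ) :=
    ⟨Multiset.toFinsupp (l.1 : Multiset Λ), Multiset.toFinsupp_toMultiset _⟩
  refine ⟨m, Subtype.ext ?_⟩
  have h1 := st_coe m
  rw [hm] at h1
  exact (Multiset.coe_eq_coe.1 h1).eq_of_pairwise' (st m).2 l.2

theorem st_len (m : Λ →₀ ℕ) : (st m).1.length = (Finsupp.toMultiset m).card := by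
  rw [← st_coe, Multiset.coe_card]

variable (ι) in
/-- the coefficients with respect to the sorted words -/
noncomputable def gg : (ι →₀ MvPolynomial Λ ℂ) →ₗ[ℂ] ({l : List Λ // l.Pairwise (· ≤ ·)} × ι →₀ ℂ) :=
  Finsupp.lsum ℂ fun i => (MvPolynomial.basisMonomials Λ ℂ).constr ℂ fun m => Finsupp.single (st m, i) 1

theorem gg_single (i : ι) (m : Λ →₀ ℕ) :
    gg ι (Finsupp.single i (MvPolynomial.monomial m 1)) = Finsupp.single (st m, i) (1 : ℂ) := by
  unfold gg
  have h : (MvPolynomial.monomial m (1 : ℂ)) = MvPolynomial.basisMonomials Λ ℂ m := by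
    rw [MvPolynomial.coe_basisMonomials]
  rw [Finsupp.lsum_single, h, Module.Basis.constr_basis]

theorem gg_coeff (q : ι →₀ MvPolynomial Λ ℂ) (m : Λ →₀ ℕ) (i : ι) :
    gg ι q (st m, i) = MvPolynomial.coeff m (q i) := by
  classical
  have h : (Finsupp.lapply (st m, i)) ∘ₗ (gg (Λ := Λ) ι) =
      (MvPolynomial.lcoeff ℂ m) ∘ₗ (Finsupp.lapply (R := ℂ) i) := by
    refine Finsupp.lhom_ext' fun j => (MvPolynomial.basisMonomials Λ ℂ).ext fun m' => ?_
    rw [MvPolynomial.coe_basisMonomials]
    simp only [LinearMap.comp_apply, Finsupp.lsingle_apply, Finsupp.lapply_apply]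
    rw [gg_single, Finsupp.single_apply, Finsupp.single_apply]
    by_cases hj : j = i
    · subst hj
      by_cases hm : m' = m
      · subst hm
        simp
      · rw [if_neg (fun h => hm (st_inj (congrArg Prod.fst h))), if_pos rfl]
        simp [MvPolynomial.coeff_monomial, hm]
    · rw [if_neg (fun h => hj (congrArg Prod.snd h)), if_neg hj, map_zero]
  exact LinearMap.congr_fun h q

end

end KO5

section words

variable {Λ ι V : Type} [AddCommGroup V] [Module ℂ V] (J : Λ → V →ₗ[ℂ] V)

variable {J} {br : Λ → Λ → (Λ →₀ ℂ)} (hJ : IsLieFam J br)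

include hJ

namespace KO5

variable [LinearOrder Λ]

/-- the words of length less than `k` are combinations of sorted words -/
theorem fx_le (x : ι → V) (i : ι) (k : ℕ) : Fx J (x i) k ≤ Submodule.span ℂ
    ((fun w : {l : List Λ // l.Pairwise (· ≤ ·)} × ι => wd J w.1.1 (x w.2)) '' {w | w.1.1.length < k}) := by
  induction k using Nat.strong_induction_on with
  | _ k ih =>
    refine Submodule.span_le.2 ?_
    rintro y ⟨l, hl, rfl⟩
    have hp : l.Perm ((l : Multiset Λ).sort (· ≤ ·)) := by
      rw [← Multiset.coe_eq_coe, Multiset.sort_eq]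
    have h1 := ko_perm hJ (x i) l _ hp
    have hsub : {w : {l : List Λ // l.Pairwise (· ≤ ·)} × ι | w.1.1.length < l.length} ⊆ {w | w.1.1.length < k} :=
      fun w (h : w.1.1.length < l.length) => h.trans hl
    have h2 := Submodule.span_mono (R := ℂ) (Set.image_mono hsub) (ih l.length hl h1)
    have h3 : wd J ((l : Multiset Λ).sort (· ≤ ·)) (x i) ∈ Submodule.span ℂ
        ((fun w : {l : List Λ // l.Pairwise (· ≤ ·)} × ι => wd J w.1.1 (x w.2)) '' {w | w.1.1.length < k}) := by
      refine Submodule.subset_span ⟨(⟨(l : Multiset Λ).sort (· ≤ ·), Multiset.pairwise_sort _ _⟩, i), ?_, rfl⟩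
      change ((l : Multiset Λ).sort (· ≤ ·)).length < k
      rw [← hp.length_eq]
      exact hl
    have e : wd J l (x i) = (wd J l (x i) - wd J ((l : Multiset Λ).sort (· ≤ ·)) (x i)) +
        wd J ((l : Multiset Λ).sort (· ≤ ·)) (x i) := by abel
    rw [e]
    exact Submodule.add_mem _ h2 h3

theorem gg_sub (x : ι → V) (k : ℕ) (q : ι →₀ MvPolynomial Λ ℂ) (hq : ∀ i, (q i).IsHomogeneous k) :
    Finsupp.linearCombination ℂ (fun w : {l : List Λ // l.Pairwise (· ≤ ·)} × ι => wd J w.1.1 (x w.2)) (gg ι q) -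
      TS J x q ∈ FS J x k := by
  classical
  have key : ∀ i, Finsupp.linearCombination ℂ (fun w : {l : List Λ // l.Pairwise (· ≤ ·)} × ι => wd J w.1.1 (x w.2))
      (gg ι (Finsupp.single i (q i))) - TS J x (Finsupp.single i (q i)) ∈ FS J x k := by
    intro i
    refine hom_ind (p := fun p => Finsupp.linearCombination ℂ
      (fun w : {l : List Λ // l.Pairwise (· ≤ ·)} × ι => wd J w.1.1 (x w.2))
      (gg ι (Finsupp.single i p)) - TS J x (Finsupp.single i p) ∈ FS J x k) ?_ ?_ ?_ ?_ (q i) (hq i)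
    · simp
    · intro a b ha hb
      have := Submodule.add_mem _ ha hb
      rw [Finsupp.single_add, map_add, map_add, map_add, add_sub_add_comm]
      exact this
    · intro c a ha
      have := Submodule.smul_mem _ c ha
      rw [← Finsupp.smul_single, map_smul, map_smul, map_smul, ← smul_sub]
      exact this
    · intro m hm
      have e : TS J x (Finsupp.single i (MvPolynomial.monomial m 1)) = TH J (x i) (MvPolynomial.monomial m 1) := by
        unfold TS
        rw [Finsupp.lsum_single]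
      rw [gg_single, Finsupp.linearCombination_single, one_smul, e, th_mono]
      have hp : (st m).1.Perm (Finsupp.toMultiset m).toList := by
        rw [← Multiset.coe_eq_coe, Multiset.coe_toList, st_coe]
      have h1 := ko_perm hJ (x i) _ _ hp
      rw [st_len, hm] at h1
      exact ko_Fx_FS J x i k h1
  have e : q = ∑ i ∈ q.support, Finsupp.single i (q i) := (Finsupp.sum_single q).symm
  have e2 : Finsupp.linearCombination ℂ (fun w : {l : List Λ // l.Pairwise (· ≤ ·)} × ι => wd J w.1.1 (x w.2)) (gg ι q) -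
      TS J x q = ∑ i ∈ q.support, (Finsupp.linearCombination ℂ
        (fun w : {l : List Λ // l.Pairwise (· ≤ ·)} × ι => wd J w.1.1 (x w.2))
        (gg ι (Finsupp.single i (q i))) - TS J x (Finsupp.single i (q i))) := by
    conv_lhs => rw [e]
    rw [map_sum, map_sum, map_sum, Finset.sum_sub_distrib]
  rw [e2]
  exact Submodule.sum_mem _ fun i _ => key i

end KO5

/-- PBW in the form of the fields `gr0`, `gr1`. -/
theorem ko_gr [LinearOrder Λ] (x : ι → V)
    (hli : LinearIndependent ℂ
      (fun w : {l : List Λ // l.Pairwise (· ≤ ·)} × ι => wd J w.1.1 (x w.2)))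
    (k : ℕ) (q : ι →₀ MvPolynomial Λ ℂ) (hq : ∀ i, (q i).IsHomogeneous k)
    (h : TS J x q ∈ FS J x k) : q = 0 := by
  have hS : FS J x k ≤ Submodule.span ℂ
      ((fun w : {l : List Λ // l.Pairwise (· ≤ ·)} × ι => wd J w.1.1 (x w.2)) '' {w | w.1.1.length < k}) :=
    iSup_le fun i => KO5.fx_le hJ x i k
  have h1 := KO5.gg_sub hJ x k q hq
  have h2 : Finsupp.linearCombination ℂ (fun w : {l : List Λ // l.Pairwise (· ≤ ·)} × ι => wd J w.1.1 (x w.2))
      (KO5.gg ι q) ∈ Submodule.span ℂ
      ((fun w : {l : List Λ // l.Pairwise (· ≤ ·)} × ι => wd J w.1.1 (x w.2)) '' {w | w.1.1.length < k}) := by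
    apply hS
    have := Submodule.add_mem _ h1 h
    rwa [sub_add_cancel] at this
  have h3 : Finsupp.linearCombination ℂ (fun w : {l : List Λ // l.Pairwise (· ≤ ·)} × ι => wd J w.1.1 (x w.2))
      (KO5.gg ι q) ∈ Submodule.span ℂ
      ((fun w : {l : List Λ // l.Pairwise (· ≤ ·)} × ι => wd J w.1.1 (x w.2)) '' {w | w.1.1.length = k}) := by
    rw [Finsupp.mem_span_image_iff_linearCombination]
    refine ⟨KO5.gg ι q, ?_, rfl⟩
    rw [Finsupp.mem_supported]
    rintro ⟨l, i⟩ hl
    obtain ⟨m, rfl⟩ := KO5.st_surj l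
    rw [Finset.mem_coe, Finsupp.mem_support_iff, KO5.gg_coeff] at hl
    change (KO5.st m).1.length = k
    rw [KO5.st_len]
    exact KO5.card_of_hom (hq i) (MvPolynomial.mem_support_iff.2 hl)
  have hdis : Disjoint {w : {l : List Λ // l.Pairwise (· ≤ ·)} × ι | w.1.1.length < k} {w | w.1.1.length = k} := by
    rw [Set.disjoint_left]
    intro w h4 h5
    exact absurd (h5 : w.1.1.length = k) (ne_of_lt h4)
  have h4 := (Submodule.disjoint_def.1 (hli.disjoint_span_image hdis)) _ h2 h3
  have h5 := (linearIndependent_iff.1 hli) _ h4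
  ext i m
  have h6 := KO5.gg_coeff q m i
  rw [h5, Finsupp.zero_apply] at h6
  rw [← h6]
  simp

end words

end WPE
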