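import Pool.Agent.WPE.KI1
import Pool.Agent.WPE.KO5
import Pool.Agent.WPE.PBW2

namespace WPE

open scoped TensorProduct

variable {B : Type} [LieRing B] [LieAlgebra ℂ B] {κ : B →ₗ[ℂ] B →ₗ[ℂ] ℂ}
  {Y : Type} [AddCommGroup Y] [Module ℂ Y] [LieRingModule B Y] [LieModule ℂ B Y]
  {N : Type} [AddCommGroup N] [Module ℂ N] {R : LRep B N} {β ζ ν : Type}
  (I : KIn κ Y R β ζ ν)

namespace KIr5

theorem word_eq (l : List ((ℕ × β) ⊕ (ℕ × ζ))) (v : KN Y N) :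
    Ind.word (κ := κ) (T := (TMod.gt Y (TMod.ofRep R)).toTMod) (fun i => I.b i)
      (l.map KIn.lt) v = wd I.Jl l (Ind.incl κ _ v) := by
  induction l with
  | nil => rfl
  | cons a l ih =>
    rw [List.map_cons, Ind.word_cons, ih]
    rfl

theorem coe_wd (i : Fin 3) (l : List ((ℕ × β) ⊕ (ℕ × ζ))) (x : I.Cp i) :
    ((wd (I.Jr i) l x : I.Cp i) : I.Cx) = wd I.Jl l (x : I.Cx) := by
  induction l with
  | nil => rfl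
  | cons a l ih =>
    show ((I.Jr i a (wd (I.Jr i) l x) : I.Cp i) : I.Cx) = I.Jl a (wd I.Jl l (x : I.Cx))
    rw [← ih]
    rfl

theorem pl_nn (t : ℕ × β) (i : ν) : I.pl t (I.nn i) =
    Ind.incl κ (TMod.gt Y (TMod.ofRep R)).toTMod
      (0, Finsupp.single t.1 (I.y t.2) ⊗ₜ[ℂ] I.n i, 0) := by
  have h := Ind.psi_incl_neg κ (TMod.gt Y (TMod.ofRep R)) t.1 (I.y t.2) (I.n i, 0, 0)
  refine h.trans ?_
  show Ind.incl κ _ (ghOm Y (Finsupp.single t.1 (I.y t.2)) (I.n i, 0, 0)) = _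
  rw [ghOm_apply]
  congr 1
  simp

theorem indep (i : Fin 3) {ι : Type} (u : ι → I.Cp i) (v : ι → KN Y N)
    (hv : LinearIndependent ℂ v)
    (huv : ∀ j, ((u j : I.Cp i) : I.Cx) = Ind.incl κ (TMod.gt Y (TMod.ofRep R)).toTMod (v j))
    [LinearOrder ((ℕ × β) ⊕ (ℕ × ζ))] :
    LinearIndependent ℂ
      (fun w : {l : List ((ℕ × β) ⊕ (ℕ × ζ)) // l.Pairwise (· ≤ ·)} × ι =>
        wd (I.Jr i) w.1.1 (u w.2)) := by
  have h := Ind.sorted_linearIndependent (κ := κ) (T := (TMod.gt Y (TMod.ofRep R)).toTMod) I.b I.hκ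
    (K := (ℕ × β) ⊕ (ℕ × ζ)) KIn.lt hv
  refine LinearIndependent.of_comp (Submodule.subtype (I.Cp i)) ?_
  have e : (⇑(Submodule.subtype (I.Cp i)) ∘
      fun w : {l : List ((ℕ × β) ⊕ (ℕ × ζ)) // l.Pairwise (· ≤ ·)} × ι =>
        wd (I.Jr i) w.1.1 (u w.2)) =
      fun p : SL ((ℕ × β) ⊕ (ℕ × ζ)) × ι =>
      Ind.word (κ := κ) (T := (TMod.gt Y (TMod.ofRep R)).toTMod) (fun i => I.b i)
        (p.1.1.map KIn.lt) (v p.2) := by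
    funext w
    show ((wd (I.Jr i) w.1.1 (u w.2) : I.Cp i) : I.Cx) = _
    rw [coe_wd, huv, word_eq]
  rw [e]
  exact h

theorem gr (i : Fin 3) {ι : Type} (u : ι → I.Cp i) (v : ι → KN Y N)
    (hv : LinearIndependent ℂ v)
    (huv : ∀ j, ((u j : I.Cp i) : I.Cx) = Ind.incl κ (TMod.gt Y (TMod.ofRep R)).toTMod (v j))
    (k : ℕ) (q : ι →₀ MvPolynomial ((ℕ × β) ⊕ (ℕ × ζ)) ℂ)
    (hq : ∀ i, (q i).IsHomogeneous k) (h : TS (I.Jr i) u q ∈ FS (I.Jr i) u k) : q = 0 := by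
  obtain ⟨inst, -⟩ := exists_wellFoundedLT ((ℕ × β) ⊕ (ℕ × ζ))
  exact ko_gr (ki_fam I i) u (indep I i u v hv huv) k q hq h

theorem indep1 : LinearIndependent ℂ (fun p : (ℕ × β) × ν =>
    (Finsupp.single p.1.1 (I.y p.1.2) : Gh Y) ⊗ₜ[ℂ] I.n p.2) := by
  have h := ((Finsupp.basis (fun _ : ℕ => I.y)).tensorProduct I.n).linearIndependent
  have h2 := h.comp (fun p : (ℕ × β) × ν => ((⟨p.1.1, p.1.2⟩ : Σ _ : ℕ, β), p.2)) (by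
    rintro ⟨⟨a, b⟩, c⟩ ⟨⟨a', b'⟩, c'⟩ h
    simp only [Prod.mk.injEq, Sigma.mk.injEq, heq_eq_eq] at h
    obtain ⟨⟨rfl, rfl⟩, rfl⟩ := h
    rfl)
  have e : (⇑((Finsupp.basis (fun _ : ℕ => I.y)).tensorProduct I.n) ∘
      fun p : (ℕ × β) × ν => ((⟨p.1.1, p.1.2⟩ : Σ _ : ℕ, β), p.2)) =
      fun p : (ℕ × β) × ν => (Finsupp.single p.1.1 (I.y p.1.2) : Gh Y) ⊗ₜ[ℂ] I.n p.2 := by
    funext p
    rw [Function.comp_apply, Module.Basis.tensorProduct_apply, Finsupp.coe_basis]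
  rw [e] at h2
  exact h2

end KIr5

/-- [KI5] -/
theorem ki_gr0 (k : ℕ) (q : ν →₀ MvPolynomial ((ℕ × β) ⊕ (ℕ × ζ)) ℂ)
    (hq : ∀ i, (q i).IsHomogeneous k) (h : TS (I.Jr 0) I.nr q ∈ FS (I.Jr 0) I.nr k) : q = 0 := by
  refine KIr5.gr I 0 I.nr (fun i => (I.n i, 0, 0)) ?_ (fun j => rfl) k q hq h
  have h1 := I.n.linearIndependent.map' (LinearMap.inl ℂ N ((Gh Y ⊗[ℂ] N) ×
    (Gh Y ⊗[ℂ] (Gh Y ⊗[ℂ] N)))) (LinearMap.ker_eq_bot.2 LinearMap.inl_injective)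
  exact h1

/-- [KI5] -/
theorem ki_gr1 (k : ℕ) (q : (ℕ × β) × ν →₀ MvPolynomial ((ℕ × β) ⊕ (ℕ × ζ)) ℂ)
    (hq : ∀ i, (q i).IsHomogeneous k)
    (h : TS (I.Jr 1) (fun i : (ℕ × β) × ν => I.pr0 i.1 (I.nr i.2)) q ∈
      FS (I.Jr 1) (fun i : (ℕ × β) × ν => I.pr0 i.1 (I.nr i.2)) k) : q = 0 := by
  refine KIr5.gr I 1 (fun i : (ℕ × β) × ν => I.pr0 i.1 (I.nr i.2))
    (fun i => (0, Finsupp.single i.1.1 (I.y i.1.2) ⊗ₜ[ℂ] I.n i.2, 0)) ?_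
    (fun j => KIr5.pl_nn I j.1 j.2) k q hq h
  have h1 := (KIr5.indep1 I).map' ((LinearMap.inr ℂ N ((Gh Y ⊗[ℂ] N) ×
    (Gh Y ⊗[ℂ] (Gh Y ⊗[ℂ] N)))) ∘ₗ (LinearMap.inl ℂ (Gh Y ⊗[ℂ] N)
    (Gh Y ⊗[ℂ] (Gh Y ⊗[ℂ] N)))) (LinearMap.ker_eq_bot.2 (by
      rw [LinearMap.coe_comp]
      exact LinearMap.inr_injective.comp LinearMap.inl_injective))
  exact h1

end WPE
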