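import Pool.Agent.WPE.KO5

/-! WPE, block KO, row KO6: PBW in the form of the field `gr2`. -/

set_option autoImplicit false

namespace WPE

section words

variable {Λ ι V : Type} [AddCommGroup V] [Module ℂ V] (J : Λ → V →ₗ[ℂ] V)

/-- Words are linear in the vector. -/
theorem KO6.wd_smul (l : List Λ) (a : ℂ) (y : V) : wd J l (a • y) = a • wd J l y := by
  induction l with
  | nil => rfl
  | cons b l ih =>
    show J b (wd J l (a • y)) = a • J b (wd J l y)
    rw [ih, map_smul]

theorem KO6.TH_smul (a : ℂ) (y : V) : TH J (a • y) = a • TH J y := by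
  refine (MvPolynomial.basisMonomials Λ ℂ).ext fun m => ?_
  rw [LinearMap.smul_apply, TH, TH, Module.Basis.constr_basis, Module.Basis.constr_basis,
    KO6.wd_smul]

theorem KO6.Fx_smul (a : ℂ) (y : V) (k : ℕ) : Fx J (a • y) k ≤ Fx J y k := by
  unfold Fx
  rw [Submodule.span_le]
  rintro _ ⟨l, hl, rfl⟩
  rw [KO6.wd_smul]
  exact Submodule.smul_mem _ a (Submodule.subset_span ⟨l, hl, rfl⟩)

/-- The restriction to the index pairs `s < t`. -/
noncomputable def KO6.Ph (Λ : Type) {T ι : Type} [LinearOrder T] :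
    ((T × T) × ι →₀ MvPolynomial Λ ℂ) →ₗ[ℂ]
      ({j : (T × T) × ι // j.1.1 < j.1.2} →₀ MvPolynomial Λ ℂ) :=
  Finsupp.lsum ℂ fun j : (T × T) × ι =>
    if h : j.1.1 < j.1.2 then Finsupp.lsingle ⟨j, h⟩
    else if h' : j.1.2 < j.1.1 then -Finsupp.lsingle ⟨((j.1.2, j.1.1), j.2), h'⟩ else 0

theorem KO6.Ph_single {T : Type} [LinearOrder T] (j : (T × T) × ι) (r : MvPolynomial Λ ℂ) :
    KO6.Ph Λ (Finsupp.single j r) =
      if h : j.1.1 < j.1.2 then Finsupp.single ⟨j, h⟩ r
      else if h' : j.1.2 < j.1.1 then -Finsupp.single ⟨((j.1.2, j.1.1), j.2), h'⟩ r else 0 := by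
  rw [KO6.Ph, Finsupp.lsum_single]
  split_ifs <;> simp

theorem KO6.Ph_apply {T : Type} [LinearOrder T] (q : (T × T) × ι →₀ MvPolynomial Λ ℂ)
    (j : {j : (T × T) × ι // j.1.1 < j.1.2}) :
    KO6.Ph Λ q j = q j.1 - q ((j.1.1.2, j.1.1.1), j.1.2) := by
  classical
  induction q using Finsupp.induction_linear with
  | zero => simp
  | add f g hf hg =>
    rw [map_add, Finsupp.add_apply, hf, hg, Finsupp.add_apply, Finsupp.add_apply]
    ring
  | single i r =>
    obtain ⟨⟨⟨s, t⟩, a⟩, hst⟩ := j
    obtain ⟨⟨s', t'⟩, a'⟩ := i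
    have hst' : s < t := hst
    rw [KO6.Ph_single]
    dsimp only
    rcases lt_trichotomy s' t' with h | h | h
    · rw [dif_pos h]
      have h2 : ((s', t'), a') ≠ ((t, s), a) := by
        intro h3
        have h4 := (Prod.mk.inj (Prod.mk.inj h3).1)
        rw [h4.1, h4.2] at h
        exact absurd h (not_lt.2 hst'.le)
      rw [Finsupp.single_apply (a := ((s', t'), a')) (a' := ((t, s), a)), if_neg h2, sub_zero,
        Finsupp.single_apply, Finsupp.single_apply]
      by_cases h5 : ((s', t'), a') = ((s, t), a)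
      · rw [if_pos h5, if_pos (Subtype.ext h5)]
      · rw [if_neg h5, if_neg fun h6 => h5 (Subtype.ext_iff.1 h6)]
    · subst h
      rw [dif_neg (lt_irrefl _), dif_neg (lt_irrefl _), Finsupp.zero_apply]
      have h2 : ∀ u v : T, u ≠ v → ((s', s'), a') ≠ ((u, v), a) := by
        intro u v huv h3
        have h4 := (Prod.mk.inj (Prod.mk.inj h3).1)
        exact huv (h4.1.symm.trans h4.2)
      rw [Finsupp.single_apply, Finsupp.single_apply, if_neg (h2 s t hst'.ne),
        if_neg (h2 t s hst'.ne'), sub_zero]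
    · rw [dif_neg (not_lt.2 h.le), dif_pos h]
      have h2 : ((s', t'), a') ≠ ((s, t), a) := by
        intro h3
        have h4 := (Prod.mk.inj (Prod.mk.inj h3).1)
        rw [h4.1, h4.2] at h
        exact absurd h (not_lt.2 hst'.le)
      rw [Finsupp.single_apply (a := ((s', t'), a')) (a' := ((s, t), a)), if_neg h2, zero_sub,
        Finsupp.neg_apply, Finsupp.single_apply, Finsupp.single_apply]
      congr 1
      by_cases h5 : ((s', t'), a') = ((t, s), a)
      · have h6 := (Prod.mk.inj (Prod.mk.inj h5).1)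
        rw [if_pos h5, if_pos]
        apply Subtype.ext
        show ((t', s'), a') = ((s, t), a)
        rw [h6.1, h6.2, (Prod.mk.inj h5).2]
      · rw [if_neg h5, if_neg]
        intro h6
        apply h5
        have h7 : ((t', s'), a') = ((s, t), a) := Subtype.ext_iff.1 h6
        have h8 := (Prod.mk.inj (Prod.mk.inj h7).1)
        rw [h8.1, h8.2, (Prod.mk.inj h7).2]

variable {J} {br : Λ → Λ → (Λ →₀ ℂ)} (hJ : IsLieFam J br)

include hJ

/-- PBW in the form of the field `gr2`. -/
theorem ko_gr2 {T : Type} [LinearOrder Λ] [LinearOrder T] (x : (T × T) × ι → V)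
    (hx : ∀ s t i, x ((s, t), i) = - x ((t, s), i))
    (hli : LinearIndependent ℂ
      (fun w : {l : List Λ // l.Pairwise (· ≤ ·)} × {j : (T × T) × ι // j.1.1 < j.1.2} =>
        wd J w.1.1 (x w.2.1)))
    (k : ℕ) (q : (T × T) × ι →₀ MvPolynomial Λ ℂ) (hq : ∀ i, (q i).IsHomogeneous k)
    (h : TS J x q ∈ FS J x k) : ∀ s t i, q ((s, t), i) = q ((t, s), i) := by
  have hx0 : ∀ s i, x ((s, s), i) = (0 : ℂ) • x ((s, s), i) := by
    intro s i
    have h1 := hx s s i
    rw [zero_smul]
    have h2 : (2 : ℂ) • x ((s, s), i) = 0 := by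
      rw [two_smul]
      nth_rewrite 1 [h1]
      rw [neg_add_cancel]
    exact (smul_eq_zero.1 h2).resolve_left two_ne_zero
  have hx1 : ∀ s t i, x ((s, t), i) = (-1 : ℂ) • x ((t, s), i) := by
    intro s t i
    rw [neg_one_smul]
    exact hx s t i
  set x' : {j : (T × T) × ι // j.1.1 < j.1.2} → V := fun j => x j.1 with hx'
  -- the sum over the family is the sum over the restricted family
  have hTS : TS J x' (KO6.Ph Λ q) = TS J x q := by
    clear h hq
    induction q using Finsupp.induction_linear with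
    | zero => rw [map_zero, map_zero, map_zero]
    | add f g hf hg => rw [map_add, map_add, map_add, hf, hg]
    | single i r =>
      obtain ⟨⟨s, t⟩, a⟩ := i
      rw [KO6.Ph_single]
      dsimp only
      have e1 : TS J x (Finsupp.single ((s, t), a) r) = TH J (x ((s, t), a)) r := by
        rw [TS, Finsupp.lsum_single]
      have e2 : ∀ j r, TS J x' (Finsupp.single j r) = TH J (x' j) r := by
        intro j r
        rw [TS, Finsupp.lsum_single]
      rw [e1]
      rcases lt_trichotomy s t with h | h | h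
      · rw [dif_pos h, e2]
      · subst h
        rw [dif_neg (lt_irrefl _), dif_neg (lt_irrefl _), map_zero, hx0 s a, KO6.TH_smul,
          zero_smul, LinearMap.zero_apply]
      · rw [dif_neg (not_lt.2 h.le), dif_pos h, map_neg, e2, hx1 s t a, KO6.TH_smul,
          LinearMap.smul_apply, neg_one_smul]
  have hFS : FS J x k ≤ FS J x' k := by
    unfold FS
    refine iSup_le fun j => ?_
    obtain ⟨⟨s, t⟩, a⟩ := j
    rcases lt_trichotomy s t with h | h | h
    · exact le_iSup (fun j => Fx J (x' j) k) ⟨((s, t), a), h⟩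
    · subst h
      rw [hx0 s a, zero_smul]
      unfold Fx
      rw [Submodule.span_le]
      rintro _ ⟨l, hl, rfl⟩
      have e := KO6.wd_smul J l 0 (0 : V)
      rw [zero_smul, zero_smul] at e
      rw [e]
      exact Submodule.zero_mem _
    · rw [hx1 s t a]
      exact (KO6.Fx_smul J (-1) _ k).trans (le_iSup (fun j => Fx J (x' j) k) ⟨((t, s), a), h⟩)
  have h0 : KO6.Ph Λ q = 0 := by
    refine ko_gr hJ x' hli k (KO6.Ph Λ q) ?_ ?_
    · intro j
      rw [KO6.Ph_apply]
      exact (hq _).sub (hq _)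
    · rw [hTS]
      exact hFS h
  have hlt : ∀ s t i, s < t → q ((s, t), i) = q ((t, s), i) := by
    intro s t i hst
    have h1 := KO6.Ph_apply q ⟨((s, t), i), hst⟩
    rw [h0, Finsupp.zero_apply] at h1
    exact (sub_eq_zero.1 h1.symm)
  intro s t i
  rcases lt_trichotomy s t with h | h | h
  · exact hlt s t i h
  · rw [h]
  · exact (hlt t s i h).symm

end words

end WPE
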