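import Pool.Agent.WPE.KI1
import Pool.Agent.WPE.KI3
import Pool.Agent.WPE.KO6
import Pool.Agent.WPE.PBW2

namespace WPE

open scoped TensorProduct

namespace KIr6

section li

variable {Y : Type} [AddCommGroup Y] [Module ℂ Y] {N : Type} [AddCommGroup N] [Module ℂ N]
  {β ν : Type}

/-- The vectors `g_s ⊗ (g_t ⊗ n) - g_t ⊗ (g_s ⊗ n)`, `s < t`, are linearly independent. -/
theorem li [LinearOrder (ℕ × β)] (y : Module.Basis β ℂ Y) (n : Module.Basis ν ℂ N) :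
    LinearIndependent ℂ (fun j : {j : ((ℕ × β) × (ℕ × β)) × ν // j.1.1 < j.1.2} =>
      ((0, 0, (Finsupp.single j.1.1.1.1 (y j.1.1.1.2) : Gh Y) ⊗ₜ[ℂ]
          ((Finsupp.single j.1.1.2.1 (y j.1.1.2.2) : Gh Y) ⊗ₜ[ℂ] n j.1.2) -
        (Finsupp.single j.1.1.2.1 (y j.1.1.2.2) : Gh Y) ⊗ₜ[ℂ]
          ((Finsupp.single j.1.1.1.1 (y j.1.1.1.2) : Gh Y) ⊗ₜ[ℂ] n j.1.2)) : KN Y N)) := by
  classical
  obtain ⟨bg, hbg⟩ : ∃ bg : Module.Basis (ℕ × β) ℂ (Gh Y),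
      ∀ t : ℕ × β, bg t = Finsupp.single t.1 (y t.2) := by
    refine ⟨(Finsupp.basis (fun _ : ℕ => y)).reindex (Equiv.sigmaEquivProd ℕ β), ?_⟩
    intro t
    rw [Module.Basis.reindex_apply, Finsupp.coe_basis]
    rfl
  obtain ⟨bb, hbb⟩ : ∃ bb : Module.Basis ((ℕ × β) × ((ℕ × β) × ν)) ℂ (Gh Y ⊗[ℂ] (Gh Y ⊗[ℂ] N)),
      ∀ p, bb p = (Finsupp.single p.1.1 (y p.1.2) : Gh Y) ⊗ₜ[ℂ]
      ((Finsupp.single p.2.1.1 (y p.2.1.2) : Gh Y) ⊗ₜ[ℂ] n p.2.2) := by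
    refine ⟨bg.tensorProduct (bg.tensorProduct n), ?_⟩
    intro p
    rw [Module.Basis.tensorProduct_apply', Module.Basis.tensorProduct_apply', hbg, hbg]
  have hco : ∀ p p', bb.coord p (bb p') = if p' = p then 1 else 0 := by
    intro p p'
    rw [Module.Basis.coord_apply, Module.Basis.repr_self, Finsupp.single_apply]
  have hv : ∀ j : {j : ((ℕ × β) × (ℕ × β)) × ν // j.1.1 < j.1.2},
      (Finsupp.single j.1.1.1.1 (y j.1.1.1.2) : Gh Y) ⊗ₜ[ℂ]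
          ((Finsupp.single j.1.1.2.1 (y j.1.1.2.2) : Gh Y) ⊗ₜ[ℂ] n j.1.2) -
        (Finsupp.single j.1.1.2.1 (y j.1.1.2.2) : Gh Y) ⊗ₜ[ℂ]
          ((Finsupp.single j.1.1.1.1 (y j.1.1.1.2) : Gh Y) ⊗ₜ[ℂ] n j.1.2) =
      bb (j.1.1.1, (j.1.1.2, j.1.2)) - bb (j.1.1.2, (j.1.1.1, j.1.2)) := by
    intro j
    rw [hbb, hbb]
  have h3 : LinearIndependent ℂ (fun j : {j : ((ℕ × β) × (ℕ × β)) × ν // j.1.1 < j.1.2} =>
      bb (j.1.1.1, (j.1.1.2, j.1.2)) - bb (j.1.1.2, (j.1.1.1, j.1.2))) := by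
    refine LinearIndependent.of_pairwise_dual_eq_zero_one _
      (fun j : {j : ((ℕ × β) × (ℕ × β)) × ν // j.1.1 < j.1.2} =>
        bb.coord (j.1.1.1, (j.1.1.2, j.1.2))) ?_ ?_
    · intro j j' hjj
      simp only [map_sub, hco]
      rw [if_neg, if_neg, sub_zero]
      · intro h
        simp only [Prod.mk.injEq] at h
        have h1 := j.2
        have h2 := j'.2
        rw [← h.1, ← h.2.1] at h1
        exact lt_asymm h1 h2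
      · intro h
        simp only [Prod.mk.injEq] at h
        apply hjj
        apply Subtype.ext
        exact Prod.ext (Prod.ext h.1.symm h.2.1.symm) h.2.2.symm
    · intro j
      simp only [map_sub, hco]
      rw [if_pos trivial, if_neg, sub_zero]
      intro h
      simp only [Prod.mk.injEq] at h
      have h1 := j.2
      rw [h.1] at h1
      exact lt_irrefl _ h1
  simp only [hv]
  have h4 := h3.map' (LinearMap.inr ℂ N ((Gh Y ⊗[ℂ] N) × (Gh Y ⊗[ℂ] (Gh Y ⊗[ℂ] N))) ∘ₗ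
    LinearMap.inr ℂ (Gh Y ⊗[ℂ] N) (Gh Y ⊗[ℂ] (Gh Y ⊗[ℂ] N))) (by
      rw [LinearMap.ker_eq_bot]
      exact LinearMap.inr_injective.comp LinearMap.inr_injective)
  exact h4

end li

variable {B : Type} [LieRing B] [LieAlgebra ℂ B] {κ : B →ₗ[ℂ] B →ₗ[ℂ] ℂ}
  {Y : Type} [AddCommGroup Y] [Module ℂ Y] [LieRingModule B Y] [LieModule ℂ B Y]
  {N : Type} [AddCommGroup N] [Module ℂ N] {R : LRep B N} {β ζ ν : Type}
  (I : KIn κ Y R β ζ ν)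

theorem coe_wd (i : Fin 3) (l : List ((ℕ × β) ⊕ (ℕ × ζ))) (x : I.Cp i) :
    ((wd (I.Jr i) l x : I.Cp i) : I.Cx) = wd I.Jl l (x : I.Cx) := by
  induction l with
  | nil => rfl
  | cons a l ih =>
    show I.Jl a ((wd (I.Jr i) l x : I.Cp i) : I.Cx) = I.Jl a (wd I.Jl l (x : I.Cx))
    rw [ih]

theorem wd_incl (l : List ((ℕ × β) ⊕ (ℕ × ζ))) (v : KN Y N) :
    wd I.Jl l (Ind.incl κ (TMod.gt Y (TMod.ofRep R)).toTMod v : I.Cx) =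
      Ind.word (κ := κ) (T := (TMod.gt Y (TMod.ofRep R)).toTMod) (fun i => I.b i)
        (l.map KIn.lt) v := by
  induction l with
  | nil => rfl
  | cons a l ih =>
    rw [List.map_cons, Ind.word_cons, ← ih]
    rfl

theorem pl_pl (s t : ℕ × β) (i : ν) : I.pl s (I.pl t (I.nn i)) =
    Ind.incl κ (TMod.gt Y (TMod.ofRep R)).toTMod
      ((0, 0, (Finsupp.single s.1 (I.y s.2) : Gh Y) ⊗ₜ[ℂ]
          ((Finsupp.single t.1 (I.y t.2) : Gh Y) ⊗ₜ[ℂ] I.n i) -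
        (Finsupp.single t.1 (I.y t.2) : Gh Y) ⊗ₜ[ℂ]
          ((Finsupp.single s.1 (I.y s.2) : Gh Y) ⊗ₜ[ℂ] I.n i)) : KN Y N) := by
  have e1 : ∀ (k : ℕ) (u : Y) (v : KN Y N), I.ps (-(k : ℤ) - 1) u
      (Ind.incl κ (TMod.gt Y (TMod.ofRep R)).toTMod v) =
      Ind.incl κ (TMod.gt Y (TMod.ofRep R)).toTMod (ghOm Y (Finsupp.single k u) v) :=
    fun k u v => Ind.psi_incl_neg κ (TMod.gt Y (TMod.ofRep R)) k u v
  show I.ps (-(s.1 : ℤ) - 1) (I.y s.2) (I.ps (-(t.1 : ℤ) - 1) (I.y t.2)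
    (Ind.incl κ (TMod.gt Y (TMod.ofRep R)).toTMod (I.n i, 0, 0))) = _
  rw [e1, e1, ghOm_apply, ghOm_apply]
  congr 1
  refine Prod.ext rfl (Prod.ext ?_ ?_)
  · show (Finsupp.single s.1 (I.y s.2) : Gh Y) ⊗ₜ[ℂ] (0 : N) = 0
    rw [TensorProduct.tmul_zero]
  · rfl

end KIr6

variable {B : Type} [LieRing B] [LieAlgebra ℂ B] {κ : B →ₗ[ℂ] B →ₗ[ℂ] ℂ}
  {Y : Type} [AddCommGroup Y] [Module ℂ Y] [LieRingModule B Y] [LieModule ℂ B Y]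
  {N : Type} [AddCommGroup N] [Module ℂ N] {R : LRep B N} {β ζ ν : Type}
  (I : KIn κ Y R β ζ ν)

/-- [KI6] -/
theorem ki_gr2 (k : ℕ) (q : ((ℕ × β) × (ℕ × β)) × ν →₀ MvPolynomial ((ℕ × β) ⊕ (ℕ × ζ)) ℂ)
    (hq : ∀ i, (q i).IsHomogeneous k)
    (h : TS (I.Jr 2) (fun i : ((ℕ × β) × (ℕ × β)) × ν =>
        I.pr1 i.1.1 (I.pr0 i.1.2 (I.nr i.2))) q ∈
      FS (I.Jr 2) (fun i : ((ℕ × β) × (ℕ × β)) × ν =>
        I.pr1 i.1.1 (I.pr0 i.1.2 (I.nr i.2))) k) :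
    ∀ s t i, q ((s, t), i) = q ((t, s), i) := by
  classical
  let o1 : LinearOrder ((ℕ × β) ⊕ (ℕ × ζ)) := linearOrderOfSTO WellOrderingRel
  let o2 : LinearOrder (ℕ × β) := linearOrderOfSTO WellOrderingRel
  refine ko_gr2 (ki_fam I 2) _ (fun s t i => ki_pp I s t (I.nr i)) ?_ k q hq h
  refine LinearIndependent.of_comp (I.Cp 2).subtype ?_
  have h1 := Ind.sorted_linearIndependent (κ := κ) (T := (TMod.gt Y (TMod.ofRep R)).toTMod) I.b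
    I.hκ (KIn.lt (β := β) (ζ := ζ)) (KIr6.li I.y I.n)
  have h2 : ∀ w : {l : List ((ℕ × β) ⊕ (ℕ × ζ)) // l.Pairwise (· ≤ ·)} ×
      {j : ((ℕ × β) × (ℕ × β)) × ν // j.1.1 < j.1.2},
      (I.Cp 2).subtype (wd (I.Jr 2) w.1.1 (I.pr1 w.2.1.1.1 (I.pr0 w.2.1.1.2 (I.nr w.2.1.2)))) =
      Ind.word (κ := κ) (T := (TMod.gt Y (TMod.ofRep R)).toTMod) (fun i => I.b i)
        (w.1.1.map KIn.lt)
        ((0, 0, (Finsupp.single w.2.1.1.1.1 (I.y w.2.1.1.1.2) : Gh Y) ⊗ₜ[ℂ]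
          ((Finsupp.single w.2.1.1.2.1 (I.y w.2.1.1.2.2) : Gh Y) ⊗ₜ[ℂ] I.n w.2.1.2) -
        (Finsupp.single w.2.1.1.2.1 (I.y w.2.1.1.2.2) : Gh Y) ⊗ₜ[ℂ]
          ((Finsupp.single w.2.1.1.1.1 (I.y w.2.1.1.1.2) : Gh Y) ⊗ₜ[ℂ] I.n w.2.1.2)) : KN Y N) := by
    intro w
    rw [← KIr6.wd_incl, ← KIr6.pl_pl]
    exact KIr6.coe_wd I 2 _ _
  have h3 : ((I.Cp 2).subtype ∘ fun w : {l : List ((ℕ × β) ⊕ (ℕ × ζ)) // l.Pairwise (· ≤ ·)} ×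
      {j : ((ℕ × β) × (ℕ × β)) × ν // j.1.1 < j.1.2} =>
      wd (I.Jr 2) w.1.1 (I.pr1 w.2.1.1.1 (I.pr0 w.2.1.1.2 (I.nr w.2.1.2)))) = _ :=
    funext h2
  exact h3 ▸ h1

end WPE
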