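import Pool.Agent.WPE.KID

/-! [WPE-KI7] -/

set_option linter.unusedSectionVars false

namespace WPE

open scoped TensorProduct

variable {B : Type} [LieRing B] [LieAlgebra ℂ B] {κ : B →ₗ[ℂ] B →ₗ[ℂ] ℂ}
  {Y : Type} [AddCommGroup Y] [Module ℂ Y] [LieRingModule B Y] [LieModule ℂ B Y]
  {N : Type} [AddCommGroup N] [Module ℂ N] {R : LRep B N} {β ζ ν : Type}
  (I : KIn κ Y R β ζ ν)

namespace KIr7

theorem RJ (m : ℤ) (c : β ⊕ ζ) (x : I.Cx) :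
    I.J 0 I.rho (I.J m (I.b c) x) = I.J m (I.b c) (I.J 0 I.rho x) +
      (I.cb c : ℂ) • I.J m (I.b c) x := by
  have h := (cmod κ Y (TMod.ofRep R)).comm 0 m I.rho (I.b c) x
  have h0 : coc κ 0 m I.rho (I.b c) = 0 := by
    unfold coc
    split_ifs
    · rw [Int.cast_zero, zero_mul]
    · rfl
  rw [h0, zero_smul, add_zero, zero_add, I.rho_b, map_smul, LinearMap.smul_apply] at h
  have h1 : I.J 0 I.rho (I.J m (I.b c) x) - I.J m (I.b c) (I.J 0 I.rho x) =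
    (I.cb c : ℂ) • I.J m (I.b c) x := h
  rw [← h1]
  abel

theorem S_apply (x : I.Cx) : I.S x = I.en x - I.J 0 I.rho x + (I.top : ℂ) • x := rfl

theorem en_J (m : ℤ) (a : B) (x : I.Cx) : I.en (I.J m a x) = I.J m a (I.en x) -
    (m : ℂ) • I.J m a x := cen_J 0 (isEnergy_zero R) m a x

theorem SJ (m : ℤ) (c : β ⊕ ζ) (x : I.Cx) :
    I.S (I.J m (I.b c) x) = I.J m (I.b c) (I.S x) +
      (-(m : ℂ) - (I.cb c : ℂ)) • I.J m (I.b c) x := by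
  rw [S_apply, S_apply, en_J, RJ, map_add, map_sub, map_smul]
  module

theorem Rn (i : ν) : I.J 0 I.rho (I.nn i) = (I.cn i : ℂ) • I.nn i := by
  have h := Ind.J_incl (κ := κ) (T := (TMod.gt Y (TMod.ofRep R)).toTMod) 0 I.rho (I.n i, 0, 0)
  rw [gt_act] at h
  have h2 : (TMod.ofRep R).act 0 I.rho (I.n i) = (I.cn i : ℂ) • I.n i := by
    rw [TMod.ofRep_zero, I.rho_n]
  simp only [h2, map_zero] at h
  have h3 : ((I.cn i : ℂ) • I.n i, (0 : Gh Y ⊗[ℂ] N), (0 : Gh Y ⊗[ℂ] (Gh Y ⊗[ℂ] N))) =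
      (I.cn i : ℂ) • (I.n i, (0 : Gh Y ⊗[ℂ] N), (0 : Gh Y ⊗[ℂ] (Gh Y ⊗[ℂ] N))) := by
    rw [Prod.smul_mk, Prod.smul_mk, smul_zero, smul_zero]
  have h4 : I.J 0 I.rho (I.nn i) = Ind.incl κ _ ((I.cn i : ℂ) • I.n i,
      (0 : Gh Y ⊗[ℂ] N), (0 : Gh Y ⊗[ℂ] (Gh Y ⊗[ℂ] N))) := h
  rw [h4, h3, map_smul]
  rfl

theorem en_nn (i : ν) : I.en (I.nn i) = 0 := by
  have h := cen_incl (κ := κ) 0 (isEnergy_zero R) (Y := Y) (I.n i, 0, 0)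
  have h2 : KNE Y (0 : N →ₗ[ℂ] N) (I.n i, 0, 0) = 0 := by
    unfold KNE
    simp
  rw [h2, map_zero] at h
  exact h

end KIr7

/-- [KI7] -/
theorem ki_RJ (i : Fin 3) (a : (ℕ × β) ⊕ (ℕ × ζ)) (x : I.Cp i) :
    I.Rr i (I.Jr i a x) = I.Jr i a (I.Rr i x) + (I.cl a : ℂ) • I.Jr i a x :=
  Subtype.ext (KIr7.RJ I _ _ _)

/-- [KI7] -/
theorem ki_SJ (i : Fin 3) (a : (ℕ × β) ⊕ (ℕ × ζ)) (x : I.Cp i) :
    I.Sr i (I.Jr i a x) = I.Jr i a (I.Sr i x) + (I.dl a : ℂ) • I.Jr i a x := by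
  apply Subtype.ext
  have h := KIr7.SJ I (-((KIn.lt a).1 : ℤ) - 1) (KIn.lt a).2 x.1
  have h2 : (-((-((KIn.lt a).1 : ℤ) - 1 : ℤ) : ℂ) - (I.cb (KIn.lt a).2 : ℂ)) =
      (I.dl a : ℂ) := by
    unfold KIn.dl
    push_cast
    ring
  rw [h2] at h
  exact h

/-- [KI7] -/
theorem ki_Rn (i : ν) : I.Rr 0 (I.nr i) = (I.cn i : ℂ) • I.nr i :=
  Subtype.ext (KIr7.Rn I i)

/-- [KI7] -/
theorem ki_Sn (i : ν) : I.Sr 0 (I.nr i) = ((I.top - I.cn i : ℤ) : ℂ) • I.nr i := by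
  apply Subtype.ext
  show I.S (I.nn i) = ((I.top - I.cn i : ℤ) : ℂ) • I.nn i
  rw [KIr7.S_apply, KIr7.en_nn, KIr7.Rn]
  push_cast
  module

end WPE
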