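import Pool.Agent.WPE.KID

/-! [WPE-KI8] -/

set_option linter.unusedSectionVars false

namespace WPE

open scoped TensorProduct

variable {B : Type} [LieRing B] [LieAlgebra ℂ B] {κ : B →ₗ[ℂ] B →ₗ[ℂ] ℂ}
  {Y : Type} [AddCommGroup Y] [Module ℂ Y] [LieRingModule B Y] [LieModule ℂ B Y]
  {N : Type} [AddCommGroup N] [Module ℂ N] {R : LRep B N} {β ζ ν : Type}
  (I : KIn κ Y R β ζ ν)

namespace KIr8

theorem Jps (m : ℤ) (u : Y) (x : I.Cx) :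
    I.J 0 I.rho (I.ps m u x) = I.ps m u (I.J 0 I.rho x) + I.ps m ⁅I.rho, u⁆ x := by
  have h := (cmod κ Y (TMod.ofRep R)).commψ 0 m I.rho u x
  rw [zero_add] at h
  have h1 : I.J 0 I.rho (I.ps m u x) - I.ps m u (I.J 0 I.rho x) = I.ps m ⁅I.rho, u⁆ x := h
  rw [← h1]
  abel

theorem S_apply (x : I.Cx) : I.S x = I.en x - I.J 0 I.rho x + (I.top : ℂ) • x := rfl

theorem en_ps (m : ℤ) (u : Y) (x : I.Cx) : I.en (I.ps m u x) = I.ps m u (I.en x) -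
    ((m : ℂ) + 1) • I.ps m u x := cen_psi 0 (isEnergy_zero R) m u x

theorem Rp (m : ℤ) (c : β) (x : I.Cx) :
    I.J 0 I.rho (I.ps m (I.y c) x) = I.ps m (I.y c) (I.J 0 I.rho x) +
      (-(I.ht c : ℂ)) • I.ps m (I.y c) x := by
  rw [Jps, I.rho_y]
  congr 1
  unfold KIn.ps
  rw [map_smul, LinearMap.smul_apply]

theorem RF (m : ℤ) (x : I.Cx) :
    I.J 0 I.rho (I.ps m I.F x) = I.ps m I.F (I.J 0 I.rho x) + (-1 : ℂ) • I.ps m I.F x := by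
  rw [Jps, I.rho_F]
  congr 1
  unfold KIn.ps
  rw [map_neg, LinearMap.neg_apply, neg_one_smul]

theorem Sp (m : ℤ) (c : β) (x : I.Cx) :
    I.S (I.ps m (I.y c) x) = I.ps m (I.y c) (I.S x) +
      (-((m : ℂ) + 1) + (I.ht c : ℂ)) • I.ps m (I.y c) x := by
  rw [S_apply, S_apply, en_ps, Rp, map_add, map_sub, map_smul]
  module

theorem SF (x : I.Cx) : I.S (I.ps 0 I.F x) = I.ps 0 I.F (I.S x) := by
  rw [S_apply, S_apply, en_ps, RF, map_add, map_sub, map_smul, Int.cast_zero, zero_add]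
  module

end KIr8

/-- [KI8] -/
theorem ki_Rp (t : ℕ × β) (x : I.Cp 0) :
    I.Rr 1 (I.pr0 t x) = I.pr0 t (I.Rr 0 x) + (I.cp t : ℂ) • I.pr0 t x := by
  apply Subtype.ext
  have h := KIr8.Rp I (-(t.1 : ℤ) - 1) t.2 x.1
  have h2 : (-(I.ht t.2 : ℂ)) = (I.cp t : ℂ) := by
    unfold KIn.cp
    push_cast
    rfl
  rw [h2] at h
  exact h

/-- [KI8] -/
theorem ki_Sp (t : ℕ × β) (x : I.Cp 0) :
    I.Sr 1 (I.pr0 t x) = I.pr0 t (I.Sr 0 x) + (I.dp t : ℂ) • I.pr0 t x := by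
  apply Subtype.ext
  have h := KIr8.Sp I (-(t.1 : ℤ) - 1) t.2 x.1
  have h2 : (-(((-(t.1 : ℤ) - 1 : ℤ) : ℂ) + 1) + (I.ht t.2 : ℂ)) = (I.dp t : ℂ) := by
    unfold KIn.dp
    push_cast
    ring
  rw [h2] at h
  exact h

/-- [KI8] -/
theorem ki_R1D (x : I.Cp 0) :
    I.Rr 1 (I.Dr0 x) = I.Dr0 (I.Rr 0 x) + ((-1 : ℤ) : ℂ) • I.Dr0 x := by
  apply Subtype.ext
  have h := KIr8.RF I 0 x.1
  have h2 : (-1 : ℂ) = ((-1 : ℤ) : ℂ) := by push_cast; rfl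
  rw [h2] at h
  exact h

/-- [KI8] -/
theorem ki_R2D (x : I.Cp 1) :
    I.Rr 2 (I.Dr1 x) = I.Dr1 (I.Rr 1 x) + ((-1 : ℤ) : ℂ) • I.Dr1 x := by
  apply Subtype.ext
  have h := KIr8.RF I 0 x.1
  have h2 : (-1 : ℂ) = ((-1 : ℤ) : ℂ) := by push_cast; rfl
  rw [h2] at h
  exact h

/-- [KI8] -/
theorem ki_S1D (x : I.Cp 0) : I.Sr 1 (I.Dr0 x) = I.Dr0 (I.Sr 0 x) :=
  Subtype.ext (KIr8.SF I x.1)

/-- [KI8] -/
theorem ki_R1Q (x : I.Cp 0) : I.Rr 1 (I.Qr0 x) = I.Qr0 (I.Rr 0 x) :=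
  Subtype.ext (I.Q0rho x.1).symm

/-- [KI8] -/
theorem ki_R2Q (x : I.Cp 1) : I.Rr 2 (I.Qr1 x) = I.Qr1 (I.Rr 1 x) :=
  Subtype.ext (I.Q0rho x.1).symm

/-- [KI8] -/
theorem ki_S1Q (x : I.Cp 0) : I.Sr 1 (I.Qr0 x) = I.Qr0 (I.Sr 0 x) := by
  apply Subtype.ext
  show I.S (I.Q0 x.1) = I.Q0 (I.S x.1)
  have h1 : I.Q0 (I.en x.1) = I.en (I.Q0 x.1) := I.Q0en x.1 x.2
  have h2 : I.Q0 (I.J 0 I.rho x.1) = I.J 0 I.rho (I.Q0 x.1) := I.Q0rho x.1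
  rw [KIr8.S_apply, KIr8.S_apply, map_add, map_sub, map_smul, h1, h2]

end WPE
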