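import Pool.Agent.WPE.KI2
import Pool.Agent.WPE.KI4
import Pool.Agent.WPE.KI5
import Pool.Agent.WPE.KI6
import Pool.Agent.WPE.KI7
import Pool.Agent.WPE.KI8

/-! WPE, block KI: the instance (stub version, built on the statements). -/

namespace WPE

noncomputable section


variable {B : Type} [LieRing B] [LieAlgebra ℂ B] {κ : B →ₗ[ℂ] B →ₗ[ℂ] ℂ}
  {Y : Type} [AddCommGroup Y] [Module ℂ Y] [LieRingModule B Y] [LieModule ℂ B Y]
  {N : Type} [AddCommGroup N] [Module ℂ N] {R : LRep B N} {β ζ ν : Type}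

/-- The Koszul system of the complex. -/
def KIn.kg (I : KIn κ Y R β ζ ν) : KG (ℕ × β) (ℕ × ζ) ν (I.Cp 0) (I.Cp 1) (I.Cp 2) where
  J0 := I.Jr 0
  J1 := I.Jr 1
  J2 := I.Jr 2
  p0 := I.pr0
  p1 := I.pr1
  n := I.nr
  D0 := I.Dr0
  D1 := I.Dr1
  br := I.br
  bp := I.bp
  kd0 := ki_kd0 I
  kd1 := ki_kd1 I
  pp := ki_pp I
  D0n := ki_D0n I
  D1p := ki_D1p I
  DD := ki_DD I
  sp0 := ki_sp0 I
  sp1 := ki_sp1 I
  gr0 := ki_gr0 I
  gr1 := ki_gr1 I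
  gr2 := ki_gr2 I
  Q0 := I.Qr0
  Q1 := I.Qr1
  QQ := ki_QQ I
  QD := ki_QD I
  R0 := I.Rr 0
  R1 := I.Rr 1
  R2 := I.Rr 2
  S0 := I.Sr 0
  S1 := I.Sr 1
  top := I.top
  cl := I.cl
  dl := I.dl
  cp := I.cp
  dp := I.dp
  cn := I.cn
  cl_le a := I.cb_le _
  cd_pos a := by unfold KIn.cl KIn.dl; omega
  cp_le t := by
    have := I.ht_pos t.2
    unfold KIn.cp; omega
  dp_pos t := by
    have := I.ht_pos t.2
    unfold KIn.dp; omega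
  cn_le := I.cn_le
  R0J := ki_RJ I 0
  R1J := ki_RJ I 1
  S0J := ki_SJ I 0
  S1J := ki_SJ I 1
  R0n := ki_Rn I
  S0n := ki_Sn I
  R1p := ki_Rp I
  S1p := ki_Sp I
  R1D := ki_R1D I
  R1Q := ki_R1Q I
  R2D := ki_R2D I
  R2Q := ki_R2Q I
  S1D := ki_S1D I
  S1Q := ki_S1Q I

end

end WPE
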