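import Pool.Agent.WPE.FD4
import Pool.Agent.WPE.FD9
import Pool.Agent.WPE.KID

/-! WPE, block KJ, row KJ1: zero modes and the energy operator on the fields `Yh w`. -/

set_option linter.unusedSectionVars false

namespace WPE

open scoped TensorProduct
open WPQ.AF (IsFld)

namespace KJr1

variable {E : Type} [AddCommGroup E] [Module ℂ E]

theorem cf_zero_pos (j : ℕ) (hj : j ≠ 0) : cf 0 j = 0 := by
  unfold cf
  have h : (Ring.choose (0 : ℤ) j : ℤ) = 0 := by
    have h1 := Ring.choose_natCast (R := ℤ) 0 j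
    rw [Nat.cast_zero] at h1
    rw [h1, Nat.choose_eq_zero_of_lt (by omega), Nat.cast_zero]
  rw [h, Int.cast_zero, mul_zero]

theorem nprod_zero_idx {a b : ℤ → E →ₗ[ℂ] E} (ha : IsFld a) (hb : IsFld b) (k : ℤ) (x : E) :
    nprod 0 a b k x = a 0 (b k x) - b k (a 0 x) := by
  unfold nprod nL nR
  rw [LinearMap.sub_apply, psum_eq_sum (lf_tL 0 a hb k) x {0}, psum_eq_sum (lf_tR 0 ha b k) x {0},
    Finset.sum_singleton, Finset.sum_singleton]
  · unfold tL tR
    simp only [LinearMap.comp_apply, cf_zero_right, zpow_zero, mul_one,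
      one_smul, Nat.cast_zero, sub_zero, add_zero, zero_add]
  · intro j hj
    rw [Finset.mem_singleton] at hj
    unfold tR
    rw [cf_zero_pos j hj, mul_zero, zero_smul, LinearMap.zero_apply]
  · intro j hj
    rw [Finset.mem_singleton] at hj
    unfold tL
    rw [cf_zero_pos j hj, zero_smul, LinearMap.zero_apply]

/-- `-(k+1) b_k` -/
def Ef (b : ℤ → E →ₗ[ℂ] E) : ℤ → E →ₗ[ℂ] E := fun k => (-((k : ℂ) + 1)) • b k

theorem isFld_Ef {b : ℤ → E →ₗ[ℂ] E} (hb : IsFld b) : IsFld (Ef b) := by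
  intro x
  obtain ⟨N, hN⟩ := hb x
  refine ⟨N, fun n hn => ?_⟩
  unfold Ef
  rw [LinearMap.smul_apply, hN n hn, smul_zero]

theorem nprod_Ef (n : ℤ) {a b : ℤ → E →ₗ[ℂ] E} (ha : IsFld a) (hb : IsFld b) :
    nprod n (Ef a) b + nprod n a (Ef b) = Ef (nprod n a b) - ((n : ℂ) + 1) • nprod n a b := by
  funext k
  have hL : nL n (Ef a) b k + nL n a (Ef b) k = (-((n : ℂ) + k + 2)) • nL n a b k := by
    unfold nL
    rw [← psum_add (lf_tL n (Ef a) hb k) (lf_tL n a (isFld_Ef hb) k),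
      ← psum_smul _ (lf_tL n a hb k)]
    congr 1
    funext j
    unfold tL Ef
    refine LinearMap.ext fun x => ?_
    simp only [LinearMap.add_apply, LinearMap.smul_apply, LinearMap.comp_apply, map_smul]
    rw [smul_smul, smul_smul, smul_smul, ← add_smul]
    congr 1
    push_cast
    ring
  have hR : nR n (Ef a) b k + nR n a (Ef b) k = (-((n : ℂ) + k + 2)) • nR n a b k := by
    unfold nR
    rw [← psum_add (lf_tR n (isFld_Ef ha) b k) (lf_tR n ha (Ef b) k),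
      ← psum_smul _ (lf_tR n ha b k)]
    congr 1
    funext j
    unfold tR Ef
    refine LinearMap.ext fun x => ?_
    simp only [LinearMap.add_apply, LinearMap.smul_apply, LinearMap.comp_apply, map_smul]
    rw [smul_smul, smul_smul, smul_smul, ← add_smul]
    congr 1
    push_cast
    ring
  show nprod n (Ef a) b k + nprod n a (Ef b) k =
    (-((k : ℂ) + 1)) • nprod n a b k - ((n : ℂ) + 1) • nprod n a b k
  unfold nprod
  rw [← sub_smul]
  have h1 : (nL n (Ef a) b k - nR n (Ef a) b k) + (nL n a (Ef b) k - nR n a (Ef b) k) =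
      (nL n (Ef a) b k + nL n a (Ef b) k) - (nR n (Ef a) b k + nR n a (Ef b) k) := by abel
  rw [h1, hL, hR, ← smul_sub]
  congr 1
  ring

section abs

variable {V : Type} [AddCommGroup V] [Module ℂ V] (f : V →ₗ[ℂ] Fld E) (D1 : V →ₗ[ℂ] V)
  (D : E →ₗ[ℂ] E)

/-- The vectors for which the formula holds. -/
theorem W_sub : ∃ W : Submodule ℂ V, ∀ w, w ∈ W ↔
    brD D (f w).1 = (f (D1 w)).1 + Ef (f w).1 := by
  refine ⟨
    { carrier := {w | brD D (f w).1 = (f (D1 w)).1 + Ef (f w).1}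
      add_mem' := ?_
      zero_mem' := ?_
      smul_mem' := ?_ }, fun w => Iff.rfl⟩
  · intro y z hy hz
    have hy' : brD D (f y).1 = (f (D1 y)).1 + Ef (f y).1 := hy
    have hz' : brD D (f z).1 = (f (D1 z)).1 + Ef (f z).1 := hz
    show brD D (f (y + z)).1 = (f (D1 (y + z))).1 + Ef (f (y + z)).1
    have h1 : (f (y + z)).1 = (f y).1 + (f z).1 := by rw [map_add]; rfl
    have h2 : (f (D1 (y + z))).1 = (f (D1 y)).1 + (f (D1 z)).1 := by
      rw [map_add, map_add]; rfl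
    have h3 : brD D ((f y).1 + (f z).1) = brD D (f y).1 + brD D (f z).1 := by
      funext k
      show D ∘ₗ ((f y).1 k + (f z).1 k) - ((f y).1 k + (f z).1 k) ∘ₗ D = _
      rw [LinearMap.comp_add, LinearMap.add_comp]
      show _ = (D ∘ₗ (f y).1 k - (f y).1 k ∘ₗ D) + (D ∘ₗ (f z).1 k - (f z).1 k ∘ₗ D)
      abel
    have h4 : Ef ((f y).1 + (f z).1) = Ef (f y).1 + Ef (f z).1 := by
      funext k
      exact smul_add _ _ _
    rw [h1, h2, h3, h4, hy', hz']
    abel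
  · show brD D (f 0).1 = (f (D1 0)).1 + Ef (f 0).1
    have h1 : (f 0).1 = 0 := by rw [map_zero]; rfl
    have h2 : (f (D1 0)).1 = 0 := by rw [map_zero, map_zero]; rfl
    rw [h1, h2]
    funext k
    show D ∘ₗ 0 - 0 ∘ₗ D = 0 + (-((k : ℂ) + 1)) • 0
    rw [LinearMap.comp_zero, LinearMap.zero_comp, smul_zero, sub_zero, add_zero]
  · intro c y hy
    have hy' : brD D (f y).1 = (f (D1 y)).1 + Ef (f y).1 := hy
    show brD D (f (c • y)).1 = (f (D1 (c • y))).1 + Ef (f (c • y)).1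
    have h1 : (f (c • y)).1 = c • (f y).1 := by rw [map_smul]; rfl
    have h2 : (f (D1 (c • y))).1 = c • (f (D1 y)).1 := by
      rw [map_smul, map_smul]; rfl
    have h3 : brD D (c • (f y).1) = c • brD D (f y).1 := by
      funext k
      show D ∘ₗ (c • (f y).1 k) - (c • (f y).1 k) ∘ₗ D = c • (D ∘ₗ (f y).1 k - (f y).1 k ∘ₗ D)
      rw [LinearMap.comp_smul, LinearMap.smul_comp, smul_sub]
    have h4 : Ef (c • (f y).1) = c • Ef (f y).1 := by
      funext k
      show (-((k : ℂ) + 1)) • (c • (f y).1 k) = c • ((-((k : ℂ) + 1)) • (f y).1 k)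
      rw [smul_smul, smul_smul, mul_comm]
    rw [h1, h2, h3, h4, hy', smul_add]

/-- The vacuum. -/
theorem vac_step (v : V) (h0 : D1 v = 0) (h : (f v).1 = idFld E) :
    brD D (f v).1 = (f (D1 v)).1 + Ef (f v).1 := by
  have h1 : (f (D1 v)).1 = 0 := by
    rw [h0, map_zero]
    rfl
  rw [h1, h, zero_add]
  funext k
  show D ∘ₗ idFld E k - idFld E k ∘ₗ D = (-((k : ℂ) + 1)) • idFld E k
  unfold idFld
  by_cases hk : k = -1
  · rw [if_pos hk, hk, LinearMap.comp_id, LinearMap.id_comp, sub_self]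
    push_cast
    rw [neg_add_cancel, neg_zero, zero_smul]
  · rw [if_neg hk, LinearMap.comp_zero, LinearMap.zero_comp, sub_self, smul_zero]

/-- The currents. -/
theorem J_step (J1 : V →ₗ[ℂ] V) (n : ℤ) {cur : ℤ → E →ₗ[ℂ] E} (hA : IsFld cur) (y : V)
    (hy' : brD D (f y).1 = (f (D1 y)).1 + Ef (f y).1)
    (h1 : (f (J1 y)).1 = nprod n cur (f y).1)
    (h4 : (f (J1 (D1 y))).1 = nprod n cur (f (D1 y)).1)
    (h2 : D1 (J1 y) = J1 (D1 y) - (n : ℂ) • J1 y) (h5 : brD D cur = Ef cur + cur) :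
    brD D (f (J1 y)).1 = (f (D1 (J1 y))).1 + Ef (f (J1 y)).1 := by
  have hb : IsFld (f y).1 := (f y).2
  have h3 : (f (D1 (J1 y))).1 = nprod n cur (f (D1 y)).1 - (n : ℂ) • nprod n cur (f y).1 := by
    rw [h2, map_sub, map_smul]
    show (f (J1 (D1 y))).1 - (n : ℂ) • (f (J1 y)).1 = _
    rw [h4, h1]
  rw [h3, h1, fd_brD D n hA hb, h5, hy', nprod_add_left n (isFld_Ef hA) hA hb,
    nprod_add_right n hA (f (D1 y)).2 (isFld_Ef hb)]
  have h7 := nprod_Ef n hA hb
  rw [add_smul, one_smul] at h7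
  have h8 : nprod n (Ef cur) (f y).1 = Ef (nprod n cur (f y).1) -
      ((n : ℂ) • nprod n cur (f y).1 + nprod n cur (f y).1) - nprod n cur (Ef (f y).1) := by
    rw [← h7]
    abel
  rw [h8]
  abel

/-- Modes of currents. -/
theorem cur_step (J : ℤ → E →ₗ[ℂ] E) (h : ∀ k z, D (J k z) = J k (D z) - (k : ℂ) • J k z) :
    brD D J = Ef J + J := by
  funext k
  refine LinearMap.ext fun z => ?_
  show D (J k z) - J k (D z) = (-((k : ℂ) + 1)) • J k z + J k z
  rw [h, neg_smul, add_smul, one_smul]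
  abel

/-- The formula on vectors. -/
theorem fin_step (w : V) (h : brD D (f w).1 = (f (D1 w)).1 + Ef (f w).1) (k : ℤ) (x : E) :
    D ((f w).1 k x) = (f w).1 k (D x) + (f (D1 w)).1 k x - ((k : ℂ) + 1) • (f w).1 k x := by
  have h9 : D ((f w).1 k x) - (f w).1 k (D x) =
      (f (D1 w)).1 k x + (-((k : ℂ) + 1)) • (f w).1 k x := LinearMap.congr_fun (congrFun h k) x
  rw [neg_smul] at h9
  rw [add_sub_assoc, sub_eq_add_neg, ← h9]
  abel

end abs

end KJr1

section general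

variable {B : Type} [LieRing B] [LieAlgebra ℂ B] {κ : B →ₗ[ℂ] B →ₗ[ℂ] ℂ}
  {Y : Type} [AddCommGroup Y] [Module ℂ Y] [LieRingModule B Y] [LieModule ℂ B Y]
  {N : Type} [AddCommGroup N] [Module ℂ N]

/-- [KJ1] -/
theorem kj_J0_Yh {E : Type} [AddCommGroup E] [Module ℂ E] (X : GMod B Y κ E) (a : B)
    (w : VC κ Y) (k : ℤ) (x : E) :
    X.J 0 a ((X.Yh w).1 k x) = (X.Yh w).1 k (X.J 0 a x) +
      (X.Yh ((cmod κ Y (TMod.triv B)).J 0 a w)).1 k x := by
  have h1 := congrFun (Yh_J X 0 a w) k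
  have h2 := KJr1.nprod_zero_idx (X.smooth.isFld a) (X.Yh w).2 k x
  rw [h1, h2]
  show X.J 0 a ((X.Yh w).1 k x) = (X.Yh w).1 k (X.J 0 a x) +
    (X.J 0 a ((X.Yh w).1 k x) - (X.Yh w).1 k (X.J 0 a x))
  abel

theorem KJr1.cen_cvac : cen 0 (isEnergy_zero (LRep.triv B)) (cvac κ Y) = 0 := by
  have h : cen 0 (isEnergy_zero (LRep.triv B)) (cvac κ Y) =
      Ind.incl κ _ (KNE Y (0 : ℂ →ₗ[ℂ] ℂ) ((1 : ℂ), 0, 0)) :=
    cen_incl 0 (isEnergy_zero (LRep.triv B)) ((1 : ℂ), 0, 0)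
  rw [h]
  have h2 : KNE Y (0 : ℂ →ₗ[ℂ] ℂ) ((1 : ℂ), 0, 0) = 0 := by
    refine Prod.ext ?_ (Prod.ext ?_ ?_)
    · rfl
    · exact map_zero _
    · exact map_zero _
  rw [h2, map_zero]

/-- [KJ1] -/
theorem kj_en_Yh (R : LRep B N) (w : VC κ Y) (hw : w ∈ cpart κ Y (TMod.triv B) 0) (k : ℤ)
    (x : CC κ Y (TMod.ofRep R)) :
    cen 0 (isEnergy_zero R) (((cmod κ Y (TMod.ofRep R)).Yh w).1 k x) =
      ((cmod κ Y (TMod.ofRep R)).Yh w).1 k (cen 0 (isEnergy_zero R) x) +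
      ((cmod κ Y (TMod.ofRep R)).Yh (cen 0 (isEnergy_zero (LRep.triv B)) w)).1 k x -
      ((k : ℂ) + 1) • ((cmod κ Y (TMod.ofRep R)).Yh w).1 k x := by
  obtain ⟨W, hW⟩ := KJr1.W_sub (cmod κ Y (TMod.ofRep R)).Yh
    (cen (κ := κ) (Y := Y) 0 (isEnergy_zero (LRep.triv B)))
    (cen (κ := κ) (Y := Y) 0 (isEnergy_zero R))
  have hle : cpart κ Y (TMod.triv B) 0 ≤ W := by
    refine cpart_induction W ?_ ?_
    · intro v
      have h0 : Ind.incl κ (TMod.gt Y (TMod.triv B)).toTMod (KNpr Y ℂ 0 v) =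
          v.1 • cvac κ Y := by
        rw [KNpr_zero]
        unfold cvac
        rw [← map_smul]
        congr 1
        refine Prod.ext ?_ (Prod.ext ?_ ?_)
        · show v.1 = v.1 • (1 : ℂ)
          rw [smul_eq_mul, mul_one]
        · exact (smul_zero _).symm
        · exact (smul_zero _).symm
      rw [h0]
      exact W.smul_mem _ ((hW _).2 (KJr1.vac_step (cmod κ Y (TMod.ofRep R)).Yh _ _ (cvac κ Y)
        KJr1.cen_cvac (Yh_vac (cmod κ Y (TMod.ofRep R)))))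
    · intro n a y hy hyW
      exact (hW _).2 (KJr1.J_step (cmod κ Y (TMod.ofRep R)).Yh
        (cen (κ := κ) (Y := Y) 0 (isEnergy_zero (LRep.triv B)))
        (cen (κ := κ) (Y := Y) 0 (isEnergy_zero R)) ((cmod κ Y (TMod.triv B)).J n a) n
        ((cmod κ Y (TMod.ofRep R)).smooth.isFld a) y ((hW y).1 hyW)
        (Yh_J (cmod κ Y (TMod.ofRep R)) n a y) (Yh_J (cmod κ Y (TMod.ofRep R)) n a _)
        (cen_J 0 (isEnergy_zero (LRep.triv B)) n a y)
        (KJr1.cur_step _ _ fun k z => cen_J 0 (isEnergy_zero R) k a z))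
  exact KJr1.fin_step (cmod κ Y (TMod.ofRep R)).Yh _ _ w ((hW w).1 (hle hw)) k x

end general

end WPE
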