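import Pool.Agent.WPE.FD14
import Pool.Agent.WPE.KJ1
import Pool.Agent.WPE.KJD

/-! WPE, block KJ, row KJ3: the vertex operators on the parts and the operator of the `D`-degree. -/

set_option linter.unusedSectionVars false

namespace WPE

open scoped TensorProduct

section kin

variable {B : Type} [LieRing B] [LieAlgebra ℂ B] {κ : B →ₗ[ℂ] B →ₗ[ℂ] ℂ}
  {Y : Type} [AddCommGroup Y] [Module ℂ Y] [LieRingModule B Y] [LieModule ℂ B Y]
  {N : Type} [AddCommGroup N] [Module ℂ N] {R : LRep B N} {β ζ ν : Type}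
  (I : KIn κ Y R β ζ ν)

/-- [KJ3] The vertex operators preserve `C⁰`. -/
theorem kj_Yh_mem (i : Fin 3) (w : VC κ Y) (hw : w ∈ cpart κ Y (TMod.triv B) 0) (k : ℤ)
    (x : I.Cx) (hx : x ∈ I.Cp i) : ((cmod κ Y (TMod.ofRep R)).Yh w).1 k x ∈ I.Cp i :=
  Yh_stable (cmod κ Y (TMod.ofRep R)) (I.Cp i)
    (fun m a y hy => cpart_J m a hy) w hw k x hx

/-- [KJ3] -/
theorem kj_Yh_S (a : B) (d : ℤ) (w : VC κ Y) (hw : I.IsWv a d w) (k : ℤ) (x : I.Cx) :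
    I.S (((cmod κ Y (TMod.ofRep R)).Yh w).1 k x) =
      ((cmod κ Y (TMod.ofRep R)).Yh w).1 k (I.S x) +
      ((-d - k : ℤ) : ℂ) • ((cmod κ Y (TMod.ofRep R)).Yh w).1 k x := by
  have h1 := kj_en_Yh R w hw.mem k x
  have h2 := kj_J0_Yh (cmod κ Y (TMod.ofRep R)) I.rho w k x
  have h3 : ((cmod κ Y (TMod.ofRep R)).Yh (cen 0 (isEnergy_zero (LRep.triv B)) w)).1 k x -
      ((cmod κ Y (TMod.ofRep R)).Yh ((cmod κ Y (TMod.triv B)).J 0 I.rho w)).1 k x =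
      ((1 - d : ℤ) : ℂ) • ((cmod κ Y (TMod.ofRep R)).Yh w).1 k x := by
    have h4 := congrArg (fun u => ((cmod κ Y (TMod.ofRep R)).Yh u).1 k x) hw.deg
    simp only [map_sub, map_smul] at h4
    exact h4
  show cen 0 (isEnergy_zero R) (((cmod κ Y (TMod.ofRep R)).Yh w).1 k x) -
      (cmod κ Y (TMod.ofRep R)).J 0 I.rho (((cmod κ Y (TMod.ofRep R)).Yh w).1 k x) +
      (I.top : ℂ) • ((cmod κ Y (TMod.ofRep R)).Yh w).1 k x =
    ((cmod κ Y (TMod.ofRep R)).Yh w).1 k (cen 0 (isEnergy_zero R) x -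
      (cmod κ Y (TMod.ofRep R)).J 0 I.rho x + (I.top : ℂ) • x) + _
  rw [h1, h2, map_add, map_sub, map_smul]
  have h5 : ((-d - k : ℤ) : ℂ) • ((cmod κ Y (TMod.ofRep R)).Yh w).1 k x =
      ((1 - d : ℤ) : ℂ) • ((cmod κ Y (TMod.ofRep R)).Yh w).1 k x -
      ((k : ℂ) + 1) • ((cmod κ Y (TMod.ofRep R)).Yh w).1 k x := by
    rw [← sub_smul]
    congr 1
    push_cast
    ring
  rw [h5, ← h3]
  abel

end kin

end WPE
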