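import Pool.Agent.WPE.KO9

set_option autoImplicit false

namespace WPE

open MvPolynomial (X pderiv)

section eig

variable {V W : Type} [AddCommGroup V] [Module ℂ V] [AddCommGroup W] [Module ℂ W]
  {A : V →ₗ[ℂ] V} {B : W →ₗ[ℂ] W}

theorem ko_egr_GE (c c' : ℤ) (h : c ≤ c') : egr A c' ≤ GE A c :=
  le_iSup (fun d : {d : ℤ // c ≤ d} => egr A d.1) ⟨c', h⟩

theorem ko_GE_mono (c c' : ℤ) (h : c ≤ c') : GE A c' ≤ GE A c :=
  iSup_le fun d => ko_egr_GE c d.1 (h.trans d.2)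

theorem ko_GE_map (G : V →ₗ[ℂ] W) (k : ℤ) (hG : ∀ x, B (G x) = G (A x) + (k : ℂ) • G x)
    (c : ℤ) (x : V) (hx : x ∈ GE A c) : G x ∈ GE B (c + k) := by
  have h1 : GE A c ≤ (GE B (c + k)).comap G := iSup_le fun d y hy =>
    ko_egr_GE (c + k) (d.1 + k) (by linarith [d.2]) (ko_egr_map G k hG d.1 y hy)
  exact h1 hx

/-- `G = G' + higher`, `G'` homogeneous of degree `k`. -/
theorem ko_GE_lead (G G' : V →ₗ[ℂ] W) (k : ℤ)
    (hG' : ∀ x, B (G' x) = G' (A x) + (k : ℂ) • G' x)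
    (hG : ∀ c, ∀ x ∈ egr A c, G x - G' x ∈ GE B (c + k + 1)) (c : ℤ) (x : V)
    (hx : x ∈ GE A c) : G x ∈ GE B (c + k) := by
  have h1 : GE A c ≤ (GE B (c + k)).comap G := iSup_le fun d y hy => by
    have h2 : G' y ∈ GE B (c + k) :=
      ko_egr_GE (c + k) (d.1 + k) (by linarith [d.2]) (ko_egr_map G' k hG' d.1 y hy)
    have h3 : G y - G' y ∈ GE B (c + k) :=
      ko_GE_mono (c + k) (d.1 + k + 1) (by linarith [d.2]) (hG d.1 y hy)
    have h4 := Submodule.add_mem _ h3 h2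
    rw [sub_add_cancel] at h4
    exact h4
  exact h1 hx

theorem ko_GE_lead' (G G' : V →ₗ[ℂ] W) (k : ℤ)
    (hG : ∀ c, ∀ x ∈ egr A c, G x - G' x ∈ GE B (c + k + 1)) (c : ℤ) (x : V)
    (hx : x ∈ GE A c) : G x - G' x ∈ GE B (c + k + 1) := by
  have h1 : GE A c ≤ (GE B (c + k + 1)).comap (G - G') := iSup_le fun d y hy =>
    ko_GE_mono (c + k + 1) (d.1 + k + 1) (by linarith [d.2]) (hG d.1 y hy)
  exact h1 hx

theorem KO10.indep : iSupIndep (egr A) :=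
  (Module.End.eigenspaces_iSupIndep A).comp (f := fun c : ℤ => (c : ℂ)) Int.cast_injective

theorem KO10.zero {c : ℤ} {U : Submodule ℂ V} (hU : U ≤ ⨆ j, ⨆ (_ : j ≠ c), egr A j) (x : V)
    (hx : x ∈ egr A c) (hx' : x ∈ U) : x = 0 :=
  Submodule.disjoint_def.1 (KO10.indep c) x hx (hU hx')

theorem ko_egr_inf (c c' : ℤ) (h : c < c') (x : V) (hx : x ∈ egr A c) (hx' : x ∈ GE A c') :
    x = 0 := by
  refine KO10.zero ?_ x hx hx'
  refine iSup_le fun d => ?_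
  refine le_iSup_of_le d.1 (le_iSup_of_le ?_ le_rfl)
  have h1 := d.2
  intro h2
  linarith

theorem ko_mem_GE (h : IsEig A) (c : ℤ) (x : V) :
    x ∈ GE A c ↔ ∀ c', c' < c → pr A c' x = 0 := by
  constructor
  · intro hx c' hc'
    have h1 : GE A c ≤ LinearMap.ker (pr A c') := iSup_le fun d y hy =>
      LinearMap.mem_ker.2 (ko_pr_ne h c' d.1 (by
        have h2 := d.2
        intro h3
        linarith) y hy)
    exact LinearMap.mem_ker.1 (h1 hx)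
  · intro hx
    obtain ⟨s, _, hs⟩ := ko_pr_sum h x
    rw [hs]
    refine Submodule.sum_mem _ fun d _ => ?_
    by_cases hd : d < c
    · rw [hx d hd]
      exact Submodule.zero_mem _
    · exact ko_egr_GE c d (not_lt.1 hd) (ko_pr_mem h d x)

theorem ko_GE_step (h : IsEig A) (c : ℤ) (x : V) (hx : x ∈ GE A c) :
    x - pr A c x ∈ GE A (c + 1) := by
  rw [ko_mem_GE h] at hx ⊢
  intro c' hc'
  rw [map_sub]
  rcases lt_or_eq_of_le (Int.lt_add_one_iff.1 hc') with h1 | h1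
  · rw [hx c' h1, ko_pr_ne h c' c h1.ne _ (ko_pr_mem h c x), sub_zero]
  · rw [h1, ko_pr_self h c _ (ko_pr_mem h c x), sub_self]

theorem ko_GE_ex (h : IsEig A) (x : V) : ∃ c, x ∈ GE A c := by
  obtain ⟨s, _, hs⟩ := ko_pr_sum h x
  obtain ⟨c, hc⟩ := s.bddBelow
  refine ⟨c, ?_⟩
  rw [hs]
  exact Submodule.sum_mem _ fun d hd => ko_egr_GE c d (hc hd) (ko_pr_mem h d x)

/-- If `V` is spanned by eigenvectors with eigenvalues `≤ m` then there are no others. -/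
theorem ko_egr_bot (m : ℤ) (h : Submodule.span ℂ {x : V | ∃ c : ℤ, c ≤ m ∧ x ∈ egr A c} = ⊤)
    (c : ℤ) (hc : m < c) : egr A c = ⊥ := by
  refine (Submodule.eq_bot_iff _).2 fun x hx => ?_
  refine KO10.zero (U := ⊤) ?_ x hx Submodule.mem_top
  rw [← h]
  refine Submodule.span_le.2 ?_
  rintro y ⟨d, hd, hy⟩
  exact Submodule.mem_iSup_of_mem d (Submodule.mem_iSup_of_mem (by
    intro h2
    linarith) hy)

theorem ko_GE_bot (m : ℤ) (h : Submodule.span ℂ {x : V | ∃ c : ℤ, c ≤ m ∧ x ∈ egr A c} = ⊤)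
    (c : ℤ) (hc : m < c) : GE A c = ⊥ :=
  iSup_eq_bot.2 fun d => ko_egr_bot m h d.1 (hc.trans_le d.2)

end eig

end WPE
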