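import Pool.Agent.WPE.KJ1
import Pool.Agent.WPE.KJD
import Pool.Agent.WPE.KO10

/-! [KJ4] The vertex operators and the degree of `J 0 rho`. -/

set_option linter.unusedSectionVars false

namespace WPE

open scoped TensorProduct

section kin

variable {B : Type} [LieRing B] [LieAlgebra ℂ B] {κ : B →ₗ[ℂ] B →ₗ[ℂ] ℂ}
  {Y : Type} [AddCommGroup Y] [Module ℂ Y] [LieRingModule B Y] [LieModule ℂ B Y]
  {N : Type} [AddCommGroup N] [Module ℂ N] {R : LRep B N} {β ζ ν : Type}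
  (I : KIn κ Y R β ζ ν)

/-- [KJ4] -/
theorem kj_Yh_R (c c' : ℤ) (w : VC κ Y) (hw : w ∈ GE ((cmod κ Y (TMod.triv B)).J 0 I.rho) c)
    (k : ℤ) (x : I.Cx) (hx : x ∈ egr (I.J 0 I.rho) c') :
    ((cmod κ Y (TMod.ofRep R)).Yh w).1 k x ∈ GE (I.J 0 I.rho) (c' + c) := by
  let F : VC κ Y →ₗ[ℂ] I.Cx :=
    { toFun := fun w => ((cmod κ Y (TMod.ofRep R)).Yh w).1 k x
      map_add' := fun u v => by rw [map_add]; rfl
      map_smul' := fun r u => by rw [map_smul]; rfl }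
  have h : GE ((cmod κ Y (TMod.triv B)).J 0 I.rho) c ≤ (GE (I.J 0 I.rho) (c' + c)).comap F := by
    refine iSup_le fun d y hy => ?_
    rw [Submodule.mem_comap]
    refine ko_egr_GE (c' + c) (c' + d.1) (by have := d.2; omega) ?_
    rw [ko_mem_egr] at hx hy ⊢
    have h1 := kj_J0_Yh (cmod κ Y (TMod.ofRep R)) I.rho y k x
    have h2 : (cmod κ Y (TMod.ofRep R)).J 0 I.rho x = ((c' : ℤ) : ℂ) • x := hx
    rw [h2, hy, map_smul] at h1
    show (cmod κ Y (TMod.ofRep R)).J 0 I.rho (((cmod κ Y (TMod.ofRep R)).Yh y).1 k x) =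
      ((c' + d.1 : ℤ) : ℂ) • ((cmod κ Y (TMod.ofRep R)).Yh y).1 k x
    rw [h1]
    have h3 : ((cmod κ Y (TMod.ofRep R)).Yh (((d.1 : ℤ) : ℂ) • y)).1 k x =
        ((d.1 : ℤ) : ℂ) • ((cmod κ Y (TMod.ofRep R)).Yh y).1 k x := by
      rw [map_smul]
      rfl
    rw [h3, ← add_smul]
    push_cast
    rfl
  exact h hw

/-- [KJ4] -/
theorem kj_Yh_lead (a : B) (d : ℤ) (w : VC κ Y) (hw : I.IsWv a d w) (k : ℤ) (c : ℤ) (x : I.Cx)
    (hx : x ∈ egr (I.J 0 I.rho) c) :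
    ((cmod κ Y (TMod.ofRep R)).Yh w).1 k x - I.J k a x ∈
      GE (I.J 0 I.rho) (c + d + 1) := by
  have h := kj_Yh_R I (d + 1) c _ hw.low k x hx
  have h1 : ((cmod κ Y (TMod.ofRep R)).Yh
      (w - (cmod κ Y (TMod.triv B)).J (-1) a (cvac κ Y))).1 k x =
      ((cmod κ Y (TMod.ofRep R)).Yh w).1 k x - I.J k a x := by
    rw [map_sub]
    have h2 := congrFun (Yh_cur (cmod κ Y (TMod.ofRep R)) a) k
    have h3 : (((cmod κ Y (TMod.ofRep R)).Yh w - (cmod κ Y (TMod.ofRep R)).Yh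
      ((cmod κ Y (TMod.triv B)).J (-1) a (cvac κ Y))).1 k) x =
      ((cmod κ Y (TMod.ofRep R)).Yh w).1 k x - ((cmod κ Y (TMod.ofRep R)).Yh
      ((cmod κ Y (TMod.triv B)).J (-1) a (cvac κ Y))).1 k x := rfl
    rw [h3, h2]
    rfl
  rw [h1, ← add_assoc] at h
  exact h

end kin

end WPE
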