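import Pool.Agent.WPE.KJ2
import Pool.Agent.WPE.KJ3
import Pool.Agent.WPE.KJ4

/-! WPE, block KJ, row KJ5: the operators `(w_z)_(-1-s)` and `(w_F)_(0)`. -/

set_option linter.unusedSectionVars false

namespace WPE

open scoped TensorProduct

section kin

variable {B : Type} [LieRing B] [LieAlgebra ℂ B] {κ : B →ₗ[ℂ] B →ₗ[ℂ] ℂ}
  {Y : Type} [AddCommGroup Y] [Module ℂ Y] [LieRingModule B Y] [LieModule ℂ B Y]
  {N : Type} [AddCommGroup N] [Module ℂ N] {R : LRep B N} {β ζ ν : Type}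
  (I : KIn κ Y R β ζ ν)

theorem KJr5.ker (a : B) (d' : ℤ) (w : VC κ Y) (hw : I.IsWv a d' w) (k : ℤ) (x : I.Cp 0)
    (hx : I.kg.Q x = 0) :
    I.kg.Q ((((cmod κ Y (TMod.ofRep R)).Yh w).1 k).restrict
      (kj_Yh_mem I 0 w hw.mem k) x) = 0 := by
  rw [kj_Q] at hx ⊢
  exact hw.ker k _ x.2 hx

theorem KJr5.deg (a : B) (d' : ℤ) (w : VC κ Y) (hw : I.IsWv a d' w) (k d : ℤ)
    (hd : -d' - k = d) (x : I.Cp 0) :
    I.kg.S0 ((((cmod κ Y (TMod.ofRep R)).Yh w).1 k).restrict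
        (kj_Yh_mem I 0 w hw.mem k) x) =
      (((cmod κ Y (TMod.ofRep R)).Yh w).1 k).restrict (kj_Yh_mem I 0 w hw.mem k)
        (I.kg.S0 x) + (d : ℂ) • (((cmod κ Y (TMod.ofRep R)).Yh w).1 k).restrict
        (kj_Yh_mem I 0 w hw.mem k) x := by
  subst hd
  exact Subtype.ext (kj_Yh_S I a d' w hw k (x : I.Cx))

theorem KJr5.lead (a : B) (d' : ℤ) (w : VC κ Y) (hw : I.IsWv a d' w) (k c : ℤ) (x : I.Cp 0)
    (hx : x ∈ egr I.kg.R0 c) (y : I.Cp 0) (hy : (y : I.Cx) = I.J k a (x : I.Cx)) :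
    (((cmod κ Y (TMod.ofRep R)).Yh w).1 k).restrict
        (kj_Yh_mem I 0 w hw.mem k) x - y ∈ GE I.kg.R0 (c + d' + 1) := by
  have h1 : x ∈ egr (I.Rr 0) c := hx
  rw [kj_egr_R] at h1
  have h2 := kj_Yh_lead I a d' w hw k c _ h1
  refine (kj_GE_R I 0 _ _).2 ?_
  rw [Submodule.coe_sub, hy]
  exact h2

/-- [KJ5] -/
theorem kj_Wop (w : ζ → VC κ Y)
    (hw : ∀ i, I.IsWv (I.b (Sum.inr i)) (I.cb (Sum.inr i)) (w i)) :
    I.kg.Wop (fun p => (((cmod κ Y (TMod.ofRep R)).Yh (w p.2)).1 (-1 - (p.1 : ℤ))).restrict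
      (kj_Yh_mem I 0 (w p.2) (hw p.2).mem _)) where
  ker p x hx := KJr5.ker I _ _ (w p.2) (hw p.2) _ x hx
  deg p x := KJr5.deg I _ _ (w p.2) (hw p.2) _ _ (by
    show _ = ((p.1 : ℕ) : ℤ) + 1 - I.cb (Sum.inr p.2)
    ring) x
  lead p c x hx := KJr5.lead I _ _ (w p.2) (hw p.2) _ c x hx _ (by
    show I.J (-((p.1 : ℕ) : ℤ) - 1) (I.b (Sum.inr p.2)) (x : I.Cx) = _
    rw [show -((p.1 : ℕ) : ℤ) - 1 = -1 - (p.1 : ℤ) by ring])

/-- [KJ5] -/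
theorem kj_Fop (a : B) (ha : ⁅I.rho, a⁆ = -a) (w : VC κ Y) (hw : I.IsWv a (-1) w) :
    I.kg.Fop ((I.J 0 a).restrict (I.J_mem 0 _ _))
      ((((cmod κ Y (TMod.ofRep R)).Yh w).1 0).restrict (kj_Yh_mem I 0 w hw.mem _)) where
  JR x := by
    refine Subtype.ext ?_
    have h1 := (cmod κ Y (TMod.ofRep R)).comm 0 0 I.rho a (x : I.Cx)
    rw [add_zero, ha] at h1
    show (cmod κ Y (TMod.ofRep R)).J 0 I.rho
        ((cmod κ Y (TMod.ofRep R)).J 0 a (x : I.Cx)) =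
      (cmod κ Y (TMod.ofRep R)).J 0 a
        ((cmod κ Y (TMod.ofRep R)).J 0 I.rho (x : I.Cx)) + ((-1 : ℤ) : ℂ) •
        (cmod κ Y (TMod.ofRep R)).J 0 a (x : I.Cx)
    have h2 : coc κ 0 0 I.rho a = 0 := by
      unfold coc
      simp
    rw [h2, zero_smul, add_zero, map_neg, LinearMap.neg_apply] at h1
    rw [Int.cast_neg, Int.cast_one, neg_smul, one_smul, ← h1]
    abel
  ker x hx := KJr5.ker I _ _ w hw 0 x hx
  deg x := KJr5.deg I _ _ w hw 0 1 (by norm_num) x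
  lead c x hx := by
    have h := KJr5.lead I _ _ w hw 0 c x hx
      ((I.J 0 a).restrict (I.J_mem 0 _ _) x) rfl
    rw [show c + -1 + 1 = c by ring] at h
    exact h

end kin

end WPE
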