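import Pool.Agent.WPE.CL1

/-! [WPE-KMI0] Symbols (with respect to the PBW filtration, all modes) on induced modules. -/

set_option autoImplicit false
set_option linter.unusedSectionVars false

namespace WPE

open MvPolynomial

noncomputable section

variable {B : Type} [LieRing B] [LieAlgebra ℂ B] {κ : B →ₗ[ℂ] B →ₗ[ℂ] ℂ}
variable {N : Type} [AddCommGroup N] [Module ℂ N] {T : TMod B N}
variable {La : Type} (b : Module.Basis La ℂ B)

/-- The monomial of a word. -/
def smon (l : List (ℕ × La)) : MvPolynomial (ℕ × La) ℂ := (l.map MvPolynomial.X).prod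

theorem smon_cons (x : ℕ × La) (l : List (ℕ × La)) : smon (x :: l) = X x * smon l := by
  unfold smon
  rw [List.map_cons, List.prod_cons]

theorem smon_perm {l l' : List (ℕ × La)} (h : l.Perm l') : smon l = smon l' := by
  unfold smon
  exact (h.map _).prod_eq

section sym

variable {V : Type} [AddCommGroup V] [Module ℂ V] [Module (MvPolynomial (ℕ × La) ℂ) V]
  [IsScalarTower ℂ (MvPolynomial (ℕ × La) ℂ) V]

/-- The symbol maps exist. -/
theorem exists_sym (hk : IsInvForm κ) (φ : N →ₗ[ℂ] V) (m : ℕ) :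
    ∃ Φ : Ind κ T →ₗ[ℂ] V, ∀ (l : List (ℕ × La)) (v : N), l.length ≤ m →
      Φ (cword κ T b l v) = if l.length = m then smon l • φ v else 0 := by
  classical
  -- a linear order on the letters
  obtain ⟨ord, hbij⟩ := cl_pbw (κ := κ) (T := T) hk b
  let _ := ord
  let S := LinearEquiv.ofBijective _ hbij
  let G : ({l : List (ℕ × La) // l.Pairwise (· ≤ ·)} →₀ N) →ₗ[ℂ] V :=
    Finsupp.lsum ℂ fun w => if w.1.length = m then
      (LinearMap.lsmul (MvPolynomial (ℕ × La) ℂ) V (smon w.1)).restrictScalars ℂ ∘ₗ φ else 0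
  let Φ : Ind κ T →ₗ[ℂ] V := G ∘ₗ S.symm.toLinearMap
  have hsort : ∀ (w : {l : List (ℕ × La) // l.Pairwise (· ≤ ·)}) (v : N),
      Φ (cword κ T b w.1 v) = if w.1.length = m then smon w.1 • φ v else 0 := by
    intro w v
    have h1 : S (Finsupp.single w v) = cword κ T b w.1 v := by
      show (Finsupp.lsum ℂ _) (Finsupp.single w v) = _
      rw [Finsupp.lsum_single]
    rw [← h1]
    show G (S.symm (S (Finsupp.single w v))) = _
    rw [S.symm_apply_apply]
    show (Finsupp.lsum ℂ _) (Finsupp.single w v) = _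
    rw [Finsupp.lsum_single]
    split_ifs with h
    · rfl
    · rfl
  have key : ∀ (n : ℕ) (l : List (ℕ × La)), l.length = n → n ≤ m → ∀ v : N,
      Φ (cword κ T b l v) = if l.length = m then smon l • φ v else 0 := by
    intro n
    induction n using Nat.strong_induction_on with
    | _ n ih =>
      intro l hl hnm
      have swap : ∀ (l1 l2 : List (ℕ × La)) (x y : ℕ × La), (l1 ++ x :: y :: l2).length = n →
          ∀ v, Φ (cword κ T b (l1 ++ x :: y :: l2) v) =
            Φ (cword κ T b (l1 ++ y :: x :: l2) v) := by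
        intro l1 l2 x y hl v
        rw [← cW_word, ← cW_word, cW_append, cW_append, ← sub_eq_zero, ← map_sub, ← cW_sub]
        show Φ (cW κ T b l1 (cJ κ T b x (cJ κ T b y _) - cJ κ T b y (cJ κ T b x _))) = 0
        rw [cJ_comm, cW_sum, map_sum]
        refine Finset.sum_eq_zero fun k _ => ?_
        rw [cW_smul, map_smul]
        have h1 : cW κ T b l1 (cJ κ T b (x.1 + y.1 + 1, k) (cW κ T b l2 (Ind.incl κ T v))) =
            cword κ T b (l1 ++ (x.1 + y.1 + 1, k) :: l2) v := by
          rw [← cW_word, cW_append]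
          rfl
        have h4 : (l1 ++ (x.1 + y.1 + 1, k) :: l2).length = n - 1 := by
          rw [List.length_append, List.length_cons] at hl ⊢
          rw [List.length_cons] at hl
          omega
        have h5 : 1 ≤ n := by
          rw [List.length_append, List.length_cons] at hl
          omega
        rw [h1, ih (n - 1) (by omega) (l1 ++ (x.1 + y.1 + 1, k) :: l2) h4 (by omega),
          if_neg (by rw [h4]; omega), smul_zero]
      have perm : ∀ (l l' : List (ℕ × La)), l.Perm l' → ∀ l1 : List (ℕ × La),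
          (l1 ++ l).length = n → ∀ v, Φ (cword κ T b (l1 ++ l) v) =
            Φ (cword κ T b (l1 ++ l') v) := by
        intro l l' h
        induction h with
        | nil => intro l1 _ v; rfl
        | cons x h ih2 =>
          intro l1 hl v
          have := ih2 (l1 ++ [x]) (by rw [List.append_assoc]; exact hl) v
          rw [List.append_assoc, List.append_assoc] at this
          exact this
        | swap x y l => intro l1 hl v; exact swap l1 l y x hl v
        | trans h1 h2 ih1 ih2 =>
          intro l1 hl v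
          rw [ih1 l1 hl v, ih2 l1 (by
            rw [List.length_append, ← h1.length_eq, ← List.length_append]
            exact hl) v]
      intro v
      have hp : (l.mergeSort (fun a b => decide (a ≤ b))).Perm l := List.mergeSort_perm l _
      have hs : (l.mergeSort (fun a b => decide (a ≤ b))).Pairwise (· ≤ ·) := by
        have := List.pairwise_mergeSort (le := fun a b : ℕ × La => decide (a ≤ b))
          (fun a b c h1 h2 => by
            simp only [decide_eq_true_eq] at h1 h2 ⊢
            exact le_trans h1 h2)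
          (fun a b => by
            simp only [Bool.or_eq_true, decide_eq_true_eq]
            exact le_total a b) l
        exact this.imp fun h => by simpa using h
      have h1 := perm _ _ hp.symm [] (by rw [List.nil_append]; exact hl) v
      rw [List.nil_append, List.nil_append] at h1
      rw [h1, hsort ⟨_, hs⟩ v]
      show (if (l.mergeSort _).length = m then smon (l.mergeSort _) • φ v else 0) = _
      rw [hp.length_eq, smon_perm hp]
  exact ⟨Φ, fun l v h => key _ l rfl h v⟩

end sym

/-- The coordinates of `a`, with the variables of level `s`. -/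
def slam (s : ℕ) : B →ₗ[ℂ] MvPolynomial (ℕ × La) ℂ :=
  (Finsupp.linearCombination ℂ fun i => (X (s, i) : MvPolynomial (ℕ × La) ℂ)) ∘ₗ b.repr.toLinearMap

theorem slam_basis (s : ℕ) (i : La) : slam b s (b i) = X (s, i) := by
  unfold slam
  rw [LinearMap.comp_apply]
  show Finsupp.linearCombination ℂ _ (b.repr (b i)) = _
  rw [b.repr_self, Finsupp.linearCombination_single, one_smul]

/-- The span of the words with at most `m` letters. -/
def FW (κ : B →ₗ[ℂ] B →ₗ[ℂ] ℂ) (T : TMod B N) (b : Module.Basis La ℂ B) (m : ℕ) :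
    Submodule ℂ (Ind κ T) :=
  Submodule.span ℂ {x | ∃ (l : List (ℕ × La)) (v : N), l.length ≤ m ∧ x = cword κ T b l v}

variable {b}

theorem FW_word {l : List (ℕ × La)} {m : ℕ} (h : l.length ≤ m) (v : N) :
    cword κ T b l v ∈ FW κ T b m := Submodule.subset_span ⟨l, v, h, rfl⟩

theorem FW_mono {m n : ℕ} (h : m ≤ n) : FW κ T b m ≤ FW κ T b n :=
  Submodule.span_mono fun _ ⟨l, v, hl, hx⟩ => ⟨l, v, le_trans hl h, hx⟩

theorem FW_zero {x : Ind κ T} (hx : x ∈ FW κ T b 0) : ∃ v, x = Ind.incl κ T v := by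
  induction hx using Submodule.span_induction with
  | mem x h =>
    obtain ⟨l, v, hl, rfl⟩ := h
    have : l = [] := List.length_eq_zero_iff.1 (Nat.le_zero.1 hl)
    subst this
    exact ⟨v, rfl⟩
  | zero => exact ⟨0, (map_zero _).symm⟩
  | add x y _ _ hx hy =>
    obtain ⟨v, rfl⟩ := hx
    obtain ⟨w, rfl⟩ := hy
    exact ⟨v + w, (map_add _ v w).symm⟩
  | smul c x _ hx =>
    obtain ⟨v, rfl⟩ := hx
    exact ⟨c • v, (map_smul _ c v).symm⟩

theorem FW_incl (m : ℕ) (v : N) : Ind.incl κ T v ∈ FW κ T b m :=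
  FW_word (l := []) (Nat.zero_le m) v

/-- Negative modes raise the filtration by one. -/
theorem FW_J (s : ℕ) (a : B) {m : ℕ} {x : Ind κ T} (hx : x ∈ FW κ T b m) :
    (Ind.mod κ T).J (-(s : ℤ) - 1) a x ∈ FW κ T b (m + 1) := by
  rw [← b.linearCombination_repr a, Finsupp.linearCombination_apply, Finsupp.sum, map_sum,
    LinearMap.sum_apply]
  refine Submodule.sum_mem _ fun i _ => ?_
  rw [map_smul, LinearMap.smul_apply]
  refine Submodule.smul_mem _ _ ?_
  induction hx using Submodule.span_induction with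
  | mem x h =>
    obtain ⟨l, v, hl, rfl⟩ := h
    exact FW_word (l := (s, i) :: l) (by rw [List.length_cons]; omega) v
  | zero => rw [map_zero]; exact zero_mem _
  | add x y _ _ hx hy => rw [map_add]; exact add_mem hx hy
  | smul c x _ hx => rw [map_smul]; exact Submodule.smul_mem _ _ hx

/-- Induction on the filtration: `FW (m + 1)` is spanned by `FW m` and the `J (-s-1) a x`,
`x ∈ FW m`. -/
theorem FW_succ (W : Submodule ℂ (Ind κ T)) (m : ℕ) (h0 : FW κ T b m ≤ W)
    (h1 : ∀ (s : ℕ) (i : La) (x : Ind κ T), x ∈ FW κ T b m →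
      (Ind.mod κ T).J (-(s : ℤ) - 1) (b i) x ∈ W) : FW κ T b (m + 1) ≤ W := by
  refine Submodule.span_le.2 ?_
  rintro x ⟨l, v, hl, rfl⟩
  rcases l with _ | ⟨p, l⟩
  · exact h0 (FW_incl m v)
  · exact h1 p.1 p.2 _ (FW_word (by rw [List.length_cons] at hl; omega) v)

/-- Nonnegative modes preserve the filtration. -/
theorem FW_Jpos (k : ℕ) (a : B) {m : ℕ} {x : Ind κ T} (hx : x ∈ FW κ T b m) :
    (Ind.mod κ T).J (k : ℤ) a x ∈ FW κ T b m := by
  have key : ∀ (m k : ℕ) (a : B), FW κ T b m ≤ (FW κ T b m).comap ((Ind.mod κ T).J (k : ℤ) a) := by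
    intro m
    induction m with
    | zero =>
      intro k a x hx
      obtain ⟨v, rfl⟩ := FW_zero hx
      rw [Submodule.mem_comap, Ind.J_incl]
      exact FW_incl 0 _
    | succ m ih =>
      intro k a
      refine FW_succ _ m ?_ ?_
      · exact fun x hx => FW_mono (Nat.le_succ m) (ih k a hx)
      · intro s i x hx
        rw [Submodule.mem_comap]
        have h := (Ind.mod κ T).comm (k : ℤ) (-(s : ℤ) - 1) a (b i) x
        have h2 : (Ind.mod κ T).J (k : ℤ) a ((Ind.mod κ T).J (-(s : ℤ) - 1) (b i) x) =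
            (Ind.mod κ T).J (-(s : ℤ) - 1) (b i) ((Ind.mod κ T).J (k : ℤ) a x) +
              ((Ind.mod κ T).J ((k : ℤ) + (-(s : ℤ) - 1)) ⁅a, b i⁆ x +
                coc κ (k : ℤ) (-(s : ℤ) - 1) a (b i) • x) := by
          rw [← h]
          abel
        rw [h2]
        refine add_mem (FW_J s _ (ih k a hx)) (add_mem ?_ ?_)
        · by_cases hks : s < k
          · obtain ⟨t, ht⟩ : ∃ t : ℕ, (k : ℤ) + (-(s : ℤ) - 1) = (t : ℤ) :=
              ⟨k - s - 1, by omega⟩
            rw [ht]
            exact FW_mono (Nat.le_succ m) (ih t _ hx)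
          · obtain ⟨t, ht⟩ : ∃ t : ℕ, (k : ℤ) + (-(s : ℤ) - 1) = -(t : ℤ) - 1 :=
              ⟨s - k, by omega⟩
            rw [ht]
            exact FW_J t _ hx
        · exact Submodule.smul_mem _ _ (FW_mono (Nat.le_succ m) hx)
  exact key m k a hx

section sym2

variable {V : Type} [AddCommGroup V] [Module ℂ V] [Module (MvPolynomial (ℕ × La) ℂ) V]
  [IsScalarTower ℂ (MvPolynomial (ℕ × La) ℂ) V]

/-- `Φ m` is the symbol map of degree `m`. -/
def IsSym (κ : B →ₗ[ℂ] B →ₗ[ℂ] ℂ) (T : TMod B N) (b : Module.Basis La ℂ B) (φ : N →ₗ[ℂ] V)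
    (Φ : ℕ → Ind κ T →ₗ[ℂ] V) : Prop :=
  ∀ (m : ℕ) (l : List (ℕ × La)) (v : N), l.length ≤ m →
    Φ m (cword κ T b l v) = if l.length = m then smon l • φ v else 0

variable {φ : N →ₗ[ℂ] V} {Φ : ℕ → Ind κ T →ₗ[ℂ] V}

theorem IsSym.exists (hk : IsInvForm κ) (φ : N →ₗ[ℂ] V) :
    ∃ Φ : ℕ → Ind κ T →ₗ[ℂ] V, IsSym κ T b φ Φ := by
  choose Φ hΦ using fun m => exists_sym (κ := κ) (T := T) b hk φ m
  exact ⟨Φ, hΦ⟩

theorem IsSym.zero (h : IsSym κ T b φ Φ) {m n : ℕ} (hmn : m < n) {x : Ind κ T}
    (hx : x ∈ FW κ T b m) : Φ n x = 0 := by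
  induction hx using Submodule.span_induction with
  | mem x hx =>
    obtain ⟨l, v, hl, rfl⟩ := hx
    rw [h n l v (by omega), if_neg (by omega)]
  | zero => exact map_zero _
  | add x y _ _ hx hy => rw [map_add, hx, hy, add_zero]
  | smul c x _ hx => rw [map_smul, hx, smul_zero]

theorem IsSym.incl (h : IsSym κ T b φ Φ) (v : N) : Φ 0 (Ind.incl κ T v) = φ v := by
  have := h 0 [] v (le_refl _)
  rw [if_pos List.length_nil] at this
  refine this.trans ?_
  show (1 : MvPolynomial (ℕ × La) ℂ) • φ v = φ v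
  rw [one_smul]

theorem IsSym.J (h : IsSym κ T b φ Φ) (s : ℕ) (a : B) {m : ℕ} {x : Ind κ T}
    (hx : x ∈ FW κ T b m) :
    Φ (m + 1) ((Ind.mod κ T).J (-(s : ℤ) - 1) a x) = slam b s a • Φ m x := by
  have key : ∀ i, Φ (m + 1) ((Ind.mod κ T).J (-(s : ℤ) - 1) (b i) x) =
      (X (s, i) : MvPolynomial (ℕ × La) ℂ) • Φ m x := by
    intro i
    induction hx using Submodule.span_induction with
    | mem x hx =>
      obtain ⟨l, v, hl, rfl⟩ := hx
      have e : (Ind.mod κ T).J (-(s : ℤ) - 1) (b i) (cword κ T b l v) =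
          cword κ T b ((s, i) :: l) v := rfl
      rw [e, h (m + 1) _ v (by rw [List.length_cons]; omega), h m l v hl, List.length_cons]
      by_cases hm : l.length = m
      · rw [if_pos (by omega), if_pos hm, smon_cons, mul_smul]
      · rw [if_neg (by omega), if_neg hm, smul_zero]
    | zero => rw [map_zero, map_zero, map_zero, smul_zero]
    | add x y _ _ hx hy => rw [map_add, map_add, map_add, hx, hy, smul_add]
    | smul c x _ hx => rw [map_smul, map_smul, map_smul, hx, smul_comm]
  unfold slam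
  rw [LinearMap.comp_apply]
  show _ = Finsupp.linearCombination ℂ _ (b.repr a) • _
  conv_lhs => rw [← b.linearCombination_repr a]
  rw [Finsupp.linearCombination_apply, Finsupp.sum, map_sum, LinearMap.sum_apply, map_sum,
    Finsupp.linearCombination_apply, Finsupp.sum, Finset.sum_smul]
  refine Finset.sum_congr rfl fun i _ => ?_
  rw [map_smul, LinearMap.smul_apply, map_smul, key, smul_assoc]

end sym2

end

end WPE
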