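import Pool.Agent.WPE.IND4
import Pool.Agent.WPE.KMI0

/-! [WPE-KMI1] Symbols, currents and ghosts on the vacuum complex. -/

set_option autoImplicit false
set_option linter.unusedSectionVars false

namespace WPE

open MvPolynomial
open scoped TensorProduct

noncomputable section

variable {B : Type} [LieRing B] [LieAlgebra ℂ B] {κ : B →ₗ[ℂ] B →ₗ[ℂ] ℂ}
variable {Y : Type} [AddCommGroup Y] [Module ℂ Y] [LieRingModule B Y] [LieModule ℂ B Y]
variable {La Γ : Type} {b : Module.Basis La ℂ B}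

variable (κ Y b) in
/-- The filtration on the vacuum complex. -/
abbrev FV (m : ℕ) : Submodule ℂ (VC κ Y) := FW κ (TMod.gt Y (TMod.triv B)).toTMod b m

variable (La Γ) in
/-- The target of the symbol maps. -/
abbrev SV : Type := MvPolynomial (ℕ × La) ℂ × (ℕ → Γ → MvPolynomial (ℕ × La) ℂ)

variable (La) in
/-- The constants. -/
def cS : ℂ →ₗ[ℂ] MvPolynomial (ℕ × La) ℂ := Algebra.linearMap ℂ _

variable (La) in
/-- The initial map. -/
def sφ (θ : Γ → Y →ₗ[ℂ] ℂ) : KN Y ℂ →ₗ[ℂ] SV La Γ :=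
  LinearMap.prod (cS La ∘ₗ LinearMap.fst ℂ _ _)
    (LinearMap.pi fun j => LinearMap.pi fun c => cS La ∘ₗ θ c ∘ₗ Finsupp.lapply j ∘ₗ
      (TensorProduct.rid ℂ (Gh Y)).toLinearMap ∘ₗ LinearMap.fst ℂ _ _ ∘ₗ LinearMap.snd ℂ _ _)

theorem sφ_fst (θ : Γ → Y →ₗ[ℂ] ℂ) (v : KN Y ℂ) : (sφ La θ v).1 = C v.1 := rfl

theorem sφ_snd (θ : Γ → Y →ₗ[ℂ] ℂ) (v : KN Y ℂ) (j : ℕ) (c : Γ) :
    (sφ La θ v).2 j c = C (θ c ((TensorProduct.rid ℂ (Gh Y) v.2.1) j)) := rfl

theorem sφ_om (θ : Γ → Y →ₗ[ℂ] ℂ) (k : ℕ) (y : Y) (v : KN Y ℂ) (j : ℕ) (c : Γ) :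
    (sφ La θ (ghOm Y (Finsupp.single k y) v)).2 j c =
      if j = k then C (θ c y) * (sφ La θ v).1 else 0 := by
  rw [sφ_snd, sφ_fst, ghOm_apply]
  have h2 : TensorProduct.rid ℂ (Gh Y) (Finsupp.single k y ⊗ₜ[ℂ] v.1) =
      v.1 • Finsupp.single k y := TensorProduct.rid_tmul _ _
  show C (θ c ((TensorProduct.rid ℂ (Gh Y) (Finsupp.single k y ⊗ₜ[ℂ] v.1)) j)) = _
  rw [h2, Finsupp.smul_apply]
  split_ifs with hk
  · subst hk
    rw [Finsupp.single_eq_same, map_smul, smul_eq_mul, C_mul, mul_comm]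
  · rw [Finsupp.single_eq_of_ne hk, smul_zero, map_zero, C_0]

theorem FV_J (s : ℕ) (a : B) {m : ℕ} {x : VC κ Y} (hx : x ∈ FV κ Y b m) :
    (cmod κ Y (TMod.triv B)).J (-(s : ℤ) - 1) a x ∈ FV κ Y b (m + 1) := FW_J s a hx

theorem FV_Jpos (k : ℕ) (a : B) {m : ℕ} {x : VC κ Y} (hx : x ∈ FV κ Y b m) :
    (cmod κ Y (TMod.triv B)).J (k : ℤ) a x ∈ FV κ Y b m := FW_Jpos k a hx

theorem psi_J (m n : ℤ) (a : B) (y : Y) (x : VC κ Y) :
    (cmod κ Y (TMod.triv B)).ψ n y ((cmod κ Y (TMod.triv B)).J m a x) =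
      (cmod κ Y (TMod.triv B)).J m a ((cmod κ Y (TMod.triv B)).ψ n y x) -
        (cmod κ Y (TMod.triv B)).ψ (m + n) ⁅a, y⁆ x := by
  rw [← (cmod κ Y (TMod.triv B)).commψ]
  abel

/-- Creation operators of ghosts preserve the filtration. -/
theorem FV_psi (k : ℕ) (y : Y) {m : ℕ} {x : VC κ Y} (hx : x ∈ FV κ Y b m) :
    (cmod κ Y (TMod.triv B)).ψ (-(k : ℤ) - 1) y x ∈ FV κ Y b m := by
  have key : ∀ (m k : ℕ) (y : Y), FV κ Y b m ≤
      (FV κ Y b m).comap ((cmod κ Y (TMod.triv B)).ψ (-(k : ℤ) - 1) y) := by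
    intro m
    induction m with
    | zero =>
      intro k y x hx
      obtain ⟨v, rfl⟩ := FW_zero hx
      rw [Submodule.mem_comap]
      have e : (cmod κ Y (TMod.triv B)).ψ (-(k : ℤ) - 1) y (Ind.incl κ _ v) =
          Ind.incl κ _ (ghOm Y (Finsupp.single k y) v) :=
        Ind.psi_incl_neg κ (TMod.gt Y (TMod.triv B)) k y v
      rw [e]
      exact FW_incl 0 _
    | succ m ih =>
      intro k y
      refine FW_succ _ m ?_ ?_
      · exact fun x hx => FW_mono (Nat.le_succ m) (ih k y hx)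
      · intro s i x hx
        rw [Submodule.mem_comap]
        have h2 := psi_J (-(s : ℤ) - 1) (-(k : ℤ) - 1) (b i) y x
        have h3 : (-(s : ℤ) - 1) + (-(k : ℤ) - 1) = -((s + k + 1 : ℕ) : ℤ) - 1 := by
          push_cast
          ring
        rw [h3] at h2
        have h4 : (cmod κ Y (TMod.triv B)).ψ (-(k : ℤ) - 1) y
            ((Ind.mod κ _).J (-(s : ℤ) - 1) (b i) x) ∈ FV κ Y b (m + 1) := by
          refine (congrArg (· ∈ FV κ Y b (m + 1)) h2).mpr ?_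
          exact sub_mem (FV_J s _ (ih k y hx)) (FW_mono (Nat.le_succ m) (ih (s + k + 1) _ hx))
        exact h4
  exact key m k y hx

/-- Annihilation operators of ghosts lower the filtration. -/
theorem FV_psi_pos (m : ℕ) : ∀ (n : ℕ) (y : Y), (∀ x : VC κ Y, x ∈ FV κ Y b 0 →
      (cmod κ Y (TMod.triv B)).ψ (n : ℤ) y x = 0) ∧
    FV κ Y b (m + 1) ≤ (FV κ Y b m).comap ((cmod κ Y (TMod.triv B)).ψ (n : ℤ) y) := by
  have h0 : ∀ (n : ℕ) (y : Y) (x : VC κ Y), x ∈ FV κ Y b 0 →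
      (cmod κ Y (TMod.triv B)).ψ (n : ℤ) y x = 0 := by
    intro n y x hx
    obtain ⟨v, rfl⟩ := FW_zero hx
    exact Ind.psi_incl_nonneg κ (TMod.gt Y (TMod.triv B)) n (Int.natCast_nonneg n) y v
  have step : ∀ m : ℕ, (∀ (n : ℕ) (y : Y) (x : VC κ Y), x ∈ FV κ Y b m →
      (cmod κ Y (TMod.triv B)).ψ (n : ℤ) y x ∈ FV κ Y b (m - 1) ∧
        (m = 0 → (cmod κ Y (TMod.triv B)).ψ (n : ℤ) y x = 0)) → ∀ (n : ℕ) (y : Y),
      FV κ Y b (m + 1) ≤ (FV κ Y b m).comap ((cmod κ Y (TMod.triv B)).ψ (n : ℤ) y) := by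
    intro m ih n y
    refine FW_succ _ m ?_ ?_
    · exact fun x hx => FW_mono (Nat.sub_le m 1) (ih n y x hx).1
    · intro s i x hx
      rw [Submodule.mem_comap]
      have h2 := psi_J (-(s : ℤ) - 1) (n : ℤ) (b i) y x
      have h4 : (cmod κ Y (TMod.triv B)).ψ (n : ℤ) y
          ((Ind.mod κ _).J (-(s : ℤ) - 1) (b i) x) ∈ FV κ Y b m := by
        refine (congrArg (· ∈ FV κ Y b m) h2).mpr ?_
        refine sub_mem ?_ ?_
        · rcases Nat.eq_zero_or_pos m with hm | hm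
          · rw [(ih n y x hx).2 hm, map_zero]
            exact zero_mem _
          · have h5 := FV_J (b := b) s (b i) (ih n y x hx).1
            rwa [Nat.sub_add_cancel hm] at h5
        · by_cases hns : s < n
          · obtain ⟨t, ht⟩ : ∃ t : ℕ, (-(s : ℤ) - 1) + (n : ℤ) = (t : ℤ) :=
              ⟨n - s - 1, by omega⟩
            rw [ht]
            exact FW_mono (Nat.sub_le m 1) (ih t _ x hx).1
          · obtain ⟨t, ht⟩ : ∃ t : ℕ, (-(s : ℤ) - 1) + (n : ℤ) = -(t : ℤ) - 1 :=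
              ⟨s - n, by omega⟩
            rw [ht]
            exact FV_psi t _ hx
      exact h4
  have main : ∀ (m n : ℕ) (y : Y) (x : VC κ Y), x ∈ FV κ Y b m →
      (cmod κ Y (TMod.triv B)).ψ (n : ℤ) y x ∈ FV κ Y b (m - 1) ∧
        (m = 0 → (cmod κ Y (TMod.triv B)).ψ (n : ℤ) y x = 0) := by
    intro m
    induction m with
    | zero =>
      intro n y x hx
      rw [h0 n y x hx]
      exact ⟨zero_mem _, fun _ => rfl⟩
    | succ m ih =>
      intro n y x hx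
      exact ⟨step m ih n y hx, fun h => absurd h (Nat.succ_ne_zero m)⟩
  exact fun n y => ⟨h0 n y, step m (main m) n y⟩

/-- Annihilation operators of ghosts, weak form. -/
theorem FV_psi_nonneg (n : ℕ) (y : Y) {m : ℕ} {x : VC κ Y} (hx : x ∈ FV κ Y b m) :
    ∃ m', m' + 1 ≤ m ∧ (cmod κ Y (TMod.triv B)).ψ (n : ℤ) y x ∈ FV κ Y b m' ∨
      (cmod κ Y (TMod.triv B)).ψ (n : ℤ) y x = 0 := by
  rcases m with _ | m
  · exact ⟨0, Or.inr ((FV_psi_pos (b := b) 0 n y).1 x hx)⟩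
  · exact ⟨m, Or.inl ⟨le_refl _, (FV_psi_pos (b := b) m n y).2 hx⟩⟩

section sym

variable {θ : Γ → Y →ₗ[ℂ] ℂ} {Φ : ℕ → VC κ Y →ₗ[ℂ] SV La Γ}

/-- Symbols and creation operators of ghosts. -/
theorem IsSym.psi (h : IsSym κ (TMod.gt Y (TMod.triv B)).toTMod b (sφ La θ) Φ) (m : ℕ) :
    ∀ (k : ℕ) (y : Y) (j : ℕ) (c : Γ) (x : VC κ Y), x ∈ FV κ Y b m →
      (Φ m ((cmod κ Y (TMod.triv B)).ψ (-(k : ℤ) - 1) y x)).2 j c =
        if j = k then C (θ c y) * (Φ m x).1 else 0 := by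
  induction m with
  | zero =>
    intro k y j c x hx
    obtain ⟨v, rfl⟩ := FW_zero hx
    have e : (cmod κ Y (TMod.triv B)).ψ (-(k : ℤ) - 1) y (Ind.incl κ _ v) =
        Ind.incl κ _ (ghOm Y (Finsupp.single k y) v) :=
      Ind.psi_incl_neg κ (TMod.gt Y (TMod.triv B)) k y v
    rw [e, h.incl, h.incl]
    exact sφ_om θ k y v j c
  | succ m ih =>
    intro k y j c
    let W : Submodule ℂ (VC κ Y) :=
      { carrier := {x | (Φ (m + 1) ((cmod κ Y (TMod.triv B)).ψ (-(k : ℤ) - 1) y x)).2 j c =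
          if j = k then C (θ c y) * (Φ (m + 1) x).1 else 0}
        add_mem' := by
          intro x x' hx hx'
          show (Φ (m + 1) _).2 j c = _
          rw [map_add, map_add, Prod.snd_add, Pi.add_apply, Pi.add_apply, hx, hx', map_add,
            Prod.fst_add]
          split_ifs
          · rw [mul_add]
          · rw [add_zero]
        zero_mem' := by
          show (Φ (m + 1) _).2 j c = _
          rw [map_zero, map_zero]
          simp
        smul_mem' := by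
          intro r x hx
          show (Φ (m + 1) _).2 j c = _
          rw [map_smul, map_smul, Prod.smul_snd, Pi.smul_apply, Pi.smul_apply, hx, map_smul,
            Prod.smul_fst]
          split_ifs
          · rw [mul_smul_comm]
          · rw [smul_zero] }
    have hW : FV κ Y b (m + 1) ≤ W := by
      refine FW_succ _ m ?_ ?_
      · intro x hx
        show (Φ (m + 1) _).2 j c = _
        rw [h.zero (Nat.lt_succ_self m) (FV_psi k y hx), h.zero (Nat.lt_succ_self m) hx]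
        simp
      · intro s i x hx
        have h2 := psi_J (-(s : ℤ) - 1) (-(k : ℤ) - 1) (b i) y x
        have h3 : (-(s : ℤ) - 1) + (-(k : ℤ) - 1) = -((s + k + 1 : ℕ) : ℤ) - 1 := by
          push_cast
          ring
        rw [h3] at h2
        have h4 : Φ (m + 1) ((cmod κ Y (TMod.triv B)).ψ (-(k : ℤ) - 1) y
            ((Ind.mod κ _).J (-(s : ℤ) - 1) (b i) x)) =
            slam b s (b i) • Φ m ((cmod κ Y (TMod.triv B)).ψ (-(k : ℤ) - 1) y x) := by
          refine (congrArg (Φ (m + 1)) h2).trans ?_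
          rw [map_sub, h.zero (Nat.lt_succ_self m) (FV_psi (s + k + 1) _ hx), sub_zero]
          exact h.J s (b i) (FV_psi k y hx)
        show (Φ (m + 1) _).2 j c = _
        rw [h4, h.J s (b i) hx, Prod.smul_snd, Pi.smul_apply, Pi.smul_apply, ih k y j c x hx,
          Prod.smul_fst, smul_eq_mul, smul_eq_mul]
        split_ifs
        · ring
        · rw [mul_zero]
    exact fun x hx => hW hx

/-- Symbols and normally ordered products. -/
theorem IsSym.nop (h : IsSym κ (TMod.gt Y (TMod.triv B)).toTMod b (sφ La θ) Φ) (s : ℕ) (a : B)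
    (z : Y) {m : ℕ} {x : VC κ Y} (hx : x ∈ FV κ Y b m) :
    (cmod κ Y (TMod.triv B)).nop (-(s : ℤ) - 1) (a ⊗ₜ[ℂ] z) x ∈ FV κ Y b (m + 1) ∧
    ∀ (j : ℕ) (c : Γ), (Φ (m + 1) ((cmod κ Y (TMod.triv B)).nop (-(s : ℤ) - 1) (a ⊗ₜ[ℂ] z) x)).2 j c =
      if j ≤ s then slam b (s - j) a * (C (θ c z) * (Φ m x).1) else 0 := by
  have hlf := (cmod κ Y (TMod.triv B)).lf_nopF (-(s : ℤ) - 1) a z
  obtain ⟨S, hS⟩ := hlf.exists_finset x
  have hT : ∀ t : ℕ, t ≤ s → (cmod κ Y (TMod.triv B)).nopF (-(s : ℤ) - 1) a z (-(t : ℤ) - 1) x =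
      (cmod κ Y (TMod.triv B)).J (-(t : ℤ) - 1) a
        ((cmod κ Y (TMod.triv B)).ψ (-((s - t : ℕ) : ℤ) - 1) z x) := by
    intro t ht
    unfold GMod.nopF
    rw [if_pos (by omega), LinearMap.comp_apply]
    have e : (-(s : ℤ) - 1) - 1 - (-(t : ℤ) - 1) = -((s - t : ℕ) : ℤ) - 1 := by
      push_cast [ht]
      ring
    rw [e]
  have hO : ∀ k : ℤ, (∀ t : ℕ, t ≤ s → k ≠ -(t : ℤ) - 1) →
      (cmod κ Y (TMod.triv B)).nopF (-(s : ℤ) - 1) a z k x ∈ FV κ Y b m := by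
    intro k hk
    unfold GMod.nopF
    by_cases hk0 : k < 0
    · rw [if_pos hk0, LinearMap.comp_apply]
      obtain ⟨t, rfl⟩ : ∃ t : ℕ, k = -(t : ℤ) - 1 := ⟨(-k - 1).toNat, by omega⟩
      have hts : s < t := by
        by_contra hc
        exact hk t (by omega) rfl
      obtain ⟨n, hn⟩ : ∃ n : ℕ, (-(s : ℤ) - 1) - 1 - (-(t : ℤ) - 1) = (n : ℤ) :=
        ⟨t - s - 1, by omega⟩
      rw [hn]
      obtain ⟨m', h5⟩ := FV_psi_nonneg (b := b) n z hx
      rcases h5 with ⟨h6, h7⟩ | h7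
      · exact FW_mono h6 (FV_J t a h7)
      · rw [h7, map_zero]
        exact zero_mem _
    · rw [if_neg hk0, LinearMap.comp_apply]
      obtain ⟨n, rfl⟩ : ∃ n : ℕ, k = (n : ℤ) := ⟨k.toNat, by omega⟩
      obtain ⟨t, ht⟩ : ∃ t : ℕ, (-(s : ℤ) - 1) - 1 - (n : ℤ) = -(t : ℤ) - 1 :=
        ⟨s + 1 + n, by push_cast; ring⟩
      rw [ht]
      exact FV_psi t z (FV_Jpos n a hx)
  have hall : ∀ k : ℤ, (cmod κ Y (TMod.triv B)).nopF (-(s : ℤ) - 1) a z k x ∈ FV κ Y b (m + 1) := by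
    intro k
    by_cases hk : ∀ t : ℕ, t ≤ s → k ≠ -(t : ℤ) - 1
    · exact FW_mono (Nat.le_succ m) (hO k hk)
    · push Not at hk
      obtain ⟨t, ht, rfl⟩ := hk
      rw [hT t ht]
      exact FV_J t a (FV_psi (s - t) z hx)
  have hsum : (cmod κ Y (TMod.triv B)).nop (-(s : ℤ) - 1) (a ⊗ₜ[ℂ] z) x =
      ∑ k ∈ S ∪ (Finset.range (s + 1)).image (fun t : ℕ => -(t : ℤ) - 1),
        (cmod κ Y (TMod.triv B)).nopF (-(s : ℤ) - 1) a z k x := by
    rw [GMod.nop_tmul]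
    exact psum_eq_sum hlf x _ fun k hk => hS k fun h => hk (Finset.mem_union_left _ h)
  constructor
  · rw [hsum]
    exact Submodule.sum_mem _ fun k _ => hall k
  · intro j c
    rw [hsum, map_sum, Prod.snd_sum, Finset.sum_apply, Finset.sum_apply]
    have hj : ∀ k : ℤ, k ≠ -((s - j : ℕ) : ℤ) - 1 ∨ s < j →
        (Φ (m + 1) ((cmod κ Y (TMod.triv B)).nopF (-(s : ℤ) - 1) a z k x)).2 j c = 0 := by
      intro k hk
      by_cases hk2 : ∀ t : ℕ, t ≤ s → k ≠ -(t : ℤ) - 1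
      · rw [h.zero (Nat.lt_succ_self m) (hO k hk2)]
        rfl
      · push Not at hk2
        obtain ⟨t, ht, rfl⟩ := hk2
        have h4 : (Φ (m + 1) ((cmod κ Y (TMod.triv B)).nopF (-(s : ℤ) - 1) a z
            (-(t : ℤ) - 1) x)) = slam b t a •
            Φ m ((cmod κ Y (TMod.triv B)).ψ (-((s - t : ℕ) : ℤ) - 1) z x) := by
          rw [hT t ht]
          exact h.J t a (FV_psi (s - t) z hx)
        rw [h4, Prod.smul_snd, Pi.smul_apply, Pi.smul_apply, h.psi m (s - t) z j c x hx,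
          if_neg (by omega), smul_zero]
    by_cases hjs : j ≤ s
    · rw [if_pos hjs, Finset.sum_eq_single (-((s - j : ℕ) : ℤ) - 1)]
      · have h4 : (Φ (m + 1) ((cmod κ Y (TMod.triv B)).nopF (-(s : ℤ) - 1) a z
            (-((s - j : ℕ) : ℤ) - 1) x)) = slam b (s - j) a •
            Φ m ((cmod κ Y (TMod.triv B)).ψ (-((s - (s - j) : ℕ) : ℤ) - 1) z x) := by
          rw [hT (s - j) (by omega)]
          exact h.J (s - j) a (FV_psi (s - (s - j)) z hx)
        rw [h4, Prod.smul_snd, Pi.smul_apply, Pi.smul_apply, h.psi m (s - (s - j)) z j c x hx,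
          if_pos (by omega), smul_eq_mul]
      · intro k _ hk
        exact hj k (Or.inl hk)
      · intro hk
        refine absurd (Finset.mem_union_right _ ?_) hk
        exact Finset.mem_image.2 ⟨s - j, Finset.mem_range.2 (by omega), rfl⟩
    · rw [if_neg hjs]
      exact Finset.sum_eq_zero fun k _ => hj k (Or.inr (by omega))

end sym

end

end WPE
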