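import Pool.Agent.WPE.CL5
import Pool.Agent.WPE.KMI1

/-! [WPE-KMI2] The symbol of the differential. -/

set_option autoImplicit false
set_option linter.unusedSectionVars false

namespace WPE

open MvPolynomial
open scoped TensorProduct

noncomputable section

variable {g β η : Type} [LieRing g] [LieAlgebra ℂ g] [Fintype β] [DecidableEq β] [Fintype η]
  [DecidableEq η]

namespace LD

variable (L : LD g β η) (κ : ℂ)

/-- The basis `f b`, `h i` of `b₋`, as elements of `b₋`. -/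
def bbB (i : β ⊕ η) : L.bL := ⟨L.bb i, bb_bm i⟩

theorem coe_sum_bbB (c : β ⊕ η → ℂ) : L.jb (∑ s, c s • L.bbB s) = ∑ s, c s • L.bb s := by
  rw [map_sum]
  refine Finset.sum_congr rfl fun s _ => ?_
  rw [map_smul]
  rfl

theorem bbB_li : LinearIndependent ℂ L.bbB := by
  rw [Fintype.linearIndependent_iff]
  intro c hc i
  have h1 := congrArg L.jb hc
  rw [coe_sum_bbB, map_zero] at h1
  have h2 := congrArg (L.cfs i) h1
  rw [map_zero, map_sum, Finset.sum_eq_single i] at h2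
  · rw [map_smul, cfs_bb, if_pos rfl, smul_eq_mul, mul_one] at h2
    exact h2
  · intro s _ hs
    rw [map_smul, cfs_bb, if_neg (Ne.symm hs), smul_zero]
  · intro h
    exact absurd (Finset.mem_univ i) h

theorem bbB_sum (a : L.bL) : ∑ s, L.cfs s (a : g) • L.bbB s = a := by
  apply L.jb_inj
  rw [coe_sum_bbB, cfs_sum (a : g) a.2]
  rfl

/-- The basis of `b₋`. -/
def bB : Module.Basis (β ⊕ η) ℂ L.bL := Module.Basis.mk L.bbB_li (by
  intro a _
  rw [← L.bbB_sum a]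
  exact Submodule.sum_mem _ fun s _ => Submodule.smul_mem _ _ (Submodule.subset_span ⟨s, rfl⟩))

theorem bB_apply (i : β ⊕ η) : L.bB i = L.bbB i := Module.Basis.mk_apply _ _ i

theorem coe_bB (i : β ⊕ η) : ((L.bB i : L.bL) : g) = L.bb i := by
  rw [bB_apply]
  rfl

/-- The coordinates of `n₋`. -/
def tha (b : β) : L.nL →ₗ[ℂ] ℂ := L.form.flip (L.e b) ∘ₗ L.jng

theorem tha_fN (b c : β) : L.tha b (L.fN c) = if b = c then 1 else 0 := by
  show L.form (L.jng (L.fN c)) (L.e b) = _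
  rw [jng_fN, L.symm, L.ef]

/-- The symbol of the differential. -/
def DA (j : ℕ) (c : β) :
    Derivation ℂ (MvPolynomial (ℕ × (β ⊕ η)) ℂ) (MvPolynomial (ℕ × (β ⊕ η)) ℂ) :=
  mkDerivation ℂ fun x => if j ≤ x.1 then slam L.bB (x.1 - j) (L.pib ⁅L.e c, L.bb x.2⁆) else 0

theorem DA_X (j : ℕ) (c : β) (x : ℕ × (β ⊕ η)) : L.DA j c (X x) =
    if j ≤ x.1 then slam L.bB (x.1 - j) (L.pib ⁅L.e c, L.bb x.2⁆) else 0 := mkDerivation_X _ _ _

/-- The vacuum vector, initial space. -/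
abbrev kv0 : KN L.nL ℂ := ((1 : ℂ), 0, 0)

/-- The words applied to the vacuum. -/
abbrev vw (l : List (ℕ × (β ⊕ η))) : L.VX κ :=
  cword (L.kb κ) (TMod.gt L.nL (TMod.triv L.bL)).toTMod L.bB l L.kv0

variable {L κ}

/-- The symbol of the tensor `Ω`. -/
theorem Internal.sym_Om {Φ : ℕ → L.VX κ →ₗ[ℂ] SV (β ⊕ η) β}
    (h : IsSym (L.kb κ) (TMod.gt L.nL (TMod.triv L.bL)).toTMod L.bB (sφ (β ⊕ η) L.tha) Φ)
    (s : ℕ) (a : L.bL) {m : ℕ} {x : L.VX κ} (hx : x ∈ FV (L.kb κ) L.nL L.bB m) :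
    (L.vmod κ).nop (-(s : ℤ) - 1) (L.OmB a) x ∈ FV (L.kb κ) L.nL L.bB (m + 1) ∧
    ∀ (j : ℕ) (c : β), (Φ (m + 1) ((L.vmod κ).nop (-(s : ℤ) - 1) (L.OmB a) x)).2 j c =
      if j ≤ s then slam L.bB (s - j) (L.pib ⁅L.e c, (a : g)⁆) * (Φ m x).1 else 0 := by
  have e : (L.vmod κ).nop (-(s : ℤ) - 1) (L.OmB a) x =
      ∑ b, (L.vmod κ).nop (-(s : ℤ) - 1) (L.pib ⁅L.e b, (a : g)⁆ ⊗ₜ[ℂ] L.fN b) x := by
    rw [OmB_apply, map_sum, LinearMap.sum_apply]
  constructor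
  · rw [e]
    exact Submodule.sum_mem _ fun b _ => (h.nop s _ _ hx).1
  · intro j c
    rw [e, map_sum, Prod.snd_sum, Finset.sum_apply, Finset.sum_apply, Finset.sum_eq_single c]
    · refine ((h.nop s _ _ hx).2 j c).trans ?_
      rw [tha_fN, if_pos rfl, C_1, one_mul]
    · intro b _ hb
      refine ((h.nop s _ _ hx).2 j c).trans ?_
      rw [tha_fN, if_neg (Ne.symm hb), C_0, zero_mul, mul_zero]
      split_ifs <;> rfl
    · intro hc
      exact absurd (Finset.mem_univ c) hc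

export Internal (sym_Om)

/-- The symbol of the differential, on words. -/
theorem Internal.sym_word {Φ : ℕ → L.VX κ →ₗ[ℂ] SV (β ⊕ η) β}
    (h : IsSym (L.kb κ) (TMod.gt L.nL (TMod.triv L.bL)).toTMod L.bB (sφ (β ⊕ η) L.tha) Φ)
    (Q : L.VX κ →ₗ[ℂ] L.VX κ) (hQv : Q (cvac (L.kb κ) L.nL) = 0)
    (hQ : ∀ (s : ℕ) (a : L.bL) (x : L.VX κ),
      Q ((L.vmod κ).J (-(s : ℤ) - 1) a x) =
      (L.vmod κ).J (-(s : ℤ) - 1) a (Q x) + (L.vmod κ).nop (-(s : ℤ) - 1) (L.OmB a) x +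
        ((s : ℂ) + 1) • (L.vmod κ).ψ (-((s + 1 : ℕ) : ℤ) - 1) (L.LkN κ a) x +
          (L.vmod κ).ψ (-(s : ℤ) - 1) (L.pin ⁅L.F, (a : g)⁆) x)
    (l : List (ℕ × (β ⊕ η))) :
    Q (L.vw κ l) ∈ FV (L.kb κ) L.nL L.bB l.length ∧
      ∀ (j : ℕ) (c : β), (Φ l.length (Q (L.vw κ l))).2 j c =
        L.DA j c (Φ l.length (L.vw κ l)).1 := by
  induction l with
  | nil =>
    have e : L.vw κ [] = cvac (L.kb κ) L.nL := rfl
    have e2 : Φ 0 (cvac (L.kb κ) L.nL) = sφ (β ⊕ η) L.tha L.kv0 := h.incl _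
    refine ⟨?_, fun j c => ?_⟩
    · rw [e, hQv]
      exact zero_mem _
    · show (Φ 0 _).2 j c = L.DA j c (Φ 0 _).1
      rw [e, hQv, map_zero, e2, sφ_fst]
      have h3 : L.DA j c (C (1 : ℂ)) = 0 := by
        rw [C_1]
        exact Derivation.map_one_eq_zero _
      rw [h3]
      rfl
  | cons p l ih =>
    have hx : L.vw κ l ∈ FV (L.kb κ) L.nL L.bB l.length := FW_word (le_refl _) _
    have e : L.vw κ (p :: l) = (L.vmod κ).J (-(p.1 : ℤ) - 1) (L.bB p.2) (L.vw κ l) := rfl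
    have h1 := FV_J (b := L.bB) p.1 (L.bB p.2) ih.1
    have h2 := sym_Om h p.1 (L.bB p.2) hx
    have h3 := FV_psi (b := L.bB) (p.1 + 1) (L.LkN κ (L.bB p.2)) hx
    have h4 := FV_psi (b := L.bB) p.1 (L.pin ⁅L.F, ((L.bB p.2 : L.bL) : g)⁆) hx
    have h5 : Q (L.vw κ (p :: l)) = _ := (congrArg Q e).trans (hQ p.1 (L.bB p.2) (L.vw κ l))
    rw [List.length_cons]
    refine ⟨?_, fun j c => ?_⟩
    · rw [h5]
      exact add_mem (add_mem (add_mem h1 h2.1)
        (Submodule.smul_mem _ _ (FW_mono (Nat.le_succ _) h3))) (FW_mono (Nat.le_succ _) h4)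
    · have z3 := h.zero (Nat.lt_succ_self _) h3
      have z4 := h.zero (Nat.lt_succ_self _) h4
      have hJ := h.J p.1 (L.bB p.2) ih.1
      have hJ2 := h.J p.1 (L.bB p.2) hx
      have h6 : Φ (l.length + 1) (Q (L.vw κ (p :: l))) =
          slam L.bB p.1 (L.bB p.2) • Φ l.length (Q (L.vw κ l)) +
            Φ (l.length + 1) ((L.vmod κ).nop (-(p.1 : ℤ) - 1) (L.OmB (L.bB p.2)) (L.vw κ l)) := by
        rw [h5, map_add, map_add, map_add, map_smul]
        refine (congrArg (fun t => _ + t) z4).trans ?_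
        rw [add_zero]
        refine (congrArg (fun t => _ + _ • t) z3).trans ?_
        rw [smul_zero, add_zero]
        exact congrArg (fun t => t + _) hJ
      have h7 : Φ (l.length + 1) (L.vw κ (p :: l)) =
          slam L.bB p.1 (L.bB p.2) • Φ l.length (L.vw κ l) := (congrArg _ e).trans hJ2
      rw [h6, h7, Prod.snd_add, Pi.add_apply, Pi.add_apply, h2.2, Prod.smul_snd, Pi.smul_apply,
        Pi.smul_apply, ih.2, Prod.smul_fst, slam_basis, smul_eq_mul, smul_eq_mul,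
        Derivation.leibniz, DA_X, smul_eq_mul, smul_eq_mul, coe_bB]
      split_ifs
      · ring
      · ring

export Internal (sym_word)

/-- The symbol of the differential. -/
theorem Internal.sym_main {Φ : ℕ → L.VX κ →ₗ[ℂ] SV (β ⊕ η) β}
    (h : IsSym (L.kb κ) (TMod.gt L.nL (TMod.triv L.bL)).toTMod L.bB (sφ (β ⊕ η) L.tha) Φ)
    (Q : L.VX κ →ₗ[ℂ] L.VX κ) (hQv : Q (cvac (L.kb κ) L.nL) = 0)
    (hQ : ∀ (s : ℕ) (a : L.bL) (x : L.VX κ),
      Q ((L.vmod κ).J (-(s : ℤ) - 1) a x) =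
      (L.vmod κ).J (-(s : ℤ) - 1) a (Q x) + (L.vmod κ).nop (-(s : ℤ) - 1) (L.OmB a) x +
        ((s : ℂ) + 1) • (L.vmod κ).ψ (-((s + 1 : ℕ) : ℤ) - 1) (L.LkN κ a) x +
          (L.vmod κ).ψ (-(s : ℤ) - 1) (L.pin ⁅L.F, (a : g)⁆) x)
    (m : ℕ) (x : L.VX κ)
    (hx : x ∈ Submodule.span ℂ {y | ∃ l : List (ℕ × (β ⊕ η)), l.length ≤ m ∧ y = L.vw κ l})
    (j : ℕ) (c : β) : (Φ m (Q x)).2 j c = L.DA j c (Φ m x).1 := by
  induction hx using Submodule.span_induction with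
  | mem x hx =>
    obtain ⟨l, hl, rfl⟩ := hx
    obtain ⟨h1, h2⟩ := sym_word h Q hQv hQ l
    rcases Nat.eq_or_lt_of_le hl with e | hlt
    · rw [← e]
      exact h2 j c
    · rw [h.zero hlt h1, h.zero hlt (FW_word (le_refl _) _)]
      exact (map_zero _).symm
  | zero => rw [map_zero, map_zero]; exact (map_zero _).symm
  | add x y _ _ hx hy =>
    rw [map_add, map_add, map_add, Prod.snd_add, Pi.add_apply, Pi.add_apply, hx, hy,
      Prod.fst_add, map_add]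
  | smul r x _ hx =>
    rw [map_smul, map_smul, map_smul, Prod.smul_snd, Pi.smul_apply, Pi.smul_apply, hx,
      Prod.smul_fst, Derivation.map_smul]

export Internal (sym_main)

end LD

end

end WPE
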