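import Pool.Agent.WPE.LA1

open scoped TensorProduct

namespace WPE

variable {g β η : Type} [LieRing g] [LieAlgebra ℂ g] [Fintype β] [DecidableEq β] [Fintype η]
  [DecidableEq η]

namespace LA2

theorem mem_gr (L : LD g β η) (c : ℤ) (x : g) : x ∈ L.gr c ↔ ⁅L.rho, x⁆ = (c : ℂ) • x := Iff.rfl

theorem lie_gr (L : LD g β η) (c d : ℤ) (x : g) (hx : x ∈ L.gr c) (y : g) (hy : y ∈ L.gr d) :
    ⁅x, y⁆ ∈ L.gr (c + d) := by
  rw [mem_gr] at hx hy ⊢
  rw [leibniz_lie, hx, hy, smul_lie, lie_smul, ← add_smul]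
  push_cast
  rfl

theorem e_gr (L : LD g β η) (b : β) : L.e b ∈ L.gr (L.ht b) := by
  rw [mem_gr, L.rho_e]
  push_cast
  rfl

theorem f_gr (L : LD g β η) (b : β) : L.f b ∈ L.gr (-(L.ht b : ℤ)) := by
  rw [mem_gr, L.rho_f]
  push_cast
  rfl

/-- bilinear span induction for the bracket -/
theorem span_lie (s t : Set g) (S : Submodule ℂ g) (h : ∀ x ∈ s, ∀ y ∈ t, ⁅x, y⁆ ∈ S) (x : g)
    (hx : x ∈ Submodule.span ℂ s) (y : g) (hy : y ∈ Submodule.span ℂ t) : ⁅x, y⁆ ∈ S := by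
  induction hx using Submodule.span_induction with
  | mem x hx =>
    induction hy using Submodule.span_induction with
    | mem y hy => exact h x hx y hy
    | zero => rw [lie_zero]; exact S.zero_mem
    | add a b _ _ ha hb => rw [lie_add]; exact S.add_mem ha hb
    | smul c a _ ha => rw [lie_smul]; exact S.smul_mem c ha
  | zero => rw [zero_lie]; exact S.zero_mem
  | add a b _ _ ha hb => rw [add_lie]; exact S.add_mem ha hb
  | smul c a _ ha => rw [smul_lie]; exact S.smul_mem c ha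

theorem hs_hs (L : LD g β η) (x : g) (hx : x ∈ L.hs) (y : g) (hy : y ∈ L.hs) : ⁅x, y⁆ = 0 := by
  have h := span_lie (Set.range L.h) (Set.range L.h) ⊥ ?_ x hx y hy
  · exact (Submodule.mem_bot ℂ).mp h
  · rintro _ ⟨i, rfl⟩ _ ⟨j, rfl⟩
    rw [L.comm_h]
    exact Submodule.zero_mem _

theorem hs_gr (L : LD g β η) (x : g) (hx : x ∈ L.hs) : x ∈ L.gr 0 := by
  rw [mem_gr, hs_hs L L.rho L.rho_mem x hx, Int.cast_zero, zero_smul]

theorem form_gr (L : LD g β η) (c d : ℤ) (hcd : c + d ≠ 0) (x : g) (hx : x ∈ L.gr c) (y : g)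
    (hy : y ∈ L.gr d) : L.form x y = 0 := by
  rw [mem_gr] at hx hy
  have h1 : L.form ⁅L.rho, x⁆ y = (c : ℂ) * L.form x y := by
    rw [hx, map_smul, LinearMap.smul_apply, smul_eq_mul]
  have h2 : L.form ⁅L.rho, x⁆ y = -((d : ℂ) * L.form x y) := by
    rw [← lie_skew, map_neg, LinearMap.neg_apply, L.inv, hy, map_smul, smul_eq_mul]
  have h3 : ((c + d : ℤ) : ℂ) * L.form x y = 0 := by
    push_cast
    rw [add_mul, ← h1, h2]
    ring
  rcases mul_eq_zero.mp h3 with h | h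
  · exact absurd (Int.cast_eq_zero.mp h) hcd
  · exact h

theorem gr_zero_le (L : LD g β η) (x : g) (hx : x ∈ L.gr 0) : x ∈ L.hs := by
  have he : ∀ b, L.form x (L.e b) = 0 := fun b => form_gr L 0 _ (by have := L.ht_pos b; omega) x hx _ (e_gr L b)
  have hf : ∀ b, L.form x (L.f b) = 0 := fun b => form_gr L 0 _ (by have := L.ht_pos b; omega) x hx _ (f_gr L b)
  rw [L.decomp x]
  refine Submodule.add_mem _ (Submodule.add_mem _ ?_ ?_) ?_
  · refine Submodule.sum_mem _ fun b _ => ?_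
    rw [hf, zero_smul]
    exact Submodule.zero_mem _
  · exact Submodule.sum_mem _ fun i _ => Submodule.smul_mem _ _ (Submodule.subset_span ⟨i, rfl⟩)
  · refine Submodule.sum_mem _ fun b _ => ?_
    rw [he, zero_smul]
    exact Submodule.zero_mem _

theorem gr_pos (L : LD g β η) (c : ℤ) (hc : 0 < c) : L.gr c ≤ L.np := by
  intro x hx
  have he : ∀ b, L.form x (L.e b) = 0 := fun b => form_gr L c _ (by omega) x hx _ (e_gr L b)
  have hh : ∀ i, L.form x (L.h' i) = 0 := fun i =>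
    form_gr L c 0 (by omega) x hx _ (hs_gr L _ (L.h'_mem i))
  rw [L.decomp x]
  refine Submodule.add_mem _ (Submodule.add_mem _ ?_ ?_) ?_
  · exact Submodule.sum_mem _ fun i _ => Submodule.smul_mem _ _ (Submodule.subset_span ⟨i, rfl⟩)
  · refine Submodule.sum_mem _ fun b _ => ?_
    rw [hh, zero_smul]
    exact Submodule.zero_mem _
  · refine Submodule.sum_mem _ fun b _ => ?_
    rw [he, zero_smul]
    exact Submodule.zero_mem _

theorem gr_neg (L : LD g β η) (c : ℤ) (hc : c < 0) : L.gr c ≤ L.nm := by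
  intro x hx
  have hf : ∀ b, L.form x (L.f b) = 0 := fun b => form_gr L c _ (by omega) x hx _ (f_gr L b)
  have hh : ∀ i, L.form x (L.h' i) = 0 := fun i =>
    form_gr L c 0 (by omega) x hx _ (hs_gr L _ (L.h'_mem i))
  rw [L.decomp x]
  refine Submodule.add_mem _ (Submodule.add_mem _ ?_ ?_) ?_
  · refine Submodule.sum_mem _ fun b _ => ?_
    rw [hf, zero_smul]
    exact Submodule.zero_mem _
  · refine Submodule.sum_mem _ fun b _ => ?_
    rw [hh, zero_smul]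
    exact Submodule.zero_mem _
  · exact Submodule.sum_mem _ fun i _ => Submodule.smul_mem _ _ (Submodule.subset_span ⟨i, rfl⟩)

theorem gr_nonpos (L : LD g β η) (c : ℤ) (hc : c ≤ 0) : L.gr c ≤ L.bm := by
  rcases lt_or_eq_of_le hc with h | h
  · exact (gr_neg L c h).trans le_sup_right
  · subst h
    intro x hx
    exact (le_sup_left : L.hs ≤ L.hs ⊔ L.nm) (gr_zero_le L x hx)

theorem bm_eq (L : LD g β η) : L.bm = Submodule.span ℂ (Set.range L.h ∪ Set.range L.f) := by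
  rw [Submodule.span_union]
  rfl

theorem gen_gr (L : LD g β η) (x : g) (hx : x ∈ Set.range L.h ∪ Set.range L.f) :
    ∃ c : ℤ, c ≤ 0 ∧ x ∈ L.gr c := by
  rcases hx with ⟨i, rfl⟩ | ⟨b, rfl⟩
  · exact ⟨0, le_rfl, hs_gr L _ (Submodule.subset_span ⟨i, rfl⟩)⟩
  · exact ⟨-(L.ht b : ℤ), by omega, f_gr L b⟩

theorem np_np (L : LD g β η) (x : g) (hx : x ∈ L.np) (y : g) (hy : y ∈ L.np) : ⁅x, y⁆ ∈ L.np := by
  refine span_lie _ _ L.np ?_ x hx y hy
  rintro _ ⟨b, rfl⟩ _ ⟨c, rfl⟩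
  refine gr_pos L _ ?_ (lie_gr L _ _ _ (e_gr L b) _ (e_gr L c))
  have := L.ht_pos b
  omega

theorem hs_np (L : LD g β η) (x : g) (hx : x ∈ L.hs) (y : g) (hy : y ∈ L.np) : ⁅x, y⁆ ∈ L.np := by
  refine span_lie _ _ L.np ?_ x hx y hy
  rintro _ ⟨i, rfl⟩ _ ⟨c, rfl⟩
  refine gr_pos L _ ?_ (lie_gr L 0 _ _ (hs_gr L _ (Submodule.subset_span ⟨i, rfl⟩)) _ (e_gr L c))
  have := L.ht_pos c
  omega

theorem bm_bm (L : LD g β η) (x : g) (hx : x ∈ L.bm) (y : g) (hy : y ∈ L.bm) : ⁅x, y⁆ ∈ L.bm := by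
  rw [bm_eq] at hx hy
  refine span_lie _ _ L.bm ?_ x hx y hy
  intro a ha b hb
  obtain ⟨c, hc, ha'⟩ := gen_gr L a ha
  obtain ⟨d, hd, hb'⟩ := gen_gr L b hb
  exact gr_nonpos L _ (by omega) (lie_gr L _ _ _ ha' _ hb')

theorem bm_nm (L : LD g β η) (x : g) (hx : x ∈ L.bm) (y : g) (hy : y ∈ L.nm) : ⁅x, y⁆ ∈ L.nm := by
  rw [bm_eq] at hx
  refine span_lie _ _ L.nm ?_ x hx y hy
  rintro a ha _ ⟨b, rfl⟩
  obtain ⟨c, hc, ha'⟩ := gen_gr L a ha
  refine gr_neg L _ ?_ (lie_gr L _ _ _ ha' _ (f_gr L b))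
  have := L.ht_pos b
  omega

theorem gr_span (L : LD g β η) (x : g) (hx : x ∈ L.bm) :
    x ∈ Submodule.span ℂ {y | ∃ c : ℤ, c ≤ 0 ∧ y ∈ L.gr c ∧ y ∈ L.bm} := by
  rw [bm_eq] at hx
  refine Submodule.span_mono ?_ hx
  intro a ha
  obtain ⟨c, hc, ha'⟩ := gen_gr L a ha
  exact ⟨c, hc, ha', gr_nonpos L c hc ha'⟩

theorem Pp_gr (L : LD g β η) (c : ℤ) (x : g) (hx : x ∈ L.gr c) : L.Pp x ∈ L.gr c := by
  rw [(la_P L).Pp_apply]
  refine Submodule.sum_mem _ fun b _ => ?_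
  by_cases h : c = (L.ht b : ℤ)
  · refine Submodule.smul_mem _ _ ?_
    rw [h]
    exact e_gr L b
  · rw [form_gr L c _ (by omega) x hx _ (f_gr L b), zero_smul]
    exact Submodule.zero_mem _

theorem Ph_gr (L : LD g β η) (c : ℤ) (x : g) (hx : x ∈ L.gr c) : L.Ph x ∈ L.gr c := by
  rw [(la_P L).Ph_apply]
  refine Submodule.sum_mem _ fun i _ => ?_
  by_cases h : c = 0
  · refine Submodule.smul_mem _ _ ?_
    rw [h]
    exact hs_gr L _ (Submodule.subset_span ⟨i, rfl⟩)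
  · rw [form_gr L c 0 (by omega) x hx _ (hs_gr L _ (L.h'_mem i)), zero_smul]
    exact Submodule.zero_mem _

theorem Pn_gr (L : LD g β η) (c : ℤ) (x : g) (hx : x ∈ L.gr c) : L.Pn x ∈ L.gr c := by
  rw [(la_P L).Pn_apply]
  refine Submodule.sum_mem _ fun b _ => ?_
  by_cases h : c = -(L.ht b : ℤ)
  · refine Submodule.smul_mem _ _ ?_
    rw [h]
    exact f_gr L b
  · rw [form_gr L c _ (by omega) x hx _ (e_gr L b), zero_smul]
    exact Submodule.zero_mem _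

theorem Pb_apply (L : LD g β η) (x : g) : L.Pb x = L.Ph x + L.Pn x := rfl

/-- the bracket with an element of `h`, decomposed -/
theorem lie_dec (L : LD g β η) (a : g) (ha : a ∈ L.hs) (x : g) :
    ⁅a, x⁆ = ⁅a, L.Pp x⁆ + ⁅a, L.Pn x⁆ ∧ ⁅a, L.Pp x⁆ ∈ L.np ∧ ⁅a, L.Pn x⁆ ∈ L.nm ∧
      ⁅a, L.Ph x⁆ = 0 := by
  have hP := la_P L
  have h0 : ⁅a, L.Ph x⁆ = 0 := hs_hs L a ha _ (hP.Ph_mem x)
  refine ⟨?_, hs_np L a ha _ (hP.Pp_mem x), bm_nm L a (hP.hs_le ha) _ (hP.Pn_mem x), h0⟩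
  calc ⁅a, x⁆ = ⁅a, L.Pp x + L.Ph x + L.Pn x⁆ := by rw [hP.sum x]
    _ = ⁅a, L.Pp x⁆ + ⁅a, L.Pn x⁆ := by rw [lie_add, lie_add, h0, add_zero]

end LA2

theorem la_G (L : LD g β η) : LD.FactsG L := by
  have hP := la_P L
  refine
    { lie_gr := LA2.lie_gr L
      e_gr := LA2.e_gr L
      f_gr := LA2.f_gr L
      hs_hs := LA2.hs_hs L
      gr_zero := le_antisymm (fun x hx => LA2.gr_zero_le L x hx) (fun x hx => LA2.hs_gr L x hx)
      F_gr := ?_
      F_nm := ?_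
      form_gr := LA2.form_gr L
      Pp_gr := LA2.Pp_gr L
      Ph_gr := LA2.Ph_gr L
      Pn_gr := LA2.Pn_gr L
      Pb_gr := fun c x hx => Submodule.add_mem _ (LA2.Ph_gr L c x hx) (LA2.Pn_gr L c x hx)
      gr_pos := LA2.gr_pos L
      gr_neg := LA2.gr_neg L
      gr_nonpos := LA2.gr_nonpos L
      np_np := LA2.np_np L
      hs_np := LA2.hs_np L
      bm_bm := LA2.bm_bm L
      bm_nm := LA2.bm_nm L
      Pp_hs := ?_
      Pn_hs := ?_
      Pb_hs := ?_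
      gr_span := LA2.gr_span L
      bb_gr := ?_ }
  · rw [LA2.mem_gr, L.rho_F]
    push_cast
    rfl
  · refine LA2.gr_neg L (-1) (by norm_num) ?_
    rw [LA2.mem_gr, L.rho_F]
    push_cast
    rfl
  · intro a ha x
    obtain ⟨h1, h2, h3, _⟩ := LA2.lie_dec L a ha x
    rw [h1, map_add, hP.Pp_np _ h2, hP.Pp_bm _ (hP.nm_le h3), add_zero]
  · intro a ha x
    obtain ⟨h1, h2, h3, _⟩ := LA2.lie_dec L a ha x
    rw [h1, map_add, hP.Pn_np _ h2, hP.Pn_nm _ h3, zero_add]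
  · intro a ha x
    obtain ⟨h1, h2, h3, h4⟩ := LA2.lie_dec L a ha x
    rw [h1, map_add, hP.Pb_np _ h2, hP.Pb_bm _ (hP.nm_le h3), zero_add, LA2.Pb_apply, lie_add, h4,
      zero_add]
  · intro s
    rcases s with b | i
    · exact LA2.f_gr L b
    · exact LA2.hs_gr L _ (Submodule.subset_span ⟨i, rfl⟩)

end WPE
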