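import Pool.Agent.WPE.KMI2
import Pool.Agent.WPE.LA2

/-! [WPE-KMI3] The common kernel of the symbols of the differential. -/

set_option autoImplicit false
set_option linter.unusedSectionVars false

namespace WPE

open MvPolynomial
open scoped TensorProduct

noncomputable section

variable {g β η : Type} [LieRing g] [LieAlgebra ℂ g] [Fintype β] [DecidableEq β] [Fintype η]
  [DecidableEq η]

namespace LD

variable {L : LD g β η}

/-- `form rho` on `b₋`. -/
def rhoF (L : LD g β η) : L.bL →ₗ[ℂ] ℂ := L.form L.rho ∘ₗ L.jb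

/-- The evaluation at `rho`. -/
def evR (L : LD g β η) : MvPolynomial (ℕ × (β ⊕ η)) ℂ →ₐ[ℂ] ℂ :=
  aeval fun x => L.rhoF (L.bB x.2)

theorem evR_slam (s : ℕ) (a : L.bL) : L.evR (slam L.bB s a) = L.rhoF a := by
  have h : L.evR.toLinearMap ∘ₗ slam L.bB s = L.rhoF := by
    refine L.bB.ext fun i => ?_
    rw [LinearMap.comp_apply, slam_basis]
    show L.evR (X (s, i)) = _
    unfold evR
    rw [aeval_X]
  exact LinearMap.congr_fun h a

theorem rhoF_pib (c b : β) : L.rhoF (L.pib ⁅L.e c, L.f b⁆) =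
    if c = b then (L.ht c : ℂ) else 0 := by
  have h1 : L.rhoF (L.pib ⁅L.e c, L.f b⁆) = L.form L.rho (L.Pb ⁅L.e c, L.f b⁆) := rfl
  have hP := la_P L
  have h2 : L.form L.rho (L.Pb ⁅L.e c, L.f b⁆) = L.form L.rho ⁅L.e c, L.f b⁆ := by
    rw [hP.Pb_eq, map_sub, L.symm L.rho (L.Pp _),
      hP.form_np_hs _ (hP.Pp_mem _) _ L.rho_mem, sub_zero]
  rw [h1, h2, ← L.inv, L.rho_e, map_smul, LinearMap.smul_apply, L.ef]
  split_ifs
  · rw [smul_eq_mul, mul_one]
  · rw [smul_zero]

/-- The leading matrix. -/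
def LM (L : LD g β η) : Matrix β β (MvPolynomial (ℕ × (β ⊕ η)) ℂ) :=
  Matrix.of fun c b => slam L.bB 0 (L.pib ⁅L.e c, L.f b⁆)

theorem LM_det : (LM L).det ≠ 0 := by
  intro h
  have h1 := congrArg L.evR h
  rw [map_zero, AlgHom.map_det] at h1
  have h2 : L.evR.mapMatrix (LM L) = Matrix.diagonal fun c => (L.ht c : ℂ) := by
    ext c b
    show L.evR (slam L.bB 0 (L.pib ⁅L.e c, L.f b⁆)) = _
    rw [evR_slam, rhoF_pib, Matrix.diagonal_apply]
  rw [h2, Matrix.det_diagonal, Finset.prod_eq_zero_iff] at h1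
  obtain ⟨c, -, hc⟩ := h1
  have h3 := L.ht_pos c
  rw [Nat.cast_eq_zero] at hc
  omega

theorem pib_h (c : β) (i : η) : L.pib ⁅L.e c, L.h i⁆ = 0 := by
  apply L.jb_inj
  rw [jb_pib, map_zero]
  have hP := la_P L
  have hG := la_G L
  refine hP.Pb_np _ ?_
  rw [← lie_skew]
  exact neg_mem (hG.hs_np _ (L.h_mem_hs i) _ (Submodule.subset_span ⟨c, rfl⟩))

/-- Derivations and partial derivatives. -/
theorem DA_eq (j : ℕ) (c : β) (P : MvPolynomial (ℕ × (β ⊕ η)) ℂ) (S : Finset (ℕ × (β ⊕ η)))
    (hS : P.vars ⊆ S) : L.DA j c P = ∑ x ∈ S, pderiv x P * L.DA j c (X x) := by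
  classical
  have key : ∀ (D : Derivation ℂ (MvPolynomial (ℕ × (β ⊕ η)) ℂ) (MvPolynomial (ℕ × (β ⊕ η)) ℂ)),
      D P = ∑ x ∈ S, pderiv x P * D (X x) := by
    intro D
    let D' : Derivation ℂ (MvPolynomial (ℕ × (β ⊕ η)) ℂ) (MvPolynomial (ℕ × (β ⊕ η)) ℂ) :=
      ∑ x ∈ S, D (X x) • pderiv x
    have h1 : ∀ Q : MvPolynomial (ℕ × (β ⊕ η)) ℂ, D' Q = ∑ x ∈ S, pderiv x Q * D (X x) := by
      intro Q
      have h2 : ⇑D' = ∑ x ∈ S, ⇑(D (X x) • pderiv x : Derivation ℂ
          (MvPolynomial (ℕ × (β ⊕ η)) ℂ) (MvPolynomial (ℕ × (β ⊕ η)) ℂ)) :=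
        map_sum Derivation.coeFnAddMonoidHom _ _
      rw [h2, Finset.sum_apply]
      refine Finset.sum_congr rfl fun x _ => ?_
      rw [Derivation.smul_apply, smul_eq_mul, mul_comm]
    rw [← h1]
    refine derivation_eq_of_forall_mem_vars fun i hi => ?_
    rw [h1, Finset.sum_eq_single i]
    · rw [pderiv_X_self, one_mul]
    · intro x _ hx
      rw [pderiv_X_of_ne (Ne.symm hx), zero_mul]
    · intro h
      exact absurd (hS hi) h
  exact key _

/-- The common kernel of the symbols. -/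
theorem ker_DA (P : MvPolynomial (ℕ × (β ⊕ η)) ℂ) (hP : ∀ j c, L.DA j c P = 0) (s : ℕ) (b : β) :
    pderiv (s, Sum.inl b) P = 0 := by
  classical
  -- the levels above `N` do not occur
  obtain ⟨N, hN⟩ : ∃ N : ℕ, ∀ x ∈ P.vars, x.1 ≤ N :=
    ⟨P.vars.sup Prod.fst, fun x hx => Finset.le_sup (f := Prod.fst) hx⟩
  have key : ∀ n : ℕ, ∀ s, N + 1 - n ≤ s → ∀ b : β, pderiv (s, Sum.inl b) P = 0 := by
    intro n
    induction n with
    | zero =>
      intro s hs b
      refine pderiv_eq_zero_of_notMem_vars fun h => ?_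
      have := hN _ h
      simp only at this
      omega
    | succ n ih =>
      intro s hs b
      by_cases hs2 : N + 1 - n ≤ s
      · exact ih s hs2 b
      have h0 : (LM L).mulVec (fun b => pderiv (s, Sum.inl b) P) = 0 := by
        funext c
        have h1 := hP s c
        rw [DA_eq s c P (Finset.range (N + 1) ×ˢ Finset.univ) (fun x hx => by
          rw [Finset.mem_product]
          exact ⟨Finset.mem_range.2 (Nat.lt_succ_of_le (hN x hx)), Finset.mem_univ _⟩),
          Finset.sum_product] at h1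
        rw [Finset.sum_eq_single s] at h1
        · rw [Fintype.sum_sum_type] at h1
          have h3 : ∑ i : η, pderiv (s, Sum.inr i) P * L.DA s c (X (s, Sum.inr i)) = 0 := by
            refine Finset.sum_eq_zero fun i _ => ?_
            rw [DA_X]
            have e : ⁅L.e c, L.bb (Sum.inr i)⁆ = ⁅L.e c, L.h i⁆ := rfl
            rw [e, pib_h, map_zero, ite_self, mul_zero]
          rw [h3, add_zero] at h1
          show ∑ b, LM L c b * pderiv (s, Sum.inl b) P = 0
          rw [← h1]
          refine Finset.sum_congr rfl fun b _ => ?_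
          rw [DA_X, if_pos (le_refl _), mul_comm]
          show _ = _ * slam L.bB (s - s) _
          rw [Nat.sub_self]
          rfl
        · intro t _ ht
          refine Finset.sum_eq_zero fun i _ => ?_
          rw [DA_X]
          show _ * (if s ≤ t then _ else _) = _
          by_cases hst : s ≤ t
          · rcases i with b | i
            · rw [ih t (by omega) b, zero_mul]
            · rw [if_pos hst]
              have e : ⁅L.e c, L.bb (Sum.inr i)⁆ = ⁅L.e c, L.h i⁆ := rfl
              rw [e, pib_h, map_zero, mul_zero]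
          · rw [if_neg hst, mul_zero]
        · intro h
          rw [Finset.mem_range] at h
          omega
      have h2 := Matrix.eq_zero_of_mulVec_eq_zero LM_det h0
      exact congrFun h2 b
  exact key (N + 1) s (by omega) b

/-- Polynomials without derivative have no variable. -/
theorem notMem_of_pderiv {σ : Type} (v : σ) (P : MvPolynomial σ ℂ) (h : pderiv v P = 0) :
    v ∉ P.vars := by
  classical
  intro hv
  obtain ⟨d, hd, hdv⟩ : ∃ d ∈ P.support, v ∈ d.support := (mem_vars_iff_mem_support v).1 hv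
  have h1 : 1 ≤ d v := Nat.one_le_iff_ne_zero.2 (Finsupp.mem_support_iff.1 hdv)
  have h2 := congrArg (coeff (d - Finsupp.single v 1)) h
  rw [coeff_pderiv, coeff_zero] at h2
  have h3 : d - Finsupp.single v 1 + Finsupp.single v 1 = d :=
    tsub_add_cancel_of_le (Finsupp.single_le_iff.2 h1)
  rw [h3] at h2
  rcases mul_eq_zero.1 h2 with h4 | h4
  · exact (mem_support_iff.1 hd) h4
  · have h5 : (((d - Finsupp.single v 1 : σ →₀ ℕ) v + 1 : ℕ) : ℂ) = 0 := by
      push_cast
      exact h4
    rw [Nat.cast_eq_zero] at h5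
    omega

end LD

end

end WPE
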