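import Pool.Agent.WPE.KMI3

/-! [WPE-KMI4] The Miura map is injective on the kernel of the differential. -/

set_option autoImplicit false
set_option linter.unusedSectionVars false

namespace WPE

open MvPolynomial WPQ
open scoped TensorProduct

noncomputable section

/-- The exponent of a word. -/
def sexp {σ : Type} (l : List σ) : σ →₀ ℕ := (l.map fun x => Finsupp.single x 1).sum

theorem sexp_cons {σ : Type} (x : σ) (l : List σ) : sexp (x :: l) = Finsupp.single x 1 + sexp l := by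
  unfold sexp
  rw [List.map_cons, List.sum_cons]

theorem sexp_count {σ : Type} [DecidableEq σ] (l : List σ) (x : σ) : sexp l x = l.count x := by
  induction l with
  | nil => rfl
  | cons y l ih =>
    rw [sexp_cons, Finsupp.add_apply, ih, List.count_cons, Finsupp.single_apply, add_comm]
    simp only [beq_iff_eq]

theorem perm_of_sexp {σ : Type} {l l' : List σ} (h : sexp l = sexp l') : l.Perm l' := by
  classical
  rw [List.perm_iff_count]
  intro x
  rw [← sexp_count, ← sexp_count, h]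

theorem smon_eq {La : Type} (l : List (ℕ × La)) : smon l = monomial (sexp l) (1 : ℂ) := by
  induction l with
  | nil => rfl
  | cons x l ih =>
    rw [smon_cons, ih, sexp_cons, X, monomial_mul, one_mul]

variable {g β ι : Type} [LieRing g] [LieAlgebra ℂ g] [Fintype β] [DecidableEq β] [Fintype ι]
  [DecidableEq ι]

namespace LD

variable (L : LD g β ι) (κ : ℂ)

/-- The Miura map on symbols. -/
def resA (β ι : Type) (c0 : ℂ) : MvPolynomial (ℕ × (β ⊕ ι)) ℂ →ₐ[ℂ] Fock ι :=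
  aeval fun x => Sum.elim (fun _ => (0 : Fock ι))
    (fun i => C (c0 * ((x.1 : ℂ) + 1)) * X (i, x.1)) x.2

variable {L κ}

theorem resA_hom (c0 : ℂ) (l : List (ℕ × (β ⊕ ι))) :
    (resA β ι c0 (smon l)).IsHomogeneous l.length := by
  induction l with
  | nil =>
    have e : smon ([] : List (ℕ × (β ⊕ ι))) = 1 := rfl
    rw [e, map_one]
    exact isHomogeneous_one _ _
  | cons p l ih =>
    rw [smon_cons, map_mul, List.length_cons, add_comm]
    refine IsHomogeneous.mul ?_ ih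
    unfold resA
    rw [aeval_X]
    rcases p with ⟨s, b | i⟩
    · exact isHomogeneous_zero _ _ _
    · have h := (isHomogeneous_C (ι × ℕ) (c0 * ((s : ℂ) + 1))).mul
        (isHomogeneous_X ℂ (i, s))
      rwa [zero_add] at h

theorem resA_inj {c0 : ℂ} (hc0 : c0 ≠ 0) (P : MvPolynomial (ℕ × (β ⊕ ι)) ℂ)
    (hP : ∀ (s : ℕ) (b : β), (s, Sum.inl b) ∉ P.vars) (h : resA β ι c0 P = 0) : P = 0 := by
  let τ : Fock ι →ₐ[ℂ] MvPolynomial (ℕ × (β ⊕ ι)) ℂ :=
    aeval fun x => C ((c0 * ((x.2 : ℂ) + 1))⁻¹) * X (x.2, Sum.inr x.1)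
  have h1 : (τ.comp (resA β ι c0)) P = (AlgHom.id ℂ _) P := by
    refine hom_congr_vars (f₁ := (τ.comp (resA β ι c0)).toRingHom)
      (f₂ := (AlgHom.id ℂ (MvPolynomial (ℕ × (β ⊕ ι)) ℂ)).toRingHom) ?_ ?_ rfl
    · ext1 r
      show (τ.comp (resA β ι c0)) (C r) = C r
      exact AlgHom.commutes _ r
    · intro x hx _
      rcases x with ⟨s, b | i⟩
      · exact absurd hx (hP s b)
      · show τ (resA β ι c0 (X (s, Sum.inr i))) = X (s, Sum.inr i)
        have e1 : resA β ι c0 (X (s, Sum.inr i)) = C (c0 * ((s : ℂ) + 1)) * X (i, s) := by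
          unfold resA
          rw [aeval_X]
          rfl
        have e2 : τ (X (i, s)) = C ((c0 * ((s : ℂ) + 1))⁻¹) * X (s, Sum.inr i) := aeval_X _ _
        have e3 : τ (C (c0 * ((s : ℂ) + 1))) = C (c0 * ((s : ℂ) + 1)) := AlgHom.commutes _ _
        have e4 : (s : ℂ) + 1 ≠ 0 := by
          have : ((s + 1 : ℕ) : ℂ) ≠ 0 := Nat.cast_ne_zero.2 (Nat.succ_ne_zero s)
          push_cast at this
          exact this
        rw [e1, map_mul, e2, e3, ← mul_assoc, ← C_mul, mul_inv_cancel₀ (mul_ne_zero hc0 e4), C_1,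
          one_mul]
  have h2 : P = τ (resA β ι c0 P) := h1.symm
  rw [h2, h, map_zero]

theorem vw_mem (l : List (ℕ × (β ⊕ ι))) :
    L.vw κ l ∈ cpart (L.kb κ) L.nL (TMod.triv L.bL) 0 := by
  induction l with
  | nil => exact cvac_mem _ _
  | cons p l ih => exact cpart_J _ _ ih

theorem Internal.U_vw (U : L.VX κ →ₗ[ℂ] Fock ι) (c0 : ℂ) (hUv : U (cvac (L.kb κ) L.nL) = 1)
    (hUh : ∀ (i : ι) (s : ℕ) (x : L.VX κ), x ∈ cpart (L.kb κ) L.nL (TMod.triv L.bL) 0 →
      U ((L.vmod κ).J (-(s : ℤ) - 1) (L.hB i) x) =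
        C (c0 * ((s : ℂ) + 1)) * MvPolynomial.X (i, s) * U x)
    (hUf : ∀ (b : β) (s : ℕ) (x : L.VX κ), x ∈ cpart (L.kb κ) L.nL (TMod.triv L.bL) 0 →
      U ((L.vmod κ).J (-(s : ℤ) - 1) (L.fB b) x) = 0) (l : List (ℕ × (β ⊕ ι))) :
    U (L.vw κ l) = resA β ι c0 (smon l) := by
  induction l with
  | nil =>
    have e : smon ([] : List (ℕ × (β ⊕ ι))) = 1 := rfl
    rw [e, map_one]
    exact hUv
  | cons p l ih =>
    have e : L.vw κ (p :: l) = (L.vmod κ).J (-(p.1 : ℤ) - 1) (L.bB p.2) (L.vw κ l) := rfl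
    rw [smon_cons, map_mul, ← ih, e]
    unfold resA
    rw [aeval_X]
    rcases p with ⟨s, b | i⟩
    · have e2 : L.bB (Sum.inl b) = L.fB b := L.bB_apply _
      show U ((L.vmod κ).J (-(s : ℤ) - 1) (L.bB (Sum.inl b)) (L.vw κ l)) = 0 * _
      rw [e2, hUf b s _ (vw_mem l), zero_mul]
    · have e2 : L.bB (Sum.inr i) = L.hB i := L.bB_apply _
      show U ((L.vmod κ).J (-(s : ℤ) - 1) (L.bB (Sum.inr i)) (L.vw κ l)) = _
      rw [e2, hUh i s _ (vw_mem l)]
      rfl

export Internal (U_vw)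

/-- The expansion of the elements of `C⁰`. -/
theorem c0_exp (x : L.VX κ) (hx : x ∈ cpart (L.kb κ) L.nL (TMod.triv L.bL) 0) (hne : x ≠ 0) :
    ∃ (S : Finset (List (ℕ × (β ⊕ ι)))) (c : List (ℕ × (β ⊕ ι)) → ℂ), S.Nonempty ∧
      (∀ w ∈ S, c w ≠ 0) ∧ (∀ w ∈ S, ∀ w' ∈ S, w.Perm w' → w = w') ∧
      x = ∑ w ∈ S, c w • L.vw κ w := by
  classical
  obtain ⟨ord, hbij⟩ := cl_pbw (κ := L.kb κ) (T := (TMod.gt L.nL (TMod.triv L.bL)).toTMod)
    (L.kb_isInv κ) L.bB
  obtain ⟨y, hy⟩ := hbij.2 x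
  have h1 : x = ∑ w ∈ y.support, (y w).1 • L.vw κ w.1 := by
    have h2 : cpr (L.kb κ) L.nL (TMod.triv L.bL) 0 x = x := mem_cpart_iff.1 hx
    rw [← h2, ← hy, Finsupp.lsum_apply, Finsupp.sum, map_sum]
    refine Finset.sum_congr rfl fun w _ => ?_
    have key : ∀ (l : List (ℕ × (β ⊕ ι))) (v : KN L.nL ℂ),
        cpr (L.kb κ) L.nL (TMod.triv L.bL) 0
          (cword (L.kb κ) (TMod.gt L.nL (TMod.triv L.bL)).toTMod L.bB l v) =
        v.1 • L.vw κ l := by
      intro l v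
      induction l with
      | nil =>
        show cpr (L.kb κ) L.nL (TMod.triv L.bL) 0 (Ind.incl _ _ v) = v.1 • Ind.incl _ _ L.kv0
        rw [cpr_incl, ← map_smul]
        congr 1
        rw [KNpr_zero]
        simp
      | cons p l ih =>
        have e := cpr_J (κ := L.kb κ) (Y := L.nL) (T := TMod.triv L.bL) 0 (-(p.1 : ℤ) - 1)
          (L.bB p.2) (cword (L.kb κ) (TMod.gt L.nL (TMod.triv L.bL)).toTMod L.bB l v)
        refine e.trans ?_
        rw [ih, map_smul]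
        rfl
    exact key w.1 (y w)
  let S0 := y.support.filter fun w => (y w).1 ≠ 0
  have h3 : x = ∑ w ∈ S0, (y w).1 • L.vw κ w.1 := by
    rw [h1]
    refine (Finset.sum_filter_of_ne (p := fun w => (y w).1 ≠ 0) fun w _ hw hc => hw ?_).symm
    rw [hc, zero_smul]
  let c : List (ℕ × (β ⊕ ι)) → ℂ := fun l =>
    if h : l.Pairwise ord.le then (y ⟨l, h⟩).1 else 0
  have hc : ∀ w : {l : List (ℕ × (β ⊕ ι)) // l.Pairwise ord.le}, c w.1 = (y w).1 := by
    intro w
    show (if h : w.1.Pairwise ord.le then (y ⟨w.1, h⟩).1 else 0) = _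
    rw [dif_pos w.2]
  refine ⟨S0.image Subtype.val, c, ?_, ?_, ?_, ?_⟩
  · rw [Finset.image_nonempty]
    by_contra hemp
    rw [Finset.not_nonempty_iff_eq_empty] at hemp
    rw [hemp, Finset.sum_empty] at h3
    exact hne h3
  · intro w hw
    obtain ⟨v, hv, rfl⟩ := Finset.mem_image.1 hw
    rw [hc]
    exact (Finset.mem_filter.1 hv).2
  · intro w hw w' hw' hp
    obtain ⟨v, -, rfl⟩ := Finset.mem_image.1 hw
    obtain ⟨v', -, rfl⟩ := Finset.mem_image.1 hw'
    exact hp.eq_of_pairwise (fun a b _ _ h1 h2 => ord.le_antisymm a b h1 h2) v.2 v'.2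
  · rw [Finset.sum_image (fun a _ b _ h => Subtype.ext h), h3]
    exact Finset.sum_congr rfl fun w _ => by rw [hc]

/-- **The Miura map is injective on the kernel of the differential**, abstract form. -/
theorem Internal.kmi_abs (Q : L.VX κ →ₗ[ℂ] L.VX κ) (hQv : Q (cvac (L.kb κ) L.nL) = 0)
    (hQ : ∀ (s : ℕ) (a : L.bL) (x : L.VX κ),
      Q ((L.vmod κ).J (-(s : ℤ) - 1) a x) =
      (L.vmod κ).J (-(s : ℤ) - 1) a (Q x) + (L.vmod κ).nop (-(s : ℤ) - 1) (L.OmB a) x +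
        ((s : ℂ) + 1) • (L.vmod κ).ψ (-((s + 1 : ℕ) : ℤ) - 1) (L.LkN κ a) x +
          (L.vmod κ).ψ (-(s : ℤ) - 1) (L.pin ⁅L.F, (a : g)⁆) x)
    (U : L.VX κ →ₗ[ℂ] Fock ι) (c0 : ℂ) (hc0 : c0 ≠ 0) (hUv : U (cvac (L.kb κ) L.nL) = 1)
    (hUh : ∀ (i : ι) (s : ℕ) (x : L.VX κ), x ∈ cpart (L.kb κ) L.nL (TMod.triv L.bL) 0 →
      U ((L.vmod κ).J (-(s : ℤ) - 1) (L.hB i) x) =
        C (c0 * ((s : ℂ) + 1)) * MvPolynomial.X (i, s) * U x)
    (hUf : ∀ (b : β) (s : ℕ) (x : L.VX κ), x ∈ cpart (L.kb κ) L.nL (TMod.triv L.bL) 0 →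
      U ((L.vmod κ).J (-(s : ℤ) - 1) (L.fB b) x) = 0)
    (x : L.VX κ) (hx : x ∈ cpart (L.kb κ) L.nL (TMod.triv L.bL) 0) (hQx : Q x = 0)
    (hUx : U x = 0) : x = 0 := by
  classical
  by_contra hne
  obtain ⟨Φ, hΦ⟩ := IsSym.exists (T := (TMod.gt L.nL (TMod.triv L.bL)).toTMod) (b := L.bB)
    (L.kb_isInv κ) (sφ (β ⊕ ι) L.tha)
  obtain ⟨S, c, hS, hc, hinj, hxS⟩ := c0_exp x hx hne
  obtain ⟨w0, hw0, hmax⟩ := S.exists_max_image (fun w => w.length) hS
  have hxm : x ∈ Submodule.span ℂ {y | ∃ l : List (ℕ × (β ⊕ ι)),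
      l.length ≤ w0.length ∧ y = L.vw κ l} := by
    rw [hxS]
    exact Submodule.sum_mem _ fun w hw => Submodule.smul_mem _ _
      (Submodule.subset_span ⟨w, hmax w hw, rfl⟩)
  have hP : (Φ w0.length x).1 = ∑ w ∈ S.filter (fun w => w.length = w0.length),
      c w • smon w := by
    rw [hxS, map_sum, Prod.fst_sum, Finset.sum_filter]
    refine Finset.sum_congr rfl fun w hw => ?_
    rw [map_smul, Prod.smul_fst]
    have h1 : Φ w0.length (L.vw κ w) = _ := hΦ w0.length w L.kv0 (hmax w hw)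
    rw [h1]
    split_ifs with h
    · rw [Prod.smul_fst, sφ_fst]
      show c w • (smon w • C (1 : ℂ)) = _
      rw [C_1, smul_eq_mul, mul_one]
    · show c w • (0 : MvPolynomial (ℕ × (β ⊕ ι)) ℂ) = 0
      rw [smul_zero]
  have hPne : (Φ w0.length x).1 ≠ 0 := by
    intro h
    have h1 := congrArg (coeff (sexp w0)) h
    rw [hP, coeff_sum, coeff_zero, Finset.sum_eq_single w0] at h1
    · rw [smon_eq, coeff_smul, coeff_monomial, if_pos rfl, smul_eq_mul, mul_one] at h1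
      exact hc w0 hw0 h1
    · intro w hw hne
      rw [smon_eq, coeff_smul, coeff_monomial, if_neg, smul_zero]
      intro h
      exact hne (hinj w (Finset.mem_filter.1 hw).1 w0 hw0 (perm_of_sexp h))
    · intro h
      refine absurd ?_ h
      rw [Finset.mem_filter]
      exact ⟨hw0, rfl⟩
  have hD : ∀ j b, L.DA j b (Φ w0.length x).1 = 0 := by
    intro j b
    rw [← sym_main hΦ Q hQv hQ w0.length x hxm j b, hQx, map_zero]
    rfl
  have hv : ∀ (s : ℕ) (b : β), (s, Sum.inl b) ∉ (Φ w0.length x).1.vars := fun s b =>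
    notMem_of_pderiv _ _ (ker_DA _ hD s b)
  refine hPne (resA_inj hc0 _ hv ?_)
  have h1 := congrArg (homogeneousComponent w0.length) hUx
  rw [hxS, map_sum, map_sum, map_zero] at h1
  rw [hP, map_sum, Finset.sum_filter]
  refine Eq.trans (Finset.sum_congr rfl fun w _ => ?_) h1
  rw [map_smul, map_smul, U_vw U c0 hUv hUh hUf, map_smul,
    homogeneousComponent_of_mem ((mem_homogeneousSubmodule _ _).2 (resA_hom c0 w))]
  by_cases h : w.length = w0.length
  · rw [if_pos h, if_pos h.symm]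
  · rw [if_neg h, if_neg (Ne.symm h), smul_zero]

export Internal (kmi_abs)

end LD

end

end WPE
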