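import Pool.Agent.WPE.KOD

/-! WPE, block KO, row KO1: the derivatives with respect to the letters `inl t`. -/

set_option autoImplicit false

namespace WPE

open MvPolynomial (X pderiv)

section poly

variable {T Z : Type}

theorem ko_pker (p : MvPolynomial (T ⊕ Z) ℂ) (h : dTk p = 0) (m : T ⊕ Z →₀ ℕ)
    (hm : m ∈ p.support) (t : T) : m (Sum.inl t) = 0 := by
  by_contra h0
  have h1 : pderiv (Sum.inl t) p = 0 := by
    rw [← dT_apply, h]
    rfl
  have h2 := MvPolynomial.coeff_pderiv (i := (Sum.inl t : T ⊕ Z)) p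
    (m - Finsupp.single (Sum.inl t) 1)
  have h3 : m - Finsupp.single (Sum.inl t) 1 + Finsupp.single (Sum.inl t) 1 = m := by
    refine tsub_add_cancel_of_le ?_
    rw [Finsupp.single_le_iff]
    omega
  rw [h1, h3, MvPolynomial.coeff_zero] at h2
  rcases mul_eq_zero.1 h2.symm with h4 | h4
  · exact (MvPolynomial.mem_support_iff.1 hm) h4
  · exact Nat.cast_add_one_ne_zero (R := ℂ) _ h4

theorem ko_dT_one : dTk (1 : MvPolynomial (T ⊕ Z) ℂ) = 0 := by
  refine Finsupp.ext fun t => ?_
  rw [dT_apply, MvPolynomial.pderiv_one]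
  rfl

theorem ko_dT_inl [DecidableEq T] (t : T) (q : MvPolynomial (T ⊕ Z) ℂ) :
    dTk (X (Sum.inl t) * q) =
      (dTk q).mapRange (fun r => X (Sum.inl t) * r) (mul_zero _) + Finsupp.single t q := by
  refine Finsupp.ext fun s => ?_
  rw [Finsupp.add_apply, Finsupp.mapRange_apply, dT_apply, dT_apply, MvPolynomial.pderiv_mul,
    Finsupp.single_apply]
  by_cases h : t = s
  · subst h
    rw [if_pos rfl, MvPolynomial.pderiv_X_self, one_mul, add_comm]
  · rw [if_neg h, MvPolynomial.pderiv_X_of_ne (fun h1 => h (Sum.inl_injective h1)), zero_mul,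
      zero_add, add_zero]

theorem ko_dT_inr (z : Z) (q : MvPolynomial (T ⊕ Z) ℂ) :
    dTk (X (Sum.inr z) * q) =
      (dTk q).mapRange (fun r => X (Sum.inr z) * r) (mul_zero _) := by
  refine Finsupp.ext fun s => ?_
  rw [Finsupp.mapRange_apply, dT_apply, dT_apply, MvPolynomial.pderiv_mul,
    MvPolynomial.pderiv_X_of_ne Sum.inr_ne_inl, zero_mul, zero_add]

theorem ko_dT_hom (k : ℕ) (q : MvPolynomial (T ⊕ Z) ℂ) (hq : q.IsHomogeneous k) (t : T) :
    (dTk q t).IsHomogeneous (k - 1) := by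
  rw [dT_apply]
  exact hq.pderiv

end poly

end WPE
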