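import Pool.Agent.WPE.KO8

set_option autoImplicit false

namespace WPE

open MvPolynomial (X pderiv)

namespace KO11

section gen

variable {Λ ι V : Type} [AddCommGroup V] [Module ℂ V] (J : Λ → V →ₗ[ℂ] V)

theorem TH_monomial (x : V) (m : Λ →₀ ℕ) (c : ℂ) :
    TH J x (MvPolynomial.monomial m c) = c • wd J (Finsupp.toMultiset m).toList x := by
  have h1 : MvPolynomial.monomial m c = c • MvPolynomial.basisMonomials Λ ℂ m := by
    rw [MvPolynomial.coe_basisMonomials, MvPolynomial.smul_monomial, smul_eq_mul, mul_one]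
  rw [h1, map_smul]
  unfold TH
  rw [Module.Basis.constr_basis]

theorem TH_eq (x : V) (p : MvPolynomial Λ ℂ) :
    TH J x p = ∑ m ∈ p.support, p.coeff m • wd J (Finsupp.toMultiset m).toList x := by
  conv_lhs => rw [← MvPolynomial.support_sum_monomial_coeff p]
  rw [map_sum]
  exact Finset.sum_congr rfl fun m _ => TH_monomial J x m _

theorem TS_eq (x : ι → V) (q : ι →₀ MvPolynomial Λ ℂ) :
    TS J x q = ∑ i ∈ q.support, TH J (x i) (q i) := by
  unfold TS
  rw [Finsupp.lsum_apply]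
  rfl

theorem TS_mapDomain {κ : Type} (x : ι → V) (f : κ → ι) (q : κ →₀ MvPolynomial Λ ℂ) :
    TS J x (q.mapDomain f) = TS J (fun t => x (f t)) q := by
  unfold TS
  rw [Finsupp.lsum_apply, Finsupp.lsum_apply]
  exact Finsupp.sum_mapDomain_index (fun i => map_zero _) fun i p q => map_add _ p q

theorem FS_le {κ : Type} (x : ι → V) (f : κ → ι) (k : ℕ) :
    FS J (fun t => x (f t)) k ≤ FS J x k :=
  iSup_le fun t => le_iSup (fun j => Fx J (x j) k) (f t)

end gen

section kd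

variable {T Z ι : Type}

/-- the derivatives of a family -/
noncomputable def dd (q : ι →₀ MvPolynomial (T ⊕ Z) ℂ) : T × ι →₀ MvPolynomial (T ⊕ Z) ℂ :=
  q.sum fun i r => (dTk r).mapDomain fun t => (t, i)

theorem dd_apply (q : ι →₀ MvPolynomial (T ⊕ Z) ℂ) (t : T) (i : ι) : dd q (t, i) = dTk (q i) t := by
  classical
  unfold dd
  rw [Finsupp.sum_apply, Finsupp.sum]
  rw [Finset.sum_eq_single i]
  · exact Finsupp.mapDomain_apply (fun a b h => (Prod.mk.inj h).1) _ t
  · intro j _ hj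
    refine Finsupp.mapDomain_of_notMem_range _ _ ?_
    rintro ⟨s, hs⟩
    exact hj (Prod.mk.inj hs).2
  · intro hi
    rw [Finsupp.notMem_support_iff.1 hi, map_zero, Finsupp.mapDomain_zero]
    rfl

theorem dd_hom (k : ℕ) (q : ι →₀ MvPolynomial (T ⊕ Z) ℂ) (hq : ∀ i, (q i).IsHomogeneous k)
    (j : T × ι) : (dd q j).IsHomogeneous (k - 1) := by
  obtain ⟨t, i⟩ := j
  rw [dd_apply]
  exact ko_dT_hom k (q i) (hq i) t

variable {V V' : Type} [AddCommGroup V] [Module ℂ V] [AddCommGroup V'] [Module ℂ V']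
  {J : T ⊕ Z → V →ₗ[ℂ] V} {J' : T ⊕ Z → V' →ₗ[ℂ] V'} {P : T → V →ₗ[ℂ] V'} {D : V →ₗ[ℂ] V'}
  {br : T ⊕ Z → T ⊕ Z → (T ⊕ Z →₀ ℂ)} {bp : T ⊕ Z → T → (T →₀ ℂ)}

theorem TS_dd (y : T × ι → V') (q : ι →₀ MvPolynomial (T ⊕ Z) ℂ) :
    TS J' y (dd q) = ∑ i ∈ q.support, TS J' (fun t => y (t, i)) (dTk (q i)) := by
  unfold dd
  rw [Finsupp.sum, map_sum]
  exact Finset.sum_congr rfl fun i _ => TS_mapDomain J' y (fun t => (t, i)) _

theorem kdF (h : KD J J' P D br bp) (x : ι → V) (hx : ∀ i, D (x i) = 0) (k : ℕ) (y : V)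
    (hy : y ∈ FS J x k) : D y ∈ FS J' (fun j : T × ι => P j.1 (x j.2)) (k - 1) := by
  rcases k with _ | k
  · rw [ko_FS_zero] at hy
    rw [(Submodule.mem_bot ℂ).1 hy, map_zero]
    exact Submodule.zero_mem _
  · have h1 : FS J x (k + 1) ≤ (FS J' (fun j : T × ι => P j.1 (x j.2)) k).comap D := by
      refine iSup_le fun i => ?_
      intro z hz
      exact FS_le J' (fun j : T × ι => P j.1 (x j.2)) (fun t => (t, i)) k
        (ko_kd_F h (x i) (hx i) k z hz)
    exact h1 hy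

theorem kdTS (h : KD J J' P D br bp) (x : ι → V) (hx : ∀ i, D (x i) = 0) (k : ℕ)
    (q : ι →₀ MvPolynomial (T ⊕ Z) ℂ) (hq : ∀ i, (q i).IsHomogeneous k) :
    D (TS J x q) - TS J' (fun j : T × ι => P j.1 (x j.2)) (dd q) ∈
      FS J' (fun j : T × ι => P j.1 (x j.2)) (k - 1) := by
  rw [TS_eq, TS_dd, map_sum, ← Finset.sum_sub_distrib]
  refine Submodule.sum_mem _ fun i _ => ?_
  exact FS_le J' (fun j : T × ι => P j.1 (x j.2)) (fun t => (t, i)) (k - 1)
    (ko_kd_TH h (x i) (hx i) k (q i) (hq i))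

theorem inr_list (l : List (T ⊕ Z)) (h : ∀ t, Sum.inl t ∉ l) : ∃ l' : List Z, l = l'.map Sum.inr := by
  induction l with
  | nil => exact ⟨[], rfl⟩
  | cons a l ih =>
    obtain ⟨l', hl'⟩ := ih fun t ht => h t (List.mem_cons_of_mem _ ht)
    rcases a with t | z
    · exact absurd List.mem_cons_self (h t)
    · exact ⟨z :: l', by rw [List.map_cons, ← hl']⟩

end kd

end KO11

section sys

variable {T Z ν C0 C1 C2 : Type} [AddCommGroup C0] [Module ℂ C0] [AddCommGroup C1] [Module ℂ C1]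
  [AddCommGroup C2] [Module ℂ C2]

theorem ko_zw_D0 (K : KS T Z ν C0 C1 C2) (l : List Z) (i : ν) : K.D0 (K.zw l i) = 0 := by
  induction l with
  | nil => exact K.D0n i
  | cons z l ih =>
    change K.D0 (K.J0 (Sum.inr z) (K.zw l i)) = 0
    rw [K.kd0.DZ, ih, map_zero]

theorem KO11.G_D0 (K : KS T Z ν C0 C1 C2) (x : C0) (hx : x ∈ K.G) : K.D0 x = 0 := by
  have h1 : K.G ≤ LinearMap.ker K.D0 := by
    refine Submodule.span_le.2 ?_
    rintro y ⟨l, i, rfl⟩
    exact LinearMap.mem_ker.2 (ko_zw_D0 K l i)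
  exact LinearMap.mem_ker.1 (h1 hx)

theorem KO11.TS_G (K : KS T Z ν C0 C1 C2) (q : ν →₀ MvPolynomial (T ⊕ Z) ℂ)
    (hq : ∀ i, dTk (q i) = 0) : TS K.J0 K.n q ∈ K.G := by
  rw [KO11.TS_eq]
  refine Submodule.sum_mem _ fun i _ => ?_
  rw [KO11.TH_eq]
  refine Submodule.sum_mem _ fun m hm => Submodule.smul_mem _ _ (Submodule.subset_span ?_)
  obtain ⟨l', hl'⟩ := KO11.inr_list (Finsupp.toMultiset m).toList fun t ht => by
    rw [Multiset.mem_toList, Finsupp.mem_toMultiset, Finsupp.mem_support_iff] at ht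
    exact ht (ko_pker (q i) (hq i) m hm t)
  exact ⟨l', i, by rw [hl']; rfl⟩

theorem ko_K0 (K : KS T Z ν C0 C1 C2) (x : C0) (h : K.D0 x = 0) : x ∈ K.G := by
  obtain ⟨k, hk⟩ := K.sp0 x
  induction k generalizing x with
  | zero =>
    rw [ko_FS_zero] at hk
    rw [(Submodule.mem_bot ℂ).1 hk]
    exact Submodule.zero_mem _
  | succ k ih =>
    obtain ⟨q, hq, hxq⟩ := ko_topS K.kd0.fam K.n k x hk
    have h1 := KO11.kdTS K.kd0 K.n K.D0n k q hq
    have h2 := KO11.kdF K.kd0 K.n K.D0n k _ hxq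
    have h3 : TS K.J1 (fun j : T × ν => K.p0 j.1 (K.n j.2)) (KO11.dd q) ∈
        FS K.J1 (fun j : T × ν => K.p0 j.1 (K.n j.2)) (k - 1) := by
      have h4 := Submodule.add_mem _ h1 h2
      rw [map_sub, h, zero_sub] at h4
      have h5 : K.D0 (TS K.J0 K.n q) - TS K.J1 (fun j : T × ν => K.p0 j.1 (K.n j.2)) (KO11.dd q) +
          -K.D0 (TS K.J0 K.n q) = -TS K.J1 (fun j : T × ν => K.p0 j.1 (K.n j.2)) (KO11.dd q) := by
        abel
      rw [h5] at h4
      exact (Submodule.neg_mem_iff _).1 h4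
    have h6 := K.gr1 (k - 1) (KO11.dd q) (KO11.dd_hom k q hq) h3
    have h7 : ∀ i, dTk (q i) = 0 := by
      intro i
      refine Finsupp.ext fun t => ?_
      rw [← KO11.dd_apply, h6]
      rfl
    have h8 := KO11.TS_G K q h7
    have h9 : K.D0 (x - TS K.J0 K.n q) = 0 := by
      rw [map_sub, h, KO11.G_D0 K _ h8, sub_zero]
    have h10 := Submodule.add_mem _ (ih _ h9 hxq) h8
    rwa [sub_add_cancel] at h10

theorem ko_n_li (K : KS T Z ν C0 C1 C2) : LinearIndependent ℂ K.n := by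
  rw [linearIndependent_iff]
  intro a ha
  have h1 := K.gr0 0 (a.mapRange MvPolynomial.C (map_zero _)) (fun i => by
    rw [Finsupp.mapRange_apply]
    exact MvPolynomial.isHomogeneous_C _ _) (by
    have h2 : TS K.J0 K.n (a.mapRange MvPolynomial.C (map_zero _)) =
        Finsupp.linearCombination ℂ K.n a := by
      unfold TS
      rw [Finsupp.lsum_apply, Finsupp.sum_mapRange_index (fun i => map_zero _),
        Finsupp.linearCombination_apply]
      refine Finset.sum_congr rfl fun i _ => ?_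
      change TH K.J0 (K.n i) (MvPolynomial.monomial 0 (a i)) = a i • K.n i
      rw [KO11.TH_monomial, map_zero, Multiset.toList_zero]
      rfl
    rw [h2, ha]
    exact Submodule.zero_mem _)
  refine Finsupp.ext fun i => ?_
  have h3 := DFunLike.congr_fun h1 i
  rw [Finsupp.mapRange_apply] at h3
  exact MvPolynomial.C_injective _ _ (h3.trans (map_zero _).symm)

end sys

end WPE
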