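import Pool.Agent.WPE.KO3

/-! WPE, block KO, row KO4: the leading term of a word. -/

set_option autoImplicit false

namespace WPE

open MvPolynomial (X pderiv)

namespace KO4

section

variable {Λ V : Type} [AddCommGroup V] [Module ℂ V]

theorem th_mono (J : Λ → V →ₗ[ℂ] V) (x : V) (m : Λ →₀ ℕ) :
    TH J x (MvPolynomial.monomial m 1) = wd J (Finsupp.toMultiset m).toList x := by
  unfold TH
  have h : (MvPolynomial.monomial m (1 : ℂ)) = MvPolynomial.basisMonomials Λ ℂ m := by
    rw [MvPolynomial.coe_basisMonomials]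
  rw [h, Module.Basis.constr_basis]

theorem mn_eq (l : List Λ) : ∃ m : Λ →₀ ℕ, mn l = MvPolynomial.monomial m 1 ∧
    Finsupp.toMultiset m = (l : Multiset Λ) := by
  induction l with
  | nil =>
    refine ⟨0, ?_, ?_⟩
    · unfold mn
      rw [List.map_nil, List.prod_nil]
      rfl
    · rw [map_zero]
      rfl
  | cons a l ih =>
    obtain ⟨m, h1, h2⟩ := ih
    refine ⟨Finsupp.single a 1 + m, ?_, ?_⟩
    · have h3 : mn (a :: l) = X a * mn l := by
        unfold mn
        rw [List.map_cons, List.prod_cons]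
      rw [h3, h1, MvPolynomial.X, MvPolynomial.monomial_mul, one_mul]
    · rw [map_add, h2, Finsupp.toMultiset_single, one_smul, Multiset.singleton_add]
      rfl

theorem mn_hom (l : List Λ) : (mn l).IsHomogeneous l.length := by
  induction l with
  | nil =>
    unfold mn
    rw [List.map_nil, List.prod_nil]
    exact MvPolynomial.isHomogeneous_one _ _
  | cons a l ih =>
    have h3 : mn (a :: l) = X a * mn l := by
      unfold mn
      rw [List.map_cons, List.prod_cons]
    rw [h3, List.length_cons, add_comm]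
    exact (MvPolynomial.isHomogeneous_X ℂ a).mul ih

theorem card_of_hom {k : ℕ} {q : MvPolynomial Λ ℂ} (hq : q.IsHomogeneous k) {m : Λ →₀ ℕ}
    (hm : m ∈ q.support) : (Finsupp.toMultiset m).toList.length = k := by
  have h := hq (MvPolynomial.mem_support_iff.1 hm)
  rw [Multiset.length_toList, Finsupp.card_toMultiset, ← h]
  simp [Finsupp.weight_apply, Finsupp.sum]

/-- induction on homogeneous polynomials -/
theorem hom_ind {k : ℕ} {p : MvPolynomial Λ ℂ → Prop} (h0 : p 0) (hadd : ∀ a b, p a → p b → p (a + b))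
    (hsmul : ∀ (c : ℂ) a, p a → p (c • a))
    (hm : ∀ m : Λ →₀ ℕ, (Finsupp.toMultiset m).toList.length = k → p (MvPolynomial.monomial m 1))
    (q : MvPolynomial Λ ℂ) (hq : q.IsHomogeneous k) : p q := by
  classical
  rw [← MvPolynomial.support_sum_monomial_coeff q]
  refine Finset.sum_induction _ p hadd h0 fun m h => ?_
  have e : MvPolynomial.monomial m (MvPolynomial.coeff m q) =
      MvPolynomial.coeff m q • MvPolynomial.monomial m (1 : ℂ) := by
    rw [MvPolynomial.smul_monomial, smul_eq_mul, mul_one]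
  rw [e]
  exact hsmul _ _ (hm m (card_of_hom hq h))

end

end KO4

section words

variable {Λ ι V : Type} [AddCommGroup V] [Module ℂ V] (J : Λ → V →ₗ[ℂ] V)

variable {J} {br : Λ → Λ → (Λ →₀ ℂ)} (hJ : IsLieFam J br)

include hJ

theorem ko_TH_mn (x : V) (l : List Λ) : wd J l x - TH J x (mn l) ∈ Fx J x l.length := by
  obtain ⟨m, h1, h2⟩ := KO4.mn_eq l
  rw [h1, KO4.th_mono]
  refine ko_perm hJ x l _ ?_
  rw [← Multiset.coe_eq_coe, Multiset.coe_toList, h2]

theorem ko_TH_X (x : V) (a : Λ) (k : ℕ) (q : MvPolynomial Λ ℂ) (hq : q.IsHomogeneous k) :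
    J a (TH J x q) - TH J x (X a * q) ∈ Fx J x (k + 1) := by
  refine KO4.hom_ind (p := fun q => J a (TH J x q) - TH J x (X a * q) ∈ Fx J x (k + 1)) ?_ ?_ ?_ ?_ q hq
  · simp
  · intro p q hp hq
    have e : J a (TH J x (p + q)) - TH J x (X a * (p + q)) =
        (J a (TH J x p) - TH J x (X a * p)) + (J a (TH J x q) - TH J x (X a * q)) := by
      rw [mul_add, map_add, map_add, map_add]
      abel
    rw [e]
    exact Submodule.add_mem _ hp hq
  · intro c p hp
    have e : J a (TH J x (c • p)) - TH J x (X a * (c • p)) = c • (J a (TH J x p) - TH J x (X a * p)) := by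
      rw [mul_smul_comm, map_smul, map_smul, map_smul, smul_sub]
    rw [e]
    exact Submodule.smul_mem _ _ hp
  · intro m hm
    have e : X a * MvPolynomial.monomial m (1 : ℂ) = MvPolynomial.monomial (Finsupp.single a 1 + m) 1 := by
      rw [MvPolynomial.X, MvPolynomial.monomial_mul, one_mul]
    rw [e, KO4.th_mono, KO4.th_mono, ← ko_wd_cons]
    have hl : (a :: (Finsupp.toMultiset m).toList).length = k + 1 := by
      rw [List.length_cons, hm]
    rw [← hl]
    refine ko_perm hJ x _ _ ?_
    rw [← Multiset.coe_eq_coe, Multiset.coe_toList, map_add, Finsupp.toMultiset_single, one_smul,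
      Multiset.singleton_add, ← Multiset.cons_coe, Multiset.coe_toList]

omit hJ in
theorem ko_TH_mem (x : V) (k : ℕ) (q : MvPolynomial Λ ℂ) (hq : q.IsHomogeneous k) :
    TH J x q ∈ Fx J x (k + 1) := by
  refine KO4.hom_ind (p := fun q => TH J x q ∈ Fx J x (k + 1)) ?_ ?_ ?_ ?_ q hq
  · simp
  · intro p q hp hq
    rw [map_add]
    exact Submodule.add_mem _ hp hq
  · intro c p hp
    rw [map_smul]
    exact Submodule.smul_mem _ _ hp
  · intro m hm
    rw [KO4.th_mono]
    exact ko_wd_mem J _ x _ (by omega)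

omit hJ in
theorem ko_TS_mem (x : ι → V) (k : ℕ) (q : ι →₀ MvPolynomial Λ ℂ)
    (hq : ∀ i, (q i).IsHomogeneous k) : TS J x q ∈ FS J x (k + 1) := by
  unfold TS
  rw [Finsupp.lsum_apply, Finsupp.sum]
  exact Submodule.sum_mem _ fun i _ => ko_Fx_FS J x i (k + 1) (ko_TH_mem (x i) k (q i) (hq i))

theorem ko_top (x : V) (k : ℕ) (y : V) (hy : y ∈ Fx J x (k + 1)) :
    ∃ q : MvPolynomial Λ ℂ, q.IsHomogeneous k ∧ y - TH J x q ∈ Fx J x k := by
  unfold Fx at hy
  induction hy using Submodule.span_induction with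
  | mem y h =>
    obtain ⟨l, hl, rfl⟩ := h
    by_cases h1 : l.length < k
    · refine ⟨0, MvPolynomial.isHomogeneous_zero _ _ _, ?_⟩
      rw [map_zero, sub_zero]
      exact ko_wd_mem J l x k h1
    · have h2 : l.length = k := by omega
      refine ⟨mn l, h2 ▸ KO4.mn_hom l, ?_⟩
      have h3 := ko_TH_mn hJ x l
      rwa [h2] at h3
  | zero =>
    refine ⟨0, MvPolynomial.isHomogeneous_zero _ _ _, ?_⟩
    rw [map_zero, sub_zero]
    exact Submodule.zero_mem _
  | add y z _ _ hy hz =>
    obtain ⟨p, hp, h1⟩ := hy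
    obtain ⟨q, hq, h2⟩ := hz
    refine ⟨p + q, hp.add hq, ?_⟩
    have e : y + z - TH J x (p + q) = (y - TH J x p) + (z - TH J x q) := by
      rw [map_add]
      abel
    rw [e]
    exact Submodule.add_mem _ h1 h2
  | smul c y _ hy =>
    obtain ⟨p, hp, h1⟩ := hy
    refine ⟨c • p, (MvPolynomial.homogeneousSubmodule Λ ℂ k).smul_mem c hp, ?_⟩
    have e : c • y - TH J x (c • p) = c • (y - TH J x p) := by
      rw [map_smul, smul_sub]
    rw [e]
    exact Submodule.smul_mem _ _ h1

theorem ko_topS (x : ι → V) (k : ℕ) (y : V) (hy : y ∈ FS J x (k + 1)) :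
    ∃ q : ι →₀ MvPolynomial Λ ℂ, (∀ i, (q i).IsHomogeneous k) ∧
      y - TS J x q ∈ FS J x k := by
  classical
  unfold FS at hy
  refine Submodule.iSup_induction _ (motive := fun y => ∃ q : ι →₀ MvPolynomial Λ ℂ, (∀ i, (q i).IsHomogeneous k) ∧
      y - TS J x q ∈ FS J x k) hy ?_ ?_ ?_
  · intro i y hy
    obtain ⟨q, hq, h1⟩ := ko_top hJ (x i) k y hy
    refine ⟨Finsupp.single i q, fun j => ?_, ?_⟩
    · rw [Finsupp.single_apply]
      split_ifs
      · exact hq
      · exact MvPolynomial.isHomogeneous_zero _ _ _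
    · have e : TS J x (Finsupp.single i q) = TH J (x i) q := by
        unfold TS
        rw [Finsupp.lsum_single]
      rw [e]
      exact ko_Fx_FS J x i k h1
  · refine ⟨0, fun i => ?_, ?_⟩
    · rw [Finsupp.zero_apply]
      exact MvPolynomial.isHomogeneous_zero _ _ _
    · rw [map_zero, sub_zero]
      exact Submodule.zero_mem _
  · rintro y z ⟨p, hp, h1⟩ ⟨q, hq, h2⟩
    refine ⟨p + q, fun i => ?_, ?_⟩
    · rw [Finsupp.add_apply]
      exact (hp i).add (hq i)
    · have e : y + z - TS J x (p + q) = (y - TS J x p) + (z - TS J x q) := by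
        rw [map_add]
        abel
      rw [e]
      exact Submodule.add_mem _ h1 h2

end words

end WPE
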