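import Pool.Agent.WPE.KO3

/-! WPE, block KO, row KO7: the ghosts and the differential on words, lower order terms. -/

set_option autoImplicit false

namespace WPE

section kd

variable {T Z V V' : Type} [AddCommGroup V] [Module ℂ V] [AddCommGroup V'] [Module ℂ V']
  {J : T ⊕ Z → V →ₗ[ℂ] V} {J' : T ⊕ Z → V' →ₗ[ℂ] V'} {P : T → V →ₗ[ℂ] V'} {D : V →ₗ[ℂ] V'}
  {br : T ⊕ Z → T ⊕ Z → (T ⊕ Z →₀ ℂ)} {bp : T ⊕ Z → T → (T →₀ ℂ)}

/-- The relation `P_t J_a = J'_a P_t - sum bp P`, pushed through a word. -/
theorem ko_kd_P (h : KD J J' P D br bp) (t : T) (l : List (T ⊕ Z)) (x : V) :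
    P t (wd J l x) - wd J' l (P t x) ∈ FS J' (fun t => P t x) l.length := by
  induction l generalizing t with
  | nil =>
    show P t x - P t x ∈ _
    rw [sub_self]
    exact Submodule.zero_mem _
  | cons a l ih =>
    have hmem : ∀ c, P c (wd J l x) ∈ FS J' (fun t => P t x) (l.length + 1) := by
      intro c
      have e : P c (wd J l x) = (P c (wd J l x) - wd J' l (P c x)) + wd J' l (P c x) := by
        rw [sub_add_cancel]
      rw [e]
      refine Submodule.add_mem _ (ko_FS_mono J' _ (Nat.le_succ _) (ih c)) ?_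
      exact ko_Fx_FS J' (fun t => P t x) c _
        (ko_wd_mem J' l (P c x) _ (Nat.lt_succ_self _))
    have e1 : P t (J a (wd J l x)) = J' a (P t (wd J l x)) -
        (bp a t).sum fun c r => r • P c (wd J l x) := by
      rw [h.Jp a t (wd J l x), add_sub_cancel_right]
    have e2 : P t (wd J (a :: l) x) - wd J' (a :: l) (P t x) =
        J' a (P t (wd J l x) - wd J' l (P t x)) - (bp a t).sum fun c r => r • P c (wd J l x) := by
      show P t (J a (wd J l x)) - J' a (wd J' l (P t x)) = _
      rw [e1, map_sub]
      abel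
    rw [e2]
    refine Submodule.sub_mem _ (ko_J_FS J' a _ _ _ (ih t)) ?_
    exact Submodule.sum_mem _ fun c _ => Submodule.smul_mem _ _ (hmem c)

/-- The differential lowers the length by one. -/
theorem ko_kd_F (h : KD J J' P D br bp) (x : V) (hx : D x = 0) (k : ℕ) (y : V)
    (hy : y ∈ Fx J x (k + 1)) : D y ∈ FS J' (fun t => P t x) k := by
  have key : ∀ l : List (T ⊕ Z), D (wd J l x) ∈ FS J' (fun t => P t x) l.length := by
    intro l
    induction l with
    | nil =>
      show D x ∈ _
      rw [hx]
      exact Submodule.zero_mem _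
    | cons a l ih =>
      have hmem : ∀ c, P c (wd J l x) ∈ FS J' (fun t => P t x) (l.length + 1) := by
        intro c
        have e : P c (wd J l x) = (P c (wd J l x) - wd J' l (P c x)) + wd J' l (P c x) := by
          rw [sub_add_cancel]
        rw [e]
        refine Submodule.add_mem _ (ko_FS_mono J' _ (Nat.le_succ _) (ko_kd_P h c l x)) ?_
        exact ko_Fx_FS J' (fun t => P t x) c _
          (ko_wd_mem J' l (P c x) _ (Nat.lt_succ_self _))
      show D (J a (wd J l x)) ∈ FS J' (fun t => P t x) (l.length + 1)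
      cases a with
      | inl t =>
        rw [h.DT]
        exact Submodule.add_mem _ (ko_J_FS J' _ _ _ _ ih) (hmem t)
      | inr z =>
        rw [h.DZ]
        exact ko_J_FS J' _ _ _ _ ih
  unfold Fx at hy
  induction hy using Submodule.span_induction with
  | mem y hy =>
    obtain ⟨l, hl, rfl⟩ := hy
    exact ko_FS_mono J' _ (Nat.le_of_lt_succ hl) (key l)
  | zero =>
    rw [map_zero]
    exact Submodule.zero_mem _
  | add y z _ _ hy hz =>
    rw [map_add]
    exact Submodule.add_mem _ hy hz
  | smul a y _ hy =>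
    rw [map_smul]
    exact Submodule.smul_mem _ _ hy

end kd

end WPE
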