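import Pool.Agent.WPE.KO1
import Pool.Agent.WPE.KO4
import Pool.Agent.WPE.KO7

set_option autoImplicit false

namespace WPE

open MvPolynomial (X pderiv)

namespace KO8

theorem mn_hom {L : Type} (l : List L) : (mn l).IsHomogeneous l.length := by
  induction l with
  | nil => simpa [mn] using MvPolynomial.isHomogeneous_one L ℂ
  | cons a l ih =>
    have h := (MvPolynomial.isHomogeneous_X ℂ a).mul ih
    have e : mn (a :: l) = X a * mn l := by simp [mn]
    rw [e, List.length_cons, add_comm]
    exact h

theorem mn_toList {L : Type} (m : L →₀ ℕ) :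
    mn (Finsupp.toMultiset m).toList = MvPolynomial.monomial m (1 : ℂ) := by
  have e : mn (Finsupp.toMultiset m).toList =
      ((Finsupp.toMultiset m).map (X : L → MvPolynomial L ℂ)).prod := by
    conv_rhs => rw [← Multiset.coe_toList (Finsupp.toMultiset m)]
    rw [Multiset.map_coe, Multiset.prod_coe]
    rfl
  rw [e]
  clear e
  induction m using Finsupp.induction_linear with
  | zero => simp
  | add f g hf hg =>
    rw [map_add, Multiset.map_add, Multiset.prod_add, hf, hg,
      MvPolynomial.monomial_mul, one_mul]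
  | single a n =>
    rw [Finsupp.toMultiset_single, Multiset.map_nsmul, Multiset.map_singleton,
      Multiset.prod_nsmul, Multiset.prod_singleton, MvPolynomial.X_pow_eq_monomial]

theorem TS_mul {L ι V : Type} [AddCommGroup V] [Module ℂ V] {J : L → V →ₗ[ℂ] V}
    {br : L → L → (L →₀ ℂ)} (hJ : IsLieFam J br) (x : ι → V) (a : L) (k : ℕ)
    (u : ι →₀ MvPolynomial L ℂ) (hu : ∀ i, (u i).IsHomogeneous k) :
    J a (TS J x u) - TS J x (u.mapRange (fun r => X a * r) (mul_zero _)) ∈ FS J x (k + 1) := by
  have e1 : TS J x u = u.sum fun i r => TH J (x i) r := by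
    simp [TS, Finsupp.lsum_apply]
  have e2 : TS J x (u.mapRange (fun r => X a * r) (mul_zero _)) =
      u.sum fun i r => TH J (x i) (X a * r) := by
    simp only [TS, Finsupp.lsum_apply]
    rw [Finsupp.sum_mapRange_index]
    intro i
    simp
  rw [e1, e2, map_finsuppSum]
  simp only [Finsupp.sum]
  rw [← Finset.sum_sub_distrib]
  refine Submodule.sum_mem _ fun i _ => ?_
  exact ko_Fx_FS J x i _ (ko_TH_X hJ (x i) a k (u i) (hu i))

end KO8

section kd

variable {T Z V V' : Type} [AddCommGroup V] [Module ℂ V] [AddCommGroup V'] [Module ℂ V']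
  {J : T ⊕ Z → V →ₗ[ℂ] V} {J' : T ⊕ Z → V' →ₗ[ℂ] V'} {P : T → V →ₗ[ℂ] V'} {D : V →ₗ[ℂ] V'}
  {br : T ⊕ Z → T ⊕ Z → (T ⊕ Z →₀ ℂ)} {bp : T ⊕ Z → T → (T →₀ ℂ)}

theorem KO8.word (h : KD J J' P D br bp) (x : V) (hx : D x = 0) (l : List (T ⊕ Z)) :
    D (wd J l x) - TS J' (fun t => P t x) (dTk (mn l)) ∈ FS J' (fun t => P t x) (l.length - 1) := by
  classical
  induction l with
  | nil =>
    have e1 : wd J [] x = x := rfl
    have e2 : mn ([] : List (T ⊕ Z)) = 1 := by simp [mn]
    rw [e1, e2, hx, ko_dT_one, map_zero, sub_zero]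
    exact Submodule.zero_mem _
  | cons a l ih =>
    have key : J' a (D (wd J l x)) -
        TS J' (fun t => P t x) ((dTk (mn l)).mapRange (fun r => X a * r) (mul_zero _)) ∈
        FS J' (fun t => P t x) l.length := by
      rcases Nat.eq_zero_or_pos l.length with h0 | h0
      · have hl : l = [] := List.length_eq_zero_iff.mp h0
        subst hl
        have e1 : wd J [] x = x := rfl
        have e2 : mn ([] : List (T ⊕ Z)) = 1 := by simp [mn]
        rw [e1, e2, hx, ko_dT_one, map_zero, Finsupp.mapRange_zero, map_zero, sub_zero]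
        exact Submodule.zero_mem _
      · have hk : l.length - 1 + 1 = l.length := by omega
        have h1 := ko_J_FS J' a (fun t => P t x) _ _ ih
        have h2 := KO8.TS_mul h.fam' (fun t => P t x) a (l.length - 1) (dTk (mn l))
          (fun t => ko_dT_hom _ _ (KO8.mn_hom l) t)
        rw [hk] at h1 h2
        have h3 := Submodule.add_mem _ h1 h2
        rw [map_sub] at h3
        simpa using h3
    have em : mn (a :: l) = X a * mn l := by simp [mn]
    rw [ko_wd_cons, em, List.length_cons, Nat.add_sub_cancel]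
    rcases a with t | z
    · rw [h.DT, ko_dT_inl, map_add]
      have h4 := ko_kd_P h t l x
      have h5 := ko_Fx_FS J' (fun t => P t x) t _ (ko_TH_mn h.fam' (P t x) l)
      have h6 : TS J' (fun t => P t x) (Finsupp.single t (mn l)) = TH J' (P t x) (mn l) := by
        simp [TS, Finsupp.lsum_apply]
      rw [h6]
      have h7 := Submodule.add_mem _ key (Submodule.add_mem _ h4 h5)
      convert h7 using 1
      abel
    · rw [h.DZ, ko_dT_inr]
      exact key

theorem ko_kd_TH (h : KD J J' P D br bp) (x : V) (hx : D x = 0) (k : ℕ)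
    (q : MvPolynomial (T ⊕ Z) ℂ) (hq : q.IsHomogeneous k) :
    D (TH J x q) - TS J' (fun t => P t x) (dTk q) ∈ FS J' (fun t => P t x) (k - 1) := by
  have hq' : q = ∑ m ∈ q.support, q.coeff m • MvPolynomial.monomial m (1 : ℂ) := by
    conv_lhs => rw [MvPolynomial.as_sum q]
    refine Finset.sum_congr rfl fun m _ => ?_
    rw [MvPolynomial.smul_monomial, smul_eq_mul, mul_one]
  have hm : ∀ m ∈ q.support,
      D (TH J x (MvPolynomial.monomial m (1 : ℂ))) -
        TS J' (fun t => P t x) (dTk (MvPolynomial.monomial m (1 : ℂ))) ∈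
        FS J' (fun t => P t x) (k - 1) := by
    intro m hms
    have hlen : (Finsupp.toMultiset m).toList.length = k := by
      rw [Multiset.length_toList, Finsupp.card_toMultiset]
      have := hq (MvPolynomial.mem_support_iff.mp hms)
      rw [← this]
      simp [Finsupp.weight_apply, Finsupp.sum]
    have h1 := KO8.word h x hx (Finsupp.toMultiset m).toList
    rw [KO8.mn_toList, hlen] at h1
    have h2 : TH J x (MvPolynomial.monomial m (1 : ℂ)) =
        wd J (Finsupp.toMultiset m).toList x := by
      have := (MvPolynomial.basisMonomials (T ⊕ Z) ℂ).constr_basis ℂ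
        (fun m => wd J (Finsupp.toMultiset m).toList x) m
      rw [MvPolynomial.coe_basisMonomials] at this
      exact this
    rw [h2]
    exact h1
  rw [hq']
  simp only [map_sum, map_smul]
  rw [← Finset.sum_sub_distrib]
  refine Submodule.sum_mem _ fun m hms => ?_
  rw [← smul_sub]
  exact Submodule.smul_mem _ _ (hm m hms)

end kd

end WPE
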