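import Pool.Agent.WPE.KO2
import Pool.Agent.WPE.KO8

set_option autoImplicit false

namespace WPE

open MvPolynomial (X pderiv)

namespace KO12

section gen

variable {Λ ι V : Type} [AddCommGroup V] [Module ℂ V] (J : Λ → V →ₗ[ℂ] V)

theorem TS_eq (x : ι → V) (q : ι →₀ MvPolynomial Λ ℂ) :
    TS J x q = ∑ i ∈ q.support, TH J (x i) (q i) := by
  unfold TS
  rw [Finsupp.lsum_apply]
  rfl

theorem TS_mapDomain {κ : Type} (x : ι → V) (f : κ → ι) (q : κ →₀ MvPolynomial Λ ℂ) :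
    TS J x (q.mapDomain f) = TS J (fun t => x (f t)) q := by
  unfold TS
  rw [Finsupp.lsum_apply, Finsupp.lsum_apply]
  exact Finsupp.sum_mapDomain_index (fun i => map_zero _) fun i p q => map_add _ p q

theorem FS_le {κ : Type} (x : ι → V) (f : κ → ι) (k : ℕ) :
    FS J (fun t => x (f t)) k ≤ FS J x k :=
  iSup_le fun t => le_iSup (fun j => Fx J (x j) k) (f t)

end gen

section kd

variable {T Z ι : Type}

/-- the derivatives of a family -/
noncomputable def dd (q : ι →₀ MvPolynomial (T ⊕ Z) ℂ) : T × ι →₀ MvPolynomial (T ⊕ Z) ℂ :=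
  q.sum fun i r => (dTk r).mapDomain fun t => (t, i)

theorem dd_apply (q : ι →₀ MvPolynomial (T ⊕ Z) ℂ) (t : T) (i : ι) : dd q (t, i) = dTk (q i) t := by
  classical
  unfold dd
  rw [Finsupp.sum_apply, Finsupp.sum]
  rw [Finset.sum_eq_single i]
  · exact Finsupp.mapDomain_apply (fun a b h => (Prod.mk.inj h).1) _ t
  · intro j _ hj
    refine Finsupp.mapDomain_of_notMem_range _ _ ?_
    rintro ⟨s, hs⟩
    exact hj (Prod.mk.inj hs).2
  · intro hi
    rw [Finsupp.notMem_support_iff.1 hi, map_zero, Finsupp.mapDomain_zero]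
    rfl

theorem dd_hom (k : ℕ) (q : ι →₀ MvPolynomial (T ⊕ Z) ℂ) (hq : ∀ i, (q i).IsHomogeneous k)
    (j : T × ι) : (dd q j).IsHomogeneous (k - 1) := by
  obtain ⟨t, i⟩ := j
  rw [dd_apply]
  exact ko_dT_hom k (q i) (hq i) t

variable {V V' : Type} [AddCommGroup V] [Module ℂ V] [AddCommGroup V'] [Module ℂ V']
  {J : T ⊕ Z → V →ₗ[ℂ] V} {J' : T ⊕ Z → V' →ₗ[ℂ] V'} {P : T → V →ₗ[ℂ] V'} {D : V →ₗ[ℂ] V'}
  {br : T ⊕ Z → T ⊕ Z → (T ⊕ Z →₀ ℂ)} {bp : T ⊕ Z → T → (T →₀ ℂ)}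

theorem TS_dd (y : T × ι → V') (q : ι →₀ MvPolynomial (T ⊕ Z) ℂ) :
    TS J' y (dd q) = ∑ i ∈ q.support, TS J' (fun t => y (t, i)) (dTk (q i)) := by
  unfold dd
  rw [Finsupp.sum, map_sum]
  exact Finset.sum_congr rfl fun i _ => TS_mapDomain J' y (fun t => (t, i)) _

theorem kdF (h : KD J J' P D br bp) (x : ι → V) (hx : ∀ i, D (x i) = 0) (k : ℕ) (y : V)
    (hy : y ∈ FS J x k) : D y ∈ FS J' (fun j : T × ι => P j.1 (x j.2)) (k - 1) := by
  rcases k with _ | k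
  · rw [ko_FS_zero] at hy
    rw [(Submodule.mem_bot ℂ).1 hy, map_zero]
    exact Submodule.zero_mem _
  · have h1 : FS J x (k + 1) ≤ (FS J' (fun j : T × ι => P j.1 (x j.2)) k).comap D := by
      refine iSup_le fun i => ?_
      intro z hz
      exact FS_le J' (fun j : T × ι => P j.1 (x j.2)) (fun t => (t, i)) k
        (ko_kd_F h (x i) (hx i) k z hz)
    exact h1 hy

theorem kdTS (h : KD J J' P D br bp) (x : ι → V) (hx : ∀ i, D (x i) = 0) (k : ℕ)
    (q : ι →₀ MvPolynomial (T ⊕ Z) ℂ) (hq : ∀ i, (q i).IsHomogeneous k) :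
    D (TS J x q) - TS J' (fun j : T × ι => P j.1 (x j.2)) (dd q) ∈
      FS J' (fun j : T × ι => P j.1 (x j.2)) (k - 1) := by
  rw [TS_eq, TS_dd, map_sum, ← Finset.sum_sub_distrib]
  refine Submodule.sum_mem _ fun i _ => ?_
  exact FS_le J' (fun j : T × ι => P j.1 (x j.2)) (fun t => (t, i)) (k - 1)
    (ko_kd_TH h (x i) (hx i) k (q i) (hq i))

end kd

end KO12

section sys

variable {T Z ν C0 C1 C2 : Type} [AddCommGroup C0] [Module ℂ C0] [AddCommGroup C1] [Module ℂ C1]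
  [AddCommGroup C2] [Module ℂ C2]

/-- the primitive of a closed family -/
theorem KO12.prim (k : ℕ) (r : T × ν →₀ MvPolynomial (T ⊕ Z) ℂ) (hr : ∀ j, (r j).IsHomogeneous k)
    (hc : ∀ s t i, pderiv (Sum.inl s) (r (t, i)) = pderiv (Sum.inl t) (r (s, i))) :
    ∃ p : ν →₀ MvPolynomial (T ⊕ Z) ℂ, (∀ i, (p i).IsHomogeneous (k + 1)) ∧ KO12.dd p = r := by
  classical
  have h1 : ∀ i : ν, ∃ p : MvPolynomial (T ⊕ Z) ℂ, p.IsHomogeneous (k + 1) ∧
      dTk p = r.comapDomain (fun t => (t, i)) (fun a _ b _ h => (Prod.mk.inj h).1) ∧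
      (i ∉ r.support.image Prod.snd → p = 0) := by
    intro i
    by_cases hi : i ∈ r.support.image Prod.snd
    · obtain ⟨p, hp, hp'⟩ := ko_pex k
        (r.comapDomain (fun t => (t, i)) (fun a _ b _ h => (Prod.mk.inj h).1))
        (fun t => hr (t, i)) (fun s t => hc s t i)
      exact ⟨p, hp, hp', fun h => absurd hi h⟩
    · refine ⟨0, MvPolynomial.isHomogeneous_zero _ _ _, ?_, fun _ => rfl⟩
      rw [map_zero]
      refine Finsupp.ext fun t => ?_
      change 0 = r (t, i)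
      by_contra h
      exact hi (Finset.mem_image.2 ⟨(t, i), Finsupp.mem_support_iff.2 (Ne.symm h), rfl⟩)
  choose p hp hp' hp0 using h1
  refine ⟨Finsupp.onFinset (r.support.image Prod.snd) p fun i hi => ?_, fun i => hp i, ?_⟩
  · by_contra h
    exact hi (hp0 i h)
  · refine Finsupp.ext fun j => ?_
    obtain ⟨t, i⟩ := j
    rw [KO12.dd_apply, Finsupp.onFinset_apply, hp']
    rfl

theorem KO12.D1y (K : KS T Z ν C0 C1 C2) (j : T × ν) : K.D1 (K.p0 j.1 (K.n j.2)) = 0 := by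
  rw [K.D1p, K.D0n, map_zero, neg_zero]

/-- the leading part of a cocycle is closed -/
theorem KO12.closed (K : KS T Z ν C0 C1 C2) (k : ℕ) (u : C1) (h : K.D1 u = 0)
    (r : T × ν →₀ MvPolynomial (T ⊕ Z) ℂ) (hr : ∀ j, (r j).IsHomogeneous k)
    (hu : u - TS K.J1 (fun j : T × ν => K.p0 j.1 (K.n j.2)) r ∈
      FS K.J1 (fun j : T × ν => K.p0 j.1 (K.n j.2)) k) (s t : T) (i : ν) :
    pderiv (Sum.inl s) (r (t, i)) = pderiv (Sum.inl t) (r (s, i)) := by
  have h1 := KO12.kdTS K.kd1 (fun j : T × ν => K.p0 j.1 (K.n j.2)) (KO12.D1y K) k r hr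
  have h2 := KO12.kdF K.kd1 (fun j : T × ν => K.p0 j.1 (K.n j.2)) (KO12.D1y K) k _ hu
  have h3 : TS K.J2 (fun j : T × (T × ν) => K.p1 j.1 (K.p0 j.2.1 (K.n j.2.2))) (KO12.dd r) ∈
      FS K.J2 (fun j : T × (T × ν) => K.p1 j.1 (K.p0 j.2.1 (K.n j.2.2))) (k - 1) := by
    have h4 := Submodule.add_mem _ h1 h2
    rw [map_sub, h, zero_sub] at h4
    have h5 : K.D1 (TS K.J1 (fun j : T × ν => K.p0 j.1 (K.n j.2)) r) -
        TS K.J2 (fun j : T × (T × ν) => K.p1 j.1 (K.p0 j.2.1 (K.n j.2.2))) (KO12.dd r) +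
        -K.D1 (TS K.J1 (fun j : T × ν => K.p0 j.1 (K.n j.2)) r) =
        -TS K.J2 (fun j : T × (T × ν) => K.p1 j.1 (K.p0 j.2.1 (K.n j.2.2))) (KO12.dd r) := by
      abel
    rw [h5] at h4
    exact (Submodule.neg_mem_iff _).1 h4
  let f : T × (T × ν) → (T × T) × ν := fun j => ((j.1, j.2.1), j.2.2)
  have hf : Function.Injective f := by
    rintro ⟨a, b, c⟩ ⟨a', b', c'⟩ hh
    have e1 : a = a' := congrArg (fun j : (T × T) × ν => j.1.1) hh
    have e2 : b = b' := congrArg (fun j : (T × T) × ν => j.1.2) hh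
    have e3 : c = c' := congrArg (fun j : (T × T) × ν => j.2) hh
    rw [e1, e2, e3]
  have h6 := K.gr2 (k - 1) ((KO12.dd r).mapDomain f) (by
    rintro ⟨⟨a, b⟩, c⟩
    have e : (KO12.dd r).mapDomain f ((a, b), c) = KO12.dd r (a, (b, c)) :=
      Finsupp.mapDomain_apply hf (KO12.dd r) (a, (b, c))
    rw [e]
    exact KO12.dd_hom k r hr _) (by
    rw [KO12.TS_mapDomain]
    exact KO12.FS_le K.J2 (fun i : (T × T) × ν => K.p1 i.1.1 (K.p0 i.1.2 (K.n i.2))) f (k - 1) h3)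
    s t i
  have e1 : (KO12.dd r).mapDomain f ((s, t), i) = KO12.dd r (s, (t, i)) :=
    Finsupp.mapDomain_apply hf (KO12.dd r) (s, (t, i))
  have e2 : (KO12.dd r).mapDomain f ((t, s), i) = KO12.dd r (t, (s, i)) :=
    Finsupp.mapDomain_apply hf (KO12.dd r) (t, (s, i))
  rw [e1, e2, KO12.dd_apply, KO12.dd_apply, dT_apply, dT_apply] at h6
  exact h6

theorem ko_K1 (K : KS T Z ν C0 C1 C2) (u : C1) (h : K.D1 u = 0) : ∃ x, K.D0 x = u := by
  obtain ⟨k, hk⟩ := K.sp1 u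
  induction k generalizing u with
  | zero =>
    rw [ko_FS_zero] at hk
    exact ⟨0, by rw [map_zero, (Submodule.mem_bot ℂ).1 hk]⟩
  | succ k ih =>
    obtain ⟨r, hr, hur⟩ := ko_topS K.kd1.fam (fun j : T × ν => K.p0 j.1 (K.n j.2)) k u hk
    obtain ⟨p, hp, hpr⟩ := KO12.prim k r hr (KO12.closed K k u h r hr hur)
    have h1 := KO12.kdTS K.kd0 K.n K.D0n (k + 1) p hp
    rw [hpr] at h1
    have h2 := Submodule.sub_mem _ hur h1
    have h3 : u - TS K.J1 (fun j : T × ν => K.p0 j.1 (K.n j.2)) r -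
        (K.D0 (TS K.J0 K.n p) - TS K.J1 (fun j : T × ν => K.p0 j.1 (K.n j.2)) r) =
        u - K.D0 (TS K.J0 K.n p) := by
      abel
    rw [h3] at h2
    have h4 : K.D1 (u - K.D0 (TS K.J0 K.n p)) = 0 := by
      rw [map_sub, h, K.DD, sub_zero]
    obtain ⟨x, hx⟩ := ih _ h4 h2
    exact ⟨x + TS K.J0 K.n p, by rw [map_add, hx, sub_add_cancel]⟩

end sys

end WPE
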