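import Pool.Agent.WPE.KO13

set_option autoImplicit false

namespace WPE

open MvPolynomial (X pderiv)

section sys

variable {T Z ν C0 C1 C2 : Type} [AddCommGroup C0] [Module ℂ C0] [AddCommGroup C1] [Module ℂ C1]
  [AddCommGroup C2] [Module ℂ C2]

variable (K : KG T Z ν C0 C1 C2)

theorem ko_zw_R (l : List Z) (i : ν) : K.zw l i ∈ egr K.R0 (K.cdg l i) := by
  induction l with
  | nil =>
    have h1 : K.cdg [] i = K.cn i := by
      unfold KG.cdg
      rw [List.map_nil, List.sum_nil, zero_add]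
    rw [h1]
    exact (ko_mem_egr _ _).2 (K.R0n i)
  | cons z l ih =>
    have h1 : K.cdg (z :: l) i = K.cdg l i + K.cl (Sum.inr z) := by
      unfold KG.cdg
      rw [List.map_cons, List.sum_cons]
      ring
    rw [h1]
    exact ko_egr_map (K.J0 (Sum.inr z)) (K.cl (Sum.inr z)) (K.R0J (Sum.inr z)) _ _ ih

theorem ko_zw_S (l : List Z) (i : ν) : K.zw l i ∈ egr K.S0 (K.ddg l i) := by
  induction l with
  | nil =>
    have h1 : K.ddg [] i = K.top - K.cn i := by
      unfold KG.ddg
      rw [List.map_nil, List.sum_nil, zero_add]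
    rw [h1]
    exact (ko_mem_egr _ _).2 (K.S0n i)
  | cons z l ih =>
    have h1 : K.ddg (z :: l) i = K.ddg l i + K.dl (Sum.inr z) := by
      unfold KG.ddg
      rw [List.map_cons, List.sum_cons]
      ring
    rw [h1]
    exact ko_egr_map (K.J0 (Sum.inr z)) (K.dl (Sum.inr z)) (K.S0J (Sum.inr z)) _ _ ih

theorem KO15.len (l : List Z) (i : ν) : K.top + l.length ≤ K.cdg l i + K.ddg l i := by
  unfold KG.cdg KG.ddg
  induction l with
  | nil =>
    rw [List.map_nil, List.map_nil, List.sum_nil, List.length_nil]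
    push_cast
    linarith
  | cons z l ih =>
    rw [List.map_cons, List.map_cons, List.sum_cons, List.sum_cons, List.length_cons]
    push_cast
    have h1 := K.cd_pos (Sum.inr z)
    linarith

theorem ko_cd_pos (l : List Z) (i : ν) :
    K.top ≤ K.cdg l i + K.ddg l i ∧ (K.cdg l i + K.ddg l i = K.top → l = []) := by
  have h1 := KO15.len K l i
  refine ⟨by linarith [Int.natCast_nonneg l.length], fun h => ?_⟩
  rw [h] at h1
  exact List.length_eq_zero_iff.1 (by
    have h2 : (l.length : ℤ) ≤ 0 := by linarith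
    exact_mod_cast le_antisymm h2 (Int.natCast_nonneg _))

theorem ko_G_hom (c d : ℤ) (g : C0) (hg : g ∈ K.G) (hc : g ∈ egr K.R0 c)
    (hd : g ∈ egr K.S0 d) :
    g ∈ Submodule.span ℂ {y | ∃ (l : List Z) (i : ν), K.cdg l i = c ∧ K.ddg l i = d ∧
      y = K.zw l i} := by
  have h1 : K.G ≤ (Submodule.span ℂ {y | ∃ (l : List Z) (i : ν), K.cdg l i = c ∧
      K.ddg l i = d ∧ y = K.zw l i}).comap (pr K.S0 d ∘ₗ pr K.R0 c) := by
    refine Submodule.span_le.2 ?_
    rintro y ⟨l, i, rfl⟩
    change pr K.S0 d (pr K.R0 c (K.zw l i)) ∈ Submodule.span ℂ {y | ∃ (l : List Z) (i : ν),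
      K.cdg l i = c ∧ K.ddg l i = d ∧ y = K.zw l i}
    by_cases h2 : K.cdg l i = c
    · have h3 := ko_zw_R K l i
      rw [h2] at h3
      rw [ko_pr_self (ko_eR0 K) c _ h3]
      by_cases h4 : K.ddg l i = d
      · have h5 := ko_zw_S K l i
        rw [h4] at h5
        rw [ko_pr_self (ko_eS0 K) d _ h5]
        exact Submodule.subset_span ⟨l, i, h2, h4, rfl⟩
      · rw [ko_pr_ne (ko_eS0 K) d _ (Ne.symm h4) _ (ko_zw_S K l i)]
        exact Submodule.zero_mem _
    · rw [ko_pr_ne (ko_eR0 K) c _ (Ne.symm h2) _ (ko_zw_R K l i), map_zero]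
      exact Submodule.zero_mem _
  have h2 := h1 hg
  rw [Submodule.mem_comap, LinearMap.comp_apply, ko_pr_self (ko_eR0 K) c g hc,
    ko_pr_self (ko_eS0 K) d g hd] at h2
  exact h2

end sys

end WPE
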