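import Pool.Agent.WPE.KO11
import Pool.Agent.WPE.KO14
import Pool.Agent.WPE.KO15

set_option autoImplicit false

namespace WPE

open MvPolynomial (X pderiv)

section sys

variable {T Z ν C0 C1 C2 : Type} [AddCommGroup C0] [Module ℂ C0] [AddCommGroup C1] [Module ℂ C1]
  [AddCommGroup C2] [Module ℂ C2]

variable {K : KG T Z ν C0 C1 C2} {W : Z → C0 →ₗ[ℂ] C0} (hW : K.Wop W) {φ : ν → C0} (hφ : K.IsPhi φ)

include hW hφ

theorem ko_ww (l : List Z) (i : ν) :
    K.Lft (K.cdg l i) (K.ddg l i) (K.zw l i) (wd W l (φ i)) := by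
  induction l with
  | nil =>
    have h := hφ i
    have e1 : K.cdg [] i = K.cn i := by simp [KG.cdg]
    have e2 : K.ddg [] i = K.top - K.cn i := by simp [KG.ddg]
    rw [e1, e2]
    exact h
  | cons z l ih =>
    have e0 : wd W (z :: l) (φ i) = W z (wd W l (φ i)) := rfl
    have e1 : K.cdg (z :: l) i = K.cdg l i + K.cl (Sum.inr z) := by
      simp [KG.cdg]; ring
    have e2 : K.ddg (z :: l) i = K.ddg l i + K.dl (Sum.inr z) := by
      simp [KG.ddg]; ring
    have e3 : K.zw (z :: l) i = K.J0 (Sum.inr z) (K.zw l i) := rfl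
    rw [e0, e1, e2, e3]
    refine ⟨hW.ker z _ ih.ker, ?_, ?_⟩
    · exact ko_egr_map (W z) (K.dl (Sum.inr z)) (hW.deg z) _ _ ih.deg
    · have h1 := ko_GE_lead (A := K.R0) (B := K.R0) (W z) (K.J0 (Sum.inr z)) (K.cl (Sum.inr z))
        (K.R0J (Sum.inr z)) (fun c x hx => hW.lead z c x hx) _ _ ih.low
      have h2 := hW.lead z _ _ (ko_zw_R K l i)
      have e4 : K.cdg l i + 1 + K.cl (Sum.inr z) = K.cdg l i + K.cl (Sum.inr z) + 1 := by ring
      rw [e4] at h1
      have h3 := Submodule.add_mem _ h1 h2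
      have e5 : W z (wd W l (φ i) - K.zw l i) +
          (W z (K.zw l i) - K.J0 (Sum.inr z) (K.zw l i)) =
          W z (wd W l (φ i)) - K.J0 (Sum.inr z) (K.zw l i) := by
        rw [map_sub]; abel
      rw [e5] at h3
      exact h3

theorem ko_span (c d : ℤ) (U : Submodule ℂ C0)
    (hU : ∀ (l : List Z) (i : ν), c ≤ K.cdg l i → K.ddg l i = d → wd W l (φ i) ∈ U)
    (x : C0) (hx : K.Q x = 0) (hd : x ∈ egr K.S0 d) (hc : x ∈ GE K.R0 c) : x ∈ U := by
  have key : ∀ n : ℕ, ∀ c : ℤ, K.top < c + n →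
      (∀ (l : List Z) (i : ν), c ≤ K.cdg l i → K.ddg l i = d → wd W l (φ i) ∈ U) →
      ∀ x : C0, K.Q x = 0 → x ∈ egr K.S0 d → x ∈ GE K.R0 c → x ∈ U := by
    intro n
    induction n with
    | zero =>
      intro c hc _ x _ _ hx
      rw [ko_bot0 K c (by simpa using hc), Submodule.mem_bot] at hx
      rw [hx]
      exact Submodule.zero_mem _
    | succ n ih =>
      intro c hc hU x hx hd hxc
      have hgc : pr K.R0 c x ∈ egr K.R0 c := ko_pr_mem (ko_eR0 K) c x
      have hgd : pr K.R0 c x ∈ egr K.S0 d := ko_prS K c d x hd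
      have hgG : pr K.R0 c x ∈ K.G := ko_K0 K.toKS _ (ko_low K c x hxc hx)
      have hg := ko_G_hom K c d _ hgG hgc hgd
      have hex : ∀ g ∈ Submodule.span ℂ {y | ∃ (l : List Z) (i : ν), K.cdg l i = c ∧
          K.ddg l i = d ∧ y = K.zw l i}, ∃ y ∈ U, K.Q y = 0 ∧ y ∈ egr K.S0 d ∧
          y - g ∈ GE K.R0 (c + 1) := by
        intro g hg
        induction hg using Submodule.span_induction with
        | mem g hg =>
          obtain ⟨l, i, h1, h2, rfl⟩ := hg
          have h3 := ko_ww hW hφ l i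
          refine ⟨wd W l (φ i), hU l i h1.ge h2, h3.ker, ?_, ?_⟩
          · rw [← h2]; exact h3.deg
          · rw [← h1]; exact h3.low
        | zero =>
          exact ⟨0, Submodule.zero_mem _, map_zero _, Submodule.zero_mem _, by
            rw [sub_zero]; exact Submodule.zero_mem _⟩
        | add g g' _ _ h1 h2 =>
          obtain ⟨y, a1, a2, a3, a4⟩ := h1
          obtain ⟨y', b1, b2, b3, b4⟩ := h2
          refine ⟨y + y', Submodule.add_mem _ a1 b1, by rw [map_add, a2, b2, add_zero],
            Submodule.add_mem _ a3 b3, ?_⟩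
          rw [add_sub_add_comm]
          exact Submodule.add_mem _ a4 b4
        | smul r g _ h1 =>
          obtain ⟨y, a1, a2, a3, a4⟩ := h1
          refine ⟨r • y, Submodule.smul_mem _ _ a1, by rw [map_smul, a2, smul_zero],
            Submodule.smul_mem _ _ a3, ?_⟩
          rw [← smul_sub]
          exact Submodule.smul_mem _ _ a4
      obtain ⟨y, a1, a2, a3, a4⟩ := hex _ hg
      have h5 : x - y ∈ U := by
        refine ih (c + 1) (by push_cast at hc; omega) (fun l i h => hU l i (by omega)) (x - y) ?_ ?_ ?_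
        · rw [map_sub, hx, a2, sub_zero]
        · exact Submodule.sub_mem _ hd a3
        · have h6 := Submodule.sub_mem _ (ko_GE_step (ko_eR0 K) c x hxc) a4
          have e : x - pr K.R0 c x - (y - pr K.R0 c x) = x - y := by abel
          rw [e] at h6
          exact h6
      have h7 := Submodule.add_mem _ h5 a1
      rw [sub_add_cancel] at h7
      exact h7
  exact key (K.top + 1 - c).toNat c (by omega) hU x hx hd hc

end sys

end WPE
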