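import Pool.Agent.WPE.KOD

/-! WPE, block KO, row KO2: the Poincare lemma for polynomials in the letters `inl t`. -/

set_option autoImplicit false

namespace WPE

open MvPolynomial (X pderiv)

section poly

variable {T Z : Type}

/-- The number of letters `inl t` in a monomial. -/
noncomputable def KO2.len (m : T ⊕ Z →₀ ℕ) : ℕ := Finsupp.weight (Sum.elim (fun _ => 1) (fun _ => 0)) m

theorem KO2.len_add (m m' : T ⊕ Z →₀ ℕ) : KO2.len (m + m') = KO2.len m + KO2.len m' :=
  map_add _ _ _

theorem KO2.len_single (s : T) : KO2.len (Finsupp.single (Sum.inl s) 1 : T ⊕ Z →₀ ℕ) = 1 := by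
  rw [KO2.len, Finsupp.weight_single]
  simp

/-- The coefficients of `X_a * d_a q`. -/
theorem KO2.coeff_X_mul_pderiv (a : T ⊕ Z) (q : MvPolynomial (T ⊕ Z) ℂ) (m : T ⊕ Z →₀ ℕ) :
    MvPolynomial.coeff m (X a * pderiv a q) = (m a : ℂ) * MvPolynomial.coeff m q := by
  classical
  rw [MvPolynomial.coeff_X_mul']
  split_ifs with h
  · rw [MvPolynomial.coeff_pderiv]
    have h1 : m - Finsupp.single a 1 + Finsupp.single a 1 = m := by
      apply tsub_add_cancel_of_le
      rw [Finsupp.single_le_iff]
      exact Nat.one_le_iff_ne_zero.2 (Finsupp.mem_support_iff.1 h)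
    rw [h1]
    have h2 : m a ≠ 0 := Finsupp.mem_support_iff.1 h
    rw [mul_comm]
    congr 1
    rw [Finsupp.tsub_apply, Finsupp.single_eq_same]
    have : ((m a - 1 : ℕ) : ℂ) + 1 = ((m a - 1 + 1 : ℕ) : ℂ) := by push_cast; ring
    rw [this, Nat.sub_add_cancel (Nat.one_le_iff_ne_zero.2 h2)]
  · have h2 : m a = 0 := Finsupp.notMem_support_iff.1 h
    rw [h2, Nat.cast_zero, zero_mul]

theorem ko_pex (k : ℕ) (u : T →₀ MvPolynomial (T ⊕ Z) ℂ) (hu : ∀ t, (u t).IsHomogeneous k)
    (hc : ∀ s t, pderiv (Sum.inl s) (u t) = pderiv (Sum.inl t) (u s)) :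
    ∃ p : MvPolynomial (T ⊕ Z) ℂ, p.IsHomogeneous (k + 1) ∧ dTk p = u := by
  classical
  set B : MvPolynomial (T ⊕ Z) ℂ := ∑ t ∈ u.support, X (Sum.inl t) * u t with hB
  have hBh : B.IsHomogeneous (k + 1) := by
    rw [hB]
    refine MvPolynomial.IsHomogeneous.sum _ _ _ fun t _ => ?_
    have := (MvPolynomial.isHomogeneous_X ℂ (Sum.inl t : T ⊕ Z)).mul (hu t)
    rwa [add_comm 1 k] at this
  -- Euler's formula
  have hlen : ∀ (m : T ⊕ Z →₀ ℕ) (s : T), MvPolynomial.coeff m (u s) ≠ 0 →
      ∑ t ∈ u.support, (m (Sum.inl t) : ℂ) = (KO2.len m : ℂ) := by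
    intro m s hm
    have h0 : ∀ t, t ∉ u.support → m (Sum.inl t) = 0 := by
      intro t ht
      have h1 : pderiv (Sum.inl t) (u s) = 0 := by
        rw [← hc s t, Finsupp.notMem_support_iff.1 ht, map_zero]
      have h2 := KO2.coeff_X_mul_pderiv (Sum.inl t) (u s) m
      rw [h1, mul_zero, MvPolynomial.coeff_zero] at h2
      have h3 := mul_eq_zero.1 h2.symm
      rcases h3 with h3 | h3
      · exact_mod_cast h3
      · exact absurd h3 hm
    have h4 : KO2.len m = ∑ t ∈ u.support, m (Sum.inl t) := by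
      rw [KO2.len, Finsupp.weight_apply, Finsupp.sum]
      have e1 : ∑ t ∈ u.support, m (Sum.inl t) = ∑ a ∈ u.support.image Sum.inl,
          m a • (Sum.elim (fun _ => 1) (fun _ => 0) : T ⊕ Z → ℕ) a := by
        rw [Finset.sum_image (Sum.inl_injective.injOn)]
        exact Finset.sum_congr rfl fun t _ => by simp
      rw [e1, Finset.sum_subset (Finset.subset_union_left (s₁ := m.support)
        (s₂ := u.support.image Sum.inl)), Finset.sum_subset (Finset.subset_union_right
        (s₁ := m.support) (s₂ := u.support.image Sum.inl))]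
      · intro a _ ha
        cases a with
        | inl t =>
          have ht : t ∉ u.support := fun ht => ha (Finset.mem_image_of_mem _ ht)
          rw [h0 t ht, zero_smul]
        | inr z => simp
      · intro a _ ha
        rw [Finsupp.notMem_support_iff.1 ha, zero_smul]
    rw [h4]
    push_cast
    rfl
  have hE : ∀ (m : T ⊕ Z →₀ ℕ) (s : T),
      MvPolynomial.coeff (m + Finsupp.single (Sum.inl s) 1) B * ((m (Sum.inl s) : ℂ) + 1) =
        ((KO2.len m : ℂ) + 1) * MvPolynomial.coeff m (u s) := by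
    intro m s
    rw [← MvPolynomial.coeff_pderiv, hB, map_sum]
    have h1 : ∀ t ∈ u.support, pderiv (Sum.inl s) (X (Sum.inl t) * u t) =
        (if t = s then u s else 0) + X (Sum.inl t) * pderiv (Sum.inl t) (u s) := by
      intro t _
      rw [MvPolynomial.pderiv_mul, hc s t]
      congr 1
      split_ifs with hts
      · subst hts
        rw [MvPolynomial.pderiv_X_self, one_mul]
      · rw [MvPolynomial.pderiv_X_of_ne (by simpa using hts), zero_mul]
    rw [Finset.sum_congr rfl h1, Finset.sum_add_distrib, Finset.sum_ite_eq']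
    rw [MvPolynomial.coeff_add, MvPolynomial.coeff_sum]
    have h2 : (if s ∈ u.support then u s else 0) = u s := by
      split_ifs with hs
      · rfl
      · exact (Finsupp.notMem_support_iff.1 hs).symm
    rw [h2, Finset.sum_congr rfl fun t _ => KO2.coeff_X_mul_pderiv (Sum.inl t) (u s) m,
      ← Finset.sum_mul]
    by_cases hm : MvPolynomial.coeff m (u s) = 0
    · rw [hm]; ring
    · rw [hlen m s hm]; ring
  refine ⟨∑ m ∈ B.support, MvPolynomial.monomial m (MvPolynomial.coeff m B / (KO2.len m : ℂ)),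
    ?_, ?_⟩
  · refine MvPolynomial.IsHomogeneous.sum _ _ _ fun m hm => ?_
    refine MvPolynomial.isHomogeneous_monomial _ ?_
    have h := hBh (MvPolynomial.mem_support_iff.1 hm)
    rw [Finsupp.degree_eq_weight_one]
    exact h
  · set p := ∑ m ∈ B.support, MvPolynomial.monomial m (MvPolynomial.coeff m B / (KO2.len m : ℂ))
      with hp
    have hcp : ∀ m, MvPolynomial.coeff m p = MvPolynomial.coeff m B / (KO2.len m : ℂ) := by
      intro m
      rw [hp, MvPolynomial.coeff_sum]
      simp only [MvPolynomial.coeff_monomial]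
      rw [Finset.sum_ite_eq']
      split_ifs with hm
      · rfl
      · rw [MvPolynomial.notMem_support_iff.1 hm, zero_div]
    ext s m
    rw [dT_apply, MvPolynomial.coeff_pderiv, hcp, KO2.len_add, KO2.len_single]
    have h := hE m s
    have hne : ((KO2.len m + 1 : ℕ) : ℂ) ≠ 0 := Nat.cast_ne_zero.2 (Nat.succ_ne_zero _)
    rw [div_mul_eq_mul_div, h, div_eq_iff hne]
    push_cast
    ring

end poly

end WPE
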