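import Mathlib

/-! WPE, full BRST complex: an abstract Koszul lemma.

`E i`, `P i` (`i ∈ I`, a linear order) are operators on a space `C` with a linear map `d` such that
`d P_i + P_i d = E_i` and `d E_i = E_i d`.  `C` is the direct sum of the spaces `w (i0 N)`, where `w`
runs over the sorted words in the letters `P_i < E_i < P_j < E_j` (`i < j`), no `P_i` repeated, and
`d i0 = i0 dN`.  Then `N → C` induces an isomorphism in cohomology. -/

set_option linter.unusedSectionVars false

namespace WPE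

noncomputable section

namespace Koz

variable {I : Type} [LinearOrder I]

/-- The letters: `(i, false) = P_i < (i, true) = E_i`. -/
abbrev Lt (I : Type) : Type := I ×ₗ Bool

/-- `x < y`, or `x = y = E_i`. -/
def R (x y : Lt I) : Prop := x < y ∨ (x = y ∧ (ofLex x).2 = true)

/-- Sorted words. -/
abbrev W (I : Type) [LinearOrder I] : Type := {l : List (Lt I) // l.Pairwise R}

/-- The letter `P_i`. -/
def lP (i : I) : Lt I := toLex (i, false)

/-- The letter `E_i`. -/
def lE (i : I) : Lt I := toLex (i, true)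

theorem lP_lt_lE (i : I) : lP i < lE i := by
  rw [Prod.Lex.lt_iff]
  exact Or.inr ⟨rfl, Bool.false_lt_true⟩

theorem eq_lP_or_lE (x : Lt I) : x = lP (ofLex x).1 ∨ x = lE (ofLex x).1 := by
  rcases h : (ofLex x).2 with _ | _
  · left
    apply ofLex.injective
    exact Prod.ext rfl h
  · right
    apply ofLex.injective
    exact Prod.ext rfl h

theorem lE_le_of_lP_lt {i : I} {x : Lt I} (h : lP i < x) : lE i ≤ x := by
  rw [Prod.Lex.lt_iff] at h
  rw [Prod.Lex.le_iff]
  rcases h with h | ⟨h1, h2⟩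
  · exact Or.inl h
  · right
    refine ⟨h1, ?_⟩
    have h3 : (false : Bool) < (ofLex x).2 := h2
    rcases h : (ofLex x).2 with _ | _
    · rw [h] at h3
      exact absurd h3 (lt_irrefl _)
    · exact le_refl _

theorem R_le {x y : Lt I} (h : R x y) : x ≤ y := by
  rcases h with h | h
  · exact h.le
  · exact h.1.le

theorem R_lE {i : I} {y : Lt I} (h : lE i ≤ y) : R (lE i) y := by
  rcases h.lt_or_eq with h | h
  · exact Or.inl h
  · exact Or.inr ⟨h, rfl⟩

theorem R_lP {i : I} {y : Lt I} (h : lE i ≤ y) : R (lP i) y := Or.inl (lt_of_lt_of_le (lP_lt_lE i) h)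

theorem lE_le_of_R_lP {i : I} {y : Lt I} (h : R (lP i) y) : lE i ≤ y := by
  rcases h with h | ⟨-, h⟩
  · exact lE_le_of_lP_lt h
  · exact absurd h (by simp [lP])

variable {C N : Type} [AddCommGroup C] [Module ℂ C] [AddCommGroup N] [Module ℂ N]
  (P E : I → C →ₗ[ℂ] C) (i0 : N →ₗ[ℂ] C)

/-- The operator of a letter. -/
def op (x : Lt I) : C →ₗ[ℂ] C := if (ofLex x).2 = true then E (ofLex x).1 else P (ofLex x).1

theorem op_lP (i : I) : op P E (lP i) = P i := by
  unfold op lP
  simp

theorem op_lE (i : I) : op P E (lE i) = E i := by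
  unfold op lE
  simp

/-- The word `l` applied to `i0 v`. -/
def wd : List (Lt I) → N →ₗ[ℂ] C
  | [] => i0
  | x :: l => op P E x ∘ₗ wd l

theorem wd_nil (v : N) : wd P E i0 [] v = i0 v := rfl

theorem wd_cons (x : Lt I) (l : List (Lt I)) (v : N) :
    wd P E i0 (x :: l) v = op P E x (wd P E i0 l v) := rfl

/-- The decomposition map. -/
def dec : (W I →₀ N) →ₗ[ℂ] C := Finsupp.lsum ℂ fun l => wd P E i0 l.1

theorem dec_single (l : W I) (v : N) : dec P E i0 (Finsupp.single l v) = wd P E i0 l.1 v := by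
  unfold dec
  rw [Finsupp.lsum_single]

/-- The span of the words with all letters `≥ μ`. -/
def S (μ : Lt I) : Submodule ℂ C :=
  Submodule.span ℂ {x | ∃ (l : List (Lt I)) (v : N), l.Pairwise R ∧ (∀ y ∈ l, μ ≤ y) ∧
    x = wd P E i0 l v}

theorem S_mono {μ ν : Lt I} (h : μ ≤ ν) : S P E i0 ν ≤ S P E i0 μ := by
  refine Submodule.span_mono ?_
  rintro x ⟨l, v, h1, h2, rfl⟩
  exact ⟨l, v, h1, fun y hy => h.trans (h2 y hy), rfl⟩

theorem E_S (i : I) {x : C} (hx : x ∈ S P E i0 (lE i)) : E i x ∈ S P E i0 (lE i) := by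
  induction hx using Submodule.span_induction with
  | mem x hx =>
    obtain ⟨l, v, h1, h2, rfl⟩ := hx
    refine Submodule.subset_span ⟨lE i :: l, v, ?_, ?_, ?_⟩
    · exact List.pairwise_cons.2 ⟨fun y hy => R_lE (h2 y hy), h1⟩
    · intro y hy
      rcases List.mem_cons.1 hy with rfl | hy
      · exact le_refl _
      · exact h2 y hy
    · rw [wd_cons, op_lE]
  | zero => rw [map_zero]; exact zero_mem _
  | add x y _ _ hx hy => rw [map_add]; exact add_mem hx hy
  | smul c x _ hx => rw [map_smul]; exact Submodule.smul_mem _ _ hx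

theorem P_S (i : I) {x : C} (hx : x ∈ S P E i0 (lE i)) : P i x ∈ S P E i0 (lP i) := by
  induction hx using Submodule.span_induction with
  | mem x hx =>
    obtain ⟨l, v, h1, h2, rfl⟩ := hx
    refine Submodule.subset_span ⟨lP i :: l, v, ?_, ?_, ?_⟩
    · exact List.pairwise_cons.2 ⟨fun y hy => R_lP (h2 y hy), h1⟩
    · intro y hy
      rcases List.mem_cons.1 hy with rfl | hy
      · exact le_refl _
      · exact (lP_lt_lE i).le.trans (h2 y hy)
    · rw [wd_cons, op_lP]
  | zero => rw [map_zero]; exact zero_mem _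
  | add x y _ _ hx hy => rw [map_add]; exact add_mem hx hy
  | smul c x _ hx => rw [map_smul]; exact Submodule.smul_mem _ _ hx

variable {P E i0} {d : C →ₗ[ℂ] C} {dN : N →ₗ[ℂ] N}
  (hP : ∀ i x, d (P i x) + P i (d x) = E i x) (hE : ∀ i x, d (E i x) = E i (d x))
  (h0 : ∀ v, d (i0 v) = i0 (dN v))

include hP hE h0 in
theorem d_S (l : List (Lt I)) (v : N) (hl : l.Pairwise R) :
    ∀ μ : Lt I, (∀ y ∈ l, μ ≤ y) → d (wd P E i0 l v) ∈ S P E i0 μ := by
  induction l with
  | nil =>
    intro μ _
    rw [wd_nil, h0]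
    exact Submodule.subset_span ⟨[], dN v, List.Pairwise.nil, fun y hy => by simp at hy, rfl⟩
  | cons x l ih =>
    intro μ hμ
    rw [List.pairwise_cons] at hl
    rw [wd_cons]
    have hx : μ ≤ x := hμ x List.mem_cons_self
    rcases eq_lP_or_lE x with h | h
    · rw [h] at hx hl ⊢
      have h2 : ∀ y ∈ l, lE (ofLex x).1 ≤ y := fun y hy => lE_le_of_R_lP (hl.1 y hy)
      have h1 := ih hl.2 (lE (ofLex x).1) h2
      rw [op_lP]
      have e : d (P (ofLex x).1 (wd P E i0 l v)) = E (ofLex x).1 (wd P E i0 l v) -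
          P (ofLex x).1 (d (wd P E i0 l v)) := by
        rw [← hP]
        abel
      rw [e]
      refine sub_mem ?_ ?_
      · refine S_mono P E i0 (hx.trans (lP_lt_lE _).le) (E_S P E i0 _ ?_)
        exact Submodule.subset_span ⟨l, v, hl.2, h2, rfl⟩
      · exact S_mono P E i0 hx (P_S P E i0 _ h1)
    · rw [h] at hx hl ⊢
      have h2 : ∀ y ∈ l, lE (ofLex x).1 ≤ y := fun y hy => R_le (hl.1 y hy)
      have h1 := ih hl.2 (lE (ofLex x).1) h2
      rw [op_lE, hE]
      exact S_mono P E i0 hx (E_S P E i0 _ h1)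

open Classical in
/-- `E_i w ↦ P_i w`. -/
def hw : W I → (N →ₗ[ℂ] (W I →₀ N)) := fun l =>
  match l with
  | ⟨[], _⟩ => 0
  | ⟨x :: l, _⟩ => if (ofLex x).2 = true then
      (if h' : (lP (ofLex x).1 :: l).Pairwise R then Finsupp.lsingle ⟨lP (ofLex x).1 :: l, h'⟩
        else 0) else 0

theorem hw_nil (h : ([] : List (Lt I)).Pairwise R) : hw (N := N) ⟨[], h⟩ = 0 := rfl

theorem hw_lP (i : I) (l : List (Lt I)) (h : (lP i :: l).Pairwise R) :
    hw (N := N) ⟨lP i :: l, h⟩ = 0 := by
  unfold hw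
  simp [lP]

theorem hw_lE (i : I) (l : List (Lt I)) (h : (lE i :: l).Pairwise R)
    (h' : (lP i :: l).Pairwise R) :
    hw (N := N) ⟨lE i :: l, h⟩ = Finsupp.lsingle ⟨lP i :: l, h'⟩ := by
  unfold hw
  simp only
  rw [if_pos (show (ofLex (lE i)).2 = true from rfl), dif_pos (show (lP (ofLex (lE i)).1 ::
    l).Pairwise R from h')]
  rfl

variable (hdec : Function.Bijective (dec P E i0))

/-- The inverse of the decomposition map. -/
def coe (hdec : Function.Bijective (dec P E i0)) : C →ₗ[ℂ] (W I →₀ N) :=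
  (LinearEquiv.ofBijective (dec P E i0) hdec).symm.toLinearMap

theorem coe_wd (l : List (Lt I)) (hl : l.Pairwise R) (v : N) :
    coe hdec (wd P E i0 l v) = Finsupp.single ⟨l, hl⟩ v := by
  rw [← dec_single P E i0 ⟨l, hl⟩ v]
  exact (LinearEquiv.ofBijective (dec P E i0) hdec).symm_apply_apply _

/-- The homotopy. -/
def hh (hdec : Function.Bijective (dec P E i0)) : C →ₗ[ℂ] C :=
  dec P E i0 ∘ₗ Finsupp.lsum ℂ hw ∘ₗ coe hdec

/-- The projection to `N`. -/
def prN (hdec : Function.Bijective (dec P E i0)) : C →ₗ[ℂ] N :=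
  Finsupp.lapply ⟨[], List.Pairwise.nil⟩ ∘ₗ coe hdec

theorem hh_nil (v : N) : hh hdec (i0 v) = 0 := by
  have e := coe_wd hdec [] List.Pairwise.nil v
  rw [wd_nil] at e
  unfold hh
  rw [LinearMap.comp_apply, LinearMap.comp_apply, e, Finsupp.lsum_single, hw_nil,
    LinearMap.zero_apply, map_zero]

theorem prN_i0 (v : N) : prN hdec (i0 v) = v := by
  have e := coe_wd hdec [] List.Pairwise.nil v
  rw [wd_nil] at e
  unfold prN
  rw [LinearMap.comp_apply, e, Finsupp.lapply_apply, Finsupp.single_eq_same]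

theorem prN_cons (x : Lt I) (l : List (Lt I)) (hl : (x :: l).Pairwise R) (v : N) :
    prN hdec (wd P E i0 (x :: l) v) = 0 := by
  unfold prN
  rw [LinearMap.comp_apply, coe_wd hdec _ hl, Finsupp.lapply_apply, Finsupp.single_eq_of_ne]
  intro h
  exact absurd (congrArg Subtype.val h) (by simp)

theorem hh_E (i : I) {x : C} (hx : x ∈ S P E i0 (lE i)) : hh hdec (E i x) = P i x := by
  induction hx using Submodule.span_induction with
  | mem x hx =>
    obtain ⟨l, v, h1, h2, rfl⟩ := hx
    have h3 : (lE i :: l).Pairwise R := List.pairwise_cons.2 ⟨fun y hy => R_lE (h2 y hy), h1⟩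
    have h4 : (lP i :: l).Pairwise R := List.pairwise_cons.2 ⟨fun y hy => R_lP (h2 y hy), h1⟩
    have e := coe_wd hdec _ h3 v
    rw [wd_cons, op_lE] at e
    unfold hh
    rw [LinearMap.comp_apply, LinearMap.comp_apply, e, Finsupp.lsum_single, hw_lE i l h3 h4,
      Finsupp.lsingle_apply, dec_single, wd_cons, op_lP]
  | zero => rw [map_zero, map_zero, map_zero]
  | add x y _ _ hx hy => rw [map_add, map_add, map_add, hx, hy]
  | smul c x _ hx => rw [map_smul, map_smul, map_smul, hx]

theorem hh_P (i : I) {x : C} (hx : x ∈ S P E i0 (lE i)) : hh hdec (P i x) = 0 := by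
  induction hx using Submodule.span_induction with
  | mem x hx =>
    obtain ⟨l, v, h1, h2, rfl⟩ := hx
    have h4 : (lP i :: l).Pairwise R := List.pairwise_cons.2 ⟨fun y hy => R_lP (h2 y hy), h1⟩
    have e := coe_wd hdec _ h4 v
    rw [wd_cons, op_lP] at e
    unfold hh
    rw [LinearMap.comp_apply, LinearMap.comp_apply, e, Finsupp.lsum_single, hw_lP,
      LinearMap.zero_apply, map_zero]
  | zero => rw [map_zero, map_zero]
  | add x y _ _ hx hy => rw [map_add, map_add, hx, hy, add_zero]
  | smul c x _ hx => rw [map_smul, map_smul, hx, smul_zero]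

include hdec in
theorem ext_wd {F : Type} [AddCommGroup F] [Module ℂ F] {f g : C →ₗ[ℂ] F}
    (h : ∀ (l : List (Lt I)) (v : N), l.Pairwise R → f (wd P E i0 l v) = g (wd P E i0 l v)) :
    f = g := by
  have h1 : f ∘ₗ dec P E i0 = g ∘ₗ dec P E i0 := by
    refine Finsupp.lhom_ext' fun l => ?_
    ext v
    simp only [LinearMap.comp_apply, Finsupp.lsingle_apply]
    rw [dec_single]
    exact h l.1 v l.2
  ext x
  obtain ⟨y, rfl⟩ := hdec.2 x
  exact LinearMap.congr_fun h1 y

include hP hE h0 in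
/-- The homotopy formula. -/
theorem homotopy (x : C) : d (hh hdec x) + hh hdec (d x) + i0 (prN hdec x) = x := by
  have key : d ∘ₗ hh hdec + hh hdec ∘ₗ d + i0 ∘ₗ prN hdec = LinearMap.id := by
    refine ext_wd hdec fun l v hl => ?_
    rw [LinearMap.add_apply, LinearMap.add_apply, LinearMap.comp_apply, LinearMap.comp_apply,
      LinearMap.comp_apply, LinearMap.id_apply]
    rcases l with _ | ⟨x, l⟩
    · rw [wd_nil, hh_nil, map_zero, h0, hh_nil, prN_i0, add_zero, zero_add]
    · rw [prN_cons hdec x l hl, map_zero, add_zero, wd_cons]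
      have hl2 := List.pairwise_cons.1 hl
      rcases eq_lP_or_lE x with h | h
      · rw [h] at hl2 ⊢
        have h2 : ∀ y ∈ l, lE (ofLex x).1 ≤ y := fun y hy => lE_le_of_R_lP (hl2.1 y hy)
        have hm : wd P E i0 l v ∈ S P E i0 (lE (ofLex x).1) :=
          Submodule.subset_span ⟨l, v, hl2.2, h2, rfl⟩
        have hd := d_S hP hE h0 l v hl2.2 _ h2
        rw [op_lP, hh_P hdec _ hm, map_zero, zero_add]
        have e : d (P (ofLex x).1 (wd P E i0 l v)) = E (ofLex x).1 (wd P E i0 l v) -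
            P (ofLex x).1 (d (wd P E i0 l v)) := by
          rw [← hP]
          abel
        rw [e, map_sub, hh_E hdec _ hm, hh_P hdec _ hd, sub_zero]
      · rw [h] at hl2 ⊢
        have h2 : ∀ y ∈ l, lE (ofLex x).1 ≤ y := fun y hy => R_le (hl2.1 y hy)
        have hm : wd P E i0 l v ∈ S P E i0 (lE (ofLex x).1) :=
          Submodule.subset_span ⟨l, v, hl2.2, h2, rfl⟩
        have hd := d_S hP hE h0 l v hl2.2 _ h2
        rw [op_lE, hh_E hdec _ hm, hE, hh_E hdec _ hd]
        exact hP _ _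
  exact LinearMap.congr_fun key x

include hP hE h0 in
theorem prN_d (x : C) : prN hdec (d x) = dN (prN hdec x) := by
  have key : prN hdec ∘ₗ d = dN ∘ₗ prN hdec := by
    refine ext_wd hdec fun l v hl => ?_
    rw [LinearMap.comp_apply, LinearMap.comp_apply]
    have hz : ∀ (i : I) (x : C), x ∈ S P E i0 (lE i) → prN hdec (E i x) = 0 ∧
        prN hdec (P i x) = 0 := by
      intro i x hx
      induction hx using Submodule.span_induction with
      | mem x hx =>
        obtain ⟨l, v, h1, h2, rfl⟩ := hx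
        have h3 : (lE i :: l).Pairwise R := List.pairwise_cons.2 ⟨fun y hy => R_lE (h2 y hy), h1⟩
        have h4 : (lP i :: l).Pairwise R := List.pairwise_cons.2 ⟨fun y hy => R_lP (h2 y hy), h1⟩
        have e1 := prN_cons hdec _ _ h3 v
        have e2 := prN_cons hdec _ _ h4 v
        rw [wd_cons, op_lE] at e1
        rw [wd_cons, op_lP] at e2
        exact ⟨e1, e2⟩
      | zero => simp
      | add x y _ _ hx hy =>
        rw [map_add, map_add, map_add, map_add, hx.1, hx.2, hy.1, hy.2]
        simp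
      | smul c x _ hx =>
        rw [map_smul, map_smul, map_smul, map_smul, hx.1, hx.2]
        simp
    rcases l with _ | ⟨x, l⟩
    · rw [wd_nil, h0, prN_i0, prN_i0]
    · rw [prN_cons hdec x l hl, map_zero, wd_cons]
      have hl2 := List.pairwise_cons.1 hl
      rcases eq_lP_or_lE x with h | h
      · rw [h] at hl2 ⊢
        have h2 : ∀ y ∈ l, lE (ofLex x).1 ≤ y := fun y hy => lE_le_of_R_lP (hl2.1 y hy)
        have hm : wd P E i0 l v ∈ S P E i0 (lE (ofLex x).1) :=
          Submodule.subset_span ⟨l, v, hl2.2, h2, rfl⟩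
        have hd := d_S hP hE h0 l v hl2.2 _ h2
        rw [op_lP]
        have e : d (P (ofLex x).1 (wd P E i0 l v)) = E (ofLex x).1 (wd P E i0 l v) -
            P (ofLex x).1 (d (wd P E i0 l v)) := by
          rw [← hP]
          abel
        rw [e, map_sub, (hz _ _ hm).1, (hz _ _ hd).2, sub_zero]
      · rw [h] at hl2 ⊢
        have h2 : ∀ y ∈ l, lE (ofLex x).1 ≤ y := fun y hy => R_le (hl2.1 y hy)
        have hd := d_S hP hE h0 l v hl2.2 _ h2
        rw [op_lE, hE, (hz _ _ hd).1]
  exact LinearMap.congr_fun key x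

include hP hE h0 hdec in
/-- Every cocycle of `C` is cohomologous to a cocycle of `N`. -/
theorem surj (x : C) (hx : d x = 0) : ∃ (v : N) (y : C), dN v = 0 ∧ x = i0 v + d y := by
  refine ⟨prN hdec x, hh hdec x, ?_, ?_⟩
  · rw [← prN_d hP hE h0 hdec, hx, map_zero]
  · have h := homotopy hP hE h0 hdec x
    rw [hx, map_zero, add_zero] at h
    rw [add_comm]
    exact h.symm

include hP hE h0 hdec in
/-- A cocycle of `N` that is a coboundary in `C` is one in `N`. -/
theorem inj (v : N) (x : C) (hx : i0 v = d x) : v = dN (prN hdec x) := by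
  rw [← prN_d hP hE h0 hdec, ← hx, prN_i0]

end Koz

end

end WPE
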