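import Pool.Agent.WPE.KMI0
import Pool.Agent.WPE.KOZ

/-! WPE, full BRST complex: a PBW theorem with corrected letters.

The operators `E_i` (letters of a part of a basis of `B`) and the images of the letters of `N`
differ from the letters `J (-s-1) b` by operators that do not raise the number of letters, the `P_i`
come from the coefficients.  Then the sorted words in `P_i, E_i` applied to `N` decompose
`Ind κ T`. -/

set_option linter.unusedSectionVars false

namespace WPE

noncomputable section

/-! ### Unipotent maps -/

section unip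

variable {K C : Type} [AddCommGroup K] [Module ℂ K] [AddCommGroup C] [Module ℂ C]

theorem unip_bij (g f : K →ₗ[ℂ] C) (hg : Function.Bijective g) (Fl : ℕ → Submodule ℂ K)
    (h0 : Fl 0 = ⊥) (hex : ∀ x, ∃ p, x ∈ Fl p)
    (hfg : ∀ p, ∀ x ∈ Fl (p + 1), ∃ y ∈ Fl p, f x - g x = g y) : Function.Bijective f := by
  constructor
  · rw [← LinearMap.ker_eq_bot, LinearMap.ker_eq_bot']
    intro x hx
    obtain ⟨p, hp⟩ := hex x
    induction p with
    | zero =>
      rw [h0] at hp
      exact (Submodule.mem_bot ℂ).1 hp
    | succ p ih =>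
      obtain ⟨y, hy, h⟩ := hfg p x hp
      rw [hx, zero_sub] at h
      have h2 : g (x + y) = 0 := by rw [map_add, ← h, add_neg_cancel]
      have h3 : x + y = 0 := hg.1 (by rw [h2, map_zero])
      refine ih ?_
      rw [eq_neg_of_add_eq_zero_left h3]
      exact neg_mem hy
  · intro z
    obtain ⟨x, rfl⟩ := hg.2 z
    obtain ⟨p, hp⟩ := hex x
    have key : ∀ p, ∀ x ∈ Fl p, ∃ x', f x' = g x := by
      intro p
      induction p with
      | zero =>
        intro x hx
        rw [h0, Submodule.mem_bot] at hx
        exact ⟨0, by rw [hx, map_zero, map_zero]⟩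
      | succ p ih =>
        intro x hx
        obtain ⟨y, hy, h⟩ := hfg p x hx
        obtain ⟨x', hx'⟩ := ih y hy
        refine ⟨x - x', ?_⟩
        rw [map_sub, hx', ← h]
        abel
    exact key p x hp

end unip

/-! ### Sorted words span the filtration -/

section sorted

variable {B : Type} [LieRing B] [LieAlgebra ℂ B] {κ : B →ₗ[ℂ] B →ₗ[ℂ] ℂ}
variable {N : Type} [AddCommGroup N] [Module ℂ N] {T : TMod B N}
variable {La : Type} (b : Module.Basis La ℂ B)

theorem sortedB_single {K : Type} [LinearOrder K] (e : K ≃ ℕ × La) (w : SL K) (v : N) :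
    Ind.sortedMapB κ T b e (Finsupp.single w v) = cword κ T b (w.1.map e) v := by
  unfold Ind.sortedMapB
  rw [Finsupp.lsum_single, cword_eq]

theorem sorted_FW {K : Type} [LinearOrder K] (e : K ≃ ℕ × La) (m : ℕ) :
    FW κ T b m ≤ (Submodule.span ℂ {x : SL K →₀ N | ∃ (w : SL K) (v : N), w.1.length ≤ m ∧
      x = Finsupp.single w v}).map (Ind.sortedMapB κ T b e) := by
  classical
  let G : ℕ → Submodule ℂ (Ind κ T) := fun m =>
    (Submodule.span ℂ {x : SL K →₀ N | ∃ (w : SL K) (v : N), w.1.length ≤ m ∧
      x = Finsupp.single w v}).map (Ind.sortedMapB κ T b e)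
  have Gmono : ∀ {m n : ℕ}, m ≤ n → G m ≤ G n := fun {m n} h =>
    Submodule.map_mono (Submodule.span_mono fun x ⟨w, v, hw, hx⟩ => ⟨w, v, hw.trans h, hx⟩)
  have key : ∀ (n : ℕ) (l : List (ℕ × La)), l.length = n → ∀ v : N, cword κ T b l v ∈ G n := by
    intro n
    induction n using Nat.strong_induction_on with
    | _ n ih =>
      intro l hl v
      have swap : ∀ (l1 l2 : List (ℕ × La)) (x y : ℕ × La), (l1 ++ x :: y :: l2).length = n →
          cword κ T b (l1 ++ x :: y :: l2) v - cword κ T b (l1 ++ y :: x :: l2) v ∈ G n := by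
        intro l1 l2 x y hl
        rw [← cW_word, ← cW_word, cW_append, cW_append, ← cW_sub]
        show cW κ T b l1 (cJ κ T b x (cJ κ T b y _) - cJ κ T b y (cJ κ T b x _)) ∈ _
        rw [cJ_comm, cW_sum]
        refine Submodule.sum_mem _ fun k _ => ?_
        rw [cW_smul]
        refine Submodule.smul_mem _ _ ?_
        have h1 : cW κ T b l1 (cJ κ T b (x.1 + y.1 + 1, k) (cW κ T b l2 (Ind.incl κ T v))) =
            cword κ T b (l1 ++ (x.1 + y.1 + 1, k) :: l2) v := by
          rw [← cW_word, cW_append]
          rfl
        have h4 : (l1 ++ (x.1 + y.1 + 1, k) :: l2).length = n - 1 := by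
          rw [List.length_append, List.length_cons] at hl ⊢
          rw [List.length_cons] at hl
          omega
        have h5 : 1 ≤ n := by
          rw [List.length_append, List.length_cons] at hl
          omega
        rw [h1]
        exact Gmono (Nat.sub_le n 1) (ih (n - 1) (by omega) _ h4 v)
      have perm : ∀ (l l' : List (ℕ × La)), l.Perm l' → ∀ l1 : List (ℕ × La),
          (l1 ++ l).length = n → cword κ T b (l1 ++ l) v - cword κ T b (l1 ++ l') v ∈ G n := by
        intro l l' h
        induction h with
        | nil => intro l1 _; rw [sub_self]; exact zero_mem _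
        | cons x h ih2 =>
          intro l1 hl
          have := ih2 (l1 ++ [x]) (by rw [List.append_assoc]; exact hl)
          rw [List.append_assoc, List.append_assoc] at this
          exact this
        | swap x y l => intro l1 hl; exact swap l1 l y x hl
        | trans h1 h2 ih1 ih2 =>
          intro l1 hl
          have e1 := ih1 l1 hl
          have e2 := ih2 l1 (by
            rw [List.length_append, ← h1.length_eq, ← List.length_append]
            exact hl)
          have := add_mem e1 e2
          rwa [sub_add_sub_cancel] at this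
      let w := (l.map e.symm).mergeSort (fun a b => decide (a ≤ b))
      have hp : w.Perm (l.map e.symm) := List.mergeSort_perm _ _
      have hs : w.Pairwise (· ≤ ·) := by
        have := List.pairwise_mergeSort (le := fun a b : K => decide (a ≤ b))
          (fun a b c h1 h2 => by
            simp only [decide_eq_true_eq] at h1 h2 ⊢
            exact le_trans h1 h2)
          (fun a b => by
            simp only [Bool.or_eq_true, decide_eq_true_eq]
            exact le_total a b) (l.map e.symm)
        exact this.imp fun h => by simpa using h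
      have hp2 : l.Perm (w.map e) := by
        have h1 : ((l.map e.symm).map e).Perm (w.map e) := (hp.map e).symm
        rwa [List.map_map, Equiv.self_comp_symm, List.map_id] at h1
      have h1 := perm _ _ hp2 [] (by rw [List.nil_append]; exact hl)
      rw [List.nil_append, List.nil_append] at h1
      have h2 : cword κ T b (w.map e) v ∈ G n := by
        rw [← sortedB_single b e ⟨w, hs⟩ v]
        refine Submodule.mem_map_of_mem (Submodule.subset_span ⟨⟨w, hs⟩, v, ?_, rfl⟩)
        rw [hp.length_eq, List.length_map]
        exact hl.le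
      have := add_mem h1 h2
      rwa [sub_add_cancel] at this
  refine Submodule.span_le.2 ?_
  rintro x ⟨l, v, hl, rfl⟩
  exact Gmono hl (key _ l rfl v)

end sorted

/-! ### Words -/

namespace Koz

variable {I : Type} [LinearOrder I]

/-- The letters `E` of a word. -/
def El : List (Lt I) → List I
  | [] => []
  | x :: l => if (ofLex x).2 = true then (ofLex x).1 :: El l else El l

/-- The letters `P` of a word. -/
def Pl : List (Lt I) → List I
  | [] => []
  | x :: l => if (ofLex x).2 = true then Pl l else (ofLex x).1 :: Pl l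

theorem El_E (i : I) (l : List (Lt I)) : El (lE i :: l) = i :: El l := rfl
theorem El_P (i : I) (l : List (Lt I)) : El (lP i :: l) = El l := rfl
theorem Pl_E (i : I) (l : List (Lt I)) : Pl (lE i :: l) = Pl l := rfl
theorem Pl_P (i : I) (l : List (Lt I)) : Pl (lP i :: l) = i :: Pl l := rfl

theorem mem_El {i : I} {l : List (Lt I)} : i ∈ El l ↔ lE i ∈ l := by
  induction l with
  | nil => simp [El]
  | cons x l ih =>
    rcases eq_lP_or_lE x with h | h
    · rw [h, El_P, ih, List.mem_cons]
      constructor
      · exact Or.inr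
      · rintro (h | h)
        · exact absurd (congrArg (fun z => (ofLex z).2) h) (by simp [lE, lP])
        · exact h
    · rw [h, El_E, List.mem_cons, List.mem_cons, ih]
      constructor
      · rintro (h | h)
        · exact Or.inl (by rw [h])
        · exact Or.inr h
      · rintro (h | h)
        · exact Or.inl (congrArg (fun z => (ofLex z).1) h)
        · exact Or.inr h

theorem mem_Pl {i : I} {l : List (Lt I)} : i ∈ Pl l ↔ lP i ∈ l := by
  induction l with
  | nil => simp [Pl]
  | cons x l ih =>
    rcases eq_lP_or_lE x with h | h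
    · rw [h, Pl_P, List.mem_cons, List.mem_cons, ih]
      constructor
      · rintro (h | h)
        · exact Or.inl (by rw [h])
        · exact Or.inr h
      · rintro (h | h)
        · exact Or.inl (congrArg (fun z => (ofLex z).1) h)
        · exact Or.inr h
    · rw [h, Pl_E, ih, List.mem_cons]
      constructor
      · exact Or.inr
      · rintro (h | h)
        · exact absurd (congrArg (fun z => (ofLex z).2) h) (by simp [lE, lP])
        · exact h

theorem lE_le_lE {i j : I} : lE i ≤ lE j ↔ i ≤ j := by
  rw [Prod.Lex.le_iff]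
  show (i < j ∨ i = j ∧ true ≤ true) ↔ i ≤ j
  constructor
  · rintro (h | h)
    · exact h.le
    · exact h.1.le
  · intro h
    rcases h.lt_or_eq with h | h
    · exact Or.inl h
    · exact Or.inr ⟨h, le_refl _⟩

theorem lP_lt_lP {i j : I} : lP i < lP j ↔ i < j := by
  rw [Prod.Lex.lt_iff]
  show (i < j ∨ i = j ∧ false < false) ↔ i < j
  constructor
  · rintro (h | h)
    · exact h
    · exact absurd h.2 (lt_irrefl _)
  · exact Or.inl

theorem lE_lt_lP {i j : I} : lE i < lP j ↔ i < j := by
  rw [Prod.Lex.lt_iff]
  show (i < j ∨ i = j ∧ true < false) ↔ i < j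
  constructor
  · rintro (h | h)
    · exact h
    · exact absurd h.2 (by decide)
  · exact Or.inl

theorem lP_lt_lE' {i j : I} : lP i < lE j ↔ i ≤ j := by
  rw [Prod.Lex.lt_iff]
  show (i < j ∨ i = j ∧ false < true) ↔ i ≤ j
  constructor
  · rintro (h | h)
    · exact h.le
    · exact h.1.le
  · intro h
    rcases h.lt_or_eq with h | h
    · exact Or.inl h
    · exact Or.inr ⟨h, by decide⟩

theorem El_sorted {l : List (Lt I)} (hl : l.Pairwise R) : (El l).Pairwise (· ≤ ·) := by
  induction l with
  | nil => exact List.Pairwise.nil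
  | cons x l ih =>
    rw [List.pairwise_cons] at hl
    rcases eq_lP_or_lE x with h | h
    · rw [h, El_P]
      exact ih hl.2
    · rw [h, El_E, List.pairwise_cons]
      refine ⟨fun y hy => ?_, ih hl.2⟩
      rw [h] at hl
      exact lE_le_lE.1 (R_le (hl.1 _ (mem_El.1 hy)))

theorem Pl_sorted {l : List (Lt I)} (hl : l.Pairwise R) : (Pl l).Pairwise (· < ·) := by
  induction l with
  | nil => exact List.Pairwise.nil
  | cons x l ih =>
    rw [List.pairwise_cons] at hl
    rcases eq_lP_or_lE x with h | h
    · rw [h, Pl_P, List.pairwise_cons]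
      refine ⟨fun y hy => ?_, ih hl.2⟩
      rw [h] at hl
      rcases hl.1 _ (mem_Pl.1 hy) with h | h
      · exact lP_lt_lP.1 h
      · exact absurd h.2 (by simp [lP])
    · rw [h, Pl_E]
      exact ih hl.2

theorem word_inj : ∀ {l l' : List (Lt I)}, l.Pairwise R → l'.Pairwise R → El l = El l' →
    Pl l = Pl l' → l = l' := by
  intro l
  induction l with
  | nil =>
    intro l' _ _ h1 h2
    rcases l' with _ | ⟨y, l'⟩
    · rfl
    · rcases eq_lP_or_lE y with h | h
      · rw [h, Pl_P] at h2
        exact absurd h2.symm (by simp [Pl])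
      · rw [h, El_E] at h1
        exact absurd h1.symm (by simp [El])
  | cons x l ih =>
    intro l' hl hl' h1 h2
    rcases l' with _ | ⟨y, l'⟩
    · rcases eq_lP_or_lE x with h | h
      · rw [h, Pl_P] at h2
        exact absurd h2 (by simp [Pl])
      · rw [h, El_E] at h1
        exact absurd h1 (by simp [El])
    · rw [List.pairwise_cons] at hl hl'
      rcases eq_lP_or_lE x with hx | hx
      · rcases eq_lP_or_lE y with hy | hy
        · rw [hx, hy, Pl_P, Pl_P, List.cons.injEq] at h2
          rw [hx, hy, El_P, El_P] at h1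
          rw [hx, hy, ih hl.2 hl'.2 h1 h2.2, h2.1]
        · exfalso
          rw [hx, hy] at h1 h2
          rw [hx] at hl
          rw [hy] at hl'
          rw [El_P, El_E] at h1
          rw [Pl_P, Pl_E] at h2
          have e1 : lE (ofLex y).1 ∈ l := mem_El.1 (by rw [h1]; exact List.mem_cons_self)
          have e2 : lP (ofLex x).1 ∈ l' := mem_Pl.1 (by rw [← h2]; exact List.mem_cons_self)
          have e3 : lE (ofLex x).1 ≤ lE (ofLex y).1 := lE_le_of_R_lP (hl.1 _ e1)
          have e4 : lE (ofLex y).1 < lP (ofLex x).1 := by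
            rcases hl'.1 _ e2 with h | h
            · exact h
            · exact absurd (congrArg (fun z => (ofLex z).2) h.1) (by simp [lE, lP])
          have e5 := lE_le_lE.1 e3
          have e6 := lE_lt_lP.1 e4
          exact absurd e6 (not_lt.2 e5)
      · rcases eq_lP_or_lE y with hy | hy
        · exfalso
          rw [hx, hy] at h1 h2
          rw [hx] at hl
          rw [hy] at hl'
          rw [El_P, El_E] at h1
          rw [Pl_P, Pl_E] at h2
          have e1 : lE (ofLex x).1 ∈ l' := mem_El.1 (by rw [← h1]; exact List.mem_cons_self)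
          have e2 : lP (ofLex y).1 ∈ l := mem_Pl.1 (by rw [h2]; exact List.mem_cons_self)
          have e3 : lE (ofLex y).1 ≤ lE (ofLex x).1 := lE_le_of_R_lP (hl'.1 _ e1)
          have e4 : lE (ofLex x).1 < lP (ofLex y).1 := by
            rcases hl.1 _ e2 with h | h
            · exact h
            · exact absurd (congrArg (fun z => (ofLex z).2) h.1) (by simp [lE, lP])
          have e5 := lE_le_lE.1 e3
          have e6 := lE_lt_lP.1 e4
          exact absurd e6 (not_lt.2 e5)
        · rw [hx, hy, El_E, El_E, List.cons.injEq] at h1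
          rw [hx, hy, Pl_E, Pl_E] at h2
          rw [hx, hy, ih hl.2 hl'.2 h1.2 h2, h1.1]

theorem word_surj : ∀ (n : ℕ) (e p : List I), e.length + p.length = n → e.Pairwise (· ≤ ·) →
    p.Pairwise (· < ·) → ∃ l : List (Lt I), l.Pairwise R ∧ El l = e ∧ Pl l = p := by
  intro n
  induction n with
  | zero =>
    intro e p h _ _
    have h1 : e = [] := List.length_eq_zero_iff.1 (by omega)
    have h2 : p = [] := List.length_eq_zero_iff.1 (by omega)
    subst h1 h2
    exact ⟨[], List.Pairwise.nil, rfl, rfl⟩
  | succ n ih =>
    intro e p h he hp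
    have caseE : ∀ (a : I) (e' : List I), e = a :: e' → (∀ y ∈ p, a < y) →
        ∃ l : List (Lt I), l.Pairwise R ∧ El l = e ∧ Pl l = p := by
      intro a e' hae hap
      rw [hae, List.pairwise_cons] at he
      rw [hae, List.length_cons] at h
      obtain ⟨l, h1, h2, h3⟩ := ih e' p (by omega) he.2 hp
      refine ⟨lE a :: l, ?_, ?_, ?_⟩
      · refine List.pairwise_cons.2 ⟨fun y hy => R_lE ?_, h1⟩
        rcases eq_lP_or_lE y with hy2 | hy2
        · rw [hy2] at hy ⊢
          have := mem_Pl.2 hy
          rw [h3] at this
          exact (lE_lt_lP.2 (hap _ this)).le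
        · rw [hy2] at hy ⊢
          have := mem_El.2 hy
          rw [h2] at this
          exact lE_le_lE.2 (he.1 _ this)
      · rw [El_E, h2, hae]
      · rw [Pl_E, h3]
    have caseP : ∀ (a : I) (p' : List I), p = a :: p' → (∀ y ∈ e, a ≤ y) →
        ∃ l : List (Lt I), l.Pairwise R ∧ El l = e ∧ Pl l = p := by
      intro a p' hap hae
      rw [hap, List.pairwise_cons] at hp
      rw [hap, List.length_cons] at h
      obtain ⟨l, h1, h2, h3⟩ := ih e p' (by omega) he hp.2
      refine ⟨lP a :: l, ?_, ?_, ?_⟩
      · refine List.pairwise_cons.2 ⟨fun y hy => ?_, h1⟩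
        rcases eq_lP_or_lE y with hy2 | hy2
        · rw [hy2] at hy ⊢
          have := mem_Pl.2 hy
          rw [h3] at this
          exact Or.inl (lP_lt_lP.2 (hp.1 _ this))
        · rw [hy2] at hy ⊢
          have := mem_El.2 hy
          rw [h2] at this
          exact Or.inl (lP_lt_lE'.2 (hae _ this))
      · rw [El_P, h2]
      · rw [Pl_P, h3, hap]
    rcases e with _ | ⟨a, e'⟩
    · rcases p with _ | ⟨c, p'⟩
      · simp at h
      · exact caseP c p' rfl (fun y hy => by simp at hy)
    · rcases p with _ | ⟨c, p'⟩
      · exact caseE a e' rfl (fun y hy => by simp at hy)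
      · rw [List.pairwise_cons] at he hp
        by_cases hac : a < c
        · refine caseE a e' rfl fun y hy => ?_
          rcases List.mem_cons.1 hy with rfl | hy
          · exact hac
          · exact hac.trans (hp.1 _ hy)
        · refine caseP c p' rfl fun y hy => ?_
          rcases List.mem_cons.1 hy with rfl | hy
          · exact not_lt.1 hac
          · exact (not_lt.1 hac).trans (he.1 _ hy)

/-- Strictly sorted lists. -/
abbrev SS (I : Type) [LinearOrder I] : Type := {p : List I // p.Pairwise (· < ·)}

variable {J : Type} [LinearOrder J]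

/-- The reindexing. -/
def eps (x : W I × SL J) : SL (I ⊕ₗ J) × SS I :=
  (⟨cat (El x.1.1) x.2.1, cat_sorted (El_sorted x.1.2) x.2.2⟩, ⟨Pl x.1.1, Pl_sorted x.1.2⟩)

theorem eps_bij : Function.Bijective (eps (I := I) (J := J)) := by
  constructor
  · rintro ⟨⟨l, hl⟩, ⟨u, hu⟩⟩ ⟨⟨l', hl'⟩, ⟨u', hu'⟩⟩ h
    have h1 : cat (El l) u = cat (El l') u' := congrArg (fun z => z.1.1) h
    have h2 : Pl l = Pl l' := congrArg (fun z => z.2.1) h
    have h3 : El l = El l' := by rw [← lp_cat (El l) u, h1, lp_cat]
    have h4 : u = u' := by rw [← rp_cat (El l) u, h1, rp_cat]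
    have h5 := word_inj hl hl' h3 h2
    subst h4 h5
    rfl
  · rintro ⟨⟨w, hw⟩, ⟨p, hp⟩⟩
    obtain ⟨e, u, he, hu, rfl⟩ := exists_cat w hw
    obtain ⟨l, hl, h1, h2⟩ := word_surj _ e p rfl he hp
    refine ⟨(⟨l, hl⟩, ⟨u, hu⟩), ?_⟩
    unfold eps
    subst h1 h2
    rfl

end Koz

end

end WPE
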