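import Pool.Agent.WPE.KPA
import Pool.Agent.WPE.MIR4

/-! [KPL] WPE, level `p`: the image of `w₀` under `Υ'` is `-p ω`. -/

set_option linter.unusedSectionVars false

namespace WPE

open scoped TensorProduct
open MvPolynomial WPQ
open WPE.LD (Car Car' miura)

variable {g β ι : Type} [LieRing g] [LieAlgebra ℂ g] [Fintype β] [DecidableEq β] [Fintype ι]
  [DecidableEq ι] {L : LD g β ι} {A : Matrix ι ι ℤ} {p : ℕ}

namespace KPC

/-- `Υ' (J_a(-1) x)` -/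
theorem Internal.miura_J1 (K : L.Car A p) (a : L.bL) (x : VC (L.kb (p : ℂ)) L.nL) :
    miura K ((cmod (L.kb (p : ℂ)) L.nL (TMod.triv L.bL)).J (-1) a x) =
      osc (L.cfp a) 0 * miura K x := by
  rw [← MIR4.heis_one A p (L.cfp a) 0]
  exact LD.miura_J K (-1) a x

export Internal (miura_J1)

/-- `Υ' (J_a(-2) x)` -/
theorem Internal.miura_J2 (K : L.Car A p) (a : L.bL) (x : VC (L.kb (p : ℂ)) L.nL) :
    miura K ((cmod (L.kb (p : ℂ)) L.nL (TMod.triv L.bL)).J (-2) a x) =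
      (2 : ℂ) • (osc (L.cfp a) 1 * miura K x) := by
  rw [← MIR4.heis_two A p (L.cfp a) 0]
  exact LD.miura_J K (-2) a x

export Internal (miura_J2)

/-- Linearity. -/
theorem lin_w0 {V W ι : Type} [Fintype ι] [AddCommGroup V] [Module ℂ V] [AddCommGroup W]
    [Module ℂ W] (f : V →ₗ[ℂ] W) (a c : V) (b : ι → V) (r s : ℂ) (a' c' : W) (b' : ι → W)
    (e1 : f a = a') (e2 : ∀ i, f (b i) = b' i) (e3 : f c = c') :
    f (a - r • ∑ i, b i + s • c) = a' - r • ∑ i, b' i + s • c' := by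
  rw [map_add, map_sub, map_smul, map_smul, map_sum, e1, e3]
  simp only [e2]

/-- `Υ'` of `w₀` -/
theorem miura_w0 (K : L.Car A p) : miura K (L.w0 (p : ℂ)) =
    osc (L.cfp L.FB) 0 - (1 / 2 : ℂ) • ∑ i, osc (L.cfp (L.hB i)) 0 * osc (L.cfp (L.hB' i)) 0 +
      (1 - (p : ℂ)) • (2 : ℂ) • osc (L.cfp L.rhoB) 1 := by
  have e1 : miura K ((cmod (L.kb (p : ℂ)) L.nL (TMod.triv L.bL)).J (-1) L.FB (cvac _ _)) =
      osc (L.cfp L.FB) 0 := by
    rw [miura_J1, LD.miura_cvac, mul_one]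
  have e2 : ∀ i, miura K ((cmod (L.kb (p : ℂ)) L.nL (TMod.triv L.bL)).J (-1) (L.hB i)
      ((cmod (L.kb (p : ℂ)) L.nL (TMod.triv L.bL)).J (-1) (L.hB' i) (cvac _ _))) =
      osc (L.cfp (L.hB i)) 0 * osc (L.cfp (L.hB' i)) 0 := by
    intro i
    rw [miura_J1, miura_J1, LD.miura_cvac, mul_one]
  have e3 : miura K ((cmod (L.kb (p : ℂ)) L.nL (TMod.triv L.bL)).J (-2) L.rhoB
      (cvac _ _)) = (2 : ℂ) • osc (L.cfp L.rhoB) 1 := by
    rw [miura_J2, LD.miura_cvac, mul_one]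
  exact lin_w0 (miura K) _ _ _ _ _ _ _ _ e1 e2 e3

theorem cfp_hB (i : ι) : L.cfp (L.hB i) = (Pi.single i 1 : ι → ℂ) := by
  funext j
  rw [LD.cfp_apply]
  have h1 : ((L.hB i : L.bL) : g) = L.h i := rfl
  rw [h1, L.hh', Pi.single_apply]
  simp only [eq_comm]

theorem cfp_hB' (K : L.Car A p) (hp0 : (p : ℂ) ≠ 0) (i : ι) :
    L.cfp (L.hB' i) = (p : ℂ) • dualVec A p i := by
  funext j
  rw [LD.cfp_apply, Pi.smul_apply, smul_eq_mul]
  have h1 : ((L.hB' i : L.bL) : g) = L.h' i := rfl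
  rw [h1, MIR4.gram_inv K]
  unfold dualVec
  field_simp

theorem cfp_rhoB (K : L.Car' A p) (hp0 : (p : ℂ) ≠ 0) :
    ((1 : ℂ) - (p : ℂ)) • L.cfp L.rhoB = (-(p : ℂ)) • bgVec A p := by
  funext j
  rw [Pi.smul_apply, Pi.smul_apply, LD.cfp_apply, smul_eq_mul, smul_eq_mul]
  have h1 : ((L.rhoB : L.bL) : g) = L.rho := rfl
  rw [h1, K.hr]
  have h2 : WPQ.rho A j = ∑ k, invA A j k := by
    unfold WPQ.rho invA
    simp [Matrix.mulVec, dotProduct]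
  rw [h2]
  unfold bgVec
  field_simp
  ring

end KPC

open KPC in
/-- `Υ'(w₀) = -p ω`. -/
theorem kp_w0 (K : L.Car' A p) :
    (Finsupp.single 0 (miura K.toCar (L.w0 (p : ℂ))) : VL ι) = (-(p : ℂ)) • omegaV A p := by
  have hp0 : (p : ℂ) ≠ 0 := by
    have h1 := K.hp
    have h2 : p ≠ 0 := by omega
    exact_mod_cast h2
  have hF : L.cfp L.FB = 0 := L.cfp_nm L.FB L.F_nm
  have h0 : osc (0 : ι → ℂ) 0 = 0 := by
    have := mi_osc_smul (0 : ℂ) (0 : ι → ℂ) 0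
    rwa [zero_smul, zero_smul] at this
  have h1 : ∑ i, osc (L.cfp (L.hB i)) 0 * osc (L.cfp (L.hB' i)) 0 =
      (p : ℂ) • ∑ i, osc (dualVec A p i) 0 * osc (Pi.single i 1) 0 := by
    rw [Finset.smul_sum]
    refine Finset.sum_congr rfl fun i _ => ?_
    rw [cfp_hB, cfp_hB' K.toCar hp0, mi_osc_smul, mul_smul_comm, mul_comm]
  have h3 : ((1 : ℂ) - (p : ℂ)) • (2 : ℂ) • osc (L.cfp L.rhoB) 1 =
      (-(p : ℂ)) • (C (2 : ℂ) * osc (bgVec A p) 1) := by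
    rw [smul_comm, ← mi_osc_smul, cfp_rhoB K hp0, mi_osc_smul, smul_comm, smul_eq_C_mul _ (2 : ℂ)]
  unfold omegaV
  rw [miura_w0, Finsupp.smul_single, hF, h0, zero_sub, h1, h3, smul_add, ← smul_eq_C_mul _ (1 / 2 : ℂ),
    smul_smul, smul_smul, ← neg_smul]
  have h4 : -((1 / 2 : ℂ) * (p : ℂ)) = -(p : ℂ) * (1 / 2) := by ring
  rw [h4]

end WPE
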