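import Pool.Agent.WPE.KPB
import Pool.Agent.WPE.KPC
import Pool.Agent.WPE.MIR18

set_option linter.unusedSectionVars false

/-! [KPL] WPE, level `p`: `Υ'(ker Q) ⊆ M^j`. -/

namespace WPE

open scoped TensorProduct
open MvPolynomial WPQ
open WPE.LD (Car Car' Simp levi toLev NQ miura Chrp Upsp NUp)

section main

namespace KPD

/-- The pure lattice part of `w0_stable`. -/
theorem w0_aux {ι : Type} [Fintype ι] [DecidableEq ι] {A : Matrix ι ι ℤ} {p : ℕ} (hA : IsADE A)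
    (hp : 1 ≤ p) (ε : Cocycle A p) (j : ι) (k : ℤ) (r : ℂ) (y z : Fock ι)
    (h1 : Finsupp.single 0 y =
      mode ε (r • omegaV A p) k (Finsupp.single 0 z)) (hz : z ∈ MJ ε j 0) :
    y ∈ MJ ε j 0 := by
  have h2 : Finsupp.single (-(0 : ι → ℤ)) y =
      mode ε (r • omegaV A p) k (Finsupp.single (-(0 : ι → ℤ)) z) := by
    rw [neg_zero]
    exact h1
  rw [mode_smul hA hp, omegaV_eq, mode_omega hA hp,
    LinearMap.smul_apply, fl2_LS_single, fl2_zero_s, zero_add, Finsupp.smul_single] at h2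
  have h3 := Finsupp.single_injective (-(0 : ι → ℤ)) h2
  rw [h3]
  exact Submodule.smul_mem _ _ (mi_MJ_L hA hp ε j 0 (k - 1) _ hz)

variable {g β ι : Type} [LieRing g] [LieAlgebra ℂ g] [Fintype β] [DecidableEq β] [Fintype ι]
  [DecidableEq ι] {L : LD g β ι} {A : Matrix ι ι ℤ} {p : ℕ}
variable {N : Type} [AddCommGroup N] [Module ℂ N] [LieRingModule g N] [LieModule ℂ g N]

/-- `rho v₀ = 0`. -/
theorem rho_v0 {v0 : N} (H : L.HW N v0 (fun _ => 0)) : ⁅L.rho, v0⁆ = ((0 : ℤ) : ℂ) • v0 := by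
  have h1 := LD.mi_hs_exp L L.rho_mem
  conv_lhs => rw [h1]
  rw [sum_lie, Int.cast_zero, zero_smul]
  refine Finset.sum_eq_zero fun i _ => ?_
  rw [smul_lie, H.h_v0, zero_smul, smul_zero]

/-- `(cfp a, b_j) = 0` if `[F, a] = 0`. -/
theorem form_zero (K : L.Car A p) (j : ι) (b : β) (S : Simp L b (fun i => (A i j : ℂ)))
    (a : (levi S).bL) (ha : (a : LD.lev S) ∈ (levi S).hs)
    (hF : ⁅(levi S).F, (a : LD.lev S)⁆ = 0) : WPQ.form A p ((levi S).cfp a) (bb j) = 0 := by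
  have hp0 : (p : ℂ) ≠ 0 := by
    have h := K.hp
    have : p ≠ 0 := by omega
    exact_mod_cast this
  have h1 : (((a : LD.lev S) : g)) ∈ L.hs := MIR18.hs_coe S ha
  have h2 : ⁅L.f b, ((a : LD.lev S) : g)⁆ = 0 := congrArg Subtype.val hF
  have h3 : ⁅((a : LD.lev S) : g), L.f b⁆ = 0 := by
    rw [← lie_skew, h2, neg_zero]
  rw [LD.al_f S h1] at h3
  have hf : L.f b ≠ 0 := by
    intro h
    have h4 := L.ef b b
    rw [h, map_zero, if_pos rfl] at h4
    exact zero_ne_one h4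
  have h4 : LD.alL L (fun i => (A i j : ℂ)) ((a : LD.lev S) : g) = 0 := by
    rcases smul_eq_zero.1 h3 with h5 | h5
    · exact neg_eq_zero.1 h5
    · exact absurd h5 hf
  rw [LD.alL_apply] at h4
  unfold WPQ.form bb
  have h5 : ∀ i, ∑ k, (levi S).cfp a i * (A i k : ℂ) * (Pi.single j 1 : ι → ℂ) k =
      (A i j : ℂ) * L.form ((a : LD.lev S) : g) (L.h' i) := by
    intro i
    rw [Finset.sum_eq_single j]
    · rw [Pi.single_eq_same, mul_one]
      have h6 : (levi S).cfp a i = L.form ((a : LD.lev S) : g) (L.h' i) := rfl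
      rw [h6]
      ring
    · intro k _ hk
      rw [Pi.single_eq_of_ne hk, mul_zero]
    · intro h
      exact absurd (Finset.mem_univ j) h
  rw [Finset.sum_congr rfl fun i _ => h5 i, h4, mul_zero]

/-- The Virasoro part. -/
theorem Internal.w0_stable (K : L.Car' A p) (ε : Cocycle A p) (j : ι) {R : LRep L.bL N}
    (c : Chrp L R) (k : ℤ) (x : CC (L.kb (p : ℂ)) L.nL (TMod.ofRep R))
    (hx : Upsp K.toCar c x ∈ MJ ε j 0) :
    Upsp K.toCar c (((cmod (L.kb (p : ℂ)) L.nL (TMod.ofRep R)).Yh (L.w0 (p : ℂ))).1 k x) ∈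
      MJ ε j 0 := by
  have hd : L.w0 (p : ℂ) ∈ cpart (L.kb (p : ℂ)) L.nL (TMod.triv L.bL) 0 :=
    (mi_w0_deg L (p : ℂ) (MIR18.energy L.bL)).1
  have h1 := kp_YU K.toCar ε c (L.w0 (p : ℂ)) hd k x
  have h0 : (Finsupp.single 0 (miura K.toCar (L.w0 (p : ℂ))) : VL ι) =
      (-(p : ℂ)) • omegaV A p := kp_w0 K
  exact w0_aux K.ade K.hp ε j k _ _ _
    (h1.trans (congrArg (fun u => mode ε u k (Finsupp.single 0 (Upsp K.toCar c x))) h0)) hx

export Internal (w0_stable)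

end KPD

variable {g β ι : Type} [LieRing g] [LieAlgebra ℂ g] [Fintype β] [DecidableEq β] [Fintype ι]
  [DecidableEq ι] {L : LD g β ι} {A : Matrix ι ι ℤ} {p : ℕ}
variable {N : Type} [AddCommGroup N] [Module ℂ N] [LieRingModule g N] [LieModule ℂ g N]

/-- `Υ'(ker Q) ⊆ M^j`. -/
theorem Internal.kp_Ups_MJ (hp : 2 ≤ p) (K : L.Car' A p) (ε : Cocycle A p) (j : ι) (b : β)
    (S : Simp L b (fun i => (A i j : ℂ))) (hF : L.form L.F (L.e b) = 1) (M : NUp L N)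
    {Q0 : CC (L.kb (p : ℂ)) L.nL (TMod.ofRep (L.rep N)) →ₗ[ℂ]
      CC (L.kb (p : ℂ)) L.nL (TMod.ofRep (L.rep N))}
    (h0 : IsQ0 (L.kb (p : ℂ)) (L.qn N (p : ℂ)) Q0)
    (x : CC (L.kb (p : ℂ)) L.nL (TMod.ofRep (L.rep N)))
    (hx : x ∈ cpart (L.kb (p : ℂ)) L.nL (TMod.ofRep (L.rep N)) 0)
    (hQ : (L.qd (p : ℂ)).Qd Q0 x = 0) : Upsp K.toCar M.c x ∈ MJ ε j 0 := by
  obtain ⟨Q0', h0'⟩ := br_Q0 (br_qd (levi S) (p : ℂ))
    ((levi S).qn (NQ S N) (p : ℂ)) (br_qn (levi S) (p : ℂ) (NQ S N))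
  have hy := mi_cmap_cpart (toLev S (p : ℂ) N) 0 x hx
  have hQy := ((congrArg (fun t => (toLev S (p : ℂ) N).cmap t) hQ).trans
    (map_zero _)).symm.trans (mi_lev_Q S (p : ℂ) hF h0 h0' x hx)
  have K' : (levi S).Car' A p := K.levi S
  have key := mi_rank1 (levi S) rfl (p : ℂ) (mi_F2_levi K.toCar j b S) (NQ S N)
    (M.levi S).v0 _ (M.levi S).hw 0 (KPD.rho_v0 (M.levi S).hw) h0'
    ((MJ ε j 0).comap (Upsp K'.toCar (M.levi S).c)) ?_ ?_ ?_ ((toLev S (p : ℂ) N).cmap x) hy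
    hQy.symm
  · have h1 : Upsp K'.toCar (M.levi S).c ((toLev S (p : ℂ) N).cmap x) = Upsp K.toCar M.c x :=
      LD.Upsp_cmap K.toCar M.c S x
    rw [Submodule.mem_comap, h1] at key
    exact key
  · rw [Submodule.mem_comap]
    have h1 : Upsp K'.toCar (M.levi S).c (i0 ((levi S).kb (p : ℂ)) (levi S).nL
        ((levi S).rep (NQ S N)) (M.levi S).v0) = (M.levi S).c.l (M.levi S).v0 • (1 : Fock ι) :=
      LD.Upsp_incl _ _ _
    rw [h1, (M.levi S).c0, one_smul]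
    refine mi_MJ_one K.ade hp ε 0 ?_ j
    intro i
    have h : WPQ.pr A i 0 = 0 := by
      unfold WPQ.pr
      simp
    rw [h]
  · intro k z hz
    exact KPD.w0_stable K' ε j (M.levi S).c k z hz
  · intro k a ha hFa z hz
    rw [Submodule.mem_comap] at hz ⊢
    rw [LD.Upsp_J]
    have h1 := mi_MJ_h K.ade K.hp ε j 0 _ (KPD.form_zero K.toCar j b S a ha hFa) k _ hz
    have h2 : toC (-(0 : ι → ℤ)) = (0 : ι → ℂ) := by
      funext i
      simp [toC]
    rw [h2] at h1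
    exact h1

export Internal (kp_Ups_MJ)

end main

end WPE
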