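import Pool.Agent.WPE.LAD

/-! WPE, block LA, row LA1: projections and the form. -/

open scoped TensorProduct

namespace WPE

variable {g β η : Type} [LieRing g] [LieAlgebra ℂ g] [Fintype β] [DecidableEq β] [Fintype η] [DecidableEq η]

namespace LA1

variable (L : LD g β η)

/-- Linear maps which agree on a family agree on its span. -/
theorem eqs {N κ : Type} [AddCommGroup N] [Module ℂ N] (u v : g →ₗ[ℂ] N) (b : κ → g) (h : ∀ c, u (b c) = v (b c))
    (x : g) (hx : x ∈ Submodule.span ℂ (Set.range b)) : u x = v x :=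
  LinearMap.eqOn_span (by rintro _ ⟨c, rfl⟩; exact h c) hx

theorem Pp_apply (x : g) : L.Pp x = ∑ b, L.form x (L.f b) • L.e b := by
  unfold LD.Pp
  rw [LinearMap.sum_apply]
  rfl

theorem Ph_apply (x : g) : L.Ph x = ∑ i, L.form x (L.h' i) • L.h i := by
  unfold LD.Ph
  rw [LinearMap.sum_apply]
  rfl

theorem Pn_apply (x : g) : L.Pn x = ∑ b, L.form x (L.e b) • L.f b := by
  unfold LD.Pn
  rw [LinearMap.sum_apply]
  rfl

theorem sum (x : g) : L.Pp x + L.Ph x + L.Pn x = x := by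
  rw [Pp_apply, Ph_apply, Pn_apply]
  exact (L.decomp x).symm

theorem form_e_hs (b : β) (y : g) (hy : y ∈ L.hs) : L.form (L.e b) y = 0 :=
  eqs (L.form (L.e b)) 0 L.h (fun c => L.eh b c) y hy

theorem form_f_hs (b : β) (y : g) (hy : y ∈ L.hs) : L.form (L.f b) y = 0 :=
  eqs (L.form (L.f b)) 0 L.h (fun c => L.fh b c) y hy

theorem np_np (x : g) (hx : x ∈ L.np) (y : g) (hy : y ∈ L.np) : L.form x y = 0 := by
  refine eqs (L.form x) 0 L.e (fun c => ?_) y hy
  exact eqs (L.form.flip (L.e c)) 0 L.e (fun b => L.ee b c) x hx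

theorem np_hs (x : g) (hx : x ∈ L.np) (y : g) (hy : y ∈ L.hs) : L.form x y = 0 := by
  refine eqs (L.form x) 0 L.h (fun c => ?_) y hy
  exact eqs (L.form.flip (L.h c)) 0 L.e (fun b => L.eh b c) x hx

theorem nm_hs (x : g) (hx : x ∈ L.nm) (y : g) (hy : y ∈ L.hs) : L.form x y = 0 := by
  refine eqs (L.form x) 0 L.h (fun c => ?_) y hy
  exact eqs (L.form.flip (L.h c)) 0 L.f (fun b => L.fh b c) x hx

theorem nm_nm (x : g) (hx : x ∈ L.nm) (y : g) (hy : y ∈ L.nm) : L.form x y = 0 := by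
  refine eqs (L.form x) 0 L.f (fun c => ?_) y hy
  exact eqs (L.form.flip (L.f c)) 0 L.f (fun b => L.ff b c) x hx

theorem nm_bm (x : g) (hx : x ∈ L.nm) (y : g) (hy : y ∈ L.bm) : L.form x y = 0 := by
  obtain ⟨a, ha, b, hb, rfl⟩ := Submodule.mem_sup.1 hy
  rw [map_add, nm_hs L x hx a ha, nm_nm L x hx b hb, add_zero]

theorem Pp_mem (x : g) : L.Pp x ∈ L.np := by
  rw [Pp_apply]
  exact Submodule.sum_mem _ fun b _ => Submodule.smul_mem _ _ (Submodule.subset_span ⟨b, rfl⟩)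

theorem Ph_mem (x : g) : L.Ph x ∈ L.hs := by
  rw [Ph_apply]
  exact Submodule.sum_mem _ fun b _ => Submodule.smul_mem _ _ (Submodule.subset_span ⟨b, rfl⟩)

theorem Pn_mem (x : g) : L.Pn x ∈ L.nm := by
  rw [Pn_apply]
  exact Submodule.sum_mem _ fun b _ => Submodule.smul_mem _ _ (Submodule.subset_span ⟨b, rfl⟩)

theorem Pp_np (x : g) (hx : x ∈ L.np) : L.Pp x = x := by
  refine eqs L.Pp LinearMap.id L.e (fun c => ?_) x hx
  rw [Pp_apply, LinearMap.id_apply, Finset.sum_eq_single c]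
  · rw [L.ef, if_pos rfl, one_smul]
  · intro b _ hb
    rw [L.ef, if_neg hb.symm, zero_smul]
  · intro h
    exact absurd (Finset.mem_univ c) h

theorem Ph_np (x : g) (hx : x ∈ L.np) : L.Ph x = 0 := by
  refine eqs L.Ph 0 L.e (fun c => ?_) x hx
  rw [Ph_apply, LinearMap.zero_apply]
  exact Finset.sum_eq_zero fun i _ => by rw [form_e_hs L c _ (L.h'_mem i), zero_smul]

theorem Pn_np (x : g) (hx : x ∈ L.np) : L.Pn x = 0 := by
  refine eqs L.Pn 0 L.e (fun c => ?_) x hx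
  rw [Pn_apply, LinearMap.zero_apply]
  exact Finset.sum_eq_zero fun i _ => by rw [L.ee, zero_smul]

theorem Pp_hs (x : g) (hx : x ∈ L.hs) : L.Pp x = 0 := by
  rw [Pp_apply]
  exact Finset.sum_eq_zero fun i _ => by rw [L.symm, form_f_hs L i x hx, zero_smul]

theorem Ph_hs (x : g) (hx : x ∈ L.hs) : L.Ph x = x := by
  refine eqs L.Ph LinearMap.id L.h (fun c => ?_) x hx
  rw [Ph_apply, LinearMap.id_apply, Finset.sum_eq_single c]
  · rw [L.hh', if_pos rfl, one_smul]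
  · intro b _ hb
    rw [L.hh', if_neg hb.symm, zero_smul]
  · intro h
    exact absurd (Finset.mem_univ c) h

theorem Pn_hs (x : g) (hx : x ∈ L.hs) : L.Pn x = 0 := by
  rw [Pn_apply]
  exact Finset.sum_eq_zero fun i _ => by rw [L.symm, form_e_hs L i x hx, zero_smul]

theorem Pp_nm (x : g) (hx : x ∈ L.nm) : L.Pp x = 0 := by
  rw [Pp_apply]
  exact Finset.sum_eq_zero fun i _ => by
    rw [nm_nm L x hx _ (Submodule.subset_span ⟨i, rfl⟩), zero_smul]

theorem Ph_nm (x : g) (hx : x ∈ L.nm) : L.Ph x = 0 := by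
  rw [Ph_apply]
  exact Finset.sum_eq_zero fun i _ => by rw [nm_hs L x hx _ (L.h'_mem i), zero_smul]

theorem Pn_nm (x : g) (hx : x ∈ L.nm) : L.Pn x = x := by
  refine eqs L.Pn LinearMap.id L.f (fun c => ?_) x hx
  rw [Pn_apply, LinearMap.id_apply, Finset.sum_eq_single c]
  · rw [L.symm, L.ef, if_pos rfl, one_smul]
  · intro b _ hb
    rw [L.symm, L.ef, if_neg hb, zero_smul]
  · intro h
    exact absurd (Finset.mem_univ c) h

theorem Pb_eq (x : g) : L.Pb x = x - L.Pp x := by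
  have h := sum L x
  rw [add_assoc] at h
  rw [eq_sub_iff_add_eq, add_comm]
  exact h

theorem Pb_mem (x : g) : L.Pb x ∈ L.bm :=
  add_mem (Submodule.mem_sup_left (Ph_mem L x)) (Submodule.mem_sup_right (Pn_mem L x))

theorem Pp_bm (x : g) (hx : x ∈ L.bm) : L.Pp x = 0 := by
  obtain ⟨a, ha, b, hb, rfl⟩ := Submodule.mem_sup.1 hx
  rw [map_add, Pp_hs L a ha, Pp_nm L b hb, add_zero]

theorem hs_exp (x : g) (hx : x ∈ L.hs) : x = ∑ i, L.form x (L.h' i) • L.h i := by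
  rw [← Ph_apply, Ph_hs L x hx]

/-- The form is nondegenerate on `h`. -/
theorem hs_nondeg (x : g) (hx : x ∈ L.hs) (h : ∀ j, L.form x (L.h j) = 0) : x = 0 := by
  rw [hs_exp L x hx]
  refine Finset.sum_eq_zero fun i _ => ?_
  rw [eqs (L.form x) 0 L.h (fun c => h c) (L.h' i) (L.h'_mem i), LinearMap.zero_apply, zero_smul]

theorem hs_exp' (x : g) (hx : x ∈ L.hs) : x = ∑ i, L.form x (L.h i) • L.h' i := by
  rw [← sub_eq_zero]
  apply hs_nondeg L
  · exact sub_mem hx (Submodule.sum_mem _ fun i _ => Submodule.smul_mem _ _ (L.h'_mem i))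
  · intro j
    rw [map_sub, LinearMap.sub_apply, map_sum, LinearMap.sum_apply, Finset.sum_eq_single j]
    · rw [map_smul, LinearMap.smul_apply, L.symm (L.h' j), L.hh', if_pos rfl, smul_eq_mul, mul_one, sub_self]
    · intro i _ hi
      rw [map_smul, LinearMap.smul_apply, L.symm (L.h' i), L.hh', if_neg hi.symm, smul_zero]
    · intro h
      exact absurd (Finset.mem_univ j) h

end LA1

theorem la_P (L : LD g β η) : LD.FactsP L where
  sum := LA1.sum L
  Pp_apply := LA1.Pp_apply L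
  Ph_apply := LA1.Ph_apply L
  Pn_apply := LA1.Pn_apply L
  Pb_eq := LA1.Pb_eq L
  Pp_mem := LA1.Pp_mem L
  Ph_mem := LA1.Ph_mem L
  Pn_mem := LA1.Pn_mem L
  Pb_mem := LA1.Pb_mem L
  Pp_np := LA1.Pp_np L
  Ph_np := LA1.Ph_np L
  Pn_np := LA1.Pn_np L
  Pb_np x hx := by rw [LA1.Pb_eq, LA1.Pp_np L x hx, sub_self]
  Ph_hs := LA1.Ph_hs L
  Pn_hs := LA1.Pn_hs L
  Ph_nm := LA1.Ph_nm L
  Pn_nm := LA1.Pn_nm L
  Pp_bm := LA1.Pp_bm L
  Pb_bm x hx := by rw [LA1.Pb_eq, LA1.Pp_bm L x hx, sub_zero]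
  mem_bm x hx := by
    have h := LA1.Pb_mem L x
    rwa [LA1.Pb_eq, hx, sub_zero] at h
  hs_le := le_sup_left
  nm_le := le_sup_right
  h'_mem := L.h'_mem
  form_np_np := LA1.np_np L
  form_np_hs := LA1.np_hs L
  form_nm_bm := LA1.nm_bm L
  form_Pp x y hy := by
    conv_rhs => rw [← LA1.sum L x]
    rw [map_add, map_add, LinearMap.add_apply, LinearMap.add_apply, L.symm (L.Ph x), L.symm (L.Pn x),
      LA1.nm_hs L y hy _ (LA1.Ph_mem L x), LA1.nm_nm L y hy _ (LA1.Pn_mem L x), add_zero, add_zero]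
  form_Pn x y hy := by
    conv_rhs => rw [← LA1.sum L x]
    rw [map_add, map_add, LinearMap.add_apply, LinearMap.add_apply, L.symm (L.Ph x), L.symm (L.Pp x),
      LA1.np_hs L y hy _ (LA1.Ph_mem L x), LA1.np_np L y hy _ (LA1.Pp_mem L x), zero_add, zero_add]
  form_Ph x y hy := by
    conv_rhs => rw [← LA1.sum L x]
    rw [map_add, map_add, LinearMap.add_apply, LinearMap.add_apply,
      LA1.np_hs L _ (LA1.Pp_mem L x) y hy, LA1.nm_hs L _ (LA1.Pn_mem L x) y hy, zero_add, add_zero]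
  np_exp x hx := by rw [← LA1.Pp_apply, LA1.Pp_np L x hx]
  nm_exp x hx := by rw [← LA1.Pn_apply, LA1.Pn_nm L x hx]
  hs_exp := LA1.hs_exp L
  hs_exp' := LA1.hs_exp' L
  nondeg x h := by
    rw [← LA1.sum L x, LA1.Pp_apply, LA1.Ph_apply, LA1.Pn_apply]
    simp only [h, zero_smul, Finset.sum_const_zero, add_zero]

end WPE
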