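import Pool.Agent.WPE.LA5

/-! [WPE-LA6] The cocycle identity for `Ω`. -/

open scoped TensorProduct

namespace WPE

variable {g β η : Type} [LieRing g] [LieAlgebra ℂ g] [Fintype β] [DecidableEq β] [Fintype η]
  [DecidableEq η]

/-- `π[π₊[a,x],b] = π[[a,x],b] - [b,π[x,a]]`. -/
theorem LA6.aux1 (L : LD g β η) (a b : g) (hb : b ∈ L.bm) (x : g) :
    L.Pb ⁅L.Pp ⁅a, x⁆, b⁆ = L.Pb ⁅⁅a, x⁆, b⁆ - ⁅b, L.Pb ⁅x, a⁆⁆ := by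
  have hP := la_P L
  have hG := la_G L
  have e1 : L.Pp ⁅a, x⁆ = ⁅a, x⁆ - L.Pb ⁅a, x⁆ := by
    rw [hP.Pb_eq, sub_sub_cancel]
  rw [e1, sub_lie, map_sub, hP.Pb_bm _ (hG.bm_bm _ (hP.Pb_mem _) _ hb)]
  congr 1
  rw [← lie_skew x a, map_neg, lie_neg, lie_skew]

/-- The identity in the first slot. -/
theorem LA6.aux2 (L : LD g β η) (a b : g) (ha : a ∈ L.bm) (hb : b ∈ L.bm) (x : g) :
    (⁅a, L.Pb ⁅x, b⁆⁆ - L.Pb ⁅L.Pp ⁅a, x⁆, b⁆) - (⁅b, L.Pb ⁅x, a⁆⁆ - L.Pb ⁅L.Pp ⁅b, x⁆, a⁆) =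
      L.Pb ⁅x, ⁅a, b⁆⁆ := by
  have e1 : ⁅x, ⁅a, b⁆⁆ = ⁅⁅b, x⁆, a⁆ - ⁅⁅a, x⁆, b⁆ := by
    rw [leibniz_lie x a b, ← lie_skew x a, neg_lie, ← lie_skew a ⁅x, b⁆, ← lie_skew x b, neg_lie]
    abel
  rw [LA6.aux1 L a b hb x, LA6.aux1 L b a ha x, e1, map_sub]
  abel

/-- `[a, Ω(b)] = ∑ ([a,π[e_k,b]] - π[π₊[a,e_k],b]) ⊗ e^k`. -/
theorem LA6.aux3 (L : LD g β η) (a b : g) (ha : a ∈ L.bm) :
    ⁅a, L.Om b⁆ = ∑ k, (⁅a, L.Pb ⁅L.e k, b⁆⁆ - L.Pb ⁅L.Pp ⁅a, L.e k⁆, b⁆) ⊗ₜ[ℂ] L.f k := by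
  have hO := la_O L
  have hc := (la_can L).1 a ha
  have h1 := congrArg (TensorProduct.map (L.Pb ∘ₗ LD.ad2.flip b) (LinearMap.id : g →ₗ[ℂ] g)) hc
  rw [map_add, map_sum, map_sum, map_zero] at h1
  simp only [TensorProduct.map_tmul, LinearMap.comp_apply, LinearMap.flip_apply,
    LinearMap.id_apply] at h1
  have h2 : ∀ y : g, LD.ad2 y b = ⁅y, b⁆ := fun y => rfl
  simp only [h2] at h1
  rw [hO.Om_apply, lie_sum]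
  simp only [TensorProduct.LieModule.lie_tmul_right, TensorProduct.sub_tmul]
  rw [Finset.sum_add_distrib, Finset.sum_sub_distrib, eq_neg_of_add_eq_zero_right h1]
  abel

/-- [LA6] -/
theorem la_cocycle (L : LD g β η) (a b : g) (ha : a ∈ L.bm) (hb : b ∈ L.bm) :
    ⁅a, L.Om b⁆ - ⁅b, L.Om a⁆ = L.Om ⁅a, b⁆ := by
  have hO := la_O L
  rw [LA6.aux3 L a b ha, LA6.aux3 L b a hb, ← Finset.sum_sub_distrib, hO.Om_apply]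
  refine Finset.sum_congr rfl fun k _ => ?_
  rw [← TensorProduct.sub_tmul, LA6.aux2 L a b ha hb]

end WPE
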