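import Pool.Agent.WPE.LA6

/-! [WPE-LA7] The map `R` and the bracket. -/

open scoped TensorProduct

namespace WPE

variable {g β η : Type} [LieRing g] [LieAlgebra ℂ g] [Fintype β] [DecidableEq β] [Fintype η]
  [DecidableEq η]

noncomputable section

/-- `x ⊗ z ↦ [π_n x, z]` -/
def LA7.B (L : LD g β η) : g ⊗[ℂ] g →ₗ[ℂ] g := LD.brk ∘ₗ TensorProduct.map L.Pn LinearMap.id

theorem LA7.B_tmul (L : LD g β η) (x z : g) : LA7.B L (x ⊗ₜ[ℂ] z) = ⁅L.Pn x, z⁆ := rfl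

/-- `K a = ∑ [π_n[e_b, a], e^b]` -/
def LA7.K (L : LD g β η) (a : g) : g := ∑ b, ⁅L.Pn ⁅L.e b, a⁆, L.f b⁆

theorem LA7.B_lie (L : LD g β η) (y : g) (hy : y ∈ L.nm) (y' : g) (hy' : y' ∈ L.nm) :
    LA7.B L ⁅y, L.Om y'⁆ = ⁅y, LA7.K L y'⁆ - ∑ i, ⁅⁅y, L.h i⁆, ⁅L.h' i, y'⁆⁆ := by
  have hP := la_P L
  have hG := la_G L
  have hO := la_O L
  have hyb : y ∈ L.bm := hP.nm_le hy
  have hn : ∀ z : g, L.Pn ⁅y, L.Pn z⁆ = ⁅y, L.Pn z⁆ := fun z =>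
    hP.Pn_nm _ (hG.bm_nm y hyb _ (hP.Pn_mem z))
  have hPP : ∀ z : g, L.Pn (L.Pn z) = L.Pn z := fun z => hP.Pn_nm _ (hP.Pn_mem z)
  have hhm : ∀ i, L.h i ∈ L.hs := fun i => Submodule.subset_span ⟨i, rfl⟩
  have hh1 : ∀ i, L.Pn ⁅y, L.h i⁆ = ⁅y, L.h i⁆ := by
    intro i
    refine hP.Pn_nm _ ?_
    rw [← lie_skew y (L.h i)]
    exact Submodule.neg_mem _ (hG.bm_nm _ (hP.hs_le (hhm i)) y hy)
  have hh2 : ∀ i, L.Pn (L.h i) = 0 := fun i => hP.Pn_hs _ (hhm i)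
  rw [hO.Om_nm y' hy', lie_sub, map_sub, hO.Zt_apply, lie_sum, lie_sum, map_sum, map_sum]
  congr 1
  · unfold LA7.K
    rw [lie_sum]
    refine Finset.sum_congr rfl fun b _ => ?_
    rw [TensorProduct.LieModule.lie_tmul_right, map_add, LA7.B_tmul, LA7.B_tmul, hn, hPP]
    exact (leibniz_lie _ _ _).symm
  · refine Finset.sum_congr rfl fun i _ => ?_
    rw [TensorProduct.LieModule.lie_tmul_right, map_add, LA7.B_tmul, LA7.B_tmul, hh1, hh2, zero_lie,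
      add_zero]

theorem LA7.B_Om (L : LD g β η) (y : g) (hy : y ∈ L.nm) : LA7.B L (L.Om y) = LA7.K L y := by
  have hP := la_P L
  have hO := la_O L
  have hPP : ∀ z : g, L.Pn (L.Pn z) = L.Pn z := fun z => hP.Pn_nm _ (hP.Pn_mem z)
  have hhm : ∀ i, L.h i ∈ L.hs := fun i => Submodule.subset_span ⟨i, rfl⟩
  have hh2 : ∀ i, L.Pn (L.h i) = 0 := fun i => hP.Pn_hs _ (hhm i)
  rw [hO.Om_nm y hy, map_sub, hO.Zt_apply, map_sum, map_sum]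
  have h1 : ∑ i, LA7.B L (L.h i ⊗ₜ[ℂ] ⁅L.h' i, y⁆) = 0 :=
    Finset.sum_eq_zero fun i _ => by rw [LA7.B_tmul, hh2, zero_lie]
  rw [h1, sub_zero]
  unfold LA7.K
  exact Finset.sum_congr rfl fun b _ => by rw [LA7.B_tmul, hPP]

/-- `∑ h_i ⊗ h^i` is symmetric -/
theorem LA7.sym (L : LD g β η) (y y' : g) :
    ∑ i, ⁅⁅L.h' i, y⁆, ⁅L.h i, y'⁆⁆ = ∑ i, ⁅⁅L.h i, y⁆, ⁅L.h' i, y'⁆⁆ := by
  have hP := la_P L
  have h1 : ∀ i, ⁅⁅L.h' i, y⁆, ⁅L.h i, y'⁆⁆ =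
      ∑ j, L.form (L.h' i) (L.h' j) • ⁅⁅L.h j, y⁆, ⁅L.h i, y'⁆⁆ := by
    intro i
    conv_lhs => rw [hP.hs_exp _ (hP.h'_mem i)]
    rw [sum_lie, sum_lie]
    exact Finset.sum_congr rfl fun j _ => by rw [smul_lie, smul_lie]
  have h2 : ∀ j, ⁅⁅L.h j, y⁆, ⁅L.h' j, y'⁆⁆ =
      ∑ i, L.form (L.h' i) (L.h' j) • ⁅⁅L.h j, y⁆, ⁅L.h i, y'⁆⁆ := by
    intro j
    conv_lhs => rw [hP.hs_exp _ (hP.h'_mem j)]
    rw [sum_lie, lie_sum]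
    exact Finset.sum_congr rfl fun i _ => by rw [smul_lie, lie_smul, L.symm]
  rw [Finset.sum_congr rfl fun i _ => h1 i, Finset.sum_congr rfl fun j _ => h2 j, Finset.sum_comm]

/-- [LA7] -/
theorem la_R (L : LD g β η) (y y' : g) (hy : y ∈ L.nm) (hy' : y' ∈ L.nm) :
    L.R ⁅y, y'⁆ = ⁅y, L.R y'⁆ + ⁅L.R y, y'⁆ - ∑ i, ⁅⁅L.h i, y⁆, ⁅L.h' i, y'⁆⁆ := by
  have hP := la_P L
  have hG := la_G L
  have hO := la_O L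
  have hR : ∀ a, L.R a = (-(1 / 2 : ℂ)) • LA7.K L a := fun a => hO.R_apply a
  have hc := congrArg (LA7.B L) (la_cocycle L y y' (hP.nm_le hy) (hP.nm_le hy'))
  rw [map_sub, LA7.B_lie L y hy y' hy', LA7.B_lie L y' hy' y hy,
    LA7.B_Om L _ (hG.bm_nm y (hP.nm_le hy) y' hy')] at hc
  have h1 : ∑ i, ⁅⁅y, L.h i⁆, ⁅L.h' i, y'⁆⁆ = -∑ i, ⁅⁅L.h i, y⁆, ⁅L.h' i, y'⁆⁆ := by
    rw [← Finset.sum_neg_distrib]
    exact Finset.sum_congr rfl fun i _ => by rw [← lie_skew y (L.h i), neg_lie]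
  have h2 : ∑ i, ⁅⁅y', L.h i⁆, ⁅L.h' i, y⁆⁆ = ∑ i, ⁅⁅L.h i, y⁆, ⁅L.h' i, y'⁆⁆ := by
    rw [← LA7.sym L y y']
    exact Finset.sum_congr rfl fun i _ => by
      rw [← lie_skew y' (L.h i), neg_lie, lie_skew]
  rw [h1, h2] at hc
  rw [hR, hR, hR, ← hc, lie_smul, smul_lie, ← lie_skew (LA7.K L y) y', smul_sub, smul_sub, smul_sub,
    smul_neg, smul_neg]
  have h3 : ∀ z : g, (-(1 / 2 : ℂ)) • z + (-(1 / 2 : ℂ)) • z = -z := by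
    intro z
    rw [← add_smul]
    norm_num
  have h4 := h3 (∑ i, ⁅⁅L.h i, y⁆, ⁅L.h' i, y'⁆⁆)
  rw [sub_eq_add_neg _ (∑ i, ⁅⁅L.h i, y⁆, ⁅L.h' i, y'⁆⁆), ← h4]
  abel

end

end WPE
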