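import Pool.Agent.WPE.LD

/-! WPE, block LA: definitions (W_DE_KDS.md, LA2).  Elements of `b₋ ⊗ n₋` and `n₋ ⊗ n₋` are elements of
`g ⊗ g`; the Lie algebra acts on `g ⊗ g` by `⁅a, x ⊗ y⁆ = ⁅a, x⁆ ⊗ y + x ⊗ ⁅a, y⁆` (Mathlib). -/

open scoped TensorProduct

namespace WPE

noncomputable section

variable {g β η : Type} [LieRing g] [LieAlgebra ℂ g] [Fintype β] [DecidableEq β] [Fintype η]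
  [DecidableEq η]

namespace LD

variable (L : LD g β η)

/-- The bracket as a bilinear map. -/
def ad2 : g →ₗ[ℂ] g →ₗ[ℂ] g :=
  LinearMap.mk₂ ℂ (fun x y => ⁅x, y⁆) add_lie smul_lie lie_add (fun c x y => lie_smul c x y)

/-- `ad x` as a linear map. -/
def adl (x : g) : g →ₗ[ℂ] g := ad2 x

/-- `Ω(a) = ∑_b π[e_b, a] ⊗ e^b` -/
def Om : g →ₗ[ℂ] g ⊗[ℂ] g :=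
  ∑ b, (TensorProduct.mk ℂ g g).flip (L.f b) ∘ₗ L.Pb ∘ₗ adl (L.e b)

/-- `Z(y) = ∑_b π_n[e_b, y] ⊗ e^b` -/
def Zt : g →ₗ[ℂ] g ⊗[ℂ] g :=
  ∑ b, (TensorProduct.mk ℂ g g).flip (L.f b) ∘ₗ L.Pn ∘ₗ adl (L.e b)

/-- The bracket `g ⊗ g → g`. -/
def brk : g ⊗[ℂ] g →ₗ[ℂ] g := TensorProduct.lift ad2

/-- `R(y) = -(1/2) ∑_b [π_n[e_b, y], e^b]` -/
def R : g →ₗ[ℂ] g := (-(1 / 2 : ℂ)) • (brk ∘ₗ L.Zt)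

/-- `L(a) = κ y + R(y)`, `y = π_n a`. -/
def Lk (κ : ℂ) : g →ₗ[ℂ] g := κ • L.Pn + L.R ∘ₗ L.Pn

/-- `c ⊗ z ↦ [[a, c], z] + κ (a, c) z` -/
def Sp (κ : ℂ) (a : g) : g ⊗[ℂ] g →ₗ[ℂ] g :=
  brk ∘ₗ TensorProduct.map (adl a) LinearMap.id +
    κ • TensorProduct.lift (LinearMap.lsmul ℂ g ∘ₗ L.form a)

/-- `Y(a, y) = ∑_b [π[e_b, a], y] ⊗ e^b` -/
def Yt (a y : g) : g ⊗[ℂ] g := ∑ b, ⁅L.Pb ⁅L.e b, a⁆, y⁆ ⊗ₜ[ℂ] L.f b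

/-- Projections and the form. -/
structure FactsP (L : LD g β η) : Prop where
  sum : ∀ x, L.Pp x + L.Ph x + L.Pn x = x
  Pp_apply : ∀ x, L.Pp x = ∑ b, L.form x (L.f b) • L.e b
  Ph_apply : ∀ x, L.Ph x = ∑ i, L.form x (L.h' i) • L.h i
  Pn_apply : ∀ x, L.Pn x = ∑ b, L.form x (L.e b) • L.f b
  Pb_eq : ∀ x, L.Pb x = x - L.Pp x
  Pp_mem : ∀ x, L.Pp x ∈ L.np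
  Ph_mem : ∀ x, L.Ph x ∈ L.hs
  Pn_mem : ∀ x, L.Pn x ∈ L.nm
  Pb_mem : ∀ x, L.Pb x ∈ L.bm
  Pp_np : ∀ x ∈ L.np, L.Pp x = x
  Ph_np : ∀ x ∈ L.np, L.Ph x = 0
  Pn_np : ∀ x ∈ L.np, L.Pn x = 0
  Pb_np : ∀ x ∈ L.np, L.Pb x = 0
  Ph_hs : ∀ x ∈ L.hs, L.Ph x = x
  Pn_hs : ∀ x ∈ L.hs, L.Pn x = 0
  Ph_nm : ∀ x ∈ L.nm, L.Ph x = 0
  Pn_nm : ∀ x ∈ L.nm, L.Pn x = x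
  Pp_bm : ∀ x ∈ L.bm, L.Pp x = 0
  Pb_bm : ∀ x ∈ L.bm, L.Pb x = x
  mem_bm : ∀ x, L.Pp x = 0 → x ∈ L.bm
  hs_le : L.hs ≤ L.bm
  nm_le : L.nm ≤ L.bm
  h'_mem : ∀ i, L.h' i ∈ L.hs
  form_np_np : ∀ x ∈ L.np, ∀ y ∈ L.np, L.form x y = 0
  form_np_hs : ∀ x ∈ L.np, ∀ y ∈ L.hs, L.form x y = 0
  form_nm_bm : ∀ x ∈ L.nm, ∀ y ∈ L.bm, L.form x y = 0
  form_Pp : ∀ x, ∀ y ∈ L.nm, L.form (L.Pp x) y = L.form x y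
  form_Pn : ∀ x, ∀ y ∈ L.np, L.form (L.Pn x) y = L.form x y
  form_Ph : ∀ x, ∀ y ∈ L.hs, L.form (L.Ph x) y = L.form x y
  np_exp : ∀ x ∈ L.np, x = ∑ b, L.form x (L.f b) • L.e b
  nm_exp : ∀ x ∈ L.nm, x = ∑ b, L.form x (L.e b) • L.f b
  hs_exp : ∀ x ∈ L.hs, x = ∑ i, L.form x (L.h' i) • L.h i
  hs_exp' : ∀ x ∈ L.hs, x = ∑ i, L.form x (L.h i) • L.h' i
  nondeg : ∀ x, (∀ y, L.form x y = 0) → x = 0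

/-- The grading and the brackets. -/
structure FactsG (L : LD g β η) : Prop where
  lie_gr : ∀ (c d : ℤ), ∀ x ∈ L.gr c, ∀ y ∈ L.gr d, ⁅x, y⁆ ∈ L.gr (c + d)
  e_gr : ∀ b, L.e b ∈ L.gr (L.ht b)
  f_gr : ∀ b, L.f b ∈ L.gr (-(L.ht b : ℤ))
  hs_hs : ∀ x ∈ L.hs, ∀ y ∈ L.hs, ⁅x, y⁆ = 0
  gr_zero : L.gr 0 = L.hs
  F_gr : L.F ∈ L.gr (-1)
  F_nm : L.F ∈ L.nm
  form_gr : ∀ (c d : ℤ), c + d ≠ 0 → ∀ x ∈ L.gr c, ∀ y ∈ L.gr d, L.form x y = 0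
  Pp_gr : ∀ (c : ℤ), ∀ x ∈ L.gr c, L.Pp x ∈ L.gr c
  Ph_gr : ∀ (c : ℤ), ∀ x ∈ L.gr c, L.Ph x ∈ L.gr c
  Pn_gr : ∀ (c : ℤ), ∀ x ∈ L.gr c, L.Pn x ∈ L.gr c
  Pb_gr : ∀ (c : ℤ), ∀ x ∈ L.gr c, L.Pb x ∈ L.gr c
  gr_pos : ∀ c : ℤ, 0 < c → L.gr c ≤ L.np
  gr_neg : ∀ c : ℤ, c < 0 → L.gr c ≤ L.nm
  gr_nonpos : ∀ c : ℤ, c ≤ 0 → L.gr c ≤ L.bm
  np_np : ∀ x ∈ L.np, ∀ y ∈ L.np, ⁅x, y⁆ ∈ L.np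
  hs_np : ∀ x ∈ L.hs, ∀ y ∈ L.np, ⁅x, y⁆ ∈ L.np
  bm_bm : ∀ x ∈ L.bm, ∀ y ∈ L.bm, ⁅x, y⁆ ∈ L.bm
  bm_nm : ∀ x ∈ L.bm, ∀ y ∈ L.nm, ⁅x, y⁆ ∈ L.nm
  Pp_hs : ∀ a ∈ L.hs, ∀ x, L.Pp ⁅a, x⁆ = ⁅a, L.Pp x⁆
  Pn_hs : ∀ a ∈ L.hs, ∀ x, L.Pn ⁅a, x⁆ = ⁅a, L.Pn x⁆
  Pb_hs : ∀ a ∈ L.hs, ∀ x, L.Pb ⁅a, x⁆ = ⁅a, L.Pb x⁆
  gr_span : ∀ x ∈ L.bm, x ∈ Submodule.span ℂ {y | ∃ c : ℤ, c ≤ 0 ∧ y ∈ L.gr c ∧ y ∈ L.bm}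
  bb_gr : ∀ s, L.bb s ∈ L.gr (L.cb s)

/-- Bases. -/
structure FactsB (L : LD g β η) : Prop where
  fin : Module.Finite ℂ g
  bb_mem : ∀ s, L.bb s ∈ L.bm
  bb_li : LinearIndependent ℂ L.bb
  bb_span : Submodule.span ℂ (Set.range L.bb) = L.bm
  f_li : LinearIndependent ℂ L.f
  e_li : LinearIndependent ℂ L.e
  h_li : LinearIndependent ℂ L.h

/-- The tensors `Ω`, `Z` and the maps `R`, `L` (LA2, LA3, LA10). -/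
structure FactsO (L : LD g β η) : Prop where
  Om_apply : ∀ a, L.Om a = ∑ b, L.Pb ⁅L.e b, a⁆ ⊗ₜ[ℂ] L.f b
  Zt_apply : ∀ a, L.Zt a = ∑ b, L.Pn ⁅L.e b, a⁆ ⊗ₜ[ℂ] L.f b
  Om_hs : ∀ a ∈ L.hs, L.Om a = 0
  Om_nm : ∀ y ∈ L.nm, L.Om y = L.Zt y - ∑ i, L.h i ⊗ₜ[ℂ] ⁅L.h' i, y⁆
  Zt_comm : ∀ y ∈ L.nm, TensorProduct.comm ℂ g g (L.Zt y) = -L.Zt y
  Zt_hs : ∀ a ∈ L.hs, ∀ y, L.Zt ⁅a, y⁆ = ⁅a, L.Zt y⁆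
  Zt_np : ∀ x ∈ L.np, ∀ y ∈ L.nm,
    TensorProduct.map L.Pn L.Pn ⁅x, L.Zt y⁆ = L.Zt (L.Pn ⁅x, y⁆)
  Zt_one : ∀ y ∈ L.gr (-1), L.Zt y = 0
  Zt_F : L.Zt L.F = 0
  R_apply : ∀ a, L.R a = (-(1 / 2 : ℂ)) • ∑ b, ⁅L.Pn ⁅L.e b, a⁆, L.f b⁆
  R_mem : ∀ a, L.R a ∈ L.nm
  R_hs : ∀ a ∈ L.hs, ∀ y, L.R ⁅a, y⁆ = ⁅a, L.R y⁆
  R_zero : ∀ y, L.Zt y = 0 → L.R y = 0
  Lk_mem : ∀ (κ : ℂ) (a : g), L.Lk κ a ∈ L.nm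
  Lk_hs : ∀ (κ : ℂ), ∀ a ∈ L.hs, L.Lk κ a = 0
  Lk_nm : ∀ (κ : ℂ), ∀ y ∈ L.nm, L.Lk κ y = κ • y + L.R y
  Lk_gr : ∀ (κ : ℂ) (c : ℤ), ∀ a ∈ L.gr c, L.Lk κ a ∈ L.gr c

end LD

end

end WPE
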