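import Pool.Agent.WPE.LA10
import Pool.Agent.WPE.LA11
import Pool.Agent.WPE.LA8
import Pool.Agent.WPE.LA9
import Pool.Agent.WPE.LDB

/-! WPE, block LA: all theorems. -/
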