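import Pool.Agent.WPE.MIE

/-! WPE, block MI: the trivial module as a `g`-module. -/

namespace WPE

open scoped TensorProduct
open MvPolynomial WPQ

noncomputable section

namespace LD

section tv

variable {g β η : Type} [LieRing g] [LieAlgebra ℂ g] [Fintype β] [DecidableEq β] [Fintype η]
  [DecidableEq η] (L : LD g β η)

/-- The identity as a map from the complex of the trivial representation to the complex of the
trivial `g`-module. -/
def tv (κ : ℂ) : CHom (L.kb κ) (L.kb κ) L.nL L.nL (TMod.triv L.bL)
    (TMod.ofRep (L.rep (TrivialLieModule ℂ g ℂ))) where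
  f := LieHom.id
  u := LinearMap.id
  φ := (TrivialLieModule.equiv ℂ g ℂ).symm.toLinearMap
  hκ a b := rfl
  hu a y := rfl
  hφ m a v := by
    by_cases hm : m = 0
    · subst hm
      rw [TMod.ofRep_zero, TMod.ofRep_zero]
      show (TrivialLieModule.equiv ℂ g ℂ).symm ((LRep.triv L.bL).ρ a v) =
        ⁅(a : g), (TrivialLieModule.equiv ℂ g ℂ).symm v⁆
      rw [trivial_lie_zero]
      exact map_zero _
    · rw [TMod.ofRep_pos _ _ hm, TMod.ofRep_pos _ _ hm, map_zero]

end tv

section nu0

variable {g β ι : Type} [LieRing g] [LieAlgebra ℂ g] [Fintype β] [DecidableEq β] [Fintype ι]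
  [DecidableEq ι] {L : LD g β ι} {A : Matrix ι ι ℤ} {p : ℕ}

/-- The trivial module as `N_0`. -/
def NU.zero (K : L.Car A p) : NU K 0 (TrivialLieModule ℂ g ℂ) where
  v0 := (TrivialLieModule.equiv ℂ g ℂ).symm 1
  hw :=
    { e_v0 := fun b => trivial_lie_zero _ _ _ _
      h_v0 := fun i => by
        rw [trivial_lie_zero]
        have h : ((pr A i 0 : ℤ) : ℂ) = 0 := by
          unfold pr
          simp
        rw [h, zero_smul]
      gen := by
        intro S h0 _
        rw [eq_top_iff]
        intro x _
        have h : x = (TrivialLieModule.equiv ℂ g ℂ x) •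
            (TrivialLieModule.equiv ℂ g ℂ).symm (1 : ℂ) := by
          rw [← map_smul, smul_eq_mul, mul_one, LinearEquiv.symm_apply_apply]
        rw [h]
        exact S.smul_mem _ h0 }
  c :=
    { l := (TrivialLieModule.equiv ℂ g ℂ).toLinearMap
      hl := by
        intro a v
        have h1 : (L.rep (TrivialLieModule ℂ g ℂ)).ρ a v = 0 := by
          show ⁅(a : g), v⁆ = 0
          exact trivial_lie_zero _ _ _ _
        have h2 : toC (-(0 : ι → ℤ)) = (0 : ι → ℂ) := by
          funext i
          simp [toC]
        have h3 : WPQ.form A p (L.cf p a) 0 = 0 := by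
          have := mi_form_smul_right A p 0 (L.cf p a) 0
          rwa [zero_smul, zero_mul] at this
        rw [h1, map_zero, h2, h3, zero_mul] }
  c0 := LinearEquiv.apply_symm_apply _ _

end nu0

end LD

end

end WPE
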