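import Pool.Agent.WPE.LDB

/-! WPE, block MI: the Lie data of the Levi subalgebra `h ⊕ ℂ e_j ⊕ ℂ f_j` of a simple root `j`. -/

namespace WPE

open scoped TensorProduct

noncomputable section

variable {g β η : Type} [LieRing g] [LieAlgebra ℂ g] [Fintype β] [DecidableEq β] [Fintype η]
  [DecidableEq η]

namespace LD

/-- `j` is a simple root: `e_j`, `f_j` have degree `1`, `-1` and are root vectors for `al`. -/
structure Simp (L : LD g β η) (j : β) (al : η → ℂ) : Prop where
  ht : L.ht j = 1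
  he : ∀ i, ⁅L.h i, L.e j⁆ = al i • L.e j
  hf : ∀ i, ⁅L.h i, L.f j⁆ = (-al i) • L.f j

variable (L : LD g β η)

theorem mi_mem_hs (x : g) (h1 : ∀ c, L.form x (L.f c) = 0) (h2 : ∀ c, L.form x (L.e c) = 0) :
    x ∈ L.hs := by
  rw [L.decomp x]
  simp only [h1, h2, zero_smul, Finset.sum_const_zero, zero_add, add_zero]
  exact Submodule.sum_mem _ fun i _ => Submodule.smul_mem _ _ (L.h_mem_hs i)

theorem mi_ef (j : β) : ⁅L.e j, L.f j⁆ ∈ L.hs := by
  have h0 : ⁅L.rho, ⁅L.e j, L.f j⁆⁆ = ((L.ht j : ℂ) + (-(L.ht j : ℂ))) • ⁅L.e j, L.f j⁆ :=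
    L.rho_lie _ _ _ _ (L.rho_e j) (L.rho_f j)
  refine L.mi_mem_hs _ (fun c => ?_) (fun c => ?_)
  · refine L.form_eq_zero_of _ _ _ _ h0 (L.rho_f c) ?_
    intro h
    have h2 := L.ht_pos c
    have : ((L.ht c : ℕ) : ℂ) = 0 := by linear_combination -h
    rw [Nat.cast_eq_zero] at this
    omega
  · refine L.form_eq_zero_of _ _ _ _ h0 (L.rho_e c) ?_
    intro h
    have h2 := L.ht_pos c
    have : ((L.ht c : ℕ) : ℂ) = 0 := by linear_combination h
    rw [Nat.cast_eq_zero] at this
    omega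

variable {L} {j : β} {al : η → ℂ} (S : Simp L j al)

/-- The subspace `h ⊕ ℂ e_j ⊕ ℂ f_j`. -/
def levS (L : LD g β η) (j : β) : Submodule ℂ g := L.hs ⊔ Submodule.span ℂ {L.e j, L.f j}

theorem mem_levS_h (L : LD g β η) (j : β) {x : g} (hx : x ∈ L.hs) : x ∈ L.levS j :=
  Submodule.mem_sup_left hx

theorem mem_levS_e (L : LD g β η) (j : β) : L.e j ∈ L.levS j :=
  Submodule.mem_sup_right (Submodule.subset_span (Set.mem_insert _ _))

theorem mem_levS_f (L : LD g β η) (j : β) : L.f j ∈ L.levS j :=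
  Submodule.mem_sup_right (Submodule.subset_span (Set.mem_insert_of_mem _ rfl))

theorem levS_ind (L : LD g β η) (j : β) {U : Submodule ℂ g} (h1 : ∀ i, L.h i ∈ U)
    (h2 : L.e j ∈ U) (h3 : L.f j ∈ U) : L.levS j ≤ U := by
  refine sup_le ?_ ?_
  · refine Submodule.span_le.2 ?_
    rintro _ ⟨i, rfl⟩
    exact h1 i
  · refine Submodule.span_le.2 ?_
    intro x hx
    rcases hx with rfl | hx
    · exact h2
    · rw [Set.mem_singleton_iff.1 hx]
      exact h3

include S in
theorem levS_lie {x y : g} (hx : x ∈ L.levS j) (hy : y ∈ L.levS j) : ⁅x, y⁆ ∈ L.levS j := by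
  have key : ∀ x ∈ L.levS j, (∀ i, ⁅x, L.h i⁆ ∈ L.levS j) ∧ ⁅x, L.e j⁆ ∈ L.levS j ∧
      ⁅x, L.f j⁆ ∈ L.levS j := by
    let U : Submodule ℂ g :=
      { carrier := {x | (∀ i, ⁅x, L.h i⁆ ∈ L.levS j) ∧ ⁅x, L.e j⁆ ∈ L.levS j ∧
          ⁅x, L.f j⁆ ∈ L.levS j}
        add_mem' := by
          rintro a b ⟨h1, h2, h3⟩ ⟨k1, k2, k3⟩
          refine ⟨fun i => ?_, ?_, ?_⟩
          · rw [add_lie]; exact add_mem (h1 i) (k1 i)
          · rw [add_lie]; exact add_mem h2 k2
          · rw [add_lie]; exact add_mem h3 k3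
        zero_mem' := by
          refine ⟨fun i => ?_, ?_, ?_⟩ <;> rw [zero_lie] <;> exact zero_mem _
        smul_mem' := by
          rintro c a ⟨h1, h2, h3⟩
          refine ⟨fun i => ?_, ?_, ?_⟩
          · rw [smul_lie]; exact Submodule.smul_mem _ _ (h1 i)
          · rw [smul_lie]; exact Submodule.smul_mem _ _ h2
          · rw [smul_lie]; exact Submodule.smul_mem _ _ h3 }
    have hU : L.levS j ≤ U := by
      refine L.levS_ind j (fun i => ⟨fun k => ?_, ?_, ?_⟩) ⟨fun k => ?_, ?_, ?_⟩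
        ⟨fun k => ?_, ?_, ?_⟩
      · rw [L.comm_h]; exact zero_mem _
      · rw [S.he]; exact Submodule.smul_mem _ _ (L.mem_levS_e j)
      · rw [S.hf]; exact Submodule.smul_mem _ _ (L.mem_levS_f j)
      · rw [← lie_skew, S.he]; exact neg_mem (Submodule.smul_mem _ _ (L.mem_levS_e j))
      · rw [lie_self]; exact zero_mem _
      · exact L.mem_levS_h j (L.mi_ef j)
      · rw [← lie_skew, S.hf]; exact neg_mem (Submodule.smul_mem _ _ (L.mem_levS_f j))
      · rw [← lie_skew]; exact neg_mem (L.mem_levS_h j (L.mi_ef j))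
      · rw [lie_self]; exact zero_mem _
    exact fun x hx => hU hx
  let V : Submodule ℂ g :=
    { carrier := {y | ⁅x, y⁆ ∈ L.levS j}
      add_mem' := by
        intro a b ha hb
        show ⁅x, a + b⁆ ∈ L.levS j
        rw [lie_add]; exact add_mem ha hb
      zero_mem' := by
        show ⁅x, (0 : g)⁆ ∈ L.levS j
        rw [lie_zero]; exact zero_mem _
      smul_mem' := by
        intro c a ha
        show ⁅x, c • a⁆ ∈ L.levS j
        rw [lie_smul]; exact Submodule.smul_mem _ _ ha }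
  have hV : L.levS j ≤ V := L.levS_ind j (key x hx).1 (key x hx).2.1 (key x hx).2.2
  exact hV hy

/-- The Levi subalgebra `h ⊕ ℂ e_j ⊕ ℂ f_j`. -/
def lev (S : Simp L j al) : LieSubalgebra ℂ g where
  toSubmodule := L.levS j
  lie_mem' := fun hx hy => levS_lie S hx hy

theorem mem_lev (x : g) : x ∈ lev S ↔ x ∈ L.levS j := Iff.rfl

theorem levS_form (L : LD g β η) (j : β) {x : g} (hx : x ∈ L.levS j) (b : β) (hb : b ≠ j) :
    L.form x (L.f b) = 0 ∧ L.form x (L.e b) = 0 := by
  let U : Submodule ℂ g :=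
    { carrier := {x | L.form x (L.f b) = 0 ∧ L.form x (L.e b) = 0}
      add_mem' := by
        rintro a c ⟨h1, h2⟩ ⟨k1, k2⟩
        constructor
        · rw [map_add, LinearMap.add_apply, h1, k1, add_zero]
        · rw [map_add, LinearMap.add_apply, h2, k2, add_zero]
      zero_mem' := by
        constructor <;> rw [map_zero, LinearMap.zero_apply]
      smul_mem' := by
        rintro c a ⟨h1, h2⟩
        constructor
        · rw [map_smul, LinearMap.smul_apply, h1, smul_zero]
        · rw [map_smul, LinearMap.smul_apply, h2, smul_zero] }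
  have hU : L.levS j ≤ U := by
    refine L.levS_ind j (fun i => ⟨?_, ?_⟩) ⟨?_, ?_⟩ ⟨?_, ?_⟩
    · rw [L.symm]; exact L.fh b i
    · rw [L.symm]; exact L.eh b i
    · rw [L.ef, if_neg (Ne.symm hb)]
    · exact L.ee j b
    · exact L.ff j b
    · rw [L.symm, L.ef, if_neg hb]
  exact hU hx

theorem levS_decomp (L : LD g β η) (j : β) {x : g} (hx : x ∈ L.levS j) :
    x = L.form x (L.f j) • L.e j + ∑ i, L.form x (L.h' i) • L.h i +
      L.form x (L.e j) • L.f j := by
  conv_lhs => rw [L.decomp x]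
  rw [Finset.sum_eq_single j, Finset.sum_eq_single (s := Finset.univ) (a := j)
    (f := fun b => L.form x (L.e b) • L.f b)]
  · intro b _ hb
    rw [(levS_form L j hx b hb).2, zero_smul]
  · intro h; exact absurd (Finset.mem_univ _) h
  · intro b _ hb
    rw [(levS_form L j hx b hb).1, zero_smul]
  · intro h; exact absurd (Finset.mem_univ _) h

/-- `e_j`, `f_j`, `h_i`, `h'_i`, `rho` in the Levi subalgebra. -/
def levE (S : Simp L j al) : lev S := ⟨L.e j, L.mem_levS_e j⟩
/-- see `levE` -/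
def levF (S : Simp L j al) : lev S := ⟨L.f j, L.mem_levS_f j⟩
/-- see `levE` -/
def levH (S : Simp L j al) (i : η) : lev S := ⟨L.h i, L.mem_levS_h j (L.h_mem_hs i)⟩
/-- see `levE` -/
def levH' (S : Simp L j al) (i : η) : lev S := ⟨L.h' i, L.mem_levS_h j (L.h'_mem i)⟩
/-- see `levE` -/
def levR (S : Simp L j al) : lev S := ⟨L.rho, L.mem_levS_h j L.rho_mem⟩

/-- The form on the Levi subalgebra. -/
def levForm (S : Simp L j al) : lev S →ₗ[ℂ] lev S →ₗ[ℂ] ℂ :=
  L.form.compl₁₂ (lev S).toSubmodule.subtype (lev S).toSubmodule.subtype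

theorem levForm_apply (x y : lev S) : levForm S x y = L.form (x : g) (y : g) := rfl

theorem mem_span_levH {x : lev S} (hx : (x : g) ∈ L.hs) :
    x ∈ Submodule.span ℂ (Set.range (levH S)) := by
  have h1 : Submodule.map (lev S).toSubmodule.subtype (Submodule.span ℂ (Set.range (levH S))) =
      L.hs := by
    rw [Submodule.map_span]
    congr 1
    ext y
    constructor
    · rintro ⟨_, ⟨i, rfl⟩, rfl⟩
      exact ⟨i, rfl⟩
    · rintro ⟨i, rfl⟩
      exact ⟨_, ⟨i, rfl⟩, rfl⟩
  rw [← h1] at hx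
  obtain ⟨y, hy, hyx⟩ := hx
  have : y = x := Subtype.ext hyx
  rw [← this]
  exact hy

/-- The Lie data of the Levi subalgebra. -/
def levi (S : Simp L j al) : LD (lev S) Unit η where
  form := levForm S
  e := fun _ => levE S
  f := fun _ => levF S
  h := levH S
  h' := levH' S
  rho := levR S
  F := levF S
  ht := fun _ => 1
  symm x y := L.symm _ _
  inv x y z := L.inv _ _ _
  ef b c := by
    show L.form (L.e j) (L.f j) = _
    rw [L.ef, if_pos rfl, if_pos rfl]
  ee b c := L.ee j j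
  ff b c := L.ff j j
  eh b i := L.eh j i
  fh b i := L.fh j i
  hh' i k := L.hh' i k
  h'_mem i := mem_span_levH S (L.h'_mem i)
  decomp x := by
    apply Subtype.ext
    have h1 := levS_decomp L j x.2
    rw [Finset.univ_unique, Finset.sum_singleton, Finset.sum_singleton]
    have h2 : (((∑ i, levForm S x (levH' S i) • levH S i : lev S)) : g) =
        ∑ i, L.form (x : g) (L.h' i) • L.h i := by
      rw [AddSubmonoidClass.coe_finset_sum]
      rfl
    have h3 : ∀ a b : lev S, ((a + b : lev S) : g) = (a : g) + (b : g) := fun _ _ => rfl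
    rw [h3, h3, h2]
    exact h1
  comm_h i k := Subtype.ext (L.comm_h i k)
  rho_mem := mem_span_levH S L.rho_mem
  ht_pos _ := le_rfl
  rho_e b := by
    apply Subtype.ext
    show ⁅L.rho, L.e j⁆ = ((1 : ℕ) : ℂ) • L.e j
    rw [L.rho_e, S.ht]
  rho_f b := by
    apply Subtype.ext
    show ⁅L.rho, L.f j⁆ = (-((1 : ℕ) : ℂ)) • L.f j
    rw [L.rho_f, S.ht]
  rho_F := by
    apply Subtype.ext
    show ⁅L.rho, L.f j⁆ = (-1 : ℂ) • L.f j
    rw [L.rho_f, S.ht, Nat.cast_one]
  surj _ := by
    refine ⟨levR S, fun _ => ?_, ?_⟩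
    · show L.form L.rho (L.f j) = 0
      rw [L.symm]
      have key : ∀ r ∈ L.hs, L.form (L.f j) r = 0 := by
        intro r hr
        induction hr using Submodule.span_induction with
        | mem y hy => obtain ⟨i, rfl⟩ := hy; exact L.fh j i
        | zero => rw [map_zero]
        | add y z _ _ hy hz => rw [map_add, hy, hz, add_zero]
        | smul a y _ hy => rw [map_smul, hy, smul_zero]
      exact key _ L.rho_mem
    · apply Subtype.ext
      show ⁅L.f j, L.rho⁆ = L.f j
      rw [← lie_skew, L.rho_f, S.ht, Nat.cast_one, neg_one_smul, neg_neg]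
  gen_f U h1 _ b := h1 b rfl

theorem levi_form (x y : lev S) : (levi S).form x y = L.form (x : g) (y : g) := rfl
theorem levi_e (u : Unit) : (((levi S).e u : lev S) : g) = L.e j := rfl
theorem levi_f (u : Unit) : (((levi S).f u : lev S) : g) = L.f j := rfl
theorem levi_h (i : η) : (((levi S).h i : lev S) : g) = L.h i := rfl
theorem levi_h' (i : η) : (((levi S).h' i : lev S) : g) = L.h' i := rfl
theorem levi_rho : (((levi S).rho : lev S) : g) = L.rho := rfl
theorem levi_F : (((levi S).F : lev S) : g) = L.f j := rfl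

end LD

end

end WPE
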