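import Pool.Agent.WPE.MIR18
import Pool.Agent.WPE.VGM
import Pool.Agent.WPQ.CY10

/-! WPE, row MI21: `M_ν` is the image of the kernel of `Q`. -/

set_option linter.unusedSectionVars false

namespace WPE

open scoped TensorProduct
open MvPolynomial WPQ
open WPE.LD (Car CarF NU Ups chr0)

section main

variable {g β ι : Type} [LieRing g] [LieAlgebra ℂ g] [Fintype β] [DecidableEq β] [Fintype ι]
  [DecidableEq ι] {L : LD g β ι} {A : Matrix ι ι ℤ} {p : ℕ}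
variable {N : Type} [AddCommGroup N] [Module ℂ N] [LieRingModule g N] [LieModule ℂ g N]

namespace MIR21

theorem form_F {sr : ι → β} (K : L.CarF A p sr) (j : ι) : L.form L.F (L.e (sr j)) = 1 := by
  rw [K.F_eq, map_sum, LinearMap.sum_apply, Finset.sum_eq_single j]
  · rw [L.symm, L.ef, if_pos rfl]
  · intro i _ hi
    rw [L.symm, L.ef, if_neg (fun h => hi (K.inj h).symm)]
  · intro h
    exact absurd (Finset.mem_univ j) h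

/-- the space of the vectors `Υ(x)`, `x ∈ ker Q` -/
noncomputable def SN {K : L.Car A p} {ν : ι → ℤ} (M : NU K ν N)
    (Q0 : CC (L.kb (p : ℂ)⁻¹) L.nL (TMod.ofRep (L.rep N)) →ₗ[ℂ]
      CC (L.kb (p : ℂ)⁻¹) L.nL (TMod.ofRep (L.rep N))) : Submodule ℂ (VL ι) :=
  (cpart (L.kb (p : ℂ)⁻¹) L.nL (TMod.ofRep (L.rep N)) 0 ⊓
    LinearMap.ker ((L.qd (p : ℂ)⁻¹).Qd Q0)).map (Finsupp.lsingle (-ν) ∘ₗ Ups M.c)

theorem Internal.mem_SN {K : L.Car A p} {ν : ι → ℤ} (M : NU K ν N)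
    (Q0 : CC (L.kb (p : ℂ)⁻¹) L.nL (TMod.ofRep (L.rep N)) →ₗ[ℂ]
      CC (L.kb (p : ℂ)⁻¹) L.nL (TMod.ofRep (L.rep N))) (v : VL ι) :
    v ∈ SN M Q0 ↔ ∃ x ∈ cpart (L.kb (p : ℂ)⁻¹) L.nL (TMod.ofRep (L.rep N)) 0,
        (L.qd (p : ℂ)⁻¹).Qd Q0 x = 0 ∧ v = Finsupp.single (-ν) (Ups M.c x) := by
  unfold SN
  rw [Submodule.mem_map]
  constructor
  · rintro ⟨x, ⟨hx1, hx2⟩, rfl⟩
    exact ⟨x, hx1, hx2, rfl⟩
  · rintro ⟨x, hx1, hx2, rfl⟩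
    exact ⟨x, ⟨hx1, hx2⟩, rfl⟩

export Internal (mem_SN)

theorem Internal.mode_SN (hp : 2 ≤ p) {sr : ι → β} (K : L.CarF A p sr) (ε : Cocycle A p) {ν : ι → ℤ}
    (M : NU K.toCar ν N)
    {Q0 : CC (L.kb (p : ℂ)⁻¹) L.nL (TMod.ofRep (L.rep N)) →ₗ[ℂ]
      CC (L.kb (p : ℂ)⁻¹) L.nL (TMod.ofRep (L.rep N))}
    (h0 : IsQ0 (L.kb (p : ℂ)⁻¹) (L.qn N (p : ℂ)⁻¹) Q0)
    {Q1 : VC (L.kb (p : ℂ)⁻¹) L.nL →ₗ[ℂ] VC (L.kb (p : ℂ)⁻¹) L.nL}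
    (h1 : IsQ0 (L.kb (p : ℂ)⁻¹) (QN.one (L.qd (p : ℂ)⁻¹)) Q1)
    (u : VC (L.kb (p : ℂ)⁻¹) L.nL)
    (hu : u ∈ cpart (L.kb (p : ℂ)⁻¹) L.nL (TMod.triv L.bL) 0)
    (hQu : (L.qd (p : ℂ)⁻¹).Qd (R := LRep.triv L.bL) Q1 u = 0) (k : ℤ) (v : VL ι)
    (hv : v ∈ SN M Q0) : mode ε (Finsupp.single 0 (Ups (chr0 K.toCar) u)) k v ∈ SN M Q0 := by
  rw [mem_SN] at hv ⊢
  obtain ⟨x, hx, hQ, rfl⟩ := hv
  refine ⟨((cmod (L.kb (p : ℂ)⁻¹) L.nL (TMod.ofRep (L.rep N))).Yh u).1 k x, ?_, ?_, ?_⟩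
  · exact Yh_stable _ (cpart (L.kb (p : ℂ)⁻¹) L.nL (TMod.ofRep (L.rep N)) 0)
      (fun m a x hx => cpart_J m a hx) u hu k x hx
  · have h := br_main (br_qd L (p : ℂ)⁻¹) (L.qn N (p : ℂ)⁻¹) (br_qn L (p : ℂ)⁻¹ N)
      h0 h1 u hu hQu k x
    exact h.trans ((congrArg _ hQ).trans (map_zero _))
  · exact (mi_YU K.toCar ε rfl M.c u hu k x).symm

export Internal (mode_SN)

end MIR21

/-- [MI21] `M_ν = Υ(ker Q_ν)`. -/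
theorem Internal.mi_Mn (hp : 2 ≤ p) {sr : ι → β} (K : L.CarF A p sr) (ε : Cocycle A p) {ν : ι → ℤ}
    (hν : Dom A ν) (M : NU K.toCar ν N)
    {Q0 : CC (L.kb (p : ℂ)⁻¹) L.nL (TMod.ofRep (L.rep N)) →ₗ[ℂ]
      CC (L.kb (p : ℂ)⁻¹) L.nL (TMod.ofRep (L.rep N))}
    (h0 : IsQ0 (L.kb (p : ℂ)⁻¹) (L.qn N (p : ℂ)⁻¹) Q0)
    {Q1 : VC (L.kb (p : ℂ)⁻¹) L.nL →ₗ[ℂ] VC (L.kb (p : ℂ)⁻¹) L.nL}
    (h1 : IsQ0 (L.kb (p : ℂ)⁻¹) (QN.one (L.qd (p : ℂ)⁻¹)) Q1)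
    (hKK : ∀ f ∈ KK A p, ∃ u ∈ cpart (L.kb (p : ℂ)⁻¹) L.nL (TMod.triv L.bL) 0,
      (L.qd (p : ℂ)⁻¹).Qd (R := LRep.triv L.bL) Q1 u = 0 ∧ Ups (chr0 K.toCar) u = f)
    (v : VL ι) : v ∈ Mn ε ν ↔
      ∃ x ∈ cpart (L.kb (p : ℂ)⁻¹) L.nL (TMod.ofRep (L.rep N)) 0,
        (L.qd (p : ℂ)⁻¹).Qd Q0 x = 0 ∧ v = Finsupp.single (-ν) (Ups M.c x) := by
  constructor
  · intro hv
    rw [← MIR21.mem_SN]
    refine Mn_le_of_stable K.ade hp ε ν hν (MIR21.SN M Q0) ?_ ?_ ?_ hv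
    · rw [MIR21.mem_SN]
      have F := br_C (L.kb (p : ℂ)⁻¹) L.nL (L.rep N)
      refine ⟨i0 (L.kb (p : ℂ)⁻¹) L.nL (L.rep N) M.v0, F.i0_mem _, ?_, ?_⟩
      · have e1 : (L.qn N (p : ℂ)⁻¹).d M.v0 = 0 := by
          rw [LD.qn_d]
          refine Finset.sum_eq_zero fun b _ => ?_
          rw [M.hw.e_v0, TensorProduct.tmul_zero]
        have e2 : Q0 (i0 (L.kb (p : ℂ)⁻¹) L.nL (L.rep N) M.v0) = 0 := by
          refine (h0.n0 M.v0).trans ?_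
          rw [e1, map_zero]
          exact map_zero _
        show Q0 (i0 (L.kb (p : ℂ)⁻¹) L.nL (L.rep N) M.v0) +
          (cmod (L.kb (p : ℂ)⁻¹) L.nL (TMod.ofRep (L.rep N))).ψ 0 (L.qd (p : ℂ)⁻¹).F
            (i0 (L.kb (p : ℂ)⁻¹) L.nL (L.rep N) M.v0) = 0
        rw [e2, F.psi_i0_nonneg 0 _ M.v0 le_rfl, add_zero]
      · have e3 : Ups M.c (i0 (L.kb (p : ℂ)⁻¹) L.nL (L.rep N) M.v0) = 1 := by
          refine (LD.Ups_incl M.c _).trans ?_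
          show M.c.l M.v0 • (1 : Fock ι) = 1
          rw [M.c0, one_smul]
        rw [e3]
        rfl
    · intro y hy
      have hp1 : 1 ≤ p := by omega
      have hpc : (p : ℂ) ≠ 0 := by
        exact_mod_cast (by omega : p ≠ 0)
      have e1 := MIR21.mode_SN hp K ε M h0 h1 (L.w0 (p : ℂ)⁻¹)
        (mi_w0_deg L (p : ℂ)⁻¹ (isEnergy_zero (LRep.triv L.bL))).1
        (mi_w0_Q L (p : ℂ)⁻¹ (mi_F2 K) h1) 0 y hy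
      rw [mi_w0_Ups K.toCar', mode_smul K.ade hp1, omegaV_eq, mode_omega K.ade hp1] at e1
      have e2 : ((0 : ℤ) - 1) = -1 := by norm_num
      rw [e2, LS_zero_neg_one] at e1
      have e3 := (MIR21.SN M Q0).smul_mem (-(p : ℂ)) e1
      rw [LinearMap.smul_apply, smul_smul, neg_mul_neg, mul_inv_cancel₀ hpc, one_smul] at e3
      exact e3
    · intro c hc s x hx
      obtain ⟨f, hf, rfl⟩ := ((vg_5 K.ade hp ε).wk c).1 hc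
      obtain ⟨u, hu, hQ, rfl⟩ := hKK f hf
      exact MIR21.mode_SN hp K ε M h0 h1 u hu hQ s x hx
  · rintro ⟨x, hx, hQ, rfl⟩
    exact (mi_MJ_Mn ε ν _).2 ⟨Ups M.c x, fun j => mi_Ups_MJ hp K.toCar' ε j (sr j)
      (K.simp j) (MIR21.form_F K j) hν M h0 x hx hQ, rfl⟩

export Internal (mi_Mn)

end main

end WPE
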