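import Pool.Agent.WPE.KG5
import Pool.Agent.WPE.MZF

/-! WPE, block MZ: the Lie algebra `V_Q(1)` is a simple Lie algebra `Chevalley A g`. -/

set_option linter.unusedSectionVars false

namespace WPE

open WPQ MvPolynomial

noncomputable section

variable {ι : Type} [Fintype ι] [DecidableEq ι] {A : Matrix ι ι ℤ}

/-- The Lie algebra `V_Q(1)`. -/
def chG (hA : IsADE A) (ε : Cocycle A 1) : Chevalley A (G1 hA ε) where
  form := G1.frm hA ε
  h := G1.ghi hA ε
  e := G1.ge hA ε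
  f := G1.gf hA ε
  symm := (kg_K2 hA ε).symm
  inv := (kg_K2 hA ε).inv
  span := by
    rw [eq_top_iff]
    intro x _
    rw [(kg_K5 hA ε).decomp x]
    refine add_mem (add_mem ?_ ?_) ?_
    · exact Submodule.sum_mem _ fun b _ => Submodule.smul_mem _ _
        (Submodule.subset_span (Or.inr (Or.inl ⟨b, rfl⟩)))
    · exact Submodule.sum_mem _ fun b _ => Submodule.smul_mem _ _
        (Submodule.subset_span (Or.inl ⟨b, rfl⟩))
    · exact Submodule.sum_mem _ fun b _ => Submodule.smul_mem _ _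
        (Submodule.subset_span (Or.inr (Or.inr ⟨b, rfl⟩)))
  h_h := (kg_K5 hA ε).comm_h
  h_e i γ := by
    show ⁅G1.gh hA ε (bb i), G1.ge hA ε γ⁆ = _
    rw [(kg_K5 hA ε).gh_e, (kg_K4 hA).form_bb_toC]
    rfl
  h_f i γ := by
    show ⁅G1.gh hA ε (bb i), G1.gf hA ε γ⁆ = _
    rw [(kg_K5 hA ε).gh_f, (kg_K4 hA).form_bb_toC]
    rfl
  hh i j := by
    show G1.frm hA ε (G1.gh hA ε (bb i)) (G1.gh hA ε (bb j)) = _
    rw [(kg_K1 hA ε).frm_gh_gh, (kg_K4 hA).form_bb]
  ef := (kg_K5 hA ε).ef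

/-- The simple Lie algebra exists. -/
theorem chevalley_exists (hA : IsADE A) : ∃ (g : Type) (_ : LieRing g) (_ : LieAlgebra ℂ g),
    Nonempty (Chevalley A g) := by
  obtain ⟨e⟩ := cocycle_exists A hA 1
  exact ⟨G1 hA e, inferInstance, inferInstance, ⟨chG hA e⟩⟩

end

end WPE
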