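import Pool.Agent.WPE.DKD
/-! [WPE-D52] The exceptional case l = 5, p = 2. -/

namespace WPE

open WPQ MvPolynomial AF

noncomputable section

private abbrev dA : Matrix (Fin 5) (Fin 5) ℤ := CartanMatrix.D 5

private theorem d52_Ej1 (hA : IsADE dA) (ε : Cocycle dA 2) (j : Fin 5) (γ : Fin 5 → ℤ)
    (f : Fock (Fin 5)) (hpr : pr dA j γ = -1) : ∃ s : ℂ, s ≠ 0 ∧
    Ej ε (Shift.zero dA 2) j (Finsupp.single γ f) =
      Finsupp.single (γ + rt j) (s • EN dA 2 j (-(((2 : ℕ) : ℤ) * ((1 : ℕ) : ℤ))) 1 f) := by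
  refine ⟨es ε j γ 1, es_ne_zero ε j γ 1, ?_⟩
  have h := Ej_pow_single hA ε (Shift.zero dA 2) j γ 1 f
  rw [pow_one, one_smul, hpr] at h
  rw [h]
  have e : (Shift.zero dA 2).κ j + ((2 : ℕ) : ℤ) * (-1) = -(((2 : ℕ) : ℤ) * ((1 : ℕ) : ℤ)) := by
    show (0 : ℤ) + _ = _
    norm_num
  rw [e]

private theorem d52_EN1 (hA : IsADE dA) (j : Fin 5) (f : Fock (Fin 5)) (d : ℕ) (hf : FH f d) :
    FH (EN dA 2 j (-(((2 : ℕ) : ℤ) * ((1 : ℕ) : ℤ))) 1 f) (d + 1) :=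
  EN_homog dA hA 2 j _ 1 f d (d + 1) hf (by push_cast; ring)

private theorem d52_EN2 (hA : IsADE dA) (ε : Cocycle dA 2) (j : Fin 5) (γ : Fin 5 → ℤ)
    (f : Fock (Fin 5)) (d : ℕ) (hf : FH f d) (hd : d ≤ 2)
    (hW : (Finsupp.single γ f : VL (Fin 5)) ∈ W dA 2) (hpr : pr dA j γ = -1) :
    EN dA 2 j (-(((2 : ℕ) : ℤ) * ((1 : ℕ) : ℤ))) (1 + 1) f = 0 := by
  rcases Nat.lt_or_ge d 2 with hd1 | hd2
  · have h1 := d52_EN1 hA j f d hf
    have h2 : EN dA 2 j (-(((2 : ℕ) : ℤ) * ((1 : ℕ) : ℤ))) (1 + 1) f =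
        vop dA 2 (bb j) (-1 - (-(((2 : ℕ) : ℤ) * ((1 : ℕ) : ℤ))) - 2 * ((2 : ℕ) : ℤ) * ((1 : ℕ) : ℤ))
          (EN dA 2 j (-(((2 : ℕ) : ℤ) * ((1 : ℕ) : ℤ))) 1 f) := rfl
    rw [h2]
    exact vop_eq_zero dA 2 _ _ _ (d + 1) h1 (by push_cast; omega)
  · have e : d = 2 := by omega
    subst e
    have h0 : FH (EN dA 2 j (-(((2 : ℕ) : ℤ) * ((1 : ℕ) : ℤ))) (1 + 1) f) 0 :=
      EN_homog dA hA 2 j _ (1 + 1) f 2 0 hf (by norm_num)
    have h := Ej_pow_single hA ε (Shift.zero dA 2) j γ (1 + 1) f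
    have e : (Shift.zero dA 2).κ j + ((2 : ℕ) : ℤ) * (-1) = -(((2 : ℕ) : ℤ) * ((1 : ℕ) : ℤ)) := by
      show (0 : ℤ) + _ = _
      norm_num
    rw [hpr, e] at h
    have hs := es_ne_zero ε j γ (1 + 1)
    have hc : EN dA 2 j (-(((2 : ℕ) : ℤ) * ((1 : ℕ) : ℤ))) (1 + 1) f =
        C (coeff 0 (EN dA 2 j (-(((2 : ℕ) : ℤ) * ((1 : ℕ) : ℤ))) (1 + 1) f)) := by
      ext m
      rw [coeff_C]
      split_ifs with hm
      · rw [hm]
      · by_contra hne
        have h3 := h0 hne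
        apply hm
        symm
        rw [Finsupp.weight_apply, Finsupp.sum] at h3
        ext x
        by_contra hx
        have h4 : x ∈ m.support := Finsupp.mem_support_iff.2 hx
        have h5 := (Finset.sum_eq_zero_iff.1 h3) x h4
        have h6 : m x ≠ 0 := hx
        have h7 : 1 ≤ wF x := Nat.le_add_left 1 x.2
        rw [smul_eq_mul, mul_eq_zero] at h5
        omega
    by_contra hne
    set a : ℂ := coeff 0 (EN dA 2 j (-(((2 : ℕ) : ℤ) * ((1 : ℕ) : ℤ))) (1 + 1) f) with ha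
    have ha0 : a ≠ 0 := by
      intro h1
      rw [h1, map_zero] at hc
      exact hne hc
    have hW2 : (Finsupp.single (γ + (1 + 1) • rt j) (1 : Fock (Fin 5)) : VL (Fin 5)) ∈ W dA 2 := by
      have h1 : (Ej ε (Shift.zero dA 2) j ^ (1 + 1)) (Finsupp.single γ f) ∈ W dA 2 := by
        rw [pow_succ, pow_one, Module.End.mul_apply]
        exact W_Ej hA le_rfl ε j _ (W_Ej hA le_rfl ε j _ hW)
      rw [h, hc] at h1
      have h2 := (W dA 2).smul_mem ((es ε j γ (1 + 1) * a)⁻¹) h1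
      rw [Finsupp.smul_single, smul_smul] at h2
      have h3 : ((es ε j γ (1 + 1) * a)⁻¹ * es ε j γ (1 + 1)) • (C a : Fock (Fin 5)) = 1 := by
        rw [smul_eq_C_mul, ← C_mul, mul_inv, ← C_1]
        congr 1
        field_simp
      rw [h3] at h2
      exact h2
    have h8 := (W_single_iff hA (by norm_num) _).1 hW2 j
    rw [vp1_pr_add, hpr, show (1 + 1 : ℕ) • rt j = rt j + rt j from two_smul ℕ _, vp1_pr_add, vp1_pr_rt, hA.diag] at h8
    omega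

private theorem d52_form (γ η : Fin 5 → ℤ) :
    formZ dA 2 γ η = 2 * ∑ i, ∑ j, γ i * dA i j * η j := by
  unfold formZ
  push_cast
  rfl

private def d52_th : Fin 5 → ℤ := ![1, 2, 2, 1, 1]

private def d52_mu : Fin 5 → ℤ := ![1, 2, 3, 2, 2]

private theorem d52_Wn (hA : IsADE dA) (γ : Fin 5 → ℤ) (n : ℤ) (h1 : ∀ j, pr dA j γ ≤ 0)
    (h2 : wtExp dA 2 γ = n) : (Finsupp.single γ 1 : VL (Fin 5)) ∈ Wn dA 2 n := by
  refine ⟨(W_single_iff hA (by norm_num) γ).2 h1, ?_⟩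
  refine single_mem_Vn γ 1 0 (isWeightedHomogeneous_one _ _) n ?_
  rw [h2]
  simp

private theorem d52_EWn (hA : IsADE dA) (ε : Cocycle dA 2) (j : Fin 5) (n : ℤ) (v : VL (Fin 5))
    (hv : v ∈ Wn dA 2 n) : Ej ε (Shift.zero dA 2) j v ∈ Wn dA 2 n :=
  ⟨W_Ej hA le_rfl ε j v hv.1, Ej_Vn hA ε j n v hv.2⟩

private theorem d52_Esupp (hA : IsADE dA) (ε : Cocycle dA 2) (j : Fin 5) (γ : Fin 5 → ℤ)
    (v : VL (Fin 5)) (hv : v ∈ Finsupp.supported (Fock (Fin 5)) ℂ {γ}) :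
    Ej ε (Shift.zero dA 2) j v ∈ Finsupp.supported (Fock (Fin 5)) ℂ {rt j + γ} := by
  rw [va3_Ej hA (by norm_num)]
  exact mode_charge hA (by norm_num) ε _ _ _ _ _
    (Finsupp.single_mem_supported ℂ _ (Set.mem_singleton _)) hv

private theorem d52_move (hA : IsADE dA) (ε : Cocycle dA 2) (τ : Shift dA 2)
    (hτ : τ.s = (2 : ℂ) • bg dA 2) (x : VL (Fin 5)) (j : Fin 5)
    (hx : Ej ε (Shift.zero dA 2) j x = 0) (u v : VL (Fin 5)) (k : ℤ) :
    beta ε τ x (mode ε (Ej ε (Shift.zero dA 2) j u) k v) =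
      -beta ε τ x (mode ε u k (Ej ε (Shift.zero dA 2) j v)) := by
  have h1 := Ej_mode hA (by norm_num : 1 ≤ 2) ε j u k
  have h2 := LinearMap.congr_fun h1 v
  rw [LinearMap.sub_apply, LinearMap.comp_apply, LinearMap.comp_apply] at h2
  rw [← h2, sub_eq_add_neg, beta_add_right]
  have h3 := beta_Ej hA (by norm_num : 1 ≤ 2) ε τ hτ j x (mode ε u k v)
  rw [hx] at h3
  have h4 : beta ε τ (0 : VL (Fin 5)) (mode ε u k v) = 0 := by
    have h5 := beta_smul_left ε τ 0 (0 : VL (Fin 5)) (mode ε u k v)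
    rw [zero_smul, zero_mul] at h5
    exact h5
  rw [h4] at h3
  have h6 : beta ε τ x (Ej ε (Shift.zero dA 2) j (mode ε u k v)) = 0 := neg_eq_zero.1 h3.symm
  rw [h6, zero_add, ← neg_one_smul ℂ, beta_smul_right]
  ring

private theorem d52_main (hA : IsADE dA) (h2 : st_DK2) (ε : Cocycle dA 2) (τ : Shift dA 2)
    (c : Nat.Partition (2 * 2) → ℂ) (x : VL (Fin 5)) (ν' : Fin 5 → ℤ) (hX : XD ε τ 22 c x ν')
    (hE : ∀ j, Ej ε (Shift.zero dA 2) j x = 0) (q : Fin 5) (hq : q = 3 ∨ q = 4) :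
    beta ε τ x (Finsupp.single (-d52_th + (-d52_mu + rt q + rt 2 + rt 1)) 1) = 0 := by
  -- the vectors
  have hθ : (Finsupp.single (-d52_th) 1 : VL (Fin 5)) ∈ Wn dA 2 9 :=
    d52_Wn hA _ _ (by decide) (by decide)
  have hμ : (Finsupp.single (-d52_mu) 1 : VL (Fin 5)) ∈ Wn dA 2 14 :=
    d52_Wn hA _ _ (by decide) (by decide)
  have sθ : (Finsupp.single (-d52_th) 1 : VL (Fin 5)) ∈
      Finsupp.supported (Fock (Fin 5)) ℂ {-d52_th} :=
    Finsupp.single_mem_supported ℂ _ (Set.mem_singleton _)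
  have sμ : (Finsupp.single (-d52_mu) 1 : VL (Fin 5)) ∈
      Finsupp.supported (Fock (Fin 5)) ℂ {-d52_mu} :=
    Finsupp.single_mem_supported ℂ _ (Set.mem_singleton _)
  have hK := h2 (Fin 5) dA hA 2 le_rfl ε τ 22 c x ν' hX 9 14
    (Ej ε (Shift.zero dA 2) q (Ej ε (Shift.zero dA 2) 2 (Ej ε (Shift.zero dA 2) 1
      (Finsupp.single (-d52_th) 1)))) (Finsupp.single (-d52_mu) 1)
    (rt q + (rt 2 + (rt 1 + -d52_th))) (-d52_mu)
    (by rcases hq with rfl | rfl <;> decide) (by decide)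
    (d52_EWn hA ε _ _ _ (d52_EWn hA ε _ _ _ (d52_EWn hA ε _ _ _ hθ)))
    (d52_Esupp hA ε _ _ _ (d52_Esupp hA ε _ _ _ (d52_Esupp hA ε _ _ _ sθ))) hμ sμ 0 (by norm_num)
  rw [d52_move hA ε τ hX.tau x q (hE q), d52_move hA ε τ hX.tau x 2 (hE 2),
    d52_move hA ε τ hX.tau x 1 (hE 1), neg_neg, neg_eq_zero] at hK
  -- the three brackets
  obtain ⟨s1, hs1, e1⟩ := d52_Ej1 hA ε q (-d52_mu) 1 (by rcases hq with rfl | rfl <;> decide)
  set f1 : Fock (Fin 5) := EN dA 2 q (-(((2 : ℕ) : ℤ) * ((1 : ℕ) : ℤ))) 1 1 with hf1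
  obtain ⟨s2, hs2, e2⟩ := d52_Ej1 hA ε 2 (-d52_mu + rt q) f1
    (by rcases hq with rfl | rfl <;> decide)
  set f2 : Fock (Fin 5) := EN dA 2 2 (-(((2 : ℕ) : ℤ) * ((1 : ℕ) : ℤ))) 1 f1 with hf2
  obtain ⟨s3, hs3, e3⟩ := d52_Ej1 hA ε 1 (-d52_mu + rt q + rt 2) f2
    (by rcases hq with rfl | rfl <;> decide)
  set f3 : Fock (Fin 5) := EN dA 2 1 (-(((2 : ℕ) : ℤ) * ((1 : ℕ) : ℤ))) 1 f2 with hf3
  have d0 : FH (1 : Fock (Fin 5)) 0 := isWeightedHomogeneous_one _ _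
  have d1 : FH f1 1 := d52_EN1 hA q 1 0 d0
  have d2 : FH f2 2 := d52_EN1 hA 2 f1 1 d1
  have d3 : FH f3 3 := d52_EN1 hA 1 f2 2 d2
  have smulW : ∀ (s : ℂ) (γ : Fin 5 → ℤ) (g : Fock (Fin 5)), s ≠ 0 →
      (Finsupp.single γ (s • g) : VL (Fin 5)) ∈ W dA 2 →
      (Finsupp.single γ g : VL (Fin 5)) ∈ W dA 2 := by
    intro s γ g hs h
    have h' := (W dA 2).smul_mem s⁻¹ h
    rw [Finsupp.smul_single, smul_smul, inv_mul_cancel₀ hs, one_smul] at h'
    exact h'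
  have w1 : (Finsupp.single (-d52_mu + rt q) f1 : VL (Fin 5)) ∈ W dA 2 := by
    refine smulW s1 _ _ hs1 ?_
    rw [← e1]
    exact W_Ej hA le_rfl ε q _ hμ.1
  have w2 : (Finsupp.single (-d52_mu + rt q + rt 2) f2 : VL (Fin 5)) ∈ W dA 2 := by
    refine smulW s2 _ _ hs2 ?_
    rw [← e2]
    exact W_Ej hA le_rfl ε 2 _ w1
  -- the value of `f3`
  have hev : ev (fun i => form dA 2 (bb i) (toC (-d52_th))) f3 ≠ 0 := by
    have hc : (fun i => form dA 2 (bb i) (toC (-d52_th))) =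
        ((fun i => ((![0, -2, 0, 0, 0] : Fin 5 → ℤ) i : ℂ)) : Fin 5 → ℂ) := by
      funext i
      have h5 : form dA 2 (bb i) (toC (-d52_th)) = ((formZ dA 2 (rt i) (-d52_th) : ℤ) : ℂ) := by
        unfold form formZ bb rt toC
        push_cast
        congr 1
        refine Finset.sum_congr rfl fun a _ => Finset.sum_congr rfl fun b _ => ?_
        rw [Pi.single_apply, Pi.single_apply]
        split_ifs <;> simp
      rw [h5]
      congr 1
      clear h5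
      revert i
      decide
    rw [hc, hf3, reflection hA (by norm_num) 1 1 (-d52_mu + rt q + rt 2)
      (by rcases hq with rfl | rfl <;> decide) f2 2 d2
      (d52_EN2 hA ε 1 _ f2 2 d2 le_rfl w2 (by rcases hq with rfl | rfl <;> decide))]
    have hc1 : (fun i => ((![0, -2, 0, 0, 0] : Fin 5 → ℤ) i : ℂ) -
        dA i 1 * (((![0, -2, 0, 0, 0] : Fin 5 → ℤ) 1 : ℂ) - (((2 : ℕ) : ℂ) - 1))) =
        ((fun i => ((![-3, 4, -3, 0, 0] : Fin 5 → ℤ) i : ℂ)) : Fin 5 → ℂ) := by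
      funext i
      have h5 : (![0, -2, 0, 0, 0] : Fin 5 → ℤ) i - dA i 1 * ((![0, -2, 0, 0, 0] : Fin 5 → ℤ) 1 -
        (2 - 1)) = (![-3, 4, -3, 0, 0] : Fin 5 → ℤ) i := by
        revert i
        decide
      rw [← h5]
      push_cast
      norm_num
    rw [hc1, hf2, reflection hA (by norm_num) 2 1 (-d52_mu + rt q)
      (by rcases hq with rfl | rfl <;> decide) f1 1 d1
      (d52_EN2 hA ε 2 _ f1 1 d1 (by norm_num) w1 (by rcases hq with rfl | rfl <;> decide))]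
    have hc2 : (fun i => ((![-3, 4, -3, 0, 0] : Fin 5 → ℤ) i : ℂ) -
        dA i 2 * (((![-3, 4, -3, 0, 0] : Fin 5 → ℤ) 2 : ℂ) - (((2 : ℕ) : ℂ) - 1))) =
        ((fun i => ((![-3, 0, 5, -4, -4] : Fin 5 → ℤ) i : ℂ)) : Fin 5 → ℂ) := by
      funext i
      have h5 : (![-3, 4, -3, 0, 0] : Fin 5 → ℤ) i - dA i 2 * ((![-3, 4, -3, 0, 0] : Fin 5 → ℤ) 2 -
        (2 - 1)) = (![-3, 0, 5, -4, -4] : Fin 5 → ℤ) i := by
        revert i
        decide
      rw [← h5]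
      push_cast
      norm_num
    rw [hc2, hf1, reflection hA (by norm_num) q 1 (-d52_mu)
      (by rcases hq with rfl | rfl <;> decide) 1 0 d0
      (d52_EN2 hA ε q _ 1 0 d0 (by norm_num) hμ.1 (by rcases hq with rfl | rfl <;> decide)),
      map_one, mul_one]
    refine mul_ne_zero (RC.MM_ne_zero 1 2 (by norm_num) _ (by decide))
      (mul_ne_zero (RC.MM_ne_zero 1 2 (by norm_num) _ (by decide))
      (RC.MM_ne_zero 1 2 (by norm_num) _ (by rcases hq with rfl | rfl <;> decide)))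
  have hvop : vop dA 2 (toC (-d52_th)) (-0 - 1 - formZ dA 2 (-d52_th)
      (-d52_mu + rt q + rt 2 + rt 1)) f3 =
      C (ev (fun i => form dA 2 (bb i) (toC (-d52_th))) f3) := by
    have e : (-0 - 1 - formZ dA 2 (-d52_th) (-d52_mu + rt q + rt 2 + rt 1) : ℤ) =
        -((3 : ℕ) : ℤ) := by
      rcases hq with rfl | rfl <;> decide
    rw [e]
    exact vop_top dA 2 _ f3 3 d3
  -- the conclusion
  rw [← Finsupp.smul_single] at e1 e2 e3
  simp only [e1, e2, e3, map_smul] at hK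
  rw [mode_single hA (by norm_num)] at hK
  have hexp : expMode ε (-d52_th) 0 (Finsupp.single (-d52_mu + rt q + rt 2 + rt 1) f3) =
      (((ε.ε (-d52_th) (-d52_mu + rt q + rt 2 + rt 1) : ℤ) : ℂ) *
        ev (fun i => form dA 2 (bb i) (toC (-d52_th))) f3) •
      (Finsupp.single (-d52_th + (-d52_mu + rt q + rt 2 + rt 1)) 1 : VL (Fin 5)) := by
    unfold expMode
    rw [Finsupp.lsum_single, LinearMap.comp_apply, LinearMap.smul_apply, hvop,
      Finsupp.lsingle_apply, mul_smul, Finsupp.smul_single, Finsupp.smul_single]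
    congr 1
    simp only [smul_eq_C_mul, mul_one]
  rw [hexp] at hK
  simp only [beta_smul_right] at hK
  have hε : ((ε.ε (-d52_th) (-d52_mu + rt q + rt 2 + rt 1) : ℤ) : ℂ) ≠ 0 := rf1_units _
  rcases mul_eq_zero.1 hK with h | hK
  · exact absurd h hs1
  rcases mul_eq_zero.1 hK with h | hK
  · exact absurd h hs2
  rcases mul_eq_zero.1 hK with h | hK
  · exact absurd h hs3
  rcases mul_eq_zero.1 hK with h | hK
  · exact absurd h (mul_ne_zero hε hev)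
  exact hK

theorem D52 (h2 : st_DK2) (hR : ∀ l p : ℕ, 4 ≤ l → st_DR l p) : st_D52 := by
  intro ε τ c x ν' hX hE ν hν
  have hA : IsADE dA := (hR 5 2 (by norm_num)).ade
  rcases hν with hν | hν
  · have h1 := d52_main hA h2 ε τ c x ν' hX hE 3 (Or.inl rfl)
    have h3 : ν = ![2, 3, 4, 2, 3] := by
      refine (hR 5 2 (by norm_num)).inj _ _ ?_
      rw [hν]
      decide
    have h4 : (-ν : Fin 5 → ℤ) = -d52_th + (-d52_mu + rt 3 + rt 2 + rt 1) := by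
      rw [h3]
      decide
    rw [h4]
    exact h1
  · have h1 := d52_main hA h2 ε τ c x ν' hX hE 4 (Or.inr rfl)
    have h3 : ν = ![2, 3, 4, 3, 2] := by
      refine (hR 5 2 (by norm_num)).inj _ _ ?_
      rw [hν]
      decide
    have h4 : (-ν : Fin 5 → ℤ) = -d52_th + (-d52_mu + rt 4 + rt 2 + rt 1) := by
      rw [h3]
      decide
    rw [h4]
    exact h1

end

end WPE
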