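import Pool.Agent.WPE.DSD

/-! [DA1] coordinates of the simple roots of D_l -/

set_option linter.unusedSectionVars false

namespace WPE

open WPQ MvPolynomial

noncomputable section

/-- a row of the matrix of orthonormal coordinates, last root -/
private theorem da1_last {l : ℕ} (hl : 4 ≤ l) (i : Fin l) (hi : (i : ℕ) + 1 = l) (F : Fin l → ℂ) :
    ∑ k, nD l i k * F k = F ⟨l - 2, by omega⟩ + F ⟨l - 1, by omega⟩ := by
  have h : ∀ k : Fin l, nD l i k * F k = (if k = ⟨l - 2, by omega⟩ then F k else 0) +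
      (if k = ⟨l - 1, by omega⟩ then F k else 0) := by
    intro k
    unfold nD
    rw [if_pos hi]
    simp only [Fin.ext_iff]
    have hk := k.2
    by_cases h1 : (k : ℕ) + 2 = l
    · rw [if_pos (Or.inl h1), if_pos (by omega), if_neg (by omega), one_mul, add_zero]
    · by_cases h2 : (k : ℕ) + 1 = l
      · rw [if_pos (Or.inr h2), if_neg (by omega), if_pos (by omega), one_mul, zero_add]
      · rw [if_neg (by omega), if_neg (by omega), if_neg (by omega), zero_mul, add_zero]
  rw [Finset.sum_congr rfl fun k _ => h k, Finset.sum_add_distrib]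
  simp

/-- a row of the matrix of orthonormal coordinates, the other roots -/
private theorem da1_other {l : ℕ} (i : Fin l) (hi : (i : ℕ) + 1 < l) (F : Fin l → ℂ) :
    ∑ k, nD l i k * F k = F i - F ⟨(i : ℕ) + 1, hi⟩ := by
  have h : ∀ k : Fin l, nD l i k * F k = (if k = i then F k else 0) -
      (if k = ⟨(i : ℕ) + 1, hi⟩ then F k else 0) := by
    intro k
    unfold nD
    rw [if_neg (by omega)]
    simp only [Fin.ext_iff]
    by_cases h1 : (k : ℕ) = i
    · rw [if_pos h1, if_pos h1, if_neg (by omega), one_mul, sub_zero]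
    · by_cases h2 : (k : ℕ) = (i : ℕ) + 1
      · rw [if_neg h1, if_pos h2, if_neg h1, if_pos h2]
        ring
      · rw [if_neg h1, if_neg h2, if_neg h1, if_neg h2, zero_mul, sub_zero]
  rw [Finset.sum_congr rfl fun k _ => h k, Finset.sum_sub_distrib]
  simp

/-- the product of the two matrices -/
private theorem da1_nm {l : ℕ} (hl : 4 ≤ l) (i i' : Fin l) :
    ∑ k, nD l i k * mD l k i' = if i = i' then 1 else 0 := by
  have hi := i.2
  have hi' := i'.2
  by_cases h1 : (i : ℕ) + 1 = l
  · rw [da1_last hl i h1]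
    unfold mD
    simp only [Fin.ext_iff]
    split_ifs <;> first | (exfalso; omega) | norm_num
  · rw [da1_other i (by omega)]
    unfold mD
    simp only [Fin.ext_iff]
    split_ifs <;> first | (exfalso; omega) | norm_num

/-- the other product -/
private theorem da1_mn {l : ℕ} (hl : 4 ≤ l) (k k' : Fin l) :
    ∑ i, mD l k i * nD l i k' = if k = k' then 1 else 0 := by
  have h1 : (Matrix.of (nD l)) * (Matrix.of (mD l)) = 1 := by
    ext i i'
    rw [Matrix.mul_apply, Matrix.one_apply]
    exact da1_nm hl i i'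
  have h2 := mul_eq_one_comm.1 h1
  have h3 := congrFun (congrFun h2 k) k'
  rw [Matrix.mul_apply, Matrix.one_apply] at h3
  exact h3

/-- the Gram matrix -/
private theorem da1_gram {l : ℕ} (hl : 4 ≤ l) (i j : Fin l) :
    ((CartanMatrix.D l i j : ℤ) : ℂ) = ∑ k, nD l i k * nD l j k := by
  have hi := i.2
  have hj := j.2
  by_cases h1 : (i : ℕ) + 1 = l
  · rw [da1_last hl i h1]
    unfold nD CartanMatrix.D
    rw [Matrix.of_apply]
    simp only [Fin.ext_iff]
    split_ifs <;> first | (exfalso; omega) | norm_num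
  · rw [da1_other i (by omega)]
    unfold nD CartanMatrix.D
    rw [Matrix.of_apply]
    simp only [Fin.ext_iff]
    split_ifs <;> first | (exfalso; omega) | norm_num

/-- the matrix of the `e_k` times the Gram matrix -/
private theorem da1_ma {l : ℕ} (hl : 4 ≤ l) (k j : Fin l) :
    ∑ i, mD l k i * ((CartanMatrix.D l i j : ℤ) : ℂ) = nD l j k := by
  have h : ∀ i : Fin l, mD l k i * ((CartanMatrix.D l i j : ℤ) : ℂ) =
      ∑ k', mD l k i * nD l i k' * nD l j k' := by
    intro i
    rw [da1_gram hl, Finset.mul_sum]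
    exact Finset.sum_congr rfl fun k' _ => by ring
  rw [Finset.sum_congr rfl fun i _ => h i, Finset.sum_comm]
  simp only [← Finset.sum_mul, da1_mn hl]
  simp

/-- the values of the diagram automorphism -/
private theorem da1_sg {l : ℕ} (hl : 4 ≤ l) (i : Fin l) : ((sgD l i : Fin l) : ℕ) =
    if (i : ℕ) + 1 = l then l - 2 else if (i : ℕ) + 2 = l then l - 1 else i := by
  unfold sgD
  rw [dif_pos (by omega), Equiv.swap_apply_def]
  simp only [Fin.ext_iff]
  have hi := i.2
  by_cases h1 : (i : ℕ) + 1 = l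
  · rw [if_neg (by omega), if_pos (by omega), if_pos h1]
  · by_cases h2 : (i : ℕ) + 2 = l
    · rw [if_pos (by omega), if_neg h1, if_pos h2]
    · rw [if_neg (by omega), if_neg (by omega), if_neg h1, if_neg h2]

/-- the diagram automorphism is an involution -/
private theorem da1_invo {l : ℕ} (hl : 4 ≤ l) (i : Fin l) : sgD l (sgD l i) = i := by
  rw [Fin.ext_iff, da1_sg hl, da1_sg hl]
  have hi := i.2
  by_cases h1 : (i : ℕ) + 1 = l
  · rw [if_pos h1, if_neg (by omega), if_pos (by omega)]
    omega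
  · rw [if_neg h1]
    by_cases h2 : (i : ℕ) + 2 = l
    · rw [if_pos h2, if_pos (by omega)]
      omega
    · rw [if_neg h2, if_neg h1, if_neg h2]

/-- the diagram automorphism and the Gram matrix, in terms of natural numbers -/
private theorem da1_D {l : ℕ} (hl : 4 ≤ l) (i j i' j' : Fin l)
    (hi : ((i' : ℕ) = i ∧ (i : ℕ) + 2 < l) ∨ ((i : ℕ) + 1 = l ∧ (i' : ℕ) + 2 = l) ∨
      ((i : ℕ) + 2 = l ∧ (i' : ℕ) + 1 = l))
    (hj : ((j' : ℕ) = j ∧ (j : ℕ) + 2 < l) ∨ ((j : ℕ) + 1 = l ∧ (j' : ℕ) + 2 = l) ∨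
      ((j : ℕ) + 2 = l ∧ (j' : ℕ) + 1 = l)) :
    CartanMatrix.D l i' j' = CartanMatrix.D l i j := by
  have h1 := i.2
  have h2 := j.2
  unfold CartanMatrix.D
  rw [Matrix.of_apply, Matrix.of_apply]
  simp only [Fin.ext_iff]
  split_ifs <;> first | rfl | omega

/-- values in the form of `da1_D` -/
private theorem da1_sg' {l : ℕ} (hl : 4 ≤ l) (i : Fin l) :
    (((sgD l i : Fin l) : ℕ) = i ∧ (i : ℕ) + 2 < l) ∨
      ((i : ℕ) + 1 = l ∧ ((sgD l i : Fin l) : ℕ) + 2 = l) ∨
      ((i : ℕ) + 2 = l ∧ ((sgD l i : Fin l) : ℕ) + 1 = l) := by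
  rw [da1_sg hl]
  have hi := i.2
  split_ifs <;> omega

/-- the diagram automorphism on the coefficients -/
private theorem da1_msg {l : ℕ} (hl : 4 ≤ l) (k i : Fin l) :
    mD l k (sgD l i) = if (k : ℕ) + 1 = l then -mD l k i else mD l k i := by
  unfold mD
  have hk := k.2
  have hi := i.2
  have h := da1_sg' hl i
  split_ifs <;> first | (exfalso; omega) | norm_num

theorem DA1 (l : ℕ) (hl : 4 ≤ l) : st_DA1 l where
  gram := da1_gram hl
  mn := da1_mn hl
  nm := da1_nm hl
  x := by
    intro i
    have h : ∀ k : Fin l, C (nD l i k) * eD l k =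
        ∑ i', C (nD l i k * mD l k i') * (X i' : MvPolynomial (Fin l) ℂ) := by
      intro k
      unfold eD
      rw [Finset.mul_sum]
      exact Finset.sum_congr rfl fun i' _ => by rw [C_mul, mul_assoc]
    rw [Finset.sum_congr rfl fun k _ => h k, Finset.sum_comm]
    simp only [← Finset.sum_mul, ← map_sum, da1_nm hl]
    simp
  mam := by
    intro k k'
    have h : ∀ i : Fin l, ∑ j, mD l k i * ((CartanMatrix.D l i j : ℤ) : ℂ) * mD l k' j =
        mD l k i * nD l i k' := by
      intro i
      rw [← da1_ma hl k' i, Finset.mul_sum]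
      refine Finset.sum_congr rfl fun j _ => ?_
      have hs : CartanMatrix.D l i j = CartanMatrix.D l j i :=
        (CartanMatrix.D_isSymm l).apply j i
      rw [hs]
      ring
    rw [Finset.sum_congr rfl fun i _ => h i, da1_mn hl]
  rf := by
    intro j k
    have h : rfS (CartanMatrix.D l) j (eD l k) =
        ∑ i, (C (mD l k i) * (X i : MvPolynomial (Fin l) ℂ) -
          C (mD l k i * ((CartanMatrix.D l i j : ℤ) : ℂ)) * X j) := by
      unfold eD
      rw [map_sum]
      refine Finset.sum_congr rfl fun i _ => ?_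
      unfold rfS
      rw [map_mul, aeval_X, ← algebraMap_eq, AlgHom.commutes, algebraMap_eq, C_mul]
      ring
    rw [h, Finset.sum_sub_distrib, ← Finset.sum_mul, ← map_sum, da1_ma hl]
    rfl
  th := by
    intro k
    have h : rename (sgD l) (eD l k) =
        ∑ i, C (mD l k (sgD l i)) * (X i : MvPolynomial (Fin l) ℂ) := by
      unfold eD
      rw [map_sum, ← Equiv.sum_comp (sgD l)
        (fun i => C (mD l k (sgD l i)) * (X i : MvPolynomial (Fin l) ℂ))]
      refine Finset.sum_congr rfl fun i _ => ?_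
      rw [map_mul, rename_C, rename_X, da1_invo hl]
    rw [h]
    unfold eD
    split_ifs with hk
    · rw [← Finset.sum_neg_distrib]
      refine Finset.sum_congr rfl fun i _ => ?_
      rw [da1_msg hl, if_pos hk, C_neg, neg_mul]
    · refine Finset.sum_congr rfl fun i _ => ?_
      rw [da1_msg hl, if_neg hk]
  sg := fun i j => da1_D hl i j _ _ (da1_sg' hl i) (da1_sg' hl j)
  invo := da1_invo hl

end

end WPE
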