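import Pool.Agent.WPE.DKD

/-! [WPE-DE3] `Wn n = Prim + I` below `h + 4`. -/

namespace WPE

open WPQ MvPolynomial AF

noncomputable section

theorem DE3 (h : st_TL7b) : st_DE3 := by
  intro ι _ _ A hA p hp w hc hw hsq
  obtain ⟨t, -, -, -, main⟩ := h ι A hA p hp w hc hw hsq
  have key : ∀ n : ℤ, (n : ℚ) < 3 * w / 4 + 4 → ∀ v ∈ pv4_Prim A p n,
      (∃ a ∈ Wn A p (n - 1), ∃ b ∈ Wn A p (n - 2),
        v = LS (Shift.zero A p) (-1) a + LS (Shift.zero A p) (-2) b) → v = 0 := by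
    intro n hn v hv hI
    by_contra h0
    obtain ⟨r, h', -, -, hr, -, -, h1, h2, -, -, -⟩ := main n v hv hI h0
    have h3 : (2 : ℚ) ≤ r := by exact_mod_cast hr
    have h4 : (4 : ℚ) ≤ (r : ℚ) ^ 2 := by nlinarith
    have h5 : (n : ℚ) = (h' : ℚ) + (r : ℚ) * r := by
      rw [h2]
      push_cast
      ring
    have h6 : 3 * w / 4 ≤ (h' : ℚ) := by
      rw [h1]
      nlinarith
    nlinarith
  refine ⟨fun n hn v hv => ?_, fun n hn v hv hI => ?_⟩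
  · obtain ⟨x, hx, y, hy, z, hz, h1, h2, rfl⟩ := Wn_decomp hA hp n
      (fun x hx h1 h2 y hy z hz he =>
        key n hn x ((pv4_mem _ _).2 ⟨hx, h1, h2⟩) ⟨y, hy, z, hz, he⟩) v hv
    rw [add_assoc]
    refine Submodule.add_mem_sup ((pv4_mem _ _).2 ⟨hx, h1, h2⟩) ?_
    exact Submodule.add_mem_sup (Submodule.mem_map_of_mem hy) (Submodule.mem_map_of_mem hz)
  · unfold IIn at hI
    obtain ⟨a', ha', b', hb', rfl⟩ := Submodule.mem_sup.1 hI
    obtain ⟨a, ha, rfl⟩ := Submodule.mem_map.1 ha'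
    obtain ⟨b, hb, rfl⟩ := Submodule.mem_map.1 hb'
    exact key n hn _ hv ⟨a, ha, b, hb, rfl⟩

end

end WPE
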