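import Pool.Agent.WPE.DSD
import Pool.Agent.WPE.VGM

/-! [DS6] the symbol of a vector of V^G is invariant -/

set_option linter.unusedSectionVars false

namespace WPE

open WPQ MvPolynomial

noncomputable section

variable {ι : Type} [Fintype ι] [DecidableEq ι] {A : Matrix ι ι ℤ} {p : ℕ}

/-- The symbol is invariant under the simple reflections. -/
theorem ds6_inv (hA : IsADE A) (hp : 1 ≤ p) (h5 : st_DS5 ι) (m : ℕ) (f : Fock ι)
    (hf : f ∈ KH A p m) (j : ι) : rfS A j (syF ι f) = syF ι f := by
  have hfK : f ∈ KK A p := hf.1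
  have hfm : FH f m := hf.2
  have hc := h5.hc f m hfm
  by_cases h0 : homogeneousComponent m f = 0
  · rw [h0] at hc
    have h1 : syF ι f = 0 := by
      rw [← h5.inc (syF ι f), hc, map_zero]
    rw [h1, map_zero]
  · have h1 : m ≤ f.totalDegree := by
      by_contra hlt
      exact h0 (homogeneousComponent_eq_zero m f (not_le.1 hlt))
    have h2 : f.totalDegree ≤ m := by
      by_contra hlt
      have h3 := h5.dl f m hfm f.totalDegree (by omega)
      have h4 : f ≠ 0 := by
        intro h
        rw [h, map_zero] at h0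
        exact h0 rfl
      have h6 : f.support.Nonempty := by
        rwa [Finset.nonempty_iff_ne_empty, Ne, support_eq_empty]
      obtain ⟨d, hd, hd2⟩ := Finset.exists_mem_eq_sup f.support h6 fun s => s.sum fun _ e => e
      have h7 : coeff d (homogeneousComponent f.totalDegree f) = coeff d f := by
        rw [coeff_homogeneousComponent, if_pos]
        rw [totalDegree, hd2]
        rfl
      rw [h3, coeff_zero] at h7
      exact (mem_support_iff.1 hd) h7.symm
    have h3 : f.totalDegree = m := le_antisymm h2 h1
    have h4 := vg_rank hA hp j f m hfm (hfK.2 j)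
    rw [h3, ← hc] at h4
    exact (HA6 ι).of_BJ A hA j _ h4

theorem DS6 (hA : IsADE A) (hp : 1 ≤ p) (σ : Equiv.Perm ι) (h1 : st_DS1 A p σ) (h5 : st_DS5 ι) :
    st_DS6 A p σ where
  inv := ds6_inv hA hp h5
  even := by
    intro m f hf
    have hf1 : f ∈ KH A p m := hf.1
    have hf2 : thF σ f = f := by
      have h := LinearMap.mem_ker.1 hf.2
      rw [LinearMap.sub_apply, LinearMap.id_apply, sub_eq_zero] at h
      exact h
    refine ⟨⟨h5.hom f m hf1.2, ?_⟩, ?_⟩
    · rw [SetLike.mem_coe, Submodule.mem_iInf]
      intro j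
      rw [LinearMap.mem_ker, LinearMap.sub_apply, LinearMap.id_apply, sub_eq_zero]
      exact ds6_inv hA hp h5 m f hf1 j
    · rw [SetLike.mem_coe, LinearMap.mem_ker, LinearMap.sub_apply, LinearMap.id_apply, sub_eq_zero]
      have h := h1.sy f
      rw [hf2] at h
      exact h.symm

end

end WPE
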