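import Pool.Agent.WPE.VGM
import Pool.Agent.WPQ.TLD

/-! [WPE-VGC1] `Wk(n) ≤ Gen(n) + L(-1) V(n-1)` for `n` larger than the weights of the generators. -/

namespace WPE

open WPQ MvPolynomial

noncomputable section

variable {ι : Type} [Fintype ι] [DecidableEq ι] {A : Matrix ι ι ℤ} {p : ℕ}

/-- A linear combination of words of weight `n` is one of words of weight `n`. -/
theorem vgc1_wt (hA : IsADE A) (hp : 2 ≤ p) (ε : Cocycle A p) (w : ι → Fock ι)
    (P : ι → MvPolynomial ι ℂ) (d : ι → ℕ) (hG : Gens A p w P d) (f : Fock ι) (n : ℕ)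
    (hf : FH f n) (hs : f ∈ Submodule.span ℂ {g | ∃ L, g = wo ε w L}) :
    f ∈ Submodule.span ℂ {g | ∃ L, wtL d L = n ∧ g = wo ε w L} := by
  have key : Submodule.span ℂ {g | ∃ L, g = wo ε w L} ≤
      (Submodule.span ℂ {g | ∃ L, wtL d L = n ∧ g = wo ε w L}).comap
        (weightedHomogeneousComponent (wF (ι := ι)) n) := by
    rw [Submodule.span_le]
    rintro _ ⟨L, rfl⟩
    rw [SetLike.mem_coe, Submodule.mem_comap]
    have hL := (vg_7 hA hp ε).wt w P d hG L
    by_cases h : wtL d L = n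
    · rw [h] at hL
      rw [weightedHomogeneousComponent_eq_self hL]
      exact Submodule.subset_span ⟨L, h, rfl⟩
    · rw [hL.weightedHomogeneousComponent_ne n (Ne.symm h)]
      exact Submodule.zero_mem _
  have h1 := key hs
  rw [Submodule.mem_comap, weightedHomogeneousComponent_eq_self hf] at h1
  exact h1

/-- The generators as elements of `Wn`. -/
theorem vgc1_gen (hA : IsADE A) (hp : 2 ≤ p) (ε : Cocycle A p) (f : Fock ι) (n : ℕ) (hf : FH f n)
    (hK : f ∈ KK A p) : Finsupp.single 0 f ∈ Wn A p n :=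
  ⟨(((vg_5 hA hp ε).wk _).2 ⟨f, hK, rfl⟩).1, single_mem_Vn 0 f n hf n (by rw [pv2_wt0, add_zero])⟩

omit [Fintype ι] [DecidableEq ι] in
/-- A word of weight `0` is empty. -/
theorem vgc1_nil (d : ι → ℕ) (hd : ∀ i, 1 ≤ d i) (L : List (ι × ℕ)) (h : wtL d L = 0) : L = [] := by
  cases L with
  | nil => rfl
  | cons x L =>
    unfold wtL at h
    rw [List.map_cons, List.sum_cons] at h
    have := hd x.1
    omega

theorem vgc_gen (hp : 2 ≤ p) (ε : Cocycle A p) (w : ι → Fock ι) (P : ι → MvPolynomial ι ℂ)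
    (d : ι → ℕ) (c : ℂ) (hG : Gens A p w P d) (hI : Inv A P d c) (D : ℤ) (h0 : 0 ≤ D)
    (hD : ∀ i, (d i : ℤ) ≤ D) : WkGen ε D := by
  have hA : IsADE A := hI.ade
  have hp1 : 1 ≤ p := by omega
  intro n hn v hv
  obtain ⟨hvk, hvn⟩ := hv
  obtain ⟨f, hfK, rfl⟩ := ((vg_5 hA hp ε).wk _).1 hvk
  rcases Vn_comp n _ hvn 0 with hz | ⟨e, he, hen⟩
  · rw [Finsupp.single_eq_same] at hz
    rw [hz, Finsupp.single_zero]
    exact Submodule.zero_mem _
  rw [Finsupp.single_eq_same] at he
  rw [pv2_wt0, add_zero] at hen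
  have hs := vgc1_wt hA hp ε w P d hG f e he (vg_span hp ε w P d c hG hI f hfK)
  have key : Submodule.span ℂ {g | ∃ L, wtL d L = e ∧ g = wo ε w L} ≤
      (Gen ε n ⊔ (Wn A p (n - 1)).map (LS (Shift.zero A p) (-1))).comap (Finsupp.lsingle 0) := by
    rw [Submodule.span_le]
    rintro _ ⟨L, hL, rfl⟩
    rw [SetLike.mem_coe, Submodule.mem_comap, Finsupp.lsingle_apply]
    cases L with
    | nil =>
      exfalso
      have h1 : wtL d ([] : List (ι × ℕ)) = 0 := rfl
      rw [h1] at hL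
      omega
    | cons x L =>
      have hw1 : wtL d (x :: L) = d x.1 + x.2 + wtL d L := by
        unfold wtL
        rw [List.map_cons, List.sum_cons]
      rw [hw1] at hL
      have e1 : Finsupp.single 0 (wo ε w (x :: L)) =
          mode ε (Finsupp.single 0 (w x.1)) (-1 - (x.2 : ℤ)) (Finsupp.single 0 (wo ε w L)) :=
        ((vg_2 hA hp1 ε).single (w x.1) (wo ε w L) (-1 - (x.2 : ℤ))).symm
      have hu : Finsupp.single 0 (w x.1) ∈ Wn A p (d x.1) :=
        vgc1_gen hA hp ε (w x.1) (d x.1) (hG.wt x.1) (hG.mem x.1)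
      have hL' : Finsupp.single 0 (wo ε w L) ∈ Wn A p (wtL d L) :=
        vgc1_gen hA hp ε _ _ ((vg_7 hA hp ε).wt w P d hG L) ((vg_7 hA hp ε).mem w P d hG L)
      have hd1 := hG.dpos x.1
      rw [e1]
      by_cases hj : wtL d L = 0
      · -- `L` is empty
        have hLn := vgc1_nil d hG.dpos L hj
        have hDx := hD x.1
        refine Submodule.mem_sup_right ?_
        have ev : (Finsupp.single 0 (wo ε w L) : VL ι) = vac := by
          rw [hLn]
          rfl
        rw [ev] at hL' ⊢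
        rw [hj] at hL'
        have ht := LinearMap.congr_fun ((mode_spec hA hp1 ε (Finsupp.single 0 (w x.1))).translation
          (-(x.2 : ℤ))) (vac : VL ι)
        rw [LinearMap.sub_apply, LinearMap.comp_apply, LinearMap.comp_apply,
          ← LS_zero_neg_one (A := A) (p := p), LS_vac (-1) le_rfl, map_zero, sub_zero,
          LinearMap.smul_apply, show -(x.2 : ℤ) - 1 = -1 - (x.2 : ℤ) by ring] at ht
        have hk0 : (-((-(x.2 : ℤ) : ℤ) : ℂ)) ≠ 0 := by
          have hx2 : x.2 ≠ 0 := by omega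
          push_cast
          rw [neg_neg]
          exact_mod_cast hx2
        have hm1 := mode_Wn hA hp ε (d x.1) 0 (-(x.2 : ℤ)) _ _ hu hL'
        refine Submodule.mem_map.2 ⟨(-((-(x.2 : ℤ) : ℤ) : ℂ))⁻¹ •
          mode ε (Finsupp.single 0 (w x.1)) (-(x.2 : ℤ)) vac, Submodule.smul_mem _ _ ?_, ?_⟩
        · have e2 : (d x.1 : ℤ) + 0 - -(x.2 : ℤ) - 1 = n - 1 := by omega
          rwa [e2] at hm1
        · rw [map_smul, ht, smul_smul, inv_mul_cancel₀ hk0, one_smul]
      · refine Submodule.mem_sup_left (Submodule.subset_span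
          ⟨d x.1, wtL d L, -1 - (x.2 : ℤ), _, _, by omega, by omega, by omega, by omega, hu, hL', rfl⟩)
  exact key hs

end

end WPE
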