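import Pool.Agent.WPE.VGM
import Pool.Agent.WPQ.END

/-! [WPE-VGC3] Small weights for degrees `2, 6, ...`: `V(n)`, `n ≤ 5`, is spanned by Virasoro words,
`V(6)` is not. -/

namespace WPE

open WPQ MvPolynomial

noncomputable section

variable {ι : Type} [Fintype ι] [DecidableEq ι] {A : Matrix ι ι ℤ} {p : ℕ}

/-- Homogeneous vectors of `V^G` are combinations of words of the same weight. -/
private theorem vgc3_span (hp : 2 ≤ p) (ε : Cocycle A p) (w : ι → Fock ι) (P : ι → MvPolynomial ι ℂ)
    (d : ι → ℕ) (c : ℂ) (hG : Gens A p w P d) (hI : Inv A P d c) (f : Fock ι) (n : ℕ)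
    (hf : f ∈ KK A p) (hn : FH f n) :
    f ∈ Submodule.span ℂ {g | ∃ L, wtL d L = n ∧ g = wo ε w L} := by
  have h1 := vg_span hp ε w P d c hG hI f hf
  have h2 : weightedHomogeneousComponent (wF (ι := ι)) n f = f :=
    IsWeightedHomogeneous.weightedHomogeneousComponent_same hn
  rw [← h2]
  clear h2 hn hf
  induction h1 using Submodule.span_induction with
  | mem x hx =>
    obtain ⟨L, rfl⟩ := hx
    have h3 := (vg_7 hI.ade hp ε).wt w P d hG L
    by_cases h : wtL d L = n
    · rw [h] at h3
      rw [IsWeightedHomogeneous.weightedHomogeneousComponent_same h3]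
      exact Submodule.subset_span ⟨L, h, rfl⟩
    · rw [IsWeightedHomogeneous.weightedHomogeneousComponent_ne _ h3 (Ne.symm h)]
      exact zero_mem _
  | zero => rw [map_zero]; exact zero_mem _
  | add x y _ _ hx hy => rw [map_add]; exact add_mem hx hy
  | smul a x _ hx => rw [map_smul]; exact Submodule.smul_mem _ _ hx

omit [Fintype ι] [DecidableEq ι] in
/-- The letters of a word of weight `≤ 5` are all `i0`. -/
private theorem vgc3_low (d : ι → ℕ) (i0 : ι) (hd : ∀ i, i ≠ i0 → 6 ≤ d i)
    (L : List (ι × ℕ)) (hL : wtL d L ≤ 5) : ∀ x ∈ L, x.1 = i0 := by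
  intro x hx
  by_contra hne
  have h1 : d x.1 + x.2 ≤ wtL d L := by
    unfold wtL
    exact List.single_le_sum (by simp) _ (List.mem_map.2 ⟨x, hx, rfl⟩)
  have h2 := hd x.1 hne
  omega

/-- The vector `ω` is `a w_{i0}`. -/
private theorem vgc3_omega (hp : 2 ≤ p) (ε : Cocycle A p) (w : ι → Fock ι)
    (P : ι → MvPolynomial ι ℂ)
    (d : ι → ℕ) (c : ℂ) (hG : Gens A p w P d) (hI : Inv A P d c) (i0 : ι) (h0 : d i0 = 2)
    (hd : ∀ i, i ≠ i0 → 6 ≤ d i) (hlow : ∀ n : ℤ, n ≤ 5 → Wn A p n ≤ Wk ε) :
    ∃ a : ℂ, a ≠ 0 ∧ omega A p = a • (Finsupp.single 0 (w i0) : VL ι) := by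
  have hp1 : 1 ≤ p := by omega
  have hV : omega A p ∈ Vn A p 2 := by
    unfold omega
    have h := LS_Vn (A := A) (p := p) (-2) 0 vac fi2_vac
    rw [show (0 : ℤ) - -2 = 2 by norm_num] at h
    exact h
  have hW : omega A p ∈ Wn A p 2 := by
    refine ⟨?_, hV⟩
    rw [← omegaV_eq]
    exact omegaV_mem hI.ade hp
  obtain ⟨g, hg, hge⟩ := ((vg_5 hI.ade hp ε).wk _).1 (hlow 2 (by norm_num) hW)
  -- `ω ≠ 0`
  have hne : omega A p ≠ 0 := by
    intro h
    have h1 := mode_omega hI.ade hp1 ε 1
    rw [h] at h1
    have h2 : mode ε (0 : VL ι) 1 = 0 := by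
      have := mode_smul hI.ade hp1 ε 0 (0 : VL ι) 1
      rwa [zero_smul, zero_smul] at this
    rw [h2] at h1
    have h3 : (Finsupp.single 0 (X (i0, 0)) : VL ι) ∈ Vn A p 1 := by
      refine single_mem_Vn 0 _ 1 ?_ 1 ?_
      · exact isWeightedHomogeneous_X _ _ _
      · simp [wtExp, formZ]
    have h4 := LS_zero_Vn hI.ade hp1 1 _ h3
    rw [show (1 : ℤ) - 1 = 0 by norm_num] at h1
    rw [← h1, LinearMap.zero_apply, Int.cast_one, one_smul] at h4
    exact X_ne_zero (R := ℂ) (i0, 0) (Finsupp.single_eq_zero.1 h4.symm)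
  have hgH : FH g 2 := by
    rcases Vn_comp 2 _ hV 0 with h | ⟨e, he, hee⟩
    · rw [hge, Finsupp.single_eq_same] at h
      exfalso
      apply hne
      rw [hge, h, Finsupp.single_zero]
    · rw [hge, Finsupp.single_eq_same] at he
      have h5 : wtExp A p (0 : ι → ℤ) = 0 := by simp [wtExp, formZ]
      rw [h5] at hee
      have : e = 2 := by omega
      rwa [this] at he
  have h6 := vgc3_span hp ε w P d c hG hI g 2 hg hgH
  have h7 : {g | ∃ L, wtL d L = 2 ∧ g = wo ε w L} ⊆ {w i0} := by
    rintro _ ⟨L, hL, rfl⟩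
    have h8 := vgc3_low d i0 hd L (by omega)
    have h9 : L = [(i0, 0)] := by
      match L, hL, h8 with
      | [], hL, _ => simp [wtL] at hL
      | [x], hL, h8 =>
        have hx := h8 x (by simp)
        simp only [wtL, List.map_cons, List.map_nil, List.sum_cons, List.sum_nil, hx, h0] at hL
        have hx2 : x.2 = 0 := by omega
        rw [← hx, ← hx2]
      | x :: y :: L, hL, h8 =>
        have hx := h8 x (by simp)
        have hy := h8 y (by simp)
        simp only [wtL, List.map_cons, List.sum_cons, hx, hy, h0] at hL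
        omega
    rw [h9, Set.mem_singleton_iff]
    change md ε (w i0) (-1 - ((0 : ℕ) : ℤ)) 1 = w i0
    have h10 := (vg_2 hI.ade hp1 ε).single (w i0) 1 (-1 - ((0 : ℕ) : ℤ))
    have h11 := mode_neg_one_vac hI.ade hp1 ε (Finsupp.single 0 (w i0))
    unfold vac at h11
    rw [show (-1 - ((0 : ℕ) : ℤ)) = -1 by norm_num] at h10 ⊢
    rw [h11] at h10
    exact (Finsupp.single_injective _ h10).symm
  have h8 := Submodule.span_mono h7 h6
  obtain ⟨a, ha⟩ := Submodule.mem_span_singleton.1 h8
  refine ⟨a, ?_, ?_⟩
  · rintro rfl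
    rw [zero_smul] at ha
    apply hne
    rw [hge, ← ha, Finsupp.single_zero]
  · rw [hge, ← ha, Finsupp.smul_single]

/-- The words in the modes of `w_{i0}` are multiples of the Virasoro words. -/
private theorem vgc3_wd (hA : IsADE A) (hp : 1 ≤ p) (ε : Cocycle A p) (w : ι → Fock ι) (i0 : ι)
    (a : ℂ) (ha : omega A p = a • (Finsupp.single 0 (w i0) : VL ι)) (l : List ℕ)
    (hl : ∀ x ∈ l, 2 ≤ x) :
    KV.wd (LS (Shift.zero A p)) l vac =
      a ^ l.length • (Finsupp.single 0 (wo ε w (l.map fun x => (i0, x - 2))) : VL ι) := by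
  induction l with
  | nil =>
    simp only [List.length_nil, pow_zero, one_smul, List.map_nil]
    rfl
  | cons x l ih =>
    have hx : 2 ≤ x := hl x (by simp)
    have h1 := ih fun y hy => hl y (by simp [hy])
    change LS (Shift.zero A p) (-(x : ℤ)) (KV.wd (LS (Shift.zero A p)) l vac) = _
    rw [h1, map_smul]
    have h2 := mode_omega hA hp ε (1 - (x : ℤ))
    rw [show (1 - (x : ℤ)) - 1 = -(x : ℤ) by ring, ha, mode_smul hA hp] at h2
    rw [← h2, LinearMap.smul_apply, (vg_2 hA hp ε).single]
    rw [List.length_cons, pow_succ, mul_smul, List.map_cons]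
    have h3 : (1 - (x : ℤ)) = -1 - ((x - 2 : ℕ) : ℤ) := by omega
    rw [h3]
    rfl

theorem vgc_vir (hp : 2 ≤ p) (ε : Cocycle A p) (w : ι → Fock ι) (P : ι → MvPolynomial ι ℂ)
    (d : ι → ℕ) (c : ℂ) (hG : Gens A p w P d) (hI : Inv A P d c) (i0 i1 : ι) (h0 : d i0 = 2)
    (h1 : d i1 = 6) (hd : ∀ i, i ≠ i0 → 6 ≤ d i) (hlow : ∀ n : ℤ, n ≤ 5 → Wn A p n ≤ Wk ε) :
    (∀ n : ℤ, n ≤ 5 → Wn A p n ≤ VirS A p n) ∧ ¬ Wn A p 6 ≤ VirS A p 6 := by
  have hp1 : 1 ≤ p := by omega
  obtain ⟨a, ha0, ha⟩ := vgc3_omega hp ε w P d c hG hI i0 h0 hd hlow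
  have hwt0 : wtExp A p (0 : ι → ℤ) = 0 := by simp [wtExp, formZ]
  constructor
  · intro n hn v hv
    obtain ⟨f, hf, rfl⟩ := ((vg_5 hI.ade hp ε).wk v).1 (hlow n hn hv)
    rcases Vn_comp n _ hv.2 0 with h | ⟨e, he, hee⟩
    · rw [Finsupp.single_eq_same] at h
      rw [h, Finsupp.single_zero]
      exact zero_mem _
    · rw [Finsupp.single_eq_same] at he
      rw [hwt0, add_zero] at hee
      have h2 := vgc3_span hp ε w P d c hG hI f e hf he
      have h3 : (Finsupp.single 0 f : VL ι) ∈ Submodule.map (Finsupp.lsingle (0 : ι → ℤ) : Fock ι →ₗ[ℂ] VL ι)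
          (Submodule.span ℂ {g | ∃ L, wtL d L = e ∧ g = wo ε w L}) := ⟨f, h2, rfl⟩
      rw [Submodule.map_span] at h3
      refine Submodule.span_le.2 ?_ h3
      rintro _ ⟨_, ⟨L, hL, rfl⟩, rfl⟩
      have h4 := vgc3_low d i0 hd L (by omega)
      have h5 := vgc3_wd hI.ade hp1 ε w i0 a ha (L.map fun x => x.2 + 2) (by
        intro x hx
        obtain ⟨y, -, rfl⟩ := List.mem_map.1 hx
        omega)
      have h6 : (L.map fun x => x.2 + 2).map (fun x => (i0, x - 2)) = L := by
        rw [List.map_map]
        conv_rhs => rw [← List.map_id L]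
        apply List.map_congr_left
        intro x hx
        simp only [Function.comp, id, Nat.add_sub_cancel]
        rw [← h4 x hx]
      rw [h6] at h5
      have h7 : (Finsupp.single 0 (wo ε w L) : VL ι) =
          (a ^ (L.map fun x => x.2 + 2).length)⁻¹ •
            KV.wd (LS (Shift.zero A p)) (L.map fun x => x.2 + 2) vac := by
        rw [h5, smul_smul, inv_mul_cancel₀ (pow_ne_zero _ ha0), one_smul]
      rw [Finsupp.lsingle_apply, h7]
      apply Submodule.smul_mem
      apply Submodule.subset_span
      refine ⟨L.map fun x => x.2 + 2, ?_, ?_, rfl⟩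
      · intro x hx
        obtain ⟨y, -, rfl⟩ := List.mem_map.1 hx
        omega
      · rw [← hee, ← hL]
        congr 1
        unfold wtL
        congr 1
        apply List.map_congr_left
        intro x hx
        rw [h4 x hx, h0]
        omega
  · intro h6
    have hw1 : (Finsupp.single 0 (w i1) : VL ι) ∈ Wn A p 6 := by
      have h2 : (Finsupp.single 0 (w i1) : VL ι) ∈ Wk ε :=
        ((vg_5 hI.ade hp ε).wk _).2 ⟨w i1, hG.mem i1, rfl⟩
      refine ⟨h2.1, ?_⟩
      refine single_mem_Vn 0 _ 6 (by have := hG.wt i1; rwa [h1] at this) 6 ?_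
      rw [hwt0]
      norm_num
    have h2 := h6 hw1
    -- the linear map: component of degree 6 of the charge 0 part
    set Φ : VL ι →ₗ[ℂ] Fock ι := homogeneousComponent 6 ∘ₗ Finsupp.lapply 0 with hΦ
    have h3 : ∀ v ∈ VirS A p 6, Φ v ∈ Submodule.span ℂ {(inc0 (P i0) : Fock ι) ^ 3} := by
      intro v hv
      unfold VirS at hv
      induction hv using Submodule.span_induction with
      | mem x hx =>
        obtain ⟨l, hl, hs, rfl⟩ := hx
        rw [vgc3_wd hI.ade hp1 ε w i0 a ha l hl, map_smul]
        apply Submodule.smul_mem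
        rw [hΦ, LinearMap.comp_apply, Finsupp.lapply_apply, Finsupp.single_eq_same]
        set L := l.map fun x => (i0, x - 2) with hL
        have h4 := (vg_7 hI.ade hp ε).top w P d hG L
        have h5 := vg_6.pj_hom P d hG.hom L
        have h7 : dgL d L = 2 * l.length := by
          unfold dgL
          rw [hL, List.map_map]
          have : ((fun x : ι × ℕ => d x.1) ∘ fun x : ℕ => (i0, x - 2)) = fun _ => 2 := by
            funext x
            simp [h0]
          rw [this, List.map_const', List.sum_replicate, smul_eq_mul, mul_comm]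
        have hs' : l.sum = 6 := by exact_mod_cast hs
        have h8 : 2 * l.length ≤ 6 := by
          rw [← hs']
          clear h7 h5 h4 hL hs hs'
          induction l with
          | nil => simp
          | cons x l ih =>
            have := ih (fun y hy => hl y (by simp [hy]))
            have hx := hl x (by simp)
            rw [List.length_cons, List.sum_cons]
            omega
        have h9 : homogeneousComponent 6 (wo ε w L) = homogeneousComponent 6 (pj P L) := by
          have := h4 6 (by omega)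
          rw [map_sub, sub_eq_zero] at this
          exact this
        rw [h9]
        by_cases hc : l.length = 3
        · have h10 : l = [2, 2, 2] := by
            match l, hc with
            | [x, y, z], _ =>
              have hx := hl x (by simp)
              have hy := hl y (by simp)
              have hz := hl z (by simp)
              simp only [List.sum_cons, List.sum_nil] at hs'
              have e1 : x = 2 := by omega
              have e2 : y = 2 := by omega
              have e3 : z = 2 := by omega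
              rw [e1, e2, e3]
          have h11 : pj P L = inc0 (P i0) ^ 3 := by
            rw [hL, h10]
            simp only [pj, List.map_cons, List.map_nil, List.prod_cons, List.prod_nil, Nat.sub_self,
              (HA1 ι).zero]
            ring
          have h12 : (pj P L).IsHomogeneous 6 := by
            rw [show (6 : ℕ) = dgL d L by omega]
            exact h5
          rw [homogeneousComponent_of_mem h12, if_pos rfl, h11]
          exact Submodule.mem_span_singleton_self _
        · rw [homogeneousComponent_of_mem h5, if_neg (by omega)]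
          exact zero_mem _
      | zero => rw [map_zero]; exact zero_mem _
      | add x y _ _ hx hy => rw [map_add]; exact add_mem hx hy
      | smul a x _ hx => rw [map_smul]; exact Submodule.smul_mem _ _ hx
    have h4 := h3 _ h2
    rw [hΦ, LinearMap.comp_apply, Finsupp.lapply_apply, Finsupp.single_eq_same] at h4
    have h5 : homogeneousComponent 6 (w i1) = inc0 (P i1) := by
      have h7 := hG.top i1 6 (by rw [h1])
      rw [map_sub, sub_eq_zero] at h7
      rw [h7]
      have h8 := vg_6.inc_hom (P i1) 6 (by have := hG.hom i1; rwa [h1] at this)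
      rw [homogeneousComponent_of_mem h8, if_pos rfl]
    rw [h5] at h4
    obtain ⟨b, hb⟩ := Submodule.mem_span_singleton.1 h4
    have hdet : (Jac P).det ≠ 0 := by
      rw [hI.jac]
      exact mul_ne_zero (C_ne_zero.2 hI.c0) ((HA10 ι).ne A hI.ade)
    have h7 : PhJ P (X (i1, 0)) = PhJ P (b • X (i0, 0) ^ 3) := by
      rw [map_smul, map_pow]
      unfold PhJ
      rw [aeval_X, aeval_X]
      simp only [(HA1 ι).zero]
      exact hb.symm
    have h8 := (HA4 ι).inj P hdet h7
    have h9 := congrArg (pderiv (i1, 0)) h8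
    have hne : i0 ≠ i1 := by
      rintro rfl
      omega
    rw [pderiv_X_self, Derivation.map_smul, Derivation.leibniz_pow, pderiv_X_of_ne (by
      intro h
      exact hne (congrArg Prod.fst h))] at h9
    simp at h9

end

end WPE
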