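import Pool.Agent.WPQ.Ops

/-! [WPE-VGC4] `Δ_ν ≥ 7` for `E₇`, `p = 2`, `ν ≠ 0` dominant. -/

namespace WPE

open WPQ MvPolynomial

noncomputable section

/-- The norm of `E₇` is nonnegative (sum of squares). -/
private theorem vgc4_sq (x0 x1 x2 x3 x4 x5 x6 : ℤ) :
    0 ≤ x0 ^ 2 + x1 ^ 2 + x2 ^ 2 + x3 ^ 2 + x4 ^ 2 + x5 ^ 2 + x6 ^ 2 - x0 * x2 - x1 * x3 -
      x2 * x3 - x3 * x4 - x4 * x5 - x5 * x6 := by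
  have key : 6 * (2 * x0 - x2) ^ 2 + 6 * (2 * x1 - x3) ^ 2 + 2 * (3 * x2 - 2 * x3) ^ 2 +
      6 * (2 * x6 - x5) ^ 2 + 2 * (3 * x5 - 2 * x4) ^ 2 + (4 * x4 - 3 * x3) ^ 2 + x3 ^ 2 =
      24 * (x0 ^ 2 + x1 ^ 2 + x2 ^ 2 + x3 ^ 2 + x4 ^ 2 + x5 ^ 2 + x6 ^ 2 - x0 * x2 - x1 * x3 -
      x2 * x3 - x3 * x4 - x4 * x5 - x5 * x6) := by
    ring
  have e0 := sq_nonneg (2 * x0 - x2)
  have e1 := sq_nonneg (2 * x1 - x3)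
  have e2 := sq_nonneg (3 * x2 - 2 * x3)
  have e3 := sq_nonneg (2 * x6 - x5)
  have e4 := sq_nonneg (3 * x5 - 2 * x4)
  have e5 := sq_nonneg (4 * x4 - 3 * x3)
  have e6 := sq_nonneg x3
  linarith

/-- A nonzero dominant vector has height at least `14`. -/
private theorem vgc4_ht (x0 x1 x2 x3 x4 x5 x6 : ℤ) (m0 : 0 ≤ 2 * x0 - x2) (m1 : 0 ≤ 2 * x1 - x3)
    (m2 : 0 ≤ -x0 + 2 * x2 - x3) (m3 : 0 ≤ -x1 - x2 + 2 * x3 - x4) (m4 : 0 ≤ -x3 + 2 * x4 - x5)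
    (m5 : 0 ≤ -x4 + 2 * x5 - x6) (m6 : 0 ≤ -x5 + 2 * x6)
    (h : x0 + x1 + x2 + x3 + x4 + x5 + x6 ≤ 13) :
    x0 = 0 ∧ x1 = 0 ∧ x2 = 0 ∧ x3 = 0 ∧ x4 = 0 ∧ x5 = 0 ∧ x6 = 0 := by
  have key : 2 * (x0 + x1 + x2 + x3 + x4 + x5 + x6) = 34 * (2 * x0 - x2) + 49 * (2 * x1 - x3) +
      66 * (-x0 + 2 * x2 - x3) + 96 * (-x1 - x2 + 2 * x3 - x4) + 75 * (-x3 + 2 * x4 - x5) +
      52 * (-x4 + 2 * x5 - x6) + 27 * (-x5 + 2 * x6) := by ring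
  obtain ⟨y0, h0⟩ : ∃ y, y = 2 * x0 - x2 := ⟨_, rfl⟩
  obtain ⟨y1, h1⟩ : ∃ y, y = 2 * x1 - x3 := ⟨_, rfl⟩
  obtain ⟨y2, h2⟩ : ∃ y, y = -x0 + 2 * x2 - x3 := ⟨_, rfl⟩
  obtain ⟨y3, h3⟩ : ∃ y, y = -x1 - x2 + 2 * x3 - x4 := ⟨_, rfl⟩
  obtain ⟨y4, h4⟩ : ∃ y, y = -x3 + 2 * x4 - x5 := ⟨_, rfl⟩
  obtain ⟨y5, h5⟩ : ∃ y, y = -x4 + 2 * x5 - x6 := ⟨_, rfl⟩
  obtain ⟨y6, h6⟩ : ∃ y, y = -x5 + 2 * x6 := ⟨_, rfl⟩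
  rw [← h0, ← h1, ← h2, ← h3, ← h4, ← h5, ← h6] at key
  rw [← h0] at m0
  rw [← h1] at m1
  rw [← h2] at m2
  rw [← h3] at m3
  rw [← h4] at m4
  rw [← h5] at m5
  rw [← h6] at m6
  have z0 : y0 = 0 := by omega
  have z1 : y1 = 0 := by omega
  have z2 : y2 = 0 := by omega
  have z3 : y3 = 0 := by omega
  have z4 : y4 = 0 := by omega
  have z5 : y5 = 0 := by omega
  have z6 : y6 = 0 := by omega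
  rw [z0] at h0
  rw [z1] at h1
  rw [z2] at h2
  rw [z3] at h3
  rw [z4] at h4
  rw [z5] at h5
  rw [z6] at h6
  refine ⟨?_, ?_, ?_, ?_, ?_, ?_, ?_⟩ <;> omega

theorem vgc_e7 (ν : Fin 7 → ℤ) (h0 : ν ≠ 0) (hd : Dom CartanMatrix.E₇ ν) :
    6 < wtExp CartanMatrix.E₇ 2 (-ν) := by
  have hS := vgc4_sq (ν 0) (ν 1) (ν 2) (ν 3) (ν 4) (ν 5) (ν 6)
  have h1 : wtExp CartanMatrix.E₇ 2 (-ν) = 2 * (ν 0 ^ 2 + ν 1 ^ 2 + ν 2 ^ 2 + ν 3 ^ 2 + ν 4 ^ 2 +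
      ν 5 ^ 2 + ν 6 ^ 2 - ν 0 * ν 2 - ν 1 * ν 3 - ν 2 * ν 3 - ν 3 * ν 4 - ν 4 * ν 5 -
      ν 5 * ν 6) + (ν 0 + ν 1 + ν 2 + ν 3 + ν 4 + ν 5 + ν 6) := by
    have h2 : formZ CartanMatrix.E₇ 2 (-ν) (-ν) = 2 * (2 * (ν 0 ^ 2 + ν 1 ^ 2 + ν 2 ^ 2 +
        ν 3 ^ 2 + ν 4 ^ 2 + ν 5 ^ 2 + ν 6 ^ 2 - ν 0 * ν 2 - ν 1 * ν 3 - ν 2 * ν 3 - ν 3 * ν 4 -
        ν 4 * ν 5 - ν 5 * ν 6)) := by
      simp only [formZ, Fin.sum_univ_seven]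
      simp [CartanMatrix.E₇]
      ring
    have h3 : ∑ i, (-ν) i = -(ν 0 + ν 1 + ν 2 + ν 3 + ν 4 + ν 5 + ν 6) := by
      simp only [Fin.sum_univ_seven, Pi.neg_apply]
      ring
    unfold wtExp
    rw [h2, h3, Int.mul_ediv_cancel_left _ (by norm_num)]
    push_cast
    ring
  have hm : ∀ j, 0 ≤ pr CartanMatrix.E₇ j ν := hd
  simp only [pr, Fin.sum_univ_seven] at hm
  have m0 := hm 0
  have m1 := hm 1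
  have m2 := hm 2
  have m3 := hm 3
  have m4 := hm 4
  have m5 := hm 5
  have m6 := hm 6
  simp [CartanMatrix.E₇] at m0 m1 m2 m3 m4 m5 m6
  by_contra hcon
  have hle : ν 0 + ν 1 + ν 2 + ν 3 + ν 4 + ν 5 + ν 6 ≤ 13 := by
    rw [h1] at hcon
    omega
  have h := vgc4_ht (ν 0) (ν 1) (ν 2) (ν 3) (ν 4) (ν 5) (ν 6) (by omega) (by omega) (by omega)
    (by omega) (by omega) (by omega) (by omega) hle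
  obtain ⟨a0, a1, a2, a3, a4, a5, a6⟩ := h
  apply h0
  funext i
  fin_cases i
  · exact a0
  · exact a1
  · exact a2
  · exact a3
  · exact a4
  · exact a5
  · exact a6

end

end WPE
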